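import Pool.Agent.Lib.MP_813db1_ag.VH.StV

/-! The orbit of a quadratic function spans a lattice. -/

namespace Pool.Agent.Lib.MP_813db1_ag.VH

open Pool.Agent.Lib.MP_813db1_ag.HS Pool.Agent.Lib.MP_813db1_ag.AS Subgroup
open scoped Pointwise

namespace AlFix

variable {G E : Type} [Group G] [Group E]

/-- kernels of actions on lattices. -/
theorem lat {L : Type} [AddCommGroup L] [Module.Finite ℤ L] [Module.Free ℤ L]
    (s : G →* Module.End ℤ L) : IK s.ker := by
  let b := Module.finBasis ℤ L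
  let f : Module.End ℤ L →+* Mat (Fin (Module.finrank ℤ L)) :=
    (Int.castRingHom ℂ).mapMatrix.comp (LinearMap.toMatrixAlgEquiv b).toRingEquiv.toRingHom
  have hf : Function.Injective f :=
    (Matrix.map_injective (f := Int.castRingHom ℂ) Int.cast_injective).comp
      (LinearMap.toMatrixAlgEquiv b).injective
  refine ⟨_, _, _, f.toMonoidHom.comp s, fun g i j => ⟨_, rfl⟩, Subgroup.ext fun g => ?_⟩
  exact ⟨fun h => hf (h.trans (map_one f).symm), fun h => (congrArg f h).trans (map_one f)⟩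

theorem lift {M : Type} [Monoid M] (c : CE G E) (ρ : E →* M) (h : c.π.ker ≤ ρ.ker) :
    ∃ ρ' : G →* M, ∀ y, ρ' (c.π y) = ρ y := by
  choose σ hσ using c.surj
  have e : ∀ y, ρ (σ (c.π y)) = ρ y := fun y => by
    have : ρ (y⁻¹ * σ (c.π y)) = 1 := h (by simp [hσ])
    rw [← mul_one (ρ y), ← this, ← map_mul, mul_inv_cancel_left]
  refine ⟨⟨⟨fun g => ρ (σ g), by simpa using e 1⟩, fun a b => ?_⟩, e⟩
  have := e (σ a * σ b)
  rwa [map_mul, hσ, hσ, map_mul] at this

theorem dec (c : CE G E) {T : Set E} {x : E} (hx : c.π x ∈ closure (c.π '' T)) :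
    ∃ t, ∃ y ∈ closure T, x = c.ζ t * y := by
  rw [← MonoidHom.map_closure] at hx
  obtain ⟨y, hy, e⟩ := hx
  obtain ⟨t, ht⟩ := (c.ker (x * y⁻¹)).1 (by rw [map_mul, map_inv, e, mul_inv_cancel])
  exact ⟨t, y, hy, by rw [ht]; group⟩

/-- quadratic functions on the preimage of a subgroup. -/
structure Qd (c : CE G E) (Q : Subgroup G) (φ : Multiplicative ℝ → ℝ) (z : E → ℝ) : Prop where
  out : ∀ x, c.π x ∉ Q → z x = 0
  zt : ∀ t x, c.π x ∈ Q → z (c.ζ t * x) = z x + φ t
  l : ∀ s s' t, c.π s ∈ Q → c.π s' ∈ Q → c.π t ∈ Q → dfc z (s * s') t = dfc z s t + dfc z s' t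
  r : ∀ s t t', c.π s ∈ Q → c.π t ∈ Q → c.π t' ∈ Q → dfc z s (t * t') = dfc z s t + dfc z s t'

variable {c : CE G E} {Q : Subgroup G} {φ φ' : Multiplicative ℝ → ℝ} {z z' : E → ℝ}

theorem Qd.add (h : Qd c Q φ z) (h' : Qd c Q φ' z') : Qd c Q (φ + φ') (z + z') := by
  refine ⟨fun x k => ?_, fun t x k => ?_, fun s s' t k1 k2 k3 => ?_, fun s s' t k1 k2 k3 => ?_⟩
  · simp [h.out x k, h'.out x k]
  · simp only [Pi.add_apply, h.zt t x k, h'.zt t x k]; ring
  · have := h.l s s' t k1 k2 k3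
    have := h'.l s s' t k1 k2 k3
    simp only [dfc, Pi.add_apply] at *; linarith
  · have := h.r s s' t k1 k2 k3
    have := h'.r s s' t k1 k2 k3
    simp only [dfc, Pi.add_apply] at *; linarith

theorem Qd.smul (h : Qd c Q φ z) (b : ℤ) : Qd c Q (b • φ) (b • z) := by
  refine ⟨fun x k => ?_, fun t x k => ?_, fun s s' t k1 k2 k3 => ?_, fun s s' t k1 k2 k3 => ?_⟩
  · simp [h.out x k]
  · simp only [Pi.smul_apply, h.zt t x k, smul_add]
  · have := h.l s s' t k1 k2 k3
    simp only [dfc, Pi.smul_apply, zsmul_eq_mul] at *; linear_combination b * this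
  · have := h.r s s' t k1 k2 k3
    simp only [dfc, Pi.smul_apply, zsmul_eq_mul] at *; linear_combination b * this

/-- conjugation of functions. -/
def R : E →* Module.End ℤ (E → ℝ) where
  toFun y := LinearMap.funLeft ℤ ℝ fun x => y⁻¹ * x * y
  map_one' := LinearMap.ext fun z => funext fun x => congrArg z (by group)
  map_mul' y y' := LinearMap.ext fun z => funext fun x => congrArg z (by group)

theorem R_zeta (c : CE G E) (t : Multiplicative ℝ) (z : E → ℝ) : R (c.ζ t) z = z :=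
  funext fun x => congrArg z (by beta_reduce; rw [mul_assoc, ← c.cen]; group)

theorem Qd.cj (hQ : Q.Normal) (h : Qd c Q φ z) (y : E) : Qd c Q φ (R y z) := by
  have m : ∀ {x}, c.π (y⁻¹ * x * y) ∈ Q ↔ c.π x ∈ Q := fun {x} => by
    rw [map_mul, map_mul, map_inv, hQ.mem_comm_iff, mul_inv_cancel_left]
  have e : ∀ s t, dfc (R y z) s t = dfc z (y⁻¹ * s * y) (y⁻¹ * t * y) := fun s t => by
    change z _ - z _ - z _ = z _ - z _ - z _
    congr 3
    group
  have e2 : ∀ s t, y⁻¹ * (s * t) * y = y⁻¹ * s * y * (y⁻¹ * t * y) := fun s t => by group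
  refine ⟨fun x k => h.out _ fun a => k (m.1 a), fun t x k => ?_, fun s s' t k1 k2 k3 => ?_,
    fun s s' t k1 k2 k3 => ?_⟩
  · refine Eq.trans (congrArg z ?_) (h.zt t _ (m.2 k))
    beta_reduce
    rw [← mul_assoc, ← c.cen]
    simp only [mul_assoc]
  · rw [e, e, e, e2, h.l _ _ _ (m.2 k1) (m.2 k2) (m.2 k3)]
  · rw [e, e, e, e2, h.r _ _ _ (m.2 k1) (m.2 k2) (m.2 k3)]

theorem add_val {B : Submodule ℤ ℝ} {f : E → ℝ} {P : Subgroup E} {T : Set E} (hT : T ⊆ P)
    (h1 : f 1 = 0) (h : ∀ a ∈ P, ∀ b ∈ P, f (a * b) - f a - f b ∈ B) (h0 : ∀ x ∈ T, f x ∈ B) :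
    ∀ x ∈ closure T, f x ∈ B := fun x hx => by
  have le : closure T ≤ P := (closure_le _).2 hT
  induction hx using closure_induction with
  | mem x hx => exact h0 x hx
  | one => rw [h1]; exact zero_mem B
  | mul x y hx hy a b =>
    have := add_mem (add_mem (h x (le hx) y (le hy)) b) a
    rwa [sub_add_cancel, sub_add_cancel] at this
  | inv x hx a =>
    have := neg_mem (add_mem (h x (le hx) _ (le (inv_mem hx))) a)
    rwa [mul_inv_cancel, h1, show -(0 - f x - f x⁻¹ + f x) = f x⁻¹ by ring] at this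

theorem Qd.val (h : Qd c Q 0 z) {B : Submodule ℤ ℝ} {T : Set E} (hT : closure (c.π '' T) = Q)
    (h1 : ∀ x ∈ T ∪ T * T, z x ∈ B) (x : E) : z x ∈ B := by
  by_cases hx : c.π x ∈ Q
  swap
  · rw [h.out x hx]; exact zero_mem B
  have hT' : T ⊆ Q.comap c.π := fun x hx => hT.le (subset_closure ⟨x, hx, rfl⟩)
  have le : closure T ≤ Q.comap c.π := (closure_le _).2 hT'
  have o : c.π 1 ∈ Q := by rw [map_one]; exact one_mem Q
  have l1 : ∀ t, c.π t ∈ Q → dfc z 1 t = 0 := fun t k => by simpa using h.l 1 1 t o o k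
  have r1 : ∀ t, c.π t ∈ Q → dfc z t 1 = 0 := fun t k => by simpa using h.r t 1 1 k o o
  have a1 : ∀ t ∈ T, ∀ s ∈ closure T, dfc z s t ∈ B := fun t ht =>
    add_val (P := Q.comap c.π) hT' (l1 t (hT' ht))
      (fun s k s' k' => by rw [h.l s s' t k k' (hT' ht)]; simp) fun s k =>
      sub_mem (sub_mem (h1 _ (Or.inr (Set.mul_mem_mul k ht))) (h1 _ (Or.inl k))) (h1 _ (Or.inl ht))
  have a2 : ∀ s ∈ closure T, ∀ t ∈ closure T, dfc z s t ∈ B := fun s hs =>
    add_val (P := Q.comap c.π) hT' (r1 s (le hs))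
      (fun t k t' k' => by rw [h.r s t t' (le hs) k k']; simp) fun t k => a1 t k s hs
  have a3 := add_val (f := z) subset_closure (by simpa [dfc] using l1 1 o) a2
    fun x k => h1 x (Or.inl k)
  obtain ⟨t, y, hy, rfl⟩ := dec c (hT.ge hx)
  rw [h.zt t y (le hy)]
  simpa using a3 y hy

/-- invariant quadratic functions with values in `B`. -/
def V (c : CE G E) (Q : Subgroup G) (B : Submodule ℤ ℝ) : Submodule ℤ (E → ℝ) where
  carrier := {z | Qd c Q 0 z ∧ ∀ x, z x ∈ B}
  add_mem' := fun h h' => ⟨by simpa using h.1.add h'.1, fun x => add_mem (h.2 x) (h'.2 x)⟩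
  zero_mem' := ⟨⟨fun _ _ => rfl, fun _ _ _ => by simp, fun _ _ _ _ _ _ => by simp [dfc],
    fun _ _ _ _ _ _ => by simp [dfc]⟩, fun _ => zero_mem B⟩
  smul_mem' := fun b _ h => ⟨by simpa only [smul_zero] using h.1.smul b,
    fun x => B.smul_mem b (h.2 x)⟩

theorem V_fg {B : Submodule ℤ ℝ} (hB : B.FG) {T : Set E} (hT : closure (c.π '' T) = Q)
    (hf : T.Finite) : (V c Q B).FG := by
  have := (hf.union (hf.mul hf)).to_subtype
  have : Module.Finite ℤ B := Module.Finite.iff_fg.2 hB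
  let f : V c Q B →ₗ[ℤ] ((T ∪ T * T : Set E) → B) :=
    { toFun := fun w x => ⟨w.1 x, w.2.2 x⟩
      map_add' := fun _ _ => rfl
      map_smul' := fun _ _ => rfl }
  refine Module.Finite.iff_fg.1 (Module.Finite.of_injective f ((injective_iff_map_eq_zero f).2
    fun w hw => Subtype.ext (funext fun x => ?_)))
  exact w.2.1.val (B := ⊥) hT (fun x k => congrArg Subtype.val (congrFun hw ⟨x, k⟩)) x

theorem gens (c : CE G E) (hQ : Q.FG) : ∃ T : Set E, T.Finite ∧ closure (c.π '' T) = Q := by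
  obtain ⟨S, hS⟩ := hQ
  choose σ hσ using c.surj
  refine ⟨σ '' S, S.finite_toSet.image σ, ?_⟩
  rw [Set.image_image]
  simpa [hσ] using hS

theorem fix (h : Qd c Q φ z) (hG : Group.FG G) (hQ : Q.Normal) (hq : Q.FG) :
    ∃ K, IK K ∧ ∀ y, c.π y ∈ K → R y z = z := by
  obtain ⟨T, t1, t2⟩ := gens c hq
  obtain ⟨S, s1, s2⟩ := gens c hG.out
  let B := Submodule.span ℤ (Set.image2 (fun y x => (R y z - z) x) S (T ∪ T * T))
  have hB : B.FG := Submodule.fg_span (s1.image2 _ (t1.union (t1.mul t1)))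
  have iv : ∀ y, ∀ w ∈ V c Q B, R y w ∈ V c Q B := fun y w k => ⟨k.1.cj hQ y, fun _ => k.2 _⟩
  have w1 : ∀ y ∈ closure S, R y z - z ∈ V c Q B := fun y hy => by
    induction hy using closure_induction with
    | mem y hy =>
      have q : Qd c Q 0 (R y z - z) := by
        simpa only [neg_one_zsmul, add_neg_cancel, ← sub_eq_add_neg, sub_self] using
          (h.cj hQ y).add (h.smul (-1))
      exact ⟨q, q.val t2 fun x k => Submodule.subset_span ⟨y, hy, x, k, rfl⟩⟩
    | one => simp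
    | mul x y _ _ a b =>
      have := add_mem (iv x _ b) a
      rwa [map_sub, sub_add_sub_cancel, ← Module.End.mul_apply, ← map_mul] at this
    | inv x _ a =>
      have := neg_mem (iv x⁻¹ _ a)
      rwa [map_sub, neg_sub, ← Module.End.mul_apply, ← map_mul, inv_mul_cancel, map_one,
        Module.End.one_apply] at this
  have w2 : ∀ y, R y z - z ∈ V c Q B := fun y => by
    obtain ⟨t, y', hy, rfl⟩ := dec c (s2.ge (mem_top (c.π y)))
    rw [map_mul, Module.End.mul_apply, R_zeta]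
    exact w1 y' hy
  let L := V c Q B ⊔ Submodule.span ℤ {z}
  have hz : z ∈ L := Submodule.mem_sup_right (Submodule.mem_span_singleton_self z)
  have : Module.Finite ℤ L :=
    Module.Finite.iff_fg.2 ((V_fg hB t2 t1).sup (Submodule.fg_span_singleton z))
  have iL : ∀ y, ∀ w ∈ L, R y w ∈ L := fun y =>
    (sup_le (fun w k => Submodule.mem_sup_left (iv y w k)) (Submodule.span_le.2 (by
      rintro _ rfl
      simpa using add_mem (Submodule.mem_sup_left (w2 y)) hz)) : L ≤ L.comap (R y))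
  let ρ : E →* Module.End ℤ L :=
    { toFun := fun y => (R y).restrict (iL y)
      map_one' := LinearMap.ext fun v => Subtype.ext (LinearMap.congr_fun (map_one R) v.1)
      map_mul' := fun y y' => LinearMap.ext fun v =>
        Subtype.ext (LinearMap.congr_fun (map_mul R y y') v.1) }
  obtain ⟨ρ', e⟩ := lift c ρ fun y hy => by
    obtain ⟨t, rfl⟩ := (c.ker y).1 hy
    exact LinearMap.ext fun v => Subtype.ext (R_zeta c t v.1)
  exact ⟨ρ'.ker, lat ρ', fun y hy =>
    congrArg Subtype.val (LinearMap.congr_fun ((e y).symm.trans hy) ⟨z, hz⟩)⟩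

end AlFix

open AlFix in
theorem fixS : FixS := by
  classical
  intro G E _ _ c Q z φ hG hQ hq h1 h2 h3
  let z' : E → ℝ := fun x => if c.π x ∈ Q then z x else 0
  have e : ∀ {x}, c.π x ∈ Q → z' x = z x := fun k => if_pos k
  have m : ∀ {s t}, c.π s ∈ Q → c.π t ∈ Q → c.π (s * t) ∈ Q := fun a b => by
    rw [map_mul]; exact mul_mem a b
  have d : ∀ {s t}, c.π s ∈ Q → c.π t ∈ Q → dfc z' s t = dfc z s t := fun a b => by
    rw [dfc, dfc, e a, e b, e (m a b)]
  have q : Qd c Q φ z' := by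
    refine ⟨fun x k => if_neg k, fun t x k => ?_, fun s s' t k1 k2 k3 => ?_,
      fun s s' t k1 k2 k3 => ?_⟩
    · rw [e k, e (m (by rw [(c.ker _).2 ⟨t, rfl⟩]; exact one_mem Q) k), h1 t x k]
    · rw [d (m k1 k2) k3, d k1 k3, d k2 k3, h2 s s' t k1 k2 k3]
    · rw [d k1 (m k2 k3), d k1 k3, d k1 k2, h3 s s' t k1 k2 k3]
  obtain ⟨K, k1, k2⟩ := fix q hG hQ hq
  refine ⟨K, k1, fun y hy x hx => ?_⟩
  have a : z' (y⁻¹⁻¹ * x * y⁻¹) = z' x :=
    congrFun (k2 y⁻¹ (by rw [map_inv]; exact inv_mem hy)) x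
  rwa [inv_inv, e hx, e (by rw [map_mul, map_mul, map_inv]; exact hQ.conj_mem _ hx _)] at a

end Pool.Agent.Lib.MP_813db1_ag.VH
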