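import Pool.Agent.Lib.MP_813db1_ag.VH.StV

/-! A representation that is irreducible over the rationals is semisimple over the reals. -/

namespace Pool.Agent.Lib.MP_813db1_ag.VH

open Pool.Agent.Lib.MP_813db1_ag.HS Matrix Set Polynomial

namespace AlSs

variable {G r K : Type} [Group G] [Fintype r] [DecidableEq r] [Field K]

theorem mem_adj (τ : G →* Matrix r r K) {a : Matrix r r K} :
    a ∈ Algebra.adjoin K (range τ) ↔ a ∈ Submodule.span K (range τ) := by
  rw [← Subalgebra.mem_toSubmodule, Algebra.adjoin_eq_span, ← MonoidHom.coe_mrange,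
    Submonoid.closure_eq]

theorem nil [CharZero K] {x : Matrix r r K} (h : ∀ f : K[X], trace (aeval x f * x) = 0) :
    IsNilpotent x := by
  obtain ⟨q, e, hq⟩ := exists_eq_pow_rootMultiplicity_mul_and_not_dvd _
    (charpoly_monic x).ne_zero 0
  rw [map_zero, sub_zero] at e hq
  generalize rootMultiplicity 0 x.charpoly = m at e
  obtain ⟨u, w, c⟩ : IsCoprime (X ^ (m + 1) : K[X]) q :=
    ((irreducible_X.coprime_iff_not_dvd).2 hq).pow_left
  have z : aeval x (X ^ m * q) = 0 := e ▸ aeval_self_charpoly x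
  have i : IsIdempotentElem (aeval x (u * X ^ (m + 1))) := by
    rw [IsIdempotentElem, ← map_mul, ← sub_eq_zero, ← map_sub,
      show u * X ^ (m + 1) * (u * X ^ (m + 1)) - u * X ^ (m + 1) = -u * w * X * (X ^ m * q) by
        linear_combination u * X ^ (m + 1) * c, map_mul, z, mul_zero]
  have t : aeval x (u * X ^ (m + 1)) = 0 := by
    refine (map_eq_zero_iff _ toLinAlgEquiv'.injective).1
      (LinearMap.IsIdempotentElem.eq_zero_of_trace_eq_zero (i.map toLinAlgEquiv') ?_)
    refine (trace_toLin'_eq _).trans ?_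
    rw [pow_succ, ← mul_assoc, map_mul, aeval_X, h]
  refine ⟨m, ?_⟩
  rw [← aeval_X_pow (R := K), show (X ^ m : K[X]) = X ^ m * (u * X ^ (m + 1)) + w * (X ^ m * q) by
    linear_combination -X ^ m * c, map_add, map_mul, t, map_mul _ w, z, mul_zero, mul_zero, add_zero]

theorem nondeg [CharZero K] (τ : G →* Matrix r r K)
    (h : ∀ W : Submodule K (r → K), (∀ g, ∀ v ∈ W, τ g *ᵥ v ∈ W) → W = ⊥ ∨ W = ⊤)
    {a : Matrix r r K} (ha : a ∈ Algebra.adjoin K (range τ)) (t : ∀ g, trace (τ g * a) = 0) :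
    a = 0 := by
  have t' : ∀ b ∈ Algebra.adjoin K (range τ), trace (b * a) = 0 := fun b hb => by
    induction (mem_adj τ).1 hb using Submodule.span_induction with
    | mem x hx => obtain ⟨g, rfl⟩ := hx; exact t g
    | zero => simp
    | add x y hx hy a b => rw [add_mul, trace_add, a ((mem_adj τ).2 hx), b ((mem_adj τ).2 hy), add_zero]
    | smul c x hx a => rw [smul_mul_assoc, trace_smul, a ((mem_adj τ).2 hx), smul_zero]
  refine ext_iff_mulVec.2 fun v => ?_
  rcases h ((Algebra.adjoin K (range τ)).toSubmodule.map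
      (LinearMap.flip (mulVecBilin K K) (a *ᵥ v))) (by
    rintro g _ ⟨b, hb, rfl⟩
    exact ⟨τ g * b, Subalgebra.mul_mem _ (Algebra.subset_adjoin ⟨g, rfl⟩) hb,
      (mulVec_mulVec _ _ _).symm⟩)
    with e | e
  · simpa using (Submodule.eq_bot_iff _).1 e _ ⟨1, Subalgebra.one_mem _, rfl⟩
  obtain ⟨b, hb, e⟩ := Submodule.eq_top_iff'.1 e v
  obtain ⟨n, hn⟩ := nil (x := b * a) fun f => by
    rw [← mul_assoc]
    exact t' _ (Subalgebra.mul_mem _ (Algebra.adjoin_le
      (singleton_subset_iff.2 (Subalgebra.mul_mem _ hb ha)) (aeval_mem_adjoin_singleton K _)) hb)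
  have : ∀ k, (b * a) ^ k *ᵥ v = v := fun k => by
    induction k with
    | zero => simp
    | succ k ih => rw [pow_succ, ← mulVec_mulVec, ← mulVec_mulVec]; exact (congrArg _ e).trans ih
  rw [← this n, hn]
  simp

theorem desc (τ : G →* Matrix r r ℚ) (ρ : G →* Mat r) (hτ : ∀ g i j, ρ g i j = τ g i j)
    (h : ∀ W : Submodule ℚ (r → ℚ), (∀ g, ∀ v ∈ W, τ g *ᵥ v ∈ W) → W = ⊥ ∨ W = ⊤)
    {a : Mat r} (ha : a ∈ Algebra.adjoin ℂ (range ρ)) (t : ∀ g, trace (ρ g * a) = 0) : a = 0 := by
  have m : ∀ l : Module.Dual ℚ ℂ, a.map l ∈ Submodule.span ℚ (range τ) := by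
    clear t
    replace ha := (mem_adj ρ).1 ha
    induction ha using Submodule.span_induction with
    | mem x hx =>
      obtain ⟨g, rfl⟩ := hx
      intro l
      convert Submodule.smul_mem _ (l 1) (Submodule.subset_span (mem_range_self (f := τ) g))
        using 1
      ext i j
      rw [map_apply, hτ, Matrix.smul_apply, smul_eq_mul, mul_comm, ← smul_eq_mul, ← map_smul]
      simp
    | zero => simp
    | add x y hx hy a b =>
      intro l
      rw [Matrix.map_add _ (map_add l)]
      exact add_mem (a l) (b l)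
    | smul c x hx a => exact fun l => a (l ∘ₗ LinearMap.mulLeft ℚ c)
  ext i j
  refine (Module.forall_dual_apply_eq_zero_iff ℚ _).1 fun l => ?_
  refine congrFun (congrFun (nondeg τ h ((mem_adj τ).2 (m l)) fun g => ?_) i) j
  rw [← map_zero l, ← t g]
  simp only [trace, diag, Matrix.mul_apply, map_sum, map_apply, hτ]
  refine Finset.sum_congr rfl fun i _ => Finset.sum_congr rfl fun j _ => ?_
  rw [← smul_eq_mul, ← map_smul, Rat.smul_def]

theorem semi (τ : G →* Matrix r r K)
    (nd : ∀ a ∈ Algebra.adjoin K (range τ), (∀ g, trace (τ g * a) = 0) → a = 0) :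
    IsSemisimpleRing (Algebra.adjoin K (range τ)) := by
  have : IsArtinianRing (Algebra.adjoin K (range τ)) := IsArtinianRing.of_finite K _
  rw [IsArtinianRing.isSemisimpleRing_iff_jacobson, Submodule.eq_bot_iff]
  refine fun a ha => Subtype.ext (nd a a.2 fun g => ?_)
  obtain ⟨n, hn⟩ := IsSemiprimaryRing.isNilpotent (R := Algebra.adjoin K (range τ))
  have := Ideal.pow_mem_pow (Ideal.mul_mem_left _ ⟨τ g, Algebra.subset_adjoin ⟨g, rfl⟩⟩ ha) n
  rw [hn] at this
  exact (isNilpotent_trace_of_isNilpotent ⟨n, congrArg Subtype.val this⟩).eq_zero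

theorem proj (τ : G →* Matrix r r K) [IsSemisimpleRing (Algebra.adjoin K (range τ))]
    (W : Submodule K (r → K)) (iv : ∀ g, ∀ v ∈ W, τ g *ᵥ v ∈ W) :
    ∃ π : (r → K) →ₗ[K] r → K, (∀ v, π v ∈ W) ∧ (∀ v ∈ W, π v = v) ∧
      ∀ g v, π (τ g *ᵥ v) = τ g *ᵥ π v := by
  have m : ∀ a ∈ Submodule.span K (range τ), ∀ v ∈ W, a *ᵥ v ∈ W := fun a ha v hv => by
    induction ha using Submodule.span_induction with
    | mem x hx => obtain ⟨g, rfl⟩ := hx; exact iv g v hv
    | zero => simp
    | add x y hx hy a b => rw [add_mulVec]; exact add_mem a b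
    | smul c x hx a => rw [smul_mulVec]; exact W.smul_mem c a
  let U : Submodule (Algebra.adjoin K (range τ)) (r → K) :=
    { W.toAddSubmonoid with smul_mem' := fun a v hv => m _ ((mem_adj τ).1 a.2) v hv }
  obtain ⟨U', hU⟩ := exists_isCompl U
  have p1 := Submodule.projection_apply_mem hU
  have p2 := Submodule.projection_apply_left hU
  generalize U.projection U' hU = π at p1 p2
  refine ⟨π.restrictScalars K, p1, fun v hv => p2 ⟨v, hv⟩, fun g v => ?_⟩
  exact π.map_smul ⟨τ g, Algebra.subset_adjoin (mem_range_self g)⟩ v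

end AlSs

open AlSs in
theorem ssS : SsS := fun G r _ _ _ σ ρ hρ hI W re iv => by
  have := semi ρ fun a => desc ((Int.castRingHom ℚ).mapMatrix.toMonoidHom.comp σ) ρ
    (fun g i j => by simp [hρ]) hI
  obtain ⟨π, p1, p2, p3⟩ := proj ρ W iv
  have st : ∀ g v, star (ρ g *ᵥ v) = ρ g *ᵥ star v := fun g v => by
    ext i
    simp [mulVec, dotProduct, hρ]
  let f : V r →ₗ[ℂ] W :=
    { toFun := fun v => ⟨(2⁻¹ : ℂ) • (π v + star (π (star v))),
        W.smul_mem _ (add_mem (p1 _) (re _ (p1 _)))⟩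
      map_add' := fun x y => Subtype.ext (by simp [add_add_add_comm])
      map_smul' := fun c x => Subtype.ext (by simp [smul_comm c]) }
  have k : ∀ v, v ∈ LinearMap.ker f ↔ π v + star (π (star v)) = 0 := fun v => by
    rw [LinearMap.mem_ker, Subtype.ext_iff]
    exact smul_eq_zero_iff_right (inv_ne_zero two_ne_zero)
  refine ⟨LinearMap.ker f, fun v hv => ?_, fun g v hv => ?_,
    LinearMap.isCompl_of_proj fun x => Subtype.ext ?_⟩
  · rw [k] at hv ⊢
    rw [star_star, ← star_star (π (star v)), ← star_add, add_comm, hv, star_zero]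
  · rw [k] at hv ⊢
    rw [st, p3, p3, st, ← mulVec_add, hv, mulVec_zero]
  · change (2⁻¹ : ℂ) • (π x + star (π (star x))) = x
    rw [p2 _ x.2, p2 _ (re _ x.2), star_star, ← two_smul ℂ, inv_smul_smul₀ two_ne_zero]

end Pool.Agent.Lib.MP_813db1_ag.VH
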