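import Pool.Agent.Lib.MP_813db1_ag.VH.StV

/-! Integral block form of representations, integral cocycles. -/

namespace Pool.Agent.Lib.MP_813db1_ag.VH

open Pool.Agent.Lib.MP_813db1_ag.HS Matrix

namespace AlTri

variable {G r : Type} [Group G] [Fintype r] [DecidableEq r]

theorem lift {ρ : G →* Mat r} (h : IntR ρ) :
    ∃ σ : G →* Matrix r r ℤ, ∀ g, ρ g = (σ g).map (Int.cast : ℤ → ℂ) := by
  choose m hm using h
  have e : ∀ g, ρ g = (Int.castRingHom ℂ).mapMatrix (of (m g)) := fun g => Matrix.ext (hm g)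
  have i : Function.Injective ((Int.castRingHom ℂ).mapMatrix : Matrix r r ℤ → _) :=
    Matrix.map_injective Int.cast_injective
  exact ⟨⟨⟨fun g => of (m g), i (by rw [← e, map_one, map_one])⟩,
    fun g g' => i (by rw [map_mul, ← e, ← e, ← e, map_mul])⟩, e⟩

omit [DecidableEq r] in
theorem cpl (W : Submodule ℚ (r → ℚ)) : ∃ N N' : Submodule ℤ (r → ℤ), IsCompl N N' ∧
    ∀ v, v ∈ N ↔ (fun i => (v i : ℚ)) ∈ W := by
  let f := (W.mkQ.restrictScalars ℤ).comp ((Algebra.linearMap ℤ ℚ).compLeft r)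
  have : IsAddTorsionFree ((r → ℚ) ⧸ W) := .of_module_rat _
  obtain ⟨s, hs⟩ := f.rangeRestrict.exists_rightInverse_of_surjective f.range_rangeRestrict
  have e : ∀ x, f.rangeRestrict (s x) = x := LinearMap.congr_fun hs
  have i : IsIdempotentElem (s.comp f.rangeRestrict) :=
    LinearMap.ext fun x => congrArg s (e _)
  refine ⟨_, _, (LinearMap.IsIdempotentElem.isCompl i).symm, fun v => ?_⟩
  rw [LinearMap.ker_comp_of_ker_eq_bot _ (LinearMap.ker_eq_bot.2
    (Function.LeftInverse.injective e)), LinearMap.ker_rangeRestrict]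
  exact Submodule.Quotient.mk_eq_zero W

theorem blk {a b : Type} [Fintype a] [DecidableEq a] [Fintype b] [DecidableEq b]
    (T : G → Mat (a ⊕ b)) (h1 : T 1 = 1) (hm : ∀ g g', T (g * g') = T g * T g')
    (h0 : ∀ g, (T g).toBlocks₂₁ = 0) : ∃ (ρ₁ : G →* Mat a) (ρ₂ : G →* Mat b),
      ∀ g, T g = fromBlocks (ρ₁ g) (T g).toBlocks₁₂ 0 (ρ₂ g) := by
  have e : ∀ g, T g = fromBlocks (T g).toBlocks₁₁ (T g).toBlocks₁₂ 0 (T g).toBlocks₂₂ :=
    fun g => by rw [← h0 g, fromBlocks_toBlocks]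
  have m := fun g g' => (e _).symm.trans ((hm g g').trans (congrArg₂ (· * ·) (e g) (e g')))
  simp only [fromBlocks_multiply, fromBlocks_inj, Matrix.mul_zero, Matrix.zero_mul, add_zero,
    zero_add] at m
  have o := fromBlocks_inj.1 ((e 1).symm.trans (h1.trans fromBlocks_one.symm))
  exact ⟨⟨⟨fun g => (T g).toBlocks₁₁, o.1⟩, fun g g' => (m g g').1⟩,
    ⟨⟨fun g => (T g).toBlocks₂₂, o.2.2.2⟩, fun g g' => (m g g').2.2.2⟩, e⟩

end AlTri

open AlTri Module

theorem triC (h : SsS) : TriC := by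
  intro G r _ _ _ ρ hρ
  obtain ⟨σ, hσ⟩ := lift hρ
  refine or_iff_not_imp_left.2 fun hn => ?_
  have hi : ¬IrrQ σ := fun hi => hn (h G r σ ρ hσ hi)
  simp only [IrrQ, not_forall, not_or] at hi
  obtain ⟨W, hW, h0, h1⟩ := hi
  obtain ⟨N, N', hc, hN⟩ := cpl W
  let β := ((finBasis ℤ N).prod (finBasis ℤ N')).map (N.prodEquivOfIsCompl N' hc)
  have hab : Fintype.card r = finrank ℤ N + finrank ℤ N' := by
    simpa using finrank_eq_card_basis β
  have ha : finrank ℤ N ≠ 0 := fun e => h0 (eq_bot_iff.2 fun v hv => by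
    obtain ⟨d, hd⟩ := IsLocalization.exist_integer_multiples_of_finite (nonZeroDivisors ℤ) v
    choose w hw using hd
    have : w ∈ N := (hN w).2 (by
      convert W.smul_of_tower_mem (d : ℤ) hv
      exact hw _)
    rw [Submodule.finrank_eq_zero.1 e, Submodule.mem_bot] at this
    funext i
    have := hw i
    simp_all)
  have hb : finrank ℤ N' ≠ 0 := fun e => h1 (by
    rw [Submodule.finrank_eq_zero.1 e] at hc
    refine eq_top_iff.2 ((Pi.basisFun ℚ r).span_eq.ge.trans (Submodule.span_le.2 ?_))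
    rintro _ ⟨i, rfl⟩
    refine (congrArg (· ∈ W) (funext fun k => ?_)).mp
      ((hN (Pi.single i 1)).1 (eq_top_of_isCompl_bot hc ▸ trivial))
    simp [Pi.single_apply])
  let c := Int.castRingHom ℂ
  let P := ((Pi.basisFun ℤ r).toMatrix β).map c
  let P' := (β.toMatrix (Pi.basisFun ℤ r)).map c
  have e1 : P * P' = 1 := by
    rw [← Matrix.map_mul, Basis.toMatrix_mul_toMatrix_flip, Matrix.map_one _ c.map_zero c.map_one]
  have e2 : P' * P = 1 := by
    rw [← Matrix.map_mul, Basis.toMatrix_mul_toMatrix_flip, Matrix.map_one _ c.map_zero c.map_one]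
  have e3 : ∀ g, P' * ρ g * P = (LinearMap.toMatrix β β (toLin' (σ g))).map c := fun g => by
    rw [← basis_toMatrix_mul_linearMap_toMatrix_mul_basis_toMatrix β (Pi.basisFun ℤ r) β
      (Pi.basisFun ℤ r), Matrix.map_mul, Matrix.map_mul, LinearMap.toMatrix_eq_toMatrix',
      LinearMap.toMatrix'_toLin', hσ]
    rfl
  obtain ⟨ρ₁, ρ₂, e⟩ := blk (fun g => P' * ρ g * P) (by simp [e2]) (fun g g' => by
    simp only [map_mul, Matrix.mul_assoc, ← Matrix.mul_assoc P P', e1, Matrix.one_mul]) fun g => by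
      ext i j
      have m : toLin' (σ g) (β (.inl j)) ∈ N := (hN _).2 (by
        convert hW g _ ((hN (β (.inl j))).1 (by simp [β]))
        simp [mulVec, dotProduct])
      rw [e3, toBlocks₂₁, of_apply, map_apply, LinearMap.toMatrix_apply, Basis.map_repr,
        LinearEquiv.trans_apply, Basis.prod_repr_inr,
        (Submodule.prodEquivOfIsCompl_symm_apply_snd_eq_zero _ _ hc).2 m]
      simp
  exact ⟨_, _, P, P', ρ₁, ρ₂, by omega, by omega, e1, e2,
    fun g i j => ⟨_, congrFun₂ ((e g).symm.trans (e3 g)) (.inl i) (.inl j)⟩,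
    fun g i j => ⟨_, congrFun₂ ((e g).symm.trans (e3 g)) (.inr i) (.inr j)⟩, fun g => ⟨_, e g⟩⟩

theorem intC : IntC := by
  intro G r _ _ _ ρ c hG hρ hc
  choose m hm using hρ
  obtain ⟨S, hS, hf⟩ := Group.fg_iff.1 hG
  let B := Submodule.span ℤ (Set.image2 c S Set.univ)
  have : Module.Finite ℤ B := Module.Finite.span_of_finite ℤ (hf.image2 c Set.finite_univ)
  have e : ∀ g (v : V r) i, (ρ g *ᵥ v) i = ∑ k, m g i k • v k := fun g v i => by
    simp [mulVec, dotProduct, hm]
  have h1 : c 1 = 0 := by simpa using hc 1 1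
  have hB : ∀ g i, c g i ∈ B := fun g => by
    have hg : g ∈ Subgroup.closure S := hS ▸ trivial
    induction hg using Subgroup.closure_induction with
    | mem x hx => exact fun i => Submodule.subset_span (Set.mem_image2_of_mem hx trivial)
    | one => simp [h1]
    | mul x y _ _ hx hy =>
      intro i
      rw [hc, Pi.add_apply, e]
      exact add_mem (hx i) (sum_mem fun k _ => B.smul_mem _ (hy k))
    | inv x _ hx =>
      intro i
      have := hc x⁻¹ x
      rw [inv_mul_cancel, h1, eq_comm, add_eq_zero_iff_eq_neg] at this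
      rw [this, Pi.neg_apply, e]
      exact neg_mem (sum_mem fun k _ => B.smul_mem _ (hx k))
  let t := finBasis ℤ B
  refine ⟨_, fun j => t j, fun j g i => t.repr ⟨_, hB g i⟩ j, fun j => ⟨fun g g' => ?_,
    fun g i => ⟨_, rfl⟩⟩, fun g => funext fun i => ?_⟩
  · funext i
    have : (⟨_, hB (g * g') i⟩ : B) = ⟨_, hB g i⟩ + ∑ k, m g i k • ⟨_, hB g' k⟩ :=
      Subtype.ext (by simp [hc g g', e])
    simp only [this, e, map_add, map_sum, map_zsmul, Pi.add_apply, Finsupp.add_apply,
      Finsupp.finsetSum_apply, Finsupp.smul_apply]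
    simp
  · have := congrArg Subtype.val (t.sum_repr ⟨_, hB g i⟩)
    rw [Submodule.coe_sum] at this
    refine this.symm.trans ?_
    simp [mul_comm]

end Pool.Agent.Lib.MP_813db1_ag.VH
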