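import Pool.Agent.Lib.MP_813db1_ag.VH.StV
import Pool.Agent.Lib.MP_bbd4b9_ag.NH.Alg
import Pool.Agent.Lib.MP_bbd4b9_ag.NH.Can
import Pool.Agent.Lib.MP_bbd4b9_ag.NH.Nil
import Pool.Agent.Lib.MP_bbd4b9_ag.NH.Z

/-! Canonical lifts for a normal virtually nilpotent subgroup. -/

namespace Pool.Agent.Lib.MP_813db1_ag.VH

open Subgroup Pool.Agent.Lib.MP_813db1_ag.HS Pool.Agent.Lib.MP_813db1_ag.AS
open Pool.Agent.Lib.MP_bbd4b9_ag Pool.Agent.Lib.MP_bbd4b9_ag.AR Pool.Agent.Lib.MP_bbd4b9_ag.NH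
open scoped Pointwise

namespace AlV

variable {G E : Type} [Group G] [Group E] {K K' N P Q : Subgroup G}

theorem ik_top : IK (⊤ : Subgroup G) :=
  ⟨Empty, inferInstance, inferInstance, 1, fun _ i => i.elim, MonoidHom.ker_one⟩

theorem ik_nor (h : IK K) : K.Normal := by
  obtain ⟨_, _, _, ρ, -, rfl⟩ := h
  infer_instance

theorem ik_inf (h : IK K) (h' : IK K') : IK (K ⊓ K') := by
  obtain ⟨r, _, _, ρ, h, rfl⟩ := h
  obtain ⟨r', _, _, ρ', h', rfl⟩ := h'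
  refine ⟨r ⊕ r', inferInstance, inferInstance, ⟨⟨fun g => Matrix.fromBlocks (ρ g) 0 0 (ρ' g),
    by simp⟩, fun a b => by simp [Matrix.fromBlocks_multiply]⟩, fun g i j => ?_, ?_⟩
  · rcases i with i | i <;> rcases j with j | j
    exacts [h g i j, ⟨0, by simp⟩, ⟨0, by simp⟩, h' g i j]
  · ext g
    simp only [MonoidHom.mem_ker, MonoidHom.coe_mk, OneHom.coe_mk, mem_inf]
    rw [← Matrix.fromBlocks_one, Matrix.fromBlocks_inj]
    simp

theorem ri_l {H L : Subgroup G} (h : H ≤ K) (a : H.relIndex L ≠ 0) : K.relIndex L ≠ 0 :=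
  mt (relIndex_eq_zero_of_le_left h) a

theorem min {f : ℕ} (h : Rk N f) : ∃ K, IK K ∧ ∀ K', IK K' → K'.relIndex (N ⊓ K) ≠ 0 := by
  by_contra hc
  have d : ∀ K : {K : Subgroup G // IK K}, ∃ K' : {K : Subgroup G // IK K}, K'.1 ≤ K.1 ∧
      (N ⊓ K'.1).relIndex (N ⊓ K.1) = 0 := fun K => by
    by_contra h1
    exact hc ⟨K, K.2, fun K' a e => h1 ⟨⟨_, ik_inf K.2 a⟩, inf_le_left,
      relIndex_eq_zero_of_le_left (inf_le_right.trans inf_le_right) e⟩⟩
  choose F f1 f2 using d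
  have := h (fun i => N ⊓ (F^[i] ⟨⊤, ik_top⟩).1) (Finset.range (f + 1)) inf_le_left
    (antitone_nat_of_succ_le fun i => by
      rw [Function.iterate_succ_apply']
      exact inf_le_inf_left _ (f1 _)) fun i _ => by
      rw [Function.iterate_succ_apply']
      exact f2 _
  simp at this

theorem core (n : P.Normal) (h : Pc P) (r : Q.relIndex P ≠ 0) : Q.normalCore.relIndex P ≠ 0 := by
  obtain ⟨S, s1, s2⟩ := h
  refine ri_l ((closure_le _).2 ?_) (s2 _ (Nat.factorial_pos (Q.relIndex P)))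
  rintro _ ⟨x, hx, rfl⟩ g
  rw [← conj_pow]
  exact (pow_mem_of_relIndex_ne_zero_of_dvd r (n.conj_mem x (s1 x hx) g)
    fun m m0 hm => Nat.dvd_factorial m0 hm).1

/-- invariant characters vanish on commutators. -/
theorem key (h : FixS) (hG : Group.FG G) (c : CE G E) (hK : ∀ K', IK K' → K'.relIndex P ≠ 0)
    (le : Q ≤ P) (n1 : Q.Normal) (n2 : Q.FG) {H : Subgroup E} {ψ : E → ℚ} (h1 : H ≤ Q.comap c.π)
    (h2 : ∀ s ∈ Q.comap c.π, ∀ t ∈ Q.comap c.π, s * t * s⁻¹ * t⁻¹ ∈ H)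
    (h3 : ∀ a ∈ H, ∀ b ∈ H, ψ (a * b) = ψ a + ψ b)
    (h4 : ∀ t ∈ Q.comap c.π, ∀ a ∈ H, ψ (t * a * t⁻¹) = ψ a) (h5 : ∀ t, c.ζ t ∈ H) {s x : E}
    (hs : c.π s ∈ Q) (hx : c.π x ∈ Q) : ψ (s * x * s⁻¹ * x⁻¹) = 0 := by
  obtain ⟨b1, b2, z, z1, z2⟩ := zN E _ H ψ h1 h2 h3 h4
  have e : ∀ s t, c.π s ∈ Q → c.π t ∈ Q →
      dfc (fun x => (z x : ℝ)) s t = ψ (s * t * s⁻¹ * t⁻¹) / 2 := fun s t a b => by
    simp only [dfc, z2 s a t b]
    push_cast
    ring
  obtain ⟨K, k1, k2⟩ := h G E c Q (fun x => (z x : ℝ)) (fun t => ψ (c.ζ t)) hG n1 n2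
    (fun t x k => by
      simp only [z2 _ (h1 (h5 t)) x k, z1 _ (h5 t)]
      rw [c.cen, mul_inv_cancel_right, mul_inv_cancel, VB.ad_one h3]
      push_cast
      ring) (fun s s' t k1 k2 k3 => by
      rw [e _ _ (by rw [map_mul]; exact mul_mem k1 k2) k3, e _ _ k1 k3, e _ _ k2 k3,
        b1 s k1 s' k2 t k3]
      push_cast
      ring) fun s t t' k1 k2 k3 => by
      rw [e _ _ k1 (by rw [map_mul]; exact mul_mem k2 k3), e _ _ k1 k2, e _ _ k1 k3,
        b2 s k1 t k2 t' k3]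
      push_cast
      ring
  obtain ⟨m, m0, -, hm⟩ := exists_pow_mem_of_relIndex_ne_zero (hK K k1) (le hs)
  have hz : z (s ^ m * x * (s ^ m)⁻¹) = z x := by
    exact_mod_cast k2 (s ^ m) (by rw [map_pow]; exact hm.1) x hx
  have x2 := h2 (s ^ m) (pow_mem (show s ∈ Q.comap c.π from hs) m) x hx
  have a := z2 _ (h1 x2) x hx
  have u : ∀ h ∈ H, ∀ t ∈ Q.comap c.π, ψ (h * t * h⁻¹ * t⁻¹) = 0 := fun h k t k' => by
    have := h3 _ (inv_mem k) _ (h2 h (h1 k) t k')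
    rw [show h⁻¹ * (h * t * h⁻¹ * t⁻¹) = t * h⁻¹ * t⁻¹ by group, h4 t k' _ (inv_mem k)] at this
    linarith
  rw [u _ x2 _ hx, inv_mul_cancel_right, hz, z1 _ x2] at a
  have b := VB.ad_pow (H := Q.comap c.π) (f := fun t => ψ (t * x * t⁻¹ * x⁻¹))
    (fun s hs t ht => b1 s hs t ht x hx) hs m
  exact (mul_eq_zero.1 (b.symm.trans (by linarith))).resolve_left (Nat.cast_ne_zero.2 m0.ne')

end AlV

open AlV Al in
theorem algV (h : FixS) : AlgV := by
  classical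
  intro G E _ _ c N hG n0 n1 n2
  obtain ⟨f, hf⟩ := rkN G N n1 n2
  obtain ⟨K, k1, hK⟩ := AlV.min hf
  have := ik_nor k1
  have pc := pcN G _ (sub n1 n2 (inf_le_left (b := K))).1 (sub n1 n2 inf_le_left).2
  obtain ⟨-, P0, p1, p2⟩ := sub n1 n2 (inf_le_left (b := K))
  obtain ⟨P1, q0, q4, q2, q3⟩ : ∃ P1 : Subgroup G, P1.Normal ∧ P1 ≤ N ⊓ K ∧
      P1.relIndex (N ⊓ K) ≠ 0 ∧ Group.IsNilpotent P1 := by
    have := Group.nilpotent_of_mulEquiv (P0.equivMapOfInjective _ (subtype_injective _))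
    exact ⟨_, inferInstance, (normalCore_le _).trans (map_subtype_le P0),
      core inferInstance pc (ri_map P0),
      Group.nilpotent_of_mulEquiv (subgroupOfEquivOfLe (normalCore_le _))⟩
  have ker : ∀ t, c.π (c.ζ t) = 1 := fun t => (c.ker _).2 ⟨t, rfl⟩
  have f1 := (sub n1 n2 (q4.trans inf_le_left)).1
  have hc := nilN P1 ((Group.fg_iff_subgroup_fg _).2 f1) q3 fun ψ a1 a2 s t => by
    obtain ⟨y, hy⟩ := c.surj s
    obtain ⟨x, hx⟩ := c.surj t
    have m : ∀ {x}, x ∈ ((commutator P1).map P1.subtype).comap c.π ↔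
        ∃ k : c.π x ∈ P1, (⟨_, k⟩ : P1) ∈ commutator P1 :=
      ⟨fun ⟨b, b1, b2⟩ => ⟨b2 ▸ b.2, (Subtype.ext b2 : b = ⟨_, b2 ▸ b.2⟩) ▸ b1⟩,
        fun ⟨k, b⟩ => ⟨_, b, rfl⟩⟩
    have := AlV.key h hG c hK q4 q0 f1 (ψ := fun x => if k : c.π x ∈ P1 then ψ ⟨_, k⟩ else 0)
      (H := ((commutator P1).map P1.subtype).comap c.π)
      (comap_mono (map_subtype_le _)) (fun s hs t ht => ⟨_, commutator_mem_commutator
        (mem_top (⟨_, hs⟩ : P1)) (mem_top ⟨_, ht⟩), by simp [commutatorElement_def]⟩)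
      (fun a ha b hb => by
        obtain ⟨k, u⟩ := m.1 ha
        obtain ⟨k', u'⟩ := m.1 hb
        simp only [map_mul, dif_pos k, dif_pos k', dif_pos (mul_mem k k')]
        exact a1 _ u _ u') (fun t ht a ha => by
        obtain ⟨k, u⟩ := m.1 ha
        have ht' : c.π t ∈ P1 := ht
        simp only [map_mul, map_inv, dif_pos k, dif_pos (mul_mem (mul_mem ht' k) (inv_mem ht'))]
        exact a2 ⟨_, ht'⟩ _ u) (fun t => by rw [mem_comap, ker]; exact one_mem _)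
      (s := y) (x := x) (hy ▸ s.2) (hx ▸ t.2)
    simp only [map_mul, map_inv, hx, hy,
      dif_pos (mul_mem (mul_mem (mul_mem s.2 t.2) (inv_mem s.2)) (inv_mem t.2))] at this
    exact this
  obtain ⟨A, s0, s1, s2, s3⟩ : ∃ A : Subgroup G, A.Normal ∧ A ≤ N ⊓ K ∧ A.relIndex (N ⊓ K) ≠ 0 ∧
      ∀ a ∈ A, ∀ b ∈ A, a * b = b * a := ⟨_, inferInstance,
    ((normalCore_le _).trans (map_subtype_le _)).trans q4,
    core inferInstance pc (relIndex_ne_zero_trans (ri_map (center P1)) q2), fun a ha b hb => by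
      obtain ⟨a', -, rfl⟩ := normalCore_le _ ha
      obtain ⟨b', hb', rfl⟩ := normalCore_le _ hb
      exact congrArg Subtype.val (mem_center_iff.1 hb' a')⟩
  have f2 := (sub n1 n2 (s1.trans inf_le_left)).1
  have cm : ∀ s ∈ A.comap c.π, ∀ t ∈ A.comap c.π, c.π (s * t * s⁻¹ * t⁻¹) = 1 :=
    fun s hs t ht => by
      simp only [map_mul, map_inv]
      rw [s3 _ hs _ ht]
      group
  have cen : ∀ y x, c.π y ∈ A → c.π x ∈ A → y * x = x * y := fun y x hy hx => by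
    obtain ⟨t, ht⟩ := (c.ker _).1 (cm y hy x hx)
    have e : ∀ t, Function.invFun c.ζ (c.ζ t) = t := Function.leftInverse_invFun c.inj
    have : t.toAdd = 0 := (Module.forall_dual_apply_eq_zero_iff ℚ _).1 fun l => by
      have := AlV.key h hG c hK s1 s0 f2 (ψ := fun x => l (Function.invFun c.ζ x).toAdd)
        (H := c.ζ.range) (by rintro _ ⟨t, rfl⟩; rw [mem_comap, ker]; exact one_mem _)
        (fun s hs t ht => (c.ker _).1 (cm s hs t ht)) (by
          rintro _ ⟨a, rfl⟩ _ ⟨b, rfl⟩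
          simp only [← map_mul, e, toAdd_mul, map_add]) (by
          rintro t - _ ⟨a, rfl⟩
          rw [← c.cen, mul_inv_cancel_right]) (fun t => ⟨t, rfl⟩) hy hx
      simpa only [← ht, e] using this
    rw [toAdd_eq_zero.1 this, map_one, eq_comm, mul_inv_eq_one, mul_inv_eq_iff_eq_mul] at ht
    exact ht
  obtain ⟨r, t1, t2⟩ := retr c cen
  have d0 : ∀ s t, c.π s ∈ A → c.π t ∈ A → dfc r s t = 0 := fun s t a b => by
    rw [dfc, t1 s t a b]
    ring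
  obtain ⟨K', l1, l2⟩ := h G E c A r (fun t => t.toAdd) hG s0 f2 (fun t x k => by
      rw [t1 _ _ (by rw [ker]; exact one_mem _) k, add_comm]
      exact congrArg _ (t2 t.toAdd)) (fun s s' t a b d => by
      rw [d0 _ _ (by rw [map_mul]; exact mul_mem a b) d, d0 _ _ a d, d0 _ _ b d, add_zero])
    fun s t t' a b d => by
      rw [d0 _ _ a (by rw [map_mul]; exact mul_mem b d), d0 _ _ a d, d0 _ _ a b, add_zero]
  refine ⟨K ⊓ K', ik_inf k1 l1, fun Γ hΓ => ?_⟩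
  obtain ⟨T, hT⟩ := canN G E c Γ (Γ ⊓ K') (A ⊓ Γ) r inf_le_right
    (relIndex_inf_ne_zero (Com.ri_le le_rfl) (ri_l inf_le_right hΓ))
    (fun g hg => by
      rw [cj_self fun x => by
        rw [mem_inf, mem_inf, mul_mem_cancel_right hg, mul_mem_cancel_left (inv_mem hg)]
        exact and_congr_left' (by simpa using (s0.mem_comm_iff (a := g⁻¹ * x) (b := g)).symm)])
    (fun x y a b => t1 x y a.1 b.1) t2 fun x y hy hx _ => l2 y hy.2 x hx.1
  exact ⟨T, hT.conj, hT.inj, fun H a b => hT.sec H a (relIndex_inf_ne_zero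
    (relIndex_ne_zero_trans s2 (relIndex_inf_ne_zero b (ri_r a (ri_l inf_le_left hΓ))))
    (Com.ri_le a))⟩

end Pool.Agent.Lib.MP_813db1_ag.VH
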