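import Pool.Agent.Lib.MP_813db1_ag.VH.CoStmt

/-! The second order estimate and regularity. -/

namespace Pool.Agent.Lib.MP_813db1_ag.VH.Co

open Pool.Agent.Lib.MP_813db1_ag.HS Pool.Agent.Lib.MP_813db1_ag.AS
open MeasureTheory Complex Matrix Filter Topology Set Metric
open scoped ContDiff ComplexOrder

namespace CoAp

theorem absorb {Q : ℝ → Prop} {B B' : ℝ} (hB : 0 ≤ B) (mono : ∀ a b, Q a → a ≤ b → Q b)
    (lim : ∀ a, (∀ ε > 0, Q (a + ε)) → Q a) (h0 : Q B') (h : ∀ N, 0 ≤ N → Q N → Q (B + N / 2)) :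
    Q (2 * B) := by
  have k : ∀ n : ℕ, Q (2 * B + |B' - 2 * B| * (1 / 2) ^ n) := fun n => by
    induction n with
    | zero => exact mono _ _ h0 (by simpa using sub_le_iff_le_add'.1 (le_abs_self (B' - 2 * B)))
    | succ n ih => exact mono _ _ (h _ (by positivity) ih) (le_of_eq (by ring))
  refine lim _ fun ε hε => ?_
  have l := (tendsto_pow_atTop_nhds_zero_of_lt_one (r := (1 / 2 : ℝ)) (by norm_num)
    (by norm_num)).const_mul |B' - 2 * B|
  rw [mul_zero] at l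
  obtain ⟨n, hn⟩ := (l.eventually (gt_mem_nhds hε)).exists
  exact mono _ _ (k n) (by linarith)

theorem two_le : (2 : WithTop ℕ∞) ≤ ∞ := WithTop.coe_le_coe.2 (le_top (a := (2 : ℕ∞)))

section loc

variable {ι r : Type} [Fintype ι] [DecidableEq ι] [Fintype r] [DecidableEq r] {U : Set (V ι)}

theorem hk_const (hU : IsOpen U) (n : ℕ) (a : ℂ) : Hk n (fun _ : V ι => a) U :=
  hk.of_smooth ι n _ U hU fun _ _ => contDiffAt_const

theorem hk_sub (hU : IsOpen U) {n : ℕ} {f g : V ι → ℂ} (hf : Hk n f U) (hg : Hk n g U) :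
    Hk n (fun z => f z - g z) U :=
  hk.congr ι n _ _ U hU (fun z _ => by ring)
    (hk.add ι n _ _ U hU hf (hk.mul ι n _ _ U hU (hk_const hU n (-1)) hg))

theorem hk_ginv (hU : IsOpen U) {G : V ι → Mat ι} (hG : KOn G U) (n : ℕ) (i j : ι) :
    Hk n (fun z => (G z)⁻¹ i j) U :=
  (hk.inv ι n G U hU fun i j => hk.of_smooth ι n _ U hU fun z hz => hG.1.1 z hz i j).2
    (fun z hz => (hG.2 z hz).det_pos.ne') i j

theorem hk_gr (hU : IsOpen U) {G : V ι → Mat ι} (hG : KOn G U) {n : ℕ} {f h : V ι → ℂ}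
    (hf : Hk (n + 1) f U) (hh : Hk (n + 1) h U) : Hk n (gr2 G f h) U := by
  have key : Hk n (fun z => (∑ i, ∑ j, (G z)⁻¹ j i *
      (dz f i z * dzb h j z + dzb f j z * dz h i z)) * (1 / 2)) U :=
    hk.mul ι n _ _ U hU (hk.sum ι ι Finset.univ n _ U hU fun i _ =>
      hk.sum ι ι Finset.univ n _ U hU fun j _ => hk.mul ι n _ _ U hU (hk_ginv hU hG n j i)
        (hk.add ι n _ _ U hU
          (hk.mul ι n _ _ U hU (hk.dz ι n f U i hU hf).1 (hk.dz ι n h U j hU hh).2)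
          (hk.mul ι n _ _ U hU (hk.dz ι n f U j hU hf).2 (hk.dz ι n h U i hU hh).1)))
      (hk_const hU n _)
  exact hk.congr ι n _ _ U hU (fun z _ => by unfold gr2; ring) key

/-- the inverse of a matrix of any size. -/
theorem hk_det (hU : IsOpen U) {n : ℕ} {F : V ι → Mat r} (hF : ∀ i j, Hk n (fun z => F z i j) U) :
    Hk n (fun z => (F z).det) U := by
  have hp : ∀ (S : Finset r) (f : r → V ι → ℂ), (∀ i, Hk n (f i) U) →
      Hk n (fun z => ∏ i ∈ S, f i z) U := fun S f hf => by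
    induction S using Finset.induction_on with
    | empty => simpa using hk_const hU n 1
    | insert a S ha ih =>
      exact hk.congr ι n _ _ U hU (fun z _ => by rw [Finset.prod_insert ha])
        (hk.mul ι n _ _ U hU (hf a) ih)
  refine hk.congr ι n _ _ U hU (fun z _ => (det_apply' (F z)).symm) ?_
  exact hk.sum ι _ Finset.univ n _ U hU fun σ _ =>
    hk.mul ι n _ _ U hU (hk_const hU n _) (hp _ (fun i z => F z (σ i) i) fun i => hF _ _)

theorem hk_inv (hU : IsOpen U) {n : ℕ} {F : V ι → Mat r} (hF : ∀ i j, Hk n (fun z => F z i j) U)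
    (hd : ∀ z ∈ U, (F z).det ≠ 0) (i j : r) : Hk n (fun z => (F z)⁻¹ i j) U := by
  have h1 : Hk n (fun z => ((F z).det)⁻¹) U :=
    hk.comp ι n _ (fun w => w⁻¹) U hU (fun z hz => contDiffAt_inv ℝ (hd z hz)) (hk_det hU hF)
  have h2 : Hk n (fun z => ((F z).updateRow j (Pi.single i 1)).det) U := by
    refine hk_det hU fun a b => ?_
    by_cases e : a = j
    · subst e; simpa using hk_const hU n ((Pi.single i 1 : r → ℂ) b)
    · simpa [updateRow_ne e] using hF a b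
  refine hk.congr ι n _ _ U hU (fun z _ => ?_) (hk.mul ι n _ _ U hU h1 h2)
  rw [Matrix.inv_def, Matrix.smul_apply, adjugate_apply, Ring.inverse_eq_inv', smul_eq_mul]

omit [DecidableEq r] in
theorem hk_mul (hU : IsOpen U) {n : ℕ} {F K : V ι → Mat r} (hF : ∀ i j, Hk n (fun z => F z i j) U)
    (hK : ∀ i j, Hk n (fun z => K z i j) U) (i j : r) : Hk n (fun z => (F z * K z) i j) U :=
  hk.congr ι n _ _ U hU (fun _ _ => (mul_apply).symm)
    (hk.sum ι r Finset.univ n _ U hU fun k _ => hk.mul ι n _ _ U hU (hF i k) (hK k j))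

theorem hk_two (hU : IsOpen U) {f : V ι → ℂ} {N : ℝ} (h : Hol2 N f U) : Hk 2 f U :=
  (hk.two ι f U hU).2 fun z hz => by
    obtain ⟨ε, hε, hs⟩ := Metric.isOpen_iff.1 hU z hz
    exact ⟨ε, hε, N, h.subset hs⟩

omit [Fintype ι] [DecidableEq ι] in
theorem rh_eqv (l : ℝ) (R R' H0 T0 H : Mat r) (h : R * R' = 1) :
    rh l (Rᵀ * H0 * R) (Rᵀ * T0 * R) (Rᵀ * H * R) = Rᵀ * rh l H0 T0 H * R := by
  have h1 : R⁻¹ = R' := inv_eq_right_inv h
  have h2 : R'ᵀ * Rᵀ = 1 := by rw [← transpose_mul, h, transpose_one]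
  have h3 : Rᵀ * H * R * (Rᵀ * H0 * R)⁻¹ * (Rᵀ * H * R) = Rᵀ * (H * H0⁻¹ * H) * R := by
    rw [Matrix.mul_inv_rev, Matrix.mul_inv_rev, ← transpose_nonsing_inv, h1]
    calc _ = Rᵀ * H * (R * R') * H0⁻¹ * (R'ᵀ * Rᵀ) * H * R := by simp only [Matrix.mul_assoc]
      _ = _ := by rw [h, h2]; simp only [Matrix.mul_one, Matrix.mul_assoc]
  unfold rh
  rw [h3]
  simp only [Matrix.mul_add, Matrix.add_mul, Matrix.mul_sub, Matrix.sub_mul, Matrix.mul_smul,
    Matrix.smul_mul]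

omit [DecidableEq ι] [Fintype r] [DecidableEq r] in
theorem hm_mono {F : V ι → Mat r} {a b : ℝ} (h : HM a F U) (hab : a ≤ b) : HM b F U :=
  fun i j => (h i j).mono hab

end loc

variable {ι X Y G : Type} [Fintype ι] [DecidableEq ι] [TopologicalSpace X] [TopologicalSpace Y]
  [Group G] [MulAction G Y] {c : Sx ι X Y G}

theorem opn (a : Fin c.C.n) : IsOpen (c.B a) := isOpen_ball

theorem zero_mem (a : Fin c.C.n) : (0 : V ι) ∈ c.B a :=
  mem_ball_self (by linarith [c.C.pos a])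

theorem at_s (ha : c.Bas) {P : Ch ι X → V ι → (V ι → Y) → Prop} (h : Loc c.M c.p P)
    (a : Fin c.C.n) {z : V ι} (hz : z ∈ c.B a) : P (c.C.e a) z (c.s a) :=
  h _ (c.C.mem a) z (ha.sec a z hz).1 _ (ha.sec a z hz).2.1

theorem ck_of (ha : c.Bas) (k : ℕ∞) (f : Y → ℂ)
    (h : ∀ (γ : G) a, ∀ z ∈ c.B a, ContDiffAt ℝ k (fun w => f (γ • c.s a w)) z) : c.Ck k f := by
  refine ha.loc k f fun y => ?_
  obtain ⟨γ, a, z, -, hz, rfl⟩ := ha.cov y
  have hs := (ha.sec a z hz).2.1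
  refine ⟨_, c.C.mem a, z, (ha.sec a z hz).1, fun w => γ • c.s a w, ⟨?_, ?_⟩, rfl, h γ a z hz⟩
  · exact (c.hq.continuous_const_smul γ).continuousAt.comp hs.1
  · filter_upwards [hs.2] with w hw
    rw [← hw]
    exact c.hq.apply_eq_iff_mem_orbit.2 (MulAction.mem_orbit _ γ)

variable {r : Type} [Fintype r] [DecidableEq r]

omit [Fintype r] [DecidableEq r] in
theorem hk_sm (ha : c.Bas) {F : Y → Mat r} (hF : c.CkM ∞ F) (a : Fin c.C.n) (n : ℕ) (i j : r) :
    Hk n (fun z => F (c.s a z) i j) (c.B a) :=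
  hk.of_smooth ι n _ _ (opn a) fun _ hz => at_s ha (hF i j) a hz

theorem lM_eq (hb : c.Bs) {H : Y → Mat r} {a : Fin c.C.n} {z : V ι} (hz : z ∈ c.B a)
    (h2 : CM 2 (fun w => H (c.s a w)) z) : c.lM H (c.s a z) = c.ten H (c.s a z) +
      qM (c.Gc a) (fun w => H (c.s a w)) (H (c.s a z))⁻¹ (fun w => H (c.s a w)) z := by
  have h1 : CM 1 (fun w => H (c.s a w)) z := fun i j => (h2 i j).of_le (by norm_num)
  have e := (at_s hb.a (hb.m.rd r H H (H (c.s a z))⁻¹) a hz).2 h1 h1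
  unfold Sx.ten Sx.Gc
  rw [e, sub_add_cancel]

end CoAp

open CoAp

variable {ι X Y G : Type} [Fintype ι] [DecidableEq ι] [TopologicalSpace X] [TopologicalSpace Y]
  [Group G] [MulAction G Y] {c : Sx ι X Y G}

theorem rgS (h : Al) (hb : c.Bs) (h1 : RgL) : c.RgS where
  met := fun r _ _ ρ H0 l t N H g0 hE hP hM hq => by
    have d0 : ∀ y, (H0 y).det ≠ 0 := fun y => (g0.pd y).det_pos.ne'
    have d1 : ∀ y, (H y).det ≠ 0 := fun y => (hP y).2.det_pos.ne'
    have sT := (hb.m.sm r H0 g0.sm d0).1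
    have sm : ∀ a, ∀ z ∈ c.B a, ∀ i j, ContDiffAt ℝ ∞ (fun w => H (c.s a w) i j) z := by
      intro a z hz i j
      refine h1 ι (r × r) (c.B a) (c.Gc a) (fun k z => H (c.s a z) k.1 k.2)
        (fun k z => ((t : ℂ) • rh l (H0 (c.s a z)) (c.ten H0 (c.s a z)) (H (c.s a z)) +
          qM (c.Gc a) (fun w => H (c.s a w)) (H (c.s a z))⁻¹ (fun w => H (c.s a w)) z) k.1 k.2)
        (opn a) (hb.a.kon a) (fun k => hk_two (opn a) (hM a k.1 k.2)) ?_ ?_ (i, j) z hz
      · intro n hv k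
        have v2 : ∀ i j, Hk (n + 1 + 1) (fun z => H (c.s a z) i j) (c.B a) := fun i j => hv (i, j)
        have v1 : ∀ i j, Hk (n + 1) (fun z => H (c.s a z) i j) (c.B a) := fun i j =>
          hk.mono ι _ _ _ (opn a) (v2 i j)
        have e1 := hk_mul (opn a) (hk_mul (opn a) v1 (hk_inv (opn a) (hk_sm hb.a g0.sm a (n + 1))
          fun z _ => d0 _)) v1 k.1 k.2
        have e2 := hk.add ι _ _ _ _ (opn a) (hk.mul ι _ _ _ _ (opn a) (hk_const (opn a) _ (l : ℂ))
          (hk_sub (opn a) e1 (hk_sm hb.a g0.sm a (n + 1) k.1 k.2))) (hk_sm hb.a sT a (n + 1) k.1 k.2)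
        have e3 := hk.sum ι r Finset.univ (n + 1) _ _ (opn a) fun j _ =>
          hk.sum ι r Finset.univ (n + 1) _ _ (opn a) fun m _ =>
            hk.mul ι _ _ _ _ (opn a) (hk_inv (opn a) v1 (fun z _ => d1 _) j m)
              (hk_gr (opn a) (hb.a.kon a) (v2 k.1 j) (v2 m k.2))
        refine hk.congr ι _ _ _ _ (opn a) (fun z _ => ?_) (hk.add ι _ _ _ _ (opn a)
          (hk.mul ι _ _ _ _ (opn a) (hk_const (opn a) _ (t : ℂ)) e2) e3)
        rw [Matrix.add_apply, h.dv.ent]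
        simp only [rh, Matrix.smul_apply, Matrix.add_apply, Matrix.sub_apply, smul_eq_mul]
      · intro k z hz
        have h2 : CM 2 (fun w => H (c.s a w)) z := fun i j => (hM a i j).1 z hz
        have e := (at_s hb.a (hb.m.rd r H H 1) a hz).1 h2
        rw [← hq a z hz, ← lM_eq hb hz h2, ← e]
        rfl
    have sH : c.CkM ∞ H := fun i j => ck_of hb.a ⊤ _ fun γ a z hz => by
      simp only [hE γ, mul_apply]
      exact ContDiffAt.sum fun k _ => (ContDiffAt.sum fun m _ =>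
        contDiffAt_const.mul (sm a z hz m k)).mul contDiffAt_const
    have le2 : ∀ {F : Y → Mat r}, c.CkM ∞ F → c.CkM 2 F := fun hF i j e he z hz s hs =>
      (hF i j e he z hz s hs).of_le two_le
    refine ⟨⟨sH, hE, fun y => (hP y).1, fun y => (hP y).2⟩, fun y => ?_⟩
    obtain ⟨γ, a, z, -, hz, rfl⟩ := hb.a.cov y
    rw [(hb.m.eqv r ρ H H hE (le2 sH) d1).1 γ, (hb.m.eqv r ρ H0 H0 g0.eqv (le2 g0.sm) d0).1 γ,
      hE γ, g0.eqv γ, rh_eqv l _ (ρ γ) _ _ _ (by rw [← map_mul, inv_mul_cancel, map_one]),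
      hq a z hz, Matrix.mul_smul, Matrix.smul_mul]
  vec := fun r _ _ ρ H x f N g hE hx hf hq => by
    have d1 : ∀ y, (H y).det ≠ 0 := fun y => (g.pd y).det_pos.ne'
    have sm : ∀ a, ∀ z ∈ c.B a, ∀ i, ContDiffAt ℝ ∞ (fun w => x (c.s a w) i) z := by
      intro a z hz i
      refine h1 ι r (c.B a) (c.Gc a) (fun k z => x (c.s a z) k)
        (fun k z => f (c.s a z) k - hd (c.Gc a) (fun w => H (c.s a w)) (fun w => x (c.s a w)) z k)
        (opn a) (hb.a.kon a) (fun k => hk_two (opn a) (hx a k)) ?_ ?_ i z hz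
      · intro n hv k
        refine hk_sub (opn a) (hk.of_smooth ι _ _ _ (opn a) fun _ hz => at_s hb.a (hf k) a hz) ?_
        exact hk.sum ι r Finset.univ (n + 1) _ _ (opn a) fun j _ =>
          hk.mul ι _ _ _ _ (opn a) (hk_inv (opn a) (hk_sm hb.a g.sm a (n + 1)) (fun z _ => d1 _) k j)
            (hk.sum ι r Finset.univ (n + 1) _ _ (opn a) fun m _ =>
              hk_gr (opn a) (hb.a.kon a) (hk_sm hb.a g.sm a (n + 1 + 1) j m) (hv m))
      · intro k z hz
        have h2 : CM 2 (fun w => H (c.s a w)) z := fun i j =>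
          (at_s hb.a (g.sm i j) a hz).of_le two_le
        have e := (at_s hb.a (hb.m.rd2 r H H x) a hz h2).2.2.2 fun k =>
          ((hx a k).1 z hz).of_le (by norm_num)
        have e' := at_s hb.a (hb.a.lap fun y => x y k) a hz ((hx a k).1 z hz)
        unfold Sx.Gc
        rw [e, e', ← hq]
        simp [Sx.tl, Sx.lapV]
    refine fun i => ck_of hb.a ⊤ _ fun γ a z hz => ?_
    simp only [hE γ, Pi.zero_apply, add_zero, mulVec, dotProduct]
    exact ContDiffAt.sum fun k _ => contDiffAt_const.mul (sm a z hz k)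

theorem apS (h : Al) (hb : c.Bs) (h1 : c.LsS) (h2 : c.LnS) : c.ApS := by
  intro r _ _ ρ H0 l L hR
  have g0 := hR.gd
  have d0 : ∀ y, (H0 y).det ≠ 0 := fun y => (g0.pd y).det_pos.ne'
  obtain ⟨b, hbs⟩ := (hb.m.bs r ρ).2.1 hR.rl
  obtain ⟨sT, -, -, ⟨L0, hL0, hM0⟩, L1, hI0⟩ := hb.m.sm r H0 g0.sm d0
  have hM0' : c.M2 (max L0 L1) H0 := fun a i j => (hM0 a i j).mono (le_max_left _ _)
  have hI0' : c.BI (max L0 L1) H0 := fun a z hz i j => (hI0 a z hz i j).trans (le_max_right _ _)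
  obtain ⟨L', hL'⟩ := h2 r ρ H0 l (max L0 L1) b hR hbs
  have hm := (hL' H0 g0 hM0' hI0').1
  have hlow : c.Low b (fun _ _ => 0) L' := by
    refine ⟨fun _ _ _ _ => ⟨fun γ _ => (map_zero _).symm, fun _ => b.W.zero_mem⟩,
      fun _ _ _ _ _ _ _ _ => ?_, fun _ _ _ _ _ => ?_, fun v N B _ _ hB a k => ?_⟩
    · funext y; simp
    · funext y; simp
    · have p1 := (hm.bd a k k).nonneg (zero_mem a)
      have p2 := (hB a k).2.1.nonneg (zero_mem a)
      exact Hol.const (0 : ℂ) (by simpa using mul_nonneg p1 p2)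
  obtain ⟨K1, hK1, hapr⟩ := h1.apr (r × r) b L'
  choose LT hLT hT using fun i j => hb.a.hol _ (sT i j)
  obtain ⟨Lg, hLg, hg⟩ := hb.a.ell
  obtain ⟨C0, hC0, hi0⟩ := h.hm.inv ι r (max L0 L1)
  set P := max L 0 with hPd
  have hP : 0 ≤ P := le_max_right _ _
  have hLP : L ≤ P := le_max_left _ _
  obtain ⟨C1, hC1, hi1⟩ := h.hm.inv ι r (2 * P)
  obtain ⟨Cq, hCq, hqt⟩ := h.hm.qt ι r (Lg + C1 + P)
  set δ := 1 / (2 * (K1 * Cq + 1)) with hδd
  have hδ : 0 < δ := by positivity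
  obtain ⟨K2, hK2, hitp⟩ := hb.b.itp (r × r) δ hδ
  have hm0 : 0 ≤ max L0 L1 := le_max_of_le_left hL0
  set B0 := ‖(l : ℂ)‖ * (2 * Fintype.card r * (2 * Fintype.card r * (2 * P) * C0) * (2 * P) +
    max L0 L1) + ∑ i, ∑ j, LT i j with hB0d
  have hS : 0 ≤ ∑ i, ∑ j, LT i j :=
    Finset.sum_nonneg fun i _ => Finset.sum_nonneg fun j _ => hLT i j
  have hB0 : 0 ≤ B0 := by positivity
  refine ⟨2 * (K1 * (B0 + Cq * (K2 * P) + P)), fun t ht H hS hI hL => ?_⟩
  have g := hS.1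
  have d1 : ∀ y, (H y).det ≠ 0 := fun y => (g.pd y).det_pos.ne'
  obtain ⟨-, -, -, ⟨N0, -, hN0⟩, -⟩ := hb.m.sm r H g.sm d1
  have hsec : b.Sec fun y => vec (H y) := ((hb.m.bs r ρ).2.2 b hbs _).2 ⟨g.eqv, g.rs⟩
  have hsup : c.Sup P fun y => vec (H y) := fun a z hz =>
    (pi_norm_le_iff_of_nonneg hP).2 fun k => ((hL a z hz).1 k.1 k.2).trans hLP
  have hH : ∀ a, HM (2 * P) (fun z => H (c.s a z)) (c.B a) := fun a i j =>
    Hol.of_lip (fun z hz => ((hL a z hz).1 i j).trans hLP) fun z hz w hw =>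
      (convex_ball _ _).norm_image_sub_le_of_norm_fderiv_le (𝕜 := ℝ)
        (f := fun z => H (c.s a z) i j)
        (fun x hx => ((hN0 a i j).1 x hx).differentiableAt (by norm_num))
        (fun x hx => ((hL a x hx).2 i j).trans hLP) hw hz
  have hrh : ∀ a, HM B0 (fun z => rh l (H0 (c.s a z)) (c.ten H0 (c.s a z)) (H (c.s a z)))
      (c.B a) := fun a i j => by
    have a0 : HM (max L0 L1) (fun z => H0 (c.s a z)) (c.B a) := fun i j => (hM0' a i j).2.1
    have a1 := (hi0 _ _ (opn a) fun z hz => ⟨d0 _, hI0' a z hz⟩).1 a0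
    have a2 := (h.hm.mul ι r _ _ _ _ _).1 ((h.hm.mul ι r _ _ _ _ _).1 (hH a) a1) (hH a)
    have a3 : Hol (∑ i, ∑ j, LT i j) (fun z => c.ten H0 (c.s a z) i j) (c.B a) :=
      (hT i j a).2.1.mono ((Finset.single_le_sum (fun j _ => hLT i j) (Finset.mem_univ j)).trans
        (Finset.single_le_sum (f := fun i => ∑ j, LT i j)
          (fun i _ => Finset.sum_nonneg fun j _ => hLT i j) (Finset.mem_univ i)))
    refine ((((a2 i j).sub (a0 i j)).const_mul (l : ℂ)).add a3).congr fun z _ => ?_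
    simp only [rh, Matrix.smul_apply, Matrix.add_apply, Matrix.sub_apply, smul_eq_mul]
  refine absorb (Q := fun N => c.M2 N H) (by positivity)
    (fun _ _ hx hy a i j => (hx a i j).mono hy)
    (fun _ hx a i j => Hol2.of_forall fun ε hε => hx ε hε a i j) hN0 fun N hN hM => ?_
  have hv : c.H2 N fun y => vec (H y) := fun a k => hM a k.1 k.2
  have hv1 := (hitp _ N P hN hv hsup).1
  have hf : c.H0 (B0 + Cq * (δ * N + K2 * P))
      (fun y => c.lapV (fun y => vec (H y)) y + (fun _ _ => 0 : (Y → r × r → ℂ) → Y → r × r → ℂ)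
        (fun y => vec (H y)) y) := fun a k => by
    have a1 := (hi1 _ _ (opn a) fun z hz => ⟨d1 _, fun i j =>
      (hI a z hz i j).trans (by linarith)⟩).1 (hH a)
    have a2 := hqt (c.B a) (c.Gc a) (fun z => H (c.s a z)) (fun z => (H (c.s a z))⁻¹) _
      (fun i j => ((hg a).2.1 i j).mono (by linarith)) (fun i j => hv1 a (i, j))
      (hm_mono a1 (by linarith)) fun z hz i j => ((hL a z hz).2 i j).trans (by linarith)
    have a3 : Hol B0 _ (c.B a) := ((hrh a k.1 k.2).const_mul (t : ℂ)).mono (by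
      rw [norm_real, Real.norm_of_nonneg ht.1.le]
      exact mul_le_of_le_one_left hB0 ht.2)
    refine (a3.add (a2 k.1 k.2)).congr fun z hz => ?_
    have e := lM_eq hb hz fun i j => (hM a i j).1 z hz
    rw [hS.2] at e
    simp only [add_zero]
    exact congrFun (congrFun e k.1) k.2
  have key := hapr _ _ hm hlow _ N _ P (by positivity) hP hsec hv hf hsup
  refine fun a i j => (key a (i, j)).mono ?_
  have e1 : K1 * Cq * δ ≤ 1 / 2 := by
    rw [hδd, mul_one_div, div_le_div_iff₀ (by positivity) (by norm_num)]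
    nlinarith [mul_nonneg hK1 hCq]
  nlinarith [mul_le_mul_of_nonneg_right e1 hN]

end Pool.Agent.Lib.MP_813db1_ag.VH.Co
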