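import Pool.Agent.Lib.MP_813db1_ag.VH.CoStmt

/-! Sections of a bundle: the basic facts. -/

namespace Pool.Agent.Lib.MP_813db1_ag.VH.Co

open Pool.Agent.Lib.MP_813db1_ag.HS Pool.Agent.Lib.MP_813db1_ag.AS
open MeasureTheory Complex Matrix Filter Topology Set Metric
open scoped ContDiff ComplexOrder

variable {ι X Y G : Type} [Fintype ι] [DecidableEq ι] [TopologicalSpace X] [TopologicalSpace Y]
  [Group G] [MulAction G Y] {c : Sx ι X Y G}

namespace CoBasB

theorem lapS (h : FrS) {E : Type} [NormedAddCommGroup E] [NormedSpace ℝ E] {A : V ι → Mat ι}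
    {w : V ι → E} {z : V ι} (hA : (A z).PosDef) (hw : ContDiffAt ℝ 2 w z) :
    ∃ D : E, ∀ S : E →L[ℝ] ℂ, lapL A (fun x => S (w x)) z = S D := by
  have bd : ∀ (B : Mat ι) i j, ‖B i j‖ ≤ ∑ i, ∑ j, ‖B i j‖ := fun B i j =>
    (Finset.single_le_sum (f := fun j => ‖B i j‖) (fun _ _ => norm_nonneg _)
      (Finset.mem_univ j)).trans (Finset.single_le_sum (f := fun i => ∑ j, ‖B i j‖)
        (fun _ _ => by positivity) (Finset.mem_univ i))
  obtain ⟨C, -, hC⟩ := h ι (max (∑ i, ∑ j, ‖A z i j‖) (∑ i, ∑ j, ‖(A z)⁻¹ i j‖))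
  obtain ⟨e, he⟩ := hC _ hA (fun i j => (bd _ i j).trans (le_max_left _ _))
    fun i j => (bd _ i j).trans (le_max_right _ _)
  refine ⟨∑ b, fderiv ℝ (fun x => fderiv ℝ w x (e b)) z (e b), fun S => ?_⟩
  rw [map_sum]
  refine (he.two _ _ (S.contDiff.contDiffAt.comp z hw)).trans (Finset.sum_congr rfl fun b _ => ?_)
  have h1 : (fun x => fderiv ℝ (S ∘ w) x (e b)) =ᶠ[𝓝 z] S ∘ fun x => fderiv ℝ w x (e b) :=
    (c2_ev hw).mono fun x hx => by simp [(S.hasFDerivAt.comp x hx.hasFDerivAt).fderiv]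
  rw [h1.fderiv_eq, (S.hasFDerivAt.comp z (((c2_fderiv hw).differentiableAt one_ne_zero).clm_apply
    (differentiableAt_const _)).hasFDerivAt).fderiv]
  rfl

theorem lapV (h : FrS) {κ : Type} [Fintype κ] {A : V ι → Mat ι} {w : V ι → κ → ℂ} {z : V ι}
    (hA : (A z).PosDef) (hw : ∀ k, ContDiffAt ℝ 2 (fun x => w x k) z) (S : (κ → ℂ) →L[ℝ] ℂ) :
    lapL A (fun x => S (w x)) z = S fun k => lapL A (fun x => w x k) z := by
  obtain ⟨D, hD⟩ := lapS h hA (contDiffAt_pi.2 hw)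
  exact (hD S).trans (congrArg S (funext fun k => (hD (.proj k)).symm))

theorem lap_lin (h : FrS) {A : V ι → Mat ι} {f g : V ι → ℂ} {z : V ι} (hA : (A z).PosDef)
    (hf : ContDiffAt ℝ 2 f z) (hg : ContDiffAt ℝ 2 g z) (t : ℝ) :
    lapL A (fun x => f x + g x) z = lapL A f z + lapL A g z ∧
      lapL A (fun x => t • f x) z = t • lapL A f z ∧
      lapL A (fun x => f x - g x) z = lapL A f z - lapL A g z := by
  obtain ⟨D, hD⟩ := lapS h hA (hf.prodMk hg)
  rw [show lapL A f z = D.1 by simpa using hD (.fst ℝ ℂ ℂ),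
    show lapL A g z = D.2 by simpa using hD (.snd ℝ ℂ ℂ)]
  exact ⟨by simpa using hD (.fst ℝ ℂ ℂ + .snd ℝ ℂ ℂ), by simpa using hD (t • .fst ℝ ℂ ℂ),
    by simpa using hD (.fst ℝ ℂ ℂ - .snd ℝ ℂ ℂ)⟩

theorem lap_le {A : V ι → Mat ι} {f : V ι → ℂ} {z : V ι} {L : ℝ} (hA : Bd L (A z)⁻¹)
    (hf : ContDiffAt ℝ 2 f z) :
    ‖lapL A f z‖ ≤ Fintype.card ι * (Fintype.card ι * L) * ‖fderiv ℝ (fderiv ℝ f) z‖ := by
  have : ∀ i j, ‖levi f z i j * (A z)⁻¹ j i‖ ≤ L * ‖fderiv ℝ (fderiv ℝ f) z‖ := fun i j => by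
    rw [norm_mul, mul_comm, levi_eq hf]
    exact mul_le_mul (hA j i) ((norm_leviL i j _).trans_eq (one_mul _)) (norm_nonneg _)
      ((norm_nonneg _).trans (hA j i))
  refine (norm_sum_le_of_le _ fun i _ => norm_sum_le_of_le _ fun j _ => this i j).trans_eq ?_
  simp [mul_assoc]

theorem bd (ha : c.Bas) {κ : Type} [Fintype κ] (b : Bu G κ) (y : Y) : ∃ K ≥ (0 : ℝ),
    ∀ v P, b.Sec v → c.Sup P v → ‖v y‖ ≤ K * P := by
  obtain ⟨γ, a, z, -, hz, rfl⟩ := ha.cov y
  exact ⟨‖b.α γ‖, norm_nonneg _, fun v P hv hP => by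
    rw [hv.1]; exact (b.α γ).le_opNorm_of_le (hP a z hz)⟩

theorem rd (ha : c.Bas) {κ : Type} {v : Y → κ → ℂ} {N : ℝ} (hv : c.H2 N v) (a : Fin c.C.n) (k : κ) :
    ∀ z ∈ c.B a, c.lapV v (c.s a z) k = lapL (c.Gc a) (fun w => v (c.s a w) k) z := fun z hz =>
  (ha.lap (fun y => v y k) _ (c.C.mem a) z (ha.sec a z hz).1 _ (ha.sec a z hz).2.1
    ((hv a k).1 z hz)).symm

end CoBasB

open CoBasB

theorem basB (h : Al) (ha : c.Bas) : c.BasB where
  ck κ _ b k v hv H j := ha.loc k _ fun y => by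
    obtain ⟨γ, a, z, -, hz, rfl⟩ := ha.cov y
    refine ⟨_, c.C.mem a, z, (ha.sec a z hz).1, _, (ha.sec a z hz).2.1.smul c.hq γ, rfl, ?_⟩
    simp only [hv.1]
    exact contDiffAt_pi.1 ((b.α γ).contDiff.contDiffAt.comp z
      (contDiffAt_pi.2 fun j => H a j z hz)) j
  zero κ _ b v hv H y := by
    obtain ⟨γ, a, z, -, hz, rfl⟩ := ha.cov y
    rw [hv.1, H a z hz, map_zero]
  bd κ _ b y := bd ha b y
  lap κ _ b v hv H := by
    have key := fun y => lapV h.fr (w := c.rd v y) (ha.gp y) fun k => ha.at_ 2 _ y (H k)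
    refine ⟨fun γ y => funext fun k => ?_, fun y =>
      (Subspace.forall_mem_dualAnnihilator_apply_eq_zero_iff _ _).1 fun φ hφ => ?_⟩
    · refine ((ha.smul (fun x => v x k) 0 γ y).1.symm.trans ?_).trans
        (key y ((ContinuousLinearMap.proj k).comp (b.α γ)))
      simp only [hv.1]
      rfl
    · have h1 := key y (ofRealCLM.comp φ.toContinuousLinearMap)
      rw [show (fun x => (ofRealCLM.comp φ.toContinuousLinearMap) (c.rd v y x)) =
        fun x => (0 : (κ → ℂ) →L[ℝ] ℂ) (c.rd v y x) from funext fun x => by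
          simpa [Sx.rd] using (Submodule.mem_dualAnnihilator φ).1 hφ _ (hv.2 _), key y 0] at h1
      exact ofReal_eq_zero.1 h1.symm
  clm κ _ T A w z hA hw := funext fun k => lapV h.fr hA hw ((ContinuousLinearMap.proj k).comp T)
  hcl κ _ T := by
    classical
    have T0 : 0 < ‖T‖ + 1 := by positivity
    let S : κ → κ → ℂ →L[ℝ] ℂ := fun k j => (‖T‖ + 1)⁻¹ • ((ContinuousLinearMap.proj k).comp T).comp
      (ContinuousLinearMap.single ℝ (fun _ => ℂ) j)
    have h1 : ∀ k j, ‖S k j‖ ≤ 1 := fun k j =>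
      ContinuousLinearMap.opNorm_le_bound _ zero_le_one fun x => by
        have := (norm_le_pi_norm _ k).trans (T.le_opNorm (Pi.single j x))
        rw [Pi.norm_single] at this
        simp only [S, _root_.smul_apply, norm_smul, norm_inv, Real.norm_of_nonneg T0.le]
        rw [inv_mul_le_iff₀ T0]
        exact this.trans (by nlinarith [norm_nonneg x])
    have h2 : ∀ u k, T u k = ∑ j, (‖T‖ + 1 : ℝ) * S k j (u j) := fun u k => by
      conv_lhs => rw [← Finset.univ_sum_single u, map_sum, Finset.sum_apply]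
      refine Finset.sum_congr rfl fun j _ => ?_
      rw [← real_smul, ← _root_.smul_apply, smul_inv_smul₀ T0.ne']
      rfl
    refine ⟨Fintype.card κ * (8 * (‖T‖ + 1)), by positivity, fun U w t B ht =>
      ⟨fun H k => ?_, fun H k => ?_⟩⟩ <;> simp only [h2]
    · rcases U.eq_empty_or_nonempty with rfl | ⟨z, hz⟩
      · exact ⟨fun _ h => h.elim, fun _ h => h.elim⟩
      refine (HolT.sum _ ht fun j _ => ((H j).clm ht _ (h1 k j)).const_mul ht _).mono ?_
      rw [Finset.sum_const, Finset.card_univ, nsmul_eq_mul, norm_real, Real.norm_of_nonneg T0.le]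
      nlinarith [mul_nonneg (Nat.cast_nonneg (Fintype.card κ))
        (mul_nonneg T0.le ((H k).nonneg ht hz))]
    · refine (Hol2.sum _ fun j _ => ((H j).clm _ (h1 k j)).const_mul _).mono (Eq.le ?_)
      rw [Finset.sum_const, Finset.card_univ, nsmul_eq_mul, norm_real, Real.norm_of_nonneg T0.le]
      ring
  lin κ _ v w t hv hw :=
    have key := fun y k => lap_lin h.fr (ha.gp y) (ha.at_ 2 _ y (hv k)) (ha.at_ 2 _ y (hw k)) t
    ⟨funext₂ fun y k => (key y k).1, funext₂ fun y k => (key y k).2.1,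
      funext₂ fun y k => (key y k).2.2⟩
  hol κ _ := by
    obtain ⟨L, -, hL⟩ := ha.ell
    obtain ⟨C, C0, hC⟩ := h.hm.lap ι L
    exact ⟨C, C0, fun v N hv a k => (hC _ _ _ _ (hL a).2.1 (hv a k)).congr (rd ha hv a k)⟩
  itp κ _ δ hδ := by
    obtain ⟨L, L1, hL⟩ := ha.ell
    obtain ⟨m, m1, hm⟩ : ∃ m ≥ (1 : ℝ), Fintype.card ι * (Fintype.card ι * L) ≤ m :=
      ⟨max 1 _, le_max_left _ _, le_max_right _ _⟩
    have m0 : 0 < m := by linarith
    choose C C0 hC using fun a => h.it.itp ι (2 * c.C.r a) (δ / m) (by linarith [c.C.pos a])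
      (by positivity)
    have S0 : 0 ≤ ∑ a, C a := Finset.sum_nonneg fun a _ => C0 a
    refine ⟨m * ∑ a, C a, by positivity, fun v N P N0 hv hP => ?_⟩
    have P0 : ∀ _ : Fin c.C.n, 0 ≤ P := fun a =>
      (norm_nonneg _).trans (hP a 0 (mem_ball_self (by linarith [c.C.pos a])))
    have H := fun a k => hC a _ N P (hv a k) fun z hz => (norm_le_pi_norm _ k).trans (hP a z hz)
    have e : ∀ a, m * (δ / m * N + C a * P) ≤ δ * N + (m * ∑ a, C a) * P := fun a => by
      have := mul_le_mul_of_nonneg_right (mul_le_mul_of_nonneg_left (Finset.single_le_sum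
        (fun a _ => C0 a) (Finset.mem_univ a)) m0.le) (P0 a)
      rw [mul_add, ← mul_assoc, mul_div_cancel₀ _ m0.ne']
      linarith
    have e0 : ∀ a, 0 ≤ δ / m * N + C a * P := fun a => by
      have := C0 a
      have := P0 a
      positivity
    have e1 := fun a => (le_mul_of_one_le_left (e0 a) m1).trans (e a)
    refine ⟨fun a k => ⟨(H a k).1.1, (H a k).1.2.1.mono (e1 a), (H a k).1.2.2.mono (e1 a)⟩,
      fun a z hz => (pi_norm_le_iff_of_nonneg ((e0 a).trans (e1 a))).2 fun k => ?_⟩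
    rw [rd ha hv a k z hz]
    exact ((lap_le (fun i j => ((hL a).2.1 i j).1 z hz) ((hv a k).1 z hz)).trans
      (mul_le_mul hm ((H a k).2 z hz) (ContinuousLinearMap.opNorm_nonneg _) m0.le)).trans (e a)
  ult κ _ b v N 𝒰 H := by
    have : ∀ y, ∃ u, Tendsto (fun j => v j y) 𝒰 (𝓝 u) := fun y => by
      obtain ⟨K, -, hK⟩ := bd ha b y
      obtain ⟨u, -, hu⟩ := (isCompact_closedBall (0 : κ → ℂ) (K * |N|)).ultrafilter_le_nhds
        (𝒰.map fun j => v j y) (le_principal_iff.2 (mem_map.2 (univ_mem' fun j =>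
          mem_closedBall_zero_iff.2 (hK _ _ (H j).1 fun a z hz =>
            (pi_norm_le_iff_of_nonneg (abs_nonneg N)).2 fun k =>
              (((H j).2 a k).2.1.1 z hz).trans (le_abs_self N)))))
      exact ⟨u, hu⟩
    choose u hu using this
    have h1 := fun a k => h.it.ult ι _ N _ (fun z => u (c.s a z) k) 𝒰 (fun j => (H j).2 a k)
      fun z _ => tendsto_pi_nhds.1 (hu _) k
    refine ⟨u, ⟨fun γ y => tendsto_nhds_unique (hu _) ?_, fun y =>
      b.W.closed_of_finiteDimensional.mem_of_tendsto (hu y) (.of_forall fun j => (H j).1.2 y)⟩,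
      fun a k => (h1 a k).1, hu, fun δ hδ => ?_⟩
    · simp only [fun j => (H j).1.1 γ y]
      exact ((b.α γ).continuous.tendsto _).comp (hu y)
    · filter_upwards [eventually_all.2 fun a => eventually_all.2 fun k => (h1 a k).2 δ hδ]
        with j hj a z hz using (pi_norm_le_iff_of_nonneg hδ.le).2 fun k => hj a k z hz

end Pool.Agent.Lib.MP_813db1_ag.VH.Co
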