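import Pool.Agent.Lib.MP_813db1_ag.VH.CoStmt

/-! The matrix operators on the covering. -/

namespace Pool.Agent.Lib.MP_813db1_ag.VH.Co

open Pool.Agent.Lib.MP_813db1_ag.HS Pool.Agent.Lib.MP_813db1_ag.AS
open Complex Matrix Filter Topology Set
open scoped ContDiff ComplexOrder

namespace CoBasM

section Alg

variable {r : Type} [Fintype r] [DecidableEq r] {P Q N : Mat r}

omit [Fintype r] [DecidableEq r] in
theorem rs_iff : RS P ↔ Pᵀ = P ∧ Pᴴ = P :=
  and_congr_right fun h => by rw [conjTranspose, h]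

theorem rs_inv (h : RS P) : RS P⁻¹ := by
  rw [rs_iff] at h ⊢
  rw [transpose_nonsing_inv, conjTranspose_nonsing_inv, h.1, h.2]
  exact ⟨rfl, rfl⟩

omit [Fintype r] [DecidableEq r] in
theorem rs_sub (h : RS P) (h' : RS Q) : RS (P - Q) := by
  rw [rs_iff] at h h' ⊢
  rw [transpose_sub, conjTranspose_sub, h.1, h.2, h'.1, h'.2]
  exact ⟨rfl, rfl⟩

omit [Fintype r] [DecidableEq r] in
theorem rs_sum {κ : Type} [Fintype κ] {F : κ → Mat r} (h : ∀ b, RS (F b)) : RS (∑ b, F b) := by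
  simp only [rs_iff] at h ⊢
  simp only [transpose_sum, conjTranspose_sum, fun b => (h b).1, fun b => (h b).2, and_self]

omit [DecidableEq r] in
theorem rs_two (h : RS P) (hN : RS N) (h' : RS Q) : RS (P * N * Q + Q * N * P) := by
  rw [rs_iff] at h h' hN ⊢
  simp only [transpose_add, conjTranspose_add, transpose_mul, conjTranspose_mul, h.1, h.2, h'.1,
    h'.2, hN.1, hN.2, Matrix.mul_assoc, add_comm, and_self]

omit [DecidableEq r] in
theorem rs_one (h : RS P) (hN : RS N) : RS (P * N * P) := by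
  rw [rs_iff] at h hN ⊢
  simp only [transpose_mul, conjTranspose_mul, h.1, h.2, hN.1, hN.2, Matrix.mul_assoc, and_self]

/-- the matrix with equal columns. -/
def col (u : r → ℂ) : Mat r := Matrix.of fun i _ => u i

omit [DecidableEq r] in
theorem col_mul (A : Mat r) (u k : r → ℂ) : col (A *ᵥ u + k) = A * col u + col k := rfl

variable {G : Type} [Group G] (ρ : G →* Mat r) (γ : G)

theorem mi : ρ γ * ρ γ⁻¹ = 1 := by rw [← map_mul, mul_inv_cancel, map_one]

theorem imu : ρ γ⁻¹ * ρ γ = 1 := by rw [← map_mul, inv_mul_cancel, map_one]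

theorem mit : (ρ γ)ᵀ * (ρ γ⁻¹)ᵀ = 1 := by rw [← transpose_mul, imu, transpose_one]

theorem mit' (A : Mat r) : (ρ γ)ᵀ * ((ρ γ⁻¹)ᵀ * A) = A := by
  rw [← Matrix.mul_assoc, mit, Matrix.one_mul]

theorem im' (A : Mat r) : ρ γ⁻¹ * (ρ γ * A) = A := by rw [← Matrix.mul_assoc, imu, Matrix.one_mul]

theorem inv_eqv (h : P.det ≠ 0) : ((ρ γ⁻¹)ᵀ * P * ρ γ⁻¹)⁻¹ = ρ γ * P⁻¹ * (ρ γ)ᵀ := by
  refine inv_eq_left_inv ?_
  simp only [Matrix.mul_assoc, mit', nonsing_inv_mul_cancel_left _ _ h.isUnit, mi]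

theorem exV : ∃ b, IsBV ρ b :=
  ⟨⟨{ toFun := fun γ => LinearMap.toContinuousLinearMap ((mulVecLin (ρ γ)).restrictScalars ℝ)
      map_one' := by ext1 u; simp
      map_mul' := fun γ δ => by ext1 u; simp }, ⊤, fun _ _ _ => trivial⟩, fun _ _ => rfl, rfl⟩

/-- the action on forms. -/
noncomputable def act (A B : Mat r) : (r × r → ℂ) →ₗ[ℝ] (r × r → ℂ) where
  toFun u := vec (A * mt u * B)
  map_add' u v := by
    rw [show mt (u + v) = mt u + mt v from rfl, Matrix.mul_add, Matrix.add_mul]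
    rfl
  map_smul' t u := by
    rw [show mt (t • u) = t • mt u from rfl, Matrix.mul_smul, Matrix.smul_mul]
    rfl

theorem exS (hρ : RealR ρ) : ∃ b, IsBS ρ b := by
  refine ⟨⟨{
      toFun := fun γ => LinearMap.toContinuousLinearMap (act (ρ γ⁻¹)ᵀ (ρ γ⁻¹))
      map_one' := ?_
      map_mul' := fun γ δ => ?_ }, {
      carrier := {u | RS (mt u)}
      zero_mem' := ⟨rfl, Matrix.ext fun _ _ => star_zero _⟩
      add_mem' := fun {u v} hu hv => ?_
      smul_mem' := fun t u hu => ?_ }, fun γ u hu => ?_⟩, fun _ _ => rfl, fun _ => Iff.rfl⟩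
  · ext1 u
    show vec (_ * mt u * _) = u
    rw [inv_one, map_one, transpose_one, Matrix.one_mul, Matrix.mul_one]
    rfl
  · ext1 u
    show vec (_ * mt u * _) = vec (_ * (_ * mt u * _) * _)
    simp only [_root_.mul_inv_rev, map_mul, transpose_mul, Matrix.mul_assoc]
  · have hu' := rs_iff.1 hu
    have hv' := rs_iff.1 hv
    show RS (mt u + mt v)
    rw [rs_iff, transpose_add, conjTranspose_add, hu'.1, hu'.2, hv'.1, hv'.2]
    exact ⟨rfl, rfl⟩
  · have hu' := rs_iff.1 hu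
    show RS (t • mt u)
    rw [rs_iff, transpose_smul, conjTranspose_smul, hu'.1, hu'.2]
    exact ⟨rfl, rfl⟩
  · have hu' : RS (mt u) := hu
    show RS (_ * mt u * _)
    refine ⟨?_, ?_⟩
    · rw [transpose_mul, transpose_mul, transpose_transpose, hu'.1, Matrix.mul_assoc]
    · rw [RepA.map_star_mul, RepA.map_star_mul, hu'.2, transpose_map, hρ]

end Alg

section Loc

variable {ι r : Type} [Fintype ι] [Fintype r] [DecidableEq r] {F : V ι → Mat r} {v z : V ι}

omit [Fintype r] [DecidableEq r] in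
theorem cm_const {k : WithTop ℕ∞} (A : Mat r) : CM k (fun _ : V ι => A) z :=
  fun _ _ => contDiffAt_const

omit [Fintype r] [DecidableEq r] in
theorem cm_one (hF : CM 2 F z) : CM 1 F z := fun i j => (hF i j).of_le one_le_two

theorem cm_aff (h : DvS) {k : WithTop ℕ∞} (hF : CM k F z) (A B C : Mat r) :
    CM k (fun w => A * F w * B + C) z :=
  (h.cm _ _ _ _ _ _ (h.cm _ _ _ _ _ _ (h.cm _ _ _ _ _ _ (cm_const A) hF).2.2.1
    (cm_const B)).2.2.1 (cm_const C)).1

theorem dv_aff (h : DvS) (hF : CM 1 F z) (A B C : Mat r) :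
    dv (fun w => A * F w * B + C) v z = A * dv F v z * B := by
  have h1 := (h.cm _ _ _ _ _ _ (cm_const A) hF).2.2.1
  rw [(h.add _ _ _ _ v z (h.cm _ _ _ _ _ _ h1 (cm_const B)).2.2.1 (cm_const C)).1,
    h.mul _ _ _ _ v z h1 (cm_const B), h.mul _ _ _ _ v z (cm_const A) hF]
  simp only [h.const, Matrix.zero_mul, Matrix.mul_zero, zero_add, add_zero]

theorem dv2_aff (h : DvS) (hF : CM 2 F z) (A B C : Mat r) :
    dv (dv (fun w => A * F w * B + C) v) v z = A * dv (dv F v) v z * B := by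
  have h1 : dv (fun w => A * F w * B + C) v =ᶠ[𝓝 z] fun w => A * dv F v w * B + 0 :=
    (h.ev _ _ 2 F z hF).mono fun w hw => (dv_aff h (cm_one hw) A B C).trans (add_zero _).symm
  rw [(h.congr _ _ _ _ v z h1).self_of_nhds,
    dv_aff h (h.cd _ _ 1 2 F v z one_add_one_eq_two.le hF)]

omit [Fintype r] [DecidableEq r] in
theorem rs_dv (h : DvS) (hF : ∀ w, RS (F w)) (w : V ι) : RS (dv F v w) :=
  ⟨by rw [← (h.ct _ _ F v w).2.1, funext fun w => (hF w).1],
    by rw [← (h.ct _ _ F v w).2.2, funext fun w => (hF w).2]⟩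

end Loc

variable {ι X Y G r : Type} [Fintype ι] [DecidableEq ι] [TopologicalSpace X] [TopologicalSpace Y]
  [Group G] [MulAction G Y] {c : Sx ι X Y G} [Fintype r] [DecidableEq r] {F K : Y → Mat r}
  {k : WithTop ℕ∞}

theorem exF (h : Al) (ha : c.Bas) (y : Y) : ∃ L e, Fr (c.Gp y (c.pt y))⁻¹ L e := by
  have b : ∀ A : Mat ι, 0 ≤ ∑ i, ∑ j, ‖A i j‖ ∧ ∀ i j, ‖A i j‖ ≤ ∑ i, ∑ j, ‖A i j‖ := fun A =>
    ⟨by positivity, fun i j => (Finset.single_le_sum (f := fun j => ‖A i j‖)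
      (fun _ _ => norm_nonneg _) (Finset.mem_univ j)).trans (Finset.single_le_sum
        (f := fun i => ∑ j, ‖A i j‖) (fun _ _ => by positivity) (Finset.mem_univ i))⟩
  obtain ⟨C, -, hC⟩ := h.fr ι (∑ i, ∑ j, ‖c.Gp y (c.pt y) i j‖ + ∑ i, ∑ j, ‖(c.Gp y (c.pt y))⁻¹ i j‖)
  exact ⟨C, hC _ (ha.gp y) (fun i j => ((b _).2 i j).trans (le_add_of_nonneg_right (b _).1))
    fun i j => ((b _).2 i j).trans (le_add_of_nonneg_left (b _).1)⟩

omit [Fintype r] [DecidableEq r] in
theorem cm_rd (ha : c.Bas) (hF : c.CkM k F) (y : Y) : CM k (c.rd F y) (c.pt y) :=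
  fun i j => ha.at_ k _ y (hF i j)

omit [DecidableEq r] in
theorem q_ent (h : Al) (N : Mat r) (y : Y) (i l : r) : c.qM F N K y i l =
    ∑ j, ∑ k, N j k * c.gr (fun x => F x i j) (fun x => K x k l) y := h.dv.ent _ _ _ _ _ _ _ i l

omit [Fintype r] [DecidableEq r] in
theorem l_smul (ha : c.Bas) (γ : G) (y : Y) : c.lM F (γ • y) = c.lM (fun x => F (γ • x)) y :=
  Matrix.ext fun i j => (ha.smul (fun x => F x i j) 0 γ y).1.symm

omit [DecidableEq r] in
theorem q_smul (h : Al) (ha : c.Bas) (N : Mat r) (γ : G) (y : Y) :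
    c.qM F N K (γ • y) = c.qM (fun x => F (γ • x)) N (fun x => K (γ • x)) y :=
  Matrix.ext fun i l => by
    simp only [q_ent h, ← (ha.smul _ _ γ y).2]

theorem l_aff (h : Al) (ha : c.Bas) (hF : c.CkM 2 F) (A B C : Mat r) (y : Y) :
    c.lM (fun x => A * F x * B + C) y = A * c.lM F y * B := by
  obtain ⟨L, e, he⟩ := exF h ha y
  have h1 := (h.dv.fr _ r _ _ L e he).2.1
  refine (h1 _ (cm_aff h.dv (cm_rd ha hF y) A B C)).trans ?_
  rw [Sx.lM, h1 _ (cm_rd ha hF y), Matrix.mul_sum, Matrix.sum_mul]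
  exact Finset.sum_congr rfl fun b _ => dv2_aff h.dv (cm_rd ha hF y) A B C

theorem q_aff (h : Al) (ha : c.Bas) (hF : c.CkM 1 F) (hK : c.CkM 1 K) (A B C A' B' C' N : Mat r)
    (y : Y) : c.qM (fun x => A * F x * B + C) N (fun x => A' * K x * B' + C') y =
      A * c.qM F (B * N * A') K y * B' := by
  obtain ⟨L, e, he⟩ := exF h ha y
  have h1 := (h.dv.fr _ r _ _ L e he).2.2
  rw [Sx.qM, Sx.qM, h1, h1, Matrix.mul_sum, Matrix.sum_mul]
  refine Finset.sum_congr rfl fun b _ => ?_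
  have h2 := dv_aff (v := e b) h.dv (cm_rd ha hF y) A B C
  have h3 := dv_aff (v := e b) h.dv (cm_rd ha hK y) A' B' C'
  refine (congrArg₂ (fun P Q => P * N * Q) h2 h3).trans ?_
  simp only [Matrix.mul_assoc]

theorem q_eqv (h : Al) (ha : c.Bas) {ρ : G →* Mat r} (eF : EqH ρ F) (eK : EqH ρ K)
    (hF : c.CkM 1 F) (hK : c.CkM 1 K) (N : Mat r) (γ : G) (y : Y) :
    c.qM F (ρ γ * N * (ρ γ)ᵀ) K (γ • y) = (ρ γ⁻¹)ᵀ * c.qM F N K y * ρ γ⁻¹ := by
  rw [q_smul h ha, funext fun x => (eF γ x).trans (add_zero _).symm,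
    funext fun x => (eK γ x).trans (add_zero _).symm, q_aff h ha hF hK]
  simp only [Matrix.mul_assoc, im', mit, Matrix.mul_one]

theorem hd_eq (h : Al) (x : Y → r → ℂ) (y : Y) (i m : r) :
    c.hd F x y i = ((F y)⁻¹ * c.qM F 1 (fun w => col (x w)) y) i m := by
  simp only [Sx.hd, mulVec, dotProduct, mul_apply, q_ent h, one_apply, ite_mul, one_mul, zero_mul,
    Finset.sum_ite_eq, Finset.mem_univ, if_true, col, of_apply]

omit [Fintype r] [DecidableEq r] in
theorem one_of (hF : c.CkM 2 F) : c.CkM 1 F :=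
  fun i j e he z hz s hs => (hF i j e he z hz s hs).of_le one_le_two

theorem ck_inv (h : Al) (hF : c.CkM k F) (h0 : ∀ y, (F y).det ≠ 0) : c.CkM k fun y => (F y)⁻¹ :=
  fun i j e he z hz s hs => (h.dv.cm _ _ k _ _ z (fun i j => hF i j e he z hz s hs)
    fun i j => hF i j e he z hz s hs).2.2.2.2.1 (h0 _) i j

omit [DecidableEq r] in
theorem ck_q (h : Al) (ha : c.Bas) {N : Y → Mat r} (hF : c.CkM ∞ F) (hN : c.CkM ∞ N)
    (hK : c.CkM ∞ K) : c.CkM ∞ fun y => c.qM F (N y) K y := fun i l e he z hz s hs => by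
  simp only [q_ent h]
  exact ContDiffAt.sum fun j _ => ContDiffAt.sum fun k _ => (hN j k e he z hz s hs).mul
    ((ha.ck _ _ (hF i j) (hK k l)).2 e he z hz s hs)

omit [DecidableEq r] in
theorem m2 (ha : c.Bas) (hF : c.CkM ∞ F) : ∃ L ≥ (0 : ℝ), c.M2 L F := by
  choose L h0 hL using fun q : r × r => ha.hol _ (hF q.1 q.2)
  exact ⟨∑ q, L q, Finset.sum_nonneg fun q _ => h0 q, fun a i j => (hL (i, j) a).mono
    (Finset.single_le_sum (fun q _ => h0 q) (Finset.mem_univ _))⟩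

omit [DecidableEq r] in
theorem rd (h : Al) (ha : c.Bas) (F K : Y → Mat r) (N : Mat r) :
    Loc c.M c.p fun e z σ => (CM 2 (fun w => F (σ w)) z →
      Co.lM (c.M.repF c.g e) (fun w => F (σ w)) z = c.lM F (σ z)) ∧
      (CM 1 (fun w => F (σ w)) z → CM 1 (fun w => K (σ w)) z →
        Co.qM (c.M.repF c.g e) (fun w => F (σ w)) N (fun w => K (σ w)) z = c.qM F N K (σ z)) :=
  fun e he z hz s hs => ⟨fun hF => Matrix.ext fun i j =>
    ha.lap (fun y => F y i j) e he z hz s hs (hF i j), fun hF hK => Matrix.ext fun i l => by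
      rw [q_ent h, h.dv.ent]
      exact Finset.sum_congr rfl fun j _ => Finset.sum_congr rfl fun k _ => congrArg _
        (ha.gr (fun y => F y i j) (fun y => K y k l) e he z hz s hs
          ((hF i j).differentiableAt one_ne_zero) ((hK k l).differentiableAt one_ne_zero))⟩

end CoBasM

variable {ι X Y G : Type} [Fintype ι] [DecidableEq ι] [TopologicalSpace X] [TopologicalSpace Y]
  [Group G] [MulAction G Y] {c : Sx ι X Y G}

open CoBasM in
theorem basM (h : Al) (ha : c.Bas) : c.BasM where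
  rd _ _ _ := rd h ha
  rd2 r _ _ H P x e he z hz s hs hH := by
    have h1 := cm_one hH
    have h2 := fun (F K : Y → Mat r) N => (rd h ha F K N e he z hz s hs).2
    refine ⟨?_, ?_, fun hP => ?_, fun hx => ?_⟩
    · rw [ten, Sx.ten, (rd h ha H H 0 e he z hz s hs).1 hH, h2 H H _ h1 h1]
    · rw [en, Sx.en, h2 H H _ h1 h1]
    · rw [low, Sx.low, h2 H H _ h1 h1, h2 P H _ hP h1, h2 H P _ h1 hP]
    · rw [hd, Sx.hd]
      exact congrArg _ (funext fun j => Finset.sum_congr rfl fun l _ =>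
        ha.gr (fun y => H y j l) (fun y => x y l) e he z hz s hs
          ((h1 j l).differentiableAt one_ne_zero) ((hx l).differentiableAt one_ne_zero))
  eqv r _ _ ρ H P eH hH h0 := by
    have h1 := one_of hH
    have hi : ∀ (γ : G) y, (H (γ • y))⁻¹ = ρ γ * (H y)⁻¹ * (ρ γ)ᵀ := fun γ y => by
      rw [eH, inv_eqv ρ γ (h0 y)]
    refine ⟨fun γ y => ?_, fun γ y => ?_, fun eP hP γ y => ?_, fun k x ex hx => ?_⟩
    · rw [Sx.ten, Sx.ten, hi, q_eqv h ha eH eH h1 h1, l_smul ha,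
        funext fun x => (eH γ x).trans (add_zero _).symm, l_aff h ha hH, Matrix.mul_sub,
        Matrix.sub_mul]
    · rw [Sx.en, Sx.en, hi, q_eqv h ha eH eH h1 h1]
      simp only [Matrix.mul_assoc, mit']
      rw [trace_mul_comm]
      simp only [Matrix.mul_assoc, imu, Matrix.mul_one]
    · have e : (H (γ • y))⁻¹ * P (γ • y) * (H (γ • y))⁻¹ =
          ρ γ * ((H y)⁻¹ * P y * (H y)⁻¹) * (ρ γ)ᵀ := by
        rw [hi, eP]
        simp only [Matrix.mul_assoc, mit', im']
      rw [Sx.low, Sx.low, e, hi, q_eqv h ha eH eH h1 h1, q_eqv h ha eP eH hP h1,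
        q_eqv h ha eH eP h1 hP]
      simp only [Matrix.mul_sub, Matrix.sub_mul]
    · have hX : c.CkM 2 fun y => col (x y) := fun i _ => hx i
      have eX : ∀ γ : G, (fun y => col (x (γ • y))) = fun y => ρ γ * col (x y) * 1 + col (k γ) :=
        fun γ => funext fun y => by rw [ex, col_mul, Matrix.mul_one]
      refine ⟨fun γ y => funext fun i => ?_, fun γ y => funext fun i => ?_⟩
      · rw [hd_eq h x _ i i, q_smul h ha, eX, funext fun x => (eH γ x).trans (add_zero _).symm,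
          q_aff h ha h1 (one_of hX), hi]
        simp only [Matrix.mul_assoc, mit', imu, Matrix.mul_one, Pi.zero_apply, add_zero]
        rw [mul_apply]
        exact Finset.sum_congr rfl fun j _ => congrArg (ρ γ i j * ·) (hd_eq h x y j i).symm
      · have := l_smul (F := fun y => col (x y)) ha γ y
        rw [eX, l_aff h ha hX, Matrix.mul_one] at this
        exact (congrFun₂ this i i).trans (add_zero _).symm
  rs r _ _ H P hH hr := by
    refine ⟨fun y => ?_, fun hP y => ?_, fun x hx y => ?_⟩ <;> obtain ⟨L, e, he⟩ := exF h ha y <;>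
      obtain ⟨h1, h2, h3⟩ := h.dv.fr _ r _ _ L e he <;>
      have h4 : ∀ v w, RS (dv (c.rd H y) v w) := fun v => rs_dv h.dv fun w => hr _
    · rw [Sx.ten, Sx.lM, Sx.qM, h2 _ (cm_rd ha hH y), h3]
      exact rs_sub (rs_sum fun b => rs_dv h.dv (h4 _) _)
        (rs_sum fun b => rs_one (h4 _ _) (rs_inv (hr y)))
    · rw [Sx.low, Sx.qM, Sx.qM, Sx.qM, h3, h3, h3, sub_sub, ← Finset.sum_add_distrib]
      exact rs_sub (rs_sum fun b => rs_one (h4 _ _) (rs_one (rs_inv (hr y)) (hP y)))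
        (rs_sum fun b => rs_two (rs_dv h.dv (fun w => hP _) _) (rs_inv (hr y)) (h4 _ _))
    · funext i
      have h5 := ha.at_ 2 _ y (hx i)
      have h6 : c.lap (fun w => star (x w i)) y = star (c.lap (fun w => x w i) y) := by
        refine (he.two _ _ (conjCLE.contDiff.contDiffAt.comp _ h5)).trans
          (Eq.trans ?_ (congrArg star (he.two _ _ h5)).symm)
        simp only [star_sum, ← fderiv_star_apply]
        rfl
      have h7 : ∀ j l, c.gr (fun w => H w j l) (fun w => star (x w l)) y =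
          star (c.gr (fun w => H w j l) fun w => x w l) y := fun j l => by
        simp only [Sx.gr, Pi.star_apply, h1, star_sum, star_mul', ← fderiv_star_apply]
        refine Finset.sum_congr rfl fun b _ => congrArg₂ _ ?_ rfl
        exact congrArg (fderiv ℝ · _ _) (funext fun w => (congrFun₂ (hr _).2 j l).symm)
      have h8 : ∀ j, star ((H y)⁻¹ i j) = (H y)⁻¹ i j := congrFun₂ (rs_inv (hr y)).2 i
      simp only [Sx.tl, Sx.lapV, Sx.hd, Pi.add_apply, Pi.star_apply, h6, h7, mulVec, dotProduct,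
        star_add, star_sum, star_mul', h8]
  sm r _ _ H hH h0 := by
    have h1 := ck_inv h hH h0
    have h2 := ck_q h ha hH h1 hH
    refine ⟨fun i j e he z hz s hs => ((ha.ck _ _ (hH i j) (hH i j)).1 e he z hz s hs).sub
      (h2 i j e he z hz s hs), fun e he z hz s hs => ?_, fun x hx i e he z hz s hs => ?_,
      m2 ha hH, ?_⟩
    · exact (ofRealCLM.comp reCLM).contDiff.contDiffAt.comp z (ContDiffAt.sum fun i _ =>
        ContDiffAt.sum fun j _ => (h1 i j e he z hz s hs).mul (h2 j i e he z hz s hs))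
    · exact ((ha.ck _ _ (hx i) (hx i)).1 e he z hz s hs).add (ContDiffAt.sum fun j _ =>
        (h1 i j e he z hz s hs).mul (ContDiffAt.sum fun l _ =>
          (ha.ck _ _ (hH j l) (hx l)).2 e he z hz s hs))
    · obtain ⟨L, -, hL⟩ := m2 ha h1
      exact ⟨L, fun a z hz i j => (hL a i j).2.1.1 z hz⟩
  bs r _ _ ρ := ⟨exV ρ, exS ρ, fun b hb v => and_congr
    (forall₂_congr fun γ y => by
      rw [hb.1]
      exact ⟨congrArg mt, congrArg vec⟩) (forall_congr' fun y => hb.2 _)⟩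

end Pool.Agent.Lib.MP_813db1_ag.VH.Co
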