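import Pool.Agent.Lib.MP_813db1_ag.VH.CoStmt

/-! Successive approximation and solvability for large parameters on a covering. -/

namespace Pool.Agent.Lib.MP_813db1_ag.VH.Co

open Pool.Agent.Lib.MP_813db1_ag.HS Pool.Agent.Lib.MP_813db1_ag.AS
open Complex Matrix Filter Topology Set Metric
open scoped ContDiff ComplexOrder

variable {ι X Y G : Type} [Fintype ι] [DecidableEq ι] [TopologicalSpace X] [TopologicalSpace Y]
  [Group G] [MulAction G Y] {c : Sx ι X Y G}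

namespace CoBs

variable {κ : Type} [Fintype κ] {b : Bu G κ} {v w : Y → κ → ℂ} {t L L' : ℝ}

omit [TopologicalSpace Y] in
theorem sec_zero : b.Sec (0 : Y → κ → ℂ) := ⟨fun _ _ => (map_zero _).symm, fun _ => b.W.zero_mem⟩

omit [TopologicalSpace Y] in
theorem sec_add (h : b.Sec v) (h' : b.Sec w) : b.Sec (v + w) :=
  ⟨fun γ y => by rw [Pi.add_apply, Pi.add_apply, map_add, h.1, h'.1],
    fun y => b.W.add_mem (h.2 y) (h'.2 y)⟩

omit [TopologicalSpace Y] in
theorem sec_smul (h : b.Sec v) (s : ℝ) : b.Sec (s • v) :=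
  ⟨fun γ y => by rw [Pi.smul_apply, Pi.smul_apply, map_smul, h.1],
    fun y => b.W.smul_mem s (h.2 y)⟩

omit [TopologicalSpace Y] in
theorem sec_sub (h : b.Sec v) (h' : b.Sec w) : b.Sec (v - w) :=
  ⟨fun γ y => by rw [Pi.sub_apply, Pi.sub_apply, map_sub, h.1, h'.1],
    fun y => b.W.sub_mem (h.2 y) (h'.2 y)⟩

omit [Fintype κ] in
theorem h2_mono (h : c.H2 L v) (e : L ≤ L') : c.H2 L' v := fun a k => (h a k).mono e

omit [Fintype κ] in
theorem ht_mono (h : c.HT t L v) (e : L ≤ L') : c.HT t L' v := fun a k => (h a k).mono e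

omit [Fintype κ] in
theorem h2_zero (h : 0 ≤ L) : c.H2 L (0 : Y → κ → ℂ) := fun _ _ => Hol2.const 0 (by simpa using h)

omit [Fintype κ] in
theorem h2_add (h : c.H2 L v) (h' : c.H2 L' w) : c.H2 (L + L') (v + w) :=
  fun a k => (h a k).add (h' a k)

theorem h0_sup (h : c.H0 L v) (h0 : 0 ≤ L) : c.Sup L v :=
  fun a z hz => (pi_norm_le_iff_of_nonneg h0).2 fun k => (h a k).1 z hz

theorem h2_sup (h : c.H2 L v) (h0 : 0 ≤ L) : c.Sup L v := h0_sup (fun a k => (h a k).2.1) h0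

theorem ck (hb : c.Bs) (h : b.Sec v) (h2 : c.H2 L v) : c.CkV 2 v :=
  hb.b.ck κ b 2 v h fun a j => (h2 a j).1

theorem lap_zero (hb : c.Bs) : c.lapV (0 : Y → κ → ℂ) = 0 := by
  have h : c.CkV 2 (0 : Y → κ → ℂ) := fun _ _ _ _ _ _ _ => contDiffAt_const
  simpa using (hb.b.lin κ 0 0 0 h h).2.2

theorem lap_sum (hb : c.Bs) {P : Type} (T : Finset P) {F : P → Y → κ → ℂ} {B : P → ℝ}
    (h : ∀ p ∈ T, b.Sec (F p) ∧ c.H2 (B p) (F p)) : b.Sec (∑ p ∈ T, F p) ∧
      c.H2 (∑ p ∈ T, B p) (∑ p ∈ T, F p) ∧ c.lapV (∑ p ∈ T, F p) = ∑ p ∈ T, c.lapV (F p) := by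
  classical
  induction T using Finset.induction_on with
  | empty => exact ⟨sec_zero, h2_zero le_rfl, lap_zero hb⟩
  | insert p T hp ih =>
    obtain ⟨i1, i2, i3⟩ := ih fun q hq => h q (Finset.mem_insert_of_mem hq)
    obtain ⟨j1, j2⟩ := h p (Finset.mem_insert_self _ _)
    simp only [Finset.sum_insert hp]
    exact ⟨sec_add j1 i1, h2_add j2 i2, by
      rw [(hb.b.lin κ _ _ 0 (ck hb j1 j2) (ck hb i1 i2)).1, i3]⟩

theorem proj (W : Submodule ℝ (κ → ℂ)) : ∃ π : (κ → ℂ) →L[ℝ] (κ → ℂ),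
    (∀ u, π u ∈ W) ∧ ∀ u ∈ W, π u = u := by
  obtain ⟨g, hg⟩ := W.subtype.exists_leftInverse_of_injective W.ker_subtype
  exact ⟨LinearMap.toContinuousLinearMap (W.subtype ∘ₗ g), fun u => (g u).2,
    fun u hu => congrArg Subtype.val (LinearMap.congr_fun hg ⟨u, hu⟩)⟩

/-- a real partition of unity with small supports. -/
theorem part [T2Space X] (c : Sx ι X Y G) {ρ0 : ℝ} (h0 : 0 < ρ0) :
    ∃ (T : Finset (Σ _ : Fin c.C.n, V ι)) (ρ : Fin c.C.n → ℝ) (k : (Σ _ : Fin c.C.n, V ι) → ℝ)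
      (ψ : (Σ _ : Fin c.C.n, V ι) → V ι → ℝ), (∀ a, 0 < ρ a ∧ ρ a ≤ ρ0) ∧
      (∀ p ∈ T, closedBall p.2 (ρ p.1) ⊆ c.B p.1) ∧ (∀ p, 0 ≤ k p) ∧
      (∀ p ∈ T, Hol (k p) (fun z => (ψ p z : ℂ)) univ) ∧
      (∀ p, ∀ z ∉ closedBall p.2 (ρ p.1 / 2), ψ p z = 0) ∧
      ∀ x, ∑ p ∈ T, c.M.ext 0 (c.C.e p.1) (fun z => (ψ p z : ℂ)) x = 1 := by
  obtain ⟨T, ρ, k, hρ, hT, hk, hp⟩ := LinE.part (AY.repA' ι X c.M) (extS AY.repA') c.C h0
  obtain ⟨F, F1, F2, F3⟩ := hp 0 1 1 (fun _ => 1) le_rfl zero_le_one fun a => by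
    rw [rep_fun]
    exact hol_iff.1 (Hol.const 1 (by simp))
  refine ⟨T, ρ, k, fun p z => (F p z).re, hρ, hT, hk, fun p hp => ?_,
    fun p z hz => by simp only [F2 p z hz, zero_re], fun x => ?_⟩
  · have := (F1 p hp).map zero_le_one (Φ := fun u : ℂ => (u.re : ℂ)) zero_le_one
      (fun u => by simpa using abs_re_le_norm u) fun u u' => by
        rw [← ofReal_sub, ← sub_re, norm_real, one_mul]
        exact abs_re_le_norm (u - u')
    exact hol_iff.2 (this.mono (by simp))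
  · have e : ∀ p : Σ _ : Fin c.C.n, V ι, c.M.ext 0 (c.C.e p.1) (fun z => ((F p z).re : ℂ)) x =
        ((c.M.ext 0 (c.C.e p.1) (F p) x).re : ℂ) := fun p => by
      by_cases hx : x ∈ (c.C.e p.1).source
      · simp [LinE.ext_pos hx]
      · simp [LinE.ext_neg hx]
    simp only [e]
    rw [← ofReal_sum, ← re_sum, F3]
    simp

/-- the global parametrix. -/
theorem par [T2Space X] (hb : c.Bs) (h1 : c.ExS) (b : Bu G κ) : ∃ t0 ≥ (1 : ℝ), ∃ D ≥ (0 : ℝ),
    ∀ t ≥ t0, ∀ f B, 0 ≤ B → b.Sec f → c.HT t B f → ∃ w E, b.Sec w ∧ c.H2 (D * B) w ∧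
      c.HT t (D * B / t ^ 2) E ∧ t ^ 4 • w - c.lapV w = f - E := by
  obtain ⟨L, hL, hE⟩ := hb.a.ell
  obtain ⟨ρ0, h0, t0, ht0, hl⟩ := locS AY.pertS ι L
  obtain ⟨T, ρ, k, ψ, hρ, hT, hk, ψ1, ψ2, ψ3⟩ := part c h0
  have l1 := fun p : Σ _ : Fin c.C.n, V ι => hl p.2 (ρ p.1) (hρ _).1 (hρ _).2
  choose C1 C0 l1 using l1
  have e1 := fun (p : Σ _ : Fin c.C.n, V ι) (hp : p ∈ T) =>
    h1 κ b p.1 _ (isCompact_closedBall p.2 (ρ p.1)) (hT p hp)
  choose! K0 K1 Ex e1 e2 e3 using e1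
  obtain ⟨π, π1, π2⟩ := proj b.W
  obtain ⟨Kπ, Kπ0, hπ⟩ := hb.b.hcl κ π
  refine ⟨t0, ht0, ∑ p ∈ T, K0 p * (Kπ * (C1 p * (2 * k p))), Finset.sum_nonneg fun p hp =>
    mul_nonneg (K1 p hp) (mul_nonneg Kπ0 (mul_nonneg (C0 p) (by linarith [hk p]))),
    fun t ht f B hB hf hH => ?_⟩
  have t1 : 1 ≤ t := ht0.trans ht
  have l2 := fun (p : Σ _ : Fin c.C.n, V ι) (hp : p ∈ T) (j : κ) =>
    l1 p 0 (c.Gc p.1) _ (hT p hp) (hb.a.kon p.1).2 (hE p.1).1 (hE p.1).2.1
      (fun i => (Hol.const 0 (by simpa using zero_le_one.trans hL)).congr fun z _ => by simp)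
      t ht (fun z => ψ p z * f (c.s p.1 z) j) _
      ((hH p.1 j).mul' t1 (ψ1 p hp) hB fun z _ hz => by
        rw [ψ2 p z fun h => hz (hT p hp (closedBall_subset_closedBall
          (by linarith [(hρ p.1).1]) h)), ofReal_zero])
      fun z hz => by rw [ψ2 p z hz, ofReal_zero, zero_mul]
  choose! w E w1 E1 w0 hw using l2
  have z1 : ∀ p ∈ T, ∀ z ∉ closedBall p.2 (ρ p.1), π (fun j => w p j z) = 0 ∧
      π (fun j => E p j z) = 0 := fun p hp z hz =>
    ⟨(congrArg π (funext fun j => (w0 p hp j z hz).1)).trans (map_zero π),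
      (congrArg π (funext fun j => (w0 p hp j z hz).2)).trans (map_zero π)⟩
  have k1 := fun p hp => e3 p hp (fun z => π fun j => w p j z) (fun z hz => (z1 p hp z hz).1)
    fun z => π1 _
  have k2 := fun p hp => (k1 p hp).2.2 _
    ((hπ univ (fun z j => w p j z) t _ (by linarith)).2 (w1 p hp))
  have k3 := fun p hp => (e3 p hp (fun z => π fun j => E p j z) (fun z hz => (z1 p hp z hz).2)
    fun z => π1 _).2.1 t t1 _ ((hπ univ (fun z j => E p j z) t _ (by linarith)).1 (E1 p hp))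
  obtain ⟨s1, s2, s3⟩ := lap_sum hb T fun p hp => ⟨(k1 p hp).1, (k2 p hp).1⟩
  refine ⟨_, ∑ p ∈ T, Ex p fun z => π fun j => E p j z, s1, h2_mono s2 (le_of_eq ?_),
    fun a j => ((HolT.sum T (by linarith) fun p hp => k3 p hp a j).congr fun z _ => by
      simp only [Finset.sum_apply]).mono (le_of_eq ?_), funext fun y => ?_⟩
  · rw [Finset.sum_mul]
    exact Finset.sum_congr rfl fun p _ => by ring
  · rw [Finset.sum_mul, Finset.sum_div]
    exact Finset.sum_congr rfl fun p _ => by ring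
  · have f1 : f y = ∑ p ∈ T, Ex p (fun z => (ψ p z : ℂ) • f (c.s p.1 z)) y := by
      rw [Finset.sum_congr rfl fun p hp => e2 p hp _ f y hf fun z => ofReal_im _,
        ← Finset.sum_smul, ψ3, one_smul]
    rw [s3, Finset.smul_sum, Pi.sub_apply, Pi.sub_apply, f1]
    simp only [Finset.sum_apply, ← Finset.sum_sub_distrib]
    refine Finset.sum_congr rfl fun p hp => ?_
    rw [(k2 p hp).2 y, Pi.smul_apply, ← e1 p hp _ _ (fun z => (1 : ℝ) • ((ψ p z : ℂ) •
      f (c.s p.1 z)) - π fun j => E p j z) _ y fun z hz => ?_, e1 p hp _ _ _ 1 y fun _ _ => rfl,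
      one_smul]
    rw [hb.b.clm κ π (c.Gc p.1) (fun z j => w p j z) z ((c.hg _ (c.C.mem p.1)).2 z hz)
      fun j => (w1 p hp j).1 z trivial, one_smul, coe_smul,
      ← π2 _ (b.W.smul_mem (ψ p z) (hf.2 _)), ← map_smul, ← map_sub, ← map_sub]
    refine congrArg π (funext fun j => ?_)
    have := hw p hp j z
    simp only [boxL, Nat.cast_zero, zero_mul, sub_zero] at this
    simp only [Pi.sub_apply, Pi.smul_apply, real_smul, ofReal_pow]
    exact this.symm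

end CoBs

open CoBs

theorem itE (hb : c.Bs) : c.ItE := by
  intro κ _ b Φ t K B0 Λ ht hK hB h0 hstep hcont
  have hKB := mul_nonneg hK hB
  have hp : ∀ k : ℕ, (0 : ℝ) < (1 / 2) ^ k := fun k => by positivity
  have hp1 : ∀ k : ℕ, ((1 : ℝ) / 2) ^ k ≤ 1 := fun k => pow_le_one₀ (by norm_num) (by norm_num)
  let P : ℕ → (Y → κ → ℂ) → Prop := fun k v => b.Sec v ∧
    c.H2 (2 * K * B0 * (1 - (1 / 2) ^ k)) v ∧ c.HT t (B0 * (1 / 2) ^ k) (Φ v)
  have big : ∀ k v, P k v → c.H2 (2 * K * B0) v := fun k v h =>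
    h2_mono h.2.1 (by nlinarith [mul_nonneg hKB (hp k).le])
  have step : ∀ k v, P k v → ∃ v', P (k + 1) v' ∧ c.H2 (K * B0 * (1 / 2) ^ k) (v' - v) :=
    fun k v h => by
      obtain ⟨w, w0, w1, w2⟩ := hstep v _ (mul_nonneg hB (hp k).le)
        (mul_le_of_le_one_right hB (hp1 k)) h.1 (big k v h) h.2.2
      exact ⟨v + w, ⟨sec_add h.1 w0, h2_mono (h2_add h.2.1 w1) (le_of_eq (by ring)),
        ht_mono w2 (le_of_eq (by ring))⟩, by
          rw [add_sub_cancel_left]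
          exact h2_mono w1 (le_of_eq (by ring))⟩
  have p0 : P 0 0 := ⟨sec_zero, h2_zero (by simp), by simpa using h0⟩
  choose! nx hn1 hn2 using step
  let S : ℕ → Y → κ → ℂ := fun k => Nat.rec 0 nx k
  have hS : ∀ k, P k (S k) := fun k => by
    induction k with
    | zero => exact p0
    | succ k ih => exact hn1 k _ ih
  have hd : ∀ k n, c.H2 (2 * K * B0 * ((1 / 2) ^ k - (1 / 2) ^ (k + n))) (S (k + n) - S k) :=
    fun k n => by
      induction n with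
      | zero => simpa using h2_zero le_rfl
      | succ n ih =>
        have := h2_add (hn2 (k + n) _ (hS (k + n))) ih
        rw [sub_add_sub_cancel] at this
        exact h2_mono this (le_of_eq (by ring))
  have hd' : ∀ k j, k ≤ j → c.H2 (2 * K * B0 * (1 / 2) ^ k) (S j - S k) := fun k j h => by
    obtain ⟨n, rfl⟩ := Nat.exists_eq_add_of_le h
    exact h2_mono (hd k n) (by nlinarith [mul_nonneg hKB (hp (k + n)).le])
  have lim : ∀ r : ℝ, Tendsto (fun k : ℕ => r * (1 / 2 : ℝ) ^ k) atTop (𝓝 0) := fun r => by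
    simpa using (tendsto_pow_atTop_nhds_zero_of_lt_one (r := (1 / 2 : ℝ)) (by norm_num)
      (by norm_num)).const_mul r
  have cauchy : ∀ y, ∃ u, Tendsto (fun k => S k y) atTop (𝓝 u) := fun y => by
    obtain ⟨r, -, hr⟩ := hb.b.bd κ b y
    refine cauchySeq_tendsto_of_complete (cauchySeq_of_le_tendsto_0'
      (fun k => r * (2 * K * B0) * (1 / 2 : ℝ) ^ k) (fun k j h => ?_) (lim _))
    rw [dist_comm, dist_eq_norm, mul_assoc]
    exact hr _ _ (sec_sub (hS j).1 (hS k).1) (h2_sup (hd' k j h) (by have := hp k; positivity))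
  choose U hU using cauchy
  have hUs : b.Sec U := ⟨fun γ y => tendsto_nhds_unique (hU _)
    ((((b.α γ).continuous.tendsto _).comp (hU y)).congr fun k => ((hS k).1.1 γ y).symm),
    fun y => b.W.closed_of_finiteDimensional.mem_of_tendsto (hU y)
      (Eventually.of_forall fun k => (hS k).1.2 y)⟩
  have key : ∀ k, c.H2 (2 * K * B0 * (1 / 2) ^ k) (U - S k) := fun k a j =>
    (cau.lim ι _ (fun k z => S k (c.s a z) j) (fun z => U (c.s a z) j) _ isOpen_ball (lim _)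
      (fun k => (big k _ (hS k) a j).1) (fun k i h => hd' k i h a j)
      fun z _ => tendsto_pi_nhds.1 (hU _) j).2 k
  have hU2 : c.H2 (2 * K * B0) U := by simpa [S] using key 0
  refine ⟨U, hUs, hU2, fun a z hz => norm_le_zero_iff.1
    (ge_of_tendsto' (lim (Λ * (2 * K * B0) + B0)) fun k => ?_)⟩
  have a1 := hcont U _ _ hUs (hS k).1 hU2 (big k _ (hS k)) (key k) a z hz
  have a2 := h0_sup (fun a j => ((hS k).2.2 a j).hol ht) (by have := hp k; positivity) a z hz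
  have a3 := norm_add_le (Φ U (c.s a z) - Φ (S k) (c.s a z)) (Φ (S k) (c.s a z))
  rw [sub_add_cancel] at a3
  rw [Pi.sub_apply] at a1
  linarith

theorem bsS [T2Space X] (hb : c.Bs) (h1 : c.ExS) (h2 : c.ItE) : c.BsS := by
  intro κ _ b
  rcases isEmpty_or_nonempty κ with hκ | ⟨⟨j0⟩⟩
  · exact ⟨0, fun l _ => ⟨0, le_rfl, fun f B _ hf _ =>
      ⟨f, hf, fun a k => isEmptyElim k, fun y => Subsingleton.elim _ _⟩⟩⟩
  obtain ⟨t0, ht0, D, hD, hp⟩ := par hb h1 b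
  obtain ⟨Kl, Kl0, hl⟩ := hb.b.hol κ
  refine ⟨max t0 (2 * D) ^ 4, fun l hl0 => ?_⟩
  have m0 : 0 ≤ max t0 (2 * D) := le_max_of_le_right (by linarith)
  obtain ⟨t, ht, rfl⟩ : ∃ t, max t0 (2 * D) ≤ t ∧ t ^ 4 = l := by
    have l0 : 0 ≤ l := (pow_nonneg m0 4).trans hl0
    have e : √(√l) ^ 4 = l := by
      rw [show 4 = 2 * 2 from rfl, pow_mul, Real.sq_sqrt (Real.sqrt_nonneg _), Real.sq_sqrt l0]
    exact ⟨_, le_of_pow_le_pow_left₀ four_ne_zero (Real.sqrt_nonneg _) (e.symm ▸ hl0), e⟩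
  obtain ⟨ht, htD⟩ := max_le_iff.1 ht
  have t1 : 1 ≤ t := ht0.trans ht
  refine ⟨2 * D * t, by positivity, fun f B hB0 hf hH => ?_⟩
  have sec : ∀ v N, b.Sec v → c.H2 N v → b.Sec (c.lapV v - t ^ 4 • v - f) := fun v N s h =>
    sec_sub (sec_sub (hb.b.lap κ b v s (ck hb s h)) (sec_smul s _)) hf
  obtain ⟨v, v0, v1, v2⟩ := h2 κ b (fun v => c.lapV v - t ^ 4 • v - f) t D (t * B) (Kl + t ^ 4) t1
    hD (by positivity)
    (fun a j => ((hH a j).holT t1).neg.congr fun z _ => by simp [lap_zero hb])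
    (fun v B' h0 _ sv hv hΦ => by
      obtain ⟨w, E, sw, w1, E1, hw⟩ := hp t ht _ B' h0 (sec v _ sv hv) hΦ
      refine ⟨w, sw, w1, ?_⟩
      have e : c.lapV (v + w) - t ^ 4 • (v + w) - f = E := by
        rw [(hb.b.lin κ _ _ 0 (ck hb sv hv) (ck hb sw w1)).1, smul_add]
        linear_combination (exp := 1) -hw
      rw [e]
      refine ht_mono E1 ?_
      rw [div_le_div_iff₀ (by positivity) two_pos]
      have : 2 * D ≤ t ^ 2 := by nlinarith
      nlinarith)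
    (fun v v' δ sv sv' hv hv' hd a z hz => by
      have δ0 : 0 ≤ δ := (hd a j0).nonneg hz
      have e : c.lapV v - t ^ 4 • v - f - (c.lapV v' - t ^ 4 • v' - f) =
          c.lapV (v - v') - t ^ 4 • (v - v') := by
        rw [(hb.b.lin κ _ _ 0 (ck hb sv hv) (ck hb sv' hv')).2.2, smul_sub]
        abel
      have a1 := h0_sup (hl _ _ hd) (by positivity) a z hz
      have a2 := mul_le_mul_of_nonneg_left (h2_sup hd δ0 a z hz) (by positivity : 0 ≤ t ^ 4)
      rw [e, Pi.sub_apply, Pi.smul_apply]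
      refine (norm_sub_le _ _).trans ?_
      rw [norm_smul, Real.norm_of_nonneg (by positivity)]
      linarith)
  refine ⟨v, v0, h2_mono v1 (le_of_eq (by ring)), fun y => ?_⟩
  have := hb.b.zero κ b _ (sec v _ v0 v1) v2 y
  simp only [neg_smul, Pi.neg_apply, ← sub_eq_add_neg]
  exact sub_eq_zero.1 this

end Pool.Agent.Lib.MP_813db1_ag.VH.Co
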