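import Pool.Agent.Lib.MP_813db1_ag.VH.CoStmt

/-! Frames and the calculus of matrix functions. -/

namespace Pool.Agent.Lib.MP_813db1_ag.VH.Co

open Pool.Agent.Lib.MP_813db1_ag.HS
open Complex Matrix Filter Topology
open scoped ContDiff ComplexOrder MatrixOrder

namespace DvA

section Frame

variable {ι : Type} [Fintype ι] [DecidableEq ι] {z : V ι}

theorem two_dir {f : V ι → ℂ} (hf : ContDiffAt ℝ 2 f z) (u : V ι) :
    fderiv ℝ (fun w => fderiv ℝ f w u) z u = ∑ i, ∑ k, (dz (dz f k) i z * (u k * u i) +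
      levi f z i k * (star (u k) * u i) + levi f z k i * (u k * star (u i)) +
      dzb (dzb f k) i z * (star (u k) * star (u i))) := by
  have d1 := fun k => (differentiableAt_dz hf k).mul_const (u k)
  have d2 := fun k => (differentiableAt_dzb hf k).mul_const (star (u k))
  rw [funext fun w => fderiv_eq_dz f w u, fderiv_eq_dz]
  refine Finset.sum_congr rfl fun i _ => ?_
  rw [dz_sum _ fun k _ => (d1 k).fun_add (d2 k), dzb_sum _ fun k _ => (d1 k).fun_add (d2 k),
    Finset.sum_mul, Finset.sum_mul, ← Finset.sum_add_distrib]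
  refine Finset.sum_congr rfl fun k _ => ?_
  rw [dz_add (d1 k) (d2 k), dzb_add (d1 k) (d2 k),
    dz_mul (differentiableAt_dz hf k) (differentiableAt_const _),
    dz_mul (differentiableAt_dzb hf k) (differentiableAt_const _),
    dzb_mul (differentiableAt_dz hf k) (differentiableAt_const _),
    dzb_mul (differentiableAt_dzb hf k) (differentiableAt_const _), levi_apply, levi_apply,
    dz_dzb_comm hf k i]
  simp only [dz_const, dzb_const]
  ring

theorem ent_le {L : ℝ} {P : Mat ι} (h : Bd L (Pᴴ * P)) (a i : ι) : ‖P a i‖ ≤ 1 + |L| := by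
  have e : (Pᴴ * P) i i = ((∑ a, ‖P a i‖ ^ 2 : ℝ) : ℂ) := by
    rw [mul_apply, ofReal_sum]
    refine Finset.sum_congr rfl fun a _ => ?_
    rw [conjTranspose_apply, mul_comm, ofReal_pow]
    exact mul_conj' _
  have h1 := h i i
  have h2 := Finset.single_le_sum (f := fun a => ‖P a i‖ ^ 2) (fun a _ => sq_nonneg _)
    (Finset.mem_univ a)
  rw [e, norm_real] at h1
  have h3 := (le_abs_self _).trans h1
  nlinarith [le_abs_self L, abs_nonneg L, sq_nonneg (‖P a i‖ - 1)]

/-- the frame of a factorisation. -/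
noncomputable def fe (P : Mat ι) (b : ι × Fin 2) : V ι := fun i => I ^ (b.2 : ℕ) * P b.1 i / 2

theorem sum_fe {M : Type} [AddCommMonoid M] (P : Mat ι) (φ : V ι → M) :
    ∑ b, φ (fe P b) = ∑ a, (φ (fun i => P a i / 2) + φ fun i => I * P a i / 2) := by
  rw [Fintype.sum_prod_type]
  refine Finset.sum_congr rfl fun a _ => ?_
  rw [Fin.sum_univ_two]
  congr 2 <;> funext i <;> simp [fe]

theorem ent_mul (P : Mat ι) (j i : ι) : (Pᴴ * P) j i = ∑ a, star (P a j) * P a i := by
  rw [mul_apply]; rfl

theorem fr_two (P : Mat ι) (f : V ι → ℂ) (z : V ι) (hf : ContDiffAt ℝ 2 f z) :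
    trace (levi f z * (Pᴴ * P)) =
      ∑ b, fderiv ℝ (fun w => fderiv ℝ f w (fe P b)) z (fe P b) := by
  rw [sum_fe P fun u => fderiv ℝ (fun w => fderiv ℝ f w u) z u]
  have e : ∀ a, fderiv ℝ (fun w => fderiv ℝ f w fun i => P a i / 2) z (fun i => P a i / 2) +
      fderiv ℝ (fun w => fderiv ℝ f w fun i => I * P a i / 2) z (fun i => I * P a i / 2) =
      ∑ i, ∑ k, levi f z i k * (star (P a k) * P a i) := fun a => by
    have e1 : ∑ i, ∑ k, levi f z i k * (star (P a k) * P a i) =
        ∑ i, ∑ k, levi f z k i * (star (P a i) * P a k) := Finset.sum_comm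
    rw [two_dir hf, two_dir hf, ← add_halves (∑ i, ∑ k, levi f z i k * (star (P a k) * P a i))]
    nth_rewrite 2 [e1]
    simp only [Finset.sum_div, ← Finset.sum_add_distrib]
    refine Finset.sum_congr rfl fun i _ => Finset.sum_congr rfl fun k _ => ?_
    simp only [star_div₀, star_mul', star_ofNat, star_I]
    linear_combination ((dz (dz f k) i z * (P a k * P a i) - levi f z i k * (star (P a k) * P a i) -
      levi f z k i * (P a k * star (P a i)) +
      dzb (dzb f k) i z * (star (P a k) * star (P a i))) / 4) * I_mul_I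
  simp only [e]
  rw [Finset.sum_comm]
  refine Finset.sum_congr rfl fun i _ => ?_
  rw [diag_apply, mul_apply, Finset.sum_comm]
  exact Finset.sum_congr rfl fun k _ => by rw [ent_mul, Finset.mul_sum]

theorem fr_one (P : Mat ι) (f h : V ι → ℂ) (z : V ι) :
    ∑ i, ∑ j, (Pᴴ * P) j i * (dz f i z * dzb h j z + dzb f j z * dz h i z) =
      2 * ∑ b, fderiv ℝ f z (fe P b) * fderiv ℝ h z (fe P b) := by
  rw [sum_fe P fun u => fderiv ℝ f z u * fderiv ℝ h z u, Finset.mul_sum]
  have e : ∀ (f : V ι → ℂ) a (c : ℂ), fderiv ℝ f z (fun i => c * P a i / 2) =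
      (c * ∑ i, P a i * dz f i z + star c * ∑ i, star (P a i) * dzb f i z) / 2 := fun f a c => by
    rw [fderiv_eq_dz]
    simp only [Finset.mul_sum, Finset.sum_div, ← Finset.sum_add_distrib, star_div₀, star_mul',
      star_ofNat]
    exact Finset.sum_congr rfl fun i _ => by ring
  have e1 : ∀ (f : V ι → ℂ) a, fderiv ℝ f z (fun i => P a i / 2) =
      (∑ i, P a i * dz f i z + ∑ i, star (P a i) * dzb f i z) / 2 := fun f a => by
    simpa using e f a 1
  have e2 : ∀ a, ∑ i, ∑ j, star (P a j) * P a i * (dz f i z * dzb h j z + dzb f j z * dz h i z) =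
      (∑ i, P a i * dz f i z) * (∑ i, star (P a i) * dzb h i z) +
        (∑ i, P a i * dz h i z) * ∑ i, star (P a i) * dzb f i z := fun a => by
    simp only [Finset.sum_mul_sum, ← Finset.sum_add_distrib]
    exact Finset.sum_congr rfl fun i _ => Finset.sum_congr rfl fun j _ => by ring
  simp only [ent_mul, Finset.sum_mul]
  rw [Finset.sum_congr rfl fun i _ => Finset.sum_comm, Finset.sum_comm]
  refine Finset.sum_congr rfl fun a _ => ?_
  rw [e2, e1, e1, e, e, star_I]
  linear_combination (-((∑ i, P a i * dz f i z) - ∑ i, star (P a i) * dzb f i z) *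
    ((∑ i, P a i * dz h i z) - ∑ i, star (P a i) * dzb h i z) / 2) * I_mul_I

theorem fr_span {P Q : Mat ι} (h : Q * P = 1) {L : ℝ} (hQ : Bd L Q) (v : V ι) :
    ∃ β : ι × Fin 2 → ℝ, (∀ b, |β b| ≤ 2 * Fintype.card ι * L * ‖v‖) ∧ v = ∑ b, β b • fe P b := by
  have hc : ∀ a, ‖2 * ∑ i, v i * Q i a‖ ≤ 2 * Fintype.card ι * L * ‖v‖ := fun a => by
    have : ‖∑ i, v i * Q i a‖ ≤ ∑ _i : ι, L * ‖v‖ := norm_sum_le_of_le _ fun i _ => by
      rw [norm_mul, mul_comm]
      exact mul_le_mul (hQ i a) (norm_le_pi_norm v i) (norm_nonneg _)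
        ((norm_nonneg _).trans (hQ i a))
    rw [Finset.sum_const, Finset.card_univ, nsmul_eq_mul] at this
    rw [norm_mul, Complex.norm_two]
    linarith
  refine ⟨fun b => ![(2 * ∑ i, v i * Q i b.1).re, (2 * ∑ i, v i * Q i b.1).im] b.2, ?_, ?_⟩
  · rintro ⟨a, q⟩
    fin_cases q
    exacts [(abs_re_le_norm _).trans (hc a), (abs_im_le_norm _).trans (hc a)]
  · funext j
    have e : v j = ∑ a, (∑ i, v i * Q i a) * P a j := by
      have := congrFun (vecMul_vecMul v Q P) j
      rw [h, vecMul_one] at this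
      exact this.symm
    rw [e, Finset.sum_apply, Fintype.sum_prod_type]
    refine Finset.sum_congr rfl fun a _ => ?_
    have e2 := re_add_im (2 * ∑ i, v i * Q i a)
    rw [Fin.sum_univ_two]
    simp only [Pi.smul_apply, real_smul, fe, Fin.val_zero, Fin.val_one, pow_zero, pow_one,
      cons_val_zero, cons_val_one]
    linear_combination (-P a j / 2) * e2

end Frame

section Calc

variable {ι r : Type} [Fintype ι] {F K : V ι → Mat r} {z : V ι} {k : WithTop ℕ∞}

theorem df (h : CM 1 F z) (i j : r) : DifferentiableAt ℝ (fun w => F w i j) z :=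
  (h i j).differentiableAt one_ne_zero

theorem congr (h : F =ᶠ[𝓝 z] K) (v : V ι) : dv F v z = dv K v z := Matrix.ext fun i j => by
  have e : (fun w => F w i j) =ᶠ[𝓝 z] fun w => K w i j :=
    h.mono fun _ e => congrFun (congrFun e i) j
  simp only [dv, of_apply, e.fderiv_eq]

theorem const (A : Mat r) (v z : V ι) : dv (fun _ => A) v z = 0 :=
  Matrix.ext fun i j => by simp [dv]

variable [Fintype r]

theorem mul (hF : CM 1 F z) (hK : CM 1 K z) (v : V ι) :
    dv (fun w => F w * K w) v z = dv F v z * K z + F z * dv K v z := by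
  ext i j
  simp only [dv, of_apply, Matrix.add_apply, mul_apply]
  rw [fderiv_fun_sum fun a _ => (df hF i a).fun_mul (df hK a j), _root_.sum_apply,
    ← Finset.sum_add_distrib]
  refine Finset.sum_congr rfl fun a _ => ?_
  rw [fderiv_fun_mul (df hF i a) (df hK a j)]
  simp only [_root_.add_apply, _root_.smul_apply, smul_eq_mul]
  ring

variable [DecidableEq r]

theorem cm_det (h : CM k F z) : ContDiffAt ℝ k (fun w => (F w).det) z := by
  simp only [det_apply']
  exact ContDiffAt.sum fun _ _ => contDiffAt_const.mul (contDiffAt_prod fun i _ => h _ i)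

theorem cm_inv (h : CM k F z) (h0 : (F z).det ≠ 0) : CM k (fun w => (F w)⁻¹) z := fun i j => by
  simp only [Matrix.inv_def, Ring.inverse_eq_inv', Matrix.smul_apply, smul_eq_mul, adjugate_apply]
  refine ((cm_det h).inv h0).mul (cm_det fun a b => ?_)
  by_cases e : a = j <;> simp only [updateRow_apply, e, if_true, if_false]
  exacts [contDiffAt_const, h a b]

theorem inv (h : CM 1 F z) (h0 : (F z).det ≠ 0) (v : V ι) :
    dv (fun w => (F w)⁻¹) v z = -((F z)⁻¹ * dv F v z * (F z)⁻¹) :=
  inv_of_deriv h0 ((mul h (cm_inv h h0) v).symm.trans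
    ((congr (((cm_det h).continuousAt.eventually_ne h0).mono
      fun _ e => mul_nonsing_inv _ e.isUnit) v).trans (const 1 v z)))

omit [DecidableEq r] in
theorem ent [DecidableEq ι] (G : V ι → Mat ι) (F K : V ι → Mat r) (N : Mat r) (z : V ι)
    (i l : r) : qM G F N K z i l =
      ∑ j, ∑ k, N j k * gr2 G (fun w => F w i j) (fun w => K w k l) z := by
  simp only [qM, gr2, dR, dRb, Matrix.smul_apply, Matrix.sum_apply, Matrix.add_apply, mul_apply,
    of_apply, smul_eq_mul, Finset.sum_mul, ← Finset.sum_add_distrib, Finset.mul_sum,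
    Finset.sum_div]
  rw [Finset.sum_congr rfl fun a _ => Finset.sum_congr rfl fun b _ => Finset.sum_comm,
    Finset.sum_congr rfl fun a _ => Finset.sum_comm, Finset.sum_comm]
  refine Finset.sum_congr rfl fun j _ => ?_
  rw [Finset.sum_congr rfl fun a _ => Finset.sum_comm, Finset.sum_comm]
  exact Finset.sum_congr rfl fun k _ => Finset.sum_congr rfl fun a _ =>
    Finset.sum_congr rfl fun b _ => by ring

end Calc

end DvA

open DvA

theorem frS : FrS := fun ι _ _ L => by
  have h0 : (0 : ℝ) ≤ 2 * Fintype.card ι * (1 + |L|) := by positivity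
  refine ⟨2 * Fintype.card ι * (1 + |L|) + (1 + |L|), by positivity, fun g hg h1 h2 => ?_⟩
  obtain ⟨P, hP⟩ : ∃ P : Mat ι, g⁻¹ = Pᴴ * P :=
    CStarAlgebra.nonneg_iff_eq_star_mul_self.1 hg.inv.posSemidef.nonneg
  have u := (isUnit_iff_isUnit_det _).1 hg.isUnit
  have e1 : g * Pᴴ * P = 1 := by rw [Matrix.mul_assoc, ← hP, mul_nonsing_inv _ u]
  have e2 : (g * Pᴴ)ᴴᴴ * (g * Pᴴ)ᴴ = g := by
    rw [conjTranspose_conjTranspose, conjTranspose_mul, conjTranspose_conjTranspose,
      ← Matrix.mul_assoc, e1, Matrix.one_mul, hg.isHermitian.eq]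
  have b1 : ∀ a i, ‖P a i‖ ≤ 1 + |L| := ent_le (hP ▸ h2)
  have b2 : Bd (1 + |L|) (g * Pᴴ) := fun i a => by
    have := ent_le (e2.symm ▸ h1 : Bd L ((g * Pᴴ)ᴴᴴ * (g * Pᴴ)ᴴ)) a i
    rwa [conjTranspose_apply, norm_star] at this
  refine ⟨fe P, ?_⟩
  rw [hP]
  refine ⟨fr_two P, fr_one P, fun b => (pi_norm_le_iff_of_nonneg (by positivity)).2 fun i => ?_,
    fun v => ?_⟩
  · have := b1 b.1 i
    rw [fe, norm_div, norm_mul, norm_pow, norm_I, one_pow, Complex.norm_two]
    linarith [abs_nonneg L]
  · obtain ⟨β, hβ, e⟩ := fr_span e1 b2 v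
    exact ⟨β, fun b => (hβ b).trans (mul_le_mul_of_nonneg_right (by linarith [abs_nonneg L])
      (norm_nonneg v)), e⟩

theorem dvS : DvS where
  congr _ _ _ _ _ v _ h := h.eventuallyEq_nhds.mono fun _ e => DvA.congr e v
  const _ _ _ := DvA.const
  add _ _ _ F K v z hF hK := by
    constructor <;> ext i j
    · simp only [dv, of_apply, Matrix.add_apply, fderiv_fun_add (df hF i j) (df hK i j),
        _root_.add_apply]
    · simp only [dv, of_apply, Matrix.sub_apply, fderiv_fun_sub (df hF i j) (df hK i j),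
        _root_.sub_apply]
  smul _ _ _ a F v z hF := by
    ext i j
    simp only [dv, of_apply, Matrix.smul_apply, fderiv_fun_const_smul (df hF i j) a,
      _root_.smul_apply]
  mul _ _ _ _ _ _ v _ hF hK := DvA.mul hF hK v
  inv _ _ _ _ _ _ v _ h h0 := DvA.inv h h0 v
  tr _ _ _ _ F v z h := by
    simp only [trace, diag_apply, dv, of_apply]
    rw [fderiv_fun_sum fun a _ => df h a a, _root_.sum_apply]
  ct _ _ _ F v z := by
    classical
    exact ⟨Matrix.ext fun i j => fderiv_star_apply (fun w => F w j i) z v, rfl,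
      Matrix.ext fun i j => fderiv_star_apply (fun w => F w i j) z v⟩
  dir _ _ _ _ _ F β e z := by
    ext i j
    simp only [dv, of_apply, map_sum, map_smul, Matrix.sum_apply, Matrix.smul_apply, real_smul,
      smul_eq_mul]
  comm _ _ _ F u v z h := by
    classical
    ext i j
    simp only [dv, of_apply]
    rw [fderiv_fderiv_apply (h i j), fderiv_fderiv_apply (h i j), fderiv_symm (h i j)]
  ev _ _ _ _ k F z h := eventually_all.2 fun i => eventually_all.2 fun j =>
    (h i j).eventually (by simp)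
  cm _ _ _ _ _ k F K z hF hK := ⟨fun i j => (hF i j).add (hK i j), fun i j => (hF i j).sub (hK i j),
    fun i j => ContDiffAt.sum fun a _ => (hF i a).mul (hK a j),
    fun _ i j => contDiffAt_const.mul (hF i j), cm_inv hF, ContDiffAt.sum fun a _ => hF a a⟩
  cd _ _ _ k n F v z hk h i j := ((h i j).fderiv_right hk).clm_apply contDiffAt_const
  dR _ _ _ _ F k z := by
    constructor <;> ext i j <;>
      simp only [dv, dR, dRb, dz, dzb, of_apply, Matrix.smul_apply, Matrix.sub_apply,
        Matrix.add_apply, smul_eq_mul] <;> ring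
  fr ι r _ _ _ G z L e h := by
    have g : ∀ f h, gr2 G f h z = ∑ b, fderiv ℝ f z (e b) * fderiv ℝ h z (e b) := fun f k => by
      rw [gr2, h.one, mul_div_cancel_left₀ _ two_ne_zero]
    refine ⟨g, fun F hF => Matrix.ext fun i j => ?_, fun F K N => Matrix.ext fun i l => ?_⟩
    · rw [Matrix.sum_apply]
      exact h.two _ z (hF i j)
    · simp only [DvA.ent, g, Matrix.sum_apply, mul_apply, dv, of_apply, Finset.mul_sum,
        Finset.sum_mul]
      rw [Finset.sum_comm, Finset.sum_congr rfl fun a _ => Finset.sum_comm, Finset.sum_comm]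
      exact Finset.sum_congr rfl fun b _ => Finset.sum_congr rfl fun k _ =>
        Finset.sum_congr rfl fun j _ => by ring
  ent _ _ _ _ _ := DvA.ent

end Pool.Agent.Lib.MP_813db1_ag.VH.Co
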