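import Pool.Agent.Lib.MP_813db1_ag.VH.CoStmt

/-! Averages and the equivariant extension by zero. -/

namespace Pool.Agent.Lib.MP_813db1_ag.VH.Co

open Pool.Agent.Lib.MP_813db1_ag.HS Pool.Agent.Lib.MP_813db1_ag.AS
open MeasureTheory Complex Matrix Filter Topology Set Metric
open scoped ContDiff ComplexOrder

variable {ι X Y G : Type} [Fintype ι] [DecidableEq ι] [TopologicalSpace X] [TopologicalSpace Y]
  [Group G] [MulAction G Y] {c : Sx ι X Y G}

namespace CoEx

/-- the group element that moves the sheet `a` to `y`. -/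
noncomputable def de (c : Sx ι X Y G) (a : Fin c.C.n) (y : Y) : G :=
  F12.dl G (c.s a (c.C.e a (c.p y))) y

variable {a : Fin c.C.n} {y : Y}

theorem p_s {z : V ι} (hz : z ∈ (c.C.e a).target) : c.p (c.s a z) = (c.C.e a).symm z :=
  (c.sec a z hz).2.self_of_nhds

theorem de_smul (hy : c.p y ∈ (c.C.e a).source) : de c a y • c.s a (c.C.e a (c.p y)) = y :=
  F12.dl_smul c.hq (by rw [p_s ((c.C.e a).map_source hy), (c.C.e a).left_inv hy])

theorem de_mul (hy : c.p y ∈ (c.C.e a).source) (γ : G) : de c a (γ • y) = γ * de c a y := by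
  refine F12.dl_eq c.hq ?_
  rw [c.hq.map_smul, mul_smul, de_smul hy]

theorem de_ev (hy : c.p y ∈ (c.C.e a).source) : ∀ᶠ y' in 𝓝 y, de c a y' = de c a y := by
  have h0 : ContinuousAt c.p y := c.hp.continuous.continuousAt
  have h1 : ContinuousAt (fun y' => c.C.e a (c.p y')) y := ((c.C.e a).continuousAt hy).comp h0
  have h2 : ContinuousAt (fun y' => de c a y • c.s a (c.C.e a (c.p y'))) y :=
    ContinuousAt.comp (f := fun y' => c.C.e a (c.p y'))
      ((c.sec a _ ((c.C.e a).map_source hy)).smul c.hq (de c a y)).1 h1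
  have h3 := F12.uniq c.hp h2 continuousAt_id (de_smul hy)
    ((h0.eventually ((c.C.e a).open_source.eventually_mem hy)).mono fun y' h => by
      rw [c.hq.map_smul, p_s ((c.C.e a).map_source h), (c.C.e a).left_inv h]
      rfl)
  exact h3.mono fun y' h => F12.dl_eq c.hq h

variable {κ : Type} [Fintype κ] {b : Bu G κ} {w : V ι → κ → ℂ} {K : Set (V ι)}

open Classical in
/-- the extension. -/
noncomputable def ex (c : Sx ι X Y G) (b : Bu G κ) (a : Fin c.C.n) (w : V ι → κ → ℂ) (y : Y) :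
    κ → ℂ :=
  if c.p y ∈ (c.C.e a).source then b.α (de c a y) (w (c.C.e a (c.p y))) else 0

theorem ex_pos (hy : c.p y ∈ (c.C.e a).source) :
    ex c b a w y = b.α (de c a y) (w (c.C.e a (c.p y))) := if_pos hy

theorem ex_neg (hy : c.p y ∉ (c.C.e a).source) : ex c b a w y = 0 := if_neg hy

theorem ex_zero (hw : ∀ z ∉ K, w z = 0) (hy : c.p y ∉ (c.C.e a).symm '' K) :
    ex c b a w y = 0 := by
  by_cases h : c.p y ∈ (c.C.e a).source
  · rw [ex_pos h, hw _ fun hk => hy ⟨_, hk, (c.C.e a).left_inv h⟩, map_zero]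
  · exact ex_neg h

theorem ex_sec (hw : ∀ z, w z ∈ b.W) : b.Sec (ex c b a w) := by
  refine ⟨fun γ y => ?_, fun y => ?_⟩
  · by_cases h : c.p y ∈ (c.C.e a).source
    · rw [ex_pos h, ex_pos ((c.hq.map_smul γ).symm ▸ h), de_mul h, c.hq.map_smul, map_mul]
      rfl
    · rw [ex_neg h, ex_neg ((c.hq.map_smul γ).symm ▸ h), map_zero]
  · by_cases h : c.p y ∈ (c.C.e a).source
    · rw [ex_pos h]
      exact b.inv _ _ (hw _)
    · rw [ex_neg h]
      exact b.W.zero_mem

/-- the extension, read on a sheet. -/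
theorem ex_ev {e : Ch ι X} {z : V ι} {σ : V ι → Y} (hz : z ∈ e.target) (hs : F12.Sec c.p e z σ)
    (h : e.symm z ∈ (c.C.e a).source) : ∀ᶠ x in 𝓝 z, ∀ w : V ι → κ → ℂ,
      ex c b a w (σ x) = b.α (de c a (σ z)) (w ((c.C.e a ∘ e.symm) x)) := by
  filter_upwards [hs.2, F1.ev hz (c.C.e a).open_source h,
    hs.1.eventually (de_ev (hs.2.self_of_nhds ▸ h))] with x h1 h2 h3 w
  rw [ex_pos (h1 ▸ h2.2), h3, h1]
  rfl

theorem ex_ev0 (hK : K ⊆ (c.C.e a).target) (hc : IsClosed ((c.C.e a).symm '' K))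
    (hy : c.p y ∉ (c.C.e a).source) :
    ∀ᶠ y' in 𝓝 y, ∀ w : V ι → κ → ℂ, (∀ z ∉ K, w z = 0) → ex c b a w y' = 0 := by
  have h1 : c.p y ∈ ((c.C.e a).symm '' K)ᶜ := by
    rintro ⟨k, hk, h'⟩
    exact hy (h' ▸ (c.C.e a).map_target (hK hk))
  filter_upwards [c.hp.continuous.continuousAt.eventually (hc.isOpen_compl.eventually_mem h1)]
    with y' h w hw using ex_zero hw h

/-- the bounds on the set `U` of the sheet `σ` with the constant `L`. -/
def Q (c : Sx ι X Y G) (b : Bu G κ) (a : Fin c.C.n) (σ : V ι → Y) (K U : Set (V ι)) (L : ℝ) :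
    Prop := ∀ w : V ι → κ → ℂ, (∀ z ∉ K, w z = 0) →
  (∀ t ≥ (1 : ℝ), ∀ B, (∀ k, HolT t B (fun z => w z k) univ) →
    ∀ k, HolT t (L * B) (fun z => ex c b a w (σ z) k) U) ∧
  ∀ B, (∀ k, Hol2 B (fun z => w z k) univ) → ∀ k, Hol2 (L * B) (fun z => ex c b a w (σ z) k) U

theorem Q.mono {σ : V ι → Y} {U U' : Set (V ι)} {L L' : ℝ} (h : Q c b a σ K U L) (hU : U' ⊆ U)
    (hL : L ≤ L') : Q c b a σ K U' L' := fun w hw =>
  ⟨fun t ht B hB k => (((h w hw).1 t ht B hB k).subset hU).mono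
      (mul_le_mul_of_nonneg_right hL ((hB k).nonneg (by linarith) (mem_univ 0))),
    fun B hB k => (((h w hw).2 B hB k).subset hU).mono
      (mul_le_mul_of_nonneg_right hL ((hB k).nonneg (mem_univ 0)))⟩

theorem loc (hb : c.BasB) (hK : K ⊆ (c.C.e a).target) (hc : IsClosed ((c.C.e a).symm '' K))
    {e : Ch ι X} (he : e ∈ c.M.A) {z0 : V ι} {σ : V ι → Y} (hz : z0 ∈ e.target)
    (hs : F12.Sec c.p e z0 σ) : ∃ ρ > 0, ∃ L, Q c b a σ K (ball z0 ρ) L := by
  by_cases h : e.symm z0 ∈ (c.C.e a).source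
  · have h1 : ContDiffAt ℝ 3 (c.C.e a ∘ e.symm) z0 :=
      (F1.an he (c.C.mem a) hz h).contDiffAt.restrict_scalars ℝ
    obtain ⟨ρ, hρ, h2⟩ := nhds_basis_closedBall.eventually_iff.1
      ((h1.eventually (by simp)).and (ex_ev (b := b) hz hs h))
    obtain ⟨C1, c1, l1, k1⟩ := hol2_comp (isCompact_closedBall z0 ρ) (convex_closedBall z0 ρ)
      fun z hz => (h2 hz).1
    obtain ⟨C2, -, k2⟩ := hb.hcl κ (b.α (de c a (σ z0)))
    have hr : ∀ (w : V ι → κ → ℂ) k, ∀ z ∈ ball z0 ρ, ex c b a w (σ z) k =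
        b.α (de c a (σ z0)) (w ((c.C.e a ∘ e.symm) z)) k := fun w k z hz => by
      rw [(h2 (ball_subset_closedBall hz)).2 w]
    refine ⟨ρ, hρ, C2 * C1, fun w _ => ⟨fun t ht B hB k => ?_, fun B hB k => ?_⟩⟩
    · rw [mul_assoc]
      exact (((k2 _ (fun z => w ((c.C.e a ∘ e.symm) z)) t _ (by linarith)).1
        (fun k => (hB k).comp (by linarith) c1 (mapsTo_univ _ _) l1) k).subset
          ball_subset_closedBall).congr (hr w k)
    · rw [mul_assoc]
      exact (((k2 _ (fun z => w ((c.C.e a ∘ e.symm) z)) 0 _ le_rfl).2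
        (fun k => k1 _ B (hB k)) k).subset ball_subset_closedBall).congr isOpen_ball (hr w k)
  · obtain ⟨ρ, hρ, h2⟩ := Metric.eventually_nhds_iff_ball.1
      (hs.1.eventually (ex_ev0 (b := b) hK hc (hs.2.self_of_nhds ▸ h)))
    have hr : ∀ w : V ι → κ → ℂ, (∀ z ∉ K, w z = 0) → ∀ k, ∀ z ∈ ball z0 ρ,
        ex c b a w (σ z) k = 0 := fun w hw k z hz => by rw [h2 z hz w hw, Pi.zero_apply]
    exact ⟨ρ, hρ, 0, fun w hw => ⟨fun t _ B _ k => (HolT.zero (by simp)).congr (hr w hw k),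
      fun B _ k => (Hol2.const 0 (by simp)).congr isOpen_ball (hr w hw k)⟩⟩

theorem glob (hb : c.BasB) (hK : K ⊆ (c.C.e a).target) (hc : IsClosed ((c.C.e a).symm '' K)) :
    ∃ L ≥ (0 : ℝ), ∀ a', Q c b a (c.s a') K (c.B a') L := by
  have h1 : ∀ a', ∃ L, Q c b a (c.s a') K (c.B a') L := fun a' => by
    obtain ⟨δ, hδ, L, -, h⟩ := Ext.unif (isCompact_closedBall (0 : V ι) (2 * c.C.r a'))
      (Q c b a (c.s a') K) (fun _ _ _ _ => Q.mono) fun z hz => by
        have hz' := c.C.sub a' (closedBall_subset_closedBall (by linarith [c.C.pos a']) hz)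
        exact loc hb hK hc (c.C.mem a') hz' (c.sec a' z hz')
    refine ⟨(1 + 2 / √δ) * L, fun w hw => ⟨fun t ht B hB k => ?_, fun B hB k => ?_⟩⟩
    · rw [mul_assoc]
      exact Ext.glueT ht hδ fun z hz => (h z (ball_subset_closedBall hz) w hw).1 t ht B hB k
    · rw [mul_assoc]
      exact Ext.glue2 hδ fun z hz => (h z (ball_subset_closedBall hz) w hw).2 B hB k
  choose L hL using h1
  obtain ⟨L0, h0⟩ := Finite.exists_le L
  exact ⟨max L0 0, le_max_right _ _, fun a' =>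
    (hL a').mono Subset.rfl ((h0 a').trans (le_max_left _ _))⟩

theorem lap_congr {A : V ι → Mat ι} {f h : V ι → ℂ} {z : V ι} (e : f =ᶠ[𝓝 z] h) :
    lapL A f z = lapL A h z := by simp only [lapL, levi_congr e]

theorem lap_zero {A : V ι → Mat ι} {z : V ι} : lapL A (fun _ => 0) z = 0 := by
  simpa [boxL] using boxL_zero (a := 0) (H := A) (z := z)

theorem lap_ex (ha : c.Bas) (hb : c.BasB) (hK : K ⊆ (c.C.e a).target)
    (hc : IsClosed ((c.C.e a).symm '' K)) (hw : ∀ z ∉ K, w z = 0)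
    (h2 : ∀ k z, ContDiffAt ℝ 2 (fun x => w x k) z) (y : Y) :
    c.lapV (ex c b a w) y = ex c b a (fun z k => lapL (c.Gc a) (fun x => w x k) z) y := by
  by_cases h : c.p y ∈ (c.C.e a).source
  · have hz := (c.C.e a).map_source h
    have hs := (c.sec a _ hz).smul c.hq (de c a y)
    have h3 : ∀ k, (fun x => ex c b a w (de c a y • c.s a x) k) =ᶠ[𝓝 (c.C.e a (c.p y))]
        fun x => b.α (de c a y) (w x) k := fun k => by
      filter_upwards [ex_ev (b := b) (a := a) hz hs ((c.C.e a).map_target hz),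
        (c.C.e a).open_target.eventually_mem hz] with x h4 h5
      rw [h4 w, de_smul h, Function.comp_apply, (c.C.e a).right_inv h5]
    rw [ex_pos h, ← hb.clm κ _ (c.Gc a) w _ ((c.hg _ (c.C.mem a)).2 _ hz) fun k => h2 k _]
    funext k
    have h4 : ContDiffAt ℝ 2 (fun x => b.α (de c a y) (w x) k) (c.C.e a (c.p y)) :=
      contDiffAt_pi.1 ((b.α (de c a y)).contDiff.contDiffAt.comp _
        (contDiffAt_pi.2 fun k => h2 k _)) k
    have h5 := ha.lap (fun y => ex c b a w y k) _ (c.C.mem a) _ hz _ hs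
      (h4.congr_of_eventuallyEq (h3 k))
    rw [de_smul h, lap_congr (h3 k)] at h5
    exact h5.symm
  · rw [ex_neg h]
    funext k
    obtain ⟨-, h3, h4⟩ := ha.self y
    have h5 : Tendsto (c.rd id y) (𝓝 (c.pt y)) (𝓝 y) := by simpa only [h4] using h3.1.tendsto
    refine (lap_congr (h := fun _ => 0) ?_).trans lap_zero
    filter_upwards [h5.eventually (ex_ev0 (b := b) hK hc h)] with x h6
    exact congrFun (h6 w hw) k

end CoEx

open CoEx

variable [T2Space X]

theorem avS [CompactSpace X] (_ha : c.Bas) : c.AvS := by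
  obtain ⟨χ, h1, h2⟩ := pou AY.repA' AY.repB' ι X c.M (Fin c.C.n) (fun a => (c.C.e a).source)
    (fun a => (c.C.e a).open_source) fun x => (c.C.cover x).imp fun _ h => h.1
  refine ⟨c.C.n, fun a y => χ a (c.p y), de c, fun a y => (h1 a).2.1 _, fun y => h2 _,
    fun a γ y => ⟨congrArg (χ a) (c.hq.map_smul γ),
      fun h => de_mul ((h1 a).2.2 (subset_tsupport _ h)) γ⟩,
    fun a F e he z hz σ hs => ?_⟩
  by_cases h : e.symm z ∈ tsupport (χ a)
  · refine (((h1 a).1 e he z hz).mul (contDiffAt_const (c := F (de c a (σ z))))).congr_of_eventuallyEq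
      ?_
    filter_upwards [hs.2, hs.1.eventually (de_ev (a := a) (hs.2.self_of_nhds ▸ (h1 a).2.2 h))]
      with x h3 h4
    rw [h3, h4]
    rfl
  · refine (contDiffAt_const (c := 0)).congr_of_eventuallyEq ?_
    filter_upwards [hs.2, (e.continuousAt_symm hz).eventually
      (notMem_tsupport_iff_eventuallyEq.1 h)] with x h3 h4
    rw [h3, h4]
    simp

theorem exS (ha : c.Bas) (hb : c.BasB) : c.ExS := by
  intro κ _ b a K hK hKa
  have hKe : K ⊆ (c.C.e a).target := hKa.trans (c.C.ball_sub2 a)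
  have hc : IsClosed ((c.C.e a).symm '' K) :=
    (hK.image_of_continuousOn ((c.C.e a).continuousOn_symm.mono hKe)).isClosed
  obtain ⟨L, hL, h⟩ := glob (b := b) hb hKe hc
  refine ⟨L, hL, ex c b a, fun w w' w'' t y hw => ?_, fun ψ v y hv hψ => ?_,
    fun w hw hW => ⟨ex_sec hW, fun t ht B hB a' => (h a' w hw).1 t ht B hB, fun B hB =>
      ⟨fun a' => (h a' w hw).2 B hB,
        lap_ex ha hb hKe hc hw fun k z => (hB k).1 z (mem_univ z)⟩⟩⟩
  · by_cases hy : c.p y ∈ (c.C.e a).source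
    · rw [ex_pos hy, ex_pos hy, ex_pos hy, hw _ ((c.C.e a).map_source hy), map_sub, map_smul]
    · rw [ex_neg hy, ex_neg hy, ex_neg hy, smul_zero, sub_zero]
  · by_cases hy : c.p y ∈ (c.C.e a).source
    · have h1 : ψ (c.C.e a (c.p y)) = ((ψ (c.C.e a (c.p y))).re : ℂ) :=
        Complex.ext rfl (by rw [hψ, ofReal_im])
      rw [ex_pos hy, LinE.ext_pos hy, pow_zero, one_mul, h1, coe_smul, coe_smul, map_smul, ← hv.1,
        de_smul hy]
    · rw [ex_neg hy, LinE.ext_neg hy, zero_smul]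

end Pool.Agent.Lib.MP_813db1_ag.VH.Co
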