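import Pool.Agent.Lib.MP_813db1_ag.VH.Calc
import Pool.Agent.Lib.MP_813db1_ag.HS.AYAll

/-! Sheets, changes of charts, descent and the divergence theorem. -/

namespace Pool.Agent.Lib.MP_813db1_ag.VH

open Pool.Agent.Lib.MP_813db1_ag.HS Pool.Agent.Lib.MP_813db1_ag.AS F12
open MeasureTheory Complex Matrix Filter Topology Set
open scoped ContDiff ComplexOrder

set_option linter.unusedSectionVars false

variable {ι X Y G r : Type} [Fintype ι] [DecidableEq ι] [TopologicalSpace X] [TopologicalSpace Y]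
  [Group G] [MulAction G Y] {M : Atl ι X} {p : Y → X} {e e' : Ch ι X} {z z' : V ι}
  {s s' : V ι → Y} {P Q : Ch ι X → V ι → (V ι → Y) → Prop}

theorem lh (hq : IsQuotientCoveringMap p G) : IsLocalHomeomorph p :=
  hq.isCoveringMap.isLocalHomeomorph

theorem sec_pt (hs : Sec p e z s) : p (s z) = e.symm z := hs.2.self_of_nhds

/-- two sheets through the same point. -/
structure Two (M : Atl ι X) (p : Y → X) (e : Ch ι X) (z : V ι) (s : V ι → Y) (e' : Ch ι X)
    (z' : V ι) (s' : V ι → Y) : Prop where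
  he : e ∈ M.A
  hz : z ∈ e.target
  hs : Sec p e z s
  he' : e' ∈ M.A
  hz' : z' ∈ e'.target
  hs' : Sec p e' z' s'
  eq : s z = s' z'

namespace Two

variable (h : Two M p e z s e' z' s')
include h

theorem symm : Two M p e' z' s' e z s := ⟨h.he', h.hz', h.hs', h.he, h.hz, h.hs, h.eq.symm⟩

theorem base : e.symm z = e'.symm z' := by rw [← sec_pt h.hs, h.eq, sec_pt h.hs']

theorem src : e.symm z ∈ e'.source := h.base ▸ e'.map_target h.hz'

theorem pt : (e' ∘ e.symm) z = z' := by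
  rw [Function.comp_apply, h.base, e'.right_inv h.hz']

theorem an : AnalyticAt ℂ (e' ∘ e.symm) z := F1.an h.he h.he' h.hz h.src

theorem jac_eq : jac (e' ∘ e.symm) z = tj e e' (e.symm z) := by rw [tj, e.right_inv h.hz]

theorem det_ne : (tj e e' (e.symm z)).det ≠ 0 :=
  (AY.repA' ι X M).tj_det e h.he e' h.he' _ (e.map_target h.hz) h.src

theorem repF (B : X → Mat ι) : M.repF B e z = pull (tj e e' (e.symm z)) (M.repF B e' z') := by
  have := (AY.repA' ι X M).repF_tr B e h.he e' h.he' _ (e.map_target h.hz) h.src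
  rwa [e.right_inv h.hz, show e' (e.symm z) = z' from h.pt] at this

theorem ev (hp : IsLocalHomeomorph p) : s =ᶠ[𝓝 z] s' ∘ (e' ∘ e.symm) := by
  have c : ContinuousAt (e' ∘ e.symm) z := h.an.continuousAt
  refine uniq hp h.hs.1 (ContinuousAt.comp (by rw [h.pt]; exact h.hs'.1) c)
    (by rw [Function.comp_apply, h.pt]; exact h.eq) ?_
  filter_upwards [h.hs.2, c.eventually (by rw [h.pt]; exact h.hs'.2),
    F1.ev h.hz e'.open_source h.src] with w h1 h2 h3
  rw [h1, Function.comp_apply, h2, Function.comp_apply, e'.left_inv h3.2]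

theorem comp (hp : IsLocalHomeomorph p) {E : Type} (f : Y → E) :
    f ∘ s =ᶠ[𝓝 z] (f ∘ s') ∘ (e' ∘ e.symm) := (h.ev hp).mono fun _ hw => congrArg f hw

theorem near (hp : IsLocalHomeomorph p) :
    ∀ᶠ w in 𝓝 z, Two M p e w s e' ((e' ∘ e.symm) w) s' := by
  have c : ContinuousAt (e' ∘ e.symm) z := h.an.continuousAt
  filter_upwards [h.ev hp, h.hs.ev hp h.hz, F1.ev h.hz e'.open_source h.src,
    c.eventually (by rw [h.pt]; exact h.hs'.ev hp h.hz')] with w h1 h2 h3 h4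
  exact ⟨h.he, h3.1, h2, h.he', e'.map_source h3.2, h4, h1⟩

variable (hp : IsLocalHomeomorph p) {σ τ : Type} {x : Y → V σ} {F : Y → Matrix σ τ ℂ}
include hp

theorem dV (hx : DfV (x ∘ s') z') (i : ι) :
    dV (x ∘ s) i z = ∑ l, tj e e' (e.symm z) l i • VH.dV (x ∘ s') l z' := by
  rw [dV_congr (h.comp hp x), dV_comp (by rw [h.pt]; exact hx) h.an.differentiableAt, h.jac_eq, h.pt]

theorem dVb (hx : DfV (x ∘ s') z') (i : ι) :
    dVb (x ∘ s) i z = ∑ l, star (tj e e' (e.symm z) l i) • VH.dVb (x ∘ s') l z' := by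
  rw [dVb_congr (h.comp hp x), dVb_comp (by rw [h.pt]; exact hx) h.an.differentiableAt, h.jac_eq,
    h.pt]

theorem dR (hF : DfR (F ∘ s') z') (i : ι) :
    dR (F ∘ s) i z = ∑ l, tj e e' (e.symm z) l i • VH.dR (F ∘ s') l z' := by
  rw [dR_congr (h.comp hp F), dR_comp (by rw [h.pt]; exact hF) h.an.differentiableAt, h.jac_eq, h.pt]

theorem dRb (hF : DfR (F ∘ s') z') (i : ι) :
    dRb (F ∘ s) i z = ∑ l, star (tj e e' (e.symm z) l i) • VH.dRb (F ∘ s') l z' := by
  rw [dRb_congr (h.comp hp F), dRb_comp (by rw [h.pt]; exact hF) h.an.differentiableAt, h.jac_eq,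
    h.pt]

theorem dVV (hx : SmV (x ∘ s') z') (i j : ι) : VH.dV (VH.dVb (x ∘ s) j) i z = ∑ l, ∑ m,
    (tj e e' (e.symm z) l i * star (tj e e' (e.symm z) m j)) • VH.dV (VH.dVb (x ∘ s') m) l z' := by
  rw [dV_congr (dVb_ev (h.comp hp x) j), dV_dVb_comp (by rw [h.pt]; exact hx) h.an, h.jac_eq, h.pt]

theorem dRR (hF : SmR (F ∘ s') z') (i j : ι) : VH.dR (VH.dRb (F ∘ s) j) i z = ∑ l, ∑ m,
    (tj e e' (e.symm z) l i * star (tj e e' (e.symm z) m j)) • VH.dR (VH.dRb (F ∘ s') m) l z' := by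
  rw [dR_congr (dRb_ev (h.comp hp F) j), dR_dRb_comp (by rw [h.pt]; exact hF) h.an, h.jac_eq, h.pt]

omit hp in
theorem tg {E : Type} [AddCommGroup E] [Module ℂ E] (g : X → Mat ι) {B B' : ι → ι → E}
    (hB : ∀ i j, B i j = ∑ l, ∑ m,
      (tj e e' (e.symm z) l i * star (tj e e' (e.symm z) m j)) • B' l m) :
    tg (M.repF g e z) B = VH.tg (M.repF g e' z') B' := by
  rw [h.repF g, funext₂ hB, tg_pull h.det_ne]

theorem smooth {E : Type} [NormedAddCommGroup E] [NormedSpace ℝ E] {f : Y → E} {n : WithTop ℕ∞}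
    (hf : ContDiffAt ℝ n (f ∘ s') z') : ContDiffAt ℝ n (f ∘ s) z :=
  (ContDiffAt.comp z (by rw [h.pt]; exact hf) (h.an.contDiffAt.restrict_scalars ℝ)).congr_of_eventuallyEq
    (h.comp hp f)

end Two

/-! ### local properties -/

theorem sec_ex (hp : IsLocalHomeomorph p) (M : Atl ι X) (y : Y) :
    ∃ e ∈ M.A, ∃ z ∈ e.target, ∃ s, Sec p e z s ∧ s z = y :=
  ⟨_, M.ch_mem (p y), _, (M.ch _).map_source (M.mem _), _, sh_self hp (M.mem _)⟩

theorem sec_ex' (hq : IsQuotientCoveringMap p G) (hz : z ∈ e.target) : ∃ s, Sec p e z s := by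
  obtain ⟨y, hy⟩ := hq.surjective (e.symm z)
  have := (sh_self (lh hq) (e := e) (y := y) (hy ▸ e.map_target hz)).1
  rw [hy, e.right_inv hz] at this
  exact ⟨_, this⟩

theorem Loc.ev (h : Loc M p P) (hp : IsLocalHomeomorph p) (he : e ∈ M.A) (hz : z ∈ e.target)
    (hs : Sec p e z s) : ∀ᶠ w in 𝓝 z, P e w s :=
  ((hs.ev hp hz).and (e.open_target.eventually_mem hz)).mono fun w hw => h e he w hw.2 s hw.1

theorem Loc.and (h : Loc M p P) (h' : Loc M p Q) : Loc M p fun e z s => P e z s ∧ Q e z s :=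
  fun e he z hz s hs => ⟨h e he z hz s hs, h' e he z hz s hs⟩

theorem Loc.mono (h : Loc M p P) (h' : ∀ e z s, P e z s → Q e z s) : Loc M p Q :=
  fun e he z hz s hs => h' _ _ _ (h e he z hz s hs)

/-- it suffices to check one sheet through each point. -/
theorem loc_of (h1 : ∀ y, ∃ e ∈ M.A, ∃ z ∈ e.target, ∃ s, Sec p e z s ∧ s z = y ∧ P e z s)
    (h2 : ∀ e z s e' z' s', Two M p e z s e' z' s' → P e' z' s' → P e z s) : Loc M p P :=
  fun e he z hz s hs => by
    obtain ⟨e', a, z', b, s', c, d, k⟩ := h1 (s z)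
    exact h2 _ _ _ _ _ _ ⟨he, hz, hs, a, b, c, d.symm⟩ k

theorem sm_of (hp : IsLocalHomeomorph p) {E : Type} [NormedAddCommGroup E] [NormedSpace ℝ E]
    {f : Y → E}
    (h : ∀ y, ∃ e ∈ M.A, ∃ z ∈ e.target, ∃ s, Sec p e z s ∧ s z = y ∧ ContDiffAt ℝ ∞ (f ∘ s) z) :
    Sm M p f :=
  loc_of h fun _ _ _ _ _ _ t k => t.smooth hp k

theorem Sm.cont (hp : IsLocalHomeomorph p) {E : Type} [NormedAddCommGroup E] [NormedSpace ℝ E]
    {f : Y → E} (h : Sm M p f) : Continuous f := continuous_iff_continuousAt.2 fun y => by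
  have k := sh_self hp (M.mem (p y))
  have c : ContinuousAt (fun u => M.ch (p y) (p u)) y :=
    ((M.ch _).continuousAt (M.mem _)).comp hp.continuous.continuousAt
  have a := (h _ (M.ch_mem _) _ ((M.ch _).map_source (M.mem _)) _ k.1).continuousAt
  refine (ContinuousAt.comp (f := fun u => M.ch (p y) (p u)) a c).congr ?_
  have := uniq hp (ContinuousAt.comp (f := fun u => M.ch (p y) (p u)) k.1.1 c) continuousAt_id k.2 (by
    filter_upwards [c.eventually k.1.2, hp.continuous.continuousAt.eventually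
      ((M.ch (p y)).open_source.mem_nhds (M.mem _))] with u h1 h2
    rw [Function.comp_apply, h1, (M.ch _).left_inv h2, id])
  exact this.mono fun u hu => congrArg f hu

theorem Sm.smV {σ : Type} [Fintype σ] {x : Y → V σ} (h : Sm M p x) (he : e ∈ M.A)
    (hz : z ∈ e.target) (hs : Sec p e z s) : SmV (x ∘ s) z := smV_iff.2 (h e he z hz s hs)

/-! ### descent -/

theorem desc0 (hq : IsQuotientCoveringMap p G) {E : Type} (φ : Y → E)
    (h : ∀ (g : G) y, φ (g • y) = φ y) : ∃ ψ : X → E, ∀ y, ψ (p y) = φ y := by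
  choose σ hσ using hq.surjective
  exact ⟨fun x => φ (σ x), fun y => by
    show φ (σ (p y)) = φ y
    rw [← dl_smul hq (hσ (p y)), h]⟩

/-- invariant chartwise quantities do not depend on the sheet. -/
theorem descE (hq : IsQuotientCoveringMap p G) {E : Type} (B : Ch ι X → V ι → (V ι → Y) → E)
    (h1 : ∀ e z s s', Two M p e z s e z s' → B e z s = B e z s')
    (h2 : Loc M p fun e z s => ∀ g : G, B e z (fun w => g • s w) = B e z s) :
    ∃ W : Ch ι X → V ι → E, Loc M p fun e z s => W e z = B e z s := by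
  choose σ hσ using hq.surjective
  refine ⟨fun e z => B e z (sh (lh hq) (σ (e.symm z)) e), fun e he z hz s hs => ?_⟩
  have k := sh_self (lh hq) (e := e) (y := σ (e.symm z)) (by rw [hσ]; exact e.map_target hz)
  rw [hσ, e.right_inv hz] at k
  refine Eq.trans ?_ (h2 e he z hz s hs (dl G (s z) (σ (e.symm z))))
  exact h1 _ _ _ _ ⟨he, hz, k.1, he, hz, hs.smul hq _,
    k.2.trans (dl_smul hq ((hσ _).trans (sec_pt hs).symm)).symm⟩

/-- invariant scalars. -/
theorem descL (hq : IsQuotientCoveringMap p G) {E : Type} (B : Ch ι X → V ι → (V ι → Y) → E)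
    (h1 : ∀ e z s e' z' s', Two M p e z s e' z' s' → B e z s = B e' z' s')
    (h2 : Loc M p fun e z s => ∀ g : G, B e z (fun w => g • s w) = B e z s) :
    ∃ ψ : X → E, Loc M p fun e z s => ψ (e.symm z) = B e z s := by
  obtain ⟨W, hW⟩ := descE hq B (fun e z s s' => h1 e z s e z s') h2
  refine ⟨fun x => W (M.ch x) (M.ch x x), fun e he z hz s hs => ?_⟩
  have m := M.mem (e.symm z)
  have k := sh_self (lh hq) (e := M.ch (e.symm z)) (y := s z) (by rw [sec_pt hs]; exact m)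
  rw [sec_pt hs] at k
  exact (hW _ (M.ch_mem _) _ ((M.ch _).map_source m) _ k.1).trans
    (h1 _ _ _ _ _ _ ⟨M.ch_mem _, (M.ch _).map_source m, k.1, he, hz, hs, k.2⟩)

/-- invariant forms. -/
theorem descF (hq : IsQuotientCoveringMap p G) (B : Ch ι X → V ι → (V ι → Y) → Mat ι)
    (h1 : ∀ e z s e' z' s', Two M p e z s e' z' s' →
      B e z s = pull (tj e e' (e.symm z)) (B e' z' s'))
    (h2 : Loc M p fun e z s => ∀ g : G, B e z (fun w => g • s w) = B e z s) :
    ∃ ξ : X → Mat ι, Loc M p fun e z s => M.repF ξ e z = B e z s := by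
  obtain ⟨W, hW⟩ := descE hq B (fun e z s s' t => by
    rw [h1 _ _ _ _ _ _ t, (AY.repA' ι X M).tj_self e t.he _ (e.map_target t.hz), RepA.pull_one]) h2
  refine ⟨fun x => W (M.ch x) (M.ch x x), fun e he z hz s hs => ?_⟩
  have m := M.mem (e.symm z)
  have k := sh_self (lh hq) (e := M.ch (e.symm z)) (y := s z) (by rw [sec_pt hs]; exact m)
  rw [sec_pt hs] at k
  refine (congrArg (pull _) (hW _ (M.ch_mem _) _ ((M.ch _).map_source m) _ k.1)).trans ?_
  exact (h1 _ _ _ _ _ _ ⟨he, hz, hs, M.ch_mem _, (M.ch _).map_source m, k.1, k.2.symm⟩).symm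

theorem ck_of (hq : IsQuotientCoveringMap p G) {ψ : X → ℝ} {B : Ch ι X → V ι → (V ι → Y) → ℂ}
    {n : WithTop ℕ∞} (h : Loc M p fun e z s => (ψ (e.symm z) : ℂ) = B e z s)
    (h' : Loc M p fun e z s => ContDiffAt ℝ n (fun w => B e w s) z) : M.Ck n ψ :=
  fun e he z hz => by
    obtain ⟨s, hs⟩ := sec_ex' hq hz
    exact (h' e he z hz s hs).congr_of_eventuallyEq (h.ev (lh hq) he hz hs)

theorem smF_of (hq : IsQuotientCoveringMap p G) {ξ : X → Mat ι}
    {B : Ch ι X → V ι → (V ι → Y) → Mat ι} (h : Loc M p fun e z s => M.repF ξ e z = B e z s)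
    (h' : Loc M p fun e z s => SmR (fun w => B e w s) z) : M.SmF ξ :=
  fun e he z hz => by
    obtain ⟨s, hs⟩ := sec_ex' hq hz
    exact (h' e he z hz s hs).congr (h.ev (lh hq) he hz hs)

/-- a pointwise property of points of the base can be checked on one sheet of the preferred chart. -/
theorem Loc.base (hq : IsQuotientCoveringMap p G) (h : Loc M p P) (a : X) :
    ∃ s, Sec p (M.ch a) (M.ch a a) s ∧ P (M.ch a) (M.ch a a) s := by
  obtain ⟨s, hs⟩ := sec_ex' hq ((M.ch a).map_source (M.mem a))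
  exact ⟨s, hs, h _ (M.ch_mem a) _ ((M.ch a).map_source (M.mem a)) s hs⟩

/-- the divergence theorem for invariant vector densities. -/
theorem stokes [T2Space X] [CompactSpace X] [MeasurableSpace X] [BorelSpace X]
    (hq : IsQuotientCoveringMap p G) {g : X → Mat ι} {μ : Measure X} (hg : M.IsK g)
    (hμ : M.IsVol g μ) (W : Ch ι X → V ι → (V ι → Y) → V ι)
    (h1 : ∀ e z s e' z' s', Two M p e z s e' z' s' → tj e e' (e.symm z) *ᵥ W e z s =
      ((‖(tj e e' (e.symm z)).det‖ ^ 2 : ℝ) : ℂ) • W e' z' s')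
    (h2 : Loc M p fun e z s => ∀ g : G, W e z (fun w => g • s w) = W e z s)
    (h3 : Loc M p fun e z s => ContDiffAt ℝ 1 (fun w => W e w s) z) :
    ∃ d : X → ℂ, Continuous d ∧ ∫ x, d x ∂μ = 0 ∧ Loc M p fun e z s =>
      ∑ i, dz (fun w => W e w s i) i z = ((M.repF g e z).det.re : ℂ) * d (e.symm z) := by
  obtain ⟨U, hU⟩ := descE hq W (fun e z s s' t => by
    simpa [(AY.repA' ι X M).tj_self e t.he _ (e.map_target t.hz)] using h1 _ _ _ _ _ _ t) h2
  obtain ⟨d, d1, d2, d3⟩ := AY.divS' ι X M g μ M.A (fun e => e.target) U hg hμ subset_rfl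
    (fun e _ => ⟨e.open_target, subset_rfl⟩)
    (fun x => ⟨_, M.ch_mem x, M.mem x, (M.ch x).map_source (M.mem x)⟩)
    (fun e he z hz => by
      obtain ⟨s, hs⟩ := sec_ex' hq hz
      exact (h3 e he z hz s hs).congr_of_eventuallyEq (hU.ev (lh hq) he hz hs))
    fun e he e' he' x hx hx' a b => by
      obtain ⟨y, rfl⟩ := hq.surjective x
      have k := sh_self (lh hq) hx
      have k' := sh_self (lh hq) hx'
      have := h1 _ _ _ _ _ _ ⟨he, a, k.1, he', b, k'.1, k.2.trans k'.2.symm⟩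
      rwa [e.left_inv hx, ← hU e he _ a _ k.1, ← hU e' he' _ b _ k'.1] at this
  refine ⟨d, d1, d2, fun e he z hz s hs => ?_⟩
  have := d3 e he _ (e.map_target hz) (by rw [e.right_inv hz]; exact hz)
  rw [e.right_inv hz] at this
  refine Eq.trans ?_ this
  exact Finset.sum_congr rfl fun i _ =>
    dz_congr ((hU.ev (lh hq) he hz hs).mono fun w hw => (congrFun hw i).symm) i

/-! ### data -/

namespace Dt

variable [Fintype r] [DecidableEq r] (D : Dt M p G r)

theorem det_ne (y : Y) : (D.H y).det ≠ 0 := (D.pos y).det_pos.ne'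

theorem sym (y : Y) : (D.H y)ᵀ = D.H y := by
  have := (D.pos y).1.eq
  rwa [conjTranspose, transpose_map, D.reH] at this

theorem mul_inv (g : G) : D.ρ g * D.ρ g⁻¹ = 1 := by rw [← map_mul, mul_inv_cancel, map_one]

theorem inv_mul (g : G) : D.ρ g⁻¹ * D.ρ g = 1 := by rw [← map_mul, inv_mul_cancel, map_one]

theorem inv_eqv (g : G) (y : Y) : (D.H (g • y))⁻¹ = D.ρ g * (D.H y)⁻¹ * (D.ρ g)ᵀ := by
  refine inv_eq_right_inv ?_
  rw [D.eqv]
  calc _ = (D.ρ g⁻¹)ᵀ * (D.H y * (D.ρ g⁻¹ * D.ρ g) * (D.H y)⁻¹) * (D.ρ g)ᵀ := by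
        simp only [Matrix.mul_assoc]
    _ = 1 := by
      rw [D.inv_mul, Matrix.mul_one, mul_nonsing_inv _ (D.det_ne y).isUnit, Matrix.mul_one,
        ← transpose_mul, D.mul_inv, transpose_one]

theorem ipV_eqv (g : G) (y : Y) (u v : V r) :
    ipV (D.H (g • y)) (D.ρ g *ᵥ u) (D.ρ g *ᵥ v) = ipV (D.H y) u v := by
  have e : star (D.ρ g *ᵥ v) = D.ρ g *ᵥ star v := by
    conv_rhs => rw [← D.reR g]
    funext i
    simp [mulVec, dotProduct]
  rw [ipV_eq, ipV_eq, e, D.eqv, mulVec_mulVec, Matrix.mul_assoc, D.inv_mul, Matrix.mul_one,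
    ← mulVec_mulVec, dotProduct_mulVec, vecMul_transpose, mulVec_mulVec, D.inv_mul, one_mulVec]

variable {D}

theorem ca_conj (k : ι) : (ca (D.H ∘ s) k z).map star = cb (D.H ∘ s) k z := by
  have e : ((D.H (s z))⁻¹).map star = (D.H (s z))⁻¹ := by
    refine (inv_eq_right_inv ?_).symm
    rw [← D.reH (s z), ← RepA.map_star_mul, D.reH, mul_nonsing_inv _ (D.det_ne _).isUnit]
    simp
  rw [ca, cb, RepA.map_star_mul, dRb_real (F := D.H ∘ s) (Eventually.of_forall fun w => D.reH (s w))]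
  exact congrArg (· * _) e

theorem cb_conj (k : ι) : (cb (D.H ∘ s) k z).map star = ca (D.H ∘ s) k z := by
  rw [← ca_conj]
  ext i j
  simp

theorem ca_sym (k : ι) : (ca (D.H ∘ s) k z)ᵀ * D.H (s z) = D.H (s z) * ca (D.H ∘ s) k z := by
  have e := mul_ca (H := D.H ∘ s) (D.det_ne (s z)) k
  have e' := congrArg transpose e
  rw [transpose_mul, ← dR_tr, show (fun w => ((D.H ∘ s) w)ᵀ) = D.H ∘ s from
    funext fun w => D.sym _] at e'
  have k := e'.trans e.symm
  rwa [Function.comp_apply, D.sym] at k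

theorem cb_sym (k : ι) : (cb (D.H ∘ s) k z)ᵀ * D.H (s z) = D.H (s z) * cb (D.H ∘ s) k z := by
  have e := mul_cb (H := D.H ∘ s) (D.det_ne (s z)) k
  have e' := congrArg transpose e
  rw [transpose_mul, ← dRb_tr, show (fun w => ((D.H ∘ s) w)ᵀ) = D.H ∘ s from
    funext fun w => D.sym _] at e'
  have k := e'.trans e.symm
  rwa [Function.comp_apply, D.sym] at k

theorem star_mulVec' {σ τ : Type} [Fintype τ] (A : Matrix σ τ ℂ) (v : V τ) :
    star (A *ᵥ v) = A.map star *ᵥ star v := by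
  funext i
  simp [mulVec, dotProduct]

/-- the adjoint of `A_k` is its conjugate. -/
theorem ipV_ca (k : ι) (u v : V r) : ipV (D.H (s z)) (ca (D.H ∘ s) k z *ᵥ u) v =
    ipV (D.H (s z)) u (cb (D.H ∘ s) k z *ᵥ v) := by
  rw [ipV_eq, ipV_eq, star_mulVec', cb_conj, mulVec_mulVec, ← ca_sym, ← mulVec_mulVec,
    dotProduct_mulVec u, vecMul_transpose]

theorem ipV_cb (k : ι) (u v : V r) : ipV (D.H (s z)) (cb (D.H ∘ s) k z *ᵥ u) v =
    ipV (D.H (s z)) u (ca (D.H ∘ s) k z *ᵥ v) := by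
  rw [ipV_eq, ipV_eq, star_mulVec', ca_conj, mulVec_mulVec, ← cb_sym, ← mulVec_mulVec,
    dotProduct_mulVec u, vecMul_transpose]

theorem ipV_add_left (A : Mat r) (u u' v : V r) : ipV A (u + u') v = ipV A u v + ipV A u' v := by
  simp only [ipV_eq, add_dotProduct]

theorem ipV_add_right (A : Mat r) (u v v' : V r) : ipV A u (v + v') = ipV A u v + ipV A u v' := by
  simp only [ipV_eq, star_add, mulVec_add, dotProduct_add]

theorem ipV_smul_left (A : Mat r) (c : ℂ) (u v : V r) : ipV A (c • u) v = c * ipV A u v := by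
  simp only [ipV_eq, smul_dotProduct, smul_eq_mul]

theorem ipV_smul_right (A : Mat r) (c : ℂ) (u v : V r) : ipV A u (c • v) = star c * ipV A u v := by
  simp only [ipV_eq, star_smul, mulVec_smul, dotProduct_smul, smul_eq_mul]

/-- the connection `dz + A / 2` is unitary. -/
theorem dz_ipV (hH : DfR (D.H ∘ s) z) {u v : V ι → V r} (hu : DfV u z) (hv : DfV v z) (k : ι) :
    dz (fun w => ipV (D.H (s w)) (u w) (v w)) k z =
      ipV (D.H (s z)) (dV u k z + (1 / 2 : ℂ) • ca (D.H ∘ s) k z *ᵥ u z) (v z) +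
      ipV (D.H (s z)) (u z) (dVb v k z + (1 / 2 : ℂ) • cb (D.H ∘ s) k z *ᵥ v z) := by
  rw [ipV_add_left, ipV_add_right, ipV_smul_left, ipV_smul_right, ipV_ca]
  simp only [ipV_eq]
  refine (dz_dot hu (DfR.mulVec (F := D.H ∘ s) hH hv.star) k).trans ?_
  rw [dV_mulVec (F := D.H ∘ s) hH hv.star, dV_star,
    star_mulVec', cb_conj, mulVec_mulVec, ← mul_ca (H := D.H ∘ s) (D.det_ne (s z)), dotProduct_add]
  simp only [Function.comp_apply, star_div₀, star_one, star_ofNat]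
  ring

theorem dzb_ipV (hH : DfR (D.H ∘ s) z) {u v : V ι → V r} (hu : DfV u z) (hv : DfV v z) (k : ι) :
    dzb (fun w => ipV (D.H (s w)) (u w) (v w)) k z =
      ipV (D.H (s z)) (dVb u k z + (1 / 2 : ℂ) • cb (D.H ∘ s) k z *ᵥ u z) (v z) +
      ipV (D.H (s z)) (u z) (dV v k z + (1 / 2 : ℂ) • ca (D.H ∘ s) k z *ᵥ v z) := by
  rw [ipV_add_left, ipV_add_right, ipV_smul_left, ipV_smul_right, ipV_cb]
  simp only [ipV_eq]
  refine (dzb_dot hu (DfR.mulVec (F := D.H ∘ s) hH hv.star) k).trans ?_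
  rw [dVb_mulVec (F := D.H ∘ s) hH hv.star,
    dVb_star, star_mulVec', ca_conj, mulVec_mulVec, ← mul_cb (H := D.H ∘ s) (D.det_ne (s z)),
    dotProduct_add]
  simp only [Function.comp_apply, star_div₀, star_one, star_ofNat]
  ring

theorem H_smul (g : G) (s : V ι → Y) :
    (D.H ∘ fun w => g • s w) = fun w => (D.ρ g⁻¹)ᵀ * (D.H ∘ s) w * D.ρ g⁻¹ :=
  funext fun _ => D.eqv g _

theorem ca_smul (hH : DfR (D.H ∘ s) z) (g : G) (k : ι) :
    ca (D.H ∘ fun w => g • s w) k z = D.ρ g * ca (D.H ∘ s) k z * D.ρ g⁻¹ := by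
  rw [ca, ca, Function.comp_apply, D.inv_eqv, H_smul, dR_mulc ((DfR.const _).mul hH), dR_cmul _ hH]
  simp only [Matrix.mul_assoc, Function.comp_apply]
  rw [← Matrix.mul_assoc (D.ρ g)ᵀ, ← transpose_mul, D.inv_mul, transpose_one, Matrix.one_mul]

theorem cb_smul (hH : DfR (D.H ∘ s) z) (g : G) (k : ι) :
    cb (D.H ∘ fun w => g • s w) k z = D.ρ g * cb (D.H ∘ s) k z * D.ρ g⁻¹ := by
  rw [cb, cb, Function.comp_apply, D.inv_eqv, H_smul, dRb_mulc ((DfR.const _).mul hH), dRb_cmul _ hH]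
  simp only [Matrix.mul_assoc, Function.comp_apply]
  rw [← Matrix.mul_assoc (D.ρ g)ᵀ, ← transpose_mul, D.inv_mul, transpose_one, Matrix.one_mul]

theorem ph_smul (hH : SmR (D.H ∘ s) z) (g : G) (i j : ι) :
    ph (D.H ∘ fun w => g • s w) i j z = D.ρ g * ph (D.H ∘ s) i j z * D.ρ g⁻¹ := by
  have h1 : SmR (D.H ∘ fun w => g • s w) z := by
    rw [H_smul]
    exact ((SmR.const _).mul hH).mul (SmR.const _)
  have a := (hH.ca (D.det_ne _) i).df
  rw [ph_eq h1 (D.det_ne _), ph_eq hH (D.det_ne _), ca_smul hH.df, cb_smul hH.df,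
    dRb_congr (hH.ev.mono fun w hw => ca_smul hw g i), dRb_mulc ((DfR.const _).mul a), dRb_cmul _ a]
  simp only [Matrix.mul_add, Matrix.add_mul, Matrix.mul_sub, Matrix.sub_mul, Matrix.mul_assoc,
    Matrix.mul_smul, Matrix.smul_mul]
  simp only [← Matrix.mul_assoc (D.ρ g⁻¹) (D.ρ g), D.inv_mul, Matrix.one_mul]

variable {c : G → V r} {x : Y → V r}

theorem Aff.x_smul (h : D.Aff c x) (g : G) (s : V ι → Y) :
    (x ∘ fun w => g • s w) = fun w => D.ρ g *ᵥ (x ∘ s) w + c g := funext fun _ => h.2 g _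

theorem Aff.dV_smul (h : D.Aff c x) (hx : DfV (x ∘ s) z) (g : G) (k : ι) :
    dV (x ∘ fun w => g • s w) k z = D.ρ g *ᵥ dV (x ∘ s) k z := by
  rw [h.x_smul, dV_add ((DfR.const _).mulVec hx) (DfV.const _), dV_const, add_zero, dV_cmulVec _ hx]

theorem Aff.dVb_smul (h : D.Aff c x) (hx : DfV (x ∘ s) z) (g : G) (k : ι) :
    dVb (x ∘ fun w => g • s w) k z = D.ρ g *ᵥ dVb (x ∘ s) k z := by
  rw [h.x_smul, dVb_add ((DfR.const _).mulVec hx) (DfV.const _), dVb_const, add_zero,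
    dVb_cmulVec _ hx]

theorem Aff.px_smul (h : D.Aff c x) (hH : DfR (D.H ∘ s) z) (hx : SmV (x ∘ s) z) (g : G) (i j : ι) :
    px (D.H ∘ fun w => g • s w) (x ∘ fun w => g • s w) i j z =
      D.ρ g *ᵥ px (D.H ∘ s) (x ∘ s) i j z := by
  rw [px, px, ca_smul hH, cb_smul hH, h.dV_smul hx.df, h.dVb_smul hx.df,
    dV_congr (hx.ev.mono fun w hw => h.dVb_smul hw g j), dV_cmulVec _ (hx.dVb j).df]
  simp only [mulVec_add, mulVec_smul, mulVec_mulVec, Matrix.mul_assoc, D.inv_mul, Matrix.mul_one]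

theorem Aff.coc [Nonempty Y] (h : D.Aff c x) : Coc D.ρ c := fun g g' => by
  have y : Y := Classical.arbitrary Y
  have := h.2 (g * g') y
  rw [mul_smul, h.2, h.2, map_mul, mulVec_add, mulVec_mulVec, add_assoc] at this
  rw [← add_left_cancel this, add_comm]

end Dt

namespace Two

variable [Fintype r] [DecidableEq r] {D : Dt M p G r} (h : Two M p e z s e' z' s')
  (hp : IsLocalHomeomorph p)
include h hp

theorem ca (i : ι) : ca (D.H ∘ s) i z = ∑ l, tj e e' (e.symm z) l i • VH.ca (D.H ∘ s') l z' := by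
  simp only [VH.ca, h.dR hp (D.sm _ h.he' _ h.hz' _ h.hs').df, Function.comp_apply, h.eq,
    Matrix.mul_sum, Matrix.mul_smul]

theorem cb (i : ι) :
    cb (D.H ∘ s) i z = ∑ l, star (tj e e' (e.symm z) l i) • VH.cb (D.H ∘ s') l z' := by
  simp only [VH.cb, h.dRb hp (D.sm _ h.he' _ h.hz' _ h.hs').df, Function.comp_apply, h.eq,
    Matrix.mul_sum, Matrix.mul_smul]

theorem ph (i j : ι) : ph (D.H ∘ s) i j z = ∑ l, ∑ m,
    (tj e e' (e.symm z) l i * star (tj e e' (e.symm z) m j)) • VH.ph (D.H ∘ s') l m z' := by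
  simp only [VH.ph, h.dRR hp (D.sm _ h.he' _ h.hz' _ h.hs'), h.ca hp, h.cb hp, Function.comp_apply,
    h.eq, Matrix.mul_sum, Matrix.sum_mul, Matrix.mul_smul, Matrix.smul_mul, smul_sub, smul_add,
    Finset.sum_sub_distrib, Finset.sum_add_distrib, Finset.smul_sum, smul_smul]
  congr 1
  · exact Finset.sum_congr rfl fun l _ => Finset.sum_congr rfl fun m _ => by rw [mul_comm]
  congr 1
  · rw [Finset.sum_comm]
    exact Finset.sum_congr rfl fun l _ => Finset.sum_congr rfl fun m _ => by rw [mul_comm]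

theorem px {x : Y → V r} (hx : SmV (x ∘ s') z') (i j : ι) : px (D.H ∘ s) (x ∘ s) i j z = ∑ l, ∑ m,
    (tj e e' (e.symm z) l i * star (tj e e' (e.symm z) m j)) • VH.px (D.H ∘ s') (x ∘ s') l m z' := by
  simp only [VH.px, h.dVV hp hx, h.ca hp, h.cb hp, h.dV hp hx.df, h.dVb hp hx.df, mulVec_sum,
    sum_mulVec, mulVec_smul, smul_mulVec, smul_add, Finset.sum_add_distrib, Finset.smul_sum,
    smul_smul]
  congr 1
  · congr 1
    exact Finset.sum_congr rfl fun l _ => Finset.sum_congr rfl fun m _ => by rw [mul_comm]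
  · rw [Finset.sum_comm]
    exact Finset.sum_congr rfl fun l _ => Finset.sum_congr rfl fun m _ => by rw [mul_comm]

end Two

end Pool.Agent.Lib.MP_813db1_ag.VH
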