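import Pool.Agent.Lib.MP_813db1_ag.VH.CoStmt
import Pool.Agent.Lib.MP_813db1_ag.VH.Cov

/-! Invariant subspaces of a harmonic bundle have constant orthogonal projectors. -/

namespace Pool.Agent.Lib.MP_813db1_ag.VH.Co

open Pool.Agent.Lib.MP_813db1_ag.HS Pool.Agent.Lib.MP_813db1_ag.AS
open MeasureTheory Complex Matrix Filter Topology Set Metric
open scoped ContDiff ComplexOrder MatrixOrder

namespace Flat

section alg

variable {r : Type} [Fintype r] [DecidableEq r] {P0 H P P' : Mat r}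

/-- the metric restricted to the range of `P0`, extended by a constant form. -/
def Nm (P0 H : Mat r) : Mat r := P0ᴴ * H * P0 + (1 - P0)ᴴ * (1 - P0)

/-- the orthogonal projector. -/
noncomputable def Pj (P0 H : Mat r) : Mat r := P0 * (Nm P0 H)⁻¹ * P0ᴴ * H

theorem nm_pd (hH : H.PosDef) : (Nm P0 H).PosDef := by
  have h1 := hH.posSemidef.conjTranspose_mul_mul_same P0
  have h2 := posSemidef_conjTranspose_mul_self (1 - P0)
  refine PosDef.of_dotProduct_mulVec_pos (h1.isHermitian.add h2.isHermitian) fun x hx => ?_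
  rw [Nm, add_mulVec, dotProduct_add]
  by_cases h0 : P0 *ᵥ x = 0
  · have : (1 - P0) *ᵥ x = x := by rw [sub_mulVec, one_mulVec, h0, sub_zero]
    refine add_pos_of_nonneg_of_pos (h1.dotProduct_mulVec_nonneg x) ?_
    rw [← mulVec_mulVec, dotProduct_mulVec, ← star_mulVec, this]
    exact dotProduct_star_self_pos_iff.2 hx
  · refine add_pos_of_pos_of_nonneg ?_ (h2.dotProduct_mulVec_nonneg x)
    simpa only [star_mulVec, dotProduct_mulVec, vecMul_vecMul] using hH.dotProduct_mulVec_pos h0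

theorem un (hH : H.PosDef) : IsUnit H.det := (isUnit_iff_isUnit_det _).1 hH.isUnit

theorem p0_pj (h0 : P0 * P0 = P0) : P0 * Pj P0 H = Pj P0 H := by
  simp only [Pj, ← Matrix.mul_assoc, h0]

theorem pj_p0 (hH : H.PosDef) (h0 : P0 * P0 = P0) : Pj P0 H * P0 = P0 := by
  have h1 : Nm P0 H * P0 = P0ᴴ * H * P0 := by
    rw [Nm, Matrix.add_mul, Matrix.mul_assoc _ P0, h0, Matrix.mul_assoc _ (1 - P0),
      Matrix.sub_mul, h0, Matrix.one_mul, sub_self, Matrix.mul_zero, add_zero]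
  calc Pj P0 H * P0 = P0 * ((Nm P0 H)⁻¹ * (Nm P0 H * P0)) := by
        rw [h1, Pj]; simp only [Matrix.mul_assoc]
    _ = P0 := by rw [nonsing_inv_mul_cancel_left _ _ (un (nm_pd hH)), h0]

theorem pj_pj (hH : H.PosDef) (h0 : P0 * P0 = P0) : Pj P0 H * Pj P0 H = Pj P0 H := by
  nth_rewrite 2 [← p0_pj h0]
  rw [← Matrix.mul_assoc, pj_p0 hH h0, p0_pj h0]

theorem pj_sa (hH : H.PosDef) : H * Pj P0 H = (Pj P0 H)ᴴ * H := by
  simp only [Pj, conjTranspose_mul, conjTranspose_conjTranspose, hH.isHermitian.eq,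
    (nm_pd (P0 := P0) hH).inv.isHermitian.eq, Matrix.mul_assoc]

theorem inv_sa (hH : H.PosDef) (h : H * P = Pᴴ * H) : H⁻¹ * Pᴴ = P * H⁻¹ := by
  calc H⁻¹ * Pᴴ = H⁻¹ * (Pᴴ * H) * H⁻¹ := by
        rw [Matrix.mul_assoc, mul_nonsing_inv_cancel_right _ _ (un hH)]
    _ = P * H⁻¹ := by rw [← h, nonsing_inv_mul_cancel_left _ _ (un hH)]

theorem uniq (hH : H.PosDef) (h1 : P * P' = P') (h2 : P' * P = P) (h3 : H * P = Pᴴ * H)
    (h4 : H * P' = P'ᴴ * H) : P = P' := by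
  have : H * P = H * P' := by
    calc H * P = H * P' * P := by rw [Matrix.mul_assoc, h2]
      _ = P'ᴴ * (Pᴴ * H) := by rw [h4, Matrix.mul_assoc, h3]
      _ = H * P' := by rw [← Matrix.mul_assoc, ← conjTranspose_mul, h1, h4]
  rw [← nonsing_inv_mul_cancel_left H P (un hH), this, nonsing_inv_mul_cancel_left H P' (un hH)]

theorem key (hH : H.PosDef) (h0 : P0 * P0 = P0) {B : Mat r} (hB : B.IsHermitian) :
    P0ᴴ * (B * H⁻¹ * B) * P0 - P0ᴴ * B * P0 * (Nm P0 H)⁻¹ * (P0ᴴ * B * P0) =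
      ((1 - Pj P0 H)ᴴ * B * P0)ᴴ * H⁻¹ * ((1 - Pj P0 H)ᴴ * B * P0) := by
  have h1 : (1 - Pj P0 H) * H⁻¹ * (1 - Pj P0 H)ᴴ = H⁻¹ - P0 * (Nm P0 H)⁻¹ * P0ᴴ := by
    have e1 := inv_sa hH (pj_sa (P0 := P0) hH)
    have e2 : Pj P0 H * H⁻¹ = P0 * (Nm P0 H)⁻¹ * P0ᴴ := by
      rw [Pj, mul_nonsing_inv_cancel_right _ _ (un hH)]
    rw [Matrix.mul_assoc, conjTranspose_sub, conjTranspose_one, Matrix.mul_sub, Matrix.mul_sub,
      Matrix.mul_one, e1, ← Matrix.mul_assoc, Matrix.sub_mul 1 _ (Pj P0 H), pj_pj hH h0,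
      Matrix.one_mul, sub_self, Matrix.zero_mul, sub_zero, Matrix.sub_mul, Matrix.one_mul, e2]
  calc _ = P0ᴴ * B * (H⁻¹ - P0 * (Nm P0 H)⁻¹ * P0ᴴ) * B * P0 := by noncomm_ring
    _ = _ := by
      rw [← h1, conjTranspose_mul, conjTranspose_mul, conjTranspose_conjTranspose, hB.eq]
      simp only [Matrix.mul_assoc]

theorem tr_nn {A B : Mat r} (hA : A.PosDef) (hB : B.PosDef) (X : Mat r) :
    0 ≤ trace (A * (Xᴴ * B * X)) ∧ (trace (A * (Xᴴ * B * X)) = 0 → X = 0) := by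
  obtain ⟨S, hS⟩ : ∃ S : Mat r, A = Sᴴ * S :=
    CStarAlgebra.nonneg_iff_eq_star_mul_self.1 hA.posSemidef.nonneg
  obtain ⟨T, hT⟩ : ∃ T : Mat r, B = Tᴴ * T :=
    CStarAlgebra.nonneg_iff_eq_star_mul_self.1 hB.posSemidef.nonneg
  have e : trace (A * (Xᴴ * B * X)) = trace ((T * X * Sᴴ)ᴴ * (T * X * Sᴴ)) := by
    rw [hS, hT, Matrix.mul_assoc, trace_mul_comm]
    simp only [conjTranspose_mul, conjTranspose_conjTranspose, Matrix.mul_assoc]
  have hp := posSemidef_conjTranspose_mul_self (T * X * Sᴴ)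
  rw [e]
  refine ⟨hp.trace_nonneg, fun h => ?_⟩
  rw [hp.trace_eq_zero_iff, conjTranspose_mul_self_eq_zero] at h
  have : B * X * A = 0 := by
    calc B * X * A = Tᴴ * (T * X * Sᴴ) * S := by rw [hS, hT]; simp only [Matrix.mul_assoc]
      _ = 0 := by rw [h]; simp
  rw [← nonsing_inv_mul_cancel_left B X (un hB), ← mul_nonsing_inv_cancel_right A (B * X) (un hA),
    this]
  simp

theorem comm_of (hH : H.PosDef) (h0 : P0 * P0 = P0) {B : Mat r} (hB : B.IsHermitian)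
    (h : (1 - Pj P0 H)ᴴ * B * P0 = 0) : B * Pj P0 H = (Pj P0 H)ᴴ * B := by
  have h1 : B * Pj P0 H = (Pj P0 H)ᴴ * B * Pj P0 H := by
    have : (1 - Pj P0 H)ᴴ * B * Pj P0 H = 0 := by
      rw [← p0_pj h0, ← Matrix.mul_assoc, p0_pj h0, h, Matrix.zero_mul]
    rwa [conjTranspose_sub, conjTranspose_one, Matrix.sub_mul, Matrix.sub_mul, Matrix.one_mul,
      sub_eq_zero] at this
  have h2 := congrArg conjTranspose h1
  simp only [conjTranspose_mul, conjTranspose_conjTranspose, hB.eq] at h2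
  exact h1.trans (by rw [Matrix.mul_assoc, ← h2])

theorem d_zero (hH : H.PosDef) (h0 : P0 * P0 = P0) {B d : Mat r} (h1 : d * P0 = 0)
    (h2 : P0 * d = d) (h3 : B * Pj P0 H + H * d = dᴴ * H + (Pj P0 H)ᴴ * B)
    (h4 : B * Pj P0 H = (Pj P0 H)ᴴ * B) : d = 0 := by
  have h5 : H * d = dᴴ * H := by
    rw [h4, add_comm] at h3
    exact add_right_cancel h3
  have h6 : d * Pj P0 H = 0 := by rw [← p0_pj h0, ← Matrix.mul_assoc, h1, Matrix.zero_mul]
  have h7 : Pj P0 H * d = d := by rw [← h2, ← Matrix.mul_assoc, pj_p0 hH h0]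
  have h8 : H * d = 0 := by
    calc H * d = H * Pj P0 H * d := by rw [Matrix.mul_assoc, h7]
      _ = (d * Pj P0 H)ᴴ * H := by
        rw [pj_sa hH, Matrix.mul_assoc, h5, conjTranspose_mul, Matrix.mul_assoc]
      _ = 0 := by rw [h6]; simp
  rw [← nonsing_inv_mul_cancel_left H d (un hH), h8, Matrix.mul_zero]

theorem exists_proj (W : Submodule ℂ (V r)) :
    ∃ P0 : Mat r, (∀ v, P0 *ᵥ v ∈ W) ∧ ∀ v ∈ W, P0 *ᵥ v = v := by
  obtain ⟨W', hW⟩ := W.exists_isCompl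
  refine ⟨LinearMap.toMatrix' (W.subtype.comp (W.projectionOnto W' hW)), fun v => ?_,
    fun v hv => ?_⟩
  · rw [LinearMap.toMatrix'_mulVec]
    exact Subtype.prop _
  · rw [LinearMap.toMatrix'_mulVec]
    exact congrArg Subtype.val (Submodule.projectionOnto_apply_left hW ⟨v, hv⟩)

theorem ext_mv {A B : Mat r} (h : ∀ v, A *ᵥ v = B *ᵥ v) : A = B :=
  Matrix.toLin'.injective (LinearMap.ext h)

end alg

section loc

variable {ι r : Type} [Fintype ι] [DecidableEq ι] [Fintype r] [DecidableEq r]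

theorem cm_const (k : WithTop ℕ∞) (A : Mat r) (z : V ι) : CM k (fun _ => A) z :=
  fun _ _ => contDiffAt_const

theorem cm_sand (hd : DvS) {k : WithTop ℕ∞} {F : V ι → Mat r} {z : V ι} (h : CM k F z)
    (A B : Mat r) : CM k (fun w => A * F w * B) z :=
  (hd.cm ι r k _ _ z (hd.cm ι r k _ _ z (cm_const k A z) h).2.2.1 (cm_const k B z)).2.2.1

theorem dv_sand (hd : DvS) {F : V ι → Mat r} {z : V ι} (h : CM 1 F z) (A B : Mat r) (v : V ι) :
    dv (fun w => A * F w * B) v z = A * dv F v z * B := by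
  rw [hd.mul ι r _ _ v z (hd.cm ι r 1 _ _ z (cm_const 1 A z) h).2.2.1 (cm_const 1 B z),
    hd.mul ι r _ _ v z (cm_const 1 A z) h, hd.const, hd.const]
  simp

theorem cm_nm (hd : DvS) {k : WithTop ℕ∞} {F : V ι → Mat r} {z : V ι} (h : CM k F z)
    (P0 : Mat r) : CM k (fun w => Nm P0 (F w)) z :=
  (hd.cm ι r k _ _ z (cm_sand hd h _ _) (cm_const k _ z)).1

theorem dv_nm (hd : DvS) {F : V ι → Mat r} {z : V ι} (h : CM 1 F z) (P0 : Mat r) (v : V ι) :
    dv (fun w => Nm P0 (F w)) v z = P0ᴴ * dv F v z * P0 := by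
  have := (hd.add ι r _ (fun _ => (1 - P0)ᴴ * (1 - P0)) v z (cm_sand hd h P0ᴴ P0)
    (cm_const 1 _ z)).1
  rw [hd.const, add_zero, dv_sand hd h] at this
  exact this

theorem cm_pj (hd : DvS) {k : WithTop ℕ∞} {F : V ι → Mat r} {z : V ι} (h : CM k F z)
    (hp : (F z).PosDef) (P0 : Mat r) : CM k (fun w => Pj P0 (F w)) z :=
  (hd.cm ι r k _ _ z (cm_sand hd ((hd.cm ι r k _ _ z (cm_nm hd h P0) h).2.2.2.2.1
    (un (nm_pd hp)).ne_zero) P0 P0ᴴ) h).2.2.1

theorem cm_le {k n : WithTop ℕ∞} {F : V ι → Mat r} {z : V ι} (h : CM n F z) (hk : k ≤ n) :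
    CM k F z := fun i j => (h i j).of_le hk

theorem dv_herm (hd : DvS) {F : V ι → Mat r} {z : V ι} (hp : ∀ w, (F w).PosDef) (v : V ι) :
    (dv F v z).IsHermitian := by
  have := (hd.ct ι r F v z).1
  simp only [fun w => (hp w).isHermitian.eq] at this
  exact this.symm

/-- the pointwise statement. -/
theorem point (h : Al) {g : V ι → Mat ι} {F : V ι → Mat r} {z : V ι} (hg : (g z).PosDef)
    (hF : CM ∞ F z) (hp : ∀ w, (F w).PosDef) (hT : ten g F z = 0) {P0 : Mat r}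
    (h0 : P0 * P0 = P0) :
    0 ≤ trace ((Nm P0 (F z))⁻¹ * ten g (fun w => Nm P0 (F w)) z) ∧
      (trace ((Nm P0 (F z))⁻¹ * ten g (fun w => Nm P0 (F w)) z) = 0 →
        ∀ v, dv (fun w => Pj P0 (F w)) v z = 0) := by
  have hd := h.dv
  obtain ⟨C, -, hC⟩ := h.fr ι (∑ i, ∑ j, ‖g z i j‖ + ∑ i, ∑ j, ‖(g z)⁻¹ i j‖)
  have hb : ∀ (A : Mat ι) i j, ‖A i j‖ ≤ ∑ i, ∑ j, ‖A i j‖ := fun A i j =>
    (Finset.single_le_sum (f := fun j => ‖A i j‖) (fun _ _ => norm_nonneg _)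
      (Finset.mem_univ j)).trans (Finset.single_le_sum (f := fun i => ∑ j, ‖A i j‖)
        (fun _ _ => by positivity) (Finset.mem_univ i))
  obtain ⟨e, he⟩ := hC (g z) hg
    (fun i j => (hb _ i j).trans (le_add_of_nonneg_right (by positivity)))
    (fun i j => (hb _ i j).trans (le_add_of_nonneg_left (by positivity)))
  obtain ⟨-, f2, f3⟩ := hd.fr ι r g z C e he
  have hF1 : CM 1 F z := cm_le hF (by norm_cast)
  have hF2 : CM 2 F z := cm_le hF (by norm_cast)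
  have e1 : ∀ b, dv (dv (fun w => Nm P0 (F w)) (e b)) (e b) z =
      P0ᴴ * dv (dv F (e b)) (e b) z * P0 := fun b => by
    have ev : dv (fun w => Nm P0 (F w)) (e b) =ᶠ[𝓝 z] fun w => P0ᴴ * dv F (e b) w * P0 :=
      (hd.ev ι r 1 F z (by exact_mod_cast hF1)).mono fun w hw =>
        dv_nm hd (by exact_mod_cast hw) P0 (e b)
    rw [(hd.congr ι r _ _ (e b) z ev).self_of_nhds,
      dv_sand hd (hd.cd ι r 1 2 F (e b) z (by norm_num) hF2)]
  have e2 : ten g (fun w => Nm P0 (F w)) z = ∑ b,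
      ((1 - Pj P0 (F z))ᴴ * dv F (e b) z * P0)ᴴ * (F z)⁻¹ *
        ((1 - Pj P0 (F z))ᴴ * dv F (e b) z * P0) := by
    rw [ten, f2 _ hF2, f3, sub_eq_zero] at hT
    rw [ten, f2 _ (cm_nm hd hF2 P0), f3]
    simp only [e1, dv_nm hd hF1]
    rw [← Finset.sum_mul, ← Finset.mul_sum, hT, Finset.mul_sum, Finset.sum_mul,
      ← Finset.sum_sub_distrib]
    exact Finset.sum_congr rfl fun b _ => key (hp z) h0 (dv_herm hd hp _)
  have t := fun b => tr_nn (nm_pd (P0 := P0) (hp z)).inv (hp z).inv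
    ((1 - Pj P0 (F z))ᴴ * dv F (e b) z * P0)
  rw [e2, Finset.mul_sum, trace_sum]
  refine ⟨Finset.sum_nonneg fun b _ => (t b).1, fun hz v => ?_⟩
  have hX := fun b => comm_of (hp z) h0 (dv_herm hd hp (e b))
    ((t b).2 ((Finset.sum_eq_zero_iff_of_nonneg fun b _ => (t b).1).1 hz b (Finset.mem_univ b)))
  have hv : dv F v z * Pj P0 (F z) = (Pj P0 (F z))ᴴ * dv F v z := by
    obtain ⟨β, -, rfl⟩ := he.span v
    rw [hd.dir, Finset.sum_mul, Finset.mul_sum]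
    exact Finset.sum_congr rfl fun b _ => by rw [Matrix.smul_mul, Matrix.mul_smul, hX]
  have hP := cm_pj hd hF1 (hp z) P0
  refine d_zero (hp z) h0 ?_ ?_ ?_ hv
  · have := hd.mul ι r _ _ v z hP (cm_const 1 P0 z)
    simp only [fun w => pj_p0 (hp w) h0, hd.const, Matrix.mul_zero, add_zero] at this
    exact this.symm
  · have := hd.mul ι r _ _ v z (cm_const 1 P0 z) hP
    simp only [p0_pj h0, hd.const, Matrix.zero_mul, zero_add] at this
    exact this.symm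
  · have h1 := hd.mul ι r _ _ v z hF1 hP
    have h2 := hd.mul ι r (fun w => (Pj P0 (F w))ᴴ) _ v z
      (fun i j => (conjCLE.contDiff.contDiffAt).comp z (hP j i)) hF1
    rw [(hd.ct ι r _ v z).1] at h2
    simp only [fun w => pj_sa (P0 := P0) (hp w)] at h1
    rw [← h1, h2]

end loc

end Flat

open Flat

variable {ι X Y G : Type} [Fintype ι] [DecidableEq ι] [TopologicalSpace X] [T2Space X]
  [CompactSpace X] [MeasurableSpace X] [BorelSpace X] [TopologicalSpace Y] [ConnectedSpace Y]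
  [Group G] [MulAction G Y] {c : Sx ι X Y G} {μ : Measure X}

theorem flatS' (h : Al) (hb : c.Bs) (hμ : c.M.IsVol c.g μ) (h1 : c.GrS μ) (h2 : c.DcS) :
    ∀ (r : Type) [Fintype r] [DecidableEq r] (D : Dt c.M c.p G r),
    D.Harm c.g → ∀ W, Ivt D.ρ W → ∃ P : Mat r, P * P = P ∧ (∀ v, v ∈ W ↔ P *ᵥ v = v) ∧
      (ReS W → P.map star = P) ∧ (∀ γ, D.ρ γ * P = P * D.ρ γ) ∧
      (∀ y, D.H y * P = Pᴴ * D.H y) ∧
      Loc c.M c.p fun _ z s => ∀ k, ca (D.H ∘ s) k z * P = P * ca (D.H ∘ s) k z ∧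
        cb (D.H ∘ s) k z * P = P * cb (D.H ∘ s) k z := by
  intro r _ _ D hD W hW
  have hd := h.dv
  obtain ⟨hG, hH⟩ := h2.har r D
  obtain ⟨-, -, hT⟩ := hH.1 hD
  obtain ⟨P0, m1, m2⟩ := exists_proj W
  have h0 : P0 * P0 = P0 := ext_mv fun v => by rw [← mulVec_mulVec, m2 _ (m1 v)]
  have hin : ∀ y v, Pj P0 (D.H y) *ᵥ v ∈ W := fun y v => by
    rw [← p0_pj h0, ← mulVec_mulVec]; exact m1 _
  have hfix : ∀ y, ∀ v ∈ W, Pj P0 (D.H y) *ᵥ v = v := fun y v hv => by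
    rw [← m2 v hv, mulVec_mulVec, pj_p0 (D.pos y) h0]
  have hT' : ∀ γ, (D.ρ γ)ᵀ = (D.ρ γ)ᴴ := fun γ => by
    rw [conjTranspose, transpose_map, D.reR γ]
  have heq : ∀ (γ : G) y, Pj P0 (D.H (γ • y)) = D.ρ γ * Pj P0 (D.H y) * D.ρ γ⁻¹ := by
    intro γ y
    refine uniq (D.pos (γ • y)) (ext_mv fun v => ?_) (ext_mv fun v => ?_) (pj_sa (D.pos _)) ?_
    · rw [← mulVec_mulVec, hfix]
      rw [← mulVec_mulVec, ← mulVec_mulVec]
      exact hW _ _ (hin _ _)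
    · rw [← mulVec_mulVec, ← mulVec_mulVec, ← mulVec_mulVec, hfix _ _ (hW _ _ (hin _ _)),
        mulVec_mulVec, D.mul_inv, one_mulVec]
    · have e1 : (D.ρ γ)ᴴ * (D.ρ γ⁻¹)ᴴ = 1 := by
        rw [← conjTranspose_mul, D.inv_mul, conjTranspose_one]
      rw [D.eqv, hT', conjTranspose_mul, conjTranspose_mul]
      calc _ = (D.ρ γ⁻¹)ᴴ * (D.H y * (D.ρ γ⁻¹ * D.ρ γ) * Pj P0 (D.H y)) * D.ρ γ⁻¹ := by
            simp only [Matrix.mul_assoc]
        _ = (D.ρ γ⁻¹)ᴴ * ((Pj P0 (D.H y))ᴴ * ((D.ρ γ)ᴴ * (D.ρ γ⁻¹)ᴴ) * D.H y) * D.ρ γ⁻¹ := by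
            rw [D.inv_mul, e1, Matrix.mul_one, Matrix.mul_one, pj_sa (D.pos y)]
        _ = _ := by simp only [Matrix.mul_assoc]
  have hsm : ∀ y, CM ∞ (c.rd D.H y) (c.pt y) := fun y i j => hb.a.at_ ∞ _ y (hG.sm i j)
  have hself : ∀ y, c.rd D.H y (c.pt y) = D.H y := fun y => congrArg D.H (hb.a.self y).2.2
  have hpt := fun y => point h (hb.a.gp y) (hsm y) (fun w => D.pos _)
    (show ten (c.Gp y) (c.rd D.H y) (c.pt y) = 0 by
      have := hT y
      rwa [Sx.ten, Sx.lM, Sx.qM, ← hself y] at this) h0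
  have hten : ∀ y, trace ((Nm P0 (D.H y))⁻¹ * c.ten (fun x => Nm P0 (D.H x)) y) =
      trace ((Nm P0 (c.rd D.H y (c.pt y)))⁻¹ *
        ten (c.Gp y) (fun w => Nm P0 (c.rd D.H y w)) (c.pt y)) := fun y => by
    rw [Sx.ten, Sx.lM, Sx.qM, ten, hself]
    rfl
  obtain ⟨c1, c2⟩ := h1.ten r (fun x => Nm P0 (D.H x))
    (fun γ => (P0 * D.ρ γ⁻¹ * P0 + (1 - P0))ᴴ) (fun γ => P0 * D.ρ γ⁻¹ * P0 + (1 - P0))
    (fun i j e he z hz s hs => cm_nm hd (F := fun w => D.H (s w))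
      (fun i j => (hG.sm i j e he z hz s hs).of_le (by norm_cast)) P0 i j)
    (fun y => (un (nm_pd (D.pos y))).ne_zero) (fun γ y => by
      have e1 : P0 * (P0 * D.ρ γ⁻¹ * P0 + (1 - P0)) = D.ρ γ⁻¹ * P0 := by
        have : P0 * D.ρ γ⁻¹ * P0 = D.ρ γ⁻¹ * P0 := ext_mv fun v => by
          rw [← mulVec_mulVec, ← mulVec_mulVec, m2 _ (hW _ _ (m1 v)), mulVec_mulVec]
        rw [Matrix.mul_add, Matrix.mul_sub, h0, ← Matrix.mul_assoc, ← Matrix.mul_assoc, h0, this]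
        simp
      have e2 : (1 - P0) * (P0 * D.ρ γ⁻¹ * P0 + (1 - P0)) = 1 - P0 := by
        have a1 : (1 - P0) * P0 = 0 := by rw [Matrix.sub_mul, h0]; simp
        rw [Matrix.mul_add, ← Matrix.mul_assoc, ← Matrix.mul_assoc, a1, Matrix.mul_sub, a1]
        simp
      generalize P0 * D.ρ γ⁻¹ * P0 + (1 - P0) = S at e1 e2
      calc Nm P0 (D.H (γ • y)) = (P0 * S)ᴴ * D.H y * (P0 * S) + ((1 - P0) * S)ᴴ * ((1 - P0) * S) := by
            rw [e1, e2, Nm, D.eqv, hT', conjTranspose_mul]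
            simp only [Matrix.mul_assoc]
        _ = _ := by
            rw [Nm, conjTranspose_mul, conjTranspose_mul]
            simp only [Matrix.mul_add, Matrix.add_mul, Matrix.mul_assoc])
  obtain ⟨-, hv⟩ := AY.volS' ι X c.M c.g c.hg
  have := (hv μ hμ).fin
  have := (hv μ hμ).pos
  have hz : ∀ x, trace ((Nm P0 (D.H (c.lf x)))⁻¹ * c.ten (fun x => Nm P0 (D.H x)) (c.lf x)) = 0 := by
    have hi := c1.integrable_of_hasCompactSupport (μ := μ) (HasCompactSupport.of_compactSpace _)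
    have hn : ∀ x, 0 ≤ trace ((Nm P0 (D.H (c.lf x)))⁻¹ *
        c.ten (fun x => Nm P0 (D.H x)) (c.lf x)) := fun x => by rw [hten]; exact (hpt _).1
    have c3 := continuous_re.comp c1
    have h3 := (c3.ae_eq_iff_eq μ continuous_zero).1 ((integral_eq_zero_iff_of_nonneg
      (fun x => (Complex.nonneg_iff.1 (hn x)).1) hi.re).1 (by
        have := integral_re hi
        rw [c2] at this
        exact this))
    intro x
    exact Complex.ext (congrFun h3 x) (Complex.nonneg_iff.1 (hn x)).2.symm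
  have hdz : ∀ y v, dv (fun w => Pj P0 (c.rd D.H y w)) v (c.pt y) = 0 := by
    intro y v
    obtain ⟨γ, hγ⟩ := hb.a.orb y
    have hp' : c.p (c.lf (c.p y)) = c.p y := hb.a.lf _
    have k1 := (hpt (c.lf (c.p y))).2 (by rw [← hten]; exact hz _) v
    have s1 := hb.a.self y
    have s2 := hb.a.self (c.lf (c.p y))
    have ept : c.pt (c.lf (c.p y)) = c.pt y := by rw [Sx.pt, Sx.pt, hp']
    rw [ept] at k1 s2
    rw [hp'] at s2
    have s3 := s2.2.1.smul c.hq γ⁻¹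
    have ev : c.rd id y =ᶠ[𝓝 (c.pt y)] fun w => γ⁻¹ • c.rd id (c.lf (c.p y)) w :=
      F12.uniq c.hp s1.2.1.1 s3.1 (by rw [s1.2.2, s2.2.2, hγ, inv_smul_smul])
        ((s1.2.1.2.and s3.2).mono fun w hw => hw.1.trans hw.2.symm)
    have ev2 : (fun w => Pj P0 (c.rd D.H y w)) =ᶠ[𝓝 (c.pt y)]
        fun w => D.ρ γ⁻¹ * Pj P0 (c.rd D.H (c.lf (c.p y)) w) * D.ρ γ⁻¹⁻¹ :=
      ev.mono fun w hw => (congrArg (fun x => Pj P0 (D.H x)) hw).trans (heq _ _)
    have hc : CM 1 (fun w => Pj P0 (c.rd D.H (c.lf (c.p y)) w)) (c.pt y) :=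
      cm_pj hd (cm_le (ept ▸ hsm (c.lf (c.p y))) (by norm_cast)) (D.pos _) P0
    rw [(hd.congr ι r _ _ v _ ev2).self_of_nhds, dv_sand hd hc, k1]
    simp
  have hc : ∀ y y', Pj P0 (D.H y) = Pj P0 (D.H y') := fun y y' => Matrix.ext fun i j =>
    hb.a.cst (fun y => Pj P0 (D.H y) i j)
      (fun e he z hz s hs => cm_pj hd (F := fun w => D.H (s w))
        (fun i j => (hG.sm i j e he z hz s hs).of_le (by norm_cast)) (D.pos _) P0 i j)
      (fun y => ContinuousLinearMap.ext fun v => congrFun₂ (hdz y v) i j) y y'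
  obtain ⟨y0⟩ : Nonempty Y := inferInstance
  have hsa : ∀ y, D.H y * Pj P0 (D.H y0) = (Pj P0 (D.H y0))ᴴ * D.H y := fun y => by
    rw [hc y0 y]; exact pj_sa (D.pos y)
  refine ⟨Pj P0 (D.H y0), pj_pj (D.pos _) h0, fun v => ⟨hfix y0 v, fun hv => hv ▸ hin y0 v⟩,
    fun hR => ?_, fun γ => ?_, hsa, fun e he z hz s hs k => ?_⟩
  · have st : ∀ v, (Pj P0 (D.H y0)).map star *ᵥ v = star (Pj P0 (D.H y0) *ᵥ star v) := fun v => by
      rw [Dt.star_mulVec', star_star]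
    refine (uniq (D.pos y0) (ext_mv fun v => ?_) (ext_mv fun v => ?_) (hsa y0) ?_).symm
    · rw [← mulVec_mulVec, st, hfix _ _ (hR _ (hin _ _))]
    · rw [← mulVec_mulVec, st, hfix _ _ (hR _ (hin _ _)), star_star]
    · have := congrArg (fun A : Mat r => A.map (starRingEnd ℂ)) (hsa y0)
      simp only [Matrix.map_mul] at this
      have e1 : (D.H y0).map (starRingEnd ℂ) = D.H y0 := D.reH y0
      rw [e1] at this
      exact this
  · have := heq γ y0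
    rw [hc _ y0] at this
    calc D.ρ γ * Pj P0 (D.H y0) = D.ρ γ * Pj P0 (D.H y0) * D.ρ γ⁻¹ * D.ρ γ := by
          rw [Matrix.mul_assoc _ (D.ρ γ⁻¹), D.inv_mul, Matrix.mul_one]
      _ = _ := by rw [← this]
  · have df : DfR (D.H ∘ s) z := (D.sm e he z hz s hs).df
    have e1 : (fun w => (D.H ∘ s) w * Pj P0 (D.H y0)) = fun w => (Pj P0 (D.H y0))ᴴ * (D.H ∘ s) w :=
      funext fun w => hsa _
    have e2 := inv_sa (D.pos (s z)) (hsa _)
    constructor
    · rw [ca, Matrix.mul_assoc, ← dR_mulc df, e1, dR_cmul _ df, ← Matrix.mul_assoc,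
        ← Matrix.mul_assoc]
      exact congrArg (· * _) e2
    · rw [cb, Matrix.mul_assoc, ← dRb_mulc df, e1, dRb_cmul _ df, ← Matrix.mul_assoc,
        ← Matrix.mul_assoc]
      exact congrArg (· * _) e2

end Pool.Agent.Lib.MP_813db1_ag.VH.Co
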