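import Pool.Agent.Lib.MP_813db1_ag.VH.CoStmt
import Pool.Agent.Lib.MP_813db1_ag.VH.Cov

/-! Green's formula for equivariant functions. -/

namespace Pool.Agent.Lib.MP_813db1_ag.VH.Co

open Pool.Agent.Lib.MP_813db1_ag.HS Pool.Agent.Lib.MP_813db1_ag.AS
open MeasureTheory Complex Matrix Filter Topology Set Metric
open scoped ContDiff ComplexOrder

set_option linter.unusedSectionVars false

noncomputable section

namespace Gr

variable {ι κ : Type} [Fintype ι] [DecidableEq ι] [Fintype κ]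

/-- the vector density. -/
def vf (B : V ι → Mat ι) (w u : V ι → V κ) (z : V ι) : V ι :=
  (B z).adjugateᵀ *ᵥ fun j => w z ⬝ᵥ dVb u j z

/-- its divergence, up to the volume density. -/
def hf (B : V ι → Mat ι) (w u : V ι → V κ) (z : V ι) : ℂ :=
  ∑ i, ∑ j, (B z)⁻¹ j i * (dV w i z ⬝ᵥ dVb u j z + w z ⬝ᵥ dV (dVb u j) i z)

/-- the symmetrised integrand. -/
def fu (B : V ι → Mat ι) (w u : V ι → V κ) (z : V ι) : ℂ :=
  ∑ k, (w z k * lapL B (fun x => u x k) z + gr2 B (fun x => w x k) (fun x => u x k) z)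

variable {B : V ι → Mat ι} {w u : V ι → V κ} {z : V ι} {U : Set (V ι)}

theorem cd_vf (hB : CdM 1 B z) (hw : ∀ k, ContDiffAt ℝ 1 (fun x => w x k) z)
    (hu : ∀ k, ContDiffAt ℝ 2 (fun x => u x k) z) : ContDiffAt ℝ 1 (vf B w u) z :=
  contDiffAt_pi.2 fun i => ContDiffAt.sum fun j _ => (hB.adjugate j i).mul
    (ContDiffAt.sum fun k _ => (hw k).mul (contDiffAt_dzb (m := 1) (hu k) le_rfl j))

theorem div_vf (hU : IsOpen U) (hB : KOn B U) (hz : z ∈ U)
    (hw : ∀ k, ContDiffAt ℝ 1 (fun x => w x k) z) (hu : ∀ k, ContDiffAt ℝ 2 (fun x => u x k) z) :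
    ∑ i, dz (fun x => vf B w u x i) i z = ((B z).det.re : ℂ) * hf B w u z := by
  have hi := (hB.1.1.df hz).adjugate
  have d1 : DfV w z := fun k => (hw k).differentiableAt one_ne_zero
  have d2 : ∀ j, DfV (dVb u j) z := fun j k => differentiableAt_dzb (hu k) j
  have e : ∀ i, dz (fun x => vf B w u x i) i z =
      ∑ j, (dz (fun x => (B x).adjugate j i) i z * (w z ⬝ᵥ dVb u j z) +
        (B z).adjugate j i * (dV w i z ⬝ᵥ dVb u j z + w z ⬝ᵥ dV (dVb u j) i z)) := fun i => by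
    have e1 : (fun x => vf B w u x i) =
        fun x => ∑ j, (B x).adjugate j i * (w x ⬝ᵥ dVb u j x) := rfl
    rw [e1, dz_sum _ fun j _ => (hi j i).fun_mul (d1.dot (d2 j))]
    refine Finset.sum_congr rfl fun j _ => ?_
    rw [dz_mul (hi j i) (d1.dot (d2 j)), dz_dot d1 (d2 j)]
  have a : ∀ i j, (B z).adjugate j i = (B z).det * (B z)⁻¹ j i := fun i j => by
    rw [Matrix.inv_def, Ring.inverse_eq_inv', Matrix.smul_apply, smul_eq_mul,
      mul_inv_cancel_left₀ (Green.det_ne (hB.2 z hz))]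
  simp only [e, Finset.sum_add_distrib]
  rw [Finset.sum_comm]
  simp only [← Finset.sum_mul, AY.curvS'.adj ι B U hU hB.1 z hz, zero_mul, Finset.sum_const_zero,
    zero_add]
  rw [det_re_herm (hB.2 z hz).1, hf]
  simp only [Finset.mul_sum, a, mul_assoc]

theorem sym (hB : (B z).IsHermitian) (hu : ∀ k, ContDiffAt ℝ 2 (fun x => u x k) z) :
    (hf B w u z + star (hf B (fun x => star (w x)) (fun x => star (u x)) z)) / 2 = fu B w u z := by
  have e1 : ∀ j, dVb (fun x => star (u x)) j = fun x => star (dV u j x) := fun j =>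
    funext fun x => dVb_star u j x
  have e2 : ∀ i j, dVb (dV u j) i z = dV (dVb u i) j z := fun i j =>
    funext fun k => (dz_dzb_comm (hu k) j i).symm
  have e : star (hf B (fun x => star (w x)) (fun x => star (u x)) z) =
      ∑ i, ∑ j, (B z)⁻¹ j i * (dVb w j z ⬝ᵥ dV u i z + w z ⬝ᵥ dV (dVb u j) i z) := by
    rw [hf, Finset.sum_comm, star_sum]
    refine Finset.sum_congr rfl fun i _ => ?_
    rw [star_sum]
    refine Finset.sum_congr rfl fun j _ => ?_
    rw [star_mul', hB.inv.apply j i, e1, dV_star, dV_star, e2]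
    simp only [dotProduct, star_add, star_sum, star_mul', Pi.star_apply, star_star]
  rw [e, hf, fu]
  simp only [Green.lapL_eq, gr2, dotProduct, dV, dVb, ← Finset.sum_add_distrib, Finset.mul_sum,
    Finset.sum_div]
  rw [Finset.sum_comm (s := (Finset.univ : Finset κ))]
  refine Finset.sum_congr rfl fun i _ => ?_
  rw [Finset.sum_comm (s := (Finset.univ : Finset κ))]
  refine Finset.sum_congr rfl fun j _ => Finset.sum_congr rfl fun k _ => ?_
  have : (fun x => dzb (fun x => u x k) j x) = dzb (fun x => u x k) j := rfl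
  rw [this]
  ring

variable {X Y G : Type} [TopologicalSpace X] [T2Space X] [CompactSpace X] [MeasurableSpace X]
  [BorelSpace X] [TopologicalSpace Y] [Group G] [MulAction G Y] {M : Atl ι X} {p : Y → X}
  {g : X → Mat ι} {μ : Measure X} {a b : Y → V κ} {R : G → Mat κ} {k : G → V κ}

theorem half (hq : IsQuotientCoveringMap p G) (hg : M.IsK g) (hμ : M.IsVol g μ)
    (ha : Loc M p fun _ z s => ∀ j, ContDiffAt ℝ 2 (fun x => a (s x) j) z)
    (hb : Loc M p fun _ z s => ∀ j, ContDiffAt ℝ 1 (fun x => b (s x) j) z)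
    (he : ∀ (γ : G) y, a (γ • y) = R γ *ᵥ a y + k γ ∧ b (γ • y) ᵥ* R γ = b y) :
    ∃ d : X → ℂ, Continuous d ∧ ∫ x, d x ∂μ = 0 ∧
      Loc M p fun e z s => d (e.symm z) = hf (M.repF g e) (b ∘ s) (a ∘ s) z := by
  have da : Loc M p fun _ z s => DfV (a ∘ s) z := ha.mono fun _ _ _ h j =>
    (h j).differentiableAt two_ne_zero
  obtain ⟨d, d1, d2, d3⟩ := stokes hq hg hμ (fun e z s => vf (M.repF g e) (b ∘ s) (a ∘ s) z)
    (fun e z s e' z' s' t => by
      have := Green.adj_pull (tj e e' (e.symm z)) (M.repF g e' z')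
        fun j => (b ∘ s') z' ⬝ᵥ dVb (a ∘ s') j z'
      rw [← t.repF g] at this
      refine Eq.trans (congrArg (fun v => tj e e' (e.symm z) *ᵥ ((M.repF g e z).adjugateᵀ *ᵥ v))
        (funext fun j => ?_)) this
      rw [t.dVb (lh hq) (da _ t.he' _ t.hz' _ t.hs') j, dotProduct_sum]
      simp only [Function.comp_apply, t.eq, dotProduct_smul, smul_eq_mul]
      exact Finset.sum_congr rfl fun l _ => mul_comm _ _)
    (fun e h1 z h2 s h3 γ => by
      refine congrArg (fun v => (M.repF g e z).adjugateᵀ *ᵥ v) (funext fun j => ?_)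
      have e1 : (a ∘ fun x => γ • s x) = fun x => R γ *ᵥ (a ∘ s) x + k γ :=
        funext fun x => (he γ _).1
      have hx := da e h1 z h2 s h3
      rw [e1, dVb_add ((DfR.const _).mulVec hx) (DfV.const _), dVb_const, add_zero,
        dVb_cmulVec _ hx, dotProduct_mulVec]
      exact congrArg (· ⬝ᵥ _) (he γ _).2)
    fun e h1 z h2 s h3 => cd_vf (((hg e h1).1.1.cd2 h2).of_le one_le_two) (hb e h1 z h2 s h3)
      (ha e h1 z h2 s h3)
  refine ⟨d, d1, d2, fun e h1 z h2 s h3 => ?_⟩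
  have := (d3 e h1 z h2 s h3).symm.trans (div_vf e.open_target (hg e h1) h2 (hb e h1 z h2 s h3)
    (ha e h1 z h2 s h3))
  exact mul_left_cancel₀ (ofReal_ne_zero.2 (Green.det_pos ((hg e h1).2 z h2)).ne') this

theorem full (hq : IsQuotientCoveringMap p G) (hg : M.IsK g) (hμ : M.IsVol g μ)
    (ha : Loc M p fun _ z s => ∀ j, ContDiffAt ℝ 2 (fun x => a (s x) j) z)
    (hb : Loc M p fun _ z s => ∀ j, ContDiffAt ℝ 1 (fun x => b (s x) j) z)
    (he : ∀ (γ : G) y, a (γ • y) = R γ *ᵥ a y + k γ ∧ b (γ • y) ᵥ* R γ = b y) :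
    ∃ d : X → ℂ, Continuous d ∧ ∫ x, d x ∂μ = 0 ∧
      Loc M p fun e z s => d (e.symm z) = fu (M.repF g e) (b ∘ s) (a ∘ s) z := by
  obtain ⟨d, d1, d2, d3⟩ := half hq hg hμ ha hb he
  obtain ⟨f, f1, f2, f3⟩ := half (a := fun y => star (a y)) (b := fun y => star (b y))
    (R := fun γ => (R γ).map star) (k := fun γ => star (k γ)) hq hg hμ
    (ha.mono fun _ _ _ h j => Green.cd_star (h j)) (hb.mono fun _ _ _ h j => Green.cd_star (h j))
    fun γ y => ⟨by rw [(he γ y).1, star_add, Dt.star_mulVec'], by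
      rw [← (he γ y).2]
      funext i
      simp [vecMul, dotProduct]⟩
  have := ((AY.volS' ι X M g hg).2 μ hμ).fin
  have i1 : ∀ {φ : X → ℂ}, Continuous φ → Integrable φ μ := fun h =>
    h.integrable_of_hasCompactSupport (HasCompactSupport.of_compactSpace _)
  refine ⟨fun x => (d x + star (f x)) / 2, (d1.add f1.star).div_const 2, ?_,
    fun e h1 z h2 s h3 => ?_⟩
  · have e : ∫ x, star (f x) ∂μ = 0 := by
      have := integral_conj (μ := μ) (f := f)
      rw [f2, map_zero] at this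
      exact this
    rw [integral_div, integral_add (i1 d1) (i1 f1.star), d2, e, add_zero, zero_div]
  · exact (congrArg₂ (fun t t' => (t + star t') / 2) (d3 e h1 z h2 s h3)
      (f3 e h1 z h2 s h3)).trans (sym (u := a ∘ s) ((hg e h1).2 z h2).1 (ha e h1 z h2 s h3))

variable {c : Sx ι X Y G}

theorem vecG (hb : c.Bs) (hμ : c.M.IsVol c.g μ) (u w : Y → κ → ℂ) (R : G → Mat κ)
    (k : G → κ → ℂ) (hu : c.CkV 2 u) (hw : c.CkV 1 w)
    (he : ∀ (γ : G) y, u (γ • y) = R γ *ᵥ u y + k γ ∧ w (γ • y) ᵥ* R γ = w y) :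
    Continuous (fun x => ∑ j, (w (c.lf x) j * c.lapV u (c.lf x) j +
      c.gr (fun y => w y j) (fun y => u y j) (c.lf x))) ∧
    ∫ x, ∑ j, (w (c.lf x) j * c.lapV u (c.lf x) j +
      c.gr (fun y => w y j) (fun y => u y j) (c.lf x)) ∂μ = 0 := by
  obtain ⟨d, d1, d2, d3⟩ := full c.hq c.hg hμ (fun e h1 z h2 s h3 j => hu j e h1 z h2 s h3)
    (fun e h1 z h2 s h3 j => hw j e h1 z h2 s h3) he
  have e : (fun x => ∑ j, (w (c.lf x) j * c.lapV u (c.lf x) j +
      c.gr (fun y => w y j) (fun y => u y j) (c.lf x))) = d := funext fun x => by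
    obtain ⟨h1, h2, h3⟩ := hb.a.self (c.lf x)
    refine Eq.trans ?_ ((d3 _ (c.M.ch_mem _) _ h1 _ h2).symm.trans
      (congrArg d (by rw [← sec_pt h2, h3, hb.a.lf])))
    refine Finset.sum_congr rfl fun j _ => ?_
    rw [Function.comp_apply, h3]
    rfl
  rw [e]
  exact ⟨d1, d2⟩

variable {r : Type} [Fintype r] [DecidableEq r]

theorem matG (h : Al) (hb : c.Bs) (hμ : c.M.IsVol c.g μ) (u w : Y → Mat r) (R R' : G → Mat r)
    (hu : c.CkM 2 u) (hw : c.CkM 1 w)
    (he : ∀ (γ : G) y, u (γ • y) = R γ * u y * R' γ ∧ R' γ * w (γ • y) * R γ = w y) :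
    Continuous (fun x => trace (w (c.lf x) * c.lM u (c.lf x) + c.qM w 1 u (c.lf x))) ∧
    ∫ x, trace (w (c.lf x) * c.lM u (c.lf x) + c.qM w 1 u (c.lf x)) ∂μ = 0 := by
  have := vecG hb hμ (fun y (q : r × r) => u y q.1 q.2) (fun y q => w y q.2 q.1)
    (fun γ => Matrix.of fun q q' => R γ q.1 q'.1 * R' γ q'.2 q.2) 0 (fun q => hu q.1 q.2)
    (fun q => hw q.2 q.1) fun γ y => ⟨by
      funext q
      simp only [(he γ y).1, mul_apply, mulVec, dotProduct, Pi.add_apply, Pi.zero_apply, add_zero,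
        of_apply, Fintype.sum_prod_type, Finset.sum_mul]
      rw [Finset.sum_comm]
      exact Finset.sum_congr rfl fun _ _ => Finset.sum_congr rfl fun _ _ => by ring, by
      funext q
      simp only [← (he γ y).2, mul_apply, vecMul, dotProduct, of_apply, Fintype.sum_prod_type,
        Finset.sum_mul]
      exact Finset.sum_congr rfl fun _ _ => Finset.sum_congr rfl fun _ _ => by ring⟩
  have e : ∀ y, trace (w y * c.lM u y + c.qM w 1 u y) = ∑ q : r × r,
      (w y q.2 q.1 * c.lapV (fun y (q : r × r) => u y q.1 q.2) y q +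
        c.gr (fun y => w y q.2 q.1) (fun y => u y q.1 q.2) y) := fun y => by
    rw [Fintype.sum_prod_type, Finset.sum_comm]
    refine Finset.sum_congr rfl fun j _ => ?_
    rw [diag_apply, Matrix.add_apply, mul_apply, Sx.qM, h.dv.ent, ← Finset.sum_add_distrib]
    refine Finset.sum_congr rfl fun i _ => congrArg₂ (· + ·) rfl ?_
    simp only [one_apply, ite_mul, one_mul, zero_mul, Finset.sum_ite_eq, Finset.mem_univ, if_true]
    rfl
  simp only [e]
  exact this

omit [Fintype κ] in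
theorem qM_inv {F : V ι → Mat r} (h : DfR F z) (h' : DfR (fun x => (F x)⁻¹) z)
    (h0 : ∀ x, (F x).det ≠ 0) :
    qM B (fun x => (F x)⁻¹) 1 F z = -((F z)⁻¹ * qM B F (F z)⁻¹ F z) := by
  have e : (fun x => F x * (F x)⁻¹) = fun _ => 1 := funext fun x => mul_nonsing_inv _ (h0 x).isUnit
  have e1 : ∀ i, dR (fun x => (F x)⁻¹) i z = -((F z)⁻¹ * dR F i z * (F z)⁻¹) := fun i =>
    inv_of_deriv (h0 z) ((dR_mul h h' i).symm.trans (by rw [e, dR_const]))
  have e2 : ∀ i, dRb (fun x => (F x)⁻¹) i z = -((F z)⁻¹ * dRb F i z * (F z)⁻¹) := fun i =>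
    inv_of_deriv (h0 z) ((dRb_mul h h' i).symm.trans (by rw [e, dRb_const]))
  simp only [qM, e1, e2, Matrix.mul_one, Matrix.mul_smul, Matrix.mul_sum, Matrix.mul_add,
    Matrix.neg_mul, Matrix.mul_assoc, ← smul_neg, ← Finset.sum_neg_distrib, neg_add]

theorem tenG (h : Al) (hb : c.Bs) (hμ : c.M.IsVol c.g μ) (u : Y → Mat r) (R R' : G → Mat r)
    (hu : c.CkM 2 u) (h0 : ∀ y, (u y).det ≠ 0) (he : ∀ (γ : G) y, u (γ • y) = R γ * u y * R' γ) :
    Continuous (fun x => trace ((u (c.lf x))⁻¹ * c.ten u (c.lf x))) ∧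
    ∫ x, trace ((u (c.lf x))⁻¹ * c.ten u (c.lf x)) ∂μ = 0 := by
  have hw : c.CkM 1 fun y => (u y)⁻¹ := fun i j e h1 z h2 s h3 =>
    (h.dv.cm ι r 1 (fun x => u (s x)) (fun x => u (s x)) z
      (fun i j => (hu i j e h1 z h2 s h3).of_le one_le_two)
      fun i j => (hu i j e h1 z h2 s h3).of_le one_le_two).2.2.2.2.1 (h0 _) i j
  have := matG h hb hμ u (fun y => (u y)⁻¹) R R' hu hw fun γ y => ⟨he γ y, by
    refine (inv_eq_right_inv ?_).symm
    have e := mul_nonsing_inv _ (h0 (γ • y)).isUnit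
    nth_rw 1 [he γ y] at e
    rw [Matrix.mul_assoc, Matrix.mul_assoc, mul_eq_one_comm] at e
    rw [← e]
    simp only [Matrix.mul_assoc]⟩
  have e : ∀ y, (u y)⁻¹ * c.lM u y + c.qM (fun y => (u y)⁻¹) 1 u y = (u y)⁻¹ * c.ten u y :=
    fun y => by
      have k := qM_inv (B := c.Gp y) (F := c.rd u y) (z := c.pt y)
        (fun i j => (hb.a.at_ 2 _ y (hu i j)).differentiableAt two_ne_zero)
        (fun i j => (hb.a.at_ 1 _ y (hw i j)).differentiableAt one_ne_zero) fun x => h0 _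
      rw [show c.rd u y (c.pt y) = u y from congrArg u (hb.a.self y).2.2] at k
      rw [Sx.ten, Matrix.mul_sub, sub_eq_add_neg]
      exact congrArg _ k
  simp only [e] at this
  exact this

end Gr

variable {ι X Y G : Type} [Fintype ι] [DecidableEq ι] [TopologicalSpace X] [T2Space X]
  [CompactSpace X] [MeasurableSpace X] [BorelSpace X] [TopologicalSpace Y] [Group G]
  [MulAction G Y] {c : Sx ι X Y G} {μ : Measure X}

/-- Green's formula. -/
theorem grS (h : Al) (hb : c.Bs) (hμ : c.M.IsVol c.g μ) : c.GrS μ where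
  vec _ _ u w R k := Gr.vecG hb hμ u w R k
  mat _ _ _ u w R R' := Gr.matG h hb hμ u w R R'
  ten _ _ _ u R R' := Gr.tenG h hb hμ u R R'

end

end Pool.Agent.Lib.MP_813db1_ag.VH.Co
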