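import Pool.Agent.Lib.MP_813db1_ag.VH.CoStmt

/-! Hoelder calculus of matrix functions. -/

namespace Pool.Agent.Lib.MP_813db1_ag.VH.Co

open Pool.Agent.Lib.MP_813db1_ag.HS Pool.Agent.Lib.MP_813db1_ag.AS
open Complex Matrix Filter Topology Set
open scoped ContDiff

namespace Hm

variable {ι r : Type} [Fintype ι] [Fintype r] {U : Set (V ι)} {a b a' b' L : ℝ}

theorem tame {k f : V ι → ℂ} (hk : Hol a k U) (hf : Hol b f U) (hk' : ∀ z ∈ U, ‖k z‖ ≤ a')
    (hf' : ∀ z ∈ U, ‖f z‖ ≤ b') : Hol (a * b' + a' * b) (fun z => k z * f z) U := by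
  refine ⟨fun z hz => ?_, fun z hz w hw => ?_⟩
  · rw [norm_mul]
    exact (mul_le_mul (hk.1 z hz) (hf' z hz) (norm_nonneg _) (hk.nonneg hz)).trans
      (le_add_of_nonneg_right (mul_nonneg ((norm_nonneg _).trans (hk' z hz)) (hf.nonneg hz)))
  · rw [show k z * f z - k w * f w = (k z - k w) * f z + k w * (f z - f w) by ring]
    refine (norm_add_le _ _).trans ?_
    rw [norm_mul, norm_mul]
    have h1 := mul_le_mul (hk.2 z hz w hw) (hf' z hz) (norm_nonneg _)
      ((norm_nonneg _).trans (hk.2 z hz w hw))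
    have h2 := mul_le_mul (hk' w hw) (hf.2 z hz w hw) (norm_nonneg _)
      ((norm_nonneg _).trans (hk' w hw))
    linarith

section Sums

variable {W : Type} [NormedAddCommGroup W] {f : r → V ι → W}

theorem sum0 (h : ∀ j, Hol a (f j) U) : Hol (Fintype.card r * a) (fun z => ∑ j, f j z) U := by
  simpa using Hol.sum Finset.univ fun j _ => h j

variable [NormedSpace ℝ W]

theorem sum1 (h : ∀ j, Hol1 a (f j) U) : Hol1 (Fintype.card r * a) (fun z => ∑ j, f j z) U :=
  ⟨fun z hz => DifferentiableAt.fun_sum fun j _ => (h j).1 z hz, sum0 fun j => (h j).2.1,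
    (sum0 fun j => (h j).2.2).congr fun z hz => fderiv_fun_sum fun j _ => (h j).1 z hz⟩

theorem mono1 {g : V ι → W} (h : Hol1 a g U) (e : a ≤ b) : Hol1 b g U :=
  ⟨h.1, h.2.1.mono e, h.2.2.mono e⟩

variable [NormedSpace ℂ W] [IsScalarTower ℝ ℂ W] {k : V ι → ℂ} {g : V ι → W}

theorem ns_le : ‖-(ContinuousLinearMap.lsmul ℝ ℂ : ℂ →L[ℝ] W →L[ℝ] W)‖ ≤ 1 :=
  (norm_neg _).trans_le ContinuousLinearMap.opNorm_lsmul_le

theorem smul0 (hk : Hol a k U) (h : Hol b g U) : Hol (2 * a * b) (fun z => -(k z • g z)) U :=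
  Hol.bilin _ ns_le hk h

theorem smul1 (hk : Hol1 a k U) (h : Hol1 b g U) : Hol1 (4 * a * b) (fun z => -(k z • g z)) U :=
  Hol1.bilin _ ns_le hk h

end Sums

variable {F K N : V ι → Mat r}

theorem mul0 (hF : HM a F U) (hK : HM b K U) :
    HM (2 * Fintype.card r * a * b) (fun z => F z * K z) U := fun i j =>
  (sum0 fun k => (hF i k).mul (hK k j)).mono (le_of_eq (by ring))

theorem mul1 (hF : HM1 a F U) (hK : HM1 b K U) :
    HM1 (4 * Fintype.card r * a * b) (fun z => F z * K z) U := fun i j =>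
  mono1 (sum1 fun k => Hol1.bilin (ContinuousLinearMap.mul ℝ ℂ)
    (ContinuousLinearMap.opNorm_mul_le ℝ ℂ) (hF i k) (hK k j)) (le_of_eq (by ring))

theorem mul2 (hF : HM2 a F U) (hK : HM2 b K U) :
    HM2 (8 * Fintype.card r * a * b) (fun z => F z * K z) U := fun i j =>
  (Hol2.sum Finset.univ fun k _ => (hF i k).mul (hK k j)).mono (le_of_eq (by simp; ring))

theorem tameM (hF : HM a F U) (hK : HM b K U) (hF' : ∀ z ∈ U, Bd a' (F z))
    (hK' : ∀ z ∈ U, Bd b' (K z)) :
    HM (Fintype.card r * (a * b' + a' * b)) (fun z => F z * K z) U := fun i j =>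
  sum0 fun k => tame (hF i k) (hK k j) (fun z hz => hF' z hz i k) fun z hz => hK' z hz k j

theorem bd_mul {A B : Mat r} (hA : Bd a A) (hB : Bd b B) : Bd (Fintype.card r * (a * b)) (A * B) :=
  fun i j => (norm_sum_le _ _).trans ((Finset.sum_le_card_nsmul _ _ _ fun k _ =>
    (norm_mul_le _ _).trans (mul_le_mul (hA i k) (hB k j) (norm_nonneg _)
      ((norm_nonneg _).trans (hA i k)))).trans_eq (by simp))

section Inv

variable [DecidableEq r]

theorem cd_det {E : Type} [NormedAddCommGroup E] [NormedSpace ℝ E] {n : WithTop ℕ∞}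
    {G : E → Mat r} {z : E} (h : ∀ i j, ContDiffAt ℝ n (fun w => G w i j) z) :
    ContDiffAt ℝ n (fun w => (G w).det) z := by
  simp only [Matrix.det_apply']
  exact ContDiffAt.sum fun σ _ => contDiffAt_const.mul (contDiffAt_prod fun i _ => h _ _)

theorem cd_inv {E : Type} [NormedAddCommGroup E] [NormedSpace ℝ E] {n : WithTop ℕ∞}
    {G : E → Mat r} {z : E} (h : ∀ i j, ContDiffAt ℝ n (fun w => G w i j) z) (hd : (G z).det ≠ 0)
    (i j : r) : ContDiffAt ℝ n (fun w => (G w)⁻¹ i j) z := by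
  simp only [Matrix.inv_def, Ring.inverse_eq_inv', Matrix.smul_apply, smul_eq_mul,
    Matrix.adjugate_apply]
  refine ((cd_det h).inv hd).mul (cd_det fun a b => ?_)
  simp only [Matrix.updateRow_apply]
  split_ifs
  exacts [contDiffAt_const, h a b]

theorem df_inv {z : V ι} (h : ∀ i j, DifferentiableAt ℝ (fun w => F w i j) z) (hd : (F z).det ≠ 0)
    (i j : r) : DifferentiableAt ℝ (fun w => (F w)⁻¹ i j) z :=
  ((cd_inv (n := 1) (G := fun A : r → r → ℂ => Matrix.of A) (z := fun i j => F z i j)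
    (fun _ _ => by simp only [Matrix.of_apply]; fun_prop) hd i j).differentiableAt
      one_ne_zero).comp (f := fun w i j => F w i j) z
        (differentiableAt_pi.2 fun i => differentiableAt_pi.2 fun j => h i j)

theorem inv_sub {A B : Mat r} (hA : A.det ≠ 0) (hB : B.det ≠ 0) :
    A⁻¹ - B⁻¹ = B⁻¹ * (B - A) * A⁻¹ := by
  rw [Matrix.mul_sub, Matrix.sub_mul, nonsing_inv_mul _ hB.isUnit, Matrix.one_mul,
    mul_nonsing_inv_cancel_right _ _ hA.isUnit]

theorem fd_inv (hU : IsOpen U) (hd : ∀ z ∈ U, (F z).det ≠ 0) {z : V ι} (hz : z ∈ U)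
    (h : ∀ i j, DifferentiableAt ℝ (fun w => F w i j) z) (i j : r) :
    fderiv ℝ (fun w => (F w)⁻¹ i j) z =
      ∑ l, ∑ k, -(((F z)⁻¹ i k * (F z)⁻¹ l j) • fderiv ℝ (fun w => F w k l) z) := by
  have e : (fun w => (F w)⁻¹ i j) =ᶠ[𝓝 z] fun w => (F z)⁻¹ i j +
      ∑ l, ∑ k, (F z)⁻¹ i k * (F z k l - F w k l) * (F w)⁻¹ l j := by
    filter_upwards [hU.mem_nhds hz] with w hw
    have := congrFun (congrFun (inv_sub (hd w hw) (hd z hz)) i) j
    simp only [Matrix.sub_apply, Matrix.mul_apply, Finset.sum_mul] at this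
    linear_combination this
  refine ((HasFDerivAt.fun_sum fun l _ => HasFDerivAt.fun_sum fun k _ =>
    (((h k l).hasFDerivAt.const_sub (F z k l)).const_mul ((F z)⁻¹ i k)).mul
      (df_inv h (hd z hz) l j).hasFDerivAt).const_add _ |>.congr_of_eventuallyEq e).fderiv.trans ?_
  refine Finset.sum_congr rfl fun l _ => Finset.sum_congr rfl fun k _ => ?_
  ext v
  simp
  ring

theorem inv0 (hL : 0 ≤ L) (hd : ∀ z ∈ U, (F z).det ≠ 0 ∧ Bd L (F z)⁻¹) (h : HM L F U) :
    HM (L + Fintype.card r * (Fintype.card r * (L * L) * L)) (fun z => (F z)⁻¹) U := fun i j => by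
  refine ⟨fun z hz => ((hd z hz).2 i j).trans (le_add_of_nonneg_right (by positivity)),
    fun z hz w hw => ?_⟩
  have h1 := bd_mul (bd_mul (hd w hw).2 (b := L * √‖z - w‖) (B := F w - F z) fun k l => by
    rw [← norm_neg, Matrix.sub_apply, neg_sub]
    exact (h k l).2 z hz w hw) (hd z hz).2 i j
  rw [← inv_sub (hd z hz).1 (hd w hw).1] at h1
  have h2 : 0 ≤ L * √‖z - w‖ := by positivity
  refine h1.trans ?_
  linarith

theorem inv1 (hU : IsOpen U) (hd : ∀ z ∈ U, (F z).det ≠ 0) (ha : 0 ≤ a) (hL : 0 ≤ L)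
    (h0 : HM a (fun z => (F z)⁻¹) U) (h : HM1 L F U) :
    HM1 (a + Fintype.card r * (Fintype.card r * (2 * (2 * a * a) * L))) (fun z => (F z)⁻¹) U :=
  fun i j => ⟨fun z hz => df_inv (fun k l => (h k l).1 z hz) (hd z hz) i j,
    (h0 i j).mono (le_add_of_nonneg_right (by positivity)),
    ((sum0 fun l => sum0 fun k => smul0 ((h0 i k).mul (h0 l j)) (h k l).2.2).congr
      fun z hz => fd_inv hU hd hz (fun k l => (h k l).1 z hz) i j).mono (le_add_of_nonneg_left ha)⟩

theorem inv2 (hU : IsOpen U) (hd : ∀ z ∈ U, (F z).det ≠ 0) (ha : 0 ≤ a) (hL : 0 ≤ L)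
    (h0 : HM1 a (fun z => (F z)⁻¹) U) (h : HM2 L F U) :
    HM2 (a + Fintype.card r * (Fintype.card r * (4 * (4 * a * a) * L))) (fun z => (F z)⁻¹) U :=
  fun i j => hol2_of (fun z hz => cd_inv (fun k l => (h k l).1 z hz) (hd z hz) i j)
    ((h0 i j).2.1.mono (le_add_of_nonneg_right (by positivity)))
    (mono1 (sum1 fun l => sum1 fun k => smul1 (Hol1.bilin (ContinuousLinearMap.mul ℝ ℂ)
      (ContinuousLinearMap.opNorm_mul_le ℝ ℂ) (h0 i k) (h0 l j)) (h k l).hol1')
      (le_add_of_nonneg_left ha))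
    fun _ hz => eventually_of_mem (hU.mem_nhds hz) fun w hw =>
      fd_inv hU hd hw (fun k l => (h k l).hol1.1 w hw) i j

end Inv

variable [DecidableEq ι] {G : V ι → Mat ι}

theorem ctr (hG : HolM L (fun z => (G z)⁻¹) U) {f : ι → ι → V ι → ℂ} (h : ∀ i j, Hol a (f i j) U) :
    Hol (Fintype.card ι * (Fintype.card ι * (2 * |L|)) * a)
      (fun z => ∑ i, ∑ j, (G z)⁻¹ j i * f i j z) U :=
  (sum0 fun i => sum0 fun j => ((hG j i).mono (le_abs_self L)).mul (h i j)).mono
    (le_of_eq (by ring))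

omit [DecidableEq ι] in
theorem half {f : V ι → ℂ} (h : Hol (a + a) f U) : Hol a (fun z => 1 / 2 * f z) U :=
  (h.const_mul _).mono (le_of_eq (by simp; ring))

theorem hz {f : V ι → ℂ} (h : Hol1 a f U) (i : ι) : Hol a (dz f i) U :=
  hol_iff.2 ((hol_iff.1 h.2.2).dz zero_le_one i)

theorem hzb {f : V ι → ℂ} (h : Hol1 a f U) (i : ι) : Hol a (dzb f i) U :=
  hol_iff.2 ((hol_iff.1 h.2.2).dzb zero_le_one i)

omit [Fintype r] in
theorem hR (h : HM1 a F U) (i : ι) : HM a (dR F i) U := fun p q => hz (h p q) i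

omit [Fintype r] in
theorem hRb (h : HM1 a F U) (i : ι) : HM a (dRb F i) U := fun p q => hzb (h p q) i

theorem qq [DecidableEq r] (hG : HolM L (fun z => (G z)⁻¹) U)
    (h1 : ∀ i j, HM a (fun z => dR F i z * N z * dRb K j z) U)
    (h2 : ∀ i j, HM a (fun z => dRb F j z * N z * dR K i z) U) :
    HM (Fintype.card ι * (Fintype.card ι * (2 * |L|)) * a) (fun z => qM G F (N z) K z) U :=
  fun p q => (half ((ctr hG fun i j => (h1 i j p q).add (h2 i j p q)).mono
    (le_of_eq (mul_add _ _ _)))).congr fun z _ => by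
      simp only [qM, Matrix.smul_apply, Matrix.sum_apply, Matrix.add_apply, smul_eq_mul]

omit [DecidableEq ι] in
theorem tm (h1 : HM a F U) (h2 : HM L N U) (h3 : HM a K U) (b1 : ∀ z ∈ U, Bd L (F z))
    (b3 : ∀ z ∈ U, Bd L (K z)) :
    HM (3 * (Fintype.card r * L) ^ 2 * a) (fun z => F z * N z * K z) U := fun i j =>
  (tameM (mul0 h1 h2) h3 (fun z hz => bd_mul (b1 z hz) fun k l => (h2 k l).1 z hz) b3 i j).mono
    (le_of_eq (by ring))

end Hm

open Hm in
theorem hmS : HmS where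
  mul _ _ _ _ _ _ _ _ _ := ⟨mul0, mul1, mul2⟩
  tame _ _ _ _ _ _ _ _ _ _ _ := tameM
  inv ι r _ _ _ L := by
    have hL := abs_nonneg L
    obtain ⟨c0, e0⟩ : ∃ c : ℝ, c = |L| + Fintype.card r * (Fintype.card r * (|L| * |L|) * |L|) :=
      ⟨_, rfl⟩
    obtain ⟨c1, e1⟩ : ∃ c : ℝ,
      c = c0 + Fintype.card r * (Fintype.card r * (2 * (2 * c0 * c0) * |L|)) := ⟨_, rfl⟩
    have p0 : 0 ≤ c0 := by rw [e0]; positivity
    have p1 : c0 ≤ c1 := e1 ▸ le_add_of_nonneg_right (by positivity)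
    have p2 := p0.trans p1
    have p3 : c1 ≤ c1 + Fintype.card r * (Fintype.card r * (4 * (4 * c1 * c1) * |L|)) :=
      le_add_of_nonneg_right (by positivity)
    refine ⟨_, p2.trans p3, fun U F hU hd => ?_⟩
    have h0 : HM L F U → HM c0 (fun z => (F z)⁻¹) U := fun h => e0 ▸ inv0 hL
      (fun z hz => ⟨(hd z hz).1, fun i j => ((hd z hz).2 i j).trans (le_abs_self L)⟩)
      fun i j => (h i j).mono (le_abs_self L)
    have h1 : HM1 L F U → HM1 c1 (fun z => (F z)⁻¹) U := fun h => e1 ▸ inv1 hU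
      (fun z hz => (hd z hz).1) p0 hL (h0 fun i j => (h i j).2.1)
      fun i j => mono1 (h i j) (le_abs_self L)
    exact ⟨fun h i j => (h0 h i j).mono (p1.trans p3), fun h i j => mono1 (h1 h i j) p3,
      fun h => inv2 hU (fun z hz => (hd z hz).1) p2 hL (h1 fun i j => (h i j).hol1)
        fun i j => (h i j).mono (le_abs_self L)⟩
  q ι r _ _ _ L := by
    classical
    exact ⟨Fintype.card ι * (Fintype.card ι * (2 * |L|)) * (2 * Fintype.card r) ^ 2,
      by positivity, fun U G F K N a b n hG hF hK hN p q =>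
      (qq hG (fun i j => mul0 (mul0 (hR hF i) hN) (hRb hK j))
        (fun i j => mul0 (mul0 (hRb hF j) hN) (hR hK i)) p q).mono (le_of_eq (by ring))⟩
  qt ι r _ _ _ L := by
    classical
    refine ⟨Fintype.card ι * (Fintype.card ι * (2 * |L|)) * (3 * (Fintype.card r * L) ^ 2),
      by positivity, fun U G F N a hG hF hN h p q => ?_⟩
    have b1 : ∀ i, ∀ z ∈ U, Bd L (dR F i z) := fun i z hz k l =>
      (congrArg norm (dz_eq _ i z)).trans_le
        (((dzL i).le_of_opNorm_le (norm_dzL i) _).trans ((one_mul _).trans_le (h z hz k l)))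
    have b2 : ∀ i, ∀ z ∈ U, Bd L (dRb F i z) := fun i z hz k l =>
      (congrArg norm (dzb_eq _ i z)).trans_le
        (((dzbL i).le_of_opNorm_le (norm_dzbL i) _).trans ((one_mul _).trans_le (h z hz k l)))
    exact (qq hG (fun i j => tm (hR hF i) hN (hRb hF j) (b1 i) (b2 j))
      (fun i j => tm (hRb hF j) hN (hR hF i) (b2 j) (b1 i)) p q).mono (le_of_eq (by ring))
  gr ι _ _ L := ⟨Fintype.card ι * (Fintype.card ι * (2 * |L|)) * 2, by positivity,
    fun U G f h a b hG hf hh => (half ((ctr hG fun i j => ((hz hf i).mul (hzb hh j)).add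
      ((hzb hf j).mul (hz hh i))).mono (le_of_eq (by ring)))).congr fun z _ => by
        rw [gr2]; ring⟩
  lap ι _ _ L := ⟨Fintype.card ι * (Fintype.card ι * (2 * |L|)), by positivity,
    fun U G f a hG hf => (ctr hG hf.levi).congr fun z _ => by
      simp only [lapL, trace, diag, Matrix.mul_apply, mul_comm]⟩

end Pool.Agent.Lib.MP_813db1_ag.VH.Co
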