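import Pool.Agent.Lib.MP_813db1_ag.VH.CoStmt

/-! A Groenwall bound for positive matrix functions; interpolation and compactness in the Hoelder
classes. -/

namespace Pool.Agent.Lib.MP_813db1_ag.VH.Co

open Pool.Agent.Lib.MP_813db1_ag.HS Pool.Agent.Lib.MP_813db1_ag.AS
open MeasureTheory Complex Matrix Filter Topology Set Metric
open scoped ContDiff ComplexOrder

namespace It

variable {ι : Type} [Fintype ι] {W : Type} [NormedAddCommGroup W]

lemma der {r : Type} [Fintype r] {H : V ι → Mat r} {w v : V ι} {t : ℝ} (h : CM 1 H (w + t • v))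
    (ξ : r → ℂ) : HasDerivAt (fun s : ℝ => ip (H (w + s • v)) ξ ξ)
      (ip (dv H v (w + t • v)) ξ ξ) t := by
  have a : HasDerivAt (fun s : ℝ => w + s • v) v t := by
    simpa using ((hasDerivAt_id t).smul_const v).const_add w
  have b : ∀ i j, HasDerivAt (fun s : ℝ => H (w + s • v) i j) (dv H v (w + t • v) i j) t :=
    fun i j => HasFDerivAt.comp_hasDerivAt (l := fun u => H u i j) (f := fun s : ℝ => w + s • v) t
      ((h i j).differentiableAt one_ne_zero).hasFDerivAt a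
  have c : HasDerivAt (fun s : ℝ => star ξ ⬝ᵥ H (w + s • v) *ᵥ ξ)
      (star ξ ⬝ᵥ dv H v (w + t • v) *ᵥ ξ) t :=
    HasDerivAt.fun_sum fun i _ => HasDerivAt.const_mul _
      (HasDerivAt.fun_sum fun j _ => (b i j).mul_const _)
  exact reCLM.hasFDerivAt.comp_hasDerivAt t c

lemma ip_lin {r : Type} [Fintype r] (c : ℝ) (A B : Mat r) (ξ : r → ℂ) :
    ip ((c : ℂ) • A - B) ξ ξ = c * ip A ξ ξ - ip B ξ ξ := by
  simp [ip, sub_mulVec, smul_mulVec]

lemma shrink {R e : ℝ} (he : 0 < e) (h1 : e ≤ R) {z : V ι} (hz : z ∈ ball (0 : V ι) R) :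
    ∃ y, ball y e ⊆ ball (0 : V ι) R ∧ ∀ w ∈ ball y e, ‖w - z‖ ≤ 2 * e := by
  have hR : 0 < R := he.trans_le h1
  rw [mem_ball_zero_iff] at hz
  have hq : 0 ≤ 1 - e / R := by rw [sub_nonneg, div_le_one hR]; exact h1
  refine ⟨(1 - e / R) • z, ball_subset_ball' ?_, fun w hw => ?_⟩
  · rw [dist_zero_right, norm_smul, Real.norm_of_nonneg hq]
    have : (1 - e / R) * R = R - e := by field_simp
    nlinarith
  · have hzc : ‖(1 - e / R) • z - z‖ ≤ e := by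
      have : z - (1 - e / R) • z = (e / R) • z := by rw [sub_smul, one_smul, sub_sub_cancel]
      rw [norm_sub_rev, this, norm_smul, Real.norm_of_nonneg (by positivity), div_mul_eq_mul_div,
        div_le_iff₀ hR]
      nlinarith
    rw [mem_ball, dist_eq_norm] at hw
    linarith [norm_sub_le_norm_sub_add_norm_sub w ((1 - e / R) • z) z]

lemma step [NormedSpace ℝ W] {R η : ℝ} (hR : 0 < R) (hη : 0 < η) : ∃ C ≥ (0 : ℝ),
    ∀ (g : V ι → W) (M P : ℝ), (∀ z ∈ ball (0 : V ι) R, DifferentiableAt ℝ g z) →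
    Hol M (fderiv ℝ g) (ball 0 R) → (∀ z ∈ ball (0 : V ι) R, ‖g z‖ ≤ P) →
    ∀ z ∈ ball (0 : V ι) R, ‖fderiv ℝ g z‖ ≤ η * M + C * P := by
  obtain ⟨e, he, h1, h2⟩ : ∃ e > 0, e ≤ R ∧ 2 * e ≤ η ^ 2 :=
    ⟨min R (η ^ 2 / 2), by positivity, min_le_left _ _, by linarith [min_le_right R (η ^ 2 / 2)]⟩
  refine ⟨4 / e, by positivity, fun g M P hd hg hP z hz => ?_⟩
  have hM : 0 ≤ M := (norm_nonneg _).trans (hg.1 z hz)
  have hP0 : 0 ≤ P := (norm_nonneg _).trans (hP z hz)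
  obtain ⟨y, hs, hy⟩ := shrink he h1 hz
  refine ContinuousLinearMap.opNorm_le_of_unit_norm (by positivity) fun v hv => ?_
  have n : ‖(e / 2) • v‖ = e / 2 := by
    rw [norm_smul, hv, mul_one, Real.norm_of_nonneg (by positivity)]
  have m : y + (e / 2) • v ∈ ball y e := by
    rw [mem_ball, dist_eq_norm, add_sub_cancel_left, n]; linarith
  have k := (convex_ball y e).norm_image_sub_le_of_norm_fderiv_le' (φ := fderiv ℝ g z)
    (C := η * M) (fun x hx => hd x (hs hx)) (fun x hx => (hg.2 x (hs hx) z hz).trans (by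
      rw [mul_comm]
      exact mul_le_mul_of_nonneg_right (Real.sqrt_le_iff.2 ⟨hη.le, (hy x hx).trans h2⟩) hM))
    (mem_ball_self he) m
  rw [add_sub_cancel_left, n, map_smul] at k
  have i1 := hP _ (hs m)
  have i2 := hP _ (hs (mem_ball_self he))
  have i3 := norm_sub_le (g (y + (e / 2) • v)) (g y)
  have i4 := norm_sub_norm_le ((e / 2) • fderiv ℝ g z v) (g (y + (e / 2) • v) - g y)
  rw [norm_sub_rev (_ • _), norm_smul, Real.norm_of_nonneg (by positivity)] at i4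
  refine le_of_mul_le_mul_left ?_ (half_pos he)
  have : e / 2 * (η * M + 4 / e * P) = η * M * (e / 2) + 2 * P := by field_simp; ring
  linarith

lemma hol_of [NormedSpace ℝ W] {R A : ℝ} {g : V ι → W}
    (hd : ∀ z ∈ ball (0 : V ι) R, DifferentiableAt ℝ g z)
    (h0 : ∀ z ∈ ball (0 : V ι) R, ‖g z‖ ≤ A) (h1 : ∀ z ∈ ball (0 : V ι) R, ‖fderiv ℝ g z‖ ≤ A) :
    Hol (2 * A) g (ball 0 R) := by
  refine ⟨fun z hz => by linarith [h0 z hz, norm_nonneg (g z)], fun z hz w hw => ?_⟩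
  have hA : 0 ≤ A := (norm_nonneg _).trans (h0 z hz)
  have s0 := Real.sqrt_nonneg ‖z - w‖
  rcases le_total ‖z - w‖ 1 with h | h
  · have i1 : ‖g z - g w‖ ≤ A * ‖z - w‖ :=
      (convex_ball 0 R).norm_image_sub_le_of_norm_fderiv_le hd h1 hw hz
    have i2 : ‖z - w‖ ≤ √‖z - w‖ :=
      Real.le_sqrt_of_sq_le (by nlinarith [norm_nonneg (z - w)])
    nlinarith
  · have i2 : 1 ≤ √‖z - w‖ := Real.one_le_sqrt.2 h
    nlinarith [norm_sub_le (g z) (g w), h0 z hz, h0 w hw]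

lemma itp (R δ : ℝ) (hR : 0 < R) (hδ : 0 < δ) : ∃ C ≥ (0 : ℝ),
    ∀ (f : V ι → ℂ) (M P : ℝ), Hol2 M f (ball 0 R) → (∀ z ∈ ball (0 : V ι) R, ‖f z‖ ≤ P) →
    Hol1 (δ * M + C * P) f (ball 0 R) ∧
      ∀ z ∈ ball (0 : V ι) R, ‖fderiv ℝ (fderiv ℝ f) z‖ ≤ δ * M + C * P := by
  obtain ⟨C2, c2, h2⟩ := step (ι := ι) (W := V ι →L[ℝ] ℂ) (η := δ / 4) hR (by positivity)
  obtain ⟨C1, c1, h1⟩ := step (ι := ι) (W := ℂ) (η := δ / 4 / (C2 + 1)) hR (by positivity)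
  refine ⟨2 * ((C2 + 1) * C1 + 1), by positivity, fun f M P hf hP => ?_⟩
  have hM : 0 ≤ M := (norm_nonneg _).trans (hf.2.1.1 0 (mem_ball_self hR))
  have hP0 : 0 ≤ P := (norm_nonneg _).trans (hP 0 (mem_ball_self hR))
  have d1 := fun z hz => Cau.d1 (hf.1 z hz)
  have d2 := fun z hz => Cau.d2 (hf.1 z hz)
  have k1 := h1 f M P d1 hf.2.2.1 hP
  have k2 := h2 _ M _ d2 hf.2.2.2 k1
  have e : (C2 + 1) * (δ / 4 / (C2 + 1) * M + C1 * P) = δ / 4 * M + (C2 + 1) * C1 * P := by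
    field_simp
  have p0 : 0 ≤ δ / 4 / (C2 + 1) * M + C1 * P := by positivity
  have p1 : 0 ≤ C2 * (δ / 4 / (C2 + 1) * M + C1 * P) := by positivity
  have p2 : 0 ≤ δ * M := by positivity
  have p3 : 0 ≤ (C2 + 1) * C1 * P := by positivity
  have e' : δ * M + 2 * ((C2 + 1) * C1 + 1) * P =
      2 * (δ / 2 * M + ((C2 + 1) * C1 + 1) * P) := by ring
  have a0 : ∀ z ∈ ball (0 : V ι) R, ‖f z‖ ≤ δ / 2 * M + ((C2 + 1) * C1 + 1) * P :=
    fun z hz => by linarith [hP z hz]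
  have a1 : ∀ z ∈ ball (0 : V ι) R, ‖fderiv ℝ f z‖ ≤ δ / 2 * M + ((C2 + 1) * C1 + 1) * P :=
    fun z hz => by linarith [k1 z hz]
  have a2 : ∀ z ∈ ball (0 : V ι) R,
      ‖fderiv ℝ (fderiv ℝ f) z‖ ≤ δ / 2 * M + ((C2 + 1) * C1 + 1) * P :=
    fun z hz => by linarith [k2 z hz]
  rw [e']
  exact ⟨⟨d1, hol_of d1 a0 a1, hol_of d2 a1 a2⟩, fun z hz => by
    linarith [a2 z hz, norm_nonneg (fderiv ℝ (fderiv ℝ f) z)]⟩

lemma unif {κ : Type} {l : Filter κ} [l.NeBot] {M : ℝ} {f : κ → V ι → W} {g : V ι → W}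
    {U : Set (V ι)} (h : ∀ k, Hol M (f k) U)
    (e : ∀ z ∈ U, Tendsto (fun k => f k z) l (𝓝 (g z))) (hK : TotallyBounded U)
    {δ : ℝ} (hδ : 0 < δ) : ∀ᶠ k in l, ∀ z ∈ U, ‖f k z - g z‖ ≤ δ := by
  have hg := Cau.hol_lim (Eventually.of_forall h) e
  have i : Tendsto (fun s : ℝ => |M| * √s) (𝓝 0) (𝓝 0) := by
    have : Continuous fun s : ℝ => |M| * √s := by fun_prop
    simpa using this.tendsto 0
  obtain ⟨ρ, hρ, h1⟩ := Metric.eventually_nhds_iff.1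
    (i.eventually (gt_mem_nhds (show 0 < δ / 3 by linarith)))
  obtain ⟨t, ht, hf, hc⟩ := Metric.finite_approx_of_totallyBounded hK ρ hρ
  have h2 : ∀ᶠ k in l, ∀ x ∈ t, ‖f k x - g x‖ < δ / 3 :=
    (eventually_all_finite hf).2 fun x hx =>
      (tendsto_iff_norm_sub_tendsto_zero.1 (e x (ht hx))).eventually (gt_mem_nhds (by linarith))
  refine h2.mono fun k hk z hz => ?_
  obtain ⟨x, hx, hzx⟩ := mem_iUnion₂.1 (hc hz)
  have h3 : M * √‖z - x‖ < δ / 3 :=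
    (mul_le_mul_of_nonneg_right (le_abs_self M) (Real.sqrt_nonneg _)).trans_lt
      (h1 (by rwa [dist_zero_right, norm_norm, ← dist_eq_norm]))
  have h4 := (h k).2 z hz x (ht hx)
  have h5 := hg.2 z hz x (ht hx)
  have h6 := hk x hx
  have h7 : f k z - g z = (f k z - f k x) + (f k x - g x) - (g z - g x) := by abel
  rw [h7]
  linarith [norm_sub_le ((f k z - f k x) + (f k x - g x)) (g z - g x),
    norm_add_le (f k z - f k x) (f k x - g x)]

lemma dlim [NormedSpace ℝ W] [ProperSpace (V ι →L[ℝ] W)] {U : Set (V ι)} {F : ℕ → V ι → W}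
    {G : V ι → W} {B : ℝ} {𝒰 : Ultrafilter ℕ} (hU : IsOpen U) (hK : TotallyBounded U)
    (hd : ∀ k, ∀ z ∈ U, DifferentiableAt ℝ (F k) z) (h : ∀ k, Hol B (fderiv ℝ (F k)) U)
    (e : ∀ z ∈ U, Tendsto (fun k => F k z) 𝒰 (𝓝 (G z))) :
    ∀ z ∈ U, DifferentiableAt ℝ G z ∧
      Tendsto (fun k => fderiv ℝ (F k) z) 𝒰 (𝓝 (fderiv ℝ G z)) := by
  have hp : ∀ z, ∃ y, z ∈ U → Tendsto (fun k => fderiv ℝ (F k) z) 𝒰 (𝓝 y) := fun z => by
    by_cases hz : z ∈ U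
    · obtain ⟨y, -, hy⟩ := (isCompact_closedBall (0 : V ι →L[ℝ] W) B).ultrafilter_le_nhds'
        (𝒰.map fun k => fderiv ℝ (F k) z) (Ultrafilter.mem_map.2 (univ_mem' fun k =>
          mem_closedBall_zero_iff.2 ((h k).1 z hz)))
      exact ⟨y, fun _ => hy⟩
    · exact ⟨0, fun h => absurd h hz⟩
  choose G1 e1 using hp
  intro z hz
  have a1 : HasFDerivAt G (G1 z) z :=
    hasFDerivAt_of_tendstoUniformlyOn (l := (𝒰 : Filter ℕ)) hU
      (Metric.tendstoUniformlyOn_iff.2 fun δ hδ =>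
        (unif h e1 hK (half_pos hδ)).mono fun k hk w hw => by
          rw [dist_comm, dist_eq_norm]; linarith [hk w hw])
      (fun k w hw => (hd k w hw).hasFDerivAt) e hz
  exact ⟨a1.differentiableAt, by rw [a1.fderiv]; exact e1 z hz⟩

lemma ult (R B : ℝ) (F : ℕ → V ι → ℂ) (f : V ι → ℂ) (𝒰 : Ultrafilter ℕ)
    (h : ∀ j, Hol2 B (F j) (ball 0 R))
    (e : ∀ z ∈ ball (0 : V ι) R, Tendsto (fun j => F j z) 𝒰 (𝓝 (f z))) :
    Hol2 B f (ball 0 R) ∧ ∀ δ > (0 : ℝ), ∀ᶠ j in 𝒰, ∀ z ∈ ball (0 : V ι) R, ‖F j z - f z‖ ≤ δ := by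
  have hK : TotallyBounded (ball (0 : V ι) R) :=
    (isCompact_closedBall 0 R).totallyBounded.subset ball_subset_closedBall
  have _ : ProperSpace (V ι →L[ℝ] V ι →L[ℝ] ℂ) :=
    FiniteDimensional.proper ℝ (V ι →L[ℝ] V ι →L[ℝ] ℂ)
  have a1 := dlim isOpen_ball hK (fun k z hz => Cau.d1 ((h k).1 z hz)) (fun k => (h k).2.2.1) e
  have a2 := dlim (F := fun k => fderiv ℝ (F k)) isOpen_ball hK
    (fun k z hz => Cau.d2 ((h k).1 z hz)) (fun k => (h k).2.2.2) fun z hz => (a1 z hz).2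
  have b2 := Cau.hol_lim (Eventually.of_forall fun k => (h k).2.2.2) fun z hz => (a2 z hz).2
  refine ⟨⟨fun z hz => ?_, Cau.hol_lim (Eventually.of_forall fun k => (h k).2.1) e,
    Cau.hol_lim (Eventually.of_forall fun k => (h k).2.2.1) fun z hz => (a1 z hz).2, b2⟩,
    fun δ hδ => unif (fun k => (h k).2.1) e hK hδ⟩
  exact (contDiffAt_succ_iff_hasFDerivAt (n := 1)).2 ⟨fderiv ℝ f, ⟨_, isOpen_ball.mem_nhds hz,
    fun w hw => (a1 w hw).1.hasFDerivAt⟩, contDiffAt_one_iff.2 ⟨_, _, isOpen_ball.mem_nhds hz,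
      Cau.hol_cont b2, fun w hw => (a2 w hw).1.hasFDerivAt⟩⟩

end It

theorem lipL : LipL := by
  intro ι r _ _ _ R Λ H hΛ h z hz w hw
  have hh : ((Real.exp (2 * R * Λ) : ℂ) • H w - H z).IsHermitian :=
    ((h w hw).2.1.isHermitian.smul (by simp [IsSelfAdjoint, -ofReal_exp])).sub
      (h z hz).2.1.isHermitian
  refine .of_dotProduct_mulVec_nonneg hh fun ξ => Complex.nonneg_iff.2
    ⟨?_, (hh.im_star_dotProduct_mulVec_self ξ).symm⟩
  change 0 ≤ ip _ ξ ξ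
  have m : ∀ t ∈ Icc (0 : ℝ) 1, w + t • (z - w) ∈ ball (0 : V ι) R := fun t ht =>
    (convex_ball 0 R).add_smul_sub_mem hw hz ht
  have n : ‖z - w‖ ≤ 2 * R := by
    rw [mem_ball_zero_iff] at hz hw
    linarith [norm_sub_le z w]
  have d : ∀ t ∈ Icc (0 : ℝ) 1, HasDerivAt
      (fun s : ℝ => Real.exp (-(2 * R * Λ) * s) * ip (H (w + s • (z - w))) ξ ξ)
      (Real.exp (-(2 * R * Λ) * t) * (-(2 * R * Λ) * 1) * ip (H (w + t • (z - w))) ξ ξ +
        Real.exp (-(2 * R * Λ) * t) * ip (dv H (z - w) (w + t • (z - w))) ξ ξ) t := fun t ht =>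
    ((hasDerivAt_id t).const_mul _).exp.mul (It.der (h _ (m t ht)).1 ξ)
  have a := antitoneOn_of_hasDerivWithinAt_nonpos (convex_Icc (0 : ℝ) 1)
    (fun t ht => (d t ht).continuousAt.continuousWithinAt)
    (fun t ht => (d t (interior_subset ht)).hasDerivWithinAt) (fun t ht => by
      obtain ⟨-, p, q⟩ := h _ (m t (interior_subset ht))
      have q1 : 0 ≤ ip _ ξ ξ := (q (z - w)).2.re_dotProduct_nonneg ξ
      have p1 : 0 ≤ ip _ ξ ξ := p.posSemidef.re_dotProduct_nonneg ξ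
      rw [It.ip_lin] at q1
      have p2 := mul_le_mul_of_nonneg_right (mul_le_mul_of_nonneg_left n hΛ) p1
      have p3 := Real.exp_pos (-(2 * R * Λ) * t)
      nlinarith) (left_mem_Icc.2 zero_le_one) (right_mem_Icc.2 zero_le_one) zero_le_one
  simp only [mul_one, mul_zero, Real.exp_zero, one_mul, one_smul, zero_smul, add_zero,
    add_sub_cancel] at a
  rw [It.ip_lin, sub_nonneg, ← div_le_iff₀' (Real.exp_pos _), div_eq_inv_mul, ← Real.exp_neg]
  exact a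

theorem itS : ItS := ⟨fun _ _ => It.itp, fun _ _ => It.ult⟩

end Pool.Agent.Lib.MP_813db1_ag.VH.Co
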