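import Pool.Agent.Lib.MP_813db1_ag.VH.CoStmt

/-! Linear systems: the maximum principle, the a priori estimate and the method of continuity. -/

namespace Pool.Agent.Lib.MP_813db1_ag.VH.Co

open Pool.Agent.Lib.MP_813db1_ag.HS Pool.Agent.Lib.MP_813db1_ag.AS
open MeasureTheory Complex Matrix Filter Topology Set Metric
open scoped ContDiff ComplexOrder

variable {ι X Y G : Type} [Fintype ι] [DecidableEq ι] [TopologicalSpace X] [TopologicalSpace Y]
  [Group G] [MulAction G Y] {c : Sx ι X Y G}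

namespace CoLs

variable {κ : Type} [Fintype κ] {b : Bu G κ} {v w : Y → κ → ℂ} {B N P L : ℝ}

theorem z0 (a : Fin c.C.n) : (0 : V ι) ∈ c.B a := mem_ball_self (by linarith [c.C.pos a])

omit [Fintype κ] in
theorem h0_mono (h : c.H0 B v) (e : B ≤ N) : c.H0 N v := fun a k => (h a k).mono e

omit [Fintype κ] in
theorem h0_mono' (h : c.H0 B v) (h' : c.H0 P w) (e : 0 ≤ P → B ≤ N) : c.H0 N v :=
  fun a k => (h a k).mono (e ((h' a k).nonneg (z0 a)))

omit [Fintype κ] in
theorem h2_mono (h : c.H2 B v) (e : B ≤ N) : c.H2 N v := fun a k => (h a k).mono e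

omit [Fintype κ] in
theorem h0_add (h : c.H0 B v) (h' : c.H0 N w) : c.H0 (B + N) (v + w) :=
  fun a k => (h a k).add (h' a k)

omit [Fintype κ] in
theorem h0_smul (t : ℝ) (h : c.H0 B v) : c.H0 (|t| * B) (t • v) := fun a k => by
  simpa using (h a k).const_mul (t : ℂ)

omit [Fintype κ] in
theorem h2_sub (h : c.H2 B v) (h' : c.H2 N w) : c.H2 (B + N) (v - w) :=
  fun a k => (h a k).sub (h' a k)

omit [Fintype κ] in
theorem h2_h1 (h : c.H2 N v) : c.H1 N v := fun a k => (h a k).hol1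

omit [Fintype κ] in
theorem h1_h0 (h : c.H1 N v) : c.H0 N v := fun a k => (h a k).2.1

omit [Fintype κ] in
theorem h2_zero : c.H2 0 (0 : Y → κ → ℂ) := fun _ _ => Hol2.const 0 (by simp)

omit [Fintype κ] in
theorem ht_iff : c.HT 1 B v ↔ c.H0 B v := forall₂_congr fun _ _ => hol_iff.symm

theorem h0_sup (h : c.H0 B v) (hB : 0 ≤ B) : c.Sup B v :=
  fun a z hz => (pi_norm_le_iff_of_nonneg hB).2 fun k => (h a k).1 z hz

omit [TopologicalSpace Y] in
theorem sec_add (h : b.Sec v) (h' : b.Sec w) : b.Sec (v + w) :=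
  ⟨fun γ y => by simp [h.1, h'.1], fun y => b.W.add_mem (h.2 y) (h'.2 y)⟩

omit [TopologicalSpace Y] in
theorem sec_sub (h : b.Sec v) (h' : b.Sec w) : b.Sec (v - w) :=
  ⟨fun γ y => by simp [h.1, h'.1], fun y => b.W.sub_mem (h.2 y) (h'.2 y)⟩

omit [TopologicalSpace Y] in
theorem sec_smul (t : ℝ) (h : b.Sec v) : b.Sec (t • v) :=
  ⟨fun γ y => by simp only [Pi.smul_apply, h.1, map_smul], fun y => b.W.smul_mem t (h.2 y)⟩

omit [TopologicalSpace Y] in
theorem sec_zero : b.Sec (0 : Y → κ → ℂ) := ⟨fun γ y => by simp, fun _ => b.W.zero_mem⟩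

theorem ck2 (hb : c.Bs) (h : b.Sec v) (h2 : c.H2 N v) : c.CkV 2 v :=
  hb.b.ck κ b 2 v h fun a j z hz => (h2 a j).1 z hz

theorem sec_lap (hb : c.Bs) (h : b.Sec v) (h2 : c.H2 N v) : b.Sec (c.lapV v) :=
  hb.b.lap κ b v h (ck2 hb h h2)

omit [Fintype κ] in
/-- absorption of one half of the norm. -/
theorem absorb (hB : 0 ≤ B) (h0 : c.H2 N v) (h : ∀ N, 0 ≤ N → c.H2 N v → c.H2 (B + N / 2) v) :
    c.H2 (2 * B) v := by
  have k : ∀ n : ℕ, c.H2 (2 * B + |N - 2 * B| * (1 / 2) ^ n) v := fun n => by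
    induction n with
    | zero => exact h2_mono h0 (by simpa using sub_le_iff_le_add'.1 (le_abs_self (N - 2 * B)))
    | succ n ih => exact h2_mono (h _ (by positivity) ih) (le_of_eq (by ring))
  refine fun a j => Hol2.of_forall fun ε hε => ?_
  have lim := (tendsto_pow_atTop_nhds_zero_of_lt_one (r := (1 / 2 : ℝ)) (by norm_num)
    (by norm_num)).const_mul |N - 2 * B|
  rw [mul_zero] at lim
  obtain ⟨n, hn⟩ := (lim.eventually (gt_mem_nhds hε)).exists
  exact (k n a j).mono (by linarith)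

theorem ip_add (m : Mat κ) (u x y : κ → ℂ) : ip m u (x + y) = ip m u x + ip m u y := by
  simp only [ip, mulVec_add, dotProduct_add, add_re]

theorem ip_smul (m : Mat κ) (t : ℝ) (u x : κ → ℂ) : ip m u (t • x) = t * ip m u x := by
  simp only [ip, mulVec_smul, dotProduct_smul, smul_re, smul_eq_mul]

theorem ip_bd {m : Mat κ} (h : Bd L m) (u x : κ → ℂ) :
    |ip m u x| ≤ (Fintype.card κ : ℝ) ^ 2 * |L| * ‖u‖ * ‖x‖ := by
  refine (abs_re_le_norm _).trans ((norm_sum_le _ _).trans ?_)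
  refine (Finset.sum_le_card_nsmul _ _ (‖u‖ * (Fintype.card κ * (|L| * ‖x‖))) fun i _ => ?_).trans
    (le_of_eq ?_)
  · rw [norm_mul, Pi.star_apply, norm_star]
    refine mul_le_mul (norm_le_pi_norm u i) ((norm_sum_le _ _).trans ?_) (norm_nonneg _)
      (norm_nonneg _)
    refine (Finset.sum_le_card_nsmul _ _ (|L| * ‖x‖) fun j _ => ?_).trans (le_of_eq ?_)
    · rw [norm_mul]
      exact mul_le_mul ((h i j).trans (le_abs_self L)) (norm_le_pi_norm x j) (norm_nonneg _)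
        (abs_nonneg _)
    · rw [nsmul_eq_mul, Finset.card_univ]
  · rw [nsmul_eq_mul, Finset.card_univ]
    ring

omit [DecidableEq ι] in
theorem ip_c2 {m : V ι → Mat κ} {x : V ι → κ → ℂ} {z : V ι}
    (hm : ∀ i j, ContDiffAt ℝ 2 (fun w => m w i j) z) (hx : ∀ k, ContDiffAt ℝ 2 (fun w => x w k) z) :
    ContDiffAt ℝ 2 (fun w => (ip (m w) (x w) (x w) : ℂ)) z :=
  ofRealCLM.contDiff.contDiffAt.comp z (reCLM.contDiff.contDiffAt.comp z (ContDiffAt.sum fun i _ =>
    (conjCLE.contDiff.contDiffAt.comp z (hx i)).mul (ContDiffAt.sum fun j _ => (hm i j).mul (hx j))))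

variable [DecidableEq κ] {m : Y → Mat κ}

theorem ip_inv (hm : c.Met b m L) (h : b.Sec v) (h' : b.Sec w) (γ : G) (y : Y) :
    ip (m (γ • y)) (v (γ • y)) (w (γ • y)) = ip (m y) (v y) (w y) := by
  rw [h.1, h'.1, hm.inv γ y _ (h.2 y) _ (h'.2 y)]

theorem ip_ck (hb : c.Bs) (hm : c.Met b m L) (h : b.Sec v) (h2 : c.H2 N v) :
    c.Ck 2 fun y => (ip (m y) (v y) (v y) : ℂ) := by
  refine hb.a.loc 2 _ fun y => ?_
  obtain ⟨γ, a, z, -, hz, rfl⟩ := hb.a.cov y
  obtain ⟨s1, s2, -⟩ := hb.a.sec a z hz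
  refine ⟨_, c.C.mem a, z, s1, _, s2.smul c.hq γ, rfl, ?_⟩
  simp only [ip_inv hm h h]
  exact ip_c2 (fun i j => (hm.bd a i j).1 z hz) fun k => (h2 a k).1 z hz

end CoLs

open CoLs

theorem mpS (hb : c.Bs) (h : PwV) : c.MpS where
  c0 κ _ _ b L μ hμ := by
    refine ⟨|L| * ((Fintype.card κ : ℝ) ^ 2 * |L|) / μ, by positivity,
      fun m D hm hD hM v N B hv hN hB a z hz => ?_⟩
    obtain ⟨y0, m1, m2⟩ := hb.a.max (fun y => ip (m y) (v y) (v y)) (ip_inv hm hv hv)
      (ip_ck hb hm hv hN) ⟨c.s a z⟩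
    have e1 := hM v N hv hN y0
    obtain ⟨γ, a', z', -, hz', rfl⟩ := hb.a.cov y0
    have e2 := ip_inv hm hv (sec_add (sec_lap hb hv hN) (hD v N hv hN)) γ (c.s a' z')
    have e3 := ip_inv hm hv hv γ (c.s a' z')
    have e4 := ip_bd (fun i j => (hm.bd a' i j).2.1.1 z' hz') (v (c.s a' z'))
      ((c.lapV v + D v) (c.s a' z'))
    have e5 := hB a' z' hz'
    have e6 := hm.pos a' z' hz' (v (c.s a' z'))
    have e7 := hm.pos a z hz (v (c.s a z))
    have e8 := m1 (c.s a z)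
    have e9 := hm.nn (c.s a z) (v (c.s a z))
    have e0 := hm.nn (c.s a' z') (v (c.s a' z'))
    simp only [Pi.add_apply] at e2 e4
    rw [e2] at e1
    rw [e3] at e1 e8
    have B0 := (norm_nonneg _).trans e5
    have C0 : 0 ≤ (Fintype.card κ : ℝ) ^ 2 * |L| := by positivity
    generalize (Fintype.card κ : ℝ) ^ 2 * |L| = C at *
    have x0 := norm_nonneg (v (c.s a' z'))
    have f1 := (neg_le_abs _).trans (e4.trans (mul_le_mul_of_nonneg_left e5 (by positivity)))
    have f2 := e6.trans (mul_le_mul_of_nonneg_right (le_abs_self L) e0)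
    have f3 := (e7.trans (mul_le_mul_of_nonneg_right (le_abs_self L) e9)).trans
      (mul_le_mul_of_nonneg_left e8 (abs_nonneg L))
    generalize ip (m (c.s a' z')) (v (c.s a' z')) (v (c.s a' z')) = n at *
    generalize ‖v (c.s a' z')‖ = x at *
    have f4 : μ * n ≤ C * x * B := by linarith
    have L0 := abs_nonneg L
    have f5 : μ * x ≤ |L| * C * B := by
      rcases x0.eq_or_lt with rfl | x1
      · rw [mul_zero]
        positivity
      · refine le_of_mul_le_mul_left ?_ x1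
        nlinarith [mul_le_mul_of_nonneg_left f2 hμ.le, mul_le_mul_of_nonneg_left f4 L0]
    rw [div_mul_eq_mul_div, le_div_iff₀ hμ]
    refine abs_le_of_sq_le_sq' ?_ (by positivity) |>.2
    have f6 := mul_le_mul_of_nonneg_left f3 (sq_nonneg μ)
    have f7 := mul_le_mul_of_nonneg_left f4 (mul_nonneg L0 hμ.le)
    have f8 := mul_le_mul_of_nonneg_left f5 (mul_nonneg (mul_nonneg L0 C0) B0)
    nlinarith
  big κ _ _ b L := by
    obtain ⟨L1, -, k1⟩ := hb.a.ell
    obtain ⟨C, -, k2⟩ := h.bd ι κ (max L L1)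
    refine ⟨C + 1, fun l hl m hm v N hv hN y => ?_⟩
    obtain ⟨γ, a, z, -, hz, rfl⟩ := hb.a.cov y
    obtain ⟨s1, s2, -⟩ := hb.a.sec a z hz
    have e1 := ip_inv hm hv (sec_lap hb hv hN) γ (c.s a z)
    have e2 := (hb.a.smul (fun y => (ip (m y) (v y) (v y) : ℂ)) 0 γ (c.s a z)).1
    have e3 := k2 (c.Gc a) (fun w => m (c.s a w)) (fun w => v (c.s a w)) z ((hb.a.kon a).2 z hz)
      (fun i j => (((k1 a).1 i j).1 z hz).trans (le_max_right _ _))
      (fun i j => (((k1 a).2.1 i j).1 z hz).trans (le_max_right _ _))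
      (fun i j => (hm.bd a i j).1 z hz) (fun k => (hN a k).1 z hz)
      (Eventually.of_forall fun w => hm.herm _)
      (fun u => (hm.pos a z hz u).trans (mul_le_mul_of_nonneg_right (le_max_left _ _) (hm.nn _ u)))
      fun i j => ⟨((hm.bd a i j).2.2.1.1 z hz).trans (le_max_left _ _),
        ((hm.bd a i j).2.2.2.1 z hz).trans (le_max_left _ _)⟩
    have e4 : (fun k => lapL (c.Gc a) (fun w => v (c.s a w) k) z) = c.lapV v (c.s a z) :=
      funext fun k => hb.a.lap (fun y => v y k) _ (c.C.mem a) z s1 _ s2 ((hN a k).1 z hz)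
    have e5 := hb.a.lap (fun y => (ip (m y) (v y) (v y) : ℂ)) _ (c.C.mem a) z s1 _ s2
      (ip_c2 (fun i j => (hm.bd a i j).1 z hz) fun k => (hN a k).1 z hz)
    simp only [ip_inv hm hv hv] at e2
    rw [e4] at e3
    erw [e5] at e3
    beta_reduce
    rw [ip_add, Pi.smul_apply, ip_smul, e1, Sx.lapR, ← e2, ip_inv hm hv hv]
    nlinarith [hm.nn (c.s a z) (v (c.s a z))]

namespace CoLs

variable {κ : Type} [Fintype κ] {b : Bu G κ} {D D' : (Y → κ → ℂ) → Y → κ → ℂ} {L : ℝ}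

/-- the a priori estimate. -/
theorem ap (hb : c.Bs) (h2 : c.BsS) (h3 : c.MpS) [DecidableEq κ] (b : Bu G κ) (L L' : ℝ) :
    ∃ K ≥ (0 : ℝ), ∀ m D, c.Met b m L → c.Low b D L' → ∀ v N B P, 0 ≤ B → 0 ≤ P → b.Sec v →
      c.H2 N v → c.H0 B (fun y => c.lapV v y + D v y) → c.Sup P v → c.H2 (K * (B + P)) v := by
  obtain ⟨l1, k1⟩ := h2 κ b
  obtain ⟨l2, k2⟩ := h3.big κ b L
  obtain ⟨K0, -, k0⟩ := h3.c0 κ b L 1 one_pos
  obtain ⟨l, e1, e2, e0⟩ : ∃ l, l1 ≤ l ∧ l2 ≤ l ∧ 0 ≤ l := ⟨max l1 (max l2 0), le_max_left _ _,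
    le_max_of_le_right (le_max_left _ _), le_max_of_le_right (le_max_right _ _)⟩
  obtain ⟨C, p1, k1⟩ := k1 l e1
  obtain ⟨A, hA, A0⟩ : ∃ A, A = |L'| + l ∧ 0 ≤ A := ⟨_, rfl, by positivity⟩
  obtain ⟨E, p3, k3⟩ := hb.b.itp κ (1 / (2 * (C * A + 1))) (by positivity)
  refine ⟨2 * C * (1 + A * E), by positivity, fun m D hm hD v N B P B0 P0 hv hN hf hP => ?_⟩
  refine h2_mono (absorb (B := C * (B + A * (E * P))) (by positivity) hN fun N N0 hN => ?_) ?_
  · have e3 := (k3 v N P N0 hN hP).1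
    have e4 : C * (A * (1 / (2 * (C * A + 1)) * N)) ≤ N / 2 := by
      have : C * (A * (1 / (2 * (C * A + 1)) * N)) = C * A / (C * A + 1) * (N / 2) := by field_simp
      rw [this]
      exact mul_le_of_le_one_left (by positivity) ((div_le_one (by positivity)).2 (by linarith))
    have e5 : 0 ≤ 1 / (2 * (C * A + 1)) * N + E * P := by positivity
    have e6 : c.H0 (B + A * (1 / (2 * (C * A + 1)) * N + E * P)) (c.lapV v + (-l) • v) := by
      have := h0_add (h0_add hf (h0_smul (-1) (hD.bd v N _ hv hN e3))) (h0_smul (-l) (h1_h0 e3))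
      rw [show (fun y => c.lapV v y + D v y) + (-1 : ℝ) • D v = c.lapV v from
        funext fun y => by simp] at this
      refine h0_mono this ?_
      rw [abs_neg, abs_one, abs_neg, abs_of_nonneg e0]
      nlinarith [mul_le_mul_of_nonneg_right (le_abs_self L') e5]
    obtain ⟨w, s1, s2, s3⟩ := k1 _ _ (by positivity)
      (sec_add (sec_lap hb hv hN) (sec_smul (-l) hv)) e6
    have e7 := k0 m _ hm (fun v _ hv _ => sec_smul (-l) hv) (k2 l e2 m hm) _ _ 0 (sec_sub hv s1)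
      (h2_sub hN s2) fun a z _ => by
        beta_reduce at s3 ⊢
        rw [(hb.b.lin κ v w 0 (ck2 hb hv hN) (ck2 hb s1 s2)).2.2, smul_sub, Pi.sub_apply,
          Pi.sub_apply, sub_add_sub_comm, s3, Pi.add_apply, sub_self, norm_zero]
    obtain rfl : v = w := funext fun y => sub_eq_zero.1 (hb.b.zero κ b _ (sec_sub hv s1)
      (fun a z hz => norm_le_zero_iff.1 (by simpa using e7 a z hz)) y)
    exact h2_mono s2 (by nlinarith)
  · have : 0 ≤ C * P + C * (A * E * B) := by positivity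
    nlinarith

/-- one step of the method of continuity. -/
theorem step (hb : c.Bs) (h1 : c.ItE) {K ε : ℝ} (hD : c.Low b D' L) (hK : 0 ≤ K)
    (hε : ε * K ≤ 1 / 2) (hd : ∀ v N, b.Sec v → c.H2 N v → c.H0 (ε * N) (D v - D' v))
    (hs : c.Solv b D K) : c.Solv b D' (2 * K) := by
  intro f B B0 hf hB
  rcases isEmpty_or_nonempty κ with hκ | ⟨⟨k0⟩⟩
  · exact ⟨0, sec_zero, fun _ k => isEmptyElim k, fun _ => funext fun k => isEmptyElim k⟩
  obtain ⟨K1, p1, k1⟩ := hb.b.hol κ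
  have sΦ : ∀ v N, b.Sec v → c.H2 N v → b.Sec (f - (c.lapV v + D' v)) := fun v N hv hN =>
    sec_sub hf (sec_add (sec_lap hb hv hN) (hD.sec v N hv hN))
  obtain ⟨v, s1, s2, s3⟩ := h1 κ b (fun v => f - (c.lapV v + D' v)) 1 K B (K1 + |L|) le_rfl hK B0
    (by
      have e1 := (hb.b.lin κ 0 0 0 (ck2 hb (b := b) sec_zero h2_zero)
        (ck2 hb (b := b) sec_zero h2_zero)).2.1
      have e2 := hD.smul 0 0 0 sec_zero h2_zero
      rw [zero_smul, zero_smul] at e1 e2
      simpa only [e1, e2, add_zero, sub_zero] using ht_iff.2 hB)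
    (fun v B' p0 _ hv hN hp => by
      obtain ⟨w, s1, s2, s3⟩ := hs _ B' p0 (sΦ v _ hv hN) (ht_iff.1 hp)
      refine ⟨w, s1, s2, ht_iff.2 ?_⟩
      have e : f - (c.lapV (v + w) + D' (v + w)) = D w - D' w := by
        rw [(hb.b.lin κ v w 0 (ck2 hb hv hN) (ck2 hb s1 s2)).1, hD.add v w _ _ hv s1 hN s2]
        have e : c.lapV w + D w = f - (c.lapV v + D' v) := funext s3
        linear_combination -e
      exact e ▸ h0_mono (hd w _ s1 s2) (by nlinarith [mul_le_mul_of_nonneg_right hε p0]))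
    fun v v' δ hv hv' hN hN' hδ a z hz => by
      have δ0 := (hδ a k0).nonneg (z0 a)
      have s := sec_sub hv hv'
      have e1 := hD.add (v - v') v' _ _ s hv' hδ hN'
      have e2 := h0_smul (-1) (h0_add (k1 _ _ hδ) (hD.bd _ _ _ s hδ (h2_h1 hδ)))
      rw [sub_add_cancel] at e1
      rw [(hb.b.lin κ v v' 0 (ck2 hb hv hN) (ck2 hb hv' hN')).2.2, neg_one_smul] at e2
      have e : f - (c.lapV v + D' v) - (f - (c.lapV v' + D' v')) =
          -(c.lapV v - c.lapV v' + D' (v - v')) := by linear_combination -e1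
      refine h0_sup (h0_mono (e ▸ e2) ?_) (by positivity) a z hz
      rw [abs_neg, abs_one]
      nlinarith [mul_le_mul_of_nonneg_right (le_abs_self L) δ0]
  exact ⟨v, s1, s2, fun y => (sub_eq_zero.1 (hb.b.zero κ b _ (sΦ v _ s1 s2) s3 y)).symm⟩

/-- the path of operators. -/
noncomputable def pth (D : (Y → κ → ℂ) → Y → κ → ℂ) (l s : ℝ) (v : Y → κ → ℂ) : Y → κ → ℂ :=
  s • D v + (1 - s) • (-l) • v

theorem pth_low (hD : c.Low b D L) {l s : ℝ} (hl : 0 ≤ l) (hs : s ∈ Icc (0 : ℝ) 1) :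
    c.Low b (pth D l s) (|L| + l) where
  sec v N hv hN := sec_add (sec_smul _ (hD.sec v N hv hN)) (sec_smul _ (sec_smul _ hv))
  add v w N N' hv hw hN hN' := by
    simp only [pth, hD.add v w N N' hv hw hN hN']
    module
  smul t v N hv hN := by
    simp only [pth, hD.smul t v N hv hN]
    module
  bd v N B hv hN hB := h0_mono' (h0_add (h0_smul s (hD.bd v N B hv hN hB))
    (h0_smul (1 - s) (h0_smul (-l) (h1_h0 hB)))) (h1_h0 hB) fun B0 => by
      rw [abs_of_nonneg hs.1, abs_of_nonneg (sub_nonneg.2 hs.2), abs_neg, abs_of_nonneg hl]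
      have e1 := mul_le_mul_of_nonneg_left (mul_le_mul_of_nonneg_right (le_abs_self L) B0) hs.1
      have e2 := mul_nonneg (sub_nonneg.2 hs.2) (mul_nonneg (abs_nonneg L) B0)
      have e3 := mul_nonneg hs.1 (mul_nonneg hl B0)
      nlinarith

end CoLs

theorem lsS (hb : c.Bs) (h1 : c.ItE) (h2 : c.BsS) (h3 : c.MpS) : c.LsS where
  apr _ _ _ b L := ap hb h2 h3 b L L
  sol κ _ _ b L μ hμ := by
    obtain ⟨l1, k1⟩ := h2 κ b
    obtain ⟨l2, k2⟩ := h3.big κ b L
    obtain ⟨K0, p0, k0⟩ := h3.c0 κ b L (min μ 1) (lt_min hμ one_pos)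
    obtain ⟨l, e1, e2, e0⟩ : ∃ l, l1 ≤ l ∧ l2 ≤ l ∧ 0 ≤ l := ⟨max l1 (max l2 0), le_max_left _ _,
      le_max_of_le_right (le_max_left _ _), le_max_of_le_right (le_max_right _ _)⟩
    obtain ⟨C, -, k1⟩ := k1 l e1
    obtain ⟨K1, p1, k3⟩ := ap hb h2 h3 b L (|L| + l)
    have p2 : 0 ≤ K1 * (1 + K0) := by positivity
    refine ⟨K1 * (1 + K0), p2, fun m D hm hD hM => ?_⟩
    have up : ∀ s ∈ Icc (0 : ℝ) 1, ∀ K, c.Solv b (pth D l s) K →
        c.Solv b (pth D l s) (K1 * (1 + K0)) := fun s hs K h f B B0 hf hB => by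
      obtain ⟨v, s1, s2, s3⟩ := h f B B0 hf hB
      have lo := pth_low hD e0 hs
      rw [← funext s3] at hB
      refine ⟨v, s1, h2_mono (k3 m _ hm lo v _ B (K0 * B) B0 (by positivity) s1 s2 hB
        (k0 m _ hm lo.sec (fun w N hw hN y => ?_) v _ B s1 s2 (h0_sup hB B0))) (le_of_eq (by ring)),
        s3⟩
      have f1 := mul_le_mul_of_nonneg_left (hM w N hw hN y) hs.1
      have f2 := mul_le_mul_of_nonneg_left (k2 l e2 m hm w N hw hN y) (sub_nonneg.2 hs.2)
      have f3 := hm.nn y (w y)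
      have f4 := mul_nonneg (mul_nonneg hs.1 (sub_nonneg.2 (min_le_left μ 1))) f3
      have f5 := mul_nonneg (mul_nonneg (sub_nonneg.2 hs.2) (sub_nonneg.2 (min_le_right μ 1))) f3
      simp only [pth, Pi.add_apply, Pi.smul_apply, ip_add, ip_smul] at f1 f2 ⊢
      nlinarith
    generalize K1 * (1 + K0) = K at *
    obtain ⟨η, η0, hη⟩ : ∃ η > (0 : ℝ), η * (|L| + l) * K ≤ 1 / 2 :=
      ⟨1 / (2 * ((|L| + l) * K + 1)), by positivity, by
        rw [mul_assoc, one_div_mul_eq_div, div_le_div_iff₀ (by positivity) two_pos]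
        linarith⟩
    have all : ∀ k : ℕ, ∀ s ∈ Icc (0 : ℝ) 1, s ≤ k * η → c.Solv b (pth D l s) K := by
      intro k
      induction k with
      | zero =>
        intro s hs h
        obtain rfl : s = 0 := le_antisymm (by simpa using h) hs.1
        refine up 0 hs C ?_
        rwa [show pth D l 0 = fun v => (-l) • v from funext fun v => by simp [pth]]
      | succ k ih =>
        intro s hs h
        rw [Nat.cast_succ, add_mul, one_mul] at h
        have s1 : max 0 (s - η) ≤ s := max_le hs.1 (by linarith)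
        refine up s hs _ (step hb h1 (pth_low hD e0 hs) p2 hη (fun v N hv hN => ?_)
          (ih (max 0 (s - η)) ⟨le_max_left _ _, s1.trans hs.2⟩
            (max_le (by positivity) (by linarith))))
        have s2 := le_max_right 0 (s - η)
        generalize max 0 (s - η) = s' at *
        have e : pth D l s' v - pth D l s v = (s' - s) • (D v + l • v) := by
          simp only [pth]
          module
        have f := h1_h0 (h2_h1 hN)
        refine e ▸ h0_mono' (h0_smul (s' - s) (h0_add (hD.bd v N N hv hN (h2_h1 hN))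
          (h0_smul l f))) f fun N0 => ?_
        rw [abs_of_nonpos (sub_nonpos.2 s1), abs_of_nonneg e0]
        have f1 := mul_le_mul_of_nonneg_left (mul_le_mul_of_nonneg_right (le_abs_self L) N0)
          (sub_nonneg.2 s1)
        have f2 := mul_nonneg (show 0 ≤ η - (s - s') by linarith)
          (mul_nonneg (add_nonneg (abs_nonneg L) e0) N0)
        nlinarith
    obtain ⟨k, hk⟩ := exists_nat_ge (1 / η)
    have := all k 1 ⟨zero_le_one, le_rfl⟩ ((div_le_iff₀ η0).1 hk)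
    rwa [show pth D l 1 = D from funext fun v => by simp [pth]] at this

end Pool.Agent.Lib.MP_813db1_ag.VH.Co
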