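import Pool.Agent.Lib.MP_813db1_ag.VH.CoStmt

/-! The Fredholm alternative. -/

namespace Pool.Agent.Lib.MP_813db1_ag.VH.Co

open Pool.Agent.Lib.MP_813db1_ag.HS Pool.Agent.Lib.MP_813db1_ag.AS
open MeasureTheory Complex Matrix Filter Topology Set Metric
open scoped ContDiff ComplexOrder

set_option linter.unusedSectionVars false

namespace CoLz

section Alg

variable {κ : Type} [Fintype κ] (m : Mat κ) (u v w : κ → ℂ) (t : ℝ)

theorem ip_add : ip m (u + v) w = ip m u w + ip m v w := by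
  simp only [ip, star_add, add_dotProduct, add_re]

theorem ip_sub : ip m (u - v) w = ip m u w - ip m v w := by
  simp only [ip, star_sub, sub_dotProduct, sub_re]

theorem ip_smul : ip m (t • u) w = t * ip m u w := by
  simp only [ip, star_smul, star_trivial, smul_dotProduct, smul_re, smul_eq_mul]

theorem ip_right : ip m u (v - t • w) = ip m u v - t * ip m u w := by
  simp only [ip, mulVec_sub, mulVec_smul, dotProduct_sub, dotProduct_smul, sub_re, smul_re,
    smul_eq_mul]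

theorem ip_zero : ip m u 0 = 0 := by simp [ip]

theorem ip_eq : ip m u v = (∑ i, ∑ j, star (u i) * (m i j * v j)).re := by
  simp only [ip, dotProduct, mulVec, Finset.mul_sum, Pi.star_apply]

theorem ip_le {L P Q : ℝ} (hm : ∀ i j, ‖m i j‖ ≤ L) (hu : ‖u‖ ≤ P) (hv : ‖v‖ ≤ Q) :
    |ip m u v| ≤ ∑ _i : κ, ∑ _j : κ, P * (L * Q) := by
  rw [ip_eq]
  refine (abs_re_le_norm _).trans (norm_sum_le_of_le _ fun i _ => norm_sum_le_of_le _ fun j _ => ?_)
  rw [norm_mul, norm_mul, norm_star]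
  exact mul_le_mul ((norm_le_pi_norm u i).trans hu)
    (mul_le_mul (hm i j) ((norm_le_pi_norm v j).trans hv) (norm_nonneg _)
      ((norm_nonneg _).trans (hm i j))) (by positivity) ((norm_nonneg _).trans hu)

end Alg

variable {ι X Y G : Type} [Fintype ι] [DecidableEq ι] [TopologicalSpace X]
  [TopologicalSpace Y] [Group G] [MulAction G Y] {c : Sx ι X Y G}
  {κ : Type} [Fintype κ] {b : Bu G κ} {u v w f : Y → κ → ℂ} {N N' B L : ℝ}
  {D : (Y → κ → ℂ) → Y → κ → ℂ}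

omit [TopologicalSpace Y] in
theorem sec_add (hv : b.Sec v) (hw : b.Sec w) : b.Sec (v + w) :=
  ⟨fun γ y => by simp only [Pi.add_apply, hv.1, hw.1, map_add],
    fun y => b.W.add_mem (hv.2 y) (hw.2 y)⟩

omit [TopologicalSpace Y] in
theorem sec_smul (t : ℝ) (hv : b.Sec v) : b.Sec (t • v) :=
  ⟨fun γ y => by simp only [Pi.smul_apply, hv.1, map_smul], fun y => b.W.smul_mem t (hv.2 y)⟩

omit [TopologicalSpace Y] in
theorem sec_sub (hv : b.Sec v) (hw : b.Sec w) : b.Sec (v - w) :=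
  ⟨fun γ y => by simp only [Pi.sub_apply, hv.1, hw.1, map_sub],
    fun y => b.W.sub_mem (hv.2 y) (hw.2 y)⟩

theorem h2_smul (t : ℝ) (h : c.H2 N v) : c.H2 (8 * ‖(t : ℂ)‖ * N) (t • v) :=
  fun a k => (h a k).const_mul t

theorem h2_sub (h : c.H2 N v) (h' : c.H2 N' w) : c.H2 (N + N') (v - w) :=
  fun a k => (h a k).sub (h' a k)

theorem h2_h0 (h : c.H2 N v) : c.H0 N v := fun a k => (h a k).2.1

theorem h0_sup (hB : 0 ≤ B) (h : c.H0 B v) : c.Sup B v :=
  fun a z hz => (pi_norm_le_iff_of_nonneg hB).2 fun k => (h a k).1 z hz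

theorem h0_max (h : c.H0 B v) : c.H0 (max B 0) v := fun a k => (h a k).mono (le_max_left _ _)

theorem h0_smul {t : ℝ} (ht : |t| ≤ 1) (h : c.H0 B v) : c.H0 B (t • v) := fun a k =>
  ((h a k).const_mul t).mono (by
    rw [norm_real, Real.norm_eq_abs]
    exact mul_le_of_le_one_left ((h a k).nonneg (c.C.zero_mem a)) ht)

theorem ckv (hb : c.Bs) (hv : b.Sec v) (h : c.H2 N v) : c.CkV 2 v :=
  hb.b.ck κ b 2 v hv fun a j z hz => (h a j).1 z hz

theorem nrm (hB : 0 ≤ B) (h : c.Sup B v) :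
    ∃ P ≥ (0 : ℝ), c.Sup P v ∧ ∀ Q ≥ (0 : ℝ), c.Sup Q v → P ≤ Q :=
  ⟨sInf {Q | 0 ≤ Q ∧ c.Sup Q v}, le_csInf ⟨B, hB, h⟩ fun _ q => q.1,
    fun a z hz => le_csInf ⟨B, hB, h⟩ fun _ q => q.2 a z hz,
    fun _ q q' => csInf_le ⟨0, fun _ q => q.1⟩ ⟨q, q'⟩⟩

theorem low_sub (h : c.Low b D L) {t : ℝ} (ht : |t| ≤ 1) :
    c.Low b (fun v => D v - t • v) (|L| + 1) where
  sec v N hv h2 := sec_sub (h.sec v N hv h2) (sec_smul t hv)
  add v w N N' hv hw h2 h2' := by
    rw [h.add v w N N' hv hw h2 h2', smul_add]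
    abel
  smul s v N hv h2 := by rw [h.smul s v N hv h2, smul_sub, smul_comm]
  bd v N B hv h2 h1 a k := by
    have h0 : c.H0 B v := fun a k => (h1 a k).2.1
    have := (h0 a k).nonneg (c.C.zero_mem a)
    exact ((h.bd v N B hv h2 h1 a k).sub (h0_smul ht h0 a k)).mono (by nlinarith [le_abs_self L])

/-- the operator is continuous along bounded sequences. -/
theorem small (hb : c.Bs) (h : c.Low b D L) {𝒰 : Filter ℕ} {d : ℕ → Y → κ → ℂ} (hN : 0 ≤ N)
    (hd : ∀ j, b.Sec (d j) ∧ c.H2 N (d j)) (h0 : ∀ δ > (0 : ℝ), ∀ᶠ j in 𝒰, c.Sup δ (d j))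
    {a : Fin c.C.n} {z : V ι} (hz : z ∈ c.B a) :
    Tendsto (fun j => c.lapV (d j) (c.s a z) + D (d j) (c.s a z)) 𝒰 (𝓝 0) := by
  refine tendsto_zero_iff_norm_tendsto_zero.2 (tendsto_order.2
    ⟨fun ε hε => Eventually.of_forall fun j => hε.trans_le (norm_nonneg _), fun ε hε => ?_⟩)
  have hL := abs_nonneg L
  obtain ⟨η, h1, h2⟩ : ∃ η > (0 : ℝ), (|L| + 1) * (2 * η) < ε :=
    ⟨ε / (4 * (|L| + 1)), by positivity, by
      rw [← mul_div_assoc, ← mul_div_assoc, div_lt_iff₀ (by positivity)]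
      nlinarith⟩
  obtain ⟨K, K0, hK⟩ := hb.b.itp κ (η / (N + 1)) (by positivity)
  filter_upwards [h0 (η / (K + 1)) (by positivity)] with j hj
  obtain ⟨a1, a2⟩ := hK (d j) N _ hN (hd j).2 hj
  have e1 : η / (N + 1) * N ≤ η := by
    rw [div_mul_eq_mul_div, div_le_iff₀ (by positivity)]
    nlinarith
  have e2 : K * (η / (K + 1)) ≤ η := by
    rw [← mul_div_assoc, div_le_iff₀ (by positivity)]
    nlinarith
  have e3 : 0 ≤ η / (N + 1) * N + K * (η / (K + 1)) := by positivity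
  have a3 := h0_sup (mul_nonneg hL e3) (fun a k => (h.bd _ N _ (hd j).1 (hd j).2 a1 a k).mono
    (mul_le_mul_of_nonneg_right (le_abs_self L) e3)) a z hz
  have a4 := norm_add_le (c.lapV (d j) (c.s a z)) (D (d j) (c.s a z))
  have a5 := a2 a z hz
  nlinarith

variable [DecidableEq κ] {m : Y → Mat κ}

theorem met_mono (h : c.Met b m L) : c.Met b m (|L| + 1) :=
  have e : L ≤ |L| + 1 := (le_abs_self L).trans (le_add_of_nonneg_right zero_le_one)
  ⟨h.herm, h.nn, h.inv, fun a i j => (h.bd a i j).mono e, fun a z hz u =>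
    (h.pos a z hz u).trans (mul_le_mul_of_nonneg_right e (h.nn _ _))⟩

theorem ip_inv (h : c.Met b m L) (hv : b.Sec v) (hw : b.Sec w) (γ : G) (y : Y) :
    ip (m (γ • y)) (v (γ • y)) (w (γ • y)) = ip (m y) (v y) (w y) := by
  rw [hv.1, hw.1, h.inv γ y _ (hv.2 y) _ (hw.2 y)]

theorem ip_cont (hb : c.Bs) (h : c.Met b m L) (hv : b.Sec v) (hw : b.Sec w) (h1 : c.H0 N v)
    (h2 : c.H0 N' w) : Continuous fun x => ip (m (c.lf x)) (v (c.lf x)) (w (c.lf x)) := by
  have e := hb.b.ck Unit ⟨1, ⊤, fun _ _ _ => trivial⟩ 0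
    (fun y _ => (ip (m y) (v y) (w y) : ℂ))
    ⟨fun γ y => funext fun _ => congrArg _ (ip_inv h hv hw γ y), fun _ => trivial⟩
    fun a _ z hz => contDiffAt_zero.2 ⟨c.B a, isOpen_ball.mem_nhds hz, by
      simp only [ip_eq]
      exact continuous_ofReal.comp_continuousOn (continuous_re.comp_continuousOn
        (continuousOn_finsetSum _ fun i _ => continuousOn_finsetSum _ fun j _ =>
          (Cau.hol_cont (h1 a i)).star.mul
            ((Cau.hol_cont (h.bd a i j).2.1).mul (Cau.hol_cont (h2 a j)))))⟩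
  exact (continuous_re.comp (hb.a.dsc 0 (fun y => (ip (m y) (v y) (w y) : ℂ))
    (fun γ y => congrArg _ (ip_inv h hv hw γ y)) (e ())).2).congr fun _ => ofReal_re _

theorem ip_bd (hb : c.Bs) (h : c.Met b m L) (hv : b.Sec v) (hw : b.Sec w) {P Q : ℝ}
    (h1 : c.Sup P v) (h2 : c.Sup Q w) (y : Y) :
    |ip (m y) (v y) (w y)| ≤ P * ∑ _i : κ, ∑ _j : κ, L * Q := by
  obtain ⟨γ, a, z, -, hz, rfl⟩ := hb.a.cov y
  rw [ip_inv h hv hw]
  simpa only [Finset.mul_sum] using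
    ip_le _ _ _ (fun i j => (h.bd a i j).2.1.1 z hz) (h1 a z hz) (h2 a z hz)

variable [T2Space X] [CompactSpace X] [MeasurableSpace X] [BorelSpace X] {μ : Measure X}

/-- a uniform limit of sections that are orthogonal to it vanishes. -/
theorem lim_zero (hb : c.Bs) (hμ : c.M.IsVol c.g μ) (h : c.Met b m L) {𝒰 : Filter ℕ} [𝒰.NeBot]
    {d : ℕ → Y → κ → ℂ} (hd : ∀ j, b.Sec (d j) ∧ c.H0 N (d j)) (hu : b.Sec u) (h1 : c.H0 N' u)
    (h0 : ∀ δ > (0 : ℝ), ∀ᶠ j in 𝒰, c.Sup δ (d j - u))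
    (ho : ∀ j, ∫ x, ip (m (c.lf x)) (d j (c.lf x)) (u (c.lf x)) ∂μ = 0) {a : Fin c.C.n} {z : V ι}
    (hz : z ∈ c.B a) : u (c.s a z) = 0 := by
  have hV := (AY.volS' ι X c.M c.g c.hg).2 μ hμ
  have := hV.fin
  have := hV.pos
  have c1 := ip_cont hb h hu hu h1 h1
  have i1 := c1.integrable_of_hasCompactSupport (μ := μ) (HasCompactSupport.of_compactSpace _)
  have e : ∫ x, ip (m (c.lf x)) (u (c.lf x)) (u (c.lf x)) ∂μ = 0 := by
    set C := (∑ _i : κ, ∑ _j : κ, L * max N' 0) * μ.real univ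
    have key : ∀ δ > (0 : ℝ), |∫ x, ip (m (c.lf x)) (u (c.lf x)) (u (c.lf x)) ∂μ| ≤ δ * C := by
      intro δ hδ
      obtain ⟨j, hj⟩ := (h0 δ hδ).exists
      have i2 := (ip_cont hb h (hd j).1 hu (hd j).2 h1).integrable_of_hasCompactSupport (μ := μ)
        (HasCompactSupport.of_compactSpace _)
      have := norm_integral_le_of_norm_le_const (μ := μ) (Eventually.of_forall fun x =>
        show ‖ip (m (c.lf x)) ((d j - u) (c.lf x)) (u (c.lf x))‖ ≤ _ from
          ip_bd hb h (sec_sub (hd j).1 hu) hu hj (h0_sup (le_max_right _ _) (h0_max h1)) _)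
      simp only [Pi.sub_apply, ip_sub] at this
      rwa [integral_sub i2 i1, ho j, zero_sub, norm_neg, mul_assoc] at this
    have t : Tendsto (fun δ : ℝ => δ * C) (𝓝[>] 0) (𝓝 (0 * C)) :=
      (tendsto_id.mono_left nhdsWithin_le_nhds).mul_const C
    rw [zero_mul] at t
    exact abs_nonpos_iff.1 (ge_of_tendsto t (eventually_mem_nhdsWithin.mono key))
  have e' := (c1.ae_eq_iff_eq μ continuous_zero).1
    ((integral_eq_zero_iff_of_nonneg (fun x => h.nn _ _) i1).1 e)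
  obtain ⟨γ, hγ⟩ := hb.a.orb (c.s a z)
  have e2 := congrFun e' (c.p (c.s a z))
  simp only [hγ, ip_inv h hu hu, Pi.zero_apply] at e2
  have := h.pos a z hz (u (c.s a z))
  rw [e2, mul_zero] at this
  exact norm_eq_zero.1 (pow_eq_zero_iff two_ne_zero |>.1 (this.antisymm (sq_nonneg _)))

end CoLz

variable {ι X Y G : Type} [Fintype ι] [DecidableEq ι] [TopologicalSpace X] [T2Space X]
  [CompactSpace X] [MeasurableSpace X] [BorelSpace X] [TopologicalSpace Y] [Group G]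
  [MulAction G Y] {c : Sx ι X Y G} {μ : Measure X}

open CoLz in
theorem lzS (hb : c.Bs) (hμ : c.M.IsVol c.g μ) (h : c.LsS) : c.LzS μ := by
  intro κ _ _ b L m D hm hD hp hs f B hf hB ho
  have hV := (AY.volS' ι X c.M c.g c.hg).2 μ hμ
  have := hV.fin
  replace hB := h0_max hB
  have B0 := le_max_right B 0
  let ε : ℕ → ℝ := fun j => 1 / ((j : ℝ) + 1)
  have ε0 : ∀ j, 0 < ε j := fun j => Nat.one_div_pos_of_nat
  have ε1 : ∀ j, |ε j| ≤ 1 := fun j => by
    rw [abs_of_pos (ε0 j), div_le_one (by positivity)]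
    simp
  obtain ⟨K, K0, hK⟩ := h.apr κ b (|L| + 1)
  have sol : ∀ j, ∃ (w : Y → κ → ℂ) (t : ℝ), t ∈ Icc (0 : ℝ) 1 ∧ b.Sec w ∧
      c.H2 (K * (max B 0 + 1)) w ∧ c.lapV w + D w = ε j • w + t • f ∧
      ∀ Q ≥ (0 : ℝ), c.Sup Q w → 1 - t ≤ Q := fun j => by
    obtain ⟨K', K0', hK'⟩ := h.sol κ b (|L| + 1) (ε j) (ε0 j)
    obtain ⟨v, v1, v2, v3⟩ := hK' m _ (met_mono hm) (low_sub hD (ε1 j)) (fun v N hv h2 y => by
      have := hp v N hv h2 y
      rw [Pi.sub_apply, ← add_sub_assoc, Pi.smul_apply, ip_right]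
      linarith) f _ B0 hf hB
    obtain ⟨P, P0, p1, p2⟩ := nrm (mul_nonneg K0' B0) (h0_sup (mul_nonneg K0' B0) (h2_h0 v2))
    have t0 : 0 < (1 + P)⁻¹ := by positivity
    have t1 : (1 + P)⁻¹ * P = 1 - (1 + P)⁻¹ := by field_simp; ring
    have t2 : (1 + P)⁻¹ ≤ 1 := inv_le_one_of_one_le₀ (by linarith)
    have nm : ∀ y, ‖((1 + P)⁻¹ • v) y‖ = (1 + P)⁻¹ * ‖v y‖ := fun y => by
      rw [Pi.smul_apply, norm_smul, Real.norm_of_nonneg t0.le]
    have e : c.lapV ((1 + P)⁻¹ • v) + (D ((1 + P)⁻¹ • v) - ε j • (1 + P)⁻¹ • v) =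
        (1 + P)⁻¹ • f := by
      rw [(hb.b.lin κ v v _ (ckv hb v1 v2) (ckv hb v1 v2)).2.1, hD.smul _ v _ v1 v2,
        ← show c.lapV v + (D v - ε j • v) = f from funext v3]
      module
    refine ⟨(1 + P)⁻¹ • v, (1 + P)⁻¹, ⟨t0.le, t2⟩, sec_smul _ v1,
      hK m _ (met_mono hm) (low_sub hD (ε1 j)) _ _ _ 1 B0 zero_le_one (sec_smul _ v1)
        (h2_smul _ v2) ?_ fun a z hz => ?_, by rw [← e]; abel, fun Q Q0 hQ => ?_⟩
    · have := h0_smul ((abs_of_pos t0).trans_le t2) hB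
      rw [← e] at this
      exact this
    · rw [nm]
      nlinarith [p1 a z hz]
    · rw [← t1, inv_mul_le_iff₀ (by positivity)]
      refine p2 _ (by positivity) fun a z hz => ?_
      rw [← inv_mul_le_iff₀ (by positivity), ← nm]
      exact hQ a z hz
  choose w t t1 w1 w2 w3 w4 using sol
  obtain ⟨u, u1, u2, u3, u4⟩ := hb.b.ult κ b w _ (hyperfilter ℕ) fun j => ⟨w1 j, w2 j⟩
  obtain ⟨τ, τ1, τ2⟩ := (isCompact_Icc (a := (0 : ℝ)) (b := 1)).ultrafilter_le_nhds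
    ((hyperfilter ℕ).map t) (le_principal_iff.2 (Eventually.of_forall t1 :))
  have εl : Tendsto ε (hyperfilter ℕ) (𝓝 0) :=
    tendsto_one_div_add_atTop_nhds_zero_nat.mono_left Nat.hyperfilter_le_atTop
  have N0 : 0 ≤ K * (max B 0 + 1) := by positivity
  have eq : c.lapV u + D u = τ • f := by
    refine sub_eq_zero.1 (funext (hb.b.zero κ b _ (sec_sub (sec_add (hb.b.lap κ b u u1
      (ckv hb u1 u2)) (hD.sec u _ u1 u2)) (sec_smul τ hf)) fun a z hz => sub_eq_zero.2 ?_))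
    have l1 := (small hb hD (add_nonneg N0 N0)
      (fun j => ⟨sec_sub (w1 j) u1, h2_sub (w2 j) u2⟩) u4 hz).const_add ((c.lapV u + D u) (c.s a z))
    have l2 := (εl.smul (u3 (c.s a z))).add (Tendsto.smul_const τ2 (f (c.s a z)))
    rw [add_zero] at l1
    rw [zero_smul, zero_add] at l2
    refine tendsto_nhds_unique l1 (l2.congr fun j => ?_)
    have e1 := hD.add u (w j - u) _ _ u1 (sec_sub (w1 j) u1) u2 (h2_sub (w2 j) u2)
    rw [add_sub_cancel] at e1
    have e2 := congrFun (w3 j) (c.s a z)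
    rw [(hb.b.lin κ (w j) u 0 (ckv hb (w1 j) (w2 j)) (ckv hb u1 u2)).2.2]
    rw [e1] at e2
    simp only [Pi.add_apply, Pi.sub_apply, Pi.smul_apply] at e2 ⊢
    rw [← e2]
    abel
  rcases τ1.1.eq_or_lt with rfl | τ0
  · exfalso
    rw [zero_smul] at eq
    have o1 := ho u _ u1 u2 (congrFun eq)
    have z0 := fun a z => lim_zero hb hμ hm (a := a) (z := z) (fun j => ⟨w1 j, h2_h0 (w2 j)⟩) u1
      (h2_h0 u2) u4 fun j => by
        have s := hs (w j) u _ _ (w1 j) u1 (w2 j) u2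
        have e1 : ∀ y, c.lapV (w j) y + D (w j) y = ε j • w j y + t j • f y := congrFun (w3 j)
        have e2 : ∀ y, c.lapV u y + D u y = 0 := congrFun eq
        simp only [e1, e2, ip_zero, ip_add, ip_smul, integral_zero] at s
        rw [integral_add, integral_const_mul, integral_const_mul, o1, mul_zero, add_zero] at s
        · exact (mul_eq_zero.1 s).resolve_left (ε0 j).ne'
        · exact ((ip_cont hb hm (w1 j) u1 (h2_h0 (w2 j)) (h2_h0 u2)).const_mul
            _).integrable_of_hasCompactSupport (HasCompactSupport.of_compactSpace _)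
        · exact ((ip_cont hb hm hf u1 hB (h2_h0 u2)).const_mul
            _).integrable_of_hasCompactSupport (HasCompactSupport.of_compactSpace _)
    obtain ⟨j, j1, j2⟩ := ((u4 (1 / 4) (by norm_num)).and
      ((tendsto_order.1 (show Tendsto t (hyperfilter ℕ) (𝓝 0) from τ2)).2 (1 / 4)
        (by norm_num))).exists
    have := w4 j (1 / 4) (by norm_num) fun a z hz => by
      simpa only [Pi.sub_apply, z0 a z hz, sub_zero] using j1 a z hz
    linarith
  · refine ⟨τ⁻¹ • u, _, sec_smul _ u1, h2_smul _ u2, fun y => ?_⟩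
    rw [(hb.b.lin κ u u _ (ckv hb u1 u2) (ckv hb u1 u2)).2.1, hD.smul _ u _ u1 u2, Pi.smul_apply,
      Pi.smul_apply, ← smul_add, show c.lapV u y + D u y = τ • f y from congrFun eq y,
      inv_smul_smul₀ τ0.ne']

end Pool.Agent.Lib.MP_813db1_ag.VH.Co
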