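import Pool.Agent.Lib.MP_813db1_ag.VH.Defs
import Pool.Agent.Lib.MP_813db1_ag.HS.RepB1
import Pool.Agent.Lib.MP_813db1_ag.HS.Calc2

/-! Entrywise calculus for matrix and vector functions. -/

namespace Pool.Agent.Lib.MP_813db1_ag.VH

open Pool.Agent.Lib.MP_813db1_ag.HS Complex Matrix Filter Topology Set
open scoped ContDiff ComplexOrder

set_option linter.unusedSectionVars false

variable {ι σ τ υ r : Type} [Fintype ι] [DecidableEq ι] {z : V ι} {f : V ι → ℂ}
  {F F' : V ι → Matrix σ τ ℂ} {K : V ι → Matrix τ υ ℂ} {x x' : V ι → V σ} {y : V ι → V τ}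

/-- entrywise differentiable matrices. -/
def DfR (F : V ι → Matrix σ τ ℂ) (z : V ι) : Prop :=
  ∀ i j, DifferentiableAt ℝ (fun w => F w i j) z

/-- entrywise differentiable vectors. -/
def DfV (x : V ι → V σ) (z : V ι) : Prop := ∀ i, DifferentiableAt ℝ (fun w => x w i) z

/-- entrywise smooth vectors. -/
def SmV (x : V ι → V σ) (z : V ι) : Prop := ∀ i, ContDiffAt ℝ ∞ (fun w => x w i) z

theorem smV_iff [Fintype σ] : SmV x z ↔ ContDiffAt ℝ ∞ x z := contDiffAt_pi.symm

theorem sm_df (h : ContDiffAt ℝ ∞ f z) : DifferentiableAt ℝ f z := h.differentiableAt (by simp)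

theorem sm_two (h : ContDiffAt ℝ ∞ f z) : ContDiffAt ℝ 2 f z := h.of_le (by norm_cast)

theorem sm_ev (h : ContDiffAt ℝ ∞ f z) : ∀ᶠ w in 𝓝 z, DifferentiableAt ℝ f w :=
  eventually_diff (sm_two h)

/-! ### matrices -/

theorem dR_apply (F : V ι → Matrix σ τ ℂ) (k : ι) (z : V ι) (i : σ) (j : τ) :
    dR F k z i j = dz (fun w => F w i j) k z := rfl

theorem dRb_apply (F : V ι → Matrix σ τ ℂ) (k : ι) (z : V ι) (i : σ) (j : τ) :
    dRb F k z i j = dzb (fun w => F w i j) k z := rfl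

theorem dR_eq (G : V ι → Mat ι) : dR G = dM G := rfl

theorem dRb_eq (G : V ι → Mat ι) : dRb G = dMb G := rfl

theorem dR_congr (h : F =ᶠ[𝓝 z] F') (k : ι) : dR F k z = dR F' k z :=
  Matrix.ext fun i j => dz_congr (h.mono fun _ e => congrFun₂ e i j) k

theorem dRb_congr (h : F =ᶠ[𝓝 z] F') (k : ι) : dRb F k z = dRb F' k z :=
  Matrix.ext fun i j => dzb_congr (h.mono fun _ e => congrFun₂ e i j) k

theorem dR_ev (h : F =ᶠ[𝓝 z] F') (k : ι) : dR F k =ᶠ[𝓝 z] dR F' k :=
  h.eventuallyEq_nhds.mono fun _ e => dR_congr e k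

theorem dRb_ev (h : F =ᶠ[𝓝 z] F') (k : ι) : dRb F k =ᶠ[𝓝 z] dRb F' k :=
  h.eventuallyEq_nhds.mono fun _ e => dRb_congr e k

theorem dR_const (A : Matrix σ τ ℂ) (k : ι) (z : V ι) : dR (fun _ => A) k z = 0 :=
  Matrix.ext fun i j => dz_const (A i j) k z

theorem dRb_const (A : Matrix σ τ ℂ) (k : ι) (z : V ι) : dRb (fun _ => A) k z = 0 :=
  Matrix.ext fun i j => dzb_const (A i j) k z

theorem dR_neg (F : V ι → Matrix σ τ ℂ) (k : ι) (z : V ι) : dR (fun w => -F w) k z = -dR F k z :=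
  Matrix.ext fun i j => dz_neg (fun w => F w i j) k z

theorem dRb_neg (F : V ι → Matrix σ τ ℂ) (k : ι) (z : V ι) :
    dRb (fun w => -F w) k z = -dRb F k z :=
  Matrix.ext fun i j => dzb_neg (fun w => F w i j) k z

theorem dR_tr (F : V ι → Matrix σ τ ℂ) (k : ι) (z : V ι) : dR (fun w => (F w)ᵀ) k z = (dR F k z)ᵀ :=
  rfl

theorem dRb_tr (F : V ι → Matrix σ τ ℂ) (k : ι) (z : V ι) :
    dRb (fun w => (F w)ᵀ) k z = (dRb F k z)ᵀ := rfl

theorem dR_star (F : V ι → Matrix σ τ ℂ) (k : ι) (z : V ι) :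
    dR (fun w => (F w).map star) k z = (dRb F k z).map star :=
  Matrix.ext fun i j => dz_star (fun w => F w i j) k z

theorem dRb_star (F : V ι → Matrix σ τ ℂ) (k : ι) (z : V ι) :
    dRb (fun w => (F w).map star) k z = (dR F k z).map star :=
  Matrix.ext fun i j => dzb_star (fun w => F w i j) k z

theorem dR_conjT (F : V ι → Matrix σ τ ℂ) (k : ι) (z : V ι) :
    dR (fun w => (F w)ᴴ) k z = (dRb F k z)ᴴ :=
  Matrix.ext fun i j => dz_star (fun w => F w j i) k z

theorem dRb_conjT (F : V ι → Matrix σ τ ℂ) (k : ι) (z : V ι) :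
    dRb (fun w => (F w)ᴴ) k z = (dR F k z)ᴴ :=
  Matrix.ext fun i j => dzb_star (fun w => F w j i) k z

theorem dRb_real (h : ∀ᶠ w in 𝓝 z, (F w).map star = F w) (k : ι) :
    dRb F k z = (dR F k z).map star :=
  (dRb_congr (h.mono fun _ e => e.symm) k).trans (dRb_star F k z)

theorem dR_real (h : ∀ᶠ w in 𝓝 z, (F w).map star = F w) (k : ι) :
    dR F k z = (dRb F k z).map star :=
  (dR_congr (h.mono fun _ e => e.symm) k).trans (dR_star F k z)

theorem dR_add (h : DfR F z) (h' : DfR F' z) (k : ι) :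
    dR (fun w => F w + F' w) k z = dR F k z + dR F' k z :=
  Matrix.ext fun i j => dz_add (h i j) (h' i j) k

theorem dRb_add (h : DfR F z) (h' : DfR F' z) (k : ι) :
    dRb (fun w => F w + F' w) k z = dRb F k z + dRb F' k z :=
  Matrix.ext fun i j => dzb_add (h i j) (h' i j) k

theorem dR_sub (h : DfR F z) (h' : DfR F' z) (k : ι) :
    dR (fun w => F w - F' w) k z = dR F k z - dR F' k z :=
  Matrix.ext fun i j => dz_sub (h i j) (h' i j) k

theorem dRb_sub (h : DfR F z) (h' : DfR F' z) (k : ι) :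
    dRb (fun w => F w - F' w) k z = dRb F k z - dRb F' k z :=
  Matrix.ext fun i j => dzb_sub (h i j) (h' i j) k

theorem dR_smul (hf : DifferentiableAt ℝ f z) (h : DfR F z) (k : ι) :
    dR (fun w => f w • F w) k z = dz f k z • F z + f z • dR F k z :=
  Matrix.ext fun i j => dz_mul hf (h i j) k

theorem dRb_smul (hf : DifferentiableAt ℝ f z) (h : DfR F z) (k : ι) :
    dRb (fun w => f w • F w) k z = dzb f k z • F z + f z • dRb F k z :=
  Matrix.ext fun i j => dzb_mul hf (h i j) k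

theorem dR_csmul (c : ℂ) (h : DfR F z) (k : ι) : dR (fun w => c • F w) k z = c • dR F k z :=
  Matrix.ext fun i j => dz_cmul c (h i j) k

theorem dRb_csmul (c : ℂ) (h : DfR F z) (k : ι) : dRb (fun w => c • F w) k z = c • dRb F k z :=
  Matrix.ext fun i j => dzb_cmul c (h i j) k

theorem dR_sum {κ : Type} (s : Finset κ) {A : κ → V ι → Matrix σ τ ℂ} (h : ∀ a ∈ s, DfR (A a) z)
    (k : ι) : dR (fun w => ∑ a ∈ s, A a w) k z = ∑ a ∈ s, dR (A a) k z := by
  ext i j
  simp only [dR_apply, Matrix.sum_apply]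
  exact dz_sum s (fun a ha => h a ha i j) k

theorem dRb_sum {κ : Type} (s : Finset κ) {A : κ → V ι → Matrix σ τ ℂ} (h : ∀ a ∈ s, DfR (A a) z)
    (k : ι) : dRb (fun w => ∑ a ∈ s, A a w) k z = ∑ a ∈ s, dRb (A a) k z := by
  ext i j
  simp only [dRb_apply, Matrix.sum_apply]
  exact dzb_sum s (fun a ha => h a ha i j) k

theorem dR_mul [Fintype τ] (h : DfR F z) (h' : DfR K z) (k : ι) :
    dR (fun w => F w * K w) k z = dR F k z * K z + F z * dR K k z := by
  ext i j
  simp only [dR_apply, mul_apply, Matrix.add_apply, ← Finset.sum_add_distrib]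
  rw [dz_sum _ fun a _ => (h i a).fun_mul (h' a j)]
  exact Finset.sum_congr rfl fun a _ => dz_mul (h i a) (h' a j) k

theorem dRb_mul [Fintype τ] (h : DfR F z) (h' : DfR K z) (k : ι) :
    dRb (fun w => F w * K w) k z = dRb F k z * K z + F z * dRb K k z := by
  ext i j
  simp only [dRb_apply, mul_apply, Matrix.add_apply, ← Finset.sum_add_distrib]
  rw [dzb_sum _ fun a _ => (h i a).fun_mul (h' a j)]
  exact Finset.sum_congr rfl fun a _ => dzb_mul (h i a) (h' a j) k

namespace DfR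

theorem const (A : Matrix σ τ ℂ) : DfR (fun _ => A) z := fun _ _ => differentiableAt_const _

theorem congr (h : DfR F z) (e : F' =ᶠ[𝓝 z] F) : DfR F' z :=
  fun i j => (h i j).congr_of_eventuallyEq (e.mono fun _ e => congrFun₂ e i j)

theorem add (h : DfR F z) (h' : DfR F' z) : DfR (fun w => F w + F' w) z :=
  fun i j => (h i j).fun_add (h' i j)

theorem sub (h : DfR F z) (h' : DfR F' z) : DfR (fun w => F w - F' w) z :=
  fun i j => (h i j).fun_sub (h' i j)

theorem neg (h : DfR F z) : DfR (fun w => -F w) z := fun i j => (h i j).fun_neg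

theorem smul (hf : DifferentiableAt ℝ f z) (h : DfR F z) : DfR (fun w => f w • F w) z :=
  fun i j => hf.fun_mul (h i j)

theorem mul [Fintype τ] (h : DfR F z) (h' : DfR K z) : DfR (fun w => F w * K w) z :=
  fun i j => DifferentiableAt.fun_sum fun a _ => (h i a).fun_mul (h' a j)

theorem tr (h : DfR F z) : DfR (fun w => (F w)ᵀ) z := fun i j => h j i

theorem conjT (h : DfR F z) : DfR (fun w => (F w)ᴴ) z := fun i j => (h j i).star

theorem mulVec [Fintype τ] (h : DfR F z) (h' : DfV y z) : DfV (fun w => F w *ᵥ y w) z :=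
  fun i => DifferentiableAt.fun_sum fun a _ => (h i a).fun_mul (h' a)

end DfR

theorem dR_cmul [Fintype τ] (A : Matrix σ τ ℂ) (h : DfR K z) (k : ι) :
    dR (fun w => A * K w) k z = A * dR K k z := by
  rw [dR_mul (DfR.const A) h, dR_const, Matrix.zero_mul, zero_add]

theorem dRb_cmul [Fintype τ] (A : Matrix σ τ ℂ) (h : DfR K z) (k : ι) :
    dRb (fun w => A * K w) k z = A * dRb K k z := by
  rw [dRb_mul (DfR.const A) h, dRb_const, Matrix.zero_mul, zero_add]

theorem dR_mulc [Fintype τ] (h : DfR F z) (A : Matrix τ υ ℂ) (k : ι) :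
    dR (fun w => F w * A) k z = dR F k z * A := by
  rw [dR_mul h (DfR.const A), dR_const, Matrix.mul_zero, add_zero]

theorem dRb_mulc [Fintype τ] (h : DfR F z) (A : Matrix τ υ ℂ) (k : ι) :
    dRb (fun w => F w * A) k z = dRb F k z * A := by
  rw [dRb_mul h (DfR.const A), dRb_const, Matrix.mul_zero, add_zero]

namespace SmR

theorem df (h : SmR F z) : DfR F z := fun i j => sm_df (h i j)

theorem ev [Finite σ] [Finite τ] (h : SmR F z) : ∀ᶠ w in 𝓝 z, DfR F w :=
  eventually_all.2 fun i => eventually_all.2 fun j => sm_ev (h i j)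

theorem const (A : Matrix σ τ ℂ) : SmR (fun _ => A) z := fun _ _ => contDiffAt_const

theorem congr (h : SmR F z) (e : F' =ᶠ[𝓝 z] F) : SmR F' z :=
  fun i j => (h i j).congr_of_eventuallyEq (e.mono fun _ e => congrFun₂ e i j)

theorem add (h : SmR F z) (h' : SmR F' z) : SmR (fun w => F w + F' w) z :=
  fun i j => (h i j).add (h' i j)

theorem sub (h : SmR F z) (h' : SmR F' z) : SmR (fun w => F w - F' w) z :=
  fun i j => (h i j).sub (h' i j)

theorem neg (h : SmR F z) : SmR (fun w => -F w) z := fun i j => (h i j).neg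

theorem smul (hf : ContDiffAt ℝ ∞ f z) (h : SmR F z) : SmR (fun w => f w • F w) z :=
  fun i j => hf.mul (h i j)

theorem csmul (c : ℂ) (h : SmR F z) : SmR (fun w => c • F w) z := h.smul contDiffAt_const

theorem sum {κ : Type} (s : Finset κ) {A : κ → V ι → Matrix σ τ ℂ} (h : ∀ a ∈ s, SmR (A a) z) :
    SmR (fun w => ∑ a ∈ s, A a w) z := fun i j => by
  simp only [Matrix.sum_apply]
  exact ContDiffAt.sum fun a ha => h a ha i j

theorem mul [Fintype τ] (h : SmR F z) (h' : SmR K z) : SmR (fun w => F w * K w) z :=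
  fun i j => ContDiffAt.sum fun a _ => (h i a).mul (h' a j)

theorem tr (h : SmR F z) : SmR (fun w => (F w)ᵀ) z := fun i j => h j i

theorem star (h : SmR F z) : SmR (fun w => (F w).map star) z :=
  fun i j => (conjCLE.contDiff.contDiffAt).comp z (h i j)

theorem conjT (h : SmR F z) : SmR (fun w => (F w)ᴴ) z := h.star.tr

theorem dR (h : SmR F z) (k : ι) : SmR (dR F k) z := fun i j => contDiffAt_dz_top (h i j) k

theorem dRb (h : SmR F z) (k : ι) : SmR (dRb F k) z := fun i j => contDiffAt_dzb_top (h i j) k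

theorem mulVec [Fintype τ] (h : SmR F z) (h' : SmV y z) : SmV (fun w => F w *ᵥ y w) z :=
  fun i => ContDiffAt.sum fun a _ => (h i a).mul (h' a)

end SmR

theorem dR_dRb_comm (h : SmR F z) (k l : ι) : dR (dRb F l) k z = dRb (dR F k) l z :=
  Matrix.ext fun i j => dz_dzb_comm (sm_two (h i j)) k l

theorem dR_dR_comm (h : SmR F z) (k l : ι) : dR (dR F l) k z = dR (dR F k) l z :=
  Matrix.ext fun i j => dz_dz_comm (sm_two (h i j)) k l

theorem dRb_dRb_comm (h : SmR F z) (k l : ι) : dRb (dRb F l) k z = dRb (dRb F k) l z :=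
  Matrix.ext fun i j => dzb_dzb_comm (sm_two (h i j)) k l

/-! ### vectors -/

theorem dV_congr (h : x =ᶠ[𝓝 z] x') (k : ι) : dV x k z = dV x' k z :=
  funext fun i => dz_congr (h.mono fun _ e => congrFun e i) k

theorem dVb_congr (h : x =ᶠ[𝓝 z] x') (k : ι) : dVb x k z = dVb x' k z :=
  funext fun i => dzb_congr (h.mono fun _ e => congrFun e i) k

theorem dV_ev (h : x =ᶠ[𝓝 z] x') (k : ι) : dV x k =ᶠ[𝓝 z] dV x' k :=
  h.eventuallyEq_nhds.mono fun _ e => dV_congr e k

theorem dVb_ev (h : x =ᶠ[𝓝 z] x') (k : ι) : dVb x k =ᶠ[𝓝 z] dVb x' k :=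
  h.eventuallyEq_nhds.mono fun _ e => dVb_congr e k

theorem dV_const (a : V σ) (k : ι) (z : V ι) : dV (fun _ => a) k z = 0 :=
  funext fun i => dz_const (a i) k z

theorem dVb_const (a : V σ) (k : ι) (z : V ι) : dVb (fun _ => a) k z = 0 :=
  funext fun i => dzb_const (a i) k z

theorem dV_neg (x : V ι → V σ) (k : ι) (z : V ι) : dV (fun w => -x w) k z = -dV x k z :=
  funext fun i => dz_neg (fun w => x w i) k z

theorem dVb_neg (x : V ι → V σ) (k : ι) (z : V ι) : dVb (fun w => -x w) k z = -dVb x k z :=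
  funext fun i => dzb_neg (fun w => x w i) k z

theorem dV_star (x : V ι → V σ) (k : ι) (z : V ι) :
    dV (fun w => star (x w)) k z = star (dVb x k z) :=
  funext fun i => dz_star (fun w => x w i) k z

theorem dVb_star (x : V ι → V σ) (k : ι) (z : V ι) :
    dVb (fun w => star (x w)) k z = star (dV x k z) :=
  funext fun i => dzb_star (fun w => x w i) k z

theorem dVb_real (h : ∀ᶠ w in 𝓝 z, star (x w) = x w) (k : ι) : dVb x k z = star (dV x k z) :=
  (dVb_congr (h.mono fun _ e => e.symm) k).trans (dVb_star x k z)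

theorem dV_real (h : ∀ᶠ w in 𝓝 z, star (x w) = x w) (k : ι) : dV x k z = star (dVb x k z) :=
  (dV_congr (h.mono fun _ e => e.symm) k).trans (dV_star x k z)

theorem dV_add (h : DfV x z) (h' : DfV x' z) (k : ι) :
    dV (fun w => x w + x' w) k z = dV x k z + dV x' k z := funext fun i => dz_add (h i) (h' i) k

theorem dVb_add (h : DfV x z) (h' : DfV x' z) (k : ι) :
    dVb (fun w => x w + x' w) k z = dVb x k z + dVb x' k z := funext fun i => dzb_add (h i) (h' i) k

theorem dV_sub (h : DfV x z) (h' : DfV x' z) (k : ι) :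
    dV (fun w => x w - x' w) k z = dV x k z - dV x' k z := funext fun i => dz_sub (h i) (h' i) k

theorem dVb_sub (h : DfV x z) (h' : DfV x' z) (k : ι) :
    dVb (fun w => x w - x' w) k z = dVb x k z - dVb x' k z := funext fun i => dzb_sub (h i) (h' i) k

theorem dV_smul (hf : DifferentiableAt ℝ f z) (h : DfV x z) (k : ι) :
    dV (fun w => f w • x w) k z = dz f k z • x z + f z • dV x k z :=
  funext fun i => dz_mul hf (h i) k

theorem dVb_smul (hf : DifferentiableAt ℝ f z) (h : DfV x z) (k : ι) :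
    dVb (fun w => f w • x w) k z = dzb f k z • x z + f z • dVb x k z :=
  funext fun i => dzb_mul hf (h i) k

theorem dV_csmul (c : ℂ) (h : DfV x z) (k : ι) : dV (fun w => c • x w) k z = c • dV x k z :=
  funext fun i => dz_cmul c (h i) k

theorem dVb_csmul (c : ℂ) (h : DfV x z) (k : ι) : dVb (fun w => c • x w) k z = c • dVb x k z :=
  funext fun i => dzb_cmul c (h i) k

theorem dV_sum {κ : Type} (s : Finset κ) {a : κ → V ι → V σ} (h : ∀ j ∈ s, DfV (a j) z) (k : ι) :
    dV (fun w => ∑ j ∈ s, a j w) k z = ∑ j ∈ s, dV (a j) k z := by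
  funext i
  simp only [dV, Finset.sum_apply]
  exact dz_sum s (fun j hj => h j hj i) k

theorem dVb_sum {κ : Type} (s : Finset κ) {a : κ → V ι → V σ} (h : ∀ j ∈ s, DfV (a j) z) (k : ι) :
    dVb (fun w => ∑ j ∈ s, a j w) k z = ∑ j ∈ s, dVb (a j) k z := by
  funext i
  simp only [dVb, Finset.sum_apply]
  exact dzb_sum s (fun j hj => h j hj i) k

theorem dV_mulVec [Fintype τ] (h : DfR F z) (h' : DfV y z) (k : ι) :
    dV (fun w => F w *ᵥ y w) k z = dR F k z *ᵥ y z + F z *ᵥ dV y k z := by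
  funext i
  simp only [dV, dR_apply, mulVec, dotProduct, Pi.add_apply, ← Finset.sum_add_distrib]
  rw [dz_sum _ fun a _ => (h i a).fun_mul (h' a)]
  exact Finset.sum_congr rfl fun a _ => dz_mul (h i a) (h' a) k

theorem dVb_mulVec [Fintype τ] (h : DfR F z) (h' : DfV y z) (k : ι) :
    dVb (fun w => F w *ᵥ y w) k z = dRb F k z *ᵥ y z + F z *ᵥ dVb y k z := by
  funext i
  simp only [dVb, dRb_apply, mulVec, dotProduct, Pi.add_apply, ← Finset.sum_add_distrib]
  rw [dzb_sum _ fun a _ => (h i a).fun_mul (h' a)]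
  exact Finset.sum_congr rfl fun a _ => dzb_mul (h i a) (h' a) k

theorem dV_cmulVec [Fintype τ] (A : Matrix σ τ ℂ) (h : DfV y z) (k : ι) :
    dV (fun w => A *ᵥ y w) k z = A *ᵥ dV y k z := by
  rw [dV_mulVec (DfR.const A) h, dR_const, zero_mulVec, zero_add]

theorem dVb_cmulVec [Fintype τ] (A : Matrix σ τ ℂ) (h : DfV y z) (k : ι) :
    dVb (fun w => A *ᵥ y w) k z = A *ᵥ dVb y k z := by
  rw [dVb_mulVec (DfR.const A) h, dRb_const, zero_mulVec, zero_add]

theorem dz_dot [Fintype σ] (h : DfV x z) (h' : DfV x' z) (k : ι) :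
    dz (fun w => x w ⬝ᵥ x' w) k z = dV x k z ⬝ᵥ x' z + x z ⬝ᵥ dV x' k z := by
  simp only [dV, dotProduct, ← Finset.sum_add_distrib]
  rw [dz_sum _ fun a _ => (h a).fun_mul (h' a)]
  exact Finset.sum_congr rfl fun a _ => dz_mul (h a) (h' a) k

theorem dzb_dot [Fintype σ] (h : DfV x z) (h' : DfV x' z) (k : ι) :
    dzb (fun w => x w ⬝ᵥ x' w) k z = dVb x k z ⬝ᵥ x' z + x z ⬝ᵥ dVb x' k z := by
  simp only [dVb, dotProduct, ← Finset.sum_add_distrib]
  rw [dzb_sum _ fun a _ => (h a).fun_mul (h' a)]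
  exact Finset.sum_congr rfl fun a _ => dzb_mul (h a) (h' a) k

namespace DfV

theorem const (a : V σ) : DfV (fun _ => a) z := fun _ => differentiableAt_const _

theorem congr (h : DfV x z) (e : x' =ᶠ[𝓝 z] x) : DfV x' z :=
  fun i => (h i).congr_of_eventuallyEq (e.mono fun _ e => congrFun e i)

theorem add (h : DfV x z) (h' : DfV x' z) : DfV (fun w => x w + x' w) z :=
  fun i => (h i).fun_add (h' i)

theorem sub (h : DfV x z) (h' : DfV x' z) : DfV (fun w => x w - x' w) z :=
  fun i => (h i).fun_sub (h' i)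

theorem neg (h : DfV x z) : DfV (fun w => -x w) z := fun i => (h i).fun_neg

theorem smul (hf : DifferentiableAt ℝ f z) (h : DfV x z) : DfV (fun w => f w • x w) z :=
  fun i => hf.fun_mul (h i)

theorem star (h : DfV x z) : DfV (fun w => star (x w)) z := fun i => (h i).star

theorem dot [Fintype σ] (h : DfV x z) (h' : DfV x' z) :
    DifferentiableAt ℝ (fun w => x w ⬝ᵥ x' w) z :=
  DifferentiableAt.fun_sum fun a _ => (h a).fun_mul (h' a)

end DfV

namespace SmV

theorem df (h : SmV x z) : DfV x z := fun i => sm_df (h i)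

theorem ev [Finite σ] (h : SmV x z) : ∀ᶠ w in 𝓝 z, DfV x w := eventually_all.2 fun i => sm_ev (h i)

theorem const (a : V σ) : SmV (fun _ => a) z := fun _ => contDiffAt_const

theorem congr (h : SmV x z) (e : x' =ᶠ[𝓝 z] x) : SmV x' z :=
  fun i => (h i).congr_of_eventuallyEq (e.mono fun _ e => congrFun e i)

theorem add (h : SmV x z) (h' : SmV x' z) : SmV (fun w => x w + x' w) z := fun i => (h i).add (h' i)

theorem sub (h : SmV x z) (h' : SmV x' z) : SmV (fun w => x w - x' w) z := fun i => (h i).sub (h' i)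

theorem neg (h : SmV x z) : SmV (fun w => -x w) z := fun i => (h i).neg

theorem smul (hf : ContDiffAt ℝ ∞ f z) (h : SmV x z) : SmV (fun w => f w • x w) z :=
  fun i => hf.mul (h i)

theorem csmul (c : ℂ) (h : SmV x z) : SmV (fun w => c • x w) z := h.smul contDiffAt_const

theorem sum {κ : Type} (s : Finset κ) {a : κ → V ι → V σ} (h : ∀ j ∈ s, SmV (a j) z) :
    SmV (fun w => ∑ j ∈ s, a j w) z := fun i => by
  simp only [Finset.sum_apply]
  exact ContDiffAt.sum fun j hj => h j hj i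

theorem star (h : SmV x z) : SmV (fun w => star (x w)) z :=
  fun i => (conjCLE.contDiff.contDiffAt).comp z (h i)

theorem dot [Fintype σ] (h : SmV x z) (h' : SmV x' z) : ContDiffAt ℝ ∞ (fun w => x w ⬝ᵥ x' w) z :=
  ContDiffAt.sum fun a _ => (h a).mul (h' a)

theorem dV (h : SmV x z) (k : ι) : SmV (dV x k) z := fun i => contDiffAt_dz_top (h i) k

theorem dVb (h : SmV x z) (k : ι) : SmV (dVb x k) z := fun i => contDiffAt_dzb_top (h i) k

end SmV

theorem dV_dVb_comm (h : SmV x z) (k l : ι) : dV (dVb x l) k z = dVb (dV x k) l z :=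
  funext fun i => dz_dzb_comm (sm_two (h i)) k l

theorem dV_dV_comm (h : SmV x z) (k l : ι) : dV (dV x l) k z = dV (dV x k) l z :=
  funext fun i => dz_dz_comm (sm_two (h i)) k l

theorem dVb_dVb_comm (h : SmV x z) (k l : ι) : dVb (dVb x l) k z = dVb (dVb x k) l z :=
  funext fun i => dzb_dzb_comm (sm_two (h i)) k l

/-! ### holomorphic changes of variables -/

section comp

variable {φ : V ι → V ι}

theorem dV_comp (h : DfV x (φ z)) (hφ : DifferentiableAt ℂ φ z) (i : ι) :
    dV (x ∘ φ) i z = ∑ l, jac φ z l i • dV x l (φ z) := by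
  funext a
  simp only [Finset.sum_apply, Pi.smul_apply, smul_eq_mul]
  exact dz_comp (h a) hφ i

theorem dVb_comp (h : DfV x (φ z)) (hφ : DifferentiableAt ℂ φ z) (i : ι) :
    dVb (x ∘ φ) i z = ∑ l, star (jac φ z l i) • dVb x l (φ z) := by
  funext a
  simp only [Finset.sum_apply, Pi.smul_apply, smul_eq_mul]
  exact dzb_comp (h a) hφ i

theorem dR_comp (h : DfR F (φ z)) (hφ : DifferentiableAt ℂ φ z) (i : ι) :
    dR (F ∘ φ) i z = ∑ l, jac φ z l i • dR F l (φ z) := by
  ext a b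
  simp only [Matrix.sum_apply, Matrix.smul_apply, smul_eq_mul]
  exact dz_comp (h a b) hφ i

theorem dRb_comp (h : DfR F (φ z)) (hφ : DifferentiableAt ℂ φ z) (i : ι) :
    dRb (F ∘ φ) i z = ∑ l, star (jac φ z l i) • dRb F l (φ z) := by
  ext a b
  simp only [Matrix.sum_apply, Matrix.smul_apply, smul_eq_mul]
  exact dzb_comp (h a b) hφ i

theorem pull_apply (J B : Mat ι) (i j : ι) :
    pull J B i j = ∑ l, ∑ m, (J l i * star (J m j)) * B l m := by
  simp only [pull, mul_apply, transpose_apply, map_apply, Finset.sum_mul]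
  rw [Finset.sum_comm]
  exact Finset.sum_congr rfl fun l _ => Finset.sum_congr rfl fun m _ => by ring

theorem dV_dVb_comp (h : SmV x (φ z)) (hφ : AnalyticAt ℂ φ z) (i j : ι) :
    dV (dVb (x ∘ φ) j) i z =
      ∑ l, ∑ m, (jac φ z l i * star (jac φ z m j)) • dV (dVb x m) l (φ z) := by
  funext a
  simp only [Finset.sum_apply, Pi.smul_apply, smul_eq_mul]
  exact (congrFun₂ (levi_comp (sm_two (h a)) hφ) i j).trans (pull_apply _ _ i j)

theorem dR_dRb_comp (h : SmR F (φ z)) (hφ : AnalyticAt ℂ φ z) (i j : ι) :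
    dR (dRb (F ∘ φ) j) i z =
      ∑ l, ∑ m, (jac φ z l i * star (jac φ z m j)) • dR (dRb F m) l (φ z) := by
  ext a b
  simp only [Matrix.sum_apply, Matrix.smul_apply, smul_eq_mul]
  exact (congrFun₂ (levi_comp (sm_two (h a b)) hφ) i j).trans (pull_apply _ _ i j)

theorem tg_pull {E : Type} [AddCommGroup E] [Module ℂ E] {J : Mat ι} (hJ : J.det ≠ 0) (g : Mat ι)
    (B : ι → ι → E) :
    tg (pull J g) (fun i j => ∑ l, ∑ m, (J l i * star (J m j)) • B l m) = tg g B := by
  have e : J.map star * (pull J g)⁻¹ * Jᵀ = g⁻¹ := by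
    rw [RepB.inv_pull, ← Matrix.mul_assoc, ← Matrix.mul_assoc, mul_nonsing_inv _ (RepB.unit_bar hJ),
      Matrix.one_mul, Matrix.mul_assoc, nonsing_inv_mul _ (RepB.unit_tr hJ), Matrix.mul_one]
  simp only [tg, Finset.smul_sum, smul_smul, ← e, mul_apply, transpose_apply, map_apply,
    Finset.sum_mul, Finset.sum_smul]
  calc _ = ∑ i, ∑ l, ∑ m, ∑ j, ((pull J g)⁻¹ j i * (J l i * star (J m j))) • B l m :=
        Finset.sum_congr rfl fun i _ => by
          rw [Finset.sum_comm]
          exact Finset.sum_congr rfl fun l _ => Finset.sum_comm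
    _ = _ := by
      rw [Finset.sum_comm]
      refine Finset.sum_congr rfl fun l _ => ?_
      rw [Finset.sum_comm]
      exact Finset.sum_congr rfl fun m _ => Finset.sum_congr rfl fun i _ =>
        Finset.sum_congr rfl fun j _ => by congr 1; ring

end comp

/-! ### metrics -/

variable [Fintype r] [DecidableEq r] {H H' : V ι → Mat r}

theorem dz_tr (h : DfR H z) (k : ι) : dz (fun w => trace (H w)) k z = trace (dR H k z) :=
  dz_sum _ (fun a _ => h a a) k

theorem dzb_tr (h : DfR H z) (k : ι) : dzb (fun w => trace (H w)) k z = trace (dRb H k z) :=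
  dzb_sum _ (fun a _ => h a a) k

theorem SmR.trace (h : SmR H z) : ContDiffAt ℝ ∞ (fun w => trace (H w)) z :=
  ContDiffAt.sum fun a _ => h a a

theorem SmR.det (h : SmR H z) : ContDiffAt ℝ ∞ (fun w => (H w).det) z := by
  simp only [det_apply']
  exact ContDiffAt.sum fun s _ => contDiffAt_const.mul (contDiffAt_prod fun i _ => h _ i)

theorem SmR.inv (h : SmR H z) (h0 : (H z).det ≠ 0) : SmR (fun w => (H w)⁻¹) z := fun i j => by
  have e : (fun w => (H w)⁻¹ i j) = fun w =>
      ((H w).det)⁻¹ * ((H w).updateRow j (Pi.single i 1)).det := funext fun w => by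
    rw [Matrix.inv_def, Ring.inverse_eq_inv', Matrix.smul_apply, smul_eq_mul, adjugate_apply]
  rw [e]
  refine (h.det.inv h0).mul
    (SmR.det (H := fun w => (H w).updateRow j (Pi.single i 1)) fun a b => ?_)
  simp only [updateRow_apply]
  split_ifs
  · exact contDiffAt_const
  · exact h a b

theorem SmR.det_ev (h : SmR H z) (h0 : (H z).det ≠ 0) : ∀ᶠ w in 𝓝 z, (H w).det ≠ 0 :=
  h.det.continuousAt.eventually_ne h0

theorem dR_inv (h : SmR H z) (h0 : (H z).det ≠ 0) (k : ι) :
    dR (fun w => (H w)⁻¹) k z = -((H z)⁻¹ * dR H k z * (H z)⁻¹) :=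
  inv_of_deriv h0 ((dR_mul h.df (h.inv h0).df k).symm.trans
    ((dR_congr ((h.det_ev h0).mono fun _ e => mul_nonsing_inv _ e.isUnit) k).trans (dR_const 1 k z)))

theorem dRb_inv (h : SmR H z) (h0 : (H z).det ≠ 0) (k : ι) :
    dRb (fun w => (H w)⁻¹) k z = -((H z)⁻¹ * dRb H k z * (H z)⁻¹) :=
  inv_of_deriv h0 ((dRb_mul h.df (h.inv h0).df k).symm.trans
    ((dRb_congr ((h.det_ev h0).mono fun _ e => mul_nonsing_inv _ e.isUnit) k).trans
      (dRb_const 1 k z)))

theorem SmR.ca (h : SmR H z) (h0 : (H z).det ≠ 0) (k : ι) : SmR (ca H k) z :=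
  (h.inv h0).mul (h.dR k)

theorem SmR.cb (h : SmR H z) (h0 : (H z).det ≠ 0) (k : ι) : SmR (cb H k) z :=
  (h.inv h0).mul (h.dRb k)

theorem ca_congr (h : H =ᶠ[𝓝 z] H') (k : ι) : ca H k z = ca H' k z := by
  rw [ca, ca, dR_congr h, h.eq_of_nhds]

theorem cb_congr (h : H =ᶠ[𝓝 z] H') (k : ι) : cb H k z = cb H' k z := by
  rw [cb, cb, dRb_congr h, h.eq_of_nhds]

theorem ph_congr (h : H =ᶠ[𝓝 z] H') (i j : ι) : ph H i j z = ph H' i j z := by
  rw [ph, ph, ca_congr h, cb_congr h, dR_congr (dRb_ev h j), h.eq_of_nhds]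

theorem px_congr {u u' : V ι → V r} (h : H =ᶠ[𝓝 z] H') (h' : u =ᶠ[𝓝 z] u') (i j : ι) :
    px H u i j z = px H' u' i j z := by
  rw [px, px, ca_congr h, cb_congr h, dV_congr (dVb_ev h' j), dV_congr h', dVb_congr h']

theorem mul_ca (h0 : (H z).det ≠ 0) (k : ι) : H z * ca H k z = dR H k z := by
  rw [ca, mul_nonsing_inv_cancel_left _ _ h0.isUnit]

theorem mul_cb (h0 : (H z).det ≠ 0) (k : ι) : H z * cb H k z = dRb H k z := by
  rw [cb, mul_nonsing_inv_cancel_left _ _ h0.isUnit]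

theorem dRb_ca (h : SmR H z) (h0 : (H z).det ≠ 0) (i j : ι) :
    dRb (ca H i) j z = (H z)⁻¹ * dR (dRb H j) i z - cb H j z * ca H i z := by
  have := dRb_mul (h.inv h0).df (h.dR i).df j
  rw [dRb_inv h h0, ← dR_dRb_comm h] at this
  refine this.trans ?_
  simp only [ca, cb, Matrix.neg_mul, Matrix.mul_assoc]
  abel

theorem dR_cb (h : SmR H z) (h0 : (H z).det ≠ 0) (i j : ι) :
    dR (cb H j) i z = (H z)⁻¹ * dR (dRb H j) i z - ca H i z * cb H j z := by
  have := dR_mul (h.inv h0).df (h.dRb j).df i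
  rw [dR_inv h h0] at this
  refine this.trans ?_
  simp only [ca, cb, Matrix.neg_mul, Matrix.mul_assoc]
  abel

theorem dR_ca (h : SmR H z) (h0 : (H z).det ≠ 0) (i k : ι) :
    dR (ca H i) k z = (H z)⁻¹ * dR (dR H i) k z - ca H k z * ca H i z := by
  have := dR_mul (h.inv h0).df (h.dR i).df k
  rw [dR_inv h h0] at this
  refine this.trans ?_
  simp only [ca, Matrix.neg_mul, Matrix.mul_assoc]
  abel

theorem dRb_cb (h : SmR H z) (h0 : (H z).det ≠ 0) (i k : ι) :
    dRb (cb H i) k z = (H z)⁻¹ * dRb (dRb H i) k z - cb H k z * cb H i z := by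
  have := dRb_mul (h.inv h0).df (h.dRb i).df k
  rw [dRb_inv h h0] at this
  refine this.trans ?_
  simp only [cb, Matrix.neg_mul, Matrix.mul_assoc]
  abel

theorem ph_eq (h : SmR H z) (h0 : (H z).det ≠ 0) (i j : ι) : ph H i j z =
    (2 : ℂ) • dRb (ca H i) j z + (cb H j z * ca H i z - ca H i z * cb H j z) := by
  rw [dRb_ca h h0, ph]
  module

theorem ph_eq' (h : SmR H z) (h0 : (H z).det ≠ 0) (i j : ι) : ph H i j z =
    (2 : ℂ) • dR (cb H j) i z + (ca H i z * cb H j z - cb H j z * ca H i z) := by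
  rw [dR_cb h h0, ph]
  module

theorem ipV_eq (A : Mat r) (u v : V r) : ipV A u v = u ⬝ᵥ A *ᵥ star v := by
  simp only [ipV, dotProduct, mulVec, Finset.mul_sum, Pi.star_apply]
  exact Finset.sum_congr rfl fun i _ => Finset.sum_congr rfl fun j _ => by ring

end Pool.Agent.Lib.MP_813db1_ag.VH
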