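import Pool.Agent.Lib.MP_813db1_ag.VH.CoStmt
import Pool.Agent.Lib.MP_813db1_ag.VH.Calc

/-! The nonlinear remainder and the regularity of systems. -/

namespace Pool.Agent.Lib.MP_813db1_ag.VH.Co

open Pool.Agent.Lib.MP_813db1_ag.HS Pool.Agent.Lib.MP_813db1_ag.AS
open Complex Matrix Filter Topology Set Metric
open scoped ContDiff ComplexOrder

namespace CoNl

set_option linter.unusedSectionVars false

variable {ι r Ω : Type} [Fintype ι] [DecidableEq ι] [Fintype r] [DecidableEq r]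

section Tri

variable (G : V ι → Mat ι) {F F' K K' : V ι → Mat r} (N N' : Mat r) {z : V ι}

theorem q_l (h : DfR F z) (h' : DfR F' z) (K : V ι → Mat r) :
    qM G (fun x => F x + F' x) N K z = qM G F N K z + qM G F' N K z := by
  simp only [qM, dR_add h h', dRb_add h h', ← smul_add, ← Finset.sum_add_distrib]
  refine congrArg _ (Finset.sum_congr rfl fun i _ => Finset.sum_congr rfl fun j _ => congrArg _ ?_)
  noncomm_ring

theorem q_r (h : DfR K z) (h' : DfR K' z) (F : V ι → Mat r) :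
    qM G F N (fun x => K x + K' x) z = qM G F N K z + qM G F N K' z := by
  simp only [qM, dR_add h h', dRb_add h h', ← smul_add, ← Finset.sum_add_distrib]
  refine congrArg _ (Finset.sum_congr rfl fun i _ => Finset.sum_congr rfl fun j _ => congrArg _ ?_)
  noncomm_ring

theorem q_m (F K : V ι → Mat r) : qM G F (N - N') K z = qM G F N K z - qM G F N' K z := by
  simp only [qM, ← smul_sub, ← Finset.sum_sub_distrib]
  refine congrArg _ (Finset.sum_congr rfl fun i _ => Finset.sum_congr rfl fun j _ => congrArg _ ?_)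
  noncomm_ring

end Tri

/-- uniform Hoelder bounds of size `s` -/
def O0 (U : Ω → Set (V ι)) (s : Ω → ℝ) (F : Ω → V ι → Mat r) : Prop :=
  ∃ C ≥ (0 : ℝ), ∀ o, HM (C * s o) (F o) (U o)

/-- uniform first order Hoelder bounds of size `s` -/
def O1 (U : Ω → Set (V ι)) (s : Ω → ℝ) (F : Ω → V ι → Mat r) : Prop :=
  ∃ C ≥ (0 : ℝ), ∀ o, HM1 (C * s o) (F o) (U o)

variable {U : Ω → Set (V ι)} {s s' a b : Ω → ℝ} {F K N : Ω → V ι → Mat r}

theorem O0.add (h : O0 U s F) (h' : O0 U s K) : O0 U s fun o z => F o z + K o z := by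
  obtain ⟨C, c, h⟩ := h
  obtain ⟨C', c', h'⟩ := h'
  exact ⟨C + C', add_nonneg c c', fun o i j => add_mul C C' _ ▸ (h o i j).add (h' o i j)⟩

theorem O0.sub (h : O0 U s F) (h' : O0 U s K) : O0 U s fun o z => F o z - K o z := by
  obtain ⟨C, c, h⟩ := h
  obtain ⟨C', c', h'⟩ := h'
  exact ⟨C + C', add_nonneg c c', fun o i j => add_mul C C' _ ▸ (h o i j).sub (h' o i j)⟩

theorem O0.neg (h : O0 U s F) : O0 U s fun o z => -F o z :=
  h.imp fun _ h => ⟨h.1, fun o i j => (h.2 o i j).neg⟩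

theorem O0.congr (h : O0 U s F) (e : ∀ o, ∀ z ∈ U o, K o z = F o z) : O0 U s K :=
  h.imp fun _ h => ⟨h.1, fun o i j => (h.2 o i j).congr fun z hz => by rw [e o z hz]⟩

theorem O0.mono (h : O0 U s F) (e : ∀ o, s o ≤ s' o) : O0 U s' F :=
  h.imp fun _ h => ⟨h.1, fun o i j => (h.2 o i j).mono (mul_le_mul_of_nonneg_left (e o) h.1)⟩

theorem O1.mono (h : O1 U s F) (e : ∀ o, s o ≤ s' o) : O1 U s' F :=
  h.imp fun _ h => ⟨h.1, fun o i j => ⟨(h.2 o i j).1,
    (h.2 o i j).2.1.mono (mul_le_mul_of_nonneg_left (e o) h.1),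
    (h.2 o i j).2.2.mono (mul_le_mul_of_nonneg_left (e o) h.1)⟩⟩

theorem O1.add (h : O1 U s F) (h' : O1 U s K) : O1 U s fun o z => F o z + K o z := by
  obtain ⟨C, c, h⟩ := h
  obtain ⟨C', c', h'⟩ := h'
  exact ⟨C + C', add_nonneg c c', fun o i j => add_mul C C' _ ▸ (h o i j).add (h' o i j)⟩

theorem O1.o0 (h : O1 U s F) : O0 U s F := h.imp fun _ h => ⟨h.1, fun o i j => (h.2 o i j).2.1⟩

theorem O1.df (h : O1 U s F) (o : Ω) {z : V ι} (hz : z ∈ U o) : DfR (F o) z :=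
  fun i j => (h.choose_spec.2 o i j).1 z hz

theorem O0.mul (hm : HmS) (h : O0 U a F) (h' : O0 U b K) (e : ∀ o, a o * b o = s o) :
    O0 U s fun o z => F o z * K o z := by
  obtain ⟨C, c, h⟩ := h
  obtain ⟨C', c', h'⟩ := h'
  refine ⟨2 * Fintype.card r * C * C', by positivity, fun o i j => ?_⟩
  refine ((hm.mul ι r (U o) _ _ _ _).1 (h o) (h' o) i j).mono (le_of_eq ?_)
  rw [← e]
  ring

theorem O0.q (hm : HmS) {L : ℝ} {G : Ω → V ι → Mat ι}
    (hG : ∀ o, HolM L (fun z => (G o z)⁻¹) (U o)) (h : O1 U a F) (hN : O0 U s' N) (h' : O1 U b K)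
    (e : ∀ o, a o * s' o * b o = s o) :
    O0 U s fun o z => qM (G o) (F o) (N o z) (K o) z := by
  obtain ⟨C, c, h⟩ := h
  obtain ⟨C', c', h'⟩ := h'
  obtain ⟨C'', c'', hN⟩ := hN
  obtain ⟨D, d, hD⟩ := hm.q ι r L
  refine ⟨D * (C * C'' * C'), by positivity, fun o i j => ?_⟩
  refine (hD (U o) _ _ _ _ _ _ _ (hG o) (h o) (h' o) (hN o) i j).mono (le_of_eq ?_)
  rw [← e]
  ring

theorem O0.inv (hm : HmS) {L : ℝ} (hU : ∀ o, IsOpen (U o)) (h : O0 U (fun _ => 1) F)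
    (hF : ∀ o, ∀ z ∈ U o, (F o z).det ≠ 0 ∧ Bd L (F o z)⁻¹) :
    O0 U (fun _ => 1) fun o z => (F o z)⁻¹ := by
  obtain ⟨C, c, h⟩ := h
  obtain ⟨D, d, hD⟩ := hm.inv ι r (max L C)
  refine ⟨D, d, fun o => ?_⟩
  rw [mul_one]
  exact (hD (U o) (F o) (hU o) fun z hz => ⟨(hF o z hz).1, fun i j =>
    ((hF o z hz).2 i j).trans (le_max_left _ _)⟩).1 fun i j =>
      (h o i j).mono ((mul_one C).trans_le (le_max_right _ _))

theorem inv_sub {A P : Mat r} (h : A.det ≠ 0) (h' : (A + P).det ≠ 0) :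
    (A + P)⁻¹ - A⁻¹ = -(A⁻¹ * P * (A + P)⁻¹) := by
  have h1 := nonsing_inv_mul A (isUnit_iff_ne_zero.2 h)
  have h2 := mul_nonsing_inv (A + P) (isUnit_iff_ne_zero.2 h')
  have h3 : A⁻¹ * P = A⁻¹ * (A + P) - 1 := by rw [mul_add, h1, add_sub_cancel_left]
  rw [h3, sub_mul, mul_assoc, h2, mul_one, one_mul, neg_sub]

/-- the data -/
structure Dat (ι r : Type) [Fintype ι] [DecidableEq ι] [Fintype r] [DecidableEq r] (L : ℝ) where
  U : Set (V ι)
  G : V ι → Mat ι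
  N : V ι → Mat r
  H : V ι → Mat r
  P : V ι → Mat r
  w : V ι → Mat r
  ε : ℝ
  d : ℝ
  op : IsOpen U
  e0 : 0 ≤ ε
  e1 : ε ≤ 1
  d0 : 0 ≤ d
  hG : HolM L (fun z => (G z)⁻¹) U
  hN : HM L N U
  hH : HM1 L H U
  hP : HM1 ε P U
  hw : HM1 d w U
  hw' : HM1 ε w U
  inv : ∀ z ∈ U, (H z).det ≠ 0 ∧ Bd L (H z)⁻¹ ∧ (H z + P z).det ≠ 0 ∧
    Bd L (H z + P z)⁻¹ ∧ (H z + P z + w z).det ≠ 0 ∧ Bd L (H z + P z + w z)⁻¹

end CoNl

open CoNl in
theorem nlL (h : Al) : NlL := by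
  intro ι r _ _ _ _ L
  have hm := h.hm
  have l0 : ∀ _ : Dat ι r L, L ≤ |L| * 1 := fun _ => (le_abs_self L).trans_eq (mul_one _).symm
  have hN : O0 (Dat.U (L := L)) (fun _ => 1) (Dat.N (ι := ι) (r := r)) :=
    ⟨|L|, abs_nonneg L, fun o i j => (o.hN i j).mono (l0 o)⟩
  have hH : O1 (Dat.U (L := L)) (fun _ => 1) (Dat.H (ι := ι) (r := r)) :=
    ⟨|L|, abs_nonneg L, fun o i j =>
      ⟨(o.hH i j).1, (o.hH i j).2.1.mono (l0 o), (o.hH i j).2.2.mono (l0 o)⟩⟩
  have hP : O1 (Dat.U (L := L)) Dat.ε (Dat.P (ι := ι) (r := r)) :=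
    ⟨1, zero_le_one, fun o => (one_mul o.ε).symm ▸ o.hP⟩
  have hw : O1 (Dat.U (L := L)) Dat.d (Dat.w (ι := ι) (r := r)) :=
    ⟨1, zero_le_one, fun o => (one_mul o.d).symm ▸ o.hw⟩
  have hv : O1 (Dat.U (L := L)) Dat.ε (Dat.w (ι := ι) (r := r)) :=
    ⟨1, zero_le_one, fun o => (one_mul o.ε).symm ▸ o.hw'⟩
  have hK := hH.add (hP.mono Dat.e1)
  have hK' := hK.add (hv.mono Dat.e1)
  have hA := hH.o0.inv hm Dat.op fun o z hz => ⟨(o.inv z hz).1, (o.inv z hz).2.1⟩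
  have hB := hK.o0.inv hm Dat.op fun o z hz => ⟨(o.inv z hz).2.2.1, (o.inv z hz).2.2.2.1⟩
  have hB' := hK'.o0.inv hm Dat.op fun o z hz => (o.inv z hz).2.2.2.2
  have hq := fun {a b s s' : Dat ι r L → ℝ} {F K N : Dat ι r L → V ι → Mat r} =>
    O0.q (s := s) (s' := s') (a := a) (b := b) (F := F) (K := K) (N := N) hm Dat.hG
  have d1 : O0 Dat.U Dat.ε fun (o : Dat ι r L) z => (o.H z + o.P z)⁻¹ - (o.H z)⁻¹ :=
    ((hA.mul hm hP.o0 fun o => one_mul _).mul hm hB fun o => mul_one _).neg.congr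
      fun o z hz => inv_sub (o.inv z hz).1 (o.inv z hz).2.2.1
  have d2 : O0 Dat.U Dat.ε fun (o : Dat ι r L) z => (o.H z + o.P z + o.w z)⁻¹ - (o.H z)⁻¹ :=
    ((hA.mul hm (hP.add hv).o0 fun o => one_mul _).mul hm hB' fun o => mul_one _).neg.congr
      fun o z hz => by
        have := inv_sub (P := o.P z + o.w z) (o.inv z hz).1 (add_assoc (o.H z) _ _ ▸
          (o.inv z hz).2.2.2.2.1)
        rwa [← add_assoc] at this
  have aw := (hA.mul hm hw.o0 fun o => one_mul _).mul hm hA fun o => mul_one _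
  have bw := (hB.mul hm hw.o0 fun o => one_mul _).mul hm hB' fun o => mul_one _
  have d3 : O0 Dat.U (fun o => o.ε * o.d) fun (o : Dat ι r L) z =>
      (o.H z)⁻¹ * o.w z * (o.H z)⁻¹ - (o.H z + o.P z)⁻¹ * o.w z * (o.H z + o.P z + o.w z)⁻¹ :=
    (((d1.mul hm hw.o0 fun o => rfl).mul hm hB' fun o => mul_one _).add
      ((hA.mul hm hw.o0 fun o => one_mul _).mul hm d2 fun o => mul_comm _ _)).neg.congr
      fun o z _ => by noncomm_ring
  have e0 : ∀ (o : Dat ι r L), ∀ z ∈ o.U, qM o.G (fun x => o.H x + o.P x) (o.H z + o.P z)⁻¹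
      (fun x => o.H x + o.P x) z = qM o.G (fun x => o.H x + o.P x) (o.H z + o.P z + o.w z)⁻¹
        (fun x => o.H x + o.P x) z + qM o.G (fun x => o.H x + o.P x)
          ((o.H z + o.P z)⁻¹ * o.w z * (o.H z + o.P z + o.w z)⁻¹) (fun x => o.H x + o.P x) z := by
    intro o z hz
    rw [← sub_eq_iff_eq_add', ← q_m, ← neg_sub,
      inv_sub (o.inv z hz).2.2.1 (o.inv z hz).2.2.2.2.1, neg_neg]
  have t1 : O0 Dat.U (fun o => o.ε * o.d) fun (o : Dat ι r L) z =>
      qM o.G (fun x => o.H x + o.P x + o.w x) (o.H z + o.P z + o.w z)⁻¹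
        (fun x => o.H x + o.P x + o.w x) z -
        qM o.G (fun x => o.H x + o.P x) (o.H z + o.P z)⁻¹ (fun x => o.H x + o.P x) z +
        low o.G o.H o.w z := by
    refine ((((((((hq hw d2 hK' fun o => by ring).add (hq hw hA hP fun o => by ring)).add
      (hq hw hA hv fun o => by ring)).add (hq hK d2 hw fun o => by ring)).add
      (hq hP hA hw fun o => by ring)).add (hq hK d3 hK fun o => by ring)).sub
      (hq hP aw hK fun o => by ring)).sub (hq hH aw hP fun o => by ring)).congr fun o z hz => ?_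
    have a := hH.df o hz
    have b := hP.df o hz
    have c := hw.df o hz
    rw [e0 o z hz]
    simp only [low, q_m, q_l _ _ (a.add b) c, q_r _ _ (a.add b) c, q_l _ _ a b, q_r _ _ a b]
    abel
  have t2 : O0 Dat.U (fun o => o.ε * o.d) fun (o : Dat ι r L) z =>
      (o.H z + o.P z + o.w z) * o.N z * (o.H z + o.P z + o.w z) -
        (o.H z + o.P z) * o.N z * (o.H z + o.P z) -
        (o.w z * o.N z * o.H z + o.H z * o.N z * o.w z) :=
    (((hw.o0.mul hm hN fun o => mul_one _).mul hm (hP.add hv).o0 fun o => mul_comm _ _).add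
      ((hP.o0.mul hm hN fun o => mul_one _).mul hm hw.o0 fun o => rfl)).congr
      fun o z _ => by noncomm_ring
  have t3 : O0 Dat.U Dat.d fun (o : Dat ι r L) z =>
      qM o.G (fun x => o.H x + o.P x + o.w x) (o.H z + o.P z + o.w z)⁻¹
        (fun x => o.H x + o.P x + o.w x) z -
        qM o.G (fun x => o.H x + o.P x) (o.H z + o.P z)⁻¹ (fun x => o.H x + o.P x) z := by
    refine (((hq hw hB' hK' fun o => by ring).add (hq hK hB' hw fun o => by ring)).sub
      (hq hK bw hK fun o => by ring)).congr fun o z hz => ?_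
    have a := hK.df o hz
    have c := hw.df o hz
    rw [e0 o z hz]
    simp only [q_l _ _ a c, q_r _ _ a c]
    abel
  obtain ⟨C1, c1, t1⟩ := t1
  obtain ⟨C2, c2, t2⟩ := t2
  obtain ⟨C3, c3, t3⟩ := t3
  refine ⟨C1 + C2 + C3, by positivity,
    fun U G N H P w ε d op e0 e1 d0 hG hN hH hP hw hw' inv => ?_⟩
  let o : Dat ι r L := ⟨U, G, N, H, P, w, ε, d, op, e0, e1, d0, hG, hN, hH, hP, hw, hw', inv⟩
  have p := mul_nonneg e0 d0
  exact ⟨fun i j => (t1 o i j).mono (by show C1 * (ε * d) ≤ _; nlinarith),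
    fun i j => (t2 o i j).mono (by show C2 * (ε * d) ≤ _; nlinarith),
    fun i j => (t3 o i j).mono (by show C3 * d ≤ _; nlinarith)⟩

theorem rgL : RgL := by
  intro ι κ _ _ U G v f hU hG hv hf he
  have hi : ∀ n i j, Hk n (fun z => (G z)⁻¹ i j) U := fun n =>
    (hk.inv ι n G U hU fun i j => hk.of_smooth ι n _ U hU fun z hz => hG.1.1 z hz i j).2
      fun z hz => (hG.2 z hz).det_pos.ne'
  have hall : ∀ n k, Hk (n + 2) (v k) U := fun n => by
    induction n with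
    | zero => exact hv
    | succ n ih =>
      exact fun k => regL AY.dqS hk ι U (n + 1) (fun z => (G z)⁻¹) (v k) (f k) hU
        (fun z hz => (hG.2 z hz).inv) (hi (n + 1)) (hf n ih k) (hv k) (he k)
  exact fun k => hk.smooth ι (v k) U hU fun n =>
    hk.mono ι _ _ U hU (hk.mono ι _ _ U hU (hall n k))

end Pool.Agent.Lib.MP_813db1_ag.VH.Co
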