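import Pool.Agent.Lib.MP_813db1_ag.VH.CoStmt

/-! The Laplacian of the norm of a vector. -/

namespace Pool.Agent.Lib.MP_813db1_ag.VH.Co

open Pool.Agent.Lib.MP_813db1_ag.HS Pool.Agent.Lib.MP_813db1_ag.AS
open MeasureTheory Complex Matrix Filter Topology Set Metric
open scoped ContDiff ComplexOrder

namespace CoPwV

variable {ι : Type} [Fintype ι] [DecidableEq ι] {r : Type} [Fintype r] [DecidableEq r]

/-- the derivative of a vector function. -/
noncomputable def dx (x : V ι → r → ℂ) (v z : V ι) : r → ℂ :=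
  fun k => fderiv ℝ (fun w => x w k) z v

omit [DecidableEq r] in
theorem tri_eq (a b : r → ℂ) (m : Mat r) :
    star a ⬝ᵥ m *ᵥ b = ∑ i, ∑ j, conjCLE (a i) * (m i j * b j) := by
  simp [dotProduct, mulVec, Finset.mul_sum]

omit [DecidableEq ι] [DecidableEq r] in
theorem tri_cd {k : WithTop ℕ∞} {a b : V ι → r → ℂ} {m : V ι → Mat r} {z : V ι}
    (ha : ∀ i, ContDiffAt ℝ k (fun w => a w i) z) (hm : CM k m z)
    (hb : ∀ i, ContDiffAt ℝ k (fun w => b w i) z) :
    ContDiffAt ℝ k (fun w => star (a w) ⬝ᵥ m w *ᵥ b w) z := by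
  simp_rw [tri_eq]
  refine ContDiffAt.sum fun i _ => ContDiffAt.sum fun j _ =>
    ContDiffAt.mul ?_ ((hm i j).mul (hb j))
  exact (conjCLE.contDiff.contDiffAt).comp z (ha i)

omit [DecidableEq ι] [DecidableEq r] in
theorem tri_d {a b : V ι → r → ℂ} {m : V ι → Mat r} {z : V ι}
    (ha : ∀ i, ContDiffAt ℝ 1 (fun w => a w i) z) (hm : CM 1 m z)
    (hb : ∀ i, ContDiffAt ℝ 1 (fun w => b w i) z) (v : V ι) :
    fderiv ℝ (fun w => star (a w) ⬝ᵥ m w *ᵥ b w) z v = star (dx a v z) ⬝ᵥ m z *ᵥ b z +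
      star (a z) ⬝ᵥ dv m v z *ᵥ b z + star (a z) ⬝ᵥ m z *ᵥ dx b v z := by
  have H := HasFDerivAt.fun_sum (u := Finset.univ) fun (i : r) _ =>
    HasFDerivAt.fun_sum (u := Finset.univ) fun (j : r) _ =>
      (conjCLE.hasFDerivAt.comp z ((ha i).differentiableAt one_ne_zero).hasFDerivAt).fun_mul
        (((hm i j).differentiableAt one_ne_zero).hasFDerivAt.fun_mul
          ((hb j).differentiableAt one_ne_zero).hasFDerivAt)
  simp_rw [tri_eq]
  refine (congrArg (fun T => T v) H.fderiv).trans ?_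
  simp only [_root_.sum_apply, ← Finset.sum_add_distrib]
  refine Finset.sum_congr rfl fun i _ => Finset.sum_congr rfl fun j _ => ?_
  simp [dx, dv]
  ring

omit [DecidableEq ι] [DecidableEq r] [Fintype r] in
theorem dx_cd {x : V ι → r → ℂ} {z : V ι} (hx : ∀ i, ContDiffAt ℝ 2 (fun w => x w i) z) (v : V ι)
    (i : r) : ContDiffAt ℝ 1 (fun w => dx x v w i) z :=
  ((hx i).fderiv_right (m := 1) (by norm_num)).clm_apply contDiffAt_const

omit [DecidableEq r] in
theorem tri_herm {m : Mat r} (hm : m.IsHermitian) (a b : r → ℂ) :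
    star (star a ⬝ᵥ m *ᵥ b) = star b ⬝ᵥ m *ᵥ a := by
  rw [← star_dotProduct_star, star_star, star_mulVec, hm.eq, ← dotProduct_mulVec]

omit [DecidableEq r] in
theorem ip_symm {m : Mat r} (hm : m.IsHermitian) (a b : r → ℂ) : ip m a b = ip m b a := by
  unfold ip
  rw [← tri_herm hm a b]
  simp

omit [DecidableEq r] in
theorem ip_real {m : Mat r} (hm : m.IsHermitian) (a : r → ℂ) :
    (ip m a a : ℂ) = star a ⬝ᵥ m *ᵥ a :=
  conj_eq_iff_re.1 (tri_herm hm a a)

omit [DecidableEq ι] [Fintype r] [DecidableEq r] in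
theorem dv_herm (h : Al) {m : V ι → Mat r} {z : V ι} (hh : ∀ᶠ w in 𝓝 z, (m w).IsHermitian)
    (v : V ι) : (dv m v z).IsHermitian := by
  have e := (h.dv.congr ι r (fun w => (m w)ᴴ) m v z (hh.mono fun w hw => hw.eq)).self_of_nhds
  rw [(h.dv.ct ι r m v z).1] at e
  exact e

/-- the second derivative of the norm. -/
theorem second (h : Al) {m : V ι → Mat r} {x : V ι → r → ℂ} {z : V ι} (hm : CM 2 m z)
    (hx : ∀ i, ContDiffAt ℝ 2 (fun w => x w i) z) (hh : ∀ᶠ w in 𝓝 z, (m w).IsHermitian)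
    (v : V ι) :
    (fderiv ℝ (fun w => fderiv ℝ (fun y => (ip (m y) (x y) (x y) : ℂ)) w v) z v).re =
      2 * ip (m z) (x z) (dx (dx x v) v z) + 2 * ip (m z) (dx x v z) (dx x v z) +
        4 * ip (dv m v z) (x z) (dx x v z) + ip (dv (dv m v) v z) (x z) (x z) := by
  have e0 : (fun y => (ip (m y) (x y) (x y) : ℂ)) =ᶠ[𝓝 z] fun y => star (x y) ⬝ᵥ m y *ᵥ x y :=
    hh.mono fun w hw => ip_real hw _
  have hm1 : CM 1 m z := fun i j => (hm i j).of_le (by norm_num)
  have hx1 : ∀ i, ContDiffAt ℝ 1 (fun w => x w i) z := fun i => (hx i).of_le (by norm_num)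
  have hm' : CM 1 (dv m v) z := h.dv.cd ι r 1 2 m v z (by norm_num) hm
  have hx' := dx_cd hx v
  have e1 : (fun w => fderiv ℝ (fun y => (ip (m y) (x y) (x y) : ℂ)) w v) =ᶠ[𝓝 z] fun w =>
      star (dx x v w) ⬝ᵥ m w *ᵥ x w + star (x w) ⬝ᵥ dv m v w *ᵥ x w +
        star (x w) ⬝ᵥ m w *ᵥ dx x v w := by
    have a1 : ∀ᶠ w in 𝓝 z, CM 1 m w := h.dv.ev ι r 1 m z hm1
    have a2 : ∀ᶠ w in 𝓝 z, ∀ i, ContDiffAt ℝ 1 (fun w => x w i) w :=
      eventually_all.2 fun i => (hx1 i).eventually (by simp)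
    filter_upwards [e0.fderiv (𝕜 := ℝ), a1, a2] with w b0 b1 b2
    rw [b0, tri_d b2 b1 b2]
  have d1 := (tri_cd hx' hm1 hx1).differentiableAt one_ne_zero
  have d2 := (tri_cd hx1 hm' hx1).differentiableAt one_ne_zero
  have d3 := (tri_cd hx1 hm1 hx').differentiableAt one_ne_zero
  rw [e1.fderiv_eq, fderiv_fun_add (d1.fun_add d2) d3, fderiv_fun_add d1 d2]
  simp only [_root_.add_apply]
  rw [tri_d hx' hm1 hx1, tri_d hx1 hm' hx1, tri_d hx1 hm1 hx']
  have s1 := ip_symm hh.self_of_nhds (dx (dx x v) v z) (x z)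
  have s2 := ip_symm (dv_herm h hh v) (dx x v z) (x z)
  simp only [ip] at s1 s2 ⊢
  simp only [add_re]
  linarith

omit [DecidableEq r] in
theorem ip_sum {κ : Type} [Fintype κ] (m : Mat r) (a : r → ℂ) (u : κ → r → ℂ) :
    ip m a (∑ b, u b) = ∑ b, ip m a (u b) := by
  simp only [ip, mulVec_sum, dotProduct_sum, re_sum]

omit [DecidableEq r] in
theorem ip_sum' {κ : Type} [Fintype κ] (m : κ → Mat r) (a u : r → ℂ) :
    ip (∑ b, m b) a u = ∑ b, ip (m b) a u := by
  simp only [ip, sum_mulVec, dotProduct_sum, re_sum]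

omit [DecidableEq r] in
theorem ip_add (m : Mat r) (a u w : r → ℂ) : ip m a (u + w) = ip m a u + ip m a w := by
  simp only [ip, mulVec_add, dotProduct_add, add_re]

/-- both Laplacians in a frame. -/
theorem lap (h : Al) {G : V ι → Mat ι} {m : V ι → Mat r} {x : V ι → r → ℂ} {z : V ι} {L : ℝ}
    {e : ι × Fin 2 → V ι} (he : Fr (G z)⁻¹ L e) (hm : CM 2 m z)
    (hx : ∀ i, ContDiffAt ℝ 2 (fun w => x w i) z) (hh : ∀ᶠ w in 𝓝 z, (m w).IsHermitian) :
    (lapL G (fun w => (ip (m w) (x w) (x w) : ℂ)) z).re / 2 =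
      ip (m z) (x z) (fun k => lapL G (fun w => x w k) z) +
        ∑ b, (ip (m z) (dx x (e b) z) (dx x (e b) z) + 2 * ip (dv m (e b) z) (x z) (dx x (e b) z) +
          ip (dv (dv m (e b)) (e b) z) (x z) (x z) / 2) := by
  have e0 : (fun y => (ip (m y) (x y) (x y) : ℂ)) =ᶠ[𝓝 z] fun y => star (x y) ⬝ᵥ m y *ᵥ x y :=
    hh.mono fun w hw => ip_real hw _
  have c0 := (tri_cd hx hm hx).congr_of_eventuallyEq e0
  have e1 : (fun k => lapL G (fun w => x w k) z) = ∑ b, dx (dx x (e b)) (e b) z := by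
    funext k
    rw [Finset.sum_apply]
    exact he.two _ z (hx k)
  rw [e1, ip_sum, ← Finset.sum_add_distrib]
  unfold lapL
  rw [he.two _ z c0, re_sum, Finset.sum_div]
  refine Finset.sum_congr rfl fun b _ => ?_
  rw [second h hm hx hh]
  ring

theorem key {H P : Mat r} (hH : H.PosDef) (hP : P.IsHermitian) (x u : r → ℂ) :
    0 ≤ ip H u u + ip P x u + ip (P * H⁻¹ * P) x x / 2 := by
  have hu : IsUnit H.det := (Matrix.isUnit_iff_isUnit_det H).1 hH.isUnit
  obtain ⟨y, hy⟩ : ∃ y, y = (H⁻¹ * P) *ᵥ x := ⟨_, rfl⟩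
  have e1 : P *ᵥ x = H *ᵥ y := by
    rw [hy, mulVec_mulVec, ← Matrix.mul_assoc, mul_nonsing_inv _ hu, Matrix.one_mul]
  have e2 : ∀ w, ip P x w = ip H w y := fun w => by
    rw [ip_symm hP]
    unfold ip
    rw [e1]
  have e3 : ip (P * H⁻¹ * P) x x = ip H y y := by
    rw [← e2]
    unfold ip
    rw [hy, mulVec_mulVec, Matrix.mul_assoc]
  have nn : ∀ w, 0 ≤ ip H w w := fun w => hH.posSemidef.re_dotProduct_nonneg w
  have n1 := nn (u + y)
  rw [ip_add, ip_symm hH.isHermitian _ u, ip_symm hH.isHermitian _ y, ip_add, ip_add,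
    ip_symm hH.isHermitian y u] at n1
  have n2 := nn u
  rw [e2, e3]
  linarith

omit [DecidableEq r] in
theorem ip_le {M : Mat r} {a : ℝ} (hM : Bd a M) (u w : r → ℂ) :
    |ip M u w| ≤ (Fintype.card r : ℝ) ^ 2 * a * (‖u‖ * ‖w‖) := by
  unfold ip
  refine (abs_re_le_norm _).trans ?_
  rw [tri_eq]
  have : ∀ i j, ‖conjCLE (u i) * (M i j * w j)‖ ≤ a * (‖u‖ * ‖w‖) := fun i j => by
    have h0 : 0 ≤ a := (norm_nonneg _).trans (hM i j)
    rw [norm_mul, norm_mul, conjCLE_apply, norm_conj]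
    calc ‖u i‖ * (‖M i j‖ * ‖w j‖) ≤ ‖u‖ * (a * ‖w‖) := by
          gcongr
          exacts [norm_le_pi_norm u i, hM i j, norm_le_pi_norm w j]
      _ = _ := by ring
  refine (norm_sum_le _ _).trans ?_
  refine (Finset.sum_le_sum fun i _ => (norm_sum_le _ _).trans
    (Finset.sum_le_sum fun j _ => this i j)).trans (le_of_eq ?_)
  simp only [Finset.sum_const, Finset.card_univ, nsmul_eq_mul]
  ring

omit [DecidableEq ι] in
theorem bd_sum (g : Mat ι) : Bd (∑ i, ∑ j, ‖g i j‖) g := fun i j =>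
  (Finset.single_le_sum (f := fun j => ‖g i j‖) (fun _ _ => norm_nonneg _)
    (Finset.mem_univ j)).trans (Finset.single_le_sum (f := fun i => ∑ j, ‖g i j‖)
      (fun _ _ => Finset.sum_nonneg fun _ _ => norm_nonneg _) (Finset.mem_univ i))

theorem frame (h : Al) {g : Mat ι} (hg : g.PosDef) : ∃ C e, Fr g⁻¹ C e := by
  obtain ⟨C, -, hC⟩ := h.fr ι (max (∑ i, ∑ j, ‖g i j‖) (∑ i, ∑ j, ‖g⁻¹ i j‖))
  obtain ⟨e, he⟩ := hC g hg (fun i j => (bd_sum g i j).trans (le_max_left _ _))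
    fun i j => (bd_sum g⁻¹ i j).trans (le_max_right _ _)
  exact ⟨C, e, he⟩

theorem absorb {L a a2 N Nb p q s t : ℝ} (hL : 0 < L) (h1 : s ^ 2 ≤ L * N) (h2 : t ^ 2 ≤ L * Nb)
    (ha2 : 0 ≤ a2) (hp : |p| ≤ a * (s * t)) (hq : |q| ≤ a2 * (s * s)) :
    0 ≤ Nb + 2 * p + q / 2 + (a ^ 2 * L ^ 2 + a2 * L) * N := by
  have hp' := (abs_le.1 hp).1
  have hq' := (abs_le.1 hq).1
  have k1 : a2 * (s * s) ≤ a2 * L * N := by nlinarith
  have k0 : 0 ≤ a2 * (s * s) := mul_nonneg ha2 (mul_self_nonneg s)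
  have k2 : 2 * (a * (s * t)) ≤ Nb + a ^ 2 * L ^ 2 * N := by
    refine le_of_mul_le_mul_left ?_ hL
    have k3 : (a * L) ^ 2 * s ^ 2 ≤ (a * L) ^ 2 * (L * N) :=
      mul_le_mul_of_nonneg_left h1 (sq_nonneg _)
    nlinarith [sq_nonneg (t - a * L * s)]
  nlinarith

end CoPwV

open CoPwV in
theorem pwV (h : Al) : PwV where
  har := by
    intro ι r _ _ _ _ G H x z hG hH hx hh hp ht
    obtain ⟨C, e, he⟩ := frame h hG
    obtain ⟨f1, f2, f3⟩ := h.dv.fr ι r G z C e he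
    have hu : IsUnit (H z).det := (Matrix.isUnit_iff_isUnit_det _).1 hp.isUnit
    have e1 : ip (H z) (x z) (hd G H x z) = ∑ b, ip (dv H (e b) z) (x z) (dx x (e b) z) := by
      have : (fun j => ∑ l, gr2 G (fun w => H w j l) (fun w => x w l) z) =
          ∑ b, dv H (e b) z *ᵥ dx x (e b) z := by
        funext j
        simp only [f1, Finset.sum_apply]
        rw [Finset.sum_comm]
        rfl
      unfold ip hd
      rw [this, mulVec_mulVec, mul_nonsing_inv _ hu, one_mulVec, dotProduct_sum, re_sum]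
    have e2 : ∑ b, ip (dv (dv H (e b)) (e b) z) (x z) (x z) =
        ∑ b, ip (dv H (e b) z * (H z)⁻¹ * dv H (e b) z) (x z) (x z) := by
      rw [← ip_sum', ← ip_sum', ← f2 H hH, ← f3, sub_eq_zero.1 ht]
    have e3 := Finset.sum_nonneg fun b (_ : b ∈ Finset.univ) =>
      key hp (dv_herm h hh (e b)) (x z) (dx x (e b) z)
    rw [lap h he hH hx hh, ip_add, e1]
    simp only [Finset.sum_add_distrib, ← Finset.sum_div, ← Finset.mul_sum] at e3 ⊢
    rw [e2]
    linarith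
  bd := by
    intro ι r _ _ _ _ L
    obtain ⟨C, hC0, hC⟩ := h.fr ι L
    refine ⟨Fintype.card (ι × Fin 2) * (((Fintype.card r : ℝ) ^ 2 * (L * C)) ^ 2 * L ^ 2 +
      (Fintype.card r : ℝ) ^ 2 * (L * C * C) * L), ?_, ?_⟩
    · have : (Fintype.card r : ℝ) ^ 2 * (L * C * C) * L = (Fintype.card r * L * C) ^ 2 := by ring
      rw [this]
      positivity
    intro G m x z hG b1 b2 hm hx hh hp hd
    obtain ⟨e, he⟩ := hC _ hG b1 b2
    rw [lap h he hm hx hh, add_assoc, le_add_iff_nonneg_right]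
    rcases isEmpty_or_nonempty r with hr | hr
    · simp [ip, dotProduct]
    obtain ⟨i0⟩ := hr
    have hL0 : 0 ≤ L := (norm_nonneg _).trans (hd i0 i0).1
    have hL : 0 < L := by
      refine lt_of_le_of_ne hL0 fun h0 => ?_
      have h1 := hp (Pi.single i0 1)
      rw [← h0, Pi.norm_single] at h1
      norm_num at h1
    have d1 : ∀ b, Bd (L * C) (dv m (e b) z) := fun b i j =>
      ((fderiv ℝ (fun w => m w i j) z).le_opNorm (e b)).trans
        (mul_le_mul (hd i j).1 (he.bd b) (norm_nonneg _) hL0)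
    have d2 : ∀ b, Bd (L * C * C) (dv (dv m (e b)) (e b) z) := fun b i j => by
      have h1 := ((hm i j).fderiv_right (m := 1) (by norm_num)).differentiableAt one_ne_zero
      have h2 : dv (dv m (e b)) (e b) z i j =
          fderiv ℝ (fderiv ℝ fun w => m w i j) z (e b) (e b) := by
        change fderiv ℝ (fun w => fderiv ℝ (fun w => m w i j) w (e b)) z (e b) = _
        rw [fderiv_clm_apply h1 (differentiableAt_const _)]
        simp
      rw [h2]
      refine (ContinuousLinearMap.le_opNorm₂ _ _ _).trans ?_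
      exact mul_le_mul (mul_le_mul (hd i j).2 (he.bd b) (norm_nonneg _) hL0) (he.bd b)
        (norm_nonneg _) (mul_nonneg hL0 hC0)
    have e3 := Finset.sum_nonneg fun b (_ : b ∈ Finset.univ) =>
      absorb hL (hp (x z)) (hp (dx x (e b) z)) (by positivity)
        (ip_le (d1 b) (x z) (dx x (e b) z)) (ip_le (d2 b) (x z) (x z))
    rw [Finset.sum_add_distrib, Finset.sum_const, Finset.card_univ, nsmul_eq_mul,
      ← mul_assoc] at e3
    exact e3

end Pool.Agent.Lib.MP_813db1_ag.VH.Co
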