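import Pool.Agent.Lib.MP_813db1_ag.VH.CoStmt

/-! The twisted Laplacian: kernel and solvability. -/

namespace Pool.Agent.Lib.MP_813db1_ag.VH.Co

open Pool.Agent.Lib.MP_813db1_ag.HS Pool.Agent.Lib.MP_813db1_ag.AS
open MeasureTheory Complex Matrix Filter Topology Set Metric
open scoped ContDiff ComplexOrder

noncomputable section

namespace TlA

section Loc

variable {ι r : Type} [Fintype ι] [DecidableEq ι] [Fintype r] [DecidableEq r]

omit [DecidableEq ι] in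
theorem bd_sum (g : Mat ι) : Bd (∑ i, ∑ j, ‖g i j‖) g := fun i j =>
  (Finset.single_le_sum (f := fun j => ‖g i j‖) (fun _ _ => norm_nonneg _)
    (Finset.mem_univ j)).trans (Finset.single_le_sum (f := fun i => ∑ j, ‖g i j‖)
      (fun _ _ => Finset.sum_nonneg fun _ _ => norm_nonneg _) (Finset.mem_univ i))

theorem frame (h : Al) {g : Mat ι} (hg : g.PosDef) : ∃ L e, Fr g⁻¹ L e := by
  obtain ⟨C, -, k⟩ := h.fr ι (max (∑ i, ∑ j, ‖g i j‖) (∑ i, ∑ j, ‖g⁻¹ i j‖))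
  exact ⟨C, k g hg (fun i j => (bd_sum g i j).trans (le_max_left _ _))
    fun i j => (bd_sum g⁻¹ i j).trans (le_max_right _ _)⟩

omit [DecidableEq ι] in
theorem fd_star (f : V ι → ℂ) (z v : V ι) :
    fderiv ℝ (fun w => star (f w)) z v = star (fderiv ℝ f z v) := by
  rw [fderiv_star]; rfl

omit [DecidableEq ι] [DecidableEq r] in
theorem fd_vm {H : V ι → Mat r} {w : V ι → r → ℂ} {z : V ι} (hH : CM 1 H z)
    (hw : ∀ k, DifferentiableAt ℝ (fun x => w x k) z) (j : r) (v : V ι) :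
    fderiv ℝ (fun x => (star (w x) ᵥ* H x) j) z v =
      ∑ l, (star (w z l) * fderiv ℝ (fun x => H x l j) z v +
        star (fderiv ℝ (fun x => w x l) z v) * H z l j) := by
  have d : ∀ l, DifferentiableAt ℝ (fun x => H x l j) z := fun l =>
    (hH l j).differentiableAt one_ne_zero
  have e : (fun x => (star (w x) ᵥ* H x) j) = fun x => ∑ l, star (w x l) * H x l j := rfl
  rw [e, fderiv_fun_sum fun l _ => (hw l).star.fun_mul (d l), ContinuousLinearMap.sum_apply]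
  refine Finset.sum_congr rfl fun l _ => ?_
  rw [fderiv_fun_mul (hw l).star (d l)]
  simp only [ContinuousLinearMap.add_apply, ContinuousLinearMap.smul_apply, smul_eq_mul, fd_star]
  ring

theorem loc (h : Al) {G : V ι → Mat ι} {H : V ι → Mat r} {w v : V ι → r → ℂ} {z : V ι} {L : ℝ}
    {e : ι × Fin 2 → V ι} (he : Fr (G z)⁻¹ L e) (hH : CM 1 H z) (hd0 : (H z).det ≠ 0)
    (hw : ∀ k, DifferentiableAt ℝ (fun x => w x k) z) (a : r → ℂ) :
    ∑ j, ((star (w z) ᵥ* H z) j * a j +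
      gr2 G (fun x => (star (w x) ᵥ* H x) j) (fun x => v x j) z) =
      star (w z) ⬝ᵥ H z *ᵥ (a + hd G H v z) + ∑ b, star (fun k => fderiv ℝ (fun x => w x k) z (e b))
        ⬝ᵥ H z *ᵥ fun k => fderiv ℝ (fun x => v x k) z (e b) := by
  have f := (h.dv.fr ι r G z L e he).1
  rw [mulVec_add, hd, mulVec_mulVec, mul_nonsing_inv _ (Ne.isUnit hd0), one_mulVec,
    dotProduct_add, dotProduct_mulVec, Finset.sum_add_distrib, add_assoc]
  refine congrArg₂ _ rfl ?_
  simp only [f, fd_vm hH hw, dotProduct, mulVec, Pi.star_apply, Finset.sum_mul, Finset.mul_sum,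
    add_mul, Finset.sum_add_distrib]
  refine congrArg₂ _ ?_ ?_
  · rw [Finset.sum_congr rfl fun j _ => Finset.sum_comm, Finset.sum_comm]
    simp only [mul_assoc]
  · rw [Finset.sum_comm]
    refine Finset.sum_congr rfl fun b _ => ?_
    rw [Finset.sum_comm]
    simp only [mul_assoc]

omit [DecidableEq r] in
theorem ip_symm {m : Mat r} (hm : m.IsHermitian) (u v : r → ℂ) : ip m u v = ip m v u := by
  rw [ip, ip, ← conj_re, ← star_def, ← star_dotProduct_star, star_star, star_mulVec, hm.eq,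
    dotProduct_mulVec, dotProduct_comm]

theorem fd_zero {A : Mat ι} {L : ℝ} {e : ι × Fin 2 → V ι} (he : Fr A L e) {f : V ι → ℂ} {z : V ι}
    (h : ∀ b, fderiv ℝ f z (e b) = 0) : fderiv ℝ f z = 0 := by
  ext v
  obtain ⟨β, -, rfl⟩ := he.span v
  simp [map_sum, h]

theorem gr_zero (h : Al) {G : V ι → Mat ι} {f : V ι → ℂ} {z : V ι} (hG : (G z).PosDef)
    (h0 : gr2 G (fun w => star (f w)) f z = 0) : fderiv ℝ f z = 0 := by
  obtain ⟨L, e, he⟩ := frame h hG
  rw [(h.dv.fr ι ι G z L e he).1] at h0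
  simp only [fd_star] at h0
  exact fd_zero he fun b => by
    simpa using (Finset.sum_eq_zero_iff_of_nonneg fun b _ => star_mul_self_nonneg _).1 h0 b
      (Finset.mem_univ b)

theorem hd_lin {G : V ι → Mat ι} (H : V ι → Mat r) {v w : V ι → r → ℂ} {z : V ι} (h : Al)
    (hG : (G z).PosDef) (hv : ∀ k, DifferentiableAt ℝ (fun x => v x k) z)
    (hw : ∀ k, DifferentiableAt ℝ (fun x => w x k) z) (t : ℝ) :
    hd G H (fun x => v x + w x) z = hd G H v z + hd G H w z ∧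
      hd G H (fun x => t • v x) z = t • hd G H v z := by
  obtain ⟨L, e, he⟩ := frame h hG
  have f := (h.dv.fr ι r G z L e he).1
  constructor
  · rw [hd, hd, hd, ← mulVec_add]
    congr 1
    funext j
    simp only [f, Pi.add_apply, fderiv_fun_add (hv _) (hw _), ContinuousLinearMap.add_apply,
      mul_add, Finset.sum_add_distrib]
  · rw [hd, hd, ← mulVec_smul]
    congr 1
    funext j
    simp only [f, Pi.smul_apply, fderiv_fun_const_smul (hv _), ContinuousLinearMap.smul_apply,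
      mul_smul_comm, Finset.smul_sum]

end Loc

variable {ι X Y G : Type} [Fintype ι] [DecidableEq ι] [TopologicalSpace X]
  [TopologicalSpace Y] [Group G] [MulAction G Y] {c : Sx ι X Y G}
  {r : Type} [Fintype r] [DecidableEq r] {ρ : G →* Mat r} {H : Y → Mat r}

/-- the integrand of the Green formula. -/
def ig (c : Sx ι X Y G) (H : Y → Mat r) (w v : Y → r → ℂ) (y : Y) : ℂ :=
  ∑ j, ((star (w y) ᵥ* H y) j * c.lapV v y j +
    c.gr (fun x => (star (w x) ᵥ* H x) j) (fun x => v x j) y)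

theorem ck_le {k n : WithTop ℕ∞} {f : Y → ℂ} (h : c.Ck n f) (hk : k ≤ n) : c.Ck k f :=
  fun e he z hz s hs => (h e he z hz s hs).of_le hk

theorem ct (hρ : RealR ρ) (γ : G) : (ρ γ)ᴴ * (ρ γ⁻¹)ᵀ = 1 := by
  have : (ρ γ)ᴴ = (ρ γ)ᵀ := by
    conv_rhs => rw [← hρ γ]
    rfl
  rw [this, ← transpose_mul, ← map_mul, inv_mul_cancel, map_one, transpose_one]

omit [TopologicalSpace Y] in
theorem vm (hρ : RealR ρ) (hH : EqH ρ H) (γ : G) (y : Y) (u : r → ℂ) :
    star (ρ γ *ᵥ u) ᵥ* H (γ • y) ᵥ* ρ γ = star u ᵥ* H y := by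
  rw [star_mulVec, hH, vecMul_vecMul, vecMul_vecMul, ← Matrix.mul_assoc, ← Matrix.mul_assoc,
    ← Matrix.mul_assoc, ct hρ, Matrix.one_mul, Matrix.mul_assoc, ← map_mul, inv_mul_cancel, map_one, Matrix.mul_one]

theorem green [MeasurableSpace X] {μ : Measure X} (h3 : c.GrS μ) (hρ : RealR ρ) (hH : c.Gd ρ H)
    {w v : Y → r → ℂ} (ew : EqV ρ 0 w) (ev : EqV ρ 0 v) (sw : c.CkV 2 w) (sv : c.CkV 2 v) :
    Continuous (fun x => ig c H w v (c.lf x)) ∧ ∫ x, ig c H w v (c.lf x) ∂μ = 0 :=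
  h3.vec r v (fun x => star (w x) ᵥ* H x) ρ 0 sv (fun j e he z hz s hs =>
    ContDiffAt.sum (f := fun l x => star (w (s x) l) * H (s x) l j) fun l _ =>
      (conjCLE.contDiff.contDiffAt.comp z ((sw l e he z hz s hs).of_le one_le_two)).mul
        ((hH.sm l j e he z hz s hs).of_le (by exact_mod_cast le_top)))
    fun γ y => ⟨ev γ y, by rw [ew, Pi.zero_apply, add_zero, vm hρ hH.eqv]⟩

theorem rd_pt (hb : c.Bs) {α : Type} (f : Y → α) (y : Y) : c.rd f y (c.pt y) = f y :=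
  congrArg f (hb.a.self y).2.2

theorem pt (h : Al) (hb : c.Bs) (hH : c.Gd ρ H) (y : Y) : ∃ L e, Fr (c.Gp y (c.pt y))⁻¹ L e ∧
    ∀ w v : Y → r → ℂ, c.CkV 2 w → (ig c H w v y).re = ip (H y) (w y) (c.tl H v y) +
      ∑ b, ip (H y) (fun k => fderiv ℝ (c.rd (fun x => w x k) y) (c.pt y) (e b))
        fun k => fderiv ℝ (c.rd (fun x => v x k) y) (c.pt y) (e b) := by
  obtain ⟨L, e, he⟩ := frame h (hb.a.gp y)
  refine ⟨L, e, he, fun w v sw => ?_⟩
  have := loc h (H := c.rd H y) (w := c.rd w y) (v := c.rd v y) he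
    (fun i j => (hb.a.at_ _ _ y (hH.sm i j)).of_le (by exact_mod_cast le_top))
    (by rw [rd_pt hb]; exact (hH.pd y).det_pos.ne')
    (fun k => (hb.a.at_ _ _ y (sw k)).differentiableAt two_ne_zero) (c.lapV v y)
  rw [hd, rd_pt hb, rd_pt hb] at this
  exact (congrArg re this).trans (by rw [add_re, re_sum]; rfl)

omit [TopologicalSpace Y] in
theorem sec_iff {b : Bu G r} (hv : IsBV ρ b) {v : Y → r → ℂ} : b.Sec v ↔ EqV ρ 0 v := by
  simp [Bu.Sec, EqV, hv.1, hv.2]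

omit [DecidableEq r] in
theorem ck2 (hb : c.Bs) {b : Bu G r} {v : Y → r → ℂ} {N : ℝ} (sv : b.Sec v) (h2 : c.H2 N v) :
    c.CkV 2 v := hb.b.ck r b 2 v sv fun a j => (h2 a j).1

theorem met (hb : c.Bs) (hρ : RealR ρ) (hH : c.Gd ρ H) {b : Bu G r} (hv : IsBV ρ b) :
    ∃ L0, ∀ L ≥ L0, c.Met b H L := by
  obtain ⟨-, -, -, ⟨L1, -, h1⟩, L2, h2⟩ := hb.m.sm r H hH.sm fun y => (hH.pd y).det_pos.ne'
  obtain ⟨κ, hκ, k⟩ := mat.nv r (max L1 L2)
  have nn : ∀ y u, 0 ≤ ip (H y) u u := fun y u =>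
    (Complex.le_def.1 ((hH.pd y).posSemidef.dotProduct_mulVec_nonneg u)).1
  refine ⟨max L1 κ⁻¹, fun L hL => ⟨fun y => (hH.pd y).1, nn, fun γ y u _ v _ => ?_,
    fun a i j => (h1 a i j).mono ((le_max_left _ _).trans hL), fun a z hz u => ?_⟩⟩
  · rw [ip, ip, hv.1, hv.1, dotProduct_mulVec, dotProduct_mulVec, vm hρ hH.eqv, dotProduct_mulVec]
  · have := (k _ (hH.pd (c.s a z)) (fun i j => ((h1 a i j).2.1.1 z hz).trans (le_max_left _ _))
      (fun i j => (h2 a z hz i j).trans (le_max_right _ _)) (star u)).1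
    have e : nV (H (c.s a z)) (star u) = ip (H (c.s a z)) u u := by
      simp only [nV, ipV, ip, dotProduct, mulVec, Finset.mul_sum, Pi.star_apply, star_star]
      exact congrArg re (Finset.sum_congr rfl fun i _ => Finset.sum_congr rfl fun j _ => by ring)
    rw [e, norm_star, ← le_inv_mul_iff₀ hκ] at this
    exact this.trans (mul_le_mul_of_nonneg_right ((le_max_right _ _).trans hL) (nn _ _))

theorem lowD (h : Al) (hb : c.Bs) (hH : c.Gd ρ H) {b : Bu G r} (hv : IsBV ρ b) :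
    ∃ L0, ∀ L ≥ L0, c.Low b (c.hd H) L := by
  have d0 : ∀ y, (H y).det ≠ 0 := fun y => (hH.pd y).det_pos.ne'
  have s2 : c.CkM 2 H := fun i j => ck_le (hH.sm i j) (WithTop.coe_le_coe.2 le_top)
  obtain ⟨-, -, -, ⟨L1, p1, h1⟩, L2, h2⟩ := hb.m.sm r H hH.sm d0
  obtain ⟨L3, -, h3⟩ := hb.a.ell
  obtain ⟨C1, q1, k1⟩ := h.hm.inv ι r (max L1 L2)
  obtain ⟨C2, q2, k2⟩ := h.hm.gr ι L3
  have df : ∀ {v : Y → r → ℂ} {N}, b.Sec v → c.H2 N v → ∀ y k,
      DifferentiableAt ℝ (fun x => c.rd v y x k) (c.pt y) := fun sv hN y k =>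
    (hb.a.at_ _ _ y (ck2 hb sv hN k)).differentiableAt two_ne_zero
  have e : ∀ v y, c.hd H v y = hd (c.Gp y) (c.rd H y) (c.rd v y) (c.pt y) := fun v y => by
    rw [hd, rd_pt hb]; rfl
  refine ⟨Fintype.card r * (2 * C1 * (Fintype.card r * (C2 * L1))), fun L hL =>
    ⟨fun v N sv hN => (sec_iff hv).2 (((hb.m.eqv r ρ H H hH.eqv s2 d0).2.2.2 0 v
      ((sec_iff hv).1 sv) (ck2 hb sv hN)).1), fun v w N N' sv sw hN hN' => funext fun y => ?_,
      fun t v N sv hN => funext fun y => ?_, fun v N B sv hN hB a k => ?_⟩⟩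
  · rw [Pi.add_apply, e, e, e]
    exact (hd_lin _ h (hb.a.gp y) (df sv hN y) (df sw hN' y) 0).1
  · rw [Pi.smul_apply, e, e]
    exact (hd_lin _ h (hb.a.gp y) (df sv hN y) (df sv hN y) t).2
  · have B0 : 0 ≤ B := (hB a k).2.1.nonneg (mem_ball_self (by linarith [c.C.pos a]))
    have i1 := (k1 (c.B a) (fun z => H (c.s a z)) isOpen_ball fun z hz =>
      ⟨d0 _, fun i j => (h2 a z hz i j).trans (le_max_right _ _)⟩).1
        fun i j => (h1 a i j).2.1.mono (le_max_left _ _)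
    have i2 := Hol.sum Finset.univ fun j _ => (i1 k j).mul (Hol.sum Finset.univ fun l _ =>
      k2 _ _ _ _ _ _ (h3 a).2.1 (h1 a j l).hol1 (hB a l))
    refine (i2.congr fun z hz => ?_).mono ?_
    · rw [← (hb.m.rd2 r H H v _ (c.C.mem a) z (hb.a.sec a z hz).1 _ (hb.a.sec a z hz).2.1
        fun i j => (h1 a i j).1 z hz).2.2.2 fun l => ((hN a l).1 z hz).of_le one_le_two]
      rfl
    · refine le_trans (le_of_eq ?_) (mul_le_mul_of_nonneg_right hL B0)
      simp only [Finset.sum_const, Finset.card_univ, nsmul_eq_mul]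
      ring

theorem mp (hb : c.Bs) (h1 : PwV) (hH : c.Har ρ H) (b : Bu G r) : c.MP b H (c.hd H) 0 :=
  fun v N sv hN y => by
  have sm : CM 2 (c.rd H y) (c.pt y) := fun i j =>
    (hb.a.at_ _ _ y (hH.2.1.sm i j)).of_le (WithTop.coe_le_coe.2 le_top)
  have := h1.har ι r (c.Gp y) (c.rd H y) (c.rd v y) (c.pt y) (hb.a.gp y) sm
    (fun k => hb.a.at_ _ _ y (ck2 hb sv hN k)) (.of_forall fun w => (hH.2.1.pd _).1)
    (hH.2.1.pd _) (by rw [ten, rd_pt hb]; exact hH.2.2 y)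
  rw [hd, rd_pt hb, rd_pt hb] at this
  rw [zero_mul, sub_zero]
  exact this

omit [DecidableEq r] in
theorem h0 (hb : c.Bs) {f : Y → r → ℂ} (hf : c.CkV ∞ f) : ∃ B, c.H0 B f := by
  choose L p k using fun j => hb.a.hol _ (hf j)
  exact ⟨∑ j, L j, fun a j => (k j a).2.1.mono
    (Finset.single_le_sum (fun j _ => p j) (Finset.mem_univ j))⟩

variable [T2Space X] [CompactSpace X] [MeasurableSpace X] [BorelSpace X] {μ : Measure X}

theorem int_re (hμ : c.M.IsVol c.g μ) {F : X → ℂ} (h : Continuous F ∧ ∫ x, F x ∂μ = 0) :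
    Integrable (fun x => (F x).re) μ ∧ ∫ x, (F x).re ∂μ = 0 := by
  have := ((AY.volS' ι X c.M c.g c.hg).2 μ hμ).fin
  have i : Integrable F μ := h.1.integrable_of_hasCompactSupport (HasCompactSupport.of_compactSpace F)
  exact ⟨i.re, (integral_re i).trans (by rw [h.2]; rfl)⟩

theorem sa (h : Al) (hb : c.Bs) (hμ : c.M.IsVol c.g μ) (h3 : c.GrS μ) (hρ : RealR ρ)
    (hH : c.Gd ρ H) {w v : Y → r → ℂ} (ew : EqV ρ 0 w) (ev : EqV ρ 0 v) (sw : c.CkV 2 w)
    (sv : c.CkV 2 v) : ∫ x, ip (H (c.lf x)) (c.tl H v (c.lf x)) (w (c.lf x)) ∂μ =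
      ∫ x, ip (H (c.lf x)) (v (c.lf x)) (c.tl H w (c.lf x)) ∂μ := by
  obtain ⟨i1, j1⟩ := int_re hμ (green h3 hρ hH ew ev sw sv)
  obtain ⟨i2, j2⟩ := int_re hμ (green h3 hρ hH ev ew sv sw)
  have e : ∀ y, ip (H y) (c.tl H v y) (w y) = ip (H y) (v y) (c.tl H w y) +
      ((ig c H w v y).re - (ig c H v w y).re) := fun y => by
    obtain ⟨L, e, -, k⟩ := pt h hb hH y
    rw [k w v sw, k v w sv, ip_symm (hH.pd y).1 (c.tl H v y),
      Finset.sum_congr rfl fun b _ => ip_symm (hH.pd y).1 _ _]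
    ring
  simp only [e]
  by_cases i : Integrable (fun x => ip (H (c.lf x)) (v (c.lf x)) (c.tl H w (c.lf x))) μ
  · rw [integral_add i (i1.sub' i2), integral_sub i1 i2, j1, j2, sub_zero, add_zero]
  · rw [integral_undef i, integral_undef fun i' => i ?_]
    simpa using i'.sub' (i1.sub' i2)

theorem ker (h : Al) (hb : c.Bs) (hμ : c.M.IsVol c.g μ) (h3 : c.GrS μ) (hρ : RealR ρ)
    (hH : c.Gd ρ H) {x : Y → r → ℂ} (ex : EqV ρ 0 x) (sx : c.CkV 2 x) (h0 : ∀ y, c.tl H x y = 0)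
    (y y' : Y) : x y = x y' := by
  have := ((AY.volS' ι X c.M c.g c.hg).2 μ hμ).pos
  have g := green h3 hρ hH ex ex sx sx
  obtain ⟨i1, j1⟩ := int_re hμ g
  have nn : ∀ y u, 0 ≤ ip (H y) u u := fun y u =>
    (Complex.le_def.1 ((hH.pd y).posSemidef.dotProduct_mulVec_nonneg u)).1
  have p : ∀ y, 0 ≤ (ig c H x x y).re ∧ ((ig c H x x y).re = 0 →
      ∀ j, fderiv ℝ (c.rd (fun w => x w j) y) (c.pt y) = 0) := fun y => by
    obtain ⟨L, e, he, k⟩ := pt h hb hH y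
    rw [k x x sx, h0, show ip (H y) (x y) 0 = 0 by simp [ip], zero_add]
    refine ⟨Finset.sum_nonneg fun b _ => nn _ _, fun e0 j => fd_zero he fun b => ?_⟩
    have := (Finset.sum_eq_zero_iff_of_nonneg fun b _ => nn _ _).1 e0 b (Finset.mem_univ b)
    by_contra hn
    exact (Complex.lt_def.1 ((hH.pd y).dotProduct_mulVec_pos
      (x := fun k => fderiv ℝ (c.rd (fun x_1 => x x_1 k) y) (c.pt y) (e b))
      fun e1 => hn (congrFun e1 j))).1.ne' this
  have z := ((continuous_re.comp g.1).ae_eq_iff_eq μ continuous_zero).1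
    ((integral_eq_zero_iff_of_nonneg (fun t => (p _).1) i1).1 j1)
  funext j
  refine hb.a.cst (fun w => x w j) (ck_le (sx j) one_le_two) (fun y => ?_) y y'
  obtain ⟨γ, hγ⟩ := hb.a.orb y
  have q := (p _).2 (congrFun z (c.p y))
  rw [hγ] at q
  have d : ∀ l, DifferentiableAt ℝ (c.rd (fun w => x w l) y) (c.pt y) := fun l =>
    (hb.a.at_ _ _ y (sx l)).differentiableAt two_ne_zero
  have q1 : ∀ l, fderiv ℝ (c.rd (fun w => x (γ • w) l) y) (c.pt y) = 0 := fun l => by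
    refine gr_zero h (hb.a.gp y)
      ((hb.a.smul (fun w => star (x w l)) (fun w => x w l) γ y).2.trans ?_)
    simp [Sx.gr, gr2, dz, dzb, q l]
  have d1 : ∀ l, DifferentiableAt ℝ (c.rd (fun w => x (γ • w) l) y) (c.pt y) := fun l => by
    have : c.rd (fun w => x (γ • w) l) y = fun z => ∑ k, ρ γ l k * c.rd (fun w => x w k) y z :=
      funext fun z => by simp [Sx.rd, ex γ, mulVec, dotProduct]
    rw [this]
    exact .fun_sum fun k _ => (d k).const_mul _
  have e : c.rd (fun w => x w j) y = fun z => ∑ l, ρ γ⁻¹ j l * c.rd (fun w => x (γ • w) l) y z :=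
    funext fun z => by
      simpa [Sx.rd, mulVec, dotProduct] using congrFun (ex γ⁻¹ (γ • c.rd id y z)) j
  rw [e, fderiv_fun_sum fun l _ => (d1 l).const_mul _]
  exact Finset.sum_eq_zero fun l _ => by rw [fderiv_const_mul (d1 l), q1]; ext; simp

end TlA

open TlA in
theorem tlS {ι X Y G : Type} [Fintype ι] [DecidableEq ι] [TopologicalSpace X] [T2Space X]
    [CompactSpace X] [MeasurableSpace X] [BorelSpace X] [TopologicalSpace Y] [ConnectedSpace Y]
    [Group G] [MulAction G Y] {c : Sx ι X Y G} {μ : Measure X} (h : Al) (hb : c.Bs)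
    (hμ : c.M.IsVol c.g μ) (h1 : PwV) (h2 : c.LzS μ) (h3 : c.GrS μ) (h4 : c.RgS) : c.TlS μ where
  ker _ _ _ _ _ hρ hH _ ex sx h0 := ker h hb hμ h3 hρ hH ex sx h0
  sol r _ _ ρ H hH f ef sf ho := by
    obtain ⟨b, hv⟩ := (hb.m.bs r ρ).1
    obtain ⟨L1, k1⟩ := met hb hH.1 hH.2.1 hv
    obtain ⟨L2, k2⟩ := lowD h hb hH.2.1 hv
    obtain ⟨B, hB⟩ := h0 hb sf
    obtain ⟨v, N, sv, hN, e⟩ := h2 r b _ H (c.hd H) (k1 _ (le_max_left L1 L2))
      (k2 _ (le_max_right L1 L2)) (mp hb h1 hH b) (fun v w N N' sv sw hN hN' =>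
        sa h hb hμ h3 hH.1 hH.2.1 ((sec_iff hv).1 sw) ((sec_iff hv).1 sv) (ck2 hb sw hN')
          (ck2 hb sv hN)) f B ((sec_iff hv).2 ef) hB fun w N sw hN e => by
      have k := ker h hb hμ h3 hH.1 hH.2.1 ((sec_iff hv).1 sw) (ck2 hb sw hN) e
      obtain ⟨y0⟩ : Nonempty Y := inferInstance
      simp only [k _ y0]
      exact ho _ fun γ => by simpa [k _ y0] using ((sec_iff hv).1 sw γ y0).symm
    exact ⟨v, (sec_iff hv).1 sv, h4.vec r ρ H v f N hH.2.1 ((sec_iff hv).1 sv) hN sf e, e⟩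

end

end Pool.Agent.Lib.MP_813db1_ag.VH.Co
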