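import Pool.Agent.Lib.MP_813db1_ag.VH.CoStmt

/-! Inequalities for Hermitian forms. -/

namespace Pool.Agent.Lib.MP_813db1_ag.VH.Co

open Pool.Agent.Lib.MP_813db1_ag.HS Pool.Agent.Lib.MP_813db1_ag.AS
open Complex Matrix
open scoped ComplexOrder

namespace Tp

variable {r : Type} [Fintype r] [DecidableEq r] {H P Q T : Mat r}

theorem simH (hH : H.PosDef) (hB : P.IsHermitian) : ∃ (T : Mat r) (d : r → ℝ),
    IsUnit T.det ∧ H = Tᴴ * T ∧ P = Tᴴ * diagonal (fun i => (d i : ℂ)) * T := by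
  obtain ⟨S, rfl⟩ := Mat.fac hH.posSemidef
  have hS : IsUnit S.det := by
    have := (isUnit_iff_isUnit_det _).1 hH.isUnit
    rw [det_mul] at this
    exact isUnit_of_mul_isUnit_right this
  have hS' : IsUnit Sᴴ.det := by rw [det_conjTranspose]; exact hS.star
  have h' := isHermitian_conjTranspose_mul_mul S⁻¹ hB
  obtain ⟨U, d, hU, e⟩ : ∃ (U : Mat r) (d : r → ℝ), U * Uᴴ = 1 ∧
      S⁻¹ᴴ * P * S⁻¹ = U * diagonal (fun i => (d i : ℂ)) * Uᴴ :=
    ⟨h'.eigenvectorUnitary, h'.eigenvalues, Unitary.coe_mul_star_self _, h'.spectral_theorem⟩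
  refine ⟨Uᴴ * S, d, ?_, ?_, ?_⟩
  · rw [det_mul]
    exact (isUnit_det_of_left_inverse hU).mul hS
  · rw [conjTranspose_mul, conjTranspose_conjTranspose, mul_assoc, ← mul_assoc U, hU, one_mul]
  · rw [conjTranspose_mul, conjTranspose_conjTranspose]
    calc P = Sᴴ * (S⁻¹ᴴ * P * S⁻¹) * S := by
          rw [conjTranspose_nonsing_inv, ← mul_assoc, ← mul_assoc, mul_nonsing_inv _ hS', one_mul,
            nonsing_inv_mul_cancel_right _ _ hS]
      _ = _ := by rw [e]; simp only [mul_assoc]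

theorem sq_diag (hT : IsUnit T.det) (d : r → ℝ) :
    Tᴴ * diagonal (fun i => (d i : ℂ)) * T * (Tᴴ * T)⁻¹ *
      (Tᴴ * diagonal (fun i => (d i : ℂ)) * T) =
      Tᴴ * diagonal (fun i => ((d i ^ 2 : ℝ) : ℂ)) * T := by
  have hT' : IsUnit Tᴴ.det := by rw [det_conjTranspose]; exact hT.star
  rw [Matrix.mul_inv_rev, mul_assoc _ T, mul_nonsing_inv_cancel_left _ _ hT, mul_assoc,
    mul_assoc Tᴴ _ T, nonsing_inv_mul_cancel_left _ _ hT', ← mul_assoc, mul_assoc Tᴴ,
    diagonal_mul_diagonal]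
  simp only [pow_two, ofReal_mul]

theorem tp_eq (H P Q : Mat r) : tp H P Q = trm H (P * H⁻¹ * Q) := by
  rw [tp, trm, trace_mul_comm _ H⁻¹]; simp only [mul_assoc]

theorem tp_diag (hT : IsUnit T.det) (d : r → ℝ) :
    tp (Tᴴ * T) (Tᴴ * diagonal (fun i => (d i : ℂ)) * T) (Tᴴ * diagonal (fun i => (d i : ℂ)) * T) =
      ∑ i, d i ^ 2 := by
  rw [tp_eq, sq_diag hT, Mat.trm_diag hT]

theorem lin (T : Mat r) (a s : ℝ) (d : r → ℝ) :
    (a : ℂ) • (Tᴴ * T) + (s : ℂ) • (Tᴴ * diagonal (fun i => (d i : ℂ)) * T) =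
      Tᴴ * diagonal (fun i => ((a + s * d i : ℝ) : ℂ)) * T := by
  have : (diagonal fun i => ((a + s * d i : ℝ) : ℂ)) =
      (a : ℂ) • (1 : Mat r) + (s : ℂ) • diagonal fun i => (d i : ℂ) := by
    rw [← diagonal_one, ← diagonal_smul, ← diagonal_smul, diagonal_add]
    congr 1
    funext i
    simp
  rw [this, mul_add, add_mul, Matrix.mul_smul, Matrix.smul_mul, mul_one, Matrix.mul_smul,
    Matrix.smul_mul]

theorem psd_iff (hT : IsUnit T.det) (d : r → ℝ) :
    (Tᴴ * diagonal (fun i => (d i : ℂ)) * T).PosSemidef ↔ ∀ i, 0 ≤ d i := by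
  have hT' : IsUnit Tᴴ.det := by rw [det_conjTranspose]; exact hT.star
  refine ⟨fun h i => ?_, fun h => (PosSemidef.diagonal fun i =>
    zero_le_real.2 (h i)).conjTranspose_mul_mul_same T⟩
  have := h.conjTranspose_mul_mul_same T⁻¹
  rw [conjTranspose_nonsing_inv, mul_assoc, mul_nonsing_inv_cancel_right _ _ hT,
    nonsing_inv_mul_cancel_left _ _ hT'] at this
  exact zero_le_real.1 (posSemidef_diagonal_iff.1 this i)

theorem dom_iff (hT : IsUnit T.det) (a : ℝ) (d : r → ℝ) :
    Dom a (Tᴴ * T) (Tᴴ * diagonal (fun i => (d i : ℂ)) * T) ↔ ∀ i, |d i| ≤ a := by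
  have e1 := lin T a 1 d
  have e2 := lin T a (-1) d
  rw [ofReal_one, one_smul] at e1
  rw [ofReal_neg, ofReal_one, neg_smul, one_smul, ← sub_eq_add_neg] at e2
  rw [Dom, e1, e2, psd_iff hT, psd_iff hT, ← forall_and]
  exact forall_congr' fun i => by rw [abs_le]; constructor <;> rintro ⟨a, b⟩ <;> constructor <;>
    linarith

theorem nn (hH : H.PosDef) (hP : P.IsHermitian) : 0 ≤ tp H P P := by
  obtain ⟨T, d, hT, rfl, rfl⟩ := simH hH hP
  rw [tp_diag hT]; positivity

theorem dom {a : ℝ} (hH : H.PosDef) (hP : P.IsHermitian) (ha : 0 ≤ a) (h : tp H P P ≤ a ^ 2) :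
    Dom a H P := by
  obtain ⟨T, d, hT, rfl, rfl⟩ := simH hH hP
  rw [tp_diag hT] at h
  exact (dom_iff hT a d).2 fun i => abs_le_of_sq_le_sq' ((Finset.single_le_sum
    (f := fun i => d i ^ 2) (fun j _ => sq_nonneg _) (Finset.mem_univ i)).trans h) ha |> abs_le.2

omit [Fintype r] [DecidableEq r] in
theorem herm_smul (hH : H.IsHermitian) (a : ℝ) : ((a : ℂ) • H).IsHermitian := by
  rw [IsHermitian, conjTranspose_smul, hH.eq]; simp

theorem tr_nn (hP : P.PosSemidef) (hQ : Q.PosSemidef) : 0 ≤ (trace (P * Q)).re := by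
  obtain ⟨S, rfl⟩ := Mat.fac hP
  rw [mul_assoc, trace_mul_comm]
  exact (Complex.nonneg_iff.1 (hQ.mul_mul_conjTranspose_same S).trace_nonneg).1

omit [DecidableEq r] in
theorem bd_mul {a b : ℝ} (h1 : Bd a P) (h2 : Bd b Q) :
    Bd (Fintype.card r * (|a| * |b|)) (P * Q) := fun i j => by
  rw [mul_apply]
  refine (norm_sum_le _ _).trans ((Finset.sum_le_sum fun k _ => (norm_mul_le _ _).trans
    (mul_le_mul ((h1 i k).trans (le_abs_self a)) ((h2 k j).trans (le_abs_self b)) (norm_nonneg _)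
      (abs_nonneg _))).trans (le_of_eq ?_))
  simp

omit [DecidableEq r] in
theorem tr_le {a : ℝ} (h : Bd a P) : (trace P).re ≤ Fintype.card r * |a| := by
  rw [trace, re_sum]
  refine (Finset.sum_le_sum fun i _ => (re_le_norm _).trans
    ((h i i).trans (le_abs_self a))).trans (le_of_eq ?_)
  simp

theorem low {L : ℝ} (hH : H.PosDef) (h : Bd L H⁻¹) :
    (((Fintype.card r * |L| + 1 : ℝ) : ℂ) • H - 1).PosSemidef := by
  have a := tr_le h
  have e := (Mat.le_trm hH PosSemidef.one).add (hH.posSemidef.smul (zero_le_real.2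
    (show 0 ≤ Fintype.card r * |L| + 1 - trm H 1 by rw [trm, one_mul]; linarith)))
  convert e using 1
  rw [sub_add_eq_add_sub, ← add_smul, ← ofReal_add, add_sub_cancel]

theorem ip_kr (H : Mat r) (u v : r × r → ℂ) :
    ip (kr H) u v = (trace ((mt u)ᴴ * H⁻¹ * mt v * H⁻¹)).re := by
  rw [ip]
  congr 1
  simp only [dotProduct, mulVec, kr, mt, trace, diag, mul_apply, Fintype.sum_prod_type, of_apply,
    conjTranspose_apply, Finset.mul_sum, Finset.sum_mul, Pi.star_apply]
  rw [Finset.sum_comm]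
  refine Finset.sum_congr rfl fun j _ => ?_
  rw [Finset.sum_comm]
  conv_rhs => rw [Finset.sum_comm]
  refine Finset.sum_congr rfl fun k _ => ?_
  rw [Finset.sum_comm]
  exact Finset.sum_congr rfl fun _ _ => Finset.sum_congr rfl fun _ _ => by ring

theorem norm_le (u : r × r → ℂ) : ‖u‖ ^ 2 ≤ (trace ((mt u)ᴴ * mt u)).re := by
  have := Mat.nv_one (star u)
  rw [norm_star, Mat.nv_eq, one_mulVec] at this
  refine this.trans (le_of_eq (congrArg _ ?_))
  simp only [dotProduct, mt, trace, diag, mul_apply, Fintype.sum_prod_type, of_apply,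
    conjTranspose_apply, Pi.star_apply]
  exact Finset.sum_comm

end Tp

open Tp in
theorem tpS : TpS where
  nn _ _ _ _ _ := nn
  cs r _ _ H P Q hH hP hQ := by
    have k := discrim_le_zero (a := tp H P P) (b := 2 * tp H P Q) (c := tp H Q Q) fun t => by
      have := nn hH ((herm_smul hP t).add hQ)
      simp only [tp, mul_add, add_mul, Matrix.mul_smul, Matrix.smul_mul, trace_add, trace_smul,
        smul_eq_mul, add_re, re_ofReal_mul, trace_mul_comm (H⁻¹ * Q) (H⁻¹ * P)] at this ⊢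
      linarith
    rw [discrim] at k
    linarith
  dom _ _ _ _ _ _ := dom
  sq r _ _ H P a hH h := by
    have hP : P.IsHermitian := by simpa using h.1.1.sub (herm_smul hH.1 a)
    obtain ⟨T, d, hT, rfl, rfl⟩ := simH hH hP
    have e := lin T (a ^ 2) (-1) fun i => d i ^ 2
    rw [ofReal_neg, ofReal_one, neg_smul, one_smul, ← sub_eq_add_neg] at e
    rw [sq_diag hT, ← Complex.coe_smul, e, psd_iff hT]
    intro i
    have := sq_le_sq' (abs_le.1 ((dom_iff hT a d).1 h i)).1 (abs_le.1 ((dom_iff hT a d).1 h i)).2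
    linarith
  tr r _ _ H P Q a h hQ := by
    have h1 := tr_nn h.1 hQ
    have h2 := tr_nn h.2 hQ
    simp only [add_mul, sub_mul, Matrix.smul_mul, trace_add, trace_sub, trace_smul, smul_eq_mul,
      add_re, sub_re, re_ofReal_mul] at h1 h2
    exact abs_le.2 ⟨by linarith, by linarith⟩
  ent r _ _ L := by
    refine ⟨L ^ 2 + Fintype.card r ^ 4 * L ^ 2, by positivity, fun H P hH hP =>
      ⟨fun h i j => ?_, fun h a ha => ?_⟩⟩
    · have n0 := nn hH hP
      have s0 := Real.sqrt_nonneg (tp H P P)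
      obtain ⟨d1, d2⟩ := dom hH hP s0 (Real.sq_sqrt n0).ge
      have e1 := Mat.ent d1 i j
      have e2 := Mat.ent d2 i j
      have e3 := norm_sub_le ((((√(tp H P P) : ℝ) : ℂ) • H + P) i j)
        ((((√(tp H P P) : ℝ) : ℂ) • H - P) i j)
      have k1 := mul_le_mul_of_nonneg_left ((re_le_norm _).trans (h i i)) s0
      have k2 := mul_le_mul_of_nonneg_left ((re_le_norm _).trans (h j j)) s0
      simp only [Matrix.add_apply, Matrix.sub_apply, Matrix.smul_apply, smul_eq_mul, add_re, sub_re,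
        re_ofReal_mul] at e1 e2 e3
      rw [add_sub_sub_cancel, ← two_mul, norm_mul, Complex.norm_two] at e3
      have k3 := pow_le_pow_left₀ (norm_nonneg _)
        (show ‖P i j‖ ≤ √(tp H P P) * L by linarith) 2
      rw [mul_pow, Real.sq_sqrt n0] at k3
      have : 0 ≤ Fintype.card r ^ 4 * L ^ 2 * tp H P P := by positivity
      linarith
    · refine (tr_le (bd_mul (bd_mul h ha) (bd_mul h ha))).trans ?_
      rw [abs_of_nonneg (by positivity), abs_of_nonneg (by positivity)]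
      have : 0 ≤ L ^ 2 * a ^ 2 := by positivity
      rw [← sq_abs L, ← sq_abs a] at this ⊢
      linarith
  kr r _ _ H hH := by
    refine ⟨IsHermitian.ext fun q q' => ?_, fun u => ?_, fun P Q hP => ?_⟩
    · simp only [Co.kr, of_apply, star_mul', hH.inv.1.apply]
    · rw [ip_kr]
      exact tr_nn (hH.inv.posSemidef.conjTranspose_mul_mul_same _) hH.inv.posSemidef
    · rw [ip_kr, tp_eq]
      exact congrArg (fun A : Mat r => (trace (A * H⁻¹ * Q * H⁻¹)).re) hP.eq
  krp r _ _ L := by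
    refine ⟨(Fintype.card r * |L| + 1) ^ 2, by positivity, fun H hH h u => ?_⟩
    have k := Tp.low (L := L) hH.inv (by
      rwa [nonsing_inv_nonsing_inv _ ((isUnit_iff_isUnit_det _).1 hH.isUnit)])
    have h1 := (Complex.nonneg_iff.1 (k.conjTranspose_mul_mul_same (mt u)).trace_nonneg).1
    have h2 := tr_nn (hH.inv.posSemidef.conjTranspose_mul_mul_same (mt u)) k
    simp only [mul_sub, sub_mul, Matrix.smul_mul, Matrix.mul_smul, trace_sub, trace_smul,
      smul_eq_mul, sub_re, re_ofReal_mul, mul_one] at h1 h2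
    have h3 := mul_nonneg (show 0 ≤ Fintype.card r * |L| + 1 by positivity) h2
    rw [ip_kr]
    linarith [norm_le u]
  pos r _ _ L := by
    set K : ℝ := Fintype.card r * |L| + 1 with hK
    have K0 : 0 < K := by positivity
    have e0 : 0 < (2 * K * (Fintype.card r ^ 2 + 1))⁻¹ := by positivity
    refine ⟨_, e0, (2 * K * Fintype.card r + 1) * (2 * K * Fintype.card r + 1),
      fun H P hH hP h1 h2 => ?_⟩
    have key : ∀ v, nV 1 v ≤ 2 * K * nV (H + P) v := fun v => by
      have a1 := Mat.nv_mono (Tp.low hH h1) v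
      have a2 := Mat.nv_le h2 v
      have a3 := Mat.nv_one v
      have a4 := (Mat.nv_lin 1 H P v).1
      rw [(Mat.nv_lin _ _ _ _).2] at a1
      rw [ofReal_one, one_smul, one_mul] at a4
      have a5 : 2 * K * (Fintype.card r ^ 2 * |(2 * K * (Fintype.card r ^ 2 + 1))⁻¹|) ≤ 1 := by
        rw [abs_of_pos e0, ← mul_assoc, mul_inv_le_iff₀ (by positivity)]; linarith
      have a6 := mul_le_mul_of_nonneg_left (abs_le.1 a2).1 (mul_pos two_pos K0).le
      have a7 := mul_le_mul_of_nonneg_right a5 (sq_nonneg ‖v‖)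
      rw [a4]
      linarith
    have hM : (H + P).PosDef := Mat.pd (hH.1.add hP) fun v hv => pos_of_mul_pos_right
      (((pow_pos (norm_pos_iff.2 hv) 2).trans_le (Mat.nv_one v)).trans_le (key v))
      (mul_pos two_pos K0).le
    have hh := (herm_smul hM.1 (2 * K)).sub isHermitian_one
    have k := tr_nn (PosSemidef.of_dotProduct_mulVec_nonneg hh fun v => Complex.nonneg_iff.2
      ⟨by rw [← Mat.nv_eq, (Mat.nv_lin _ _ _ _).2]; linarith [key (star v)],
        (hh.im_star_dotProduct_mulVec_self v).symm⟩) hM.inv.posSemidef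
    rw [sub_mul, Matrix.smul_mul, mul_nonsing_inv _ ((isUnit_iff_isUnit_det _).1 hM.isUnit),
      one_mul, trace_sub, trace_smul, trace_one, sub_re, smul_eq_mul, re_ofReal_mul,
      natCast_re] at k
    have n0 : 0 ≤ 2 * K * Fintype.card r := by positivity
    refine ⟨hM, Mat.bd_le PosDef.one hM.inv.posSemidef (fun i j => ?_)
      (by rw [trm, inv_one, mul_one]; linarith)⟩
    rw [one_apply]
    split_ifs
    · rw [norm_one]; linarith
    · rw [norm_zero]; linarith
  bdd r _ _ L := ⟨L * L, fun H0 H h0 hH h1 h2 h3 h4 => ⟨Mat.bd_le h0 hH.posSemidef h1 h3,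
    Mat.bd_le h0.inv hH.inv.posSemidef h2 (by
      rwa [trm, nonsing_inv_nonsing_inv _ ((isUnit_iff_isUnit_det _).1 h0.isUnit),
        trace_mul_comm])⟩⟩

end Pool.Agent.Lib.MP_813db1_ag.VH.Co
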