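import Pool.Agent.Lib.MP_813db1_ag.VH.Stmt
import Pool.Agent.Lib.MP_813db1_ag.VH.CoAp
import Pool.Agent.Lib.MP_813db1_ag.VH.CoBasB
import Pool.Agent.Lib.MP_813db1_ag.VH.CoBasM
import Pool.Agent.Lib.MP_813db1_ag.VH.CoBs
import Pool.Agent.Lib.MP_813db1_ag.VH.CoDv
import Pool.Agent.Lib.MP_813db1_ag.VH.CoEx
import Pool.Agent.Lib.MP_813db1_ag.VH.CoFlat
import Pool.Agent.Lib.MP_813db1_ag.VH.CoGr
import Pool.Agent.Lib.MP_813db1_ag.VH.CoHm
import Pool.Agent.Lib.MP_813db1_ag.VH.CoHod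
import Pool.Agent.Lib.MP_813db1_ag.VH.CoIt
import Pool.Agent.Lib.MP_813db1_ag.VH.CoLs
import Pool.Agent.Lib.MP_813db1_ag.VH.CoLz
import Pool.Agent.Lib.MP_813db1_ag.VH.CoNl
import Pool.Agent.Lib.MP_813db1_ag.VH.CoPwV
import Pool.Agent.Lib.MP_813db1_ag.VH.CoTl
import Pool.Agent.Lib.MP_813db1_ag.VH.CoTp

/-! Flat projectors, the twisted Poisson equation, harmonic representatives of cocycles. -/

namespace Pool.Agent.Lib.MP_813db1_ag.VH

open Pool.Agent.Lib.MP_813db1_ag.HS MeasureTheory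

variable {ι X Y G : Type} [Fintype ι] [DecidableEq ι] [TopologicalSpace X] [T2Space X]
  [CompactSpace X] [MeasurableSpace X] [BorelSpace X] [TopologicalSpace Y] [Group G]
  [MulAction G Y]

namespace Co

theorem al : Al := ⟨tpS, frS, dvS, hmS, itS⟩

variable [ConnectedSpace Y] {c : Sx ι X Y G} {μ : Measure X}

omit [T2Space X] [MeasurableSpace X] [BorelSpace X] in
theorem bs : c.Bs := ⟨bas, basB al bas, basM al bas⟩

omit [MeasurableSpace X] [BorelSpace X] in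
theorem ls : c.LsS := lsS bs (itE bs) (bsS bs (exS bas bs.b) (itE bs)) (mpS bs (pwV al))

theorem tl (hμ : c.M.IsVol c.g μ) : c.TlS μ :=
  tlS al bs hμ (pwV al) (lzS bs hμ ls) (grS al bs hμ) (rgS al bs rgL)

end Co

open Co

variable [SimplyConnectedSpace Y] {M : Atl ι X} {p : Y → X}

theorem flatS (hq : IsQuotientCoveringMap p G) : FlatS M p G := fun g hg => by
  obtain ⟨c, rfl, rfl, rfl⟩ := sxS ι X Y G M g p hq hg
  obtain ⟨μ, hμ⟩ := (AY.volS' ι X c.M c.g hg).1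
  exact flatS' al bs hμ (grS al bs hμ) (dcS al bs)

theorem poiS (hq : IsQuotientCoveringMap p G) : PoiS M p G := fun g μ hg hμ => by
  obtain ⟨c, rfl, rfl, rfl⟩ := sxS ι X Y G M g p hq hg
  exact poiS' hμ (tl hμ) (dcS al bs)

theorem hodS (hq : IsQuotientCoveringMap p G) : HodS M p G := fun g hg => by
  obtain ⟨c, rfl, rfl, rfl⟩ := sxS ι X Y G M g p hq hg
  obtain ⟨μ, hμ⟩ := (AY.volS' ι X c.M c.g hg).1
  exact hodS' al bs hμ (tl hμ) (dcS al bs) (avS bas) (grS al bs hμ)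

end Pool.Agent.Lib.MP_813db1_ag.VH
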