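import Pool.Agent.Lib.MP_813db1_ag.VH.CoStmt

/-! Harmonic metrics: the matrix inequalities. -/

namespace Pool.Agent.Lib.MP_813db1_ag.VH.Co

open Pool.Agent.Lib.MP_813db1_ag.HS Pool.Agent.Lib.MP_813db1_ag.AS
open Complex Matrix Set
open scoped ComplexOrder

namespace Alg

variable {r : Type} [Fintype r] [DecidableEq r]

theorem pp (h : TpS) {A B : Mat r} (hA : A.PosSemidef) (hB : B.PosSemidef) :
    0 ≤ (trace (A * B)).re := by
  have h1 := h.tr r A 0 B 1 ⟨by simpa using hA, by simpa using hA⟩ hB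
  simpa using h1

theorem c1 {H : Mat r} (h : H.PosDef) : H * H⁻¹ = 1 := mul_nonsing_inv _ h.det_pos.ne'.isUnit

theorem c2 {H : Mat r} (h : H.PosDef) : H⁻¹ * H = 1 := nonsing_inv_mul _ h.det_pos.ne'.isUnit

theorem c3 {H : Mat r} (h : H.PosDef) (X : Mat r) : H * (H⁻¹ * X) = X := by
  rw [← Matrix.mul_assoc, c1 h, Matrix.one_mul]

theorem c4 {H : Mat r} (h : H.PosDef) (X : Mat r) : H⁻¹ * (H * X) = X := by
  rw [← Matrix.mul_assoc, c2 h, Matrix.one_mul]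

omit [DecidableEq r] in
theorem sand {A B : Mat r} (hA : A.PosSemidef) (hB : B.IsHermitian) : (B * A * B).PosSemidef := by
  have := hA.conjTranspose_mul_mul_same B
  rwa [hB.eq] at this

theorem quad (h : TpS) {A B X Y : Mat r} (hA : A.PosSemidef) (hB : B.PosSemidef) (e : Xᴴ = Y) :
    0 ≤ (trace (A * (Y * B * X))).re := e ▸ pp h hA (hB.conjTranspose_mul_mul_same X)

theorem sqb (h : TpS) {H P Q : Mat r} {a : ℝ} (hH : H.PosDef) (hd : Dom a H P)
    (hQ : Q.PosSemidef) : (trace (P * H⁻¹ * P * Q)).re ≤ a ^ 2 * (trace (H * Q)).re := by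
  have h1 := pp h (h.sq r H P a hH hd) hQ
  rw [Matrix.sub_mul, trace_sub, Matrix.smul_mul, trace_smul, sub_re, smul_re, smul_eq_mul] at h1
  linarith

/-- the common part of the two estimates. -/
theorem core (h : TpS) {l : ℝ} {H0 T0 H P : Mat r} (hH : H.PosDef)
    (hP : P.IsHermitian) (hd : Dom (l - 1) H0 T0) :
    l * (trace (H0⁻¹ * (P * (H⁻¹ * P)))).re + (trace (H0 * (H⁻¹ * (P * (H⁻¹ * (P * H⁻¹)))))).re ≤
      tp H (rd1 l H0 H P) P - (trace (H⁻¹ * rh l H0 T0 H * (H⁻¹ * P) * (H⁻¹ * P))).re := by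
  have hW : (H⁻¹ * (P * (H⁻¹ * (P * H⁻¹)))).PosSemidef := by
    simpa only [Matrix.mul_assoc] using sand (sand hH.inv.posSemidef hP) hH.inv.isHermitian
  have h1 := (abs_le.1 (h.tr r H0 T0 _ _ hd hW)).2
  have e1 : trace (H⁻¹ * (P * (H0⁻¹ * P))) = trace (H0⁻¹ * (P * (H⁻¹ * P))) := by
    rw [← Matrix.mul_assoc, trace_mul_comm]
    simp only [Matrix.mul_assoc]
  have e2 : ∀ X : Mat r, trace (H⁻¹ * (X * (H⁻¹ * (P * (H⁻¹ * P))))) =
      trace (X * (H⁻¹ * (P * (H⁻¹ * (P * H⁻¹))))) := fun X => by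
    rw [trace_mul_comm]
    simp only [Matrix.mul_assoc]
  simp only [tp, rd1, rh, Matrix.mul_add, Matrix.add_mul, Matrix.mul_sub, Matrix.sub_mul,
    Matrix.mul_smul, Matrix.smul_mul, smul_add, smul_sub, Matrix.mul_assoc, c3 hH, c4 hH, trace_add,
    trace_sub, trace_smul, smul_eq_mul, add_re, sub_re, re_ofReal_mul, e1, e2 H0, e2 T0]
  linarith

end Alg

open Alg

theorem c0A (h : TpS) : C0A := fun r _ _ l hl => by
  refine ⟨2 * Fintype.card r * (l - 1) + 6 * l * Fintype.card r ^ 2 + 1,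
    fun t H0 T0 H ht h0 hH _ hd hE => ?_⟩
  have hr : (trace (1 : Mat r)).re = Fintype.card r := by simp
  have b1 := (abs_le.1 (h.tr r H0 T0 _ _ hd h0.inv.posSemidef)).1
  have b2 := (abs_le.1 (h.tr r H0 T0 _ _ hd (sand h0.posSemidef hH.inv.isHermitian))).2
  have b3 := (abs_le.1 (h.tr r H0 T0 _ _ hd (sand hH.posSemidef h0.inv.isHermitian))).2
  have b4 := (abs_le.1 (h.tr r H0 T0 _ _ hd hH.inv.posSemidef)).1
  have s1 := (mat.sq r H0 H h0 hH.posSemidef).1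
  have s2 := (mat.sq r H H0 hH h0.posSemidef).1
  have p1 := mat.trm_nonneg r H0 H h0 hH.posSemidef
  have p2 := mat.trm_nonneg r H H0 hH h0.posSemidef
  have p3 := mat.trm_nonneg r H0 _ h0 (sand h0.inv.posSemidef hH.isHermitian)
  have e1 : trace (H0⁻¹ * (H * (H0⁻¹ * H))) = trace (H * (H0⁻¹ * (H * H0⁻¹))) := by
    rw [trace_mul_comm]; simp only [Matrix.mul_assoc]
  have e2 : ∀ X Y : Mat r, trace (H⁻¹ * (X * (H⁻¹ * Y))) = trace (X * (H⁻¹ * (Y * H⁻¹))) :=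
    fun X Y => by rw [trace_mul_comm]; simp only [Matrix.mul_assoc]
  have e3 : trace (H0⁻¹ * (T0 * (H0⁻¹ * H))) = trace (T0 * (H0⁻¹ * (H * H0⁻¹))) := by
    rw [trace_mul_comm]; simp only [Matrix.mul_assoc]
  simp only [trm, rh, Matrix.mul_add, Matrix.add_mul, Matrix.mul_sub, Matrix.sub_mul,
    Matrix.mul_smul, Matrix.smul_mul, smul_add, smul_sub, Matrix.mul_assoc, c1 h0, c2 h0, c3 h0,
    c3 hH, c4 hH, trace_add, trace_sub, trace_smul, smul_eq_mul, add_re, sub_re, re_ofReal_mul,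
    hr, e1, e2 H0, e2 T0, e3, trace_mul_comm H0⁻¹ T0, trace_mul_comm H⁻¹ T0]
    at hE b1 b2 b3 b4 s1 s2 p1 p2 p3 ⊢
  generalize (trace (H * (H0⁻¹ * (H * H0⁻¹)))).re = a1 at *
  generalize (trace (H0 * (H⁻¹ * (H0 * H⁻¹)))).re = a2 at *
  generalize (trace (H * H0⁻¹)).re = x1 at *
  generalize (trace (H0 * H⁻¹)).re = x2 at *
  have hn : (0 : ℝ) ≤ Fintype.card r := Nat.cast_nonneg _
  generalize (Fintype.card r : ℝ) = n at *
  obtain ⟨t0, t1⟩ := ht
  have k1 := mul_le_mul_of_nonneg_left b1 t0.le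
  have k2 := mul_le_mul_of_nonneg_left b2 t0.le
  have k3 : 0 ≤ t * (l - 1) * a1 := by positivity
  have k4 : 0 ≤ t * n := by positivity
  have k5 : t * (a1 + a2) ≤ 3 * t * l * n + (l - 1) * (x1 + x2) := by nlinarith
  have k6 : (x1 + x2) ^ 2 ≤ 2 * n * (a1 + a2) := by nlinarith [sq_nonneg (x1 - x2)]
  have k7 : t * (x1 + x2) ^ 2 ≤ 2 * n * (3 * t * l * n + (l - 1) * (x1 + x2)) := by
    nlinarith [mul_le_mul_of_nonneg_left k6 t0.le, mul_le_mul_of_nonneg_left k5 hn]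
  have k8 : t * t * (l * n ^ 2) ≤ l * n ^ 2 :=
    mul_le_of_le_one_left (by positivity) (by nlinarith)
  have k9 : (t * (x1 + x2)) ^ 2 ≤ 6 * l * n ^ 2 + 2 * n * (l - 1) * (t * (x1 + x2)) := by
    nlinarith [mul_le_mul_of_nonneg_left k7 t0.le]
  generalize t * (x1 + x2) = x at *
  have k10 : 0 ≤ n * (l - 1) := mul_nonneg hn (by linarith)
  have k11 : 0 ≤ l * n ^ 2 := by positivity
  by_contra hc
  nlinarith [not_le.1 hc]

theorem mpA (h : TpS) : MpA := fun r _ _ l H0 T0 H P hl h0 hH _ hP hd => by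
  have h1 := core h hH hP hd
  have h2 := quad h (X := P) h0.inv.posSemidef hH.inv.posSemidef hP.eq
  have h3 := quad h (X := P - P * H⁻¹ * H0) (Y := P - H0 * H⁻¹ * P) h0.inv.posSemidef
    hH.inv.posSemidef (by
      simp only [conjTranspose_sub, conjTranspose_mul, hP.eq, h0.isHermitian.eq,
        hH.inv.isHermitian.eq, Matrix.mul_assoc])
  have e1 : trace (H0⁻¹ * (P * (H⁻¹ * (P * (H⁻¹ * H0))))) = trace (H⁻¹ * (P * (H⁻¹ * P))) := by
    rw [trace_mul_comm]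
    simp only [Matrix.mul_assoc, c1 h0, Matrix.mul_one]
    rw [trace_mul_comm H⁻¹]
    simp only [Matrix.mul_assoc]
  have e2 : trace (H⁻¹ * (P * (H⁻¹ * (P * (H⁻¹ * H0))))) =
      trace (H0 * (H⁻¹ * (P * (H⁻¹ * (P * H⁻¹))))) := by
    rw [trace_mul_comm H0]
    simp only [Matrix.mul_assoc]
  simp only [Matrix.mul_sub, Matrix.sub_mul, Matrix.mul_assoc, c4 h0, trace_sub, sub_re, e1, e2]
    at h2 h3
  rw [show tp H P P = (trace (H⁻¹ * (P * (H⁻¹ * P)))).re by rw [tp, Matrix.mul_assoc]]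
  nlinarith

theorem boA (h : TpS) : BoA := fun r _ _ l a hl ha => by
  refine ⟨l * a ^ 2 + ((1 + l) * a) ^ 2, by positivity,
    fun H0 T0 H P0 T1 P h0 hH _ hP0 hT1 hP hd hd0 hd1 => ?_⟩
  have h1 := core h hH hP hd
  have hl0 : (0 : ℂ) ≤ (l : ℂ) := by exact_mod_cast (by linarith : 0 ≤ l)
  obtain ⟨S, hS⟩ : ∃ S, S = T1 - (l : ℂ) • P0 := ⟨_, rfl⟩
  have hSh : S.IsHermitian := by
    rw [hS, IsHermitian, conjTranspose_sub, conjTranspose_smul, hT1.eq, hP0.eq]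
    simp
  have hdS : Dom ((1 + l) * a) H0 S := by
    refine ⟨?_, ?_⟩
    · convert hd1.1.add (hd0.2.smul hl0) using 1
      rw [hS]; push_cast; module
    · convert hd1.2.add (hd0.1.smul hl0) using 1
      rw [hS]; push_cast; module
  have h2 := quad h (X := P + P - H * H0⁻¹ * P0) (Y := P + P - P0 * H0⁻¹ * H) h0.inv.posSemidef
    hH.inv.posSemidef (by
      simp only [conjTranspose_sub, conjTranspose_add, conjTranspose_mul, hP.eq, hP0.eq,
        hH.isHermitian.eq, h0.inv.isHermitian.eq, Matrix.mul_assoc])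
  have h3 := quad h (X := H0 * H⁻¹ * P + H0 * H⁻¹ * P + S) (Y := P * H⁻¹ * H0 + P * H⁻¹ * H0 + S)
    hH.inv.posSemidef h0.inv.posSemidef (by
      simp only [conjTranspose_add, conjTranspose_mul, hP.eq, hSh.eq, h0.isHermitian.eq,
        hH.inv.isHermitian.eq, Matrix.mul_assoc])
  have h4 := sqb h h0 hd0 (sand hH.posSemidef h0.inv.isHermitian)
  have h5 := sqb h h0 hdS hH.inv.posSemidef
  have p1 := mat.trm_nonneg r H0 H h0 hH.posSemidef
  have p2 := mat.trm_nonneg r H H0 hH h0.posSemidef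
  have e1 : trace (H0⁻¹ * (P * (H0⁻¹ * P0))) = trace (H0⁻¹ * (P0 * (H0⁻¹ * P))) := by
    rw [← Matrix.mul_assoc, trace_mul_comm]
    simp only [Matrix.mul_assoc]
  have e2 : trace (H0⁻¹ * (P0 * (H0⁻¹ * (H * (H0⁻¹ * P0))))) =
      trace (P0 * (H0⁻¹ * (P0 * (H0⁻¹ * (H * H0⁻¹))))) := by
    rw [trace_mul_comm P0]
    simp only [Matrix.mul_assoc]
  have e3 : trace (H⁻¹ * (P * (H⁻¹ * (H0 * (H⁻¹ * P))))) =
      trace (H0 * (H⁻¹ * (P * (H⁻¹ * (P * H⁻¹))))) := by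
    rw [← Matrix.mul_assoc, ← Matrix.mul_assoc, trace_mul_comm]
    simp only [Matrix.mul_assoc]
  have e4 : trace (H⁻¹ * (P * (H⁻¹ * S))) = trace (H⁻¹ * (S * (H⁻¹ * P))) := by
    rw [← Matrix.mul_assoc, trace_mul_comm]
    simp only [Matrix.mul_assoc]
  have e5 : trace (H⁻¹ * (S * (H0⁻¹ * S))) = trace (S * (H0⁻¹ * (S * H⁻¹))) := by
    rw [trace_mul_comm]
    simp only [Matrix.mul_assoc]
  have e6 : tp H (rd1 l H0 H P - (l : ℂ) • (H * (H0⁻¹ * P0 * H0⁻¹) * H + P0) + T1) P =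
      tp H (rd1 l H0 H P) P - l * (trace (H0⁻¹ * (P0 * (H0⁻¹ * P)))).re +
        (trace (H⁻¹ * (S * (H⁻¹ * P)))).re := by
    simp only [tp, hS, Matrix.mul_add, Matrix.add_mul, Matrix.mul_sub, Matrix.sub_mul,
      Matrix.mul_smul, Matrix.smul_mul, smul_add, Matrix.mul_assoc, c3 hH, c4 hH, trace_add,
      trace_sub, trace_smul, smul_eq_mul, add_re, sub_re, re_ofReal_mul]
    ring
  simp only [trm, Matrix.mul_add, Matrix.add_mul, Matrix.mul_sub, Matrix.sub_mul,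
    Matrix.mul_assoc, c3 h0, c4 h0, c3 hH, c4 hH, trace_add, trace_sub, add_re, sub_re, e1, e2, e3,
    e4, e5] at h2 h3 h4 h5 p1 p2
  rw [e6, trm, trm]
  have k1 := mul_nonneg (by linarith : 0 ≤ l) h2
  have k2 := mul_le_mul_of_nonneg_left h4 (by linarith : 0 ≤ l)
  have k3 : 0 ≤ l * a ^ 2 * (trace (H * H0⁻¹)).re := by positivity
  have k4 : 0 ≤ l * a ^ 2 * (trace (H0 * H⁻¹)).re := by positivity
  have k5 : 0 ≤ ((1 + l) * a) ^ 2 * (trace (H * H0⁻¹)).re := by positivity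
  have k6 : 0 ≤ ((1 + l) * a) ^ 2 * (trace (H0 * H⁻¹)).re := by positivity
  linarith

end Pool.Agent.Lib.MP_813db1_ag.VH.Co
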