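import Pool.Agent.Lib.MP_813db1_ag.VH.CoStmt

/-! The Bochner inequality in a chart. -/

namespace Pool.Agent.Lib.MP_813db1_ag.VH.Co

open Pool.Agent.Lib.MP_813db1_ag.HS Pool.Agent.Lib.MP_813db1_ag.AS
open Complex Matrix Filter Topology Finset
open scoped ContDiff ComplexOrder

set_option linter.unusedSectionVars false

noncomputable section

namespace BoLa

section Alg

variable {r κ : Type} [Fintype r] [DecidableEq r] {H P X : Mat r}

theorem tp_add (H X Y P : Mat r) : tp H (X + Y) P = tp H X P + tp H Y P := by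
  simp only [tp, Matrix.mul_add, Matrix.add_mul, trace_add, add_re]

theorem tp_sum (H P : Mat r) (s : Finset κ) (X : κ → Mat r) :
    tp H (∑ q ∈ s, X q) P = ∑ q ∈ s, tp H (X q) P := by
  simp only [tp, Finset.mul_sum, Finset.sum_mul, trace_sum, re_sum]

theorem tp_comm (H X P : Mat r) : tp H X P = tp H P X := by
  rw [tp, tp, trace_mul_comm]

theorem tp_smul (hH : H.IsHermitian) (hX : X.IsHermitian) (hP : P.IsHermitian) (a : ℂ) :
    tp H (a • X) P = a.re * tp H X P := by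
  have h : star (trace (H⁻¹ * X * (H⁻¹ * P))) = trace (H⁻¹ * X * (H⁻¹ * P)) := by
    rw [← trace_conjTranspose]
    simp only [conjTranspose_mul, hH.inv.eq, hX.eq, hP.eq]
    rw [← Matrix.mul_assoc, trace_mul_comm, ← Matrix.mul_assoc, ← Matrix.mul_assoc,
      Matrix.mul_assoc _ _ X, trace_mul_comm]
  rw [tp, tp, Matrix.mul_smul, Matrix.smul_mul, trace_smul, smul_eq_mul, mul_re,
    conj_eq_iff_im.1 h, mul_zero, sub_zero]

theorem herm_sum [Fintype κ] {X : κ → Mat r} (hX : ∀ q, (X q).IsHermitian) (β : κ → ℝ) :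
    (∑ q, (β q : ℂ) • X q).IsHermitian := by
  simp only [IsHermitian, conjTranspose_sum, conjTranspose_smul, (hX _).eq, RCLike.star_def,
    conj_ofReal]

theorem quad (h : TpS) [Fintype κ] (hH : H.PosDef) {X : κ → Mat r} (hX : ∀ q, (X q).IsHermitian)
    {β : κ → ℝ} {M : ℝ} (hβ : ∀ q, |β q| ≤ M) :
    tp H (∑ q, (β q : ℂ) • X q) (∑ q, (β q : ℂ) • X q) ≤
      Fintype.card κ * M ^ 2 * ∑ q, tp H (X q) (X q) := by
  have k : ∀ Y : Mat r, Y.IsHermitian → tp H (∑ q, (β q : ℂ) • X q) Y = ∑ q, β q * tp H (X q) Y :=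
    fun Y hY => by simp only [tp_sum, tp_smul hH.1 (hX _) hY, ofReal_re]
  rw [k _ (herm_sum hX β)]
  simp only [tp_comm H (X _) (∑ q, (β q : ℂ) • X q), k _ (hX _), Finset.mul_sum]
  refine (sum_le_sum fun q _ => sum_le_sum fun q' _ =>
    (?_ : _ ≤ M ^ 2 / 2 * tp H (X q) (X q) + M ^ 2 / 2 * tp H (X q') (X q'))).trans_eq ?_
  · have a1 := h.nn r H _ hH (hX q)
    have a2 := h.nn r H _ hH (hX q')
    have a3 : |tp H (X q') (X q)| ≤ (tp H (X q) (X q) + tp H (X q') (X q')) / 2 :=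
      abs_le_of_sq_le_sq (by
        nlinarith [h.cs r H _ _ hH (hX q') (hX q), sq_nonneg (tp H (X q) (X q) - tp H (X q') (X q'))])
        (by positivity)
    have a4 := (abs_nonneg _).trans (hβ q)
    refine (le_abs_self _).trans ?_
    rw [abs_mul, abs_mul]
    refine (mul_le_mul (hβ q) (mul_le_mul (hβ q') a3 (abs_nonneg _) a4) (by positivity) a4).trans_eq ?_
    ring
  · simp only [sum_add_distrib, sum_const, card_univ, nsmul_eq_mul, ← Finset.mul_sum]
    ring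

end Alg

variable {ι r : Type} [Fintype ι] [DecidableEq ι] [Fintype r] [DecidableEq r]
  {F H : V ι → Mat r} {z : V ι}

/-- the flat frame. -/
abbrev fv (q : ι × Fin 2) : V ι := Pi.single q.1 (I ^ (q.2 : ℕ))

theorem norm_fv (q : ι × Fin 2) : ‖fv q‖ = 1 := by simp [fv, Pi.norm_single]

theorem flat (u : V ι) : ∃ β : ι × Fin 2 → ℝ, (∀ q, |β q| ≤ ‖u‖) ∧ u = ∑ q, β q • fv q := by
  refine ⟨fun q => if q.2 = 0 then (u q.1).re else (u q.1).im, fun q => ?_, ?_⟩
  · dsimp only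
    split_ifs
    exacts [(abs_re_le_norm _).trans (norm_le_pi_norm u _),
      (abs_im_le_norm _).trans (norm_le_pi_norm u _)]
  · funext k
    simp [Fintype.sum_prod_type, fv, Pi.single_apply, sum_add_distrib]

/-- the coefficients of a Hermitian form in the flat frame. -/
def co (A : Mat ι) (q q' : ι × Fin 2) : ℂ := A q'.1 q.1 * ((-I) ^ (q.2 : ℕ) / 2 * (I ^ (q'.2 : ℕ) / 2))

/-- the covariant Hessian. -/
def psi (H : V ι → Mat r) (u u' w : V ι) : Mat r := dv (dv H u') u w -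
  (1 / 2 : ℂ) • (dv H u w * (H w)⁻¹ * dv H u' w + dv H u' w * (H w)⁻¹ * dv H u w)

theorem sum_co (A : Mat ι) (B : ι × Fin 2 → ι × Fin 2 → Mat r) :
    ∑ q, ∑ q', co A q q' • B q q' = ∑ i, ∑ j, A j i • ∑ s : Fin 2, ((-I) ^ (s : ℕ) / 2) •
      ∑ t : Fin 2, (I ^ (t : ℕ) / 2) • B (i, s) (j, t) := by
  simp only [Fintype.sum_prod_type, co, smul_sum, smul_smul]
  exact sum_congr rfl fun i _ => sum_comm

theorem dv_sum {κ : Type} (s : Finset κ) {a : κ → V ι → ℂ} {B : κ → V ι → Mat r}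
    (ha : ∀ q, DifferentiableAt ℝ (a q) z) (hB : ∀ q, CM 1 (B q) z) (v : V ι) :
    dv (fun w => ∑ q ∈ s, a q w • B q w) v z =
      ∑ q ∈ s, (fderiv ℝ (a q) z v • B q z + a q z • dv (B q) v z) := by
  ext i j
  have h := fun q => (hB q i j).differentiableAt one_ne_zero
  simp only [dv, of_apply, Matrix.sum_apply, Matrix.smul_apply, smul_eq_mul, Matrix.add_apply]
  rw [fderiv_fun_sum fun q _ => (ha q).fun_mul (h q), _root_.sum_apply]
  refine sum_congr rfl fun q _ => ?_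
  rw [fderiv_fun_mul (ha q) (h q)]
  simp only [_root_.add_apply, _root_.smul_apply, smul_eq_mul]
  ring

variable (h : DvS)
include h

theorem dR_fv (F : V ι → Mat r) (i : ι) (w : V ι) :
    dR F i w = ∑ s : Fin 2, ((-I) ^ (s : ℕ) / 2) • dv F (fv (i, s)) w ∧
      dRb F i w = ∑ s : Fin 2, (I ^ (s : ℕ) / 2) • dv F (fv (i, s)) w := by
  rw [(h.dR ι r F i w).1, (h.dR ι r F i w).2]
  simp only [Fin.sum_univ_two, fv, Fin.val_zero, Fin.val_one, pow_zero, pow_one]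
  constructor <;> module

theorem lM_eq (G : V ι → Mat ι) (hF : CM 2 F z) :
    lM G F z = ∑ q, ∑ q', co (G z)⁻¹ q q' • dv (dv F (fv q')) (fv q) z := by
  have e : ∀ j u, dv (dRb F j) u z = ∑ t : Fin 2, (I ^ (t : ℕ) / 2) • dv (dv F (fv (j, t))) u z :=
    fun j u => by
    rw [funext fun w => (dR_fv h F j w).2, dv_sum _ (fun _ => differentiableAt_const _)
      fun _ => h.cd ι r 1 2 F _ z (by norm_num) hF]
    simp
  rw [sum_co]
  simp only [← e, ← (dR_fv h _ _ z).1]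
  ext a b
  simp only [lM, lapL, trace, Matrix.diag, mul_apply, of_apply, Matrix.sum_apply, Matrix.smul_apply,
    smul_eq_mul]
  exact sum_congr rfl fun i _ => sum_congr rfl fun j _ => mul_comm _ _

theorem qM_eq (G : V ι → Mat ι) (F K : V ι → Mat r) (N : Mat r) (z : V ι) :
    qM G F N K z = ∑ q, ∑ q', co (G z)⁻¹ q q' • (1 / 2 : ℂ) •
      (dv F (fv q) z * N * dv K (fv q') z + dv F (fv q') z * N * dv K (fv q) z) := by
  rw [sum_co, qM]
  simp only [(dR_fv h _ _ z).1, (dR_fv h _ _ z).2, smul_sum]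
  refine sum_congr rfl fun i _ => sum_congr rfl fun j _ => ?_
  simp only [Fin.sum_univ_two, Matrix.add_mul, Matrix.mul_add, Matrix.smul_mul, Matrix.mul_smul]
  module

theorem ten_eq (G : V ι → Mat ι) (hH : CM 2 H z) :
    ten G H z = ∑ q : (ι × Fin 2) × ι × Fin 2, co (G z)⁻¹ q.1 q.2 • psi H (fv q.1) (fv q.2) z := by
  rw [ten, lM_eq h G hH, qM_eq h, Fintype.sum_prod_type (α₁ := ι × Fin 2)]
  simp only [psi, smul_sub, sum_sub_distrib]

theorem herm (hF : ∀ᶠ w in 𝓝 z, (F w).IsHermitian) (v : V ι) :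
    ∀ᶠ w in 𝓝 z, (dv F v w).IsHermitian :=
  (h.congr ι r (fun w => (F w)ᴴ) F v z hF).mono fun w e => ((h.ct ι r F v w).1.symm.trans e :)

theorem psi_herm (hH : ∀ᶠ w in 𝓝 z, (H w).IsHermitian) (u u' : V ι) :
    (psi H u u' z).IsHermitian := by
  have a1 := (herm h hH u).self_of_nhds.eq
  have a2 := (herm h hH u').self_of_nhds.eq
  have a3 := (herm h (herm h hH u') u).self_of_nhds.eq
  have a4 := hH.self_of_nhds.inv.eq
  simp only [IsHermitian, psi, conjTranspose_sub, conjTranspose_smul, conjTranspose_add,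
    conjTranspose_mul, a1, a2, a3, a4, Matrix.mul_assoc]
  rw [add_comm]
  simp

theorem psi_dir {κ : Type} [Fintype κ] (β : κ → ℝ) (e : κ → V ι) (u : V ι) :
    psi H (∑ b, β b • e b) u z = ∑ b, (β b : ℂ) • psi H (e b) u z := by
  simp only [psi, h.dir, Finset.sum_mul, Finset.mul_sum, ← sum_add_distrib, smul_sum,
    ← sum_sub_distrib, Matrix.smul_mul, Matrix.mul_smul]
  exact sum_congr rfl fun b _ => by module

theorem psi_dv (hH : CM ∞ H z) (h0 : (H z).det ≠ 0) (u u' v : V ι) : CM 1 (psi H u u') z ∧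
    dv (psi H u u') v z = dv (dv (dv H v) u') u z +
      ((1 / 2 : ℂ) • (dv H u z * ((H z)⁻¹ * dv H v z * (H z)⁻¹) * dv H u' z +
        dv H u' z * ((H z)⁻¹ * dv H v z * (H z)⁻¹) * dv H u z) -
      (1 / 2 : ℂ) • (dv (dv H v) u z * (H z)⁻¹ * dv H u' z + dv (dv H v) u' z * (H z)⁻¹ * dv H u z) -
      (1 / 2 : ℂ) • (dv H u z * (H z)⁻¹ * dv (dv H v) u' z +
        dv H u' z * (H z)⁻¹ * dv (dv H v) u z)) := by
  have c1 : CM 1 H z := fun i j => (hH i j).of_le (by norm_cast)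
  have c2 : CM 2 H z := fun i j => (hH i j).of_le (by norm_cast)
  have c3 : ∀ x, CM 1 (dv H x) z := fun x => h.cd ι r 1 2 H x z (by norm_num) c2
  have c4 : ∀ x, CM 2 (dv H x) z := fun x => h.cd ι r 2 ∞ H x z (by norm_cast) hH
  have c5 : CM 1 (dv (dv H u') u) z := h.cd ι r 1 2 _ u z (by norm_num) (c4 u')
  have c6 : CM 1 (fun w => (H w)⁻¹) z := (h.cm ι r 1 H H z c1 c1).2.2.2.2.1 h0
  have c7 : ∀ x, CM 1 (fun w => dv H x w * (H w)⁻¹) z := fun x =>
    (h.cm ι r 1 _ _ z (c3 x) c6).2.2.1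
  have c8 : ∀ x y, CM 1 (fun w => dv H x w * (H w)⁻¹ * dv H y w) z := fun x y =>
    (h.cm ι r 1 _ _ z (c7 x) (c3 y)).2.2.1
  have c9 := (h.cm ι r 1 _ _ z (c8 u u') (c8 u' u)).1
  have c10 := (h.cm ι r 1 _ _ z c9 c9).2.2.2.1 (1 / 2)
  refine ⟨(h.cm ι r 1 _ _ z c5 c10).2.1, ((h.add ι r _ _ v z c5 c10).2).trans ?_⟩
  rw [h.smul ι r _ _ v z c9, (h.add ι r _ _ v z (c8 u u') (c8 u' u)).1,
    h.mul ι r _ _ v z (c7 u) (c3 u'), h.mul ι r _ _ v z (c7 u') (c3 u),
    h.mul ι r _ _ v z (c3 u) c6, h.mul ι r _ _ v z (c3 u') c6, h.inv ι r H v z c1 h0,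
    h.comm ι r _ u v z (c4 u'), h.comm ι r H u v z c2, h.comm ι r H u' v z c2,
    (h.congr ι r _ _ u z ((h.ev ι r 2 H z c2).mono fun w c => h.comm ι r H u' v w c)).eq_of_nhds]
  simp only [Matrix.add_mul, Matrix.mul_neg, Matrix.neg_mul]
  module

theorem dv_ten {G : V ι → Mat ι} (hG : CM ∞ G z) (g0 : (G z).det ≠ 0) (hH : CM ∞ H z)
    (h0 : (H z).det ≠ 0) (v : V ι) :
    dv (ten G H) v z = lM G (dv H v) z + low G H (dv H v) z +
      ∑ q : (ι × Fin 2) × ι × Fin 2,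
        co (-((G z)⁻¹ * dv G v z * (G z)⁻¹)) q.1 q.2 • psi H (fv q.1) (fv q.2) z := by
  have c1 : CM 1 G z := fun i j => (hG i j).of_le (by norm_cast)
  have c2 : CM 2 H z := fun i j => (hH i j).of_le (by norm_cast)
  have c3 := fun i j => ((h.cm ι ι 1 G G z c1 c1).2.2.2.2.1 g0 i j).differentiableAt one_ne_zero
  have c4 := dv_sum univ (a := fun (q : (ι × Fin 2) × ι × Fin 2) w => co (G w)⁻¹ q.1 q.2)
    (fun q => (c3 _ _).mul_const _) (fun q => (psi_dv h hH h0 (fv q.1) (fv q.2) v).1) v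
  refine (h.congr ι r _ _ v z ((h.ev ι r 2 H z c2).mono fun w c => ten_eq h G c)).eq_of_nhds.trans
    (c4.trans (sum_add_distrib.trans ((add_comm _ _).trans (congrArg₂ (· + ·) ?_ ?_))))
  · rw [lM_eq h G (h.cd ι r 2 ∞ H v z (by norm_cast) hH), low, qM_eq h, qM_eq h, qM_eq h,
      Fintype.sum_prod_type (α₁ := ι × Fin 2)]
    simp only [(psi_dv h hH h0 _ _ v).2, smul_add (co _ _ _), smul_sub (co _ _ _), sum_add_distrib,
      sum_sub_distrib]
  · refine sum_congr rfl fun q _ => congrArg (· • _) ?_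
    simp only [co]
    rw [fderiv_mul_const (c3 _ _), ← h.inv ι ι G v z c1 g0, _root_.smul_apply, smul_eq_mul]
    exact mul_comm _ _

omit h in
theorem co_le {A B : Mat ι} {L : ℝ} (hA : Bd L A) (hB : Bd L B) (q q' : ι × Fin 2) :
    |(co (-(A * B * A)) q q').re| ≤ Fintype.card ι ^ 2 * L ^ 3 := by
  have h0 := (norm_nonneg _).trans (hA q.1 q.1)
  have h1 : ‖(A * B * A) q'.1 q.1‖ ≤ Fintype.card ι ^ 2 * L ^ 3 := by
    simp only [mul_apply, Finset.sum_mul]
    refine (norm_sum_le_of_le _ fun k _ => norm_sum_le_of_le (n := fun _ => L * L * L) _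
      fun l _ => ?_).trans_eq ?_
    · rw [norm_mul, norm_mul]
      exact mul_le_mul (mul_le_mul (hA _ _) (hB _ _) (norm_nonneg _) h0) (hA _ _) (norm_nonneg _)
        (by positivity)
    · simp only [sum_const, card_univ, nsmul_eq_mul]
      ring
  refine (abs_re_le_norm _).trans ?_
  rw [co, norm_mul, neg_apply, norm_neg]
  refine (mul_le_of_le_one_right (norm_nonneg _) ?_).trans h1
  simp
  norm_num

end BoLa

open BoLa

theorem boL (h : Al) (hp : PwB) : BoL := by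
  intro ι r _ _ _ _ L
  obtain ⟨C, C0, hC⟩ := h.fr ι L
  obtain ⟨N, hN⟩ : ∃ N : ℝ, N = Fintype.card (ι × Fin 2) := ⟨_, rfl⟩
  obtain ⟨K, hK⟩ : ∃ K : ℝ, K = Fintype.card ((ι × Fin 2) × ι × Fin 2) *
    (Fintype.card ι ^ 2 * L ^ 3) ^ 2 * (N * (N * C ^ 2)) := ⟨_, rfl⟩
  have N0 : 0 ≤ N := by rw [hN]; positivity
  have K0 : 0 ≤ K := by rw [hK]; positivity
  have b1 : 0 ≤ N * (N * C ^ 2) := by positivity
  have b2 : 0 ≤ (N + 1) * K := by positivity
  refine ⟨1 + N * (N * C ^ 2) + (N + 1) * K, by linarith, ?_⟩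
  intro G H z g0 g1 g2 g3 _ g4 c0 hh p0
  obtain ⟨e, he⟩ := hC _ g0 g1 g2
  have d0 := p0.det_pos.ne'
  have c2 : CM 2 H z := fun i j => (c0 i j).of_le (by norm_cast)
  have c4 : ∀ x, CM 2 (dv H x) z := fun x => h.dv.cd ι r 2 ∞ H x z (by norm_cast) c0
  have hv := fun x => herm h.dv hh x
  have sm : ∀ x, ContDiffAt ℝ 2 (fun w => tp (H w) (dv H x w) (dv H x w)) z := fun x => by
    have a1 := (h.dv.cm ι r 2 _ _ z ((h.dv.cm ι r 2 H H z c2 c2).2.2.2.2.1 d0) (c4 x)).2.2.1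
    have a2 := (h.dv.cm ι r 2 _ _ z a1 a1).2.2.1
    exact reCLM.contDiff.contDiffAt.comp z (h.dv.cm ι r 2 _ _ z a2 a2).2.2.2.2.2
  have en_eq : en G H z = ∑ b, tp (H z) (dv H (e b) z) (dv H (e b) z) := by
    simp only [en, (h.dv.fr ι r G z C e he).2.2, tp, Finset.mul_sum, trace_sum, re_sum,
      Matrix.mul_assoc]
  have nn := fun x => h.tp.nn r _ _ p0 (hv x).self_of_nhds
  have e0 : 0 ≤ en G H z := en_eq ▸ sum_nonneg fun _ _ => nn _
  have f0 : 0 ≤ fl H z := sum_nonneg fun _ _ => nn _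
  have sp : ∀ q : ι × Fin 2, ∃ β : ι × Fin 2 → ℝ, (∀ b, |β b| ≤ C) ∧ fv q = ∑ b, β b • e b :=
    fun q => by simpa only [norm_fv, mul_one] using he.span (fv q)
  have cs : ∀ x : ℝ, ∑ _ : ι × Fin 2, x = N * x := fun x => by
    rw [sum_const, card_univ, nsmul_eq_mul, hN]
  refine ⟨ContDiffAt.sum fun q _ => sm _, e0, ?_, ?_, ?_⟩
  · have : en G H z ≤ N * (N * C ^ 2 * fl H z) := by
      rw [en_eq, ← cs]
      refine sum_le_sum fun b _ => ?_
      obtain ⟨β, a1, a2⟩ := flat (e b)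
      rw [a2, h.dv.dir, hN]
      exact quad h.tp p0 (fun _ => (hv _).self_of_nhds) fun q => (a1 q).trans (he.bd b)
    nlinarith [mul_nonneg b2 f0]
  · have : fl H z ≤ N * (N * C ^ 2 * en G H z) := by
      rw [en_eq, ← cs]
      refine sum_le_sum fun q _ => ?_
      obtain ⟨β, a1, a2⟩ := sp q
      change tp _ (dv H (fv q) z) (dv H (fv q) z) ≤ _
      rw [a2, h.dv.dir, hN]
      exact quad h.tp p0 (fun _ => (hv _).self_of_nhds) a1
    nlinarith [mul_nonneg b2 e0]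
  obtain ⟨S, hS⟩ : ∃ S, S = ∑ q : ι × Fin 2, ∑ b, tp (H z) (psi H (e b) (fv q) z)
    (psi H (e b) (fv q) z) := ⟨_, rfl⟩
  have ph := psi_herm h.dv hh
  have S0 : 0 ≤ S := hS ▸ sum_nonneg fun _ _ => sum_nonneg fun _ _ => h.tp.nn r _ _ p0 (ph _ _)
  have k1 : ∑ q : (ι × Fin 2) × ι × Fin 2, tp (H z) (psi H (fv q.1) (fv q.2) z)
      (psi H (fv q.1) (fv q.2) z) ≤ N * (N * C ^ 2 * S) := by
    rw [Fintype.sum_prod_type, ← cs, hS, Finset.mul_sum]
    refine sum_le_sum fun q _ => sum_le_sum fun q' _ => ?_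
    obtain ⟨β, a1, a2⟩ := sp q
    rw [a2, psi_dir h.dv, hN]
    exact quad h.tp p0 (fun _ => ph _ _) a1
  have k2 : ∀ q : ι × Fin 2, tp (H z) (dv (ten G H) (fv q) z) (dv H (fv q) z) ≤
      tp (H z) (lM G (dv H (fv q)) z + low G H (dv H (fv q)) z) (dv H (fv q) z) +
        (S / (N + 1) + (N + 1) * K * tp (H z) (dv H (fv q) z) (dv H (fv q) z)) := fun q => by
    have a0 := (hv (fv q)).self_of_nhds
    have a1 := fun x : (ι × Fin 2) × ι × Fin 2 => co_le (B := dv G (fv q) z) g2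
      (fun i j => (ContinuousLinearMap.le_opNorm _ _).trans (by rw [norm_fv, mul_one]; exact g4 i j))
        x.1 x.2
    have a2 := quad h.tp p0 (fun x : (ι × Fin 2) × ι × Fin 2 => ph (fv x.1) (fv x.2)) a1
    have a3 := h.tp.cs r _ _ _ p0 (herm_sum (fun x : (ι × Fin 2) × ι × Fin 2 => ph (fv x.1) (fv x.2))
      fun x => (co (-((G z)⁻¹ * dv G (fv q) z * (G z)⁻¹)) x.1 x.2).re) a0
    have a4 := a3.trans (mul_le_mul_of_nonneg_right (a2.trans
      ((mul_le_mul_of_nonneg_left k1 (by positivity)).trans_eq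
        (show _ = K * S by rw [hK]; ring))) (nn _))
    rw [dv_ten h.dv g3 g0.det_pos.ne' c0 d0, tp_add]
    simp only [tp_sum, tp_smul p0.1 (ph _ _) a0, ofReal_re] at a4 ⊢
    refine add_le_add_right (le_of_sq_le_sq ?_ (by have := nn (fv q); positivity)) _
    have a5 : K * S * tp (H z) (dv H (fv q) z) (dv H (fv q) z) =
        S / (N + 1) * ((N + 1) * K * tp (H z) (dv H (fv q) z) (dv H (fv q) z)) := by
      field_simp
    have a6 : 0 ≤ S / (N + 1) * ((N + 1) * K * tp (H z) (dv H (fv q) z) (dv H (fv q) z)) := by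
      have := nn (fv q)
      positivity
    rw [a5] at a4
    nlinarith [sq_nonneg (S / (N + 1)),
      sq_nonneg ((N + 1) * K * tp (H z) (dv H (fv q) z) (dv H (fv q) z))]
  have k3 := sum_le_sum (s := univ) fun (q : ι × Fin 2) _ =>
    hp ι r G H (dv H (fv q)) z C e he c2 (c4 _) (hh.and (hv _)) p0
  have k4 := sum_le_sum (s := univ) fun (q : ι × Fin 2) _ => k2 q
  have k5 : lapL G (fun w => (fl H w : ℂ)) z =
      ∑ q : ι × Fin 2, lapL G (fun w => (tp (H w) (dv H (fv q) w) (dv H (fv q) w) : ℂ)) z := by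
    simp only [lapL, fl, ofReal_sum]
    rw [levi_sum _ fun q _ => contDiffAt_ofReal.2 (sm _), Finset.sum_mul, trace_sum]
  have k6 : N * (S / (N + 1)) ≤ S := by
    rw [← mul_div_assoc, div_le_iff₀ (by positivity)]
    linarith
  simp only [sum_add_distrib, sum_sub_distrib, cs, ← Finset.mul_sum, ← sum_div] at k3 k4 ⊢
  rw [k5, re_sum]
  rw [show ∑ q : ι × Fin 2, tp (H z) (dv H (fv q) z) (dv H (fv q) z) = fl H z from rfl] at k4
  have k7 : S = _ := hS
  simp only [psi] at k7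
  nlinarith [mul_nonneg b1 f0]

end

end Pool.Agent.Lib.MP_813db1_ag.VH.Co
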