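import Pool.Agent.Lib.MP_813db1_ag.VH.CoStmt

/-! Reference metrics, the uniform estimate and the scale of solutions. -/

namespace Pool.Agent.Lib.MP_813db1_ag.VH.Co

open Pool.Agent.Lib.MP_813db1_ag.HS Pool.Agent.Lib.MP_813db1_ag.AS
open MeasureTheory Complex Matrix Filter Topology Set Metric
open scoped ContDiff ComplexOrder

namespace CoC0

section Alg

variable {r : Type} [Fintype r] [DecidableEq r] {A B H K P Q : Mat r}

theorem conj (h : A * B = 1) (H K : Mat r) :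
    (Aᵀ * H * A)⁻¹ * (Aᵀ * K * A) = B * (H⁻¹ * K) * A := by
  have h1 : (Aᵀ)⁻¹ * Aᵀ = 1 := by
    rw [inv_eq_left_inv (B := Bᵀ) (by rw [← transpose_mul, h, transpose_one]), ← transpose_mul, h,
      transpose_one]
  rw [Matrix.mul_inv_rev, Matrix.mul_inv_rev, inv_eq_right_inv h]
  calc B * (H⁻¹ * (Aᵀ)⁻¹) * (Aᵀ * K * A) = B * (H⁻¹ * ((Aᵀ)⁻¹ * Aᵀ) * K) * A := by
        simp only [Matrix.mul_assoc]
    _ = _ := by rw [h1, Matrix.mul_one]

theorem tr_conj (h : A * B = 1) (N : Mat r) : trace (B * N * A) = trace N := by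
  rw [trace_mul_cycle, h, Matrix.one_mul]

theorem trm_eq (H K : Mat r) : trm H K = (trace (H⁻¹ * K)).re := by rw [trm, trace_mul_comm]

theorem trm_conj (h : A * B = 1) (H K : Mat r) : trm (Aᵀ * H * A) (Aᵀ * K * A) = trm H K := by
  rw [trm_eq, trm_eq, conj h, tr_conj h]

theorem tp_conj (h : A * B = 1) (H P Q : Mat r) :
    tp (Aᵀ * H * A) (Aᵀ * P * A) (Aᵀ * Q * A) = tp H P Q := by
  rw [tp, tp, conj h, conj h, ← tr_conj h (H⁻¹ * P * (H⁻¹ * Q))]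
  congr 2
  calc B * (H⁻¹ * P) * A * (B * (H⁻¹ * Q) * A) = B * (H⁻¹ * P * (A * B) * (H⁻¹ * Q)) * A := by
        simp only [Matrix.mul_assoc]
    _ = _ := by rw [h, Matrix.mul_one]

omit [Fintype r] [DecidableEq r] in
theorem herm (h : RS P) : P.IsHermitian := by
  rw [IsHermitian, conjTranspose, h.1, h.2]

theorem tr_rh (hH : H.PosDef) (l t : ℝ) (H0 T0 : Mat r) :
    (trace (H⁻¹ * ((t : ℂ) • rh l H0 T0 H))).re =
      t * (l * trm H0 H - l * trm H H0 + (trace (T0 * H⁻¹)).re) := by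
  have e : H⁻¹ * H = 1 := nonsing_inv_mul _ (isUnit_iff_ne_zero.2 hH.det_pos.ne')
  rw [rh, Matrix.mul_smul, trace_smul, Matrix.mul_add, Matrix.mul_smul, trace_add, trace_smul,
    Matrix.mul_sub, trace_sub, ← Matrix.mul_assoc, ← Matrix.mul_assoc, e, Matrix.one_mul,
    trm_eq, trm_eq, trace_mul_comm T0]
  simp only [smul_eq_mul, re_ofReal_mul, add_re, sub_re]
  ring

variable {G : Type} [Group G] (ρ : G →* Mat r)

theorem inv_mul (γ : G) : ρ γ⁻¹ * ρ γ = 1 := by rw [← map_mul, inv_mul_cancel, map_one]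

theorem gram (h : RealR ρ) (γ : G) : RS ((ρ γ⁻¹)ᵀ * ρ γ⁻¹) ∧ ((ρ γ⁻¹)ᵀ * ρ γ⁻¹).PosDef := by
  have e : (ρ γ⁻¹)ᴴ = (ρ γ⁻¹)ᵀ := by rw [conjTranspose, transpose_map, h]
  have p : ((ρ γ⁻¹)ᵀ * ρ γ⁻¹).PosDef := e ▸ PosDef.conjTranspose_mul_self _
    (mulVec_injective_iff_isUnit.2 (IsUnit.of_mul_eq_one _ (inv_mul ρ γ)))
  have t : ((ρ γ⁻¹)ᵀ * ρ γ⁻¹)ᵀ = (ρ γ⁻¹)ᵀ * ρ γ⁻¹ := by rw [transpose_mul, transpose_transpose]
  refine ⟨⟨t, ?_⟩, p⟩
  have := p.1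
  rwa [IsHermitian, conjTranspose, t] at this

end Alg

variable {ι X Y G : Type} [Fintype ι] [DecidableEq ι] [TopologicalSpace X] [TopologicalSpace Y]
  [Group G] [MulAction G Y] {c : Sx ι X Y G} {r : Type} [Fintype r] [DecidableEq r]
  {k : WithTop ℕ∞} {F K : Y → Mat r} {f g : Y → ℂ} {ρ : G →* Mat r}

theorem ck_re (h : c.Ck k f) : c.Ck k fun y => ((f y).re : ℂ) := fun e he z hz σ hσ =>
  (ofRealCLM.contDiff.comp reCLM.contDiff).contDiffAt.comp z (h e he z hz σ hσ)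

theorem ck_le {n : WithTop ℕ∞} (h : c.Ck n f) (e : k ≤ n) : c.Ck k f := fun e' he z hz σ hσ =>
  (h e' he z hz σ hσ).of_le e

omit [Fintype r] [DecidableEq r] in
theorem ckm_two (h : c.CkM ∞ F) : c.CkM 2 F := fun i j => ck_le (h i j) (by norm_cast)

theorem ckm_mul (h : Al) (hF : c.CkM k F) (hK : c.CkM k K) : c.CkM k fun y => F y * K y :=
  fun i j e he z hz σ hσ => (h.dv.cm ι r k (fun w => F (σ w)) (fun w => K (σ w)) z
    (fun i j => hF i j e he z hz σ hσ) fun i j => hK i j e he z hz σ hσ).2.2.1 i j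

theorem ckm_inv (h : Al) (hF : c.CkM k F) (h0 : ∀ y, (F y).det ≠ 0) : c.CkM k fun y => (F y)⁻¹ :=
  fun i j e he z hz σ hσ => (h.dv.cm ι r k (fun w => F (σ w)) (fun w => F (σ w)) z
    (fun i j => hF i j e he z hz σ hσ) fun i j => hF i j e he z hz σ hσ).2.2.2.2.1 (h0 _) i j

omit [DecidableEq r] in
theorem ck_tr (hF : c.CkM k F) : c.Ck k fun y => trace (F y) := fun e he z hz σ hσ =>
  ContDiffAt.sum fun i _ => hF i i e he z hz σ hσ

theorem det_ne (h : c.Gd ρ F) (y : Y) : (F y).det ≠ 0 := (h.pd y).det_pos.ne'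

theorem ck_trm (h : Al) (hF : c.Gd ρ F) (hK : c.CkM ∞ K) :
    c.Ck 2 fun y => (trm (F y) (K y) : ℂ) :=
  ck_le (ck_re (ck_tr (ckm_mul h hK (ckm_inv h hF.sm (det_ne hF))))) (by norm_cast)

omit [TopologicalSpace Y] in
theorem trm_inv (hF : EqH ρ F) (hK : EqH ρ K) (γ : G) (y : Y) :
    trm (F (γ • y)) (K (γ • y)) = trm (F y) (K y) := by
  rw [hF, hK, trm_conj (inv_mul ρ γ)]

theorem rd_pt (hb : c.Bas) {α : Type} (F : Y → α) (y : Y) : c.rd F y (c.pt y) = F y :=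
  congrArg F (hb.self y).2.2

theorem ten_rd (hb : c.Bas) (F : Y → Mat r) (y : Y) :
    ten (c.Gp y) (c.rd F y) (c.pt y) = c.ten F y := by
  rw [ten, rd_pt hb]
  rfl

theorem pw (hb : c.Bas) (h1 : PwA) (hF : c.Gd ρ F) (hK : c.Gd ρ K) (y : Y) :
    (trace ((F y)⁻¹ * c.ten K y) - trace ((F y)⁻¹ * c.ten F y * (F y)⁻¹ * K y)).re ≤
      c.lapR (fun x => trm (F x) (K x)) y := by
  have := h1 ι r (c.Gp y) (c.rd F y) (c.rd K y) (c.pt y) (hb.gp y)
    (fun i j => hb.at_ 2 _ y (ckm_two hF.sm i j)) (fun i j => hb.at_ 2 _ y (ckm_two hK.sm i j))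
    (.of_forall fun _ => ⟨(hF.pd _).1, (hK.pd _).1⟩) (hF.pd _) (hK.pd _)
  rwa [ten_rd hb, ten_rd hb, rd_pt hb, rd_pt hb] at this

theorem lapR_add (hb : c.Bas) {u v : Y → ℝ} (hu : c.Ck 2 fun y => (u y : ℂ))
    (hv : c.Ck 2 fun y => (v y : ℂ)) (y : Y) :
    c.lapR (fun x => u x + v x) y = c.lapR u y + c.lapR v y := by
  have := levi_add (hb.at_ 2 _ y hu) (hb.at_ 2 _ y hv)
  simp only [Sx.lapR, Sx.lap, lapL, ofReal_add]
  rw [← add_re, ← trace_add, ← Matrix.add_mul, ← this]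
  rfl

end CoC0

open CoC0

variable {ι X Y G : Type} [Fintype ι] [DecidableEq ι] [TopologicalSpace X] [T2Space X]
  [CompactSpace X] [MeasurableSpace X] [BorelSpace X] [TopologicalSpace Y] [ConnectedSpace Y]
  [Group G] [MulAction G Y] {c : Sx ι X Y G} {μ : Measure X}

omit [T2Space X] [CompactSpace X] [MeasurableSpace X] [BorelSpace X] in
theorem refS (h : Al) (hb : c.Bs) (h1 : c.AvS) : c.RefS := by
  intro r _ _ ρ hρ
  obtain ⟨n, χ, δ, h0, hs, hi, hc⟩ := h1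
  have gd : c.Gd ρ fun y => ∑ a, (χ a y : ℂ) • ((ρ (δ a y)⁻¹)ᵀ * ρ (δ a y)⁻¹) := by
    refine ⟨fun i j e he z hz σ hσ => ?_, fun γ y => ?_, fun y => ⟨?_, ?_⟩, fun y => ?_⟩
    · simp only [Matrix.sum_apply, Matrix.smul_apply, smul_eq_mul]
      exact ContDiffAt.sum fun a _ => hc a (fun g => ((ρ g⁻¹)ᵀ * ρ g⁻¹) i j) e he z hz σ hσ
    · rw [Matrix.mul_sum, Matrix.sum_mul]
      refine Finset.sum_congr rfl fun a _ => ?_
      rw [(hi a γ y).1]
      by_cases e : χ a y = 0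
      · simp only [e, ofReal_zero, zero_smul, Matrix.mul_zero, Matrix.zero_mul]
      · rw [(hi a γ y).2 e, _root_.mul_inv_rev, map_mul, transpose_mul, Matrix.mul_smul,
          Matrix.smul_mul]
        simp only [Matrix.mul_assoc]
    · rw [transpose_sum]
      exact Finset.sum_congr rfl fun a _ => by rw [transpose_smul, (gram ρ hρ _).1.1]
    · ext i j
      simp only [map_apply, Matrix.sum_apply, Matrix.smul_apply, smul_eq_mul, star_sum, star_mul']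
      refine Finset.sum_congr rfl fun a _ => ?_
      rw [show star (χ a y : ℂ) = χ a y from conj_ofReal _]
      exact congrArg _ (congrFun (congrFun (gram ρ hρ (δ a y)).1.2 i) j)
    · obtain ⟨a, -, ha⟩ := Finset.exists_ne_zero_of_sum_ne_zero ((hs y).trans_ne one_ne_zero)
      rw [← Finset.add_sum_erase _ _ (Finset.mem_univ a)]
      exact ((gram ρ hρ _).2.smul (zero_lt_real.2 ((h0 a y).lt_of_ne' ha))).add_posSemidef
        (posSemidef_sum _ fun b _ => (gram ρ hρ _).2.posSemidef.smul (zero_le_real.2 (h0 b y)))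
  generalize (fun y => ∑ a, (χ a y : ℂ) • ((ρ (δ a y)⁻¹)ᵀ * ρ (δ a y)⁻¹)) = H0 at gd
  have hT := (hb.m.sm r H0 gd.sm (det_ne gd)).1
  have hq := (hb.m.eqv r ρ H0 H0 gd.eqv (ckm_two gd.sm) (det_ne gd)).1
  have hm := ckm_mul h (ckm_inv h gd.sm (det_ne gd)) hT
  obtain ⟨y0, hy, -⟩ := hb.a.max (fun y => tp (H0 y) (c.ten H0 y) (c.ten H0 y))
    (fun γ y => by rw [gd.eqv, hq, tp_conj (inv_mul ρ γ)])
    (ck_le (ck_re (ck_tr (ckm_mul h hm hm))) (by norm_cast)) inferInstance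
  generalize tp (H0 y0) (c.ten H0 y0) (c.ten H0 y0) = m at hy
  refine ⟨H0, |m| + 1 + 1, hρ, gd, by linarith [abs_nonneg m], fun y => ?_⟩
  rw [add_sub_cancel_right]
  exact h.tp.dom r _ _ _ (gd.pd y) (herm ((hb.m.rs r H0 H0 (ckm_two gd.sm) gd.rs).1 y))
    (by positivity) ((hy y).trans (by nlinarith [abs_nonneg m, le_abs_self m]))

omit [T2Space X] [CompactSpace X] [MeasurableSpace X] [BorelSpace X] in
theorem c0S (h : Al) (hb : c.Bs) (h1 : PwA) (h2 : C0A) : c.C0S := by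
  intro r _ _ ρ H0 l hr
  obtain ⟨C, hC⟩ := h2 r l hr.one
  refine ⟨C, fun t ht H hH y => ?_⟩
  have a := ck_trm h hr.gd hH.1.sm
  have b := ck_trm h hH.1 hr.gd.sm
  obtain ⟨y0, hy, hl⟩ := hb.a.max (fun y => trm (H0 y) (H y) + trm (H y) (H0 y))
    (fun γ y => by rw [trm_inv hr.gd.eqv hH.1.eqv, trm_inv hH.1.eqv hr.gd.eqv])
    (fun e he z hz σ hσ => by
      simp only [ofReal_add]
      exact (a e he z hz σ hσ).add (b e he z hz σ hσ)) inferInstance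
  refine (mul_le_mul_of_nonneg_left (hy y) ht.1.le).trans (hC t _ (c.ten H0 y0) _ ht (hr.gd.pd y0)
    (hH.1.pd y0) (herm ((hb.m.rs r H0 H0 (ckm_two hr.gd.sm) hr.gd.rs).1 y0)) (hr.dom y0) ?_)
  rw [add_re, ← hH.2 y0]
  rw [lapR_add hb.a a b] at hl
  exact (add_le_add (pw hb.a h1 hr.gd hH.1 y0) (pw hb.a h1 hH.1 hr.gd y0)).trans hl

theorem scS (h : Al) (_hb : c.Bs) (hμ : c.M.IsVol c.g μ) (h1 : c.GrS μ) : c.ScS := by
  intro r _ _ ρ H0 l hr t ht H hH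
  have hv := (AY.volS' ι X c.M c.g c.hg).2 μ hμ
  have := hv.fin
  have := hv.pos
  have : Nonempty X := ⟨c.p (Classical.arbitrary Y)⟩
  have h0 : μ ≠ 0 := NeZero.ne μ
  obtain ⟨c1, c2⟩ := h1.ten r H (fun γ => (ρ γ⁻¹)ᵀ) (fun γ => ρ γ⁻¹) (ckm_two hH.1.sm)
    (det_ne hH.1) hH.1.eqv
  have i1 := c1.integrable_of_hasCompactSupport (μ := μ) (HasCompactSupport.of_compactSpace _)
  have i2 := reCLM.integrable_comp i1
  have i3 : ⨍ x, reCLM (trace ((H (c.lf x))⁻¹ * c.ten H (c.lf x))) ∂μ = 0 := by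
    rw [average_eq, reCLM.integral_comp_comm i1, c2, map_zero, smul_zero]
  have k : ∀ y, 0 ≤ trm (H0 y) (H y) ∧ 0 ≤ trm (H y) (H0 y) ∧
      |(trace (c.ten H0 y * (H y)⁻¹)).re| ≤ (l - 1) * trm (H y) (H0 y) := fun y =>
    ⟨mat.trm_nonneg r _ _ (hr.gd.pd y) (hH.1.pd y).posSemidef,
      mat.trm_nonneg r _ _ (hH.1.pd y) (hr.gd.pd y).posSemidef,
      h.tp.tr r _ _ _ _ (hr.dom y) (hH.1.pd y).inv.posSemidef⟩
  have hl := hr.one
  constructor
  · obtain ⟨x, hx⟩ := exists_le_average h0 i2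
    rw [i3, reCLM_apply, hH.2, tr_rh (hH.1.pd _)] at hx
    obtain ⟨k1, k2, k3⟩ := k (c.lf x)
    have := nonpos_of_mul_nonpos_right hx ht.1
    exact ⟨c.lf x, by nlinarith [abs_le.1 k3]⟩
  · obtain ⟨x, hx⟩ := exists_average_le h0 i2
    rw [i3, reCLM_apply, hH.2, tr_rh (hH.1.pd _)] at hx
    obtain ⟨k1, k2, k3⟩ := k (c.lf x)
    have := nonneg_of_mul_nonneg_right hx ht.1
    exact ⟨c.lf x, by nlinarith [abs_le.1 k3]⟩

end Pool.Agent.Lib.MP_813db1_ag.VH.Co
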