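import Pool.Agent.Lib.MP_813db1_ag.VH.CoStmt

/-! The energy estimate for the penalised harmonic metric equation. -/

namespace Pool.Agent.Lib.MP_813db1_ag.VH.Co

open Pool.Agent.Lib.MP_813db1_ag.HS Pool.Agent.Lib.MP_813db1_ag.AS
open MeasureTheory Complex Matrix Filter Topology Set Metric
open scoped ContDiff ComplexOrder

namespace En

section Loc

variable {ι r : Type} [Fintype ι] [DecidableEq ι] [Fintype r] [DecidableEq r]

theorem frame (h : FrS) {g : Mat ι} (hg : g.PosDef) : ∃ L e, Fr g⁻¹ L e := by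
  have b : ∀ (A : Mat ι) i j, ‖A i j‖ ≤ ∑ i, ∑ j, ‖A i j‖ := fun A i j =>
    (Finset.single_le_sum (f := fun j => ‖A i j‖) (fun _ _ => norm_nonneg _)
      (Finset.mem_univ j)).trans (Finset.single_le_sum (f := fun i => ∑ j, ‖A i j‖)
        (fun _ _ => Finset.sum_nonneg fun _ _ => norm_nonneg _) (Finset.mem_univ i))
  have n : ∀ A : Mat ι, 0 ≤ ∑ i, ∑ j, ‖A i j‖ := fun A =>
    Finset.sum_nonneg fun _ _ => Finset.sum_nonneg fun _ _ => norm_nonneg _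
  obtain ⟨C, -, hC⟩ := h ι ((∑ i, ∑ j, ‖g i j‖) + ∑ i, ∑ j, ‖g⁻¹ i j‖)
  obtain ⟨e, he⟩ := hC g hg (fun i j => (b g i j).trans (le_add_of_nonneg_right (n _)))
    (fun i j => (b g⁻¹ i j).trans (le_add_of_nonneg_left (n _)))
  exact ⟨C, e, he⟩

omit [DecidableEq ι] [Fintype r] [DecidableEq r] in
theorem cm_sum {k : WithTop ℕ∞} {s : Finset ℕ} {F : ℕ → V ι → Mat r} {z : V ι}
    (hF : ∀ j ∈ s, CM k (F j) z) : CM k (fun w => ∑ j ∈ s, F j w) z := by
  intro a b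
  simp only [Matrix.sum_apply]
  exact ContDiffAt.sum fun j hj => hF j hj a b

omit [DecidableEq ι] [Fintype r] [DecidableEq r] in
theorem dv_sum {s : Finset ℕ} {F : ℕ → V ι → Mat r} {z : V ι} (v : V ι)
    (hF : ∀ j ∈ s, CM 1 (F j) z) :
    dv (fun w => ∑ j ∈ s, F j w) v z = ∑ j ∈ s, dv (F j) v z := by
  ext a b
  simp only [dv, Matrix.of_apply, Matrix.sum_apply]
  rw [fderiv_fun_sum fun j hj => (hF j hj a b).differentiableAt one_ne_zero]
  simp

omit [Fintype r] [DecidableEq r] in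
theorem pd_add [Finite r] {H0 H : Mat r} (h0 : H0.PosDef) (h : H.PosDef) (j J : ℕ) :
    (H0 + ((2 ^ j / 2 ^ J : ℝ) : ℂ) • H).PosDef :=
  h0.add_posSemidef (h.posSemidef.smul (zero_le_real.2 (by positivity)))

omit [DecidableEq ι] in
theorem cm_tw (h : DvS) (J : ℕ) {F0 F : V ι → Mat r} {z : V ι} (h0 : CM 1 F0 z) (h1 : CM 1 F z)
    (p0 : (F0 z).PosDef) (p1 : (F z).PosDef) : CM 1 (fun w => tw J (F0 w) (F w)) z ∧
    ∀ v, dv (fun w => tw J (F0 w) (F w)) v z = ∑ j ∈ Finset.range (2 * J + 1),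
      ((2 ^ j / 2 ^ J : ℝ) : ℂ) • ((((1 + 2 ^ j / 2 ^ J : ℝ)⁻¹ : ℝ) : ℂ) •
        -((F z)⁻¹ * dv F v z * (F z)⁻¹) - -((F0 z + ((2 ^ j / 2 ^ J : ℝ) : ℂ) • F z)⁻¹ *
          (dv F0 v z + ((2 ^ j / 2 ^ J : ℝ) : ℂ) • dv F v z) *
            (F0 z + ((2 ^ j / 2 ^ J : ℝ) : ℂ) • F z)⁻¹)) := by
  have sm : ∀ (a : ℂ) (K : V ι → Mat r), CM 1 K z → CM 1 (fun w => a • K w) z :=
    fun a K hK => (h.cm ι r 1 K K z hK hK).2.2.2.1 a
  have iv : ∀ K : V ι → Mat r, CM 1 K z → (K z).PosDef → CM 1 (fun w => (K w)⁻¹) z :=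
    fun K hK hp => (h.cm ι r 1 K K z hK hK).2.2.2.2.1 hp.det_pos.ne'
  have k1 : ∀ a : ℂ, CM 1 (fun w => F0 w + a • F w) z :=
    fun a => (h.cm ι r 1 _ _ z h0 (sm a F h1)).1
  have k2 : ∀ j : ℕ, CM 1 (fun w => (F0 w + ((2 ^ j / 2 ^ J : ℝ) : ℂ) • F w)⁻¹) z :=
    fun j => iv _ (k1 _) (pd_add p0 p1 j J)
  have k3 : ∀ j : ℕ, CM 1 (fun w => (((1 + 2 ^ j / 2 ^ J : ℝ)⁻¹ : ℝ) : ℂ) • (F w)⁻¹ -
      (F0 w + ((2 ^ j / 2 ^ J : ℝ) : ℂ) • F w)⁻¹) z :=
    fun j => (h.cm ι r 1 _ _ z (sm _ _ (iv F h1 p1)) (k2 j)).2.1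
  refine ⟨cm_sum fun j _ => sm _ _ (k3 j), fun v => ?_⟩
  refine (dv_sum v fun j _ => sm _ _ (k3 j)).trans (Finset.sum_congr rfl fun j _ => ?_)
  rw [h.smul ι r _ _ v z (k3 j), (h.add ι r _ _ v z (sm _ _ (iv F h1 p1)) (k2 j)).2,
    h.smul ι r _ _ v z (iv F h1 p1), h.inv ι r F v z h1 p1.det_pos.ne',
    h.inv ι r _ v z (k1 _) (pd_add p0 p1 j J).det_pos.ne',
    (h.add ι r _ _ v z h0 (sm _ F h1)).1, h.smul ι r _ F v z h1]

theorem term (a b : ℂ) (N K Q P : Mat r) :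
    (a • (b • N - K)) * (P * N * P) + (a • (b • -(N * P * N) - -(K * Q * K))) * 1 * P +
      a • (K * P * N * P - K * Q * K * P) = 0 := by
  simp only [smul_sub, smul_neg, sub_mul, neg_mul, Matrix.smul_mul, Matrix.mul_one,
    Matrix.mul_assoc]
  abel

omit [DecidableEq ι] [Fintype r] [DecidableEq r] in
theorem herm (h : DvS) {F : V ι → Mat r} (hF : ∀ w, (F w).IsHermitian) (v z : V ι) :
    (dv F v z).IsHermitian := by
  have := (h.ct ι r F v z).1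
  rw [show (fun w => (F w)ᴴ) = F from funext fun w => (hF w).eq] at this
  exact this.symm

theorem en_eq (h : DvS) {G : V ι → Mat ι} {z : V ι} {L : ℝ} {e : ι × Fin 2 → V ι}
    (he : Fr (G z)⁻¹ L e) (F : V ι → Mat r) :
    en G F z = ∑ b, tp (F z) (dv F (e b) z) (dv F (e b) z) := by
  simp only [en, tp, (h.fr ι r G z L e he).2.2, Finset.mul_sum, trace_sum, Complex.re_sum,
    Matrix.mul_assoc]

/-- the pointwise inequality. -/
theorem pw (h : Al) (J : ℕ) {G : V ι → Mat ι} {F0 F : V ι → Mat r} {z : V ι} (hG : (G z).PosDef)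
    (h0 : CM 1 F0 z) (h1 : CM 1 F z) (p0 : ∀ w, (F0 w).PosDef) (p1 : ∀ w, (F w).PosDef)
    (hA : ∀ P0 P : Mat r, P0.IsHermitian → P.IsHermitian →
      tp (F z) P P / 32 - 2 * tp (F0 z) P0 P0 ≤
      ∑ j ∈ Finset.range (2 * J + 1), (2 ^ j / 2 ^ J : ℝ) *
        (trace ((F0 z + ((2 ^ j / 2 ^ J : ℝ) : ℂ) • F z)⁻¹ * P * (F z)⁻¹ * P -
          (F0 z + ((2 ^ j / 2 ^ J : ℝ) : ℂ) • F z)⁻¹ * (P0 + ((2 ^ j / 2 ^ J : ℝ) : ℂ) • P) *
            (F0 z + ((2 ^ j / 2 ^ J : ℝ) : ℂ) • F z)⁻¹ * P)).re) :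
    (trace (tw J (F0 z) (F z) * lM G F z + qM G (fun w => tw J (F0 w) (F w)) 1 F z)).re ≤
      (trace (tw J (F0 z) (F z) * ten G F z)).re - en G F z / 32 + 2 * en G F0 z := by
  obtain ⟨L, e, he⟩ := frame h.fr hG
  have q := (h.dv.fr ι r G z L e he).2.2
  have d := (cm_tw h.dv J h0 h1 (p0 z) (p1 z)).2
  have key : ∀ b, (trace (tw J (F0 z) (F z) * (dv F (e b) z * (F z)⁻¹ * dv F (e b) z) +
      dv (fun w => tw J (F0 w) (F w)) (e b) z * 1 * dv F (e b) z)).re ≤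
      -(tp (F z) (dv F (e b) z) (dv F (e b) z) / 32) +
        2 * tp (F0 z) (dv F0 (e b) z) (dv F0 (e b) z) := fun b => by
    have a1 := hA _ _ (herm h.dv (fun w => (p0 w).isHermitian) (e b) z)
      (herm h.dv (fun w => (p1 w).isHermitian) (e b) z)
    rw [d, tw, Finset.sum_mul, Finset.sum_mul, Finset.sum_mul, ← Finset.sum_add_distrib,
      Finset.sum_congr rfl fun j _ => eq_neg_of_add_eq_zero_left (term _ _ _ _ _ _)]
    simp only [trace_sum, Complex.re_sum, trace_neg, neg_re, trace_smul, smul_eq_mul,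
      re_ofReal_mul, Finset.sum_neg_distrib]
    linarith
  have e1 : tw J (F0 z) (F z) * lM G F z + qM G (fun w => tw J (F0 w) (F w)) 1 F z =
      tw J (F0 z) (F z) * ten G F z + ∑ b, (tw J (F0 z) (F z) *
        (dv F (e b) z * (F z)⁻¹ * dv F (e b) z) +
          dv (fun w => tw J (F0 w) (F w)) (e b) z * 1 * dv F (e b) z) := by
    rw [Finset.sum_add_distrib, ← Finset.mul_sum, ← q, ← q, ten, mul_sub]
    abel
  have a2 := Finset.sum_le_sum fun b (_ : b ∈ Finset.univ) => key b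
  rw [Finset.sum_add_distrib, Finset.sum_neg_distrib, ← Finset.sum_div, ← Finset.mul_sum,
    ← en_eq h.dv he, ← en_eq h.dv he] at a2
  rw [e1, trace_add, add_re, trace_sum, Complex.re_sum]
  linarith

theorem inv_conj {A : Mat r} (hA : IsUnit A.det) (K : Mat r) : A * (Aᵀ * K * A)⁻¹ * Aᵀ = K⁻¹ := by
  have hT : IsUnit (Aᵀ).det := by rwa [det_transpose]
  rw [Matrix.mul_inv_rev, Matrix.mul_inv_rev, ← Matrix.mul_assoc, mul_nonsing_inv _ hA,
    Matrix.one_mul, Matrix.mul_assoc, nonsing_inv_mul _ hT, Matrix.mul_one]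

theorem tw_conj {A : Mat r} (hA : IsUnit A.det) (J : ℕ) (H0 H : Mat r) :
    A * tw J (Aᵀ * H0 * A) (Aᵀ * H * A) * Aᵀ = tw J H0 H := by
  simp only [tw, Finset.mul_sum, Finset.sum_mul]
  refine Finset.sum_congr rfl fun j _ => ?_
  rw [← Matrix.smul_mul, ← Matrix.mul_smul, ← add_mul, ← mul_add]
  simp only [Matrix.mul_smul, Matrix.smul_mul, mul_sub, sub_mul, inv_conj hA]

theorem tr_conj {A : Mat r} (hA : IsUnit A.det) (H K : Mat r) :
    trace (Aᵀ * K * A * (Aᵀ * H * A)⁻¹) = trace (K * H⁻¹) := by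
  rw [← inv_conj hA H, Matrix.mul_assoc, Matrix.mul_assoc, trace_mul_comm]
  simp only [Matrix.mul_assoc]

end Loc

section Cov

variable {ι X Y G : Type} [Fintype ι] [DecidableEq ι] [TopologicalSpace X] [CompactSpace X]
  [TopologicalSpace Y] [Group G] [MulAction G Y] {c : Sx ι X Y G}
  {r : Type} [Fintype r] [DecidableEq r] {ρ : G →* Mat r}

theorem unit (ρ : G →* Mat r) (γ : G) : IsUnit (ρ γ).det :=
  (isUnit_iff_isUnit_det _).1 ((Group.isUnit γ).map ρ)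

theorem cmp (h : Al) (hb : c.Bs) {H K : Y → Mat r} (hH : c.Gd ρ H) (hK : c.Gd ρ K) :
    ∃ J0 : ℕ, ∀ J ≥ J0, ∀ y, (((2 ^ J : ℝ) : ℂ) • H y - K y).PosSemidef := by
  have iv : ∀ (γ : G) y, trace (K (γ • y) * (H (γ • y))⁻¹) = trace (K y * (H y)⁻¹) := fun γ y => by
    rw [hH.eqv γ y, hK.eqv γ y, tr_conj (unit ρ _)]
  have ck : c.Ck (0 : ℕ∞) fun y => trace (K y * (H y)⁻¹) := fun e he z hz σ hσ => by
    have a1 : CM (0 : ℕ∞) (fun w => H (σ w)) z := fun i j =>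
      (hH.sm i j e he z hz σ hσ).of_le (by exact_mod_cast le_top)
    have a2 : CM (0 : ℕ∞) (fun w => K (σ w)) z := fun i j =>
      (hK.sm i j e he z hz σ hσ).of_le (by exact_mod_cast le_top)
    have a3 := (h.dv.cm ι r _ _ _ z a1 a1).2.2.2.2.1 (hH.pd _).det_pos.ne'
    have a4 := (h.dv.cm ι r _ _ _ z a2 a3).2.2.1
    exact (h.dv.cm ι r _ _ _ z a4 a4).2.2.2.2.2
  obtain ⟨B, hB⟩ := (isCompact_range (continuous_re.comp (hb.a.dsc 0 _ iv ck).2)).bddAbove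
  obtain ⟨J0, hJ⟩ := pow_unbounded_of_one_lt B (one_lt_two (α := ℝ))
  refine ⟨J0, fun J hJ' y => ?_⟩
  have b1 : trm (H y) (K y) ≤ 2 ^ J := by
    obtain ⟨γ, hγ⟩ := hb.a.orb y
    have b2 := hB (mem_range_self (c.p y))
    simp only [Function.comp_apply, hγ, iv] at b2
    exact b2.trans (hJ.le.trans (pow_le_pow_right₀ one_le_two hJ'))
  have := ((hH.pd y).posSemidef.smul (zero_le_real.2 (sub_nonneg.2 b1))).add
    (mat.le_trm r _ _ (hH.pd y) (hK.pd y).posSemidef)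
  rwa [ofReal_sub, sub_smul, sub_add_sub_cancel] at this

omit [CompactSpace X] in
theorem en_cont (hb : c.Bs) {H : Y → Mat r} (hH : c.Gd ρ H) :
    Continuous fun x => c.en H (c.lf x) := by
  have d : ∀ y, (H y).det ≠ 0 := fun y => (hH.pd y).det_pos.ne'
  have s2 : c.CkM 2 H := fun i j e he z hz σ hσ =>
    (hH.sm i j e he z hz σ hσ).of_le (WithTop.coe_le_coe.2 (le_top (a := (2 : ℕ∞))))
  simpa only [Function.comp_def, ofReal_re] using continuous_re.comp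
    (hb.a.dsc ⊤ (fun y => (c.en H y : ℂ))
      (fun γ y => by rw [(hb.m.eqv r ρ H H hH.eqv s2 d).2.1 γ y]) (hb.m.sm r H hH.sm d).2.1).2

end Cov

end En

variable {ι X Y G : Type} [Fintype ι] [DecidableEq ι] [TopologicalSpace X] [T2Space X]
  [CompactSpace X] [MeasurableSpace X] [BorelSpace X] [TopologicalSpace Y] [ConnectedSpace Y]
  [Group G] [MulAction G Y] {c : Sx ι X Y G} {μ : Measure X}

omit [ConnectedSpace Y] in
theorem enS (h : Al) (hb : c.Bs) (hμ : c.M.IsVol c.g μ) (h1 : c.GrS μ) (h2 : EnA) : c.EnS μ := by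
  intro r _ _ ρ H0 l hR
  have := ((AY.volS' ι X c.M c.g c.hg).2 μ hμ).fin
  obtain ⟨C, hC⟩ := h2 r l hR.one
  refine ⟨32 * (|C| * μ.real univ + 2 * ∫ x, c.en H0 (c.lf x) ∂μ), fun t ht H hH => ?_⟩
  obtain ⟨J1, hJ1⟩ := En.cmp h hb hH.1 hR.gd
  obtain ⟨J2, hJ2⟩ := En.cmp h hb hR.gd hH.1
  set J := max J1 J2
  have hA := fun y => hC J (H0 y) (H y) (hR.gd.pd y) (hH.1.pd y) (hJ1 J (le_max_left _ _) y)
    (hJ2 J (le_max_right _ _) y)
  have sk : ∀ (k : ℕ) (K : Y → Mat r), c.CkM ∞ K → c.CkM k K := fun k K hK i j e he z hz σ hσ =>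
    (hK i j e he z hz σ hσ).of_le (by exact_mod_cast le_top)
  have w1 : c.CkM 1 fun y => tw J (H0 y) (H y) := fun i j e he z hz σ hσ =>
    (En.cm_tw h.dv J (F0 := fun w => H0 (σ w)) (F := fun w => H (σ w))
      (fun a b => sk 1 H0 hR.gd.sm a b e he z hz σ hσ)
      (fun a b => sk 1 H hH.1.sm a b e he z hz σ hσ) (hR.gd.pd _) (hH.1.pd _)).1 i j
  obtain ⟨g1, g2⟩ := h1.mat r H (fun y => tw J (H0 y) (H y)) (fun γ => (ρ γ⁻¹)ᵀ) (fun γ => ρ γ⁻¹)
    (sk 2 H hH.1.sm) w1 fun γ y => ⟨hH.1.eqv γ y, by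
      rw [hH.1.eqv γ y, hR.gd.eqv γ y, En.tw_conj (En.unit ρ _)]⟩
  have pw : ∀ y, (trace (tw J (H0 y) (H y) * c.lM H y +
      c.qM (fun y => tw J (H0 y) (H y)) 1 H y)).re ≤ |C| - c.en H y / 32 + 2 * c.en H0 y := by
    intro y
    have s0 : c.rd H0 y (c.pt y) = H0 y := congrArg H0 (hb.a.self y).2.2
    have s1 : c.rd H y (c.pt y) = H y := congrArg H (hb.a.self y).2.2
    have a1 := En.pw h J (G := c.Gp y) (F0 := c.rd H0 y) (F := c.rd H y) (z := c.pt y) (hb.a.gp y)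
      (fun i j => hb.a.at_ _ _ y (sk 1 H0 hR.gd.sm i j))
      (fun i j => hb.a.at_ _ _ y (sk 1 H hH.1.sm i j)) (fun w => hR.gd.pd _) (fun w => hH.1.pd _)
      (by rw [s0, s1]; exact (hA y).2)
    simp only [ten, en, s0, s1] at a1
    have rs := (hb.m.rs r H0 H0 (sk 2 H0 hR.gd.sm) hR.gd.rs).1 y
    have a2 := (hA y).1 (c.ten H0 y) (by
      rw [Matrix.IsHermitian, conjTranspose, rs.1, rs.2]) (hR.dom y)
    have a3 : (trace (tw J (H0 y) (H y) * c.ten H y)).re ≤ |C| := by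
      rw [hH.2 y, Matrix.mul_smul, trace_smul, smul_eq_mul, re_ofReal_mul]
      nlinarith [le_abs_self C, abs_nonneg C, ht.1, ht.2]
    exact a1.trans (add_le_add (sub_le_sub_right a3 _) le_rfl)
  have i0 : ∀ f : X → ℝ, Continuous f → Integrable f μ := fun f hf =>
    hf.integrable_of_hasCompactSupport (HasCompactSupport.of_compactSpace f)
  have i1 := i0 _ (En.en_cont hb hH.1)
  have i2 := i0 _ (En.en_cont hb hR.gd)
  have i3 := integral_mono (i0 _ (continuous_re.comp g1))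
    (((integrable_const |C|).sub (i1.div_const 32)).add (i2.const_mul 2)) fun x => pw (c.lf x)
  have i4 := integral_re (g1.integrable_of_hasCompactSupport
    (HasCompactSupport.of_compactSpace _) : Integrable _ μ)
  rw [g2] at i4
  simp only [RCLike.re_to_complex, zero_re] at i4
  simp only [Function.comp_def, i4, Pi.add_apply, Pi.sub_apply] at i3
  rw [integral_add (f := fun x => |C| - c.en H (c.lf x) / 32)
      ((integrable_const |C|).sub (i1.div_const 32)) (i2.const_mul 2), integral_sub (integrable_const |C|) (i1.div_const 32), integral_div, integral_const_mul,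
    integral_const, smul_eq_mul] at i3
  linarith

end Pool.Agent.Lib.MP_813db1_ag.VH.Co
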