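import Pool.Agent.Lib.MP_813db1_ag.VH.CoStmt

/-! The algebra of the energy estimate. -/

namespace Pool.Agent.Lib.MP_813db1_ag.VH.Co

open Pool.Agent.Lib.MP_813db1_ag.HS (Mat)
open Complex Matrix Finset
open scoped ComplexOrder MatrixOrder

namespace CoEnA

/-! ### scalar inequalities -/

lemma cpos (j J : ℕ) : (0 : ℝ) < 2 ^ j / 2 ^ J := by positivity

lemma tele (J n : ℕ) {k : ℝ} (hk : 0 < k) :
    ∑ j ∈ range n, (2 ^ j / 2 ^ J : ℝ) * k / (k + 2 ^ j / 2 ^ J) ^ 2 ≤ 2 := by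
  have h : ∑ j ∈ range n, (2 ^ j / 2 ^ J : ℝ) * k / (k + 2 ^ j / 2 ^ J) ^ 2 ≤
      ∑ j ∈ range n, (2 * (k / (k + 2 ^ j / 2 ^ J)) - 2 * (k / (k + 2 ^ (j + 1) / 2 ^ J))) := by
    refine sum_le_sum fun j _ => ?_
    have e : (2 : ℝ) ^ (j + 1) / 2 ^ J = 2 * (2 ^ j / 2 ^ J) := by ring
    rw [e]
    have hc := cpos j J
    generalize (2 : ℝ) ^ j / 2 ^ J = c at hc
    have e2 : 2 * (k / (k + c)) - 2 * (k / (k + 2 * c)) = 2 * c * k / ((k + c) * (k + 2 * c)) := by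
      field_simp
      ring
    rw [e2, div_le_div_iff₀ (by positivity) (by positivity)]
    have : 0 ≤ c * k * (k + c) * k := by positivity
    nlinarith
  rw [sum_range_sub' (fun j => 2 * (k / (k + (2 : ℝ) ^ j / 2 ^ J)))] at h
  have h1 : k / (k + 2 ^ 0 / 2 ^ J) ≤ 1 := (div_le_one (by positivity)).2 (by
    have := cpos 0 J
    linarith)
  have h2 : 0 ≤ k / (k + 2 ^ n / 2 ^ J) := by positivity
  linarith

/-- the kernel. -/
noncomputable def lk (J : ℕ) (a b : ℝ) : ℝ :=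
  ∑ j ∈ range (2 * J + 1), (2 ^ j / 2 ^ J : ℝ) * ((a + 2 ^ j / 2 ^ J)⁻¹ * (b + 2 ^ j / 2 ^ J)⁻¹)

lemma lk_comm (J : ℕ) (a b : ℝ) : lk J a b = lk J b a := sum_congr rfl fun _ _ => by ring

lemma lk_nn (J : ℕ) {a b : ℝ} (ha : 0 < a) (hb : 0 < b) : 0 ≤ lk J a b :=
  sum_nonneg fun _ _ => by positivity

lemma lk_up (J : ℕ) {a b : ℝ} (ha : 0 < a) (hb : 0 < b) : lk J a b * (a * b) ≤ 2 * (a + b) := by
  refine le_trans ?_ (mul_le_mul_of_nonneg_right (tele J (2 * J + 1) ha) (by positivity))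
  rw [lk, sum_mul, sum_mul]
  refine sum_le_sum fun j _ => ?_
  have hc := cpos j J
  generalize (2 : ℝ) ^ j / 2 ^ J = c at hc
  have e : c * ((a + c)⁻¹ * (b + c)⁻¹) * (a * b) = c * a * b / ((a + c) * (b + c)) := by
    field_simp
  rw [e, div_mul_eq_mul_div, div_le_div_iff₀ (by positivity) (by positivity)]
  have : 0 ≤ c * a * (a + c) * (b * b + a * c) := by positivity
  nlinarith

lemma pick (J : ℕ) {K : ℝ} (h1 : 1 ≤ 2 ^ J * K) (h2 : K ≤ 2 ^ J) :
    ∃ j ∈ range (2 * J + 1), K ≤ 2 ^ j / 2 ^ J ∧ (2 : ℝ) ^ j / 2 ^ J ≤ 2 * K := by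
  classical
  have p : (0 : ℝ) < 2 ^ J := by positivity
  have hx : ∃ j, K ≤ (2 : ℝ) ^ j / 2 ^ J := ⟨2 * J, by
    rw [le_div_iff₀ p, two_mul, pow_add]
    exact mul_le_mul_of_nonneg_right h2 p.le⟩
  have hm : Nat.find hx ≤ 2 * J := Nat.find_min' hx (by
    rw [le_div_iff₀ p, two_mul, pow_add]
    exact mul_le_mul_of_nonneg_right h2 p.le)
  refine ⟨Nat.find hx, mem_range.2 (by omega), Nat.find_spec hx, ?_⟩
  rcases h : Nat.find hx with _ | n
  · rw [div_le_iff₀ p]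
    nlinarith
  · have := not_le.1 (Nat.find_min hx (show n < Nat.find hx by omega))
    have e : (2 : ℝ) ^ (n + 1) / 2 ^ J = 2 * (2 ^ n / 2 ^ J) := by ring
    linarith

lemma lk_low (J : ℕ) {a b : ℝ} (ha : 0 < a) (hb : 0 < b) (a1 : 1 ≤ 2 ^ J * a) (a2 : a ≤ 2 ^ J)
    (b2 : b ≤ 2 ^ J) : 1 / 8 ≤ lk J a b * (a + b) := by
  have p : (0 : ℝ) < 2 ^ J := by positivity
  obtain ⟨j, hj, h1, h2⟩ := pick J (K := max a b)
    (a1.trans (mul_le_mul_of_nonneg_left (le_max_left _ _) p.le)) (max_le a2 b2)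
  have h := single_le_sum (f := fun j => (2 ^ j / 2 ^ J : ℝ) *
    ((a + 2 ^ j / 2 ^ J)⁻¹ * (b + 2 ^ j / 2 ^ J)⁻¹)) (fun _ _ => by positivity) hj
  refine le_trans ?_ (mul_le_mul_of_nonneg_right h (by positivity))
  have hc := cpos j J
  generalize (2 : ℝ) ^ j / 2 ^ J = c at hc h1 h2
  have m1 : a ≤ c := (le_max_left _ _).trans h1
  have m2 : b ≤ c := (le_max_right _ _).trans h1
  have m3 : c ≤ 2 * (a + b) := h2.trans (by
    have : max a b ≤ a + b := max_le (by linarith) (by linarith)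
    linarith)
  have e : c * ((a + c)⁻¹ * (b + c)⁻¹) * (a + b) = c * (a + b) / ((a + c) * (b + c)) := by
    field_simp
  rw [e, div_le_div_iff₀ (by positivity) (by positivity)]
  have : (a + c) * (b + c) ≤ (2 * c) * (2 * c) := mul_le_mul (by linarith) (by linarith)
    (by positivity) (by positivity)
  nlinarith

/-- the scalar form of the second estimate. -/
lemma two (J : ℕ) {a b : ℝ} (ha : 0 < a) (hb : 0 < b) (a1 : 1 ≤ 2 ^ J * a) (a2 : a ≤ 2 ^ J)
    (b2 : b ≤ 2 ^ J) {u v w : ℝ} (hw : w ≤ u * v) :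
    u ^ 2 / 32 - 2 * (a⁻¹ * b⁻¹ * v ^ 2) ≤ lk J a b * ((a + b) / 2 * u ^ 2 - w) := by
  have h0 := lk_nn J ha hb
  have h1 := lk_low J ha hb a1 a2 b2
  have h2 := lk_up J ha hb
  generalize lk J a b = L at h0 h1 h2
  have hs : 0 < a + b := by positivity
  have h3 : L / (a + b) ≤ 2 * (a⁻¹ * b⁻¹) := by
    rw [div_le_iff₀ hs, ← mul_inv, ← div_eq_mul_inv, div_mul_eq_mul_div, le_div_iff₀ (by positivity)]
    exact h2
  have h4 : u * v ≤ (a + b) / 4 * u ^ 2 + v ^ 2 / (a + b) := by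
    have e : (a + b) / 4 * u ^ 2 + v ^ 2 / (a + b) - u * v =
        ((a + b) * u - 2 * v) ^ 2 / (4 * (a + b)) := by
      field_simp
      ring
    have : 0 ≤ ((a + b) * u - 2 * v) ^ 2 / (4 * (a + b)) := by positivity
    linarith
  have h5 := mul_le_mul_of_nonneg_left (hw.trans h4) h0
  have h6 := mul_le_mul_of_nonneg_right h3 (sq_nonneg v)
  have h7 := mul_le_mul_of_nonneg_right h1 (sq_nonneg u)
  have e : L * (v ^ 2 / (a + b)) = L / (a + b) * v ^ 2 := by ring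
  nlinarith

/-- the scalar form of the first estimate. -/
lemma one (J : ℕ) {l k t : ℝ} (hl : 1 ≤ l) (hk : 0 < k) (t1 : 0 ≤ (l - 1) * k + t)
    (t2 : 0 ≤ (l - 1) * k - t) : lk J 1 k * (k - 1) * (l * (k⁻¹ - k) + t) ≤ 12 * l ^ 2 := by
  have h0 := lk_nn J one_pos hk
  have h2 := lk_up J one_pos hk
  generalize lk J 1 k = L at h0 h2
  have ki : k * k⁻¹ = 1 := mul_inv_cancel₀ hk.ne'
  have kp : 0 < k⁻¹ := inv_pos.2 hk
  generalize k⁻¹ = i at ki kp
  rcases le_total 1 k with h | h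
  · have i1 : i ≤ 1 := by nlinarith
    have u1 : l * (i - k) + t ≤ l - k := by nlinarith
    have L1 : L * (k - 1) ≤ 4 * k := by nlinarith
    have L0 : 0 ≤ L * (k - 1) := mul_nonneg h0 (by linarith)
    have := mul_le_mul_of_nonneg_left u1 L0
    rcases le_total l k with g | g
    · nlinarith [mul_nonneg L0 (sub_nonneg.2 g)]
    · nlinarith [mul_le_mul_of_nonneg_right L1 (sub_nonneg.2 g)]
  · have i1 : 1 ≤ i := by nlinarith
    have L0 : 0 ≤ L * (1 - k) := mul_nonneg h0 (by linarith)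
    have u1 : -(l * (i - k) + t) ≤ l * (2 * k - 1) := by nlinarith
    have := mul_le_mul_of_nonneg_left u1 L0
    rcases le_total (2 * k) 1 with g | g
    · nlinarith [mul_nonneg L0 (mul_nonneg (by linarith : 0 ≤ l) (sub_nonneg.2 g))]
    · have L1 : L * (1 - k) ≤ 4 := by nlinarith
      have u2 : l * (2 * k - 1) ≤ l := by nlinarith
      have u3 : 0 ≤ l * (2 * k - 1) := mul_nonneg (by linarith) (by linarith)
      nlinarith [mul_le_mul_of_nonneg_right L1 u3]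

/-! ### matrices -/

variable {r : Type} [Fintype r] [DecidableEq r]

/-- a real diagonal matrix. -/
noncomputable def dg (k : r → ℝ) : Mat r := diagonal fun a => (k a : ℂ)

lemma dg_inv {k : r → ℝ} (h : ∀ a, 0 < k a) : (dg k)⁻¹ = dg fun a => (k a)⁻¹ := by
  refine inv_eq_left_inv ?_
  rw [dg, dg, diagonal_mul_diagonal, ← diagonal_one]
  congr 1
  funext a
  rw [← ofReal_mul, inv_mul_cancel₀ (h a).ne', ofReal_one]

omit [Fintype r] in
lemma dg_add (k : r → ℝ) (c : ℝ) : dg k + (c : ℂ) • (1 : Mat r) = dg fun a => k a + c := by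
  ext a b
  by_cases h : a = b <;> simp [dg, h, one_apply]

lemma tr2 (u : r → ℝ) (x : Mat r) : (trace (dg u * x)).re = ∑ a, u a * (x a a).re := by
  simp [trace, dg, diagonal_mul]

lemma tr4 (u v : r → ℝ) (x y : Mat r) : (trace (dg u * x * (dg v * y))).re =
    ∑ a, ∑ b, u a * v b * (x a b * y b a).re := by
  rw [trace, re_sum]
  refine sum_congr rfl fun a _ => ?_
  rw [diag_apply, mul_apply, re_sum]
  refine sum_congr rfl fun b _ => ?_
  rw [dg, dg, diagonal_mul, diagonal_mul, ← re_ofReal_mul, ofReal_mul]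
  congr 1
  ring

lemma diag (H0 H : Mat r) (h0 : H0.PosDef) (h : H.PosDef) :
    ∃ (S : Mat r) (k : r → ℝ), IsUnit S.det ∧ H = Sᴴ * 1 * S ∧ H0 = Sᴴ * dg k * S := by
  obtain ⟨S, rfl⟩ : ∃ S : Mat r, H = Sᴴ * S :=
    CStarAlgebra.nonneg_iff_eq_star_mul_self.1 h.posSemidef.nonneg
  have u : IsUnit S.det := by
    have := (isUnit_iff_isUnit_det _).1 h.isUnit
    rw [det_mul] at this
    exact isUnit_of_mul_isUnit_right this
  have hM := (h0.posSemidef.conjTranspose_mul_mul_same S⁻¹).isHermitian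
  have e := hM.spectral_theorem
  rw [Unitary.conjStarAlgAut_apply] at e
  have e1 : (hM.eigenvectorUnitary : Mat r) * star (hM.eigenvectorUnitary : Mat r) = 1 :=
    Unitary.coe_mul_star_self _
  have e3 : diagonal (RCLike.ofReal ∘ hM.eigenvalues) = dg hM.eigenvalues := rfl
  rw [e3] at e
  generalize (hM.eigenvectorUnitary : Mat r) = U at e e1
  generalize hM.eigenvalues = k at e
  rw [star_eq_conjTranspose] at e e1
  refine ⟨Uᴴ * S, k, ?_, ?_, ?_⟩
  · rw [det_mul]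
    exact (isUnit_of_mul_isUnit_right (det_mul U Uᴴ ▸ e1.symm ▸ det_one (n := r) (R := ℂ) ▸
      isUnit_one)).mul u
  · rw [conjTranspose_mul, conjTranspose_conjTranspose, Matrix.mul_one, Matrix.mul_assoc,
      ← Matrix.mul_assoc U, e1, Matrix.one_mul]
  · have e4 : (Uᴴ * S)ᴴ * dg k * (Uᴴ * S) = Sᴴ * (U * dg k * Uᴴ) * S := by
      simp only [conjTranspose_mul, conjTranspose_conjTranspose, Matrix.mul_assoc]
    rw [e4, ← e]
    have e5 : Sᴴ * (S⁻¹ᴴ * H0 * S⁻¹) * S = (S⁻¹ * S)ᴴ * H0 * (S⁻¹ * S) := by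
      simp only [conjTranspose_mul, Matrix.mul_assoc]
    rw [e5, nonsing_inv_mul _ u, conjTranspose_one, Matrix.one_mul, Matrix.mul_one]

variable {S : Mat r}

lemma back (u : IsUnit S.det) (A : Mat r) : S⁻¹ᴴ * (Sᴴ * A * S) * S⁻¹ = A := by
  have e : S⁻¹ᴴ * (Sᴴ * A * S) * S⁻¹ = (S * S⁻¹)ᴴ * A * (S * S⁻¹) := by
    simp only [conjTranspose_mul, Matrix.mul_assoc]
  rw [e, mul_nonsing_inv _ u, conjTranspose_one, Matrix.one_mul, Matrix.mul_one]

lemma srj (u : IsUnit S.det) {P : Mat r} (hP : P.IsHermitian) :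
    ∃ x : Mat r, x.IsHermitian ∧ P = Sᴴ * x * S := by
  refine ⟨S⁻¹ᴴ * P * S⁻¹, isHermitian_conjTranspose_mul_mul _ hP, ?_⟩
  have e5 : Sᴴ * (S⁻¹ᴴ * P * S⁻¹) * S = (S⁻¹ * S)ᴴ * P * (S⁻¹ * S) := by
    simp only [conjTranspose_mul, Matrix.mul_assoc]
  rw [e5, nonsing_inv_mul _ u, conjTranspose_one, Matrix.one_mul, Matrix.mul_one]

lemma psd (u : IsUnit S.det) {A : Mat r} (h : (Sᴴ * A * S).PosSemidef) (a : r) :
    0 ≤ (A a a).re := by
  have h1 := h.conjTranspose_mul_mul_same S⁻¹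
  rw [back u] at h1
  exact (Complex.le_def.1 (h1.diag_nonneg (i := a))).1

lemma pd (u : IsUnit S.det) {A : Mat r} (h : (Sᴴ * A * S).PosDef) (a : r) :
    0 < (A a a).re := by
  have h1 := h.conjTranspose_mul_mul_same (B := S⁻¹) (mulVec_injective_of_isUnit
    ((isUnit_iff_isUnit_det _).2 (isUnit_nonsing_inv_det _ u)))
  rw [back u] at h1
  exact (Complex.lt_def.1 (h1.diag_pos (i := a))).1

omit [DecidableEq r] in
lemma lin (A B : Mat r) (c : ℂ) : Sᴴ * A * S + c • (Sᴴ * B * S) = Sᴴ * (A + c • B) * S := by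
  rw [Matrix.mul_add, Matrix.add_mul, Matrix.mul_smul, Matrix.smul_mul]

omit [DecidableEq r] in
lemma lad (A B : Mat r) (c : ℂ) : c • (Sᴴ * A * S) + Sᴴ * B * S = Sᴴ * (c • A + B) * S := by
  rw [Matrix.mul_add, Matrix.add_mul, Matrix.mul_smul, Matrix.smul_mul]

omit [DecidableEq r] in
lemma lsb (A B : Mat r) (c : ℂ) : c • (Sᴴ * A * S) - Sᴴ * B * S = Sᴴ * (c • A - B) * S := by
  rw [Matrix.mul_sub, Matrix.sub_mul, Matrix.mul_smul, Matrix.smul_mul]

lemma pr (u : IsUnit S.det) (A B : Mat r) :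
    (Sᴴ * A * S)⁻¹ * (Sᴴ * B * S) = S⁻¹ * (A⁻¹ * B) * S := by
  have u' : IsUnit Sᴴ.det := by rw [det_conjTranspose]; exact u.star
  rw [Matrix.mul_inv_rev, Matrix.mul_inv_rev]
  simp only [Matrix.mul_assoc]
  rw [nonsing_inv_mul_cancel_left _ _ u']

lemma t2 (u : IsUnit S.det) (A B : Mat r) :
    trace ((Sᴴ * A * S)⁻¹ * (Sᴴ * B * S)) = trace (A⁻¹ * B) := by
  rw [pr u, trace_mul_comm, mul_nonsing_inv_cancel_left _ _ u]

lemma t4 (u : IsUnit S.det) (A B C D : Mat r) :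
    trace ((Sᴴ * A * S)⁻¹ * (Sᴴ * B * S) * ((Sᴴ * C * S)⁻¹ * (Sᴴ * D * S))) =
      trace (A⁻¹ * B * (C⁻¹ * D)) := by
  rw [pr u, pr u, Matrix.mul_assoc, Matrix.mul_assoc, trace_mul_comm]
  simp only [Matrix.mul_assoc]
  rw [mul_nonsing_inv_cancel_left _ _ u, mul_nonsing_inv _ u, Matrix.mul_one]

lemma rh_eq (u : IsUnit S.det) (l : ℝ) (A T : Mat r) :
    rh l (Sᴴ * A * S) (Sᴴ * T * S) (Sᴴ * 1 * S) = Sᴴ * ((l : ℂ) • (A⁻¹ - A) + T) * S := by
  rw [rh, Matrix.mul_assoc _ _ (Sᴴ * 1 * S), pr u, ← lad, Matrix.mul_sub, Matrix.sub_mul]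
  simp only [Matrix.mul_assoc, Matrix.mul_one]
  rw [mul_nonsing_inv_cancel_left _ _ u]

end CoEnA

open CoEnA in
theorem enA : EnA := by
  intro r _ _ l hl
  refine ⟨∑ _ : r, 12 * l ^ 2, fun J H0 H h0 h h1 h2 => ?_⟩
  obtain ⟨S, k, u, rfl, rfl⟩ := diag H0 H h0 h
  have kp : ∀ a, 0 < k a := fun a => by simpa [dg] using pd u h0 a
  rw [lsb] at h1 h2
  have k2 : ∀ a, k a ≤ 2 ^ J := fun a => by
    have := psd u h1 a
    rw [Matrix.sub_apply, Matrix.smul_apply, one_apply_eq, dg, diagonal_apply_eq, smul_eq_mul,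
      mul_one, ← ofReal_sub, ofReal_re] at this
    linarith
  have k1 : ∀ a, 1 ≤ 2 ^ J * k a := fun a => by
    have := psd u h2 a
    rw [Matrix.sub_apply, Matrix.smul_apply, one_apply_eq, dg, diagonal_apply_eq, smul_eq_mul,
      ← ofReal_mul, sub_re, ofReal_re, one_re] at this
    linarith
  have kc : ∀ j : ℕ, (dg k + ((2 ^ j / 2 ^ J : ℝ) : ℂ) • (1 : Mat r))⁻¹ =
      dg fun a => (k a + 2 ^ j / 2 ^ J)⁻¹ := fun j => by
    rw [dg_add, dg_inv fun a => add_pos (kp a) (cpos j J)]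
  have o1 : (1 : Mat r)⁻¹ = dg fun _ => 1 := by simp [dg]
  refine ⟨fun T0 hT hd => ?_, fun P0 P hP0 hP => ?_⟩
  · obtain ⟨T, -, rfl⟩ := srj u hT
    obtain ⟨d1, d2⟩ := hd
    rw [lad] at d1
    rw [lsb] at d2
    rw [rh_eq u, tw]
    generalize hR : (l : ℂ) • ((dg k)⁻¹ - dg k) + T = R
    have eR : ∀ a, (R a a).re = l * ((k a)⁻¹ - k a) + (T a a).re := fun a => by
      rw [← hR, dg_inv kp]
      simp only [dg, Matrix.add_apply, Matrix.smul_apply, Matrix.sub_apply, diagonal_apply_eq,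
        smul_eq_mul, ← ofReal_sub, ← ofReal_mul, add_re, ofReal_re]
    simp only [sum_mul, trace_sum, Matrix.smul_mul, Matrix.sub_mul, trace_smul, trace_sub, lin,
      t2 u, kc, o1, smul_eq_mul, re_sum, re_ofReal_mul, sub_re, tr2, mul_sum, ← sum_sub_distrib]
    rw [sum_comm]
    refine sum_le_sum fun a _ => ?_
    have e1 := psd u d1 a
    have e2 := psd u d2 a
    simp only [dg, Matrix.add_apply, Matrix.smul_apply, Matrix.sub_apply, diagonal_apply_eq,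
      smul_eq_mul, ← ofReal_mul, add_re, sub_re, ofReal_re] at e1 e2
    refine le_of_eq_of_le ?_ (one J hl (kp a) e1 e2)
    rw [← eR, lk, sum_mul, sum_mul]
    refine sum_congr rfl fun j _ => ?_
    have hc := cpos j J
    have hk := kp a
    generalize (2 : ℝ) ^ j / 2 ^ J = c at hc
    field_simp
    ring
  · obtain ⟨x, hx, rfl⟩ := srj u hP
    obtain ⟨y, hy, rfl⟩ := srj u hP0
    have xx : ∀ {x : Mat r}, x.IsHermitian → ∀ a b, (x a b * x b a).re = ‖x a b‖ ^ 2 :=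
      fun {x} hx a b => by
        rw [← hx.apply b a, Complex.star_def, mul_conj, ofReal_re, normSq_eq_norm_sq]
    have e : ∀ A B C D : Mat r, A * B * C * D = A * B * (C * D) := fun _ _ _ _ =>
      Matrix.mul_assoc _ _ _
    simp only [tp, trace_sub, lin, sub_re]
    simp only [e (Sᴴ * _ * S)⁻¹, t4 u, kc, o1, dg_inv kp, tr4, xx hx, xx hy]
    have key : ∀ a b, ∑ j ∈ range (2 * J + 1), (2 ^ j / 2 ^ J : ℝ) *
        ((k a + 2 ^ j / 2 ^ J)⁻¹ * 1 * ‖x a b‖ ^ 2 - (k a + 2 ^ j / 2 ^ J)⁻¹ *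
          (k b + 2 ^ j / 2 ^ J)⁻¹ * ((y + ((2 ^ j / 2 ^ J : ℝ) : ℂ) • x) a b * x b a).re) =
        lk J (k a) (k b) * (k b * ‖x a b‖ ^ 2 - (y a b * x b a).re) := fun a b => by
      rw [lk, sum_mul]
      refine sum_congr rfl fun j _ => ?_
      rw [Matrix.add_apply, Matrix.smul_apply, smul_eq_mul, add_mul, add_re, mul_assoc _ (x a b),
        re_ofReal_mul, xx hx]
      have hc := cpos j J
      have ha := kp a
      have hb := kp b
      generalize (2 : ℝ) ^ j / 2 ^ J = c at hc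
      field_simp
      ring
    simp only [← sum_sub_distrib, mul_sum, sum_div]
    rw [sum_comm (s := range _)]
    simp only [sum_comm (s := range _), key]
    have sy : ∑ a, ∑ b, lk J (k a) (k b) * (k b * ‖x a b‖ ^ 2) =
        ∑ a, ∑ b, lk J (k a) (k b) * (k a * ‖x a b‖ ^ 2) := by
      rw [sum_comm]
      refine sum_congr rfl fun a _ => sum_congr rfl fun b _ => ?_
      rw [lk_comm, ← hx.apply b a, norm_star]
    have fi : ∑ a, ∑ b, lk J (k a) (k b) * ((k a + k b) / 2 * ‖x a b‖ ^ 2 - (y a b * x b a).re) =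
        ∑ a, ∑ b, lk J (k a) (k b) * (k b * ‖x a b‖ ^ 2 - (y a b * x b a).re) := by
      have e2 : ∀ a b, lk J (k a) (k b) * ((k a + k b) / 2 * ‖x a b‖ ^ 2 - (y a b * x b a).re) =
          lk J (k a) (k b) * (k b * ‖x a b‖ ^ 2 - (y a b * x b a).re) + (lk J (k a) (k b) *
            (k a * ‖x a b‖ ^ 2) - lk J (k a) (k b) * (k b * ‖x a b‖ ^ 2)) / 2 := fun a b => by ring
      simp only [e2, sum_add_distrib, ← sum_div, sum_sub_distrib, sy, sub_self, zero_div, add_zero]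
    rw [← fi]
    refine sum_le_sum fun a _ => sum_le_sum fun b _ => ?_
    refine le_of_eq_of_le (by ring) (two J (kp a) (kp b) (k1 a) (k2 a) (k2 b) (u := ‖x a b‖)
      (v := ‖y a b‖) ((re_le_norm _).trans_eq ?_))
    rw [norm_mul, mul_comm, ← hx.apply b a, norm_star]

end Pool.Agent.Lib.MP_813db1_ag.VH.Co
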