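import Pool.Agent.Lib.MP_813db1_ag.VH.CoStmt

/-! The gradient estimate. -/

namespace Pool.Agent.Lib.MP_813db1_ag.VH.Co

open Pool.Agent.Lib.MP_813db1_ag.HS Pool.Agent.Lib.MP_813db1_ag.AS
open MeasureTheory Complex Matrix Filter Topology Set Metric
open scoped ContDiff ComplexOrder

variable {ι X Y G : Type} [Fintype ι] [DecidableEq ι] [TopologicalSpace X] [TopologicalSpace Y]
  [Group G] [MulAction G Y] {c : Sx ι X Y G}

namespace CoGd

variable {r : Type} [Fintype r] [DecidableEq r]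

omit [Fintype r] [DecidableEq r] in
theorem cm (hb : c.Bas) {k : WithTop ℕ∞} {F : Y → Mat r} (hF : c.CkM k F) {a : Fin c.C.n}
    {z : V ι} (hz : z ∈ c.B a) : CM k (fun w => F (c.s a w)) z := fun i j =>
  hF i j _ (c.C.mem a) z (hb.sec a z hz).1 _ (hb.sec a z hz).2.1

omit [Fintype r] [DecidableEq r] [DecidableEq ι] in
theorem le1 {k : WithTop ℕ∞} {F : V ι → Mat r} {z : V ι} (h : CM ∞ F z) (hk : k ≤ ∞) :
    CM k F z := fun i j => (h i j).of_le hk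

omit [Fintype r] [DecidableEq r] [DecidableEq ι] in
theorem herm (h : DvS) {F : V ι → Mat r} (hF : ∀ w, (F w).IsHermitian) (v z : V ι) :
    (dv F v z).IsHermitian := by
  rw [IsHermitian, ← (h.ct ι r F v z).1, show (fun w => (F w)ᴴ) = F from funext hF]

/-- the derivatives of a smooth Hermitian function are dominated by the reference metric. -/
theorem dom (h : Al) (hb : c.Bs) {ρ : G →* Mat r} {H0 : Y → Mat r} (g : c.Gd ρ H0)
    {F : Y → Mat r} (hF : c.CkM ∞ F) (hF' : ∀ y, (F y).IsHermitian) : ∃ A ≥ (0 : ℝ), ∀ A' ≥ A, ∀ a,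
    ∀ z ∈ c.B a, ∀ v : V ι, ‖v‖ ≤ 1 → Dom A' (H0 (c.s a z)) (dv (fun w => F (c.s a w)) v z) := by
  choose L L0 hL using fun q : r × r => hb.a.hol _ (hF q.1 q.2)
  obtain ⟨-, -, -, -, L1, h1⟩ := hb.m.sm r H0 g.sm fun y => (g.pd y).det_pos.ne'
  obtain ⟨C, C0, hC⟩ := h.tp.ent r L1
  have s0 : 0 ≤ ∑ q, L q := Finset.sum_nonneg fun q _ => L0 q
  have p0 : 0 ≤ √C * ∑ q, L q := by positivity
  refine ⟨√C * ∑ q, L q, p0, fun A' hA a z hz v hv => ?_⟩
  have hh := herm h.dv (F := fun w => F (c.s a w)) (fun w => hF' _) v z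
  refine h.tp.dom r _ _ _ (g.pd _) hh (p0.trans hA) (le_trans ?_ (pow_le_pow_left₀ p0 hA 2))
  rw [mul_pow, Real.sq_sqrt C0]
  refine (hC _ _ (g.pd _) hh).2 (h1 a z hz) _ fun i j => ?_
  refine (ContinuousLinearMap.le_opNorm _ _).trans (le_trans ?_
    (Finset.single_le_sum (fun q _ => L0 q) (Finset.mem_univ (i, j))))
  exact (mul_le_mul ((hL (i, j) a).2.2.1.1 z hz) hv (norm_nonneg _) (L0 _)).trans_eq (mul_one _)

omit [DecidableEq ι] in
/-- the derivative of the right hand side. -/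
theorem dv_rh (h : DvS) (t l : ℝ) {A T F : V ι → Mat r} {z : V ι} (v : V ι) (hA : CM 1 A z)
    (hT : CM 1 T z) (hF : CM 1 F z) (h0 : (A z).det ≠ 0) :
    dv (fun w => (t : ℂ) • rh l (A w) (T w) (F w)) v z = (t : ℂ) • (rd1 l (A z) (F z) (dv F v z) -
      (l : ℂ) • (F z * ((A z)⁻¹ * dv A v z * (A z)⁻¹) * F z + dv A v z) + dv T v z) := by
  have c1 := (h.cm ι r 1 A A z hA hA).2.2.2.2.1 h0
  have c2 := (h.cm ι r 1 _ _ z hF c1).2.2.1
  have c3 := (h.cm ι r 1 _ _ z c2 hF).2.2.1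
  have c4 := (h.cm ι r 1 _ _ z c3 hA).2.1
  have c5 := (h.cm ι r 1 _ _ z c4 c4).2.2.2.1 (l : ℂ)
  have c6 := (h.cm ι r 1 _ _ z c5 hT).1
  unfold rh rd1
  rw [h.smul ι r _ _ v z c6, (h.add ι r _ _ v z c5 hT).1, h.smul ι r _ _ v z c4,
    (h.add ι r _ _ v z c3 hA).2, h.mul ι r _ _ v z c2 hF, h.mul ι r _ _ v z hF c1,
    h.inv ι r _ v z hA h0, ← smul_sub]
  congr 3
  noncomm_ring

theorem tp_smul (t : ℝ) (H A P : Mat r) : tp H ((t : ℂ) • A) P = t * tp H A P := by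
  simp [tp]

end CoGd

open CoGd in
theorem gdS [T2Space X] [CompactSpace X] [MeasurableSpace X] [BorelSpace X] [ConnectedSpace Y]
    {μ : Measure X} (h : Al) (hb : c.Bs) (hμ : c.M.IsVol c.g μ) (h1 : BoL) (h2 : BoA) (h3 : MvS)
    (h4 : c.C0S) (h5 : c.EnS μ) : c.GdS := by
  intro r _ _ ρ H0 l ref
  have : ConnectedSpace X := c.hq.surjective.connectedSpace c.hp.continuous
  have two : (2 : WithTop ℕ∞) ≤ ∞ := WithTop.coe_le_coe.2 (le_top (a := (2 : ℕ∞)))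
  have one : (1 : WithTop ℕ∞) ≤ ∞ := by exact_mod_cast le_top
  have g0 := ref.gd
  have T0s := (hb.m.sm r H0 g0.sm fun y => (g0.pd y).det_pos.ne').1
  have T0h : ∀ y, (c.ten H0 y).IsHermitian := fun y => by
    have := (hb.m.rs r H0 H0 (fun i j e he z hz s hs => (g0.sm i j e he z hz s hs).of_le two)
      g0.rs).1 y
    show (c.ten H0 y)ᵀ.map star = _
    rw [this.1, this.2]
  obtain ⟨L, -, hL⟩ := hb.a.ell
  obtain ⟨C1, C11, b1⟩ := h1 ι r L
  obtain ⟨A1, A10, d1⟩ := dom h hb g0 g0.sm fun y => (g0.pd y).1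
  obtain ⟨A2, A20, d2⟩ := dom h hb g0 T0s T0h
  obtain ⟨C2, C20, b2⟩ := h2 r l (A1 + A2) ref.one (by positivity)
  obtain ⟨C3, b3⟩ := h4 r ρ H0 l ref
  obtain ⟨E, b5⟩ := h5 r ρ H0 l ref
  set D := (Fintype.card (ι × Fin 2) : ℝ) * (C2 * |C3|) with hD
  have D0 : 0 ≤ D := by positivity
  obtain ⟨K, hK⟩ := h3 ι X c.M c.g μ c.C (2 * C1 + 2 * D) c.hg hμ (by linarith)
  refine ⟨|K| * (1 + |E|), fun t ht H sl y => ?_⟩
  have g := sl.1
  have dt := fun y => (g.pd y).det_pos.ne'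
  have inv := (hb.m.eqv r ρ H H g.eqv
    (fun i j e he z hz s hs => (g.sm i j e he z hz s hs).of_le two) dt).2.1
  have lf : ∀ y, c.en H (c.lf (c.p y)) = c.en H y := fun y => by
    obtain ⟨γ, e⟩ := hb.a.orb y
    rw [e, inv]
  have op : ∀ a, ∀ z ∈ c.B a, c.B a ∈ 𝓝 z := fun a z hz => isOpen_ball.mem_nhds hz
  have rd := fun a z (hz : z ∈ c.B a) => hb.m.rd2 r H H (fun _ _ => 0) _ (c.C.mem a) z
    (hb.a.sec a z hz).1 _ (hb.a.sec a z hz).2.1 (le1 (cm hb.a g.sm hz) two)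
  have bo := fun a z (hz : z ∈ c.B a) => b1 (c.Gc a) (fun w => H (c.s a w)) z
    ((hb.a.kon a).2 z hz) (fun i j => ((hL a).1 i j).1 z hz) (fun i j => ((hL a).2.1 i j).1 z hz)
    ((hb.a.kon a).1.1 z hz) (mem_of_superset (op a z hz) (hb.a.kon a).1.2.1) ((hL a).2.2 z hz)
    (cm hb.a g.sm hz) (.of_forall fun w => (g.pd _).1) (g.pd _)
  have e0 : ∀ y, 0 ≤ c.en H y := fun y => by
    obtain ⟨γ, a, z, -, hz, rfl⟩ := hb.a.cov y
    rw [inv, ← (rd a z hz).2.1]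
    exact (bo a z hz).2.1
  have ct := continuous_re.comp (hb.a.dsc ⊤ (fun y => (c.en H y : ℂ)) (fun γ y => by rw [inv])
    (hb.m.sm r H g.sm dt).2.1).2
  have key := hK (fun x => c.en H (c.lf x)) (fun a => fl fun w => H (c.s a w)) ct (fun x => e0 _)
    (fun a z hz => ?_) (c.p y)
  · rw [lf] at key
    have i0 : 0 ≤ ∫ x, c.en H (c.lf x) ∂μ := integral_nonneg fun x => e0 _
    exact key.trans (mul_le_mul (le_abs_self K)
      (by linarith [b5 t ht H sl, le_abs_self E]) (by linarith) (abs_nonneg K))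
  obtain ⟨a1, a2, a3, a4, a5⟩ := bo a z hz
  have f0 : 0 ≤ fl (fun w => H (c.s a w)) z := nonneg_of_mul_nonneg_right (a2.trans a3) (by linarith)
  rw [← (hb.a.sec a z hz).2.2, lf, ← (rd a z hz).2.1]
  refine ⟨a1, a3.trans (by gcongr; linarith),
    a4.trans (mul_le_mul_of_nonneg_right (by linarith) a2), ?_⟩
  have ev : ten (c.Gc a) (fun w => H (c.s a w)) =ᶠ[𝓝 z]
      fun w => (t : ℂ) • rh l (H0 (c.s a w)) (c.ten H0 (c.s a w)) (H (c.s a w)) :=
    mem_of_superset (op a z hz) fun w hw => (rd a w hw).1.trans (sl.2 _)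
  have sm := Finset.card_nsmul_le_sum Finset.univ _ (-(C2 * |C3|)) fun (q : ι × Fin 2) _ => show
      -(C2 * |C3|) ≤ tp (H (c.s a z)) (dv (ten (c.Gc a) fun w => H (c.s a w))
        (Pi.single q.1 (I ^ (q.2 : ℕ))) z)
        (dv (fun w => H (c.s a w)) (Pi.single q.1 (I ^ (q.2 : ℕ))) z) -
      (trace ((H (c.s a z))⁻¹ * ten (c.Gc a) (fun w => H (c.s a w)) z * ((H (c.s a z))⁻¹ *
        dv (fun w => H (c.s a w)) (Pi.single q.1 (I ^ (q.2 : ℕ))) z) * ((H (c.s a z))⁻¹ *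
        dv (fun w => H (c.s a w)) (Pi.single q.1 (I ^ (q.2 : ℕ))) z))).re from by
    have hv : ‖(Pi.single q.1 (I ^ (q.2 : ℕ)) : V ι)‖ ≤ 1 := by simp [Pi.norm_single]
    generalize (Pi.single q.1 (I ^ (q.2 : ℕ)) : V ι) = v at hv
    have := b2 _ _ (H (c.s a z)) _ _ _ (g0.pd _) (g.pd _) (T0h _)
      (herm h.dv (fun w => (g0.pd _).1) v z) (herm h.dv (fun w => T0h _) v z)
      (herm h.dv (F := fun w => H (c.s a w)) (fun w => (g.pd _).1) v z) (ref.dom _)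
      (d1 _ (by linarith) a z hz v hv) (d2 _ (by linarith) a z hz v hv)
    rw [(h.dv.congr ι r _ _ v z ev).eq_of_nhds, ev.eq_of_nhds, dv_rh h.dv t l v
      (le1 (cm hb.a g0.sm hz) one) (le1 (cm hb.a T0s hz) one) (le1 (cm hb.a g.sm hz) one)
      (g0.pd _).det_pos.ne', tp_smul, Matrix.mul_smul, Matrix.smul_mul, Matrix.smul_mul, trace_smul,
      smul_eq_mul, re_ofReal_mul, ← mul_sub]
    have b := mul_le_mul_of_nonneg_left ((b3 t ht H sl (c.s a z)).trans (le_abs_self C3)) C20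
    have := mul_le_mul_of_nonneg_left this ht.1.le
    linarith
  rw [nsmul_eq_mul, Finset.card_univ, mul_neg, ← hD] at sm
  change _ ≤ (lapL (c.Gc a) _ z).re
  nlinarith [mul_nonneg D0 f0]

end Pool.Agent.Lib.MP_813db1_ag.VH.Co
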