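import Pool.Agent.Lib.MP_813db1_ag.VH.CoStmt

/-! Irreducible representations are stable. -/

namespace Pool.Agent.Lib.MP_813db1_ag.VH.Co

open Pool.Agent.Lib.MP_813db1_ag.HS
open Complex Matrix Filter Topology Set Metric
open scoped ComplexOrder

namespace CoIrr

variable {G r : Type} [Group G] [Fintype r] [DecidableEq r]

omit [DecidableEq r] in
theorem closed : IsClosed {P : Mat r | P.PosSemidef} := by
  have := Complex.orderClosedTopology
  simp only [posSemidef_iff_dotProduct_mulVec, ofPred_and, ofPred_forall]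
  exact (isClosed_eq (by fun_prop) continuous_id).inter
    (isClosed_iInter fun x => isClosed_le continuous_const (by fun_prop))

/-- normalised admissible forms. -/
def Z (ρ : G →* Mat r) (C : G → ℝ) : Set (Mat r) :=
  {P | P.PosSemidef ∧ P.map star = P ∧ trace P = 1 ∧
    ∀ γ, ((C γ : ℂ) • P - (ρ γ)ᵀ * P * ρ γ).PosSemidef}

theorem cpt (ρ : G →* Mat r) (C : G → ℝ) : IsCompact (Z ρ C) := by
  refine (isCompact_univ_pi fun _ : r => isCompact_univ_pi fun _ : r =>
    isCompact_closedBall (0 : ℂ) 1).of_isClosed_subset ?_ fun P hP i _ j _ => ?_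
  · simp only [Z, ofPred_and, ofPred_forall]
    refine closed.inter ((isClosed_eq (continuous_id.matrix_map continuous_star)
      continuous_id).inter ((isClosed_eq (by fun_prop) continuous_const).inter
        (isClosed_iInter fun γ => closed.preimage
          (f := fun P : Mat r => (C γ : ℂ) • P - (ρ γ)ᵀ * P * ρ γ) (by fun_prop))))
  · have h : ∀ k, (P k k).re ≤ 1 := fun k => by
      have := Finset.single_le_sum (f := fun k => (P k k).re)
        (fun k _ => (Complex.nonneg_iff.1 hP.1.diag_nonneg).1) (Finset.mem_univ k)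
      rwa [← re_sum, show ∑ k, P k k = 1 from hP.2.2.1, one_re] at this
    have := Mat.ent hP.1 i j
    rw [mem_closedBall_zero_iff]
    linarith [h i, h j]

theorem pd {ρ : G →* Mat r} {C : G → ℝ} (h : Irr ρ) (hr : RealR ρ) {P : Mat r} (hP : P ∈ Z ρ C) :
    P.det ≠ 0 := by
  obtain ⟨h1, h2, h3, h4⟩ := hP
  suffices H : ReS (LinearMap.ker P.mulVecLin) ∧ Ivt ρ (LinearMap.ker P.mulVecLin) by
    rcases h _ H.1 H.2 with e | e
    · intro hd
      obtain ⟨v, hv, e1⟩ := exists_mulVec_eq_zero_iff.2 hd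
      exact hv ((Submodule.eq_bot_iff _).1 e v e1)
    · have : P = 0 := by
        ext i j
        have k : P *ᵥ Pi.single j 1 = 0 := (Submodule.eq_top_iff'.1 e (Pi.single j 1) :)
        simpa using congrFun k i
      rw [this, trace_zero] at h3
      exact absurd h3 zero_ne_one
  refine ⟨fun v hv => ?_, fun γ v hv => ?_⟩
  · have k : P *ᵥ v = 0 := hv
    change P *ᵥ star v = 0
    funext i
    have := congrArg star (congrFun k i)
    rw [← h2]
    simpa [mulVec, dotProduct] using this
  · have k : P *ᵥ v = 0 := hv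
    change P *ᵥ (ρ γ *ᵥ v) = 0
    have e : (ρ γ)ᵀ = (ρ γ)ᴴ := by
      rw [← Mat.map_ct, hr γ]
    have a1 := (h4 γ).dotProduct_mulVec_nonneg v
    rw [sub_mulVec, smul_mulVec, k, smul_zero, zero_sub, dotProduct_neg, e, ← mulVec_mulVec,
      ← mulVec_mulVec, dotProduct_mulVec, ← star_mulVec, neg_nonneg] at a1
    exact (h1.dotProduct_mulVec_zero_iff _).1 (le_antisymm a1 (h1.dotProduct_mulVec_nonneg _))

end CoIrr

open CoIrr in
theorem irrS : IrrS := by
  intro G r _ _ _ ρ C h hr
  rcases isEmpty_or_nonempty r with _ | _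
  · exact ⟨0, fun H _ _ _ => by simp [trace]⟩
  have hc : ContinuousOn (fun P : Mat r => (trace P⁻¹).re) (Z ρ C) := fun P hP => by
    have h1 : ContinuousAt (fun P : Mat r => P⁻¹) P := continuousAt_matrix_inv P (by
      rw [Ring.inverse_eq_inv']
      exact continuousAt_inv₀ (pd h hr hP))
    exact ((continuous_re.comp continuous_id.matrix_trace).continuousAt.comp h1).continuousWithinAt
  obtain ⟨K, hK⟩ := ((cpt ρ C).image_of_continuousOn hc).bddAbove
  refine ⟨K, fun H h1 h2 h3 => ?_⟩
  obtain ⟨t0, t1⟩ := Complex.pos_iff.1 h1.trace_pos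
  have e : trace H = ((trace H).re : ℂ) := Complex.ext rfl t1.symm
  generalize (trace H).re = t at t0 e
  have n0 : (t : ℂ) ≠ 0 := ofReal_ne_zero.2 t0.ne'
  have p0 : (0 : ℂ) ≤ (t : ℂ)⁻¹ := by
    rw [← ofReal_inv]
    exact zero_le_real.2 (inv_pos.2 t0).le
  have hZ : (t : ℂ)⁻¹ • H ∈ Z ρ C := by
    refine ⟨h1.posSemidef.smul p0, ?_, by rw [trace_smul, e, smul_eq_mul, inv_mul_cancel₀ n0],
      fun γ => ?_⟩
    · ext i j
      have := congrFun₂ h2 i j
      simp only [map_apply] at this
      rw [map_apply, Matrix.smul_apply, star_smul, this, ← ofReal_inv, star_def, conj_ofReal]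
    · have := (h3 γ).smul p0
      rwa [smul_sub, smul_comm, ← Matrix.smul_mul, ← Matrix.mul_smul] at this
  have := hK ⟨_, hZ, rfl⟩
  have hi : ((t : ℂ)⁻¹ • H)⁻¹ = (t : ℂ) • H⁻¹ := inv_eq_left_inv (by
    rw [Matrix.smul_mul, Matrix.mul_smul, smul_smul, mul_inv_cancel₀ n0, one_smul,
      nonsing_inv_mul _ ((isUnit_iff_isUnit_det _).1 h1.isUnit)])
  simpa [hi] using this

end Pool.Agent.Lib.MP_813db1_ag.VH.Co
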