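import Pool.Agent.Lib.MP_813db1_ag.VH.CoStmt

/-! The linearised equation. -/

namespace Pool.Agent.Lib.MP_813db1_ag.VH.Co

open Pool.Agent.Lib.MP_813db1_ag.HS Pool.Agent.Lib.MP_813db1_ag.AS
open MeasureTheory Complex Matrix Filter Topology Set Metric
open scoped ContDiff ComplexOrder

namespace CoLn

section Alg

variable {r : Type} [Fintype r] [DecidableEq r]

omit [Fintype r] [DecidableEq r] in
theorem herm {P : Mat r} (h : RS P) : P.IsHermitian := by
  show (Pᵀ).map star = P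
  rw [h.1, h.2]

omit [DecidableEq r] in
theorem star_mul' (A B : Mat r) : (A * B).map star = A.map star * B.map star :=
  Matrix.map_mul (f := starRingEnd ℂ)

theorem rs_inv {P : Mat r} (h : RS P) : RS P⁻¹ := by
  have h1 : (P⁻¹)ᵀ = P⁻¹ := by rw [transpose_nonsing_inv, h.1]
  refine ⟨h1, ?_⟩
  have h2 : ((P⁻¹)ᵀ).map star = P⁻¹ := (herm h).inv
  rwa [h1] at h2

omit [Fintype r] [DecidableEq r] in
theorem rs_sub {P Q : Mat r} (t : ℝ) (h : RS P) (k : RS Q) : RS (P - (t : ℂ) • Q) := by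
  refine ⟨by rw [transpose_sub, transpose_smul, h.1, k.1], ?_⟩
  ext i j
  have a := congrFun (congrFun h.2 i) j
  have b := congrFun (congrFun k.2 i) j
  simp only [map_apply] at a b
  simp only [map_apply, Matrix.sub_apply, Matrix.smul_apply, smul_eq_mul, star_sub, star_mul, a, b]
  simp [mul_comm]

theorem rs_rd1 (l : ℝ) {H0 H P : Mat r} (a : RS H0) (b : RS H) (c : RS P) : RS (rd1 l H0 H P) := by
  have a' := rs_inv a
  refine ⟨?_, ?_⟩
  · rw [rd1, transpose_smul, transpose_add]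
    simp only [transpose_mul, a'.1, b.1, c.1, Matrix.mul_assoc]
    rw [add_comm]
  · have e : (P * H0⁻¹ * H + H * H0⁻¹ * P).map star = P * H0⁻¹ * H + H * H0⁻¹ * P := by
      rw [Matrix.map_add _ (star_add)]
      simp only [star_mul', a'.2, b.2, c.2]
    ext i j
    have := congrFun (congrFun e i) j
    simp only [map_apply] at this
    simp only [rd1, map_apply, Matrix.smul_apply, smul_eq_mul, star_mul, this]
    simp [mul_comm]

theorem inv_conj {A B : Mat r} (h : A * B = 1) (H : Mat r) :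
    (Aᵀ * H * A)⁻¹ = B * H⁻¹ * Bᵀ := by
  rw [Matrix.mul_inv_rev, Matrix.mul_inv_rev, ← transpose_nonsing_inv, inv_eq_right_inv h,
    Matrix.mul_assoc]

theorem tp_conj {A B : Mat r} (h : A * B = 1) (H P Q : Mat r) :
    tp (Aᵀ * H * A) (Aᵀ * P * A) (Aᵀ * Q * A) = tp H P Q := by
  have h1 : Bᵀ * Aᵀ = 1 := by rw [← transpose_mul, h, transpose_one]
  have e : ∀ R : Mat r, B * H⁻¹ * Bᵀ * (Aᵀ * R * A) = B * (H⁻¹ * R) * A := fun R => by
    simp only [Matrix.mul_assoc]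
    rw [← Matrix.mul_assoc Bᵀ, h1, Matrix.one_mul]
  rw [tp, tp, inv_conj h, e, e]
  have : B * (H⁻¹ * P) * A * (B * (H⁻¹ * Q) * A) = B * (H⁻¹ * P * (H⁻¹ * Q)) * A := by
    simp only [Matrix.mul_assoc]
    rw [← Matrix.mul_assoc A, h, Matrix.one_mul]
  rw [this, trace_mul_cycle, h, Matrix.one_mul]

theorem rd1_conj {A B : Mat r} (h : A * B = 1) (l : ℝ) (H0 H P : Mat r) :
    rd1 l (Aᵀ * H0 * A) (Aᵀ * H * A) (Aᵀ * P * A) = Aᵀ * rd1 l H0 H P * A := by
  have h1 : Bᵀ * Aᵀ = 1 := by rw [← transpose_mul, h, transpose_one]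
  have e : ∀ R S : Mat r, Aᵀ * R * A * (B * H0⁻¹ * Bᵀ) * (Aᵀ * S * A) =
      Aᵀ * (R * H0⁻¹ * S) * A := fun R S => by
    simp only [Matrix.mul_assoc]
    rw [← Matrix.mul_assoc Bᵀ, h1, Matrix.one_mul, ← Matrix.mul_assoc A, h, Matrix.one_mul]
  rw [rd1, rd1, inv_conj h, e, e, Matrix.mul_smul, Matrix.smul_mul, Matrix.mul_add,
    Matrix.add_mul]

theorem tp_comm (H P Q : Mat r) : tp H P Q = tp H Q P := by rw [tp, tp, trace_mul_comm]

theorem tp_sub (H P Q R : Mat r) (t : ℝ) :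
    tp H (P - (t : ℂ) • Q) R = tp H P R - t * tp H Q R := by
  simp only [tp, Matrix.mul_sub, Matrix.sub_mul, Matrix.mul_smul, Matrix.smul_mul, trace_sub,
    trace_smul, sub_re, smul_eq_mul, re_ofReal_mul]

theorem exists_bd (g : Mat r) : ∃ L, Bd L g ∧ Bd L g⁻¹ := by
  obtain ⟨a, ha⟩ := (Set.finite_range fun q : r × r => ‖g q.1 q.2‖).bddAbove
  obtain ⟨b, hb⟩ := (Set.finite_range fun q : r × r => ‖g⁻¹ q.1 q.2‖).bddAbove
  exact ⟨max a b, fun i j => (ha ⟨(i, j), rfl⟩).trans (le_max_left _ _),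
    fun i j => (hb ⟨(i, j), rfl⟩).trans (le_max_right _ _)⟩

end Alg

section Loc

variable {ι r : Type} [Fintype ι] [DecidableEq ι] [Fintype r] [DecidableEq r]

omit [Fintype r] [DecidableEq r] in
theorem dR_add (h : DvS) {F K : V ι → Mat r} {z : V ι} (a : CM 1 F z) (b : CM 1 K z) (k : ι) :
    dR (fun w => F w + K w) k z = dR F k z + dR K k z ∧
      dRb (fun w => F w + K w) k z = dRb F k z + dRb K k z := by
  simp only [(h.dR ι r _ k z).1, (h.dR ι r _ k z).2, (h.add ι r F K _ z a b).1]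
  constructor <;> module

omit [Fintype r] [DecidableEq r] in
theorem dR_smul (h : DvS) {F : V ι → Mat r} {z : V ι} (a : CM 1 F z) (t : ℂ) (k : ι) :
    dR (fun w => t • F w) k z = t • dR F k z ∧ dRb (fun w => t • F w) k z = t • dRb F k z := by
  simp only [(h.dR ι r _ k z).1, (h.dR ι r _ k z).2, h.smul ι r t F _ z a]
  constructor <;> module

theorem low_add (h : DvS) (G : V ι → Mat ι) (H : V ι → Mat r) {F K : V ι → Mat r} {z : V ι}
    (a : CM 1 F z) (b : CM 1 K z) :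
    low G H (fun w => F w + K w) z = low G H F z + low G H K z := by
  simp only [low, qM, (dR_add h a b _).1, (dR_add h a b _).2, Matrix.mul_add, Matrix.add_mul,
    smul_add, Finset.sum_add_distrib]
  abel

theorem low_smul (h : DvS) (G : V ι → Mat ι) (H : V ι → Mat r) {F : V ι → Mat r} {z : V ι}
    (a : CM 1 F z) (t : ℂ) : low G H (fun w => t • F w) z = t • low G H F z := by
  simp only [low, qM, (dR_smul h a t _).1, (dR_smul h a t _).2, Matrix.mul_smul, Matrix.smul_mul,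
    ← smul_add, smul_comm _ t, ← Finset.smul_sum, smul_sub]

omit [DecidableEq ι] [Fintype r] [DecidableEq r] in
theorem dv_herm (h : DvS) {F : V ι → Mat r} (a : ∀ w, (F w).IsHermitian) (v z : V ι) :
    (dv F v z).IsHermitian := by
  have := (h.ct ι r F v z).1
  rw [show (fun w => (F w)ᴴ) = F from funext a] at this
  exact this.symm

theorem pw (h : Al) (h1 : PwB) (h2 : MpA) {G : V ι → Mat ι} {H P : V ι → Mat r} {z : V ι}
    {H0 T0 : Mat r} {l t : ℝ} (hG : (G z).PosDef) (a : CM 2 H z) (b : CM 2 P z)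
    (hH : ∀ w, (H w).PosDef) (hP : ∀ w, (P w).IsHermitian) (hl : 1 ≤ l) (ht : 0 ≤ t)
    (p0 : H0.PosDef) (hT : T0.IsHermitian) (hD : Dom (l - 1) H0 T0)
    (e : ten G H z = (t : ℂ) • rh l H0 T0 (H z)) :
    tp (H z) (P z) (lM G P z + (low G H P z - (t : ℂ) • rd1 l H0 (H z) (P z))) ≤
      (lapL G (fun w => (tp (H w) (P w) (P w) : ℂ)) z).re / 2 - 2 * t * tp (H z) (P z) (P z) := by
  obtain ⟨L, b1, b2⟩ := exists_bd (G z)
  obtain ⟨C, -, hC⟩ := h.fr ι L
  obtain ⟨f, hf⟩ := hC _ hG b1 b2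
  have k1 := h1 ι r G H P z C f hf a b (Eventually.of_forall fun w => ⟨(hH w).1, hP w⟩) (hH z)
  have k2 := mul_le_mul_of_nonneg_left (h2 r l H0 T0 (H z) (P z) hl p0 (hH z) hT (hP z) hD) ht
  have k3 : 0 ≤ ∑ b, tp (H z) (dv P (f b) z - (1 / 2 : ℂ) • (dv H (f b) z * (H z)⁻¹ * P z +
        P z * (H z)⁻¹ * dv H (f b) z)) (dv P (f b) z - (1 / 2 : ℂ) •
          (dv H (f b) z * (H z)⁻¹ * P z + P z * (H z)⁻¹ * dv H (f b) z)) := by
    refine Finset.sum_nonneg fun q _ => h.tp.nn r _ _ (hH z) ?_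
    have a1 : (dv P (f q) z)ᴴ = _ := dv_herm h.dv hP (f q) z
    have a2 : (dv H (f q) z)ᴴ = _ := dv_herm h.dv (fun w => (hH w).1) (f q) z
    have a3 : ((H z)⁻¹)ᴴ = _ := (hH z).1.inv
    have a4 : (P z)ᴴ = _ := hP z
    show _ᴴ = _
    simp only [conjTranspose_sub, conjTranspose_smul, conjTranspose_add, conjTranspose_mul, a1, a2,
      a3, a4, Matrix.mul_assoc]
    rw [add_comm]
    simp
  rw [e] at k1
  simp only [Matrix.mul_smul, Matrix.smul_mul, trace_smul, smul_eq_mul, re_ofReal_mul] at k1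
  rw [tp_comm, ← add_sub_assoc, tp_sub]
  nlinarith

theorem hol (h : HmS) (L1 L C0 l : ℝ) (hL : 0 ≤ L) (h0 : 0 ≤ C0) (hl : 0 ≤ l) :
    ∃ K ≥ (0 : ℝ), ∀ (U : Set (V ι)) (G : V ι → Mat ι) (H0 H P : V ι → Mat r) (t B : ℝ),
    IsOpen U → 0 ≤ B → t ∈ Icc (0 : ℝ) 1 → HolM L1 (fun z => (G z)⁻¹) U →
    HM C0 (fun z => (H0 z)⁻¹) U → HM1 L H U → (∀ z ∈ U, (H z).det ≠ 0 ∧ Bd L (H z)⁻¹) →
    HM1 B P U → HM (K * B) (fun z => low G H P z - (t : ℂ) • rd1 l (H0 z) (H z) (P z)) U := by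
  obtain ⟨Ci, i0, hi⟩ := h.inv ι r L
  obtain ⟨Cq, q0, hq⟩ := h.q ι r L1
  set n : ℝ := (Fintype.card r : ℝ) with hn
  have n0 : 0 ≤ n := Nat.cast_nonneg _
  refine ⟨Cq * (L * (2 * n * (2 * n * Ci) * Ci) * L) + Cq * (Ci * L) + Cq * (L * Ci) +
    l * (2 * n * (2 * n * C0) * L + 2 * n * (2 * n * L * C0)), by positivity,
    fun U G H0 H P t B hU hB ht hG a0 a1 a2 a3 i j => ?_⟩
  have b1 : HM L H U := fun i j => (a1 i j).2.1
  have b3 : HM B P U := fun i j => (a3 i j).2.1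
  have b2 := (hi U H hU a2).1 b1
  have m := fun a b F K => (h.mul ι r U a b F K).1
  have t1 := hq U G H H _ _ _ _ hG a1 a1 (m _ _ _ _ (m _ _ _ _ b2 b3) b2) i j
  have t2 := hq U G P H _ _ _ _ hG a3 a1 b2 i j
  have t3 := hq U G H P _ _ _ _ hG a1 a3 b2 i j
  have t4 := ((m _ _ _ _ (m _ _ _ _ b3 a0) b1 i j).add
    (m _ _ _ _ (m _ _ _ _ b1 a0) b3 i j)).const_mul ((t * l : ℝ) : ℂ)
  refine ((((t1.sub t2).sub t3).sub t4).congr fun z _ => ?_).mono ?_
  · simp only [low, rd1, Matrix.sub_apply, Matrix.smul_apply, Matrix.add_apply, smul_eq_mul]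
    push_cast
    ring
  · rw [norm_real, Real.norm_of_nonneg (mul_nonneg ht.1 hl), ← hn]
    have : 0 ≤ (1 - t) * l * ((2 * n * (2 * n * C0) * L + 2 * n * (2 * n * L * C0)) * B) :=
      mul_nonneg (mul_nonneg (sub_nonneg.2 ht.2) hl) (by positivity)
    linarith

end Loc

variable {ι X Y G : Type} [Fintype ι] [DecidableEq ι] [TopologicalSpace X] [TopologicalSpace Y]
  [Group G] [MulAction G Y] {c : Sx ι X Y G} {r : Type} [Fintype r] [DecidableEq r]

omit [Fintype r] [DecidableEq r] in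
theorem ck_le {H : Y → Mat r} {k n : WithTop ℕ∞} (h : c.CkM n H) (e : k ≤ n) : c.CkM k H :=
  fun i j f hf z hz s hs => (h i j f hf z hz s hs).of_le e

omit [DecidableEq r] in
theorem ck2 (hb : c.Bs) {b : Bu G (r × r)} {v : Y → r × r → ℂ} {N : ℝ} (h : b.Sec v)
    (h2 : c.H2 N v) : c.CkM 2 fun x => mt (v x) := fun i j =>
  hb.b.ck _ b 2 v h (fun a k z hz => (h2 a k).1 z hz) (i, j)

omit [Fintype r] [DecidableEq r] in
theorem cm (hb : c.Bs) {H : Y → Mat r} {k : WithTop ℕ∞} (h : c.CkM k H) (y : Y) :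
    CM k (c.rd H y) (c.pt y) := fun i j => hb.a.at_ k _ y (h i j)

theorem rd_self (hb : c.Bs) {α : Type} (f : Y → α) (y : Y) : c.rd f y (c.pt y) = f y :=
  congrArg f (hb.a.self y).2.2

theorem low_eq (hb : c.Bs) (H P : Y → Mat r) (y : Y) :
    c.low H P y = low (c.Gp y) (c.rd H y) (c.rd P y) (c.pt y) := by
  rw [low, rd_self hb, rd_self hb]; rfl

theorem ten_eq (hb : c.Bs) (H : Y → Mat r) (y : Y) :
    c.ten H y = ten (c.Gp y) (c.rd H y) (c.pt y) := by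
  rw [ten, rd_self hb]; rfl

theorem rho (ρ : G →* Mat r) (γ : G) : ρ γ⁻¹ * ρ γ = 1 := by simp [← map_mul]

end CoLn

open CoLn

variable {ι X Y G : Type} [Fintype ι] [DecidableEq ι] [TopologicalSpace X] [TopologicalSpace Y]
  [Group G] [MulAction G Y] {c : Sx ι X Y G}

theorem lnS (h : Al) (hb : c.Bs) (h1 : PwB) (h2 : MpA) : c.LnS := by
  intro r _ _ ρ H0 l L b hR hB
  have two : (2 : WithTop ℕ∞) ≤ ∞ := WithTop.coe_le_coe.2 (le_top (a := (2 : ℕ∞)))
  have hS := (hb.m.bs r ρ).2.2 b hB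
  have op : ∀ a, IsOpen (c.B a) := fun a => isOpen_ball
  have z0 : ∀ a, (0 : V ι) ∈ c.B a := fun a => mem_ball_self (by linarith [c.C.pos a])
  obtain ⟨L1, -, e1⟩ := hb.a.ell
  obtain ⟨-, -, -, ⟨La, -, a1⟩, Lb, a2⟩ :=
    hb.m.sm r H0 hR.gd.sm fun y => (hR.gd.pd y).det_pos.ne'
  obtain ⟨C0, c0, i0⟩ := h.hm.inv ι r (max La Lb)
  have a0 : ∀ a, HM C0 (fun z => (H0 (c.s a z))⁻¹) (c.B a) := fun a =>
    (i0 _ _ (op a) fun z hz => ⟨(hR.gd.pd _).det_pos.ne',
      fun i j => (a2 a z hz i j).trans (le_max_right _ _)⟩).1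
      fun i j => (a1 a i j).2.1.mono (le_max_left _ _)
  obtain ⟨K, k0, hK⟩ := hol (ι := ι) (r := r) h.hm L1 |L| C0 l (abs_nonneg L) c0
    (by linarith [hR.one])
  obtain ⟨Ci, -, hi⟩ := h.hm.inv ι r L
  obtain ⟨Cp, -, hp⟩ := h.tp.krp r L
  refine ⟨max K (max (8 * Ci * Ci) Cp), fun H hH m2 bi => ?_⟩
  have dt : ∀ y, (H y).det ≠ 0 := fun y => (hH.pd y).det_pos.ne'
  have kr' := fun y => h.tp.kr r (H y) (hH.pd y)
  have H2 := ck_le hH.sm two
  refine ⟨⟨fun y => (kr' y).1, fun y => (kr' y).2.1, fun γ y u hu v hv => ?_, fun a q q' => ?_,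
    fun a z hz u => ?_⟩, fun t ht => ⟨⟨fun v N s n => ?_, fun v w N N' s s' n n' => ?_,
      fun x v N s n => ?_, fun v N B s n n1 a k => ?_⟩, fun hs v N s n y => ?_⟩⟩
  · have p1 := herm ((hB.2 _).1 (b.inv γ u hu))
    rw [hB.1] at p1
    replace p1 : ((ρ γ⁻¹)ᵀ * mt u * ρ γ⁻¹).IsHermitian := p1
    rw [hB.1, hB.1, (kr' _).2.2 _ _ p1, hH.eqv, tp_conj (rho ρ γ)]
    exact ((kr' y).2.2 _ _ (herm ((hB.2 u).1 hu))).symm
  · have := (hi _ _ (op a) fun z hz => ⟨dt _, bi a z hz⟩).2.2 (m2 a)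
    exact ((this q.1 q'.1).mul (this q'.2 q.2)).mono
      ((le_max_left _ _).trans (le_max_right _ _))
  · refine (hp _ (hH.pd _) (fun i j => (m2 a i j).2.1.1 z hz) u).trans ?_
    exact mul_le_mul_of_nonneg_right ((le_max_right _ _).trans (le_max_right _ _))
      ((kr' _).2.1 u)
  · obtain ⟨s1, s2⟩ := (hS v).1 s
    have q1 := (hb.m.eqv r ρ H _ hH.eqv H2 dt).2.2.1 s1 (ck_le (ck2 hb s n) one_le_two)
    have q2 := (hb.m.rs r H _ H2 hH.rs).2.1 s2
    refine (hS _).2 ⟨fun γ y => ?_, fun y => rs_sub t (q2 y) (rs_rd1 l (hR.gd.rs y) (hH.rs y) (s2 y))⟩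
    show c.low H _ (γ • y) - (t : ℂ) • rd1 l (H0 (γ • y)) (H (γ • y)) (mt (v (γ • y))) =
      _ * (c.low H _ y - (t : ℂ) • rd1 l (H0 y) (H y) (mt (v y))) * _
    have s3 : mt (v (γ • y)) = _ := s1 γ y
    rw [q1, hR.gd.eqv, hH.eqv, s3, rd1_conj (rho ρ γ), Matrix.mul_sub,
      Matrix.sub_mul, Matrix.mul_smul, Matrix.smul_mul]
  · funext y
    have := low_add h.dv (c.Gp y) (c.rd H y) (cm hb (ck_le (ck2 hb s n) one_le_two) y)
      (cm hb (ck_le (ck2 hb s' n') one_le_two) y)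
    rw [← low_eq hb, ← low_eq hb] at this
    have e : c.low H (fun x => mt ((v + w) x)) y = _ := (low_eq hb _ _ y).trans this
    have e' : mt ((v + w) y) = mt (v y) + mt (w y) := rfl
    show vec _ = vec (_ + _)
    rw [e, e']
    congr 1
    simp only [rd1, Matrix.mul_add, Matrix.add_mul]
    module
  · funext y
    have := low_smul h.dv (c.Gp y) (c.rd H y) (cm hb (ck_le (ck2 hb s n) one_le_two) y) x
    rw [← low_eq hb] at this
    have e : c.low H (fun y => mt ((x • v) y)) y = _ := (low_eq hb _ _ y).trans this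
    have e' : mt ((x • v) y) = (x : ℂ) • mt (v y) := rfl
    show vec _ = vec ((x : ℂ) • _)
    rw [e, e']
    congr 1
    simp only [rd1, Matrix.mul_smul, Matrix.smul_mul]
    module
  · have b0 : 0 ≤ B := (n1 a k).2.1.nonneg (z0 a)
    have := hK _ (c.Gc a) (fun z => H0 (c.s a z)) (fun z => H (c.s a z))
      (fun z => mt (v (c.s a z))) t B (op a) b0 ht (e1 a).2.1 (a0 a)
      (fun i j => ((m2 a i j).mono (le_abs_self L)).hol1)
      (fun z hz => ⟨dt _, fun i j => (bi a z hz i j).trans (le_abs_self L)⟩)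
      (fun i j => n1 a (i, j)) k.1 k.2
    refine (this.congr fun z hz => ?_).mono (mul_le_mul_of_nonneg_right (le_max_left _ _) b0)
    obtain ⟨s1, s2, -⟩ := hb.a.sec a z hz
    have e := (hb.m.rd2 r H (fun x => mt (v x)) (fun _ => 0) _ (c.C.mem a) z s1 _ s2
      fun i j => (m2 a i j).1 z hz).2.2.1 fun i j => ((n a (i, j)).1 z hz).of_le one_le_two
    simp only [Sx.Gc, e]
    rfl
  · obtain ⟨-, s2⟩ := (hS v).1 s
    have e : ∀ x Q, ip (kr (H x)) (v x) (vec Q) = tp (H x) (mt (v x)) Q := fun x Q =>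
      (kr' x).2.2 _ Q (herm (s2 x))
    have e' : ∀ x, ip (kr (H x)) (v x) (v x) = tp (H x) (mt (v x)) (mt (v x)) :=
      fun x => e x (mt (v x))
    have := pw h h1 h2 (hb.a.gp y) (cm hb H2 y) (cm hb (ck2 hb s n) y) (fun w => hH.pd _)
      (fun w => herm (s2 _)) hR.one ht.1 (hR.gd.pd y)
      (herm ((hb.m.rs r H0 H0 (ck_le hR.gd.sm two) hR.gd.rs).1 y)) (hR.dom y)
      (by rw [← ten_eq hb, rd_self hb]; exact hs.2 y)
    rw [← low_eq hb, rd_self hb, rd_self hb] at this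
    simp only [e']
    exact (e y (c.lM (fun x => mt (v x)) y + (c.low H (fun x => mt (v x)) y -
      (t : ℂ) • rd1 l (H0 y) (H y) (mt (v y))))).le.trans this

end Pool.Agent.Lib.MP_813db1_ag.VH.Co
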