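import Pool.Agent.Lib.MP_813db1_ag.VH.CoStmt
import Pool.Agent.Lib.MP_813db1_ag.AS.Iter
import Pool.Agent.Lib.MP_813db1_ag.AS.TailAll

/-! The mean value inequality. -/

set_option linter.unusedSectionVars false

namespace Pool.Agent.Lib.MP_813db1_ag.VH.Co

open Pool.Agent.Lib.MP_813db1_ag.HS Pool.Agent.Lib.MP_813db1_ag.AS
open MeasureTheory Complex Matrix Filter Topology Set Metric
open scoped ContDiff ComplexOrder

namespace Mv

variable {ι X : Type} [Fintype ι] [DecidableEq ι] [TopologicalSpace X] [T2Space X]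
  [CompactSpace X] {M : Atl ι X} {g : X → Mat ι}

theorem cut {e : Ch ι X} {r : ℝ} (hr : 0 < r) (hs : closedBall 0 r ⊆ e.target) :
    ∃ β : X → ℝ, M.Ck ∞ β ∧ (∀ x, β x ≤ 1) ∧ tsupport β ⊆ e.source ∩ e ⁻¹' ball 0 (2 * r) ∧
      ∀ x ∈ e.source, ‖e x‖ < r → β x = 1 := by
  have hK : IsCompact (e.symm '' closedBall 0 r) :=
    (isCompact_closedBall 0 r).image_of_continuousOn (e.continuousOn_symm.mono hs)
  obtain ⟨χ, h1, h2⟩ := pou AY.repA' AY.repB' ι X M Bool
    (fun b => if b then e.source ∩ e ⁻¹' ball 0 (2 * r) else (e.symm '' closedBall 0 r)ᶜ)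
    (fun b => by
      cases b
      exacts [hK.isClosed.isOpen_compl, e.isOpen_inter_preimage isOpen_ball])
    fun x => by
      by_cases h : x ∈ e.symm '' closedBall 0 r
      · obtain ⟨z, hz, rfl⟩ := h
        refine ⟨true, e.map_target (hs hz), ?_⟩
        rw [mem_preimage, e.right_inv (hs hz)]
        exact closedBall_subset_ball (by linarith) hz
      · exact ⟨false, h⟩
  simp only [Fintype.sum_bool] at h2
  refine ⟨χ true, (h1 true).1, fun x => by linarith [h2 x, (h1 false).2.1 x], (h1 true).2.2,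
    fun x hx h => ?_⟩
  have : χ false x = 0 := image_eq_zero_of_notMem_tsupport fun k =>
    (h1 false).2.2 k ⟨e x, mem_closedBall_zero_iff.2 h.le, e.left_inv hx⟩
  linarith [h2 x]

theorem barr {u Ψ : X → ℝ} {e : Ch ι X} (he : e ∈ M.A) {y : X} (hy : y ∈ e.source) {A : ℝ}
    (h : ContDiffAt ℝ 2 (fn u e) (e y)) (h1 : u y = Ψ y) (h2 : ∀ᶠ x in 𝓝 y, u x ≤ Ψ x)
    (h3 : -A ≤ (lapL (M.repF g e) (fn u e) (e y)).re) : Barr M g Ψ A y := by
  have k := (M.ch y).left_inv (M.mem y)
  have t : Tendsto (M.ch y).symm (𝓝 (M.ch y y)) (𝓝 y) := (M.ch y).tendsto_symm (M.mem y)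
  refine ⟨fun z => u ((M.ch y).symm z), contDiffAt_ofReal.1 ?_, by simp only [k, h1],
    t.eventually h2, h3.trans_eq ((AY.repB' ι X M).lap_rep g u e he y hy h)⟩
  have a := (M.hol _ (M.ch_mem y) e he y (M.mem y) hy).contDiffAt (n := 2)
  refine (ContDiffAt.comp (M.ch y y) (g := fn u e) (by simpa only [Function.comp, k] using h)
    (a.restrict_scalars ℝ)).congr_of_eventuallyEq ?_
  filter_upwards [t.eventually (e.open_source.mem_nhds hy)] with z hz
  simp only [fn, Function.comp, e.left_inv hz]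

variable [ConnectedSpace X] [MeasurableSpace X] [BorelSpace X] {μ : Measure X}

theorem one [Nonempty ι] (hK : M.IsK g) (hμ : M.IsVol g μ) {L : ℝ} (hL : 1 ≤ L) {c : Ch ι X}
    (hc : c ∈ M.A) {r : ℝ} (hr : 0 < r) (hs : closedBall 0 (2 * r) ⊆ c.target) :
    ∃ K ≥ (0 : ℝ), ∀ (e : X → ℝ) (S : V ι → ℝ) (x0 : X), Continuous e → (∀ x, 0 ≤ e x) →
      (∀ z ∈ ball (0 : V ι) (2 * r), ContDiffAt ℝ 2 S z ∧ e (c.symm z) ≤ L * S z ∧
        S z ≤ L * e (c.symm z) ∧ -(L * (S z + 1)) ≤ (lapL (M.repF g c) (fun w => (S w : ℂ)) z).re) →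
      (∀ x, e x ≤ e x0) → 1 ≤ e x0 → x0 ∈ c.source → ‖c x0‖ < r → e x0 ≤ K * ∫ y, e y ∂μ := by
  have hA := AY.repA' ι X M
  have hB := AY.repB' ι X M
  have := ((AY.volS' ι X M g hK).2 μ hμ).fin
  have := ((AY.volS' ι X M g hK).2 μ hμ).pos
  have hp : 0 < μ.real univ :=
    ENNReal.toReal_pos (isOpen_univ.measure_ne_zero μ univ_nonempty) (measure_ne_top μ _)
  obtain ⟨β, b1, b2, b3, b4⟩ := cut (M := M) hr
    ((closedBall_subset_closedBall (by linarith)).trans hs)
  obtain ⟨T, hT⟩ := isCompact_univ.exists_bound_of_continuousOn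
    (Den.cont hA (hB.ck_lap g β β hK b1 b1).1).continuousOn
  have T0 : 0 ≤ T := (norm_nonneg _).trans (hT (Classical.arbitrary X) trivial)
  obtain ⟨a, ha, B, hB0, ht⟩ := tailS ι X M g μ 1 hK hμ
  have s0 : 0 < 1 / (4 * L) := by positivity
  obtain ⟨φ, hφ, hi⟩ := Iter.iter M (A := L * (L + 1) + (L + 1) * T) (by positivity) ha
    (div_pos hB0 hp) s0
  refine ⟨4 * L ^ 2 / (φ * μ.real univ), by positivity, fun e S x0 ce e0 hS hm m1 x1 x2 => ?_⟩
  set m := e x0
  have m0 : 0 < m := by linarith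
  set O := c.source ∩ c ⁻¹' ball 0 (2 * r)
  have hO : IsOpen O := c.isOpen_inter_preimage isOpen_ball
  let u : X → ℝ := fun y => m⁻¹ * S (c y) + (L + 1) * β y - (L + 1)
  let Ψ : X → ℝ := O.indicator fun y => max 0 (u y)
  have hS' : ∀ y ∈ O, e y ≤ L * S (c y) ∧ S (c y) ≤ L * e y := fun y hy => by
    simpa only [c.left_inv hy.1] using (⟨(hS _ hy.2).2.1, (hS _ hy.2).2.2.1⟩ : _ ∧ _)
  have u1 : ∀ y ∈ O, m⁻¹ * S (c y) ≤ L := fun y hy => by
    rw [inv_mul_le_iff₀ m0]
    nlinarith [(hS' y hy).2, hm y]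
  have Ψ0 : ∀ y, 0 ≤ Ψ y := fun y => indicator_nonneg (fun _ _ => le_max_left _ _) y
  have ev : ∀ y ∈ O, ∀ᶠ x in 𝓝 y, Ψ x = max 0 (u x) := fun y hy =>
    (hO.eventually_mem hy).mono fun x hx => indicator_of_mem hx _
  have cΨ : Continuous Ψ := continuous_iff_continuousAt.2 fun y => by
    by_cases hy : y ∈ O
    · have h1 : ContinuousAt (fun y => S (c y)) y :=
        (hS _ hy.2).1.continuousAt.comp (c.continuousAt hy.1)
      have h2 := (Den.cont hA b1).continuousAt (x := y)
      have h3 : ContinuousAt u y :=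
        ((continuousAt_const.mul h1).add (continuousAt_const.mul h2)).sub continuousAt_const
      exact ContinuousAt.congr (((continuous_const.max continuous_id).continuousAt).comp h3)
        ((ev y hy).mono fun _ h => h.symm)
    · refine (continuousAt_const (y := (0 : ℝ))).congr ?_
      filter_upwards [notMem_tsupport_iff_eventuallyEq.1 fun h => hy (b3 h)] with x hx
      by_cases h : x ∈ O
      · refine ((indicator_of_mem h fun y => max 0 (u y)).trans (max_eq_left ?_)).symm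
        simp only [u, hx, Pi.zero_apply]
        linarith [u1 x h]
      · exact (indicator_of_notMem h _).symm
  have top : ∀ y, 1 / (4 * L) ≤ Ψ y → y ∈ O ∧ u y = Ψ y := fun y h => by
    have hy : y ∈ O := by
      by_contra k
      exact absurd (h.trans_eq (indicator_of_notMem k _)) s0.not_ge
    have k : Ψ y = max 0 (u y) := indicator_of_mem hy _
    rw [k] at h ⊢
    exact ⟨hy, (max_eq_right (((le_max_iff.1 h).resolve_left s0.not_ge).trans' s0.le)).symm⟩
  by_contra hn
  have key := hi g μ 0 Ψ (1 / (4 * L)) hK hμ le_rfl (fun η x1 e1 e2 e3 t t0 => by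
      rw [zero_add, mul_right_comm, div_mul_cancel₀ _ hp.ne']
      exact ht η e1 (fun x => by simpa using (((hA.isK_iff _).1 e2).2 x).posSemidef) x1 e3 t t0)
    cΨ.upperSemicontinuous ⟨0, forall_mem_range.2 Ψ0⟩ (fun y h => ?_) ?_
  · have x3 : x0 ∈ O := ⟨x1, mem_ball_zero_iff.2 (by linarith)⟩
    refine (isOpen_lt continuous_const cΨ).measure_ne_zero μ ⟨x0, ?_⟩
      (measure_mono_null (fun z hz => mem_ofPred_eq ▸ le_of_lt hz) key)
    refine lt_of_lt_of_le ?_ ((le_max_right _ _).trans_eq (ev x0 x3).self_of_nhds.symm)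
    have k : 1 / L ≤ m⁻¹ * S (c x0) := by
      rw [le_inv_mul_iff₀ m0, mul_one_div, div_le_iff₀' (by linarith)]
      exact (hS' x0 x3).1
    have k' : 1 / L = 4 * (1 / (4 * L)) := by field_simp
    simp only [u, b4 x0 x1 x2]
    linarith
  · obtain ⟨hy, k⟩ := top y h
    have s2 := contDiffAt_ofReal.2 (hS _ hy.2).1
    have β2 : ContDiffAt ℝ 2 (fn β c) (c y) :=
      Den.ck_le b1 (by norm_cast) c hc _ (c.map_source hy.1)
    have e1 : fn u c =ᶠ[𝓝 (c y)] fun w =>
        (m⁻¹ : ℝ) * (S w : ℂ) + ((L + 1 : ℝ) : ℂ) * fn β c w - ((L + 1 : ℝ) : ℂ) := by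
      filter_upwards [c.open_target.mem_nhds (c.map_source hy.1)] with w hw
      simp only [fn, u, c.right_inv hw]
      push_cast
      rfl
    have s3 := (contDiffAt_const (c := ((m⁻¹ : ℝ) : ℂ))).mul s2
    have β3 := (contDiffAt_const (c := ((L + 1 : ℝ) : ℂ))).mul β2
    refine barr hc hy.1 (((s3.add β3).sub contDiffAt_const).congr_of_eventuallyEq e1) k
      ((ev y hy).mono fun x hx => (le_max_right _ _).trans_eq hx.symm) ?_
    have l1 := (hS _ hy.2).2.2.2
    have l2 := hB.lap_rep g β c hc y hy.1 β2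
    have l3 := (abs_le.1 (hT y trivial)).1
    rw [lapL] at l1 l2
    rw [lapL, levi_congr e1, levi_sub (s3.add β3) contDiffAt_const, levi_const, sub_zero,
      levi_add s3 β3, levi_cmul _ s2, levi_cmul _ β2, Matrix.add_mul, Matrix.smul_mul,
      Matrix.smul_mul, trace_add, trace_smul, trace_smul, add_re, smul_eq_mul, smul_eq_mul,
      re_ofReal_mul, re_ofReal_mul, l2]
    have l4 := mul_le_mul_of_nonneg_left l1 (inv_pos.2 m0).le
    have l5 : m⁻¹ ≤ 1 := inv_le_one_of_one_le₀ m1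
    nlinarith [u1 y hy]
  · have h1 := mul_meas_ge_le_integral_of_nonneg (μ := μ) (Eventually.of_forall e0)
      (ce.integrable_of_hasCompactSupport (HasCompactSupport.of_compactSpace e))
      (m / (4 * L ^ 2))
    have h2 : μ.real {y | 1 / (4 * L) ≤ Ψ y} ≤ μ.real {y | m / (4 * L ^ 2) ≤ e y} :=
      measureReal_mono fun y h => by
        obtain ⟨hy, k⟩ := top y h
        have k1 : 1 / (4 * L) ≤ m⁻¹ * S (c y) := by
          have : 1 / (4 * L) ≤ u y := k ▸ h
          simp only [u] at this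
          nlinarith [b2 y]
        rw [le_inv_mul_iff₀ m0, mul_one_div, div_le_iff₀ (by positivity)] at k1
        rw [mem_ofPred_eq, div_le_iff₀ (by positivity)]
        nlinarith [(hS' y hy).2]
    rw [not_le, div_mul_eq_mul_div, div_lt_iff₀ (by positivity)] at hn
    rw [div_mul_eq_mul_div, div_le_iff₀ (by positivity)] at h1
    exact h2.trans (le_of_mul_le_mul_left (by linarith) m0)

end Mv

theorem mvS : MvS := by
  intro ι X _ _ _ _ _ _ _ _ M g μ C L hK hμ hL
  have := ((AY.volS' ι X M g hK).2 μ hμ).fin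
  have := ((AY.volS' ι X M g hK).2 μ hμ).pos
  cases isEmpty_or_nonempty ι with
  | inl h =>
    have hp : 0 < μ.real univ :=
      ENNReal.toReal_pos (isOpen_univ.measure_ne_zero μ univ_nonempty) (measure_ne_top μ _)
    have : DiscreteTopology X := discreteTopology_iff_isOpen_singleton.2 fun x => by
      convert (M.ch x).open_source
      exact (eq_singleton_iff_unique_mem.2 ⟨M.mem x, fun y hy =>
        (M.ch x).injOn hy (M.mem x) (Subsingleton.elim _ _)⟩).symm
    have : Subsingleton X := PreconnectedSpace.trivial_of_discrete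
    refine ⟨(μ.real univ)⁻¹, fun e S _ _ _ x => ?_⟩
    rw [show e = fun _ => e x from funext fun y => congrArg e (Subsingleton.elim _ _),
      integral_const, smul_eq_mul, le_inv_mul_iff₀ hp]
    linarith
  | inr h =>
    choose K K0 hK' using fun a => Mv.one hK hμ hL (C.mem a) (C.pos a)
      ((closedBall_subset_closedBall (by linarith [C.pos a])).trans (C.sub a))
    refine ⟨1 + ∑ a, K a, fun e S ce e0 hS x => ?_⟩
    obtain ⟨x0, -, hx0⟩ := isCompact_univ.exists_isMaxOn univ_nonempty ce.continuousOn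
    have hx : ∀ x, e x ≤ e x0 := fun x => hx0 (mem_univ x)
    have i0 : 0 ≤ ∫ y, e y ∂μ := integral_nonneg e0
    have k0 : 0 ≤ ∑ a, K a := Finset.sum_nonneg fun a _ => K0 a
    rcases le_total 1 (e x0) with h1 | h1
    · obtain ⟨a, h2, h3⟩ := C.cover x0
      have k1 := hK' a e (S a) x0 ce e0 (hS a) hx h1 h2 h3
      have k2 := Finset.single_le_sum (fun a _ => K0 a) (Finset.mem_univ a)
      nlinarith [hx x]
    · nlinarith [hx x]

end Pool.Agent.Lib.MP_813db1_ag.VH.Co
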