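import Pool.Agent.Lib.MP_813db1_ag.VH.CoStmt

/-! Properness: metrics of bounded energy density and fixed scale are bounded. -/

namespace Pool.Agent.Lib.MP_813db1_ag.VH.Co

open Pool.Agent.Lib.MP_813db1_ag.HS Pool.Agent.Lib.MP_813db1_ag.AS
open MeasureTheory Complex Matrix Filter Topology Set Metric
open scoped ContDiff ComplexOrder

namespace Pr

section Alg

variable {r : Type} [Fintype r] [DecidableEq r]

/-- `A ≤ C B`. -/
def Le (C : ℝ) (A B : Mat r) : Prop := ((C : ℂ) • B - A).PosSemidef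

omit [Fintype r] [DecidableEq r] in
lemma psd_smul {A : Mat r} (h : A.PosSemidef) {a : ℝ} (ha : 0 ≤ a) : ((a : ℂ) • A).PosSemidef :=
  h.smul (by exact_mod_cast ha)

omit [Fintype r] [DecidableEq r] in
lemma Le.trans {C D : ℝ} {A B E : Mat r} (h : Le C A B) (hC : 0 ≤ C) (h' : Le D B E) :
    Le (C * D) A E := by
  have := (psd_smul h' hC).add h
  unfold Le
  convert this using 1
  push_cast
  module

omit [Fintype r] [DecidableEq r] in
lemma Le.mono {C D : ℝ} {A B : Mat r} (h : Le C A B) (hB : B.PosSemidef) (hCD : C ≤ D) :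
    Le D A B := by
  have := (psd_smul hB (sub_nonneg.2 hCD)).add h
  unfold Le
  convert this using 1
  push_cast
  module

lemma Le.trm {C : ℝ} {A H : Mat r} (h : Le C A H) (hH : H.PosDef) :
    trm H A ≤ C * Fintype.card r := by
  have h1 := mat.trm_nonneg r H _ hH h
  have h2 : H * H⁻¹ = 1 := mul_nonsing_inv _ ((isUnit_iff_isUnit_det _).1 hH.isUnit)
  simp only [HS.trm, sub_mul, smul_mul_assoc, h2, trace_sub, trace_smul, trace_one, smul_eq_mul,
    sub_re, mul_re, ofReal_re, natCast_re, ofReal_im, natCast_im, mul_zero, sub_zero] at h1 ⊢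
  linarith

lemma le_of {H B : Mat r} (hH : H.PosDef) (hB : B.PosSemidef) : Le (trm H B) B H :=
  mat.le_trm r H B hH hB

omit [DecidableEq r] in
lemma Le.conj {C : ℝ} {A B J : Mat r} (h : Le C A B) (hJ : J.map star = J) :
    Le C (Jᵀ * A * J) (Jᵀ * B * J) := by
  have h1 := h.conjTranspose_mul_mul_same J
  have h2 : Jᴴ = Jᵀ := by
    conv_rhs => rw [← hJ]
    rfl
  rw [h2] at h1
  unfold Le
  convert h1 using 1
  simp only [Matrix.mul_sub, Matrix.sub_mul, Matrix.mul_smul, Matrix.smul_mul]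

omit [DecidableEq r] in
lemma tr_le {L : ℝ} {A : Mat r} (h : Bd L A) : (trace A).re ≤ Fintype.card r * L := by
  rw [trace, re_sum]
  calc ∑ i, (A.diag i).re ≤ ∑ _i : r, L :=
        Finset.sum_le_sum fun i _ => (re_le_norm _).trans (h i i)
    _ = _ := by simp

lemma trm_one_left (B : Mat r) : trm 1 B = (trace B).re := by simp [trm]

lemma trm_one_right (B : Mat r) : trm B 1 = (trace B⁻¹).re := by simp [trm]

lemma key {A B Z : Mat r} {L C : ℝ} (hA : A.PosDef) (hB : B.PosDef) (hZ : Z.PosDef) (hL : 0 ≤ L)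
    (hC : 0 ≤ C) (b1 : Bd L A) (b2 : Bd L A⁻¹) (l1 : Le C B Z) (l2 : Le C Z B) :
    trm A B ≤ C * (Fintype.card r * L) * Fintype.card r * trm 1 Z ∧
    trm B A ≤ C * (Fintype.card r * L) * Fintype.card r * trm Z 1 ∧
    trm 1 Z ≤ C * (Fintype.card r * L) * Fintype.card r * trm A B ∧
    trm Z 1 ≤ C * (Fintype.card r * L) * Fintype.card r * trm B A := by
  have h1 : (1 : Mat r).PosDef := PosDef.one
  have hn : (0 : ℝ) ≤ Fintype.card r * L := by positivity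
  have a1 : Le (Fintype.card r * L) A 1 :=
    (le_of h1 hA.posSemidef).mono h1.posSemidef (by rw [trm_one_left]; exact tr_le b1)
  have a2 : Le (Fintype.card r * L) 1 A :=
    (le_of hA h1.posSemidef).mono hA.posSemidef (by rw [trm_one_right]; exact tr_le b2)
  have n1 := mat.trm_nonneg r 1 Z h1 hZ.posSemidef
  have n2 := mat.trm_nonneg r Z 1 hZ h1.posSemidef
  have n3 := mat.trm_nonneg r A B hA hB.posSemidef
  have n4 := mat.trm_nonneg r B A hB hA.posSemidef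
  refine ⟨?_, ?_, ?_, ?_⟩
  · have := (l1.trans hC ((le_of h1 hZ.posSemidef).trans n1 a2)).trm hA
    linarith
  · have := (a1.trans hn ((le_of hZ h1.posSemidef).trans n2 l2)).trm hB
    linarith
  · have := (l2.trans hC ((le_of hA hB.posSemidef).trans n3 a1)).trm h1
    linarith
  · have := (a2.trans hn ((le_of hB hA.posSemidef).trans n4 l1)).trm hZ
    linarith

omit [Fintype r] [DecidableEq r] in
lemma dom_smul {a : ℝ} {H P : Mat r} (h : Dom a H P) (β : ℝ) : Dom (|β| * a) H ((β : ℂ) • P) := by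
  rcases le_total 0 β with hβ | hβ
  · rw [abs_of_nonneg hβ]
    refine ⟨?_, ?_⟩
    · convert psd_smul h.1 hβ using 1
      push_cast
      module
    · convert psd_smul h.2 hβ using 1
      push_cast
      module
  · rw [abs_of_nonpos hβ]
    refine ⟨?_, ?_⟩
    · convert psd_smul h.2 (neg_nonneg.2 hβ) using 1
      push_cast
      module
    · convert psd_smul h.1 (neg_nonneg.2 hβ) using 1
      push_cast
      module

omit [Fintype r] [DecidableEq r] in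
lemma dom_mono {a b : ℝ} {H P : Mat r} (h : Dom a H P) (hH : H.PosSemidef) (hab : a ≤ b) :
    Dom b H P := by
  refine ⟨?_, ?_⟩
  · convert (psd_smul hH (sub_nonneg.2 hab)).add h.1 using 1
    push_cast
    module
  · convert (psd_smul hH (sub_nonneg.2 hab)).add h.2 using 1
    push_cast
    module

omit [Fintype r] [DecidableEq r] in
lemma dom_sum {κ : Type} [Fintype κ] {a : ℝ} {H : Mat r} {P : κ → Mat r} (h : ∀ b, Dom a H (P b)) :
    Dom (Fintype.card κ * a) H (∑ b, P b) := by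
  have e : ((Fintype.card κ * a : ℝ) : ℂ) • H = ∑ _b : κ, (a : ℂ) • H := by
    rw [Finset.sum_const, Finset.card_univ, ← Nat.cast_smul_eq_nsmul ℂ, smul_smul]
    push_cast
    rfl
  refine ⟨?_, ?_⟩
  · rw [e, ← Finset.sum_add_distrib]
    exact posSemidef_sum _ fun b _ => (h b).1
  · rw [e, ← Finset.sum_sub_distrib]
    exact posSemidef_sum _ fun b _ => (h b).2

lemma sq_sqrt_ge (E : ℝ) : E ≤ √E ^ 2 := by
  rw [Real.sq_sqrt']
  exact le_max_left _ _

lemma trm_conj {G : Type} [Group G] {ρ : G →* Mat r} (hρ : RealR ρ) (γ : G) (A B : Mat r) :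
    trm ((ρ γ⁻¹)ᵀ * A * ρ γ⁻¹) ((ρ γ⁻¹)ᵀ * B * ρ γ⁻¹) = trm A B := by
  have hd : (ρ γ⁻¹).det ≠ 0 := fun e => by
    have := congrArg det (ρ.map_mul γ⁻¹ γ)
    rw [inv_mul_cancel, map_one, det_one, det_mul, e, zero_mul] at this
    exact one_ne_zero this
  have := (mat.pull_pd r (ρ γ⁻¹) A hd).2.2.2.2.2.1 B
  rwa [pull, pull, hρ] at this

end Alg

variable {ι X Y G : Type} [Fintype ι] [DecidableEq ι] [TopologicalSpace X] [TopologicalSpace Y]
  [Group G] [MulAction G Y] {c : Sx ι X Y G} {r : Type} [Fintype r] [DecidableEq r]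

lemma cm {ρ : G →* Mat r} {H : Y → Mat r} (ha : c.Bas) (hH : c.Gd ρ H) {a : Fin c.C.n} {z : V ι}
    (hz : z ∈ c.B a) (k : ℕ) : CM k (fun w => H (c.s a w)) z := fun i j =>
  (hH.sm i j _ (c.C.mem a) z (ha.sec a z hz).1 _ (ha.sec a z hz).2.1).of_le (by exact_mod_cast le_top)

/-- the derivative in a frame. -/
lemma frame (h : Al) (hb : c.Bs) : ∃ C ≥ (0 : ℝ), ∀ (ρ : G →* Mat r) (H : Y → Mat r) (E : ℝ),
    c.Gd ρ H → (∀ y, c.en H y ≤ E) → ∀ a, ∀ z ∈ c.B a, ∀ v : V ι,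
    ∃ (β : ι × Fin 2 → ℝ) (P : ι × Fin 2 → Mat r), (∀ b, |β b| ≤ C * ‖v‖ ∧ (P b).IsHermitian ∧
      tp (H (c.s a z)) (P b) (P b) ≤ E) ∧
      dv (fun w => H (c.s a w)) v z = ∑ b, (β b : ℂ) • P b := by
  obtain ⟨L, -, hL⟩ := hb.a.ell
  obtain ⟨C, hC, hf⟩ := h.fr ι L
  refine ⟨C, hC, fun ρ H E hH hE a z hz v => ?_⟩
  obtain ⟨e, he⟩ := hf (c.Gc a z) ((hb.a.kon a).2 z hz) (fun i j => ((hL a).1 i j).1 z hz)
    fun i j => ((hL a).2.1 i j).1 z hz
  obtain ⟨β, h1, h2⟩ := he.span v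
  have hh : ∀ b, (dv (fun w => H (c.s a w)) (e b) z).IsHermitian := fun b => by
    have := (h.dv.ct ι r (fun w => H (c.s a w)) (e b) z).1
    rw [show (fun w => (H (c.s a w))ᴴ) = fun w => H (c.s a w) from
      funext fun w => (hH.pd _).isHermitian] at this
    exact this.symm
  have h3 := (hb.m.rd2 r H H 0 _ (c.C.mem a) z (hb.a.sec a z hz).1 _ (hb.a.sec a z hz).2.1
    (cm hb.a hH hz 2)).2.1
  have h4 : ∑ b, tp (H (c.s a z)) (dv (fun w => H (c.s a w)) (e b) z)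
      (dv (fun w => H (c.s a w)) (e b) z) = c.en H (c.s a z) := by
    have h5 : en (c.Gc a) (fun w => H (c.s a w)) z = c.en H (c.s a z) := h3
    rw [← h5, en, (h.dv.fr ι r (c.Gc a) z C e he).2.2, Finset.mul_sum, trace_sum, re_sum]
    simp only [tp, Matrix.mul_assoc]
  refine ⟨β, fun b => dv (fun w => H (c.s a w)) (e b) z, fun b => ⟨h1 b, hh b, ?_⟩, ?_⟩
  · refine le_trans ?_ (h4.le.trans (hE _))
    exact Finset.single_le_sum (f := fun b => tp (H (c.s a z))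
      (dv (fun w => H (c.s a w)) (e b) z) (dv (fun w => H (c.s a w)) (e b) z))
      (fun b _ => h.tp.nn r _ _ (hH.pd _) (hh b)) (Finset.mem_univ b)
  · conv_lhs => rw [h2]
    exact h.dv.dir ι r _ _ β e z

/-- comparison on one sheet. -/
lemma sheet (h : Al) (hb : c.Bs) (h1 : LipL) (E : ℝ) : ∃ K ≥ (0 : ℝ), ∀ (ρ : G →* Mat r)
    (H : Y → Mat r), c.Gd ρ H → (∀ y, c.en H y ≤ E) → ∀ a, ∀ z ∈ c.B a, ∀ w ∈ c.B a,
    Le K (H (c.s a z)) (H (c.s a w)) := by
  obtain ⟨C, hC, hf⟩ := frame (r := r) h hb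
  set Λ : ℝ := Fintype.card (ι × Fin 2) * (C * √E) with hΛ
  have Λ0 : 0 ≤ Λ := by positivity
  refine ⟨∑ a, Real.exp (2 * (2 * c.C.r a) * Λ), by positivity, fun ρ H hH hE a z hz w hw => ?_⟩
  refine Le.mono (h1 ι r (2 * c.C.r a) Λ (fun w => H (c.s a w)) Λ0 (fun x hx => ⟨cm hb.a hH hx 1,
    hH.pd _, fun v => ?_⟩) z hz w hw) (hH.pd _).posSemidef
    (Finset.single_le_sum (f := fun a => Real.exp (2 * (2 * c.C.r a) * Λ))
      (fun _ _ => (Real.exp_pos _).le) (Finset.mem_univ a))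
  obtain ⟨β, P, h2, h3⟩ := hf ρ H E hH hE a x hx v
  rw [h3, hΛ, mul_assoc]
  refine dom_sum fun b => dom_mono (dom_smul (h.tp.dom r _ (P b) √E (hH.pd _) (h2 b).2.1
    (Real.sqrt_nonneg _) ((h2 b).2.2.trans (sq_sqrt_ge E))) (β b)) (hH.pd _).posSemidef ?_
  have := mul_le_mul_of_nonneg_right (h2 b).1 (Real.sqrt_nonneg E)
  linarith

/-- translates of the sheets are open. -/
lemma near (ha : c.Bas) (γ : G) {a : Fin c.C.n} {z : V ι} (hz : z ∈ c.B a) :
    ∀ᶠ y in 𝓝 (γ • c.s a z), ∃ w ∈ c.B a, y = γ • c.s a w := by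
  obtain ⟨h1, h2, h3⟩ := ha.sec a z hz
  have h4 : c.p (γ • c.s a z) = (c.C.e a).symm z := (c.hq.map_smul γ).trans h3
  have h5 : c.p (γ • c.s a z) ∈ (c.C.e a).source := h4 ▸ (c.C.e a).map_target h1
  have h6 : c.C.e a (c.p (γ • c.s a z)) = z := by rw [h4, (c.C.e a).right_inv h1]
  have hp := c.hp.continuous
  have h7 : ContinuousAt (fun y => c.C.e a (c.p y)) (γ • c.s a z) :=
    ((c.C.e a).continuousAt h5).comp hp.continuousAt
  have h8 : ∀ᶠ y in 𝓝 (γ • c.s a z), c.C.e a (c.p y) ∈ c.B a :=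
    h7.eventually (isOpen_ball.eventually_mem (show c.C.e a (c.p (γ • c.s a z)) ∈ c.B a by
      rw [h6]; exact hz))
  have h9 : ContinuousAt (fun y => γ • c.s a (c.C.e a (c.p y))) (γ • c.s a z) :=
    ContinuousAt.comp (g := fun w => γ • c.s a w) (by rw [h6]; exact (h2.smul c.hq γ).1) h7
  have h10 := F12.uniq c.hp h9 continuousAt_id (by rw [h6]; rfl) (by
    filter_upwards [h8, hp.continuousAt.eventually ((c.C.e a).open_source.eventually_mem h5)]
      with y e1 e2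
    rw [c.hq.map_smul γ, (ha.sec a _ e1).2.2, (c.C.e a).left_inv e2]
    rfl)
  filter_upwards [h8, h10] with y e1 e2
  exact ⟨_, e1, e2.symm⟩

/-- comparison of any two points. -/
lemma all [ConnectedSpace Y] (h : Al) (hb : c.Bs) (h1 : LipL) (E : ℝ) {ρ : G →* Mat r}
    (hρ : RealR ρ) (y y' : Y) : ∃ K ≥ (0 : ℝ), ∀ H : Y → Mat r, c.Gd ρ H → (∀ y, c.en H y ≤ E) →
    Le K (H y) (H y') := by
  obtain ⟨K, hK, hs⟩ := sheet (r := r) h hb h1 E
  refine PreconnectedSpace.induction₂' (fun y y' => ∃ K ≥ (0 : ℝ), ∀ H : Y → Mat r, c.Gd ρ H →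
    (∀ y, c.en H y ≤ E) → Le K (H y) (H y')) (fun x => ?_) ⟨?_⟩ y y'
  · obtain ⟨γ, a, z, -, hz, rfl⟩ := hb.a.cov x
    filter_upwards [near hb.a γ hz] with y hy
    obtain ⟨w, hw, rfl⟩ := hy
    refine ⟨⟨K, hK, fun H hH hE => ?_⟩, K, hK, fun H hH hE => ?_⟩
    · rw [hH.eqv, hH.eqv]
      exact (hs ρ H hH hE a z hz w hw).conj (hρ _)
    · rw [hH.eqv, hH.eqv]
      exact (hs ρ H hH hE a w hw z hz).conj (hρ _)
  · rintro x y z ⟨K, hK, e⟩ ⟨K', hK', e'⟩
    exact ⟨K * K', mul_nonneg hK hK', fun H hH hE => (e H hH hE).trans hK (e' H hH hE)⟩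

lemma num {s t u v M Λ K : ℝ} (hs : 0 ≤ s) (hv : 0 ≤ v) (hM : 0 ≤ M)
    (h1 : s ≤ M * u) (h2 : u ≤ Λ * v) (h3 : v ≤ M * t) (h4 : s * t ≤ K) :
    s ≤ 1 + M * |Λ| * M * K := by
  have e1 : u ≤ |Λ| * (M * t) :=
    h2.trans ((mul_le_mul_of_nonneg_right (le_abs_self Λ) hv).trans
      (mul_le_mul_of_nonneg_left h3 (abs_nonneg _)))
  have e2 : s ≤ M * |Λ| * M * t := by
    have := mul_le_mul_of_nonneg_left e1 hM
    linarith
  have e3 : s * s ≤ M * |Λ| * M * K := by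
    have a1 := mul_le_mul_of_nonneg_left e2 hs
    have a2 := mul_le_mul_of_nonneg_left h4 (show 0 ≤ M * |Λ| * M by positivity)
    linarith
  nlinarith [sq_nonneg (s - 1)]

end Pr

open Pr

variable {ι X Y G : Type} [Fintype ι] [DecidableEq ι] [TopologicalSpace X] [TopologicalSpace Y]
  [ConnectedSpace Y] [Group G] [MulAction G Y] {c : Sx ι X Y G}

theorem prS (h : Al) (hb : c.Bs) (h1 : LipL) (h2 : IrrS) : c.PrS := by
  intro r _ _ ρ H0 E Λ hρ hI h0
  obtain ⟨y0⟩ : Nonempty Y := inferInstance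
  choose T hT0 hT using all (r := r) h hb h1 E hρ
  obtain ⟨K, hK⟩ := h2 G r ρ (fun γ => T (γ⁻¹ • y0) y0) hI hρ
  obtain ⟨K1, hK1, hs⟩ := sheet (r := r) h hb h1 E
  obtain ⟨-, -, -, ⟨L1, hL1, b1⟩, L2, b2⟩ := hb.m.sm r H0 h0.sm fun y =>
    ((isUnit_iff_isUnit_det _).1 (h0.pd y).isUnit).ne_zero
  set L := max L1 L2
  have hL : 0 ≤ L := hL1.trans (le_max_left _ _)
  set C := K1 * ∑ a, (T (c.s a 0) y0 + T y0 (c.s a 0)) with hC
  have hS0 : ∀ a, 0 ≤ T (c.s a 0) y0 + T y0 (c.s a 0) := fun a => add_nonneg (hT0 _ _) (hT0 _ _)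
  have C0 : 0 ≤ C := mul_nonneg hK1 (Finset.sum_nonneg fun a _ => hS0 a)
  set M := C * (Fintype.card r * L) * Fintype.card r
  have M0 : 0 ≤ M := by positivity
  obtain ⟨C1, hC1⟩ := h.tp.bdd r (max L (M * (1 + M * |Λ| * M * K)))
  obtain ⟨C2, C20, hC2⟩ := h.tp.ent r C1
  obtain ⟨C3, C30, hf⟩ := frame (r := r) h hb
  refine ⟨max C1 (Fintype.card (ι × Fin 2) * (C3 * √(C2 * E))), fun H hH hE hy1 hy2 => ?_⟩
  have d1 : ∀ a, ∀ z ∈ c.B a, Bd L (H0 (c.s a z)) := fun a z hz i j =>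
    ((b1 a i j).2.1.1 z hz).trans (le_max_left _ _)
  have d2 : ∀ a, ∀ z ∈ c.B a, Bd L (H0 (c.s a z))⁻¹ := fun a z hz i j =>
    (b2 a z hz i j).trans (le_max_right _ _)
  have k1 : ∀ a, ∀ z ∈ c.B a, _ := fun a z hz => by
    have z0 : (0 : V ι) ∈ c.B a := mem_ball_self (by have := c.C.pos a; positivity)
    have s1 : T (c.s a 0) y0 + T y0 (c.s a 0) ≤ ∑ a, (T (c.s a 0) y0 + T y0 (c.s a 0)) :=
      Finset.single_le_sum (fun a _ => hS0 a) (Finset.mem_univ a)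
    exact key (h0.pd (c.s a z)) (hH.pd (c.s a z)) (hH.pd y0) hL C0 (d1 a z hz) (d2 a z hz)
      (((hs ρ H hH hE a z hz 0 z0).trans hK1 (hT _ y0 H hH hE)).mono (hH.pd _).posSemidef
        (mul_le_mul_of_nonneg_left (by linarith [hT0 y0 (c.s a 0)]) hK1))
      (((hT y0 _ H hH hE).trans (hT0 _ _) (hs ρ H hH hE a 0 z0 z hz)).mono (hH.pd _).posSemidef
        (by rw [mul_comm]; exact mul_le_mul_of_nonneg_left (by linarith [hT0 (c.s a 0) y0]) hK1))
  have k2 : ∀ y, trm (H0 y) (H y) ≤ M * trm 1 (H y0) ∧ trm (H y) (H0 y) ≤ M * trm (H y0) 1 ∧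
      trm 1 (H y0) ≤ M * trm (H0 y) (H y) ∧ trm (H y0) 1 ≤ M * trm (H y) (H0 y) := fun y => by
    obtain ⟨γ, a, z, -, hz, rfl⟩ := hb.a.cov y
    rw [hH.eqv γ, h0.eqv γ, trm_conj hρ, trm_conj hρ]
    exact k1 a z hz
  have k3 : trm 1 (H y0) * trm (H y0) 1 ≤ K := by
    rw [trm_one_left, trm_one_right]
    refine hK (H y0) (hH.pd _) (hH.rs _).2 fun γ => ?_
    have := hT (γ⁻¹ • y0) y0 H hH hE
    rwa [hH.eqv, inv_inv] at this
  have n1 := mat.trm_nonneg r 1 _ PosDef.one (hH.pd y0).posSemidef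
  have n2 := mat.trm_nonneg r _ 1 (hH.pd y0) PosDef.one.posSemidef
  obtain ⟨y1, e1⟩ := hy1
  obtain ⟨y2, e2⟩ := hy2
  have t1 := num n1 (mat.trm_nonneg r _ _ (hH.pd y1) (h0.pd y1).posSemidef) M0 (k2 y1).2.2.1 e1
    (k2 y1).2.1 k3
  have t2 := num n2 (mat.trm_nonneg r _ _ (h0.pd y2) (hH.pd y2).posSemidef) M0 (k2 y2).2.2.2 e2
    (k2 y2).1 ((mul_comm _ _).trans_le k3)
  have k4 : ∀ a, ∀ z ∈ c.B a, Bd C1 (H (c.s a z)) ∧ Bd C1 (H (c.s a z))⁻¹ := fun a z hz =>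
    hC1 _ _ (h0.pd _) (hH.pd _) (fun i j => (d1 a z hz i j).trans (le_max_left _ _))
      (fun i j => (d2 a z hz i j).trans (le_max_left _ _))
      (((k2 _).1.trans (mul_le_mul_of_nonneg_left t1 M0)).trans (le_max_right _ _))
      (((k2 _).2.1.trans (mul_le_mul_of_nonneg_left t2 M0)).trans (le_max_right _ _))
  refine ⟨fun a z hz i j => ((k4 a z hz).2 i j).trans (le_max_left _ _), fun a z hz =>
    ⟨fun i j => ((k4 a z hz).1 i j).trans (le_max_left _ _), fun i j => ?_⟩⟩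
  refine le_trans (ContinuousLinearMap.opNorm_le_bound _ (by positivity) fun v => ?_)
    (le_max_right _ _)
  obtain ⟨β, P, p1, p2⟩ := hf ρ H E hH hE a z hz v
  have p3 : fderiv ℝ (fun w => H (c.s a w) i j) z v = ∑ b, (β b : ℂ) * P b i j := by
    have := congrFun (congrFun p2 i) j
    simpa only [dv, of_apply, Matrix.sum_apply, Matrix.smul_apply, smul_eq_mul] using this
  rw [p3]
  refine (norm_sum_le _ _).trans ?_
  calc ∑ b, ‖(β b : ℂ) * P b i j‖ ≤ ∑ _b : ι × Fin 2, C3 * ‖v‖ * √(C2 * E) :=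
        Finset.sum_le_sum fun b _ => by
          rw [norm_mul, norm_real, Real.norm_eq_abs]
          refine mul_le_mul (p1 b).1 (Real.le_sqrt_of_sq_le ?_) (norm_nonneg _) (by positivity)
          exact (((hC2 _ _ (hH.pd _) (p1 b).2.1).1 (k4 a z hz).1) i j).trans
            (mul_le_mul_of_nonneg_left (p1 b).2.2 C20)
    _ = _ := by
      rw [Finset.sum_const, Finset.card_univ, nsmul_eq_mul]
      ring

end Pool.Agent.Lib.MP_813db1_ag.VH.Co
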