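import Pool.Agent.Lib.MP_813db1_ag.VH.CoStmt

/-! The Laplacian of `tr (H⁻¹ K)` and of `tp H P P`. -/

namespace Pool.Agent.Lib.MP_813db1_ag.VH.Co

open Pool.Agent.Lib.MP_813db1_ag.HS Pool.Agent.Lib.MP_813db1_ag.AS
open MeasureTheory Complex Matrix Filter Topology Set Metric
open scoped ContDiff ComplexOrder

namespace Pw

variable {ι r : Type} [Fintype ι] [DecidableEq ι] [Fintype r] [DecidableEq r]
  {F K : V ι → Mat r} {z : V ι}

omit [DecidableEq ι] [Fintype r] [DecidableEq r] in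
lemma one (hF : CM 2 F z) : CM 1 F z := fun i j => (hF i j).of_le (by norm_num)

omit [DecidableEq ι] [DecidableEq r] in
lemma ev1 (h : DvS) (hF : CM 2 F z) : ∀ᶠ w in 𝓝 z, CM 1 F w :=
  (h.ev ι r 2 F z hF).mono fun _ hw => one hw

omit [DecidableEq ι] [Fintype r] [DecidableEq r] in
lemma cd1 (h : DvS) (hF : CM 2 F z) (v : V ι) : CM 1 (dv F v) z :=
  h.cd ι r 1 2 F v z (by norm_num) hF

omit [DecidableEq ι] in
lemma evdet (hF : CM 2 F z) (h0 : (F z).det ≠ 0) : ∀ᶠ w in 𝓝 z, (F w).det ≠ 0 := by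
  have h1 : ContinuousAt F z :=
    continuousAt_pi.2 fun i => continuousAt_pi.2 fun j => (hF i j).continuousAt
  exact ((continuous_id.matrix_det (X := Mat r)).continuousAt.comp h1).eventually_ne h0

omit [DecidableEq ι] [Fintype r] [DecidableEq r] in
lemma herm (h : DvS) (hF : ∀ᶠ w in 𝓝 z, (F w).IsHermitian) (v : V ι) : (dv F v z)ᴴ = dv F v z :=
  (h.ct ι r F v z).1.symm.trans (h.congr ι r _ _ v z hF).self_of_nhds

omit [DecidableEq ι] in
lemma mul2 (h : DvS) (hF : CM 2 F z) (hK : CM 2 K z) (v : V ι) :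
    dv (dv (fun w => F w * K w) v) v z = dv (dv F v) v z * K z + dv F v z * dv K v z +
      (dv F v z * dv K v z + F z * dv (dv K v) v z) := by
  have e : dv (fun w => F w * K w) v =ᶠ[𝓝 z] fun w => dv F v w * K w + F w * dv K v w :=
    ((ev1 h hF).and (ev1 h hK)).mono fun w hw => h.mul ι r F K v w hw.1 hw.2
  rw [(h.congr ι r _ _ v z e).self_of_nhds,
    (h.add ι r _ _ v z (h.cm ι r 1 _ _ z (cd1 h hF v) (one hK)).2.2.1
      (h.cm ι r 1 _ _ z (one hF) (cd1 h hK v)).2.2.1).1,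
    h.mul ι r _ _ v z (cd1 h hF v) (one hK), h.mul ι r _ _ v z (one hF) (cd1 h hK v)]

omit [DecidableEq ι] in
lemma inv2 (h : DvS) (hF : CM 2 F z) (h0 : (F z).det ≠ 0) (v : V ι) :
    dv (dv (fun w => (F w)⁻¹) v) v z = (F z)⁻¹ * dv F v z * (F z)⁻¹ * dv F v z * (F z)⁻¹ +
      (F z)⁻¹ * dv F v z * (F z)⁻¹ * dv F v z * (F z)⁻¹ - (F z)⁻¹ * dv (dv F v) v z * (F z)⁻¹ := by
  have e : dv (fun w => (F w)⁻¹) v =ᶠ[𝓝 z] fun w => (-1 : ℂ) • ((F w)⁻¹ * dv F v w * (F w)⁻¹) :=
    ((ev1 h hF).and (evdet hF h0)).mono fun w hw => by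
      rw [h.inv ι r F v w hw.1 hw.2]; simp
  have c1 : CM 1 (fun w => (F w)⁻¹) z := (h.cm ι r 1 _ _ z (one hF) (one hF)).2.2.2.2.1 h0
  have c2 := (h.cm ι r 1 _ _ z c1 (cd1 h hF v)).2.2.1
  rw [(h.congr ι r _ _ v z e).self_of_nhds, h.smul ι r _ _ v z (h.cm ι r 1 _ _ z c2 c1).2.2.1,
    h.mul ι r _ _ v z c2 c1, h.mul ι r _ _ v z c1 (cd1 h hF v), h.inv ι r F v z (one hF) h0,
    neg_one_smul]
  noncomm_ring

lemma lap (h : DvS) {G : V ι → Mat ι} {L : ℝ} {e : ι × Fin 2 → V ι} (he : Fr (G z)⁻¹ L e)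
    (hF : CM 2 F z) {f : V ι → ℂ} (hf : f =ᶠ[𝓝 z] fun w => trace (F w)) :
    lapL G f z = ∑ b, trace (dv (dv F (e b)) (e b) z) := by
  rw [lapL, he.two f z ((h.cm ι r 2 _ _ z hF hF).2.2.2.2.2.congr_of_eventuallyEq hf)]
  refine Finset.sum_congr rfl fun b _ => ?_
  have e1 : (fun w => fderiv ℝ f w (e b)) =ᶠ[𝓝 z] fun w => trace (dv F (e b) w) :=
    ((hf.fderiv (𝕜 := ℝ)).and (ev1 h hF)).mono fun w hw => by
      show fderiv ℝ f w (e b) = _
      rw [hw.1, h.tr ι r F _ w hw.2]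
  rw [e1.fderiv_eq, h.tr ι r _ _ z (cd1 h hF _)]

omit [DecidableEq r] in
lemma real {X : Mat r} (h : trace Xᴴ = trace X) : ((trace X).re : ℂ) = trace X := by
  rw [trace_conjTranspose] at h
  exact conj_eq_iff_re.1 h

lemma algA {N M K a aa k kk : Mat r} (h1 : K * M = 1) (h2 : M * K = 1) :
    trace (kk * N + k * -(N * a * N) + (k * -(N * a * N) +
      K * (N * a * N * a * N + N * a * N * a * N - N * aa * N))) =
    trace (N * (kk - k * M * k)) - trace (N * (aa - a * N * a) * N * K) +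
      trace ((k - a * N * K) * M * (k - K * N * a) * N) := by
  have h3 : ∀ X : Mat r, K * (M * X) = X := fun X => by rw [← Matrix.mul_assoc, h1, Matrix.one_mul]
  have h4 : ∀ X : Mat r, M * (K * X) = X := fun X => by rw [← Matrix.mul_assoc, h2, Matrix.one_mul]
  have c1 := trace_mul_comm N kk
  have c2 := trace_mul_comm (a * N) (k * N)
  have c3 := trace_mul_comm (N * a * N * a * N) K
  have c4 := trace_mul_comm (a * N) (K * N * a * N)
  have c5 := trace_mul_comm (N * aa * N) K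
  have c6 := trace_mul_comm (k * M * k) N
  simp only [Matrix.mul_add, Matrix.mul_sub, Matrix.sub_mul, Matrix.mul_neg,
    trace_add, trace_sub, trace_neg, Matrix.mul_assoc, h3, h4] at c1 c2 c3 c4 c5 c6 ⊢
  linear_combination -c1 + c2 - c3 - c4 + c5 - c6

omit [DecidableEq r] in
lemma algB {N P a aa p pp : Mat r} :
    trace (((N * a * N * a * N + N * a * N * a * N - N * aa * N) * P + -(N * a * N) * p +
        (-(N * a * N) * p + N * pp)) * (N * P) +
      (-(N * a * N) * P + N * p) * (-(N * a * N) * P + N * p) +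
      ((-(N * a * N) * P + N * p) * (-(N * a * N) * P + N * p) +
        N * P * ((N * a * N * a * N + N * a * N * a * N - N * aa * N) * P + -(N * a * N) * p +
          (-(N * a * N) * p + N * pp)))) =
    2 * (trace (N * (pp + (a * (N * P * N) * a - p * N * a - a * N * p)) * (N * P)) -
      trace (N * (aa - a * N * a) * (N * P) * (N * P)) +
      trace (N * (p - (1 / 2 : ℂ) • (a * N * P + P * N * a)) *
        (N * (p - (1 / 2 : ℂ) • (a * N * P + P * N * a))))) +
      trace ((P * N * a - a * N * P) * N * (a * N * P - P * N * a) * N) / 2 := by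
  have c1 := trace_mul_comm (N * P) (N * aa * N * P)
  have c2 := trace_mul_comm (N * P) (N * pp)
  have c3 := trace_mul_comm (N * P) (N * a * N * P * N * a)
  have c4 := trace_mul_comm P (N * a * N * P * N * a * N)
  have c5 := trace_mul_comm (a * N * P) (N * a * N * P * N)
  have c6 := trace_mul_comm (N * p) (N * a * N * P)
  have c7 := trace_mul_comm (N * a * N * P) (N * P * N * a)
  have c8 := trace_mul_comm (P * N * a * N * a * N * P) N
  have c9 := trace_mul_comm (a * N * P) (N * P * N * a * N)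
  have c10 := trace_mul_comm (N * p) (N * P * N * a)
  have c11 := trace_mul_comm (N * P) (N * a * N * a * N * P)
  have c12 := trace_mul_comm (N * P) (N * a * N * p)
  simp only [Matrix.mul_add, Matrix.add_mul, Matrix.mul_sub, Matrix.sub_mul, Matrix.mul_neg,
    Matrix.neg_mul, Matrix.mul_smul, Matrix.smul_mul, trace_smul, smul_eq_mul,
    trace_add, trace_sub, trace_neg, Matrix.mul_assoc] at *
  linear_combination -c1 + c2 - (1 / 2 : ℂ) * (c3 - c4 - c5 + c7 + c8 + c9) + c6 + c10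

end Pw

open Pw

theorem pwA (h : Al) : PwA := by
  intro ι r _ _ _ _ G H K z hG hH hK hh pH pK
  obtain ⟨L, l1, l2⟩ : ∃ L, Bd L (G z) ∧ Bd L (G z)⁻¹ := by
    have b : ∀ A : Mat ι, ∀ i j, ‖A i j‖ ≤ ∑ q : ι × ι, ‖A q.1 q.2‖ := fun A i j =>
      Finset.single_le_sum (f := fun q : ι × ι => ‖A q.1 q.2‖) (fun _ _ => norm_nonneg _)
        (Finset.mem_univ (i, j))
    exact ⟨max _ _, fun i j => (b _ i j).trans (le_max_left _ _),
      fun i j => (b _ i j).trans (le_max_right _ _)⟩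
  obtain ⟨C, -, hC⟩ := h.fr ι L
  obtain ⟨e, he⟩ := hC _ hG l1 l2
  have d := h.dv
  have uH := (isUnit_iff_isUnit_det _).1 pH.isUnit
  have uK := (isUnit_iff_isUnit_det _).1 pK.isUnit
  have cI := (d.cm ι r 2 _ _ z hH hH).2.2.2.2.1 uH.ne_zero
  obtain ⟨-, f2, f3⟩ := d.fr ι r G z C e he
  rw [lap d he (d.cm ι r 2 _ _ z hK cI).2.2.1 (f := fun w => (trm (H w) (K w) : ℂ))
    (hh.mono fun w hw => real (by
      rw [conjTranspose_mul, hw.1.inv.eq, hw.2.eq, trace_mul_comm])),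
    ten, ten, f2 _ hH, f2 _ hK, f3, f3, ← Finset.sum_sub_distrib, ← Finset.sum_sub_distrib,
    Matrix.mul_sum, Matrix.mul_sum, Matrix.sum_mul, Matrix.sum_mul, trace_sum, trace_sum,
    ← Finset.sum_sub_distrib, re_sum, re_sum]
  refine Finset.sum_le_sum fun b _ => ?_
  rw [mul2 d hK cI, inv2 d hH uH.ne_zero, d.inv ι r _ _ z (one hH) uH.ne_zero,
    algA (mul_nonsing_inv _ uK) (nonsing_inv_mul _ uK), add_re, le_add_iff_nonneg_right]
  have h1 := mat.trm_nonneg r _ _ pH (pK.inv.posSemidef.conjTranspose_mul_mul_same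
    (dv K (e b) z - K z * (H z)⁻¹ * dv H (e b) z))
  rwa [conjTranspose_sub, conjTranspose_mul, conjTranspose_mul, herm d (hh.mono fun _ => And.left),
    herm d (hh.mono fun _ => And.right), pH.1.inv.eq, pK.1.eq, ← Matrix.mul_assoc (dv H _ z)] at h1

theorem pwB (h : Al) : PwB := by
  intro ι r _ _ _ _ G H P z C e he hH hP hh pH
  have d := h.dv
  have uH := (isUnit_iff_isUnit_det _).1 pH.isUnit
  have cI := (d.cm ι r 2 _ _ z hH hH).2.2.2.2.1 uH.ne_zero
  have cφ := (d.cm ι r 2 _ _ z cI hP).2.2.1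
  obtain ⟨-, f2, f3⟩ := d.fr ι r G z C e he
  rw [lap d he (d.cm ι r 2 _ _ z cφ cφ).2.2.1 (f := fun w => (tp (H w) (P w) (P w) : ℂ))
    (hh.mono fun w hw => real (by
      rw [conjTranspose_mul, conjTranspose_mul, hw.1.inv.eq, hw.2.eq, ← Matrix.mul_assoc,
        trace_mul_comm]
      simp only [Matrix.mul_assoc])),
    ten, low, f2 _ hH, f2 _ hP, f3, f3, f3, f3, ← Finset.sum_sub_distrib, ← Finset.sum_sub_distrib,
    ← Finset.sum_sub_distrib, ← Finset.sum_add_distrib, tp,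
    Matrix.mul_sum, Matrix.mul_sum, Matrix.sum_mul, Matrix.sum_mul, Matrix.sum_mul, trace_sum,
    trace_sum, re_sum, re_sum, re_sum, ← Finset.sum_sub_distrib, ← Finset.sum_add_distrib,
    Finset.sum_div]
  refine Finset.sum_le_sum fun b _ => ?_
  rw [mul2 d cφ cφ, mul2 d cI hP, d.mul ι r _ _ _ z (one cI) (one hP), inv2 d hH uH.ne_zero,
    d.inv ι r _ _ z (one hH) uH.ne_zero, algB]
  have h1 := mat.trm_nonneg r _ _ pH (pH.inv.posSemidef.conjTranspose_mul_mul_same
    (dv H (e b) z * (H z)⁻¹ * P z - P z * (H z)⁻¹ * dv H (e b) z))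
  rw [conjTranspose_sub, conjTranspose_mul, conjTranspose_mul, conjTranspose_mul, conjTranspose_mul,
    herm d (hh.mono fun _ => And.left), pH.1.inv.eq, hh.self_of_nhds.2.eq,
    ← Matrix.mul_assoc (dv H _ z), ← Matrix.mul_assoc (P z), trm] at h1
  simp only [tp, add_re, sub_re, mul_re, re_ofNat, im_ofNat, zero_mul, sub_zero, div_ofNat_re]
  linarith

end Pool.Agent.Lib.MP_813db1_ag.VH.Co
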