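import Pool.Agent.Lib.MP_813db1_ag.VH.Defs
import Pool.Agent.Lib.MP_bbd4b9_ag.AR.Stmt

/-! Abundance with infinite monodromy: the statements that join the sections. -/

namespace Pool.Agent.Lib.MP_813db1_ag.VH

open Pool.Agent.Lib.MP_813db1_ag.HS Pool.Agent.Lib.MP_813db1_ag.AS Pool.Agent.Lib.MP_bbd4b9_ag.AR
open MeasureTheory Complex Matrix Filter Topology Set
open scoped ContDiff ComplexOrder Manifold Kronecker

section par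

variable {ι X Y : Type} [Fintype ι] [DecidableEq ι] [TopologicalSpace X] [TopologicalSpace Y]
  (M : Atl ι X) (p : Y → X) (G : Type) [Group G] [MulAction G Y]

/-! ### section 0: constructions -/

/-- direct sums. -/
def SumS : Prop := ∀ (r r' : Type) [Fintype r] [DecidableEq r] [Fintype r'] [DecidableEq r']
  (D : Dt M p G r) (D' : Dt M p G r'), ∃ E : Dt M p G (r ⊕ r'),
    (∀ g, E.ρ g = fromBlocks (D.ρ g) 0 0 (D'.ρ g)) ∧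
    (∀ y, E.H y = fromBlocks (D.H y) 0 0 (D'.H y)) ∧ (D.PH → D'.PH → E.PH) ∧
    (∀ g, D.Harm g → D'.Harm g → E.Harm g) ∧
    (∀ τ τ', D.Tau τ → D'.Tau τ' → E.Tau fun a => τ a + τ' a) ∧
    ∀ x x', Sm M p x → Sm M p x' →
      (D.PX x → D'.PX x' → E.PX fun y => Sum.elim (x y) (x' y)) ∧
      ∀ ξ ξ', D.Xi x ξ → D'.Xi x' ξ' → E.Xi (fun y => Sum.elim (x y) (x' y)) fun a => ξ a + ξ' a

/-- duals. -/
def DualS : Prop := ∀ (r : Type) [Fintype r] [DecidableEq r] (D : Dt M p G r),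
  ∃ E : Dt M p G r, (∀ g, E.ρ g = (D.ρ g⁻¹)ᵀ) ∧ (∀ y, E.H y = (D.H y)⁻¹) ∧ (D.PH → E.PH) ∧
    (∀ τ, D.Tau τ → E.Tau τ) ∧ Loc M p fun _ z s => ∀ k,
      ca (E.H ∘ s) k z = -(ca (D.H ∘ s) k z)ᵀ ∧ cb (E.H ∘ s) k z = -(cb (D.H ∘ s) k z)ᵀ

/-- tensor products. -/
def TenS : Prop := ∀ (r r' : Type) [Fintype r] [DecidableEq r] [Fintype r'] [DecidableEq r']
  (D : Dt M p G r) (D' : Dt M p G r'), ∃ E : Dt M p G (r × r'),
    (∀ g, E.ρ g = D.ρ g ⊗ₖ D'.ρ g) ∧ (∀ y, E.H y = D.H y ⊗ₖ D'.H y) ∧ (D.PH → D'.PH → E.PH) ∧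
    Loc M p fun _ z s => ∀ k,
      ca (E.H ∘ s) k z = ca (D.H ∘ s) k z ⊗ₖ 1 + 1 ⊗ₖ ca (D'.H ∘ s) k z ∧
      cb (E.H ∘ s) k z = cb (D.H ∘ s) k z ⊗ₖ 1 + 1 ⊗ₖ cb (D'.H ∘ s) k z

/-- orthogonal flat summands (the range of `P`; `P * P'` is the orthogonal projector); this includes
changes of the basis. -/
def ResS : Prop := ∀ (r r' : Type) [Fintype r] [DecidableEq r] [Fintype r'] [DecidableEq r']
  (D : Dt M p G r) (P : Matrix r r' ℂ) (P' : Matrix r' r ℂ), P.map star = P → P'.map star = P' →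
  P' * P = 1 → (∀ g, D.ρ g * (P * P') = P * P' * D.ρ g) →
  (∀ y, D.H y * (P * P') = (P * P')ᵀ * D.H y) → ∃ E : Dt M p G r',
    (∀ g, E.ρ g = P' * D.ρ g * P) ∧ (∀ y, E.H y = Pᵀ * D.H y * P) ∧ (D.PH → E.PH) ∧
    (∀ g, D.Harm g → E.Harm g) ∧
    (Loc M p fun _ z s => ∀ k, ca (E.H ∘ s) k z = P' * ca (D.H ∘ s) k z * P ∧
      cb (E.H ∘ s) k z = P' * cb (D.H ∘ s) k z * P ∧
      ca (D.H ∘ s) k z * (P * P') = P * P' * ca (D.H ∘ s) k z ∧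
      cb (D.H ∘ s) k z * (P * P') = P * P' * cb (D.H ∘ s) k z) ∧
    ∀ c x, D.Aff c x → E.Aff (fun g => P' *ᵥ c g) (fun y => P' *ᵥ x y) ∧
      (D.PX x → E.PX fun y => P' *ᵥ x y)

/-- the two forms exist, are semipositive, and closed in the pluriharmonic case. -/
def FrmS : Prop := ∀ (r : Type) [Fintype r] [DecidableEq r] (D : Dt M p G r),
  (∃ τ, D.Tau τ ∧ M.SmF τ ∧ (∀ a, (τ a).PosSemidef) ∧ (D.PH → M.ClF τ)) ∧
    ∀ c x, D.Aff c x → ∃ ξ, D.Xi x ξ ∧ M.SmF ξ ∧ (∀ a, (ξ a).PosSemidef) ∧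
      ((∀ y, star (x y) = x y) → D.PX x → M.ClF ξ)

/-- closed one-forms on the covering space have primitives. -/
def PrimS : Prop := ∀ (r : Type) [Fintype r] [DecidableEq r] (a b : Ch ι X → Y → ι → V r),
  Fm1 M p a b → Cl1 M p a b → ∃ x, Sm M p x ∧ Dif1 M p x a b ∧
    ((∀ e y k, b e y k = star (a e y k)) → ∀ y, star (x y) = x y) ∧
    ∀ ρ : G →* Mat r, Eq1 p ρ a → Eq1 p ρ b → ∃ c, Coc ρ c ∧ ∀ (g : G) y, x (g • y) = ρ g *ᵥ x y + c g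

/-- the polarised double. -/
def DblS : Prop := ∀ (r : Type) [Fintype r] [DecidableEq r] (D : Dt M p G r) (c : G → V r)
  (x : Y → V r) (τ ξ : X → Mat ι), D.PH → D.Aff c x → (∀ y, star (x y) = x y) → D.PX x →
  D.Tau τ → D.Xi x ξ → ∃ (E : Dt M p G (r ⊕ r)) (Q : Mat (r ⊕ r)) (c' : G → V (r ⊕ r))
    (x' : Y → V (r ⊕ r)), E.PH ∧ E.Aff c' x' ∧ E.PX x' ∧ E.Pol Q x' ∧
    E.Tau (fun a => τ a + τ a) ∧ E.Xi x' fun a => ξ a + ξ a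

/-! ### section 1: harmonic metrics and the twisted Hodge theory -/

/-- the theorem of Corlette. -/
def CorS : Prop := ∀ g, M.IsK g → ∀ (r : Type) [Fintype r] [DecidableEq r] (ρ : G →* Mat r),
  RealR ρ → SsR ρ → ∃ D : Dt M p G r, D.ρ = ρ ∧ D.Harm g

/-- invariant subspaces are preserved by the Higgs field and have constant orthogonal projectors. -/
def FlatS : Prop := ∀ g, M.IsK g → ∀ (r : Type) [Fintype r] [DecidableEq r] (D : Dt M p G r),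
  D.Harm g → ∀ W, Ivt D.ρ W → ∃ P : Mat r, P * P = P ∧ (∀ v, v ∈ W ↔ P *ᵥ v = v) ∧
    (ReS W → P.map star = P) ∧ (∀ γ, D.ρ γ * P = P * D.ρ γ) ∧ (∀ y, D.H y * P = Pᴴ * D.H y) ∧
    Loc M p fun _ z s => ∀ k, ca (D.H ∘ s) k z * P = P * ca (D.H ∘ s) k z ∧
      cb (D.H ∘ s) k z * P = P * cb (D.H ∘ s) k z

/-- the Poisson equation and its kernel. -/
def PoiS [MeasurableSpace X] : Prop := ∀ g μ, M.IsK g → M.IsVol g μ →
  ∀ (r : Type) [Fintype r] [DecidableEq r] (D : Dt M p G r), D.Harm g →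
    (∀ f, D.Aff 0 f → (∀ v, (∀ γ, D.ρ γ *ᵥ v = v) → ∀ φ : X → ℂ,
      (∀ y, φ (p y) = ipV (D.H y) (f y) v) → ∫ a, φ a ∂μ = 0) → ∃ x, D.Aff 0 x ∧ D.Lap g x f) ∧
    ∀ x, D.Aff 0 x → D.Lap g x 0 → ∀ y y', x y = x y'

/-- harmonic representatives of cocycles. -/
def HodS : Prop := ∀ g, M.IsK g → ∀ (r : Type) [Fintype r] [DecidableEq r] (D : Dt M p G r),
  D.Harm g → ∀ c, Coc D.ρ c → ∃ x, D.Aff c x ∧ D.Lap g x 0 ∧
    ((∀ γ, star (c γ) = c γ) → ∀ y, star (x y) = x y)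

/-! ### section 2: pluriharmonicity, and formality -/

/-- the theorem of Siu and Sampson. -/
def SiuS : Prop := ∀ g, M.IsK g → ∀ (r : Type) [Fintype r] [DecidableEq r] (D : Dt M p G r),
  D.Harm g → D.PH

/-- harmonic equivariant maps are pluriharmonic. -/
def PxS : Prop := ∀ g, M.IsK g → ∀ (r : Type) [Fintype r] [DecidableEq r] (D : Dt M p G r),
  D.PH → ∀ c x, D.Aff c x → D.Lap g x 0 → D.PX x

/-- formality: `ρ` is block triangular for the degree `d` with graded part `D.ρ`. -/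
def FormS : Prop := ∀ g0, M.IsK g0 → ∀ (ζ : X → Mat ι) (U : Set X) (k : ℕ), M.ClF ζ →
  (∀ a, (ζ a).PosSemidef) →
  (∀ a, (ζ a).rank ≤ k) → IsOpen U → (∀ a ∈ U, (ζ a).rank = k) → MaxF M p G ζ U →
  ∀ (r : Type) [Fintype r] [DecidableEq r] (D : Dt M p G r) (d : r → ℕ) (ρ : G →* Mat r),
    IntR D.ρ → D.PH → (∀ y i j, d i ≠ d j → D.H y i j = 0) →
    (∀ g i j, (d i ≠ d j → D.ρ g i j = 0) ∧ (d i = d j → ρ g i j = D.ρ g i j) ∧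
      (d j < d i → ρ g i j = 0)) →
    ∃ Φ : Y → Mat r, SmH M p Φ ∧ (∀ y, (Φ y).PosDef) ∧
      (∀ (g : G) y, Φ (g • y) = ρ g * Φ y * (ρ g)ᴴ) ∧ ∀ i j, Kil M p ζ U fun y => Φ y i j

/-! ### sections 3, 4, 5: the volume -/

/-- a normal Margulis subgroup for the twisted Einstein metrics. -/
def MgN : Prop := ∀ g, M.IsK g → ∃ L ≥ (0 : ℝ), ∃ w > (0 : ℝ), ∃ N₀ : ℕ, ∀ ε ∈ Ioc (0 : ℝ) 1, ∀ u,
  M.Sol g ε u → ∃ (Z : Type) (_ : MulAction G Z) (_ : PseudoMetricSpace Z) (Φ : Y → Z)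
    (z : Fin N₀ → Z) (N : Subgroup G), (∀ (γ : G) (y y' : Z), dist (γ • y) (γ • y') = dist y y') ∧
    (∀ (γ : G) y, Φ (γ • y) = γ • Φ y) ∧
    (∀ y0, ∀ᶠ q : Y × Y in 𝓝 (y0, y0), dist (Φ q.1) (Φ q.2) ≤
      L * √(nV (M.hm g ε u (p y0)) (M.ch (p y0) (p q.2) - M.ch (p y0) (p q.1)))) ∧
    (∀ y, ∃ (i : Fin N₀) (γ : G), dist (z i) (γ • Φ y) < w) ∧
    N.Normal ∧ N.FG ∧ Group.IsVirtuallyNilpotent N ∧ ∀ i, N.relIndex (Hs G (z i) (10 * w)) ≠ 0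

/-- a datum of positive volume. -/
def VolV [MeasurableSpace X] : Prop := ∀ g μ, M.IsK g → M.IsVol g μ → NefA M g →
  ∃ (n : ℕ) (D : Dt M p G (Fin n)) (c : G → V (Fin n)) (x : Y → V (Fin n)) (τ ξ : X → Mat ι),
    D.PH ∧ D.Aff c x ∧ (∀ y, star (x y) = x y) ∧ D.PX x ∧ D.Tau τ ∧ D.Xi x ξ ∧
    0 < ∫ a, rat (fun y => -M.ricF g y + (τ y + ξ y)) g a ∂μ

/-! ### section 6 -/

def KBV [MeasurableSpace X] : Prop := ∀ g μ, M.IsK g → M.IsVol g μ → NefA M g → KB M g μ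

/-! ### section 7: rigidity -/

def RigS [MeasurableSpace X] : Prop := ∀ g μ, M.IsK g → M.IsVol g μ → NefA M g → KB M g μ →
  ∀ (r : Type) [Fintype r] [DecidableEq r] (D : Dt M p G r) (Q : Mat r) (c : G → V r)
    (x : Y → V r) (τ ξ : X → Mat ι), D.PH → D.Aff c x → D.PX x → D.Pol Q x → D.Tau τ → D.Xi x ξ →
    KCl M g (fun a => τ a + ξ a) → ∃ (m : ℕ) (E : Dt M p G (Fin (2 * m))) (Q' : Mat (Fin (2 * m)))
      (c' : G → V (Fin (2 * m))) (x' : Y → V (Fin (2 * m))) (h ξ' : X → Mat ι), E.Spl Q' c' x' h ξ'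

/-! ### section 8: sections -/

def SecV : Prop := ∀ (m : ℕ) (E : Dt M p G (Fin (2 * m))) (Q : Mat (Fin (2 * m)))
  (c : G → V (Fin (2 * m))) (x : Y → V (Fin (2 * m))) (h ξ : X → Mat ι), E.Spl Q c x h ξ →
  ∃ N : ℕ, 0 < N ∧ ∃ c0 : ℝ, 0 < c0 ∧ ∀ᶠ a : ℕ in atTop, ∃ (q : ℕ) (s : Fin q → X → ℂ),
    c0 * (a : ℝ) ^ (Fintype.card ι - m) ≤ q ∧ (∀ j, M.HolS (N * a) (s j)) ∧ LinearIndependent ℂ s

/-- the flat case. -/
def AbV : Prop := ∀ (m : ℕ) (E : Dt M p G (Fin (2 * m))) (Q : Mat (Fin (2 * m)))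
  (c : G → V (Fin (2 * m))) (x : Y → V (Fin (2 * m))) (h ξ : X → Mat ι), E.Spl Q c x h ξ →
  Fintype.card ι ≤ m → ∃ H : Subgroup G, H.FiniteIndex ∧ ∀ a ∈ H, ∀ b ∈ H, a * b = b * a

/-- no nondegenerate holomorphic maps from affine space. -/
def AhlV : Prop := ∀ (m : ℕ) (E : Dt M p G (Fin (2 * m))) (Q : Mat (Fin (2 * m)))
  (c : G → V (Fin (2 * m))) (x : Y → V (Fin (2 * m))) (h ξ : X → Mat ι), E.Spl Q c x h ξ →
  m < Fintype.card ι → ∀ f : V ι → X, Continuous f →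
  (∀ e ∈ M.A, ∀ z, f z ∈ e.source → AnalyticAt ℂ (e ∘ f) z) → (jac (M.ch (f 0) ∘ f) 0).det = 0

/-- the numerical dimension. -/
def NumV [ChartedSpace (ι → ℂ) X] [MeasurableSpace X] : Prop := ∀ (K : Kahler ι X) g, M.IsK g →
  (∀ e ∈ atlas (ι → ℂ) X, ∀ z ∈ e.target, M.repF g e z = K.g e z) →
  ∀ (m : ℕ) (E : Dt M p G (Fin (2 * m))) (Q : Mat (Fin (2 * m))) (c : G → V (Fin (2 * m)))
    (x : Y → V (Fin (2 * m))) (h ξ : X → Mat ι), E.Spl Q c x h ξ →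
    K.numDim ≤ Fintype.card ι - m

end par

end Pool.Agent.Lib.MP_813db1_ag.VH
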