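import Pool.Agent.Lib.MP_813db1_ag.VH.CoStmt
import Pool.Agent.Lib.MP_813db1_ag.VH.Stmt

/-! From irreducible to semisimple representations. -/

namespace Pool.Agent.Lib.MP_813db1_ag.VH.Co

open Pool.Agent.Lib.MP_813db1_ag.HS Pool.Agent.Lib.MP_813db1_ag.AS
open Matrix

namespace CoSum

variable {G r : Type} [Group G] [Fintype r] [DecidableEq r]

theorem fact_field {K : Type} [Field K] (E : Matrix r r K) (h : E * E = E) :
    ∃ (a : ℕ) (P : Matrix r (Fin a) K) (P' : Matrix (Fin a) r K), P' * P = 1 ∧ P * P' = E := by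
  let U := LinearMap.range (toLin' E)
  let b := (Module.finBasis K U).equivFun
  let f : (Fin (Module.finrank K U) → K) →ₗ[K] (r → K) := U.subtype ∘ₗ b.symm.toLinearMap
  let f' : (r → K) →ₗ[K] (Fin (Module.finrank K U) → K) :=
    b.toLinearMap ∘ₗ (toLin' E).rangeRestrict
  refine ⟨_, LinearMap.toMatrix' f, LinearMap.toMatrix' f', ?_, ?_⟩
  · rw [← LinearMap.toMatrix'_comp, ← LinearMap.toMatrix'_id]
    congr 1
    refine LinearMap.ext fun v => ?_
    have h1 : (toLin' E).rangeRestrict (b.symm v : U) = b.symm v := by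
      obtain ⟨w, hw⟩ := (b.symm v).2
      refine Subtype.ext ?_
      change toLin' E (b.symm v : U) = (b.symm v : U)
      rw [← hw, toLin'_apply, toLin'_apply, mulVec_mulVec, h]
    change b ((toLin' E).rangeRestrict (b.symm v : U)) = v
    rw [h1, b.apply_symm_apply]
  · rw [← LinearMap.toMatrix'_comp, ← LinearMap.toMatrix'_toLin' E]
    congr 1
    refine LinearMap.ext fun v => ?_
    change ((b.symm (b ((toLin' E).rangeRestrict v)) : U) : r → K) = _
    rw [b.symm_apply_apply]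
    rfl

theorem fact_real (E : Mat r) (hE : E.map star = E) (h : E * E = E) :
    ∃ (a : ℕ) (P : Matrix r (Fin a) ℂ) (P' : Matrix (Fin a) r ℂ), P.map star = P ∧
      P'.map star = P' ∧ P' * P = 1 ∧ P * P' = E ∧ (a : ℂ) = trace E := by
  have e : (E.map Complex.re).map Complex.ofRealHom = E := by
    ext i j
    exact Complex.conj_eq_iff_re.1 (congrFun (congrFun hE i) j)
  have h1 : E.map Complex.re * E.map Complex.re = E.map Complex.re := by
    refine Matrix.map_injective (f := Complex.ofRealHom) Complex.ofReal_injective ?_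
    simp only [Matrix.map_mul, e, h]
  obtain ⟨a, P, P', p1, p2⟩ := fact_field _ h1
  have q1 : P'.map Complex.ofRealHom * P.map Complex.ofRealHom = 1 := by
    rw [← Matrix.map_mul, p1]
    exact Matrix.map_one _ (map_zero _) (map_one _)
  have q2 : P.map Complex.ofRealHom * P'.map Complex.ofRealHom = E := by
    rw [← Matrix.map_mul, p2, e]
  refine ⟨a, _, _, ?_, ?_, q1, q2, ?_⟩
  · ext i j; simp
  · ext i j; simp
  · rw [← q2, trace_mul_comm, q1, trace_one, Fintype.card_fin]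

omit [DecidableEq r] in
theorem star_mv {s : Type} (A : Matrix s r ℂ) (v : r → ℂ) :
    star (A *ᵥ v) = A.map star *ᵥ star v := by
  ext i
  simp [mulVec, dotProduct]

omit [DecidableEq r] in
theorem map_star_mul {s t : Type} (A : Matrix s r ℂ) (B : Matrix r t ℂ) :
    (A * B).map star = A.map star * B.map star := Matrix.map_mul (f := starRingEnd ℂ)

theorem proj {ρ : G →* Mat r} {W W' : Submodule ℂ (V r)} (h : ReS W) (h' : ReS W')
    (i : Ivt ρ W) (i' : Ivt ρ W') (hc : IsCompl W W') :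
    ∃ E : Mat r, E.map star = E ∧ E * E = E ∧ (∀ g, ρ g * E = E * ρ g) ∧
      ∀ v, v ∈ W ↔ E *ᵥ v = v := by
  set E : Mat r := LinearMap.toMatrix' (W.projection W' hc) with hE
  have a1 : ∀ w ∈ W, E *ᵥ w = w := fun w hw => by
    rw [hE, LinearMap.toMatrix'_mulVec]; exact Submodule.projection_apply_of_mem_left hc hw
  have a2 : ∀ w ∈ W', E *ᵥ w = 0 := fun w hw => by
    rw [hE, LinearMap.toMatrix'_mulVec]; exact (Submodule.projection_apply_eq_zero_iff hc).2 hw
  have ext : ∀ A B : Mat r, (∀ w ∈ W, A *ᵥ w = B *ᵥ w) → (∀ w ∈ W', A *ᵥ w = B *ᵥ w) → A = B := by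
    intro A B b1 b2
    refine ext_iff_mulVec.2 fun v => ?_
    obtain ⟨w, w', e, -⟩ := Submodule.existsUnique_add_of_isCompl hc v
    rw [← e, mulVec_add, mulVec_add, b1 w w.2, b2 w' w'.2]
  have st : ∀ w, E.map star *ᵥ w = star (E *ᵥ star w) := fun w => by rw [star_mv, star_star]
  refine ⟨E, ext _ _ (fun w hw => ?_) fun w hw => ?_, ext _ _ (fun w hw => ?_) fun w hw => ?_,
    fun g => ext _ _ (fun w hw => ?_) fun w hw => ?_, fun v => ⟨a1 v, fun hv => ?_⟩⟩
  · rw [st, a1 _ (h w hw), star_star, a1 w hw]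
  · rw [st, a2 _ (h' w hw), star_zero, a2 w hw]
  · rw [← mulVec_mulVec, a1 w hw, a1 w hw]
  · rw [← mulVec_mulVec, a2 w hw, mulVec_zero]
  · rw [← mulVec_mulVec, ← mulVec_mulVec, a1 w hw, a1 _ (i g w hw)]
  · rw [← mulVec_mulVec, ← mulVec_mulVec, a2 w hw, a2 _ (i' g w hw), mulVec_zero]
  · rw [← hv, hE, LinearMap.toMatrix'_mulVec]
    exact Submodule.projection_apply_mem hc v

theorem sub {s : Type} [Fintype s] [DecidableEq s] {ρ : G →* Mat r} (hr : RealR ρ) (hs : SsR ρ)
    {P : Matrix r s ℂ} {P' : Matrix s r ℂ} (p : P.map star = P) (p' : P'.map star = P')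
    (h1 : P' * P = 1) (h2 : ∀ g, ρ g * (P * P') = P * P' * ρ g) :
    ∃ σ : G →* Mat s, RealR σ ∧ SsR σ ∧ ∀ g, ρ g * P = P * σ g := by
  have key : ∀ g, ρ g * P = P * (P' * ρ g * P) := fun g => by
    have := congrArg (· * P) (h2 g)
    simp only [Matrix.mul_assoc, h1, Matrix.mul_one] at this
    simpa only [Matrix.mul_assoc] using this
  let σ : G →* Mat s :=
    { toFun := fun g => P' * ρ g * P
      map_one' := by rw [map_one, Matrix.mul_one, h1]
      map_mul' := fun g g' => by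
        rw [map_mul, Matrix.mul_assoc (P' * ρ g), ← key]
        simp only [Matrix.mul_assoc] }
  have kv : ∀ g v, ρ g *ᵥ (P *ᵥ v) = P *ᵥ (σ g *ᵥ v) := fun g v => by
    rw [mulVec_mulVec, mulVec_mulVec, key]; rfl
  have sv : ∀ v, star (P *ᵥ v) = P *ᵥ star v := fun v => by rw [star_mv, p]
  have inj : ∀ v w, P *ᵥ v = P *ᵥ w → v = w := fun v w e => by
    have := congrArg (P' *ᵥ ·) e
    simpa only [mulVec_mulVec, h1, one_mulVec] using this
  refine ⟨σ, fun g => ?_, fun W hW iW => ?_, key⟩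
  · change (P' * ρ g * P).map star = P' * ρ g * P
    rw [map_star_mul, map_star_mul, p, p', hr g]
  obtain ⟨U, u1, u2, u3⟩ := hs (W.map P.mulVecLin)
    (by
      rintro _ ⟨w, hw, rfl⟩
      exact ⟨star w, hW w hw, (sv w).symm⟩)
    (by
      rintro g _ ⟨w, hw, rfl⟩
      exact ⟨σ g *ᵥ w, iW g w hw, (kv g w).symm⟩)
  refine ⟨U.comap P.mulVecLin, fun v hv => ?_, fun g v hv => ?_, ?_, ?_⟩
  · have := u1 _ hv
    rwa [mulVecLin_apply, sv] at this
  · have := u2 g _ hv
    rwa [mulVecLin_apply, kv] at this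
  · rw [Submodule.disjoint_def]
    intro v hv hv'
    have := (Submodule.disjoint_def.1 u3.disjoint) _ ⟨v, hv, rfl⟩ hv'
    exact inj _ _ (by rw [mulVec_zero]; exact this)
  · rw [codisjoint_iff, eq_top_iff]
    intro v _
    obtain ⟨⟨_, w, hw, rfl⟩, u, e, -⟩ := Submodule.existsUnique_add_of_isCompl u3 (P *ᵥ v)
    refine Submodule.mem_sup.2 ⟨w, hw, v - w, ?_, by abel⟩
    have e' : P *ᵥ (v - w) = u := by
      rw [mulVec_sub, ← e]
      exact add_sub_cancel_left _ _
    change P *ᵥ (v - w) ∈ U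
    rw [e']
    exact u.2

end CoSum

open CoSum in
theorem corS' {ι X Y G : Type} [Fintype ι] [DecidableEq ι] [TopologicalSpace X]
    [TopologicalSpace Y] [Group G] [MulAction G Y] {c : Sx ι X Y G} (h1 : c.CiS) (h2 : c.DcS)
    (h3 : SumS c.M c.p G) (h4 : ResS c.M c.p G) (r : Type) [Fintype r] [DecidableEq r]
    (ρ : G →* Mat r) (hr : RealR ρ) (hs : SsR ρ) :
    ∃ D : Dt c.M c.p G r, D.ρ = ρ ∧ D.Harm c.g := by
  generalize hn : Fintype.card r = n
  induction n using Nat.strong_induction_on generalizing r with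
  | _ n ih =>
  by_cases hi : Irr ρ
  · obtain ⟨H, hH⟩ := h1 r ρ hr hi
    obtain ⟨D, d1, d2⟩ := h2.mk' r ρ H hH
    exact ⟨D, d1, (h2.har r D).2.2 (by rw [d1, d2]; exact hH)⟩
  simp only [Irr, not_forall, not_or] at hi
  obtain ⟨W, w1, w2, w3, w4⟩ := hi
  obtain ⟨W', v1, v2, v3⟩ := hs W w1 w2
  obtain ⟨E, e1, e2, e3, e4⟩ := proj w1 v1 w2 v2 v3
  have f1 : (1 - E).map star = 1 - E := by
    rw [Matrix.map_sub _ (star_sub), e1, Matrix.map_one _ (star_zero _) (star_one _)]
  have f2 : (1 - E) * (1 - E) = 1 - E := by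
    rw [Matrix.mul_sub, Matrix.mul_one, Matrix.sub_mul, Matrix.one_mul, e2, sub_self, sub_zero]
  obtain ⟨a, P, P', p1, p2, p3, p4, p5⟩ := fact_real E e1 e2
  obtain ⟨b, Q, Q', q1, q2, q3, q4, q5⟩ := fact_real (1 - E) f1 f2
  have hab : a + b = n := by
    have : ((a + b : ℕ) : ℂ) = n := by
      rw [Nat.cast_add, p5, q5, trace_sub, trace_one, hn]; ring
    exact_mod_cast this
  have ha : a ≠ 0 := by
    rintro rfl
    refine w3 (eq_bot_iff.2 fun v hv => ?_)
    rw [← (e4 v).1 hv, ← p4, ← mulVec_mulVec, Subsingleton.elim (P' *ᵥ v) 0, mulVec_zero]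
    exact Submodule.zero_mem _
  have hb : b ≠ 0 := by
    rintro rfl
    refine w4 (eq_top_iff.2 fun v _ => (e4 v).2 ?_)
    have : (1 - E) *ᵥ v = 0 := by
      rw [← q4, ← mulVec_mulVec, Subsingleton.elim (Q' *ᵥ v) 0, mulVec_zero]
    rw [sub_mulVec, one_mulVec, sub_eq_zero] at this
    exact this.symm
  obtain ⟨σ, s1, s2, s3⟩ := sub hr hs p1 p2 p3 (by rw [p4]; exact e3)
  obtain ⟨τ, t1, t2, t3⟩ := sub hr hs q1 q2 q3 (fun g => by
    rw [q4, Matrix.mul_sub, Matrix.sub_mul, e3, Matrix.mul_one, Matrix.one_mul])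
  obtain ⟨D, d1, d2⟩ := ih a (by omega) (Fin a) σ s1 s2 (Fintype.card_fin a)
  obtain ⟨D', d3, d4⟩ := ih b (by omega) (Fin b) τ t1 t2 (Fintype.card_fin b)
  obtain ⟨F, g1, -, -, g2, -⟩ := h3 _ _ D D'
  have one : fromCols P Q * fromRows P' Q' = 1 := by
    rw [fromCols_mul_fromRows, p4, q4, add_sub_cancel]
  have one' : fromRows P' Q' * fromCols P Q = 1 := by
    have z1 : P' * Q = 0 := by
      have : P' * (P * P') * (Q * Q') * Q = 0 := by
        rw [p4, q4, Matrix.mul_assoc P', Matrix.mul_sub, e2, Matrix.mul_one, sub_self,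
          Matrix.mul_zero, Matrix.zero_mul]
      rwa [← Matrix.mul_assoc P', p3, Matrix.one_mul, Matrix.mul_assoc, Matrix.mul_assoc, q3,
        Matrix.mul_one] at this
    have z2 : Q' * P = 0 := by
      have : Q' * (Q * Q') * (P * P') * P = 0 := by
        rw [p4, q4, Matrix.mul_assoc Q', Matrix.sub_mul, e2, Matrix.one_mul, sub_self,
          Matrix.mul_zero, Matrix.zero_mul]
      rwa [← Matrix.mul_assoc Q', q3, Matrix.one_mul, Matrix.mul_assoc, Matrix.mul_assoc, p3,
        Matrix.mul_one] at this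
    rw [fromRows_mul_fromCols, p3, q3, z1, z2, fromBlocks_one]
  obtain ⟨K, k1, -, -, k2, -⟩ := h4 _ _ F (fromRows P' Q') (fromCols P Q)
    (by rw [fromRows_map, p2, q2]) (by rw [fromCols_map, p1, q1]) one
    (fun g => by rw [one', Matrix.mul_one, Matrix.one_mul])
    (fun y => by rw [one', Matrix.mul_one, transpose_one, Matrix.one_mul])
  refine ⟨K, MonoidHom.ext fun g => ?_, k2 _ (g2 _ d2 d4)⟩
  rw [k1, g1, d1, d3, fromCols_mul_fromBlocks, Matrix.mul_zero, Matrix.mul_zero, add_zero, zero_add,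
    ← s3, ← t3, ← mul_fromCols, Matrix.mul_assoc, one, Matrix.mul_one]

end Pool.Agent.Lib.MP_813db1_ag.VH.Co
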