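import Pool.Agent.Lib.MP_813db1_ag.VH.Stmt
import Pool.Agent.Lib.MP_813db1_ag.HS.Calc

/-! Orthogonal flat summands. -/

namespace Pool.Agent.Lib.MP_813db1_ag.VH

open Pool.Agent.Lib.MP_813db1_ag.HS Pool.Agent.Lib.MP_813db1_ag.AS
open Complex Matrix Filter Topology Set
open scoped ContDiff ComplexOrder

namespace Res

section cal

variable {ι σ τ σ' τ' : Type} [Fintype ι] [DecidableEq ι] [Fintype σ] [Fintype τ] {z : V ι}
  {F : V ι → Matrix σ τ ℂ} {x : V ι → V σ}

theorem ent (A : Matrix σ' σ ℂ) (B : Matrix τ τ' ℂ) (i : σ') (j : τ') (C : Matrix σ τ ℂ) :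
    (A * C * B) i j = ∑ q : σ × τ, A i q.1 * B q.2 j * C q.1 q.2 := by
  simp only [mul_apply, Finset.sum_mul, Fintype.sum_prod_type_right]
  exact Finset.sum_congr rfl fun _ _ => Finset.sum_congr rfl fun _ _ => by ring

theorem dR_mul (h : ∀ i j, DifferentiableAt ℝ (fun w => F w i j) z) (A : Matrix σ' σ ℂ)
    (B : Matrix τ τ' ℂ) (k : ι) : dR (fun w => A * F w * B) k z = A * dR F k z * B := by
  ext i j
  simp only [dR, of_apply, ent]
  rw [dz_sum _ fun q _ => (h _ _).const_mul _]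
  exact Finset.sum_congr rfl fun q _ => dz_cmul _ (h _ _) k

theorem dRb_mul (h : ∀ i j, DifferentiableAt ℝ (fun w => F w i j) z) (A : Matrix σ' σ ℂ)
    (B : Matrix τ τ' ℂ) (k : ι) : dRb (fun w => A * F w * B) k z = A * dRb F k z * B := by
  ext i j
  simp only [dRb, of_apply, ent]
  rw [dzb_sum _ fun q _ => (h _ _).const_mul _]
  exact Finset.sum_congr rfl fun q _ => dzb_cmul _ (h _ _) k

omit [DecidableEq ι] [Fintype σ] [Fintype τ] in
theorem df (h : SmR F z) (i : σ) (j : τ) : DifferentiableAt ℝ (fun w => F w i j) z :=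
  (h i j).differentiableAt (by simp)

theorem ddR_mul (h : SmR F z) (A : Matrix σ' σ ℂ) (B : Matrix τ τ' ℂ) (i j : ι) :
    dR (dRb (fun w => A * F w * B) j) i z = A * dR (dRb F j) i z * B := by
  rw [← dR_mul (F := dRb F j) fun a b =>
    (contDiffAt_dzb_top (h a b) j).differentiableAt (by simp)]
  ext a b
  refine dz_congr ?_ i
  have : ∀ᶠ w in 𝓝 z, ∀ a b, DifferentiableAt ℝ (fun w => F w a b) w :=
    eventually_all.2 fun a => eventually_all.2 fun b =>
      eventually_diff ((h a b).of_le (WithTop.coe_le_coe.2 le_top))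
  exact this.mono fun w hw => congrFun (congrFun (dRb_mul hw A B j) a) b

omit [DecidableEq ι] in
theorem smR_mul (h : SmR F z) (A : Matrix σ' σ ℂ) (B : Matrix τ τ' ℂ) :
    SmR (fun w => A * F w * B) z := fun i j => by
  simp only [ent]
  exact ContDiffAt.sum fun q _ => contDiffAt_const.mul (h _ _)

theorem dV_mul (h : ∀ i, DifferentiableAt ℝ (fun w => x w i) z) (A : Matrix σ' σ ℂ) (k : ι) :
    dV (fun w => A *ᵥ x w) k z = A *ᵥ dV x k z := by
  ext i
  simp only [dV, mulVec, dotProduct]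
  rw [dz_sum _ fun q _ => (h _).const_mul _]
  exact Finset.sum_congr rfl fun q _ => dz_cmul _ (h _) k

theorem dVb_mul (h : ∀ i, DifferentiableAt ℝ (fun w => x w i) z) (A : Matrix σ' σ ℂ) (k : ι) :
    dVb (fun w => A *ᵥ x w) k z = A *ᵥ dVb x k z := by
  ext i
  simp only [dVb, mulVec, dotProduct]
  rw [dzb_sum _ fun q _ => (h _).const_mul _]
  exact Finset.sum_congr rfl fun q _ => dzb_cmul _ (h _) k

omit [DecidableEq ι] in
theorem dfV (h : ContDiffAt ℝ ∞ x z) (i : σ) : DifferentiableAt ℝ (fun w => x w i) z :=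
  (contDiffAt_pi.1 h i).differentiableAt (by simp)

theorem ddV_mul (h : ContDiffAt ℝ ∞ x z) (A : Matrix σ' σ ℂ) (i j : ι) :
    dV (dVb (fun w => A *ᵥ x w) j) i z = A *ᵥ dV (dVb x j) i z := by
  rw [← dV_mul (x := dVb x j) fun a =>
    (contDiffAt_dzb_top (contDiffAt_pi.1 h a) j).differentiableAt (by simp)]
  ext a
  refine dz_congr ?_ i
  have : ∀ᶠ w in 𝓝 z, ∀ a, DifferentiableAt ℝ (fun w => x w a) w :=
    eventually_all.2 fun a =>
      eventually_diff ((contDiffAt_pi.1 h a).of_le (WithTop.coe_le_coe.2 le_top))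
  exact this.mono fun w hw => congrFun (dVb_mul hw A j) a

end cal

section alg

variable {r r' : Type} [Fintype r] [DecidableEq r] [Fintype r'] [DecidableEq r']
  {P : Matrix r r' ℂ} {P' : Matrix r' r ℂ} {H A B : Mat r}

omit [DecidableEq r] in
theorem piP (h : P' * P = 1) : P * P' * P = P := by rw [Matrix.mul_assoc, h, Matrix.mul_one]

omit [DecidableEq r] in
theorem left (h : P' * P = 1) (hA : A * (P * P') = P * P' * A) : P' * A * P * P' = P' * A := by
  rw [Matrix.mul_assoc, Matrix.mul_assoc, hA, ← Matrix.mul_assoc, ← Matrix.mul_assoc, h,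
    Matrix.one_mul]

omit [DecidableEq r] in
theorem mul2 (h : P' * P = 1) (hA : A * (P * P') = P * P' * A) (B : Mat r) :
    P' * A * P * (P' * B * P) = P' * (A * B) * P := by
  rw [← Matrix.mul_assoc, ← Matrix.mul_assoc, left h hA, Matrix.mul_assoc P']

omit [DecidableEq r] in
theorem vec2 (h : P' * P = 1) (hA : A * (P * P') = P * P' * A) (v : V r) :
    (P' * A * P) *ᵥ P' *ᵥ v = P' *ᵥ A *ᵥ v := by
  rw [mulVec_mulVec, mulVec_mulVec, left h hA]

omit [DecidableEq r'] in
theorem comm (h0 : H.PosDef) (hH : H * (P * P') = (P * P')ᵀ * H)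
    (hB : B * (P * P') = (P * P')ᵀ * B) : H⁻¹ * B * (P * P') = P * P' * (H⁻¹ * B) := by
  have u := (isUnit_iff_isUnit_det _).1 h0.isUnit
  rw [Matrix.mul_assoc, hB, ← nonsing_inv_mul_cancel_left H (P * P' * (H⁻¹ * B)) u,
    ← Matrix.mul_assoc H, hH, Matrix.mul_assoc _ H, mul_nonsing_inv_cancel_left _ _ u]

omit [DecidableEq r] in
theorem pos (h : P' * P = 1) (hP : P.map star = P) (h0 : H.PosDef) : (Pᵀ * H * P).PosDef := by
  have e : Pᴴ = Pᵀ := congrArg transpose hP
  rw [← e]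
  refine h0.conjTranspose_mul_mul_same fun u v huv => ?_
  have := congrArg (P' *ᵥ ·) huv
  simpa only [mulVec_mulVec, h, one_mulVec] using this

theorem inv_mul (h : P' * P = 1) (hP : P.map star = P) (h0 : H.PosDef)
    (hH : H * (P * P') = (P * P')ᵀ * H) (B : Mat r) :
    (Pᵀ * H * P)⁻¹ * (Pᵀ * B * P) = P' * (H⁻¹ * B) * P := by
  have u := (isUnit_iff_isUnit_det _).1 h0.isUnit
  have u' := (isUnit_iff_isUnit_det _).1 (pos h hP h0).isUnit
  have e : Pᵀ * H * P * (P' * (H⁻¹ * B) * P) = Pᵀ * B * P := by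
    calc _ = Pᵀ * (H * (P * P')) * (H⁻¹ * B) * P := by simp only [Matrix.mul_assoc]
      _ = (P * P' * P)ᵀ * (H * (H⁻¹ * B)) * P := by
        rw [hH, transpose_mul (P * P')]
        simp only [Matrix.mul_assoc]
      _ = _ := by rw [piP h, mul_nonsing_inv_cancel_left _ _ u]
  rw [← e, nonsing_inv_mul_cancel_left _ _ u']

theorem map_mul' {l m n : Type} [Fintype m] (A : Matrix l m ℂ) (B : Matrix m n ℂ) :
    (A * B).map star = A.map star * B.map star := Matrix.map_mul (f := starRingEnd ℂ)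

end alg

section loc

variable {ι r r' : Type} [Fintype ι] [DecidableEq ι] [Fintype r] [DecidableEq r] [Fintype r']
  [DecidableEq r'] {P : Matrix r r' ℂ} {P' : Matrix r' r ℂ} {H : V ι → Mat r} {z : V ι}
  (h : P' * P = 1) (hP : P.map star = P) (h0 : (H z).PosDef)
  (hH : ∀ w, H w * (P * P') = (P * P')ᵀ * H w) (hs : SmR H z)

include h0 hH hs in
omit [DecidableEq r'] in
theorem cab_comm (k : ι) : ca H k z * (P * P') = P * P' * ca H k z ∧
    cb H k z * (P * P') = P * P' * cb H k z := by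
  have e : (fun w => (1 : Mat r) * H w * (P * P')) = fun w => (P * P')ᵀ * H w * (1 : Mat r) :=
    funext fun w => by rw [Matrix.one_mul, Matrix.mul_one, hH]
  refine ⟨comm h0 (hH z) ?_, comm h0 (hH z) ?_⟩
  · have := dR_mul (df hs) (1 : Mat r) (P * P') k
    rw [e, dR_mul (df hs), Matrix.one_mul, Matrix.mul_one] at this
    exact this.symm
  · have := dRb_mul (df hs) (1 : Mat r) (P * P') k
    rw [e, dRb_mul (df hs), Matrix.one_mul, Matrix.mul_one] at this
    exact this.symm

include h hP h0 hH hs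

theorem ca_eq (k : ι) : ca (fun w => Pᵀ * H w * P) k z = P' * ca H k z * P := by
  rw [ca, dR_mul (df hs), inv_mul h hP h0 (hH z), ca]

theorem cb_eq (k : ι) : cb (fun w => Pᵀ * H w * P) k z = P' * cb H k z * P := by
  rw [cb, dRb_mul (df hs), inv_mul h hP h0 (hH z), cb]

theorem ph_eq (i j : ι) : ph (fun w => Pᵀ * H w * P) i j z = P' * ph H i j z * P := by
  rw [ph, ph, ca_eq h hP h0 hH hs, cb_eq h hP h0 hH hs, ddR_mul hs, inv_mul h hP h0 (hH z),
    mul2 h (cab_comm h0 hH hs i).1, mul2 h (cab_comm h0 hH hs j).2]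
  simp only [Matrix.mul_sub, Matrix.sub_mul, Matrix.mul_add, Matrix.add_mul, Matrix.mul_smul,
    Matrix.smul_mul]

theorem px_eq {x : V ι → V r} (hx : ContDiffAt ℝ ∞ x z) (i j : ι) :
    px (fun w => Pᵀ * H w * P) (fun w => P' *ᵥ x w) i j z = P' *ᵥ px H x i j z := by
  rw [px, px, ca_eq h hP h0 hH hs, cb_eq h hP h0 hH hs, ddV_mul hx, dV_mul (dfV hx),
    dVb_mul (dfV hx), vec2 h (cab_comm h0 hH hs i).1, vec2 h (cab_comm h0 hH hs j).2]
  simp only [mulVec_add, mulVec_smul]

end loc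

end Res

variable {ι X Y G : Type} [Fintype ι] [DecidableEq ι] [TopologicalSpace X] [TopologicalSpace Y]
  [Group G] [MulAction G Y] {M : Atl ι X} {p : Y → X}

open Res in
theorem resS : ResS M p G := by
  intro r r' _ _ _ _ D P P' hP hP' h hρ hH
  have a := fun e he z hz s hs k =>
    ca_eq h hP (D.pos (s z)) (fun w => hH (s w)) (D.sm e he z hz s hs) (H := D.H ∘ s) k
  have b := fun e he z hz s hs k =>
    cb_eq h hP (D.pos (s z)) (fun w => hH (s w)) (D.sm e he z hz s hs) (H := D.H ∘ s) k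
  have c := fun e he z hz s hs k =>
    cab_comm (D.pos (s z)) (fun w => hH (s w)) (D.sm e he z hz s hs) (H := D.H ∘ s) k
  have q := fun e he z hz s hs i j =>
    ph_eq h hP (D.pos (s z)) (fun w => hH (s w)) (D.sm e he z hz s hs) (H := D.H ∘ s) i j
  refine ⟨{ ρ := { toFun := fun g => P' * D.ρ g * P
                   map_one' := by rw [map_one, Matrix.mul_one, h]
                   map_mul' := fun g g' => by rw [map_mul, mul2 h (hρ g)] }
            H := fun y => Pᵀ * D.H y * P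
            reR := fun g => ?_
            reH := fun y => ?_
            pos := fun y => pos h hP (D.pos y)
            eqv := fun g y => ?_
            sm := fun e he z hz s hs => smR_mul (D.sm e he z hz s hs) _ _ },
    fun _ => rfl, fun _ => rfl, fun hD e he z hz s hs => ⟨fun i j => ?_, fun i k => ?_⟩,
    fun g hD e he z hz s hs => ?_,
    fun e he z hz s hs k => ⟨a e he z hz s hs k, b e he z hz s hs k, c e he z hz s hs k⟩,
    fun c' x hx => ⟨⟨fun e he z hz s hs => ?_, fun g y => ?_⟩,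
      fun hX e he z hz s hs => ⟨fun i j => ?_, fun i k => ?_, fun i k => ?_⟩⟩⟩
  · show (P' * D.ρ g * P).map star = P' * D.ρ g * P
    rw [map_mul', map_mul', hP, hP', D.reR g]
  · rw [map_mul', map_mul', D.reH y, transpose_map, hP]
  · have e : P * (P' * D.ρ g⁻¹ * P) = D.ρ g⁻¹ * P := by
      rw [← Matrix.mul_assoc, ← Matrix.mul_assoc, ← hρ, Matrix.mul_assoc, piP h]
    show _ = (P' * D.ρ g⁻¹ * P)ᵀ * (Pᵀ * D.H y * P) * (P' * D.ρ g⁻¹ * P)
    calc _ = (D.ρ g⁻¹ * P)ᵀ * D.H y * (D.ρ g⁻¹ * P) := by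
          rw [transpose_mul, D.eqv]
          simp only [Matrix.mul_assoc]
      _ = _ := by
          rw [← e, transpose_mul P]
          simp only [Matrix.mul_assoc]
  · refine (q e he z hz s hs i j).trans ?_
    rw [(hD e he z hz s hs).1 i j, Matrix.mul_zero, Matrix.zero_mul]
  · refine (congrArg₂ (· * ·) (a e he z hz s hs i) (a e he z hz s hs k)).trans
      (Eq.trans ?_ (congrArg₂ (· * ·) (a e he z hz s hs k) (a e he z hz s hs i)).symm)
    rw [mul2 h (c e he z hz s hs i).1, mul2 h (c e he z hz s hs k).1, (hD e he z hz s hs).2 i k]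
  · have := congrArg (P' * · * P) (hD e he z hz s hs)
    simp only [tg, Matrix.mul_sum, Matrix.sum_mul, Matrix.mul_smul, Matrix.smul_mul,
      Matrix.mul_zero, Matrix.zero_mul, ← q e he z hz s hs] at this
    exact this
  · exact contDiffAt_pi.2 fun i => ContDiffAt.sum (s := Finset.univ) fun j _ =>
      contDiffAt_const.mul (contDiffAt_pi.1 (hx.1 e he z hz s hs) j)
  · show P' *ᵥ x (g • y) = (P' * D.ρ g * P) *ᵥ P' *ᵥ x y + P' *ᵥ c' g
    rw [hx.2, mulVec_add, vec2 h (hρ g)]
  · refine (px_eq h hP (D.pos (s z)) (fun w => hH (s w)) (D.sm e he z hz s hs) (H := D.H ∘ s)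
      (hx.1 e he z hz s hs) i j).trans ?_
    rw [(hX e he z hz s hs).1 i j, mulVec_zero]
  · have d := fun k => dV_mul (dfV (hx.1 e he z hz s hs)) P' k
    refine (congrArg₂ (· *ᵥ ·) (a e he z hz s hs i) (d k)).trans
      (Eq.trans ?_ (congrArg₂ (· *ᵥ ·) (a e he z hz s hs k) (d i)).symm)
    rw [vec2 h (c e he z hz s hs i).1, vec2 h (c e he z hz s hs k).1, (hX e he z hz s hs).2.1 i k]
  · have d := fun k => dVb_mul (dfV (hx.1 e he z hz s hs)) P' k
    refine (congrArg₂ (· *ᵥ ·) (b e he z hz s hs i) (d k)).trans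
      (Eq.trans ?_ (congrArg₂ (· *ᵥ ·) (b e he z hz s hs k) (d i)).symm)
    rw [vec2 h (c e he z hz s hs i).2, vec2 h (c e he z hz s hs k).2, (hX e he z hz s hs).2.2 i k]

end Pool.Agent.Lib.MP_813db1_ag.VH
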