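import Pool.Agent.Lib.MP_813db1_ag.VH.Stmt

/-! Direct sums of representations with equivariant metrics. -/

set_option linter.unusedSectionVars false

namespace Pool.Agent.Lib.MP_813db1_ag.VH

open Pool.Agent.Lib.MP_813db1_ag.HS Pool.Agent.Lib.MP_813db1_ag.AS
open Complex Matrix
open scoped ComplexOrder

namespace SumA

variable {ι r r' : Type} [Fintype ι] [DecidableEq ι]

/-- block diagonal matrices. -/
def bd (a : V ι → Mat r) (d : V ι → Mat r') (w : V ι) : Mat (r ⊕ r') := fromBlocks (a w) 0 0 (d w)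

/-- pairs of vectors. -/
def pr (a : V ι → V r) (d : V ι → V r') (w : V ι) : V (r ⊕ r') := Sum.elim (a w) (d w)

variable (a : V ι → Mat r) (d : V ι → Mat r') (x : V ι → V r) (x' : V ι → V r') (i j : ι)
  {z : V ι}

theorem dR_bd : dR (bd a d) i = bd (dR a i) (dR d i) := by
  ext z (s | s) (t | t) <;> simp [dR, bd, dz]

theorem dRb_bd : dRb (bd a d) i = bd (dRb a i) (dRb d i) := by
  ext z (s | s) (t | t) <;> simp [dRb, bd, dzb]

theorem dV_pr : dV (pr x x') i = pr (dV x i) (dV x' i) := by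
  ext z (s | s) <;> rfl

theorem dVb_pr : dVb (pr x x') i = pr (dVb x i) (dVb x' i) := by
  ext z (s | s) <;> rfl

variable [Fintype r] [DecidableEq r] [Fintype r'] [DecidableEq r']

omit [DecidableEq r] [DecidableEq r'] in
theorem mul (A B : Mat r) (C D : Mat r') :
    fromBlocks A 0 0 C * fromBlocks B 0 0 D = fromBlocks (A * B) 0 0 (C * D) := by
  simp [fromBlocks_multiply]

omit [DecidableEq r] [DecidableEq r'] in
theorem mv (A : Mat r) (C : Mat r') (u : V r) (v : V r') :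
    fromBlocks A 0 0 C *ᵥ Sum.elim u v = Sum.elim (A *ᵥ u) (C *ᵥ v) := by
  simp [fromBlocks_mulVec]

omit [DecidableEq r] [DecidableEq r'] in
theorem pos {A : Mat r} {C : Mat r'} (hA : A.PosDef) (hC : C.PosDef) :
    (fromBlocks A 0 0 C).PosDef := by
  refine posDef_iff_dotProduct_mulVec.2 ⟨IsHermitian.fromBlocks hA.1 (by simp) hC.1, fun v hv => ?_⟩
  obtain ⟨u, v, rfl⟩ : ∃ u w, v = Sum.elim u w := ⟨_, _, (Sum.elim_comp_inl_inr v).symm⟩
  rw [mv, show star (Sum.elim u v) = Sum.elim (star u) (star v) by ext (i | i) <;> rfl,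
    sumElim_dotProduct_sumElim]
  by_cases h : u = 0
  · exact add_pos_of_nonneg_of_pos (hA.posSemidef.dotProduct_mulVec_nonneg u)
      (hC.dotProduct_mulVec_pos fun e => hv (by simp [h, e]))
  · exact add_pos_of_pos_of_nonneg (hA.dotProduct_mulVec_pos h)
      (hC.posSemidef.dotProduct_mulVec_nonneg v)

variable {a d} (ha : (a z).PosDef) (hd : (d z).PosDef)
include ha hd

theorem inv : (bd a d z)⁻¹ = fromBlocks (a z)⁻¹ 0 0 (d z)⁻¹ :=
  inv_eq_right_inv (by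
    rw [bd, mul, mul_nonsing_inv _ ((isUnit_iff_isUnit_det _).1 ha.isUnit),
      mul_nonsing_inv _ ((isUnit_iff_isUnit_det _).1 hd.isUnit), fromBlocks_one])

theorem ca_bd : ca (bd a d) i z = fromBlocks (ca a i z) 0 0 (ca d i z) := by
  rw [ca, inv ha hd, dR_bd, bd, mul, ca, ca]

theorem cb_bd : cb (bd a d) i z = fromBlocks (cb a i z) 0 0 (cb d i z) := by
  rw [cb, inv ha hd, dRb_bd, bd, mul, cb, cb]

theorem ph_bd : ph (bd a d) i j z = fromBlocks (ph a i j z) 0 0 (ph d i j z) := by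
  rw [ph, ca_bd i ha hd, cb_bd j ha hd, inv ha hd, dRb_bd, dR_bd, bd, mul, mul, mul]
  ext (s | s) (t | t) <;> simp [ph]

theorem px_bd : px (bd a d) (pr x x') i j z = Sum.elim (px a x i j z) (px d x' i j z) := by
  rw [px, ca_bd i ha hd, cb_bd j ha hd, dVb_pr, dV_pr, dV_pr, pr, pr, pr, mv, mv]
  ext (s | s) <;> rfl

theorem tau_bd : tauL (bd a d) z = tauL a z + tauL d z := by
  ext i j
  simp [tauL, ca_bd _ ha hd, cb_bd _ ha hd, mul, trace, add_div]

omit ha hd [DecidableEq r] [DecidableEq r'] in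
theorem xi_bd : xiL (bd a d) (pr x x') z = xiL a x z + xiL d x' z := by
  ext i j
  simp [xiL, dV_pr, ipV, bd, pr]

omit ha hd in
theorem tg_bd (g : Mat ι) (B : ι → ι → Mat r) (C : ι → ι → Mat r') :
    tg g (fun i j => fromBlocks (B i j) 0 0 (C i j)) = fromBlocks (tg g B) 0 0 (tg g C) := by
  ext (s | s) (t | t) <;> simp [tg, Matrix.sum_apply]

end SumA

open SumA in
theorem sumS {ι X Y G : Type} [Fintype ι] [DecidableEq ι] [TopologicalSpace X] [TopologicalSpace Y]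
    [Group G] [MulAction G Y] {M : Atl ι X} {p : Y → X} : SumS M p G := by
  intro r r' _ _ _ _ D D'
  have rp : ∀ (P Q : X → Mat ι) e z,
      M.repF (fun a => P a + Q a) e z = M.repF P e z + M.repF Q e z := fun P Q e z => by
    simp [Atl.repF, pull, Matrix.mul_add, Matrix.add_mul]
  refine ⟨⟨⟨⟨fun g => fromBlocks (D.ρ g) 0 0 (D'.ρ g), by simp⟩, fun g h => by simp [mul]⟩,
    fun y => fromBlocks (D.H y) 0 0 (D'.H y), fun g => ?_, fun y => ?_,
    fun y => pos (D.pos y) (D'.pos y), fun g y => ?_, fun e he z hz s hs i j => ?_⟩, fun _ => rfl,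
    fun _ => rfl, fun h h' e he z hz s hs => ⟨fun i j => ?_, fun i k => ?_⟩,
    fun g h h' e he z hz s hs => ?_, fun τ τ' h h' e he z hz s hs => ?_, fun x x' _ _ =>
    ⟨fun h h' e he z hz s hs => ?_, fun ξ ξ' h h' e he z hz s hs => ?_⟩⟩
  · simpa [fromBlocks_map] using ⟨D.reR g, D'.reR g⟩
  · simpa [fromBlocks_map] using ⟨D.reH y, D'.reH y⟩
  · simp [fromBlocks_transpose, mul, D.eqv, D'.eqv]
  · rcases i with i | i <;> rcases j with j | j
    exacts [D.sm e he z hz s hs i j, contDiffAt_const, contDiffAt_const, D'.sm e he z hz s hs i j]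
  · refine (ph_bd (a := D.H ∘ s) (d := D'.H ∘ s) i j (D.pos _) (D'.pos _)).trans ?_
    rw [(h e he z hz s hs).1, (h' e he z hz s hs).1, fromBlocks_zero]
  · change ca (bd (D.H ∘ s) (D'.H ∘ s)) i z * ca (bd (D.H ∘ s) (D'.H ∘ s)) k z =
      ca (bd (D.H ∘ s) (D'.H ∘ s)) k z * ca (bd (D.H ∘ s) (D'.H ∘ s)) i z
    rw [ca_bd i (D.pos _) (D'.pos _), ca_bd k (D.pos _) (D'.pos _), mul, mul,
      (h e he z hz s hs).2, (h' e he z hz s hs).2]
  · change tg _ (fun i j => ph (bd (D.H ∘ s) (D'.H ∘ s)) i j z) = 0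
    simp only [ph_bd (a := D.H ∘ s) (d := D'.H ∘ s) _ _ (D.pos (s z)) (D'.pos (s z))]
    rw [tg_bd, h e he z hz s hs, h' e he z hz s hs, fromBlocks_zero]
  · exact (rp ..).trans ((congrArg₂ _ (h e he z hz s hs) (h' e he z hz s hs)).trans
      (tau_bd (D.pos _) (D'.pos _)).symm)
  · obtain ⟨a1, a2, a3⟩ := h e he z hz s hs
    obtain ⟨b1, b2, b3⟩ := h' e he z hz s hs
    change (∀ i j, px (bd (D.H ∘ s) (D'.H ∘ s)) (pr (x ∘ s) (x' ∘ s)) i j z = 0) ∧
      (∀ i k, ca (bd (D.H ∘ s) (D'.H ∘ s)) i z *ᵥ dV (pr (x ∘ s) (x' ∘ s)) k z =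
        ca (bd (D.H ∘ s) (D'.H ∘ s)) k z *ᵥ dV (pr (x ∘ s) (x' ∘ s)) i z) ∧
      ∀ i k, cb (bd (D.H ∘ s) (D'.H ∘ s)) i z *ᵥ dVb (pr (x ∘ s) (x' ∘ s)) k z =
        cb (bd (D.H ∘ s) (D'.H ∘ s)) k z *ᵥ dVb (pr (x ∘ s) (x' ∘ s)) i z
    simp only [px_bd (a := D.H ∘ s) (d := D'.H ∘ s) _ _ _ _ (D.pos (s z)) (D'.pos (s z)),
      ca_bd (a := D.H ∘ s) (d := D'.H ∘ s) _ (D.pos (s z)) (D'.pos (s z)),
      cb_bd (a := D.H ∘ s) (d := D'.H ∘ s) _ (D.pos (s z)) (D'.pos (s z)), dV_pr, dVb_pr, pr, mv]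
    exact ⟨fun i j => by rw [a1, b1, Sum.elim_zero_zero], fun i k => by rw [a2, b2],
      fun i k => by rw [a3, b3]⟩
  · exact (rp ..).trans ((congrArg₂ _ (h e he z hz s hs) (h' e he z hz s hs)).trans
      (xi_bd ..).symm)

end Pool.Agent.Lib.MP_813db1_ag.VH
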