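import Pool.Agent.Lib.MP_813db1_ag.VH.CoAll
import Pool.Agent.Lib.MP_813db1_ag.VH.CoAlg
import Pool.Agent.Lib.MP_813db1_ag.VH.CoBoL
import Pool.Agent.Lib.MP_813db1_ag.VH.CoC0
import Pool.Agent.Lib.MP_813db1_ag.VH.CoEn
import Pool.Agent.Lib.MP_813db1_ag.VH.CoEnA
import Pool.Agent.Lib.MP_813db1_ag.VH.CoGd
import Pool.Agent.Lib.MP_813db1_ag.VH.CoIrr
import Pool.Agent.Lib.MP_813db1_ag.VH.CoLn
import Pool.Agent.Lib.MP_813db1_ag.VH.CoMv
import Pool.Agent.Lib.MP_813db1_ag.VH.CoOp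
import Pool.Agent.Lib.MP_813db1_ag.VH.CoPr
import Pool.Agent.Lib.MP_813db1_ag.VH.CoPw
import Pool.Agent.Lib.MP_813db1_ag.VH.CoSum
import Pool.Agent.Lib.MP_813db1_ag.VH.Sum
import Pool.Agent.Lib.MP_813db1_ag.VH.Res

/-! Semisimple real representations carry harmonic metrics. -/

namespace Pool.Agent.Lib.MP_813db1_ag.VH

open Pool.Agent.Lib.MP_813db1_ag.HS Co

theorem corS {ι X Y G : Type} [Fintype ι] [DecidableEq ι] [TopologicalSpace X] [T2Space X]
    [CompactSpace X] [ConnectedSpace X] [MeasurableSpace X] [BorelSpace X] [TopologicalSpace Y]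
    [SimplyConnectedSpace Y] [Group G] [MulAction G Y] {M : Atl ι X} {p : Y → X}
    (hq : IsQuotientCoveringMap p G) : CorS M p G := fun g hg => by
  obtain ⟨c, rfl, rfl, rfl⟩ := sxS ι X Y G M g p hq hg
  obtain ⟨μ, hμ⟩ := (AY.volS' ι X c.M c.g hg).1
  have gr : c.GrS μ := grS al bs hμ
  have ln : c.LnS := lnS al bs (pwB al) (mpA tpS)
  have rg : c.RgS := rgS al bs rgL
  exact corS' (ciS (refS al bs (avS bas)) (scS al bs hμ gr)
    (gdS al bs hμ (boL al (pwB al)) (boA tpS) mvS (c0S al bs (pwA al) (c0A tpS))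
      (enS al bs hμ gr enA))
    (prS al bs lipL irrS) (apS al bs ls ln) (opS al bs (nlL al) (itE bs) ls ln rg) (lmS al bs rg))
    (dcS al bs) sumS resS

end Pool.Agent.Lib.MP_813db1_ag.VH
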