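import Pool.Agent.Lib.MP_813db1_ag.VH.Stmt

/-! Duals and tensor products of equivariant metrics. -/

namespace Pool.Agent.Lib.MP_813db1_ag.VH

open Pool.Agent.Lib.MP_813db1_ag.HS Pool.Agent.Lib.MP_813db1_ag.AS
open Complex Matrix Filter Topology Set
open scoped ContDiff ComplexOrder Kronecker

set_option linter.unusedSectionVars false

namespace DuA

variable {ι σ τ υ r r' : Type} [Fintype ι] [DecidableEq ι] {z : V ι}

/-- derivations at a point. -/
structure Dv (z : V ι) (δ : (V ι → ℂ) → ℂ) : Prop where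
  add : ∀ {f g}, DifferentiableAt ℝ f z → DifferentiableAt ℝ g z →
    δ (fun w => f w + g w) = δ f + δ g
  mul : ∀ {f g}, DifferentiableAt ℝ f z → DifferentiableAt ℝ g z →
    δ (fun w => f w * g w) = δ f * g z + f z * δ g
  neg : ∀ f, δ (fun w => -f w) = -δ f
  cst : ∀ c, δ (fun _ => c) = 0
  cg : ∀ {f g}, f =ᶠ[𝓝 z] g → δ f = δ g

theorem dv (k : ι) (z : V ι) : Dv z fun f => dz f k z :=
  ⟨fun a b => dz_add a b k, fun a b => dz_mul a b k, fun f => dz_neg f k z,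
    fun c => dz_const c k z, fun h => dz_congr h k⟩

theorem dvb (k : ι) (z : V ι) : Dv z fun f => dzb f k z :=
  ⟨fun a b => dzb_add a b k, fun a b => dzb_mul a b k, fun f => dzb_neg f k z,
    fun c => dzb_const c k z, fun h => dzb_congr h k⟩

/-- the entrywise derivative. -/
def dm (δ : (V ι → ℂ) → ℂ) (F : V ι → Matrix σ τ ℂ) : Matrix σ τ ℂ :=
  Matrix.of fun i j => δ fun w => F w i j

/-- entrywise differentiable matrices. -/
def Df (F : V ι → Matrix σ τ ℂ) (z : V ι) : Prop :=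
  ∀ i j, DifferentiableAt ℝ (fun w => F w i j) z

variable {δ : (V ι → ℂ) → ℂ}

omit [DecidableEq ι] in
theorem df_of {F : V ι → Matrix σ τ ℂ} (h : SmR F z) : Df F z := fun i j =>
  (h i j).differentiableAt (by simp)

theorem df_ev [Finite σ] [Finite τ] {F : V ι → Matrix σ τ ℂ} (h : SmR F z) :
    ∀ᶠ w in 𝓝 z, Df F w :=
  eventually_all.2 fun i => eventually_all.2 fun j =>
    eventually_diff ((h i j).of_le (WithTop.coe_le_coe.2 (le_top (a := (2 : ℕ∞)))))

theorem sm_b {F : V ι → Matrix σ τ ℂ} (h : SmR F z) (k : ι) : SmR (dRb F k) z := fun i j =>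
  contDiffAt_dzb_top (h i j) k

omit [DecidableEq ι]

theorem Df.mul [Fintype τ] {F : V ι → Matrix σ τ ℂ} {G : V ι → Matrix τ υ ℂ} (hF : Df F z)
    (hG : Df G z) : Df (fun w => F w * G w) z := fun i j => by
  simp only [mul_apply]
  exact DifferentiableAt.fun_sum fun a _ => (hF i a).mul (hG a j)

theorem Df.kr {F : V ι → Mat r} {G : V ι → Mat r'} (hF : Df F z) (hG : Df G z) :
    Df (fun w => F w ⊗ₖ G w) z := fun i j => (hF i.1 j.1).mul (hG i.2 j.2)

theorem Dv.sum (d : Dv z δ) (s : Finset υ) {F : υ → V ι → ℂ}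
    (h : ∀ a, DifferentiableAt ℝ (F a) z) : δ (fun w => ∑ a ∈ s, F a w) = ∑ a ∈ s, δ (F a) := by
  classical
  induction s using Finset.induction_on with
  | empty => simpa using d.cst 0
  | insert a s ha ih =>
    simp only [Finset.sum_insert ha]
    rw [d.add (h a) (DifferentiableAt.fun_sum fun b _ => h b), ih]

theorem dm_mul [Fintype τ] (d : Dv z δ) {F : V ι → Matrix σ τ ℂ} {G : V ι → Matrix τ υ ℂ}
    (hF : Df F z) (hG : Df G z) : dm δ (fun w => F w * G w) = dm δ F * G z + F z * dm δ G := by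
  ext i j
  simp only [dm, of_apply, mul_apply, Matrix.add_apply]
  rw [d.sum _ fun a => (hF i a).fun_mul (hG a j), ← Finset.sum_add_distrib]
  exact Finset.sum_congr rfl fun a _ => d.mul (hF i a) (hG a j)

theorem dm_add (d : Dv z δ) {F G : V ι → Matrix σ τ ℂ} (hF : Df F z) (hG : Df G z) :
    dm δ (fun w => F w + G w) = dm δ F + dm δ G :=
  Matrix.ext fun i j => d.add (hF i j) (hG i j)

theorem dm_neg (d : Dv z δ) (F : V ι → Matrix σ τ ℂ) : dm δ (fun w => -F w) = -dm δ F :=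
  Matrix.ext fun _ _ => d.neg _

theorem dm_cg (d : Dv z δ) {F G : V ι → Matrix σ τ ℂ} (h : F =ᶠ[𝓝 z] G) : dm δ F = dm δ G :=
  Matrix.ext fun i j => d.cg (h.mono fun _ e => congrFun (congrFun e i) j)

theorem dm_kr (d : Dv z δ) {F : V ι → Mat r} {G : V ι → Mat r'} (hF : Df F z) (hG : Df G z) :
    dm δ (fun w => F w ⊗ₖ G w) = dm δ F ⊗ₖ G z + F z ⊗ₖ dm δ G :=
  Matrix.ext fun i j => d.mul (hF i.1 j.1) (hG i.2 j.2)

theorem dm_tr {F : V ι → Mat r} (h : ∀ w, (F w)ᵀ = F w) : (dm δ F)ᵀ = dm δ F :=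
  Matrix.ext fun i j => congrArg δ (funext fun w => congrFun (congrFun (h w) i) j)

variable [Fintype r] [DecidableEq r] [Fintype r'] [DecidableEq r'] {H : V ι → Mat r}
  {H' : V ι → Mat r'}

theorem sm_det (h : SmR H z) : ContDiffAt ℝ ∞ (fun w => (H w).det) z := by
  simp only [det_apply']
  exact ContDiffAt.sum fun a _ => contDiffAt_const.mul (contDiffAt_prod fun i _ => h _ _)

theorem sm_inv (h : SmR H z) (u : IsUnit (H z).det) : SmR (fun w => (H w)⁻¹) z := fun i j => by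
  simp only [Matrix.inv_def, Ring.inverse_eq_inv', Matrix.smul_apply, smul_eq_mul, adjugate_apply]
  refine ((sm_det h).inv u.ne_zero).mul (sm_det fun a b => ?_)
  simp only [updateRow_apply]
  split_ifs
  exacts [contDiffAt_const, h a b]

theorem dm_inv (d : Dv z δ) (h : Df H z) (h' : Df (fun w => (H w)⁻¹) z)
    (u : ∀ w, IsUnit (H w).det) : dm δ (fun w => (H w)⁻¹) = -((H z)⁻¹ * dm δ H * (H z)⁻¹) := by
  have e := dm_mul d h h'
  have e0 : dm δ (fun w => H w * (H w)⁻¹) = 0 := Matrix.ext fun i j => by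
    simp only [mul_nonsing_inv _ (u _)]
    exact d.cst _
  rw [e0] at e
  rw [mul_assoc, ← mul_neg, neg_eq_of_add_eq_zero_right e.symm, nonsing_inv_mul_cancel_left _ _ (u z)]

theorem c_inv (d : Dv z δ) (h : SmR H z) (u : ∀ w, IsUnit (H w).det) :
    (H z)⁻¹⁻¹ * dm δ (fun w => (H w)⁻¹) = -(H z * ((H z)⁻¹ * dm δ H) * (H z)⁻¹) := by
  rw [dm_inv d (df_of h) (df_of (sm_inv h (u z))) u, nonsing_inv_nonsing_inv _ (u z), mul_neg,
    ← mul_assoc]

theorem c_tr (u : IsUnit (H z).det) (s : ∀ w, (H w)ᵀ = H w) :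
    H z * ((H z)⁻¹ * dm δ H) * (H z)⁻¹ = ((H z)⁻¹ * dm δ H)ᵀ := by
  rw [mul_nonsing_inv_cancel_left _ _ u, transpose_mul, dm_tr s, transpose_nonsing_inv, s]

theorem c_kr (d : Dv z δ) (h : SmR H z) (h' : SmR H' z) (u : IsUnit (H z).det)
    (u' : IsUnit (H' z).det) : (H z ⊗ₖ H' z)⁻¹ * dm δ (fun w => H w ⊗ₖ H' w) =
      ((H z)⁻¹ * dm δ H) ⊗ₖ 1 + 1 ⊗ₖ ((H' z)⁻¹ * dm δ H') := by
  rw [dm_kr d (df_of h) (df_of h'), inv_kronecker, mul_add, ← mul_kronecker_mul,
    ← mul_kronecker_mul, nonsing_inv_mul _ u, nonsing_inv_mul _ u']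

variable [DecidableEq ι]

theorem ca_inv (h : SmR H z) (u : ∀ w, IsUnit (H w).det) (k : ι) :
    ca (fun w => (H w)⁻¹) k z = -(H z * ca H k z * (H z)⁻¹) := c_inv (dv k z) h u

theorem cb_inv (h : SmR H z) (u : ∀ w, IsUnit (H w).det) (k : ι) :
    cb (fun w => (H w)⁻¹) k z = -(H z * cb H k z * (H z)⁻¹) := c_inv (dvb k z) h u

theorem ca_tr (h : SmR H z) (u : ∀ w, IsUnit (H w).det) (s : ∀ w, (H w)ᵀ = H w) (k : ι) :
    ca (fun w => (H w)⁻¹) k z = -(ca H k z)ᵀ :=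
  (ca_inv h u k).trans (congrArg Neg.neg (c_tr (δ := fun f => dz f k z) (u z) s))

theorem cb_tr (h : SmR H z) (u : ∀ w, IsUnit (H w).det) (s : ∀ w, (H w)ᵀ = H w) (k : ι) :
    cb (fun w => (H w)⁻¹) k z = -(cb H k z)ᵀ :=
  (cb_inv h u k).trans (congrArg Neg.neg (c_tr (δ := fun f => dzb f k z) (u z) s))

theorem cj_mul {P : Mat r} (u : IsUnit P.det) (A B : Mat r) :
    -(P * A * P⁻¹) * -(P * B * P⁻¹) = P * (A * B) * P⁻¹ := by
  simp only [neg_mul_neg, mul_assoc, nonsing_inv_mul_cancel_left _ _ u]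

theorem ph_inv (h : SmR H z) (u : ∀ w, IsUnit (H w).det) (i j : ι) :
    ph (fun w => (H w)⁻¹) i j z = -(H z * ph H i j z * (H z)⁻¹) := by
  have k := sm_inv h (u z)
  have e1 : dRb (fun w => (H w)⁻¹) j =ᶠ[𝓝 z] fun w => -((H w)⁻¹ * dRb H j w * (H w)⁻¹) := by
    filter_upwards [df_ev h, df_ev k] with w a b using dm_inv (dvb j w) a b u
  have e2 := dm_cg (dv i z) e1
  rw [dm_neg (dv i z), dm_mul (dv i z) ((df_of k).mul (df_of (sm_b h j))) (df_of k),
    dm_mul (dv i z) (df_of k) (df_of (sm_b h j)), dm_inv (dv i z) (df_of h) (df_of k) u] at e2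
  have e3 : dR (dRb (fun w => (H w)⁻¹) j) i z = -((-((H z)⁻¹ * dR H i z * (H z)⁻¹) * dRb H j z +
      (H z)⁻¹ * dR (dRb H j) i z) * (H z)⁻¹ +
      (H z)⁻¹ * dRb H j z * -((H z)⁻¹ * dR H i z * (H z)⁻¹)) := e2
  rw [ph, ca_inv h u, cb_inv h u, cj_mul (u z), cj_mul (u z), e3, nonsing_inv_nonsing_inv _ (u z),
    ph, ca, cb]
  simp only [mul_add, add_mul, mul_neg, neg_mul, mul_sub, sub_mul, mul_assoc, mul_smul_comm,
    smul_mul_assoc, mul_nonsing_inv_cancel_left _ _ (u z)]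
  module

theorem ca_kr (h : SmR H z) (h' : SmR H' z) (u : IsUnit (H z).det) (u' : IsUnit (H' z).det)
    (k : ι) : ca (fun w => H w ⊗ₖ H' w) k z = ca H k z ⊗ₖ 1 + 1 ⊗ₖ ca H' k z :=
  c_kr (dv k z) h h' u u'

theorem cb_kr (h : SmR H z) (h' : SmR H' z) (u : IsUnit (H z).det) (u' : IsUnit (H' z).det)
    (k : ι) : cb (fun w => H w ⊗ₖ H' w) k z = cb H k z ⊗ₖ 1 + 1 ⊗ₖ cb H' k z :=
  c_kr (dvb k z) h h' u u'

theorem kr_mul (A B : Mat r) (A' B' : Mat r') :
    (A ⊗ₖ (1 : Mat r') + (1 : Mat r) ⊗ₖ A') * (B ⊗ₖ (1 : Mat r') + (1 : Mat r) ⊗ₖ B') =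
      (A * B) ⊗ₖ (1 : Mat r') + (1 : Mat r) ⊗ₖ (A' * B') + (A ⊗ₖ B' + B ⊗ₖ A') := by
  simp only [mul_add, add_mul, ← mul_kronecker_mul, mul_one, one_mul]
  abel

theorem ph_kr (h : SmR H z) (h' : SmR H' z) (u : IsUnit (H z).det) (u' : IsUnit (H' z).det)
    (i j : ι) (a : ph H i j z = 0) (a' : ph H' i j z = 0) :
    ph (fun w => H w ⊗ₖ H' w) i j z = 0 := by
  have e1 : dRb (fun w => H w ⊗ₖ H' w) j =ᶠ[𝓝 z]
      fun w => dRb H j w ⊗ₖ H' w + H w ⊗ₖ dRb H' j w := by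
    filter_upwards [df_ev h, df_ev h'] with w a b using dm_kr (dvb j w) a b
  have e2 := dm_cg (dv i z) e1
  rw [dm_add (dv i z) ((df_of (sm_b h j)).kr (df_of h')) ((df_of h).kr (df_of (sm_b h' j))),
    dm_kr (dv i z) (df_of (sm_b h j)) (df_of h'),
    dm_kr (dv i z) (df_of h) (df_of (sm_b h' j))] at e2
  have e3 : dR (dRb (fun w => H w ⊗ₖ H' w) j) i z = dR (dRb H j) i z ⊗ₖ H' z +
      dRb H j z ⊗ₖ dR H' i z + (dR H i z ⊗ₖ dRb H' j z + H z ⊗ₖ dR (dRb H' j) i z) := e2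
  have b := congrArg (· ⊗ₖ (1 : Mat r')) (sub_eq_zero.1 a)
  have b' := congrArg ((1 : Mat r) ⊗ₖ ·) (sub_eq_zero.1 a')
  simp only [add_kronecker, kronecker_add, smul_kronecker, kronecker_smul] at b b'
  rw [ph, ca_kr h h' u u', cb_kr h h' u u', kr_mul, kr_mul, e3, inv_kronecker]
  simp only [mul_add, ← mul_kronecker_mul, nonsing_inv_mul _ u, nonsing_inv_mul _ u']
  change (2 : ℂ) • (_ + cb H j z ⊗ₖ ca H' i z + (ca H i z ⊗ₖ cb H' j z + _)) - _ = 0
  linear_combination (norm := module) b + b'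

end DuA

open DuA

variable {ι X Y G : Type} [Fintype ι] [DecidableEq ι] [TopologicalSpace X] [TopologicalSpace Y]
  [Group G] [MulAction G Y] {M : Atl ι X} {p : Y → X}

namespace DuA

variable {r : Type} [Fintype r] [DecidableEq r] (D : Dt M p G r)

theorem du (y : Y) : IsUnit (D.H y).det := (isUnit_iff_isUnit_det _).1 (D.pos y).isUnit

theorem ds (y : Y) : (D.H y)ᵀ = D.H y := by
  have := (D.pos y).isHermitian.eq
  rwa [conjTranspose, transpose_map, D.reH] at this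

theorem rr (g : G) : D.ρ g⁻¹ * D.ρ g = 1 := by rw [← map_mul, inv_mul_cancel, map_one]

theorem rl (g : G) : D.ρ g * D.ρ g⁻¹ = 1 := by rw [← map_mul, mul_inv_cancel, map_one]

/-- the dual datum. -/
noncomputable def dual : Dt M p G r where
  ρ := { toFun := fun g => (D.ρ g⁻¹)ᵀ
         map_one' := by rw [inv_one, map_one, transpose_one]
         map_mul' := fun g h => by rw [_root_.mul_inv_rev, map_mul, transpose_mul] }
  H y := (D.H y)⁻¹
  reR g := by
    change (D.ρ g⁻¹)ᵀ.map star = (D.ρ g⁻¹)ᵀ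
    rw [transpose_map, D.reR]
  reH y := by
    have := congrArg transpose (D.pos y).inv.isHermitian.eq
    rwa [conjTranspose, transpose_map, transpose_transpose, transpose_nonsing_inv, ds] at this
  pos y := (D.pos y).inv
  eqv g y := by
    change _ = (D.ρ g⁻¹⁻¹)ᵀᵀ * _ * (D.ρ g⁻¹⁻¹)ᵀ
    rw [inv_inv, transpose_transpose, D.eqv]
    refine inv_eq_right_inv ?_
    simp only [mul_assoc]
    rw [← mul_assoc (D.ρ g⁻¹), rr, one_mul, mul_nonsing_inv_cancel_left _ _ (du D y),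
      ← transpose_mul, rl, transpose_one]
  sm e he z hz s hs := sm_inv (D.sm e he z hz s hs) (du D _)

variable {r' : Type} [Fintype r'] [DecidableEq r'] (D' : Dt M p G r')

omit [Fintype r] [DecidableEq r] [Fintype r'] [DecidableEq r'] in
theorem kr_re {A : Mat r} {B : Mat r'} (a : A.map star = A) (b : B.map star = B) :
    (A ⊗ₖ B).map star = A ⊗ₖ B := Matrix.ext fun i j => by
  rw [map_apply, kroneckerMap_apply, star_mul']
  exact congrArg₂ _ (congrFun (congrFun a _) _) (congrFun (congrFun b _) _)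

/-- the tensor product. -/
noncomputable def ten : Dt M p G (r × r') where
  ρ := { toFun := fun g => D.ρ g ⊗ₖ D'.ρ g
         map_one' := by rw [map_one, map_one, one_kronecker_one]
         map_mul' := fun g h => by rw [map_mul, map_mul, mul_kronecker_mul] }
  H y := D.H y ⊗ₖ D'.H y
  reR g := kr_re (D.reR g) (D'.reR g)
  reH y := kr_re (D.reH y) (D'.reH y)
  pos y := (D.pos y).kronecker (D'.pos y)
  eqv g y := by
    rw [D.eqv, D'.eqv, mul_kronecker_mul, mul_kronecker_mul]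
    rfl
  sm e he z hz s hs i j := (D.sm e he z hz s hs i.1 j.1).mul (D'.sm e he z hz s hs i.2 j.2)

end DuA

theorem dualS : DualS M p G := by
  intro r _ _ D
  have a : Loc M p fun _ z s => ∀ k, ca ((dual D).H ∘ s) k z =
      -(D.H (s z) * ca (D.H ∘ s) k z * (D.H (s z))⁻¹) := fun e he z hz s hs =>
    ca_inv (D.sm e he z hz s hs) fun _ => du D _
  have b : Loc M p fun _ z s => ∀ k, cb ((dual D).H ∘ s) k z =
      -(D.H (s z) * cb (D.H ∘ s) k z * (D.H (s z))⁻¹) := fun e he z hz s hs =>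
    cb_inv (D.sm e he z hz s hs) fun _ => du D _
  refine ⟨dual D, fun _ => rfl, fun _ => rfl, fun h e he z hz s hs => ⟨fun i j => ?_, fun i k => ?_⟩,
    fun τ h e he z hz s hs => (h e he z hz s hs).trans (Matrix.ext fun i j => ?_),
    fun e he z hz s hs k => ⟨?_, ?_⟩⟩
  · refine (ph_inv (D.sm e he z hz s hs) (fun _ => du D _) i j).trans ?_
    rw [(h e he z hz s hs).1, mul_zero, zero_mul, neg_zero]
  · rw [a e he z hz s hs, a e he z hz s hs, cj_mul (du D _),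
      cj_mul (du D _), (h e he z hz s hs).2]
  · simp only [tauL, of_apply]
    rw [a e he z hz s hs, b e he z hz s hs, cj_mul (du D _), trace_mul_comm (_ * _),
      nonsing_inv_mul_cancel_left _ _ (du D _)]
  · exact ca_tr (D.sm e he z hz s hs) (fun _ => du D _) (fun _ => ds D _) k
  · exact cb_tr (D.sm e he z hz s hs) (fun _ => du D _) (fun _ => ds D _) k

theorem tenS : TenS M p G := by
  intro r r' _ _ _ _ D D'
  have a : Loc M p fun _ z s => ∀ k,
      ca ((ten D D').H ∘ s) k z = ca (D.H ∘ s) k z ⊗ₖ 1 + 1 ⊗ₖ ca (D'.H ∘ s) k z ∧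
      cb ((ten D D').H ∘ s) k z = cb (D.H ∘ s) k z ⊗ₖ 1 + 1 ⊗ₖ cb (D'.H ∘ s) k z :=
    fun e he z hz s hs k =>
      ⟨ca_kr (D.sm e he z hz s hs) (D'.sm e he z hz s hs) (du D _) (du D' _) k,
        cb_kr (D.sm e he z hz s hs) (D'.sm e he z hz s hs) (du D _) (du D' _) k⟩
  refine ⟨ten D D', fun _ => rfl, fun _ => rfl,
    fun h h' e he z hz s hs => ⟨fun i j => ?_, fun i k => ?_⟩, a⟩
  · exact ph_kr (D.sm e he z hz s hs) (D'.sm e he z hz s hs) (du D _) (du D' _) i j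
      ((h e he z hz s hs).1 i j) ((h' e he z hz s hs).1 i j)
  · rw [(a e he z hz s hs i).1, (a e he z hz s hs k).1, kr_mul, kr_mul, (h e he z hz s hs).2,
      (h' e he z hz s hs).2, add_comm (ca (D.H ∘ s) i z ⊗ₖ _)]

end Pool.Agent.Lib.MP_813db1_ag.VH
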