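import Pool.Agent.Lib.MP_813db1_ag.VH.FoSt

/-! Formality: averages, the start and the end of the induction. -/

namespace Pool.Agent.Lib.MP_813db1_ag.VH.Hr

open Pool.Agent.Lib.MP_813db1_ag.HS Pool.Agent.Lib.MP_813db1_ag.AS.F12
open Matrix Filter Topology Set Sum
open scoped ContDiff ComplexOrder Kronecker

variable {ι X Y G : Type} [Fintype ι] [DecidableEq ι] [TopologicalSpace X] [TopologicalSpace Y]
  [Group G] [MulAction G Y] {M : Atl ι X} {p : Y → X} {hp : IsLocalHomeomorph p}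

theorem avgS [T2Space X] [CompactSpace X] (hq : IsQuotientCoveringMap p G) : AvgS M G p := by
  intro r _ _ φ
  have hp := lh hq
  obtain ⟨T, hT⟩ := isCompact_univ.elim_finite_subcover (fun y => (hp.localInverseAt y).source)
    (fun y => (hp.localInverseAt y).open_source) fun x _ => by
      obtain ⟨y, rfl⟩ := hq.surjective x
      exact mem_iUnion.2 ⟨y, by simp⟩
  obtain ⟨χ, h1, h2⟩ := pou AY.repA' AY.repB' ι X M T (fun b => (hp.localInverseAt b.1).source)
    (fun b => (hp.localInverseAt b.1).open_source) fun x => by simpa using hT (mem_univ x)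
  refine ⟨fun y => ∑ b : T, (χ b (p y) : ℂ) • φ (dl G (hp.localInverseAt b.1 (p y)) y),
    fun e he z hz s hs i j => ?_, fun i j c h y => ?_, fun g A B h y => ?_⟩
  · simp only [Function.comp_apply, Matrix.sum_apply, Matrix.smul_apply, smul_eq_mul]
    refine ContDiffAt.sum fun b _ => ?_
    by_cases h : e.symm z ∈ tsupport (χ b)
    · have h3 := sh_sec hp hz ((h1 b).2.2 h)
      have h4 := dl_smul hq (hs.2.self_of_nhds.trans h3.2.self_of_nhds.symm)
      have h5 := uniq hp (h3.smul hq _).1 hs.1 h4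
        (((h3.smul hq _).2.and hs.2).mono fun w hw => hw.1.trans hw.2.symm)
      refine (((h1 b).1 e he z hz).mul (contDiffAt_const
        (c := φ (dl G (sh hp b.1 e z) (s z)) i j))).congr_of_eventuallyEq ?_
      filter_upwards [h5, hs.2] with w h7 h8
      rw [h8, ← dl_eq hq h7]
      rfl
    · refine (contDiffAt_const (c := 0)).congr_of_eventuallyEq ?_
      filter_upwards [hs.2, (e.continuousAt_symm hz).eventually
        (notMem_tsupport_iff_eventuallyEq.1 h)] with w h7 h8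
      rw [h7, h8]
      simp
  · simp only [Matrix.sum_apply, Matrix.smul_apply, smul_eq_mul, h]
    rw [← Finset.sum_mul, ← Complex.ofReal_sum, h2, Complex.ofReal_one, one_mul]
  · simp only [Matrix.mul_sum, Matrix.sum_mul, Matrix.mul_smul, Matrix.smul_mul, hq.map_smul]
    refine Finset.sum_congr rfl fun b _ => ?_
    by_cases h0 : χ b (p y) = 0
    · simp [h0]
    have h3 := hp.apply_localInverseAt_of_mem ((h1 b).2.2 (subset_tsupport _ h0))
    rw [← h, dl_eq hq ((mul_smul _ _ _).trans (congrArg (g • ·) (dl_smul hq h3.symm)))]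

theorem fo0 (_hq : IsQuotientCoveringMap p G) (hA : AvgS M G p)
    (hU : ∀ (r : Type) [Fintype r] [DecidableEq r] (d : r → ℕ), FoU (RR M hp) r d)
    (hM : FoM ι (RR M hp)) : Fo0 M hp G := by
  intro ζ U r _ _ D d ρ hH hρ
  obtain ⟨u, hu, h1, h2⟩ := hA r fun γ => ρ γ * D.ρ γ⁻¹
  have up : Up d 1 (upM hp u hu - 1) := fun i j h => Et.ext' _ fun q => by
    have e := h1 i j ((1 : Mat r) i j) (fun γ => by
      rw [← D.mul_inv γ, mul_apply, mul_apply]
      refine Finset.sum_congr rfl fun k _ => ?_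
      by_cases e : d k = d j
      · rcases (show d i = d k ∨ d k < d i by omega) with e' | e'
        · rw [(hρ γ i k).2.1 e']
        · rw [(hρ γ i k).2.2 e', (hρ γ i k).1 e'.ne']
      · rw [(hρ _ k j).1 e, mul_zero, mul_zero]) q.y
    rw [Matrix.sub_apply, map_sub, map_zero, sub_eq_zero]
    exact e.trans (congrFun₂ (evM_one (hp := hp) q) i j).symm
  obtain ⟨B, hB, hB'⟩ := (hU r d).unit _ up
  rw [add_sub_cancel] at hB
  have bd : Bd0 d (mt hp D).H := fun i j h => Et.ext' _ fun q => hH q.y i j h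
  have hβ : ∀ a, Up d (0 + 1) (B * (dr M hp).dm a (upM hp u hu)) := fun a => by
    have := (hM.msk (dr M hp) r (mt hp D) d bd 1 0 a 1 _).2.2.2 up
    rw [DR.dm_sub, DR.dm_one, sub_zero] at this
    exact (hU r d).mul 0 1 _ _ hB' this
  refine ⟨upM hp u hu, B, hB, up, hB', fun q q' γ h => ?_, fun a b => ?_, fun q w _ i j h => ?_⟩
  · rw [evM_upM, evM_upM, h]
    exact h2 γ _ _ (fun γ' => by simp only [_root_.mul_inv_rev, map_mul, Matrix.mul_assoc]) _
  · exact ((hU r d).add _ _ _ ((hM.msk _ r _ d bd 1 0 a _ _).2.1 (hβ b))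
      ((hM.msk _ r _ d bd 1 0 b _ _).2.1 (hβ a))).2
  · rw [Matrix.sum_apply]
    refine Finset.sum_eq_zero fun a _ => ?_
    rw [Matrix.smul_apply, evM, map_apply, hβ a i j h, map_zero, smul_zero]

namespace FoAv

variable {r : Type} [Fintype r] {ζ : X → Mat ι} {U : Set X} {κ κ' : ι ⊕ ι → Matrix r r (RR M hp)}

omit [Fintype r] in
theorem evM_ct (q : Pt M p) (A : Matrix r r (RR M hp)) : evM q Aᴴ = (evM q A)ᴴ :=
  Matrix.ext fun i j => map_star (av q) (A j i)

theorem km_mul (h : KM ζ U κ) (P Q : Matrix r r (RR M hp)) : KM ζ U fun a => P * κ a * Q :=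
  fun q w hw => by
    have := congrArg (evM q P * · * evM q Q) (h q w hw)
    simpa only [evM_mul, Matrix.mul_sum, Matrix.sum_mul, Matrix.mul_smul, Matrix.smul_mul,
      Matrix.mul_zero, Matrix.zero_mul] using this

omit [Fintype r] in
theorem km_add (h : KM ζ U κ) (h' : KM ζ U κ') : KM ζ U fun a => κ a + κ' a := fun q w hw => by
  have e : ∀ a, evM q (κ a + κ' a) = evM q (κ a) + evM q (κ' a) := fun a =>
    Matrix.ext fun i j => map_add (av q) _ _
  simp only [e, smul_add, Finset.sum_add_distrib, h q w hw, h' q w hw, add_zero]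

omit [Fintype r] in
theorem km_ct (h : KM ζ U κ) : KM ζ U fun a => (κ a.swap)ᴴ := fun q w hw => by
  have := congrArg conjTranspose (h q (fun a => star (w a.swap))
    ⟨hw.1, hw.2.2, by simpa only [swap_inr, star_star] using hw.2.1⟩)
  rw [conjTranspose_sum, conjTranspose_zero, ← (Equiv.sumComm ι ι).sum_comp] at this
  simpa only [conjTranspose_smul, star_star, Equiv.sumComm_apply, swap_swap, evM_ct] using this

theorem kron (A B x : Mat r) : (A ⊗ₖ B.map star) *ᵥ vc x = vc (A * x * Bᴴ) := funext fun c => by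
  simp only [mulVec, dotProduct, Fintype.sum_prod_type, vc, mul_apply, kroneckerMap_apply,
    map_apply, conjTranspose_apply, Finset.sum_mul]
  rw [Finset.sum_comm]
  exact Finset.sum_congr rfl fun _ _ => Finset.sum_congr rfl fun _ _ => by ring

end FoAv

open FoAv in
theorem fo2 (_hq : IsQuotientCoveringMap p G) (h3 : Law3 G M hp) (hB : BrS G M hp) :
    Fo2 M hp G := by
  intro ζ U r _ _ D ρ A B hAB law hK hH
  have ev1 : ∀ q, evM q (A * (mt hp D).Hi * Aᴴ) = evM q A * (D.H q.y)⁻¹ * (evM q A)ᴴ := fun q => by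
    rw [evM_mul, evM_mul, evM_ct]
    rfl
  have law' : ∀ (q q' : Pt M p) (γ : G), q.y = γ • q'.y → evM q (A * (mt hp D).Hi * Aᴴ) =
      ρ γ * evM q' (A * (mt hp D).Hi * Aᴴ) * (ρ γ)ᴴ := fun q q' γ h => by
    have e : (D.ρ γ)ᵀ * (D.ρ γ⁻¹)ᴴ = 1 := by
      rw [conjTranspose, transpose_map, D.reR, ← transpose_mul, D.inv_mul, transpose_one]
    rw [ev1, ev1, law q q' γ h, h, D.inv_eqv, conjTranspose_mul, conjTranspose_mul]
    calc _ = ρ γ * evM q' A * (D.ρ γ⁻¹ * D.ρ γ) * (D.H q'.y)⁻¹ * ((D.ρ γ)ᵀ * (D.ρ γ⁻¹)ᴴ) *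
          (evM q' A)ᴴ * (ρ γ)ᴴ := by simp only [Matrix.mul_assoc]
      _ = _ := by simp only [e, D.inv_mul, Matrix.mul_one, Matrix.mul_assoc]
  obtain ⟨x, hx, e1, -⟩ := h3.desc (r × r) (fun γ => ρ γ ⊗ₖ (ρ γ).map star)
    (vc (A * (mt hp D).Hi * Aᴴ))
    (by rw [map_one, Matrix.map_one _ (star_zero ℂ) (star_one ℂ), one_kronecker_one])
    fun q q' γ h => (congrArg vc (law' q q' γ h)).trans (kron _ _ _).symm
  have hΦ : SmH M p fun y => uv (x y) := fun e he z hz s hs i j => hx.smV he hz hs (i, j)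
  have e2 : ∀ q : Pt M p, uv (x q.y) = evM q (A * (mt hp D).Hi * Aᴴ) := fun q =>
    Matrix.ext fun i j => (congrFun (congrArg (ev q) e1) (i, j)).symm
  have pt : ∀ y, ∃ q : Pt M p, q.y = y := fun y => ⟨⟨M.ch (p y), y, M.ch_mem _, M.mem _⟩, rfl⟩
  refine ⟨fun y => uv (x y), hΦ, fun y => ?_, fun g y => ?_, (hB.kilM ζ U r r _ hΦ).2 ?_⟩
  · obtain ⟨q, rfl⟩ := pt y
    have e : evM q A * evM q B = 1 := by rw [← evM_mul, hAB, evM_one]
    beta_reduce
    rw [e2, ev1]
    exact (D.pos _).inv.mul_mul_conjTranspose_same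
      (vecMul_injective_of_isUnit (IsUnit.of_mul_eq_one _ e))
  · obtain ⟨q, h⟩ := pt (g • y)
    obtain ⟨q', rfl⟩ := pt y
    beta_reduce
    rw [← h, e2, e2, law' q q' g h]
  · have k1 : KM ζ U fun a => (dr M hp).dm a A := by
      simpa only [← Matrix.mul_assoc, hAB, Matrix.one_mul, Matrix.mul_one] using km_mul hK A 1
    have k2 : KM ζ U fun a => (dr M hp).dm a (mt hp D).H := (hB.kilM ζ U r r _ D.sm).1 hH
    have k := km_add (km_add (km_mul k1 1 ((mt hp D).Hi * Aᴴ))
      (km_mul k2 (-(A * (mt hp D).Hi)) ((mt hp D).Hi * Aᴴ))) (km_mul (km_ct k1) (A * (mt hp D).Hi) 1)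
    rw [show upM hp _ hΦ = A * (mt hp D).Hi * Aᴴ from evM_ext e2]
    convert k using 2 with a
    have e : (dr M hp).dm a Aᴴ = ((dr M hp).dm a.swap A)ᴴ := Matrix.ext fun i j => by
      rw [conjTranspose_apply, DR.dm_apply, DR.dm_apply, (dr M hp).st, swap_swap]
      rfl
    have e' : (dr M hp).dm a (mt hp D).Hi =
        -((mt hp D).Hi * (dr M hp).dm a (mt hp D).H * (mt hp D).Hi) := by
      rw [Mt.dHi, Mt.am, smul_mul_assoc]
      module
    rw [DR.dm_mul, DR.dm_mul, e, e']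
    simp only [Matrix.add_mul, Matrix.mul_neg, Matrix.neg_mul, Matrix.mul_assoc, Matrix.one_mul,
      Matrix.mul_one]

end Pool.Agent.Lib.MP_813db1_ag.VH.Hr
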