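import Pool.Agent.Lib.MP_813db1_ag.VH.FoSt

/-! Formality: vanishing along the kernel. -/

namespace Pool.Agent.Lib.MP_813db1_ag.VH.Hr

open Pool.Agent.Lib.MP_813db1_ag.HS Pool.Agent.Lib.MP_813db1_ag.AS.F12
open MeasureTheory Matrix Filter Topology Set Sum
open scoped ContDiff ComplexOrder Kronecker

set_option linter.unusedSectionVars false

namespace FoCc

section alg

variable {ι R r : Type} [Fintype ι] [DecidableEq ι] [CommRing R] [Algebra ℂ R] [StarRing R]
  [StarModule ℂ R] [Fintype r] [DecidableEq r] (m : Mt r R) (δ : DR ι R)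

theorem d1 (a : ι ⊕ ι) (x y : r → R) : δ.d a (m.h x (star y)) =
    m.h (m.Pg δ 1 1 (-1) (-1) a x) (star y) + m.h x (star (m.Pg δ 1 1 (-1) (-1) a.swap y)) := by
  have e := m.wd_h δ 1 1 (-1) (-1) a x (star y)
  have e1 : δ.wd 1 1 a = δ.d a := by cases a <;> exact one_smul _ _
  rw [e1, show (-2 * 1 - -1 : ℂ) = -1 by ring] at e
  rw [e, m.star_Pg, swap_swap]
  simp only [star_one, star_neg]

theorem s1 (f : r → R) (i j : ι) :
    m.Pg δ 1 1 (-1) (-1) (inr j) (m.Pg δ 1 1 (-1) (-1) (inl i) f) =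
      X1 (m.P δ 0 1) (fun a => m.P δ 1 0 a f) (inr j) (inl i) +
        m.am δ (inl i) *ᵥ m.am δ (inr j) *ᵥ f := by
  simp only [X1, Mt.P, Mt.Pg_apply, ty_inl, ty_inr, map_add, map_smul]
  module

theorem s2 (f : r → R) (i j : ι) :
    m.Pg δ 1 1 (-1) (-1) (inl i) (m.Pg δ 1 1 (-1) (-1) (inr j) f) =
      X1 (m.P δ 0 1) (fun a => m.P δ 1 0 a f) (inr j) (inl i) +
        m.am δ (inr j) *ᵥ m.am δ (inl i) *ᵥ f := by
  have e := m.Pg_comm δ 1 1 (-1) (-1) (inl i) (inr j) f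
  rw [s1, sub_eq_iff_eq_add] at e
  rw [e]
  simp only [ty_inl, ty_inr, add_mulVec, smul_mulVec, sub_mulVec, mulVec_mulVec]
  module

theorem lam_sub {τ N : Type} [Fintype τ] [AddCommGroup N] [Module R N] (π : Matrix τ τ R)
    (S S' : τ → τ → N) : lam π (S - S') = lam π S - lam π S' := by
  simp only [lam, Pi.sub_apply, smul_sub, Finset.sum_sub_distrib]

end alg

section quad

variable {ι r : Type} [Fintype ι] [Fintype r] [DecidableEq r]

theorem l1 (H : Mat r) (c : ι → ℂ) (x : ι → V r) (y : V r) :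
    ipV H (∑ i, c i • x i) y = ∑ i, c i * ipV H (x i) y := by
  simp only [ipV_eq, sum_dotProduct, smul_dotProduct, smul_eq_mul]

theorem l2 (H : Mat r) (c : ι → ℂ) (x : ι → V r) (y : V r) :
    ipV H y (∑ i, c i • x i) = ∑ i, star (c i) * ipV H y (x i) := by
  simp only [ipV_eq, star_sum, star_smul, mulVec_sum, dotProduct_sum, mulVec_smul, dotProduct_smul,
    smul_eq_mul]

theorem quad (H : Mat r) (v : V ι) (f : V r) (T T' : ι → ι → V r) (A B : ι → V r) (L : Mat ι)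
    (hL : ∀ i j, L i j = ipV H (T i j) f + ipV H (B j) (B i) +
      (ipV H (A i) (A j) + ipV H f (T' j i)))
    (hT : ∑ i, v i • ∑ j, star (v j) • T i j = 0) (hT' : ∑ i, v i • ∑ j, star (v j) • T' i j = 0) :
    ipV L v v = ipV H (∑ i, v i • A i) (∑ i, v i • A i) +
      ipV H (∑ i, star (v i) • B i) (∑ i, star (v i) • B i) := by
  have e1 : ipV H (∑ i, v i • ∑ j, star (v j) • T i j) f = 0 := by rw [hT]; simp [ipV]
  have e2 : ipV H f (∑ i, v i • ∑ j, star (v j) • T' i j) = 0 := by rw [hT']; simp [ipV]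
  simp only [l1, l2, star_star, Finset.mul_sum] at e1 e2 ⊢
  rw [Finset.sum_comm] at e2
  rw [Finset.sum_comm (f := fun i j => star (v i) * (v j * ipV H (A j) (A i))), ← add_zero (_ + _),
    ← e1, ← add_zero (_ + _ + _), ← e2]
  simp only [← Finset.sum_add_distrib]
  refine Finset.sum_congr rfl fun i _ => Finset.sum_congr rfl fun j _ => ?_
  rw [hL]
  ring

theorem ip_nn {H : Mat r} (h : H.PosDef) (x : V r) : 0 ≤ ipV H x x := by
  have := h.posSemidef.dotProduct_mulVec_nonneg (star x)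
  rwa [star_star, ← ipV_eq] at this

theorem ip_zero {H : Mat r} (h : H.PosDef) {x : V r} (e : (ipV H x x).re ≤ 0) : x = 0 := by
  by_contra h0
  have := h.dotProduct_mulVec_pos (x := star x) (star_ne_zero.2 h0)
  rw [star_star, ← ipV_eq] at this
  exact absurd (Complex.pos_iff.1 this).1 (not_lt.2 e)

theorem nV0 (H : Mat r) : nV H 0 = 0 := by simp [nV, ipV]

end quad

variable {ι X Y G s t r : Type} [Fintype ι] [DecidableEq ι] [TopologicalSpace X]
  [TopologicalSpace Y] {M : Atl ι X} {p : Y → X} {hp : IsLocalHomeomorph p} [Group G]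
  [MulAction G Y] [Fintype r] [DecidableEq r]

theorem ev_add (q : Pt M p) (x y : s → RR M hp) : ev q (x + y) = ev q x + ev q y :=
  funext fun i => map_add (av q) (x i) (y i)

theorem ev_smul (q : Pt M p) (c : ℂ) (x : s → RR M hp) : ev q (c • x) = c • ev q x :=
  funext fun i => map_smul (av q) c (x i)

theorem evM_smul (q : Pt M p) (c : ℂ) (x : Matrix s t (RR M hp)) : evM q (c • x) = c • evM q x :=
  Matrix.ext fun i j => map_smul (av q) c (x i j)

theorem av_h (D : Dt M p G r) (q : Pt M p) (x y : r → RR M hp) :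
    av q ((mt hp D).h x (star y)) = ipV (D.H q.y) (ev q x) (ev q y) := by
  have e : ev q ((mt hp D).H *ᵥ star y) = D.H q.y *ᵥ star (ev q y) := by
    rw [ev_mulVec, (evM_H D q).1]
    congr 1
  rw [Mt.h_apply, ipV_eq, ← e]
  simp only [dotProduct, map_sum, map_mul, ev]

theorem kc1 {ζ : X → Mat ι} {U : Set X} {q : Pt M p} {v : V ι} (hU : p q.y ∈ U)
    (hv : nV (M.repF ζ q.e q.z) v = 0) :
    KC ζ U q (Sum.elim v 0) ∧ KC ζ U q (Sum.elim 0 (star v)) := by
  refine ⟨⟨hU, hv, ?_⟩, hU, nV0 _, ?_⟩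
  · simp [nV, ipV]
  · simpa using hv

theorem pt {ζ : X → Mat ι} {U : Set X} (D : Dt M p G r) (f : r → RR M hp)
    (h1 : KM ζ U ((mt hp D).am (dr M hp)))
    (h2 : K2 ζ U (X1 ((mt hp D).P (dr M hp) 0 1) fun a => (mt hp D).P (dr M hp) 1 0 a f))
    (q : Pt M p) (hU : p q.y ∈ U) (v : V ι) (hv : nV (M.repF ζ q.e q.z) v = 0) (L : Mat ι)
    (hL : ∀ i j, L i j = av q ((dr M hp).d (inl i) ((dr M hp).d (inr j)
      ((mt hp D).h f (star f))))) :
    ∃ B, ipV L v v = ipV (D.H q.y) (∑ i, v i • ev q ((mt hp D).Pg (dr M hp) 1 1 (-1) (-1) (inl i) f))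
      (∑ i, v i • ev q ((mt hp D).Pg (dr M hp) 1 1 (-1) (-1) (inl i) f)) + ipV (D.H q.y) B B := by
  obtain ⟨k1, k2⟩ := kc1 hU hv
  have a1 := h1 q _ k1
  have a2 := h2 q _ _ k2 k1
  simp only [Fintype.sum_sum_type, elim_inl, elim_inr, Pi.zero_apply, zero_smul, zero_mul, mul_zero,
    Finset.sum_const_zero, add_zero, zero_add, Pi.star_apply] at a1 a2
  rw [Finset.sum_comm] at a2
  refine ⟨_, quad _ v (ev q f)
    (fun i j => ev q ((mt hp D).Pg (dr M hp) 1 1 (-1) (-1) (inl i)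
      ((mt hp D).Pg (dr M hp) 1 1 (-1) (-1) (inr j) f)))
    (fun i j => ev q ((mt hp D).Pg (dr M hp) 1 1 (-1) (-1) (inr j)
      ((mt hp D).Pg (dr M hp) 1 1 (-1) (-1) (inl i) f))) _
    (fun i => ev q ((mt hp D).Pg (dr M hp) 1 1 (-1) (-1) (inr i) f)) L (fun i j => ?_) ?_ ?_⟩
  · rw [hL, d1, map_add, d1, d1]
    simp only [map_add, av_h, swap_inl, swap_inr]
  · simp only [s2, ev_add, ev_mulVec, smul_add, Finset.smul_sum, Finset.sum_add_distrib, smul_smul,
      mul_comm (v _), a2, zero_add]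
    rw [Finset.sum_comm]
    refine Finset.sum_eq_zero fun j _ => ?_
    have := congrArg (fun A => star (v j) • evM q ((mt hp D).am (dr M hp) (inr j)) *ᵥ A *ᵥ ev q f) a1
    simpa only [sum_mulVec, mulVec_sum, smul_mulVec, mulVec_smul, Finset.smul_sum, smul_smul,
      zero_mulVec, mulVec_zero, smul_zero] using this
  · simp only [s1, ev_add, ev_mulVec, smul_add, Finset.smul_sum, Finset.sum_add_distrib, smul_smul,
      mul_comm (v _), a2, zero_add]
    rw [Finset.sum_comm]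
    refine Finset.sum_eq_zero fun j _ => ?_
    have := congrArg
      (fun A => star (v j) • A *ᵥ evM q ((mt hp D).am (dr M hp) (inr j)) *ᵥ ev q f) a1
    simpa only [sum_mulVec, smul_mulVec, Finset.smul_sum, smul_smul, zero_mulVec, smul_zero]
      using this

end FoCc

open FoCc

variable {ι X Y G : Type} [Fintype ι] [DecidableEq ι] [TopologicalSpace X] [TopologicalSpace Y]
  [Group G] [MulAction G Y] {M : Atl ι X} {p : Y → X} {hp : IsLocalHomeomorph p}

theorem foC (hq : IsQuotientCoveringMap p G) (hK : KhS M) (_h1 : Law1 G M hp) (h2 : Law2 G M hp) :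
    FoC M hp G := by
  intro g ζ U k K r _ _ D f hf a1 a2
  obtain ⟨φ, hφ⟩ := h2.h00 r D f (star f) hf (h2.st0 r D f hf)
  have re : ∀ q : Pt M p, (((φ (p q.y)).re : ℝ) : ℂ) = av q ((mt hp D).h f (star f)) := fun q => by
    rw [← hφ, av_h]
    exact Complex.ext rfl (Complex.nonneg_iff.1 (ip_nn (D.pos _) _)).2
  have gm : ∀ q : Pt M p, (et M hp).Gm ((mt hp D).h f (star f)) q (fn (fun x => (φ x).re) q.e) :=
    fun q => (nbP_ev M hp q).mono fun w hw => by
      refine (re (nbP M hp q w)).symm.trans ?_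
      rw [hw.2.2.1, hw.2.2.2, fn]
  have ck : M.Ck ∞ fun x => (φ x).re := fun e he z hz => by
    obtain ⟨y, hy⟩ := hq.surjective (e.symm z)
    have := (gm ⟨e, y, he, hy ▸ e.map_target hz⟩).cd
    change ContDiffAt ℝ ∞ (fn (fun x => (φ x).re) e) (e (p y)) at this
    rwa [hy, e.right_inv hz] at this
  have key := fun (q : Pt M p) hU v hv => pt D f a1 a2 q hU v hv
    (levi (fn (fun x => (φ x).re) q.e) q.z) fun i j => (((gm q).d (inr j)).d (inl i)).val.symm
  have z := hK g K.k0 ζ k _ K.cl K.psd K.le ck fun a v ha hv => by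
    obtain ⟨y, rfl⟩ := hq.surjective a
    obtain ⟨B, e⟩ := key ⟨M.ch (p y), y, M.ch_mem _, M.mem _⟩ ((K.eq _).2 ha) v
      (by rw [← (AY.repA' ι X M).repF_self ζ (p y)] at hv; exact hv)
    rw [nV, Atl.ddc, e]
    exact (Complex.nonneg_iff.1 (add_nonneg (ip_nn (D.pos _) _) (ip_nn (D.pos _) _))).1
  have A0 : ∀ (q : Pt M p) v, p q.y ∈ U → nV (M.repF ζ q.e q.z) v = 0 →
      ∑ i, v i • ev q ((mt hp D).Pg (dr M hp) 1 1 (-1) (-1) (inl i) f) = 0 := fun q v hU hv => by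
    obtain ⟨B, e⟩ := key q hU v hv
    have dt := (AY.repA' ι X M).tj_det _ q.he _ (M.ch_mem _) _ q.hy (M.mem _)
    have tr : ∀ B : X → Mat ι, nV (M.repF B q.e q.z) v =
        nV (B (p q.y)) (tj q.e (M.ch (p q.y)) (p q.y) *ᵥ v) := fun B => by
      rw [nV, nV, Atl.repF, q.e.left_inv q.hy, (mat.pull_pd ι _ _ dt).2.2.2.2.2.2]
    have e1 := z _ _ ((K.eq _).1 hU) ((tr ζ).symm.trans hv)
    rw [← tr, (AY.repB' ι X M).ddc_rep _ _ q.he _ q.hy
      ((ck _ q.he _ q.hz).of_le (by norm_cast)), nV, e, Complex.add_re] at e1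
    exact ip_zero (D.pos q.y) (by linarith [(Complex.nonneg_iff.1 (ip_nn (D.pos q.y) B)).1])
  intro q w hw
  have b1 := A0 q _ hw.1 hw.2.1
  have b2 := congrArg (· *ᵥ ev q f) (a1 q _ (kc1 hw.1 hw.2.2).2)
  simp only [Fintype.sum_sum_type, elim_inl, elim_inr, Pi.zero_apply, zero_smul,
    Finset.sum_const_zero, zero_add, Pi.star_apply, star_star, sum_mulVec, smul_mulVec,
    zero_mulVec] at b2
  rw [Fintype.sum_sum_type, ← add_zero (0 : V r)]
  congr 1
  · rw [← b1]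
    refine Finset.sum_congr rfl fun i _ => ?_
    simp only [Mt.P, Mt.Pg_apply, ty_inl, zero_sub]
  · rw [← b2]
    refine Finset.sum_congr rfl fun i _ => ?_
    simp only [Mt.P, Mt.Pg_apply, ty_inr, zero_smul, sub_zero, one_smul, zero_add, ev_mulVec]

theorem foB (h0 : FoSol M hp G) (hP : PeS G M hp) (hC : FoC M hp G) (h1 : Law1 G M hp)
    (h2 : Law2 G M hp) (h3 : Law3 G M hp) (hB : BrS G M hp) : FoB M hp G := by
  intro g ζ U k K mx r _ _ D κ hI ph hκ c1 c2
  obtain ⟨f, hf, e⟩ := h0 g K.k0 r D 0 1 κ ph hκ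
  have pm := (hB.ph r D).1 ph
  have m1 := pm.cm 1 0
  have m0 := pm.cm 0 1
  have ad := (mt hp D).P_add (dr M hp)
  have m2 : Cm ((mt hp D).P (dr M hp) 1 0 + (mt hp D).P (dr M hp) 0 1) := ad ▸ (dr M hp).cm r
  have e1 : (fun a => (dr M hp).dv r a f) = (fun a => (mt hp D).P (dr M hp) 1 0 a f) +
      fun a => (mt hp D).P (dr M hp) 0 1 a f := by rw [← ad]; rfl
  rw [e1, X1_add, m0.x1, add_zero] at e
  set ε := κ - fun a => (mt hp D).P (dr M hp) 1 0 a f with hε
  have t1 : T1 D.ρ ε := (h2.add r D.ρ κ _ hκ (h1.p0 r D 1 0 _ _ f hf)).2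
  have x1 : X1 ((mt hp D).P (dr M hp) 1 0) ε = 0 := by rw [hε, X1_sub, c1, m1.x1, sub_zero]
  have x0 : X1 ((mt hp D).P (dr M hp) 0 1) ε = 0 := hP g K.k0 r D 0 1 ε t1
    (by rw [hε, X1_sub, lam_sub, e, sub_self]) (by rw [m1.y2 m0 m2, x1, X2_zero, neg_zero])
    (m0.x2 ε)
  obtain ⟨x, hx, c, e2, e3⟩ := h3.prim r D.ρ ε t1 (by rw [← ad, X1_op, x1, x0, add_zero])
  have k1 : K1 ζ U ε := e2 ▸ (hB.kil ζ U r x hx).1
    ((mx r D hI ph).2 c x ⟨hx, e3⟩ ((hB.px r D x hx).2 (e2.symm ▸ x0)))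
  have k2 := (hB.kilM ζ U r r D.H D.sm).1 (mx r D hI ph).1
  have k3 := hC g ζ U k K r D f hf (fun q w hw => by
    have := congrArg (fun A => (-1 / 2 : ℂ) • (evM q (mt hp D).Hi * A)) (k2 q w hw)
    simp only [Matrix.mul_zero, smul_zero, Matrix.mul_sum, Matrix.mul_smul, Finset.smul_sum] at this
    rw [← this]
    refine Finset.sum_congr rfl fun a _ => ?_
    rw [Mt.am, evM_smul, evM_mul, smul_comm]
    rfl) (by rw [hε, X1_sub, sub_eq_zero] at x0; exact x0 ▸ c2)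
  intro q w hw
  have e4 : ∀ a, κ a = ε a + (mt hp D).P (dr M hp) 1 0 a f := fun a => (sub_add_cancel _ _).symm
  simp only [e4, ev_add, smul_add, Finset.sum_add_distrib]
  rw [k1 q w hw, k3 q w hw, add_zero]

end Pool.Agent.Lib.MP_813db1_ag.VH.Hr
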