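import Pool.Agent.Lib.MP_813db1_ag.VH.HrSt

/-! Pluriharmonicity of harmonic metrics and maps, from the statements on the sheets. -/

namespace Pool.Agent.Lib.MP_813db1_ag.VH.Hr

open Pool.Agent.Lib.MP_813db1_ag.HS Pool.Agent.Lib.MP_813db1_ag.AS.F12
open MeasureTheory Matrix Filter Topology Set Sum
open scoped ContDiff ComplexOrder Kronecker

set_option linter.unusedSectionVars false

variable {ι X Y G : Type} [Fintype ι] [DecidableEq ι] [TopologicalSpace X]
  [TopologicalSpace Y] {M : Atl ι X} {p : Y → X} {hp : IsLocalHomeomorph p} [Group G]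
  [MulAction G Y]

namespace HrF

theorem kr_vc {R r s : Type} [CommRing R] [Fintype r] [Fintype s] (A : Matrix r r R)
    (B : Matrix s s R) (x : Matrix r s R) : (A ⊗ₖ Bᵀ) *ᵥ vc x = vc (A * x * B) := by
  funext i
  simp only [vc, mulVec, dotProduct, Fintype.sum_prod_type, kroneckerMap_apply, transpose_apply,
    mul_apply, Finset.sum_mul]
  rw [Finset.sum_comm]
  exact Finset.sum_congr rfl fun _ _ => Finset.sum_congr rfl fun _ _ => by ring

theorem vc_inj {R r s : Type} {x y : Matrix r s R} (h : vc x = vc y) : x = y :=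
  Matrix.ext fun i j => congrFun h (i, j)

theorem ev_vc {r s : Type} (q : Pt M p) (A : Matrix r s (RR M hp)) : ev q (vc A) = vc (evM q A) :=
  rfl

theorem ev_zero {s : Type} (q : Pt M p) : ev q (0 : s → RR M hp) = 0 :=
  funext fun _ => map_zero (av q)

/-- matrix valued one-forms as forms with values in the tensor product. -/
theorem t1_vc {r s : Type} [Fintype r] [Fintype s] {L : G → Mat (r × s)} {A : G → Mat r}
    {B : G → Mat s} (hL : ∀ γ, L γ = A γ ⊗ₖ (B γ)ᵀ) {β : ι ⊕ ι → Matrix r s (RR M hp)} :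
    T1 L (fun a => vc (β a)) ↔ ∀ (q q' : Pt M p) (γ : G), q.y = γ • q'.y → ∀ a,
      evM q (β a) = ∑ b, jb q q' b a • (A γ * evM q' (β b) * B γ) := by
  have e : ∀ (q q' : Pt M p) (γ : G) a, ∑ b, jb q q' b a • L γ *ᵥ ev q' (vc (β b)) =
      vc (∑ b, jb q q' b a • (A γ * evM q' (β b) * B γ)) := fun q q' γ a => by
    simp only [hL, ev_vc, kr_vc]
    exact funext fun x => by simp [vc, Matrix.sum_apply]
  refine ⟨fun h q q' γ hy a => vc_inj ((h q q' γ hy a).trans (e q q' γ a)), fun h q q' γ hy a => ?_⟩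
  rw [e, ← h q q' γ hy a, ev_vc]

end HrF

open HrF

theorem peS (hL : PeL ι (RR M hp)) (h1 : Law1 G M hp) (h2 : Law2 G M hp) (h0 : St0 M hp)
    (hP : PosS G M hp) : PeS G M hp := by
  intro g hg r _ _ D u v κ hκ a b c
  have z := h0 g hg _ u v _
    (h2.ctr g hg _ (h2.h12 r D κ _ hκ (h2.sS r D _ (h1.p1 r D u v (v - u) (u - v) κ hκ))))
    (hL (dr M hp) (kh hp g hg) r (mt hp D) u v κ a b c) fun q => ((hP g hg r D q).2 _).1
  funext a b
  exact ev_ext fun q => (((hP g hg r D q).2 _).2 (z q) a b).trans (ev_zero q).symm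

theorem siuS' (hL : SsL ι (RR M hp)) (h1 : Law1 G M hp) (h2 : Law2 G M hp) (h0 : St0 M hp)
    (hP : PosS G M hp) (hB : BrS G M hp) (hE : EndS G M hp) : SiuS M p G := by
  intro g hg r _ _ D hD
  obtain ⟨E, e1, e2, -⟩ := hE r D
  have t1 : T1 E.ρ fun b => ty 0 1 b • vc ((mt hp D).am (dr M hp) b) :=
    h2.ty1 _ _ 0 1 _ ((t1_vc e1).2 (h1.am r D))
  have t2 := h1.p1 _ E 1 0 (-1) 0 _ t1
  obtain ⟨l1, l2⟩ := hL (dr M hp) (kh hp g hg) r (mt hp D) (mt hp E) _ _ _ e2 (hB.harm g hg r D hD)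
    (fun _ => rfl) rfl fun _ _ => rfl
  have pq := fun q => (hP g hg _ E q).2
  have z := h0 g hg _ 1 0 _ (h2.ctr g hg _ (h2.h12 _ E _ _ t1 t2)) l2 fun q => by
    rw [map_add, map_mul, map_ofNat]
    exact add_nonneg (pq q _).1 (mul_nonneg zero_le_two (pq q _).1)
  simp only [map_add, map_mul, map_ofNat] at z
  have z' := fun q => (add_eq_zero_iff_of_nonneg (pq q _).1
    (mul_nonneg zero_le_two (pq q _).1)).1 (z q)
  refine (hB.ph r D).2 ⟨fun i j => vc_inj ((l1 i j).symm.trans (ev_ext fun q => ?_)),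
    fun i k => sub_eq_zero.1 (vc_inj (ev_ext fun q => ?_))⟩
  · exact ((pq q _).2 (z' q).1 _ _).trans (ev_zero q).symm
  · have := (pq q _).2 ((mul_eq_zero.1 (z' q).2).resolve_left two_ne_zero) (inl i) (inl k)
    rw [ty_inl, ty_inl, mul_one, one_smul] at this
    exact this.trans (ev_zero q).symm

theorem pxS' (h1 : Law1 G M hp) (hB : BrS G M hp) (hE : PeS G M hp) : PxS M p G := by
  intro g hg r _ _ D hD c x hx hL
  have hm := (hB.ph r D).1 hD
  have s0 : Sm M p (0 : Y → V r) := fun _ _ _ _ _ _ => contDiffAt_const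
  have l := (hB.lap g hg r D x hx.1 0 s0).1 hL
  have e := X1_op ((mt hp D).P (dr M hp) 1 0) ((mt hp D).P (dr M hp) 0 1)
    fun a => (dr M hp).dv r a (upV hp x hx.1)
  rw [Mt.P_add, ((dr M hp).cm r).x1] at e
  refine (hB.px r D x hx.1).2 (hE g hg r D 0 1 _ (h1.d0' r D.ρ c x hx.1 hx.2) (l.trans ?_) ?_
    ((hm.cm 0 1).x2 _))
  · exact neg_eq_zero.2 (ev_ext fun q => (ev_zero q).symm)
  · rw [eq_neg_of_add_eq_zero_right e.symm, X2_neg, (hm.cm 1 0).x2, neg_zero]

end Pool.Agent.Lib.MP_813db1_ag.VH.Hr
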