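import Pool.Agent.Lib.MP_813db1_ag.VH.FoU
import Pool.Agent.Lib.MP_813db1_ag.VH.HrF

/-! Formality: the step of the induction and the conclusion. -/

namespace Pool.Agent.Lib.MP_813db1_ag.VH.Hr

open Pool.Agent.Lib.MP_813db1_ag.HS Pool.Agent.Lib.MP_813db1_ag.AS.F12
open Matrix Filter Topology Set Sum
open scoped ContDiff ComplexOrder Kronecker

set_option linter.unusedSectionVars false

namespace FoI

open FoUa

section alg

variable {ι R r : Type} [CommRing R] [Fintype r] [DecidableEq r] {d : r → ℕ} {k : ℕ}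
  {A B ψ : Matrix r r R}

theorem msk_sum {κ : Type} [Fintype κ] (F : κ → Matrix r r R) :
    msk d k (∑ a, F a) = ∑ a, msk d k (F a) := by
  ext i j
  simp only [msk_apply, Matrix.sum_apply]
  split_ifs <;> simp

theorem up_sum {κ : Type} [Fintype κ] {F : κ → Matrix r r R} (h : ∀ a, Up d k (F a)) :
    Up d k (∑ a, F a) := fun i j c => by
  rw [Matrix.sum_apply]
  exact Finset.sum_eq_zero fun a _ => h a i j c

theorem up_succ (h : Up d k A) (h' : msk d k A = 0) : Up d (k + 1) A := by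
  simpa only [h', sub_zero] using (foU R r d).sub_msk k A h

theorem msk_zero : msk d k (0 : Matrix r r R) = 0 := Matrix.ext fun _ _ => ite_self _

variable [Fintype ι] [DecidableEq ι] [Algebra ℂ R] [StarRing R] [StarModule ℂ R] (δ : DR ι R)

theorem mm (c : ι ⊕ ι) : msk d k (A + δ.dm c (msk d k B)) = msk d k (msk d k A + δ.dm c B) := by
  simp only [msk_add, dm_msk, (foU R r d).msk_msk]

theorem be_up (h1 : Up d 1 (A - 1)) (h2 : Up d 0 B) (c : ι ⊕ ι) : Up d 1 (B * δ.dm c A) := by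
  have := mul h2 (dm_up δ c h1)
  rwa [δ.dm_sub, δ.dm_one, sub_zero] at this

theorem step (h0 : A * B = 1) (h1 : Up d 1 (A - 1)) (h2 : Up d 0 B) (h3 : Up d (k + 1) ψ) :
    ∃ B', A * (1 + ψ) * B' = 1 ∧ Up d 1 (A * (1 + ψ) - 1) ∧ Up d 0 B' ∧
      ∀ c, Up d (k + 1 + 1) (B' * δ.dm c (A * (1 + ψ)) - (B * δ.dm c A + δ.dm c ψ)) := by
  have h4 : Up d 1 ψ := mono (by omega) h3
  obtain ⟨C, c1, c2⟩ := unit h4
  refine ⟨C * B, by rw [← Matrix.mul_assoc, Matrix.mul_assoc A, c1, Matrix.mul_one, h0], ?_,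
    mul c2 h2, fun c => ?_⟩
  · rw [show A * (1 + ψ) - 1 = A - 1 + (A - 1) * ψ + ψ by noncomm_ring]
    exact add (add h1 (mono (by omega) (mul h1 h4))) h4
  · have e : C = 1 - ψ * C := by rw [← c1, Matrix.add_mul, Matrix.one_mul, add_sub_cancel_right]
    have e2 : C * B * δ.dm c (A * (1 + ψ)) - (B * δ.dm c A + δ.dm c ψ) =
        C * (B * δ.dm c A) * ψ - ψ * C * (B * δ.dm c A + δ.dm c ψ) := by
      rw [δ.dm_mul, δ.dm_add, δ.dm_one, zero_add, Matrix.mul_assoc C, Matrix.mul_add B,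
        ← Matrix.mul_assoc B A, mul_eq_one_comm.1 h0, Matrix.one_mul, ← Matrix.mul_assoc B,
        show ψ * C = 1 - C by rw [eq_sub_iff_add_eq, add_comm, ← eq_sub_iff_add_eq, ← e]]
      noncomm_ring
    rw [e2]
    exact sub (mono (by omega) (mul (mul c2 (be_up δ h1 h2 c)) h3))
      (mono (by omega) (mul (mul h3 c2) (add (be_up δ h1 h2 c) (dm_up δ c h4))))

variable {δ} (hE : EndL ι R) {m : Mt r R} {mE : Mt (r × r) R} (u v : ℂ)
include hE

theorem vc_x1 (h : mE.H = m.H ⊗ₖ m.Hi) (κ : ι ⊕ ι → Matrix r r R) :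
    X1 (mE.P δ u v) (fun a => vc (κ a)) = fun a b => vc (X1 (m.PM δ u v) κ a b) := by
  funext a b
  simp only [X1, (foM hE).vc_P δ r m mE h]
  rfl

theorem vc_x2 (h : mE.H = m.H ⊗ₖ m.Hi) (S : ι ⊕ ι → ι ⊕ ι → Matrix r r R) :
    X2 (mE.P δ u v) (fun a b => vc (S a b)) = fun a b c => vc (X2 (m.PM δ u v) S a b c) := by
  funext a b c
  simp only [X2, (foM hE).vc_P δ r m mE h]
  rfl

theorem msk_x1 (h : Bd0 d m.H) (κ : ι ⊕ ι → Matrix r r R) (a b : ι ⊕ ι) :
    msk d k (X1 (m.PM δ u v) κ a b) = X1 (m.PM δ u v) (fun a => msk d k (κ a)) a b := by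
  simp only [X1, msk_sub, ((foM hE).msk δ r m d h u v _ k _).1]

theorem up_x1 (h : Bd0 d m.H) {κ : ι ⊕ ι → Matrix r r R} (hκ : ∀ a, Up d k (κ a)) (a b : ι ⊕ ι) :
    Up d k (X1 (m.PM δ u v) κ a b) :=
  sub (((foM hE).msk δ r m d h u v _ k _).2.1 (hκ b)) (((foM hE).msk δ r m d h u v _ k _).2.1 (hκ a))

theorem x1_be (h0 : A * B = 1) : X1 (δ.dv (r × r)) (fun c => vc (msk d k (B * δ.dm c A))) =
    fun a b => vc (-msk d k (B * δ.dm a A * (B * δ.dm b A) - B * δ.dm b A * (B * δ.dm a A))) := by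
  funext a b
  have e := congrArg (msk d k) ((foM hE).mc δ r A B h0 a b)
  rw [X1, msk_sub, δ.dE_apply, δ.dE_apply, ← dm_msk, ← dm_msk, ← neg_one_smul ℂ, msk_smul,
    neg_one_smul] at e
  rw [← e]
  rfl

theorem x2_be (hH : mE.H = m.H ⊗ₖ m.Hi) (h : Bd0 d m.H) (h0 : A * B = 1) (h1 : Up d 1 (A - 1))
    (h2 : Up d 0 B) (h3 : ∀ a b, Up d k (X1 (m.PM δ u v) (fun c => B * δ.dm c A) a b)) :
    X2 (mE.P δ u v) (X1 (δ.dv (r × r)) fun c => vc (msk d k (B * δ.dm c A))) = 0 := by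
  rw [x1_be hE h0, vc_x2 hE u v hH]
  funext a b c
  have e := (foU R r d).msk_up k _ ((foM hE).br δ r m d u v k _ (be_up δ h1 h2) h3 a b c)
  simp only [X2, msk_add, ← ((foM hE).msk δ r m d h u v _ k _).1] at e
  simp only [X2, map_neg, ← neg_add, e, neg_zero]
  rfl

end alg

variable {ι X Y G r : Type} [Fintype ι] [DecidableEq ι] [TopologicalSpace X] [TopologicalSpace Y]
  [Group G] [MulAction G Y] {M : Atl ι X} {p : Y → X} {hp : IsLocalHomeomorph p} [Fintype r]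
  [DecidableEq r] {d : r → ℕ} {k : ℕ}

theorem evM_msk (q : Pt M p) (A : Matrix r r (RR M hp)) : evM q (msk d k A) = msk d k (evM q A) := by
  ext i j
  simp only [evM, map_apply, msk_apply]
  split_ifs
  exacts [rfl, map_zero _]

theorem up_ev (q : Pt M p) {A : Matrix r r (RR M hp)} (h : Up d k A) : Up d k (evM q A) :=
  fun i j c => by rw [evM, map_apply, h i j c, map_zero]

theorem evM_add (q : Pt M p) (A B : Matrix r r (RR M hp)) : evM q (A + B) = evM q A + evM q B :=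
  Matrix.ext fun _ _ => map_add (av q) _ _

theorem evM_sub (q : Pt M p) (A B : Matrix r r (RR M hp)) : evM q (A - B) = evM q A - evM q B :=
  Matrix.ext fun _ _ => map_sub (av q) _ _

theorem evM_neg (q : Pt M p) (A : Matrix r r (RR M hp)) : evM q (-A) = -evM q A :=
  Matrix.ext fun _ _ => map_neg (av q) _

theorem vc_sum {κ : Type} [Fintype κ] (w : κ → ℂ) (F : κ → Mat r) :
    ∑ a, w a • vc (F a) = vc (∑ a, w a • F a) := funext fun x => by simp [vc, Matrix.sum_apply]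

theorem cm_sum {κ : Type} [Fintype κ] (w w' : κ → ℂ) (E : κ → Mat r) :
    (∑ a, w a • E a) * (∑ a, w' a • E a) - (∑ a, w' a • E a) * ∑ a, w a • E a =
      ∑ a, ∑ b, (w a * w' b) • (E a * E b - E b * E a) := by
  rw [Finset.sum_mul_sum, Finset.sum_mul_sum, Finset.sum_comm (f := fun a b => w' a • E a * _)]
  simp only [smul_mul_smul_comm, ← Finset.sum_sub_distrib, smul_sub, mul_comm (w' _)]

theorem be_law (h1 : Law1 G M hp) {D : Dt M p G r} {ρ : G →* Mat r} {A B : Matrix r r (RR M hp)}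
    (h0 : A * B = 1)
    (law : ∀ (q q' : Pt M p) (γ : G), q.y = γ • q'.y → evM q A = ρ γ * evM q' A * D.ρ γ⁻¹)
    (q q' : Pt M p) (γ : G) (h : q.y = γ • q'.y) (a : ι ⊕ ι) : evM q (B * (dr M hp).dm a A) =
      ∑ b, jb q q' b a • (D.ρ γ * evM q' (B * (dr M hp).dm b A) * D.ρ γ⁻¹) := by
  have e1 := (HrF.t1_vc (A := ρ) (B := fun γ => D.ρ γ⁻¹) (β := fun a => (dr M hp).dm a A)
    fun _ => rfl).1 (h1.d0 _ _ (vc A) fun q q' γ h => by
      rw [HrF.ev_vc, HrF.ev_vc, HrF.kr_vc, law q q' γ h]) q q' γ h a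
  have i1 : ∀ q, evM q B * evM q A = 1 := fun q => by
    rw [← evM_mul, mul_eq_one_comm.1 h0, evM_one]
  have e2 : evM q B * ρ γ = D.ρ γ * evM q' B := by
    have := i1 q
    rw [law q q' γ h] at this
    calc _ = evM q B * (ρ γ * evM q' A * D.ρ γ⁻¹) * (D.ρ γ * evM q' B) := by
          rw [Matrix.mul_assoc, Matrix.mul_assoc, Matrix.mul_assoc, ← Matrix.mul_assoc (D.ρ γ⁻¹),
            D.inv_mul, Matrix.one_mul, mul_eq_one_comm.1 (i1 q'), Matrix.mul_one]
      _ = _ := by rw [this, Matrix.one_mul]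
  simp only [evM_mul, e1, Matrix.mul_sum, Matrix.mul_smul, ← Matrix.mul_assoc, e2]

end FoI

open FoI FoUa

variable {ι X Y G : Type} [Fintype ι] [DecidableEq ι] [TopologicalSpace X] [TopologicalSpace Y]
  [Group G] [MulAction G Y] {M : Atl ι X} {p : Y → X} {hp : IsLocalHomeomorph p}

theorem fo1 (hE : EndL ι (RR M hp)) (h1 : Law1 G M hp) (h2 : Law2 G M hp) (hS : EndS G M hp)
    (hA : FoA M hp G) (hB : FoB M hp G) : Fo1 M hp G := by
  intro g ζ U n hK hM r _ _ D d ρ hI hD hH hρ k A B S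
  obtain ⟨E, e1, e2, e3, e4⟩ := hS r D
  have bd : Bd0 d (mt hp D).H := fun i j h => Et.ext' _ fun q => hH q.y i j h
  have t1 : T1 E.ρ fun c => vc (msk d (k + 1) (B * (dr M hp).dm c A)) :=
    (HrF.t1_vc e1).2 fun q q' γ h a => by
      simp only [evM_msk, be_law h1 S.inv S.law q q' γ h a, msk_sum, msk_smul, msk_r (hρ _),
        msk_l (hρ _)]
  obtain ⟨f, f0, f1⟩ := hA g hK.k0 _ E _ (e3 hD) t1 (x2_be hE 1 0 e2 bd S.inv S.up S.upi S.cl)
  obtain ⟨F, rfl⟩ : ∃ F, f = vc F := ⟨uv f, rfl⟩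
  have k1 := hB g ζ U n hK hM _ E _ (e4 hI) (e3 hD) (h2.add _ _ _ _ t1 (h1.d0 _ _ _ f0)).1 f1 (by
    have e := X1_op ((mt hp E).P (dr M hp) 1 0) ((mt hp E).P (dr M hp) 0 1)
      ((fun c => vc (msk d (k + 1) (B * (dr M hp).dm c A))) + fun a => (dr M hp).dv _ a (vc F))
    rw [f1, zero_add, Mt.P_add, X1_add, ((dr M hp).cm _).x1, add_zero, x1_be hE S.inv] at e
    rw [← e]
    intro q w w' hw hw'
    have a := mul (S.ker q w hw) (S.ker q w' hw')
    have b := mul (S.ker q w' hw') (S.ker q w hw)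
    have c := (foU ℂ r d).msk_up (k + 1) _ (mono (by omega) (sub a b))
    simp only [cm_sum, msk_sum, msk_smul, evM_mul] at c
    simp only [HrF.ev_vc, evM_neg, evM_msk, evM_sub, evM_mul, vc_sum, smul_neg,
      Finset.sum_neg_distrib]
    exact funext fun x => by
      simpa only [vc, Matrix.sum_apply, Finset.sum_apply, Matrix.neg_apply, Finset.sum_neg_distrib,
        neg_eq_zero, Pi.zero_apply, Matrix.zero_apply] using congrFun₂ c x.1 x.2)
  have up : Up d (k + 1) (msk d (k + 1) F) := (foU _ r d).up_msk _ _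
  obtain ⟨B', s1, s2, s3, s4⟩ := step (dr M hp) S.inv S.up S.upi up
  refine ⟨_, B', s1, s2, s3, fun q q' γ h => ?_, fun a b => ?_, fun q w hw => ?_⟩
  · have e : evM q F = D.ρ γ * evM q' F * D.ρ γ⁻¹ := HrF.vc_inj (by
      rw [← HrF.kr_vc, ← e1]
      exact f0 q q' γ h)
    simp only [evM_mul, evM_add, evM_msk, S.law q q' γ h, e, msk_r (hρ _), msk_l (hρ _),
      Matrix.mul_add, Matrix.add_mul, Matrix.mul_one, Matrix.mul_assoc]
    rw [← Matrix.mul_assoc (D.ρ γ⁻¹), D.inv_mul, Matrix.one_mul]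
  · rw [show (fun c => B' * (dr M hp).dm c (A * (1 + msk d (k + 1) F))) = _ + _ from
      funext fun c => (sub_add_cancel _ (B * (dr M hp).dm c A +
        (dr M hp).dm c (msk d (k + 1) F))).symm, X1_add]
    refine add (up_x1 hE 1 0 bd s4 a b) (up_succ ?_ ?_)
    · rw [show (fun c => B * (dr M hp).dm c A + (dr M hp).dm c (msk d (k + 1) F)) = _ + _ from rfl,
        X1_add]
      exact add (S.cl a b) (up_x1 hE 1 0 bd (fun c => dm_up _ c up) a b)
    · have e := congrFun₂ ((vc_x1 hE 1 0 e2 fun c => msk d (k + 1) (B * (dr M hp).dm c A) +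
        (dr M hp).dm c F).symm.trans f1) a b
      rw [msk_x1 hE 1 0 bd]
      simp only [mm]
      rw [← msk_x1 hE 1 0 bd, HrF.vc_inj (y := 0) e, msk_zero]
  · rw [show (∑ a, w a • evM q (B' * (dr M hp).dm a (A * (1 + msk d (k + 1) F)))) =
      ∑ a, w a • evM q (B' * (dr M hp).dm a (A * (1 + msk d (k + 1) F)) -
        (B * (dr M hp).dm a A + (dr M hp).dm a (msk d (k + 1) F))) +
      ∑ a, w a • evM q (B * (dr M hp).dm a A + (dr M hp).dm a (msk d (k + 1) F)) by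
        simp only [← Finset.sum_add_distrib, ← smul_add, ← evM_add, sub_add_cancel]]
    refine add (up_sum fun a => smul _ (up_ev q (s4 a))) (up_succ ?_ ?_)
    · simp only [evM_add, smul_add, Finset.sum_add_distrib]
      exact add (S.ker q w hw) (up_sum fun a => smul _ (up_ev q (dm_up _ a up)))
    · have e : ∑ a, w a • evM q (msk d (k + 1) (B * (dr M hp).dm a A) + (dr M hp).dm a F) = 0 :=
        HrF.vc_inj ((vc_sum _ _).symm.trans (k1 q w hw))
      simp only [msk_sum, msk_smul, ← evM_msk, mm]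
      simp only [evM_msk q (_ + _), ← msk_smul, ← msk_sum, e, msk_zero]

theorem formS2' (h0 : Fo0 M hp G) (h1 : Fo1 M hp G) (h2 : Fo2 M hp G) : FormS2 M G p := by
  intro g hg ζ U n z1 z2 z3 z4 hM r _ _ D d ρ hI hD hH hρ
  have e : ∀ k, ∃ A B, Sta hp D ρ d ζ U k A B := fun k => by
    induction k with
    | zero => exact h0 ζ U r D d ρ hH hρ
    | succ k ih =>
      obtain ⟨A, B, S⟩ := ih
      exact h1 g ζ U n ⟨hg, z1, z2, z3, z4⟩ hM r D d ρ hI hD hH (fun γ i j => (hρ γ i j).1) k A B S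
  obtain ⟨k, hk⟩ := FoUa.top (R := ℂ) d
  obtain ⟨A, B, S⟩ := e k
  exact h2 ζ U r D ρ A B S.inv S.law (fun q w hw => hk _ (mono (by omega) (S.ker q w hw)))
    (hM r D hI hD).1

end Pool.Agent.Lib.MP_813db1_ag.VH.Hr
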