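import Pool.Agent.Lib.MP_813db1_ag.VH.FoSt
import Pool.Agent.Lib.MP_813db1_ag.HS.AYAll

/-! Formality: the Poisson equation for divergences and the first gauge. -/

namespace Pool.Agent.Lib.MP_813db1_ag.VH.Hr

open Pool.Agent.Lib.MP_813db1_ag.HS
open MeasureTheory Matrix

set_option linter.unusedSectionVars false

namespace FoS

variable {ι R r : Type} [Fintype ι] [DecidableEq ι] [CommRing R] [Algebra ℂ R] [StarRing R]
  [StarModule ℂ R] [Fintype r] [DecidableEq r]

theorem lam_sub (π : Matrix (ι ⊕ ι) (ι ⊕ ι) R) (S T : ι ⊕ ι → ι ⊕ ι → r → R) :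
    lam π (S - T) = lam π S - lam π T := by
  simp only [lam, Pi.sub_apply, smul_sub, Finset.sum_sub_distrib]

theorem h_lam {δ : DR ι R} (K : Kh δ) (m : Mt r R) (u v : ℂ) (κ : ι ⊕ ι → r → R) {w : r → R}
    (h1 : ∀ a, δ.dv r a w = 0) (h2 : ∀ a, m.am δ a *ᵥ w = 0) :
    m.h (lam K.π (X1 (m.P δ u v) κ)) w = 2 * dvg K.π (δ.wd u v) fun b => m.h w (κ b) := by
  have e : ∀ a x, m.h (m.P δ u v a x) w = δ.wd u v a (m.h w x) := fun a x => by
    rw [m.h_symm w, m.wd_h δ u v (v - u) (u - v), m.Pg_apply δ u v (-2 * u - _), h1, h2, smul_zero,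
      smul_zero, add_zero, map_zero, add_zero]
    rfl
  simp only [lam, X1, map_sum, LinearMap.sum_apply, map_smul, LinearMap.smul_apply, map_sub,
    LinearMap.sub_apply, e, smul_eq_mul, mul_sub, Finset.sum_sub_distrib, dvg]
  have k : ∑ a, ∑ b, K.π a b * δ.wd u v b (m.h w (κ a)) =
      -∑ a, ∑ b, K.π a b * δ.wd u v a (m.h w (κ b)) := by
    rw [Finset.sum_comm, ← Finset.sum_neg_distrib]
    refine Finset.sum_congr rfl fun a _ => ?_
    rw [← Finset.sum_neg_distrib]
    exact Finset.sum_congr rfl fun b _ => by rw [K.alt, neg_mul]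
  rw [k]
  ring

end FoS

variable {ι X Y G : Type} [Fintype ι] [DecidableEq ι] [TopologicalSpace X] [TopologicalSpace Y]
  [Group G] [MulAction G Y] {M : Atl ι X} {p : Y → X} {hp : IsLocalHomeomorph p}

theorem foSol [T2Space X] [CompactSpace X] [MeasurableSpace X] [BorelSpace X]
    (hq : IsQuotientCoveringMap p G) (hP : PoiS M p G) (h1 : Law1 G M hp) (h2 : Law2 G M hp)
    (h3 : Law3 G M hp) (hB : BrS G M hp) (h4 : PosS G M hp) (h5 : StS M hp) (h6 : St0 M hp)
    (h7 : InvL ι (RR M hp)) : FoSol M hp G := by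
  intro g hg r _ _ D u v κ hD hκ
  have t0 := h2.lam g hg r D.ρ _ (h1.p1 r D u v (v - u) (u - v) κ hκ)
  obtain ⟨x0, hx0, e0, q0⟩ := h3.desc r D.ρ
    (-lam (kh hp g hg).π (X1 ((mt hp D).P (dr M hp) u v) κ)) (map_one _) fun q q' γ e => by
      have k : ∀ (q : Pt M p) (f : r → RR M hp), ev q (-f) = -ev q f := fun q f =>
        funext fun i => map_neg _ _
      rw [k, k, mulVec_neg]
      exact congrArg Neg.neg (t0 q q' γ e)
  obtain ⟨μ, hμ⟩ := (AY.volS' ι X M g hg).1
  obtain ⟨x, hx, hl⟩ := (hP g μ hg hμ r D fun e he z hz s hs => by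
    simp [tg, (hD e he z hz s hs).1]).1 x0 ⟨hx0, fun γ y => by simp [q0]⟩ fun z hz φ hφ => by
      let w : r → RR M hp := fun i => algebraMap ℂ _ (star (z i))
      have w0 : ∀ q : Pt M p, ev q w = star z := fun q => funext fun i => AlgHomClass.commutes _ _
      have w1 : T0 D.ρ w := fun q q' γ _ => by
        rw [w0, w0, ← D.reR γ]
        conv_lhs => rw [← hz γ]
        funext i
        simp [mulVec, dotProduct]
      have w2 : ∀ a, (dr M hp).dv r a w = 0 := fun a => funext fun i =>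
        ((dr M hp).d a).map_algebraMap _
      have w3 : ∀ a, (mt hp D).am (dr M hp) a *ᵥ w = 0 := fun a => ev_ext fun q => by
        have s := h2.h01 r D w _ w1 (h1.p0 r D 0 0 1 1 _ (h2.st0 r D w w1))
        have e : ∀ (a : ι ⊕ ι) x, (mt hp D).Pg (dr M hp) 0 0 1 1 a x =
            (mt hp D).am (dr M hp) a *ᵥ x := fun a x => by
          rw [Mt.Pg_apply]
          cases a <;> simp
        simp only [e] at s
        exact (((h4 g hg r D q).1 _).2 (h6 g hg _ 1 0 _ s (h7 _ _ r _ w ((hB.ph r D).1 hD) w2)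
          (fun q => ((h4 g hg r D q).1 _).1) q) a).trans (funext fun i => (map_zero _).symm)
      obtain ⟨d, -, d1, d2⟩ := h5 g hg μ hμ _ u v (h2.h01 r D w κ w1 hκ)
      have : φ = fun a => -2 * d a := funext fun a => by
        obtain ⟨y, rfl⟩ := hq.surjective a
        let q : Pt M p := ⟨M.ch (p y), y, M.ch_mem _, M.mem _⟩
        have k := congrArg (av q) (FoS.h_lam (kh hp g hg) (mt hp D) u v κ w2 w3)
        rw [map_mul, d2, ← neg_neg (lam _ _), e0, map_neg, LinearMap.neg_apply, map_neg,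
          Mt.h_apply, map_ofNat] at k
        rw [hφ, neg_mul, ← k, neg_neg]
        simp only [ipV, dotProduct, mulVec, map_sum, map_mul, Finset.mul_sum]
        refine Finset.sum_congr rfl fun i _ => Finset.sum_congr rfl fun j _ => ?_
        rw [show av q (w j) = star (z j) from congrFun (w0 q) j, mul_left_comm, mul_assoc]
        rfl
      rw [this, integral_const_mul, d1, mul_zero]
  refine ⟨upV hp x hx.1, fun q q' γ e => ?_, ?_⟩
  · rw [ev_upV, ev_upV, e, hx.2, Pi.zero_apply, add_zero]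
  · rw [(hB.lap g hg r D x hx.1 x0 hx0).1 hl, ← e0, neg_neg]

theorem foA (hS : FoSol M hp G) (hE : PeS G M hp) (h1 : Law1 G M hp) (h2 : Law2 G M hp)
    (hB : BrS G M hp) : FoA M hp G := by
  intro g hg r _ _ D κ hD hκ h0
  obtain ⟨f, hf, e⟩ := hS g hg r D 1 0 κ hD hκ
  have c := fun u v => ((hB.ph r D).1 hD).cm u v
  have ad := (mt hp D).P_add (dr M hp)
  have cd := (dr M hp).cm r
  have k : ∀ κ, X1 ((mt hp D).P (dr M hp) 0 1) κ =
      X1 ((dr M hp).dv r) κ - X1 ((mt hp D).P (dr M hp) 1 0) κ := fun κ => by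
    rw [← ad, X1_op, add_sub_cancel_left]
  refine ⟨f, hf, hE g hg r D 1 0 _ (h2.add r _ _ _ hκ (h1.d0 r _ f hf)).1 ?_ ((c 1 0).x2 _) ?_⟩
  · rw [k, cd.x1, zero_sub] at e
    rw [X1_add, ← sub_neg_eq_add, FoS.lam_sub, e, sub_self]
  · rw [← neg_eq_zero, ← (c 1 0).y2 (c 0 1) (ad ▸ cd), k, X2_sub, (c 1 0).x2, X1_add, cd.x1,
      add_zero, h0, sub_zero]

end Pool.Agent.Lib.MP_813db1_ag.VH.Hr
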