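import Pool.Agent.Lib.MP_813db1_ag.VH.HrSt

/-! The dictionary between the ring of the sheets and the charts. -/

namespace Pool.Agent.Lib.MP_813db1_ag.VH.Hr

open Pool.Agent.Lib.MP_813db1_ag.HS Pool.Agent.Lib.MP_813db1_ag.AS.F12
open MeasureTheory Matrix Filter Topology Set Sum
open scoped ContDiff ComplexOrder Kronecker

set_option linter.unusedSectionVars false

noncomputable section

namespace HrB

section alg

variable {ι R r : Type} [Fintype ι] [DecidableEq ι] [CommRing R] [Algebra ℂ R] [StarRing R]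
  [StarModule ℂ R] [Fintype r] [DecidableEq r] (m : Mt r R) (δ : DR ι R) (x : r → R)

theorem x_lr (i j : ι) : X1 (m.P δ 0 1) (fun a => δ.dv r a x) (inl i) (inr j) =
    m.am δ (inl i) *ᵥ δ.dv r (inr j) x + m.am δ (inr j) *ᵥ δ.dv r (inl i) x -
      δ.dv r (inl i) (δ.dv r (inr j) x) := by
  simp only [X1, Mt.P, Mt.Pg_apply, ty_inl, ty_inr, δ.cm r (inr j) (inl i)]
  module

theorem x_ll (i k : ι) : X1 (m.P δ 0 1) (fun a => δ.dv r a x) (inl i) (inl k) =
    m.am δ (inl i) *ᵥ δ.dv r (inl k) x - m.am δ (inl k) *ᵥ δ.dv r (inl i) x := by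
  simp only [X1, Mt.P, Mt.Pg_apply, ty_inl]
  module

theorem x_rr (j l : ι) : X1 (m.P δ 0 1) (fun a => δ.dv r a x) (inr j) (inr l) =
    m.am δ (inr l) *ᵥ δ.dv r (inr j) x - m.am δ (inr j) *ᵥ δ.dv r (inr l) x := by
  simp only [X1, Mt.P, Mt.Pg_apply, ty_inr, δ.cm r (inr j) (inr l)]
  module

end alg

variable {ι X Y G s t r : Type} [Fintype ι] [DecidableEq ι] [TopologicalSpace X]
  [TopologicalSpace Y] {M : Atl ι X} {p : Y → X} {hp : IsLocalHomeomorph p} {q : Pt M p}
  {σ : V ι → Y}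

/-- the differential vanishes on the kernel, for scalar functions. -/
theorem ker_iff (f : V ι → ℂ) (B : Mat ι) (z : V ι) :
    (∀ v, nV B v = 0 → fderiv ℝ f z v = 0) ↔ ∀ w : ι ⊕ ι → ℂ, nV B (fun i => w (inl i)) = 0 →
      nV B (fun i => star (w (inr i))) = 0 → ∑ a, w a * dT f a z = 0 := by
  refine ⟨fun h w h1 h2 => ?_, fun h v hv => ?_⟩
  · have key : ∀ v, nV B v = 0 →
        ∑ k, v k * dz f k z = 0 ∧ ∑ k, star (v k) * dzb f k z = 0 := fun v hv => by
      have e : nV B (Complex.I • v) = nV B v := by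
        rw [nV, nV, Dt.ipV_smul_left, Dt.ipV_smul_right, star_I, ← mul_assoc, mul_neg,
          Complex.I_mul_I, neg_neg, one_mul]
      have a := h v hv
      have b := h _ (e.trans hv)
      rw [fderiv_eq_dz, Finset.sum_add_distrib] at a b
      simp only [Pi.smul_apply, smul_eq_mul, star_mul', star_I, mul_left_comm _ Complex.I,
        mul_left_comm _ (-Complex.I), ← Finset.mul_sum] at b
      simp only [mul_comm (v _), mul_comm (star (v _))]
      exact ⟨by linear_combination a / 2 - Complex.I / 2 * b + (∑ k, dz f k z * v k -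
          ∑ k, dzb f k z * star (v k)) / 2 * Complex.I_mul_I,
        by linear_combination a / 2 + Complex.I / 2 * b - (∑ k, dz f k z * v k -
          ∑ k, dzb f k z * star (v k)) / 2 * Complex.I_mul_I⟩
    have a := (key _ h1).1
    have b := (key _ h2).2
    simp only [star_star] at b
    rw [Fintype.sum_sum_type]
    exact (congrArg₂ (· + ·) a b).trans (add_zero 0)
  · have a := h (Sum.elim v fun i => star (v i)) hv (by simpa using hv)
    rw [Fintype.sum_sum_type, ← Finset.sum_add_distrib] at a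
    rw [fderiv_eq_dz, ← a]
    exact Finset.sum_congr rfl fun k _ => congrArg₂ (· + ·) (mul_comm _ _) (mul_comm _ _)

theorem evM_add (A B : Matrix s t (RR M hp)) : evM q (A + B) = evM q A + evM q B :=
  Matrix.ext fun _ _ => map_add (av q) _ _

theorem evM_sub (A B : Matrix s t (RR M hp)) : evM q (A - B) = evM q A - evM q B :=
  Matrix.ext fun _ _ => map_sub (av q) _ _

theorem evM_smul (c : ℂ) (A : Matrix s t (RR M hp)) : evM q (c • A) = c • evM q A :=
  Matrix.ext fun _ _ => map_smul (av q) _ _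

theorem evM_tg (c : Matrix ι ι (RR M hp)) (A : ι → ι → Matrix s t (RR M hp)) :
    evM q (∑ i, ∑ j, c j i • A i j) = ∑ i, ∑ j, evM q c j i • evM q (A i j) :=
  Matrix.ext fun a b => by simp [evM, Matrix.sum_apply]

theorem ev_add (x y : s → RR M hp) : ev q (x + y) = ev q x + ev q y :=
  funext fun _ => map_add (av q) _ _

theorem ev_sub (x y : s → RR M hp) : ev q (x - y) = ev q x - ev q y :=
  funext fun _ => map_sub (av q) _ _

theorem ev_neg (x : s → RR M hp) : ev q (-x) = -ev q x := funext fun _ => map_neg (av q) _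

theorem ev_tg (c : Matrix ι ι (RR M hp)) (A : ι → ι → s → RR M hp) :
    ev q (∑ i, ∑ j, c j i • A i j) = ∑ i, ∑ j, evM q c j i • ev q (A i j) :=
  funext fun a => by simp [ev, evM, Finset.sum_apply]

theorem gmM (hσ : Sh q σ) (F : Y → Matrix s t ℂ) (h : SmH M p F) (i : s) (j : t) :
    (et M hp).Gm (upM hp F h i j) q fun w => F (σ w) i j :=
  gm_sh hσ (fun _ y => F y i j) fun q => h _ q.he _ q.hz _ (sh_q hp q).1 i j

theorem gmV [Fintype s] (hσ : Sh q σ) (x : Y → V s) (h : Sm M p x) (i : s) :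
    (et M hp).Gm (upV hp x h i) q fun w => x (σ w) i := gm_sh hσ (fun _ y => x y i) _

theorem ev_d [Fintype s] (hσ : Sh q σ) (x : Y → V s) (h : Sm M p x) (k : ι) :
    ev q ((dr M hp).dv s (inl k) (upV hp x h)) = dV (x ∘ σ) k q.z ∧
      ev q ((dr M hp).dv s (inr k) (upV hp x h)) = dVb (x ∘ σ) k q.z :=
  ⟨funext fun i => ((gmV hσ x h i).d (inl k)).val, funext fun i => ((gmV hσ x h i).d (inr k)).val⟩

theorem ev_dd [Fintype s] (hσ : Sh q σ) (x : Y → V s) (h : Sm M p x) (i j : ι) :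
    ev q ((dr M hp).dv s (inl i) ((dr M hp).dv s (inr j) (upV hp x h))) =
      dV (dVb (x ∘ σ) j) i q.z :=
  funext fun a => (((gmV hσ x h a).d (inr j)).d (inl i)).val

theorem mem_iff (q : Pt M p) (U : Set X) : q.e.symm q.z ∈ U ↔ p q.y ∈ U := by
  rw [Pt.z, q.e.left_inv q.hy]

variable [Group G] [MulAction G Y] [Fintype r] [DecidableEq r] (D : Dt M p G r)

theorem ev_am (hσ : Sh q σ) (k : ι) :
    evM q ((mt hp D).am (dr M hp) (inl k)) = (-1 / 2 : ℂ) • ca (D.H ∘ σ) k q.z ∧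
      evM q ((mt hp D).am (dr M hp) (inr k)) = (-1 / 2 : ℂ) • cb (D.H ∘ σ) k q.z := by
  have e1 : evM q ((dr M hp).dm (inl k) (mt hp D).H) = dR (D.H ∘ σ) k q.z :=
    Matrix.ext fun i j => ((gmM hσ D.H D.sm i j).d (inl k)).val
  have e2 : evM q ((dr M hp).dm (inr k) (mt hp D).H) = dRb (D.H ∘ σ) k q.z :=
    Matrix.ext fun i j => ((gmM hσ D.H D.sm i j).d (inr k)).val
  rw [Mt.am, Mt.am, evM_smul, evM_smul, evM_mul, evM_mul, (evM_H D q).2, e1, e2, ca, cb,
    Function.comp_apply, hσ.2]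
  exact ⟨rfl, rfl⟩

theorem ev_nm (hσ : Sh q σ) (i j : ι) :
    evM q ((mt hp D).nm (dr M hp) (inl i) (inr j)) = (-1 / 4 : ℂ) • ph (D.H ∘ σ) i j q.z := by
  have e : evM q ((dr M hp).dm (inl i) ((dr M hp).dm (inr j) (mt hp D).H)) =
      dR (dRb (D.H ∘ σ) j) i q.z :=
    Matrix.ext fun a b => (((gmM hσ D.H D.sm a b).d (inr j)).d (inl i)).val
  rw [Mt.nm_eq, evM_sub, evM_add, evM_smul, evM_mul, evM_mul, evM_mul, (ev_am D hσ i).1,
    (ev_am D hσ j).2, (evM_H D q).2, e, ph, Function.comp_apply, hσ.2]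
  simp only [smul_mul_assoc, Matrix.mul_smul]
  module

variable (x : Y → V r) (hx : Sm M p x)

theorem ev_lr (hσ : Sh q σ) (i j : ι) : ev q (X1 ((mt hp D).P (dr M hp) 0 1)
    (fun a => (dr M hp).dv r a (upV hp x hx)) (inl i) (inr j)) =
      (-1 / 2 : ℂ) • px (D.H ∘ σ) (x ∘ σ) i j q.z := by
  rw [x_lr, ev_sub, ev_add, ev_mulVec, ev_mulVec, (ev_am D hσ i).1, (ev_am D hσ j).2,
    (ev_d hσ x hx i).1, (ev_d hσ x hx j).2, ev_dd hσ, px, smul_mulVec, smul_mulVec]
  module

theorem ev_ll (hσ : Sh q σ) (i k : ι) : ev q (X1 ((mt hp D).P (dr M hp) 0 1)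
    (fun a => (dr M hp).dv r a (upV hp x hx)) (inl i) (inl k)) = (-1 / 2 : ℂ) •
      (ca (D.H ∘ σ) i q.z *ᵥ dV (x ∘ σ) k q.z - ca (D.H ∘ σ) k q.z *ᵥ dV (x ∘ σ) i q.z) := by
  rw [x_ll, ev_sub, ev_mulVec, ev_mulVec, (ev_am D hσ i).1, (ev_am D hσ k).1,
    (ev_d hσ x hx i).1, (ev_d hσ x hx k).1, smul_mulVec, smul_mulVec, smul_sub]

theorem ev_rr (hσ : Sh q σ) (i k : ι) : ev q (X1 ((mt hp D).P (dr M hp) 0 1)
    (fun a => (dr M hp).dv r a (upV hp x hx)) (inr k) (inr i)) = (-1 / 2 : ℂ) •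
      (cb (D.H ∘ σ) i q.z *ᵥ dVb (x ∘ σ) k q.z - cb (D.H ∘ σ) k q.z *ᵥ dVb (x ∘ σ) i q.z) := by
  rw [x_rr, ev_sub, ev_mulVec, ev_mulVec, (ev_am D hσ i).2, (ev_am D hσ k).2,
    (ev_d hσ x hx i).2, (ev_d hσ x hx k).2, smul_mulVec, smul_mulVec, smul_sub]

theorem ev_lap {g : X → Mat ι} (hg : M.IsK g) (hσ : Sh q σ) :
    ev q (lam (kh hp g hg).π (X1 ((mt hp D).P (dr M hp) 0 1)
      fun a => (dr M hp).dv r a (upV hp x hx))) =
      -tg (M.repF g q.e q.z) fun i j => px (D.H ∘ σ) (x ∘ σ) i j q.z := by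
  rw [Kh.lam_eq, ev_tg (kh hp g hg).Gi fun i j => _ - _, (evM_G g hg q).2, tg,
    ← Finset.sum_neg_distrib]
  refine Finset.sum_congr rfl fun i _ => ?_
  rw [← Finset.sum_neg_distrib]
  refine Finset.sum_congr rfl fun j _ => ?_
  rw [X1_alt _ _ (inl i) (inr j), ev_sub, ev_neg, ev_lr D x hx hσ]
  module

theorem ph_iff : D.PH ↔ (mt hp D).PH (dr M hp) := by
  refine ⟨fun h => ⟨fun i j => evM_ext fun q => ?_, fun i k => evM_ext fun q => ?_⟩,
    fun h => loc_iff.2 fun q σ hσ => ⟨fun i j => ?_, fun i k => ?_⟩⟩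
  · rw [ev_nm D (sh_q hp q), (loc_iff.1 h q _ (sh_q hp q)).1, smul_zero]
    rfl
  · rw [evM_mul, evM_mul, (ev_am D (sh_q hp q) i).1, (ev_am D (sh_q hp q) k).1, smul_mul_smul,
      smul_mul_smul, (loc_iff.1 h q _ (sh_q hp q)).2]
  · have e := ev_nm (hp := hp) D hσ i j
    rw [h.1] at e
    exact (smul_eq_zero.1 e.symm).resolve_left (by norm_num)
  · have e := congrArg (evM q) (h.2 i k)
    rw [evM_mul, evM_mul, (ev_am D hσ i).1, (ev_am D hσ k).1, smul_mul_smul, smul_mul_smul] at e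
    exact smul_right_injective _ (by norm_num) e

theorem px_iff : D.PX x ↔
    X1 ((mt hp D).P (dr M hp) 0 1) (fun a => (dr M hp).dv r a (upV hp x hx)) = 0 := by
  refine ⟨fun h => funext fun a => funext fun b => ev_ext fun q => ?_,
    fun h => loc_iff.2 fun q σ hσ => ⟨fun i j => ?_, fun i k => ?_, fun i k => ?_⟩⟩
  · have e := loc_iff.1 h q _ (sh_q hp q)
    rcases a with i | i <;> rcases b with j | j
    · rw [ev_ll D x hx (sh_q hp q), e.2.1, sub_self, smul_zero]
      rfl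
    · rw [ev_lr D x hx (sh_q hp q), e.1, smul_zero]
      rfl
    · rw [X1_alt, ev_neg, ev_lr D x hx (sh_q hp q), e.1, smul_zero, neg_zero]
      rfl
    · rw [ev_rr D x hx (sh_q hp q), e.2.2, sub_self, smul_zero]
      rfl
  · have e := ev_lr (hp := hp) D x hx hσ i j
    rw [h] at e
    exact (smul_eq_zero.1 e.symm).resolve_left (by norm_num)
  · have e := ev_ll (hp := hp) D x hx hσ i k
    rw [h] at e
    exact sub_eq_zero.1 ((smul_eq_zero.1 e.symm).resolve_left (by norm_num))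
  · have e := ev_rr (hp := hp) D x hx hσ i k
    rw [h] at e
    exact sub_eq_zero.1 ((smul_eq_zero.1 e.symm).resolve_left (by norm_num))

end HrB

open HrB

variable {ι X Y G : Type} [Fintype ι] [DecidableEq ι] [TopologicalSpace X] [TopologicalSpace Y]
  {M : Atl ι X} {p : Y → X} (hp : IsLocalHomeomorph p) [Group G] [MulAction G Y]

/-- the dictionary. -/
theorem brS : BrS G M hp where
  ph _ _ _ D := ph_iff D
  harm g hg _ _ _ D h := evM_ext fun q => by
    have e := loc_iff.1 h q _ (sh_q hp q)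
    rw [evM_tg (kh hp g hg).Gi fun i j => (mt hp D).nm (dr M hp) (inl i) (inr j), (evM_G g hg q).2]
    simp only [ev_nm D (sh_q hp q), smul_comm _ (-1 / 4 : ℂ), ← Finset.smul_sum]
    exact (congrArg ((-1 / 4 : ℂ) • ·) e).trans (smul_zero _)
  px _ _ _ D x hx := px_iff D x hx
  lap g hg _ _ _ D x hx f hf := by
    refine ⟨fun h => ev_ext fun q => ?_, fun h => loc_iff.2 fun q σ hσ => ?_⟩
    · rw [ev_lap D x hx hg (sh_q hp q), loc_iff.1 h q _ (sh_q hp q), (sh_q hp q).2, ev_neg, ev_upV]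
    · have e := ev_lap (hp := hp) D x hx hg hσ
      rw [h, ev_neg, ev_upV, neg_inj] at e
      rw [← e, hσ.2]
  kil ζ U s _ x hx := by
    refine ⟨fun h q w hw => funext fun i => ?_, fun h => loc_iff.2 fun q σ hσ hU v hv => ?_⟩
    · have e := loc_iff.1 h q _ (sh_q hp q) ((mem_iff q U).2 hw.1)
      have d := (loc_iff.1 hx q _ (sh_q hp q)).differentiableAt (by simp)
      refine Eq.trans ?_ ((ker_iff (fun w => x (sh hp q.y q.e w) i) _ q.z).1
        (fun v hv => ?_) w hw.2.1 hw.2.2)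
      · rw [Finset.sum_apply]
        exact Finset.sum_congr rfl fun a _ =>
          congrArg (w a * ·) ((gmV (sh_q hp q) x hx i).d a).val
      · exact (congrArg (· v) (fderiv_apply d i)).trans (congrFun (e v hv) i)
    · have d := (loc_iff.1 hx q _ hσ).differentiableAt (by simp)
      refine funext fun i => (congrArg (· v) (fderiv_apply d i)).symm.trans
        ((ker_iff (fun w => x (σ w) i) _ q.z).2 (fun w h1 h2 => ?_) v hv)
      refine Eq.trans ?_ (congrFun (h q w ⟨(mem_iff q U).1 hU, h1, h2⟩) i)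
      rw [Finset.sum_apply]
      exact Finset.sum_congr rfl fun a _ => congrArg (w a * ·) ((gmV hσ x hx i).d a).val.symm
  kilM ζ U s t F hF := by
    refine ⟨fun h q w hw => Matrix.ext fun i j => ?_,
      fun h i j => loc_iff.2 fun q σ hσ hU v hv => ?_⟩
    · refine Eq.trans ?_ ((ker_iff (fun w => F (sh hp q.y q.e w) i j) _ q.z).1
        (loc_iff.1 (h i j) q _ (sh_q hp q) ((mem_iff q U).2 hw.1)) w hw.2.1 hw.2.2)
      rw [Matrix.sum_apply]
      exact Finset.sum_congr rfl fun a _ =>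
        congrArg (w a * ·) ((gmM (sh_q hp q) F hF i j).d a).val
    · refine (ker_iff (fun w => F (σ w) i j) _ q.z).2 (fun w h1 h2 => ?_) v hv
      refine Eq.trans ?_ (congrFun₂ (h q w ⟨(mem_iff q U).1 hU, h1, h2⟩) i j)
      rw [Matrix.sum_apply]
      exact Finset.sum_congr rfl fun a _ => congrArg (w a * ·) ((gmM hσ F hF i j).d a).val.symm

end

end Pool.Agent.Lib.MP_813db1_ag.VH.Hr
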