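import Pool.Agent.Lib.MP_813db1_ag.VH.HrSt

/-! The Jacobi identity, the metric on endomorphisms, flat sections. -/

namespace Pool.Agent.Lib.MP_813db1_ag.VH.Hr

open Matrix Finset Sum
open scoped Kronecker

set_option linter.unusedSectionVars false

variable {ι R : Type} [Fintype ι] [DecidableEq ι] [CommRing R] [Algebra ℂ R] [StarRing R]
  [StarModule ℂ R]

namespace HrJ

variable {δ : DR ι R} (K : Kh δ)

theorem ig : K.Gi * K.G = 1 := mul_eq_one_comm.1 K.gi

theorem dGi (a : ι ⊕ ι) : δ.dm a K.Gi = -(K.Gi * δ.dm a K.G * K.Gi) := by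
  have e := congrArg (K.Gi * ·) (δ.dm_mul a K.G K.Gi)
  simp only [K.gi, δ.dm_one, Matrix.mul_zero, Matrix.mul_add, ← Matrix.mul_assoc, ig,
    Matrix.one_mul] at e
  exact eq_neg_of_add_eq_zero_right e.symm

theorem star_Gi (i j : ι) : star (K.Gi i j) = K.Gi j i := by
  have e0 : K.Gᴴ = K.G := Matrix.ext fun i j => K.he j i
  have e : K.Giᴴ * K.G = 1 := by rw [← e0, ← conjTranspose_mul, K.gi, conjTranspose_one]
  have e1 : K.Giᴴ = K.Gi := by
    rw [← Matrix.mul_one K.Giᴴ, ← K.gi, ← Matrix.mul_assoc, e, Matrix.one_mul]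
  exact congrFun₂ e1 j i

theorem k1 (l j i : ι) : ∑ k, K.Gi l k * δ.d (inl k) (K.Gi j i) =
    ∑ k, K.Gi j k * δ.d (inl k) (K.Gi l i) := by
  have e : ∀ l j, ∑ k, K.Gi l k * δ.d (inl k) (K.Gi j i) =
      -∑ n, ∑ k, ∑ m, K.Gi l k * K.Gi j m * δ.d (inl k) (K.G m n) * K.Gi n i := fun l j => by
    rw [sum_comm, ← sum_neg_distrib]
    refine sum_congr rfl fun k _ => ?_
    rw [← δ.dm_apply, dGi]
    simp only [Matrix.neg_apply, mul_apply, DR.dm_apply, mul_neg, sum_mul]
    simp only [mul_sum, mul_assoc]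
  rw [e, e]
  refine congrArg _ (sum_congr rfl fun n _ => ?_)
  rw [sum_comm]
  exact sum_congr rfl fun m _ => sum_congr rfl fun k _ => by rw [K.cl m n k]; ring

theorem k2 (l j i : ι) : ∑ k, K.Gi k l * δ.d (inr k) (K.Gi i j) =
    ∑ k, K.Gi k j * δ.d (inr k) (K.Gi i l) := by
  simpa only [star_sum, star_mul', star_Gi, δ.st, swap_inl] using congrArg star (k1 K l j i)

variable {r : Type} [Fintype r] [DecidableEq r]

theorem kron_vc (A B x : Matrix r r R) : (A ⊗ₖ B) *ᵥ vc x = vc (A * x * Bᵀ) := funext fun q => by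
  simp only [mulVec, dotProduct, vc, Fintype.sum_prod_type, kroneckerMap_apply, mul_apply,
    transpose_apply, sum_mul]
  rw [sum_comm]
  exact sum_congr rfl fun _ _ => sum_congr rfl fun _ _ => by ring

theorem dm_kron (a : ι ⊕ ι) (A B : Matrix r r R) :
    δ.dm a (A ⊗ₖ B) = δ.dm a A ⊗ₖ B + A ⊗ₖ δ.dm a B := Matrix.ext fun i j => by
  simp only [DR.dm_apply, kroneckerMap_apply, Derivation.leibniz, Matrix.add_apply, smul_eq_mul]
  ring

end HrJ

open HrJ

theorem jacS : JacS ι R := fun δ K u v b c d => by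
  have e : ∀ (w : ℂ) (x y : R), x * w • y = w • (x * y) := fun _ _ _ => mul_smul_comm _ _ _
  rcases b with b | b <;> rcases c with c | c <;> rcases d with d | d <;>
    simp only [Fintype.sum_sum_type, Kh.π, DR.wd, fromBlocks_apply₁₁, fromBlocks_apply₁₂,
      fromBlocks_apply₂₁, fromBlocks_apply₂₂, Matrix.zero_apply, transpose_apply,
      Matrix.neg_apply, Derivation.smul_apply, map_zero, map_neg, ty_inl, ty_inr, zero_mul,
      mul_zero, smul_zero, sub_zero, zero_sub, add_zero, zero_add, sum_const_zero, e, neg_mul,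
      mul_neg, smul_neg, neg_neg, sum_add_distrib, sum_sub_distrib, sum_neg_distrib,
      ← smul_sum]
  · rw [k2 K b c d]; abel
  · rw [k2 K b d c]; abel
  · rw [k1 K c d b]; abel
  · rw [k2 K c d b]; abel
  · rw [k1 K b d c]; abel
  · rw [k1 K b c d]; abel

theorem endL : EndL ι R := fun δ r _ _ m mE h => by
  have e1 : mE.Hi = m.Hi ⊗ₖ m.H := by
    have e : (m.Hi ⊗ₖ m.H) * mE.H = 1 := by
      rw [h, ← mul_kronecker_mul, m.ih, m.hi, one_kronecker_one]
    rw [← Matrix.one_mul mE.Hi, ← e, Matrix.mul_assoc, mE.hi, Matrix.mul_one]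
  refine ⟨fun a x => ?_, fun x y => ?_⟩
  · have e2 : (m.H * δ.dm a m.Hi)ᵀ = (2 : ℂ) • m.am δ a := by
      rw [m.dHi, Matrix.mul_smul, ← Matrix.mul_assoc, ← m.am_sy, Matrix.mul_assoc, m.hi,
        Matrix.mul_one, transpose_smul, transpose_transpose]
    have e3 : m.Hi * δ.dm a m.H = (-2 : ℂ) • m.am δ a := by
      rw [m.dH, Matrix.mul_smul, ← Matrix.mul_assoc, m.ih, Matrix.one_mul]
    rw [Mt.am, e1, h, dm_kron, Matrix.mul_add, ← mul_kronecker_mul, ← mul_kronecker_mul, m.ih,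
      m.hi, smul_mulVec, add_mulVec, kron_vc, kron_vc, e2, e3, transpose_one, Matrix.mul_one,
      Matrix.one_mul, Matrix.smul_mul, Matrix.mul_smul]
    funext q
    simp only [vc, Pi.smul_apply, Pi.add_apply, Matrix.smul_apply, Matrix.sub_apply]
    module
  · rw [Mt.h_apply, h, kron_vc, m.sy_i, Matrix.mul_assoc xᵀ, Matrix.mul_assoc xᵀ]
    simp only [dotProduct, vc, Fintype.sum_prod_type, trace, Matrix.diag]
    rw [sum_comm]
    rfl

theorem invL : InvL ι R := fun δ K r _ _ m v hm hv => by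
  have h0 : ∀ a, δ.dv r a (star v) = 0 := fun a => by
    rw [← swap_swap a, ← δ.dv_star, hv, star_zero]
  have e : ∀ i j, δ.d (inl i) (m.h v (m.am δ (inr j) *ᵥ star v)) =
      -(m.h (m.am δ (inl i) *ᵥ v) (m.am δ (inr j) *ᵥ star v) +
        m.h (m.am δ (inr j) *ᵥ v) (m.am δ (inl i) *ᵥ star v)) := fun i j => by
    rw [m.d_h, hv, δ.dv_mulVec, h0, sub_eq_zero.1 (hm.1 i j), m.h_am, m.h_am]
    simp only [map_zero, LinearMap.zero_apply, mulVec_zero, add_zero, zero_add, sub_mulVec,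
      map_sub, mulVec_mulVec]
    module
  simp only [dvg, Mt.nrm1, Fintype.sum_sum_type, Kh.π, DR.wd, fromBlocks_apply₁₁,
    fromBlocks_apply₁₂, fromBlocks_apply₂₁, fromBlocks_apply₂₂, Matrix.zero_apply,
    transpose_apply, Matrix.neg_apply, Derivation.smul_apply, ty_inl, ty_inr, zero_mul, mul_zero,
    zero_smul, one_smul, neg_smul, add_zero, zero_add, sum_const_zero, e, m.star_am, swap_inl,
    swap_inr, map_neg, neg_mul, mul_neg, neg_neg, mul_add, sum_add_distrib, sum_neg_distrib]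
  rw [sum_comm (f := fun i j => K.Gi j i * m.h (m.am δ (inr j) *ᵥ v) (m.am δ (inl i) *ᵥ star v)),
    add_comm]

end Pool.Agent.Lib.MP_813db1_ag.VH.Hr
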