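import Pool.Agent.Lib.MP_813db1_ag.VH.HrSt

/-! The integrands for primitive exact forms and for the theorem of Siu and Sampson. -/

namespace Pool.Agent.Lib.MP_813db1_ag.VH.Hr

open Matrix Finset Sum
open scoped Kronecker

set_option linter.unusedSectionVars false

variable {ι R : Type} [Fintype ι] [DecidableEq ι] [CommRing R] [Algebra ℂ R] [StarRing R]
  [StarModule ℂ R]

namespace HrL

variable {r s : Type} [Fintype r] [DecidableEq r]

theorem six {x y : R} (h : 6 * x = 6 * y) : x = y := by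
  have e : ∀ z : R, (1 / 6 : ℂ) • (6 * z) = z := fun z => by
    rw [show (6 : R) * z = (6 : ℂ) • z by rw [Algebra.smul_def, map_ofNat], smul_smul]
    norm_num
  rw [← e x, h, e]

theorem sS_alt {S : ι ⊕ ι → ι ⊕ ι → s → R} (h : ∀ a b, S b a = -S a b) (a b : ι ⊕ ι) :
    sS S b a = -sS S a b := by
  rw [sS, sS, h, star_neg, smul_neg, mul_comm]

theorem dual (δ : DR ι R) (m : Mt r R) (u v : ℂ) (a : ι ⊕ ι) (x : r → R) :
    m.Pg δ u v (-2 * u - (v - u)) (-2 * v - (u - v)) a (star x) =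
      ty 1 (-1) a • (u • star (m.P δ 0 1 a.swap x) - v • star (m.P δ 1 0 a.swap x)) := by
  simp only [Mt.P, m.star_Pg, swap_swap]
  simp only [Mt.Pg_apply]
  cases a <;> simp only [ty_inl, ty_inr, star_zero, star_one, star_sub] <;> module

theorem x2_sS (δ : DR ι R) (m : Mt r R) (u v : ℂ) {S : ι ⊕ ι → ι ⊕ ι → r → R}
    (h1 : X2 (m.P δ 1 0) S = 0) (h2 : X2 (m.P δ 0 1) S = 0) (a c d : ι ⊕ ι) :
    X2 (m.Pg δ u v (-2 * u - (v - u)) (-2 * v - (u - v))) (sS S) a c d = 0 := by
  have e1 := congrArg star (congrFun₃ h1 a.swap c.swap d.swap)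
  have e2 := congrArg star (congrFun₃ h2 a.swap c.swap d.swap)
  simp only [X2, star_add, Pi.zero_apply, star_zero] at e1 e2
  simp only [X2, sS, map_smul, dual]
  rw [eq_neg_of_add_eq_zero_right e1, eq_neg_of_add_eq_zero_right e2]
  module

theorem trc (A B C D : Matrix r r R) :
    trace (B * (A * (C * D - D * C) - (C * D - D * C) * A - (C * (A * D - D * A) -
      (A * D - D * A) * C))) = trace ((A * C - C * A) * (D * B - B * D)) := by
  rw [show A * (C * D - D * C) - (C * D - D * C) * A - (C * (A * D - D * A) -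
    (A * D - D * A) * C) = (A * C - C * A) * D - D * (A * C - C * A) by noncomm_ring,
    Matrix.mul_sub B, Matrix.mul_sub _ (D * B), trace_sub, trace_sub, trace_mul_comm B,
    ← Matrix.mul_assoc B, trace_mul_comm (B * D), Matrix.mul_assoc]

end HrL

open HrL

theorem peL (hJ : JacS ι R) : PeL ι R := fun δ K r _ _ m u v κ h0 h1 h2 => by
  have e := hrk K.alt m.h (hJ δ K u v) (m.wd_h δ u v (v - u) (u - v)) κ (sS (X1 (m.P δ u v) κ))
  simp only [x2_sS δ m u v h1 h2, map_zero, mul_zero] at e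
  rw [show m.Pg δ u v (v - u) (u - v) = m.P δ u v from rfl,
    ee_pair m.h _ _ (sS_alt (X1_alt _ _)), h0] at e
  refine six (e.trans ?_)
  simp only [Mt.nrm, S4, map_zero, LinearMap.zero_apply, sum_const_zero]
  ring

theorem ssL (hJ : JacS ι R) (hE : EndL ι R) : SsL ι R := by
  intro δ K r _ _ m mE κ S T hH h0 hκ hS hT
  obtain ⟨e1, e2⟩ := hE δ r m mE hH
  have vs : ∀ (c : ℂ) (x : Matrix r r R), vc (c • x) = c • vc x := fun _ _ => rfl
  have vsub : ∀ x y : Matrix r r R, vc (x - y) = vc x - vc y := fun _ _ => rfl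
  have vst : ∀ x : Matrix r r R, star (vc x) = vc (x.map star) := fun _ => rfl
  have s1 : ∀ a b, S a b = (ty 1 0 a * ty 0 1 b - ty 1 0 b * ty 0 1 a) • vc (m.nm δ a b) :=
    fun a b => by
      have n : vc (m.nm δ b a) = vc (m.nm δ a b) := by rw [m.nm_sy]
      rw [sub_smul]
      nth_rewrite 2 [← n]
      simp only [hS, X1, hκ, map_smul, Mt.Pg_apply, δ.dv_vc, e1, Mt.nm, vsub]
      cases a <;> cases b <;> simp only [ty_inl, ty_inr] <;> module
  have s2 : sS S = S := funext fun a => funext fun b => by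
    rw [sS, s1, s1, star_smul, vst, m.nm_star, swap_swap, swap_swap]
    cases a <;> cases b <;> simp
  have s3 : lam K.π S = 0 := by
    have : ∀ i j, K.Gi j i • (S (inl i) (inr j) - S (inr j) (inl i)) =
        (2 : ℂ) • vc (K.Gi j i • m.nm δ (inl i) (inr j)) := fun i j => by
      rw [s1, s1, m.nm_sy δ (inr j), show vc (K.Gi j i • m.nm δ (inl i) (inr j)) =
        K.Gi j i • vc (m.nm δ (inl i) (inr j)) from rfl]
      simp [two_smul]
    simp only [K.lam_eq, this, ← smul_sum]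
    rw [show ∑ i, ∑ j, vc (K.Gi j i • m.nm δ (inl i) (inr j)) =
      vc (∑ i, ∑ j, K.Gi j i • m.nm δ (inl i) (inr j)) from
        funext fun x => by simp [vc, Matrix.sum_apply], h0]
    exact smul_zero _
  have ta : ∀ a b, T b a = -T a b := fun a b => by
    rw [hT, hT, mul_comm, ← smul_neg, vsub, vsub, neg_sub]
  have t3 : lam K.π T = 0 := by simp [K.lam_eq, hT]
  have sa : ∀ a b, S b a = -S a b := fun a b => by rw [hS, X1_alt]
  refine ⟨fun i j => by simp [s1], ?_⟩
  have tr1 : ∀ x y : Matrix r r R, xᵀ * m.H = m.H * x → mE.h (vc x) (vc y) = trace (x * y) :=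
    fun x y h => by
      rw [e2, h, trace_mul_comm, ← Matrix.mul_assoc, ← Matrix.mul_assoc, m.ih, Matrix.one_mul]
  have tr2 : ∀ a c y, mE.h (vc (m.am δ a * m.am δ c - m.am δ c * m.am δ a)) (vc y) =
      -trace ((m.am δ a * m.am δ c - m.am δ c * m.am δ a) * y) := fun a c y => by
    have k : ∀ a c, (m.am δ a * m.am δ c)ᵀ * m.H = m.H * (m.am δ c * m.am δ a) := fun a c => by
      rw [transpose_mul, Matrix.mul_assoc, m.am_sy, ← Matrix.mul_assoc, m.am_sy, Matrix.mul_assoc]
    rw [e2, transpose_sub, Matrix.sub_mul, k, k, ← Matrix.mul_sub, trace_mul_comm,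
      ← Matrix.mul_assoc, ← Matrix.mul_assoc, m.ih, Matrix.one_mul, ← trace_neg, ← Matrix.neg_mul,
      neg_sub]
  have k1 : ∀ a b c d, mE.h (κ b) (mE.Pg δ 1 0 (-1) 0 a (mE.Pg δ 1 0 (-1) 0 c (κ d)) -
      mE.Pg δ 1 0 (-1) 0 c (mE.Pg δ 1 0 (-1) 0 a (κ d))) = mE.h (T a c) (sS T d b) := by
    intro a b c d
    rw [mE.Pg_comm, sS, hT, hT, hκ, hκ, star_smul, vst, Matrix.map_sub _ star_sub, Mt.map_star_mul,
      Mt.map_star_mul, m.am_star, m.am_star, swap_swap, swap_swap, smul_smul, (mE.h_csmul _ _ _).1,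
      (mE.h_csmul _ _ _).1, (mE.h_csmul _ _ _).2, tr2]
    simp only [add_mulVec, smul_mulVec, sub_mulVec, ← mulVec_mulVec, mulVec_smul, e1, ← vsub]
    rcases a with a | a <;> rcases c with c | c <;> rcases b with b | b <;> rcases d with d | d <;>
      simp only [ty_inl, ty_inr, swap_inl, swap_inr, zero_smul, smul_zero, mul_zero, zero_mul,
        star_zero, sub_self, add_zero, zero_add, map_zero]
    rw [one_smul, one_smul, (mE.h_csmul _ _ _).2, tr1 _ _ (m.am_sy δ _), trc]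
    simp
  have e := hrk K.alt mE.h (hJ δ K 1 0) (mE.wd_h δ 1 0 (-1) 0) κ S
  have c := ee_cyc K.alt fun a b c d => mE.h (T a c) (sS T d b)
  have q : (S4 fun a b c d => ee K.π a b c d * mE.h (T a c) (sS T d b)) =
      S4 fun a b c d => ee K.π a b c d * mE.h (T a b) (sS T c d) := by
    rw [S4_23, S4_34]
    exact S4_congr fun a b c d => by rw [ee_23 K.alt, ee_34 K.alt, neg_neg]
  have x2 : ∀ a b c d, mE.h (κ b) (X2 (mE.Pg δ 1 0 (-2 * 1 - -1) (-2 * 0 - 0)) S a c d) =
      mE.h (T a c) (sS T d b) + mE.h (T c d) (sS T a b) + mE.h (T d a) (sS T c b) := by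
    intro a b c d
    rw [← k1, ← k1, ← k1, ← map_add, ← map_add, show (-2 * 1 - -1 : ℂ) = -1 by norm_num,
      show (-2 * 0 - 0 : ℂ) = 0 by norm_num, hS]
    simp only [X2, X1, map_sub]
    congr 1
    abel
  simp only [x2, c, q] at e
  rw [← hS, ee_pair mE.h _ _ sa, ee_pair mE.h _ _ (sS_alt ta), s3, t3] at e
  refine six (e.trans ?_)
  simp only [Mt.nrm, s2, map_zero, LinearMap.zero_apply]
  ring

end Pool.Agent.Lib.MP_813db1_ag.VH.Hr
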