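import Pool.Agent.Lib.MP_813db1_ag.VH.HrSt

/-! Derivatives of tensors on the sheets are tensors. -/

namespace Pool.Agent.Lib.MP_813db1_ag.VH.Hr

open Pool.Agent.Lib.MP_813db1_ag.HS Pool.Agent.Lib.MP_813db1_ag.AS.F12
open Matrix Filter Topology Set Sum
open scoped ContDiff ComplexOrder

set_option linter.unusedSectionVars false

noncomputable section

namespace HrL1

variable {ι : Type} [Fintype ι] [DecidableEq ι]

section calc1

variable {f g : V ι → ℂ} {φ : V ι → V ι} {z : V ι}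

theorem dT_const (c : ℂ) (a : ι ⊕ ι) (z : V ι) : dT (fun _ => c) a z = 0 := by
  cases a
  exacts [dz_const c _ _, dzb_const c _ _]

theorem dT_add (hf : DifferentiableAt ℝ f z) (hg : DifferentiableAt ℝ g z) (a : ι ⊕ ι) :
    dT (fun w => f w + g w) a z = dT f a z + dT g a z := by
  cases a
  exacts [dz_add hf hg _, dzb_add hf hg _]

theorem dT_mul (hf : DifferentiableAt ℝ f z) (hg : DifferentiableAt ℝ g z) (a : ι ⊕ ι) :
    dT (fun w => f w * g w) a z = dT f a z * g z + f z * dT g a z := by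
  cases a
  exacts [dz_mul hf hg _, dzb_mul hf hg _]

theorem dT_sum {κ : Type} [Fintype κ] {F : κ → V ι → ℂ} (h : ∀ k, DifferentiableAt ℝ (F k) z)
    (a : ι ⊕ ι) : dT (fun w => ∑ k, F k w) a z = ∑ k, dT (F k) a z := by
  cases a
  exacts [dz_sum _ (fun k _ => h k) _, dzb_sum _ (fun k _ => h k) _]

theorem dT_comm (h : ContDiffAt ℝ 2 f z) (a b : ι ⊕ ι) : dT (dT f b) a z = dT (dT f a) b z := by
  rcases a with a | a <;> rcases b with b | b
  exacts [dz_dz_comm h a b, dz_dzb_comm h a b, (dz_dzb_comm h b a).symm, dzb_dzb_comm h a b]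

theorem dT_comp (hf : DifferentiableAt ℝ f (φ z)) (h : DifferentiableAt ℂ φ z) (a : ι ⊕ ι) :
    dT (f ∘ φ) a z = ∑ b, dbl (jac φ z) b a * dT f b (φ z) := by
  cases a with
  | inl i => exact (dz_comp hf h i).trans (by simp [dbl, dT, Fintype.sum_sum_type])
  | inr i => exact (dzb_comp hf h i).trans (by simp [dbl, dT, Fintype.sum_sum_type])

theorem ty_dbl (u v : ℂ) (J : Mat ι) (a b : ι ⊕ ι) :
    ty u v a * dbl J b a = dbl J b a * ty u v b := by
  cases a <;> cases b <;> simp [dbl, mul_comm]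

/-- the coordinates of a map and their conjugates. -/
def co (φ : V ι → V ι) : ι ⊕ ι → V ι → ℂ :=
  Sum.elim (fun i w => φ w i) fun i w => star (φ w i)

theorem dbl_jac (h : DifferentiableAt ℂ φ z) (e b : ι ⊕ ι) :
    dbl (jac φ z) e b = dT (co φ e) b z := by
  rcases e with i | i <;> rcases b with k | k
  · exact jac_eq_dz h i k
  · exact (dzb_hol (differentiableAt_pi.1 h i) k).symm
  · refine Eq.trans ?_ (dz_star (fun w => φ w i) k z).symm
    rw [dzb_hol (differentiableAt_pi.1 h i) k, star_zero]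
    rfl
  · refine Eq.trans ?_ (dzb_star (fun w => φ w i) k z).symm
    rw [← jac_eq_dz h i k]
    rfl

theorem cd_co (h : AnalyticAt ℂ φ z) (e : ι ⊕ ι) : ContDiffAt ℝ ∞ (co φ e) z := by
  have h1 : ∀ i, ContDiffAt ℝ ∞ (fun w => φ w i) z := fun i =>
    contDiffAt_pi.1 ((h.contDiffAt (n := ∞)).restrict_scalars ℝ) i
  cases e with
  | inl i => exact h1 i
  | inr i => exact (starL' ℝ (A := ℂ)).contDiff.contDiffAt.comp _ (h1 i)

theorem dbl_ev (h : AnalyticAt ℂ φ z) (e b : ι ⊕ ι) :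
    (fun w => dbl (jac φ w) e b) =ᶠ[𝓝 z] dT (co φ e) b :=
  h.eventually_analyticAt.mono fun _ hw => dbl_jac hw.differentiableAt e b

theorem df_dbl (h : AnalyticAt ℂ φ z) (e b : ι ⊕ ι) :
    DifferentiableAt ℝ (fun w => dbl (jac φ w) e b) z :=
  ((cd_dT (cd_co h e) b).congr_of_eventuallyEq (dbl_ev h e b)).differentiableAt (by simp)

/-- the derivative of the Jacobian. -/
def jd (φ : V ι → V ι) (z : V ι) (e a b : ι ⊕ ι) : ℂ := dT (fun w => dbl (jac φ w) e b) a z

theorem jd_comm (h : AnalyticAt ℂ φ z) (e a b : ι ⊕ ι) : jd φ z e a b = jd φ z e b a := by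
  rw [jd, jd, dT_congr (dbl_ev h e b), dT_congr (dbl_ev h e a)]
  exact dT_comm ((cd_co h e).of_le (by norm_cast)) a b

theorem jd_mix (h : AnalyticAt ℂ φ z) (e : ι ⊕ ι) (i j : ι) : jd φ z e (inl i) (inr j) = 0 := by
  cases e with
  | inl k => exact dT_const 0 (inl i) z
  | inr k => exact (jd_comm h _ _ _).trans (dT_const 0 (inr j) z)

theorem jd_ty (h : AnalyticAt ℂ φ z) (u v : ℂ) (e a b : ι ⊕ ι) :
    ty u v a * jd φ z e a b = ty u v b * jd φ z e b a := by
  rcases a with a | a <;> rcases b with b | b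
  · rw [jd_comm h]; rfl
  · rw [jd_comm h e (inr b), jd_mix h, mul_zero, mul_zero]
  · rw [jd_comm h e (inr a), jd_mix h, mul_zero, mul_zero]
  · rw [jd_comm h]; rfl

end calc1

variable {X Y G s t w r : Type} [TopologicalSpace X] [TopologicalSpace Y] {M : Atl ι X} {p : Y → X}
  {hp : IsLocalHomeomorph p} [Group G] [MulAction G Y]

theorem sc0 (hq : IsQuotientCoveringMap p G) {F F' : RR M hp} {γ : G} {c : ℂ}
    (h : ∀ q q' : Pt M p, q.y = γ • q'.y → av q F = av q' F' + c) {q q' : Pt M p}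
    (hr : q.y = γ • q'.y) (a : ι ⊕ ι) :
    av q ((dr M hp).d a F) = ∑ b, jb q q' b a * av q' ((dr M hp).d b F') := by
  obtain ⟨an, e1, hev⟩ := rel_ev (hp := hp) hq hr
  have g1 : (et M hp).Gm F q fun w =>
      ((fun v => F'.1 ((et M hp).nb q' v)) ∘ (q'.e ∘ q.e.symm)) w + c :=
    hev.mono fun w hw => h _ _ hw.1
  have d1 : DifferentiableAt ℝ (fun v => F'.1 ((et M hp).nb q' v))
      ((q'.e ∘ q.e.symm) (q.e (p q.y))) := e1 ▸ (et M hp).df F' q'
  refine (g1.d a).val.trans ?_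
  change dT _ a (q.e (p q.y)) = _
  rw [dT_add (d1.comp _ (an.differentiableAt.restrictScalars ℝ)) (differentiableAt_const c),
    dT_const, add_zero]
  refine (dT_comp d1 an.differentiableAt a).trans ?_
  rw [e1]
  rfl

theorem sc1 (hq : IsQuotientCoveringMap p G) {c c' : ι ⊕ ι → RR M hp} {γ : G}
    (h : ∀ q q' : Pt M p, q.y = γ • q'.y → ∀ a, av q (c a) = ∑ b, jb q q' b a * av q' (c' b))
    {q q' : Pt M p} (hr : q.y = γ • q'.y) (a b : ι ⊕ ι) :
    av q ((dr M hp).d a (c b)) = ∑ e, jd (q'.e ∘ q.e.symm) q.z e a b * av q' (c' e) +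
      ∑ f, ∑ e, jb q q' f a * jb q q' e b * av q' ((dr M hp).d f (c' e)) := by
  obtain ⟨an, e1, hev⟩ := rel_ev (hp := hp) hq hr
  have g1 : (et M hp).Gm (c b) q fun w => ∑ e, dbl (jac (q'.e ∘ q.e.symm) w) e b *
      ((fun v => (c' e).1 ((et M hp).nb q' v)) ∘ (q'.e ∘ q.e.symm)) w :=
    hev.mono fun w hw => (h _ _ hw.1 b).trans (by rw [hw.2]; rfl)
  have d1 : ∀ e, DifferentiableAt ℝ (fun v => (c' e).1 ((et M hp).nb q' v))
      ((q'.e ∘ q.e.symm) (q.e (p q.y))) := fun e => e1 ▸ (et M hp).df (c' e) q'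
  have d2 := fun e => (d1 e).comp _ (an.differentiableAt.restrictScalars ℝ)
  refine (g1.d a).val.trans ?_
  change dT _ a (q.e (p q.y)) = _
  rw [dT_sum fun e => (df_dbl an e b).fun_mul (d2 e), Finset.sum_comm, ← Finset.sum_add_distrib]
  refine Finset.sum_congr rfl fun e _ => ?_
  rw [dT_mul (df_dbl an e b) (d2 e), dT_comp (d1 e) an.differentiableAt a, Finset.mul_sum,
    Function.comp_apply, e1]
  refine congrArg₂ (· + ·) (congrArg _ (congrArg (c' e).1 ((et M hp).self q'))) ?_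
  refine Finset.sum_congr rfl fun f _ => ?_
  rw [mul_left_comm, ← mul_assoc]
  rfl

theorem ev_add (q : Pt M p) (x y : s → RR M hp) : ev q (x + y) = ev q x + ev q y :=
  funext fun _ => map_add (av q) _ _

theorem ev_sub (q : Pt M p) (x y : s → RR M hp) : ev q (x - y) = ev q x - ev q y :=
  funext fun _ => map_sub (av q) _ _

theorem ev_smul (q : Pt M p) (c : ℂ) (x : s → RR M hp) : ev q (c • x) = c • ev q x :=
  funext fun _ => map_smul (av q) _ _

theorem evM_smul (q : Pt M p) (c : ℂ) (A : Matrix s t (RR M hp)) :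
    evM q (c • A) = c • evM q A := Matrix.ext fun _ _ => map_smul (av q) _ _

theorem evM_cst (q : Pt M p) (A : Matrix s t ℂ) : evM q (cst A : Matrix s t (RR M hp)) = A := rfl

theorem ev_cst [Fintype t] (q : Pt M p) (A : Matrix s t ℂ) (x : t → RR M hp) :
    ev q (cst A *ᵥ x) = A *ᵥ ev q x := by rw [ev_mulVec, evM_cst]

theorem ev_dv [Fintype t] (q : Pt M p) (A : Matrix s t ℂ) (x : t → RR M hp) (a : ι ⊕ ι) (i : s) :
    av q ((dr M hp).d a ((cst A *ᵥ x) i)) = (A *ᵥ ev q ((dr M hp).dv t a x)) i := by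
  rw [← ev_cst, ← DR.dv_apply, DR.dv_mulVec, DR.dm_cst, zero_mulVec, zero_add]
  rfl

theorem vc0 [Fintype s] (hq : IsQuotientCoveringMap p G) {f : s → RR M hp} {γ : G} {A : Mat s}
    {c : V s} (h : ∀ q q' : Pt M p, q.y = γ • q'.y → ev q f = A *ᵥ ev q' f + c) {q q' : Pt M p}
    (hr : q.y = γ • q'.y) (a : ι ⊕ ι) :
    ev q ((dr M hp).dv s a f) = ∑ b, jb q q' b a • A *ᵥ ev q' ((dr M hp).dv s b f) := by
  funext i
  refine (sc0 hq (F' := (cst A *ᵥ f) i) (c := c i) (fun q q' hr => ?_) hr a).trans ?_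
  · have := congrFun (h q q' hr) i
    rw [← ev_cst] at this
    exact this
  · rw [Finset.sum_apply]
    exact Finset.sum_congr rfl fun b _ => by rw [ev_dv]; rfl

theorem vc1 [Fintype s] (hq : IsQuotientCoveringMap p G) {L : G → Mat s}
    {κ : ι ⊕ ι → s → RR M hp} (h : T1 L κ) {q q' : Pt M p} {γ : G} (hr : q.y = γ • q'.y)
    (a b : ι ⊕ ι) : ev q ((dr M hp).dv s a (κ b)) =
      ∑ e, jd (q'.e ∘ q.e.symm) q.z e a b • L γ *ᵥ ev q' (κ e) +
        ∑ f, ∑ e, (jb q q' f a * jb q q' e b) • L γ *ᵥ ev q' ((dr M hp).dv s f (κ e)) := by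
  funext i
  refine (sc1 hq (c := fun a => κ a i) (c' := fun a => (cst (L γ) *ᵥ κ a) i)
    (fun q q' hr a => ?_) hr a b).trans ?_
  · refine (congrFun (h q q' γ hr a) i).trans ?_
    rw [Finset.sum_apply]
    exact Finset.sum_congr rfl fun b _ => by rw [← ev_cst]; rfl
  · rw [Pi.add_apply, Finset.sum_apply, Finset.sum_apply]
    refine congrArg₂ (· + ·) (Finset.sum_congr rfl fun e _ => by rw [← ev_cst]; rfl)
      (Finset.sum_congr rfl fun f _ => ?_)
    rw [Finset.sum_apply]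
    exact Finset.sum_congr rfl fun e _ => by rw [ev_dv]; rfl

variable [Fintype r] [DecidableEq r]

theorem am_law (hq : IsQuotientCoveringMap p G) (D : Dt M p G r) {q q' : Pt M p} {γ : G}
    (hr : q.y = γ • q'.y) (a : ι ⊕ ι) : evM q ((mt hp D).am (dr M hp) a) =
      ∑ b, jb q q' b a • (D.ρ γ * evM q' ((mt hp D).am (dr M hp) b) * D.ρ γ⁻¹) := by
  have h1 : evM q ((dr M hp).dm a (mt hp D).H) =
      ∑ b, jb q q' b a • ((D.ρ γ⁻¹)ᵀ * evM q' ((dr M hp).dm b (mt hp D).H) * D.ρ γ⁻¹) := by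
    ext i j
    refine (sc0 hq (F' := (cst (D.ρ γ⁻¹)ᵀ * (mt hp D).H * cst (D.ρ γ⁻¹) :
      Matrix r r (RR M hp)) i j) (c := 0) (fun q q' hr => ?_) hr a).trans ?_
    · rw [add_zero]
      change evM q (mt hp D).H i j = evM q' _ i j
      rw [evM_mul, evM_mul, evM_cst, evM_cst, (evM_H D q).1, (evM_H D q').1, hr, D.eqv]
    · rw [Matrix.sum_apply]
      refine Finset.sum_congr rfl fun b _ => ?_
      change _ * evM q' ((dr M hp).dm b _) i j = _
      rw [DR.dm_mul, DR.dm_mul, DR.dm_cst, DR.dm_cst, Matrix.zero_mul, Matrix.mul_zero, zero_add,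
        add_zero, evM_mul, evM_mul, evM_cst, evM_cst]
      rfl
  simp only [Mt.am, evM_smul, evM_mul]
  rw [h1, (evM_H D q).2, (evM_H D q').2, hr, D.inv_eqv, Matrix.mul_sum, Finset.smul_sum]
  refine Finset.sum_congr rfl fun b _ => ?_
  rw [Matrix.mul_smul, Matrix.mul_smul, Matrix.smul_mul, smul_comm]
  have e : (D.ρ γ)ᵀ * (D.ρ γ⁻¹)ᵀ = 1 := by rw [← transpose_mul, D.inv_mul, transpose_one]
  simp only [Matrix.mul_assoc]
  rw [← Matrix.mul_assoc (D.ρ γ)ᵀ, e, Matrix.one_mul]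

theorem am_vec (hq : IsQuotientCoveringMap p G) (D : Dt M p G r) {q q' : Pt M p} {γ : G}
    (hr : q.y = γ • q'.y) (a : ι ⊕ ι) (x : r → RR M hp) :
    evM q ((mt hp D).am (dr M hp) a) *ᵥ D.ρ γ *ᵥ ev q' x =
      ∑ b, jb q q' b a • D.ρ γ *ᵥ ev q' ((mt hp D).am (dr M hp) b *ᵥ x) := by
  rw [am_law hq D hr, Matrix.sum_mulVec]
  refine Finset.sum_congr rfl fun b _ => ?_
  rw [smul_mulVec, mulVec_mulVec, Matrix.mul_assoc, D.inv_mul, Matrix.mul_one, ev_mulVec,
    mulVec_mulVec]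

theorem ty_jb (u v : ℂ) (q q' : Pt M p) (a b : ι ⊕ ι) :
    ty u v a * jb q q' b a = jb q q' b a * ty u v b := ty_dbl u v _ a b

theorem pg1 (hq : IsQuotientCoveringMap p G) (D : Dt M p G r) (u v u' v' : ℂ)
    {κ : ι ⊕ ι → r → RR M hp} (h : T1 D.ρ κ) {q q' : Pt M p} {γ : G} (hr : q.y = γ • q'.y)
    (a b : ι ⊕ ι) : ev q ((mt hp D).Pg (dr M hp) u v u' v' a (κ b)) =
      ∑ e, (ty u v a * jd (q'.e ∘ q.e.symm) q.z e a b) • D.ρ γ *ᵥ ev q' (κ e) +
        ∑ f, ∑ e, (jb q q' f a * jb q q' e b) •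
          D.ρ γ *ᵥ ev q' ((mt hp D).Pg (dr M hp) u v u' v' f (κ e)) := by
  rw [Mt.Pg_apply, ev_add, ev_smul, ev_smul, vc1 hq h hr, ev_mulVec, h q q' γ hr b, mulVec_sum,
    smul_add, add_assoc]
  simp only [mulVec_smul, am_vec hq D hr, Finset.smul_sum, smul_smul]
  refine congrArg _ ?_
  rw [Finset.sum_comm (f := fun e f => (ty u' v' a * (jb q q' e b * jb q q' f a)) •
    D.ρ γ *ᵥ ev q' ((mt hp D).am (dr M hp) f *ᵥ κ e)), ← Finset.sum_add_distrib]
  refine Finset.sum_congr rfl fun f _ => ?_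
  rw [← Finset.sum_add_distrib]
  refine Finset.sum_congr rfl fun e _ => ?_
  rw [Mt.Pg_apply, ev_add, ev_smul, ev_smul, mulVec_add, mulVec_smul, mulVec_smul, smul_add,
    smul_smul, smul_smul, ← mul_assoc, ty_jb, mul_comm (jb q q' e b), ← mul_assoc, ty_jb,
    mul_right_comm _ (ty u v f), mul_right_comm _ (ty u' v' f)]

end HrL1

open HrL1 in
theorem law1 {ι X Y G : Type} [Fintype ι] [DecidableEq ι] [TopologicalSpace X]
    [TopologicalSpace Y] [Group G] [MulAction G Y] {M : Atl ι X} {p : Y → X}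
    {hp : IsLocalHomeomorph p} (hq : IsQuotientCoveringMap p G) : Law1 G M hp where
  d0 _ _ _ _ h _ _ γ hr a :=
    vc0 hq (c := 0) (fun q q' hr => by rw [add_zero]; exact h q q' γ hr) hr a
  d0' _ _ _ c _ _ h _ _ γ hr a :=
    vc0 hq (c := c γ) (fun q q' hr => by rw [ev_upV, ev_upV, hr, h]) hr a
  am _ _ _ D _ _ _ hr a := am_law hq D hr a
  p0 _ _ _ D u v u' v' f h q q' γ hr a := by
    have h0 := vc0 hq (c := 0) (fun q q' hr => by rw [add_zero]; exact h q q' γ hr) hr a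
    beta_reduce
    rw [Mt.Pg_apply, ev_add, ev_smul, ev_smul, h0, ev_mulVec, h q q' γ hr, am_vec hq D hr,
      Finset.smul_sum, Finset.smul_sum, ← Finset.sum_add_distrib]
    refine Finset.sum_congr rfl fun b _ => ?_
    rw [Mt.Pg_apply, ev_add, ev_smul, ev_smul, mulVec_add, mulVec_smul, mulVec_smul, smul_add,
      smul_smul, smul_smul, smul_smul, smul_smul, ty_jb, ty_jb]
  p1 _ _ _ D u v u' v' κ h q q' γ hr a b := by
    have an := (rel_ev (hp := hp) hq hr).1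
    rw [X1, ev_sub, pg1 hq D u v u' v' h hr, pg1 hq D u v u' v' h hr]
    simp only [jd_ty an u v _ a b]
    rw [add_sub_add_left_eq_sub, Finset.sum_comm (f := fun f e => (jb q q' f b * jb q q' e a) •
      D.ρ γ *ᵥ ev q' ((mt hp D).Pg (dr M hp) u v u' v' f (κ e))), ← Finset.sum_sub_distrib]
    refine Finset.sum_congr rfl fun c _ => ?_
    rw [← Finset.sum_sub_distrib]
    refine Finset.sum_congr rfl fun d _ => ?_
    rw [X1, ev_sub, mulVec_sub, smul_sub, mul_comm (jb q q' d b)]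

end

end Pool.Agent.Lib.MP_813db1_ag.VH.Hr
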