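import Pool.Agent.Lib.MP_813db1_ag.VH.HrSt

/-! The algebra of equivariant tensors. -/

namespace Pool.Agent.Lib.MP_813db1_ag.VH.Hr

open Pool.Agent.Lib.MP_813db1_ag.HS Pool.Agent.Lib.MP_813db1_ag.AS.F12
open Matrix Sum Finset

set_option linter.unusedSectionVars false

namespace L2

section alg

variable {τ N : Type} [Fintype τ] [AddCommGroup N] [Module ℂ N]

theorem con {J π π' : Matrix τ τ ℂ} (h : J * π * Jᵀ = π') (F : τ → τ → N) :
    ∑ a, ∑ b, π a b • ∑ c, ∑ d, (J c a * J d b) • F c d = ∑ c, ∑ d, π' c d • F c d := by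
  have e : ∀ c d, π' c d = ∑ a, ∑ b, π a b * (J c a * J d b) := fun c d => by
    rw [← h, mul_apply, sum_comm]
    refine sum_congr rfl fun b _ => ?_
    rw [mul_apply, sum_mul]
    exact sum_congr rfl fun a _ => by rw [transpose_apply]; ring
  simp only [e, smul_sum, sum_smul, smul_smul]
  calc _ = ∑ a, ∑ c, ∑ b, ∑ d, (π a b * (J c a * J d b)) • F c d :=
        sum_congr rfl fun a _ => sum_comm
    _ = ∑ c, ∑ a, ∑ d, ∑ b, (π a b * (J c a * J d b)) • F c d :=
        sum_comm.trans (sum_congr rfl fun c _ => sum_congr rfl fun a _ => sum_comm)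
    _ = _ := sum_congr rfl fun c _ => sum_comm

/-- the transport of a tensor with three slots. -/
def t3 (J : Matrix τ τ ℂ) (F : τ → τ → τ → ℂ) (a b c : τ) : ℂ :=
  ∑ a', ∑ b', ∑ c', J a' a * J b' b * J c' c * F a' b' c'

theorem t3_a (J : Matrix τ τ ℂ) (F : τ → τ → τ → ℂ) (a b c : τ) :
    t3 J F b a c = t3 J (fun a b c => F b a c) a b c :=
  sum_comm.trans (sum_congr rfl fun _ _ => sum_congr rfl fun _ _ => sum_congr rfl fun _ _ => by ring)

theorem t3_b (J : Matrix τ τ ℂ) (F : τ → τ → τ → ℂ) (a b c : τ) :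
    t3 J F b c a = t3 J (fun a b c => F b c a) a b c :=
  ((sum_congr rfl fun _ _ => sum_comm).trans sum_comm).trans
    (sum_congr rfl fun _ _ => sum_congr rfl fun _ _ => sum_congr rfl fun _ _ => by ring)

theorem t3_con {J π π' : Matrix τ τ ℂ} (h : J * π * Jᵀ = π') (F : τ → τ → τ → ℂ) (b : τ) :
    ∑ c, ∑ d, π c d * (t3 J F b c d - t3 J F c b d + t3 J F c d b) =
      ∑ a, J a b * ∑ c, ∑ d, π' c d * (F a c d - F c a d + F c d a) := by
  have e : ∀ c d, t3 J F b c d - t3 J F c b d + t3 J F c d b =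
      ∑ c', ∑ d', (J c' c * J d' d) • ∑ a, J a b * (F a c' d' - F c' a d' + F c' d' a) := by
    intro c d
    rw [t3_a J F b c d, t3_b J F b c d]
    simp only [t3, ← sum_sub_distrib, ← sum_add_distrib, smul_eq_mul, mul_sum]
    exact (sum_comm.trans (sum_congr rfl fun _ _ => sum_comm)).trans
      (sum_congr rfl fun _ _ => sum_congr rfl fun _ _ => sum_congr rfl fun _ _ => by ring)
  have h1 := con h fun c' d' => ∑ a, J a b * (F a c' d' - F c' a d' + F c' d' a)
  simp only [e]
  refine Eq.trans h1 ?_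
  simp only [smul_eq_mul, mul_sum]
  exact ((sum_congr rfl fun _ _ => sum_comm).trans sum_comm).trans
    (sum_congr rfl fun _ _ => sum_congr rfl fun _ _ => sum_congr rfl fun _ _ => by ring)

end alg

variable {ι X Y G s r : Type} [Fintype ι] [DecidableEq ι] [TopologicalSpace X]
  [TopologicalSpace Y] {M : Atl ι X} {p : Y → X} {hp : IsLocalHomeomorph p}

theorem star_jb (q q' : Pt M p) (a b : ι ⊕ ι) : star (jb q q' b.swap a.swap) = jb q q' b a := by
  cases a <;> cases b <;> simp [jb, dbl]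

theorem ty_jb (u v : ℂ) (q q' : Pt M p) (a b : ι ⊕ ι) :
    ty u v a * jb q q' b a = ty u v b * jb q q' b a := by
  cases a <;> cases b <;> simp [jb, dbl]

theorem sum_swap {A : Type} [AddCommMonoid A] (f : ι ⊕ ι → A) :
    ∑ a, f a = ∑ a : ι ⊕ ι, f a.swap :=
  ((Equiv.sumComm ι ι).sum_comp f).symm

theorem jb_pi (g : X → Mat ι) (hg : M.IsK g) {q q' : Pt M p} (h : p q.y = p q'.y) :
    jb q q' * evM q (kh hp g hg).π * (jb q q')ᵀ = evM q' (kh hp g hg).π := by
  have e : ∀ q : Pt M p, evM q (kh hp g hg).π =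
      fromBlocks 0 ((M.repF g q.e q.z)⁻¹)ᵀ (-(M.repF g q.e q.z)⁻¹) 0 := fun q => by
    ext a b
    rcases a with a | a <;> rcases b with b | b
    · exact map_zero (av (hp := hp) q)
    · rfl
    · exact map_neg (av (hp := hp) q) _
    · exact map_zero (av (hp := hp) q)
  have h1 : p q.y ∈ q'.e.source := h ▸ q'.hy
  have hd := RepA.tj_det M _ q.he _ q'.he _ q.hy h1
  have h2 : (tj q.e q'.e (p q.y)).map star * (M.repF g q.e q.z)⁻¹ * (tj q.e q'.e (p q.y))ᵀ =
      (M.repF g q'.e q'.z)⁻¹ := by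
    have h3 : IsUnit ((tj q.e q'.e (p q.y)).map star).det := by
      have := (starRingEnd ℂ).map_det (tj q.e q'.e (p q.y))
      exact (show _ = ((tj q.e q'.e (p q.y)).map star).det from this) ▸
        ((map_ne_zero _).2 hd).isUnit
    rw [Pt.z, RepA.repF_tr M g _ q.he _ q'.he _ q.hy h1, (mat.pull_pd ι _ _ hd).2.2.2.2.1,
      Matrix.mul_assoc, Matrix.mul_assoc, nonsing_inv_mul _ (isUnit_det_transpose _ hd.isUnit),
      Matrix.mul_one, ← Matrix.mul_assoc, mul_nonsing_inv _ h3, Matrix.one_mul, h]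
  rw [e, e, jb, dbl, fromBlocks_transpose, fromBlocks_multiply, fromBlocks_multiply, ← h2]
  simp [Matrix.mul_assoc]

theorem ev_star (q : Pt M p) (f : s → RR M hp) : ev q (star f) = star (ev q f) :=
  funext fun _ => map_star (av q) _

theorem ev_smul (q : Pt M p) (c : ℂ) (f : s → RR M hp) : ev q (c • f) = c • ev q f :=
  funext fun _ => map_smul (av q) _ _

theorem ev_smul' (q : Pt M p) (c : RR M hp) (f : s → RR M hp) : ev q (c • f) = av q c • ev q f :=
  funext fun _ => map_mul (av q) _ _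

theorem ev_add (q : Pt M p) (f g : s → RR M hp) : ev q (f + g) = ev q f + ev q g :=
  funext fun _ => map_add (av q) _ _

theorem ev_sub (q : Pt M p) (f g : s → RR M hp) : ev q (f - g) = ev q f - ev q g :=
  funext fun _ => map_sub (av q) _ _

theorem ev_sum {κ : Type} [Fintype κ] (q : Pt M p) (f : κ → s → RR M hp) :
    ev q (∑ a, f a) = ∑ a, ev q (f a) := funext fun i => by simp [ev]

variable [Group G] [MulAction G Y] [Fintype r] [DecidableEq r] (D : Dt M p G r)

theorem star_mv (γ : G) (v : V r) : star (D.ρ γ *ᵥ v) = D.ρ γ *ᵥ star v := by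
  funext i
  have h : ∀ j, star (D.ρ γ i j) = D.ρ γ i j := fun j => congrFun₂ (D.reR γ) i j
  simp only [mulVec, dotProduct, Pi.star_apply, star_sum, star_mul', h]

theorem av_h (q : Pt M p) (f f' : r → RR M hp) :
    av q ((mt hp D).h f f') = ev q f ⬝ᵥ D.H q.y *ᵥ ev q f' := by
  rw [Mt.h_apply, ← (evM_H (hp := hp) D q).1, ← ev_mulVec]
  simp [ev, dotProduct]

theorem h_inv (γ : G) (y : Y) (u v : V r) :
    (D.ρ γ *ᵥ u) ⬝ᵥ D.H (γ • y) *ᵥ (D.ρ γ *ᵥ v) = u ⬝ᵥ D.H y *ᵥ v := by
  rw [D.eqv, mulVec_mulVec, Matrix.mul_assoc, D.inv_mul, Matrix.mul_one, ← mulVec_mulVec,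
    dotProduct_mulVec, vecMul_transpose, mulVec_mulVec, D.inv_mul, one_mulVec]

end L2

open L2

variable {ι X Y G : Type} [Fintype ι] [DecidableEq ι] [TopologicalSpace X] [TopologicalSpace Y]
  [Group G] [MulAction G Y] {M : Atl ι X} {p : Y → X} {hp : IsLocalHomeomorph p}

theorem law2 (hq : IsQuotientCoveringMap p G) : Law2 G M hp where
  st0 r _ _ D f h q q' γ e := by rw [ev_star, h q q' γ e, star_mv, ev_star]
  sS r _ _ D S h q q' γ e a b := by
    rw [Hr.sS, ev_smul, ev_star, h q q' γ e, star_sum, smul_sum, sum_swap]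
    refine sum_congr rfl fun c _ => ?_
    rw [star_sum, smul_sum, sum_swap]
    refine sum_congr rfl fun d _ => ?_
    rw [Hr.sS, ev_smul, ev_star, star_smul, star_mul', star_jb, star_jb, star_mv, mulVec_smul,
      smul_smul, smul_smul, mul_mul_mul_comm, ty_jb, ty_jb]
    congr 1
    ring
  ty1 s _ L u v κ h q q' γ e a := by
    rw [ev_smul, h q q' γ e, smul_sum]
    refine sum_congr rfl fun b _ => ?_
    rw [ev_smul, mulVec_smul, smul_smul, smul_smul, ty_jb, mul_comm]
  add s _ L κ κ' h h' := ⟨fun q q' γ e a => by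
      simp only [Pi.add_apply, ev_add, h q q' γ e a, h' q q' γ e a, mulVec_add, smul_add,
        sum_add_distrib], fun q q' γ e a => by
      simp only [Pi.sub_apply, ev_sub, h q q' γ e a, h' q q' γ e a, mulVec_sub, smul_sub,
        sum_sub_distrib]⟩
  lam g hg s _ L S h q q' γ e := by
    have h1 := con (jb_pi (hp := hp) g hg (q := q) (q' := q') (by rw [e, hq.map_smul]))
      fun c d => L γ *ᵥ ev q' (S c d)
    simp only [Hr.lam, ev_sum, ev_smul', h q q' γ e, mulVec_sum, mulVec_smul]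
    exact h1
  h00 r _ _ D f f' h h' := by
    choose σ hσ using hq.surjective
    let Q : X → Pt M p := fun x => ⟨M.ch x, σ x, M.ch_mem x, (hσ x).symm ▸ M.mem x⟩
    refine ⟨fun x => av (Q x) ((mt hp D).h f f'), fun q => ?_⟩
    have e := (dl_smul hq (y := (Q (p q.y)).y) (hσ (p q.y)).symm).symm
    beta_reduce
    rw [av_h, av_h, h q _ _ e, h' q _ _ e, ← h_inv D (dl G (Q (p q.y)).y q.y) (Q (p q.y)).y, ← e]
  h01 r _ _ D f κ h h' q q' e a := by
    have e' := (dl_smul hq e).symm
    rw [av_h, h q q' _ e', h' q q' _ e', mulVec_sum, dotProduct_sum]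
    refine sum_congr rfl fun b _ => ?_
    rw [av_h, mulVec_smul, dotProduct_smul, smul_eq_mul, ← h_inv D (dl G q'.y q.y) q'.y, ← e']
  h12 r _ _ D κ S h h' q q' e a b c := by
    have e' := (dl_smul hq e).symm
    rw [av_h, h q q' _ e', h' q q' _ e', sum_dotProduct]
    refine sum_congr rfl fun a' _ => ?_
    rw [mulVec_sum, dotProduct_sum]
    refine sum_congr rfl fun b' _ => ?_
    rw [mulVec_sum, dotProduct_sum]
    refine sum_congr rfl fun c' _ => ?_
    rw [av_h, mulVec_smul, dotProduct_smul, smul_dotProduct, smul_eq_mul, smul_eq_mul,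
      ← h_inv D (dl G q'.y q.y) q'.y, ← e']
    ring
  ctr g hg B h q q' e a := by
    have h1 := t3_con (jb_pi (hp := hp) g hg e) (fun a b c => av q' (B a b c)) a
    simp only [Hr.ctr, map_sum, map_mul, map_add, map_sub, h q q' e]
    exact h1

end Pool.Agent.Lib.MP_813db1_ag.VH.Hr
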