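import Pool.Agent.Lib.MP_813db1_ag.VH.HrSt

/-! Sections and primitives on the covering, and the datum of endomorphisms. -/

namespace Pool.Agent.Lib.MP_813db1_ag.VH.Hr

open Pool.Agent.Lib.MP_813db1_ag.HS Pool.Agent.Lib.MP_813db1_ag.AS.F12
open MeasureTheory Matrix Filter Topology Set Sum
open scoped ContDiff ComplexOrder Kronecker

set_option linter.unusedSectionVars false

variable {ι X Y G : Type} [Fintype ι] [DecidableEq ι] [TopologicalSpace X] [TopologicalSpace Y]
  [Group G] [MulAction G Y] {M : Atl ι X} {p : Y → X} {hp : IsLocalHomeomorph p}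

namespace L3

/-- the germ of a function on any sheet. -/
theorem gm (F : RR M hp) (A : Ch ι X → Y → ℂ) (h : ∀ q : Pt M p, A q.e q.y = av q F) {q : Pt M p}
    {σ : V ι → Y} (hσ : Sh q σ) : (et M hp).Gm F q fun w => A q.e (σ w) := by
  have e : (fun q : Pt M p => A q.e q.y) = F.1 := funext h
  have h1 : ∀ q : Pt M p, ContDiffAt ℝ ∞ (fun w => A q.e (sh hp q.y q.e w)) (q.e (p q.y)) :=
    fun q => (F.2 q).congr_of_eventuallyEq ((nb_ev A q).symm.trans
      (Eventually.of_forall fun w => h _))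
  have e' : F = upF A h1 := Subtype.ext e.symm
  rw [e']
  exact gm_sh hσ A h1

open Classical in
/-- the values of a function. -/
noncomputable def vl (F : RR M hp) (e : Ch ι X) (y : Y) : ℂ :=
  if h : e ∈ M.A ∧ p y ∈ e.source then av ⟨e, y, h.1, h.2⟩ F else 0

theorem vl_eq (F : RR M hp) (q : Pt M p) : vl F q.e q.y = av q F := dif_pos ⟨q.he, q.hy⟩

theorem vl_d (F : RR M hp) {q : Pt M p} {σ : V ι → Y} (hσ : Sh q σ) (a : ι ⊕ ι) :
    dT (fun w => vl F q.e (σ w)) a q.z = av q ((dr M hp).d a F) :=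
  ((gm F (vl F) (vl_eq F) hσ).d a).val.symm

end L3

open L3

theorem law3 (hq : IsQuotientCoveringMap p G) (hP : PrimS M p G) : Law3 G M hp where
  desc s _ _ L f h1 hf := by
    let q0 : Y → Pt M p := fun y => ⟨M.ch (p y), y, M.ch_mem _, M.mem _⟩
    have e : ∀ q : Pt M p, ev (q0 q.y) f = ev q f := fun q => by
      rw [hf q (q0 q.y) 1 (one_smul _ _).symm, h1, one_mulVec]
    exact ⟨fun y => ev (q0 y) f, loc_iff.2 fun q σ hσ => contDiffAt_pi.2 fun i =>
      (gm (f i) (fun _ y => ev (q0 y) f i) (fun q => congrFun (e q) i) hσ).cd,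
      ev_ext fun q => (e q).symm, fun γ y => hf (q0 (γ • y)) (q0 y) γ rfl⟩
  prim s _ _ ρ κ hκ h0 := by
    have v : ∀ (c : ι ⊕ ι) (q : Pt M p), (fun i => vl (κ c i) q.e q.y) = ev q (κ c) :=
      fun c q => funext fun i => vl_eq _ q
    have cl : ∀ {q : Pt M p} {σ : V ι → Y}, Sh q σ → ∀ a b j,
        dT (fun w => vl (κ b j) q.e (σ w)) a q.z = dT (fun w => vl (κ a j) q.e (σ w)) b q.z :=
      fun hσ a b j => by
        rw [vl_d _ hσ, vl_d _ hσ]
        exact congrArg _ (sub_eq_zero.1 (congrFun (congrFun₂ h0 a b) j))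
    have eq : ∀ (c : ι → ι ⊕ ι), Eq1 p ρ fun e y k i => vl (κ (c k) i) e y := fun c e g y hy k => by
      by_cases he : e ∈ M.A
      · have hy' : p (g • y) ∈ e.source := by rwa [hq.map_smul]
        refine (v _ ⟨e, g • y, he, hy'⟩).trans ((hκ _ ⟨e, y, he, hy⟩ g rfl _).trans ?_)
        have e1 : jb (⟨e, g • y, he, hy'⟩ : Pt M p) ⟨e, y, he, hy⟩ = 1 := by
          rw [jb, (AY.repA' ι X M).tj_self e he _ hy', dbl, Matrix.map_one _ (star_zero _)
            (star_one _), fromBlocks_one]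
        rw [e1, Finset.sum_eq_single (c k) (fun b _ hb => by rw [one_apply_ne hb, zero_smul])
          (by simp), one_apply_eq, one_smul]
        exact congrArg _ (v _ ⟨e, y, he, hy⟩).symm
      · have z : ∀ y, (fun i => vl (κ (c k) i) e y) = 0 := fun y =>
          funext fun i => dif_neg fun h => he h.1
        exact (z _).trans ((mulVec_zero _).symm.trans (congrArg _ (z _).symm))
    have tr : ∀ (c : ι ⊕ ι), ∀ e ∈ M.A, ∀ e' ∈ M.A, ∀ y, p y ∈ e.source → p y ∈ e'.source →
        (fun i => vl (κ c i) e y) =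
          ∑ b, dbl (tj e e' (p y)) b c • fun i => vl (κ b i) e' y := fun c e he e' he' y hy hy' => by
      refine (v _ ⟨e, y, he, hy⟩).trans
        ((hκ ⟨e, y, he, hy⟩ ⟨e', y, he', hy'⟩ 1 (one_smul _ _).symm _).trans ?_)
      refine Finset.sum_congr rfl fun b _ => ?_
      rw [map_one, one_mulVec, ← v]
      rfl
    obtain ⟨x, hx, hd, -, hc⟩ := hP s (fun e y k i => vl (κ (inl k) i) e y)
      (fun e y k i => vl (κ (inr k) i) e y)
      ⟨loc_iff.2 fun q σ hσ k i => (gm _ _ (vl_eq _) hσ).cd,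
        loc_iff.2 fun q σ hσ k i => (gm _ _ (vl_eq _) hσ).cd,
        fun e he e' he' y hy hy' k => (tr _ e he e' he' y hy hy').trans (by
          simp [Fintype.sum_sum_type, dbl]),
        fun e he e' he' y hy hy' k => (tr _ e he e' he' y hy hy').trans (by
          simp [Fintype.sum_sum_type, dbl])⟩
      (loc_iff.2 fun q σ hσ i k => ⟨funext fun j => cl hσ (inl k) (inl i) j,
        funext fun j => cl hσ (inr k) (inr i) j, funext fun j => cl hσ (inr k) (inl i) j⟩)
    obtain ⟨c, -, hc⟩ := hc ρ (eq inl) (eq inr)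
    refine ⟨x, hx, c, funext fun a => ev_ext fun q => funext fun i => ?_, hc⟩
    have h1 := loc_iff.1 hd q _ (sh_q hp q)
    refine ((gm (upV hp x hx i) (fun _ y => x y i) (fun _ => rfl) (sh_q hp q)).d a).val.trans ?_
    rw [(sh_q hp q).2] at h1
    rw [← v]
    cases a with
    | inl k => exact congrFun (h1 k).1 i
    | inr k => exact congrFun (h1 k).2 i

theorem endS (h1 : DualS M p G) (h2 : TenS M p G) : EndS G M hp := fun r _ _ D => by
  obtain ⟨D', a1, a2, a3, -⟩ := h1 r D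
  obtain ⟨E, b1, b2, b3, -⟩ := h2 r r D D'
  refine ⟨E, fun γ => by rw [b1, a1], evM_ext fun q => ?_, fun h => b3 h (a3 h), fun h g i j => ?_⟩
  · refine (b2 q.y).trans ?_
    rw [a2]
    ext i j
    exact (map_mul (av q) ((mt hp D).H i.1 j.1) ((mt hp D).Hi i.2 j.2)).symm
  · obtain ⟨m, hm⟩ := h g i.1 j.1
    obtain ⟨n, hn⟩ := h g⁻¹ j.2 i.2
    exact ⟨m * n, by rw [b1, a1, kroneckerMap_apply, transpose_apply, hm, hn, Int.cast_mul]⟩

end Pool.Agent.Lib.MP_813db1_ag.VH.Hr
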