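import Pool.Agent.Lib.MP_813db1_ag.VH.HrSt

/-! Positivity of the norms of one-forms and two-forms. -/

namespace Pool.Agent.Lib.MP_813db1_ag.VH.Hr

open Pool.Agent.Lib.MP_813db1_ag.HS Pool.Agent.Lib.MP_813db1_ag.AS.F12
open MeasureTheory Matrix Filter Topology Set Sum
open scoped ContDiff ComplexOrder Kronecker

set_option linter.unusedSectionVars false

noncomputable section

namespace HrP

theorem k1 {τ s : Type} [Fintype τ] [DecidableEq τ] [Fintype s] [DecidableEq s]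
    {Γ : Matrix τ τ ℂ} {H : Matrix s s ℂ} (hΓ : Γ.PosDef) (hH : H.PosDef) (x : τ → s → ℂ) :
    0 ≤ ∑ a, ∑ c, Γ a c * (x a ⬝ᵥ H *ᵥ star (x c)) ∧
      (∑ a, ∑ c, Γ a c * (x a ⬝ᵥ H *ᵥ star (x c)) = 0 → ∀ a, x a = 0) := by
  have hK := hΓ.kronecker hH
  have e : ∑ a, ∑ c, Γ a c * (x a ⬝ᵥ H *ᵥ star (x c)) =
      star (fun t : τ × s => star (x t.1 t.2)) ⬝ᵥ (Γ ⊗ₖ H) *ᵥ fun t => star (x t.1 t.2) := by
    simp only [dotProduct, mulVec, Pi.star_apply, star_star, Fintype.sum_prod_type,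
      kroneckerMap_apply, Finset.mul_sum]
    refine Finset.sum_congr rfl fun a _ => ?_
    rw [Finset.sum_comm]
    refine Finset.sum_congr rfl fun i _ => Finset.sum_congr rfl fun c _ =>
      Finset.sum_congr rfl fun j _ => by ring
  rw [e]
  refine ⟨hK.posSemidef.dotProduct_mulVec_nonneg _, fun h a => ?_⟩
  by_contra hn
  refine (hK.dotProduct_mulVec_pos (x := fun t => star (x t.1 t.2)) fun h0 => hn ?_).ne' h
  funext i
  simpa using congrFun h0 (a, i)

variable {ι : Type} [Fintype ι] [DecidableEq ι]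

theorem blk {A B : Matrix ι ι ℂ} (hA : A.PosDef) (hB : B.PosDef) :
    (fromBlocks A 0 0 B).PosDef := by
  refine PosDef.of_dotProduct_mulVec_pos ?_ fun x hx => ?_
  · exact IsHermitian.fromBlocks hA.isHermitian (by simp) hB.isHermitian
  · have e : star x ⬝ᵥ fromBlocks A 0 0 B *ᵥ x =
        star (x ∘ inl) ⬝ᵥ A *ᵥ (x ∘ inl) + star (x ∘ inr) ⬝ᵥ B *ᵥ (x ∘ inr) := by
      simp [dotProduct, mulVec, Fintype.sum_sum_type]
    rw [e]
    by_cases h1 : x ∘ inl = 0
    · have h2 : x ∘ inr ≠ 0 := fun h2 => hx (funext fun a => by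
        cases a with
        | inl i => exact congrFun h1 i
        | inr i => exact congrFun h2 i)
      exact add_pos_of_nonneg_of_pos (hA.posSemidef.dotProduct_mulVec_nonneg _)
        (hB.dotProduct_mulVec_pos h2)
    · exact add_pos_of_pos_of_nonneg (hA.dotProduct_mulVec_pos h1)
        (hB.posSemidef.dotProduct_mulVec_nonneg _)

/-- the metric on the doubled index set. -/
def gm (B : Matrix ι ι ℂ) : Matrix (ι ⊕ ι) (ι ⊕ ι) ℂ := fromBlocks Bᵀ 0 0 B

theorem gm_pos {B : Matrix ι ι ℂ} (h : B.PosDef) : (gm B).PosDef := blk h.transpose h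

variable {X Y G r : Type} [TopologicalSpace X] [TopologicalSpace Y] {M : Atl ι X} {p : Y → X}
  {hp : IsLocalHomeomorph p} [Group G] [MulAction G Y] [Fintype r] [DecidableEq r]

theorem pi_eq (g : X → Mat ι) (hg : M.IsK g) (q : Pt M p) (a c : ι ⊕ ι) :
    av q ((kh hp g hg).π a c.swap) * ty (-1) 1 c.swap = gm (M.repF g q.e q.z)⁻¹ a c := by
  have e : ∀ i j, av q ((kh hp g hg).Gi i j) = (M.repF g q.e q.z)⁻¹ i j := fun i j =>
    congrFun₂ (evM_G (hp := hp) g hg q).2 i j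
  cases a <;> cases c <;> simp [Kh.π, gm, e]

theorem h_eq (D : Dt M p G r) (q : Pt M p) (t : ℂ) (x y : r → RR M hp) :
    av q ((mt hp D).h x (t • star y)) = t * (ev q x ⬝ᵥ D.H q.y *ᵥ star (ev q y)) := by
  have e : ∀ i j, av q ((mt hp D).H i j) = D.H q.y i j := fun i j =>
    congrFun₂ (evM_H (hp := hp) D q).1 i j
  simp only [Mt.h_apply, dotProduct, mulVec, map_sum, map_mul, e, Pi.smul_apply, map_smul,
    Pi.star_apply, map_star, ev, smul_eq_mul, Finset.mul_sum]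
  exact Finset.sum_congr rfl fun i _ => Finset.sum_congr rfl fun j _ => by ring

theorem sum_swap (F : ι ⊕ ι → ℂ) : ∑ c, F c = ∑ c : ι ⊕ ι, F c.swap :=
  ((Equiv.sumComm ι ι).sum_comp F).symm

theorem ty_neg (c : ι ⊕ ι) : ty 1 (-1) c = -ty (-1) 1 c := by cases c <;> simp

end HrP

variable {ι X Y G : Type} [Fintype ι] [DecidableEq ι] [TopologicalSpace X] [TopologicalSpace Y]
  {M : Atl ι X} {p : Y → X} (hp : IsLocalHomeomorph p) [Group G] [MulAction G Y]

open HrP in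
theorem posS : PosS G M hp := by
  intro g hg r _ _ D q
  have hΓ : (gm (M.repF g q.e q.z)⁻¹).PosDef := gm_pos ((hg _ q.he).2 _ q.hz).inv
  refine ⟨fun κ => ?_, fun S => ?_⟩
  · have e : av q ((mt hp D).nrm1 (kh hp g hg).π κ) = ∑ a, ∑ c, gm (M.repF g q.e q.z)⁻¹ a c *
        (ev q (κ a) ⬝ᵥ D.H q.y *ᵥ star (ev q (κ c))) := by
      simp only [Mt.nrm1, map_sum, map_mul, h_eq]
      refine Finset.sum_congr rfl fun a _ => ?_
      rw [sum_swap]
      refine Finset.sum_congr rfl fun c _ => ?_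
      rw [← pi_eq (hp := hp) g hg q, swap_swap, mul_assoc]
    rw [e]
    exact k1 hΓ (D.pos _) fun a => ev q (κ a)
  · have e : av q ((mt hp D).nrm (kh hp g hg).π S) = ∑ a : (ι ⊕ ι) × (ι ⊕ ι), ∑ c,
        (gm (M.repF g q.e q.z)⁻¹ ⊗ₖ gm (M.repF g q.e q.z)⁻¹) a c *
        (ev q (S a.1 a.2) ⬝ᵥ D.H q.y *ᵥ star (ev q (S c.1 c.2))) := by
      simp only [Mt.nrm, S4, sS, map_sum, map_mul, h_eq, Fintype.sum_prod_type,
        kroneckerMap_apply]
      refine Finset.sum_congr rfl fun a _ => Finset.sum_congr rfl fun b _ => ?_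
      rw [sum_swap]
      refine Finset.sum_congr rfl fun c _ => ?_
      rw [sum_swap]
      refine Finset.sum_congr rfl fun d _ => ?_
      rw [← pi_eq (hp := hp) g hg q, ← pi_eq (hp := hp) g hg q, swap_swap, swap_swap, ty_neg,
        ty_neg]
      ring
    rw [e]
    have k := k1 (hΓ.kronecker hΓ) (D.pos q.y) fun a => ev q (S a.1 a.2)
    exact ⟨k.1, fun h a b => k.2 h (a, b)⟩

end

end Pool.Agent.Lib.MP_813db1_ag.VH.Hr
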