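import Pool.Agent.Lib.MP_813db1_ag.VH.HrSt

/-! The divergence theorem on the sheets. -/

namespace Pool.Agent.Lib.MP_813db1_ag.VH.Hr

open Pool.Agent.Lib.MP_813db1_ag.HS Pool.Agent.Lib.MP_813db1_ag.AS.F12
open MeasureTheory Matrix Filter Topology Set Sum
open scoped ContDiff ComplexOrder

variable {ι X Y G : Type} [Fintype ι] [DecidableEq ι] [TopologicalSpace X] [TopologicalSpace Y]
  [Group G] [MulAction G Y] {M : Atl ι X} {p : Y → X} {hp : IsLocalHomeomorph p}

namespace HrS

theorem ex_q (hq : IsQuotientCoveringMap p G) {e : Ch ι X} (he : e ∈ M.A) {x : X}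
    (hx : x ∈ e.source) : ∃ q : Pt M p, q.e = e ∧ p q.y = x := by
  obtain ⟨y, rfl⟩ := hq.surjective x
  exact ⟨⟨e, y, he, hx⟩, rfl, rfl⟩

theorem desc (hq : IsQuotientCoveringMap p G) {c : ι ⊕ ι → RR M hp} (hc : Sc1 c) :
    ∃ β : Ch ι X → V ι → ι ⊕ ι → ℂ, ∀ (q : Pt M p) a, (et M hp).Gm (c a) q fun w => β q.e w a := by
  classical
  choose σ hσ using hq.surjective
  let β : Ch ι X → V ι → ι ⊕ ι → ℂ := fun e z a =>
    if h : e ∈ M.A ∧ z ∈ e.target then
      av ⟨e, σ (e.symm z), h.1, by rw [hσ]; exact e.map_target h.2⟩ (c a) else 0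
  have h1 : ∀ (q : Pt M p) a, av q (c a) = β q.e q.z a := fun q a => by
    simp only [β, dif_pos (And.intro q.he q.hz)]
    rw [hc q ⟨q.e, σ (q.e.symm q.z), q.he, by rw [hσ]; exact q.e.map_target q.hz⟩
      (by rw [hσ, q.e.left_inv q.hy]) a, jb, (AY.repA' ι X M).tj_self _ q.he _ q.hy, dbl,
      Matrix.map_one _ (star_zero _) (star_one _), fromBlocks_one]
    simp [Matrix.one_apply]
  refine ⟨β, fun q a => ((et M hp).ev q).mono fun w hw => ?_⟩
  have h2 : (nbP M hp q w).z = w := hw.1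
  refine (h1 (nbP M hp q w) a).trans ?_
  rw [h2, nbP_e]

theorem sc_star {c : ι ⊕ ι → RR M hp} (hc : Sc1 c) : Sc1 fun a => star (c a.swap) :=
  fun q q' h a => by
    rw [map_star, hc q q' h]
    cases a <;> simp [Fintype.sum_sum_type, jb, dbl, map_star]

variable [T2Space X] [CompactSpace X] [MeasurableSpace X] [BorelSpace X]

theorem half (hq : IsQuotientCoveringMap p G) {g : X → Mat ι} (hg : M.IsK g) {μ : Measure X}
    (hμ : M.IsVol g μ) {c : ι ⊕ ι → RR M hp} (hc : Sc1 c) :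
    ∃ d : X → ℂ, Continuous d ∧ ∫ x, d x ∂μ = 0 ∧ ∀ q : Pt M p,
      ∑ i, ∑ j, (M.repF g q.e q.z)⁻¹ j i * av q ((dr M hp).d (inl i) (c (inr j))) = d (p q.y) := by
  obtain ⟨β, hβ⟩ := desc hq hc
  obtain ⟨d, d1, d2, d3⟩ := AY.divS' ι X M g μ M.A (fun e => e.target)
    (fun e z => (M.repF g e z).adjugateᵀ *ᵥ fun j => β e z (inr j)) hg hμ subset_rfl
    (fun e _ => ⟨e.open_target, subset_rfl⟩)
    (fun x => ⟨_, M.ch_mem x, M.mem x, (M.ch x).map_source (M.mem x)⟩)
    (fun e he z hz => by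
      obtain ⟨q, rfl, h1⟩ := ex_q hq he (e.map_target hz)
      have h2 : q.z = z := by rw [Pt.z, h1, q.e.right_inv hz]
      subst h2
      exact contDiffAt_pi.2 fun i => ContDiffAt.sum fun j _ =>
        ((((hg _ he).1.1.cd hz).adjugate j i).mul (hβ q (inr j)).cd).of_le (by norm_cast))
    fun e he e' he' x hx hx' _ _ => by
      obtain ⟨q, rfl, h1⟩ := ex_q hq he hx
      obtain ⟨q', rfl, h2⟩ := ex_q hq he' hx'
      subst h1
      have e2 : (fun j => β q.e (q.e (p q.y)) (inr j)) =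
          (fun j => β q'.e (q'.e (p q.y)) (inr j)) ᵥ* (tj q.e q'.e (p q.y)).map star := by
        funext j
        have h3 : ∀ a, av q' (c a) = β q'.e (q'.e (p q.y)) a := fun a => h2 ▸ (hβ q' a).val
        refine (hβ q (inr j)).val.symm.trans ((hc q q' h2.symm (inr j)).trans ?_)
        simp [Fintype.sum_sum_type, jb, dbl, h3, vecMul, dotProduct, mul_comm]
      rw [(AY.repA' ι X M).repF_tr g _ he _ he' _ hx hx', e2, Green.adj_pull]
  refine ⟨d, d1, d2, fun q => ?_⟩
  have h1 := d3 _ q.he _ q.hy q.hz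
  have hK := hg _ q.he
  have hP := hK.2 _ q.hz
  have hi := (hK.1.1.df q.hz).adjugate
  have hd : ∀ j, DifferentiableAt ℝ (fun w => β q.e w (inr j)) q.z := fun j =>
    (hβ q (inr j)).cd.differentiableAt (by simp)
  have e : ∀ i, dz (fun w => ((M.repF g q.e w).adjugateᵀ *ᵥ fun j => β q.e w (inr j)) i) i q.z =
      ∑ j, (dz (fun w => (M.repF g q.e w).adjugate j i) i q.z * β q.e q.z (inr j) +
        (M.repF g q.e q.z).adjugate j i * av q ((dr M hp).d (inl i) (c (inr j)))) := fun i => by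
    simp only [mulVec, dotProduct, transpose_apply]
    rw [dz_sum _ fun j _ => (hi j i).fun_mul (hd j)]
    refine Finset.sum_congr rfl fun j _ => (dz_mul (hi j i) (hd j) i).trans ?_
    exact congrArg (_ + _ * ·) ((hβ q (inr j)).d (inl i)).val.symm
  simp only [e, Finset.sum_add_distrib] at h1
  rw [Finset.sum_comm] at h1
  simp only [← Finset.sum_mul, AY.curvS'.adj ι _ _ q.e.open_target hK.1 _ q.hz, zero_mul,
    Finset.sum_const_zero, zero_add] at h1
  rw [← (mat.det ι _ hP).2] at h1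
  refine mul_left_cancel₀ hP.det_pos.ne' (Eq.trans ?_ h1)
  simp only [Matrix.inv_def, Ring.inverse_eq_inv', Matrix.smul_apply, smul_eq_mul, Finset.mul_sum,
    mul_assoc, mul_inv_cancel_left₀ hP.det_pos.ne']

end HrS

variable [T2Space X] [CompactSpace X] [MeasurableSpace X] [BorelSpace X]

theorem stS (hq : IsQuotientCoveringMap p G) : StS M hp := fun g hg μ hμ c u v hc => by
  obtain ⟨d, d1, d2, d3⟩ := HrS.half hq hg hμ hc
  obtain ⟨d', d1', d2', d3'⟩ := HrS.half hq hg hμ (HrS.sc_star hc)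
  have := ((AY.volS' ι X M g hg).2 μ hμ).fin
  have hi : ∀ {f : X → ℂ}, Continuous f → Integrable f μ := fun h =>
    h.integrable_of_hasCompactSupport (HasCompactSupport.of_compactSpace _)
  refine ⟨fun x => u * d x - v * star (d' x), by fun_prop, ?_, fun q => ?_⟩
  · rw [integral_sub (hi (by fun_prop)) (hi (by fun_prop)), integral_const_mul, integral_const_mul,
      d2]
    have h1 := integral_conj (μ := μ) (f := d')
    rw [d2', map_zero] at h1
    simpa using Or.inr h1
  · have hH := ((hg _ q.he).2 _ q.hz).inv.isHermitian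
    have e1 : ∀ i j, av q ((kh hp g hg).Gi i j) = (M.repF g q.e q.z)⁻¹ i j := fun _ _ => rfl
    have e2 : ∀ i j, star (av q ((dr M hp).d (inl i) (star (c (inl j))))) =
        av q ((dr M hp).d (inr i) (c (inl j))) := fun i j => by
      rw [← map_star, (dr M hp).st, star_star]
      rfl
    beta_reduce
    rw [← d3 q, ← d3' q]
    simp only [dvg, Fintype.sum_sum_type, Kh.π, fromBlocks_apply₁₁, fromBlocks_apply₁₂,
      fromBlocks_apply₂₁, fromBlocks_apply₂₂, Matrix.zero_apply, zero_mul, Finset.sum_const_zero,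
      zero_add, add_zero, DR.wd, ty_inl, ty_inr, Derivation.smul_apply, map_add, map_sum, map_mul,
      map_smul, map_neg, transpose_apply, Matrix.neg_apply, e1, star_sum, star_mul', hH.apply,
      Sum.swap_inr, e2, Finset.mul_sum, smul_eq_mul, sub_eq_add_neg, ← Finset.sum_neg_distrib]
    congr 1 <;> exact Finset.sum_congr rfl fun i _ => Finset.sum_congr rfl fun j _ => by ring

theorem st0 (hq : IsQuotientCoveringMap p G) : St0 M hp := fun g hg c u v F hc hF h0 q => by
  obtain ⟨⟨μ, hμ⟩, hv⟩ := AY.volS' ι X M g hg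
  have := (hv μ hμ).fin
  have := (hv μ hμ).pos
  obtain ⟨d, d1, d2, d3⟩ := stS (hp := hp) hq g hg μ hμ c u v hc
  have h1 : ∀ q : Pt M p, av q F = -d (p q.y) := fun q => by rw [← d3, hF, map_neg, neg_neg]
  have h2 : ∀ x, 0 ≤ (-d x).re := fun x => by
    obtain ⟨q, _, rfl⟩ := HrS.ex_q hq (M.ch_mem x) (M.mem x)
    exact h1 q ▸ (Complex.nonneg_iff.1 (h0 q)).1
  have hc' : Continuous fun x => (-d x).re := Complex.continuous_re.comp d1.neg
  have hi : Integrable (fun x => -d x) μ :=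
    d1.neg.integrable_of_hasCompactSupport (HasCompactSupport.of_compactSpace _)
  have h3 : ∫ x, (-d x).re ∂μ = 0 := by
    have h4 := integral_re hi
    rw [integral_neg, d2] at h4
    simpa using h4
  have h5 := (hc'.ae_eq_iff_eq μ continuous_const).1
    ((integral_eq_zero_iff_of_nonneg h2 hi.re).1 h3)
  exact Complex.ext (h1 q ▸ congrFun h5 (p q.y)) (Complex.nonneg_iff.1 (h0 q)).2.symm

end Pool.Agent.Lib.MP_813db1_ag.VH.Hr
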