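import Pool.Agent.Lib.MP_813db1_ag.VH.Prim
import Pool.Agent.Lib.MP_813db1_ag.VH.Dual
import Pool.Agent.Lib.MP_813db1_ag.VH.HrJ
import Pool.Agent.Lib.MP_813db1_ag.VH.HrL
import Pool.Agent.Lib.MP_813db1_ag.VH.HrL1
import Pool.Agent.Lib.MP_813db1_ag.VH.HrL2
import Pool.Agent.Lib.MP_813db1_ag.VH.HrL3
import Pool.Agent.Lib.MP_813db1_ag.VH.HrB
import Pool.Agent.Lib.MP_813db1_ag.VH.HrP
import Pool.Agent.Lib.MP_813db1_ag.VH.HrS
import Pool.Agent.Lib.MP_813db1_ag.VH.FoK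
import Pool.Agent.Lib.MP_813db1_ag.VH.FoAv
import Pool.Agent.Lib.MP_813db1_ag.VH.FoS
import Pool.Agent.Lib.MP_813db1_ag.VH.FoC
import Pool.Agent.Lib.MP_813db1_ag.VH.FoI

/-! Pluriharmonicity and formality. -/

namespace Pool.Agent.Lib.MP_813db1_ag.VH.Hr

open Pool.Agent.Lib.MP_813db1_ag.HS Pool.Agent.Lib.MP_813db1_ag.AS.F12

variable {ι X Y G : Type} [Fintype ι] [DecidableEq ι] [TopologicalSpace X] [T2Space X]
  [CompactSpace X] [MeasurableSpace X] [BorelSpace X] [TopologicalSpace Y] [Group G]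
  [MulAction G Y] {M : Atl ι X} {p : Y → X}

theorem peA (hq : IsQuotientCoveringMap p G) (hp : IsLocalHomeomorph p) : PeS G M hp :=
  peS (peL jacS) (law1 hq) (law2 hq) (st0 hq) (posS hp)

theorem siuS (hq : IsQuotientCoveringMap p G) : SiuS M p G :=
  siuS' (hp := lh hq) (ssL jacS endL) (law1 hq) (law2 hq) (st0 hq) (posS _) (brS _) (endS dualS tenS)

theorem pxS (hq : IsQuotientCoveringMap p G) : PxS M p G :=
  pxS' (hp := lh hq) (law1 hq) (brS _) (peA hq _)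

theorem formS2 [SimplyConnectedSpace Y] (hq : IsQuotientCoveringMap p G) (hP : PoiS M p G) :
    FormS2 M G p :=
  have h3 : Law3 G M (lh hq) := law3 hq (primS hq)
  have h0 := foSol hq hP (law1 hq) (law2 hq) h3 (brS _) (posS _) (stS hq) (st0 hq) invL
  formS2' (fo0 hq (avgS hq) (fun r _ _ d => foU _ r d) (foM endL))
    (fo1 endL (law1 hq) (law2 hq) (endS dualS tenS) (foA h0 (peA hq _) (law1 hq) (law2 hq) (brS _))
      (foB h0 (peA hq _) (foC hq (khS M) (law1 hq) (law2 hq)) (law1 hq) (law2 hq) h3 (brS _)))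
    (fo2 hq h3 (brS _))

end Pool.Agent.Lib.MP_813db1_ag.VH.Hr
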