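import Pool.Agent.Lib.MP_813db1_ag.VH.St7
import Pool.Agent.Lib.MP_813db1_ag.HS.Mat

/-! Pointwise inequalities: norms. -/

namespace Pool.Agent.Lib.MP_813db1_ag.VH

open Pool.Agent.Lib.MP_813db1_ag.HS Pool.Agent.Lib.MP_813db1_ag.AS
open Complex Matrix
open scoped ComplexOrder Kronecker

noncomputable section

namespace RAlgN

section fro

variable {l m n : Type} [Fintype l] [Fintype m] [Fintype n]

/-- the sum of the squared norms of the entries. -/
def fro (X : Matrix m n ℂ) : ℝ := ∑ i, ∑ j, ‖X i j‖ ^ 2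

theorem fro_eq (X : Matrix m n ℂ) : (trace (X * Xᴴ)).re = fro X := by
  simp only [trace, diag, mul_apply, conjTranspose_apply, re_sum, fro]
  refine Finset.sum_congr rfl fun i _ => Finset.sum_congr rfl fun j _ => ?_
  rw [star_def, mul_conj, ofReal_re, normSq_eq_norm_sq]

theorem fro_nonneg (X : Matrix m n ℂ) : 0 ≤ fro X :=
  Finset.sum_nonneg fun _ _ => Finset.sum_nonneg fun _ _ => sq_nonneg _

theorem fro_zero {X : Matrix m n ℂ} (h : fro X = 0) : X = 0 := by
  ext i j
  have h1 := (Finset.sum_eq_zero_iff_of_nonneg fun _ _ =>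
    Finset.sum_nonneg fun _ _ => sq_nonneg _).1 h i (Finset.mem_univ i)
  have h2 := (Finset.sum_eq_zero_iff_of_nonneg fun _ _ => sq_nonneg _).1 h1 j (Finset.mem_univ j)
  exact norm_eq_zero.1 (pow_eq_zero_iff two_ne_zero |>.1 h2)

theorem fro_add (X Y : Matrix m n ℂ) : fro (X + Y) ≤ 2 * fro X + 2 * fro Y := by
  simp only [fro, Finset.mul_sum, ← Finset.sum_add_distrib]
  refine Finset.sum_le_sum fun i _ => Finset.sum_le_sum fun j _ => ?_
  have h := norm_add_le (X i j) (Y i j)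
  have h0 := norm_nonneg (X i j + Y i j)
  rw [Matrix.add_apply]
  nlinarith [sq_nonneg (‖X i j‖ - ‖Y i j‖), mul_self_le_mul_self h0 h]

theorem cs (a b : m → ℂ) : ‖∑ k, a k * b k‖ ^ 2 ≤ (∑ k, ‖a k‖ ^ 2) * ∑ k, ‖b k‖ ^ 2 := by
  refine le_trans ?_ (Finset.sum_mul_sq_le_sq_mul_sq Finset.univ (fun k => ‖a k‖) fun k => ‖b k‖)
  refine pow_le_pow_left₀ (norm_nonneg _) ((norm_sum_le _ _).trans (le_of_eq ?_)) 2
  exact Finset.sum_congr rfl fun k _ => norm_mul _ _

theorem fro_mul (X : Matrix l m ℂ) (Y : Matrix m n ℂ) : fro (X * Y) ≤ fro X * fro Y := by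
  rw [fro, fro, fro, Finset.sum_comm (f := fun i j => ‖Y i j‖ ^ 2), Finset.sum_mul_sum]
  exact Finset.sum_le_sum fun i _ => Finset.sum_le_sum fun j _ => cs _ _

theorem fro_tr (X : Matrix m n ℂ) (Y : Matrix n m ℂ) : ‖trace (X * Y)‖ ^ 2 ≤ fro X * fro Y := by
  have h := cs (fun q : m × n => X q.1 q.2) fun q => Y q.2 q.1
  rw [Fintype.sum_prod_type, Fintype.sum_prod_type, Fintype.sum_prod_type] at h
  rw [fro, fro, Finset.sum_comm (f := fun i j => ‖Y i j‖ ^ 2)]
  exact h

end fro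

section two

variable {m n : Type} [Fintype m] [Fintype n] [DecidableEq m] [DecidableEq n]

theorem facU {H : Mat m} (hH : H.PosDef) : ∃ S : Mat m, IsUnit S.det ∧ H = Sᴴ * S := by
  obtain ⟨S, rfl⟩ := Mat.fac hH.posSemidef
  have := (isUnit_iff_isUnit_det _).1 hH.isUnit
  rw [det_mul] at this
  exact ⟨S, isUnit_of_mul_isUnit_right this, rfl⟩

theorem key (A : Matrix m n ℂ) {H : Mat n} {M : Mat m} (hH : H.PosDef) (hM : M.PosDef) :
    0 ≤ (trace (A * H * Aᴴ * M)).re ∧ ((trace (A * H * Aᴴ * M)).re = 0 → A = 0) := by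
  obtain ⟨S, hS, rfl⟩ := facU hH
  obtain ⟨R, hR, rfl⟩ := facU hM
  have hS' : IsUnit Sᴴ.det := by rw [det_conjTranspose]; exact hS.star
  have e : (trace (A * (Sᴴ * S) * Aᴴ * (Rᴴ * R))).re = fro (R * A * Sᴴ) := by
    rw [← fro_eq, ← Matrix.mul_assoc, trace_mul_comm]
    simp only [conjTranspose_mul, conjTranspose_conjTranspose, Matrix.mul_assoc]
  rw [e]
  refine ⟨fro_nonneg _, fun h => ?_⟩
  have h1 := congrArg (fun X => R⁻¹ * (X * Sᴴ⁻¹)) (fro_zero h)
  simpa only [mul_nonsing_inv_cancel_right _ _ hS', nonsing_inv_mul_cancel_left _ _ hR,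
    Matrix.zero_mul, Matrix.mul_zero] using h1

omit [DecidableEq n] [Fintype m] [DecidableEq m] in
theorem gr_eq (H : Mat n) (a : m → V n) : gr H a = Matrix.of a * H * (Matrix.of a)ᴴ := by
  ext i j
  simp only [gr, of_apply, ipV, mul_apply, conjTranspose_apply, Finset.sum_mul]
  rw [Finset.sum_comm]
  exact Finset.sum_congr rfl fun p _ => Finset.sum_congr rfl fun q _ => by ring

omit [DecidableEq n] in
theorem q1_eq (h : Mat m) (H : Mat n) (T : m → m → V n) : q1 h H T =
    (trace (gr H (fun p : m × m => T p.1 p.2) * (h⁻¹ ⊗ₖ h⁻¹))).re := by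
  rw [q1]
  congr 1
  simp only [tg, trace, diag, mul_apply, Fintype.sum_prod_type, gr, of_apply, kroneckerMap_apply,
    smul_eq_mul, Finset.mul_sum]
  refine Finset.sum_congr rfl fun k _ => ?_
  rw [Finset.sum_comm]
  refine Finset.sum_congr rfl fun i _ => Finset.sum_congr rfl fun l _ =>
    Finset.sum_congr rfl fun j _ => by ring

omit [DecidableEq n] in
theorem q2_eq (h : Mat m) (H : Mat n) (T : m → m → V n) : q2 h H T =
    (trace (gr H (fun p : m × m => T p.1 p.2) * (h⁻¹ᵀ ⊗ₖ h⁻¹))).re := by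
  rw [q2]
  congr 1
  simp only [tg, trace, diag, mul_apply, Fintype.sum_prod_type, gr, of_apply, kroneckerMap_apply,
    smul_eq_mul, Finset.mul_sum, transpose_apply]
  rw [Finset.sum_comm]
  refine Finset.sum_congr rfl fun k _ => ?_
  rw [Finset.sum_comm]
  refine Finset.sum_congr rfl fun i _ => Finset.sum_congr rfl fun l _ =>
    Finset.sum_congr rfl fun j _ => by ring

theorem ipE_eq (S A B : Mat n) :
    ipE (Sᴴ * S) A B = trace (S * A * S⁻¹ * (S * B * S⁻¹)ᴴ) := by
  rw [ipE, ← Matrix.mul_assoc, trace_mul_comm, Matrix.mul_inv_rev]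
  simp only [conjTranspose_mul, conjTranspose_nonsing_inv, Matrix.mul_assoc]

theorem nE_eq (S A : Mat n) :
    nE (Sᴴ * S) A = fro (S * A * S⁻¹) := by
  rw [nE, ipE_eq, fro_eq]

theorem ph_mul {S : Mat n} (hS : IsUnit S.det) (A B : Mat n) :
    S * (A * B) * S⁻¹ = S * A * S⁻¹ * (S * B * S⁻¹) := by
  simp only [Matrix.mul_assoc, nonsing_inv_mul_cancel_left _ _ hS]

theorem nE_all {H : Mat n} (hH : H.PosDef) (A B : Mat n) :
    nE H (A * B) ≤ nE H A * nE H B ∧ nE H (A + B) ≤ 2 * nE H A + 2 * nE H B ∧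
      ‖trace (A * B)‖ ^ 2 ≤ nE H A * nE H B := by
  obtain ⟨S, hS, rfl⟩ := facU hH
  simp only [nE_eq]
  refine ⟨?_, ?_, ?_⟩
  · rw [ph_mul hS]
    exact fro_mul _ _
  · rw [Matrix.mul_add, Matrix.add_mul]
    exact fro_add _ _
  · refine le_trans (le_of_eq ?_) (fro_tr _ _)
    rw [← ph_mul hS, trace_mul_cycle, nonsing_inv_mul _ hS, Matrix.one_mul]

theorem nE_pos {H : Mat n} (hH : H.PosDef) (A : Mat n) : 0 ≤ nE H A ∧ (nE H A = 0 → A = 0) :=
  key A hH.inv hH

omit [Fintype m] [DecidableEq m] in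
theorem grE_eq (S : Mat n) (A : m → Mat n) : grE (Sᴴ * S) A =
    (Matrix.of fun i => vec (S * A i * S⁻¹)) * (Matrix.of fun i => vec (S * A i * S⁻¹))ᴴ := by
  ext i j
  simp only [grE, of_apply, ipE_eq]
  rw [mul_apply, Fintype.sum_prod_type]
  rfl

omit [DecidableEq m] in
theorem ipE_sum (H : Mat n) (A : m → Mat n) (x : m → ℂ) :
    ipE H (∑ i, x i • A i) (∑ i, x i • A i) = ∑ i, ∑ j, x i * star (x j) * ipE H (A i) (A j) := by
  simp only [ipE, conjTranspose_sum, conjTranspose_smul, Matrix.sum_mul,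
    Matrix.smul_mul, Matrix.mul_smul, trace_sum, trace_smul, smul_eq_mul, Finset.mul_sum]
  rw [Finset.sum_comm]
  exact Finset.sum_congr rfl fun i _ => Finset.sum_congr rfl fun j _ => by ring

theorem trm_grE {h R : Mat m} (e : h⁻¹ = Rᴴ * R) (H : Mat n) (A : m → Mat n) :
    trm h (grE H A) = ∑ p, nE H (∑ i, R p i • A i) := by
  simp only [nE, ipE_sum, ← re_sum]
  rw [trm, e]
  congr 1
  simp only [trace, diag, mul_apply, grE, of_apply, conjTranspose_apply, Finset.mul_sum]
  rw [Finset.sum_comm (γ := m) (f := fun p i => ∑ j, R p i * star (R p j) * ipE H (A i) (A j))]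
  refine Finset.sum_congr rfl fun i _ => ?_
  rw [Finset.sum_comm (γ := m) (f := fun p j => R p i * star (R p j) * ipE H (A i) (A j))]
  exact Finset.sum_congr rfl fun j _ => Finset.sum_congr rfl fun p _ => by ring

theorem tr_nonneg {B C : Mat m} (hB : B.PosSemidef) (hC : C.PosSemidef) :
    0 ≤ (trace (B * C)).re := by
  obtain ⟨S, rfl⟩ := Mat.fac hB
  rw [Matrix.mul_assoc, trace_mul_comm]
  exact (Complex.nonneg_iff.1 (hC.mul_mul_conjTranspose_same S).trace_nonneg).1

theorem t2_nonneg {h B C : Mat m} (hh : h.PosDef) (hB : B.PosSemidef) (hC : C.PosSemidef) :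
    0 ≤ t2 h B C := by
  have h1 := hC.mul_mul_conjTranspose_same h⁻¹
  rw [hh.inv.1.eq] at h1
  have := tr_nonneg hB h1
  simpa only [t2, trm, Matrix.mul_assoc] using this

theorem trm_lin (g : Mat m) (t : ℝ) (X Y : Mat m) :
    trm g ((t : ℂ) • X - Y) = t * trm g X - trm g Y := by
  simp only [trm, Matrix.sub_mul, Matrix.smul_mul, trace_sub, trace_smul, smul_eq_mul, sub_re,
    re_ofReal_mul]

end two

end RAlgN

open RAlgN in
theorem algN : AlgN := by
  intro ι r _ _ _ _ h H hh hH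
  refine ⟨fun T => ?_, nE_pos hH, fun a => ?_, fun A => ?_, nE_all hH, fun B C hB hC => ?_⟩
  · have k1 := key (Matrix.of fun p : ι × ι => T p.1 p.2) hH (hh.inv.kronecker hh.inv)
    have k2 := key (Matrix.of fun p : ι × ι => T p.1 p.2) hH (hh.inv.transpose.kronecker hh.inv)
    rw [← gr_eq, ← q1_eq] at k1
    rw [← gr_eq, ← q2_eq] at k2
    exact ⟨k1.1, k2.1, fun e k i => congrFun (k1.2 e) (k, i), fun e k i => congrFun (k2.2 e) (k, i)⟩
  · rw [gr_eq]
    exact hH.posSemidef.mul_mul_conjTranspose_same _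
  · obtain ⟨R, hR, e⟩ := facU hh.inv
    refine ⟨?_, fun h0 k => ?_, fun B => ?_, fun F => ⟨?_, ?_⟩⟩
    · obtain ⟨S, hS, rfl⟩ := facU hH
      rw [grE_eq]
      exact posSemidef_self_mul_conjTranspose _
    · rw [trm_grE e] at h0
      have h1 : ∀ p, ∑ i, R p i • A i = 0 := fun p => (nE_pos hH _).2
        ((Finset.sum_eq_zero_iff_of_nonneg fun p _ => (nE_pos hH _).1).1 h0 p (Finset.mem_univ p))
      have h2 : ∑ p, R⁻¹ k p • ∑ i, R p i • A i = A k := by
        simp only [Finset.smul_sum, smul_smul]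
        rw [Finset.sum_comm]
        simp only [← Finset.sum_smul, ← mul_apply, nonsing_inv_mul _ hR, one_apply, ite_smul,
          one_smul, zero_smul, Finset.sum_ite_eq, Finset.mem_univ, if_true]
      rw [← h2]
      simp only [h1, smul_zero, Finset.sum_const_zero]
    · simp only [trm_grE e, Finset.mul_sum, ← Finset.sum_add_distrib, smul_add]
      refine Finset.sum_le_sum fun p _ => ?_
      rw [Finset.sum_add_distrib]
      exact (nE_all hH _ _).2.1
    · simp only [trm_grE e, Finset.sum_mul]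
      refine Finset.sum_le_sum fun p _ => ?_
      simp only [← Matrix.smul_mul, ← Matrix.sum_mul]
      exact (nE_all hH _ _).1
    · simp only [trm_grE e, Finset.sum_mul]
      refine Finset.sum_le_sum fun p _ => ?_
      simp only [← Matrix.mul_smul, ← Matrix.mul_sum]
      exact (nE_all hH _ _).1.trans (le_of_eq (mul_comm _ _))
  · have hd : IsUnit h.det := (isUnit_iff_isUnit_det _).1 hh.isUnit
    refine ⟨t2_nonneg hh hB hC, ?_, ?_, fun g hg => ?_⟩
    · simp only [t2, trm]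
      rw [Matrix.mul_assoc (B * h⁻¹), trace_mul_comm, ← Matrix.mul_assoc]
    · have h1 := t2_nonneg hh hB (Mat.le_trm hh hC)
      rw [t2, Matrix.mul_sub, Matrix.mul_smul, trm_lin, nonsing_inv_mul_cancel_right _ _ hd] at h1
      rw [t2]
      linarith
    · have h1 := Mat.trm_nonneg hg (Mat.le_trm hh hB)
      rw [trm_lin] at h1
      linarith

end

end Pool.Agent.Lib.MP_813db1_ag.VH
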