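import Pool.Agent.Lib.MP_813db1_ag.VH.St7

/-! Pointwise algebra of the endomorphism `a h⁻¹ a^*`. -/

namespace Pool.Agent.Lib.MP_813db1_ag.VH

open Pool.Agent.Lib.MP_813db1_ag.HS
open Complex Matrix
open scoped ComplexOrder Kronecker

noncomputable section

namespace RAlgO

variable {ι κ r : Type} [Fintype ι] [DecidableEq ι] [Fintype κ] [DecidableEq κ] [Fintype r]
  [DecidableEq r] {h : Mat ι} {H : Mat r}

/-- the matrix with columns `a i`. -/
def cm (a : ι → V r) : Matrix r ι ℂ := Matrix.of fun p i => a i p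

/-- the mixed Gram matrix. -/
def g2 (H : Mat r) (a b : ι → V r) : Mat ι := Matrix.of fun i j => ipV H (a i) (b j)

omit [DecidableEq r] in
theorem ou_eq (a b : ι → V r) : ou h H a b = cm a * (h⁻¹)ᵀ * (cm b)ᴴ * H := by
  have e : cm a * (h⁻¹)ᵀ * (cm b)ᴴ = ∑ i, ∑ j, h⁻¹ j i • vecMulVec (a i) (star (b j)) := by
    ext p q
    simp only [cm, mul_apply, Matrix.sum_apply, Matrix.smul_apply, vecMulVec_apply, Finset.sum_mul,
      of_apply, transpose_apply, conjTranspose_apply, Pi.star_apply, smul_eq_mul]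
    rw [Finset.sum_comm]
    exact Finset.sum_congr rfl fun i _ => Finset.sum_congr rfl fun j _ => by ring
  simp only [e, ou, tg, Finset.sum_mul, smul_mul_assoc]

omit [Fintype ι] [DecidableEq ι] [DecidableEq r] in
theorem g2_eq (hs : Hᵀ = H) (a b : ι → V r) : (cm b)ᴴ * H * cm a = (g2 H a b)ᵀ := by
  ext j i
  simp only [g2, cm, ipV, mul_apply, Finset.sum_mul, of_apply, transpose_apply, conjTranspose_apply]
  refine Finset.sum_congr rfl fun q _ => Finset.sum_congr rfl fun p _ => ?_
  rw [show H p q = H q p from congrFun (congrFun hs q) p]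
  ring

omit [Fintype ι] [DecidableEq ι] [DecidableEq r] in
theorem cm_mul (P : Mat r) (a : ι → V r) : cm (fun i => P *ᵥ a i) = P * cm a := by
  ext p i
  simp [cm, mul_apply, mulVec, dotProduct]

theorem tg_tr (B : Mat ι) : trace (B * h⁻¹) = tg h fun i j => B i j := by
  simp only [trace, diag, mul_apply, tg, smul_eq_mul, mul_comm]

theorem tg_T {E : Type} [AddCommMonoid E] [Module ℂ E] (B : ι → ι → E) :
    tg hᵀ B = tg h fun i j => B j i := by
  simp only [tg, ← transpose_nonsing_inv, transpose_apply]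
  exact Finset.sum_comm

theorem tg_comm (g : Mat κ) (B : κ → κ → ι → ι → ℂ) :
    (tg g fun k l => tg h fun i j => B k l i j) = tg h fun i j => tg g fun k l => B k l i j := by
  simp only [tg, smul_eq_mul, Finset.mul_sum]
  refine (Finset.sum_congr rfl fun k _ => Finset.sum_comm).trans (Finset.sum_comm.trans
    (Finset.sum_congr rfl fun i _ => ?_))
  refine (Finset.sum_congr rfl fun k _ => Finset.sum_comm).trans (Finset.sum_comm.trans ?_)
  exact Finset.sum_congr rfl fun _ _ => Finset.sum_congr rfl fun _ _ =>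
    Finset.sum_congr rfl fun _ _ => by ring

theorem trm_T (B : Mat ι) : trm hᵀ Bᵀ = trm h B := by
  rw [trm, ← transpose_nonsing_inv, ← transpose_mul, trace_transpose, trace_mul_comm, trm]

omit [DecidableEq r] in
theorem tr_ou (hs : Hᵀ = H) (a b : ι → V r) : trace (ou h H a b) = trace (g2 H a b * h⁻¹) := by
  rw [ou_eq, ← trace_transpose (g2 H a b * h⁻¹), transpose_mul, ← g2_eq hs, Matrix.mul_assoc,
    Matrix.mul_assoc, trace_mul_comm]
  simp only [Matrix.mul_assoc]

omit [DecidableEq r] in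
theorem mul_ou (P : Mat r) (a b : ι → V r) :
    P * ou h H a b = ou h H (fun i => P *ᵥ a i) b := by
  simp only [ou_eq, cm_mul, Matrix.mul_assoc]

omit [DecidableEq r] in
theorem ou_adj (hh : h.PosDef) (hH : H.PosDef) (a b : ι → V r) :
    (ou h H a b)ᴴ * H = H * ou h H b a := by
  have e : ((h⁻¹)ᵀ)ᴴ = (h⁻¹)ᵀ := hh.1.inv.transpose
  simp only [ou_eq, conjTranspose_mul, conjTranspose_conjTranspose, e, hH.1.eq, Matrix.mul_assoc]

omit [DecidableEq r] in
theorem tr_ou2 (hs : Hᵀ = H) (a b c d : ι → V r) : trace (ou h H a b * ou h H d c) =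
    trace (g2 H a c * h⁻¹ * g2 H d b * h⁻¹) := by
  rw [← trace_transpose (_ * h⁻¹)]
  simp only [ou_eq, transpose_mul, ← g2_eq hs, Matrix.mul_assoc]
  rw [trace_mul_comm]
  simp only [Matrix.mul_assoc]

theorem ip_ou (hh : h.PosDef) (hH : H.PosDef) (hs : Hᵀ = H) (a b c d : ι → V r) :
    ipE H (ou h H a b) (ou h H c d) = trace (g2 H a c * h⁻¹ * g2 H d b * h⁻¹) := by
  rw [ipE, Matrix.mul_assoc, ou_adj hh hH, Matrix.mul_assoc,
    nonsing_inv_mul_cancel_left _ _ hH.det_pos.ne'.isUnit, tr_ou2 hs]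

/-- the inequality behind the three bounds. -/
theorem core (hN : AlgN) {g : Mat κ} (hg : g.PosDef) (hh : h.PosDef) (hH : H.PosDef)
    (T : κ → ι → V r) (a : ι → V r) :
    (tg g fun k l => trace (g2 H (T k) (T l) * h⁻¹ * g2 H a a * h⁻¹)).re ≤
      (tg g fun k l => tg h fun i j => ipV H (T k i) (T l j)).re * trm h (gr H a) := by
  have e : (tg g fun k l => g2 H (T k) (T l)) =
      gr ((g⁻¹)ᵀ ⊗ₖ H) fun i (x : κ × r) => T x.1 i x.2 := by
    ext i j
    simp only [tg, g2, gr, ipV, Matrix.sum_apply, Matrix.smul_apply, of_apply, smul_eq_mul,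
      Fintype.sum_prod_type, kroneckerMap_apply, transpose_apply, Finset.mul_sum, mul_assoc]
    exact Finset.sum_congr rfl fun k _ => Finset.sum_comm
  have k := ((hN ι r h H hh hH).2.2.2.2.2 _ _
    (e ▸ (hN ι (κ × r) h _ hh (hg.inv.transpose.kronecker hH)).2.2.1 _)
    ((hN ι r h H hh hH).2.2.1 a)).2.2.1
  convert k using 2
  · simp only [t2, trm, tg, Finset.sum_mul, trace_sum, smul_mul_assoc, trace_smul]
    rfl
  · rw [trm]
    congr 1
    simp only [← show ∀ k l, trace (g2 H (T k) (T l) * h⁻¹) = tg h fun i j => ipV H (T k i) (T l j)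
      from fun k l => tg_tr _]
    simp only [tg, Finset.sum_mul, trace_sum, smul_mul_assoc, trace_smul]

end RAlgO

open RAlgO in
theorem algO (hN : AlgN) : AlgO := by
  intro ι r _ _ _ _ h H a hh hH hr
  have hs : Hᵀ = H := (congrArg transpose hr.symm).trans hH.1
  have G : (gr H a).IsHermitian := ((hN ι r h H hh hH).2.2.1 a).1
  have c1 : ∀ P : Mat r, (P.map star)ᴴ = Pᵀ := fun P => by ext; simp
  have c2 : ∀ P : Mat r, (P.map star)ᵀ = Pᴴ := fun P => rfl
  have tE : ∀ X : ι → Mat r, trm h (grE H X) = (tg h fun k l => ipE H (X k) (X l)).re :=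
    fun X => congrArg re (tg_tr _)
  refine ⟨(ou_adj hh hH a a).symm, (tr_ou hs a a).trans (mat.real ι h _ hh.1 G).1,
    (tr_ou2 hs a a a a).trans (mat.real ι h _ hh.1 ?_).1, congrArg re (ip_ou hh hH hs a a a a),
    fun t => ?_, fun P => ⟨?_, mul_ou P a, ?_, fun v => ?_, fun e => ?_⟩, fun T => ?_, fun T => ?_,
    fun B => ?_⟩
  · have := isHermitian_mul_mul_conjTranspose (gr H a) hh.1.inv
    rwa [G.eq] at this
  · rw [ou_eq, Matrix.mul_assoc, Matrix.mul_assoc, ← Matrix.mul_smul, det_one_add_mul_comm,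
      Matrix.smul_mul, Matrix.mul_assoc, g2_eq hs, ← transpose_mul, ← det_transpose, transpose_add,
      transpose_one, transpose_smul, transpose_transpose]
    rfl
  · rw [mul_ou, tr_ou hs, tg_tr]
    rfl
  · rw [nE, nE, ipE, ipE, ← trace_transpose, c1]
    simp only [transpose_mul, transpose_transpose, c2, transpose_nonsing_inv, hs]
    rw [trace_mul_comm]
    simp only [Matrix.mul_assoc]
  · have p := hH.posSemidef.conjTranspose_mul_mul_same (P.map star)
    have k := mat.nv_mono r _ v (mat.le_trm r H _ hH p)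
    have e1 : trm H ((P.map star)ᴴ * H * P.map star) = nE H P := by
      rw [trm, nE, ipE, ← trace_transpose, c1]
      simp only [transpose_mul, transpose_transpose, c2, transpose_nonsing_inv, hs]
      rw [← Matrix.mul_assoc, ← Matrix.mul_assoc, trace_mul_comm]
      simp only [Matrix.mul_assoc]
    rw [e1, nV, ipV_eq, sub_mulVec, dotProduct_sub, smul_mulVec, dotProduct_smul, smul_eq_mul,
      sub_re, re_ofReal_mul, c1, ← mulVec_mulVec, ← mulVec_mulVec, dotProduct_mulVec v Pᵀ,
      vecMul_transpose, ← Dt.star_mulVec', ← ipV_eq, ← ipV_eq] at k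
    exact sub_nonneg.1 k
  · simp only [ou_eq, cm_mul, conjTranspose_mul, c1, Matrix.mul_assoc, e]
  · simp only [tE, ip_ou hh hH hs]
    exact core hN hh hh hH T a
  · have k := core hN hh.transpose hh hH T a
    rw [tg_T, tg_T] at k
    simp only [tE, ip_ou hh hH hs]
    refine le_of_eq_of_le (congrArg re (congrArg (tg h) ?_)) k
    funext k l
    rw [Matrix.mul_assoc (_ * _), trace_mul_comm, ← Matrix.mul_assoc]
  · have e : (ou h H a a).map star = ou hᵀ H (fun k => star (a k)) fun k => star (a k) := by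
      have m : ∀ {x y z : Type} [Fintype y] (A : Matrix x y ℂ) (C : Matrix y z ℂ),
          (A * C).map star = A.map star * C.map star := fun A C => Matrix.map_mul (f := starRingEnd ℂ)
      rw [ou_eq, ou_eq, m, m, m, hr, ← transpose_nonsing_inv, transpose_transpose]
      congr 3
      exact hh.1.inv
    have e2 : gr H (fun k => star (a k)) = (gr H a)ᵀ := by
      rw [← show (cm a)ᴴ * H * cm a = (gr H a)ᵀ from g2_eq hs a a]
      ext i j
      simp only [gr, ipV, cm, mul_apply, Finset.sum_mul, of_apply, conjTranspose_apply,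
        Pi.star_apply, star_star]
      rw [Finset.sum_comm]
      exact Finset.sum_congr rfl fun _ _ => Finset.sum_congr rfl fun _ _ => by ring
    have k := core hN hh hh.transpose hH (fun i k => B i *ᵥ star (a k)) fun k => star (a k)
    rw [e2, trm_T, tg_comm, tg_T] at k
    simp only [tE, e, mul_ou, ip_ou hh.transpose hH hs]
    exact k

end

end Pool.Agent.Lib.MP_813db1_ag.VH
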