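import Pool.Agent.Lib.MP_813db1_ag.VH.St7

/-! Pointwise inequalities for the Higgs field and a form. -/

namespace Pool.Agent.Lib.MP_813db1_ag.VH

open Pool.Agent.Lib.MP_813db1_ag.HS Pool.Agent.Lib.MP_813db1_ag.AS
open Complex Matrix
open scoped ComplexOrder InnerProductSpace

namespace AlT

variable {ι r : Type} [Fintype ι] [DecidableEq ι] [Fintype r] [DecidableEq r]

section Frame

variable {E F E' F' Z : Type} [AddCommGroup E] [Module ℂ E] [AddCommGroup F] [Module ℂ F]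
  [AddCommGroup E'] [Module ℂ E'] [AddCommGroup F'] [Module ℂ F'] [AddCommGroup Z] [Module ℂ Z]

/-- sesquilinear maps. -/
structure Sq (β : E → F → Z) : Prop where
  a1 : ∀ x x' y, β (x + x') y = β x y + β x' y
  s1 : ∀ (c : ℂ) x y, β (c • x) y = c • β x y
  a2 : ∀ x y y', β x (y + y') = β x y + β x y'
  s2 : ∀ (c : ℂ) x y, β x (c • y) = star c • β x y

/-- the change of frame. -/
noncomputable def fr (J : Mat ι) (x : ι → E) (p : ι) : E := ∑ l, J l p • x l

variable {J h : Mat ι} {β : E → F → Z}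

omit [DecidableEq ι] in
theorem Sq.exp (hβ : Sq β) (x : ι → E) (y : ι → F) (p q : ι) :
    β (fr J x p) (fr J y q) = ∑ l, ∑ m, (J l p * star (J m q)) • β (x l) (y m) := by
  let B := LinearMap.mk₂'ₛₗ (RingHom.id ℂ) (starRingEnd ℂ) β hβ.a1 hβ.s1 hβ.a2 hβ.s2
  change B _ _ = _
  simp only [fr, map_sum, LinearMap.sum_apply, map_smulₛₗ, LinearMap.smul_apply, RingHom.id_apply,
    Finset.smul_sum, smul_smul]
  rw [Finset.sum_comm]
  exact Finset.sum_congr rfl fun l _ => Finset.sum_congr rfl fun m _ => by rw [mul_comm]; rfl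

theorem tg1 (h1 : J.det ≠ 0 ∧ pull J h = 1) (hβ : Sq β) (x : ι → E) (y : ι → F) :
    tg h (fun i j => β (x i) (y j)) = ∑ p, β (fr J x p) (fr J y p) := by
  rw [← tg_pull h1.1, h1.2]
  simp only [← hβ.exp, tg, inv_one, one_apply, ite_smul, one_smul, zero_smul, Finset.sum_ite_eq',
    Finset.mem_univ, if_true]

theorem tg2 (h1 : J.det ≠ 0 ∧ pull J h = 1) (Q : E → F → E' → F' → Z)
    (h12 : ∀ z w, Sq fun x y => Q x y z w) (h34 : ∀ x y, Sq (Q x y)) (x : ι → E) (y : ι → F)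
    (z : ι → E') (w : ι → F') : tg h (fun k l => tg h fun i j => Q (x k) (y l) (z i) (w j)) =
      ∑ p, ∑ q, Q (fr J x p) (fr J y p) (fr J z q) (fr J w q) := by
  simp only [tg1 h1 (h34 _ _)]
  exact tg1 h1 (β := fun x y => ∑ q, Q x y (fr J z q) (fr J w q))
    ⟨fun _ _ _ => by simp only [(h12 _ _).a1, Finset.sum_add_distrib],
      fun _ _ _ => by simp only [(h12 _ _).s1, Finset.smul_sum],
      fun _ _ _ => by simp only [(h12 _ _).a2, Finset.sum_add_distrib],
      fun _ _ _ => by simp only [(h12 _ _).s2, Finset.smul_sum]⟩ x y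

omit [DecidableEq ι] in
theorem fr_pair (x : ι → E) (y : ι → F) (p : ι) :
    fr J (fun i => (x i, y i)) p = (fr J x p, fr J y p) := by
  simp only [fr, Prod.ext_iff, Prod.fst_sum, Prod.snd_sum, Prod.smul_mk, and_self]

end Frame

theorem ex_frame {h B : Mat ι} (hh : h.PosDef) (hB : B.PosSemidef) : ∃ J : Mat ι,
    (J.det ≠ 0 ∧ pull J h = 1) ∧ ∀ p q, p ≠ q → pull J B p q = 0 := by
  obtain ⟨T, d, hT, -, rfl, rfl⟩ := Mat.sim hh hB
  have hT' : IsUnit Tᴴ.det := by rw [det_conjTranspose]; exact hT.star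
  have e : ∀ D : Mat ι, pull (T⁻¹.map star) (Tᴴ * D * T) = D := fun D => by
    have e1 : (T⁻¹.map star)ᵀ = Tᴴ⁻¹ := by rw [← conjTranspose_nonsing_inv]; rfl
    have e2 : (T⁻¹.map star).map star = T⁻¹ := by ext; simp
    rw [pull, e1, e2, Matrix.mul_assoc, mul_nonsing_inv_cancel_right _ _ hT,
      nonsing_inv_mul_cancel_left _ _ hT']
  refine ⟨T⁻¹.map star, ⟨?_, by simpa using e 1⟩, fun p q hpq => by rw [e, diagonal_apply_ne _ hpq]⟩
  rw [Mat.det_star]
  exact (isUnit_nonsing_inv_det _ hT).star.ne_zero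

theorem lin (H : Mat r) : (∀ u u' v, ipV H (u + u') v = ipV H u v + ipV H u' v) ∧
    (∀ u u' v, ipV H (u - u') v = ipV H u v - ipV H u' v) ∧
    (∀ u v v', ipV H u (v + v') = ipV H u v + ipV H u v') ∧
    (∀ (c : ℂ) u v, ipV H (c • u) v = c * ipV H u v) ∧
    (∀ (c : ℂ) u v, ipV H u (c • v) = star c * ipV H u v) ∧
    (∀ A A' B, ipE H (A + A') B = ipE H A B + ipE H A' B) ∧
    (∀ A B B', ipE H A (B + B') = ipE H A B + ipE H A B') ∧
    (∀ (c : ℂ) A B, ipE H (c • A) B = c * ipE H A B) ∧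
    (∀ (c : ℂ) A B, ipE H A (c • B) = star c * ipE H A B) := by
  simp [ipV_eq, ipE, mulVec_add, mulVec_smul, add_mul, mul_add]

omit [Fintype r] [DecidableEq r] in
theorem cs : (∀ A B : Mat r, (A + B).map star = A.map star + B.map star) ∧
    (∀ (c : ℂ) (A : Mat r), (c • A).map star = star c • A.map star) ∧
    ∀ A : Mat r, (A.map star).map star = A := by
  refine ⟨fun _ _ => ?_, fun _ _ => ?_, fun _ => ?_⟩ <;> ext <;> simp

variable {H : Mat r}

omit [Fintype r] [DecidableEq r] in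
theorem sym (pH : H.PosDef) (re : H.map star = H) : Hᵀ = H := by
  rw [← Mat.map_ct, re]
  exact pH.isHermitian

theorem iv (pH : H.PosDef) (re : H.map star = H) (u v : V r) :
    ipV H u v = star v ⬝ᵥ H *ᵥ u := by
  rw [ipV_eq, dotProduct_comm, ← vecMul_transpose, sym pH re, dotProduct_mulVec]

theorem iv_star (pH : H.PosDef) (re : H.map star = H) (u v : V r) :
    ipV H (star u) (star v) = ipV H v u := by
  rw [iv pH re, ipV_eq, star_star]

theorem adj {A : Mat r} (hA : Aᵀ * H = H * A) (u v : V r) :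
    ipV H (A *ᵥ u) v = ipV H u (A.map star *ᵥ v) := by
  rw [ipV_eq, ipV_eq, Dt.star_mulVec', cs.2.2, mulVec_mulVec, ← hA, ← mulVec_mulVec,
    dotProduct_mulVec u, vecMul_transpose]

omit [DecidableEq r] in
theorem sym_star (re : H.map star = H) {A : Mat r} (hA : Aᵀ * H = H * A) :
    (A.map star)ᵀ * H = H * A.map star := by
  have := congrArg (fun B : Mat r => B.map (starRingEnd ℂ)) hA
  simp only [Matrix.map_mul] at this
  change (A.map star)ᵀ * H.map star = H.map star * A.map star at this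
  rwa [re] at this

theorem rk (pH : H.PosDef) (re : H.map star = H) (A : Mat r) (u w : V r) :
    ipE H A (vecMulVec u (star w) * H) = ipV H (A *ᵥ w) u := by
  have hd : IsUnit H.det := (isUnit_iff_isUnit_det _).1 pH.isUnit
  rw [ipE, conjTranspose_mul, pH.isHermitian.eq, conjTranspose_vecMulVec, star_star,
    Matrix.mul_assoc A, nonsing_inv_mul_cancel_left _ _ hd, trace_mul_comm, mul_vecMulVec,
    mul_vecMulVec, trace_vecMulVec, dotProduct_comm, iv pH re]

theorem ex_norm (pH : H.PosDef) (re : H.map star = H) :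
    ∃ (φ : V r →ₗ[ℂ] EuclideanSpace ℂ r) (Φ : Mat r →ₗ[ℂ] EuclideanSpace ℂ (r × r)),
      (∀ u v, ipV H u v = ⟪φ v, φ u⟫_ℂ) ∧ ∀ A B, ipE H A B = ⟪Φ B, Φ A⟫_ℂ := by
  obtain ⟨S, -, hS, -, e, -⟩ := Mat.sim pH PosSemidef.zero
  refine ⟨⟨⟨fun v => WithLp.toLp 2 (S *ᵥ v), fun _ _ => by rw [mulVec_add]; rfl⟩,
    fun _ _ => by simp only [mulVec_smul]; rfl⟩, ⟨⟨fun A => WithLp.toLp 2 (vec (S * A * S⁻¹)),
      fun _ _ => by rw [Matrix.mul_add, Matrix.add_mul]; rfl⟩,
      fun _ _ => by simp only [Matrix.mul_smul, Matrix.smul_mul]; rfl⟩, fun u v => ?_, fun A B => ?_⟩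
  · change _ = S *ᵥ u ⬝ᵥ star (S *ᵥ v)
    rw [iv pH re, e, ← mulVec_mulVec, dotProduct_mulVec, ← star_mulVec, dotProduct_comm]
  · change _ = vec _ ⬝ᵥ star (vec _)
    have e1 : ipE H A B = trace (S * A * S⁻¹ * (S * B * S⁻¹)ᴴ) := by
      rw [ipE, e, Matrix.mul_inv_rev, ← Matrix.mul_assoc, trace_mul_comm, conjTranspose_mul,
        conjTranspose_mul, conjTranspose_nonsing_inv]
      simp only [Matrix.mul_assoc]
    rw [e1]
    simp only [trace, diag, dotProduct, Fintype.sum_prod_type, vec, Matrix.mul_apply (M := S * A * S⁻¹),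
      conjTranspose_apply, Pi.star_apply]

/-- norms of vectors and endomorphisms. -/
structure Nm (H : Mat r) (N : V r → ℝ) (M : Mat r → ℝ) : Prop where
  n0 : ∀ u, 0 ≤ N u
  m0 : ∀ A, 0 ≤ M A
  nn : ∀ u, ipV H u u = (N u ^ 2 : ℝ)
  mm : ∀ A, ipE H A A = (M A ^ 2 : ℝ)
  cs : ∀ u v, ‖ipV H u v‖ ≤ N u * N v
  ns : ∀ (ι : Type) [Fintype ι] (u : ι → V r), N (∑ p, u p) ≤ ∑ p, N (u p)
  ms : ∀ (ι : Type) [Fintype ι] (A : ι → Mat r), M (∑ p, A p) ≤ ∑ p, M (A p)
  st : ∀ u, N (star u) = N u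
  mul : ∀ A u, N (A *ᵥ u) ≤ M A * N u
  mul' : ∀ A u, N (A *ᵥ star u) ≤ M A * N u
  cmul : ∀ A u, N (A.map star *ᵥ u) ≤ M A * N u
  rk : ∀ u w, M (vecMulVec u (star w) * H) = N u * N w

theorem ex_nm (pH : H.PosDef) (re : H.map star = H) : ∃ N M, Nm H N M := by
  obtain ⟨φ, Φ, h1, h2⟩ := ex_norm pH re
  have nn : ∀ u, ipV H u u = (‖φ u‖ ^ 2 : ℝ) := fun u => by
    rw [h1, inner_self_eq_norm_sq_to_K]; norm_cast
  have mm : ∀ A, ipE H A A = (‖Φ A‖ ^ 2 : ℝ) := fun A => by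
    rw [h2, inner_self_eq_norm_sq_to_K]; norm_cast
  have st : ∀ u, ‖φ (star u)‖ = ‖φ u‖ := fun u => (sq_eq_sq₀ (norm_nonneg _) (norm_nonneg _)).1
    (ofReal_injective (by rw [← nn, ← nn, iv_star pH re]))
  have rk' : ∀ u w, ‖Φ (vecMulVec u (star w) * H)‖ = ‖φ u‖ * ‖φ w‖ := fun u w =>
    (sq_eq_sq₀ (norm_nonneg _) (by positivity)).1 (ofReal_injective (by
      rw [← mm, rk pH re, ← mulVec_mulVec, vecMulVec_mulVec, op_smul_eq_smul, ← iv pH re,
        (lin H).2.2.2.1, nn, nn]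
      push_cast
      ring))
  have mul : ∀ A u, ‖φ (A *ᵥ u)‖ ≤ ‖Φ A‖ * ‖φ u‖ := fun A u => by
    have h3 := norm_inner_le_norm (𝕜 := ℂ) (Φ (vecMulVec (A *ᵥ u) (star u) * H)) (Φ A)
    rw [← h2, rk pH re, rk', nn, norm_real, Real.norm_of_nonneg (sq_nonneg _)] at h3
    rcases (norm_nonneg (φ (A *ᵥ u))).eq_or_lt with h | h
    · rw [← h]; positivity
    · exact le_of_mul_le_mul_left (by nlinarith) h
  refine ⟨fun u => ‖φ u‖, fun A => ‖Φ A‖, fun _ => norm_nonneg _, fun _ => norm_nonneg _, nn, mm,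
    fun u v => ?_, fun _ _ u => ?_, fun _ _ u => ?_, st, mul, fun A u => st u ▸ mul A (star u),
    fun A u => ?_, rk'⟩
  · rw [h1, mul_comm]
    exact norm_inner_le_norm _ _
  · simpa only [map_sum] using norm_sum_le _ fun p => φ (u p)
  · simpa only [map_sum] using norm_sum_le _ fun p => Φ (u p)
  · rw [← st, Dt.star_mulVec', cs.2.2, ← st u]
    exact mul _ _

theorem trm_tg (h B : Mat ι) : trm h B = (tg h fun i j => B i j).re := by
  simp only [trm, tg, trace, diag, mul_apply, smul_eq_mul, mul_comm]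

theorem t2_tg (h B C : Mat ι) :
    t2 h B C = (tg h fun i l => tg h fun k j => B i j * C k l).re := by
  rw [t2, trm_tg]
  refine congrArg (fun f : ι → ι → ℂ => (tg h f).re) (funext₂ fun i l => ?_)
  simp only [tg, mul_apply, Finset.sum_mul, smul_eq_mul]
  exact Finset.sum_congr rfl fun _ _ => Finset.sum_congr rfl fun _ _ => by ring

omit [DecidableEq ι] in
theorem avg {f : ι → ι → ℝ} {g : ι → ℝ} (h : ∀ p q, 2 * f p q ≤ g p + g q) :
    ∑ p, ∑ q, f p q ≤ Fintype.card ι * ∑ p, g p := by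
  have := Finset.sum_le_sum fun p (_ : p ∈ Finset.univ) =>
    Finset.sum_le_sum fun q (_ : q ∈ Finset.univ) => h p q
  simp only [← Finset.mul_sum, Finset.sum_add_distrib, Finset.sum_const, Finset.card_univ,
    nsmul_eq_mul] at this
  linarith

omit [DecidableEq ι] in
theorem sq_le {x : ℝ} {f : ι → ℝ} (h0 : 0 ≤ x) (h : x ≤ ∑ p, f p) :
    x ^ 2 ≤ Fintype.card ι * ∑ p, f p ^ 2 :=
  (pow_le_pow_left₀ h0 h 2).trans sq_sum_le_card_mul_sum_sq

theorem sqV : Sq (ipV H) := ⟨(lin H).1, (lin H).2.2.2.1, (lin H).2.2.1, (lin H).2.2.2.2.1⟩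

theorem sqE : Sq (ipE H) :=
  ⟨(lin H).2.2.2.2.2.1, (lin H).2.2.2.2.2.2.2.1, (lin H).2.2.2.2.2.2.1, (lin H).2.2.2.2.2.2.2.2⟩

section Items

variable {h J : Mat ι} {N : V r → ℝ} {M : Mat r → ℝ} {θ : ι → Mat r} {a : ι → V r}
  (hJ : J.det ≠ 0 ∧ pull J h = 1) (n : Nm H N M)

include hJ n

theorem eA (a : ι → V r) : trm h (gr H a) = ∑ p, N (fr J a p) ^ 2 := by
  rw [trm_tg]
  exact (congrArg re (tg1 hJ sqV a a)).trans (by simp only [n.nn, re_sum, ofReal_re])

theorem eT (θ : ι → Mat r) : trm h (grE H θ) = ∑ p, M (fr J θ p) ^ 2 := by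
  rw [trm_tg]
  exact (congrArg re (tg1 hJ sqE θ θ)).trans (by simp only [n.mm, re_sum, ofReal_re])

theorem e2 (hd : ∀ p q, p ≠ q → pull J (grE H θ) p q = 0) (a : ι → V r) :
    t2 h (gr H a) (grE H θ) = ∑ p, (M (fr J θ p) * N (fr J a p)) ^ 2 := by
  rw [t2_tg]
  refine (congrArg re (tg2 hJ (fun u B A v => ipV H u v * ipE H A B) (fun _ _ => ?_)
    (fun _ _ => ?_) a θ θ a)).trans ?_
  · constructor <;> intros <;> simp only [lin, smul_eq_mul] <;> ring
  · constructor <;> intros <;> simp only [lin, smul_eq_mul] <;> ring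
  rw [re_sum]
  refine Finset.sum_congr rfl fun p _ => ?_
  rw [Finset.sum_eq_single p (fun q _ hq => ?_) (by simp), n.nn, n.mm, ← ofReal_mul, ofReal_re]
  · ring
  · rw [sqE.exp, mul_eq_zero]
    exact Or.inr ((pull_apply J (grE H θ) q p).symm.trans (hd q p hq))

theorem i2 (hsy : ∀ k i, θ k *ᵥ a i = θ i *ᵥ a k) : q1 h H (fun k i => θ k *ᵥ a i) ≤
    Fintype.card ι * ∑ p, (M (fr J θ p) * N (fr J a p)) ^ 2 := by
  have e : ∀ p q, fr J θ p *ᵥ fr J a q = fr J θ q *ᵥ fr J a p := fun p q => by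
    simp only [fr, sum_mulVec, mulVec_sum, smul_mulVec, mulVec_smul, Finset.smul_sum]
    rw [Finset.sum_comm]
    exact Finset.sum_congr rfl fun k _ => Finset.sum_congr rfl fun i _ => by
      rw [hsy, smul_comm]
  refine (congrArg re (tg2 hJ (fun A B u v => ipV H (A *ᵥ u) (B *ᵥ v)) (fun _ _ => ?_)
    (fun _ _ => ?_) θ θ a a)).trans_le ?_
  · constructor <;> intros <;> simp only [lin, smul_eq_mul, add_mulVec, smul_mulVec]
  · constructor <;> intros <;> simp only [lin, smul_eq_mul, mulVec_add, mulVec_smul]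
  simp only [n.nn, re_sum, ofReal_re]
  refine avg fun p q => ?_
  have h1 := n.mul (fr J θ p) (fr J a q)
  have h2 := n.mul (fr J θ q) (fr J a p)
  rw [← e] at h2
  have h3 := mul_le_mul h1 h2 (n.n0 _) ((n.n0 _).trans h1)
  nlinarith [sq_nonneg (M (fr J θ p) * N (fr J a p) - M (fr J θ q) * N (fr J a q))]

theorem i3 : nV H (tg h fun i k => θ i *ᵥ star (a k)) ≤
    Fintype.card ι * ∑ p, (M (fr J θ p) * N (fr J a p)) ^ 2 := by
  rw [tg1 hJ (β := fun A u => A *ᵥ star u) ?_, nV, n.nn, ofReal_re]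
  · exact sq_le (n.n0 _) ((n.ns _ _).trans (Finset.sum_le_sum fun p _ => n.mul' _ _))
  · constructor <;> intros <;> simp only [add_mulVec, smul_mulVec, mulVec_add, mulVec_smul,
      star_add, star_smul]

theorem i4 : trm h (grE H fun k => ou h H a fun j => θ j *ᵥ star (a k)) ≤
    Fintype.card ι * (∑ p, N (fr J a p) ^ 2) * ∑ p, (M (fr J θ p) * N (fr J a p)) ^ 2 := by
  have e : ∀ u, (ou h H a fun j => θ j *ᵥ star u) =
      ∑ q, vecMulVec (fr J a q) (star (fr J θ q *ᵥ star u)) * H := fun u => by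
    refine tg1 hJ (β := fun v A => vecMulVec v (star (A *ᵥ star u)) * H) ?_ a θ
    constructor <;> intros <;> simp only [add_mulVec, smul_mulVec, star_add, star_smul,
      add_vecMulVec, vecMulVec_add, smul_vecMulVec, vecMulVec_smul, Matrix.add_mul,
      Matrix.smul_mul]
  rw [trm_tg, mul_right_comm, Finset.mul_sum]
  refine (congrArg re (tg1 hJ (β := fun u v => ipE H (ou h H a fun j => θ j *ᵥ star u)
    (ou h H a fun j => θ j *ᵥ star v)) ?_ a a)).trans_le ?_
  · simp only [e]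
    constructor <;> intros <;> simp only [mulVec_add, mulVec_smul, star_add, star_smul,
      vecMulVec_add, vecMulVec_smul, Matrix.add_mul, Matrix.smul_mul, star_star, lin,
      Finset.sum_add_distrib, ← Finset.smul_sum, smul_eq_mul]
  simp only [n.mm, re_sum, ofReal_re, e]
  refine Finset.sum_le_sum fun p _ => (sq_le (n.m0 _) ((n.ms _ _).trans
    (Finset.sum_le_sum (g := fun q => M (fr J θ q) * N (fr J a q) * N (fr J a p))
      fun q _ => ?_))).trans_eq ?_
  · rw [n.rk]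
    nlinarith [mul_le_mul_of_nonneg_left (n.mul' (fr J θ q) (fr J a p)) (n.n0 (fr J a q))]
  · simp only [mul_pow _ (N (fr J a p)), ← Finset.sum_mul]
    rw [mul_assoc]

theorem i5 : q2 h H (fun k i => θ i *ᵥ star (a k)) =
    q2 h H (fun k i => (θ k).map star *ᵥ a i) := by
  have e1 := tg2 hJ (fun v u A B => ipV H (A *ᵥ star u) (B *ᵥ star v)) (fun _ _ => by
    constructor <;> intros <;> simp only [lin, smul_eq_mul, mulVec_add, mulVec_smul, star_add,
      star_smul, star_star]) (fun _ _ => by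
    constructor <;> intros <;> simp only [lin, smul_eq_mul, add_mulVec, smul_mulVec]) a a θ θ
  have e2 := tg2 hJ (fun (B A : Mat r) u v => ipV H (A.map star *ᵥ u) (B.map star *ᵥ v))
    (fun _ _ => by
      constructor <;> intros <;> simp only [lin, cs, smul_eq_mul, add_mulVec, smul_mulVec,
        star_star]) (fun _ _ => by
      constructor <;> intros <;> simp only [lin, smul_eq_mul, mulVec_add, mulVec_smul]) θ θ a a
  rw [q2, q2, e1, e2, Finset.sum_comm]
  refine congrArg re (Finset.sum_congr rfl fun p _ => Finset.sum_congr rfl fun q _ => ?_)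
  rw [n.nn, n.nn, ← n.st, Dt.star_mulVec', star_star]

theorem i6 (hs : ∀ p, (fr J θ p)ᵀ * H = H * fr J θ p) :
    0 ≤ (tg h fun k l => tg h fun i j => ipV H (θ i *ᵥ ((θ l).map star *ᵥ a k)) (a j)).re := by
  have e1 := tg2 hJ (fun u (B A : Mat r) v => ipV H (A *ᵥ (B.map star *ᵥ u)) v) (fun _ _ => by
    constructor <;> intros <;> simp only [lin, cs, smul_eq_mul, add_mulVec, smul_mulVec,
      mulVec_add, mulVec_smul]) (fun _ _ => by
    constructor <;> intros <;> simp only [lin, smul_eq_mul, add_mulVec, smul_mulVec]) a θ θ a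
  have e2 := (sqV (H := H)).exp (J := of fun _ _ => 1) (fun p => (fr J θ p).map star *ᵥ fr J a p)
    (fun p => (fr J θ p).map star *ᵥ fr J a p)
  simp only [of_apply, star_one, mul_one, one_smul] at e2
  rw [e1]
  simp only [adj (hs _)]
  rcases isEmpty_or_nonempty ι with _ | ⟨⟨p⟩⟩
  · simp
  · rw [← e2 p p, n.nn, ofReal_re]
    exact sq_nonneg _

omit hJ in
theorem i7a (re : H.map star = H) {A B : Mat r} (hA : Aᵀ * H = H * A) (hB : Bᵀ * H = H * B)
    (u v : V r) : ‖ipV H ((A * A.map star - A.map star * A) *ᵥ v -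
      (B * A.map star - A.map star * B) *ᵥ u) v‖ ≤
      3 * (M A ^ 2 * N v ^ 2) + M B ^ 2 * N u ^ 2 := by
  have b : ∀ {u v : V r} {s t : ℝ}, N u ≤ s → N v ≤ t → ‖ipV H u v‖ ≤ s * t := fun h1 h2 =>
    (n.cs _ _).trans (mul_le_mul h1 h2 (n.n0 _) ((n.n0 _).trans h1))
  have h1 := b (n.cmul A v) (n.cmul A v)
  have h2 := b (n.mul A v) (n.mul A v)
  have h3 := b (n.cmul A u) (n.cmul B v)
  have h4 := b (n.mul B u) (n.mul A v)
  simp only [sub_mulVec, lin, ← mulVec_mulVec]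
  rw [adj hA, adj hB, adj (sym_star re hA) (A *ᵥ v), adj (sym_star re hA) (B *ᵥ u), cs.2.2]
  refine ((norm_sub_le _ _).trans (add_le_add ((norm_sub_le _ _).trans (add_le_add h1 h2))
    ((norm_sub_le _ _).trans (add_le_add h3 h4)))).trans ?_
  nlinarith [sq_nonneg (M A * N v - M B * N u)]

omit n in
theorem i7b : fT h H θ a = ∑ p, ∑ q, ipV H
    ((fr J θ p * (fr J θ p).map star - (fr J θ p).map star * fr J θ p) *ᵥ fr J a q -
      (fr J θ q * (fr J θ p).map star - (fr J θ p).map star * fr J θ q) *ᵥ fr J a p) (fr J a q) := by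
  have e1 := tg2 hJ (fun (x : Mat r × V r) (B : Mat r) (y : Mat r × V r) v => ipV H
    ((x.1 * B.map star - B.map star * x.1) *ᵥ y.2 - (y.1 * B.map star - B.map star * y.1) *ᵥ x.2) v)
    (fun _ _ => by
      constructor <;> intros <;> simp only [lin, cs, smul_eq_mul, add_mulVec, smul_mulVec,
        sub_mulVec, mulVec_add, mulVec_smul, Prod.fst_add, Prod.snd_add, Prod.smul_fst,
        Prod.smul_snd, add_mul, mul_add, smul_mul_assoc, mul_smul_comm] <;> ring)
    (fun _ _ => by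
      constructor <;> intros <;> simp only [lin, smul_eq_mul, add_mulVec, smul_mulVec,
        sub_mulVec, mulVec_add, mulVec_smul, Prod.fst_add, Prod.snd_add, Prod.smul_fst,
        Prod.smul_snd, add_mul, mul_add, smul_mul_assoc, mul_smul_comm] <;> ring)
    (fun i => (θ i, a i)) θ (fun i => (θ i, a i)) a
  simpa only [fr_pair, fT] using e1

theorem i7 (re : H.map star = H) (hs : ∀ p, (fr J θ p)ᵀ * H = H * fr J θ p) : ‖fT h H θ a‖ ≤
    4 * Fintype.card ι * (∑ p, M (fr J θ p) ^ 2) * ∑ p, N (fr J a p) ^ 2 := by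
  rw [i7b hJ]
  refine ((norm_sum_le _ _).trans (Finset.sum_le_sum fun p _ => (norm_sum_le _ _).trans
    (Finset.sum_le_sum fun q _ => i7a n re (hs p) (hs q) _ _))).trans ?_
  simp only [Finset.sum_add_distrib, ← Finset.mul_sum, ← Finset.sum_mul]
  rcases isEmpty_or_nonempty ι with _ | _
  · simp
  · have h1 : (1 : ℝ) ≤ Fintype.card ι := Nat.one_le_cast.2 Fintype.card_pos
    have h2 : 0 ≤ (∑ p, M (fr J θ p) ^ 2) * ∑ p, N (fr J a p) ^ 2 := by positivity
    nlinarith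

theorem i8 (S : ι → ι → Mat r) :
    ‖tg h fun k l => tg h fun i j => ipV H (S k i *ᵥ star (a l)) (a j)‖ ^ 2 ≤
      (tg h fun k l => tg h fun i j => ipE H (S k i) (S l j)).re * (∑ p, N (fr J a p) ^ 2) ^ 2 := by
  have f1 : ∀ (s s' : ι → Mat r) q, fr J (s + s') q = fr J s q + fr J s' q := fun _ _ _ => by
    simp only [fr, Pi.add_apply, smul_add, Finset.sum_add_distrib]
  have f2 : ∀ (c : ℂ) (s : ι → Mat r) q, fr J (c • s) q = c • fr J s q := fun c _ _ => by
    simp only [fr, Pi.smul_apply, Finset.smul_sum, smul_comm c]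
  have e1 : ∀ (A : ι → Mat r) u, (tg h fun i j => ipV H (A i *ᵥ star u) (a j)) =
      ∑ q, ipV H (fr J A q *ᵥ star u) (fr J a q) := fun A u =>
    tg1 hJ (β := fun B v => ipV H (B *ᵥ star u) v) (by
      constructor <;> intros <;> simp only [lin, smul_eq_mul, add_mulVec, smul_mulVec]) A a
  simp only [e1, tg1 hJ sqE]
  rw [tg1 hJ (β := fun (A : ι → Mat r) u => ∑ q, ipV H (fr J A q *ᵥ star u) (fr J a q)) (by
      constructor <;> intros <;> simp only [lin, smul_eq_mul, add_mulVec, smul_mulVec, f1, f2,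
        star_add, star_smul, mulVec_add, mulVec_smul, Finset.sum_add_distrib, Finset.mul_sum]) S a,
    tg1 hJ (β := fun A B : ι → Mat r => ∑ q, ipE H (fr J A q) (fr J B q)) (by
      constructor <;> intros <;> simp only [lin, smul_eq_mul, f1, f2, Finset.sum_add_distrib,
        Finset.mul_sum]) S S]
  simp only [n.mm, re_sum, ofReal_re]
  rw [sq (∑ _, _), Finset.sum_mul_sum, ← Fintype.sum_prod_type', ← Fintype.sum_prod_type',
    ← Fintype.sum_prod_type']
  simp only [← mul_pow]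
  refine (pow_le_pow_left₀ (norm_nonneg _) ((norm_sum_le _ _).trans
    (Finset.sum_le_sum fun x _ => ?_)) 2).trans (Finset.sum_mul_sq_le_sq_mul_sq _ _ _)
  rw [← mul_assoc]
  exact (n.cs _ _).trans (mul_le_mul_of_nonneg_right (n.mul' _ _) (n.n0 _))

end Items

end AlT

open AlT in
theorem algT (hN : AlgN) : AlgT := by
  intro ι r _ _ _ _ h H θ a hP
  obtain ⟨J, hJ, hd⟩ := ex_frame hP.ph ((hN ι r h H hP.ph hP.pH).2.2.2.1 θ).1
  obtain ⟨N, M, n⟩ := ex_nm hP.pH hP.re
  have hD : IsUnit H.det := (isUnit_iff_isUnit_det _).1 hP.pH.isUnit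
  have hs : ∀ p, (fr J θ p)ᵀ * H = H * fr J θ p := fun p => by
    simp only [fr, transpose_sum, transpose_smul, Matrix.sum_mul, Matrix.mul_sum, Matrix.smul_mul,
      Matrix.mul_smul, hP.sym]
  rw [e2 hJ n hd, eA hJ n, eT hJ n θ]
  refine ⟨?_, i2 hJ n, i3 hJ n, i4 hJ n, i5 hJ n, i6 hJ n hs, i7 hJ n hP.re hs, i8 hJ n⟩
  ext i j
  have e : (θ j)ᴴ * H = H * (θ j).map star := sym_star hP.re (hP.sym j)
  simp only [grE, ipE, of_apply]
  rw [Matrix.mul_assoc, e, Matrix.mul_assoc, nonsing_inv_mul_cancel_left _ _ hD]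

end Pool.Agent.Lib.MP_813db1_ag.VH
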