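import Pool.Agent.Lib.MP_813db1_ag.VH.St7

/-! The global Bochner formula. -/

namespace Pool.Agent.Lib.MP_813db1_ag.VH

open Pool.Agent.Lib.MP_813db1_ag.HS Pool.Agent.Lib.MP_813db1_ag.AS F12
open MeasureTheory Complex Matrix Filter Topology Set
open scoped ContDiff ComplexOrder

set_option linter.unusedSectionVars false

namespace BoGA

section alg

variable {ι r : Type} [Fintype ι] [DecidableEq ι] [Fintype r] [DecidableEq r]

/-- the product of two forms. -/
noncomputable def pr (h : Mat ι) (H : Mat r) (u v : ι → V r) : ℂ :=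
  tg h fun i j => ipV H (u i) (v j)

theorem ipV_sum {κ κ' : Type} [Fintype κ] [Fintype κ'] (H : Mat r) (c : κ → ℂ) (d : κ' → ℂ)
    (u : κ → V r) (v : κ' → V r) : ipV H (∑ l, c l • u l) (∑ m, d m • v m) =
      ∑ l, ∑ m, (c l * star (d m)) • ipV H (u l) (v m) := by
  simp only [ipV_eq, sum_dotProduct, star_sum, mulVec_sum, dotProduct_sum, star_smul, mulVec_smul,
    smul_dotProduct, dotProduct_smul, smul_eq_mul, mul_assoc, Finset.mul_sum]
  rw [Finset.sum_comm]
  exact Finset.sum_congr rfl fun l _ => Finset.sum_congr rfl fun m _ => by ring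

theorem pr_pull {J : Mat ι} (hJ : J.det ≠ 0) (h : Mat ι) (H : Mat r) (u v : ι → V r) :
    pr (pull J h) H (fun i => ∑ m, J m i • u m) (fun i => ∑ m, J m i • v m) = pr h H u v := by
  simp only [pr, ipV_sum]
  exact tg_pull hJ h _

theorem pr_sum {κ κ' : Type} [Fintype κ] [Fintype κ'] (h : Mat ι) (H : Mat r) (c : κ → ℂ)
    (d : κ' → ℂ) (u : κ → ι → V r) (v : κ' → ι → V r) :
    pr h H (fun i => ∑ l, c l • u l i) (fun i => ∑ m, d m • v m i) =
      ∑ l, ∑ m, (c l * star (d m)) • pr h H (u l) (v m) := by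
  simp only [pr, ipV_sum, tg, Finset.smul_sum, smul_smul]
  conv_rhs => enter [2, l]; rw [Finset.sum_comm]; enter [2, i]; rw [Finset.sum_comm]
  conv_rhs => rw [Finset.sum_comm]; enter [2, i]; rw [Finset.sum_comm]
  exact Finset.sum_congr rfl fun _ _ => Finset.sum_congr rfl fun _ _ => Finset.sum_congr rfl
    fun _ _ => Finset.sum_congr rfl fun _ _ => by rw [mul_comm]

theorem pr_left {κ : Type} [Fintype κ] (h : Mat ι) (H : Mat r) (c : κ → ℂ) (u : κ → ι → V r)
    (v : ι → V r) : pr h H (fun i => ∑ l, c l • u l i) v = ∑ l, c l * pr h H (u l) v := by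
  simpa using pr_sum h H c (fun _ : Unit => 1) u fun _ => v

theorem q1_pull {J : Mat ι} (hJ : J.det ≠ 0) (h : Mat ι) (H : Mat r) (T : ι → ι → V r) :
    q1 (pull J h) H (fun k i => ∑ m, J m i • ∑ l, J l k • T l m) = q1 h H T := by
  refine congrArg re (Eq.trans (congrArg _ ?_) (tg_pull hJ h _))
  funext k l
  exact (pr_pull hJ h H _ _).trans (pr_sum h H _ _ T T)

theorem q2_pull {J : Mat ι} (hJ : J.det ≠ 0) (h : Mat ι) (H : Mat r) (T : ι → ι → V r) :
    q2 (pull J h) H (fun k i => ∑ m, J m i • ∑ l, star (J l k) • T l m) = q2 h H T := by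
  refine congrArg re (Eq.trans (congrArg _ ?_) (tg_pull hJ h _))
  funext l k
  refine (pr_pull hJ h H _ _).trans ((pr_sum h H _ _ T T).trans (Finset.sum_comm.trans ?_))
  simp only [star_star, mul_comm (star _)]
  rfl

theorem push {J : Mat ι} (hJ : J.det ≠ 0) (h : Mat ι) (B : ι → ℂ) :
    (J *ᵥ fun k => ((pull J h).det.re : ℂ) * ∑ l, (pull J h)⁻¹ l k * ∑ q, star (J q l) * B q) =
      ((‖J.det‖ ^ 2 : ℝ) : ℂ) • fun k => (h.det.re : ℂ) * ∑ l, h⁻¹ l k * B l := by
  have e : J.map star * (pull J h)⁻¹ * Jᵀ = h⁻¹ := by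
    rw [RepB.inv_pull, ← Matrix.mul_assoc, ← Matrix.mul_assoc, mul_nonsing_inv _ (RepB.unit_bar hJ),
      Matrix.one_mul, Matrix.mul_assoc, nonsing_inv_mul _ (RepB.unit_tr hJ), Matrix.mul_one]
  funext m
  rw [RepB.det_pull, re_ofReal_mul, ← e]
  simp only [mulVec, dotProduct, Pi.smul_apply, smul_eq_mul, Matrix.mul_apply, transpose_apply,
    map_apply, Finset.mul_sum, Finset.sum_mul, ofReal_mul]
  conv_lhs => enter [2, k]; rw [Finset.sum_comm]
  rw [Finset.sum_comm]
  exact Finset.sum_congr rfl fun _ _ => Finset.sum_congr rfl fun _ _ => Finset.sum_congr rfl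
    fun _ _ => by ring

variable {h : V ι → Mat ι} {H : V ι → Mat r} {z : V ι}

theorem sm_tg (hh : SmR (fun w => (h w)⁻¹) z) {B : V ι → ι → ι → ℂ}
    (hB : ∀ i j, ContDiffAt ℝ ∞ (fun w => B w i j) z) :
    ContDiffAt ℝ ∞ (fun w => tg (h w) (B w)) z :=
  ContDiffAt.sum fun i _ => ContDiffAt.sum fun j _ => (hh j i).mul (hB i j)

theorem sm_ip (hH : SmR H z) {u v : V ι → V r} (hu : SmV u z) (hv : SmV v z) :
    ContDiffAt ℝ ∞ (fun w => ipV (H w) (u w) (v w)) z := by
  simp only [ipV_eq]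
  exact hu.dot (hH.mulVec hv.star)

theorem sm_n2 (hH : SmR H z) (h0 : (H z).det ≠ 0) {ψ : V ι → ι → V r}
    (hψ : ∀ i, SmV (fun w => ψ w i) z) (k i : ι) : SmV (fun w => n2 H ψ w k i) z :=
  ((hψ i).dVb k).add (((hH.cb h0 k).mulVec (hψ i)).csmul _)

end alg

variable {ι X Y G r : Type} [Fintype ι] [DecidableEq ι] [TopologicalSpace X] [TopologicalSpace Y]
  [Group G] [MulAction G Y] [Fintype r] [DecidableEq r] {M : Atl ι X} {p : Y → X}
  {e e' : Ch ι X} {z z' : V ι} {s s' : V ι → Y} {D : Dt M p G r} {h ζ : X → Mat ι}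
  {a : Ch ι X → Y → ι → V r}

theorem sm_inv (hh : M.IsK h) (he : e ∈ M.A) (hz : z ∈ e.target) :
    SmR (fun w => (M.repF h e w)⁻¹) z :=
  SmR.inv ((hh e he).1.1 z hz) ((hh e he).2 z hz).det_pos.ne'

/-- smooth invariant scalars descend. -/
theorem desc_ck (hq : IsQuotientCoveringMap p G) (B : Ch ι X → V ι → (V ι → Y) → ℂ)
    (h1 : ∀ e z s e' z' s', Two M p e z s e' z' s' → (B e z s).re = (B e' z' s').re)
    (h2 : Loc M p fun e z s => ∀ g : G, B e z (fun w => g • s w) = B e z s)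
    (h3 : Loc M p fun e z s => ContDiffAt ℝ ∞ (fun w => B e w s) z) :
    ∃ φ : X → ℝ, M.Ck ∞ φ ∧ Fn M p φ fun e z s => (B e z s).re := by
  obtain ⟨φ, hφ⟩ := descL hq (fun e z s => (B e z s).re) h1
    (h2.mono fun _ _ _ k g => congrArg re (k g))
  exact ⟨φ, ck_of hq (hφ.mono fun _ _ _ k => congrArg _ k) (h3.mono fun _ z _ k =>
    contDiffAt_ofReal.2 (reCLM.contDiff.contDiffAt.comp z k)), hφ⟩

theorem ck_cont {φ : X → ℝ} (hφ : M.Ck ∞ φ) : Continuous φ :=
  (AY.repA' ι X M).cont φ fun e he z hz => (hφ e he z hz).of_le (by simp)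

/-- the norm of an equivariant tensor with two holomorphic indices. -/
theorem ex_q1 (hq : IsQuotientCoveringMap p G) (hh : M.IsK h)
    (T : Ch ι X → V ι → (V ι → Y) → ι → ι → V r)
    (h1 : ∀ e z s e' z' s', Two M p e z s e' z' s' → ∀ k i, T e z s k i =
      ∑ m, tj e e' (e.symm z) m i • ∑ l, tj e e' (e.symm z) l k • T e' z' s' l m)
    (h2 : Loc M p fun e z s => ∀ (g : G) k i, T e z (fun w => g • s w) k i = D.ρ g *ᵥ T e z s k i)
    (h3 : Loc M p fun e z s => ∀ k i, SmV (fun w => T e w s k i) z) :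
    ∃ φ : X → ℝ, M.Ck ∞ φ ∧ Fn M p φ fun e z s => q1 (M.repF h e z) (D.H (s z)) (T e z s) :=
  desc_ck hq (fun e z s => tg (M.repF h e z) fun k l => tg (M.repF h e z) fun i j =>
      ipV (D.H (s z)) (T e z s k i) (T e z s l j))
    (fun e z s e' z' s' t => by
      show q1 (M.repF h e z) (D.H (s z)) (T e z s) = q1 (M.repF h e' z') (D.H (s' z')) (T e' z' s')
      rw [t.repF h, t.eq, funext₂ (h1 _ _ _ _ _ _ t), q1_pull t.det_ne])
    (h2.mono fun _ _ _ k g => by simp only [k g, D.ipV_eqv])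
    fun e he z hz s hs => sm_tg (sm_inv hh he hz) fun k l => sm_tg (sm_inv hh he hz) fun i j =>
      sm_ip (D.sm e he z hz s hs) (h3 e he z hz s hs k i) (h3 e he z hz s hs l j)

/-- the norm of an equivariant tensor whose first index is antiholomorphic. -/
theorem ex_q2 (hq : IsQuotientCoveringMap p G) (hh : M.IsK h)
    (T : Ch ι X → V ι → (V ι → Y) → ι → ι → V r)
    (h1 : ∀ e z s e' z' s', Two M p e z s e' z' s' → ∀ k i, T e z s k i =
      ∑ m, tj e e' (e.symm z) m i • ∑ l, star (tj e e' (e.symm z) l k) • T e' z' s' l m)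
    (h2 : Loc M p fun e z s => ∀ (g : G) k i, T e z (fun w => g • s w) k i = D.ρ g *ᵥ T e z s k i)
    (h3 : Loc M p fun e z s => ∀ k i, SmV (fun w => T e w s k i) z) :
    ∃ φ : X → ℝ, M.Ck ∞ φ ∧ Fn M p φ fun e z s => q2 (M.repF h e z) (D.H (s z)) (T e z s) :=
  desc_ck hq (fun e z s => tg (M.repF h e z) fun l k => tg (M.repF h e z) fun i j =>
      ipV (D.H (s z)) (T e z s k i) (T e z s l j))
    (fun e z s e' z' s' t => by
      show q2 (M.repF h e z) (D.H (s z)) (T e z s) = q2 (M.repF h e' z') (D.H (s' z')) (T e' z' s')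
      rw [t.repF h, t.eq, funext₂ (h1 _ _ _ _ _ _ t), q2_pull t.det_ne])
    (h2.mono fun _ _ _ k g => by simp only [k g, D.ipV_eqv])
    fun e he z hz s hs => sm_tg (sm_inv hh he hz) fun l k => sm_tg (sm_inv hh he hz) fun i j =>
      sm_ip (D.sm e he z hz s hs) (h3 e he z hz s hs k i) (h3 e he z hz s hs l j)

theorem th_star (k : ι) : (th (D.H ∘ s) z k).map star = (-(1 / 2) : ℂ) • cb (D.H ∘ s) k z := by
  rw [← Dt.ca_conj]
  ext i j
  simp [th, map_ofNat]

theorem a_smul (hF : D.F10 a ζ) (hz : z ∈ e.target) (hs : Sec p e z s) (g : G) (i : ι) :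
    a e (g • s z) i = D.ρ g *ᵥ a e (s z) i :=
  hF.eqv e g _ (by rw [sec_pt hs]; exact e.map_target hz) i

/-- the transformation law of `n2`. -/
theorem n2_two (hp : IsLocalHomeomorph p) (hF : D.F10 a ζ) (t : Two M p e z s e' z' s') (k i : ι) :
    n2 (D.H ∘ s) (fun w => a e (s w)) z k i = ∑ m, tj e e' (e.symm z) m i •
      ∑ l, star (tj e e' (e.symm z) l k) • n2 (D.H ∘ s') (fun w => a e' (s' w)) z' l m := by
  have sm := fun m => (hF.sm _ t.he' _ t.hz' _ t.hs' m).df
  have d := t.an.differentiableAt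
  have e1 : (fun w => a e (s w) i) =ᶠ[𝓝 z] fun w => ∑ m, jac (e' ∘ e.symm) w m i •
      ((fun w => a e' (s' w) m) ∘ (e' ∘ e.symm)) w :=
    (t.near hp).mono fun w hw => by simp only [hF.tr _ _ _ _ _ _ hw, hw.jac_eq]; rfl
  have c : ∀ m, DfV ((fun w => a e' (s' w) m) ∘ (e' ∘ e.symm)) z := fun m j =>
    DifferentiableAt.comp (g := fun w => a e' (s' w) m j) z (by rw [t.pt]; exact sm m j)
      (d.restrictScalars ℝ)
  have j := fun m => (analyticAt_jac t.an m i).differentiableAt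
  rw [n2, dVb_congr e1, dVb_sum _ fun m _ => DfV.smul ((j m).restrictScalars ℝ) (c m), t.cb hp,
    hF.tr _ _ _ _ _ _ t, mulVec_sum, Finset.smul_sum, ← Finset.sum_add_distrib]
  refine Finset.sum_congr rfl fun m _ => ?_
  rw [dVb_smul ((j m).restrictScalars ℝ) (c m), dzb_hol (j m), zero_smul, zero_add,
    dVb_comp (by rw [t.pt]; exact sm m) d, t.jac_eq, t.pt, mulVec_smul, smul_comm (1 / 2 : ℂ),
    ← smul_add, sum_mulVec, Finset.smul_sum, ← Finset.sum_add_distrib]
  refine congrArg _ (Finset.sum_congr rfl fun l _ => ?_)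
  rw [n2, smul_add, smul_mulVec, smul_comm (1 / 2 : ℂ)]

theorem n2_smul (hp : IsLocalHomeomorph p) (hF : D.F10 a ζ) (he : e ∈ M.A) (hz : z ∈ e.target)
    (hs : Sec p e z s) (g : G) (k i : ι) :
    n2 (D.H ∘ fun w => g • s w) (fun w => a e (g • s w)) z k i =
      D.ρ g *ᵥ n2 (D.H ∘ s) (fun w => a e (s w)) z k i := by
  have e1 : (fun w => a e (g • s w) i) =ᶠ[𝓝 z] fun w => D.ρ g *ᵥ a e (s w) i :=
    ((hs.ev hp hz).and (e.open_target.eventually_mem hz)).mono fun w hw => a_smul hF hw.2 hw.1 g i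
  rw [n2, n2, dVb_congr e1, dVb_cmulVec _ (hF.sm e he z hz s hs i).df,
    Dt.cb_smul (D.sm e he z hz s hs).df, a_smul hF hz hs]
  simp only [mulVec_add, mulVec_smul, mulVec_mulVec, Matrix.mul_assoc, D.inv_mul,
    Matrix.mul_one]

theorem ex_N2 (hq : IsQuotientCoveringMap p G) (hh : M.IsK h) (hF : D.F10 a ζ) :
    ∃ φ : X → ℝ, M.Ck ∞ φ ∧ Fn M p φ fun e z s =>
      q2 (M.repF h e z) (D.H (s z)) (n2 (D.H ∘ s) (fun w => a e (s w)) z) :=
  ex_q2 hq hh (fun e z s => n2 (D.H ∘ s) (fun w => a e (s w)) z)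
    (fun _ _ _ _ _ _ t => n2_two (lh hq) hF t) (fun _ he _ hz _ hs => n2_smul (lh hq) hF he hz hs)
    fun e he z hz s hs => sm_n2 (D.sm e he z hz s hs) (D.det_ne _) (hF.sm e he z hz s hs)

theorem ex_T1 (hq : IsQuotientCoveringMap p G) (hh : M.IsK h) (hF : D.F10 a ζ) :
    ∃ φ : X → ℝ, M.Ck ∞ φ ∧ Fn M p φ fun e z s =>
      q1 (M.repF h e z) (D.H (s z)) fun k i => th (D.H ∘ s) z k *ᵥ a e (s z) i :=
  ex_q1 hq hh (fun e z s k i => th (D.H ∘ s) z k *ᵥ a e (s z) i)
    (fun _ _ _ _ _ _ t k i => by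
      simp only [th, t.ca (lh hq), hF.tr _ _ _ _ _ _ t, mulVec_sum, mulVec_smul, smul_mulVec,
        sum_mulVec, Finset.smul_sum, smul_comm (-(1 / 2) : ℂ)])
    (fun e he z hz s hs g k i => by
      simp only [th, Dt.ca_smul (D.sm e he z hz s hs).df, a_smul hF hz hs, mulVec_smul, smul_mulVec,
        mulVec_mulVec, Matrix.smul_mul, Matrix.mul_assoc, D.inv_mul, Matrix.mul_one])
    fun e he z hz s hs k i => (((D.sm e he z hz s hs).ca (D.det_ne _) k).csmul _).mulVec
      (hF.sm e he z hz s hs i)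

theorem ex_T2 (hq : IsQuotientCoveringMap p G) (hh : M.IsK h) (hF : D.F10 a ζ) :
    ∃ φ : X → ℝ, M.Ck ∞ φ ∧ Fn M p φ fun e z s =>
      q2 (M.repF h e z) (D.H (s z)) fun k i => (th (D.H ∘ s) z k).map star *ᵥ a e (s z) i := by
  simp only [th_star]
  exact ex_q2 hq hh (fun e z s k i => ((-(1 / 2) : ℂ) • cb (D.H ∘ s) k z) *ᵥ a e (s z) i)
    (fun _ _ _ _ _ _ t k i => by
      simp only [t.cb (lh hq), hF.tr _ _ _ _ _ _ t, mulVec_sum, mulVec_smul, smul_mulVec,
        sum_mulVec, Finset.smul_sum, smul_comm (-(1 / 2) : ℂ)])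
    (fun e he z hz s hs g k i => by
      simp only [Dt.cb_smul (D.sm e he z hz s hs).df, a_smul hF hz hs, mulVec_smul, smul_mulVec,
        mulVec_mulVec, Matrix.smul_mul, Matrix.mul_assoc, D.inv_mul, Matrix.mul_one])
    fun e he z hz s hs k i => (((D.sm e he z hz s hs).cb (D.det_ne _) k).csmul _).mulVec
      (hF.sm e he z hz s hs i)

theorem smF (hq : IsQuotientCoveringMap p G) (hF : D.F10 a ζ) : M.SmF ζ :=
  smF_of hq hF.gr fun e he z hz s hs i j =>
    sm_ip (D.sm e he z hz s hs) (hF.sm e he z hz s hs i) (hF.sm e he z hz s hs j)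

theorem t2_rep (B C : X → Mat ι) (he : e ∈ M.A) (hz : z ∈ e.target) :
    t2 (M.repF h e z) (M.repF B e z) (M.repF C e z) =
      t2 (h (e.symm z)) (B (e.symm z)) (C (e.symm z)) := by
  have := (AY.repA' ι X M).trm_rep h (fun x => B x * (h x)⁻¹ * C x) e he _ (e.map_target hz)
  rwa [e.right_inv hz, (AY.repA' ι X M).repF_mul B h C e he z hz] at this

theorem t2_ck (hh : M.IsK h) {B C : X → Mat ι} (hB : M.SmF B) (hC : M.SmF C) :
    M.Ck ∞ fun x => t2 (h x) (B x) (C x) :=
  (AY.repA' ι X M).ck_trm h _ hh fun e he z hz =>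
    ((SmR.mul (hB e he z hz) (sm_inv hh he hz)).mul (hC e he z hz)).congr
      ((e.open_target.eventually_mem hz).mono fun w hw => (AY.repA' ι X M).repF_mul B h C e he w hw)

theorem phl (hp : IsLocalHomeomorph p) (hD : D.PH) (he : e ∈ M.A) (hz : z ∈ e.target)
    (hs : Sec p e z s) : PHL (D.H ∘ s) z :=
  ⟨D.sm e he z hz s hs, (hD.ev hp he hz hs).mono fun _ hw => ⟨D.pos _, D.reH _, hw⟩⟩

/-- the Laplacian of the trace of the Gram form. -/
theorem lap_gr (hq : IsQuotientCoveringMap p G) (hh : M.IsK h) (hF : D.F10 a ζ) (he : e ∈ M.A)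
    (hz : z ∈ e.target) (hs : Sec p e z s) : M.lap h (fun x => trm (h x) (ζ x)) (e.symm z) =
      (lapL (M.repF h e) (fun w => (trm (M.repF h e w) (gr ((D.H ∘ s) w) (a e (s w))) : ℂ)) z).re := by
  have k := (AY.repB' ι X M).lap_rep h (fun x => trm (h x) (ζ x)) e he _ (e.map_target hz) (by
    rw [e.right_inv hz]
    exact sm_two ((AY.repA' ι X M).ck_trm h ζ hh (smF hq hF) e he z hz))
  rw [e.right_inv hz] at k
  have e1 : fn (fun x => trm (h x) (ζ x)) e =ᶠ[𝓝 z]
      fun w => (trm (M.repF h e w) (gr ((D.H ∘ s) w) (a e (s w))) : ℂ) := by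
    filter_upwards [hF.gr.ev (lh hq) he hz hs, e.open_target.eventually_mem hz] with w h1 h2
    have := (AY.repA' ι X M).trm_rep h ζ e he _ (e.map_target h2)
    rw [e.right_inv h2, h1] at this
    exact congrArg ofReal this.symm
  rw [← k, lapL, lapL, levi_congr e1]

end BoGA

open BoGA in
theorem boG {ι X Y G : Type} [Fintype ι] [DecidableEq ι] [TopologicalSpace X] [T2Space X]
    [CompactSpace X] [MeasurableSpace X] [BorelSpace X] [TopologicalSpace Y] [Group G]
    [MulAction G Y] {M : Atl ι X} {p : Y → X} (hq : IsQuotientCoveringMap p G) (hL : BoL) :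
    BoG M p G := fun g μ h hg hμ hh r _ _ D a ζ hD hF => by
  have hA := AY.repA' ι X M
  have hB := AY.repB' ι X M
  obtain ⟨N2, a1, a2⟩ := ex_N2 hq hh hF
  obtain ⟨T1, b1, b2⟩ := ex_T1 hq hh hF
  obtain ⟨T2, c1, c2⟩ := ex_T2 hq hh hF
  have d1 := ck_cont (t2_ck hh (smF hq hF) fun e he => (hB.ric_cl h hh e he).1)
  obtain ⟨d, d2, d3, d4⟩ := stokes hq hg hμ (fun e z s k => ((M.repF h e z).det.re : ℂ) *
      ∑ l, (M.repF h e z)⁻¹ l k * pr (M.repF h e z) (D.H (s z))
        (n2 (D.H ∘ s) (fun w => a e (s w)) z l) (a e (s z)))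
    (fun e z s e' z' s' t => by
      refine Eq.trans ?_ (push t.det_ne _ _)
      simp only [funext (n2_two (lh hq) hF t _), funext (hF.tr _ _ _ _ _ _ t), t.repF h,
        pr_pull t.det_ne, pr_left, show D.H (s z) = D.H (s' z') from congrArg _ t.eq])
    (fun e he z hz s hs g => by
      simp only [pr, n2_smul (lh hq) hF he hz hs, a_smul hF hz hs, D.ipV_eqv])
    fun e he z hz s hs => contDiffAt_pi.2 fun k => ContDiffAt.of_le (n := ∞)
      ((contDiffAt_ofReal.2 (reCLM.contDiff.contDiffAt.comp z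
        (SmR.det ((hh e he).1.1 z hz)))).mul (ContDiffAt.sum fun l _ =>
        (sm_inv hh he hz l k).mul (sm_tg (sm_inv hh he hz) fun i j => sm_ip (D.sm e he z hz s hs)
          (sm_n2 (D.sm e he z hz s hs) (D.det_ne _) (hF.sm e he z hz s hs) l i)
          (hF.sm e he z hz s hs j)))) (by simp)
  have u1 := hA.ck_trm h ζ hh (smF hq hF)
  obtain ⟨l1, -, l2⟩ := AY.greenS.real ι X M g h μ _ (fun _ => 1) hg hh hμ
    (fun e he z hz => sm_two (u1 e he z hz)) fun e he z hz => contDiffAt_const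
  have l3 : ∀ x, M.grad h (fun x => trm (h x) (ζ x)) (fun _ => 1) x = 0 := fun x => by
    have : M.dfn (fun _ => 1) x = 0 := funext fun i => dz_const _ i _
    simp [Atl.grad, this, grL]
  simp only [l3, one_mul, add_zero] at l2
  have r1 := ck_cont (hA.ck_rat h g (fun e he => (hh e he).1.1) hg)
  have r2 : ∀ x, rat h g x ≠ 0 := fun x =>
    (div_pos (pos_iff.1 (((hA.isK_iff h).1 hh).2 x).det_pos).1
      (pos_iff.1 (((hA.isK_iff g).1 hg).2 x).det_pos).1).ne'
  have fin := ((AY.volS' ι X M g hg).2 μ hμ).fin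
  refine ⟨fun x => M.lap h (fun x => trm (h x) (ζ x)) x + N2 x - 2 * ((d x).re / rat h g x) -
    t2 (h x) (ζ x) (M.ricF h x) - T2 x + T1 x, N2, T1, T2, ?_, ck_cont a1, ck_cont b1, ck_cont c1, d1,
    fun e he z hz s hs => ?_, a2, b2, c2, ?_⟩
  · exact ((((l1.add (ck_cont a1)).sub (continuous_const.mul ((continuous_re.comp d2).div r1 r2))).sub
      d1).sub (ck_cont c1)).add (ck_cont b1)
  · obtain ⟨k1, k2⟩ := hL ι r (M.repF h e) e.target (D.H ∘ s) (fun w => a e (s w)) z e.open_target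
      (hh e he) hz (phl (lh hq) hD he hz hs) (hF.sm e he z hz s hs)
    have k3 := congrArg re (k2.symm.trans (d4 e he z hz s hs))
    have k4 := hA.rat_rep h g e he _ (e.map_target hz)
    have k5 := (pos_iff.1 ((hg e he).2 z hz).det_pos).1
    have k6 := (pos_iff.1 ((hh e he).2 z hz).det_pos).1
    rw [re_ofReal_mul, re_ofReal_mul, add_re, ofReal_re] at k3
    rw [e.right_inv hz] at k4
    have k7 : (d (e.symm z)).re / rat h g (e.symm z) =
        (cr (M.repF h e) (D.H ∘ s) (fun w => a e (s w)) z).re + N2 (e.symm z) := by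
      rw [← k4, a2 e he z hz s hs, div_div_eq_mul_div, div_eq_iff k6.ne']
      exact (mul_comm _ _).trans (k3.symm.trans (mul_comm _ _))
    rw [← hB.ric_rep h hh e he z hz, Function.comp_apply, ← hF.gr e he z hz s hs, t2_rep _ _ he hz,
      ← lap_gr hq hh hF he hz hs] at k1
    simp only [k7, k1, a2 e he z hz s hs, b2 e he z hz s hs, c2 e he z hz s hs]
    ring
  · have i1 : Integrable (fun x => M.lap h (fun x => trm (h x) (ζ x)) x * rat h g x) μ :=
      (l1.mul r1).integrable_of_hasCompactSupport (HasCompactSupport.of_compactSpace _)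
    have i2 : Integrable d μ :=
      d2.integrable_of_hasCompactSupport (HasCompactSupport.of_compactSpace _)
    have i3 : ∫ x, (d x).re ∂μ = 0 := by
      have := integral_re i2
      rwa [d3, map_zero] at this
    have := integral_sub i1 (i2.re.const_mul 2)
    rw [l2, integral_const_mul] at this
    refine Eq.trans (integral_congr_ae (Eventually.of_forall fun x => ?_))
      (this.trans (by simpa using i3))
    have := r2 x
    simp only [RCLike.re_to_complex]
    field_simp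
    ring

end Pool.Agent.Lib.MP_813db1_ag.VH
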