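import Pool.Agent.Lib.MP_813db1_ag.VH.St7

/-! The local Bochner formula and the divergence identity. -/

namespace Pool.Agent.Lib.MP_813db1_ag.VH

open Pool.Agent.Lib.MP_813db1_ag.HS Pool.Agent.Lib.MP_813db1_ag.AS
open MeasureTheory Complex Matrix Filter Topology Set
open scoped ContDiff ComplexOrder

set_option linter.unusedSectionVars false

namespace RBoL

variable {ι r : Type} [Fintype ι] [DecidableEq ι] [Fintype r] [DecidableEq r]

/-! ### algebra -/

section alg

variable {g : Mat ι} {A : Mat r}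

/-- the product of two forms. -/
noncomputable def pr (g : Mat ι) (A : Mat r) (a b : ι → V r) : ℂ := tg g fun i j => ipV A (a i) (b j)

theorem tg_star (hg : g.IsHermitian) (B : ι → ι → ℂ) :
    star (tg g B) = tg g fun i j => star (B j i) := by
  simp only [tg, star_sum, smul_eq_mul, star_mul', hg.inv.apply]
  exact Finset.sum_comm

theorem tg_add {E : Type} [AddCommMonoid E] [Module ℂ E] (g : Mat ι) (B C : ι → ι → E) :
    tg g (fun i j => B i j + C i j) = tg g B + tg g C := by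
  simp only [tg, smul_add, Finset.sum_add_distrib]

theorem tg_sub {E : Type} [AddCommGroup E] [Module ℂ E] (g : Mat ι) (B C : ι → ι → E) :
    tg g (fun i j => B i j - C i j) = tg g B - tg g C := by
  simp only [tg, smul_sub, Finset.sum_sub_distrib]

theorem tg_trace (g B : Mat ι) : tg g (fun i j => B i j) = trace (B * g⁻¹) := by
  simp only [tg, trace, diag, mul_apply, smul_eq_mul, mul_comm]

theorem ipV_star (hA : A.IsHermitian) (a b : V r) : star (ipV A a b) = ipV A b a := by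
  simp only [ipV, star_sum, star_mul', star_star, hA.apply]
  rw [Finset.sum_comm]
  exact Finset.sum_congr rfl fun i _ => Finset.sum_congr rfl fun j _ => by ring

theorem ipV_sub_left (A : Mat r) (u u' v : V r) : ipV A (u - u') v = ipV A u v - ipV A u' v := by
  simp only [ipV_eq, sub_dotProduct]

theorem ipV_sub_right (A : Mat r) (u v v' : V r) : ipV A u (v - v') = ipV A u v - ipV A u v' := by
  simp only [ipV_eq, star_sub, mulVec_sub, dotProduct_sub]

theorem ipV_sum_left (A : Mat r) (c : ι → ℂ) (u : ι → V r) (v : V r) :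
    ipV A (∑ m, c m • u m) v = ∑ m, c m * ipV A (u m) v := by
  simp only [ipV_eq, sum_dotProduct, smul_dotProduct, smul_eq_mul]

theorem ipV_sum_right (A : Mat r) (c : ι → ℂ) (u : V r) (v : ι → V r) :
    ipV A u (∑ m, c m • v m) = ∑ m, ipV A u (v m) * star (c m) := by
  simp only [ipV_eq, star_sum, star_smul, mulVec_sum, mulVec_smul, dotProduct_sum, dotProduct_smul,
    smul_eq_mul, mul_comm]

theorem pr_star (hg : g.IsHermitian) (hA : A.IsHermitian) (a b : ι → V r) :
    star (pr g A a b) = pr g A b a := by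
  simp only [pr, tg_star hg, ipV_star hA]

theorem pr_self (hg : g.IsHermitian) (hA : A.IsHermitian) (a : ι → V r) :
    (trm g (gr A a) : ℂ) = pr g A a a := by
  rw [trm, ← tg_trace]
  exact conj_eq_iff_re.1 (pr_star hg hA a a)

theorem q2_eq (hg : g.IsHermitian) (hA : A.IsHermitian) (T : ι → ι → V r) :
    (q2 g A T : ℂ) = tg g fun k l => pr g A (T l) (T k) :=
  conj_eq_iff_re.1 ((tg_star hg fun k l => pr g A (T l) (T k)).trans
    (by simp only [pr_star hg hA]; rfl))


/-- the matrix of the products. -/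
noncomputable def mx (A : Mat r) (a b : ι → V r) : Mat ι := Matrix.of fun i j => ipV A (a i) (b j)

theorem pr_eq (g : Mat ι) (A : Mat r) (a b : ι → V r) : pr g A a b = trace (mx A a b * g⁻¹) :=
  tg_trace g (mx A a b)

theorem mx_left (A : Mat r) (C : Mat ι) (a b : ι → V r) :
    mx A (fun i => ∑ m, C i m • a m) b = C * mx A a b :=
  Matrix.ext fun _ _ => ipV_sum_left ..

theorem mx_right (A : Mat r) (C : Mat ι) (a b : ι → V r) :
    mx A a (fun i => ∑ m, C i m • b m) = mx A a b * Cᴴ :=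
  Matrix.ext fun _ _ => ipV_sum_right ..

theorem pr_add (g : Mat ι) (A : Mat r) (a b c : ι → V r) :
    pr g A a (fun i => b i + c i) = pr g A a b + pr g A a c := by
  simp only [pr, Dt.ipV_add_right, tg_add]

theorem pr_sub (g : Mat ι) (A : Mat r) (a b c : ι → V r) :
    pr g A a (fun i => b i - c i) = pr g A a b - pr g A a c := by
  simp only [pr, ipV_sub_right, tg_sub]

end alg

/-! ### germs of real metrics -/

/-- a differentiable germ of a real metric. -/
def Lc (H : V ι → Mat r) (z : V ι) : Prop :=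
  DfR H z ∧ ∀ᶠ w in 𝓝 z, (H w).PosDef ∧ (H w).map star = H w

variable {h : V ι → Mat ι} {H : V ι → Mat r} {z : V ι} {U : Set (V ι)}

theorem lc_ev (hH : PHL H z) : ∀ᶠ w in 𝓝 z, Lc H w :=
  hH.1.ev.and (hH.2.mono fun _ e => ⟨e.1, e.2.1⟩).eventually_nhds

namespace Lc

variable (hH : Lc H z)
include hH

theorem pos : (H z).PosDef := hH.2.self_of_nhds.1

theorem re : (H z).map star = H z := hH.2.self_of_nhds.2

theorem det_ne : (H z).det ≠ 0 := hH.pos.det_pos.ne'

theorem sym : ∀ᶠ w in 𝓝 z, (H w)ᵀ = H w := hH.2.mono fun w e => by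
  have := e.1.1.eq
  rwa [conjTranspose, transpose_map, e.2] at this

theorem ca_conj (k : ι) : (ca H k z).map star = cb H k z := by
  have e : ((H z)⁻¹).map star = (H z)⁻¹ := by
    refine (inv_eq_right_inv ?_).symm
    rw [← hH.re, ← RepA.map_star_mul, hH.re, mul_nonsing_inv _ hH.det_ne.isUnit]
    simp
  rw [ca, cb, RepA.map_star_mul, dRb_real (hH.2.mono fun _ e => e.2), e]

theorem cb_conj (k : ι) : (cb H k z).map star = ca H k z := by
  rw [← hH.ca_conj]
  ext i j
  simp

theorem ca_sym (k : ι) : (ca H k z)ᵀ * H z = H z * ca H k z := by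
  have e := mul_ca hH.det_ne k
  have e' := congrArg transpose e
  rw [transpose_mul, ← dR_tr, dR_congr hH.sym, hH.sym.self_of_nhds] at e'
  exact e'.trans e.symm

theorem cb_sym (k : ι) : (cb H k z)ᵀ * H z = H z * cb H k z := by
  have e := mul_cb hH.det_ne k
  have e' := congrArg transpose e
  rw [transpose_mul, ← dRb_tr, dRb_congr hH.sym, hH.sym.self_of_nhds] at e'
  exact e'.trans e.symm

theorem ipV_ca (k : ι) (u v : V r) : ipV (H z) (ca H k z *ᵥ u) v = ipV (H z) u (cb H k z *ᵥ v) := by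
  rw [ipV_eq, ipV_eq, Dt.star_mulVec', hH.cb_conj, mulVec_mulVec, ← hH.ca_sym, ← mulVec_mulVec,
    dotProduct_mulVec u, vecMul_transpose]

theorem ipV_cb (k : ι) (u v : V r) : ipV (H z) (cb H k z *ᵥ u) v = ipV (H z) u (ca H k z *ᵥ v) := by
  rw [ipV_eq, ipV_eq, Dt.star_mulVec', hH.ca_conj, mulVec_mulVec, ← hH.cb_sym, ← mulVec_mulVec,
    dotProduct_mulVec u, vecMul_transpose]

theorem th_conj (k : ι) : (th H z k).map star = (-(1 / 2) : ℂ) • cb H k z := by
  rw [← hH.ca_conj]
  ext i j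
  simp [th, map_ofNat]

theorem ipV_th (k : ι) (u v : V r) :
    ipV (H z) u (th H z k *ᵥ v) = ipV (H z) ((th H z k).map star *ᵥ u) v := by
  rw [hH.th_conj, th, smul_mulVec, smul_mulVec, Dt.ipV_smul_left, Dt.ipV_smul_right, hH.ipV_cb]
  simp

theorem ipV_thb (k : ι) (u v : V r) :
    ipV (H z) u ((th H z k).map star *ᵥ v) = ipV (H z) (th H z k *ᵥ u) v := by
  rw [hH.th_conj, th, smul_mulVec, smul_mulVec, Dt.ipV_smul_left, Dt.ipV_smul_right, hH.ipV_ca]
  simp

theorem df_ipV {u v : V ι → V r} (hu : DfV u z) (hv : DfV v z) :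
    DifferentiableAt ℝ (fun w => ipV (H w) (u w) (v w)) z := by
  simp only [ipV_eq]
  exact hu.dot (hH.1.mulVec hv.star)

theorem dz_ipV {u v : V ι → V r} (hu : DfV u z) (hv : DfV v z) (k : ι) :
    dz (fun w => ipV (H w) (u w) (v w)) k z =
      ipV (H z) (dV u k z + (1 / 2 : ℂ) • ca H k z *ᵥ u z) (v z) +
      ipV (H z) (u z) (dVb v k z + (1 / 2 : ℂ) • cb H k z *ᵥ v z) := by
  rw [Dt.ipV_add_left, Dt.ipV_add_right, Dt.ipV_smul_left, Dt.ipV_smul_right, hH.ipV_ca]
  simp only [ipV_eq]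
  refine (dz_dot hu (hH.1.mulVec hv.star) k).trans ?_
  rw [dV_mulVec hH.1 hv.star, dV_star, Dt.star_mulVec', hH.cb_conj, mulVec_mulVec,
    ← mul_ca hH.det_ne, dotProduct_add]
  simp only [star_div₀, star_one, star_ofNat]
  ring

end Lc

/-! ### derivatives of products of forms -/

variable {S R ψ : V ι → ι → V r}

theorem df_pr (hh : SmR h z) (h0 : (h z).det ≠ 0) (hH : Lc H z)
    (hS : ∀ i, DfV (fun w => S w i) z) (hR : ∀ i, DfV (fun w => R w i) z) :
    DifferentiableAt ℝ (fun w => pr (h w) (H w) (S w) (R w)) z :=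
  DifferentiableAt.fun_sum fun i _ => DifferentiableAt.fun_sum fun j _ =>
    ((hh.inv h0).df j i).fun_mul (hH.df_ipV (hS i) (hR j))

theorem dz_pr (hh : SmR h z) (h0 : (h z).det ≠ 0) (hH : Lc H z)
    (hS : ∀ i, DfV (fun w => S w i) z) (hR : ∀ i, DfV (fun w => R w i) z) (k : ι) :
    dz (fun w => pr (h w) (H w) (S w) (R w)) k z =
      pr (h z) (H z) (n1 h H S z k) (R z) + pr (h z) (H z) (S z) (n2 H R z k) := by
  have d : DfR (fun w => mx (H w) (S w) (R w)) z := fun i j => hH.df_ipV (hS i) (hR j)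
  have e : dR (fun w => mx (H w) (S w) (R w)) k z = mx (H z) (n1 h H S z k) (R z) +
      gam h k z * mx (H z) (S z) (R z) + mx (H z) (S z) (n2 H R z k) := by
    rw [← mx_left]
    ext i j
    refine (hH.dz_ipV (hS i) (hR j) k).trans ?_
    simp only [mx, n1, n2, Matrix.add_apply, of_apply, ipV_sub_left, sub_add_cancel]
  simp only [pr_eq]
  rw [dz_tr (d.mul (hh.inv h0).df), dR_mul d (hh.inv h0).df, dR_inv hh h0, e]
  simp only [Matrix.add_mul, Matrix.mul_neg, trace_add, trace_neg, gam, dR_eq, Matrix.mul_assoc]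
  rw [trace_mul_comm (dM h k z), Matrix.mul_assoc, Matrix.mul_assoc, trace_mul_comm (h z)⁻¹]
  simp only [Matrix.mul_assoc]
  ring

theorem dzb_pr (hU : IsOpen U) (hh : KOn h U) (hz : z ∈ U) (hH : Lc H z)
    (hS : ∀ i, DfV (fun w => S w i) z) (hR : ∀ i, DfV (fun w => R w i) z) (l : ι) :
    dzb (fun w => pr (h w) (H w) (S w) (R w)) l z =
      pr (h z) (H z) (n2 H S z l) (R z) + pr (h z) (H z) (S z) (n1 h H R z l) := by
  have e : (fun w => pr (h w) (H w) (S w) (R w)) =ᶠ[𝓝 z]
      fun w => star (pr (h w) (H w) (R w) (S w)) := by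
    filter_upwards [hU.mem_nhds hz, hH.2] with w a b using (pr_star (hh.2 w a).1 b.1.1 _ _).symm
  rw [dzb_congr e, dzb_star, dz_pr (hh.1.1 z hz) (hh.2 z hz).det_pos.ne' hH hR hS, star_add,
    pr_star (hh.2 z hz).1 hH.pos.1, pr_star (hh.2 z hz).1 hH.pos.1, add_comm]

theorem sm_gam (hh : SmR h z) (h0 : (h z).det ≠ 0) (k : ι) : SmR (gam h k) z :=
  (hh.dR k).mul (hh.inv h0)

theorem sm_n2 (hH : SmR H z) (h0 : (H z).det ≠ 0) (hψ : ∀ i, SmV (fun w => ψ w i) z) (k i : ι) :
    SmV (fun w => n2 H ψ w k i) z :=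
  ((hψ i).dVb k).add (((hH.cb h0 k).mulVec (hψ i)).csmul _)

theorem sm_n1 (hh : SmR h z) (h1 : (h z).det ≠ 0) (hH : SmR H z) (h0 : (H z).det ≠ 0)
    (hψ : ∀ i, SmV (fun w => ψ w i) z) (k i : ι) : SmV (fun w => n1 h H ψ w k i) z :=
  (((hψ i).dV k).add (((hH.ca h0 k).mulVec (hψ i)).csmul _)).sub
    (SmV.sum _ fun m _ => (hψ m).smul (sm_gam hh h1 k i m))

/-- commutation of the covariant derivatives. -/
theorem comm (hh : SmR h z) (h1 : (h z).det ≠ 0) (hH : PHL H z)
    (hψ : ∀ i, SmV (fun w => ψ w i) z) (k l j : ι) :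
    n2 H (fun w => n1 h H ψ w l) z k j = n1 h H (fun w => n2 H ψ w k) z l j +
      (th H z l *ᵥ ((th H z k).map star *ᵥ ψ z j) - (th H z k).map star *ᵥ (th H z l *ᵥ ψ z j)) +
      ∑ m, (-dRb (gam h l) k z) j m • ψ z m := by
  have L := (lc_ev hH).self_of_nhds
  have p0 := hH.2.self_of_nhds.2.2.1 l k
  have e1 : dRb (ca H l) k z = (1 / 2 : ℂ) • (ca H l z * cb H k z - cb H k z * ca H l z) := by
    have := (ph_eq hH.1 L.det_ne l k).symm.trans p0
    linear_combination (norm := module) (1 / 2 : ℂ) • this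
  have e2 : dR (cb H k) l z = (1 / 2 : ℂ) • (cb H k z * ca H l z - ca H l z * cb H k z) := by
    have := (ph_eq' hH.1 L.det_ne l k).symm.trans p0
    linear_combination (norm := module) (1 / 2 : ℂ) • this
  have a := hH.1.ca L.det_ne l
  have b := hH.1.cb L.det_ne k
  have g1 := fun m => ((hψ m).smul (sm_gam hh h1 l j m)).df
  have d1 : dVb (fun w => n1 h H ψ w l j) k z = dVb (dV (fun w => ψ w j) l) k z +
      (1 / 2 : ℂ) • (dRb (ca H l) k z *ᵥ ψ z j + ca H l z *ᵥ dVb (fun w => ψ w j) k z) -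
      ∑ m, (dzb (fun w => gam h l w j m) k z • ψ z m +
        gam h l z j m • dVb (fun w => ψ w m) k z) := by
    rw [← dVb_mulVec a.df (hψ j).df, ← dVb_csmul _ (a.mulVec (hψ j)).df,
      ← dVb_add ((hψ j).dV l).df ((a.mulVec (hψ j)).csmul _).df,
      ← Finset.sum_congr rfl fun m _ => dVb_smul (sm_df (sm_gam hh h1 l j m)) (hψ m).df k,
      ← dVb_sum _ fun m _ => g1 m, ← dVb_sub (((hψ j).dV l).add ((a.mulVec (hψ j)).csmul _)).df
        (SmV.sum _ fun m _ => (hψ m).smul (sm_gam hh h1 l j m)).df]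
    rfl
  have d2 : dV (fun w => n2 H ψ w k j) l z = dV (dVb (fun w => ψ w j) k) l z +
      (1 / 2 : ℂ) • (dR (cb H k) l z *ᵥ ψ z j + cb H k z *ᵥ dV (fun w => ψ w j) l z) := by
    rw [← dV_mulVec b.df (hψ j).df, ← dV_csmul _ (b.mulVec (hψ j)).df,
      ← dV_add ((hψ j).dVb k).df ((b.mulVec (hψ j)).csmul _).df]
    rfl
  rw [n2, n1, n1, d1, d2, dV_dVb_comm (hψ j), e1, e2, L.th_conj, th]
  simp only [n2, mulVec_add, mulVec_sub, mulVec_sum, mulVec_smul, smul_mulVec, sub_mulVec,
    ← mulVec_mulVec, smul_add, Finset.sum_add_distrib, Matrix.neg_apply, neg_smul,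
    Finset.sum_neg_distrib, smul_comm (gam h l z j _) (1 / 2 : ℂ), ← Finset.smul_sum, neg_mulVec,
    mulVec_neg, dRb_apply]
  module

/-- the curvature term. -/
theorem crv (hU : IsOpen U) (hh : KOn h U) (hz : z ∈ U) (A : Mat r) (a : ι → V r) :
    (tg (h z) fun k l => pr (h z) A a fun j => ∑ m, (-dRb (gam h l) k z) j m • a m) =
      trace (gr A a * (h z)⁻¹ * ric h z * (h z)⁻¹) := by
  have e : ric h z = tg (h z) fun k l => (Matrix.of fun i j => curv h z i j l k)ᴴ := by
    ext q j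
    simp only [tg, Matrix.sum_apply, Matrix.smul_apply, smul_eq_mul, conjTranspose_apply, of_apply,
      AY.curvS'.ric_eq ι h U hU hh z hz]
    refine Finset.sum_congr rfl fun k _ => Finset.sum_congr rfl fun l _ => ?_
    rw [(AY.curvS'.sym ι h U hU hh z hz j q l k).2.2, (AY.curvS'.sym ι h U hU hh z hz q j k l).1,
      (AY.curvS'.sym ι h U hU hh z hz k j q l).2.1]
  simp only [pr_eq, mx_right, dRb_eq,
    AY.curvS'.dbar_gam ι h U hU hh.1.1 (fun w hw => (hh.2 w hw).det_pos.ne') z hz, Matrix.neg_mul,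
    neg_neg, conjTranspose_mul, (hh.2 z hz).1.inv.eq, e]
  simp only [tg, Matrix.mul_sum, Matrix.sum_mul, trace_sum, Matrix.mul_smul, Matrix.smul_mul,
    trace_smul, Matrix.mul_assoc]
  rfl

end RBoL

open RBoL in
theorem boL : BoL := by
  intro ι r _ _ _ _ h U H ψ z hU hh hz hH hψ
  have L := (lc_ev hH).self_of_nhds
  have s : SmR h z := hh.1.1 z hz
  have d0 := (hh.2 z hz).det_pos.ne'
  have g := (hh.2 z hz).1
  have f0 := fun i => (hψ i).df
  have f1 := fun k i => (sm_n1 s d0 hH.1 L.det_ne hψ k i).df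
  have f2 := fun k i => (sm_n2 hH.1 L.det_ne hψ k i).df
  constructor
  · have e0 : (fun w => (trm (h w) (gr (H w) (ψ w)) : ℂ)) =ᶠ[𝓝 z]
        fun w => pr (h w) (H w) (ψ w) (ψ w) := by
      filter_upwards [hU.mem_nhds hz, L.2] with w a b using pr_self (hh.2 w a).1 b.1.1 _
    have e1 : ∀ l, dzb (fun w => pr (h w) (H w) (ψ w) (ψ w)) l =ᶠ[𝓝 z] fun w =>
        pr (h w) (H w) (n2 H ψ w l) (ψ w) + pr (h w) (H w) (ψ w) (n1 h H ψ w l) := fun l => by
      filter_upwards [hU.mem_nhds hz, lc_ev hH, eventually_all.2 fun i => (hψ i).ev] with w a b c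
        using dzb_pr hU hh a b c c l
    have e2 : ∀ k l, levi (fun w => pr (h w) (H w) (ψ w) (ψ w)) z k l =
        pr (h z) (H z) (n1 h H ψ z k) (n1 h H ψ z l) + pr (h z) (H z) (n2 H ψ z l) (n2 H ψ z k) +
        (pr (h z) (H z) (n1 h H (fun w => n2 H ψ w l) z k) (ψ z) +
          star (pr (h z) (H z) (n1 h H (fun w => n2 H ψ w k) z l) (ψ z))) +
        pr (h z) (H z) (ψ z) (fun j => ∑ m, (-dRb (gam h l) k z) j m • ψ z m) +
        pr (h z) (H z) (fun i => (th H z l).map star *ᵥ ψ z i)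
          (fun i => (th H z k).map star *ᵥ ψ z i) -
        pr (h z) (H z) (fun i => th H z k *ᵥ ψ z i) (fun i => th H z l *ᵥ ψ z i) := fun k l => by
      rw [levi, of_apply, dz_congr (e1 l), dz_add (df_pr s d0 L (f2 l) f0) (df_pr s d0 L f0 (f1 l)),
        dz_pr s d0 L (f2 l) f0, dz_pr s d0 L f0 (f1 l), funext (comm s d0 hH hψ k l), pr_add, pr_add,
        pr_sub, pr_star g L.pos.1]
      simp only [pr, L.ipV_th, L.ipV_thb]
      ring
    rw [lapL, levi_congr e0, ← tg_trace]
    simp only [e2, tg_add, tg_sub, crv hU hh hz]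
    rw [← tg_star g fun k l => pr (h z) (H z) (n1 h H (fun w => n2 H ψ w l) z k) (ψ z)]
    simp only [add_re, sub_re, star_def, conj_re, two_mul]
    rfl
  · have e0 : ∀ l k, ∀ᶠ w in 𝓝 z, ((h w).det.re : ℂ) * (h w)⁻¹ l k = (h w).adjugate l k := by
      intro l k
      filter_upwards [hU.mem_nhds hz] with w a
      have p := (hh.2 w a).det_pos
      rw [conj_eq_iff_re.1 (conj_eq_iff_im.2 (Complex.pos_iff.1 p).2.symm), Matrix.inv_def,
        Ring.inverse_eq_inv', Matrix.smul_apply, smul_eq_mul, mul_inv_cancel_left₀ p.ne']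
    have d1 : ∀ l k, DifferentiableAt ℝ (fun w => (h w).adjugate l k) z := fun l k => by
      refine DifferentiableAt.congr_of_eventuallyEq
        ((sm_df s.det).fun_mul ((s.inv d0).df l k)) ?_
      filter_upwards [s.det_ev d0] with w a
      rw [Matrix.inv_def, Ring.inverse_eq_inv', Matrix.smul_apply, smul_eq_mul,
        mul_inv_cancel_left₀ a]
    have e1 : ∀ k, dz (fun w => ((h w).det.re : ℂ) * ∑ l, (h w)⁻¹ l k *
        tg (h w) fun i j => ipV (H w) (n2 H ψ w l i) (ψ w j)) k z =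
        ∑ l, (dz (fun w => (h w).adjugate l k) k z * pr (h z) (H z) (n2 H ψ z l) (ψ z) +
          ((h z).det.re : ℂ) * ((h z)⁻¹ l k *
            (pr (h z) (H z) (n1 h H (fun w => n2 H ψ w l) z k) (ψ z) +
              pr (h z) (H z) (n2 H ψ z l) (n2 H ψ z k)))) := fun k => by
      rw [dz_congr (g := fun w => ∑ l, (h w).adjugate l k * pr (h w) (H w) (n2 H ψ w l) (ψ w))
        ((eventually_all.2 fun l => e0 l k).mono fun w a => by
          simp only [Finset.mul_sum, ← a, mul_assoc]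
          rfl), dz_sum _ fun l _ => (d1 l k).fun_mul (df_pr s d0 L (f2 l) f0)]
      refine Finset.sum_congr rfl fun l _ => ?_
      rw [dz_mul (d1 l k) (df_pr s d0 L (f2 l) f0), dz_pr s d0 L (f2 l) f0,
        ← (e0 l k).self_of_nhds, mul_assoc]
    simp only [e1, Finset.sum_add_distrib]
    rw [Finset.sum_comm, Finset.sum_eq_zero fun l _ => by
      rw [← Finset.sum_mul, AY.curvS'.adj ι h U hU hh.1 z hz, zero_mul], zero_add,
      q2_eq g L.pos.1, cr, ← tg_add]
    simp only [← Finset.mul_sum]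
    rfl

end Pool.Agent.Lib.MP_813db1_ag.VH
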