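import Pool.Agent.Lib.MP_813db1_ag.VH.St7
import Pool.Agent.Lib.MP_813db1_ag.VH.Dual

/-! The differential of a map and the Higgs field as forms; the endomorphism of a form; ranks. -/

namespace Pool.Agent.Lib.MP_813db1_ag.VH

open Pool.Agent.Lib.MP_813db1_ag.HS Pool.Agent.Lib.MP_813db1_ag.AS F12
open Complex Matrix Filter Topology Set
open scoped ContDiff ComplexOrder Kronecker

set_option linter.unusedSectionVars false

variable {ι X Y G : Type} [Fintype ι] [DecidableEq ι] [TopologicalSpace X] [TopologicalSpace Y]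
  [Group G] [MulAction G Y] {M : Atl ι X} {p : Y → X}

namespace REta

variable {r : Type} [Fintype r] [DecidableEq r]

/-- a form from an expression on sheets. -/
theorem form (hq : IsQuotientCoveringMap p G) (D : Dt M p G r) (ζ : X → Mat ι)
    (B : (V ι → Y) → V ι → ι → V r) (h1 : ∀ s s' z, s =ᶠ[𝓝 z] s' → B s z = B s' z)
    (h2 : Loc M p fun _ z s => ∀ (g : G) k, B (fun w => g • s w) z k = D.ρ g *ᵥ B s z k)
    (h3 : Loc M p fun _ z s => ∀ k, SmV (fun w => B s w k) z)
    (h4 : ∀ e z s e' z' s', Two M p e z s e' z' s' → ∀ k,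
      B s z k = ∑ l, tj e e' (e.symm z) l k • B s' z' l)
    (h5 : Loc M p fun e z s => M.repF ζ e z = gr (D.H (s z)) (B s z)) :
    ∃ a, D.F10 a ζ ∧ Loc M p fun e z s => (fun w => a e (s w)) =ᶠ[𝓝 z] B s := by
  classical
  let a : Ch ι X → Y → ι → V r := fun e y =>
    if e ∈ M.A then B (sh (lh hq) y e) (e (p y)) else 0
  have k : Loc M p fun e z s => a e (s z) = B s z := fun e he z hz s hs => by
    simp only [a, if_pos he]
    rw [sec_pt hs, e.right_inv hz, h1 _ _ _ (hs.eq (lh hq) hz)]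
  have k' : Loc M p fun e z s => (fun w => a e (s w)) =ᶠ[𝓝 z] B s := fun e he z hz s hs =>
    k.ev (lh hq) he hz hs
  refine ⟨a, ⟨fun e he z hz s hs i => (h3 e he z hz s hs i).congr
    ((k' e he z hz s hs).mono fun w hw => congrFun hw i), fun e z s e' z' s' t i => ?_,
    fun e g y hy i => ?_, fun e he z hz s hs => ?_⟩, k'⟩
  · rw [k _ t.he _ t.hz _ t.hs, k _ t.he' _ t.hz' _ t.hs', h4 _ _ _ _ _ _ t]
  · by_cases he : e ∈ M.A
    · have q := sh_self (lh hq) hy
      have q1 := k e he _ (e.map_source hy) _ q.1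
      have q2 := k e he _ (e.map_source hy) _ (q.1.smul hq g)
      simp only [q.2] at q1 q2
      rw [q1, q2, h2 e he _ (e.map_source hy) _ q.1]
    · simp [a, he]
  · exact (h5 e he z hz s hs).trans (congrArg _ (k e he z hz s hs).symm)

theorem kr_vec (A B C : Mat r) : (A ⊗ₖ B) *ᵥ vec C = vec (A * C * Bᵀ) := by
  funext q
  simp only [mulVec, dotProduct, vec, Fintype.sum_prod_type, kroneckerMap_apply, mul_apply,
    transpose_apply, Finset.sum_mul]
  rw [Finset.sum_comm]
  exact Finset.sum_congr rfl fun _ _ => Finset.sum_congr rfl fun _ _ => by ring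

theorem vec_dot (A B : Mat r) : vec A ⬝ᵥ vec B = trace (A * Bᵀ) := by
  simp only [dotProduct, vec, Fintype.sum_prod_type, trace, diag_apply, mul_apply, transpose_apply]

theorem ad_vec (A C : Mat r) :
    (A ⊗ₖ (1 : Mat r) + (1 : Mat r) ⊗ₖ (-Aᵀ)) *ᵥ vec C = vec (A * C - C * A) := by
  rw [add_mulVec, kr_vec, kr_vec, transpose_one, Matrix.mul_one, Matrix.one_mul, transpose_neg,
    transpose_transpose, Matrix.mul_neg, sub_eq_add_neg]
  rfl

/-- the matrix with columns `a i`. -/
def cm (a : ι → V r) : Matrix r ι ℂ := Matrix.of fun q i => a i q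

theorem ou_eq (h : Mat ι) (H : Mat r) (a b : ι → V r) :
    ou h H a b = cm a * (h⁻¹)ᵀ * (cm b)ᴴ * H := by
  rw [ou, tg]
  simp only [← Matrix.smul_mul, ← Matrix.sum_mul]
  congr 1
  ext q q'
  simp only [Matrix.sum_apply, Matrix.smul_apply, vecMulVec_apply, mul_apply, cm, of_apply,
    transpose_apply, conjTranspose_apply, Finset.sum_mul, smul_eq_mul, Pi.star_apply]
  rw [Finset.sum_comm]
  exact Finset.sum_congr rfl fun _ _ => Finset.sum_congr rfl fun _ _ => by ring

theorem gr_eq (H : Mat r) (a : ι → V r) : gr H a = (cm a)ᵀ * H * (cm a).map star := by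
  ext i j
  simp only [gr, ipV, of_apply, mul_apply, cm, transpose_apply, map_apply, Finset.sum_mul]
  rw [Finset.sum_comm]
  exact Finset.sum_congr rfl fun _ _ => Finset.sum_congr rfl fun _ _ => by ring

theorem cm_mul (A : Mat r) (a : ι → V r) : cm (fun k => A *ᵥ a k) = A * cm a := rfl

theorem cm_sum (a : ι → V r) (T : Mat ι) : cm (fun k => ∑ l, T l k • a l) = cm a * T := by
  ext q k
  simp only [cm, of_apply, mul_apply, Finset.sum_apply, Pi.smul_apply, smul_eq_mul, mul_comm]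

theorem cm_n1 (h : V ι → Mat ι) (H : V ι → Mat r) (ψ : V ι → ι → V r) (z : V ι) (k : ι) :
    cm (n1 h H ψ z k) = dR (fun w => cm (ψ w)) k z + (1 / 2 : ℂ) • (ca H k z * cm (ψ z)) -
      cm (ψ z) * (gam h k z)ᵀ := by
  rw [← cm_sum]
  rfl

theorem cm_n2 (H : V ι → Mat r) (ψ : V ι → ι → V r) (z : V ι) (k : ι) :
    cm (n2 H ψ z k) = dRb (fun w => cm (ψ w)) k z + (1 / 2 : ℂ) • (cb H k z * cm (ψ z)) := rfl

theorem rank_idem {P : Mat r} (h : P * P = P) : (P.rank : ℂ) = trace P := by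
  have e : IsIdempotentElem (toLin' P) := by
    rw [IsIdempotentElem, Module.End.mul_eq_comp, ← toLin'_mul, h]
  rw [← trace_toLin'_eq, (LinearMap.IsIdempotentElem.isProj_range _ e).trace]
  rfl

end REta

open REta

theorem etaS (hq : IsQuotientCoveringMap p G) : EtaS M p G := by
  intro r _ _ D c x ξ hx hξ
  obtain ⟨a, h1, h2⟩ := form hq D ξ (fun s z k => dV (x ∘ s) k z)
    (fun s s' z h => funext fun k => dV_congr (h.fun_comp x) k)
    (fun e he z hz s hs g k => hx.dV_smul (hx.1.smV he hz hs).df g k)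
    (fun e he z hz s hs k => (hx.1.smV he hz hs).dV k)
    (fun e z s e' z' s' t k => t.dV (lh hq) (hx.1.smV t.he' t.hz' t.hs').df k) hξ
  refine ⟨a, h1, fun e he z hz s hs k => congrFun (h2 e he z hz s hs).eq_of_nhds k,
    fun hr hp e he z hz s hs k i => ?_⟩
  have k0 : a e (s z) = fun k => dV (x ∘ s) k z := (h2 e he z hz s hs).eq_of_nhds
  have k1 : ∀ i, (fun w => a e (s w) i) =ᶠ[𝓝 z] dV (x ∘ s) i := fun i =>
    (h2 e he z hz s hs).mono fun w hw => congrFun hw i
  have sm := hx.1.smV he hz hs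
  obtain ⟨p1, p2, -⟩ := hp e he z hz s hs
  refine ⟨?_, ?_, ?_⟩
  · have q := p1 i k
    rw [px, dV_dVb_comm sm, dVb_real (x := x ∘ s) (Eventually.of_forall fun w => hr _) k] at q
    simp only [n2, th, dVb_congr (k1 i), k0, smul_mulVec]
    linear_combination (norm := module) (1 / 2 : ℂ) • q
  · simp only [th, k0, smul_mulVec, p2 k i]
  · rw [dV_congr (k1 i), dV_congr (k1 k), dV_dV_comm sm]

theorem enS (hq : IsQuotientCoveringMap p G) : EnS M p G := by
  intro r _ _ D τ hP hτ
  obtain ⟨D', a1, a2, a3, -, a4⟩ := dualS r D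
  obtain ⟨E, b1, b2, b3, b4⟩ := tenS r r D D'
  have rho : ∀ g A, E.ρ g *ᵥ vec A = vec (D.ρ g * A * D.ρ g⁻¹) := fun g A => by
    rw [b1, a1, kr_vec, transpose_transpose]
  have ip : ∀ y A B, ipV (E.H y) (vec A) (vec B) = ipE (D.H y) A B := fun y A B => by
    rw [ipV_eq, b2, a2, show star (vec B) = vec (B.map star) from rfl, kr_vec, vec_dot,
      transpose_mul, transpose_mul, transpose_transpose, D.sym, ipE]
    simp only [Matrix.mul_assoc]
    rfl
  have ad : Loc M p fun _ z s => ∀ k A,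
      ca (E.H ∘ s) k z *ᵥ vec A = vec (ca (D.H ∘ s) k z * A - A * ca (D.H ∘ s) k z) ∧
      cb (E.H ∘ s) k z *ᵥ vec A = vec (cb (D.H ∘ s) k z * A - A * cb (D.H ∘ s) k z) :=
    fun e he z hz s hs k A => by
      rw [(b4 e he z hz s hs k).1, (b4 e he z hz s hs k).2, (a4 e he z hz s hs k).1,
        (a4 e he z hz s hs k).2]
      exact ⟨ad_vec _ _, ad_vec _ _⟩
  have sm : Loc M p fun _ z s => ∀ k, SmR (ca (D.H ∘ s) k) z := fun e he z hz s hs k =>
    (D.sm e he z hz s hs).ca (D.det_ne _) k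
  obtain ⟨a, h1, h2⟩ := form hq E τ (fun s z k => vec (th (D.H ∘ s) z k))
    (fun s s' z h => funext fun k => by rw [th, th, ca_congr (h.fun_comp D.H)])
    (fun e he z hz s hs g k => by
      rw [rho, th, th, Dt.ca_smul (D.sm e he z hz s hs).df, Matrix.mul_smul, Matrix.smul_mul])
    (fun e he z hz s hs k q => ((sm e he z hz s hs k).csmul _) q.1 q.2)
    (fun e z s e' z' s' t k => by
      funext q
      simp only [th, t.ca (lh hq), vec, Matrix.sum_apply, Finset.sum_apply,
        Matrix.smul_apply, Pi.smul_apply, smul_eq_mul, Finset.mul_sum]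
      exact Finset.sum_congr rfl fun _ _ => by ring)
    (fun e he z hz s hs => (hτ e he z hz s hs).trans (Matrix.ext fun i j => by
      have e1 : (ca (D.H ∘ s) j z)ᴴ = (cb (D.H ∘ s) j z)ᵀ := by
        rw [conjTranspose, transpose_map, Dt.ca_conj]
      simp only [tauL, gr, of_apply, ip, ipE, th, conjTranspose_smul, Matrix.smul_mul,
        Matrix.mul_smul, Matrix.mul_assoc, e1, Dt.cb_sym, trace_smul, smul_eq_mul,
        nonsing_inv_mul_cancel_left _ _ (D.det_ne _).isUnit, star_neg, star_div₀, star_one,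
        star_ofNat]
      ring))
  have k0 : Loc M p fun e z s => a e (s z) = fun k => vec (th (D.H ∘ s) z k) :=
    fun e he z hz s hs => (h2 e he z hz s hs).eq_of_nhds
  have k1 : Loc M p fun e z s => ∀ i,
      (fun w => a e (s w) i) =ᶠ[𝓝 z] fun w => vec ((-(1 / 2) : ℂ) • ca (D.H ∘ s) i w) :=
    fun e he z hz s hs i => (h2 e he z hz s hs).mono fun w hw => congrFun hw i
  refine ⟨E, a, b3 hP (a3 hP), h1, rho, ip, ad, fun e he z hz s hs k => congrFun (k0 e he z hz s hs) k,
    fun e he z hz s hs k i => ?_, fun e he z hz s hs k i => ?_, fun e he z hz s hs k i => ?_⟩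
  · have q := (hP e he z hz s hs).1 i k
    rw [ph_eq (D.sm e he z hz s hs) (D.det_ne _)] at q
    have e1 : dRb (fun w => (-(1 / 2) : ℂ) • ca (D.H ∘ s) i w) k z + (1 / 2 : ℂ) •
        (cb (D.H ∘ s) k z * th (D.H ∘ s) z i - th (D.H ∘ s) z i * cb (D.H ∘ s) k z) = 0 := by
      rw [dRb_csmul _ (sm e he z hz s hs i).df, th, Matrix.mul_smul, Matrix.smul_mul]
      linear_combination (norm := module) (-(1 / 4) : ℂ) • q
    simp only [n2, dVb_congr (k1 e he z hz s hs i), k0 e he z hz s hs, (ad e he z hz s hs k _).2]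
    exact congrArg vec e1
  · simp only [k0 e he z hz s hs, (ad e he z hz s hs k _).1, th, Matrix.mul_smul, Matrix.smul_mul,
      (hP e he z hz s hs).2 k i, sub_self]
    rfl
  · have e1 : dR (fun w => (-(1 / 2) : ℂ) • ca (D.H ∘ s) i w) k z =
        dR (fun w => (-(1 / 2) : ℂ) • ca (D.H ∘ s) k w) i z := by
      rw [dR_csmul _ (sm e he z hz s hs i).df, dR_csmul _ (sm e he z hz s hs k).df,
        dR_ca (D.sm e he z hz s hs) (D.det_ne _), dR_ca (D.sm e he z hz s hs) (D.det_ne _),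
        dR_dR_comm (D.sm e he z hz s hs), (hP e he z hz s hs).2 k i]
    rw [dV_congr (k1 e he z hz s hs i), dV_congr (k1 e he z hz s hs k)]
    exact congrArg vec e1

theorem mmS (hq : IsQuotientCoveringMap p G) : MmS M p G := by
  intro r _ _ D a ζ h ha hh
  have A := AY.repA' ι X M
  have sa : Loc M p fun e z s => SmR (fun w => cm (a e (s w))) z := fun e he z hz s hs q i =>
    ha.sm e he z hz s hs i q
  have sh' : ∀ e ∈ M.A, ∀ z ∈ e.target, SmR (M.repF h e) z ∧ (M.repF h e z).det ≠ 0 :=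
    fun e he z hz => ⟨(hh e he).1.1 z hz, ((hh e he).2 z hz).det_pos.ne'⟩
  have k0 : Loc M p fun e z s =>
      D.mM h a (s z) = ou (M.repF h e z) (D.H (s z)) (a e (s z)) (a e (s z)) :=
    fun e he z hz s hs => by
      have q := sh_self (lh hq) (M.mem (p (s z)))
      have t : Two M p e z s _ _ _ :=
        ⟨he, hz, hs, M.ch_mem _, (M.ch _).map_source (M.mem _), q.1, q.2.symm⟩
      have e1 := congrArg cm (funext (ha.tr _ _ _ _ _ _ t))
      rw [cm_sum, q.2] at e1
      have u := t.det_ne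
      beta_reduce
      rw [t.repF h, A.repF_self, Dt.mM, ou_eq, ou_eq (pull _ _), e1, RepB.inv_pull]
      generalize tj e (M.ch (p (s z))) (e.symm z) = T at u
      have u2 : IsUnit (T.map star)ᵀ.det := by
        rw [det_transpose]
        exact RepB.unit_bar u
      rw [conjTranspose_mul, transpose_mul, transpose_mul, transpose_nonsing_inv Tᵀ,
        transpose_nonsing_inv (T.map star), transpose_transpose,
        show Tᴴ = (T.map star)ᵀ from rfl]
      simp only [Matrix.mul_assoc]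
      rw [mul_nonsing_inv_cancel_left _ _ u.isUnit, nonsing_inv_mul_cancel_left _ _ u2]
  have k1 : Loc M p fun e z s => D.mM h a ∘ s =ᶠ[𝓝 z] fun w =>
      cm (a e (s w)) * ((M.repF h e w)⁻¹)ᵀ * (cm (a e (s w)))ᴴ * (D.H ∘ s) w :=
    fun e he z hz s hs => (k0.ev (lh hq) he hz hs).mono fun w hw => hw.trans (ou_eq _ _ _ _)
  refine ⟨smF_of hq ha.gr fun e he z hz s hs => ?_, ⟨fun e he z hz s hs => ?_, fun g y => ?_,
    fun y => ?_⟩, fun e he z hz s hs => ⟨k0 e he z hz s hs, fun k => ?_⟩⟩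
  · simp only [gr_eq]
    exact ((sa e he z hz s hs).tr.mul (D.sm e he z hz s hs)).mul (sa e he z hz s hs).star
  · exact ((((sa e he z hz s hs).mul ((sh' e he z hz).1.inv (sh' e he z hz).2).tr).mul
      (sa e he z hz s hs).conjT).mul (D.sm e he z hz s hs)).congr (k1 e he z hz s hs)
  · have e1 : (D.ρ g)ᴴ = (D.ρ g)ᵀ := by rw [conjTranspose, transpose_map, D.reR]
    rw [Dt.mM, Dt.mM, hq.map_smul, funext (ha.eqv _ g y (M.mem _)), ou_eq, ou_eq, cm_mul, D.eqv,
      conjTranspose_mul, e1]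
    simp only [Matrix.mul_assoc]
    rw [← Matrix.mul_assoc (D.ρ g)ᵀ, ← transpose_mul, D.inv_mul, transpose_one, Matrix.one_mul]
  · have e1 : ((h (p y))⁻¹)ᵀᴴ = ((h (p y))⁻¹)ᵀ :=
      (((A.isK_iff h).1 hh).2 _).inv.isHermitian.transpose.eq
    simp only [Dt.mM, ou_eq, conjTranspose_mul, conjTranspose_conjTranspose, e1,
      (D.pos y).isHermitian.eq, Matrix.mul_assoc]
  · have s1 := (sa e he z hz s hs).df
    have s2 := ((sh' e he z hz).1.inv (sh' e he z hz).2).df
    have e1 : (cb (D.H ∘ s) k z)ᴴ = (ca (D.H ∘ s) k z)ᵀ := by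
      rw [conjTranspose, transpose_map, Dt.cb_conj]
    rw [nF, dR_congr (k1 e he z hz s hs), (k1 e he z hz s hs).eq_of_nhds,
      dR_mul ((s1.mul s2.tr).mul s1.conjT) (D.sm e he z hz s hs).df, dR_mul (s1.mul s2.tr) s1.conjT,
      dR_mul s1 s2.tr, dR_tr, dR_inv (sh' e he z hz).1 (sh' e he z hz).2, dR_conjT,
      ← mul_ca (H := D.H ∘ s) (D.det_ne _), ou_eq, ou_eq, cm_n1, cm_n2, gam, ← dR_eq]
    simp only [conjTranspose_add, conjTranspose_smul, conjTranspose_mul, e1, transpose_neg,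
      transpose_mul, Matrix.add_mul, Matrix.sub_mul, Matrix.mul_add, Matrix.smul_mul,
      Matrix.mul_smul, Matrix.mul_neg, Matrix.neg_mul, Matrix.mul_assoc, Function.comp_apply,
      Dt.ca_sym, star_div₀, star_one, star_ofNat]
    module

theorem rkS (hq : IsQuotientCoveringMap p G) : RkS M p G := by
  intro m D Q x ξ hQ hξ
  have t0 : ∀ y, trace (D.J Q y) = 0 := fun y => by
    have e : trace (D.J Q y) = -trace (D.J Q y) := by
      conv_lhs => rw [← trace_transpose, Dt.J, transpose_mul, hQ.alt, transpose_nonsing_inv, D.sym,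
        Matrix.neg_mul, trace_neg, trace_mul_comm]
      rfl
    linear_combination (1 / 2 : ℂ) * e
  refine ⟨fun b => ?_, t0⟩
  obtain ⟨s, -, h1, h2⟩ := (Loc.and hξ hQ.cr).base hq b
  rw [(AY.repA' ι X M).repF_self] at h1
  have h3 := hQ.sq (s (M.ch b b))
  have h4 := t0 (s (M.ch b b))
  generalize D.J Q (s (M.ch b b)) = J at h2 h3 h4
  have e1 : ξ b = gr (D.H (s (M.ch b b))) fun k => dV (x ∘ s) k (M.ch b b) := h1
  generalize hη : (fun k => dV (x ∘ s) k (M.ch b b)) = η at e1
  replace h2 : ∀ k, J *ᵥ η k = I • η k := hη ▸ h2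
  have II : (I * I : ℂ) = -1 := I_mul_I
  have p1 : ((1 / 2 : ℂ) • (1 - I • J)) * ((1 / 2 : ℂ) • (1 - I • J)) =
      (1 / 2 : ℂ) • (1 - I • J) := by
    simp only [Matrix.smul_mul, Matrix.mul_smul, Matrix.sub_mul, Matrix.mul_sub, Matrix.one_mul,
      Matrix.mul_one, h3, smul_sub, smul_smul, smul_neg]
    rw [show (1 / 2 : ℂ) * I * (1 / 2 * I) = -(1 / 4) by linear_combination (1 / 4 : ℂ) * II]
    module
  have p2 : cm η = ((1 / 2 : ℂ) • (1 - I • J)) * cm η := by
    rw [← cm_mul]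
    refine congrArg cm (funext fun k => ?_)
    rw [smul_mulVec, sub_mulVec, one_mulVec, smul_mulVec, h2, smul_smul, II]
    module
  have p3 := rank_idem p1
  rw [trace_smul, trace_sub, trace_smul, h4, trace_one, Fintype.card_fin] at p3
  have p4 : ((1 / 2 : ℂ) • (1 - I • J)).rank = m := by
    refine Nat.cast_injective (R := ℂ) (p3.trans ?_)
    simp
  rw [e1, gr_eq, Matrix.mul_assoc]
  refine (rank_mul_le_left _ _).trans ?_
  rw [rank_transpose, p2]
  exact (rank_mul_le_left _ _).trans p4.le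

end Pool.Agent.Lib.MP_813db1_ag.VH
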