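import Pool.Agent.Lib.MP_813db1_ag.VH.KbA
import Pool.Agent.Lib.MP_bbd4b9_ag.BR.KAll
import Pool.Agent.Lib.MP_bbd4b9_ag.BR.B1

/-! The canonical class plus a closed semipositive form is Kaehler if its volume is positive. -/

namespace Pool.Agent.Lib.MP_813db1_ag.VH

open Pool.Agent.Lib.MP_813db1_ag.HS Pool.Agent.Lib.MP_813db1_ag.AS Pool.Agent.Lib.MP_813db1_ag.AN
open Pool.Agent.Lib.MP_bbd4b9_ag.BR Pool.Agent.Lib.MP_813db1_ag.SV.PolP
open MeasureTheory Complex Matrix Filter Topology Set Metric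
open scoped ContDiff ComplexOrder

variable {ι X Y : Type} [Fintype ι] [DecidableEq ι] [TopologicalSpace X] [TopologicalSpace Y]

namespace Kb

theorem tw [ChartedSpace (ι → ℂ) X] [MeasurableSpace Y] {MX : Atl ι X} {gX η : X → Mat ι}
    {p : Y → X} {M : Atl ι Y} {g : Y → Mat ι} {ν : Measure Y} {S : Sh M g ν}
    (L : Lk MX gX p S.toSt) (hA : atlas (ι → ℂ) X ⊆ MX.A) (hg : MX.IsK gX) (hη : MX.ClF η)
    (hE : ExF MX (fun x => gX x + η x) p) (c : ℝ) :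
    ∃ ξ, Up L (fun x => -MX.ricF gX x + η x - (c : ℂ) • gX x) ξ ∧ Nonempty (Tw S ξ) := by
  have A := AY.repA' ι X MX
  have B := AY.repB' ι X MX
  have two : (2 : WithTop ℕ∞) ≤ ∞ := WithTop.coe_le_coe.2 le_top
  obtain ⟨a, ha⟩ := primU L hA (up_upF L _) hE
  obtain ⟨ρ, f, h1, h2, h3⟩ := frames (S := S.toSt) ha
    (G := fun b z => MX.repF (fun x => gX x + η x) (L.e b) z) (up_upF L _)
  have rc : ∀ a, ∀ z ∈ ball (0 : V ι) 4, ric (MX.repF gX (L.e a)) z = ric (S.H a) z :=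
    fun a z hz => congrArg Neg.neg (levi_congr ((ev4 hz).mono fun w hw => by
      simp only [L.rep a w hw]))
  have rX : ∀ a, ∀ z ∈ ball (0 : V ι) 4,
      MX.repF (fun x => -MX.ricF gX x + η x - (c : ℂ) • gX x) (L.e a) z =
        MX.repF (fun x => gX x + η x) (L.e a) z - ((1 + c : ℝ) : ℂ) • S.H a z - ric (S.H a) z :=
    fun a z hz => by
    rw [← rc a z hz, ← B.ric_rep gX hg _ (L.mem a) z (tg L hz), ← L.rep a z hz]
    simp only [Atl.repF, pull, Matrix.mul_sub, Matrix.sub_mul, Matrix.mul_add, Matrix.add_mul,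
      Matrix.mul_smul, Matrix.smul_mul, Matrix.mul_neg, Matrix.neg_mul]
    push_cast
    module
  have cL : ∀ a, ∀ z ∈ ball (0 : V ι) 4, ContDiffAt ℝ ∞ (fun w => Real.log (S.H a w).det.re) z :=
    fun a z hz =>
    have h : z ∈ ball (0 : V ι) 5 := ball_subset_ball (by norm_num) hz
    Curv.cd_lg ((S.kon a).1.1 z h) ((S.kon a).2 z h)
  have cξ : MX.ClF fun x => -MX.ricF gX x + η x - (c : ℂ) • gX x := by
    simpa [sub_eq_add_neg] using A.clF_add _ _ (A.clF_add _ _ (A.clF_smul (-1) _ (B.ric_cl gX hg))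
      hη) (A.clF_smul (-c) _ ((A.isK_iff gX).1 hg).1)
  refine ⟨_, up_upF L _, ⟨{
    ρ := fun a z => ρ a z - (1 + c) * S.ρ a z + Real.log (S.H a z).det.re
    f := fun k z => f k z - (1 + c : ℝ) * S.f k z
    cl := up_cl L cξ (up_upF L _)
    ρ_sm := fun a z hz => ((h1 a z hz).1.sub (contDiffAt_const.mul (S.ρ_sm a z hz).1)).add
      (cL a z hz)
    ρ_lv := fun k z hz => ?_
    f_sm := fun k z hz => ⟨(h2 k z hz).1.sub (contDiffAt_const.mul (S.f_sm k z hz).1), ?_⟩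
    f_hol := fun k l y hk hl => ?_ }⟩⟩
  · have a1 := (contDiffAt_ofReal.2 (h1 (S.ty k) z hz).1).of_le two
    have a3 := (contDiffAt_ofReal.2 (S.ρ_sm (S.ty k) z hz).1).of_le two
    have a4 := (contDiffAt_ofReal.2 (cL (S.ty k) z hz)).of_le two
    have a5 : ContDiffAt ℝ 2 (fun w => ((1 + c : ℝ) : ℂ) * S.ρ (S.ty k) w) z :=
      contDiffAt_const.mul a3
    simp only [ofReal_add _ (Real.log _), ofReal_sub, ofReal_mul (1 + c)]
    rw [levi_add (a1.sub a5) a4, levi_sub a1 a5, levi_cmul _ a3, (h1 _ z hz).2, (S.ρ_sm _ z hz).2,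
      up_upF L _ k z hz, rX _ z hz, ric, sub_neg_eq_add]
  · rw [← (h2 k z hz).2, ← (S.f_sm k z hz).2]
    simp only [sub_re, re_ofReal_mul]
    ring
  · refine ((h3 k l y hk hl).sub ((analyticAt_const (v := ((1 + c : ℝ) : ℂ))).mul
      (S.f_hol k l y hk hl))).congr (Eventually.of_forall fun z => ?_)
    simp only [Pi.sub_apply, Pi.mul_apply]
    ring

end Kb

variable [Nonempty ι] [T2Space X] [CompactSpace X] [ConnectedSpace X] [MeasurableSpace X]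
  [BorelSpace X] [ChartedSpace (ι → ℂ) X] [ConnectedSpace Y] {G : Type} [Group G] [MulAction G Y]
  {M : Atl ι X} {g σ : X → Mat ι} {μ : Measure X} {p : Y → X}

/-- the class of `σ - Ric g` is a Kaehler class. -/
theorem kb (hat : atlas (ι → ℂ) X ⊆ M.A) (hp : IsQuotientCoveringMap p G) (hg : M.IsK g)
    (hμ : M.IsVol g μ) (hN : NefA M g) (hσ : M.ClF σ) (pσ : ∀ x, (σ x).PosSemidef)
    (h1 : ExF M g p) (h2 : ExF M (fun x => g x + σ x) p)
    (hv : 0 < ∫ x, rat (fun y => -M.ricF g y + σ y) g x ∂μ) :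
    ∃ u, M.Ck ∞ u ∧ ∀ x, (-M.ricF g x + σ x + M.ddc u x).PosDef := by
  have A := AY.repA' ι X M
  have B := AY.repB' ι X M
  obtain ⟨_, M', g', S, ⟨L⟩⟩ := stS ι X Y G M g p hg hp
  borelize Y
  obtain ⟨b, hb⟩ := Kb.primU L hat (B' := g') (fun k z hz => (S.rep_g k z hz).trans
    (L.rep _ z hz).symm) h1
  obtain ⟨ν, hν⟩ := volY ι Y M' g' S
  obtain ⟨S, rfl⟩ := shS ι Y M' g' ν S b hν hb fun b =>
    AN.resS ι X M g (L.e b) _ hg (L.mem b) (L.tgt b) (L.rep b)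
  obtain ⟨cg, pg⟩ := (A.isK_iff g).1 hg
  have cξ : M.ClF fun x => -M.ricF g x + σ x := by
    simpa using A.clF_add _ _ (A.clF_smul (-1) _ (B.ric_cl g hg)) hσ
  have kc := kcS ι X M g _ μ hg hμ cξ (fun ε hε => by
    obtain ⟨u, u1, u2⟩ := hN ε hε
    exact ⟨u, u1, fun x => by convert (u2 x).add (pσ x) using 1; abel⟩) hv
  have a0 := fun ξ T => kAna ι Y M' g' ξ ν S T
  have tw := Kb.tw L hat hg hσ h2
  obtain ⟨ξ0, -, ⟨T0⟩⟩ := tw 0
  obtain ⟨c, hc, hw⟩ := wtS ι X Y M g _ μ p M' g' ν S L hg hμ cξ (a0 ξ0 T0).1 kc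
  obtain ⟨ξ, hU, ⟨T⟩⟩ := tw c
  obtain ⟨a1, a2, a3, a4⟩ := a0 ξ T
  obtain ⟨u, u1, u2⟩ := poi2S ι X Y M g _ p M' g' ξ ν S L T hg (by
    simpa [sub_eq_add_neg] using A.clF_add _ _ cξ (A.clF_smul (-c) _ cg)) hU a1 a2
    (a4 c hc (hw ξ T hU a3))
  have c0 : M.Ck 2 fun _ => (0 : ℝ) := fun e _ z _ => contDiffAt_const
  refine ⟨fun x => 0 + 1 / 2 * u x, by
    simpa using B.ck_comp ⊤ u (fun t => 1 / 2 * t) u1 fun x => by fun_prop, fun x => ?_⟩
  rw [B.ddc_add _ u c0 (fun e he z hz => (u1 e he z hz).of_le (by norm_cast)), B.ddc_const]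
  have h2 : (0 : ℂ) ≤ ((1 / 2 : ℝ) : ℂ) := zero_le_real.2 (by norm_num)
  have := ((pg x).smul (a := ((c / 2 : ℝ) : ℂ)) (zero_lt_real.2 (by linarith))).add_posSemidef
    (((u2 x).add (pσ x)).smul h2)
  convert this using 1
  push_cast
  module

omit [ConnectedSpace X] [ChartedSpace (ι → ℂ) X] in
/-- the Monge-Ampere equation in a Kaehler class. -/
theorem mge {θ : X → Mat ι} {w : X → ℝ} (hg : M.IsK g) (hθ : M.ClF θ) (hw : M.Ck ∞ w)
    (pd : ∀ x, (θ x + M.ddc w x).PosDef) : ∃ v, M.Ck ∞ v ∧ M.IsK (fun x => θ x + M.ddc v x) ∧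
      (∀ x, rat (fun x => θ x + M.ddc v x) g x = Real.exp (v x)) ∧
      ∀ x, M.ricF (fun x => θ x + M.ddc v x) x = M.ricF g x - M.ddc v x := by
  have A := AY.repA' ι X M
  have B := AY.repB' ι X M
  have hg' : M.IsK fun x => θ x + M.ddc w x :=
    (A.isK_iff _).2 ⟨A.clF_add _ _ hθ (B.ddc_cl w hw), pd⟩
  have rp := rat_pos hg hg'
  have hr := A.ck_rat _ g (fun e he => (hg' e he).1.1) hg
  have hl := B.ck_comp ⊤ _ (fun t => -Real.log t) hr fun x =>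
    (Real.contDiffAt_log.2 (rp x).ne').neg
  obtain ⟨ψ, h1, h2, h3⟩ := aubAll ι X M _ 1 _ hg' one_pos (B.ck_add ⊤ _ _ hw hl).1
  have e : (fun x => θ x + M.ddc (fun x => w x + ψ x) x) =
      fun x => θ x + M.ddc w x + M.ddc ψ x := by
    funext x
    have := B.ddc_add w ψ (Schw.ck_le hw 2) (Schw.ck_le h1 2) 1 x
    simp only [one_mul, ofReal_one, one_smul] at this
    rw [this, add_assoc]
  have e3 : ∀ y, rat (fun x => θ x + M.ddc w x + M.ddc ψ x) g y = Real.exp (w y + ψ y) := by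
    intro y
    have e2 : rat (fun x => θ x + M.ddc w x + M.ddc ψ x) g y =
        rat (fun x => θ x + M.ddc w x + M.ddc ψ x) (fun x => θ x + M.ddc w x) y *
          rat (fun x => θ x + M.ddc w x) g y := by
      unfold rat
      rw [div_mul_div_cancel₀ (mat.det ι _ (pd y)).1.ne']
    rw [e2, h3 y, ← Real.exp_log (rp y), ← Real.exp_add, Real.log_exp]
    congr 1
    ring
  refine ⟨fun x => w x + ψ x, (B.ck_add ⊤ _ _ hw h1).1, by rwa [e], by rwa [e], fun x => ?_⟩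
  rw [e, B.ric_rat _ g h2 hg]
  simp only [e3, Real.log_exp]

/-- the twisted Einstein metric `h` in the class of `σ - Ric g`, with `Ric h = σ - h`. -/
theorem kbE (hat : atlas (ι → ℂ) X ⊆ M.A) (hp : IsQuotientCoveringMap p G) (hg : M.IsK g)
    (hμ : M.IsVol g μ) (hN : NefA M g) (hσ : M.ClF σ) (pσ : ∀ x, (σ x).PosSemidef)
    (hE : ∀ B, M.IsK B → ExF M B p) (hv : 0 < ∫ x, rat (fun y => -M.ricF g y + σ y) g x ∂μ) :
    ∃ (v : X → ℝ) (h : X → Mat ι), M.Ck ∞ v ∧ (∀ x, h x = -M.ricF g x + σ x + M.ddc v x) ∧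
      M.IsK h ∧ (∀ x, rat h g x = Real.exp (v x)) ∧ ∀ x, M.ricF h x = -h x + σ x := by
  have A := AY.repA' ι X M
  obtain ⟨cg, pg⟩ := (A.isK_iff g).1 hg
  obtain ⟨u, u1, u2⟩ := kb hat hp hg hμ hN hσ pσ (hE g hg) (hE _ ((A.isK_iff _).2
    ⟨A.clF_add _ _ cg hσ, fun x => (pg x).add_posSemidef (pσ x)⟩)) hv
  obtain ⟨v, v1, v2, v3, v4⟩ := mge hg (θ := fun x => -M.ricF g x + σ x) (by
    simpa using A.clF_add _ _ (A.clF_smul (-1) _ ((AY.repB' ι X M).ric_cl g hg)) hσ) u1 u2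
  exact ⟨v, _, v1, fun _ => rfl, v2, v3, fun x => by rw [v4]; abel⟩

end Pool.Agent.Lib.MP_813db1_ag.VH
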