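import Pool.Agent.Lib.MP_813db1_ag.VH.St7
import Pool.Agent.Lib.MP_813db1_ag.VH.Kb
import Pool.Agent.Lib.MP_813db1_ag.HS.Int

/-! Rigidity: the last step. -/

namespace Pool.Agent.Lib.MP_813db1_ag.VH

open Pool.Agent.Lib.MP_813db1_ag.HS Pool.Agent.Lib.MP_813db1_ag.AS
open MeasureTheory Complex Matrix Filter Topology Set
open scoped ContDiff ComplexOrder

set_option linter.unusedSectionVars false

namespace RFin

variable {ι r : Type} [Fintype ι] [DecidableEq ι] [Fintype r] [DecidableEq r]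

theorem nE_sa {H A : Mat r} (hH : H.PosDef) (h : H * A = Aᴴ * H) : nE H A = (trace (A * A)).re := by
  rw [nE, ipE, Matrix.mul_assoc, ← h, Matrix.mul_assoc,
    nonsing_inv_mul_cancel_left _ _ hH.det_pos.ne'.isUnit]

theorem two_smul_vec {J : Mat r} {a : V r} (h : J *ᵥ a = I • a) :
    (1 - I • J) *ᵥ a = (2 : ℂ) • a := by
  rw [sub_mulVec, one_mulVec, smul_mulVec, h, smul_smul, I_mul_I]
  module

theorem alg (hO : AlgO) {h : Mat ι} {H Q : Mat r} {a : ι → V r} {m : ℕ} (hh : h.PosDef)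
    (hH : H.PosDef) (re : H.map star = H) (reQ : Q.map star = Q) (alt : Qᵀ = -Q)
    (sq : H⁻¹ * Q * (H⁻¹ * Q) = -1) (tr : trace (H⁻¹ * Q) = 0) (hc : Fintype.card r = 2 * m)
    (cr : ∀ i, (H⁻¹ * Q) *ᵥ a i = I • a i) :
    nE H (ou h H a a - (1 / 2 : ℂ) • (1 - I • (H⁻¹ * Q))) =
      t2 h (gr H a) (gr H a) - 2 * trm h (gr H a) + m := by
  obtain ⟨o1, o2, o3, -, -, o4, -⟩ := hO ι r h H a hh hH re
  have u := hH.det_pos.ne'.isUnit
  set J := H⁻¹ * Q with hJ
  set P : Mat r := (1 / 2 : ℂ) • (1 - I • J) with hP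
  have q1 : Qᴴ = -Q := by rw [conjTranspose, transpose_map, reQ, alt]
  have j1 : H * J = Q := mul_nonsing_inv_cancel_left _ _ u
  have j2 : Jᴴ * H = -Q := by
    rw [hJ, conjTranspose_mul, hH.inv.1.eq, nonsing_inv_mul_cancel_right _ _ u, q1]
  have p1 : H * P = Pᴴ * H := by
    simp only [hP, conjTranspose_smul, conjTranspose_sub, conjTranspose_one, Matrix.mul_smul,
      Matrix.smul_mul, Matrix.mul_sub, Matrix.sub_mul, j1, j2, Matrix.mul_one, Matrix.one_mul]
    simp
  have p2 : P * P = P := by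
    simp only [hP, Matrix.mul_smul, Matrix.smul_mul, Matrix.mul_sub, Matrix.sub_mul, sq,
      Matrix.mul_one, Matrix.one_mul, smul_neg, smul_sub, smul_smul]
    match_scalars <;> ring_nf <;> simp <;> norm_num
  have p3 : trace P = m := by
    simp [hP, tr, hc]
  have p4 : P * ou h H a a = ou h H a a := by
    rw [(o4 P).2.1 a]
    congr 1
    funext i
    rw [hP, smul_mulVec, two_smul_vec (cr i), smul_smul]
    simp
  rw [nE_sa hH (by rw [Matrix.mul_sub, conjTranspose_sub, Matrix.sub_mul, o1, p1])]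
  simp only [Matrix.mul_sub, Matrix.sub_mul, trace_sub, trace_mul_comm (ou h H a a) P, p2, p4, p3,
    o2, o3, sub_re, ofReal_re, natCast_re]
  ring

theorem t2_ric {h : Mat ι} (hh : h.PosDef) (B : Mat ι) :
    t2 h B (-h + B) = t2 h B B - trm h B := by
  simp only [t2, trm, Matrix.mul_add, Matrix.mul_neg, Matrix.add_mul, Matrix.neg_mul, trace_add,
    trace_neg, nonsing_inv_mul_cancel_right _ _ hh.det_pos.ne'.isUnit, add_re, neg_re]
  ring

theorem q1_zero (h : Mat ι) (H : Mat r) : q1 h H (fun _ _ => 0) = 0 := by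
  simp [q1, tg, ipV]

end RFin

variable {ι X Y G : Type} [Fintype ι] [DecidableEq ι] [Nonempty ι] [TopologicalSpace X] [T2Space X]
  [CompactSpace X] [MeasurableSpace X] [BorelSpace X] [TopologicalSpace Y] [Group G] [MulAction G Y]
  {M : Atl ι X} {p : Y → X}

open RFin in
theorem finS (hq : IsQuotientCoveringMap p G) (hN : AlgN) (hO : AlgO) (hT : AlgT) (hB : BoG M p G)
    (hE : EtaS M p G) (_ : MmS M p G) (hR : RkS M p G) : FinS M p G := by
  intro g μ hg hμ hK m E Q c x ξ v hv W hvol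
  have A := AY.repA' ι X M
  have B := AY.repB' ι X M
  have vo := (AY.volS' ι X M g hg).2 μ hμ
  have := vo.fin
  have := vo.pos
  have cR : M.ClF fun y => -M.ricF g y := by simpa using A.clF_smul (-1) _ (B.ric_cl g hg)
  obtain ⟨u, u1, u2⟩ := hK ξ W.cl W.psd (by simpa [vl, hv] using (hvol 1).ge.trans_lt' (by simpa))
  obtain ⟨w, w1, hk, w3, w4⟩ := mge hg (A.clF_add _ _ cR W.cl) u1 u2
  set h : X → Mat ι := fun y => -M.ricF g y + ξ y + M.ddc w y with hh
  have ric : ∀ y, M.ricF h y = -h y + ξ y := fun y => by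
    rw [w4]
    simp only [hh]
    abel
  have pd := ((A.isK_iff h).1 hk).2
  have pe : ∀ e ∈ M.A, ∀ z ∈ e.target, (M.repF h e z).PosDef := fun e he => (hk e he).2
  obtain ⟨a, fa, va, na⟩ := hE _ E c x ξ W.aff W.xi
  replace na := na W.pol.rx W.px
  obtain ⟨N1, N2, T1, T2, c1, -, -, -, -, f1, f2, f3, f4, bo⟩ := hB g μ h hg hμ hk _ E a ξ W.ph fa
  have ka : Loc M p fun e z s => ∀ k i, ca (E.H ∘ s) k z *ᵥ a e (s z) i = 0 :=
    fun e he z hz s hs k i => by
      have := congrArg (· *ᵥ a e (s z) i) (W.hol e he z hz s hs k)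
      simp only [← mulVec_mulVec, zero_mulVec] at this
      rw [va e he z hz s hs] at this ⊢
      rw [two_smul_vec (W.pol.cr e he z hz s hs i), mulVec_smul] at this
      exact (smul_eq_zero.1 this).resolve_left two_ne_zero
  have base : ∀ {φ : X → Prop}, (∀ e ∈ M.A, ∀ z ∈ e.target, ∀ s, F12.Sec p e z s → φ (e.symm z)) →
      ∀ y, φ y := fun {φ} k y => by
    obtain ⟨s, -, hs⟩ := Loc.base (P := fun e z _ => φ (e.symm z)) hq k y
    rwa [(M.ch y).left_inv (M.mem y)] at hs
  have t1 : ∀ y, T1 y = 0 := base fun e he z hz s hs => by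
    rw [f3 e he z hz s hs]
    simp only [th, smul_mulVec, ka e he z hz s hs, smul_zero, q1_zero]
  have t2e : ∀ y, N2 y = T2 y := base fun e he z hz s hs => by
    refine (f2 e he z hz s hs).trans (Eq.trans ?_ ((hT ι _ _ _ (th (E.H ∘ s) z) (a e (s z))
      ⟨pe e he z hz, E.pos (s z), E.reH _, fun k => by
        simp only [th, transpose_smul, Matrix.smul_mul, Matrix.mul_smul,
          Dt.ca_sym]⟩).2.2.2.2.1.trans (f4 e he z hz s hs).symm))
    exact congrArg _ (funext₂ fun k i => (na e he z hz s hs k i).1)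
  have n0 : ∀ y, 0 ≤ N1 y := base fun e he z hz s hs => by
    rw [f1 e he z hz s hs]
    exact ((hN ι _ _ _ (pe e he z hz) (E.pos _)).1 _).1
  let ψ : X → ℝ := fun y => t2 (h y) (ξ y) (ξ y) - 2 * trm (h y) (ξ y) + m
  have fψ : Loc M p fun e z s => ψ (e.symm z) = nE (E.H (s z)) (ou (M.repF h e z) (E.H (s z))
      (a e (s z)) (a e (s z)) - (1 / 2 : ℂ) • (1 - I • E.J Q (s z))) := fun e he z hz s hs => by
    have k1 := A.trm_rep h ξ e he _ (e.map_target hz)
    have k2 := A.trm_rep h (fun y => ξ y * (h y)⁻¹ * ξ y) e he _ (e.map_target hz)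
    rw [e.right_inv hz] at k1 k2
    rw [A.repF_mul ξ h ξ e he z hz] at k2
    refine Eq.trans ?_ (alg hO (m := m) (pe e he z hz) (E.pos _) (E.reH _) W.pol.re W.pol.alt
      (W.pol.sq _) ((hR m E Q x ξ W.pol W.xi).2 _) (by simp) fun i => by
        rw [va e he z hz s hs]
        exact W.pol.cr e he z hz s hs i).symm
    rw [← fa.gr e he z hz s hs, t2, k1, k2]
    rfl
  have p0 : ∀ y, 0 ≤ ψ y := base fun e he z hz s hs => by
    rw [fψ e he z hz s hs]
    exact ((hN ι _ _ _ (pe e he z hz) (E.pos _)).2.1 _).1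
  have sξ : M.SmF ξ := fun e he => (W.cl e he).1
  have ca' : Continuous fun y => trm (h y) (ξ y) := Den.cont A (A.ck_trm h ξ hk sξ)
  have cb' : Continuous fun y => t2 (h y) (ξ y) (ξ y) :=
    Den.cont A (A.ck_trm h (fun y => ξ y * (h y)⁻¹ * ξ y) hk fun e he z hz =>
      SmR.congr ((SmR.mul (sξ e he z hz) (SmR.inv ((hk e he).1.1 z hz)
        (pe e he z hz).det_pos.ne')).mul (sξ e he z hz))
        ((e.open_target.eventually_mem hz).mono fun z' hz' => A.repF_mul ξ h ξ e he z' hz'))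
  have cw : Continuous (rat h g) := Den.cont A (A.ck_rat h g (fun e he => (hk e he).1.1) hg)
  have wp : ∀ y, 0 < rat h g y := fun y => (w3 y).symm ▸ Real.exp_pos _
  have e1 : ∀ (t : ℝ) y, rat (fun y => h y + (t : ℂ) • ξ y) g y =
      (1 + (t : ℂ) • (ξ y * (h y)⁻¹)).det.re * rat h g y := fun t y => by
    rw [rat, rat, IntL.det_add (pd y), mul_div_assoc]
  obtain ⟨n, hn⟩ := (isCompact_range ca').bddAbove
  obtain ⟨i1, i2, -⟩ := IntL.core μ (Polynomial.C v * Polynomial.X ^ m) (ε := 1) (n := |n|)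
    (r := fun _ => 0) (D := fun t y => (1 + (t : ℂ) • (ξ y * (h y)⁻¹)).det.re) one_pos
    (abs_nonneg n) ca' cb' cw c1 continuous_const
    (fun t => by
      simp only [← e1]
      exact Den.cont A (A.ck_rat _ g (fun e he => (A.clF_add _ _ ((A.isK_iff h).1 hk).1
        (A.clF_smul t ξ W.cl) e he).1) hg))
    (fun y => (wp y).le) (fun y => by simpa using (hn ⟨y, rfl⟩).trans (le_abs_self n))
    (fun y => by simp) (fun t ht y => IntL.det_bounds (pd y) (W.psd y) ht)
    (fun t => by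
      have k := invAll ι X M g _ μ w hg hμ (A.clF_add _ _ cR (A.clF_smul (1 + t) ξ W.cl)) w1
      have k3 : (fun y => -M.ricF g y + ((1 + t : ℝ) : ℂ) • ξ y + M.ddc w y) =
          fun y => h y + (t : ℂ) • ξ y := by
        funext y
        rw [hh]
        push_cast
        module
      simp only [← e1]
      rw [← k3, k]
      simpa [vl] using (hvol (1 + t)).symm)
    (by simpa) (by simpa [t1, t2e, ric, t2_ric (pd _)] using bo)
  have z0 : ∫ y, (N1 y + ψ y) * rat h g y ∂μ = 0 := by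
    have : (fun y => (N1 y + ψ y) * rat h g y) = fun y =>
        (N1 y - N2 y + T2 y - T1 y + t2 (h y) (ξ y) (M.ricF h y)) * rat h g y -
          trm (h y) (ξ y) * rat h g y + m * rat h g y := funext fun y => by
      simp only [ψ, t1, t2e, ric, t2_ric (pd _)]
      ring
    have j1 : Integrable (fun y => (N1 y - N2 y + T2 y - T1 y + t2 (h y) (ξ y) (M.ricF h y)) *
        rat h g y) μ := by
      simp only [t1, t2e, ric, t2_ric (pd _), sub_add_cancel]
      exact Den.intg (by fun_prop)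
    have j2 : Integrable (fun y => trm (h y) (ξ y) * rat h g y) μ := Den.intg (by fun_prop)
    have j3 : Integrable (fun y => m * rat h g y) μ := Den.intg (by fun_prop)
    rw [this, integral_add (by exact j1.sub j2) j3, integral_sub j1 j2, bo, integral_const_mul, i1,
      i2]
    simp [Polynomial.derivative_X_pow]
    ring
  have z1 : ∀ y, N1 y + ψ y = 0 := fun y => by
    by_contra k
    exact (Continuous.integral_pos_of_hasCompactSupport_nonneg_nonzero (μ := μ) (x := y)
      (f := fun y => (N1 y + ψ y) * rat h g y) (by fun_prop) (HasCompactSupport.of_compactSpace _)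
      (fun y => mul_nonneg (add_nonneg (n0 y) (p0 y)) (wp y).le) (mul_ne_zero k (wp y).ne')).ne' z0
  refine ⟨h, W.aff, W.pol, W.ph, W.px, W.hol, hk, W.xi, W.cl, ric, fun e he z hz s hs i k => ?_,
    fun e he z hz s hs => ?_⟩
  · have k1 : N1 (e.symm z) = 0 := by linarith [z1 (e.symm z), n0 (e.symm z), p0 (e.symm z)]
    have := ((hN ι _ _ _ (pe e he z hz) (E.pos _)).1 _).2.2.1 ((f1 e he z hz s hs).symm.trans k1) k i
    rw [n1, ka e he z hz s hs, smul_zero, add_zero, sub_eq_zero,
      dV_congr ((va.ev (lh hq) he hz hs).mono fun _ k => k i)] at this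
    simpa only [va e he z hz s hs] using this
  · have k1 : ψ (e.symm z) = 0 := by linarith [z1 (e.symm z), n0 (e.symm z), p0 (e.symm z)]
    have := ((hN ι _ _ _ (pe e he z hz) (E.pos _)).2.1 _).2 ((fψ e he z hz s hs).symm.trans k1)
    rw [sub_eq_zero, ou] at this
    simp only [dVb_real (x := x ∘ s) (Eventually.of_forall fun w => W.pol.rx (s w)),
      ← va e he z hz s hs, this, smul_smul]
    simp

end Pool.Agent.Lib.MP_813db1_ag.VH
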