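import Pool.Agent.Lib.MP_813db1_ag.VH.St7

/-! The second order Stokes formula for a closed form of type `(1,0)`. -/

namespace Pool.Agent.Lib.MP_813db1_ag.VH

open Pool.Agent.Lib.MP_813db1_ag.HS Pool.Agent.Lib.MP_813db1_ag.AS F12
open MeasureTheory Complex Matrix Filter Topology Set
open scoped ContDiff ComplexOrder

set_option linter.unusedSectionVars false

noncomputable section

namespace Hr1A

variable {ι r : Type} [Fintype ι] [DecidableEq ι] [Fintype r] [DecidableEq r]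

section alg

variable {g J : Mat ι} {H : Mat r}

theorem ip_l (c : ι → ℂ) (x : ι → V r) (v : V r) :
    ipV H (∑ k, c k • x k) v = ∑ k, c k * ipV H (x k) v := by
  simp only [ipV_eq, sum_dotProduct, smul_dotProduct, smul_eq_mul]

theorem ip_r (c : ι → ℂ) (x : ι → V r) (v : V r) :
    ipV H v (∑ k, c k • x k) = ∑ k, star (c k) * ipV H v (x k) := by
  simp only [ipV_eq, star_sum, star_smul, mulVec_sum, mulVec_smul, dotProduct_sum, dotProduct_smul,
    smul_eq_mul]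

theorem ip_sub (u u' v : V r) : ipV H (u - u') v = ipV H u v - ipV H u' v := by
  simp only [ipV_eq, sub_dotProduct]

/-- the product of two forms. -/
def P (g : Mat ι) (H : Mat r) (x y : ι → V r) : ℂ := tg g fun i j => ipV H (x i) (y j)

theorem P_pull (hJ : J.det ≠ 0) (x y : ι → V r) :
    P (pull J g) H (fun i => ∑ l, J l i • x l) (fun i => ∑ l, J l i • y l) = P g H x y := by
  rw [P, P, ← tg_pull hJ g]
  simp only [ip_l]
  simp only [ip_r, Finset.mul_sum, smul_eq_mul, mul_assoc]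

theorem P_l (c : ι → ℂ) (x : ι → ι → V r) (y : ι → V r) :
    P g H (fun i => ∑ k, c k • x k i) y = ∑ k, c k * P g H (x k) y := by
  simp only [P, tg, ip_l, Finset.mul_sum, smul_eq_mul]
  symm
  rw [Finset.sum_comm]
  refine Finset.sum_congr rfl fun i _ => ?_
  rw [Finset.sum_comm]
  exact Finset.sum_congr rfl fun j _ => Finset.sum_congr rfl fun k _ => by ring

theorem P_r (c : ι → ℂ) (x : ι → ι → V r) (y : ι → V r) :
    P g H y (fun i => ∑ k, c k • x k i) = ∑ k, star (c k) * P g H y (x k) := by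
  simp only [P, tg, ip_r, Finset.mul_sum, smul_eq_mul]
  symm
  rw [Finset.sum_comm]
  refine Finset.sum_congr rfl fun i _ => ?_
  rw [Finset.sum_comm]
  exact Finset.sum_congr rfl fun j _ => Finset.sum_congr rfl fun k _ => by ring

/-- the trace of a mixed tensor. -/
def tv (g : Mat ι) (N : ι → ι → V r) : V r := tg g fun i k => N k i

/-- the complex form of `q2`. -/
def Q (g : Mat ι) (H : Mat r) (N : ι → ι → V r) : ℂ := tg g fun l k => P g H (N k) (N l)

/-- the form whose dual vector field is integrated. -/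
def om (g : Mat ι) (H : Mat r) (N : ι → ι → V r) (a : ι → V r) (k : ι) : ℂ :=
  P g H (N k) a - ipV H (tv g N) (a k)

/-- the vector density. -/
def wv (g : Mat ι) (η : V ι) : V ι := (g.det.re : ℂ) • (η ᵥ* g⁻¹)

/-- the curvature tensor. -/
def cm (θ : ι → Mat r) (l k : ι) : Mat r := θ l * (θ k).map star - (θ k).map star * θ l

/-- the curvature tensor applied to a form. -/
def cu (θ : ι → Mat r) (a : ι → V r) (l k i : ι) : V r := cm θ l k *ᵥ a i - cm θ i k *ᵥ a l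

theorem fT_eq (θ : ι → Mat r) (a : ι → V r) :
    fT g H θ a = tg g fun l k => P g H (cu θ a l k) a := rfl

variable {N N' : ι → ι → V r} {a a' : ι → V r} {θ θ' : ι → Mat r}

theorem tv_tr (hJ : J.det ≠ 0) (hN : ∀ k i, N k i = ∑ l, J l i • ∑ m, star (J m k) • N' m l) :
    tv (pull J g) N = tv g N' := by
  rw [tv, tv, ← tg_pull hJ g]
  simp only [hN, Finset.smul_sum, smul_smul]

theorem Q_tr (hJ : J.det ≠ 0) (hN : ∀ k i, N k i = ∑ l, J l i • ∑ m, star (J m k) • N' m l) :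
    Q (pull J g) H N = Q g H N' := by
  rw [Q, Q, ← tg_pull hJ g]
  congr 1
  funext l k
  rw [funext (hN k), funext (hN l), P_pull hJ, P_r]
  simp only [P_l, star_star, Finset.mul_sum, smul_eq_mul, mul_assoc]

theorem om_tr (hJ : J.det ≠ 0) (hN : ∀ k i, N k i = ∑ l, J l i • ∑ m, star (J m k) • N' m l)
    (ha : ∀ i, a i = ∑ l, J l i • a' l) :
    om (pull J g) H N a = om g H N' a' ᵥ* J.map star := by
  funext k
  rw [om, tv_tr hJ hN, funext (hN k), ha k, funext ha, P_pull hJ, P_l, ip_r,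
    ← Finset.sum_sub_distrib]
  exact Finset.sum_congr rfl fun m _ => by simp only [om, map_apply]; ring

theorem wv_tr (hJ : J.det ≠ 0) (η : V ι) :
    J *ᵥ wv (pull J g) (η ᵥ* J.map star) = ((‖J.det‖ ^ 2 : ℝ) : ℂ) • wv g η := by
  rw [wv, wv, mulVec_smul, RepB.inv_pull, RepB.det_pull, re_ofReal_mul, ofReal_mul, smul_smul,
    ← vecMul_transpose, vecMul_vecMul, vecMul_vecMul, Matrix.mul_assoc _ (Jᵀ)⁻¹,
    nonsing_inv_mul _ (RepB.unit_tr hJ), Matrix.mul_one,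
    mul_nonsing_inv_cancel_left _ _ (RepB.unit_bar hJ)]

theorem fT_tr (hJ : J.det ≠ 0) (hθ : ∀ k, θ k = ∑ l, J l k • θ' l)
    (ha : ∀ i, a i = ∑ l, J l i • a' l) : fT (pull J g) H θ a = fT g H θ' a' := by
  have h1 : ∀ k, (θ k).map star = ∑ m, star (J m k) • (θ' m).map star := fun k => by
    ext i j
    simp [hθ, Matrix.sum_apply]
  have h2 : ∀ l k, cm θ l k = ∑ n, J n l • ∑ m, star (J m k) • cm θ' n m := fun l k => by
    rw [cm, h1, hθ l]
    simp only [cm, Finset.sum_mul, Finset.mul_sum, Matrix.smul_mul, Matrix.mul_smul, smul_sub,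
      Finset.sum_sub_distrib, Finset.smul_sum]
    rw [Finset.sum_comm]
    simp only [smul_comm (star _ : ℂ)]
  have h3 : ∀ l k, cu θ a l k = fun i => ∑ q, J q i • ∑ n, J n l • ∑ m,
      star (J m k) • cu θ' a' n m q := fun l k => by
    funext i
    rw [cu, h2, h2, ha i, ha l]
    simp only [cu, smul_sub, Finset.sum_sub_distrib, sum_mulVec, mulVec_sum, smul_mulVec,
      mulVec_smul, Finset.smul_sum]
    congr 1
    rw [Finset.sum_comm]
    simp only [smul_comm (J _ l)]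
  rw [fT_eq, fT_eq, ← tg_pull hJ g]
  congr 1
  funext l k
  rw [h3, funext ha, P_pull hJ, P_l]
  simp only [P_l, Finset.mul_sum, smul_eq_mul, mul_assoc]

theorem four (A : Mat ι) (f : ι → ι → ι → ι → ℂ) :
    ∑ l, ∑ k, A k l * ∑ i, ∑ j, A j i * f l k i j =
      ∑ l, ∑ k, A k l * ∑ i, ∑ j, A j i * f i j l k := by
  have e : ∀ f : ι → ι → ι → ι → ℂ, ∑ l, ∑ k, A k l * ∑ i, ∑ j, A j i * f l k i j =
      ∑ u : ι × ι, ∑ v : ι × ι, A u.2 u.1 * A v.2 v.1 * f u.1 u.2 v.1 v.2 := fun f => by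
    simp only [Fintype.sum_prod_type, Finset.mul_sum, mul_assoc]
  rw [e, e, Finset.sum_comm]
  simp only [mul_comm (A _ _) (A _ _)]

theorem ip_tv (hg : g.IsHermitian) (N : ι → ι → V r) :
    ipV H (tv g N) (tv g N) = ∑ l, ∑ k, g⁻¹ k l * ∑ i, ∑ j, g⁻¹ j i * ipV H (N j i) (N l k) := by
  have e : ∀ v, ipV H (tv g N) v = ∑ i, ∑ j, g⁻¹ j i * ipV H (N j i) v := fun v => by
    simp only [tv, tg, ipV_eq, sum_dotProduct, smul_dotProduct, smul_eq_mul]
  simp only [← e]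
  rw [Finset.sum_comm]
  simp only [tv, tg, ipV_eq, star_sum, star_smul, mulVec_sum, mulVec_smul, dotProduct_sum,
    dotProduct_smul, smul_eq_mul, hg.inv.apply]

end alg

section loc

variable {z : V ι} {h : V ι → Mat ι} {U : Set (V ι)} {H : V ι → Mat r} {ψ : V ι → ι → V r}

theorem sm_n2 (hH : SmR H z) (h0 : (H z).det ≠ 0) (hψ : ∀ i, SmV (fun w => ψ w i) z) (k i : ι) :
    SmV (fun w => n2 H ψ w k i) z := ((hψ i).dVb k).add (((hH.cb h0 k).mulVec (hψ i)).csmul _)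

theorem sm_ip (hH : SmR H z) {u v : V ι → V r} (hu : SmV u z) (hv : SmV v z) :
    ContDiffAt ℝ ∞ (fun w => ipV (H w) (u w) (v w)) z := by
  simp only [ipV_eq]
  exact hu.dot (hH.mulVec hv.star)

theorem sm_tg (hh : SmR h z) (h0 : (h z).det ≠ 0) {B : V ι → ι → ι → ℂ}
    (hB : ∀ i j, ContDiffAt ℝ ∞ (fun w => B w i j) z) :
    ContDiffAt ℝ ∞ (fun w => tg (h w) (B w)) z :=
  ContDiffAt.sum fun i _ => ContDiffAt.sum fun j _ => (hh.inv h0 j i).mul (hB i j)

theorem sm_P (hh : SmR h z) (h0 : (h z).det ≠ 0) (hH : SmR H z) {x y : V ι → ι → V r}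
    (hx : ∀ i, SmV (fun w => x w i) z) (hy : ∀ i, SmV (fun w => y w i) z) :
    ContDiffAt ℝ ∞ (fun w => P (h w) (H w) (x w) (y w)) z :=
  sm_tg hh h0 fun i j => sm_ip hH (hx i) (hy j)

theorem sm_tv (hh : SmR h z) (h0 : (h z).det ≠ 0) {N : V ι → ι → ι → V r}
    (hN : ∀ k i, SmV (fun w => N w k i) z) : SmV (fun w => tv (h w) (N w)) z :=
  SmV.sum _ fun i _ => SmV.sum _ fun k _ => (hN k i).smul (hh.inv h0 k i)

theorem sm_om (hh : SmR h z) (h0 : (h z).det ≠ 0) (hH : SmR H z) {N : V ι → ι → ι → V r}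
    (hN : ∀ k i, SmV (fun w => N w k i) z) (hψ : ∀ i, SmV (fun w => ψ w i) z) :
    SmV (fun w => om (h w) (H w) (N w) (ψ w)) z :=
  fun k => (sm_P hh h0 hH (hN k) hψ).sub (sm_ip hH (sm_tv hh h0 hN) (hψ k))

theorem sm_cu (hH : SmR H z) (h0 : (H z).det ≠ 0) (hψ : ∀ i, SmV (fun w => ψ w i) z) (l k i : ι) :
    SmV (fun w => cu (th H w) (ψ w) l k i) z := by
  have h1 : ∀ k, SmR (fun w => th H w k) z := fun k => (hH.ca h0 k).csmul _
  have h2 : ∀ l k, SmR (fun w => cm (th H w) l k) z := fun l k =>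
    ((h1 l).mul (h1 k).star).sub ((h1 k).star.mul (h1 l))
  exact ((h2 l k).mulVec (hψ i)).sub ((h2 i k).mulVec (hψ l))

theorem wv_ev (hU : IsOpen U) (hK : KOn h U) (hz : z ∈ U) (η : V ι → V ι) (l : ι) :
    (fun w => wv (h w) (η w) l) =ᶠ[𝓝 z] fun w => ∑ k, (h w).det * (h w)⁻¹ k l * η w k :=
  (hU.eventually_mem hz).mono fun w hw => by
    simp only [wv, ← (Mat.det' (hK.2 w hw)).2, Pi.smul_apply, vecMul, dotProduct, smul_eq_mul,
      Finset.mul_sum]
    exact Finset.sum_congr rfl fun k _ => by ring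

theorem sm_wv (hU : IsOpen U) (hK : KOn h U) (hz : z ∈ U) {η : V ι → V ι} (hη : SmV η z) :
    SmV (fun w => wv (h w) (η w)) z := fun l =>
  (ContDiffAt.sum fun k _ => ((SmR.det (hK.1.1 z hz)).mul (SmR.inv (hK.1.1 z hz)
    (hK.2 z hz).det_pos.ne' k l)).mul (hη k)).congr_of_eventuallyEq (wv_ev hU hK hz η l)

theorem div0 (hU : IsOpen U) (hK : KOn h U) (hz : z ∈ U) {η : V ι → V ι} (hη : DfV η z) :
    ∑ l, dz (fun w => wv (h w) (η w) l) l z =
      ((h z).det.re : ℂ) * ∑ l, ∑ k, (h z)⁻¹ k l * dz (fun w => η w k) l z := by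
  have h1 : ∀ k l, DifferentiableAt ℝ (fun w => (h w).det * (h w)⁻¹ k l) z := fun k l =>
    sm_df ((SmR.det (hK.1.1 z hz)).mul (SmR.inv (hK.1.1 z hz) (hK.2 z hz).det_pos.ne' k l))
  have h2 : ∀ k, ∑ l, dz (fun w => (h w).det * (h w)⁻¹ k l) l z = 0 := fun k => by
    rw [← AY.curvS'.adj ι h U hU hK.1 z hz k]
    refine Finset.sum_congr rfl fun l _ => dz_congr ((hU.eventually_mem hz).mono fun w hw => ?_) l
    simp only [Matrix.inv_def, Ring.inverse_eq_inv', Matrix.smul_apply, smul_eq_mul]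
    rw [mul_inv_cancel_left₀ (hK.2 w hw).det_pos.ne']
  have h3 : ∀ l, dz (fun w => wv (h w) (η w) l) l z =
      ∑ k, dz (fun w => (h w).det * (h w)⁻¹ k l) l z * η z k +
        (h z).det * ∑ k, (h z)⁻¹ k l * dz (fun w => η w k) l z := fun l => by
    rw [dz_congr (wv_ev hU hK hz η l), dz_sum _ fun k _ => (h1 k l).fun_mul (hη k), Finset.mul_sum,
      ← Finset.sum_add_distrib]
    exact Finset.sum_congr rfl fun k _ => by rw [dz_mul (h1 k l) (hη k), mul_assoc]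
  simp only [h3]
  rw [Finset.sum_add_distrib, Finset.sum_comm, ← Finset.mul_sum, ← (Mat.det' (hK.2 z hz)).2]
  simp only [← Finset.sum_mul, h2, zero_mul, Finset.sum_const_zero, zero_add]

theorem gam_sym (hK : KOn h U) (hz : z ∈ U) (u : ι → ι → ι → ℂ) :
    ∑ l, ∑ k, (h z)⁻¹ k l * ∑ i, ∑ j, dz (fun w => (h w)⁻¹ j i) l z * (u k i j - u j i k) = 0 := by
  have h1 : ∀ k j i, ∑ l, (h z)⁻¹ k l * dz (fun w => (h w)⁻¹ j i) l z =
      -∑ q, (∑ l, ∑ m, (h z)⁻¹ k l * (h z)⁻¹ j m * dz (fun w => h w m q) l z) * (h z)⁻¹ q i :=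
    fun k j i => by
      have e : ∀ l, dz (fun w => (h w)⁻¹ j i) l z =
          -∑ q, (∑ m, (h z)⁻¹ j m * dz (fun w => h w m q) l z) * (h z)⁻¹ q i :=
        fun l => congrFun₂ (dR_inv (hK.1.1 z hz) (hK.2 z hz).det_pos.ne' l) j i
      simp only [e, mul_neg, Finset.sum_neg_distrib, Finset.mul_sum, Finset.sum_mul, mul_assoc]
      rw [Finset.sum_comm]
  have h2 : ∀ k j i, ∑ l, (h z)⁻¹ k l * dz (fun w => (h w)⁻¹ j i) l z =
      ∑ l, (h z)⁻¹ j l * dz (fun w => (h w)⁻¹ k i) l z := fun k j i => by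
    rw [h1, h1]
    congr 1
    refine Finset.sum_congr rfl fun q _ => ?_
    rw [Finset.sum_comm]
    congr 1
    exact Finset.sum_congr rfl fun l _ => Finset.sum_congr rfl fun m _ => by
      rw [hK.1.2.2 z hz l q m]; ring
  have h3 : ∑ l, ∑ k, (h z)⁻¹ k l * ∑ i, ∑ j, dz (fun w => (h w)⁻¹ j i) l z * (u k i j - u j i k) =
      ∑ i, ∑ k, ∑ j, (∑ l, (h z)⁻¹ k l * dz (fun w => (h w)⁻¹ j i) l z) * (u k i j - u j i k) := by
    simp only [Finset.mul_sum, Finset.sum_mul, mul_assoc]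
    rw [Finset.sum_comm]
    symm
    rw [Finset.sum_comm]
    refine Finset.sum_congr rfl fun k _ => ?_
    symm
    rw [Finset.sum_comm]
    exact Finset.sum_congr rfl fun i _ => Finset.sum_comm
  rw [h3]
  refine Finset.sum_eq_zero fun i _ => ?_
  simp only [mul_sub, Finset.sum_sub_distrib]
  rw [Finset.sum_comm, sub_eq_zero]
  exact Finset.sum_congr rfl fun k _ => Finset.sum_congr rfl fun j _ => by rw [h2]

end loc

variable {X Y G : Type} [TopologicalSpace X] [TopologicalSpace Y] [Group G] [MulAction G Y]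
  {M : Atl ι X} {p : Y → X} {D : Dt M p G r} {s : V ι → Y} {z : V ι} {ψ : V ι → ι → V r}

theorem th_star (k : ι) :
    (th (D.H ∘ s) z k).map star = (-(1 / 2) : ℂ) • cb (D.H ∘ s) k z := by
  rw [← Dt.ca_conj]
  ext i j
  simp [th, map_ofNat]

theorem com (hH : SmR (D.H ∘ s) z) (hph : ∀ i j, ph (D.H ∘ s) i j z = 0)
    (hψ : ∀ i, SmV (fun w => ψ w i) z) (l k i : ι) :
    dV (fun w => n2 (D.H ∘ s) ψ w k i) l z + (1 / 2 : ℂ) • ca (D.H ∘ s) l z *ᵥ n2 (D.H ∘ s) ψ z k i =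
      dVb (fun w => dV (fun w => ψ w i) l w + (1 / 2 : ℂ) • ca (D.H ∘ s) l w *ᵥ ψ w i) k z +
      (1 / 2 : ℂ) • cb (D.H ∘ s) k z *ᵥ
        (dV (fun w => ψ w i) l z + (1 / 2 : ℂ) • ca (D.H ∘ s) l z *ᵥ ψ z i) -
      cm (th (D.H ∘ s) z) l k *ᵥ ψ z i := by
  have h0 : ((D.H ∘ s) z).det ≠ 0 := D.det_ne _
  have a1 := (hH.ca h0 l).df
  have a2 := (hH.cb h0 k).df
  have b1 := (hph l k).symm.trans (ph_eq hH h0 l k)
  have b2 := (hph l k).symm.trans (ph_eq' hH h0 l k)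
  have c1 : dRb (ca (D.H ∘ s) l) k z = (1 / 2 : ℂ) • (ca (D.H ∘ s) l z * cb (D.H ∘ s) k z -
      cb (D.H ∘ s) k z * ca (D.H ∘ s) l z) := by
    linear_combination (norm := module) (-(1 / 2) : ℂ) • b1
  have c2 : dR (cb (D.H ∘ s) k) l z = (-(1 / 2) : ℂ) • (ca (D.H ∘ s) l z * cb (D.H ∘ s) k z -
      cb (D.H ∘ s) k z * ca (D.H ∘ s) l z) := by
    linear_combination (norm := module) (-(1 / 2) : ℂ) • b2
  simp only [n2]
  rw [dV_add ((hψ i).dVb k).df ((a2.mulVec (hψ i).df).smul (differentiableAt_const _)),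
    dV_csmul _ (a2.mulVec (hψ i).df), dV_mulVec a2 (hψ i).df,
    dVb_add ((hψ i).dV l).df ((a1.mulVec (hψ i).df).smul (differentiableAt_const _)),
    dVb_csmul _ (a1.mulVec (hψ i).df), dVb_mulVec a1 (hψ i).df, dV_dVb_comm (hψ i), c1, c2, cm,
    th_star]
  simp only [th, Matrix.smul_mul, Matrix.mul_smul, smul_mulVec, sub_mulVec, mulVec_add, mulVec_smul,
    mulVec_mulVec]
  module

theorem loc {h : V ι → Mat ι} {U : Set (V ι)} (hU : IsOpen U) (hK : KOn h U) (hz : z ∈ U)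
    (hH : SmR (D.H ∘ s) z) (hph : ∀ i j, ph (D.H ∘ s) i j z = 0)
    (hψ : ∀ i, SmV (fun w => ψ w i) z)
    (hc : ∀ᶠ w in 𝓝 z, ∀ k i, dV (fun w => ψ w i) k w + (1 / 2 : ℂ) • ca (D.H ∘ s) k w *ᵥ ψ w i =
      dV (fun w => ψ w k) i w + (1 / 2 : ℂ) • ca (D.H ∘ s) i w *ᵥ ψ w k) :
    ∑ l, dz (fun w => wv (h w) (om (h w) (D.H (s w)) (n2 (D.H ∘ s) ψ w) (ψ w)) l) l z =
      ((h z).det.re : ℂ) * (Q (h z) (D.H (s z)) (n2 (D.H ∘ s) ψ z) -
        ipV (D.H (s z)) (tv (h z) (n2 (D.H ∘ s) ψ z)) (tv (h z) (n2 (D.H ∘ s) ψ z)) -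
        fT (h z) (D.H (s z)) (th (D.H ∘ s) z) (ψ z)) := by
  have h0 : (h z).det ≠ 0 := (hK.2 z hz).det_pos.ne'
  have hh : SmR h z := hK.1.1 z hz
  have hN := sm_n2 hH (D.det_ne _) hψ
  refine (div0 hU hK hz (sm_om hh h0 hH hN hψ).df).trans (congrArg _ ?_)
  obtain ⟨u, hu⟩ : ∃ u : ι → ι → ι → V ι → ℂ, ∀ k i j, u k i j =
    fun w => ipV (D.H (s w)) (n2 (D.H ∘ s) ψ w k i) (ψ w j) := ⟨_, fun _ _ _ => rfl⟩
  obtain ⟨E, hE⟩ : ∃ E : ι → ι → ι → V r, ∀ l k i, E l k i = dV (fun w => n2 (D.H ∘ s) ψ w k i) l z +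
    (1 / 2 : ℂ) • ca (D.H ∘ s) l z *ᵥ n2 (D.H ∘ s) ψ z k i := ⟨_, fun _ _ _ => rfl⟩
  have du : ∀ k i j, DifferentiableAt ℝ (u k i j) z := fun k i j =>
    hu k i j ▸ sm_df (sm_ip hH (hN k i) (hψ j))
  have e1 : ∀ k i j l, dz (u k i j) l z = ipV (D.H (s z)) (E l k i) (ψ z j) +
      ipV (D.H (s z)) (n2 (D.H ∘ s) ψ z k i) (n2 (D.H ∘ s) ψ z l j) := fun k i j l => by
    rw [hu, hE]
    exact Dt.dz_ipV hH.df (hN k i).df (hψ j).df l
  have e2 : ∀ k, (fun w => om (h w) ((D.H ∘ s) w) (n2 (D.H ∘ s) ψ w) (ψ w) k) =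
      fun w => ∑ i, ∑ j, (h w)⁻¹ j i * (u k i j w - u j i k w) := fun k => funext fun w => by
    simp only [om, P, tv, tg, hu, mul_sub, Finset.sum_sub_distrib, ipV_eq, sum_dotProduct,
      smul_dotProduct, smul_eq_mul, Function.comp_apply]
  have e3 : ∀ k l, dz (fun w => om (h w) ((D.H ∘ s) w) (n2 (D.H ∘ s) ψ w) (ψ w) k) l z =
      ∑ i, ∑ j, dz (fun w => (h w)⁻¹ j i) l z * (u k i j z - u j i k z) +
        ∑ i, ∑ j, (h z)⁻¹ j i * (dz (u k i j) l z - dz (u j i k) l z) := fun k l => by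
    have d := fun i j => ((hh.inv h0).df j i).fun_mul ((du k i j).fun_sub (du j i k))
    rw [e2, dz_sum _ fun i _ => DifferentiableAt.fun_sum fun j _ => d i j,
      ← Finset.sum_add_distrib]
    refine Finset.sum_congr rfl fun i _ => ?_
    rw [dz_sum _ fun j _ => d i j, ← Finset.sum_add_distrib]
    exact Finset.sum_congr rfl fun j _ => by
      rw [dz_mul ((hh.inv h0).df j i) ((du k i j).fun_sub (du j i k)), dz_sub (du k i j) (du j i k)]
  have e4 : ∀ l k i, cu (th (D.H ∘ s) z) (ψ z) l k i = E i k l - E l k i := fun l k i => by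
    rw [hE, hE, com hH hph hψ, com hH hph hψ, dVb_congr (hc.mono fun w hw => hw l i),
      hc.self_of_nhds l i, cu]
    abel
  have e5 := four (h z)⁻¹ fun l k i j => ipV (D.H (s z)) (E l j i) (ψ z k)
  simp only [e3, mul_add, Finset.sum_add_distrib]
  rw [gam_sym hK hz fun k i j => u k i j z, ip_tv (hK.2 z hz).1, fT_eq]
  simp only [e1, e4, Q, P, tg, ip_sub, smul_eq_mul, mul_add, mul_sub, Finset.sum_add_distrib,
    Finset.sum_sub_distrib]
  rw [e5]
  ring

variable {e e' : Ch ι X} {z' : V ι} {s' : V ι → Y} {a : Ch ι X → Y → ι → V r} {ζ : X → Mat ι}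

theorem th_tr (hp : IsLocalHomeomorph p) (t : Two M p e z s e' z' s') (k : ι) :
    th (D.H ∘ s) z k = ∑ l, tj e e' (e.symm z) l k • th (D.H ∘ s') z' l := by
  simp only [th, t.ca hp, Finset.smul_sum, smul_comm (-(1 / 2) : ℂ)]

theorem n2_tr (hp : IsLocalHomeomorph p) (ha : D.F10 a ζ) (t : Two M p e z s e' z' s') (k i : ι) :
    n2 (D.H ∘ s) (fun w => a e (s w)) z k i = ∑ l, tj e e' (e.symm z) l i •
      ∑ m, star (tj e e' (e.symm z) m k) • n2 (D.H ∘ s') (fun w => a e' (s' w)) z' m l := by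
  have h1 : ∀ l, DifferentiableAt ℂ (fun w => tj e e' (e.symm w) l i) z := fun l => by
    have := (AY.repA' ι X M).tj_an e t.he e' t.he' _ (e.map_target t.hz) t.src l i
    rw [e.right_inv t.hz] at this
    exact this.differentiableAt
  have h2 : ∀ l, DfV (fun w => a e' (s' w) l) ((e' ∘ e.symm) z) := fun l => by
    rw [t.pt]
    exact (ha.sm e' t.he' z' t.hz' s' t.hs' l).df
  have h3 : ∀ l, DfV ((fun w => a e' (s' w) l) ∘ (e' ∘ e.symm)) z := fun l j =>
    (h2 l j).comp z (t.an.differentiableAt.restrictScalars ℝ)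
  have h4 : (fun w => a e (s w) i) =ᶠ[𝓝 z] fun w => ∑ l, tj e e' (e.symm w) l i •
      ((fun w => a e' (s' w) l) ∘ (e' ∘ e.symm)) w :=
    (t.near hp).mono fun w hw => ha.tr _ _ _ _ _ _ hw i
  rw [n2, dVb_congr h4, dVb_sum _ fun l _ => (h3 l).smul ((h1 l).restrictScalars ℝ), t.cb hp,
    ha.tr _ _ _ _ _ _ t i, mulVec_sum, Finset.smul_sum, ← Finset.sum_add_distrib]
  refine Finset.sum_congr rfl fun l _ => ?_
  rw [dVb_smul ((h1 l).restrictScalars ℝ) (h3 l), dzb_hol (h1 l), zero_smul, zero_add,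
    dVb_comp (h2 l) t.an.differentiableAt, t.jac_eq, t.pt]
  simp only [n2, smul_add, Finset.sum_add_distrib, mulVec_smul, sum_mulVec, smul_mulVec,
    Finset.smul_sum, smul_comm (1 / 2 : ℂ)]

theorem n2_smul (ha : D.F10 a ζ) (he : e ∈ M.A) (hz : z ∈ e.target) (hs : Sec p e z s) (g : G) :
    a e (g • s z) = (fun i => D.ρ g *ᵥ a e (s z) i) ∧
    n2 (D.H ∘ fun w => g • s w) (fun w => a e (g • s w)) z =
      fun k i => D.ρ g *ᵥ n2 (D.H ∘ s) (fun w => a e (s w)) z k i := by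
  have h1 : ∀ᶠ w in 𝓝 z, ∀ i, a e (g • s w) i = D.ρ g *ᵥ a e (s w) i := by
    filter_upwards [hs.2, e.open_target.eventually_mem hz] with w h1 h2
    exact ha.eqv e g _ (h1 ▸ e.map_target h2)
  refine ⟨funext h1.self_of_nhds, funext₂ fun k i => ?_⟩
  rw [n2, n2, dVb_congr (h1.mono fun w hw => hw i), dVb_cmulVec _ (ha.sm e he z hz s hs i).df,
    Dt.cb_smul (D.sm e he z hz s hs).df, h1.self_of_nhds]
  simp only [mulVec_add, mulVec_smul, mulVec_mulVec, Matrix.mul_assoc, D.inv_mul, Matrix.mul_one]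

theorem cu_smul (hH : DfR (D.H ∘ s) z) (g : G) (b : ι → V r) (l k : ι) :
    cu (th (D.H ∘ fun w => g • s w) z) (fun i => D.ρ g *ᵥ b i) l k =
      fun i => D.ρ g *ᵥ cu (th (D.H ∘ s) z) b l k i := by
  funext i
  simp only [cu, cm, th_star]
  simp only [th, Dt.ca_smul hH, Dt.cb_smul hH, Matrix.smul_mul, Matrix.mul_smul, sub_mulVec,
    Matrix.sub_mul, smul_mulVec, mulVec_sub, mulVec_smul, mulVec_mulVec, Matrix.mul_assoc, D.inv_mul,
    Matrix.mul_one, ← Matrix.mul_assoc (D.ρ g⁻¹) (D.ρ g), Matrix.one_mul]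

theorem P_smul (A : Mat ι) (g : G) (y : Y) (u v : ι → V r) :
    P A (D.H (g • y)) (fun i => D.ρ g *ᵥ u i) (fun i => D.ρ g *ᵥ v i) = P A (D.H y) u v := by
  simp only [P, D.ipV_eqv]

theorem tv_smul (A : Mat ι) (B : Mat r) (N : ι → ι → V r) :
    tv A (fun k i => B *ᵥ N k i) = B *ᵥ tv A N := by
  simp only [tv, tg, mulVec_sum, mulVec_smul]

theorem desc (hq : IsQuotientCoveringMap p G) (B : Ch ι X → V ι → (V ι → Y) → ℂ)
    (h1 : ∀ e z s e' z' s', Two M p e z s e' z' s' → B e z s = B e' z' s')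
    (h2 : Loc M p fun e z s => ∀ g : G, B e z (fun w => g • s w) = B e z s)
    (h3 : Loc M p fun e z s => ContDiffAt ℝ ∞ (fun w => B e w s) z) :
    ∃ φ : X → ℂ, Continuous φ ∧ Fn M p φ B := by
  obtain ⟨φ, hφ⟩ := descL hq B h1 h2
  have k : ∀ l : ℂ →L[ℝ] ℝ, Continuous fun x => l (φ x) := fun l =>
    (AY.repA' ι X M).cont _ (ck_of hq (B := fun e z s => (l (B e z s) : ℂ))
      (hφ.mono fun e z s h => by rw [h]) (h3.mono fun e z s h =>
        ((ofRealCLM.comp l).contDiff.contDiffAt.comp z h).of_le zero_le))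
  refine ⟨φ, ?_, hφ⟩
  rw [show φ = fun x => (reCLM (φ x) : ℂ) + (imCLM (φ x) : ℂ) * I from
    funext fun x => (re_add_im _).symm]
  exact (continuous_ofReal.comp (k _)).add ((continuous_ofReal.comp (k _)).mul continuous_const)

end Hr1A

open Hr1A in
theorem hr1 {ι X Y G : Type} [Fintype ι] [DecidableEq ι] [TopologicalSpace X] [T2Space X]
    [CompactSpace X] [MeasurableSpace X] [BorelSpace X] [TopologicalSpace Y] [Group G]
    [MulAction G Y] {M : Atl ι X} {p : Y → X} (hq : IsQuotientCoveringMap p G) : Hr1 M p G := by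
  intro g μ h hg hμ hh r _ _ D a ζ hD ha hc
  have hp := lh hq
  have ra := AY.repA' ι X M
  have sh : ∀ e ∈ M.A, ∀ z ∈ e.target, SmR (M.repF h e) z ∧ (M.repF h e z).det ≠ 0 :=
    fun e he z hz => ⟨(hh e he).1.1 z hz, ((hh e he).2 z hz).det_pos.ne'⟩
  have sn : Loc M p fun e z s => ∀ k i,
      SmV (fun w => n2 (D.H ∘ s) (fun w => a e (s w)) w k i) z := fun e he z hz s hs =>
    sm_n2 (D.sm e he z hz s hs) (D.det_ne _) (ha.sm e he z hz s hs)
  obtain ⟨φ1, c1, f1⟩ := desc hq (fun e z s =>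
    Q (M.repF h e z) (D.H (s z)) (n2 (D.H ∘ s) (fun w => a e (s w)) z))
    (fun e z s e' z' s' t => by rw [t.repF, Q_tr t.det_ne (n2_tr hp ha t), t.eq])
    (fun e he z hz s hs γ => by simp only [(n2_smul ha he hz hs γ).2, Q, P_smul])
    fun e he z hz s hs => sm_tg (sh e he z hz).1 (sh e he z hz).2 fun l k =>
      sm_P (sh e he z hz).1 (sh e he z hz).2 (D.sm e he z hz s hs) (sn e he z hz s hs k)
        (sn e he z hz s hs l)
  obtain ⟨φ2, c2, f2⟩ := desc hq (fun e z s => ipV (D.H (s z))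
    (tv (M.repF h e z) (n2 (D.H ∘ s) (fun w => a e (s w)) z))
    (tv (M.repF h e z) (n2 (D.H ∘ s) (fun w => a e (s w)) z)))
    (fun e z s e' z' s' t => by rw [t.repF, tv_tr t.det_ne (n2_tr hp ha t), t.eq])
    (fun e he z hz s hs γ => by simp only [(n2_smul ha he hz hs γ).2, tv_smul, D.ipV_eqv])
    fun e he z hz s hs => sm_ip (D.sm e he z hz s hs)
      (sm_tv (sh e he z hz).1 (sh e he z hz).2 (sn e he z hz s hs))
      (sm_tv (sh e he z hz).1 (sh e he z hz).2 (sn e he z hz s hs))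
  obtain ⟨φ3, c3, f3⟩ := desc hq (fun e z s =>
    fT (M.repF h e z) (D.H (s z)) (th (D.H ∘ s) z) (a e (s z)))
    (fun e z s e' z' s' t => by
      rw [t.repF, fT_tr t.det_ne (th_tr hp t) (ha.tr _ _ _ _ _ _ t), t.eq])
    (fun e he z hz s hs γ => by
      simp only [(n2_smul ha he hz hs γ).1, fT_eq, cu_smul (D.sm e he z hz s hs).df, P_smul])
    fun e he z hz s hs => sm_tg (sh e he z hz).1 (sh e he z hz).2 fun l k =>
      sm_P (sh e he z hz).1 (sh e he z hz).2 (D.sm e he z hz s hs)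
        (sm_cu (D.sm e he z hz s hs) (D.det_ne _) (ha.sm e he z hz s hs) l k) (ha.sm e he z hz s hs)
  obtain ⟨d, d1, d2, d3⟩ := stokes hq hg hμ (fun e z s => wv (M.repF h e z)
    (om (M.repF h e z) (D.H (s z)) (n2 (D.H ∘ s) (fun w => a e (s w)) z) (a e (s z))))
    (fun e z s e' z' s' t => by
      rw [t.repF, om_tr t.det_ne (n2_tr hp ha t) (ha.tr _ _ _ _ _ _ t), wv_tr t.det_ne, t.eq])
    (fun e he z hz s hs γ => by
      congr 1
      funext k
      simp only [(n2_smul ha he hz hs γ).2, (n2_smul ha he hz hs γ).1, om, tv_smul, P_smul,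
        D.ipV_eqv])
    fun e he z hz s hs => (smV_iff.1 (sm_wv e.open_target (hh e he) hz
      (sm_om (sh e he z hz).1 (sh e he z hz).2 (D.sm e he z hz s hs) (sn e he z hz s hs)
        (ha.sm e he z hz s hs)))).of_le (by norm_cast)
  refine ⟨fun x => (φ1 x).re, fun x => (φ2 x).re, fun x => ‖φ3 x‖, continuous_re.comp c1,
    continuous_re.comp c2, c3.norm, f1.mono fun e z s k => congrArg re k,
    f2.mono fun e z s k => congrArg re k, f3.mono fun e z s k => congrArg norm k, ?_⟩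
  have := ((AY.volS' ι X M g hg).2 μ hμ).fin
  have cr : Continuous (rat h g) :=
    ra.cont _ fun e he z hz => (ra.ck_rat h g (fun e he => (hh e he).1.1) hg e he z hz).of_le zero_le
  have i0 : ∀ {E : Type} [NormedAddCommGroup E] {f : X → E}, Continuous f → Integrable f μ :=
    fun c => c.integrable_of_hasCompactSupport (HasCompactSupport.of_compactSpace _)
  have i1 := i0 (((continuous_re.comp c2).add c3.norm).mul cr)
  have i2 : ∫ x, (d x).re ∂μ = 0 := (integral_re (i0 d1)).trans (by rw [d2]; rfl)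
  rw [← add_zero (∫ x, ((φ2 x).re + ‖φ3 x‖) * rat h g x ∂μ), ← i2]
  refine (integral_mono (i0 ((continuous_re.comp c1).mul cr))
    (i1.add (i0 (continuous_re.comp d1))) fun x => ?_).trans_eq
      (integral_add i1 (i0 (continuous_re.comp d1)))
  have he := M.ch_mem x
  have hz := (M.ch x).map_source (M.mem x)
  obtain ⟨s, hs⟩ := sec_ex' hq hz
  have k := (d3 _ he _ hz s hs).symm.trans (loc (M.ch x).open_target (hh _ he) hz
    (D.sm _ he _ hz s hs) (hD _ he _ hz s hs).1 (ha.sm _ he _ hz s hs) (hc.ev hp he hz hs))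
  have k1 := f1 _ he _ hz s hs
  have k2 := f2 _ he _ hz s hs
  have k3 := f3 _ he _ hz s hs
  dsimp only at k1 k2 k3
  rw [← k1, ← k2, ← k3, ra.repF_self, ra.repF_self, (M.ch x).left_inv (M.mem x)] at k
  have k4 := congrArg re k
  rw [re_ofReal_mul, re_ofReal_mul, sub_re, sub_re] at k4
  have p1 : 0 < (g x).det.re := (Mat.det' (((ra.isK_iff g).1 hg).2 x)).1
  have p2 : 0 < (h x).det.re := (Mat.det' (((ra.isK_iff h).1 hh).2 x)).1
  have k5 : (d x).re = ((φ1 x).re - (φ2 x).re - (φ3 x).re) * rat h g x := by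
    rw [rat]
    field_simp
    linear_combination k4
  have p3 : 0 < rat h g x := div_pos p2 p1
  have k6 := mul_le_mul_of_nonneg_right (re_le_norm (φ3 x)) p3.le
  change (φ1 x).re * rat h g x ≤ ((φ2 x).re + ‖φ3 x‖) * rat h g x + (d x).re
  rw [k5]
  linarith

end

end Pool.Agent.Lib.MP_813db1_ag.VH
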