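import Pool.Agent.Lib.MP_813db1_ag.HS.Int
import Pool.Agent.Lib.MP_813db1_ag.HS.Den
import Pool.Agent.Lib.MP_813db1_ag.HS.Poly
import Pool.Agent.Lib.MP_813db1_ag.HS.Weight
import Pool.Agent.Lib.MP_813db1_ag.AS.Sol
import Pool.Agent.Lib.MP_813db1_ag.AS.VolR

/-! Volume polynomials and averages along a family of Kaehler metrics. -/

namespace Pool.Agent.Lib.MP_813db1_ag.VH

open Pool.Agent.Lib.MP_813db1_ag.HS Pool.Agent.Lib.MP_813db1_ag.AS
open MeasureTheory Complex Matrix Filter Topology Set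
open scoped ContDiff ComplexOrder

namespace Rg

variable {ι X : Type} [Fintype ι] [DecidableEq ι]

theorem det_poly (B : Mat ι) {ξ : Mat ι} (hξ : ξ.PosSemidef) {k : ℕ} (hk : ξ.rank ≤ k) :
    ∃ c : ℕ → ℝ, ∀ s : ℝ, (B + (s : ℂ) • ξ).det.re = ∑ j ∈ Finset.range (k + 1), c j * s ^ j := by
  obtain ⟨T, d, hT, -, -, rfl⟩ := Mat.sim PosDef.one hξ
  have hT' : IsUnit Tᴴ.det := by rw [det_conjTranspose]; exact hT.star
  rw [rank_mul_eq_left_of_isUnit_det _ _ hT, rank_mul_eq_right_of_isUnit_det _ _ hT',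
    rank_diagonal, Fintype.card_subtype] at hk
  set q : Polynomial ℂ := Polynomial.C (Tᴴ.det * T.det) * det (Matrix.of fun i j =>
    Polynomial.C ((Tᴴ⁻¹ * B * T⁻¹) i j) +
      Polynomial.C (diagonal (fun i => (d i : ℂ)) i j) * Polynomial.X) with hq
  have h1 : q.natDegree < k + 1 := by
    refine Nat.lt_succ_of_le ((Polynomial.natDegree_C_mul_le _ _).trans ?_)
    rw [det_apply]
    refine Polynomial.natDegree_sum_le_of_forall_le _ _ fun σ _ => ?_
    refine (Polynomial.natDegree_smul_le _ _).trans ((Polynomial.natDegree_prod_le _ _).trans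
      (le_trans ?_ hk))
    rw [Finset.card_filter]
    refine Finset.sum_le_sum fun i _ => ?_
    rw [of_apply]
    split_ifs with h
    · exact (Polynomial.natDegree_add_le _ _).trans (max_le (by simp)
        ((Polynomial.natDegree_C_mul_le _ _).trans Polynomial.natDegree_X_le))
    · have : diagonal (fun i => (d i : ℂ)) (σ i) i = 0 := by
        rw [diagonal_apply]
        split_ifs with h'
        · rw [h']
          exact not_not.1 h
        · rfl
      simp [this]
  refine ⟨fun j => (q.coeff j).re, fun s => ?_⟩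
  have h2 : (B + (s : ℂ) • (Tᴴ * diagonal (fun i => (d i : ℂ)) * T)).det = q.eval (s : ℂ) := by
    have e : B + (s : ℂ) • (Tᴴ * diagonal (fun i => (d i : ℂ)) * T) =
        Tᴴ * (Tᴴ⁻¹ * B * T⁻¹ + (s : ℂ) • diagonal (fun i => (d i : ℂ))) * T := by
      rw [Matrix.mul_add, Matrix.add_mul, Matrix.mul_smul, Matrix.smul_mul, ← Matrix.mul_assoc,
        mul_nonsing_inv_cancel_left _ _ hT', nonsing_inv_mul_cancel_right _ _ hT]
    rw [e, det_mul, det_mul, mul_right_comm, hq, Polynomial.eval_mul, Polynomial.eval_C,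
      ← Polynomial.coe_evalRingHom, RingHom.map_det]
    congr 2
    ext i j
    simp only [Matrix.add_apply, Matrix.smul_apply, smul_eq_mul, RingHom.mapMatrix_apply, map_apply,
      of_apply, Polynomial.coe_evalRingHom, Polynomial.eval_add, Polynomial.eval_C,
      Polynomial.eval_mul, Polynomial.eval_X, mul_comm (s : ℂ)]
  rw [h2, Polynomial.eval_eq_sum_range' h1, re_sum]
  exact Finset.sum_congr rfl fun j _ => by rw [← ofReal_pow, re_mul_ofReal]

theorem det_mono {A B : Mat ι} (hA : A.PosDef) (hB : B.PosSemidef) :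
    A.det.re ≤ (A + B).det.re := by
  obtain ⟨d, hd, -, -, h⟩ := IntL.eig hA hB
  have := IntL.det_add (G := B) hA 1
  rw [h, ofReal_one, one_smul] at this
  rw [this]
  exact le_mul_of_one_le_left (Mat.det' hA).1.le
    (Finset.one_le_prod fun i _ => by linarith [hd i])

theorem det_near {H A : Mat ι} (hH : H.PosDef) (hA : A.PosSemidef) {t C : ℝ} (ht : 0 ≤ t)
    (hC : t * trm H A ≤ C) :
    |(1 + ((-t : ℝ) : ℂ) • (A * H⁻¹)).det.re - 1| ≤ Real.exp C * (t * trm H A) := by
  obtain ⟨d, hd, h1, -, h⟩ := IntL.eig hH hA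
  rw [h1, Finset.mul_sum] at hC
  rw [h, h1, Finset.mul_sum]
  have k : ∀ S : Finset ι, |∏ i ∈ S, (1 + -t * d i) - 1| ≤ Real.exp (∑ i ∈ S, t * d i) - 1 := by
    intro S
    induction S using Finset.induction_on with
    | empty => simp
    | insert j S hj ih =>
      rw [Finset.prod_insert hj, Finset.sum_insert hj, Real.exp_add]
      have a := mul_nonneg ht (hd j)
      have b := Real.add_one_le_exp (t * d j)
      have c := Real.exp_pos (∑ i ∈ S, t * d i)
      rw [abs_le] at ih ⊢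
      constructor <;> nlinarith [ih.1, ih.2]
  refine (k _).trans ?_
  have a : 0 ≤ ∑ i, t * d i := Finset.sum_nonneg fun i _ => mul_nonneg ht (hd i)
  have b := Real.add_one_le_exp (-∑ i, t * d i)
  have c := Real.exp_pos (∑ i, t * d i)
  have e : Real.exp (-∑ i, t * d i) * Real.exp (∑ i, t * d i) = 1 := by
    rw [← Real.exp_add, neg_add_cancel, Real.exp_zero]
  nlinarith [Real.exp_le_exp.2 hC]

variable [TopologicalSpace X] [T2Space X] [CompactSpace X] [MeasurableSpace X] [BorelSpace X]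
  {M : Atl ι X} {g B ξ η h : X → Mat ι} {μ : Measure X} {u : X → ℝ}

omit [T2Space X] [CompactSpace X] [MeasurableSpace X] [BorelSpace X] in
theorem rat_c (hg : M.IsK g) (hB : M.ClF B) : Continuous (rat B g) :=
  Den.cont (AY.repA' ι X M) ((AY.repA' ι X M).ck_rat B g (fun e he => (hB e he).1) hg)

omit [T2Space X] [CompactSpace X] [MeasurableSpace X] [BorelSpace X] in
theorem cl_lin (hB : M.ClF B) (hξ : M.ClF ξ) (s : ℝ) : M.ClF fun x => B x + (s : ℂ) • ξ x :=
  (AY.repA' ι X M).clF_add _ _ hB ((AY.repA' ι X M).clF_smul s _ hξ)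

/-- the volume polynomial. -/
theorem vpoly (hg : M.IsK g) (hμ : M.IsVol g μ) (hB : M.ClF B) (hξ : M.ClF ξ)
    (pξ : ∀ x, (ξ x).PosSemidef) {k : ℕ} (hk : ∀ x, (ξ x).rank ≤ k) :
    ∃ P : Polynomial ℝ, P.natDegree ≤ k ∧
      ∀ s : ℝ, P.eval s = ∫ x, rat (fun y => B y + (s : ℂ) • ξ y) g x ∂μ := by
  have := ((AY.volS' ι X M g hg).2 μ hμ).fin
  choose c hc using fun x => det_poly (B x) (pξ x) (hk x)
  have hr : ∀ s : ℝ, rat (fun y => B y + (s : ℂ) • ξ y) g =
      fun x => ∑ j ∈ Finset.range (k + 1), c x j / (g x).det.re * s ^ j := fun s => funext fun x => by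
    rw [rat, hc, Finset.sum_div]
    exact Finset.sum_congr rfl fun j _ => by ring
  have hcc := Schw.coeff_cont k (fun j x => c x j / (g x).det.re) fun s =>
    hr s ▸ rat_c hg (cl_lin hB hξ s)
  refine ⟨∑ j ∈ Finset.range (k + 1), Polynomial.C (∫ x, c x j / (g x).det.re ∂μ) *
    Polynomial.X ^ j, Polynomial.natDegree_sum_le_of_forall_le _ _ fun j hj =>
      (Polynomial.natDegree_C_mul_X_pow_le _ _).trans (Nat.lt_succ_iff.1 (Finset.mem_range.1 hj)),
    fun s => ?_⟩
  rw [hr, integral_finsetSum _ fun j hj => (Den.intg (hcc j (Finset.mem_range.1 hj))).mul_const _]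
  simp [Polynomial.eval_finsetSum, integral_mul_const]

/-- the average of a determinant is a quotient of volumes. -/
theorem int_det (hg : M.IsK g) (hμ : M.IsVol g μ) (hB : M.ClF B) (hη : M.ClF η) (hu : M.Ck ∞ u)
    (hh : M.IsK h) (e : ∀ x, h x = B x + M.ddc u x) (t : ℝ) :
    (Continuous fun x => (1 + (t : ℂ) • (η x * (h x)⁻¹)).det.re * rat h g x) ∧
    ∫ x, (1 + (t : ℂ) • (η x * (h x)⁻¹)).det.re * rat h g x ∂μ =
      ∫ x, rat (fun y => B y + (t : ℂ) • η y) g x ∂μ := by
  obtain ⟨ch, ph⟩ := ((AY.repA' ι X M).isK_iff h).1 hh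
  have e1 : (fun x => (1 + (t : ℂ) • (η x * (h x)⁻¹)).det.re * rat h g x) =
      rat (fun y => h y + (t : ℂ) • η y) g := funext fun x => by
    rw [rat, rat, IntL.det_add (ph x), mul_div_assoc]
  rw [e1]
  refine ⟨rat_c hg (cl_lin ch hη t), ?_⟩
  rw [← invAll ι X M g _ μ u hg hμ (cl_lin hB hη t) hu]
  congr 2
  funext y
  rw [e, add_right_comm]

/-- the volume is monotone on nef classes. -/
theorem vmono (hg : M.IsK g) (hμ : M.IsVol g μ) (hB : M.ClF B) (hη : M.ClF η)
    (pη : ∀ x, (η x).PosSemidef)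
    (hN : ∀ ε > (0 : ℝ), ∃ w, M.Ck ∞ w ∧ ∀ x, (B x + M.ddc w x + (ε : ℂ) • g x).PosSemidef) :
    0 ≤ ∫ x, rat B g x ∂μ ∧ ∫ x, rat B g x ∂μ ≤ ∫ x, rat (fun y => B y + η y) g x ∂μ := by
  have A := AY.repA' ι X M
  have := ((AY.volS' ι X M g hg).2 μ hμ).fin
  obtain ⟨cg, pg⟩ := (A.isK_iff g).1 hg
  have c2 := A.clF_add _ _ hB hη
  obtain ⟨P, -, hP⟩ := vpoly hg hμ hB cg (fun x => (pg x).posSemidef) fun x => rank_le_card_width _
  obtain ⟨Q, -, hQ⟩ := vpoly hg hμ c2 cg (fun x => (pg x).posSemidef) fun x => rank_le_card_width _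
  have k : ∀ s > (0 : ℝ), 0 ≤ P.eval s ∧ P.eval s ≤ Q.eval s := fun s hs => by
    obtain ⟨w, w1, w2⟩ := hN (s / 2) (half_pos hs)
    have cw := (AY.repB' ι X M).ddc_cl w w1
    have pd : ∀ x, (B x + (s : ℂ) • g x + M.ddc w x).PosDef := fun x => by
      convert ((pg x).smul (a := ((s / 2 : ℝ) : ℂ)) (zero_lt_real.2 (half_pos hs))).add_posSemidef
        (w2 x) using 1
      push_cast
      module
    rw [hP, hQ, ← invAll ι X M g _ μ w hg hμ (cl_lin hB cg s) w1,
      ← invAll ι X M g _ μ w hg hμ (cl_lin c2 cg s) w1]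
    refine ⟨integral_nonneg fun x => div_nonneg (Mat.det' (pd x)).1.le (Mat.det' (pg x)).1.le,
      integral_mono (Den.intg (rat_c hg (A.clF_add _ _ (cl_lin hB cg s) cw)))
        (Den.intg (rat_c hg (A.clF_add _ _ (cl_lin c2 cg s) cw))) fun x =>
        div_le_div_of_nonneg_right ((det_mono (pd x) (pη x)).trans_eq ?_) (Mat.det' (pg x)).1.le⟩
    rw [add_right_comm _ _ (η x), add_right_comm _ _ (η x)]
  have t : ∀ R : Polynomial ℝ, Tendsto R.eval (𝓝[>] 0) (𝓝 (R.eval 0)) := fun R =>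
    R.continuous.continuousWithinAt
  have e1 := hP 0
  have e2 := hQ 0
  simp only [ofReal_zero, zero_smul, add_zero] at e1 e2
  rw [← e1, ← e2]
  exact ⟨ge_of_tendsto (t P) (eventually_mem_nhdsWithin.mono fun s hs => (k s hs).1),
    le_of_tendsto_of_tendsto (t P) (t Q) (eventually_mem_nhdsWithin.mono fun s hs => (k s hs).2)⟩

/-- the first two derivatives of the volume polynomial. -/
theorem moments (hg : M.IsK g) (hμ : M.IsVol g μ) (hB : M.ClF B) (hξ : M.ClF ξ)
    (pξ : ∀ x, (ξ x).PosSemidef) (hu : M.Ck ∞ u) (hh : M.IsK h) {s : ℝ} (hs : 0 < s)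
    (e : ∀ x, h x = B x + (s : ℂ) • ξ x + M.ddc u x) {P : Polynomial ℝ}
    (hP : ∀ t : ℝ, P.eval t = ∫ x, rat (fun y => B y + (t : ℂ) • ξ y) g x ∂μ) (hV : 0 < P.eval s) :
    ∫ x, rat h g x ∂μ = P.eval s ∧ ∫ x, trm (h x) (ξ x) * rat h g x ∂μ = P.derivative.eval s ∧
      ∫ x, (trm (h x) (ξ x) - s * trm (h x) (ξ x * (h x)⁻¹ * ξ x)) * rat h g x ∂μ ≤
        P.derivative.eval s -
          s * (P.derivative.eval s ^ 2 / P.eval s - P.derivative.derivative.eval s) := by
  have A := AY.repA' ι X M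
  have := ((AY.volS' ι X M g hg).2 μ hμ).fin
  have ph := ((A.isK_iff h).1 hh).2
  have c1 := Den.cont A (A.ck_trm h ξ hh fun e he => (hξ e he).1)
  have sm : M.SmF fun x => ξ x * (h x)⁻¹ * ξ x := fun e he z hz i j => by
    refine ((((hξ e he).1.mul ((hh e he).1.1.inv fun w hw => ((hh e he).2 w hw).det_pos.ne')).mul
      (hξ e he).1) z hz i j).congr_of_eventuallyEq ?_
    filter_upwards [e.open_target.mem_nhds hz] with w hw
    rw [A.repF_mul _ _ _ e he w hw]
  have c2 := Den.cont A (A.ck_trm h _ hh sm)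
  obtain ⟨n, hn⟩ := isCompact_univ.exists_bound_of_continuousOn
    (f := fun x => s * trm (h x) (ξ x)) (continuous_const.mul c1).continuousOn
  have d := int_det hg hμ (cl_lin hB hξ s) hξ hu hh e
  have := IntL.core μ P hs (abs_nonneg n) c1 c2 (rat_cont hg hh)
    (c := fun x => trm (h x) (ξ x) - s * trm (h x) (ξ x * (h x)⁻¹ * ξ x)) (r := fun _ => 0)
    (by fun_prop) continuous_const (fun t => (d t).1) (fun x => (rat_pos hg hh x).le)
    (fun x => (le_abs_self _).trans ((hn x (mem_univ x)).trans (le_abs_self n))) (fun x => by simp)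
    (fun t ht x => IntL.det_bounds (ph x) (pξ x) ht) (fun t => by
      rw [(d t).2, hP]
      simp only [ofReal_add, add_smul, add_assoc]) hV (by simp)
  simpa only [zero_mul, integral_zero, sub_zero] using this

/-- uniform bounds for the densities. -/
theorem dens [ConnectedSpace X] (hg : M.IsK g) (hμ : M.IsVol g μ) (hB : M.ClF B) (hξ : M.ClF ξ)
    (pξ : ∀ x, (ξ x).PosSemidef) : ∃ C ≥ (0 : ℝ), ∀ s ∈ Ioc (0 : ℝ) 1, ∀ u h, M.Ck ∞ u → M.IsK h →
      (∀ x, h x = B x + (s : ℂ) • ξ x + M.ddc u x) → ∀ v, ∫ x, Real.exp (u x - v) ∂μ = 1 →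
      (∀ x, Real.exp (u x - v) ≤ C) ∧ ∫ x, |u x - v| ∂μ ≤ C ∧ ∫ x, trm (g x) (h x) ∂μ ≤ C ∧
        ∀ x, -C ≤ M.lap g u x := by
  have ha := AY.repA' ι X M
  have hb := AY.repB' ι X M
  have hv := (AY.volS' ι X M g hg).2 μ hμ
  have := hv.fin
  have := hv.pos
  have pd := ((ha.isK_iff g).1 hg).2
  have hR : M.ClF fun x => -(B x + ξ x) := by
    simpa only [ofReal_neg, ofReal_one, neg_smul, one_smul] using
      ha.clF_smul (-1) _ (ha.clF_add _ _ hB hξ)
  have hp : 0 < μ.real univ :=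
    ENNReal.toReal_pos (isOpen_univ.measure_ne_zero μ univ_nonempty) (measure_ne_top μ _)
  have sm : M.SmF fun x => -(B x + ξ x) * (g x)⁻¹ * -(B x + ξ x) := fun e he z hz i j => by
    refine ((((hR e he).1.mul ((hg e he).1.1.inv fun w hw => ((hg e he).2 w hw).det_pos.ne')).mul
      (hR e he).1) z hz i j).congr_of_eventuallyEq ?_
    filter_upwards [e.open_target.mem_nhds hz] with w hw
    rw [ha.repF_mul (fun x => -(B x + ξ x)) _ (fun x => -(B x + ξ x)) e he w hw]
  have cR := Den.cont ha (ha.ck_trm g _ hg fun e he => (hB e he).1)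
  have cξ := Den.cont ha (ha.ck_trm g _ hg fun e he => (hξ e he).1)
  obtain ⟨T, hT⟩ := isCompact_univ.exists_bound_of_continuousOn
    (Den.cont ha (ha.ck_trm g _ hg sm)).continuousOn
  obtain ⟨S, hS⟩ := isCompact_univ.exists_bound_of_continuousOn (cR.add cξ).continuousOn
  obtain ⟨L, hL⟩ := weight AY.repA' AY.repB' AY.volS' mat ι X M g μ ((1 + T) / 2) hg hμ
  set B1 := Real.exp (L / μ.real univ) / μ.real univ with hB1
  set B2 := (B1 + μ.real univ) * μ.real univ + L with hB2
  refine ⟨|B1| + |B2| + |S * μ.real univ| + |S|, by positivity, fun s hs u h hu hH e v h1 => ?_⟩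
  have pH := ((ha.isK_iff _).1 hH).2
  have cu := Den.cont ha hu
  obtain ⟨x0, -, hx0⟩ := isCompact_univ.exists_isMaxOn univ_nonempty cu.continuousOn
  have hx : ∀ x, u x ≤ u x0 := fun x => hx0 (mem_univ x)
  have k1 := hL u hu (fun x => by
    have := ((pH x).posSemidef.add ((pξ x).smul (zero_le_real.2 (sub_nonneg.2 hs.2)))).add
      (Den.psd_low mat (pd x) (ha.herm _ hR x) ((le_abs_self _).trans (hT x (mem_univ x))))
    convert this using 1
    rw [e]
    push_cast
    module) x0 hx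
  obtain ⟨k2, k3⟩ := Den.expb (μ := μ) (w := fun x => u x - v) (B := L) (s := u x0 - v)
    (by fun_prop) hp h1 (fun x => by linarith [hx x])
    (by simpa only [sub_sub_sub_cancel_right] using k1)
  have tr : ∀ x, trm (g x) (h x) = trm (g x) (B x) + s * trm (g x) (ξ x) + M.lap g u x :=
    fun x => by simp [e, trm, Atl.lap, Matrix.add_mul]
  have hS' : ∀ x, trm (g x) (B x) + s * trm (g x) (ξ x) ≤ S := fun x => by
    have := (le_abs_self _).trans (hS x (mem_univ x))
    have := mul_le_of_le_one_left (Mat.trm_nonneg (pd x) (pξ x)) hs.2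
    simp only [Pi.add_apply] at *
    linarith
  obtain ⟨c1, -, i0⟩ := Den.green1 ha AY.greenS hg hμ hu (v := fun _ => 1)
    fun e he z hz => contDiffAt_const
  have i1 : ∫ x, M.lap g u x ∂μ = 0 := by
    rw [← i0]
    refine integral_congr_ae (.of_forall fun x => ?_)
    have := (Den.grad_comp hb g hu (differentiable_const (1 : ℝ)) x).1
    simp only [this, deriv_const', zero_mul, one_mul, add_zero]
  have p1 := abs_nonneg B1
  have p2 := abs_nonneg B2
  have p3 := abs_nonneg (S * μ.real univ)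
  have p4 := abs_nonneg S
  refine ⟨fun x => ?_, by linarith [le_abs_self B2], ?_, fun x => ?_⟩
  · linarith [le_abs_self B1, (Real.exp_le_exp.2 (by linarith [hx x] : u x - v ≤ u x0 - v)).trans k2]
  · have : ∫ x, trm (g x) (h x) ∂μ ≤ ∫ x, (S + M.lap g u x) ∂μ := by
      simp only [tr]
      refine integral_mono (Den.intg (by fun_prop)) (Den.intg (by fun_prop)) fun x => ?_
      simp only
      linarith [hS' x]
    rw [integral_add (integrable_const _) (Den.intg c1), i1, integral_const, smul_eq_mul,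
      mul_comm] at this
    linarith [le_abs_self (S * μ.real univ)]
  · have := Mat.trm_nonneg (pd x) (pH x).posSemidef
    rw [tr] at this
    linarith [le_abs_self S, hS' x]

end Rg

end Pool.Agent.Lib.MP_813db1_ag.VH
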