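import Pool.Agent.Lib.MP_813db1_ag.VH.St7
import Pool.Agent.Lib.MP_813db1_ag.VH.RgI

/-! Volume polynomials that are monomials. -/

namespace Pool.Agent.Lib.MP_813db1_ag.VH

open Pool.Agent.Lib.MP_813db1_ag.HS Pool.Agent.Lib.MP_813db1_ag.AS
open MeasureTheory Complex Matrix Filter Topology Set
open scoped ContDiff ComplexOrder

namespace RPow

theorem mono {α : Type} {l : Filter α} [l.NeBot] {s : α → ℝ} (h0 : Tendsto s l (𝓝 0))
    (hs : ∀ᶠ a in l, 0 < s a) {C : ℝ} (m : ℕ) : ∀ P : Polynomial ℝ, P.natDegree ≤ m →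
    (∀ᶠ a in l, |P.eval (s a)| ≤ C * s a ^ m) → ∃ c, ∀ t, P.eval t = c * t ^ m := by
  induction m with
  | zero =>
    exact fun P h _ => ⟨P.coeff 0, fun t => by rw [Polynomial.eq_C_of_natDegree_le_zero h]; simp⟩
  | succ m ih =>
    intro P h hb
    have z : |P.eval 0| ≤ C * 0 ^ (m + 1) := le_of_tendsto_of_tendsto
      ((P.continuous.tendsto 0).comp h0).abs ((h0.pow _).const_mul C) hb
    have e : ∀ t, P.eval t = t * P.divX.eval t := fun t => by
      conv_lhs => rw [← P.X_mul_divX_add]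
      simpa [Polynomial.coeff_zero_eq_eval_zero] using z
    obtain ⟨c, hc⟩ := ih P.divX (by rw [Polynomial.natDegree_divX_eq_natDegree_tsub_one]; omega) <| by
      filter_upwards [hs, hb] with a h1 h2
      rw [e, abs_mul, abs_of_pos h1, pow_succ', mul_left_comm] at h2
      exact le_of_mul_le_mul_left h2 h1
    exact ⟨c, fun t => by rw [e, hc]; ring⟩

theorem vc {ι X : Type} [Fintype ι] [DecidableEq ι] [MeasurableSpace X] {A B g : X → Mat ι}
    {μ : Measure X} (h : ∀ y, A y = B y) : ∫ x, rat A g x ∂μ = ∫ x, rat B g x ∂μ := by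
  rw [funext h]

end RPow

variable {ι X : Type} [Fintype ι] [DecidableEq ι] [TopologicalSpace X] [T2Space X] [CompactSpace X]
  [MeasurableSpace X] [BorelSpace X] {M : Atl ι X}

theorem powV : PowV M := by
  intro g μ σ ζ u h F ζ0 m v B s c0 p0 hs s0 hv ha
  have A := AY.repA' ι X M
  have := ((AY.volS' ι X M g F.kg).2 μ F.vol).fin
  have cR : M.ClF fun x => -M.ricF g x := by
    simpa using A.clF_smul (-1) _ ((AY.repB' ι X M).ric_cl g F.kg)
  have cη : M.ClF fun x => ζ x - ζ0 x := by
    simpa [sub_eq_add_neg] using Rg.cl_lin F.cζ c0 (-1)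
  obtain ⟨P, d, hP⟩ := Rg.vpoly F.kg F.vol (A.clF_add _ _ cR F.cσ) c0 (fun x => (p0 x).2.1)
    fun x => (p0 x).2.2
  set W := fun j => vl g μ fun x => -M.ricF g x + (σ x + (s j : ℂ) • ζ x) with hW
  set a := fun j => av g μ (h (s j)) fun x => s j * trm (h (s j) x) (ζ x - ζ0 x) with ea
  have k : ∀ j, |P.eval (s j) / s j ^ m - W j / s j ^ m| ≤
      Real.exp B * a j * (W j / s j ^ m) := fun j => by
    obtain ⟨m1, m2⟩ := hs j
    have hk := F.k _ m1
    have ph := ((A.isK_iff _).1 hk).2
    have d := Rg.int_det F.kg F.vol (A.clF_add _ _ cR (Rg.cl_lin F.cσ F.cζ (s j))) cη (F.ck _ m1) hk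
      (F.eq _)
    have cr := rat_cont F.kg hk
    have pr := fun x => (rat_pos F.kg hk x).le
    have e0 : vl g μ (h (s j)) = W j := by simpa [hW, vl] using (d 0).2
    have e1 := (d (-s j)).2.trans (c := P.eval (s j)) <| by
      rw [hP]
      exact RPow.vc fun y => by push_cast; module
    have e2 : a j * W j = ∫ x, s j * trm (h (s j) x) (ζ x - ζ0 x) * rat (h (s j)) g x ∂μ := by
      rw [← e0]
      refine div_mul_cancel_of_imp fun z => integral_eq_zero_of_ae ?_
      filter_upwards [(integral_eq_zero_iff_of_nonneg pr (Den.intg cr)).1 z] with x hx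
      simp [hx]
    rw [← sub_div, abs_div, abs_of_pos (pow_pos m1.1 m), ← mul_div_assoc, mul_assoc, e2, ← e1, ← e0,
      vl, ← integral_sub (Den.intg (d _).1) (Den.intg cr), ← integral_const_mul, ← Real.norm_eq_abs]
    refine div_le_div_of_nonneg_right (norm_integral_le_of_norm_le (Den.intg ?_)
      (.of_forall fun x => ?_)) (pow_pos m1.1 m).le
    · have := Den.cont A (A.ck_trm _ _ hk fun e he => (cη e he).1)
      fun_prop
    · rw [← sub_one_mul, Real.norm_eq_abs, abs_mul, abs_of_nonneg (pr x), ← mul_assoc]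
      refine mul_le_mul_of_nonneg_right (Rg.det_near (ph x) (p0 x).1 m1.1.le
        (le_trans (mul_le_mul_of_nonneg_left ?_ m1.1.le) (m2 x))) (pr x)
      have := Mat.trm_nonneg (ph x) (p0 x).2.1
      simp only [trm, Matrix.sub_mul, trace_sub, sub_re] at this ⊢
      linarith
  have l : Tendsto (fun j => P.eval (s j) / s j ^ m) atTop (𝓝 v) := by
    have := ((ha.const_mul (Real.exp B)).mul hv)
    rw [mul_zero, zero_mul] at this
    simpa only [zero_add, hW, sub_add_cancel] using (squeeze_zero_norm k this).add hv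
  obtain ⟨c, hc⟩ := RPow.mono (C := |v| + 1) s0 (.of_forall fun j => (hs j).1.1) m P d <| by
    filter_upwards [l.abs.eventually_le_const (lt_add_one _)] with j hj
    have := pow_pos (hs j).1.1 m
    rwa [abs_div, abs_of_pos this, div_le_iff₀ this] at hj
  obtain rfl : c = v := tendsto_nhds_unique (tendsto_const_nhds.congr fun j => by
    rw [hc, mul_div_cancel_right₀ _ (pow_pos (hs j).1.1 m).ne']) l
  intro t
  simp only [← hc, hP, vl, add_assoc]

theorem twoV : TwoV M := by
  intro g μ hg hμ hN σ ξ ξ' a b v v' cσ cξ cξ' p h1 h2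
  have A := AY.repA' ι X M
  have cR : M.ClF fun x => -M.ricF g x := by
    simpa using A.clF_smul (-1) _ ((AY.repB' ι X M).ric_cl g hg)
  obtain ⟨Q, -, hQ⟩ := Rg.vpoly hg hμ cR (A.clF_add _ _ cξ cξ') (fun x => (p x).1.add (p x).2.1)
    fun x => rank_le_card_width _
  have k : ∀ t ∈ Icc (0 : ℝ) 1, Q.eval t = v' * t ^ (a + b) := fun t ht => by
    obtain ⟨P, d, hP⟩ := Rg.vpoly hg hμ (Rg.cl_lin cR cξ' t) cξ (fun x => (p x).1)
      fun x => (p x).2.2.2
    obtain ⟨c, hc⟩ := RPow.mono (l := 𝓝[>] 0) (s := id) (C := v) nhdsWithin_le_nhds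
      self_mem_nhdsWithin a P d <| by
      filter_upwards [self_mem_nhdsWithin] with s hs
      obtain ⟨q1, q2⟩ := Rg.vmono hg hμ (Rg.cl_lin (Rg.cl_lin cR cξ' t) cξ s)
        (Rg.cl_lin cσ cξ' (-t)) (fun x => by
          convert (p x).2.2.1.add ((p x).2.1.smul (zero_le_real.2 (sub_nonneg.2 ht.2))) using 1
          push_cast
          module) fun ε hε => by
        obtain ⟨w, w1, w2⟩ := hN ε hε
        refine ⟨w, w1, fun x => ?_⟩
        convert ((w2 x).add ((p x).2.1.smul (zero_le_real.2 ht.1))).add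
          ((p x).1.smul (zero_le_real.2 (le_of_lt hs))) using 1
        abel
      rw [id, hP, abs_of_nonneg q1, ← h1]
      exact q2.trans_eq (RPow.vc fun y => by push_cast; module)
    have e1 : P.eval 1 = v' * t ^ b := by
      rw [hP, ← h2]
      exact RPow.vc fun y => by push_cast; module
    have e2 : Q.eval t = P.eval t := by
      rw [hP, hQ]
      exact RPow.vc fun y => by module
    rw [hc, one_pow, mul_one] at e1
    rw [e2, hc, e1]
    ring
  have : Q = Polynomial.C v' * Polynomial.X ^ (a + b) :=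
    Polynomial.eq_of_infinite_eval_eq _ _ ((Icc_infinite zero_lt_one).mono fun t ht => by
      simpa using k t ht)
  intro t
  rw [vl, ← hQ, this]
  simp

end Pool.Agent.Lib.MP_813db1_ag.VH
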