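import Pool.Agent.Lib.MP_813db1_ag.VH.St7

/-! The pointwise bounds of the first stage, by the maximum principle. -/

namespace Pool.Agent.Lib.MP_813db1_ag.VH

open Pool.Agent.Lib.MP_813db1_ag.HS Pool.Agent.Lib.MP_813db1_ag.AS
open MeasureTheory Complex Matrix Filter Topology Set
open scoped ContDiff ComplexOrder

set_option linter.unusedSectionVars false

noncomputable section

namespace RQ0

theorem num {n s P T N x a b lp lt : ℝ} (hn : 1 ≤ n) (hs : 0 < s) (hN : 0 ≤ N)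
    (h1 : 2 * x - P + s * a ≤ lp) (h2 : N - T + (n + 1) * b ≤ lt) (h3 : P ^ 2 ≤ n * a)
    (h4 : T ^ 2 ≤ n * b) (h5 : x ^ 2 ≤ N * P ^ 2) (h6 : lp + 2 * n / s * lt ≤ 0) :
    s * P + 2 * n * T ≤ 4 * n := by
  have n0 : 0 < n := by linarith
  have k0 : s * lp + 2 * n * lt ≤ 0 := by
    have := mul_le_mul_of_nonneg_left h6 hs.le
    rwa [mul_add, ← mul_assoc, mul_div_cancel₀ _ hs.ne', mul_zero] at this
  have k1 : |4 * n * (s * x)| ≤ 4 * n ^ 2 * N + (s * P) ^ 2 := by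
    refine abs_le_of_sq_le_sq ?_ (by positivity)
    have := mul_le_mul_of_nonneg_left h5 (show 0 ≤ 16 * n ^ 2 * s ^ 2 by positivity)
    linarith [sq_nonneg (4 * n ^ 2 * N - (s * P) ^ 2)]
  have k2 := (abs_le.1 k1).1
  have k3 := mul_le_mul_of_nonneg_left h1 (show 0 ≤ n * s by positivity)
  have k4 := mul_le_mul_of_nonneg_left h2 (show 0 ≤ 2 * n ^ 2 by positivity)
  have k5 := mul_le_mul_of_nonneg_left h3 (sq_nonneg s)
  have k6 := mul_le_mul_of_nonneg_left h4 (show 0 ≤ 2 * n * (n + 1) by positivity)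
  have k7 := mul_le_mul_of_nonneg_left k0 n0.le
  have k8 : 0 ≤ n * T ^ 2 := by positivity
  have k9 : (s * P + 2 * n * T) ^ 2 ≤ 4 * n * (s * P + 2 * n * T) := by
    linarith [sq_nonneg (s * P - 2 * n * T)]
  by_contra c
  have c := not_le.1 c
  linarith [mul_lt_mul_of_pos_right c (show 0 < s * P + 2 * n * T by linarith)]

section loc

variable {ι r : Type} [Fintype ι] [DecidableEq ι] [Fintype r] [DecidableEq r] {z : V ι}

theorem trm_lin (h A B : Mat ι) (c : ℝ) : trm h (A + (c : ℂ) • B) = trm h A + c * trm h B := by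
  rw [trm, trm, trm, Matrix.add_mul, Matrix.smul_mul, trace_add, trace_smul, add_re, smul_eq_mul,
    re_ofReal_mul]

theorem trm_neg (h A : Mat ι) : trm h (-A) = -trm h A := by
  rw [trm, trm, Matrix.neg_mul, trace_neg, neg_re]

theorem t2_ric {h : Mat ι} (hh : h.PosDef) (B τ ξ : Mat ι) (c s : ℝ) :
    t2 h B (-h + ((c : ℂ) • τ + (s : ℂ) • ξ)) = -trm h B + c * t2 h B τ + s * t2 h B ξ := by
  rw [t2, t2, t2, ← add_assoc, Matrix.mul_add, Matrix.mul_add, Matrix.mul_smul, Matrix.mul_smul,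
    trm_lin, trm_lin, Matrix.mul_neg, trm_neg, nonsing_inv_mul_cancel_right _ _
      hh.det_pos.ne'.isUnit]

theorem tg_add (h : Mat ι) (A B : ι → ι → ℂ) :
    tg h (fun i j => A i j + B i j) = tg h A + tg h B := by
  simp only [tg, smul_add, Finset.sum_add_distrib]

/-- the covariant derivative of the Higgs field. -/
def SS (G : V ι → Mat ι) (H : V ι → Mat r) (z : V ι) (k i : ι) : Mat r :=
  dR (fun w => th H w i) k z - ∑ m, gam G k z i m • th H z m

theorem n1_en (G : V ι → Mat ι) (H : V ι → Mat r) {E : V ι → Mat (r × r)}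
    {b : V ι → ι → V (r × r)} (h1 : ∀ᶠ w in 𝓝 z, ∀ i, b w i = vec (th H w i))
    (h2 : ∀ k i, ca E k z *ᵥ b z i = 0) (k i : ι) : n1 G E b z k i = vec (SS G H z k i) := by
  rw [n1, h2, smul_zero, add_zero, dV_congr (h1.mono fun w hw => hw i)]
  simp only [h1.self_of_nhds]
  funext q
  simp only [SS, vec, Pi.sub_apply, Finset.sum_apply, Pi.smul_apply, Matrix.sub_apply,
    Matrix.sum_apply, Matrix.smul_apply]
  rfl

theorem cr_zero (G : V ι → Mat ι) {H : V ι → Mat r} {ψ : V ι → ι → V r}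
    (h : ∀ᶠ w in 𝓝 z, ∀ k i, n2 H ψ w k i = 0) : cr G H ψ z = 0 := by
  have e : ∀ l k i, n1 G H (fun w => n2 H ψ w l) z k i = 0 := fun l k i => by
    rw [n1, dV_congr (h.mono fun w hw => hw l i), dV_const]
    simp [h.self_of_nhds]
  simp [cr, e, tg, ipV]

theorem n1_n2 (G : V ι → Mat ι) {H : V ι → Mat r} {ψ : V ι → ι → V r} (hH : SmR H z)
    (h0 : (H z).det ≠ 0) (hψ : ∀ i, SmV (fun w => ψ w i) z)
    (hn : ∀ᶠ w in 𝓝 z, ∀ k i, n2 H ψ w k i = th H w i *ᵥ star (ψ w k))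
    (hc : ∀ k, (cb H k z).map star = ca H k z)
    (hm : ∀ i k, ca H i z * ca H k z = ca H k z * ca H i z) (l k i : ι) :
    n1 G H (fun w => n2 H ψ w l) z k i =
      SS G H z k i *ᵥ star (ψ z l) + th H z i *ᵥ ((th H z l).map star *ᵥ ψ z k) := by
  have e := congrArg star (hn.self_of_nhds k l)
  rw [n2, star_add, star_smul, Dt.star_mulVec', Dt.star_mulVec', star_star, hc,
    show star (1 / 2 : ℂ) = 1 / 2 by simp] at e
  have e' : th H z i *ᵥ ca H k z *ᵥ star (ψ z l) = ca H k z *ᵥ th H z i *ᵥ star (ψ z l) := by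
    rw [mulVec_mulVec, mulVec_mulVec, th, Matrix.smul_mul, Matrix.mul_smul, hm]
  rw [n1, dV_congr (hn.mono fun w hw => hw l i),
    dV_mulVec (F := fun w => th H w i) ((hH.ca h0 i).csmul _).df (hψ l).df.star, dV_star, ← e,
    mulVec_add, mulVec_smul, e', SS, sub_mulVec, sum_mulVec]
  simp only [hn.self_of_nhds, smul_mulVec]
  abel

end loc

variable {ι X Y G : Type} [Fintype ι] [DecidableEq ι] [TopologicalSpace X] [TopologicalSpace Y]
  [Group G] [MulAction G Y] {M : Atl ι X} {p : Y → X} {r : Type} [Fintype r] [DecidableEq r]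

/-- the Bochner formula at a point of the base. -/
theorem boch (hq : IsQuotientCoveringMap p G) (hB : BoL) {D : Dt M p G r} (hD : D.PH)
    {a : Ch ι X → Y → ι → V r} {ζ h : X → Mat ι} (ha : D.F10 a ζ) (hζ : M.SmF ζ) (hh : M.IsK h)
    (y : X) {e : Ch ι X} {z : V ι} {s : V ι → Y} (he : e = M.ch y) (hz : z = e y)
    (hs : F12.Sec p e z s) : M.lap h (fun y => trm (h y) (ζ y)) y =
      q1 (h y) (D.H (s z)) (n1 (M.repF h e) (D.H ∘ s) (fun w => a e (s w)) z) +
      q2 (h y) (D.H (s z)) (n2 (D.H ∘ s) (fun w => a e (s w)) z) +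
      2 * (cr (M.repF h e) (D.H ∘ s) (fun w => a e (s w)) z).re +
      t2 (h y) (ζ y) (M.ricF h y) +
      q2 (h y) (D.H (s z)) (fun k i => (th (D.H ∘ s) z k).map star *ᵥ a e (s z) i) -
      q1 (h y) (D.H (s z)) (fun k i => th (D.H ∘ s) z k *ᵥ a e (s z) i) := by
  subst he hz
  have A := AY.repA' ι X M
  have he := M.ch_mem y
  have hz := (M.ch y).map_source (M.mem y)
  have k := (hB ι r (M.repF h (M.ch y)) _ (D.H ∘ s) (fun w => a (M.ch y) (s w)) _
    (M.ch y).open_target (hh _ he) hz ⟨D.sm _ he _ hz s hs, (hD.ev (lh hq) he hz hs).mono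
      fun w hw => ⟨D.pos _, D.reH _, hw⟩⟩ (ha.sm _ he _ hz s hs)).1
  have e1 : fn (fun y => trm (h y) (ζ y)) (M.ch y) =ᶠ[𝓝 (M.ch y y)] fun w =>
      (trm (M.repF h (M.ch y) w) (gr ((D.H ∘ s) w) (a (M.ch y) (s w))) : ℂ) := by
    filter_upwards [ha.gr.ev (lh hq) he hz hs, (M.ch y).open_target.eventually_mem hz] with w h1 h2
    have := A.trm_rep h ζ _ he _ ((M.ch y).map_target h2)
    rw [(M.ch y).right_inv h2, h1] at this
    exact congrArg ofReal this.symm
  have e2 := (A.repF_self ζ y).symm.trans (ha.gr _ he _ hz s hs)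
  rw [← (AY.repB' ι X M).lap_rep h _ _ he y (M.mem y)
    ((A.ck_trm h ζ hh hζ _ he _ hz).of_le (by norm_cast)), lapL, levi_congr e1, ← lapL, k,
    A.repF_self, e2]
  rfl

end RQ0

open RQ0

variable {ι X Y G : Type} [Fintype ι] [DecidableEq ι] [Nonempty ι] [TopologicalSpace X]
  [CompactSpace X] [MeasurableSpace X] [TopologicalSpace Y] [Group G] [MulAction G Y]
  {M : Atl ι X} {p : Y → X}

theorem q0S (hq : IsQuotientCoveringMap p G) (hB : BoL) (hN : AlgN) (hT : AlgT)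
    (hEta : EtaS M p G) (hEn : EnS M p G) : Q0S M p G := by
  intro g μ u h r _ _ D c x τ ξ ph aff rx px tau xi F
  obtain ⟨a, ha, -, h2⟩ := hEta r D c x ξ aff xi
  replace h2 := h2 rx px
  obtain ⟨E, b, hE⟩ := hEn r D τ ph tau
  have A := AY.repA' ι X M
  have B := AY.repB' ι X M
  have n1' : (1 : ℝ) ≤ Fintype.card ι := by exact_mod_cast Fintype.card_pos
  have sτ : M.SmF τ := smF_of hq tau fun e he z hz s hs i j =>
    ((((D.sm e he z hz s hs).ca (D.det_ne _) i).mul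
      ((D.sm e he z hz s hs).cb (D.det_ne _) j)).trace).div_const 4
  have sξ : M.SmF ξ := fun e he => (F.cζ e he).1
  have pτ : ∀ y, (τ y).PosSemidef := fun y => by
    obtain ⟨s, -, hs⟩ := hE.f.gr.base hq y
    rw [A.repF_self] at hs
    rw [hs]
    exact (hN ι _ (g y) _ (((A.isK_iff g).1 F.kg).2 y) (E.pos _)).2.2.1 _
  refine ⟨4 * Fintype.card ι, fun s hs y => ?_⟩
  have hh := F.k s hs
  have pd := ((A.isK_iff _).1 hh).2
  have c1 : M.Ck 2 fun y => trm (h s y) (ξ y) := fun e he z hz =>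
    (A.ck_trm _ ξ hh sξ e he z hz).of_le (by norm_cast)
  have c2 : M.Ck 2 fun y => trm (h s y) (τ y) := fun e he z hz =>
    (A.ck_trm _ τ hh sτ e he z hz).of_le (by norm_cast)
  have c3 : M.Ck 2 fun y => trm (h s y) (ξ y) + 2 * Fintype.card ι / s * trm (h s y) (τ y) :=
    fun e he z hz => by
      refine ((c1 e he z hz).add ((contDiffAt_const (c := ((2 * Fintype.card ι / s : ℝ) : ℂ))).mul
        (c2 e he z hz))).congr_of_eventuallyEq (Eventually.of_forall fun w => ?_)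
      simp only [fn, ofReal_add, ofReal_mul]
  obtain ⟨y0, -, hy0⟩ := isCompact_univ.exists_isMaxOn ⟨y, mem_univ y⟩
    (A.cont _ fun e he z hz => (c3 e he z hz).of_le (by norm_cast)).continuousOn
  have m0 := mat.trm_nonneg ι _ _ (pd y0) (B.max _ y0 c3 fun y => hy0 (mem_univ y))
  rw [B.ddc_add _ _ c1 c2, trm_neg, trm_lin, neg_nonneg] at m0
  have he := M.ch_mem y0
  have hz := (M.ch y0).map_source (M.mem y0)
  obtain ⟨t, ht⟩ := sec_ex' hq hz
  have b1 := boch hq hB ph ha sξ hh y0 rfl rfl ht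
  have b2 := boch hq hB hE.ph hE.f sτ hh y0 rfl rfl ht
  have gξ := (A.repF_self ξ y0).symm.trans (ha.gr _ he _ hz t ht)
  have gτ := (A.repF_self τ y0).symm.trans (hE.f.gr _ he _ hz t ht)
  have gh := A.repF_self (h s) y0
  have v := hE.val.ev (lh hq) he hz ht
  have w := h2.ev (lh hq) he hz ht
  have z2 := hE.hol.ev (lh hq) he hz ht
  have com := hE.com _ he _ hz t ht
  have crD := n1_n2 (M.repF (h s) (M.ch y0)) (ψ := fun w => a (M.ch y0) (t w))
    (D.sm _ he _ hz t ht) (D.det_ne _) (ha.sm _ he _ hz t ht) (w.mono fun _ hw k i => (hw k i).1)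
    Dt.cb_conj (ph _ he _ hz t ht).2
  have nE := n1_en (M.repF (h s) (M.ch y0)) (D.H ∘ t) v com
  generalize M.ch y0 y0 = z at *
  have gθ : grE (D.H (t z)) (th (D.H ∘ t) z) = τ y0 := by
    rw [gτ]
    ext i j
    rw [gr, grE, of_apply, of_apply, v.self_of_nhds, v.self_of_nhds, hE.ip]
  obtain ⟨-, t1, -, -, -, t3, -, t4⟩ := hT ι r (h s y0) (D.H (t z)) (th (D.H ∘ t) z)
    (a (M.ch y0) (t z)) ⟨pd y0, D.pos _, D.reH _, fun k => by
      rw [th, transpose_smul, Matrix.smul_mul, Matrix.mul_smul, Dt.ca_sym]⟩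
  have t1 := t1 fun k i => (w.self_of_nhds k i).2.1
  have t4 := t4 (SS (M.repF (h s) (M.ch y0)) (D.H ∘ t) z)
  have ND := (hN ι r _ _ (pd y0) (D.pos (t z))).1
  have NE := (hN ι _ _ _ (pd y0) (E.pos (t z))).1
  rw [gθ, ← gξ] at t1
  rw [← gξ] at t4
  have k1 : q1 (h s y0) (E.H (t z)) (n1 (M.repF (h s) (M.ch y0)) (E.H ∘ t)
      (fun w => b (M.ch y0) (t w)) z) = (tg (h s y0) fun k l => tg (h s y0) fun i j =>
        ipE (D.H (t z)) (SS (M.repF (h s) (M.ch y0)) (D.H ∘ t) z k i)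
          (SS (M.repF (h s) (M.ch y0)) (D.H ∘ t) z l j)).re := by
    simp only [q1, nE, hE.ip]
  have k2 : q1 (h s y0) (E.H (t z)) (fun k i => th (E.H ∘ t) z k *ᵥ b (M.ch y0) (t z) i) = 0 := by
    simp only [th, smul_mulVec, com, smul_zero]
    simp [q1, tg, ipV]
  rw [← k1] at t4
  rw [cr_zero _ z2, k2, F.ric s hs, t2_ric (pd y0)] at b2
  rw [cr, gh, F.ric s hs, t2_ric (pd y0)] at b1
  simp only [crD, Function.comp_apply, Dt.ipV_add_left, tg_add, add_re] at b1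
  have N2 := (hN ι r _ _ (pd y0) (D.pos (t z))).2.2.2.2.2
  have q := num n1' hs.1 (NE _).1 (a := t2 (h s y0) (ξ y0) (ξ y0))
    (b := t2 (h s y0) (τ y0) (τ y0)) (lp := M.lap (h s) (fun y => trm (h s y) (ξ y)) y0)
    (lt := M.lap (h s) (fun y => trm (h s y) (τ y)) y0) (by
      rw [b1]
      linarith [(ND (n1 (M.repF (h s) (M.ch y0)) (D.H ∘ t) (fun w => a (M.ch y0) (t w)) z)).1,
        (ND (n2 (D.H ∘ t) (fun w => a (M.ch y0) (t w)) z)).2.1,
        (ND fun k i => (th (D.H ∘ t) z k).map star *ᵥ a (M.ch y0) (t z) i).2.1,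
        (N2 _ _ (F.pζ y0) (pτ y0)).1]) (by
      rw [b2, zero_re]
      linarith [(NE (n2 (E.H ∘ t) (fun w => b (M.ch y0) (t w)) z)).2.1,
        (NE fun k i => (th (E.H ∘ t) z k).map star *ᵥ b (M.ch y0) (t z) i).2.1,
        mul_nonneg hs.1.le (N2 _ _ (pτ y0) (F.pζ y0)).1])
    (mat.sq ι _ _ (pd y0) (F.pζ y0)).1 (mat.sq ι _ _ (pd y0) (pτ y0)).1
    ((sq_le_sq' (abs_le.1 (abs_re_le_norm _)).1 (re_le_norm _)).trans t4) m0
  have u1 := mul_le_mul_of_nonneg_left (hy0 (mem_univ y)) hs.1.le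
  simp only [mul_add, ← mul_assoc, mul_div_cancel₀ _ hs.1.ne'] at u1
  have u2 := mat.trm_nonneg ι _ _ (pd y) (pτ y)
  have u3 := mul_nonneg hs.1.le (mat.trm_nonneg ι _ _ (pd y) (F.pζ y))
  have u4 := mul_le_mul_of_nonneg_right n1' u2
  constructor <;> linarith

end

end Pool.Agent.Lib.MP_813db1_ag.VH
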