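import Pool.Agent.Lib.MP_813db1_ag.VH.Stmt
import Pool.Agent.Lib.MP_813db1_ag.HS.Calc

/-! The forms of the Higgs field and of an equivariant map. -/

namespace Pool.Agent.Lib.MP_813db1_ag.VH

open Pool.Agent.Lib.MP_813db1_ag.HS Pool.Agent.Lib.MP_813db1_ag.AS
open Complex Matrix Filter Topology Set
open scoped ContDiff ComplexOrder MatrixOrder

set_option linter.unusedSectionVars false

noncomputable section

namespace Frm

section loc

variable {ι r σ τ : Type} [Fintype ι] [DecidableEq ι] [Fintype r] [DecidableEq r] {z : V ι}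
  {H : V ι → Mat r} {x u v : V ι → V r}

theorem df {f : V ι → ℂ} (h : ContDiffAt ℝ ∞ f z) : DifferentiableAt ℝ f z :=
  h.differentiableAt (by simp)

theorem two {f : V ι → ℂ} (h : ContDiffAt ℝ ∞ f z) : ContDiffAt ℝ 2 f z :=
  h.of_le (by norm_cast)

/-- smooth vectors. -/
def SmV (x : V ι → V r) (z : V ι) : Prop := ∀ a, ContDiffAt ℝ ∞ (fun w => x w a) z

theorem sm_const (A : Matrix σ τ ℂ) : SmR (fun _ : V ι => A) z := fun _ _ => contDiffAt_const

theorem sm_mul {F : V ι → Matrix σ r ℂ} {F' : V ι → Matrix r τ ℂ} (h : SmR F z) (h' : SmR F' z) :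
    SmR (fun w => F w * F' w) z := fun i j => ContDiffAt.sum fun a _ => (h i a).mul (h' a j)

theorem sm_dR {F : V ι → Matrix σ τ ℂ} (h : SmR F z) (k : ι) : SmR (dR F k) z :=
  fun i j => contDiffAt_dz_top (h i j) k

theorem sm_dRb {F : V ι → Matrix σ τ ℂ} (h : SmR F z) (k : ι) : SmR (dRb F k) z :=
  fun i j => contDiffAt_dzb_top (h i j) k

theorem sm_det (h : SmR H z) : ContDiffAt ℝ ∞ (fun w => (H w).det) z := by
  simp only [det_apply']
  exact ContDiffAt.sum fun _ _ => contDiffAt_const.mul (contDiffAt_prod fun i _ => h _ i)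

theorem sm_inv (h : SmR H z) (h0 : (H z).det ≠ 0) : SmR (fun w => (H w)⁻¹) z := fun i j => by
  simp only [Matrix.inv_def, Ring.inverse_eq_inv', Matrix.smul_apply, smul_eq_mul, adjugate_apply]
  refine ((sm_det h).inv h0).mul (sm_det fun a b => ?_)
  by_cases e : a = j <;> simp only [updateRow_apply, e, if_true, if_false]
  exacts [contDiffAt_const, h a b]

theorem dR_const (A : Matrix σ τ ℂ) (k : ι) : dR (fun _ : V ι => A) k z = 0 :=
  Matrix.ext fun i j => dz_const (A i j) k z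

theorem dRb_const (A : Matrix σ τ ℂ) (k : ι) : dRb (fun _ : V ι => A) k z = 0 :=
  Matrix.ext fun i j => dzb_const (A i j) k z

theorem dR_mul {F : V ι → Matrix σ r ℂ} {F' : V ι → Matrix r τ ℂ} (h : SmR F z) (h' : SmR F' z)
    (k : ι) : dR (fun w => F w * F' w) k z = dR F k z * F' z + F z * dR F' k z := by
  ext i j
  refine (dz_sum _ (fun a _ => df ((h i a).mul (h' a j))) k).trans ?_
  rw [Matrix.add_apply, mul_apply, mul_apply, ← Finset.sum_add_distrib]
  exact Finset.sum_congr rfl fun a _ => dz_mul (df (h i a)) (df (h' a j)) k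

theorem dRb_mul {F : V ι → Matrix σ r ℂ} {F' : V ι → Matrix r τ ℂ} (h : SmR F z) (h' : SmR F' z)
    (k : ι) : dRb (fun w => F w * F' w) k z = dRb F k z * F' z + F z * dRb F' k z := by
  ext i j
  refine (dzb_sum _ (fun a _ => df ((h i a).mul (h' a j))) k).trans ?_
  rw [Matrix.add_apply, mul_apply, mul_apply, ← Finset.sum_add_distrib]
  exact Finset.sum_congr rfl fun a _ => dzb_mul (df (h i a)) (df (h' a j)) k

theorem dz_dot (hu : SmV u z) (hv : SmV v z) (k : ι) :
    dz (fun w => u w ⬝ᵥ v w) k z = dV u k z ⬝ᵥ v z + u z ⬝ᵥ dV v k z := by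
  refine (dz_sum _ (fun a _ => df ((hu a).mul (hv a))) k).trans ?_
  rw [dotProduct, dotProduct, ← Finset.sum_add_distrib]
  exact Finset.sum_congr rfl fun a _ => dz_mul (df (hu a)) (df (hv a)) k

theorem sm_mv (h : SmR H z) (hv : SmV v z) : SmV (fun w => H w *ᵥ v w) z :=
  fun i => ContDiffAt.sum fun a _ => (h i a).mul (hv a)

theorem dV_mv (h : SmR H z) (hv : SmV v z) (k : ι) :
    dV (fun w => H w *ᵥ v w) k z = dR H k z *ᵥ v z + H z *ᵥ dV v k z :=
  funext fun i => dz_dot (u := fun w => H w i) (h i) hv k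

theorem inv_mul (hp : ∀ w, (H w).PosDef) (w : V ι) : (H w)⁻¹ * H w = 1 :=
  nonsing_inv_mul _ (hp w).det_pos.ne'.isUnit

theorem mul_inv (hp : ∀ w, (H w).PosDef) (w : V ι) : H w * (H w)⁻¹ = 1 :=
  mul_nonsing_inv _ (hp w).det_pos.ne'.isUnit

theorem dR_inv_mul (hp : ∀ w, (H w).PosDef) (h : SmR H z) {F : V ι → Mat r} (h' : SmR F z)
    (k : ι) : dR (fun w => (H w)⁻¹ * F w) k z =
      (H z)⁻¹ * dR F k z - ca H k z * ((H z)⁻¹ * F z) := by
  have i := sm_inv h (hp z).det_pos.ne'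
  have h1 := dR_mul h (sm_mul i h') k
  simp only [← Matrix.mul_assoc, mul_inv hp, Matrix.one_mul] at h1
  rw [show dR F k z = _ from h1, Matrix.mul_add, ← Matrix.mul_assoc _ (H z), inv_mul hp, ca]
  simp only [Matrix.mul_assoc, Matrix.one_mul, add_sub_cancel_left]

theorem sm_ca (hp : ∀ w, (H w).PosDef) (h : SmR H z) (k : ι) : SmR (ca H k) z :=
  sm_mul (sm_inv h (hp z).det_pos.ne') (sm_dR h k)

theorem sm_cb (hp : ∀ w, (H w).PosDef) (h : SmR H z) (k : ι) : SmR (cb H k) z :=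
  sm_mul (sm_inv h (hp z).det_pos.ne') (sm_dRb h k)

theorem tau_sm (hp : ∀ w, (H w).PosDef) (h : SmR H z) : SmR (tauL H) z := fun i j =>
  (ContDiffAt.sum fun a _ => sm_mul (sm_ca hp h i) (sm_cb hp h j) a a).div_const 4

theorem tau_psd (hp : ∀ w, (H w).PosDef) (z : V ι) : (tauL H z).PosSemidef := by
  obtain ⟨S, hS⟩ := CStarAlgebra.nonneg_iff_eq_star_mul_self.1 (hp z).inv.posSemidef.nonneg
  have h1 : ∀ j, dRb H j z = (dR H j z)ᴴ := fun j => Matrix.ext fun a b => by
    have : (fun w => H w a b) = fun w => star (H w b a) :=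
      funext fun w => ((hp w).1.apply a b).symm
    show dzb (fun w => H w a b) j z = star (dz (fun w => H w b a) j z)
    rw [this, dzb_star]
  let C : Matrix ι (r × r) ℂ := Matrix.of fun i a => (S * dR H i z * Sᴴ) a.1 a.2
  have h2 : tauL H z = (1 / 4 : ℂ) • (C * Cᴴ) := by
    ext i j
    have h3 : trace (ca H i z * cb H j z) =
        trace (S * dR H i z * Sᴴ * (S * dR H j z * Sᴴ)ᴴ) := by
      rw [ca, cb, h1, hS, star_eq_conjTranspose, conjTranspose_mul, conjTranspose_mul,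
        conjTranspose_conjTranspose, Matrix.mul_assoc Sᴴ, Matrix.mul_assoc Sᴴ, trace_mul_comm]
      simp only [Matrix.mul_assoc]
    rw [tauL, of_apply, h3, Matrix.smul_apply, mul_apply, Fintype.sum_prod_type, smul_eq_mul,
      div_eq_inv_mul, one_div]
    rfl
  rw [h2]
  exact (posSemidef_self_mul_conjTranspose C).smul (by positivity)

theorem tau_cl (hp : ∀ w, (H w).PosDef) (h : SmR H z) (h1 : ∀ i j, ph H i j z = 0)
    (h2 : ∀ i k, ca H i z * ca H k z = ca H k z * ca H i z) (i j k : ι) :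
    dz (fun w => tauL H w i j) k z = dz (fun w => tauL H w k j) i z := by
  have key : ∀ i k, dz (fun w => tauL H w i j) k z =
      4⁻¹ * trace (((H z)⁻¹ * dR (dR H i) k z - ca H k z * ca H i z) * cb H j z) := fun i k => by
    have m := sm_mul (sm_ca hp h i) (sm_cb hp h j)
    have e1 : dz (fun w => trace (ca H i w * cb H j w)) k z =
        trace (dR (fun w => ca H i w * cb H j w) k z) := dz_sum _ (fun a _ => df (m a a)) k
    have e2 : dR (ca H i) k z = _ := dR_inv_mul hp h (sm_dR h i) k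
    have e3 : dR (cb H j) k z = _ := dR_inv_mul hp h (sm_dRb h j) k
    have e4 := congrArg (fun B => trace (ca H i z * B)) (h1 k j)
    have e5 : trace (ca H i z * (cb H j z * ca H k z)) =
        trace (ca H i z * (ca H k z * cb H j z)) := by
      rw [← Matrix.mul_assoc, trace_mul_comm, ← Matrix.mul_assoc, h2 k i, Matrix.mul_assoc]
    simp only [ph, Matrix.mul_sub, Matrix.mul_add, Matrix.mul_smul, trace_sub, trace_add,
      trace_smul, Matrix.mul_zero, trace_zero, smul_eq_mul, e5] at e4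
    simp only [tauL, of_apply, div_eq_inv_mul]
    rw [dz_cmul (f := fun w => trace (ca H i w * cb H j w)) _
      (df (ContDiffAt.sum fun a _ => m a a)), e1,
      dR_mul (sm_ca hp h i) (sm_cb hp h j), e2, e3, trace_add, Matrix.mul_sub (ca H i z),
      trace_sub]
    show _ * (trace ((_ - _ * ca H i z) * _) + (_ - trace (_ * (_ * cb H j z)))) = _
    linear_combination (1 / 8 : ℂ) * e4
  have e : dR (dR H i) k z = dR (dR H k) i z :=
    Matrix.ext fun a b => dz_dz_comm (two (h a b)) k i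
  rw [key, key, e, h2]

theorem tau_inv (h : SmR H z) {P Q : Mat r} (h1 : Q * P = 1) (hp : ∀ w, (H w).PosDef) :
    tauL (fun w => Pᵀ * H w * P) z = tauL H z := by
  have h2 := mul_eq_one_comm.1 h1
  have h3 : Qᵀ * Pᵀ = 1 := by rw [← transpose_mul, h2, transpose_one]
  have e : ∀ B : Mat r, (Pᵀ * H z * P)⁻¹ * (Pᵀ * B * P) = Q * ((H z)⁻¹ * B) * P := fun B => by
    have e0 : ∀ B : Mat r, Q * (H z)⁻¹ * Qᵀ * (Pᵀ * B * P) = Q * ((H z)⁻¹ * B) * P := fun B => by
      rw [Matrix.mul_assoc _ Qᵀ, ← Matrix.mul_assoc Qᵀ, ← Matrix.mul_assoc Qᵀ, h3]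
      simp only [Matrix.mul_assoc, Matrix.one_mul]
    rw [inv_eq_left_inv (B := Q * (H z)⁻¹ * Qᵀ) (by rw [e0, inv_mul hp, Matrix.mul_one, h1]), e0]
  ext i j
  simp only [tauL, of_apply, ca, cb]
  rw [dR_mul (sm_mul (sm_const _) h) (sm_const _), dR_mul (sm_const _) h,
    dRb_mul (sm_mul (sm_const _) h) (sm_const _), dRb_mul (sm_const _) h]
  simp only [dR_const, dRb_const, Matrix.zero_mul, Matrix.mul_zero, add_zero, zero_add, e]
  rw [Matrix.mul_assoc _ P, ← Matrix.mul_assoc P, ← Matrix.mul_assoc P, h2, Matrix.one_mul,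
    ← Matrix.mul_assoc, trace_mul_comm, ← Matrix.mul_assoc, ← Matrix.mul_assoc,
    ← Matrix.mul_assoc, ← Matrix.mul_assoc, h2]
  simp only [Matrix.mul_assoc, Matrix.one_mul]

theorem tau_tr {φ : V ι → V ι} (h : SmR H (φ z)) (hφ : DifferentiableAt ℂ φ z) :
    tauL (H ∘ φ) z = pull (jac φ z) (tauL H (φ z)) := by
  have e1 : ∀ i, dR (H ∘ φ) i z = ∑ a, jac φ z a i • dR H a (φ z) := fun i => by
    ext a b
    rw [Matrix.sum_apply]
    exact dz_comp (df (h a b)) hφ i
  have e2 : ∀ i, dRb (H ∘ φ) i z = ∑ a, star (jac φ z a i) • dRb H a (φ z) := fun i => by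
    ext a b
    rw [Matrix.sum_apply]
    exact dzb_comp (df (h a b)) hφ i
  ext i j
  simp only [tauL, ca, cb, e1, e2, pull, of_apply, mul_apply (M := _ * _) (N := Matrix.map _ _),
    mul_apply (M := (jac φ z)ᵀ), Matrix.mul_smul,
    Matrix.smul_mul, trace_sum, trace_smul, Finset.sum_div, Finset.sum_mul, Finset.mul_sum,
    transpose_apply, map_apply, smul_eq_mul, Function.comp]
  exact Finset.sum_congr rfl fun a _ => Finset.sum_congr rfl fun b _ => by ring

/-- the matrix of the first derivatives. -/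
def dX (x : V ι → V r) (z : V ι) : Matrix ι r ℂ := Matrix.of fun i => dV x i z

theorem xi_eq (H : V ι → Mat r) (x : V ι → V r) (z : V ι) :
    xiL H x z = dX x z * H z * (dX x z)ᴴ := by
  ext i j
  simp only [xiL, ipV, of_apply, mul_apply, Finset.sum_mul, dX, conjTranspose_apply]
  rw [Finset.sum_comm]
  exact Finset.sum_congr rfl fun a _ => Finset.sum_congr rfl fun b _ => by ring

theorem xi_psd (hp : ∀ w, (H w).PosDef) (x : V ι → V r) (z : V ι) : (xiL H x z).PosSemidef :=
  xi_eq H x z ▸ (hp z).posSemidef.mul_mul_conjTranspose_same _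

theorem xi_sm (h : SmR H z) (hx : SmV x z) : SmR (xiL H x) z := fun i j =>
  ContDiffAt.sum fun a _ => ContDiffAt.sum fun b _ => ((h a b).mul
    (contDiffAt_dz_top (hx a) i)).mul
      (conjCLE.contDiff.contDiffAt.comp z (contDiffAt_dz_top (hx b) j))

theorem xi_inv (hx : SmV x z) {P Q : Mat r} (h1 : P * Q = 1) (h2 : Q.map star = Q) (c : V r) :
    xiL (fun w => Pᵀ * H w * P) (fun w => Q *ᵥ x w + c) z = xiL H x z := by
  have e : dX (fun w => Q *ᵥ x w + c) z = dX x z * Qᵀ := by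
    ext i a
    have e1 := congrFun (dV_mv (sm_const Q) hx i) a
    rw [dR_const, zero_mulVec, zero_add] at e1
    refine (dz_add (df (sm_mv (sm_const Q) hx a)) (differentiableAt_const (c a)) i).trans ?_
    rw [dz_const, add_zero]
    exact e1.trans (dotProduct_comm _ _)
  have h3 : Qᵀ * Pᵀ = 1 := by rw [← transpose_mul, h1, transpose_one]
  rw [xi_eq, xi_eq, e, conjTranspose_mul, show Qᵀᴴ = Q from h2, Matrix.mul_assoc _ Qᵀ,
    ← Matrix.mul_assoc Qᵀ, ← Matrix.mul_assoc Qᵀ, h3, Matrix.one_mul, Matrix.mul_assoc,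
    Matrix.mul_assoc, ← Matrix.mul_assoc P, h1, Matrix.one_mul, Matrix.mul_assoc]

theorem xi_tr {φ : V ι → V ι} (hx : SmV x (φ z)) (hφ : DifferentiableAt ℂ φ z) :
    xiL (H ∘ φ) (x ∘ φ) z = pull (jac φ z) (xiL H x (φ z)) := by
  have e : dX (x ∘ φ) z = (jac φ z)ᵀ * dX x (φ z) :=
    Matrix.ext fun i a => dz_comp (df (hx a)) hφ i
  rw [xi_eq, xi_eq, e, conjTranspose_mul, pull]
  simp only [Matrix.mul_assoc]
  rfl

theorem xi_cl (hp : ∀ w, (H w).PosDef) (hr : ∀ w, (H w).map star = H w) (h : SmR H z)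
    (hx : SmV x z) (rx : ∀ w, star (x w) = x w) (h1 : ∀ i j, px H x i j z = 0)
    (h2 : ∀ i k, ca H i z *ᵥ dV x k z = ca H k z *ᵥ dV x i z) (i j k : ι) :
    dz (fun w => xiL H x w i j) k z = dz (fun w => xiL H x w k j) i z := by
  have sy : ∀ a b, (fun w => H w a b) = fun w => H w b a := fun a b => funext fun w =>
    ((hp w).1.apply a b).symm.trans (congrFun₂ (hr w) b a)
  have s1 : ∀ (B : Mat r), (∀ a b, B a b = B b a) → ∀ s t : V r, s ⬝ᵥ B *ᵥ t = t ⬝ᵥ B *ᵥ s :=
    fun B hB s t => by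
      rw [dotProduct_mulVec, dotProduct_comm, ← mulVec_transpose,
        show Bᵀ = B from Matrix.ext fun a b => hB b a]
  have s2 : ∀ k a b, dR H k z a b = dR H k z b a := fun k a b => congrArg (dz · k z) (sy a b)
  have s3 : ∀ k a b, dRb H k z a b = dRb H k z b a := fun k a b => congrArg (dzb · k z) (sy a b)
  have a1 : ∀ k t, H z *ᵥ ca H k z *ᵥ t = dR H k z *ᵥ t := fun k t => by
    rw [mulVec_mulVec, ca, ← Matrix.mul_assoc, mul_inv hp, Matrix.one_mul]
  have a2 : ∀ k t, H z *ᵥ cb H k z *ᵥ t = dRb H k z *ᵥ t := fun k t => by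
    rw [mulVec_mulVec, cb, ← Matrix.mul_assoc, mul_inv hp, Matrix.one_mul]
  have key : ∀ i k, dz (fun w => xiL H x w i j) k z = dV (dV x i) k z ⬝ᵥ H z *ᵥ dVb x j z +
      2⁻¹ * (dVb x j z ⬝ᵥ H z *ᵥ ca H k z *ᵥ dV x i z - dV x i z ⬝ᵥ dRb H j z *ᵥ dV x k z) := by
    intro i k
    have e1 : (fun w => xiL H x w i j) = fun w => dV x i w ⬝ᵥ H w *ᵥ dVb x j w := funext fun w => by
      have : ∀ b, star (dV x j w b) = dVb x j w b := fun b =>
        (dzb_real (Eventually.of_forall fun y => congrFun (rx y) b) j).symm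
      simp only [xiL, ipV, of_apply, this, dotProduct, mulVec, Finset.mul_sum]
      exact Finset.sum_congr rfl fun a _ => Finset.sum_congr rfl fun b _ => by ring
    have m1 : SmV (dV x i) z := fun a => contDiffAt_dz_top (hx a) i
    have m2 : SmV (dVb x j) z := fun a => contDiffAt_dzb_top (hx a) j
    have e2 := congrArg (fun t => dV x i z ⬝ᵥ H z *ᵥ t) (h1 k j)
    simp only [px, mulVec_add, mulVec_smul, dotProduct_add, dotProduct_smul, a1, a2, mulVec_zero,
      dotProduct_zero, smul_eq_mul] at e2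
    rw [e1, dz_dot m1 (sm_mv h m2), dV_mv h m2, dotProduct_add, a1, s1 _ (s2 k) (dVb x j z)]
    linear_combination (1 / 2 : ℂ) * e2
  have e : dV (dV x i) k z = dV (dV x k) i z := funext fun a => dz_dz_comm (two (hx a)) k i
  rw [key, key, e, h2, s1 _ (s3 j) (dV x i z)]

end loc

variable {ι X Y G : Type} [Fintype ι] [DecidableEq ι] [TopologicalSpace X] [TopologicalSpace Y]
  [Group G] [MulAction G Y] {M : Atl ι X} {p : Y → X}

/-- descent of a form that is given on the sheets. -/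
theorem desc (hq : IsQuotientCoveringMap p G) (T : (V ι → Y) → V ι → Mat ι)
    (h1 : ∀ s s' z, s =ᶠ[𝓝 z] s' → T s z = T s' z)
    (h2 : Loc M p fun _ z s => ∀ g : G, T (fun w => g • s w) z = T s z)
    (h3 : Loc M p fun _ z' s => ∀ φ z, φ z = z' → DifferentiableAt ℂ φ z →
      T (s ∘ φ) z = pull (jac φ z) (T s z'))
    (h4 : ∀ s z, (T s z).PosSemidef) (h5 : Loc M p fun _ z s => SmR (T s) z) :
    ∃ τ, (Loc M p fun e z s => M.repF τ e z = T s z) ∧ M.SmF τ ∧ (∀ a, (τ a).PosSemidef) ∧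
      ((Loc M p fun _ z s => ∀ i j k, dz (fun w => T s w i j) k z = dz (fun w => T s w k j) i z) →
        M.ClF τ) := by
  have hp := hq.isCoveringMap.isLocalHomeomorph
  choose σ hσ using hq.surjective
  let τ : X → Mat ι := fun a => T (F12.sh hp (σ a) (M.ch a)) (M.ch a a)
  have key : Loc M p fun e z s => M.repF τ e z = T s z := by
    intro e he z hz s hs
    have h0 := hs.2.self_of_nhds
    have e4 := F12.dl_smul hq ((hσ _).trans h0.symm)
    have hx := M.mem (e.symm z)
    have e5 := F12.sh_self hp (e := M.ch (e.symm z)) (y := σ (e.symm z)) (by rw [hσ]; exact hx)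
    rw [hσ] at e5
    have e8 : (fun w => F12.dl G (s z) (σ (e.symm z)) • s w) =ᶠ[𝓝 z]
        F12.sh hp (σ (e.symm z)) (M.ch (e.symm z)) ∘ (M.ch (e.symm z) ∘ e.symm) := by
      filter_upwards [(hs.smul hq (F12.dl G (s z) (σ (e.symm z)))).eq hp hz,
        F1.ev hz (M.ch (e.symm z)).open_source hx] with w h9 h10
      simp only [Function.comp, h9, e4, F12.sh, (M.ch (e.symm z)).left_inv h10.2]
    show M.repF τ e z = T s z
    rw [← h2 e he z hz s hs, h1 _ _ _ e8, h3 _ (M.ch_mem _) _ ((M.ch _).map_source hx) _ e5.1 _ z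
      rfl (F1.an he (M.ch_mem _) hz hx).differentiableAt, Atl.repF, tj, e.right_inv hz]
  have ev : ∀ e ∈ M.A, ∀ z ∈ e.target, ∃ s, F12.Sec p e z s ∧
      ∀ i j, (fun w => M.repF τ e w i j) =ᶠ[𝓝 z] fun w => T s w i j := fun e he z hz => by
    have e5 := (F12.sh_self hp (e := e) (y := σ (e.symm z))
      (by rw [hσ]; exact e.map_target hz)).1
    rw [hσ, e.right_inv hz] at e5
    refine ⟨_, e5, fun i j => ?_⟩
    filter_upwards [e5.ev hp hz, e.open_target.eventually_mem hz] with w h6 h7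
    exact congrFun₂ (key e he w h7 _ h6) i j
  have sm : M.SmF τ := fun e he z hz i j => by
    obtain ⟨s, hs, h⟩ := ev e he z hz
    exact (h5 e he z hz s hs i j).congr_of_eventuallyEq (h i j)
  refine ⟨τ, key, sm, fun a => h4 _ _, fun hc e he => ⟨sm e he, fun z hz => ?_,
    fun z hz i j k => ?_⟩⟩
  · obtain ⟨s, hs, -⟩ := ev e he z hz
    exact key e he z hz s hs ▸ (h4 s z).1
  · obtain ⟨s, hs, h⟩ := ev e he z hz
    rw [dz_congr (h i j), dz_congr (h k j)]
    exact hc e he z hz s hs i j k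

end Frm

open VH.Frm

variable {ι X Y G : Type} [Fintype ι] [DecidableEq ι] [TopologicalSpace X] [TopologicalSpace Y]
  [Group G] [MulAction G Y] {M : Atl ι X} {p : Y → X}

theorem frmS (hq : IsQuotientCoveringMap p G) : FrmS M p G := by
  intro r _ _ D
  have i1 : ∀ g, D.ρ g * D.ρ g⁻¹ = 1 := fun g => by rw [← map_mul, mul_inv_cancel, map_one]
  have i2 : ∀ g, D.ρ g⁻¹ * D.ρ g = 1 := fun g => by rw [← map_mul, inv_mul_cancel, map_one]
  have eq : ∀ (g : G) (s : V ι → Y), (D.H ∘ fun w => g • s w) =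
      fun w => (D.ρ g⁻¹)ᵀ * (D.H ∘ s) w * D.ρ g⁻¹ := fun g s => funext fun w => D.eqv g (s w)
  refine ⟨?_, fun c x hx => ?_⟩
  · refine (desc (M := M) hq (fun s => tauL (D.H ∘ s)) (fun s s' z h => ?_)
      (fun e he z hz s hs g => ?_) (fun e he z' hz s hs φ z h hφ => ?_)
      (fun s z => tau_psd (fun w => D.pos _) z)
      fun e he z hz s hs => tau_sm (fun w => D.pos _) (D.sm e he z hz s hs)).imp
      fun τ ⟨t1, t2, t3, t4⟩ => ⟨t1, t2, t3, fun h => t4 fun e he z hz s hs => tau_cl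
        (fun w => D.pos _) (D.sm e he z hz s hs) (h e he z hz s hs).1 (h e he z hz s hs).2⟩
    · have e0 : ∀ a b, (fun w => (D.H ∘ s) w a b) =ᶠ[𝓝 z] fun w => (D.H ∘ s') w a b :=
        fun a b => h.mono fun w hw => by simp only [Function.comp, hw]
      have e1 : ∀ k, dR (D.H ∘ s) k z = dR (D.H ∘ s') k z :=
        fun k => Matrix.ext fun a b => dz_congr (e0 a b) k
      have e2 : ∀ k, dRb (D.H ∘ s) k z = dRb (D.H ∘ s') k z :=
        fun k => Matrix.ext fun a b => dzb_congr (e0 a b) k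
      simp only [tauL, ca, cb, e1, e2, Function.comp_apply, h.self_of_nhds]
    · rw [eq]
      exact tau_inv (D.sm e he z hz s hs) (i1 g) fun w => D.pos _
    · subst h
      exact tau_tr (H := D.H ∘ s) (D.sm e he _ hz s hs) hφ
  · have sx : Loc M p fun _ z s => SmV (x ∘ s) z :=
      fun e he z hz s hs => contDiffAt_pi.1 (hx.1 e he z hz s hs)
    refine (desc (M := M) hq (fun s => xiL (D.H ∘ s) (x ∘ s))
      (fun s s' z h => ?_) (fun e he z hz s hs g => ?_) (fun e he z' hz s hs φ z h hφ => ?_)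
      (fun s z => xi_psd (fun w => D.pos _) _ z)
      fun e he z hz s hs => xi_sm (D.sm e he z hz s hs) (sx e he z hz s hs)).imp
      fun ξ ⟨t1, t2, t3, t4⟩ => ⟨t1, t2, t3, fun rx h => t4 fun e he z hz s hs => xi_cl (fun w => D.pos _)
        (fun w => D.reH _) (D.sm e he z hz s hs) (sx e he z hz s hs) (fun w => rx _)
        (h e he z hz s hs).1 (h e he z hz s hs).2.1⟩
    · have e1 : ∀ k, dV (x ∘ s) k z = dV (x ∘ s') k z := fun k => funext fun a =>
        dz_congr (h.mono fun w hw => by simp only [Function.comp, hw]) k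
      simp only [xiL, e1, Function.comp_apply, h.self_of_nhds]
    · rw [eq, show (x ∘ fun w => g • s w) = fun w => D.ρ g *ᵥ (x ∘ s) w + c g from
        funext fun w => hx.2 g (s w)]
      exact xi_inv (sx e he z hz s hs) (i2 g) (D.reR g) _
    · subst h
      exact xi_tr (H := D.H ∘ s) (x := x ∘ s) (sx e he _ hz s hs) hφ

end

end Pool.Agent.Lib.MP_813db1_ag.VH
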