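import Pool.Agent.Lib.MP_813db1_ag.VH.Rig
import Pool.Agent.Lib.MP_813db1_ag.HS.Den
import Pool.Agent.Lib.MP_813db1_ag.AS.VolR

/-! The second stage of the rigidity argument. -/

namespace Pool.Agent.Lib.MP_813db1_ag.VH

open Pool.Agent.Lib.MP_813db1_ag.HS Pool.Agent.Lib.MP_813db1_ag.AS F12
open MeasureTheory Complex Matrix Filter Topology Set
open scoped ContDiff ComplexOrder

set_option linter.unusedSectionVars false

namespace St2a

section alg

variable {ι r : Type} [Fintype ι] [DecidableEq ι] [Fintype r] [DecidableEq r] {H P : Mat r}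

theorem ip_pj (re : H.map star = H) (sa : H * P = Pᴴ * H) (sq : P * P = P) (u v : V r) :
    ipV H (P *ᵥ u) (P *ᵥ v) = ipV H (P *ᵥ u) v := by
  have e : H * P.map star = Pᵀ * H := by
    have := congrArg (·.map star) sa
    simp only [RepA.map_star_mul, re] at this
    rw [this]
    congr 1
    ext i j
    simp
  rw [ipV_eq, ipV_eq, Dt.star_mulVec', mulVec_mulVec, e, ← mulVec_mulVec, dotProduct_mulVec,
    vecMul_transpose, mulVec_mulVec, sq]

theorem nE_pj (pH : H.PosDef) (sa : H * P = Pᴴ * H) (sq : P * P = P) : nE H P = (trace P).re := by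
  rw [nE, ipE, Matrix.mul_assoc, ← sa, Matrix.mul_assoc,
    nonsing_inv_mul_cancel_left _ _ pH.det_pos.ne'.isUnit, sq]

theorem sa1 (sa : H * P = Pᴴ * H) : H * (1 - P) = (1 - P)ᴴ * H := by
  simp [Matrix.mul_sub, Matrix.sub_mul, sa]

theorem sq1 (sq : P * P = P) : (1 - P) * (1 - P) = 1 - P := by
  simp [Matrix.mul_sub, Matrix.sub_mul, sq]

theorem gr_sub (re : H.map star = H) (sa : H * P = Pᴴ * H) (sq : P * P = P) (a : ι → V r) :
    (gr H a - gr H fun k => P *ᵥ a k) = gr H fun k => (1 - P) *ᵥ a k := by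
  ext i j
  simp only [gr, Matrix.sub_apply, of_apply, ip_pj re sa sq, ip_pj re (sa1 sa) (sq1 sq)]
  simp only [ipV_eq, sub_mulVec, one_mulVec, sub_dotProduct]

theorem nE_neg (A B : Mat r) : nE H (A - B) = nE H (B - A) := by
  rw [← neg_sub B A]
  simp only [nE, ipE, conjTranspose_neg, Matrix.neg_mul, Matrix.mul_neg, neg_neg]

theorem grE_smul (h : Mat ι) (c : ℝ) (A : ι → Mat r) :
    trm h (grE H fun k => (c : ℂ) • A k) = c ^ 2 * trm h (grE H A) := by
  rw [← Apr.trm_smul]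
  congr 1
  ext i j
  simp [grE, ipE, sq, mul_assoc]

theorem tg_eq (h B : Mat ι) : (tg h fun i j => B i j).re = trm h B := by
  simp only [tg, trm, trace, diag, mul_apply, smul_eq_mul, mul_comm]

theorem t2_ric {h : Mat ι} (ph : h.PosDef) (τ σ : Mat ι) (s : ℝ) :
    t2 h τ (-h + (σ + (s : ℂ) • τ)) = -trm h τ + t2 h τ σ + s * t2 h τ τ := by
  simp only [t2, Matrix.mul_add, Matrix.mul_neg, Matrix.mul_smul, Apr.trm_add, Apr.trm_neg,
    Apr.trm_smul, nonsing_inv_mul_cancel_right _ _ ph.det_pos.ne'.isUnit, add_assoc]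

theorem pt (hN : AlgN) {g h : Mat ι} (pg : g.PosDef) (ph : h.PosDef) (pH : H.PosDef)
    {A B C : ι → Mat r} {c m ρ w : ℝ} (e : ∀ k, A k = B k + C k) (c0 : 0 ≤ c) (m0 : 0 ≤ m)
    (r0 : 0 ≤ ρ) (h1 : trm g (grE H A) ≤ c * m) (h2 : trm g (grE H B) ≤ c * ρ)
    (h3 : trm h (grE H C) ≤ w) : trm g (grE H A) ≤ trm g h * (2 * w) + c * (m + 2) * √ρ := by
  obtain ⟨-, -, -, k1, -, k2⟩ := hN ι r h H ph pH
  have a1 := ((hN ι r g H pg pH).2.2.2.1 B).2.2.1 C
  have a2 := (k2 _ _ (k1 C).1 (k1 C).1).2.2.2 g pg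
  have a3 := Mat.trm_nonneg pg ph.posSemidef
  have a4 := mul_le_mul_of_nonneg_left h3 a3
  have a5 := mul_nonneg a3 ((Mat.trm_nonneg ph (k1 C).1).trans h3)
  have a6 := Real.sqrt_nonneg ρ
  have a7 := Real.sq_sqrt r0
  rw [← funext e] at a1
  rcases le_total √ρ 1 with k | k
  · have : ρ ≤ √ρ := by nlinarith
    nlinarith [mul_le_mul_of_nonneg_left this c0, mul_nonneg (mul_nonneg c0 m0) a6]
  · nlinarith [mul_le_mul_of_nonneg_left k (mul_nonneg c0 m0), mul_nonneg c0 a6]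

theorem grE_pull (J : Mat ι) (A : ι → Mat r) :
    grE H (fun k => ∑ l, J l k • A l) = pull J (grE H A) := by
  ext i j
  simp only [pull_apply, grE, ipE, of_apply, conjTranspose_sum, conjTranspose_smul, Matrix.sum_mul,
    Matrix.smul_mul, Matrix.mul_smul, trace_sum, trace_smul, smul_eq_mul, Finset.mul_sum]
  rw [Finset.sum_comm]
  exact Finset.sum_congr rfl fun l _ => Finset.sum_congr rfl fun m _ => by ring

end alg

variable {ι X Y G r : Type} [Fintype ι] [DecidableEq ι] [TopologicalSpace X] [TopologicalSpace Y]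
  [Group G] [MulAction G Y] [Fintype r] [DecidableEq r] {M : Atl ι X} {p : Y → X}

theorem ipE_eqv (D : Dt M p G r) (γ : G) (y : Y) (A B : Mat r) :
    ipE (D.H (γ • y)) (D.ρ γ * A * D.ρ γ⁻¹) (D.ρ γ * B * D.ρ γ⁻¹) = ipE (D.H y) A B := by
  have c : ∀ g, (D.ρ g)ᴴ = (D.ρ g)ᵀ := fun g => by rw [conjTranspose, transpose_map, D.reR]
  have e : ∀ Z : Mat r, (D.ρ γ)ᵀ * ((D.ρ γ⁻¹)ᵀ * Z) = Z := fun Z => by
    rw [← Matrix.mul_assoc, ← transpose_mul, D.inv_mul, transpose_one, Matrix.one_mul]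
  have e' : ∀ Z : Mat r, D.ρ γ⁻¹ * (D.ρ γ * Z) = Z := fun Z => by
    rw [← Matrix.mul_assoc, D.inv_mul, Matrix.one_mul]
  rw [ipE, ipE, D.inv_eqv, D.eqv, conjTranspose_mul, conjTranspose_mul, c, c, ← Matrix.mul_assoc,
    trace_mul_comm]
  simp only [Matrix.mul_assoc, e, e']

theorem base (hq : IsQuotientCoveringMap p G) (x : X) : ∃ e ∈ M.A, ∃ z ∈ e.target, ∃ t,
    Sec p e z t ∧ e.symm z = x ∧ ∀ B, M.repF B e z = B (e.symm z) := by
  obtain ⟨t, ht⟩ := sec_ex' hq ((M.ch x).map_source (M.mem x))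
  have e := (M.ch x).left_inv (M.mem x)
  exact ⟨_, M.ch_mem x, _, (M.ch x).map_source (M.mem x), t, ht, e, fun B => by
    rw [e, (AY.repA' ι X M).repF_self]⟩

theorem trm_rep (h B : X → Mat ι) {e : Ch ι X} (he : e ∈ M.A) {z : V ι} (hz : z ∈ e.target) :
    trm (M.repF h e z) (M.repF B e z) = trm (h (e.symm z)) (B (e.symm z)) := by
  have := (AY.repA' ι X M).trm_rep h B e he _ (e.map_target hz)
  rwa [e.right_inv hz] at this

theorem desc (hq : IsQuotientCoveringMap p G) (D : Dt M p G r) {g : X → Mat ι} (hg : M.IsK g)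
    {P P' : Y → Mat r} (hP : D.Se P) (hP' : D.Se P') : ∃ φ : X → ℝ, Continuous φ ∧
      Loc M p fun e z t => φ (e.symm z) = trm (M.repF g e z)
        (grE (D.H (t z)) fun k => P (t z) * th (D.H ∘ t) z k * P' (t z)) := by
  obtain ⟨ξ, hξ⟩ := descF (M := M) hq
    (fun e z t => grE (D.H (t z)) fun k => P (t z) * th (D.H ∘ t) z k * P' (t z))
    (fun e z s e' z' s' T => by
      rw [← grE_pull, T.eq]
      simp only [th, T.ca (lh hq), Finset.smul_sum, Matrix.mul_sum, Matrix.sum_mul, Matrix.mul_smul,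
        Matrix.smul_mul, smul_comm (-(1 / 2) : ℂ)])
    fun e he z hz t ht γ => by
      ext i j
      have k : ∀ k, P (γ • t z) * th (D.H ∘ fun w => γ • t w) z k * P' (γ • t z) =
          D.ρ γ * (P (t z) * th (D.H ∘ t) z k * P' (t z)) * D.ρ γ⁻¹ := fun k => by
        simp only [th, hP.eqv, hP'.eqv, Dt.ca_smul (D.sm e he z hz t ht).df, Matrix.mul_smul,
          Matrix.smul_mul, Matrix.mul_assoc]
        simp only [← Matrix.mul_assoc (D.ρ γ⁻¹) (D.ρ γ), D.inv_mul, Matrix.one_mul]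
      simp only [grE, of_apply, k, ipE_eqv]
  refine ⟨fun x => trm (g x) (ξ x), Den.cont (AY.repA' ι X M) ((AY.repA' ι X M).ck_trm _ _ hg
    (smF_of hq hξ fun e he z hz t ht i j => ?_)), fun e he z hz t ht => ?_⟩
  · have a := D.sm e he z hz t ht
    have b : ∀ k, SmR (fun w => P (t w) * th (D.H ∘ t) w k * P' (t w)) z := fun k =>
      ((hP.sm e he z hz t ht).mul ((a.ca (D.det_ne _) k).csmul _)).mul (hP'.sm e he z hz t ht)
    exact ((((b i).mul (a.inv (D.det_ne _))).mul (b j).conjT).mul a).trace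
  · exact (trm_rep _ _ he hz).symm.trans (congrArg _ (hξ e he z hz t ht))

theorem se1 (D : Dt M p G r) : D.Se fun _ => 1 :=
  ⟨fun _ _ _ _ _ _ => SmR.const _, fun γ _ => by rw [Matrix.mul_one, D.mul_inv], fun _ => by simp⟩

theorem av_mul [MeasurableSpace X] (g h : X → Mat ι) (μ : Measure X) (c : ℝ) (f : X → ℝ) :
    av g μ h (fun x => c * f x) = c * av g μ h f := by
  simp only [av, mul_assoc, integral_const_mul, mul_div_assoc]

variable [T2Space X] [CompactSpace X] [Nonempty X] [MeasurableSpace X] [BorelSpace X]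
  {g σ τ : X → Mat ι} {μ : Measure X} {u : ℝ → X → ℝ} {h : ℝ → X → Mat ι} {D : Dt M p G r}
  {E : Dt M p G (r × r)} {a : Ch ι X → Y → ι → V (r × r)} {s : ℝ}

theorem th0 (k : D.En E a τ) : Loc M p fun e z t => ∀ i j, th (E.H ∘ t) z i *ᵥ a e (t z) j = 0 :=
  k.com.mono fun _ _ _ c i j => by rw [th, smul_mulVec, c, smul_zero]

theorem bd (hq : IsQuotientCoveringMap p G) (hN : AlgN) (hL : BoL) (F : Fm M g μ σ τ u h)
    (k : D.En E a τ) (hs : s ∈ Ioc (0 : ℝ) 1) (x : X) :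
    s * trm (h s x) (τ x) ≤ Fintype.card ι := by
  have A := AY.repA' ι X M
  have B := AY.repB' ι X M
  have hk := F.k s hs
  have ph := ((A.isK_iff _).1 hk).2
  have c := A.ck_trm _ _ hk fun e he => (F.cζ e he).1
  obtain ⟨y, -, hy⟩ := isCompact_univ.exists_isMaxOn univ_nonempty (Den.cont A c).continuousOn
  refine (mul_le_mul_of_nonneg_left (hy (mem_univ x)) hs.1.le).trans ?_
  have m := Mat.trm_nonneg (ph y) (B.max _ y (Den.ck_le c (by norm_cast)) fun w => hy (mem_univ w))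
  obtain ⟨e, he, z, hz, t, ht, rfl, R⟩ := base (M := M) hq y
  have l := B.lap_rep (h s) _ e he _ (e.map_target hz)
    (Den.ck_le c (l := 2) (by norm_cast) e he _ (e.map_source (e.map_target hz)))
  have b := (hL ι _ (M.repF (h s) e) e.target (E.H ∘ t) (fun w => a e (t w)) z e.open_target
    (hk e he) hz ⟨E.sm e he z hz t ht, (Loc.ev k.ph (lh hq) he hz ht).mono fun w hw =>
      ⟨E.pos _, E.reH _, hw⟩⟩ (k.f.sm e he z hz t ht)).1
  have z0 : cr (M.repF (h s) e) (E.H ∘ t) (fun w => a e (t w)) z = 0 := by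
    have n := k.hol.ev (lh hq) he hz ht
    have d : ∀ l i j, dV (fun w => n2 (E.H ∘ t) (fun w => a e (t w)) w l i) j z = 0 := fun l i j =>
      (dV_congr (n.mono fun w hw => hw l i) j).trans (dV_const _ _ _)
    simp [cr, n1, d, n.self_of_nhds, tg, ipV]
  have e1 : levi (fn (fun x => trm (h s x) (τ x)) e) z = levi (fun w =>
      (trm (M.repF (h s) e w) (gr ((E.H ∘ t) w) (a e (t w))) : ℂ)) z := levi_congr <| by
    filter_upwards [k.f.gr.ev (lh hq) he hz ht, e.open_target.eventually_mem hz] with w h1 h2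
    rw [fn, ← trm_rep _ _ he h2, h1, Function.comp_apply]
  rw [e.right_inv hz, lapL, e1, ← lapL, b, z0, ← B.ric_rep _ hk e he z hz, Function.comp_apply,
    ← k.f.gr e he z hz t ht] at l
  obtain ⟨q, -, -, -, -, q'⟩ := hN ι _ _ _ (ph (e.symm z)) (E.pos (t z))
  have q0 : q1 (h s (e.symm z)) (E.H (t z)) (fun k i => th (E.H ∘ t) z k *ᵥ a e (t z) i) = 0 := by
    simp [q1, th0 k e he z hz t ht, tg, ipV]
  simp only [R, F.ric s hs, t2_ric (ph _), q0, zero_re] at l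
  rw [Apr.trm_neg, ← Atl.lap, ← l] at m
  have a1 := (q (n1 (M.repF (h s) e) (E.H ∘ t) (fun w => a e (t w)) z)).1
  have a2 := (q (n2 (E.H ∘ t) (fun w => a e (t w)) z)).2.1
  have a3 := (q fun k i => (th (E.H ∘ t) z k).map star *ᵥ a e (t z) i).2.1
  have a4 := (q' _ _ (F.pζ (e.symm z)) (F.pσ (e.symm z))).1
  have a5 := mul_le_mul_of_nonneg_left (Mat.sq' (ph (e.symm z)) (F.pζ (e.symm z))).1 hs.1.le
  have a6 := Mat.trm_nonneg (ph (e.symm z)) (F.pζ (e.symm z))
  have a7 : (0 : ℝ) ≤ Fintype.card ι := Nat.cast_nonneg _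
  rw [← t2] at a5
  show s * trm (h s (e.symm z)) (τ (e.symm z)) ≤ _
  set T := trm (h s (e.symm z)) (τ (e.symm z))
  rcases a6.eq_or_lt with a8 | a8
  · rwa [← a8, mul_zero]
  · refine le_of_mul_le_mul_right ?_ a8
    nlinarith [mul_le_mul_of_nonneg_left
      (show s * t2 (h s (e.symm z)) (τ (e.symm z)) (τ (e.symm z)) ≤ T by linarith) a7]

theorem en_ex (hq : IsQuotientCoveringMap p G) (hN : AlgN) (hO : AlgO) (hL : BoL) (hB : BoG M p G)
    (hM : MmS M p G) (F : Fm M g μ σ τ u h) (k : D.En E a τ) (hs : s ∈ Ioc (0 : ℝ) 1) :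
    ∃ en : X → ℝ, (Continuous en ∧ (∀ x, 0 ≤ en x ∧ s * trm (h s x) (τ x) ≤ Fintype.card ι) ∧
      ∫ x, (en x + s ^ 2 * t2 (h s x) (τ x) (τ x) - s * trm (h s x) (τ x)) * rat (h s) g x ∂μ ≤ 0 ∧
      Loc M p fun e z t => s ^ 2 * trm (M.repF (h s) e z)
        (grE (E.H (t z)) (nF (E.H ∘ t) (E.mM (h s) a ∘ t) z)) ≤ Fintype.card ι * en (e.symm z)) ∧
      Loc M p fun e z t => (∀ i, th (E.H ∘ t) z i * E.mM (h s) a (t z) = 0) ∧
        trm (M.repF (h s) e z) (grE (E.H (t z)) fun i => (s : ℂ) •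
          (E.mM (h s) a (t z) * th (E.H ∘ t) z i)) ≤ Fintype.card ι * en (e.symm z) := by
  have A := AY.repA' ι X M
  have := ((AY.volS' ι X M g F.kg).2 μ F.vol).fin
  have hk := F.k s hs
  have ph := ((A.isK_iff _).1 hk).2
  have b := bd hq hN hL F k hs
  obtain ⟨N1, N2, T1, T2, c1, c2, c3, c4, c5, f1, f2, f3, f4, I⟩ :=
    hB g μ (h s) F.kg F.vol hk _ E a τ k.ph k.f
  obtain ⟨-, -, m⟩ := hM _ E a τ (h s) k.f hk
  simp only [Fn] at f1 f2 f3 f4
  have n : ∀ x, 0 ≤ N1 x ∧ N2 x = 0 ∧ T1 x = 0 ∧ 0 ≤ T2 x ∧ 0 ≤ t2 (h s x) (τ x) (σ x) := fun x => by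
    obtain ⟨e, he, z, hz, t, ht, rfl, R⟩ := base (M := M) hq x
    obtain ⟨q, -, -, -, -, q'⟩ := hN ι _ _ _ ((hk e he).2 z hz) (E.pos (t z))
    rw [f1 e he z hz t ht, f2 e he z hz t ht, f3 e he z hz t ht, f4 e he z hz t ht]
    exact ⟨(q _).1, by simp [q2, k.hol e he z hz t ht, tg, ipV],
      by simp [q1, th0 k e he z hz t ht, tg, ipV], (q _).2.1,
      R (h s) ▸ (q' _ _ (F.pζ (e.symm z)) (F.pσ (e.symm z))).1⟩
  have w : ∀ x, ∀ v, 0 ≤ v → v ≤ N1 x + T2 x → s ^ 2 * (v * trm (h s x) (τ x)) ≤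
      Fintype.card ι * (s * (N1 x + T2 x)) := fun x v v0 v1 => by
    nlinarith [mul_le_mul (mul_le_mul_of_nonneg_left v1 hs.1.le) (b x)
      (mul_nonneg hs.1.le (Mat.trm_nonneg (ph x) (F.pζ x)))
      (mul_nonneg hs.1.le (v0.trans v1))]
  refine ⟨fun x => s * (N1 x + T2 x), ⟨by fun_prop, fun x =>
    ⟨mul_nonneg hs.1.le (add_nonneg (n x).1 (n x).2.2.2.1), b x⟩, ?_, fun e he z hz t ht => ?_⟩,
    fun e he z hz t ht => ?_⟩
  · have cr := rat_cont F.kg hk
    by_cases i : Integrable (fun x => (s * (N1 x + T2 x) + s ^ 2 * t2 (h s x) (τ x) (τ x) -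
      s * trm (h s x) (τ x)) * rat (h s) g x) μ
    swap
    · exact (integral_undef i).le
    rw [← mul_zero s, ← I, ← integral_const_mul]
    refine integral_mono i (Den.intg (by fun_prop)) fun x => ?_
    obtain ⟨-, n2, n3, -, n5⟩ := n x
    simp only [n2, n3, F.ric s hs, t2_ric (ph x), ← mul_assoc]
    refine mul_le_mul_of_nonneg_right ?_ (rat_pos F.kg hk x).le
    nlinarith [mul_nonneg hs.1.le n5]
  · obtain ⟨-, -, -, -, -, -, o, -⟩ :=
      hO ι _ _ _ (a e (t z)) ((hk e he).2 z hz) (E.pos (t z)) (E.reH _)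
    have o := o (n1 (M.repF (h s) e) (E.H ∘ t) (fun w => a e (t w)) z)
    rw [← f1 e he z hz t ht, ← k.f.gr e he z hz t ht, trm_rep _ _ he hz] at o
    refine le_trans (mul_le_mul_of_nonneg_left (le_of_eq_of_le ?_ o) (sq_nonneg s))
      (w _ _ (n _).1 (le_add_of_nonneg_right (n _).2.2.2.1))
    congr 2
    funext i
    simp [(m e he z hz t ht).2 i, ou, k.hol e he z hz t ht, tg]
  · obtain ⟨-, -, -, -, -, o', -, o, -⟩ :=
      hO ι _ _ _ (a e (t z)) ((hk e he).2 z hz) (E.pos (t z)) (E.reH _)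
    have o := o fun k i => (th (E.H ∘ t) z k).map star *ᵥ a e (t z) i
    rw [← f4 e he z hz t ht, ← k.f.gr e he z hz t ht, trm_rep _ _ he hz] at o
    rw [(m e he z hz t ht).1, grE_smul]
    refine ⟨fun i => ?_, le_trans (mul_le_mul_of_nonneg_left (le_of_eq_of_le ?_ o) (sq_nonneg s))
      (w _ _ (n _).2.2.2.1 (le_add_of_nonneg_left (n _).1))⟩
    · rw [(o' _).2.1]
      simp [ou, th0 k e he z hz t ht, tg]
    · congr 2
      funext i
      refine (o' _).2.2.2.2 ?_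
      simp only [th, transpose_smul, Matrix.smul_mul, Matrix.mul_smul, Dt.ca_sym]

end St2a

open St2a in
theorem st2 {ι X Y G : Type} [Fintype ι] [DecidableEq ι] [TopologicalSpace X] [T2Space X]
    [CompactSpace X] [Nonempty X] [MeasurableSpace X] [BorelSpace X] [TopologicalSpace Y] [Group G]
    [MulAction G Y] {M : Atl ι X} {p : Y → X} (hq : IsQuotientCoveringMap p G) (hN : AlgN)
    (hO : AlgO) (hL : BoL) (hB : BoG M p G) (hE : EnS M p G) (hM : MmS M p G) (hR : RkS M p G)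
    (hS : Sub2 M p G) (hF : FamV M) (hT : StageS M p G) (hP : PowV M) (hfr : FrmS M p G) :
    St2 M p G := by
  intro g μ hg hμ nef r _ _ D τ σ C pD tD cσ pσ C1 kc
  have A := AY.repA' ι X M
  have := ((AY.volS' ι X M g hg).2 μ hμ).fin
  obtain ⟨cτ, pτ⟩ := tau_ok hq hfr pD tD
  obtain ⟨u, h, Fa⟩ := hF g μ hg hμ nef _ σ τ (A.clF_add _ _ (A.clF_smul C τ cτ) cσ) kc cσ pσ cτ pτ
    fun s hs => by
      have C0 : 0 < C := one_pos.trans_le C1
      have l : s / C ≤ 1 := (div_le_one C0).2 (hs.2.trans C1)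
      refine ⟨s / C, ⟨div_pos hs.1 C0, l⟩, fun x => ?_⟩
      convert psd_smul (pσ x) (sub_nonneg.2 l) using 1
      rw [smul_add, smul_smul, ← ofReal_mul, div_mul_cancel₀ _ C0.ne']
      push_cast
      module
  obtain ⟨E, a, k⟩ := hE r D τ pD tD
  choose! en e1 e2 using fun s hs => en_ex (s := s) hq hN hO hL hB hM Fa k hs
  obtain ⟨m, v, F, s, ρ, S⟩ := hT g μ σ τ u h Fa _ E a en _ k.f e1
  have sa := S.pj.sa
  have sq := S.pj.sq
  have nF : ∀ y, nE (E.H y) (F y) = m := fun y => by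
    rw [nE_pj (E.pos y) (sa y) (sq y), S.pj.tr, natCast_re]
  have dρ : ∀ j, Loc M p fun e z t =>
      ρ j (e.symm z) = nE (E.H (t z)) (F (t z) - (s j : ℂ) • E.mM (h (s j)) a (t z)) :=
    fun j e he z hz t ht => (sec_pt ht ▸ S.dist j (t z)).trans (nE_neg _ _)
  have ρ0 : ∀ j x, 0 ≤ ρ j x := fun j x => by
    obtain ⟨y, rfl⟩ := hq.surjective x
    exact S.dist j y ▸ ((hN ι _ _ _ PosDef.one (E.pos y)).2.1 _).1
  obtain ⟨φ, φ1, φ2⟩ := desc hq E hg (se1 E) (se1 E)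
  obtain ⟨c', hc'⟩ := (isCompact_range φ1).bddAbove
  set c := |c'|
  have hc : Loc M p fun e z t => trm (M.repF g e z) (grE (E.H (t z)) (th (E.H ∘ t) z)) ≤ c :=
    fun e he z hz t ht => by
      have := (hc' (mem_range_self (e.symm z))).trans (le_abs_self c')
      simpa only [φ2 e he z hz t ht, Matrix.one_mul, Matrix.mul_one] using this
  have key : ∀ P P', E.Se P → E.Se P' → (∀ j, Loc M p fun e z t => ∃ B C : ι → Mat (r × r),
      (∀ i, P (t z) * th (E.H ∘ t) z i * P' (t z) = B i + C i) ∧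
      trm (M.repF g e z) (grE (E.H (t z)) fun i => P (t z) * th (E.H ∘ t) z i * P' (t z)) ≤ c * m ∧
      trm (M.repF g e z) (grE (E.H (t z)) B) ≤ c * ρ j (e.symm z) ∧
      trm (M.repF (h (s j)) e z) (grE (E.H (t z)) C) ≤ Fintype.card ι * en (s j) (e.symm z)) →
      Loc M p fun _ z t => ∀ i, P (t z) * ca (E.H ∘ t) i z * P' (t z) = 0 := by
    intro P P' hP hP' H e he z hz t ht i
    obtain ⟨ψ, ψ1, ψ2⟩ := desc hq E hg hP hP'
    have z0 := S.zero ψ (fun j x => 2 * Fintype.card ι * en (s j) x) (c * (m + 2)) ψ1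
      (fun j => continuous_const.mul (e1 _ (S.mem j)).1)
      (fun j x => mul_nonneg (by positivity) ((e1 _ (S.mem j)).2.1 x).1)
      (by simpa only [av_mul, mul_zero] using S.en0.const_mul (2 * (Fintype.card ι : ℝ)))
      (fun j x => by
        obtain ⟨e, he, z, hz, t, ht, rfl, R⟩ := base (M := M) hq x
        obtain ⟨B, C, h0, h1, h2, h3⟩ := H j e he z hz t ht
        rw [ψ2 e he z hz t ht, ← R g, ← R (h _), mul_assoc 2]
        exact pt hN ((hg e he).2 z hz) ((Fa.k _ (S.mem j) e he).2 z hz) (E.pos _) h0 (abs_nonneg _)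
          (Nat.cast_nonneg _) (ρ0 _ _) h1 h2 h3) (e.symm z)
    rw [ψ2 e he z hz t ht] at z0
    obtain ⟨q, q', -⟩ := (hN ι _ _ _ ((hg e he).2 z hz) (E.pos (t z))).2.2.2.1
      fun i => P (t z) * th (E.H ∘ t) z i * P' (t z)
    simpa [th] using q' (z0.antisymm (Mat.trm_nonneg ((hg e he).2 z hz) q)) i
  have tb : Loc M p fun e z t => ∀ Z,
      trm (M.repF g e z) (grE (E.H (t z)) fun i => th (E.H ∘ t) z i * Z) ≤ c * nE (E.H (t z)) Z ∧
      trm (M.repF g e z) (grE (E.H (t z)) fun i => Z * th (E.H ∘ t) z i) ≤ c * nE (E.H (t z)) Z :=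
    fun e he z hz t ht Z => by
      obtain ⟨-, q, -, q', -⟩ := hN ι _ _ _ ((hg e he).2 z hz) (E.pos (t z))
      have := mul_le_mul_of_nonneg_right (hc e he z hz t ht) (q Z).1
      exact ⟨((q' _).2.2.2 Z).1.trans this, ((q' _).2.2.2 Z).2.trans this⟩
  have k1 := key _ F (se1 E) S.pj.toSe fun j e he z hz t ht =>
    ⟨fun i => th (E.H ∘ t) z i * (F (t z) - (s j : ℂ) • E.mM (h (s j)) a (t z)), fun _ => 0,
      fun i => by simp [Matrix.mul_sub, (e2 _ (S.mem j) e he z hz t ht).1 i],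
      by simpa only [Matrix.one_mul, nF] using (tb e he z hz t ht (F (t z))).1,
      dρ j e he z hz t ht ▸ (tb e he z hz t ht _).1, le_of_eq_of_le
        (by simpa using grE_smul _ 0 (fun _ => 0))
        (mul_nonneg (Nat.cast_nonneg _) ((e1 _ (S.mem j)).2.1 _).1)⟩
  have k2 := key F _ S.pj.toSe (se1 E) fun j e he z hz t ht =>
    ⟨fun i => (F (t z) - (s j : ℂ) • E.mM (h (s j)) a (t z)) * th (E.H ∘ t) z i, _,
      fun i => by simp [Matrix.sub_mul],
      by simpa only [Matrix.mul_one, nF] using (tb e he z hz t ht (F (t z))).2,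
      dρ j e he z hz t ht ▸ (tb e he z hz t ht _).2, (e2 _ (S.mem j) e he z hz t ht).2⟩
  obtain ⟨E', Q', c', x', ξ', V, hξ⟩ := hS _ E a τ F m k.f S.pj fun e he z hz t ht i =>
    ⟨by simpa using k1 e he z hz t ht i, by
      have b : (cb (E.H ∘ t) i z)ᵀ = (ca (E.H ∘ t) i z)ᴴ := by
        rw [← Dt.ca_conj, conjTranspose, transpose_map]
      have := k2 e he z hz t ht i
      rw [Matrix.mul_one] at this
      rw [← nonsing_inv_mul_cancel_left _ (cb _ i z * _) (E.det_ne (t z)).isUnit,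
        ← Matrix.mul_assoc (E.H _), ← Dt.cb_sym, b, Matrix.mul_assoc _ (E.H _), sa,
        ← Matrix.mul_assoc _ _ (E.H _), ← conjTranspose_mul, this]
      simp,
      fun j => ⟨k.hol e he z hz t ht i j, k.cls e he z hz t ht i j⟩⟩
  have d : ∀ x, (τ x - ξ' x).PosSemidef ∧ ∀ j, s j * trm (h (s j) x) (τ x - ξ' x) ≤
      √(Fintype.card (r × r)) * √(ρ j x) := fun x => by
    obtain ⟨e, he, z, hz, t, ht, rfl, R⟩ := base (M := M) hq x
    rw [← R τ, ← R ξ', k.f.gr e he z hz t ht, hξ e he z hz t ht, gr_sub (E.reH _) (sa _) (sq _)]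
    refine ⟨(hN ι _ _ _ PosDef.one (E.pos _)).2.2.1 _, fun j => ?_⟩
    have ph := (Fa.k _ (S.mem j) e he).2 z hz
    have o := ((hO ι _ _ _ (a e (t z)) ph (E.pos (t z)) (E.reH _)).2.2.2.2.2.1 (1 - F (t z))).1
    have b := ((hN ι _ _ _ ph (E.pos (t z))).2.2.2.2.1 (1 - F (t z))
      ((s j : ℂ) • E.mM (h (s j)) a (t z) - F (t z))).2.2
    rw [← S.dist, sec_pt ht, nE_pj (E.pos _) (sa1 (sa _)) (sq1 (sq _)), Matrix.mul_sub,
      Matrix.sub_mul 1 _ (F _), sq, Matrix.one_mul, sub_self, sub_zero, Matrix.mul_smul, trace_smul,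
      ((hM _ E a τ _ k.f (Fa.k _ (S.mem j))).2.2 e he z hz t ht).1, o, trace_sub, trace_one,
      S.pj.tr] at b
    rw [← R (h _), ← tg_eq, ← re_ofReal_mul, ← Real.sqrt_mul (Nat.cast_nonneg _)]
    refine (re_le_norm _).trans (Real.le_sqrt_of_sq_le (le_trans (le_of_eq ?_) (b.trans
      (mul_le_mul_of_nonneg_right (by simp) (ρ0 _ _)))))
    simp only [gr, of_apply, ip_pj (E.reH _) (sa1 (sa _)) (sq1 (sq _)), smul_eq_mul]
  refine ⟨m, E', Q', c', x', ξ', v, S.pos, V, fun y => (d y).1, hP g μ σ τ u h Fa ξ' m v _ s V.cl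
    (fun x => ⟨(d x).1, V.psd x, (hR m E' Q' x' ξ' V.pol V.xi).1 x⟩)
    (fun j => ⟨S.mem j, fun x => ((e1 _ (S.mem j)).2.1 x).2⟩) S.lim S.ord ?_⟩
  have l := S.conv'.const_mul √(Fintype.card (r × r) : ℝ)
  simp only [← av_mul, mul_zero] at l
  have n : ∀ j x, 0 ≤ s j * trm (h (s j) x) (τ x - ξ' x) * rat (h (s j)) g x := fun j x =>
    mul_nonneg (mul_nonneg (S.mem j).1.le (Mat.trm_nonneg (((A.isK_iff _).1 (Fa.k _ (S.mem j))).2 x)
      (d x).1)) (rat_pos hg (Fa.k _ (S.mem j)) x).le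
  have v0 : ∀ j, 0 ≤ vl g μ (h (s j)) := fun j =>
    integral_nonneg fun x => (rat_pos hg (Fa.k _ (S.mem j)) x).le
  refine squeeze_zero (fun j => div_nonneg (integral_nonneg (n j)) (v0 j)) (fun j => ?_) l
  have c1 := S.cont j
  have c2 := rat_cont hg (Fa.k _ (S.mem j))
  exact div_le_div_of_nonneg_right (integral_mono_of_nonneg (.of_forall (n j))
    (Den.intg (by fun_prop)) (.of_forall fun x => mul_le_mul_of_nonneg_right ((d x).2 j)
      (rat_pos hg (Fa.k _ (S.mem j)) x).le)) (v0 j)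

end Pool.Agent.Lib.MP_813db1_ag.VH
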