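import Pool.Agent.Lib.MP_813db1_ag.VH.RSt1A
import Pool.Agent.Lib.MP_813db1_ag.HS.Den

/-! The first stage: descent and averages. -/

namespace Pool.Agent.Lib.MP_813db1_ag.VH.St1a

open Pool.Agent.Lib.MP_813db1_ag.HS Pool.Agent.Lib.MP_813db1_ag.AS F12
open MeasureTheory Complex Matrix Filter Topology Set
open scoped ContDiff ComplexOrder

set_option linter.unusedSectionVars false

variable {ι X Y G r : Type} [Fintype ι] [DecidableEq ι] [TopologicalSpace X] [TopologicalSpace Y]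
  [Group G] [MulAction G Y] [Fintype r] [DecidableEq r] {M : Atl ι X} {p : Y → X} {D : Dt M p G r}
  {A A' : Y → Mat r} {e : Ch ι X} {z : V ι} {s : V ι → Y} {g h B C : X → Mat ι}

/-- smooth equivariant endomorphisms. -/
structure Eqv (D : Dt M p G r) (A : Y → Mat r) : Prop where
  sm : SmH M p A
  eqv : ∀ (g : G) y, A (g • y) = D.ρ g * A y * D.ρ g⁻¹

theorem conj_mul (D : Dt M p G r) (g : G) (A A' : Mat r) :
    D.ρ g * A * D.ρ g⁻¹ * (D.ρ g * A' * D.ρ g⁻¹) = D.ρ g * (A * A') * D.ρ g⁻¹ := by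
  simp only [Matrix.mul_assoc]
  rw [← Matrix.mul_assoc (D.ρ g⁻¹), D.inv_mul, Matrix.one_mul]

theorem Eqv.mul (a : Eqv D A) (b : Eqv D A') : Eqv D fun y => A y * A' y :=
  ⟨fun e he z hz s hs => (a.sm e he z hz s hs).mul (b.sm e he z hz s hs),
    fun g y => by rw [a.eqv, b.eqv, conj_mul]⟩

theorem Eqv.sub (a : Eqv D A) (b : Eqv D A') : Eqv D fun y => A y - A' y :=
  ⟨fun e he z hz s hs => (a.sm e he z hz s hs).sub (b.sm e he z hz s hs),
    fun g y => by rw [a.eqv, b.eqv, Matrix.mul_sub, Matrix.sub_mul]⟩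

theorem Eqv.one (D : Dt M p G r) : Eqv D fun _ => 1 :=
  ⟨fun _ _ _ _ _ _ => SmR.const _, fun g _ => by rw [Matrix.mul_one, D.mul_inv]⟩

theorem Eqv.smul (a : Eqv D A) (c : ℂ) : Eqv D fun y => c • A y :=
  ⟨fun e he z hz s hs => (a.sm e he z hz s hs).csmul c,
    fun g y => by rw [a.eqv, Matrix.mul_smul, Matrix.smul_mul]⟩

theorem Eqv.conj (a : Eqv D A) : Eqv D fun y => (A y).map star :=
  ⟨fun e he z hz s hs => (a.sm e he z hz s hs).star,
    fun g y => by rw [a.eqv, RepA.map_star_mul, RepA.map_star_mul, D.reR, D.reR]⟩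

theorem Eqv.J {Q : Mat r} {x : Y → V r} (q : D.Pol Q x) : Eqv D (D.J Q) :=
  ⟨fun e he z hz s hs => ((D.sm e he z hz s hs).inv (D.det_ne _)).mul (SmR.const Q),
    fun g y => by
      rw [Dt.J, Dt.J, D.inv_eqv]
      conv_rhs => rw [← q.inv g]
      simp only [Matrix.mul_assoc, D.mul_inv, Matrix.mul_one]⟩

theorem ipE_eqv (D : Dt M p G r) (g : G) (y : Y) (A A' : Mat r) :
    ipE (D.H (g • y)) (D.ρ g * A * D.ρ g⁻¹) (D.ρ g * A' * D.ρ g⁻¹) = ipE (D.H y) A A' := by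
  have c : ∀ g, (D.ρ g)ᴴ = (D.ρ g)ᵀ := fun g => by rw [conjTranspose, transpose_map, D.reR]
  have c' : (D.ρ g)ᵀ * (D.ρ g⁻¹)ᵀ = 1 := by rw [← transpose_mul, D.inv_mul, transpose_one]
  rw [ipE, ipE, D.inv_eqv, D.eqv, conjTranspose_mul, conjTranspose_mul, c, c]
  simp only [Matrix.mul_assoc]
  rw [← Matrix.mul_assoc (D.ρ g⁻¹), D.inv_mul, Matrix.one_mul, trace_mul_comm]
  simp only [← Matrix.mul_assoc (D.ρ g)ᵀ, c', Matrix.one_mul]
  simp only [Matrix.mul_assoc, D.inv_mul, Matrix.mul_one]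

theorem sm_ipE {K F F' : V ι → Mat r} (hK : SmR K z) (h0 : (K z).det ≠ 0) (a : SmR F z)
    (b : SmR F' z) : ContDiffAt ℝ ∞ (fun w => ipE (K w) (F w) (F' w)) z :=
  (((a.mul (hK.inv h0)).mul b.conjT).mul hK).trace

variable (hq : IsQuotientCoveringMap p G)
include hq

theorem nE_desc (a : Eqv D A) :
    ∃ φ : X → ℝ, Continuous φ ∧ ∀ y, φ (p y) = nE (D.H y) (A y) := by
  obtain ⟨φ, hφ⟩ := desc0 hq (fun y => nE (D.H y) (A y)) fun g y => by
    rw [nE, a.eqv, ipE_eqv, nE]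
  refine ⟨φ, hq.toIsQuotientMap.continuous_iff.2 ?_, hφ⟩
  rw [show φ ∘ p = _ from funext hφ]
  exact Sm.cont (M := M) (lh hq) fun e he z hz s hs => reCLM.contDiff.contDiffAt.comp z
    (sm_ipE (D.sm e he z hz s hs) (D.det_ne _) (a.sm e he z hz s hs) (a.sm e he z hz s hs))

theorem grE_desc (a : Eqv D A) (b : Eqv D A') : ∃ κ, M.SmF κ ∧ Loc M p fun e z s =>
    M.repF κ e z = grE (D.H (s z)) fun k => A (s z) * th (D.H ∘ s) z k * A' (s z) := by
  obtain ⟨κ, hκ⟩ := descF (M := M) hq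
    (fun e z s => grE (D.H (s z)) fun k => A (s z) * th (D.H ∘ s) z k * A' (s z))
    (fun e z s e' z' s' t => by
      rw [← grE_pull, t.eq]
      simp only [th, t.ca (lh hq), Finset.smul_sum, Matrix.mul_sum, Matrix.sum_mul,
        Matrix.mul_smul, Matrix.smul_mul, smul_comm (-(1 / 2) : ℂ)])
    fun e he z hz s hs g => Matrix.ext fun i j => by
      have k : ∀ k, A (g • s z) * th (D.H ∘ fun w => g • s w) z k * A' (g • s z) =
          D.ρ g * (A (s z) * th (D.H ∘ s) z k * A' (s z)) * D.ρ g⁻¹ := fun k => by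
        rw [th, th, Dt.ca_smul (D.sm e he z hz s hs).df, a.eqv, b.eqv, ← Matrix.smul_mul,
          ← Matrix.mul_smul, conj_mul, conj_mul]
      simp only [grE, of_apply, k, ipE_eqv]
  refine ⟨κ, smF_of hq hκ fun e he z hz s hs i j => ?_, hκ⟩
  have m := D.sm e he z hz s hs
  have k := fun k => ((a.sm e he z hz s hs).mul
    ((m.ca (D.det_ne _) k).csmul (-(1 / 2)))).mul (b.sm e he z hz s hs)
  exact sm_ipE m (D.det_ne _) (k i) (k j)

theorem f10_mul {a : Ch ι X → Y → ι → V r} {ζ : X → Mat ι} (f : D.F10 a ζ) (b : Eqv D A) :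
    ∃ ζ', D.F10 (fun e y k => A y *ᵥ a e y k) ζ' := by
  have h1 : ∀ e z s e' z' s', Two M p e z s e' z' s' → ∀ k, A (s z) *ᵥ a e (s z) k =
      ∑ l, tj e e' (e.symm z) l k • A (s' z') *ᵥ a e' (s' z') l := fun e z s e' z' s' t k => by
    rw [f.tr _ _ _ _ _ _ t, t.eq]
    simp only [mulVec_sum, mulVec_smul]
  have h2 : Eq1 p D.ρ fun e y k => A y *ᵥ a e y k := fun e g y hy k => by
    simp only [f.eqv e g y hy, b.eqv, mulVec_mulVec, Matrix.mul_assoc, D.inv_mul, Matrix.mul_one]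
  obtain ⟨ζ', h3⟩ := descF (M := M) hq
    (fun e z s => gr (D.H (s z)) fun k => A (s z) *ᵥ a e (s z) k)
    (fun e z s e' z' s' t => by rw [← gr_pull, ← t.eq, funext (h1 _ _ _ _ _ _ t), t.eq])
    fun e he z hz s hs g => Matrix.ext fun i j => by
      have k := h2 e g (s z) (by rw [sec_pt hs]; exact e.map_target hz)
      exact (congrArg₂ _ (k i) (k j)).trans (D.ipV_eqv g _ _ _)
  exact ⟨ζ', fun e he z hz s hs k => (b.sm e he z hz s hs).mulVec (f.sm e he z hz s hs k), h1, h2,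
    h3⟩

theorem all_of (M : Atl ι X) {P : X → Prop} (h : Loc M p fun e z _ => P (e.symm z)) (x : X) :
    P x := by
  obtain ⟨s, -, k⟩ := h.base hq x
  rwa [(M.ch x).left_inv (M.mem x)] at k

theorem form_of {κ : Type} (B : κ → X → Mat ι) (P : (κ → Mat ι) → Prop)
    (h : Loc M p fun e z _ => P fun i => M.repF (B i) e z) (x : X) : P fun i => B i x := by
  obtain ⟨s, -, k⟩ := h.base hq x
  simpa only [(AY.repA' ι X M).repF_self] using k

theorem form_ext (h : Loc M p fun e z _ => M.repF B e z = M.repF C e z) : B = C :=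
  funext (form_of hq ![B, C] (fun b => b 0 = b 1) h)

omit hq

theorem trm_loc (he : e ∈ M.A) (hz : z ∈ e.target) (h B : X → Mat ι) :
    trm (h (e.symm z)) (B (e.symm z)) = trm (M.repF h e z) (M.repF B e z) := by
  have := (AY.repA' ι X M).trm_rep h B e he _ (e.map_target hz)
  rw [e.right_inv hz] at this
  exact this.symm

theorem t2_loc (he : e ∈ M.A) (hz : z ∈ e.target) (h B C : X → Mat ι) :
    t2 (h (e.symm z)) (B (e.symm z)) (C (e.symm z)) =
      t2 (M.repF h e z) (M.repF B e z) (M.repF C e z) := by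
  rw [t2, t2, ← (AY.repA' ι X M).repF_mul B h C e he z hz]
  exact trm_loc he hz h fun x => B x * (h x)⁻¹ * C x

theorem pt_loc (D : Dt M p G r) (hh : M.IsK h) (he : e ∈ M.A) (hz : z ∈ e.target) (s : V ι → Y) :
    Pt (M.repF h e z) (D.H (s z)) (th (D.H ∘ s) z) :=
  ⟨(hh e he).2 z hz, D.pos _, D.reH _, fun k => by
    rw [th, transpose_smul, Matrix.smul_mul, Matrix.mul_smul, Dt.ca_sym]⟩

theorem tau_loc (hT : AlgT) (D : Dt M p G r) (z : V ι) (s : V ι → Y) :
    tauL (D.H ∘ s) z = grE (D.H (s z)) (th (D.H ∘ s) z) := by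
  rw [(hT ι r 1 _ _ (fun _ => 0) ⟨PosDef.one, D.pos _, D.reH _, fun k => by
    rw [th, transpose_smul, Matrix.smul_mul, Matrix.mul_smul, Dt.ca_sym]⟩).1]
  ext i j
  have e : (th (D.H ∘ s) z j).map star = (-(1 / 2) : ℂ) • cb (D.H ∘ s) j z := by
    rw [← Dt.ca_conj]
    ext a b
    simp [th, map_ofNat]
  rw [tauL, of_apply, of_apply, e, th, Matrix.smul_mul, Matrix.mul_smul, trace_smul, trace_smul,
    smul_eq_mul, smul_eq_mul]
  ring

theorem cont_trm (hh : M.IsK h) (hB : M.SmF B) : Continuous fun x => trm (h x) (B x) :=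
  Den.cont (AY.repA' ι X M) ((AY.repA' ι X M).ck_trm h B hh hB)

theorem cont_t2 (hh : M.IsK h) (hB : M.SmF B) (hC : M.SmF C) :
    Continuous fun x => t2 (h x) (B x) (C x) :=
  cont_trm (B := fun x => B x * (h x)⁻¹ * C x) hh fun e he z hz =>
    SmR.congr (SmR.mul (SmR.mul (hB e he z hz) (SmR.inv ((hh e he).1.1 z hz)
      ((hh e he).2 z hz).det_pos.ne')) (hC e he z hz))
      ((e.open_target.eventually_mem hz).mono fun w hw => (AY.repA' ι X M).repF_mul B h C e he w hw)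

theorem cont_rat (hh : M.IsK h) (hg : M.IsK g) : Continuous (rat h g) :=
  Den.cont (AY.repA' ι X M) ((AY.repA' ι X M).ck_rat h g (fun e he => (hh e he).1.1) hg)

theorem rat_nonneg (hh : M.IsK h) (hg : M.IsK g) (x : X) : 0 ≤ rat h g x :=
  div_nonneg (Mat.det' ((((AY.repA' ι X M).isK_iff h).1 hh).2 x)).1.le
    (Mat.det' ((((AY.repA' ι X M).isK_iff g).1 hg).2 x)).1.le

variable [T2Space X] [CompactSpace X] [MeasurableSpace X] [BorelSpace X] {μ : Measure X}

theorem bdd {f : X → ℝ} (hf : Continuous f) : ∃ C, 0 ≤ C ∧ ∀ x, f x ≤ C := by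
  obtain ⟨C, hC⟩ := (isCompact_range hf).bddAbove
  exact ⟨max C 0, le_max_right _ _, fun x => (hC ⟨x, rfl⟩).trans (le_max_left _ _)⟩

theorem intg (hg : M.IsK g) (hμ : M.IsVol g μ) (hh : M.IsK h) {f : X → ℝ} (hf : Continuous f) :
    Integrable (fun x => f x * rat h g x) μ :=
  haveI := ((AY.volS' ι X M g hg).2 μ hμ).fin
  Den.intg (hf.mul (cont_rat hh hg))

theorem int_mono (hg : M.IsK g) (hμ : M.IsVol g μ) (hh : M.IsK h) {f f' : X → ℝ}
    (hf : Continuous f) (hf' : Continuous f') (le : ∀ x, f x ≤ f' x) :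
    ∫ x, f x * rat h g x ∂μ ≤ ∫ x, f' x * rat h g x ∂μ :=
  integral_mono (intg hg hμ hh hf) (intg hg hμ hh hf')
    fun x => mul_le_mul_of_nonneg_right (le x) (rat_nonneg hh hg x)

theorem av_zero (hg : M.IsK g) (hμ : M.IsVol g μ) {h : ℕ → X → Mat ι} (hh : ∀ j, M.IsK (h j))
    {f u w : ℕ → X → ℝ} (c c' : ℝ) (cu : ∀ j, Continuous (u j)) (cw : ∀ j, Continuous (w j))
    (f0 : ∀ j x, 0 ≤ f j x) (le : ∀ j, ∫ x, f j x * rat (h j) g x ∂μ ≤
      ∫ x, (c * u j x + c' * w j x) * rat (h j) g x ∂μ)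
    (tu : Tendsto (fun j => av g μ (h j) (u j)) atTop (𝓝 0))
    (tw : Tendsto (fun j => av g μ (h j) (w j)) atTop (𝓝 0)) :
    Tendsto (fun j => av g μ (h j) (f j)) atTop (𝓝 0) := by
  have v0 : ∀ j, 0 ≤ vl g μ (h j) := fun j => integral_nonneg (rat_nonneg (hh j) hg)
  have t := (tu.const_mul c).add (tw.const_mul c')
  rw [mul_zero, mul_zero, add_zero] at t
  refine squeeze_zero (fun j => div_nonneg (integral_nonneg fun x =>
    mul_nonneg (f0 j x) (rat_nonneg (hh j) hg x)) (v0 j)) (fun j => ?_) t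
  refine (div_le_div_of_nonneg_right (le j) (v0 j)).trans_eq ?_
  simp only [add_mul, mul_assoc]
  rw [integral_add ((intg hg hμ (hh j) (cu j)).const_mul c)
    ((intg hg hμ (hh j) (cw j)).const_mul c'), integral_const_mul, integral_const_mul, av, av]
  ring

end Pool.Agent.Lib.MP_813db1_ag.VH.St1a
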