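import Pool.Agent.Lib.MP_813db1_ag.VH.RgZ
import Pool.Agent.Lib.MP_813db1_ag.VH.RSt1B

/-! A stage of the rigidity argument. -/

namespace Pool.Agent.Lib.MP_813db1_ag.VH

open Pool.Agent.Lib.MP_813db1_ag.HS Pool.Agent.Lib.MP_813db1_ag.AS
open MeasureTheory Complex Matrix Filter Topology Set
open scoped ContDiff ComplexOrder

variable {ι X Y G : Type} [Fintype ι] [DecidableEq ι] [TopologicalSpace X] [T2Space X]
  [CompactSpace X] [ConnectedSpace X] [MeasurableSpace X] [BorelSpace X] [TopologicalSpace Y]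
  [Group G] [MulAction G Y] {M : Atl ι X} {p : Y → X}

namespace Rg

variable {g σ ζ : X → Mat ι} {μ : Measure X} {u : ℝ → X → ℝ} {h : ℝ → X → Mat ι}

omit [T2Space X] [CompactSpace X] [ConnectedSpace X] [BorelSpace X] in
theorem fcl (F : Fm M g μ σ ζ u h) : M.ClF fun x => -M.ricF g x + σ x :=
  (AY.repA' ι X M).clF_add _ _ (by
    simpa using (AY.repA' ι X M).clF_smul (-1) _ ((AY.repB' ι X M).ric_cl g F.kg)) F.cσ

theorem fpoly (F : Fm M g μ σ ζ u h) : ∃ P : Polynomial ℝ, (∀ s > 0, 0 < P.eval s) ∧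
    (∀ s : ℝ, vl g μ (fun x => -M.ricF g x + (σ x + (s : ℂ) • ζ x)) = P.eval s) ∧
    ∀ s ∈ Ioc (0 : ℝ) 1, vl g μ (h s) = P.eval s ∧
      ∫ x, (trm (h s x) (ζ x) - s * t2 (h s x) (ζ x) (ζ x)) * rat (h s) g x ∂μ ≤
        P.derivative.eval s -
          s * (P.derivative.eval s ^ 2 / P.eval s - P.derivative.derivative.eval s) ∧
      ∀ t : ℝ, (Continuous fun x =>
        (1 + ((t * s : ℝ) : ℂ) • (ζ x * (h s x)⁻¹)).det.re * rat (h s) g x) ∧
        ∫ x, (1 + ((t * s : ℝ) : ℂ) • (ζ x * (h s x)⁻¹)).det.re * rat (h s) g x ∂μ =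
          P.eval ((1 + t) * s) := by
  have A := AY.repA' ι X M
  have hv := (AY.volS' ι X M g F.kg).2 μ F.vol
  have := hv.fin
  have := hv.pos
  have cB := fcl F
  obtain ⟨P, -, hP⟩ := vpoly F.kg F.vol cB F.cζ F.pζ fun x => rank_le_card_width _
  have e : ∀ s x, h s x = -M.ricF g x + σ x + (s : ℂ) • ζ x + M.ddc (u s) x := fun s x => by
    rw [F.eq, ← add_assoc]
  have p0 : ∀ s > 0, 0 < P.eval s := fun s hs => by
    have m : min s 1 ∈ Ioc (0 : ℝ) 1 := ⟨lt_min hs one_pos, min_le_right _ _⟩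
    have c := cl_lin cB F.cζ s
    rw [hP, ← invAll ι X M g _ μ _ F.kg F.vol c (F.ck _ m)]
    have pd : ∀ x, 0 < rat (fun y => -M.ricF g y + σ y + (s : ℂ) • ζ y +
        M.ddc (u (min s 1)) y) g x := fun x => by
      refine div_pos (Mat.det' ?_).1 (Mat.det' (((A.isK_iff g).1 F.kg).2 x)).1
      convert (((A.isK_iff _).1 (F.k _ m)).2 x).add_posSemidef
        ((F.pζ x).smul (zero_le_real.2 (sub_nonneg.2 (min_le_left s 1)))) using 1
      rw [e]
      push_cast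
      module
    exact (rat_c F.kg (A.clF_add _ _ c ((AY.repB' ι X M).ddc_cl _ (F.ck _ m)))
      ).integral_pos_of_hasCompactSupport_nonneg_nonzero (HasCompactSupport.of_compactSpace _)
      (fun x => (pd x).le) (pd (Classical.arbitrary X)).ne'
  refine ⟨P, p0, fun s => by simp only [hP, vl, add_assoc], fun s hs => ?_⟩
  obtain ⟨m1, -, m3⟩ := moments F.kg F.vol cB F.cζ F.pζ (F.ck s hs) (F.k s hs) hs.1 (e s) hP
    (p0 s hs.1)
  refine ⟨m1, m3, fun t => ?_⟩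
  obtain ⟨d1, d2⟩ := int_det F.kg F.vol (cl_lin cB F.cζ s) F.cζ (F.ck s hs) (F.k s hs) (e s) (t * s)
  refine ⟨d1, ?_⟩
  rw [d2, hP]
  simp only [add_mul, one_mul, ofReal_add, add_smul, add_assoc]

theorem fden (F : Fm M g μ σ ζ u h) : ∃ C ≥ (0 : ℝ), ∀ s ∈ Ioc (0 : ℝ) 1, ∃ v,
    (∀ f, av g μ (h s) f = ∫ x, f x * Real.exp (u s x - v) ∂μ) ∧ (∀ x, Real.exp (u s x - v) ≤ C) ∧
    ∫ x, |u s x - v| ∂μ ≤ C ∧ ∫ x, trm (g x) (h s x) ∂μ ≤ C ∧ ∀ x, -C ≤ M.lap g (u s) x := by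
  obtain ⟨P, p0, -, ps⟩ := fpoly F
  obtain ⟨C, C0, hC⟩ := dens F.kg F.vol (fcl F) F.cζ F.pζ
  refine ⟨C, C0, fun s hs => ⟨Real.log (vl g μ (h s)), ?_⟩⟩
  have v0 : 0 < vl g μ (h s) := (ps s hs).1 ▸ p0 s hs.1
  have e : ∀ f, av g μ (h s) f = ∫ x, f x * Real.exp (u s x - Real.log (vl g μ (h s))) ∂μ :=
    fun f => by simp only [av, Real.exp_sub, Real.exp_log v0, ← integral_div, F.rt s hs,
      mul_div_assoc]
  refine ⟨e, hC s hs _ _ (F.ck s hs) (F.k s hs) (fun x => by rw [F.eq, ← add_assoc]) _ ?_⟩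
  simpa only [av, one_mul, vl, div_self (vl.eq_1 g μ _ ▸ v0).ne'] using (e fun _ => 1).symm

theorem fen (F : Fm M g μ σ ζ u h) {en : ℝ → X → ℝ} (H : ∀ s ∈ Ioc (0 : ℝ) 1,
    Continuous (en s) ∧ (∀ x, 0 ≤ en s x) ∧ ∫ x, (en s x + s ^ 2 * t2 (h s x) (ζ x) (ζ x) -
      s * trm (h s x) (ζ x)) * rat (h s) g x ∂μ ≤ 0) :
    Tendsto (fun s => av g μ (h s) (en s)) (𝓝[>] 0) (𝓝 0) := by
  obtain ⟨P, p0, -, ps⟩ := fpoly F
  obtain ⟨-, -, p3, p4, -⟩ := poly P p0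
  have lim : Tendsto (fun s => s * P.derivative.eval s / P.eval s -
      (s * P.derivative.eval s / P.eval s) ^ 2 +
      s ^ 2 * P.derivative.derivative.eval s / P.eval s) (𝓝[>] 0) (𝓝 0) := by
    convert (p3.sub (p3.pow 2)).add p4 using 2
    ring
  have ev : ∀ᶠ s in 𝓝[>] (0 : ℝ), s ∈ Ioc (0 : ℝ) 1 := Ioc_mem_nhdsGT one_pos
  refine squeeze_zero' (ev.mono fun s hs => div_nonneg (integral_nonneg fun x =>
    mul_nonneg ((H s hs).2.1 x) (rat_pos F.kg (F.k s hs) x).le)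
    ((ps s hs).1 ▸ (p0 s hs.1).le)) (ev.mono fun s hs => ?_) lim
  obtain ⟨h1, -, h3⟩ := H s hs
  obtain ⟨q1, q2, -⟩ := ps s hs
  have sm : M.SmF ζ := fun e he => (F.cζ e he).1
  have c1 := St1a.cont_trm (F.k s hs) sm
  have c2 := St1a.cont_t2 (F.k s hs) sm sm
  have e : ∀ x, (en s x + s ^ 2 * t2 (h s x) (ζ x) (ζ x) - s * trm (h s x) (ζ x)) *
      rat (h s) g x = en s x * rat (h s) g x -
        s * ((trm (h s x) (ζ x) - s * t2 (h s x) (ζ x) (ζ x)) * rat (h s) g x) := fun x => by ring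
  simp only [e] at h3
  rw [integral_sub (St1a.intg F.kg F.vol (F.k s hs) h1)
    ((St1a.intg F.kg F.vol (F.k s hs) (by fun_prop)).const_mul s), integral_const_mul,
    sub_nonpos] at h3
  have := (p0 s hs.1).ne'
  rw [av, q1]
  refine (div_le_div_of_nonneg_right (h3.trans (mul_le_mul_of_nonneg_left q2 hs.1.le))
    (p0 s hs.1).le).trans_eq ?_
  field_simp
  ring

theorem fcut (F : Fm M g μ σ ζ u h) {en : ℝ → X → ℝ}
    (H : ∀ s ∈ Ioc (0 : ℝ) 1, Continuous (en s) ∧ ∀ x, 0 ≤ en s x)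
    (e0 : Tendsto (fun s => av g μ (h s) (en s)) (𝓝[>] 0) (𝓝 0)) :
    ∃ (s : ℕ → ℝ) (χ : ℕ → X → ℝ), (∀ j, s j ∈ Ioc (0 : ℝ) 1) ∧ Tendsto s atTop (𝓝 0) ∧
      (∀ j, M.Ck ∞ (χ j) ∧ ∀ x, 0 ≤ χ j x ∧ χ j x ≤ 1) ∧
      Tendsto (fun j => ∫ x, (1 - χ j x) ∂μ) atTop (𝓝 0) ∧
      Tendsto (fun j => ∫ x, M.grad g (χ j) (χ j) x ∂μ) atTop (𝓝 0) ∧
      Tendsto (fun j => ∫ x, χ j x * en (s j) x ∂μ) atTop (𝓝 0) := by
  have ha := AY.repA' ι X M
  have := ((AY.volS' ι X M g F.kg).2 μ F.vol).fin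
  obtain ⟨C, C0, hC⟩ := fden F
  obtain ⟨K, K0, hK⟩ := Den.dbd
  have key : ∀ j : ℕ, ∃ s ∈ Ioc (0 : ℝ) 1, ∃ χ : X → ℝ, s ≤ 1 / ((j : ℝ) + 1) ∧
      (M.Ck ∞ χ ∧ ∀ x, 0 ≤ χ x ∧ χ x ≤ 1) ∧ ∫ x, (1 - χ x) ∂μ ≤ C * (1 / ((j : ℝ) + 1)) ∧
      (0 ≤ ∫ x, M.grad g χ χ x ∂μ ∧
        ∫ x, M.grad g χ χ x ∂μ ≤ K * (C * μ.real univ) * (1 / ((j : ℝ) + 1))) ∧
      0 ≤ ∫ x, χ x * en s x ∂μ ∧ ∫ x, χ x * en s x ∂μ ≤ 1 / ((j : ℝ) + 1) := by
    intro j
    set A : ℝ := (j : ℝ) + 1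
    have A0 : 0 < A := by positivity
    have E0 := Real.exp_pos (2 * A)
    obtain ⟨s, ⟨hs, h1⟩, h2⟩ := (((eventually_mem_set.2 (Ioc_mem_nhdsGT (zero_lt_one' ℝ))).and
      (eventually_mem_set.2 (Ioc_mem_nhdsGT (one_div_pos.2 A0)))).and
      (e0.eventually (gt_mem_nhds (show 0 < 1 / A / Real.exp (2 * A) by positivity)))).exists
    obtain ⟨v, d0, -, d2, -, d4⟩ := hC s hs
    obtain ⟨χ, k1, k2, k3, k4, k5⟩ := Den.step ha (AY.repB' ι X M) AY.greenS F.kg F.vol K0 hK A0 C0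
      (F.ck s hs) d2 d4
    have cu := Den.cont ha (F.ck s hs)
    obtain ⟨w1, w2⟩ := Den.wle (μ := μ) (Den.cont ha k1) (d := fun x => Real.exp (u s x - v))
      (by fun_prop) (H s hs).1 (fun x => (k2 x).1.1) (fun x => (k2 x).2) (H s hs).2
    rw [d0, lt_div_iff₀' E0] at h2
    exact ⟨s, hs, χ, h1.2, ⟨k1, fun x => (k2 x).1⟩, k3, ⟨k4, k5⟩, w1, w2.trans h2.le⟩
  choose s hs χ k1 k2 k3 k4 k5 k6 using key
  have t := tendsto_one_div_add_atTop_nhds_zero_nat (𝕜 := ℝ)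
  exact ⟨s, χ, hs, squeeze_zero (fun j => (hs j).1.le) k1 t, k2,
    squeeze_zero (fun j => integral_nonneg fun x => sub_nonneg.2 ((k2 j).2 x).2) k3
      (by simpa only [mul_zero] using t.const_mul C),
    squeeze_zero (fun j => (k4 j).1) (fun j => (k4 j).2)
      (by simpa only [mul_zero] using t.const_mul (K * (C * μ.real univ))),
    squeeze_zero k5 k6 t⟩

end Rg

open Rg in
theorem stageS [SimplyConnectedSpace Y] (hq : IsQuotientCoveringMap p G) (hN : AlgN) (hO : AlgO)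
    (hM : MmS M p G) : StageS M p G := by
  intro g μ σ ζ u h F r _ _ D a en B ha H
  have A := AY.repA' ι X M
  have hv := (AY.volS' ι X M g F.kg).2 μ F.vol
  have := hv.fin
  have := hv.pos
  have hp := lh hq
  obtain ⟨P, p0, pv, ps⟩ := fpoly F
  obtain ⟨p1, p2, -, -, p5⟩ := poly P p0
  obtain ⟨C, C0, hC⟩ := fden F
  have e0 := fen F fun s hs => ⟨(H s hs).1, fun x => ((H s hs).2.1 x).1, (H s hs).2.2.1⟩
  obtain ⟨s, χ, hs, s0, k1, k2, k3, k4⟩ :=
    fcut F (fun s hs => ⟨(H s hs).1, fun x => ((H s hs).2.1 x).1⟩) e0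
  have ph := fun j => ((A.isK_iff _).1 (F.k _ (hs j))).2
  have tn : ∀ j x, 0 ≤ s j * trm (h (s j) x) (ζ x) := fun j x =>
    mul_nonneg (hs j).1.le (Mat.trm_nonneg (ph j x) (F.pζ x))
  have B0 : 0 ≤ B := (tn 0 (Classical.arbitrary X)).trans ((H _ (hs 0)).2.1 _).2
  have gr : ∀ y, gr (D.H y) (a (M.ch (p y)) y) = ζ (p y) := fun y => by
    obtain ⟨q1, q2⟩ := F12.sh_self hp (M.mem (p y))
    have := ha.gr _ (M.ch_mem _) _ ((M.ch _).map_source (M.mem _)) _ q1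
    simp only [q2, A.repF_self] at this
    exact this.symm
  have O := fun j y => hO ι r _ _ (a (M.ch (p y)) y) (ph j (p y)) (D.pos y) (D.reH y)
  have mm := fun j => (hM r D a ζ _ ha (F.k _ (hs j))).2.1
  have bd : ∀ j y, nE (D.H y) ((s j : ℂ) • D.mM (h (s j)) a y) ≤ max C (B ^ 2) := fun j y => by
    rw [nE_smul, Dt.mM, (O j y).2.2.2.1, gr]
    refine le_trans ?_ (le_max_right _ _)
    refine (mul_le_mul_of_nonneg_left ((hN ι r _ _ (ph j (p y)) (D.pos y)).2.2.2.2.2 _ _ (F.pζ _)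
      (F.pζ _)).2.2.1 (sq_nonneg _)).trans ?_
    rw [← sq, ← mul_pow]
    exact pow_le_pow_left₀ (tn j _) ((H _ (hs j)).2.1 _).2 2
  have S : Sq D g μ (fun j => h (s j)) (fun j y => (s j : ℂ) • D.mM (h (s j)) a y) χ
      (fun j x => B * en (s j) x) (max C (B ^ 2)) atTop := by
    refine ⟨F.kg, F.vol, fun j => F.k _ (hs j), fun j => ⟨fun e he z hz t ht =>
      ((mm j).sm e he z hz t ht).csmul _, fun γ y => ?_, fun y => ?_⟩, bd, fun j => ?_,
      fun j => (k1 j).1, fun j => continuous_const.mul (H _ (hs j)).1, fun j x =>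
        ⟨((k1 j).2 x).1, ((k1 j).2 x).2, mul_nonneg B0 ((H _ (hs j)).2.1 x).1⟩,
      fun j e he z hz t ht => ?_, k2, k3, ?_⟩
    · rw [(mm j).eqv, Matrix.mul_smul, Matrix.smul_mul]
    · rw [Matrix.mul_smul, (mm j).sa, conjTranspose_smul, Matrix.smul_mul, star_def, conj_ofReal]
    · obtain ⟨v, -, -, -, d, -⟩ := hC _ (hs j)
      exact d.trans (le_max_left _ _)
    · refine le_of_eq_of_le ?_ ((H _ (hs j)).2.2.2 e he z hz t ht)
      rw [← St1a.grE_smul]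
      congr 2
      funext k
      rw [nF, nF, show (fun y => (s j : ℂ) • D.mM (h (s j)) a y) ∘ t =
        fun w => (s j : ℂ) • (D.mM (h (s j)) a ∘ t) w from rfl,
        dR_csmul _ ((mm j).sm e he z hz t ht).df]
      simp only [Matrix.mul_smul, Matrix.smul_mul]
      module
    · simpa only [mul_zero, ← integral_const_mul, mul_left_comm] using k4.const_mul B
  obtain ⟨θ, Φ, ρ, t1, h1, h2, h3, h4, h5, h6, h7⟩ := S.sub hq hN
  have cH := smH_cont hp D.sm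
  have psd := h7 {q | (D.H q.1 * q.2).PosSemidef}
    (psd_closed.preimage ((cH.comp continuous_fst).matrix_mul continuous_snd)) fun j y => by
      simp only [mem_ofPred_eq, Matrix.mul_smul]
      exact (ou_psd (ph j _) (D.pos y) _).smul (zero_le_real.2 (hs j).1.le)
  have bΦ := h7 {q | nE (D.H q.1) q.2 ≤ max C (B ^ 2)} (isClosed_le (nE_cont
    (cH.comp continuous_fst) ((inv_cont hp D).comp continuous_fst) continuous_snd)
    continuous_const) bd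
  have s1 : Tendsto (fun j => s (θ j)) atTop (𝓝[>] 0) := tendsto_nhdsWithin_iff.2
    ⟨s0.comp t1.tendsto_atTop, .of_forall fun j => (hs _).1⟩
  have cv : Tendsto (fun j => av g μ (h (s (θ j))) fun x => √(ρ j x)) atTop (𝓝 0) := by
    refine squeeze_zero (fun j => ?_) (fun j => ?_)
      (by simpa only [mul_zero, ← integral_const_mul] using h6.const_mul C) <;>
      obtain ⟨v, d0, d1, -⟩ := hC _ (hs (θ j)) <;> rw [d0]
    · exact integral_nonneg fun x => by positivity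
    · have := Den.cont A (F.ck _ (hs (θ j)))
      have := h4 j
      exact integral_mono (Den.intg (by fun_prop)) (Den.intg (by fun_prop)) fun x =>
        (mul_le_mul_of_nonneg_left (d1 x) (Real.sqrt_nonneg _)).trans_eq (mul_comm _ _)
  have dt : ∀ y (t : ℝ), 0 ≤ t → (1 + (t : ℂ) • Φ y).det.re = (1 + t) ^ P.natTrailingDegree := by
    intro y t ht
    refine eq_of_forall_dist_le fun δ hδ => ?_
    obtain ⟨L, hL⟩ := det_unif r t (max C (B ^ 2)) hδ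
    have l1 := (((p5 t ht).comp s1).sub_const (1 + (t : ℂ) • Φ y).det.re).abs
    have l2 := (cv.const_mul |L|).const_add δ
    rw [mul_zero, add_zero] at l2
    rw [dist_comm, Real.dist_eq]
    refine le_of_tendsto_of_tendsto' l1 l2 fun j => ?_
    obtain ⟨q1, -, q3⟩ := ps _ (hs (θ j))
    have v0 := p0 _ (hs (θ j)).1
    have cr := rat_cont F.kg (F.k _ (hs (θ j)))
    have := h4 j
    have i1 := Den.intg (μ := μ) cr
    have i2 := St1a.intg F.kg F.vol (F.k _ (hs (θ j))) (h4 j).sqrt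
    rw [Function.comp_apply, div_sub' v0.ne', abs_div, abs_of_pos v0, av, q1, ← mul_div_assoc,
      add_div' _ _ _ v0.ne', ← (q3 t).2, ← q1, vl, mul_comm (∫ x, _ ∂μ), ← integral_const_mul,
      ← integral_sub (Den.intg (q3 t).1) (i1.const_mul _), ← integral_const_mul,
      ← integral_const_mul, ← integral_add (i1.const_mul _) (i2.const_mul _), ← Real.norm_eq_abs]
    refine div_le_div_of_nonneg_right (norm_integral_le_of_norm_le
      ((i1.const_mul _).add (i2.const_mul _)) (.of_forall fun x => ?_)) (q1 ▸ v0.le :)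
    obtain ⟨w, rfl⟩ := hq.surjective x
    have pr := (rat_pos F.kg (F.k _ (hs (θ j))) (p w)).le
    rw [← sub_mul, norm_mul, Real.norm_of_nonneg pr, ← mul_assoc, ← add_mul, h5,
      det_cst hp h1 h3 t y w, ← gr, ← (O _ w).2.2.2.2.1, ofReal_mul, mul_smul]
    exact mul_le_mul_of_nonneg_right (hL _ _ _ (D.pos w) (bd _ w) (bΦ w)) pr
  have pj := fun y => proj_of (D.pos y) (psd y) (dt y)
  refine ⟨_, _, Φ, fun j => s (θ j), ρ, ⟨⟨h1, h2, fun y => (pj y).1⟩, fun y => (pj y).2.1,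
    fun y => (pj y).2.2, h3.mono fun _ _ _ q k => (q k).1, h3.mono fun _ _ _ q k => (q k).2⟩, p1,
    fun j => hs _, s0.comp t1.tendsto_atTop,
    by simpa only [pv, Function.comp_def] using p2.comp s1, h4, h5, h6, cv, e0.comp s1,
    fun φ f L c1 c2 c3 c4 c5 => ?_⟩
  choose v d0 _ d2 d3 _ using fun j => hC _ (hs (θ j))
  have gp := ((A.isK_iff g).1 F.kg).2
  refine zero0 (u := fun j x => u (s (θ j)) x - v j) c1 (fun j => ⟨St1a.cont_trm F.kg
    fun e he => (F.k _ (hs _) e he).1.1, c2 j, (Den.cont A (F.ck _ (hs _))).sub continuous_const,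
    h4 j, d3 j, d2 j, fun x => ⟨Mat.trm_nonneg (gp x) (ph _ x).posSemidef, c3 j x, c5 j x⟩⟩)
    (by simpa only [d0] using c4) h6

end Pool.Agent.Lib.MP_813db1_ag.VH
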