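import Pool.Agent.Lib.MP_813db1_ag.VH.Stmt
import Pool.Agent.Lib.MP_813db1_ag.AS.Ext

/-! Closed one-forms on a simply connected covering space have primitives. -/

namespace Pool.Agent.Lib.MP_813db1_ag.VH

open Pool.Agent.Lib.MP_813db1_ag.HS Pool.Agent.Lib.MP_813db1_ag.AS
open Complex Matrix Filter Topology Set
open scoped ContDiff

namespace PrimA

variable {ι X Y G : Type} [Fintype ι] [DecidableEq ι] {z : V ι}

/-- the coordinate. -/
noncomputable def P (k : ι) : V ι →L[ℝ] ℂ := ContinuousLinearMap.proj k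

/-- the conjugate coordinate. -/
noncomputable def Q (k : ι) : V ι →L[ℝ] ℂ := (conjCLE : ℂ →L[ℝ] ℂ).comp (P k)

/-- the one-form with given coefficients. -/
noncomputable def om (a b : V ι) : V ι →L[ℝ] ℂ := ∑ k, (a k • P k + b k • Q k)

omit [DecidableEq ι] in
theorem om_apply (a b v : V ι) : om a b v = ∑ k, (a k * v k + b k * star (v k)) := by
  simp [om, P, Q]

theorem om_single (a b : V ι) (k : ι) (c : ℂ) : om a b (Pi.single k c) = a k * c + b k * star c := by
  rw [om_apply, Finset.sum_eq_single k (fun l _ h => by simp [h]) (by simp), Pi.single_eq_same]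

theorem dz_om {f : V ι → ℂ} {a b : V ι} (h : HasFDerivAt f (om a b) z) (k : ι) :
    dz f k z = a k ∧ dzb f k z = b k := by
  rw [dz, dzb, h.fderiv, om_single, om_single, star_one, star_I]
  exact ⟨by linear_combination (b k - a k) / 2 * I_mul_I,
    by linear_combination (a k - b k) / 2 * I_mul_I⟩

omit [DecidableEq ι] in
theorem om_sm {A B : V ι → V ι} (hA : ∀ k, ContDiffAt ℝ ∞ (fun w => A w k) z)
    (hB : ∀ k, ContDiffAt ℝ ∞ (fun w => B w k) z) : ContDiffAt ℝ ∞ (fun w => om (A w) (B w)) z :=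
  ContDiffAt.sum fun k _ => ((hA k).smul contDiffAt_const).add ((hB k).smul contDiffAt_const)

theorem om_sy {A B : V ι → V ι} (hA : ∀ k, ContDiffAt ℝ ∞ (fun w => A w k) z)
    (hB : ∀ k, ContDiffAt ℝ ∞ (fun w => B w k) z)
    (h : ∀ i k, dz (fun w => A w i) k z = dz (fun w => A w k) i z ∧
      dzb (fun w => B w i) k z = dzb (fun w => B w k) i z ∧
      dzb (fun w => A w i) k z = dz (fun w => B w k) i z) (u v : V ι) :
    fderiv ℝ (fun w => om (A w) (B w)) z u v = fderiv ℝ (fun w => om (A w) (B w)) z v u := by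
  have h1 := HasFDerivAt.fun_sum (u := Finset.univ) fun k _ =>
    (((hA k).differentiableAt (by simp)).hasFDerivAt.smul_const (P k)).fun_add
      (((hB k).differentiableAt (by simp)).hasFDerivAt.smul_const (Q k))
  rw [show fderiv ℝ (fun w => om (A w) (B w)) z = _ from h1.fderiv]
  simp only [_root_.sum_apply, _root_.add_apply,
    ContinuousLinearMap.smulRight_apply, _root_.smul_apply, smul_eq_mul, fderiv_eq_dz,
    Finset.sum_mul, ← Finset.sum_add_distrib]
  rw [Finset.sum_comm]
  refine Finset.sum_congr rfl fun i _ => Finset.sum_congr rfl fun k _ => ?_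
  rw [(h i k).1, (h i k).2.1, (h i k).2.2, (h k i).2.2]
  change _ * v k + _ * star (v k) = _ * u i + _ * star (u i)
  ring

omit [DecidableEq ι] in
theorem om_tr (J : Mat ι) (a b v : V ι) :
    om (fun k => ∑ l, J l k * a l) (fun k => ∑ l, star (J l k) * b l) v = om a b (J *ᵥ v) := by
  simp only [om_apply, mulVec, dotProduct, star_sum, star_mul', Finset.sum_mul, Finset.mul_sum,
    ← Finset.sum_add_distrib]
  rw [Finset.sum_comm]
  exact Finset.sum_congr rfl fun i _ => Finset.sum_congr rfl fun k _ => by ring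

omit [DecidableEq ι] in
theorem om_sum {r : Type} [Fintype r] (c : r → ℂ) (a b : ι → V r) :
    om (fun k => ∑ j, c j * a k j) (fun k => ∑ j, c j * b k j) =
      ∑ j, c j • om (fun k => a k j) fun k => b k j := by
  ext1 v
  simp only [om_apply, _root_.sum_apply, _root_.smul_apply, smul_eq_mul,
    Finset.sum_mul, Finset.mul_sum, ← Finset.sum_add_distrib]
  rw [Finset.sum_comm]
  exact Finset.sum_congr rfl fun i _ => Finset.sum_congr rfl fun k _ => by ring

variable [TopologicalSpace X] [TopologicalSpace Y] {M : Atl ι X} {p : Y → X}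

omit [DecidableEq ι] in
theorem cst [PreconnectedSpace Y] (hp : IsLocalHomeomorph p) {f : Y → ℝ}
    (h : ∀ e ∈ M.A, ∀ s z, Sec p e s z → HasFDerivAt (fun w => f (s w)) (0 : V ι →L[ℝ] ℝ) z)
    (y y' : Y) : f y = f y' :=
  ((IsLocallyConstant.iff_eventually_eq f).2 fun y => by
    obtain ⟨c, hc⟩ := PrAt.const (A := M.A) (β := fun _ _ => 0) hp
      (fun x => ⟨_, M.ch_mem x, M.mem x⟩) (y := y) (u := f) (u' := fun _ => 0)
      (Eventually.of_forall fun _ e he s z hs _ => h e he s z hs)
      (Eventually.of_forall fun _ e _ s z _ _ => hasFDerivAt_const _ _)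
    filter_upwards [hc] with w hw
    rw [hw, hc.self_of_nhds]).apply_eq_of_preconnectedSpace _ _

omit [DecidableEq ι] in
theorem cstC [PreconnectedSpace Y] (hp : IsLocalHomeomorph p) {f : Y → ℂ}
    (h : ∀ e ∈ M.A, ∀ s z, Sec p e s z → HasFDerivAt (fun w => f (s w)) (0 : V ι →L[ℝ] ℂ) z)
    (y y' : Y) : f y = f y' :=
  Complex.ext
    (cst hp (f := fun y => (f y).re) (fun e he s z hs =>
      (reCLM.hasFDerivAt.comp z (h e he s z hs)).congr_fderiv (by simp)) y y')
    (cst hp (f := fun y => (f y).im) (fun e he s z hs =>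
      (imCLM.hasFDerivAt.comp z (h e he s z hs)).congr_fderiv (by simp)) y y')

theorem ex [SimplyConnectedSpace Y] (hp : IsLocalHomeomorph p) {r : Type}
    {a b : Ch ι X → Y → ι → V r} (h1 : Fm1 M p a b) (h2 : Cl1 M p a b) (i : r) :
    ∃ u : Y → ℂ, ∀ e ∈ M.A, ∀ s z, Sec p e s z → HasFDerivAt (fun w => u (s w))
      (om (fun k => a e (s z) k i) fun k => b e (s z) k i) z := by
  have hA : ∀ x, ∃ e ∈ M.A, x ∈ e.source := fun x => ⟨_, M.ch_mem x, M.mem x⟩
  have := lpc hp hA
  have key : ∀ l : ℂ →L[ℝ] ℝ, ∃ u : Y → ℝ, ∀ y, PrAt M.A p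
      (fun e y => l.comp (om (fun k => a e y k i) fun k => b e y k i)) u y := fun l => by
    refine exists_pr hp hA (fun e he e' he' x c d =>
      (M.hol e he e' he' x c d).differentiableAt.restrictScalars ℝ)
      (fun e he e' he' y c d => ?_) fun e he s z hs => ?_
    · ext1 v
      simp only [ContinuousLinearMap.comp_apply]
      rw [fderiv_hol (M.hol e he e' he' _ c d).differentiableAt, ← jac_mulVec, ← om_tr]
      simp only [h1.tra e he e' he' y c d, h1.trb e he e' he' y c d, Finset.sum_apply,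
        Pi.smul_apply, smul_eq_mul, tj]
    · have c := fun k => h1.sma e he z hs.mem s ⟨hs.cont, hs.ev⟩ k i
      have d := fun k => h1.smb e he z hs.mem s ⟨hs.cont, hs.ev⟩ k i
      have q := (ContinuousLinearMap.compL ℝ (V ι) ℂ ℝ l).hasFDerivAt.comp z
        ((om_sm c d).differentiableAt (by simp)).hasFDerivAt
      refine ⟨q.differentiableAt, fun u v => ?_⟩
      rw [show fderiv ℝ (fun w => l.comp (om (fun k => a e (s w) k i) fun k => b e (s w) k i)) z =
        _ from q.fderiv]
      exact congrArg l (om_sy c d (fun j k => (h2 e he z hs.mem s ⟨hs.cont, hs.ev⟩ j k).imp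
        (congrFun · i) (And.imp (congrFun · i) (congrFun · i))) u v)
  obtain ⟨u, hu⟩ := key reCLM
  obtain ⟨v, hv⟩ := key imCLM
  refine ⟨fun y => u y + v y * I, fun e he s z hs => ?_⟩
  refine (((ofRealCLM.hasFDerivAt.comp z (hu _ e he s z hs rfl)).fun_add
    ((ofRealCLM.hasFDerivAt.comp z (hv _ e he s z hs rfl)).mul_const I))).congr_fderiv ?_
  ext1 w
  simp [mul_comm I]

end PrimA

variable {ι X Y G : Type} [Fintype ι] [DecidableEq ι] [TopologicalSpace X] [TopologicalSpace Y]
  [SimplyConnectedSpace Y] [Group G] [MulAction G Y] {M : Atl ι X} {p : Y → X}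

open PrimA in
theorem primS (hq : IsQuotientCoveringMap p G) : PrimS M p G := by
  intro r _ _ a b h1 h2
  have hp := hq.isCoveringMap.isLocalHomeomorph
  have := hq.toContinuousConstSMul
  choose u hu using ex hp h1 h2
  obtain ⟨y₀⟩ : Nonempty Y := inferInstance
  have hx : ∀ i, ∀ e ∈ M.A, ∀ s z, Sec p e s z → HasFDerivAt (fun w => u i (s w) - u i y₀)
      (om (fun k => a e (s z) k i) fun k => b e (s z) k i) z :=
    fun i e he s z hs => (hu i e he s z hs).sub_const _
  refine ⟨fun y i => u i y - u i y₀, fun e he z hz s hs => contDiffAt_pi.2 fun i => ?_,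
    fun e he z hz s hs k => ⟨funext fun i => (dz_om (hx i e he s z ⟨hz, hs.1, hs.2⟩) k).1,
      funext fun i => (dz_om (hx i e he s z ⟨hz, hs.1, hs.2⟩) k).2⟩,
    fun h y => funext fun i => conj_eq_iff_im.2 ?_, fun ρ ha hb => ?_⟩
  · refine contDiffAt_infty.2 fun n => ContDiffAt.of_le (n := (n : ℕ) + 1) ?_ le_self_add
    exact contDiffAt_succ_iff_hasFDerivAt.2
      ⟨_, ⟨_, Sec.near hp ⟨hz, hs.1, hs.2⟩, fun w hw => hx i e he s w hw⟩,
        contDiffAt_infty.1 (om_sm (fun k => h1.sma e he z hz s hs k i)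
          fun k => h1.smb e he z hz s hs k i) n⟩
  · refine (cst (M := M) hp (f := fun y => (u i y - u i y₀).im) (fun e he s z hs =>
      (imCLM.hasFDerivAt.comp z (hx i e he s z hs)).congr_fderiv ?_) y y₀).trans (by simp)
    ext1 v
    change (om _ _ v).im = 0
    rw [om_apply, im_sum]
    refine Finset.sum_eq_zero fun k _ => ?_
    rw [h, Pi.star_apply, ← star_mul', RCLike.star_def, add_im, conj_im, add_neg_cancel]
  · have e : ∀ (g : G) y, (fun i => u i (g • y) - u i y₀) =
        (ρ g *ᵥ fun i => u i y - u i y₀) + fun i => u i (g • y₀) - u i y₀ := fun g y => by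
      funext i
      have := cstC (M := M) hp
        (f := fun y => u i (g • y) - u i y₀ - ∑ j, ρ g i j * (u j y - u j y₀)) (fun e he s z hs =>
          ((hx i e he _ z (hs.smul (fun g _ => hq.map_smul g) g)).fun_sub
            (HasFDerivAt.fun_sum fun j _ => (hx j e he s z hs).const_mul (ρ g i j))).congr_fderiv
            (by
              rw [← om_sum, sub_eq_zero]
              simp only [ha e g _ hs.src, hb e g _ hs.src]
              rfl)) y y₀
      simp only [sub_self, mul_zero, Finset.sum_const_zero, sub_zero] at this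
      exact (sub_eq_iff_eq_add'.1 this :)
    exact ⟨fun g i => u i (g • y₀) - u i y₀, fun g g' => by
      rw [add_comm, ← e]
      simp only [mul_smul], e⟩

end Pool.Agent.Lib.MP_813db1_ag.VH
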