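import Pool.Agent.Lib.MP_813db1_ag.VH.St7
import Pool.Agent.Lib.MP_813db1_ag.VH.Res
import Pool.Agent.Lib.MP_813db1_ag.VH.Frm
import Pool.Agent.Lib.MP_813db1_ag.VH.Prim

/-! The flat summand of a parallel projector. -/

namespace Pool.Agent.Lib.MP_813db1_ag.VH

open Pool.Agent.Lib.MP_813db1_ag.HS Pool.Agent.Lib.MP_813db1_ag.AS
open Complex Matrix Filter Topology Set
open scoped ContDiff ComplexOrder

namespace RSub1

section alg

variable {r : Type} [Fintype r] [DecidableEq r] {H J F A B A' B' : Mat r}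

theorem fac {K : Type} [Field K] [CharZero K] {π : Matrix r r K} (h : π * π = π) {n : ℕ}
    (ht : trace π = n) : ∃ (P : Matrix r (Fin n) K) (P' : Matrix (Fin n) r K),
      P * P' = π ∧ P' * P = 1 := by
  have hi : IsIdempotentElem (toLin' π) := by
    rw [IsIdempotentElem, Module.End.mul_eq_comp, ← toLin'_mul, h]
  have hp := LinearMap.IsIdempotentElem.isProj_range _ hi
  have hn : Module.finrank K (LinearMap.range (toLin' π)) = n := by
    have := hp.trace
    rw [trace_toLin'_eq, ht] at this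
    exact_mod_cast this.symm
  let e := (Module.finBasisOfFinrankEq K _ hn).equivFun
  refine ⟨LinearMap.toMatrix' ((LinearMap.range (toLin' π)).subtype ∘ₗ e.symm.toLinearMap),
    LinearMap.toMatrix' (e.toLinearMap ∘ₗ (toLin' π).rangeRestrict), ?_, ?_⟩
  · rw [← LinearMap.toMatrix'_comp]
    refine Eq.trans (congrArg _ (LinearMap.ext fun v => ?_)) (LinearMap.toMatrix'_toLin' π)
    exact congrArg Subtype.val (e.symm_apply_apply _)
  · rw [← LinearMap.toMatrix'_comp]
    refine Eq.trans (congrArg _ (LinearMap.ext fun v => ?_)) LinearMap.toMatrix'_id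
    exact (congrArg e (Subtype.ext (hp.map_id _ (e.symm v).2))).trans (e.apply_symm_apply v)

theorem facC {π : Mat r} (hr : π.map star = π) (h : π * π = π) {n : ℕ} (ht : trace π = n) :
    ∃ (P : Matrix r (Fin n) ℂ) (P' : Matrix (Fin n) r ℂ), P.map star = P ∧ P'.map star = P' ∧
      P * P' = π ∧ P' * P = 1 := by
  have e : (π.map re).map ofRealHom = π := by
    ext i j
    exact conj_eq_iff_re.1 (congrFun (congrFun hr i) j)
  obtain ⟨P, P', h1, h2⟩ := fac (π := π.map re) (n := n) (by
    refine map_injective (f := ofRealHom) ofReal_injective ?_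
    simp only [Matrix.map_mul, e, h]) (by
    have := congrArg re ht
    rwa [trace, re_sum, natCast_re] at this)
  refine ⟨P.map ofRealHom, P'.map ofRealHom, ?_, ?_, ?_, ?_⟩
  · ext i j
    exact conj_ofReal _
  · ext i j
    exact conj_ofReal _
  · rw [← Matrix.map_mul, h1, e]
  · rw [← Matrix.map_mul, h2, Matrix.map_one _ (map_zero _) (map_one _)]

omit [DecidableEq r] in
theorem ad_mul (h : Aᵀ * H = H * A') (h' : Bᵀ * H = H * B') : (A * B)ᵀ * H = H * (B' * A') := by
  rw [transpose_mul, Matrix.mul_assoc, h, ← Matrix.mul_assoc, h', Matrix.mul_assoc]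

theorem cancel (h0 : H.PosDef) (h : H * A = H * B) : A = B :=
  h0.isUnit.mul_left_cancel h

omit [Fintype r] [DecidableEq r] in
theorem ss (A : Mat r) : (A.map star).map star = A := by
  ext i j
  exact star_star _

omit [Fintype r] [DecidableEq r] in
theorem s_add (A B : Mat r) : (A + B).map star = A.map star + B.map star := by
  ext i j
  exact star_add _ _

omit [Fintype r] [DecidableEq r] in
theorem s_sub (A B : Mat r) : (A - B).map star = A.map star - B.map star := by
  ext i j
  exact star_sub _ _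

omit [Fintype r] [DecidableEq r] in
theorem s_smul (a : ℂ) (A : Mat r) : (a • A).map star = star a • A.map star := by
  ext i j
  exact star_mul' a (A i j)

omit [Fintype r] [DecidableEq r] in
theorem s_zero : (0 : Mat r).map star = 0 := by
  ext i j
  exact star_zero _

theorem s_inv (h0 : H.PosDef) (hr : H.map star = H) : H⁻¹.map star = H⁻¹ := by
  refine (inv_eq_right_inv ?_).symm
  rw [← hr, ← Res.map_mul', hr, mul_nonsing_inv _ h0.det_pos.ne'.isUnit]
  exact Matrix.map_one _ (star_zero _) (star_one _)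

/-- the pointwise data. -/
structure Pw (H J F : Mat r) : Prop where
  pos : H.PosDef
  re : H.map star = H
  rJ : J.map star = J
  aJ : Jᵀ * H = H * -J
  sa : H * F = Fᴴ * H
  sq : F * F = F
  ev : J * F = I • F

namespace Pw

variable (h : Pw H J F)

include h

omit [DecidableEq r] in
theorem a1 : (F.map star)ᵀ * H = H * F := h.sa.symm

omit [DecidableEq r] in
theorem a2 : Fᵀ * H = H * F.map star := by
  have := congrArg (·.map star) h.a1
  simp only [Res.map_mul', h.re] at this
  rwa [transpose_map, ss] at this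

omit [DecidableEq r] in
theorem jc : J * F.map star = -I • F.map star := by
  have := congrArg (·.map star) h.ev
  simp only [Res.map_mul', h.rJ, s_smul] at this
  rwa [star_def, conj_I] at this

theorem fj : F * J = I • F := by
  have := ad_mul h.aJ h.a1
  rw [h.jc, transpose_smul, Matrix.smul_mul, h.a1, ← Matrix.mul_smul, Matrix.mul_neg,
    neg_smul] at this
  exact neg_injective (cancel h.pos this).symm

theorem cj : F.map star * J = -I • F.map star := by
  have := congrArg (·.map star) h.fj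
  simp only [Res.map_mul', h.rJ, s_smul] at this
  rwa [star_def, conj_I] at this

theorem fc : F * F.map star = 0 := by
  have e : F * J * F.map star = F * (J * F.map star) := Matrix.mul_assoc _ _ _
  rw [h.fj, h.jc, Matrix.smul_mul, Matrix.mul_smul, ← sub_eq_zero, ← sub_smul] at e
  exact (smul_eq_zero.1 e).resolve_left (by simp)

theorem cf : F.map star * F = 0 := by
  have := congrArg (·.map star) h.fc
  simpa only [Res.map_mul', ss, s_zero] using this

omit [DecidableEq r] in
theorem cc : F.map star * F.map star = F.map star := by rw [← Res.map_mul', h.sq]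

theorem idem : (F + F.map star) * (F + F.map star) = F + F.map star := by
  rw [Matrix.add_mul, Matrix.mul_add, Matrix.mul_add, h.sq, h.fc, h.cf, h.cc, add_zero, zero_add]

theorem sym : H * (F + F.map star) = (F + F.map star)ᵀ * H := by
  rw [Matrix.mul_add, transpose_add, Matrix.add_mul, h.a1, h.a2, add_comm]

theorem cJ : J * (F + F.map star) = (F + F.map star) * J := by
  rw [Matrix.mul_add, Matrix.add_mul, h.ev, h.jc, h.fj, h.cj]

theorem two : (1 - I • J) * (F + F.map star) = F + F := by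
  rw [Matrix.sub_mul, Matrix.one_mul, Matrix.smul_mul, Matrix.mul_add, h.ev, h.jc, smul_add,
    smul_smul, smul_smul, mul_neg, I_mul_I, neg_neg, neg_smul, one_smul, one_smul]
  abel

theorem cA (hA : Aᵀ * H = H * A) (h1 : A * F = 0) (h2 : (1 - F) * A * F.map star = 0) :
    A * (F + F.map star) = (F + F.map star) * A := by
  have e1 := ad_mul hA h.a2
  rw [h1, transpose_zero, Matrix.zero_mul, ← Matrix.mul_zero H] at e1
  have a3 : (1 - F)ᵀ * H = H * (1 - F.map star) := by
    rw [transpose_sub, transpose_one, Matrix.sub_mul, Matrix.mul_sub, h.a2, Matrix.one_mul,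
      Matrix.mul_one]
  have e2 := ad_mul (ad_mul a3 hA) h.a1
  rw [h2, transpose_zero, Matrix.zero_mul, ← Matrix.mul_zero H] at e2
  have e3 := (cancel h.pos e2).symm
  rw [Matrix.mul_sub, Matrix.mul_one, Matrix.mul_sub, sub_eq_zero] at e3
  rw [Matrix.sub_mul, Matrix.sub_mul, Matrix.one_mul, sub_eq_zero, Matrix.mul_assoc] at h2
  rw [Matrix.mul_add, Matrix.add_mul, h1, ← cancel h.pos e1, zero_add, add_zero, e3, ← h2]

theorem vec {v : V r} (hv : J *ᵥ v = I • v) : (F + F.map star) *ᵥ v = F *ᵥ v := by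
  have e : (F.map star * J) *ᵥ v = F.map star *ᵥ (J *ᵥ v) := (mulVec_mulVec _ _ _).symm
  rw [h.cj, hv, smul_mulVec, mulVec_smul, ← sub_eq_zero, ← sub_smul] at e
  rw [add_mulVec, (smul_eq_zero.1 e).resolve_left (by simp [← neg_add', I_ne_zero]), add_zero]

end Pw

omit [DecidableEq r] in
theorem ip_pull {r' : Type} [Fintype r'] {P : Matrix r r' ℂ} (hP : P.map star = P) (H : Mat r)
    (u v : V r') : ipV (Pᵀ * H * P) u v = ipV H (P *ᵥ u) (P *ᵥ v) := by
  classical
  rw [ipV_eq, ipV_eq, Dt.star_mulVec', hP, Matrix.mul_assoc, ← mulVec_mulVec, dotProduct_mulVec,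
    vecMul_transpose, mulVec_mulVec]

end alg

variable {ι X Y G r : Type} [Fintype ι] [DecidableEq ι] [TopologicalSpace X] [TopologicalSpace Y]
  [Group G] [MulAction G Y] [Fintype r] [DecidableEq r] {M : Atl ι X} {p : Y → X}
  {D : Dt M p G r} {Q : Mat r} {x : Y → V r} {F : Y → Mat r} {m : ℕ}

theorem pw (hQ : D.Pol Q x) (hF : D.Pj F m) (h : ∀ y, D.J Q y * F y = I • F y) (y : Y) :
    Pw (D.H y) (D.J Q y) (F y) := by
  refine ⟨D.pos y, D.reH y, ?_, ?_, hF.sa y, hF.sq y, h y⟩
  · rw [Dt.J, Res.map_mul', s_inv (D.pos y) (D.reH y), hQ.re]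
  · rw [Dt.J, transpose_mul, transpose_nonsing_inv, D.sym, hQ.alt, Matrix.mul_neg,
      mul_nonsing_inv_cancel_left _ _ (D.det_ne y).isUnit,
      nonsing_inv_mul_cancel_right _ _ (D.det_ne y).isUnit]

theorem cst [PreconnectedSpace Y] (hp : IsLocalHomeomorph p) (hF : D.Pj F m)
    (h : Loc M p fun _ z s => ∀ k, ca (D.H ∘ s) k z * (F (s z) + (F (s z)).map star) =
      (F (s z) + (F (s z)).map star) * ca (D.H ∘ s) k z) (y y' : Y) :
    F y + (F y).map star = F y' + (F y').map star := by
  ext i j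
  refine PrimA.cstC (M := M) hp (f := fun y => (F y + (F y).map star) i j)
    (fun e he s z hs => ?_) y y'
  have h0 : F12.Sec p e z s := ⟨hs.cont, hs.ev⟩
  have sm := hF.sm e he z hs.mem s h0
  have d : ∀ k, dR (fun w => (F ∘ s) w + ((F ∘ s) w).map star) k z = 0 := fun k => by
    have e1 := hF.par e he z hs.mem s h0 k
    have e2 := congrArg (·.map star) (hF.parb e he z hs.mem s h0 k)
    have e3 := h e he z hs.mem s h0 k
    simp only [s_add, s_smul, s_sub, Res.map_mul', Dt.cb_conj, s_zero, star_div₀, star_one,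
      star_ofNat] at e2
    rw [nF] at e1
    rw [dR_add sm.df sm.star.df, dR_star, eq_neg_of_add_eq_zero_left e1,
      eq_neg_of_add_eq_zero_left e2, ← neg_add, ← smul_add, sub_add_sub_comm, ← Matrix.mul_add,
      ← Matrix.add_mul]
    exact (congrArg (fun a => -((1 / 2 : ℂ) • a)) (sub_eq_zero.2 e3)).trans (by simp)
  have d' : ∀ k, dRb (fun w => (F ∘ s) w + ((F ∘ s) w).map star) k z = 0 := fun k => by
    rw [dRb_real (Eventually.of_forall fun w => by rw [s_add, ss, add_comm]), d, s_zero]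
  refine ((sm.add sm.star).df i j).hasFDerivAt.congr_fderiv (ContinuousLinearMap.ext fun v => ?_)
  rw [fderiv_eq_dz]
  exact Finset.sum_eq_zero fun k _ => by
    rw [← dR_apply, ← dRb_apply, d, d']
    simp

end RSub1

variable {ι X Y G : Type} [Fintype ι] [DecidableEq ι] [TopologicalSpace X] [TopologicalSpace Y]
  [SimplyConnectedSpace Y] [Group G] [MulAction G Y] {M : Atl ι X} {p : Y → X}

open RSub1 in
theorem sub1 (hq : IsQuotientCoveringMap p G) : Sub1 M p G := by
  intro r _ _ D Q c x F m hD hx hX hQ hF hJ hA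
  have w := pw hQ hF hJ
  have k := cst (lh hq) hF fun e he z hz s hs k =>
    (w (s z)).cA (Dt.ca_sym k) (hA e he z hz s hs k).1 (hA e he z hz s hs k).2
  obtain ⟨y0⟩ : Nonempty Y := inferInstance
  obtain ⟨P, P', hP, hP', h1, h2⟩ := facC (π := F y0 + (F y0).map star) (n := 2 * m)
    (by rw [s_add, ss, add_comm]) (w y0).idem (by
      have e : trace ((F y0).map star) = star (trace (F y0)) := by
        rw [← trace_conjTranspose, ← trace_transpose]
        rfl
      rw [trace_add, e, hF.tr, star_natCast]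
      push_cast
      ring)
  have h3 : ∀ y, P * P' = F y + (F y).map star := fun y => h1.trans (k _ _)
  have hρ : ∀ g, D.ρ g * (P * P') = P * P' * D.ρ g := fun g => by
    conv_rhs => rw [h3 (g • y0), hF.eqv, Res.map_mul', Res.map_mul', D.reR, D.reR,
      ← Matrix.add_mul, ← Matrix.mul_add, Matrix.mul_assoc, D.inv_mul, Matrix.mul_one, ← h1]
  have hH : ∀ y, D.H y * (P * P') = (P * P')ᵀ * D.H y := fun y => h3 y ▸ (w y).sym
  have hc : ∀ y, D.J Q y * (P * P') = P * P' * D.J Q y := fun y => h3 y ▸ (w y).cJ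
  obtain ⟨E, e1, e2, e3, -, e4, e5⟩ := resS r (Fin (2 * m)) D P P' hP hP' h2 hρ hH
  obtain ⟨e6, e7⟩ := e5 c x hx
  have eJ : ∀ y, E.J (Pᵀ * Q * P) y = P' * D.J Q y * P := fun y => by
    rw [Dt.J, e2, Res.inv_mul h2 hP (D.pos y) (hH y), Dt.J]
  have rx : ∀ y, star (P' *ᵥ x y) = P' *ᵥ x y := fun y => by rw [Dt.star_mulVec', hP', hQ.rx]
  have dx : Loc M p fun _ z s => ∀ k, dV ((fun y => P' *ᵥ x y) ∘ s) k z = P' *ᵥ dV (x ∘ s) k z :=
    fun e he z hz s hs k => Res.dV_mul (Res.dfV (hx.1 e he z hz s hs)) P' k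
  obtain ⟨ξ, f1, -, f2, f3⟩ := (frmS hq (Fin (2 * m)) E).2 _ _ e6
  refine ⟨E, Pᵀ * Q * P, _, _, ξ, ⟨e6, ⟨?_, ?_, fun y => ?_, fun g => ?_, rx,
    fun e he z hz s hs k => ?_⟩, e3 hD, e7 hX, fun e he z hz s hs k => ?_, f1, f3 rx (e7 hX), f2⟩,
    fun e he z hz s hs => ?_⟩
  · rw [Res.map_mul', Res.map_mul', hQ.re, transpose_map, hP]
  · rw [transpose_mul, transpose_mul, transpose_transpose, hQ.alt, Matrix.neg_mul, Matrix.mul_neg,
      Matrix.mul_assoc]
  · rw [eJ, Res.mul2 h2 (hc y), hQ.sq, Matrix.mul_neg, Matrix.mul_one, Matrix.neg_mul, h2]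
  · have e : P * E.ρ g = D.ρ g * P := by
      rw [e1, ← Matrix.mul_assoc, ← Matrix.mul_assoc, ← hρ, Matrix.mul_assoc, Res.piP h2]
    calc _ = (P * E.ρ g)ᵀ * Q * (P * E.ρ g) := by
          rw [transpose_mul]
          simp only [Matrix.mul_assoc]
      _ = Pᵀ * ((D.ρ g)ᵀ * Q * D.ρ g) * P := by
          rw [e, transpose_mul]
          simp only [Matrix.mul_assoc]
      _ = _ := by rw [hQ.inv]
  · rw [eJ, dx e he z hz s hs, Res.vec2 h2 (hc _), hQ.cr e he z hz s hs, mulVec_smul]
  · have e : (1 : Mat (Fin (2 * m))) - I • (P' * D.J Q (s z) * P) =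
        P' * (1 - I • D.J Q (s z)) * P := by
      rw [Matrix.mul_sub, Matrix.sub_mul, Matrix.mul_one, h2, Matrix.mul_smul, Matrix.smul_mul]
    obtain ⟨a1, -, a2, -⟩ := e4 _ he z hz s hs k
    rw [eJ, a1, e, Res.mul2 h2 a2, ← Res.piP h2, ← Matrix.mul_assoc, Matrix.mul_assoc P',
      Matrix.mul_assoc (ca _ _ _), h3 (s z), (w _).two, Matrix.mul_add, (hA _ he z hz s hs k).1,
      add_zero, Matrix.mul_zero, Matrix.zero_mul]
  · refine (f1 e he z hz s hs).trans ?_
    ext i j
    simp only [xiL, gr, of_apply, Function.comp_apply]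
    rw [dx e he z hz s hs, dx e he z hz s hs, e2, ip_pull hP, mulVec_mulVec, mulVec_mulVec, h3 (s z),
      (w _).vec (hQ.cr e he z hz s hs i), (w _).vec (hQ.cr e he z hz s hs j)]

end Pool.Agent.Lib.MP_813db1_ag.VH
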