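import Pool.Agent.Lib.MP_813db1_ag.VH.St7
import Pool.Agent.Lib.MP_813db1_ag.VH.Prim
import Pool.Agent.Lib.MP_813db1_ag.VH.Frm
import Pool.Agent.Lib.MP_813db1_ag.VH.Res
import Pool.Agent.Lib.MP_813db1_ag.HS.Mat

/-! The unitary summand of a parallel projector that is killed by the Higgs field. -/

namespace Pool.Agent.Lib.MP_813db1_ag.VH

open Pool.Agent.Lib.MP_813db1_ag.HS Pool.Agent.Lib.MP_813db1_ag.AS
open Complex Matrix Filter Topology Set
open scoped ContDiff ComplexOrder

namespace Sub2a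

section alg

variable {r : Type} [Fintype r] [DecidableEq r]

/-- an orthonormal basis of the range of a self-adjoint projector. -/
theorem basis {H F : Mat r} {m : ℕ} (hH : H.PosDef) (sa : H * F = Fᴴ * H) (sq : F * F = F)
    (tr : trace F = m) : ∃ P : Matrix r (Fin m) ℂ, Pᴴ * H * P = 1 ∧ P * (Pᴴ * H) = F := by
  classical
  have hB : (H * F).PosSemidef := by
    have : H * F = Fᴴ * H * F := by rw [← sa, Matrix.mul_assoc, sq]
    rw [this]
    exact hH.posSemidef.conjTranspose_mul_mul_same F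
  obtain ⟨T, d, hT, -, e1, e2⟩ := Mat.sim hH hB
  have hT' : IsUnit Tᴴ.det := by rw [det_conjTranspose]; exact hT.star
  have e3 : T * F = diagonal (fun i => (d i : ℂ)) * T := by
    rw [e1, Matrix.mul_assoc, Matrix.mul_assoc] at e2
    have := congrArg (Tᴴ⁻¹ * ·) e2
    simpa only [nonsing_inv_mul_cancel_left _ _ hT'] using this
  have e4 : F = T⁻¹ * diagonal (fun i => (d i : ℂ)) * T := by
    rw [Matrix.mul_assoc, ← e3, nonsing_inv_mul_cancel_left _ _ hT]
  have e5 : ∀ i, (d i : ℂ) * d i = d i := fun i => by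
    have : diagonal (fun i => (d i : ℂ)) * diagonal (fun i => (d i : ℂ)) * T =
        diagonal (fun i => (d i : ℂ)) * T := by
      rw [Matrix.mul_assoc, ← e3, ← Matrix.mul_assoc, ← e3, Matrix.mul_assoc, sq]
    have := congrArg (· * T⁻¹) this
    simp only [mul_nonsing_inv_cancel_right _ _ hT, diagonal_mul_diagonal] at this
    simpa using congrFun₂ this i i
  have e6 : ∀ i, (d i : ℂ) = if (d i : ℂ) = 1 then 1 else 0 := fun i => by
    split_ifs with h
    · exact h
    · have : (d i : ℂ) * (d i - 1) = 0 := by linear_combination e5 i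
      exact (mul_eq_zero.1 this).resolve_right (sub_ne_zero.2 h)
  have e7 : Fintype.card {i // (d i : ℂ) = 1} = m := by
    rw [e4, trace_mul_cycle, mul_nonsing_inv _ hT, Matrix.one_mul, trace_diagonal,
      Finset.sum_congr rfl fun i _ => e6 i, Finset.sum_boole] at tr
    rw [Fintype.card_subtype]
    exact_mod_cast tr
  let e := (Fintype.equivFinOfCardEq e7).symm
  let E : Matrix r (Fin m) ℂ := (1 : Mat r).submatrix id fun j => (e j).1
  have a1 : Eᴴ * E = 1 := by
    ext i j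
    simp [E, mul_apply, one_apply, Subtype.ext_iff.symm, eq_comm]
  have a2 : E * Eᴴ = diagonal fun i => (d i : ℂ) := by
    ext i j
    have : (E * Eᴴ) i j = ∑ k : {i // (d i : ℂ) = 1},
        (if i = k.1 then (1 : ℂ) else 0) * if j = k.1 then (1 : ℂ) else 0 := by
      rw [← e.sum_comp, mul_apply]
      exact Finset.sum_congr rfl fun k _ => by
        simp only [E, conjTranspose_apply, submatrix_apply, one_apply, id, apply_ite star,
          star_one, star_zero]
    rw [this]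
    by_cases h : (d i : ℂ) = 1
    · rw [Finset.sum_eq_single ⟨i, h⟩ (fun k _ n => by
        rw [if_neg fun q => n (Subtype.ext q.symm), zero_mul]) (by simp), diagonal_apply]
      simp [h, eq_comm]
    · rw [Finset.sum_eq_zero fun k _ => by
        rw [if_neg fun q : i = k.1 => h (q ▸ k.2), zero_mul],
        diagonal_apply, e6 i, if_neg h, ite_self]
  have a3 : (T⁻¹ * E)ᴴ * H = Eᴴ * T := by
    rw [e1, conjTranspose_mul, conjTranspose_nonsing_inv, Matrix.mul_assoc,
      nonsing_inv_mul_cancel_left _ _ hT']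
  refine ⟨T⁻¹ * E, ?_, ?_⟩
  · rw [a3, Matrix.mul_assoc, mul_nonsing_inv_cancel_left _ _ hT, a1]
  · rw [a3, e4, ← a2]
    simp only [Matrix.mul_assoc]

variable {n m : Type} [Fintype n] [DecidableEq n] [Fintype m] [DecidableEq m]

/-- `T` is the complex linear part of the map to real and imaginary parts. -/
structure Tm (T : Matrix n m ℂ) : Prop where
  a : Tᴴ * T = (1 / 2 : ℂ) • 1
  b : Tᵀ * T = 0
  c : (2 : ℂ) • (T * Tᴴ + T.map star * Tᵀ) = 1

theorem exT (m : ℕ) : ∃ T : Matrix (Fin (2 * m)) (Fin m) ℂ, Tm T := by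
  let e : Fin (2 * m) ≃ Fin m ⊕ Fin m := (finCongr (two_mul m)).trans finSumFinEquiv.symm
  let S : Matrix (Fin m ⊕ Fin m) (Fin m) ℂ := fromRows ((1 / 2 : ℂ) • 1) ((-I / 2 : ℂ) • 1)
  have h : Sᴴ = fromCols ((1 / 2 : ℂ) • 1) ((I / 2 : ℂ) • 1) := by
    simp [S, conjTranspose_fromRows_eq_fromCols_conjTranspose]
  have t : Sᵀ = fromCols ((1 / 2 : ℂ) • 1) ((-I / 2 : ℂ) • 1) := by
    simp [S, transpose_fromRows]
  have s : S.map star = fromRows ((1 / 2 : ℂ) • 1) ((I / 2 : ℂ) • 1) := by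
    rw [← transpose_transpose (S.map star), ← transpose_map, ← conjTranspose, h]
    simp [transpose_fromCols]
  refine ⟨S.submatrix e id, ?_, ?_, ?_⟩
  · rw [conjTranspose_submatrix, submatrix_mul_equiv, submatrix_id_id, h, fromCols_mul_fromRows]
    simp only [Matrix.smul_mul, Matrix.mul_smul, Matrix.one_mul, smul_smul, ← add_smul]
    congr 1
    linear_combination (-1 / 4 : ℂ) * I_mul_I
  · rw [transpose_submatrix, submatrix_mul_equiv, submatrix_id_id, t, fromCols_mul_fromRows]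
    simp only [Matrix.smul_mul, Matrix.mul_smul, Matrix.one_mul, smul_smul, ← add_smul]
    rw [show (1 / 2 * (1 / 2) + -I / 2 * (-I / 2) : ℂ) = 0 by
      linear_combination (1 / 4 : ℂ) * I_mul_I, zero_smul]
  · have k : (2 : ℂ) • (S * Sᴴ + S.map star * Sᵀ) = 1 := by
      rw [h, t, s, fromRows_mul_fromCols, fromRows_mul_fromCols, fromBlocks_add, fromBlocks_smul,
        ← fromBlocks_one]
      simp only [Matrix.smul_mul, Matrix.mul_smul, Matrix.one_mul, smul_smul, ← add_smul]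
      congr 1
      · rw [show (2 * (1 / 2 * (1 / 2) + 1 / 2 * (1 / 2)) : ℂ) = 1 by ring, one_smul]
      · rw [show (2 * (I / 2 * (1 / 2) + -I / 2 * (1 / 2)) : ℂ) = 0 by ring, zero_smul]
      · rw [show (2 * (1 / 2 * (-I / 2) + 1 / 2 * (I / 2)) : ℂ) = 0 by ring, zero_smul]
      · rw [show (2 * (I / 2 * (-I / 2) + -I / 2 * (I / 2)) : ℂ) = 1 by
          linear_combination (-1 : ℂ) * I_mul_I, one_smul]
    have := congrArg (fun A => A.submatrix e e) k
    simp only [submatrix_one_equiv] at this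
    rw [← this]
    rfl

/-- the real form of a complex matrix. -/
noncomputable def rl (T : Matrix n m ℂ) (U : Mat m) : Mat n :=
  (2 : ℂ) • (T * U * Tᴴ + T.map star * U.map star * Tᵀ)

theorem ss {l k : Type} (A : Matrix l k ℂ) : (A.map star).map star = A := by
  ext i j
  simp

theorem sh' {l k : Type} (A : Matrix l k ℂ) : Aᴴ.map star = Aᵀ := by
  ext i j
  simp

theorem st' {l k : Type} (A : Matrix l k ℂ) : Aᵀ.map star = Aᴴ := rfl

variable {T : Matrix n m ℂ}

omit [Fintype n] [DecidableEq n] [DecidableEq m] in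
theorem rl_star (U : Mat m) : (rl T U).map star = rl T U := by
  have e : ∀ A B : Mat n, ((2 : ℂ) • (A + B)).map star = (2 : ℂ) • (A.map star + B.map star) :=
    fun A B => by
      ext i j
      simp [map_ofNat, mul_add]
  rw [rl, e]
  simp only [Res.map_mul', ss, sh', st']
  rw [add_comm]

omit [Fintype n] [DecidableEq n] [DecidableEq m] in
theorem rl_tr (U : Mat m) : (rl T U)ᵀ = rl T Uᴴ := by
  rw [rl, rl, transpose_smul, transpose_add, add_comm]
  simp only [transpose_mul, transpose_transpose, sh', Matrix.mul_assoc]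
  rfl

omit [Fintype n] [DecidableEq n] [DecidableEq m] in
theorem rl_neg (U : Mat m) : rl T (-U) = -rl T U := by
  have e : (-U).map star = -U.map star := by
    ext i j
    simp
  rw [rl, rl, e]
  simp only [Matrix.mul_neg, Matrix.neg_mul, ← neg_add, smul_neg]

namespace Tm

variable (h : Tm T)
include h

theorem a' : Tᵀ * T.map star = (1 / 2 : ℂ) • 1 := by
  have := congrArg (·.map star) h.a
  simp only [Res.map_mul', sh'] at this
  rw [this]
  ext i j
  by_cases q : i = j <;> simp [one_apply, q, map_ofNat]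

theorem b' : Tᴴ * T.map star = 0 := by
  have := congrArg (·.map star) h.b
  simp only [Res.map_mul', st'] at this
  rw [this]
  ext i j
  simp

theorem mulT (U : Mat m) : rl T U * T = T * U := by
  rw [rl, Matrix.smul_mul, Matrix.add_mul, Matrix.mul_assoc _ Tᴴ, Matrix.mul_assoc _ Tᵀ, h.a, h.b,
    Matrix.mul_zero, add_zero, Matrix.mul_smul, Matrix.mul_one, smul_smul]
  simp

theorem mulS (U : Mat m) : rl T U * T.map star = T.map star * U.map star := by
  have := congrArg (·.map star) (h.mulT U)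
  simpa only [Res.map_mul', rl_star] using this

theorem mul (U W : Mat m) : rl T U * rl T W = rl T (U * W) := by
  conv_lhs => rw [rl.eq_1 T W]
  rw [Matrix.mul_smul, Matrix.mul_add, ← Matrix.mul_assoc, ← Matrix.mul_assoc, h.mulT,
    ← Matrix.mul_assoc, ← Matrix.mul_assoc, h.mulS, rl, Res.map_mul']
  simp only [Matrix.mul_assoc]

theorem one : rl T 1 = 1 := by
  rw [rl, Matrix.map_one _ (star_zero _) (star_one _), Matrix.mul_one, Matrix.mul_one, h.c]

theorem ip (u v : V m) : ipV ((2 : ℂ) • (1 : Mat n)) (T *ᵥ u) (T *ᵥ v) = u ⬝ᵥ star v := by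
  rw [ipV_eq, Dt.star_mulVec', smul_mulVec, one_mulVec, dotProduct_smul, dotProduct_mulVec,
    ← vecMul_transpose, vecMul_vecMul, h.a', vecMul_smul, vecMul_one, smul_dotProduct, smul_smul]
  simp

end Tm

theorem inv2 : ((2 : ℂ) • (1 : Mat n))⁻¹ = (1 / 2 : ℂ) • 1 :=
  inv_eq_right_inv (by simp [smul_smul])

theorem adj {H F A B : Mat r} (hH : H.det ≠ 0) (sa : H * F = Fᴴ * H) (hB : Bᵀ * H = H * B)
    (e : A.map star = B) (h : A * F = 0) : F * B = 0 := by
  have h1 : Aᴴ = Bᵀ := by rw [← e]; rfl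
  have h2 : H * (F * B) = 0 := by
    rw [← Matrix.mul_assoc, sa, Matrix.mul_assoc, ← hB, ← Matrix.mul_assoc, ← h1,
      ← conjTranspose_mul, h, conjTranspose_zero, Matrix.zero_mul]
  rw [← nonsing_inv_mul_cancel_left H (F * B) hH.isUnit, h2, Matrix.mul_zero]

end alg

variable {ι X Y : Type} [Fintype ι] [DecidableEq ι] [TopologicalSpace X] [TopologicalSpace Y]
  {M : Atl ι X} {p : Y → X}

/-- matrices with vanishing derivatives are constant. -/
theorem cstR [PreconnectedSpace Y] (hp : IsLocalHomeomorph p) {σ τ : Type} {F : Y → Matrix σ τ ℂ}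
    (h : Loc M p fun _ z s => DfR (F ∘ s) z ∧ ∀ k, dR (F ∘ s) k z = 0 ∧ dRb (F ∘ s) k z = 0)
    (y y' : Y) : F y = F y' := by
  ext i j
  refine PrimA.cstC (M := M) hp (f := fun y => F y i j) (fun e he s z hs => ?_) y y'
  obtain ⟨a, b⟩ := h e he z hs.mem s ⟨hs.cont, hs.ev⟩
  refine (a i j).hasFDerivAt.congr_fderiv ?_
  ext1 v
  rw [fderiv_eq_dz]
  refine Finset.sum_eq_zero fun k _ => ?_
  rw [show dz _ k z = 0 from congrFun₂ (b k).1 i j, show dzb _ k z = 0 from congrFun₂ (b k).2 i j]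
  simp

theorem ca0 {r : Type} [Fintype r] [DecidableEq r] (A : Mat r) (k : ι) (z : V ι) :
    ca (fun _ => A) k z = 0 := by rw [ca, dR_const, Matrix.mul_zero]

theorem cb0 {r : Type} [Fintype r] [DecidableEq r] (A : Mat r) (k : ι) (z : V ι) :
    cb (fun _ => A) k z = 0 := by rw [cb, dRb_const, Matrix.mul_zero]

end Sub2a

variable {ι X Y G : Type} [Fintype ι] [DecidableEq ι] [TopologicalSpace X] [TopologicalSpace Y]
  [SimplyConnectedSpace Y] [Group G] [MulAction G Y] {M : Atl ι X} {p : Y → X}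

open Sub2a in
theorem sub2 (hq : IsQuotientCoveringMap p G) : Sub2 M p G := by
  intro r _ _ D a ζ F m ha hF hl
  have hp := lh hq
  obtain ⟨y₀⟩ : Nonempty Y := inferInstance
  have l1 : Loc M p fun _ z s => ∀ k, F (s z) * ca (D.H ∘ s) k z = 0 ∧
      F (s z) * cb (D.H ∘ s) k z = 0 := fun e he z hz s hs k =>
    ⟨adj (D.det_ne _) (hF.sa _) (Dt.ca_sym k) (Dt.cb_conj k) (hl e he z hz s hs k).2.1,
      adj (D.det_ne _) (hF.sa _) (Dt.cb_sym k) (Dt.ca_conj k) (hl e he z hz s hs k).1⟩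
  have l2 : Loc M p fun _ z s => ∀ k, dR (F ∘ s) k z = 0 ∧ dRb (F ∘ s) k z = 0 :=
    fun e he z hz s hs k => by
      have a1 := hF.par e he z hz s hs k
      have a2 := hF.parb e he z hz s hs k
      rw [nF, Function.comp_apply] at a1
      rw [(hl e he z hz s hs k).1, (l1 e he z hz s hs k).1, sub_zero, smul_zero, add_zero] at a1
      rw [(hl e he z hz s hs k).2.1, (l1 e he z hz s hs k).2, sub_zero, smul_zero, add_zero] at a2
      exact ⟨a1, a2⟩
  have c1 : ∀ y, F y = F y₀ := fun y => cstR (M := M) hp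
    (fun e he z hz s hs => ⟨(hF.sm e he z hz s hs).df, l2 e he z hz s hs⟩) y y₀
  have c2 : ∀ y, D.H y * F y₀ = D.H y₀ * F y₀ := fun y =>
    cstR (M := M) hp (F := fun y => D.H y * F y₀) (fun e he z hz s hs => by
      have d := (D.sm e he z hz s hs).df
      refine ⟨d.mul (DfR.const _), fun k => ⟨(dR_mulc d _ k).trans ?_, (dRb_mulc d _ k).trans ?_⟩⟩
      · rw [← mul_ca (H := D.H ∘ s) (D.det_ne _), Matrix.mul_assoc, ← c1 (s z),
          (hl e he z hz s hs k).1, Matrix.mul_zero]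
      · rw [← mul_cb (H := D.H ∘ s) (D.det_ne _), Matrix.mul_assoc, ← c1 (s z),
          (hl e he z hz s hs k).2.1, Matrix.mul_zero]) y y₀
  obtain ⟨P, p1, p2⟩ := basis (D.pos y₀) (hF.sa y₀) (hF.sq y₀) (hF.tr y₀)
  obtain ⟨P', hP'⟩ : ∃ P', P' = Pᴴ * D.H y₀ := ⟨_, rfl⟩
  rw [← hP'] at p1 p2
  have p3 : F y₀ * P = P := by rw [← p2, Res.piP p1]
  have p4 : P' * F y₀ = P' := by rw [← p2, ← Matrix.mul_assoc, p1, Matrix.one_mul]
  have p5 : ∀ y, Pᴴ * D.H y = P' := fun y => by
    have e : ∀ y, Pᴴ * D.H y = Pᴴ * (D.H y * F y₀) := fun y => by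
      rw [← c1 y, hF.sa, c1 y, ← Matrix.mul_assoc, ← conjTranspose_mul, p3]
    rw [hP', e y, e y₀, c2]
  have r1 : ∀ g, D.ρ g * (P * P') = P * P' * D.ρ g := fun g => by
    have := hF.eqv g y₀
    rw [c1] at this
    rw [p2]
    conv_rhs => rw [this, Matrix.mul_assoc, D.inv_mul, Matrix.mul_one]
  have u1 : ∀ g, (P' * D.ρ g * P)ᴴ * (P' * D.ρ g * P) = 1 := fun g => by
    have e1 : P'ᴴ * P' = D.H (g • y₀) * (P * P') := by
      conv_lhs => rw [← p5 (g • y₀), conjTranspose_mul, conjTranspose_conjTranspose,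
        (D.pos _).1.eq, p5]
      rw [Matrix.mul_assoc]
    have e2 : (D.ρ g)ᴴ = (D.ρ g)ᵀ := by rw [conjTranspose, transpose_map, D.reR g]
    calc _ = Pᴴ * ((D.ρ g)ᴴ * (P'ᴴ * P') * D.ρ g) * P := by
          simp only [conjTranspose_mul, Matrix.mul_assoc]
      _ = Pᴴ * ((D.ρ g⁻¹ * D.ρ g)ᵀ * D.H y₀ * (D.ρ g⁻¹ * (P * P' * D.ρ g))) * P := by
          rw [e1, e2, D.eqv, transpose_mul]
          simp only [Matrix.mul_assoc]
      _ = 1 := by
          rw [← r1, ← Matrix.mul_assoc (D.ρ g⁻¹), D.inv_mul, transpose_one, Matrix.one_mul,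
            Matrix.one_mul, ← Matrix.mul_assoc, p5, p2, p4, p1]
  obtain ⟨T, hT⟩ := exT m
  let E : Dt M p G (Fin (2 * m)) :=
    { ρ := { toFun := fun g => rl T (P' * D.ρ g * P)
             map_one' := by rw [map_one, Matrix.mul_one, p1, hT.one]
             map_mul' := fun g g' => by rw [map_mul, hT.mul, Res.mul2 p1 (r1 g)] }
      H := fun _ => (2 : ℂ) • 1
      reR := fun g => rl_star _
      reH := fun _ => by
        ext i j
        by_cases q : i = j <;> simp [one_apply, q, map_ofNat]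
      pos := fun _ => PosDef.one.smul (by norm_num)
      eqv := fun g y => by
        show _ = (rl T (P' * D.ρ g⁻¹ * P))ᵀ * ((2 : ℂ) • 1) * rl T (P' * D.ρ g⁻¹ * P)
        rw [Matrix.mul_smul, Matrix.mul_one, Matrix.smul_mul, rl_tr, hT.mul, u1, hT.one]
      sm := fun e he z hz s hs => SmR.const _ }
  have sm : Loc M p fun e z s => ∀ k, SmV (fun w => (T * P') *ᵥ a e (s w) k) z :=
    fun e he z hz s hs k => (SmR.const _).mulVec (ha.sm e he z hz s hs k)
  have hol : Loc M p fun e z s => ∀ i k, dVb (fun w => (T * P') *ᵥ a e (s w) i) k z = 0 :=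
    fun e he z hz s hs i k => by
      have := ((hl e he z hz s hs k).2.2 i).1
      rw [n2, add_eq_zero_iff_eq_neg] at this
      rw [dVb_cmulVec _ (ha.sm e he z hz s hs i).df, this, mulVec_neg, mulVec_smul, mulVec_mulVec,
        ← p4, ← c1 (s z), Matrix.mul_assoc, Matrix.mul_assoc, (l1 e he z hz s hs k).2,
        Matrix.mul_zero, Matrix.mul_zero, zero_mulVec, smul_zero, neg_zero]
  have cls : Loc M p fun e z s => ∀ i k, dV (fun w => (T * P') *ᵥ a e (s w) i) k z =
      dV (fun w => (T * P') *ᵥ a e (s w) k) i z := fun e he z hz s hs i k => by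
    rw [dV_cmulVec _ (ha.sm e he z hz s hs i).df, dV_cmulVec _ (ha.sm e he z hz s hs k).df,
      ((hl e he z hz s hs k).2.2 i).2]
  have tr : ∀ e ∈ M.A, ∀ e' ∈ M.A, ∀ y, p y ∈ e.source → p y ∈ e'.source → ∀ k,
      (T * P') *ᵥ a e y k = ∑ l, tj e e' (p y) l k • (T * P') *ᵥ a e' y l :=
    fun e he e' he' y c d k => by
      have k1 := F12.sh_self hp c
      have k2 := F12.sh_self hp d
      have := ha.tr _ _ _ _ _ _
        ⟨he, e.map_source c, k1.1, he', e'.map_source d, k2.1, k1.2.trans k2.2.symm⟩ k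
      rw [k1.2, k2.2, e.left_inv c] at this
      rw [this, mulVec_sum]
      simp only [mulVec_smul]
  have eq : Eq1 p E.ρ fun e y k => (T * P') *ᵥ a e y k := fun e g y c k => by
    show (T * P') *ᵥ a e (g • y) k = rl T (P' * D.ρ g * P) *ᵥ (T * P') *ᵥ a e y k
    rw [ha.eqv e g y c k, mulVec_mulVec, mulVec_mulVec, ← Matrix.mul_assoc, hT.mulT,
      Matrix.mul_assoc T (P' * D.ρ g * P), Res.left p1 (r1 g), Matrix.mul_assoc]
  obtain ⟨x, x1, x2, x3, x4⟩ := primS (M := M) hq (Fin (2 * m))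
    (fun e y k => (T * P') *ᵥ a e y k) (fun e y k => star ((T * P') *ᵥ a e y k))
    ⟨sm, fun e he z hz s hs k => (sm e he z hz s hs k).star, tr, fun e he e' he' y c d k => by
      rw [tr e he e' he' y c d k, star_sum]
      simp only [star_smul]⟩
    fun e he z hz s hs i k => ⟨cls e he z hz s hs i k, by
      rw [dVb_star, dVb_star, cls e he z hz s hs i k], by
      rw [dV_star, hol e he z hz s hs, hol e he z hz s hs, star_zero]⟩
  obtain ⟨c, -, hc⟩ := x4 E.ρ eq fun e g y c k => by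
    exact (congrArg star (eq e g y c k)).trans (by rw [Dt.star_mulVec', E.reR g])
  have af : E.Aff c x := ⟨x1, hc⟩
  have rx := x3 fun _ _ _ => rfl
  have px' : E.PX x := fun e he z hz s hs => by
    have a0 := fun k => ca0 ((2 : ℂ) • (1 : Mat (Fin (2 * m)))) k z
    have b0 := fun k => cb0 ((2 : ℂ) • (1 : Mat (Fin (2 * m)))) k z
    refine ⟨fun i j => ?_, fun i k => ?_, fun i k => ?_⟩
    · show px (fun _ => (2 : ℂ) • 1) (x ∘ s) i j z = 0
      rw [px, a0, b0, zero_mulVec, zero_mulVec, add_zero, add_zero,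
        dV_congr ((Loc.ev x2 hp he hz hs).mono fun w hw => (hw j).2), dV_star,
        hol e he z hz s hs, star_zero, smul_zero]
    · show ca (fun _ => (2 : ℂ) • 1) i z *ᵥ _ = ca (fun _ => (2 : ℂ) • 1) k z *ᵥ _
      rw [a0, a0, zero_mulVec, zero_mulVec]
    · show cb (fun _ => (2 : ℂ) • 1) i z *ᵥ _ = cb (fun _ => (2 : ℂ) • 1) k z *ᵥ _
      rw [b0, b0, zero_mulVec, zero_mulVec]
  obtain ⟨ξ, ξ1, -, ξ2, ξ3⟩ := (frmS hq _ E).2 c x af
  have j : ∀ y, E.J ((2 : ℂ) • rl T (I • 1)) y = rl T (I • 1) := fun y => by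
    show ((2 : ℂ) • (1 : Mat (Fin (2 * m))))⁻¹ * _ = _
    rw [inv2, Matrix.smul_mul, Matrix.one_mul, smul_smul]
    simp
  refine ⟨E, (2 : ℂ) • rl T (I • 1), c, x, ξ,
    ⟨af, ⟨?_, ?_, fun y => ?_, fun g => ?_, rx, fun e he z hz s hs k => ?_⟩,
      fun e he z hz s hs => ⟨fun i j => ?_, fun i k => ?_⟩, px', fun e he z hz s hs k => ?_, ξ1,
      ξ3 rx px', ξ2⟩, fun e he z hz s hs => ?_⟩
  · conv_rhs => rw [← rl_star]
    ext i j
    simp [map_ofNat]
  · rw [transpose_smul, rl_tr, ← smul_neg, ← rl_neg]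
    simp
  · rw [j, hT.mul, ← hT.one, ← rl_neg]
    simp [smul_smul]
  · show (rl T (P' * D.ρ g * P))ᵀ * _ * rl T (P' * D.ρ g * P) = _
    rw [Matrix.mul_smul, Matrix.smul_mul, rl_tr, hT.mul, hT.mul, Matrix.mul_smul, Matrix.mul_one,
      Matrix.smul_mul, u1]
  · rw [j, (x2 e he z hz s hs k).1, mulVec_mulVec, ← Matrix.mul_assoc, hT.mulT, Matrix.mul_smul,
      Matrix.mul_one, Matrix.smul_mul, smul_mulVec]
  · show ph (fun _ => (2 : ℂ) • 1) i j z = 0
    rw [ph, ca0, cb0, show dRb (fun _ : V ι => (2 : ℂ) • (1 : Mat (Fin (2 * m)))) j = fun _ => 0 from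
      funext fun w => dRb_const _ j w, dR_const]
    simp
  · show ca (fun _ => (2 : ℂ) • 1) i z * _ = ca (fun _ => (2 : ℂ) • 1) k z * _
    rw [ca0, ca0, Matrix.zero_mul, Matrix.zero_mul]
  · show ca (fun _ => (2 : ℂ) • 1) k z * _ = 0
    rw [ca0, Matrix.zero_mul]
  · refine (ξ1 e he z hz s hs).trans ?_
    ext i j
    show ipV ((2 : ℂ) • 1) (dV (x ∘ s) i z) (dV (x ∘ s) j z) =
      ipV (D.H (s z)) (F (s z) *ᵥ a e (s z) i) (F (s z) *ᵥ a e (s z) j)
    have q : Pᵀ * D.H (s z) * P.map star = 1 := by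
      have := congrArg (·.map star) ((congrArg (· * P) (p5 (s z))).trans p1)
      simp only [Res.map_mul', sh', D.reH] at this
      rw [this, Matrix.map_one _ (star_zero _) (star_one _)]
    rw [(x2 e he z hz s hs i).1, (x2 e he z hz s hs j).1]
    beta_reduce
    rw [← mulVec_mulVec, ← mulVec_mulVec, hT.ip,
      c1, ← p2, ← mulVec_mulVec, ← mulVec_mulVec, ipV_eq, Dt.star_mulVec' P,
      mulVec_mulVec _ (D.H (s z)),
      dotProduct_mulVec (P *ᵥ _), ← vecMul_transpose P, vecMul_vecMul, ← Matrix.mul_assoc, q,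
      vecMul_one]

end Pool.Agent.Lib.MP_813db1_ag.VH
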