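import Pool.Agent.Lib.MP_813db1_ag.VH.St7
import Pool.Agent.Lib.MP_813db1_ag.VH.Sum
import Pool.Agent.Lib.MP_813db1_ag.VH.Res

/-! Direct sums and changes of the basis for polarised data. -/

namespace Pool.Agent.Lib.MP_813db1_ag.VH

open Pool.Agent.Lib.MP_813db1_ag.HS Pool.Agent.Lib.MP_813db1_ag.AS
open Complex Matrix Filter Topology Set
open scoped ContDiff ComplexOrder

variable {ι X Y G r r' : Type} [Fintype ι] [DecidableEq ι] [TopologicalSpace X] [TopologicalSpace Y]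
  [Group G] [MulAction G Y] {M : Atl ι X} {p : Y → X} [Fintype r] [DecidableEq r] [Fintype r']
  [DecidableEq r'] {D : Dt M p G r} {Q : Mat r} {c : G → V r} {x : Y → V r} {ξ : X → Mat ι}

omit [DecidableEq r] [Fintype r'] [DecidableEq r'] in
theorem SumP.star_mv {P : Matrix r' r ℂ} (hP : P.map star = P) (v : V r) :
    star (P *ᵥ v) = P *ᵥ star v := by
  ext i
  simp only [mulVec, dotProduct, Pi.star_apply, star_sum, star_mul']
  exact Finset.sum_congr rfl fun j _ => by rw [show star (P i j) = P i j from congrFun₂ hP i j]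

open Res in
/-- changes of the basis. -/
theorem Dt.Vh.iso (h : D.Vh Q c x ξ) {P : Matrix r r' ℂ} {P' : Matrix r' r ℂ}
    (hP : P.map star = P) (hP' : P'.map star = P') (h1 : P' * P = 1) (h2 : P * P' = 1) :
    ∃ E : Dt M p G r', E.Vh (Pᵀ * Q * P) (fun g => P' *ᵥ c g) (fun y => P' *ᵥ x y) ξ := by
  obtain ⟨E, e1, e2, e3, -, e4, e5⟩ := resS r r' D P P' hP hP' h1 (fun g => by simp [h2])
    fun y => by simp [h2]
  have hJ : ∀ y, E.J (Pᵀ * Q * P) y = P' * D.J Q y * P := fun y => by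
    rw [Dt.J, e2, Res.inv_mul h1 hP (D.pos y) (by simp [h2]), Dt.J]
  have cm : ∀ A : Mat r, A * (P * P') = P * P' * A := fun A => by simp [h2]
  have d : Loc M p fun _ z s => ∀ k, dV ((fun y => P' *ᵥ x y) ∘ s) k z = P' *ᵥ dV (x ∘ s) k z :=
    fun e he z hz s hs k => dV_mul (dfV (h.aff.1 e he z hz s hs)) P' k
  refine ⟨E, (e5 c x h.aff).1, ⟨?_, ?_, fun y => ?_, fun g => ?_, fun y => ?_,
    fun e he z hz s hs k => ?_⟩, e3 h.ph, (e5 c x h.aff).2 h.px, fun e he z hz s hs k => ?_,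
    fun e he z hz s hs => (h.xi e he z hz s hs).trans ?_, h.cl, h.psd⟩
  · rw [map_mul', map_mul', h.pol.re, transpose_map, hP]
  · simp only [transpose_mul, transpose_transpose, h.pol.alt, Matrix.mul_neg, Matrix.neg_mul,
      Matrix.mul_assoc]
  · rw [hJ, mul2 h1 (cm _), h.pol.sq, Matrix.mul_neg, Matrix.mul_one, Matrix.neg_mul, h1]
  · calc _ = Pᵀ * ((D.ρ g)ᵀ * ((P * P')ᵀ * Q * (P * P')) * D.ρ g) * P := by
          simp only [e1, transpose_mul, Matrix.mul_assoc]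
      _ = _ := by rw [h2, transpose_one, Matrix.one_mul, Matrix.mul_one, h.pol.inv]
  · rw [SumP.star_mv hP', h.pol.rx]
  · rw [hJ, d e he z hz s hs, vec2 h1 (cm _), h.pol.cr e he z hz s hs, mulVec_smul]
  · have := congrArg (P' * · * P) (h.hol e he z hz s hs k)
    simp only [Matrix.mul_sub, Matrix.sub_mul, Matrix.mul_smul, Matrix.smul_mul, Matrix.mul_one,
      Matrix.mul_zero, Matrix.zero_mul] at this
    rw [hJ, (e4 e he z hz s hs k).1, Matrix.mul_sub, Matrix.mul_smul, mul2 h1 (cm _),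
      Matrix.mul_one, this]
  · ext i j
    simp only [xiL, of_apply, d e he z hz s hs, Function.comp_apply, e2, ipV_eq,
      SumP.star_mv hP']
    rw [mulVec_mulVec, Matrix.mul_assoc, h2, Matrix.mul_one, ← mulVec_mulVec, dotProduct_mulVec _ Pᵀ,
      vecMul_transpose, mulVec_mulVec, h2, one_mulVec]

/-- changes of the index set. -/
theorem Dt.Vh.equiv (h : D.Vh Q c x ξ) (f : r ≃ r') :
    ∃ (E : Dt M p G r') (Q' : Mat r') (c' : G → V r') (x' : Y → V r'), E.Vh Q' c' x' ξ := by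
  obtain ⟨E, hE⟩ := h.iso (P := (1 : Mat r).submatrix (Equiv.refl r) f.symm)
    (P' := (1 : Mat r).submatrix f.symm (Equiv.refl r))
    (by ext i j; simp [one_apply, apply_ite]) (by ext i j; simp [one_apply, apply_ite])
    (by rw [submatrix_mul_equiv]; simp) (by rw [submatrix_mul_equiv]; simp)
  exact ⟨E, _, _, _, hE⟩

open SumA in
/-- direct sums. -/
theorem Dt.Vh.sum (h : D.Vh Q c x ξ) {D' : Dt M p G r'} {Q' : Mat r'} {c' : G → V r'}
    {x' : Y → V r'} {ξ' : X → Mat ι} (h' : D'.Vh Q' c' x' ξ') : ∃ E : Dt M p G (r ⊕ r'),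
    E.Vh (fromBlocks Q 0 0 Q') (fun g => Sum.elim (c g) (c' g)) (fun y => Sum.elim (x y) (x' y))
      fun y => ξ y + ξ' y := by
  obtain ⟨E, e1, e2, e3, -, -, e4⟩ := sumS r r' D D'
  obtain ⟨e4, e5⟩ := e4 x x' h.aff.1 h'.aff.1
  have hJ : ∀ y, E.J (fromBlocks Q 0 0 Q') y = fromBlocks (D.J Q y) 0 0 (D'.J Q' y) := fun y => by
    have := SumA.inv (ι := Unit) (a := fun _ => D.H y) (d := fun _ => D'.H y) (z := 0) (D.pos y)
      (D'.pos y)
    rw [Dt.J, e2, Dt.J, Dt.J, ← SumA.mul, ← this, bd]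
  have hH : ∀ s : V ι → Y, E.H ∘ s = bd (D.H ∘ s) (D'.H ∘ s) := fun s => funext fun w => e2 _
  refine ⟨E, ⟨fun e he z hz s hs => contDiffAt_pi.2 ?_, fun g y => ?_⟩, ⟨?_, ?_, fun y => ?_,
    fun g => ?_, fun y => ?_, fun e he z hz s hs k => ?_⟩, e3 h.ph h'.ph, e4 h.px h'.px,
    fun e he z hz s hs k => ?_, e5 _ _ h.xi h'.xi, (AY.repA' ι X M).clF_add _ _ h.cl h'.cl,
    fun a => (h.psd a).add (h'.psd a)⟩
  · rintro (i | i)
    exacts [contDiffAt_pi.1 (h.aff.1 e he z hz s hs) i, contDiffAt_pi.1 (h'.aff.1 e he z hz s hs) i]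
  · simp only [e1, mv, h.aff.2, h'.aff.2]
    ext (i | i) <;> rfl
  · simpa [fromBlocks_map] using ⟨h.pol.re, h'.pol.re⟩
  · simp [fromBlocks_transpose, fromBlocks_neg, h.pol.alt, h'.pol.alt]
  · rw [hJ, mul, h.pol.sq, h'.pol.sq, ← fromBlocks_one, fromBlocks_neg, neg_zero, neg_zero]
  · simp [e1, fromBlocks_transpose, mul, h.pol.inv, h'.pol.inv]
  · ext (i | i)
    exacts [congrFun (h.pol.rx y) i, congrFun (h'.pol.rx y) i]
  · change _ *ᵥ dV (pr (x ∘ s) (x' ∘ s)) k z = I • dV (pr (x ∘ s) (x' ∘ s)) k z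
    rw [hJ, dV_pr, pr, mv, h.pol.cr e he z hz s hs, h'.pol.cr e he z hz s hs]
    ext (i | i) <;> rfl
  · have : (1 : Mat (r ⊕ r')) - I • fromBlocks (D.J Q (s z)) 0 0 (D'.J Q' (s z)) =
        fromBlocks (1 - I • D.J Q (s z)) 0 0 (1 - I • D'.J Q' (s z)) := by
      ext (i | i) (j | j) <;> simp [one_apply]
    rw [hH, hJ, ca_bd k (D.pos _) (D'.pos _), this, mul, h.hol e he z hz s hs,
      h'.hol e he z hz s hs, fromBlocks_zero]

theorem sumP : SumP M p G := fun a b _ _ _ _ _ _ _ _ _ _ h h' => by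
  obtain ⟨E, hE⟩ := h.sum h'
  exact hE.equiv (finSumFinEquiv.trans (finCongr (mul_add 2 a b).symm))

end Pool.Agent.Lib.MP_813db1_ag.VH
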