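import Pool.Agent.Lib.MP_813db1_ag.VH.Glue
import Pool.Agent.Lib.MP_813db1_ag.VH.CoAll
import Pool.Agent.Lib.MP_813db1_ag.VH.CoCor
import Pool.Agent.Lib.MP_813db1_ag.VH.HrAll
import Pool.Agent.Lib.MP_813db1_ag.VH.RAlgN
import Pool.Agent.Lib.MP_813db1_ag.VH.RAlgO
import Pool.Agent.Lib.MP_813db1_ag.VH.RAlgT
import Pool.Agent.Lib.MP_813db1_ag.VH.RBoG
import Pool.Agent.Lib.MP_813db1_ag.VH.RBoL
import Pool.Agent.Lib.MP_813db1_ag.VH.REta
import Pool.Agent.Lib.MP_813db1_ag.VH.RFam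
import Pool.Agent.Lib.MP_813db1_ag.VH.RFin
import Pool.Agent.Lib.MP_813db1_ag.VH.RHr1
import Pool.Agent.Lib.MP_813db1_ag.VH.RPow
import Pool.Agent.Lib.MP_813db1_ag.VH.RQ0
import Pool.Agent.Lib.MP_813db1_ag.VH.RSt1
import Pool.Agent.Lib.MP_813db1_ag.VH.RSt2
import Pool.Agent.Lib.MP_813db1_ag.VH.RStage
import Pool.Agent.Lib.MP_813db1_ag.VH.RSub1
import Pool.Agent.Lib.MP_813db1_ag.VH.RSub2
import Pool.Agent.Lib.MP_813db1_ag.VH.RSumP
import Pool.Agent.Lib.MP_813db1_ag.NS.All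

/-! The analytic inputs. -/

namespace Pool.Agent.Lib.MP_813db1_ag.VH

open Pool.Agent.Lib.MP_813db1_ag.HS

variable {ι X Y G : Type} [Fintype ι] [DecidableEq ι] [Nonempty ι] [TopologicalSpace X] [T2Space X]
  [CompactSpace X] [ConnectedSpace X] [MeasurableSpace X] [BorelSpace X] [TopologicalSpace Y]
  [SimplyConnectedSpace Y] [Group G] [MulAction G Y] {M : Atl ι X} {p : Y → X}

theorem rigA (hq : IsQuotientCoveringMap p G) : RigS M p G :=
  have b := boG hq boL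
  have hS := stageS hq algN (algO algN) (mmS hq)
  rigS hq (frmS hq)
    (st1 hq algN (algO algN) (algT algN) b (hr1 hq) (etaS hq) (mmS hq) (rkS hq) (sub1 hq) famV hS
      powV (q0S hq boL algN (algT algN) (etaS hq) (enS hq)))
    (st2 hq algN (algO algN) boL b (enS hq) (mmS hq) (rkS hq) (sub2 hq) famV hS powV (frmS hq))
    twoV sumP (rkS hq) (finS hq algN (algO algN) (algT algN) b (etaS hq) (mmS hq) (rkS hq))

theorem inp (hq : IsQuotientCoveringMap p G) : Inp M p G :=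
  ⟨Hr.formS2 hq (poiS hq), corS hq, Hr.siuS hq, hodS hq, poiS hq, Hr.pxS hq, rigA hq⟩

end Pool.Agent.Lib.MP_813db1_ag.VH
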