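import Pool.Agent.Lib.MP_813db1_ag.VH.Dbl

/-! Conjugate maps: primitives of `B (∂ f - ∂bar f)` on the covering space. -/

namespace Pool.Agent.Lib.MP_813db1_ag.VH

open Pool.Agent.Lib.MP_813db1_ag.HS Pool.Agent.Lib.MP_813db1_ag.AS
open Complex Matrix Filter Topology Set
open scoped ContDiff ComplexOrder

namespace Cj

open Dbl

section loc

variable {ι r r2 : Type} [Fintype ι] [DecidableEq ι] [Fintype r2] {u : V ι → V r2} {z : V ι}

theorem affb (hu : ContDiffAt ℝ ∞ u z) (R : Mat r2) (c : V r2) (k : ι) :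
    dVb (fun w => R *ᵥ u w + c) k z = R *ᵥ dVb u k z := by
  ext i
  have h2 := fun j => ((co hu j).differentiableAt (by simp)).const_mul (R i j)
  show dzb (fun w => ∑ j, R i j * u w j + c i) k z = ∑ j, R i j * dVb u k z j
  rw [dzb_add (DifferentiableAt.fun_sum fun j _ => h2 j) (differentiableAt_const _), dzb_const,
    add_zero, dzb_sum _ fun j _ => h2 j]
  exact Finset.sum_congr rfl fun j _ => dzb_cmul _ ((co hu j).differentiableAt (by simp)) k

theorem cmpb {τ : V ι → V ι} (hu : ContDiffAt ℝ ∞ u (τ z)) (h : DifferentiableAt ℂ τ z) (k : ι) :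
    dVb (u ∘ τ) k z = ∑ l, star (jac τ z l k) • dVb u l (τ z) := by
  ext i
  rw [Finset.sum_apply]
  exact dzb_comp ((co hu i).differentiableAt (by simp)) h k

omit [DecidableEq ι] in
theorem smw {F : V ι → Matrix r r2 ℂ} (hF : SmR F z) (hu : ContDiffAt ℝ ∞ u z) (i : r) :
    ContDiffAt ℝ ∞ (fun w => (F w *ᵥ u w) i) z :=
  ContDiffAt.sum fun j _ => (hF i j).mul (co hu j)

omit [Fintype r2] in
theorem ng (u : V ι → V r2) (k : ι) (z : V ι) : dV (fun w => -u w) k z = -dV u k z :=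
  funext fun i => dz_neg (fun w => u w i) k z

omit [Fintype r2] in
theorem ngb (u : V ι → V r2) (k : ι) (z : V ι) : dVb (fun w => -u w) k z = -dVb u k z :=
  funext fun i => dzb_neg (fun w => u w i) k z

end loc

variable {ι X Y G r r2 : Type} [Fintype ι] [DecidableEq ι] [TopologicalSpace X]
  [TopologicalSpace Y] {p : Y → X} [Fintype r2] {e : Ch ι X} {z : V ι} {s : V ι → Y}

open Classical in
/-- the coefficients of the form. -/
noncomputable def fg (hp : IsLocalHomeomorph p) (M : Atl ι X) (δ : (V ι → V r2) → ι → V ι → V r2)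
    (B : Y → Matrix r r2 ℂ) (f : Y → V r2) (e : Ch ι X) (y : Y) (k : ι) : V r :=
  if e ∈ M.A then B y *ᵥ δ (f ∘ F12.sh hp y e) k (e (p y)) else 0

variable (hp : IsLocalHomeomorph p) {M : Atl ι X} {δ : (V ι → V r2) → ι → V ι → V r2}
  (hδ : ∀ u v z, u =ᶠ[𝓝 z] v → ∀ k, δ u k z = δ v k z) (B : Y → Matrix r r2 ℂ) {f : Y → V r2}

include hδ

theorem f_at (he : e ∈ M.A) (hz : z ∈ e.target) (hs : F12.Sec p e z s) (k : ι) :
    fg hp M δ B f e (s z) k = B (s z) *ᵥ δ (f ∘ s) k z := by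
  rw [fg, if_pos he, hs.2.self_of_nhds, e.right_inv hz, hδ _ _ _ ((hs.eq hp hz).fun_comp f) k]

theorem f_ev (he : e ∈ M.A) (hz : z ∈ e.target) (hs : F12.Sec p e z s) (k : ι) :
    (fun w => fg hp M δ B f e (s w) k) =ᶠ[𝓝 z] fun w => B (s w) *ᵥ δ (f ∘ s) k w := by
  filter_upwards [hs.ev hp hz, e.open_target.mem_nhds hz] with w h1 h2 using
    f_at hp hδ B he h2 h1 k

theorem tra (σ : ℂ → ℂ) (hc : ∀ (u : V ι → V r2) (τ : V ι → V ι) z, ContDiffAt ℝ ∞ u (τ z) →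
      DifferentiableAt ℂ τ z → ∀ k, δ (u ∘ τ) k z = ∑ l, σ (jac τ z l k) • δ u l (τ z))
    (hx : Sm M p f) {e' : Ch ι X} (he : e ∈ M.A) (he' : e' ∈ M.A) {y : Y}
    (h : p y ∈ e.source) (h' : p y ∈ e'.source) (k : ι) :
    fg hp M δ B f e y k = ∑ l, σ (tj e e' (p y) l k) • fg hp M δ B f e' y l := by
  have a1 := F12.sh_self hp h
  have a2 := F12.sh_self hp h'
  have a3 := M.hol e he e' he' _ h h'
  have a4 : (e' ∘ e.symm) (e (p y)) = e' (p y) := by simp [e.left_inv h]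
  have a5 : F12.sh hp y e =ᶠ[𝓝 (e (p y))] F12.sh hp y e' ∘ (e' ∘ e.symm) := by
    refine F12.uniq hp a1.1.1 (ContinuousAt.comp (a4 ▸ a2.1.1) a3.continuousAt)
      (by rw [a1.2, Function.comp_apply, a4, a2.2]) ?_
    filter_upwards [a1.1.2, a3.continuousAt.eventually (a4 ▸ a2.1.2),
      F1.ev (e.map_source h) e'.open_source (by rwa [e.left_inv h])] with w b1 b2 b3
    rw [b1, Function.comp_apply, b2, Function.comp_apply, e'.left_inv b3.2]
  have a6 := hc (f ∘ F12.sh hp y e') _ _ (a4 ▸ hx e' he' _ (e'.map_source h') _ a2.1)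
    a3.differentiableAt k
  rw [fg, if_pos he, hδ _ _ _ (a5.fun_comp f) k, ← Function.comp_assoc, a6, a4, mulVec_sum]
  exact Finset.sum_congr rfl fun l _ => by rw [fg, if_pos he', mulVec_smul]; rfl

theorem eq1 [Group G] [MulAction G Y] [Fintype r] [DecidableEq r] [DecidableEq r2]
    (hq : IsQuotientCoveringMap p G) (ha : ∀ (u : V ι → V r2) z, ContDiffAt ℝ ∞ u z →
      ∀ (R : Mat r2) c k, δ (fun w => R *ᵥ u w + c) k z = R *ᵥ δ u k z)
    {σ : G →* Mat r2} {ρ : G →* Mat r} {b : G → V r2} (hx : Sm M p f)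
    (h1 : ∀ (g : G) y, f (g • y) = σ g *ᵥ f y + b g)
    (h2 : ∀ (g : G) y, B (g • y) * σ g = ρ g * B y) :
    Eq1 p ρ (fg hp M δ B f) := by
  intro e g y h k
  by_cases he : e ∈ M.A
  · have a1 := F12.sh_self hp h
    have a2 := f_at (f := f) hp hδ B he (e.map_source h) (a1.1.smul hq g) k
    rw [a1.2] at a2
    have a3 : (f ∘ fun w => g • F12.sh hp y e w) = fun w =>
        σ g *ᵥ (f ∘ F12.sh hp y e) w + b g := funext fun w => h1 g _
    rw [a2, a3, ha _ _ (hx e he _ (e.map_source h) _ a1.1), fg, if_pos he, mulVec_mulVec,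
      mulVec_mulVec, h2]
  · rw [fg, fg, if_neg he, if_neg he, mulVec_zero]

end Cj

variable {ι X Y G : Type} [Fintype ι] [DecidableEq ι] [TopologicalSpace X] [TopologicalSpace Y]
  [Group G] [MulAction G Y] {M : Atl ι X} {p : Y → X}

/-- the conjugate map. -/
theorem cj (hq : IsQuotientCoveringMap p G) (hP : PrimS M p G) {r r2 : Type} [Fintype r]
    [DecidableEq r] [Fintype r2] [DecidableEq r2] (σ : G →* Mat r2) (ρ : G →* Mat r)
    (B : Y → Matrix r r2 ℂ) (f : Y → V r2) (b : G → V r2) (hB : SmH M p B) (hf : Sm M p f)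
    (h1 : ∀ (g : G) y, f (g • y) = σ g *ᵥ f y + b g) (h2 : ∀ (g : G) y, B (g • y) * σ g = ρ g * B y)
    (h3 : Loc M p fun _ z s => ∀ i k,
      dV (fun w => B (s w) *ᵥ dV (f ∘ s) i w) k z = dV (fun w => B (s w) *ᵥ dV (f ∘ s) k w) i z ∧
      dVb (fun w => B (s w) *ᵥ dVb (f ∘ s) i w) k z =
        dVb (fun w => B (s w) *ᵥ dVb (f ∘ s) k w) i z ∧
      dVb (fun w => B (s w) *ᵥ dV (f ∘ s) i w) k z =
        -dV (fun w => B (s w) *ᵥ dVb (f ∘ s) k w) i z) :
    ∃ (S : Y → V r) (c : G → V r), Sm M p S ∧ Coc ρ c ∧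
      (∀ (g : G) y, S (g • y) = ρ g *ᵥ S y + c g) ∧
      (Loc M p fun _ z s => ∀ k, dV (S ∘ s) k z = B (s z) *ᵥ dV (f ∘ s) k z ∧
        dVb (S ∘ s) k z = -(B (s z) *ᵥ dVb (f ∘ s) k z)) ∧
      ((∀ y, (B y).map star = -B y) → (∀ y, star (f y) = f y) → ∀ y, star (S y) = S y) := by
  have hp := hq.isCoveringMap.isLocalHomeomorph
  have d1 : ∀ (u v : V ι → V r2) z, u =ᶠ[𝓝 z] v → ∀ k, dV u k z = dV v k z :=
    fun _ _ _ => Dbl.cg
  have d2 : ∀ (u v : V ι → V r2) z, u =ᶠ[𝓝 z] v → ∀ k, dVb u k z = dVb v k z :=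
    fun _ _ _ => Dbl.cgb
  obtain ⟨S, a1, a2, a3, a4⟩ := hP r (Cj.fg hp M dV B f) (fun e y k => -Cj.fg hp M dVb B f e y k)
    ⟨fun e he z hz s hs k i => (Cj.smw (hB e he z hz s hs) (Dbl.sm (hf e he z hz s hs) k)
        i).congr_of_eventuallyEq ((Cj.f_ev hp d1 B he hz hs k).mono fun _ h => congrFun h i),
      fun e he z hz s hs k i => ((Cj.smw (hB e he z hz s hs) (Dbl.smb (hf e he z hz s hs) k)
        i).congr_of_eventuallyEq ((Cj.f_ev hp d2 B he hz hs k).mono fun _ h => congrFun h i)).neg,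
      fun _ he _ he' _ h h' k => Cj.tra hp d1 B id (fun _ _ _ => Dbl.cmp) hf he he' h h' k,
      fun _ he _ he' _ h h' k => by
        rw [Cj.tra hp d2 B star (fun _ _ _ => Cj.cmpb) hf he he' h h' k, ← Finset.sum_neg_distrib]
        exact Finset.sum_congr rfl fun l _ => (smul_neg _ _).symm⟩
    (fun e he z hz s hs i k => by
      obtain ⟨b1, b2, b3⟩ := h3 e he z hz s hs i k
      rw [Cj.ng, Cj.ngb, Cj.ngb, Dbl.cg (Cj.f_ev hp d1 B he hz hs i),
        Dbl.cg (Cj.f_ev hp d1 B he hz hs k), Dbl.cgb (Cj.f_ev hp d2 B he hz hs i),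
        Dbl.cgb (Cj.f_ev hp d2 B he hz hs k), Dbl.cgb (Cj.f_ev hp d1 B he hz hs i),
        Dbl.cg (Cj.f_ev hp d2 B he hz hs k)]
      exact ⟨b1, congrArg _ b2, b3⟩)
  obtain ⟨c, a5, a6⟩ := a4 ρ (Cj.eq1 hp d1 B hq (fun _ _ => Dbl.aff) hf h1 h2) fun e g y h k =>
    (congrArg Neg.neg (Cj.eq1 hp d2 B hq (fun _ _ => Cj.affb) hf h1 h2 e g y h k)).trans
      (mulVec_neg _ _).symm
  refine ⟨S, c, a1, a5, a6, fun e he z hz s hs k => ⟨(a2 e he z hz s hs k).1.trans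
    (Cj.f_at hp d1 B he hz hs k), (a2 e he z hz s hs k).2.trans
    (congrArg Neg.neg (Cj.f_at hp d2 B he hz hs k))⟩, fun b1 b2 => a3 fun e y k => ?_⟩
  rw [Cj.fg, Cj.fg]
  split_ifs
  · rw [← Dbl.st (u := f ∘ F12.sh hp y e) fun w => b2 _, ← neg_mulVec, ← b1]
    ext i
    simp [mulVec, dotProduct]
  · simp

end Pool.Agent.Lib.MP_813db1_ag.VH
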