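import Pool.Agent.Lib.MP_813db1_ag.VH.Stmt
import Pool.Agent.Lib.MP_813db1_ag.AS.F3
import Pool.Agent.Lib.MP_bbd4b9_ag.NH.Stmt

/-! The volume of the maximal family: statements. -/

namespace Pool.Agent.Lib.MP_813db1_ag.VH

open Pool.Agent.Lib.MP_813db1_ag.HS Pool.Agent.Lib.MP_813db1_ag.AS Pool.Agent.Lib.MP_bbd4b9_ag.AR
open MeasureTheory Complex Matrix Filter Topology Set
open scoped ContDiff ComplexOrder Manifold

/-! ### algebra -/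

/-- kernels of integral representations. -/
def IK {G : Type} [Group G] (K : Subgroup G) : Prop :=
  ∃ (r : Type) (_ : Fintype r) (_ : DecidableEq r) (ρ : G →* Mat r), IntR ρ ∧ ρ.ker = K

/-- the defect of additivity. -/
def dfc {E : Type} [Mul E] (z : E → ℝ) (s t : E) : ℝ := z (s * t) - z s - z t

/-- a quadratic function is fixed by the kernel of an integral representation. -/
def FixS : Prop := ∀ (G E : Type) [Group G] [Group E] (c : CE G E) (Q : Subgroup G) (z : E → ℝ)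
  (φ : Multiplicative ℝ → ℝ), Group.FG G → Q.Normal → Q.FG →
  (∀ t x, c.π x ∈ Q → z (c.ζ t * x) = z x + φ t) →
  (∀ s s' t, c.π s ∈ Q → c.π s' ∈ Q → c.π t ∈ Q → dfc z (s * s') t = dfc z s t + dfc z s' t) →
  (∀ s t t', c.π s ∈ Q → c.π t ∈ Q → c.π t' ∈ Q → dfc z s (t * t') = dfc z s t + dfc z s t') →
  ∃ K, IK K ∧ ∀ y, c.π y ∈ K → ∀ x, c.π x ∈ Q → z (y * x * y⁻¹) = z x

/-- canonical lifts for a normal nilpotent subgroup. -/
def AlgV : Prop := ∀ (G E : Type) [Group G] [Group E] (c : CE G E) (N : Subgroup G),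
  Group.FG G → N.Normal → N.FG → Group.IsVirtuallyNilpotent N →
  ∃ K, IK K ∧ ∀ Γ : Subgroup G, K.relIndex Γ ≠ 0 → ∃ T, CanR c Γ N T

/-- irreducible over the rationals. -/
def IrrQ {G r : Type} [Group G] [Fintype r] [DecidableEq r] (σ : G →* Matrix r r ℤ) : Prop :=
  ∀ W : Submodule ℚ (r → ℚ), (∀ g, ∀ v ∈ W, (σ g).map (Int.cast : ℤ → ℚ) *ᵥ v ∈ W) →
    W = ⊥ ∨ W = ⊤

/-- irreducible over the rationals implies semisimple over the reals. -/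
def SsS : Prop := ∀ (G r : Type) [Group G] [Fintype r] [DecidableEq r] (σ : G →* Matrix r r ℤ)
  (ρ : G →* Mat r), (∀ g, ρ g = (σ g).map (Int.cast : ℤ → ℂ)) → IrrQ σ → SsR ρ

/-- an integral representation is semisimple or an extension of smaller ones. -/
def TriC : Prop := ∀ (G r : Type) [Group G] [Fintype r] [DecidableEq r] (ρ : G →* Mat r),
  IntR ρ → SsR ρ ∨ ∃ (a b : ℕ) (P : Matrix r (Fin a ⊕ Fin b) ℂ) (P' : Matrix (Fin a ⊕ Fin b) r ℂ)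
    (ρ₁ : G →* Mat (Fin a)) (ρ₂ : G →* Mat (Fin b)), a < Fintype.card r ∧ b < Fintype.card r ∧
    P * P' = 1 ∧ P' * P = 1 ∧ IntR ρ₁ ∧ IntR ρ₂ ∧
    ∀ g, ∃ B, P' * ρ g * P = fromBlocks (ρ₁ g) B 0 (ρ₂ g)

/-- cocycles are combinations of integral cocycles. -/
def IntC : Prop := ∀ (G r : Type) [Group G] [Fintype r] [DecidableEq r] (ρ : G →* Mat r)
  (c : G → V r), Group.FG G → IntR ρ → Coc ρ c → ∃ (n : ℕ) (t : Fin n → ℂ) (b : Fin n → G → V r),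
    (∀ j, Coc ρ (b j) ∧ ∀ g i, ∃ m : ℤ, b j g i = m) ∧ ∀ g, c g = ∑ j, t j • b j g

/-- the sign of the mixed Pfaffian of a semipositive and a positive form. -/
def PosV : Prop := ∀ (ι : Type) [Fintype ι] [DecidableEq ι] (S : Finset ι) (H Z : Mat ι)
  (B : ι → Pf.Bil (V ι)), H.PosDef → Z.PosSemidef →
  (∀ k ∈ S, ∀ u v, B k u v - B k v u = (ipV Z u v).im) →
  (∀ k ∉ S, ∀ u v, B k u v - B k v u = (ipV H u v).im) →
  0 ≤ (-1) ^ Fintype.card ι * Pf.P B (F3.bs ι) ∧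
    (S.card ≤ Z.rank → 0 < (-1) ^ Fintype.card ι * Pf.P B (F3.bs ι))

/-- the slots in `S` have `W` in their radical, one more slot vanishes on `W`. -/
def VanV : Prop := ∀ (ι : Type) [Fintype ι] [DecidableEq ι] (S : Finset ι)
  (B : ι → Pf.Bil (V ι)) (W : Submodule ℝ (V ι)) (k : ι), k ∉ S →
  2 * Fintype.card ι ≤ Module.finrank ℝ W + 2 * S.card →
  (∀ l ∈ S, ∀ w ∈ W, ∀ u, B l w u = B l u w) → (∀ u ∈ W, ∀ w ∈ W, B k u w = B k w u) →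
  Pf.P B (F3.bs ι) = 0

/-- a matrix as a vector. -/
def mvc {σ τ : Type} (A : Matrix σ τ ℂ) : V (σ × τ) := fun q => A q.1 q.2

section par

variable {ι X Y : Type} [Fintype ι] [DecidableEq ι] [TopologicalSpace X] [TopologicalSpace Y]
  (M : Atl ι X) (p : Y → X)

/-- the differential of `f` is bounded by `ζ`, locally uniformly. -/
def Dmn {E : Type} [NormedAddCommGroup E] [NormedSpace ℝ E] (ζ : X → Mat ι) (f : Y → E) : Prop :=
  ∀ y0, ∃ C : ℝ, ∀ᶠ y in 𝓝 y0, ∀ e ∈ M.A, ∀ z ∈ e.target, ∀ s, F12.Sec p e z s → s z = y →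
    ∀ v, ‖fderiv ℝ (f ∘ s) z v‖ ^ 2 ≤ C * nV (M.repF ζ e z) v

/-- a smooth equivariant map to a space on which the group acts properly modulo `K`. -/
structure PM {G E : Type} [Group G] [MulAction G Y] [NormedAddCommGroup E] [NormedSpace ℝ E]
    (K : Subgroup G) (a : G → E → E) (Φ : Y → E) : Prop where
  nor : K.Normal
  sm : Sm M p Φ
  ct : ∀ g, Continuous (a g)
  mul : ∀ g g' b, a (g * g') b = a g (a g' b)
  ker : ∀ g ∈ K, ∀ b, a g b = b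
  eqv : ∀ (g : G) y, Φ (g • y) = a g (Φ y)
  fin : ∀ y (R : ℝ), ∃ F : Finset G, ∀ᶠ b in 𝓝 (Φ y), ∀ g, ‖a g b‖ ≤ R → ∃ f ∈ F, f⁻¹ * g ∈ K

variable {M p} in
/-- integral families. -/
structure IFam {G r : Type} [Group G] [MulAction G Y] [Fintype r] [DecidableEq r]
    (D : Dt M p G r) (c : G → V r) (x : Y → V r) (τ ξ : X → Mat ι) : Prop where
  int : IntR D.ρ
  ph : D.PH
  ic : ∀ g i, ∃ m : ℤ, c g i = m
  aff : D.Aff c x
  re : ∀ y, star (x y) = x y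
  px : D.PX x
  tau : D.Tau τ
  xi : D.Xi x ξ
  ct : M.ClF τ
  cx : M.ClF ξ
  pt : ∀ a, (τ a).PosSemidef
  pξ : ∀ a, (ξ a).PosSemidef

variable (G : Type) [Group G] [MulAction G Y]

/-! ### section 3 -/

/-- conjugate functions. -/
def CjS : Prop := ∀ (r r' : Type) [Fintype r] [DecidableEq r] [Fintype r'] [DecidableEq r']
  (σ : G →* Mat r') (ρ : G →* Mat r) (B : Y → Matrix r r' ℂ) (f : Y → V r') (b : G → V r'),
  SmH M p B → Sm M p f → (∀ (g : G) y, f (g • y) = σ g *ᵥ f y + b g) →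
  (∀ (g : G) y, B (g • y) * σ g = ρ g * B y) →
  (Loc M p fun _ z s => ∀ i k,
    dV (fun w => B (s w) *ᵥ dV (f ∘ s) i w) k z = dV (fun w => B (s w) *ᵥ dV (f ∘ s) k w) i z ∧
    dVb (fun w => B (s w) *ᵥ dVb (f ∘ s) i w) k z =
      dVb (fun w => B (s w) *ᵥ dVb (f ∘ s) k w) i z ∧
    dVb (fun w => B (s w) *ᵥ dV (f ∘ s) i w) k z =
      -dV (fun w => B (s w) *ᵥ dVb (f ∘ s) k w) i z) →
  ∃ (S : Y → V r) (c : G → V r), Sm M p S ∧ Coc ρ c ∧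
    (∀ (g : G) y, S (g • y) = ρ g *ᵥ S y + c g) ∧
    (Loc M p fun _ z s => ∀ k, dV (S ∘ s) k z = B (s z) *ᵥ dV (f ∘ s) k z ∧
      dVb (S ∘ s) k z = -(B (s z) *ᵥ dVb (f ∘ s) k z)) ∧
    ((∀ y, (B y).map star = -B y) → (∀ y, star (f y) = f y) → ∀ y, star (S y) = S y)

/-- `f` has a conjugate function that is equivariant for an integral datum. -/
def Cj {E : Type} [NormedAddCommGroup E] [NormedSpace ℝ E] (f : Y → E) : Prop :=
  ∃ (r : Type) (_ : Fintype r) (_ : DecidableEq r) (D : Dt M p G r) (c : G → V r) (S : Y → V r),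
    IntR D.ρ ∧ D.PH ∧ Coc D.ρ c ∧ D.Aff c S ∧ (∀ ζ, Dmn M p ζ f → Dmn M p ζ S) ∧
    Loc M p fun _ z s => ∀ v, fderiv ℝ (S ∘ s) z v = 0 → fderiv ℝ (f ∘ s) z (I • v) = 0

/-- the conjugates of the metric and of the map. -/
def CnjS : Prop := ∀ (r : Type) [Fintype r] [DecidableEq r] (D : Dt M p G r), IntR D.ρ → D.PH →
  Cj M p G (fun y => mvc (D.H y)) ∧
    ∀ c x, D.Aff c x → (∀ y, star (x y) = x y) → D.PX x → Cj M p G x

/-- the two forms bound the differentials. -/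
def DomS : Prop := ∀ (r : Type) [Fintype r] [DecidableEq r] (D : Dt M p G r),
  (∀ τ, D.Tau τ → Dmn M p τ (fun y => mvc (D.H y)) ∧ Loc M p fun e z s => ∀ v,
    fderiv ℝ ((fun y => mvc (D.H y)) ∘ s) z v = 0 →
    fderiv ℝ ((fun y => mvc (D.H y)) ∘ s) z (I • v) = 0 → nV (M.repF τ e z) v = 0) ∧
  ∀ x ξ, Sm M p x → (∀ y, star (x y) = x y) → D.Xi x ξ → Dmn M p ξ x ∧ Loc M p fun e z s => ∀ v,
    fderiv ℝ (x ∘ s) z v = 0 → fderiv ℝ (x ∘ s) z (I • v) = 0 → nV (M.repF ξ e z) v = 0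

/-- constructions of proper maps. -/
structure PmS : Prop where
  pos : ∀ (r : Type) [Fintype r] [DecidableEq r] (ρ : G →* Mat r) (Φ : Y → Mat r), IntR ρ →
    SmH M p Φ → (∀ y, (Φ y).PosDef) → (∀ (g : G) y, Φ (g • y) = ρ g * Φ y * (ρ g)ᴴ) →
    ∃ a, PM M p ρ.ker a fun y => mvc (Φ y)
  fam : ∀ (r : Type) [Fintype r] [DecidableEq r] (D : Dt M p G r) (c : G → V r) (x : Y → V r),
    IntR D.ρ → Coc D.ρ c → (∀ g i, ∃ m : ℤ, c g i = m) → D.Aff c x →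
    ∃ (K : Subgroup G) (a : G → V (r × r) × V r → V (r × r) × V r),
      PM M p K a (fun y => (mvc (D.H y), x y)) ∧ ∀ g ∈ K, D.ρ g = 1 ∧ c g = 0
  aux : ∀ (E r : Type) [NormedAddCommGroup E] [NormedSpace ℝ E] [Fintype r] [DecidableEq r]
    (K : Subgroup G) (a : G → E → E) (Φ : Y → E) (ρ : G →* Mat r) (c : G → V r) (x : Y → V r),
    PM M p K a Φ → Sm M p x → Coc ρ c → (∀ (g : G) y, x (g • y) = ρ g *ᵥ x y + c g) →
    (∀ g ∈ K, ρ g = 1 ∧ c g = 0) → ∃ a', PM M p K a' fun y => (Φ y, x y)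
  prd : ∀ (E E' : Type) [NormedAddCommGroup E] [NormedSpace ℝ E] [NormedAddCommGroup E']
    [NormedSpace ℝ E'] (K K' : Subgroup G) (a : G → E → E) (a' : G → E' → E') (Φ : Y → E)
    (Φ' : Y → E'), PM M p K a Φ → PM M p K' a' Φ' →
    ∃ a'', PM M p (K ⊓ K') a'' fun y => (Φ y, Φ' y)

/-- pluriharmonic maps are combinations of integral ones. -/
def DecS : Prop := ∀ g0, M.IsK g0 → ∀ (r : Type) [Fintype r] [DecidableEq r] (D : Dt M p G r),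
  IntR D.ρ → D.PH →
  (∀ b : G → V r, Coc D.ρ b → (∀ g i, ∃ m : ℤ, b g i = m) → ∃ x τ ξ, IFam D b x τ ξ) ∧
  ∀ c x, D.Aff c x → D.PX x → ∃ (n : ℕ) (t : Fin n → ℂ) (b : Fin n → G → V r)
    (u : Fin n → Y → V r) (v : V r), (∀ j, ∃ τ ξ, IFam D (b j) (u j) τ ξ) ∧
      ∀ y, x y = ∑ j, t j • u j y + v

/-- the maximal family and its proper map. -/
def FamS : Prop := ∀ g0, M.IsK g0 → ∃ (r : Type) (_ : Fintype r) (_ : DecidableEq r)
  (D : Dt M p G r) (c : G → V r) (x : Y → V r) (τ ξ : X → Mat ι), IFam D c x τ ξ ∧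
  ∃ (m : ℕ) (U : Set X) (E : Type) (_ : NormedAddCommGroup E) (_ : NormedSpace ℝ E)
    (_ : FiniteDimensional ℝ E) (K : Subgroup G) (a : G → E → E) (Φ : Y → E),
    (∀ q, (τ q + ξ q).rank ≤ m) ∧
    MaxF M p G (fun q => τ q + ξ q) {q | (τ q + ξ q).rank = m} ∧ PM M p K a Φ ∧
    Dmn M p (fun q => τ q + ξ q) Φ ∧ IsOpen U ∧ U.Nonempty ∧ (∀ q ∈ U, (τ q + ξ q).rank = m) ∧
    Loc M p fun e z s => e.symm z ∈ U → ∀ v, fderiv ℝ (Φ ∘ s) z v = 0 →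
      nV (M.repF (fun q => τ q + ξ q) e z) v = 0

/-- a flag with semisimple integral quotients and a datum on the graded part. -/
def FlagS : Prop := ∀ g0, M.IsK g0 → ∀ (r : Type) [Fintype r] [DecidableEq r] (ρ : G →* Mat r),
  IntR ρ → ∃ (r' : Type) (_ : Fintype r') (_ : DecidableEq r') (D : Dt M p G r') (d : r' → ℕ)
    (ρ' : G →* Mat r') (P : Matrix r r' ℂ) (P' : Matrix r' r ℂ), P * P' = 1 ∧ P' * P = 1 ∧
    (∀ g, ρ' g = P' * ρ g * P) ∧ IntR D.ρ ∧ D.PH ∧ (∀ y i j, d i ≠ d j → D.H y i j = 0) ∧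
    ∀ g i j, (d i ≠ d j → D.ρ g i j = 0) ∧ (d i = d j → ρ' g i j = D.ρ g i j) ∧
      (d j < d i → ρ' g i j = 0)

/-- every integral representation has a proper map that is constant along the kernel of `ζ`. -/
def EqvS : Prop := ∀ g0, M.IsK g0 → ∀ (ζ : X → Mat ι) (U : Set X) (k : ℕ), M.ClF ζ →
  (∀ a, (ζ a).PosSemidef) → (∀ a, (ζ a).rank ≤ k) → IsOpen U → (∀ a ∈ U, (ζ a).rank = k) →
  MaxF M p G ζ U → ∀ K : Subgroup G, IK K → ∃ (r : Type) (_ : Fintype r) (a : G → V r → V r)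
    (Φ : Y → V r), PM M p K a Φ ∧ Kil M p ζ U Φ

/-! ### section 5 -/

/-- sums over the orbits. -/
def AvgS : Prop := ∀ (E : Type) [NormedAddCommGroup E] [NormedSpace ℝ E] (K : Subgroup G)
  (a : G → E → E) (Φ : Y → E), PM M p K a Φ →
  (∀ C : Set E, IsClosed C → Bornology.IsBounded C → IsClosed (p '' (Φ ⁻¹' C))) ∧
  ∀ f : E → ℝ, ContDiff ℝ ∞ f → Bornology.IsBounded (Function.support f) →
    ∃ (F : E → ℝ) (T : X → ℝ), (∀ y, T (p y) = F (Φ y)) ∧ (∀ y, ContinuousAt F (Φ y)) ∧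
      M.Ck ∞ T ∧ (∀ ζ U, Kil M p ζ U Φ → Kil M p ζ U (T ∘ p)) ∧
      (∀ ζ, Dmn M p ζ Φ → Dmn M p ζ (T ∘ p)) ∧
      ∀ y, (Function.support fun q : G ⧸ K => f (Φ (q.out • y))).Finite ∧
        T (p y) = ∑ᶠ q : G ⧸ K, f (Φ (q.out • y))

/-- coordinates transverse to the kernel. -/
def TrV : Prop := ∀ (E : Type) [NormedAddCommGroup E] [NormedSpace ℝ E] [FiniteDimensional ℝ E]
  (K : Subgroup G) (a : G → E → E) (Φ : Y → E) (ζ : X → Mat ι) (U : Set X) (m : ℕ) (w : ℝ),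
  PM M p K a Φ → Dmn M p ζ Φ → (∀ x, (ζ x).PosSemidef) → IsOpen U → U.Nonempty →
  (∀ x ∈ U, (ζ x).rank = m) → (Loc M p fun e z s => e.symm z ∈ U → ∀ v,
    fderiv ℝ (Φ ∘ s) z v = 0 → nV (M.repF ζ e z) v = 0) → 0 < w →
  ∃ (L : ℝ) (T : Fin (2 * m) → X → ℝ) (F : Fin (2 * m) → E → ℝ), 0 ≤ L ∧
    (∀ c x0 (H : Mat ι), H.PosDef → ∀ᶠ q : X × X in 𝓝 (x0, x0),
      |T c q.1 - T c q.2| ≤ L * √(nV (H + ζ x0) (M.ch x0 q.2 - M.ch x0 q.1))) ∧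
    (∀ c y, T c (p y) = F c (Φ y)) ∧ (∀ c y, ContinuousAt (F c) (Φ y)) ∧
    ∀ t : Fin (2 * m) → ℝ, (∀ c, t c ∈ Icc w (2 * w)) → ∃ y, p y ∈ U ∧ ∀ c, T c (p y) = t c

/-- labels and a cutoff function near a fibre. -/
def LabS : Prop := ∀ (E : Type) [NormedAddCommGroup E] [NormedSpace ℝ E] [FiniteDimensional ℝ E]
  (K : Subgroup G) (a : G → E → E) (Φ : Y → E), PM M p K a Φ → ∀ y0, ∀ W ∈ 𝓝 (Φ y0),
  ∃ (Γ : Subgroup G) (O : Set X) (l : Y → G ⧸ Γ) (φ : X → ℝ), K.relIndex Γ ≠ 0 ∧ IsOpen O ∧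
    (∀ x ∈ O, ∃ y, p y = x ∧ Φ y ∈ W) ∧ (∀ (g : G) y, p y ∈ O → l (g • y) = g • l y) ∧
    (∀ y, p y ∈ O → ∀ᶠ y' in 𝓝 y, l y' = l y) ∧ M.Ck ∞ φ ∧ (∀ x, 0 ≤ φ x) ∧ tsupport φ ⊆ O ∧
    0 < φ (p y0) ∧ ∀ ζ U, Kil M p ζ U Φ → Kil M p ζ U (φ ∘ p)

/-- local primitives of closed forms. -/
def LocP : Prop := ∀ ζ, M.ClF ζ → ∀ x, ∃ U, IsOpen U ∧ x ∈ U ∧ ∃ b, Prim M ζ b U

/-- along the kernel of `ζ` the Kaehler form has no primitives with exact differences on a cover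
of multiplicity at most the real dimension of the kernel. -/
def F3V : Prop := ∀ (κ : Type) [Fintype κ] (g ζ : X → Mat ι) (m : ℕ) (U : κ → Set X)
  (a : κ → X → Cv ι) (f : κ → κ → X → ℝ) (φ : X → ℝ), M.IsK g → M.ClF ζ →
  (∀ x, (ζ x).PosSemidef) → (∀ x, (ζ x).rank ≤ m) → (∀ i, IsOpen (U i)) →
  (∀ i, ∀ x ∈ U i, {i | x ∈ U i}.ncard + 2 * m ≤ 2 * Fintype.card ι) →
  (∀ i, Prim M g (a i) (U i)) → (∀ i k, Dif M (a i) (a k) (f i k) (U i ∩ U k)) →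
  M.Ck ∞ φ → (∀ x, 0 ≤ φ x) → (∀ x ∈ tsupport φ, ∃ i, x ∈ U i) →
  (∀ x, (ζ x).rank = m → ∀ v, nV (ζ x) v = 0 → F3.dd M φ x v = 0) →
  ∀ x, (ζ x).rank = m → φ x = 0

/-- a datum of positive volume. -/
def VolW [MeasurableSpace X] : Prop := ∀ g μ, M.IsK g → M.IsVol g μ → NefA M g →
  ∃ (r : Type) (_ : Fintype r) (_ : DecidableEq r) (D : Dt M p G r) (c : G → V r) (x : Y → V r)
    (τ ξ : X → Mat ι), D.PH ∧ D.Aff c x ∧ (∀ y, star (x y) = x y) ∧ D.PX x ∧ D.Tau τ ∧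
    D.Xi x ξ ∧ 0 < ∫ a, rat (fun y => -M.ricF g y + (τ y + ξ y)) g a ∂μ

end par

end Pool.Agent.Lib.MP_813db1_ag.VH
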