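import Pool.Agent.Lib.MP_813db1_ag.VH.Cj
import Pool.Agent.Lib.MP_813db1_ag.VH.StV

/-! Conjugate maps, in the form used by the volume sections. -/

namespace Pool.Agent.Lib.MP_813db1_ag.VH

open Pool.Agent.Lib.MP_813db1_ag.HS

variable {ι X Y G : Type} [Fintype ι] [DecidableEq ι] [TopologicalSpace X] [TopologicalSpace Y]
  [Group G] [MulAction G Y] {M : Atl ι X} {p : Y → X}

theorem cjS (hq : IsQuotientCoveringMap p G) (hP : PrimS M p G) : CjS M p G :=
  fun _ _ _ _ _ _ σ ρ B f b => cj hq hP σ ρ B f b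

end Pool.Agent.Lib.MP_813db1_ag.VH
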