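import Pool.Agent.Lib.MP_813db1_ag.VH.CoStmt
import Pool.Agent.Lib.MP_813db1_ag.VH.Cov

/-! Sheets exist; reading on sheets, invariance, descent. -/

namespace Pool.Agent.Lib.MP_813db1_ag.VH.Co

open Pool.Agent.Lib.MP_813db1_ag.HS Pool.Agent.Lib.MP_813db1_ag.AS F12
open MeasureTheory Complex Matrix Filter Topology Set Metric
open scoped ContDiff ComplexOrder

set_option linter.unusedSectionVars false

namespace CoBas

variable {ι X Y G : Type} [Fintype ι] [DecidableEq ι] [TopologicalSpace X] [TopologicalSpace Y]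
  [Group G] [MulAction G Y] {M : Atl ι X} {p : Y → X} {e e' : Ch ι X} {z z' : V ι}
  {s s' : V ι → Y}

theorem lapL_tg (A : V ι → Mat ι) (f : V ι → ℂ) (z : V ι) :
    lapL A f z = tg (A z) fun i j => levi f z i j := by
  simp only [lapL, trace, diag, Matrix.mul_apply, tg, smul_eq_mul]
  exact Finset.sum_congr rfl fun i _ => Finset.sum_congr rfl fun j _ => mul_comm _ _

theorem gr2_tg (A : V ι → Mat ι) (f h : V ι → ℂ) (z : V ι) : gr2 A f h z =
    (tg (A z) fun i j => dz f i z * dzb h j z + dzb f j z * dz h i z) / 2 := rfl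

theorem lapL_congr {A : V ι → Mat ι} {f h : V ι → ℂ} (e : f =ᶠ[𝓝 z] h) :
    lapL A f z = lapL A h z := by rw [lapL, lapL, levi_congr e]

theorem gr2_congr {A : V ι → Mat ι} {f f' h h' : V ι → ℂ} (e : f =ᶠ[𝓝 z] f') (e' : h =ᶠ[𝓝 z] h') :
    gr2 A f h z = gr2 A f' h' z := by
  simp only [gr2, dz_congr e, dzb_congr e, dz_congr e', dzb_congr e']

theorem two_lap (t : Two M p e z s e' z' s') (hp : IsLocalHomeomorph p) (g : X → Mat ι) {f : Y → ℂ}
    (hf : ContDiffAt ℝ 2 (f ∘ s') z') :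
    lapL (M.repF g e) (f ∘ s) z = lapL (M.repF g e') (f ∘ s') z' := by
  rw [lapL_tg, lapL_tg]
  refine t.tg g fun i j => ?_
  rw [levi_congr (t.comp hp f), levi_comp (by rw [t.pt]; exact hf) t.an, t.jac_eq, t.pt]
  simp only [pull, Matrix.mul_apply, transpose_apply, map_apply, Finset.sum_mul, smul_eq_mul]
  rw [Finset.sum_comm]
  exact Finset.sum_congr rfl fun l _ => Finset.sum_congr rfl fun m _ => by ring

theorem two_dz (t : Two M p e z s e' z' s') (hp : IsLocalHomeomorph p) {f : Y → ℂ}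
    (hf : DifferentiableAt ℝ (f ∘ s') z') (i : ι) :
    dz (f ∘ s) i z = ∑ l, tj e e' (e.symm z) l i * dz (f ∘ s') l z' := by
  rw [dz_congr (t.comp hp f), dz_comp (by rw [t.pt]; exact hf) t.an.differentiableAt, t.jac_eq, t.pt]

theorem two_dzb (t : Two M p e z s e' z' s') (hp : IsLocalHomeomorph p) {f : Y → ℂ}
    (hf : DifferentiableAt ℝ (f ∘ s') z') (i : ι) :
    dzb (f ∘ s) i z = ∑ l, star (tj e e' (e.symm z) l i) * dzb (f ∘ s') l z' := by
  rw [dzb_congr (t.comp hp f), dzb_comp (by rw [t.pt]; exact hf) t.an.differentiableAt, t.jac_eq,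
    t.pt]

theorem two_gr (t : Two M p e z s e' z' s') (hp : IsLocalHomeomorph p) (g : X → Mat ι) {f h : Y → ℂ}
    (hf : DifferentiableAt ℝ (f ∘ s') z') (hh : DifferentiableAt ℝ (h ∘ s') z') :
    gr2 (M.repF g e) (f ∘ s) (h ∘ s) z = gr2 (M.repF g e') (f ∘ s') (h ∘ s') z' := by
  rw [gr2_tg, gr2_tg]
  congr 1
  refine t.tg g fun i j => ?_
  rw [two_dz t hp hf, two_dz t hp hh, two_dzb t hp hf, two_dzb t hp hh, mul_comm (∑ _, star _ * _),
    Finset.sum_mul_sum, Finset.sum_mul_sum, ← Finset.sum_add_distrib]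
  refine Finset.sum_congr rfl fun l _ => ?_
  rw [← Finset.sum_add_distrib]
  exact Finset.sum_congr rfl fun m _ => by rw [smul_eq_mul]; ring

theorem two_zero (t : Two M p e z s e' z' s') (hp : IsLocalHomeomorph p) {f : Y → ℂ}
    (hf : DifferentiableAt ℝ (f ∘ s') z') (h0 : fderiv ℝ (f ∘ s') z' = 0) :
    fderiv ℝ (f ∘ s) z = 0 := by
  rw [(t.comp hp f).fderiv_eq, fderiv_comp z (by rw [t.pt]; exact hf)
    (t.an.differentiableAt.restrictScalars ℝ), t.pt, h0, ContinuousLinearMap.zero_comp]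

/-- the sheet through `y` inverts `e ∘ p` near `y`. -/
theorem back (hp : IsLocalHomeomorph p) {y : Y} (h : p y ∈ e.source) :
    ContinuousAt (fun u => e (p u)) y ∧ ∀ᶠ u in 𝓝 y, sh hp y e (e (p u)) = u := by
  have k := sh_self hp h
  have c : ContinuousAt (fun u => e (p u)) y := (e.continuousAt h).comp hp.continuous.continuousAt
  refine ⟨c, uniq hp (ContinuousAt.comp (f := fun u => e (p u)) k.1.1 c) continuousAt_id k.2 ?_⟩
  filter_upwards [c.eventually k.1.2, hp.continuous.continuousAt.eventually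
    (e.open_source.mem_nhds h)] with u h1 h2
  rw [h1, e.left_inv h2]

theorem unif {κ : Type} [Fintype κ] {P : κ → ℝ → Prop} (h : ∀ a, ∃ L ≥ (1 : ℝ), P a L)
    (hm : ∀ a L L', P a L → L ≤ L' → P a L') : ∃ L ≥ (1 : ℝ), ∀ a, P a L := by
  choose L h1 h2 using h
  have k : 0 ≤ ∑ a, L a := Finset.sum_nonneg fun a _ => by linarith [h1 a]
  refine ⟨1 + ∑ a, L a, by linarith, fun a => hm a _ _ (h2 a) ?_⟩
  linarith [Finset.single_le_sum (f := L) (fun a _ => by linarith [h1 a]) (Finset.mem_univ a)]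

variable (c : Sx ι X Y G)

theorem self (y : Y) : c.pt y ∈ (c.M.ch (c.p y)).target ∧
    Sec c.p (c.M.ch (c.p y)) (c.pt y) (sh c.hp y (c.M.ch (c.p y))) ∧
    sh c.hp y (c.M.ch (c.p y)) (c.pt y) = y :=
  ⟨(c.M.ch _).map_source (c.M.mem _), sh_self c.hp (c.M.mem _)⟩

variable {c}

theorem two (he : e ∈ c.M.A) (hz : z ∈ e.target) (hs : Sec c.p e z s) :
    Two c.M c.p (c.M.ch (c.p (s z))) (c.pt (s z)) (sh c.hp (s z) (c.M.ch (c.p (s z)))) e z s :=
  ⟨c.M.ch_mem _, (self c _).1, (self c _).2.1, he, hz, hs, (self c _).2.2⟩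

theorem lap (f : Y → ℂ) : Loc c.M c.p fun e z σ => ContDiffAt ℝ 2 (fun w => f (σ w)) z →
    lapL (c.M.repF c.g e) (fun w => f (σ w)) z = c.lap f (σ z) :=
  fun _ he _ hz _ hs hf => (two_lap (two he hz hs) c.hp c.g hf).symm

theorem gr (f h : Y → ℂ) : Loc c.M c.p fun e z σ => DifferentiableAt ℝ (fun w => f (σ w)) z →
    DifferentiableAt ℝ (fun w => h (σ w)) z →
    gr2 (c.M.repF c.g e) (fun w => f (σ w)) (fun w => h (σ w)) z = c.gr f h (σ z) :=
  fun _ he _ hz _ hs hf hh => (two_gr (two he hz hs) c.hp c.g hf hh).symm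

theorem rd_smul (f : Y → ℂ) (γ : G) (y : Y) : c.Gp (γ • y) = c.Gp y ∧ c.pt (γ • y) = c.pt y ∧
    c.rd (fun x => f (γ • x)) y =ᶠ[𝓝 (c.pt y)] c.rd f (γ • y) := by
  have e : c.p (γ • y) = c.p y := c.hq.map_smul γ
  refine ⟨by rw [Sx.Gp, e, Sx.Gp], by rw [Sx.pt, e, Sx.pt], ?_⟩
  have k := ((self c y).2.1.smul c.hq γ).eq c.hp (self c y).1
  simp only [(self c y).2.2] at k
  filter_upwards [k] with w hw
  simp only [Sx.rd, e, hw]

theorem loc {k : WithTop ℕ∞} {f : Y → ℂ} (h : ∀ y, ∃ e ∈ c.M.A, ∃ z ∈ e.target, ∃ σ,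
    Sec c.p e z σ ∧ σ z = y ∧ ContDiffAt ℝ k (fun w => f (σ w)) z) : c.Ck k f :=
  loc_of h fun _ _ _ _ _ _ t a => t.smooth c.hp a

theorem at_ {k : WithTop ℕ∞} {f : Y → ℂ} (y : Y) (h : c.Ck k f) :
    ContDiffAt ℝ k (c.rd f y) (c.pt y) := h _ (c.M.ch_mem _) _ (self c y).1 _ (self c y).2.1

theorem of_le {k l : WithTop ℕ∞} {f : Y → ℂ} (h : c.Ck k f) (hl : l ≤ k) : c.Ck l f :=
  fun e he z hz s hs => (h e he z hz s hs).of_le hl

theorem cont {f : Y → ℂ} (h : c.Ck 0 f) : Continuous f := continuous_iff_continuousAt.2 fun y => by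
  have k := back c.hp (c.M.mem (c.p y))
  refine (ContinuousAt.comp (f := fun u => c.M.ch (c.p y) (c.p u)) (at_ y h).continuousAt
    k.1).congr ?_
  exact k.2.mono fun u hu => congrArg f hu

theorem lf (c : Sx ι X Y G) (x : X) : c.p (c.lf x) = x := Function.surjInv_eq _ x

theorem orb (c : Sx ι X Y G) (y : Y) : ∃ γ : G, c.lf (c.p y) = γ • y :=
  ⟨_, (dl_smul c.hq (lf c (c.p y))).symm⟩

theorem lf_inv {E : Type} {f : Y → E} (hf : ∀ (γ : G) y, f (γ • y) = f y) (y : Y) :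
    f (c.lf (c.p y)) = f y := by
  obtain ⟨γ, h⟩ := orb c y
  rw [h, hf]

theorem lf_cont {E : Type} [TopologicalSpace E] {f : Y → E} (hf : ∀ (γ : G) y, f (γ • y) = f y)
    (h : Continuous f) : Continuous fun x => f (c.lf x) :=
  c.hq.toIsQuotientMap.continuous_iff.2 (h.congr fun y => (lf_inv hf y).symm)

theorem dsc {k : WithTop ℕ∞} {f : Y → ℂ} (hf : ∀ (γ : G) y, f (γ • y) = f y) (h : c.Ck k f) :
    c.M.CkS k 0 fun x => f (c.lf x) := fun e he z hz => by
  obtain ⟨s, hs⟩ := sec_ex' c.hq hz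
  rw [rep_fun]
  refine (h e he z hz s hs).congr_of_eventuallyEq (hs.2.mono fun w hw => ?_)
  simp only [← hw, lf_inv hf]

theorem gp (c : Sx ι X Y G) (y : Y) : (c.Gp y (c.pt y)).PosDef :=
  (c.hg _ (c.M.ch_mem _)).2 _ (self c y).1

theorem max [CompactSpace X] {f : Y → ℝ} (hf : ∀ (γ : G) y, f (γ • y) = f y)
    (h : c.Ck 2 fun y => (f y : ℂ)) (hn : Nonempty Y) :
    ∃ y0, (∀ y, f y ≤ f y0) ∧ c.lapR f y0 ≤ 0 := by
  have h1 : Continuous f := continuous_re.comp (cont (of_le h (by simp)))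
  obtain ⟨x, -, hx⟩ := isCompact_univ.exists_isMaxOn ⟨c.p hn.some, mem_univ _⟩
    (lf_cont (c := c) hf h1).continuousOn
  have h2 : ∀ y, f y ≤ f (c.lf x) := fun y => by
    rw [← lf_inv (c := c) hf y]
    exact hx (mem_univ _)
  refine ⟨c.lf x, h2, ?_⟩
  have h3 := maxS.loc ι (c.rd f (c.lf x)) (c.pt (c.lf x)) (contDiffAt_ofReal.1 (at_ _ h))
    (Eventually.of_forall fun w => by
      simp only [Sx.rd, (self c (c.lf x)).2.2]
      exact h2 _)
  have h4 := mat.trm_nonneg ι _ _ (gp c (c.lf x)) h3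
  rw [trm, Matrix.neg_mul, trace_neg, neg_re] at h4
  exact neg_nonneg.1 h4

theorem ck {f h : Y → ℂ} (hf : c.Ck ∞ f) (hh : c.Ck ∞ h) :
    c.Ck ∞ (c.lap f) ∧ c.Ck ∞ (c.gr f h) := by
  have k : ∀ e ∈ c.M.A, SmM (fun w => (c.M.repF c.g e w)⁻¹) e.target := fun e he =>
    (c.hg e he).1.1.inv fun z hz => ((c.hg e he).2 z hz).det_pos.ne'
  refine ⟨fun e he z hz s hs => ?_, fun e he z hz s hs => ?_⟩
  · have a := hf e he z hz s hs
    refine ContDiffAt.congr_of_eventuallyEq (f := lapL (c.M.repF c.g e) fun w => f (s w)) ?_ ?_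
    · simp only [funext (lapL_tg _ _), tg, smul_eq_mul]
      exact ContDiffAt.sum fun i _ => ContDiffAt.sum fun j _ =>
        (k e he z hz j i).mul (contDiffAt_levi_top a i j)
    · filter_upwards [(lap f).ev c.hp he hz hs, hf.ev c.hp he hz hs] with w h1 h2
      exact (h1 (h2.of_le (WithTop.coe_le_coe.2 le_top))).symm
  · have a := hf e he z hz s hs
    have b := hh e he z hz s hs
    refine ContDiffAt.congr_of_eventuallyEq
      (f := gr2 (c.M.repF c.g e) (fun w => f (s w)) fun w => h (s w)) ?_ ?_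
    · exact (ContDiffAt.sum fun i _ => ContDiffAt.sum fun j _ => (k e he z hz j i).mul
        (((contDiffAt_dz_top a i).mul (contDiffAt_dzb_top b j)).add
          ((contDiffAt_dzb_top a j).mul (contDiffAt_dz_top b i)))).div_const 2
    · filter_upwards [(gr f h).ev c.hp he hz hs, hf.ev c.hp he hz hs, hh.ev c.hp he hz hs]
        with w h1 h2 h3
      exact (h1 (h2.differentiableAt (by simp)) (h3.differentiableAt (by simp))).symm

theorem cb (c : Sx ι X Y G) (a : Fin c.C.n) :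
    closedBall (0 : V ι) (2 * c.C.r a) ⊆ (c.C.e a).target :=
  (closedBall_subset_closedBall (by linarith [c.C.pos a])).trans (c.C.sub a)

theorem hol {f : Y → ℂ} (hf : c.Ck ∞ f) :
    ∃ L ≥ (1 : ℝ), ∀ a, Hol2 L (fun z => f (c.s a z)) (c.B a) :=
  unif (fun a => by
    obtain ⟨L, h1, h2⟩ := hol2_of_c3 (f := fun z => f (c.s a z)) (isCompact_closedBall 0 _)
      (convex_closedBall 0 _) fun z hz =>
        (hf _ (c.C.mem a) z (cb c a hz) _ (c.sec a z (cb c a hz))).of_le (WithTop.coe_le_coe.2 le_top)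
    exact ⟨L, h1, h2.subset ball_subset_closedBall⟩) fun _ _ _ h => h.mono

theorem ell (c : Sx ι X Y G) : ∃ L ≥ (1 : ℝ), ∀ a, HolM L (c.Gc a) (c.B a) ∧
    HolM L (fun z => (c.Gc a z)⁻¹) (c.B a) ∧
    ∀ z ∈ c.B a, ∀ i j, ‖fderiv ℝ (fun w => c.Gc a w i j) z‖ ≤ L := by
  obtain ⟨L, h1, h2⟩ := unif (P := fun (q : Fin c.C.n × ι × ι) L =>
    Hol L (fun z => c.Gc q.1 z q.2.1 q.2.2) (c.B q.1) ∧
    Hol L (fun z => (c.Gc q.1 z)⁻¹ q.2.1 q.2.2) (c.B q.1) ∧
    Hol L (fderiv ℝ fun z => c.Gc q.1 z q.2.1 q.2.2) (c.B q.1)) (fun ⟨a, i, j⟩ => by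
      have k := c.hg _ (c.C.mem a)
      obtain ⟨A, a1, -, a2, a3⟩ := hol1_of_c2 (f := fun z => c.Gc a z i j)
        (isCompact_closedBall 0 _) (convex_closedBall 0 _) fun z hz =>
          (k.1.1 z (cb c a hz) i j).of_le (WithTop.coe_le_coe.2 le_top)
      obtain ⟨B, b1, b2⟩ := hol_of_c1 (f := fun z => (c.Gc a z)⁻¹ i j)
        (isCompact_closedBall 0 _) (convex_closedBall 0 _) fun z hz =>
          (k.1.1.inv (fun z hz => (k.2 z hz).det_pos.ne') z (cb c a hz) i j).of_le (by simp)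
      exact ⟨A + B, by linarith, (a2.subset ball_subset_closedBall).mono (by linarith),
        (b2.subset ball_subset_closedBall).mono (by linarith),
        (a3.subset ball_subset_closedBall).mono (by linarith)⟩)
    fun _ _ _ h l => ⟨h.1.mono l, h.2.1.mono l, h.2.2.mono l⟩
  exact ⟨L, h1, fun a => ⟨fun i j => (h2 (a, i, j)).1, fun i j => (h2 (a, i, j)).2.1,
    fun z hz i j => (h2 (a, i, j)).2.2.1 z hz⟩⟩

theorem cst [ConnectedSpace Y] {f : Y → ℂ} (hf : c.Ck 1 f)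
    (h0 : ∀ y, fderiv ℝ (c.rd f y) (c.pt y) = 0) (y y' : Y) : f y = f y' := by
  refine IsLocallyConstant.apply_eq_of_preconnectedSpace
    ((IsLocallyConstant.iff_eventually_eq f).2 fun y => ?_) y y'
  obtain ⟨h1, h2, h3⟩ := self c y
  have a : ∀ᶠ w in 𝓝 (c.pt y), DifferentiableAt ℝ (c.rd f y) w ∧ fderiv ℝ (c.rd f y) w = 0 := by
    filter_upwards [h2.ev c.hp h1, (c.M.ch (c.p y)).open_target.mem_nhds h1] with w k1 k2
    exact ⟨(hf _ (c.M.ch_mem _) w k2 _ k1).differentiableAt one_ne_zero,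
      two_zero (two (c.M.ch_mem _) k2 k1).symm c.hp ((at_ _ hf).differentiableAt one_ne_zero) (h0 _)⟩
  obtain ⟨δ, hδ, hb⟩ := Metric.eventually_nhds_iff_ball.1 a
  obtain ⟨v, hv⟩ := isOpen_ball.exists_is_const_of_fderiv_eq_zero (convex_ball _ δ).isPreconnected
    (fun w hw => (hb w hw).1.differentiableWithinAt) fun w hw => (hb w hw).2
  have k := back c.hp (c.M.mem (c.p y))
  filter_upwards [k.2, k.1.eventually (ball_mem_nhds (c.pt y) hδ)] with u k1 k2
  have e1 := hv _ k2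
  have e2 := hv _ (mem_ball_self hδ)
  rw [Sx.rd, k1] at e1
  rw [Sx.rd, h3] at e2
  exact e1.trans e2.symm

end CoBas

theorem sxS : SxS := fun ι X Y G _ _ _ _ _ _ _ M g p hq hg => by
  obtain ⟨C, hC⟩ := covS ι X M (fun e => ∃ s : V ι → Y, ∀ z ∈ e.target, Sec p e z s) fun x => by
    obtain ⟨y, rfl⟩ := hq.surjective x
    obtain ⟨e, he, h1, h2⟩ := (AY.repA' ι X M).center (p y)
    have h3 := F1.ev (e.map_source h1) ((lh hq).localInverseAt y).open_source
      (by rw [e.left_inv h1]; simp)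
    rw [h2] at h3
    obtain ⟨e', k1, k2, k3, k4, k5, k6⟩ := (AY.repA' ι X M).newChart e he _ h1 id _ analyticAt_id
      h2.symm (by rw [jac_id, det_one]; exact one_ne_zero) h3
    refine ⟨e', k1, ⟨sh (lh hq) y e', fun z hz => sh_sec _ hz ?_⟩, k2, k3⟩
    have := (k4 hz).2
    rwa [← show e (e'.symm z) = z from (k6 z hz).1, e.left_inv (k5 (e'.map_target hz)),
      ← show e (e'.symm z) = z from (k6 z hz).1, show e (e'.symm z) = z from (k6 z hz).1] at this
  choose s hs using hC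
  exact ⟨⟨M, g, p, hq, hg, C, s, hs⟩, rfl, rfl, rfl⟩

open CoBas in
theorem bas {ι X Y G : Type} [Fintype ι] [DecidableEq ι] [TopologicalSpace X] [CompactSpace X]
    [TopologicalSpace Y] [ConnectedSpace Y] [Group G] [MulAction G Y] {c : Sx ι X Y G} : c.Bas where
  cov y := by
    obtain ⟨a, h1, h2⟩ := c.C.cover (c.p y)
    have h3 := (c.C.e a).map_source h1
    refine ⟨dl G (c.s a (c.C.e a (c.p y))) y, a, _, h2,
      mem_ball_zero_iff.2 (by linarith [c.C.pos a]), (dl_smul c.hq ?_).symm⟩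
    rw [sec_pt (c.sec a _ h3), (c.C.e a).left_inv h1]
  sec a z hz := ⟨c.C.ball_sub2 a hz, c.sec a z (c.C.ball_sub2 a hz),
    sec_pt (c.sec a z (c.C.ball_sub2 a hz))⟩
  self := self c
  lf := lf c
  orb := orb c
  kon a := by
    have k := c.hg _ (c.C.mem a)
    have b := c.C.ball_sub2 a
    exact ⟨⟨fun z hz => k.1.1 z (b hz), fun z hz => k.1.2.1 z (b hz), fun z hz => k.1.2.2 z (b hz)⟩,
      fun z hz => k.2 z (b hz)⟩
  ell := ell c
  gp := gp c
  lap := lap
  gr := gr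
  smul f h γ y := by
    obtain ⟨a1, a2, a3⟩ := rd_smul (c := c) f γ y
    rw [Sx.lap, Sx.lap, Sx.gr, Sx.gr, a1, a2]
    exact ⟨lapL_congr a3, gr2_congr a3 (rd_smul h γ y).2.2⟩
  loc _ _ := loc
  at_ _ _ := at_
  cont _ := cont
  dsc _ _ hf h := ⟨dsc hf h, lf_cont hf (cont (of_le h (by simp)))⟩
  max _ := max
  ck _ _ := ck
  hol _ hf := by
    obtain ⟨L, h1, h2⟩ := hol hf
    exact ⟨L, by linarith, h2⟩
  cst _ := cst

end Pool.Agent.Lib.MP_813db1_ag.VH.Co
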