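import Pool.Agent.Lib.MP_813db1_ag.AS.F12
import Pool.Agent.Lib.MP_813db1_ag.AS.SolDefs

/-! Equivariant metrics on flat bundles and equivariant maps to affine spaces: definitions. -/

namespace Pool.Agent.Lib.MP_813db1_ag.VH

open Pool.Agent.Lib.MP_813db1_ag.HS Pool.Agent.Lib.MP_813db1_ag.AS
open MeasureTheory Complex Matrix Filter Topology Set
open scoped ContDiff ComplexOrder

noncomputable section

/-! ### local calculus -/

section loc

variable {ι σ τ r : Type} [Fintype ι] [DecidableEq ι]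

/-- entrywise `dz` of a matrix. -/
def dR (F : V ι → Matrix σ τ ℂ) (k : ι) (z : V ι) : Matrix σ τ ℂ :=
  Matrix.of fun i j => dz (fun w => F w i j) k z

/-- entrywise `dzb` of a matrix. -/
def dRb (F : V ι → Matrix σ τ ℂ) (k : ι) (z : V ι) : Matrix σ τ ℂ :=
  Matrix.of fun i j => dzb (fun w => F w i j) k z

/-- entrywise `dz` of a vector. -/
def dV (F : V ι → V σ) (k : ι) (z : V ι) : V σ := fun i => dz (fun w => F w i) k z

/-- entrywise `dzb` of a vector. -/
def dVb (F : V ι → V σ) (k : ι) (z : V ι) : V σ := fun i => dzb (fun w => F w i) k z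

/-- smooth matrices. -/
def SmR (F : V ι → Matrix σ τ ℂ) (z : V ι) : Prop := ∀ i j, ContDiffAt ℝ ∞ (fun w => F w i j) z

/-- the trace of a family with respect to `g`. -/
def tg {E : Type} [AddCommMonoid E] [Module ℂ E] (g : Mat ι) (B : ι → ι → E) : E :=
  ∑ i, ∑ j, g⁻¹ j i • B i j

variable [Fintype r] [DecidableEq r]

/-- `A_k`; the Higgs field is `-A_k / 2`. -/
def ca (H : V ι → Mat r) (k : ι) (z : V ι) : Mat r := (H z)⁻¹ * dR H k z

/-- the conjugate of `A_k`. -/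
def cb (H : V ι → Mat r) (k : ι) (z : V ι) : Mat r := (H z)⁻¹ * dRb H k z

/-- the covariant complex Hessian of the metric. -/
def ph (H : V ι → Mat r) (i j : ι) (z : V ι) : Mat r :=
  (2 : ℂ) • ((H z)⁻¹ * dR (dRb H j) i z) - (ca H i z * cb H j z + cb H j z * ca H i z)

/-- the covariant complex Hessian of a vector function. -/
def px (H : V ι → Mat r) (x : V ι → V r) (i j : ι) (z : V ι) : V r :=
  (2 : ℂ) • dV (dVb x j) i z + cb H j z *ᵥ dV x i z + ca H i z *ᵥ dVb x j z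

/-- the form `tr (θ_i θ_j^*)`. -/
def tauL (H : V ι → Mat r) (z : V ι) : Mat ι :=
  Matrix.of fun i j => trace (ca H i z * cb H j z) / 4

/-- the form `H (∂_i x, ∂_j x)`. -/
def xiL (H : V ι → Mat r) (x : V ι → V r) (z : V ι) : Mat ι :=
  Matrix.of fun i j => ipV (H z) (dV x i z) (dV x j z)

end loc

/-! ### representations -/

section rep

variable {G r : Type} [Group G] [Fintype r] [DecidableEq r]

/-- real representations. -/
def RealR (ρ : G →* Mat r) : Prop := ∀ g, (ρ g).map star = ρ g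

/-- integral representations. -/
def IntR (ρ : G →* Mat r) : Prop := ∀ g i j, ∃ m : ℤ, ρ g i j = m

/-- invariant subspaces. -/
def Ivt (ρ : G →* Mat r) (W : Submodule ℂ (V r)) : Prop := ∀ g, ∀ v ∈ W, ρ g *ᵥ v ∈ W

/-- real subspaces. -/
def ReS (W : Submodule ℂ (V r)) : Prop := ∀ v ∈ W, star v ∈ W

/-- semisimple over the reals. -/
def SsR (ρ : G →* Mat r) : Prop :=
  ∀ W, ReS W → Ivt ρ W → ∃ W', ReS W' ∧ Ivt ρ W' ∧ IsCompl W W'

/-- cocycles. -/
def Coc (ρ : G →* Mat r) (c : G → V r) : Prop := ∀ g g', c (g * g') = c g + ρ g *ᵥ c g'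

end rep

/-! ### the covering space -/

variable {ι X Y G r : Type} [Fintype ι] [DecidableEq ι] [TopologicalSpace X] [TopologicalSpace Y]

/-- `P` holds on all sheets over all charts. -/
def Loc (M : Atl ι X) (p : Y → X) (P : Ch ι X → V ι → (V ι → Y) → Prop) : Prop :=
  ∀ e ∈ M.A, ∀ z ∈ e.target, ∀ s, F12.Sec p e z s → P e z s

/-- smooth functions on the covering space. -/
def Sm {E : Type} [NormedAddCommGroup E] [NormedSpace ℝ E] (M : Atl ι X) (p : Y → X) (f : Y → E) :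
    Prop :=
  Loc M p fun _ z s => ContDiffAt ℝ ∞ (f ∘ s) z

/-- smooth matrices on the covering space. -/
def SmH {σ τ : Type} (M : Atl ι X) (p : Y → X) (F : Y → Matrix σ τ ℂ) : Prop :=
  Loc M p fun _ z s => SmR (F ∘ s) z

/-- over `U` the differential of `f` vanishes on the kernel of `ζ`. -/
def Kil {E : Type} [NormedAddCommGroup E] [NormedSpace ℝ E] (M : Atl ι X) (p : Y → X)
    (ζ : X → Mat ι) (U : Set X) (f : Y → E) : Prop :=
  Loc M p fun e z s => e.symm z ∈ U → ∀ v, nV (M.repF ζ e z) v = 0 → fderiv ℝ (f ∘ s) z v = 0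

/-- a smooth one-form on the covering space: `a e y k` and `b e y k` are the coefficients of `dz_k`
and of its conjugate at `y` in the chart `e ∘ p`. -/
structure Fm1 (M : Atl ι X) (p : Y → X) (a b : Ch ι X → Y → ι → V r) : Prop where
  sma : Loc M p fun e z s => ∀ k i, ContDiffAt ℝ ∞ (fun w => a e (s w) k i) z
  smb : Loc M p fun e z s => ∀ k i, ContDiffAt ℝ ∞ (fun w => b e (s w) k i) z
  tra : ∀ e ∈ M.A, ∀ e' ∈ M.A, ∀ y, p y ∈ e.source → p y ∈ e'.source → ∀ k,
    a e y k = ∑ l, tj e e' (p y) l k • a e' y l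
  trb : ∀ e ∈ M.A, ∀ e' ∈ M.A, ∀ y, p y ∈ e.source → p y ∈ e'.source → ∀ k,
    b e y k = ∑ l, star (tj e e' (p y) l k) • b e' y l

/-- closed one-forms. -/
def Cl1 (M : Atl ι X) (p : Y → X) (a b : Ch ι X → Y → ι → V r) : Prop :=
  Loc M p fun e z s => ∀ i k,
    dV (fun w => a e (s w) i) k z = dV (fun w => a e (s w) k) i z ∧
    dVb (fun w => b e (s w) i) k z = dVb (fun w => b e (s w) k) i z ∧
    dVb (fun w => a e (s w) i) k z = dV (fun w => b e (s w) k) i z

/-- the one-form is the differential of `x`. -/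
def Dif1 (M : Atl ι X) (p : Y → X) (x : Y → V r) (a b : Ch ι X → Y → ι → V r) : Prop :=
  Loc M p fun e z s => ∀ k, dV (x ∘ s) k z = a e (s z) k ∧ dVb (x ∘ s) k z = b e (s z) k

variable [Group G] [MulAction G Y] [Fintype r] [DecidableEq r]

/-- equivariant one-forms. -/
def Eq1 (p : Y → X) (ρ : G →* Mat r) (a : Ch ι X → Y → ι → V r) : Prop :=
  ∀ (e : Ch ι X) (g : G) y, p y ∈ e.source → ∀ k, a e (g • y) k = ρ g *ᵥ a e y k

/-- a real representation with an equivariant metric. -/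
structure Dt (M : Atl ι X) (p : Y → X) (G r : Type) [Group G] [MulAction G Y] [Fintype r]
    [DecidableEq r] where
  ρ : G →* Mat r
  H : Y → Mat r
  reR : RealR ρ
  reH : ∀ y, (H y).map star = H y
  pos : ∀ y, (H y).PosDef
  eqv : ∀ (g : G) y, H (g • y) = (ρ g⁻¹)ᵀ * H y * ρ g⁻¹
  sm : SmH M p H

namespace Dt

variable {M : Atl ι X} {p : Y → X} (D : Dt M p G r)

/-- harmonic metrics. -/
def Harm (g : X → Mat ι) : Prop :=
  Loc M p fun e z s => tg (M.repF g e z) (fun i j => ph (D.H ∘ s) i j z) = 0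

/-- pluriharmonic metrics. -/
def PH : Prop :=
  Loc M p fun _ z s => (∀ i j, ph (D.H ∘ s) i j z = 0) ∧
    ∀ i k, ca (D.H ∘ s) i z * ca (D.H ∘ s) k z = ca (D.H ∘ s) k z * ca (D.H ∘ s) i z

/-- smooth maps that are equivariant for the affine action. -/
def Aff (c : G → V r) (x : Y → V r) : Prop :=
  Sm M p x ∧ ∀ (g : G) y, x (g • y) = D.ρ g *ᵥ x y + c g

/-- the twisted Laplacian of `x` is `f`. -/
def Lap (g : X → Mat ι) (x f : Y → V r) : Prop :=
  Loc M p fun e z s => tg (M.repF g e z) (fun i j => px (D.H ∘ s) (x ∘ s) i j z) = f (s z)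

/-- pluriharmonic maps. -/
def PX (x : Y → V r) : Prop :=
  Loc M p fun _ z s => (∀ i j, px (D.H ∘ s) (x ∘ s) i j z = 0) ∧
    (∀ i k, ca (D.H ∘ s) i z *ᵥ dV (x ∘ s) k z = ca (D.H ∘ s) k z *ᵥ dV (x ∘ s) i z) ∧
    ∀ i k, cb (D.H ∘ s) i z *ᵥ dVb (x ∘ s) k z = cb (D.H ∘ s) k z *ᵥ dVb (x ∘ s) i z

/-- the form of the Higgs field. -/
def Tau (τ : X → Mat ι) : Prop := Loc M p fun e z s => M.repF τ e z = tauL (D.H ∘ s) z

/-- the form of an equivariant map. -/
def Xi (x : Y → V r) (ξ : X → Mat ι) : Prop :=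
  Loc M p fun e z s => M.repF ξ e z = xiL (D.H ∘ s) (x ∘ s) z

/-- the complex structure. -/
def J (Q : Mat r) (y : Y) : Mat r := (D.H y)⁻¹ * Q

/-- a polarisation `Q` such that `∂ x` lies in the eigenspace of `J` for `I`. -/
structure Pol (Q : Mat r) (x : Y → V r) : Prop where
  re : Q.map star = Q
  alt : Qᵀ = -Q
  sq : ∀ y, D.J Q y * D.J Q y = -1
  inv : ∀ g, (D.ρ g)ᵀ * Q * D.ρ g = Q
  rx : ∀ y, star (x y) = x y
  cr : Loc M p fun _ z s => ∀ k, D.J Q (s z) *ᵥ dV (x ∘ s) k z = I • dV (x ∘ s) k z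

/-- the rigid situation. -/
structure Spl (Q : Mat r) (c : G → V r) (x : Y → V r) (h ξ : X → Mat ι) : Prop where
  aff : D.Aff c x
  pol : D.Pol Q x
  ph : D.PH
  px : D.PX x
  hol : Loc M p fun _ z s => ∀ k, ca (D.H ∘ s) k z * (1 - I • D.J Q (s z)) = 0
  k : M.IsK h
  xi : D.Xi x ξ
  cl : M.ClF ξ
  ric : ∀ a, M.ricF h a = -h a + ξ a
  par : Loc M p fun e z s => ∀ i k,
    dV (dV (x ∘ s) i) k z = ∑ m, gam (M.repF h e) k z i m • dV (x ∘ s) m z
  iso : Loc M p fun e z s => (2 : ℂ) • tg (M.repF h e z)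
    (fun i j => vecMulVec (dV (x ∘ s) i z) (dVb (x ∘ s) j z) * D.H (s z)) = 1 - I • D.J Q (s z)

end Dt

/-- all integral data and all their pluriharmonic maps are constant along the kernel of `ζ`. -/
def MaxF (M : Atl ι X) (p : Y → X) (G : Type) [Group G] [MulAction G Y] (ζ : X → Mat ι)
    (U : Set X) : Prop :=
  ∀ (r : Type) [Fintype r] [DecidableEq r] (D : Dt M p G r), IntR D.ρ → D.PH →
    (∀ i j, Kil M p ζ U fun y => D.H y i j) ∧ ∀ c x, D.Aff c x → D.PX x → Kil M p ζ U x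

/-- the maximal atlas, the covering, and the exactness of all Kaehler forms. -/
structure Cx [ChartedSpace (ι → ℂ) X] (M : Atl ι X) (p : Y → X) (G : Type) [Group G]
    [MulAction G Y] : Prop where
  sub : atlas (ι → ℂ) X ⊆ M.A
  ch : ∀ x, M.ch x = chartAt (ι → ℂ) x
  cov : IsQuotientCoveringMap p G
  ex : ∀ K : Kahler ι X, Exact K p

/-- the class of `K + σ` is a Kaehler class. -/
def KCl (M : Atl ι X) (g σ : X → Mat ι) : Prop :=
  ∃ u, M.Ck ∞ u ∧ ∀ x, (-M.ricF g x + σ x + M.ddc u x).PosDef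

/-- semipositive classes of positive volume give Kaehler classes. -/
def KB [MeasurableSpace X] (M : Atl ι X) (g : X → Mat ι) (μ : Measure X) : Prop :=
  ∀ σ, M.ClF σ → (∀ x, (σ x).PosSemidef) →
    0 < ∫ x, rat (fun y => -M.ricF g y + σ y) g x ∂μ → KCl M g σ

end

end Pool.Agent.Lib.MP_813db1_ag.VH
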