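import Pool.Agent.Lib.MP_813db1_ag.HS.AYAll
import Pool.Agent.Lib.MP_813db1_ag.VH.Defs

/-! Equivariant functions on a normal covering, linear systems and harmonic metrics:
definitions. -/

namespace Pool.Agent.Lib.MP_813db1_ag.VH.Co

open Pool.Agent.Lib.MP_813db1_ag.HS Pool.Agent.Lib.MP_813db1_ag.AS
open MeasureTheory Complex Matrix Filter Topology Set Metric
open scoped ContDiff ComplexOrder

noncomputable section

/-! ### matrices -/

section Alg

variable {r : Type} [Fintype r] [DecidableEq r]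

/-- a matrix as a vector. -/
def vec (P : Mat r) : r × r → ℂ := fun q => P q.1 q.2

/-- a vector as a matrix. -/
def mt (u : r × r → ℂ) : Mat r := Matrix.of fun i j => u (i, j)

/-- real symmetric matrices. -/
def RS (P : Mat r) : Prop := Pᵀ = P ∧ P.map star = P

/-- the real part of a Hermitian product. -/
def ip (m : Mat r) (u v : r → ℂ) : ℝ := (star u ⬝ᵥ m *ᵥ v).re

/-- the product of two forms with respect to `H`. -/
def tp (H P Q : Mat r) : ℝ := (trace (H⁻¹ * P * (H⁻¹ * Q))).re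

/-- the matrix of the product `tp H` on vectors. -/
def kr (H : Mat r) : Mat (r × r) := Matrix.of fun q q' => H⁻¹ q.1 q'.1 * H⁻¹ q'.2 q.2

/-- the right hand side of the equation. -/
def rh (l : ℝ) (H0 T0 H : Mat r) : Mat r := (l : ℂ) • (H * H0⁻¹ * H - H0) + T0

/-- its derivative in `H`. -/
def rd1 (l : ℝ) (H0 H P : Mat r) : Mat r := (l : ℂ) • (P * H0⁻¹ * H + H * H0⁻¹ * P)

/-- `-c H ≤ P ≤ c H`. -/
def Dom (c : ℝ) (H P : Mat r) : Prop :=
  ((c : ℂ) • H + P).PosSemidef ∧ ((c : ℂ) • H - P).PosSemidef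

/-- the test form of the energy estimate. -/
def tw (J : ℕ) (H0 H : Mat r) : Mat r := ∑ j ∈ Finset.range (2 * J + 1),
  ((2 ^ j / 2 ^ J : ℝ) : ℂ) • ((((1 + 2 ^ j / 2 ^ J : ℝ)⁻¹ : ℝ) : ℂ) • H⁻¹ -
    (H0 + ((2 ^ j / 2 ^ J : ℝ) : ℂ) • H)⁻¹)

variable {G : Type} [Group G]

/-- irreducible over the reals. -/
def Irr (ρ : G →* Mat r) : Prop := ∀ W, ReS W → Ivt ρ W → W = ⊥ ∨ W = ⊤

end Alg

/-! ### local operators -/

section Loc

variable {ι : Type} [Fintype ι] [DecidableEq ι] {r : Type} [Fintype r] [DecidableEq r]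

/-- entrywise differentiability. -/
def CM (k : WithTop ℕ∞) (F : V ι → Mat r) (z : V ι) : Prop :=
  ∀ i j, ContDiffAt ℝ k (fun w => F w i j) z

/-- entrywise real directional derivative. -/
def dv (F : V ι → Mat r) (v z : V ι) : Mat r := Matrix.of fun i j => fderiv ℝ (fun w => F w i j) z v

/-- the symmetric product of two gradients. -/
def gr2 (G : V ι → Mat ι) (f h : V ι → ℂ) (z : V ι) : ℂ :=
  (∑ i, ∑ j, (G z)⁻¹ j i * (dz f i z * dzb h j z + dzb f j z * dz h i z)) / 2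

/-- the entrywise Laplacian. -/
def lM (G : V ι → Mat ι) (F : V ι → Mat r) (z : V ι) : Mat r :=
  Matrix.of fun i j => lapL G (fun w => F w i j) z

/-- the contraction of `dF N dK`. -/
def qM (G : V ι → Mat ι) (F : V ι → Mat r) (N : Mat r) (K : V ι → Mat r) (z : V ι) : Mat r :=
  (1 / 2 : ℂ) • ∑ i, ∑ j, (G z)⁻¹ j i • (dR F i z * N * dRb K j z + dRb F j z * N * dR K i z)

/-- the tension field, multiplied by `H`. -/
def ten (G : V ι → Mat ι) (H : V ι → Mat r) (z : V ι) : Mat r := lM G H z - qM G H (H z)⁻¹ H z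

/-- the lower order part of its linearisation. -/
def low (G : V ι → Mat ι) (H P : V ι → Mat r) (z : V ι) : Mat r :=
  qM G H ((H z)⁻¹ * P z * (H z)⁻¹) H z - qM G P (H z)⁻¹ H z - qM G H (H z)⁻¹ P z

/-- the energy density. -/
def en (G : V ι → Mat ι) (H : V ι → Mat r) (z : V ι) : ℝ :=
  (trace ((H z)⁻¹ * qM G H (H z)⁻¹ H z)).re

/-- the energy density for the flat background. -/
def fl (H : V ι → Mat r) (z : V ι) : ℝ :=
  ∑ q : ι × Fin 2, tp (H z) (dv H (Pi.single q.1 (I ^ (q.2 : ℕ))) z)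
    (dv H (Pi.single q.1 (I ^ (q.2 : ℕ))) z)

/-- the first order part of the twisted Laplacian. -/
def hd (G : V ι → Mat ι) (H : V ι → Mat r) (x : V ι → r → ℂ) (z : V ι) : r → ℂ :=
  (H z)⁻¹ *ᵥ fun j => ∑ l, gr2 G (fun w => H w j l) (fun w => x w l) z

/-- a real frame for the Hermitian form with inverse matrix `A`. -/
structure Fr (A : Mat ι) (L : ℝ) (e : ι × Fin 2 → V ι) : Prop where
  two : ∀ (f : V ι → ℂ) (z : V ι), ContDiffAt ℝ 2 f z →
    trace (levi f z * A) = ∑ b, fderiv ℝ (fun w => fderiv ℝ f w (e b)) z (e b)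
  one : ∀ (f h : V ι → ℂ) (z : V ι), ∑ i, ∑ j, A j i * (dz f i z * dzb h j z + dzb f j z * dz h i z) =
    2 * ∑ b, fderiv ℝ f z (e b) * fderiv ℝ h z (e b)
  bd : ∀ b, ‖e b‖ ≤ L
  span : ∀ v : V ι, ∃ β : ι × Fin 2 → ℝ, (∀ b, |β b| ≤ L * ‖v‖) ∧ v = ∑ b, β b • e b

/-- entrywise Hoelder bound. -/
def HM (L : ℝ) (F : V ι → Mat r) (U : Set (V ι)) : Prop := ∀ i j, Hol L (fun z => F z i j) U

/-- entrywise first order Hoelder bound. -/
def HM1 (L : ℝ) (F : V ι → Mat r) (U : Set (V ι)) : Prop := ∀ i j, Hol1 L (fun z => F z i j) U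

/-- entrywise second order Hoelder bound. -/
def HM2 (L : ℝ) (F : V ι → Mat r) (U : Set (V ι)) : Prop := ∀ i j, Hol2 L (fun z => F z i j) U

end Loc

/-! ### the covering -/

/-- a compact Kaehler manifold, a normal covering and a cover by evenly covered balls. -/
structure Sx (ι X Y G : Type) [Fintype ι] [DecidableEq ι] [TopologicalSpace X]
    [TopologicalSpace Y] [Group G] [MulAction G Y] where
  M : Atl ι X
  g : X → Mat ι
  p : Y → X
  hq : IsQuotientCoveringMap p G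
  hg : M.IsK g
  C : Cov M
  s : Fin C.n → V ι → Y
  sec : ∀ a, ∀ z ∈ (C.e a).target, F12.Sec p (C.e a) z (s a)

/-- a real linear action on `κ → ℂ` with an invariant real subspace. -/
structure Bu (G κ : Type) [Group G] [Fintype κ] where
  α : G →* ((κ → ℂ) →L[ℝ] (κ → ℂ))
  W : Submodule ℝ (κ → ℂ)
  inv : ∀ γ, ∀ u ∈ W, α γ u ∈ W

/-- equivariant functions with values in the subspace. -/
def Bu.Sec {G κ Y : Type} [Group G] [Fintype κ] [MulAction G Y] (b : Bu G κ)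
    (v : Y → κ → ℂ) : Prop := (∀ (γ : G) y, v (γ • y) = b.α γ (v y)) ∧ ∀ y, v y ∈ b.W

/-- equivariant bilinear forms. -/
def EqH {G r Y : Type} [Group G] [Fintype r] [DecidableEq r] [MulAction G Y] (ρ : G →* Mat r)
    (H : Y → Mat r) : Prop := ∀ (γ : G) y, H (γ • y) = (ρ γ⁻¹)ᵀ * H y * ρ γ⁻¹

/-- equivariant vectors, up to the cocycle `k`. -/
def EqV {G r Y : Type} [Group G] [Fintype r] [DecidableEq r] [MulAction G Y] (ρ : G →* Mat r)
    (k : G → r → ℂ) (x : Y → r → ℂ) : Prop := ∀ (γ : G) y, x (γ • y) = ρ γ *ᵥ x y + k γ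

namespace Sx

variable {ι X Y G : Type} [Fintype ι] [DecidableEq ι] [TopologicalSpace X] [TopologicalSpace Y]
  [Group G] [MulAction G Y] (c : Sx ι X Y G) {κ r : Type} [Fintype κ] [Fintype r] [DecidableEq r]

theorem hp : IsLocalHomeomorph c.p := c.hq.isCoveringMap.isLocalHomeomorph

/-- the coordinate balls. -/
def B (a : Fin c.C.n) : Set (V ι) := ball 0 (2 * c.C.r a)

/-- the metric in the charts of the cover. -/
def Gc (a : Fin c.C.n) : V ι → Mat ι := c.M.repF c.g (c.C.e a)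

/-- a set theoretic section. -/
def lf (x : X) : Y := Function.surjInv c.hq.surjective x

/-- a function on `Y`, read near `y` in the preferred chart. -/
def rd {α : Type} (f : Y → α) (y : Y) (z : V ι) : α := f (F12.sh c.hp y (c.M.ch (c.p y)) z)

/-- the coordinates of `y`. -/
def pt (y : Y) : V ι := c.M.ch (c.p y) (c.p y)

/-- the metric near `y`. -/
def Gp (y : Y) : V ι → Mat ι := c.M.repF c.g (c.M.ch (c.p y))

/-- functions of class `C^k`. -/
def Ck (k : WithTop ℕ∞) (f : Y → ℂ) : Prop :=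
  Loc c.M c.p fun _ z σ => ContDiffAt ℝ k (fun w => f (σ w)) z

/-- vector functions of class `C^k`. -/
def CkV (k : WithTop ℕ∞) (f : Y → κ → ℂ) : Prop := ∀ j, c.Ck k fun y => f y j

/-- matrix functions of class `C^k`. -/
def CkM (k : WithTop ℕ∞) (f : Y → Mat r) : Prop := ∀ i j, c.Ck k fun y => f y i j

/-- the Laplacian. -/
def lap (f : Y → ℂ) (y : Y) : ℂ := lapL (c.Gp y) (c.rd f y) (c.pt y)

/-- the product of gradients. -/
def gr (f h : Y → ℂ) (y : Y) : ℂ := gr2 (c.Gp y) (c.rd f y) (c.rd h y) (c.pt y)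

/-- the Laplacian of a real function. -/
def lapR (f : Y → ℝ) (y : Y) : ℝ := (c.lap (fun x => (f x : ℂ)) y).re

/-- the Laplacian on vectors. -/
def lapV (v : Y → κ → ℂ) (y : Y) : κ → ℂ := fun k => c.lap (fun x => v x k) y

/-- the Laplacian on matrices. -/
def lM (F : Y → Mat r) (y : Y) : Mat r := Co.lM (c.Gp y) (c.rd F y) (c.pt y)

/-- the contraction of `dF N dK`. -/
def qM (F : Y → Mat r) (N : Mat r) (K : Y → Mat r) (y : Y) : Mat r :=
  Co.qM (c.Gp y) (c.rd F y) N (c.rd K y) (c.pt y)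

/-- the tension field. -/
def ten (H : Y → Mat r) (y : Y) : Mat r := c.lM H y - c.qM H (H y)⁻¹ H y

/-- the lower order part of its linearisation. -/
def low (H P : Y → Mat r) (y : Y) : Mat r :=
  c.qM H ((H y)⁻¹ * P y * (H y)⁻¹) H y - c.qM P (H y)⁻¹ H y - c.qM H (H y)⁻¹ P y

/-- the energy density. -/
def en (H : Y → Mat r) (y : Y) : ℝ := (trace ((H y)⁻¹ * c.qM H (H y)⁻¹ H y)).re

/-- the first order part of the twisted Laplacian. -/
def hd (H : Y → Mat r) (x : Y → r → ℂ) (y : Y) : r → ℂ :=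
  (H y)⁻¹ *ᵥ fun j => ∑ l, c.gr (fun w => H w j l) (fun w => x w l) y

/-- the twisted Laplacian. -/
def tl (H : Y → Mat r) (x : Y → r → ℂ) (y : Y) : r → ℂ := c.lapV x y + c.hd H x y

/-- bound on the sheets. -/
def Sup (P : ℝ) (v : Y → κ → ℂ) : Prop := ∀ a, ∀ z ∈ c.B a, ‖v (c.s a z)‖ ≤ P

/-- weighted Hoelder bound on the sheets. -/
def HT (t L : ℝ) (v : Y → κ → ℂ) : Prop := ∀ a k, HolT t L (fun z => v (c.s a z) k) (c.B a)

/-- Hoelder bound on the sheets. -/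
def H0 (L : ℝ) (v : Y → κ → ℂ) : Prop := ∀ a k, Hol L (fun z => v (c.s a z) k) (c.B a)

/-- first order Hoelder bound on the sheets. -/
def H1 (L : ℝ) (v : Y → κ → ℂ) : Prop := ∀ a k, Hol1 L (fun z => v (c.s a z) k) (c.B a)

/-- second order Hoelder bound on the sheets. -/
def H2 (L : ℝ) (v : Y → κ → ℂ) : Prop := ∀ a k, Hol2 L (fun z => v (c.s a z) k) (c.B a)

/-- second order Hoelder bound for a matrix function. -/
def M2 (L : ℝ) (H : Y → Mat r) : Prop := ∀ a, HM2 L (fun z => H (c.s a z)) (c.B a)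

/-- bound for the inverse of a matrix function. -/
def BI (L : ℝ) (H : Y → Mat r) : Prop := ∀ a, ∀ z ∈ c.B a, Bd L (H (c.s a z))⁻¹

/-- lower order operators. -/
structure Low (b : Bu G κ) (D : (Y → κ → ℂ) → Y → κ → ℂ) (L : ℝ) : Prop where
  sec : ∀ v N, b.Sec v → c.H2 N v → b.Sec (D v)
  add : ∀ v w N N', b.Sec v → b.Sec w → c.H2 N v → c.H2 N' w → D (v + w) = D v + D w
  smul : ∀ (t : ℝ) v N, b.Sec v → c.H2 N v → D (t • v) = t • D v
  bd : ∀ v N B, b.Sec v → c.H2 N v → c.H1 B v → c.H0 (L * B) (D v)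

/-- invariant metrics with bounds. -/
structure Met [DecidableEq κ] (b : Bu G κ) (m : Y → Mat κ) (L : ℝ) : Prop where
  herm : ∀ y, (m y).IsHermitian
  nn : ∀ y u, 0 ≤ ip (m y) u u
  inv : ∀ (γ : G) y, ∀ u ∈ b.W, ∀ v ∈ b.W, ip (m (γ • y)) (b.α γ u) (b.α γ v) = ip (m y) u v
  bd : c.M2 L m
  pos : ∀ a, ∀ z ∈ c.B a, ∀ u, ‖u‖ ^ 2 ≤ L * ip (m (c.s a z)) u u

/-- the maximum principle holds for `lapV + D`. -/
def MP [DecidableEq κ] (b : Bu G κ) (m : Y → Mat κ) (D : (Y → κ → ℂ) → Y → κ → ℂ) (μ : ℝ) : Prop :=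
  ∀ v N, b.Sec v → c.H2 N v → ∀ y, ip (m y) (v y) (c.lapV v y + D v y) ≤
    c.lapR (fun x => ip (m x) (v x) (v x)) y / 2 - μ * ip (m y) (v y) (v y)

/-- the equation `lapV v + D v = f` is solvable with the constant `K`. -/
def Solv (b : Bu G κ) (D : (Y → κ → ℂ) → Y → κ → ℂ) (K : ℝ) : Prop :=
  ∀ f B, 0 ≤ B → b.Sec f → c.H0 B f →
    ∃ v, b.Sec v ∧ c.H2 (K * B) v ∧ ∀ y, c.lapV v y + D v y = f y

/-- the uniform a priori bound. -/
def C0 (b : Bu G κ) (D : (Y → κ → ℂ) → Y → κ → ℂ) (K : ℝ) : Prop :=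
  ∀ v N B, b.Sec v → c.H2 N v → c.Sup B (fun y => c.lapV v y + D v y) → c.Sup (K * B) v

/-- smooth equivariant real metrics. -/
structure Gd (ρ : G →* Mat r) (H : Y → Mat r) : Prop where
  sm : c.CkM ∞ H
  eqv : EqH ρ H
  rs : ∀ y, RS (H y)
  pd : ∀ y, (H y).PosDef

/-- the reference metric. -/
structure Ref (ρ : G →* Mat r) (H0 : Y → Mat r) (l : ℝ) : Prop where
  rl : RealR ρ
  gd : c.Gd ρ H0
  one : 1 ≤ l
  dom : ∀ y, Dom (l - 1) (H0 y) (c.ten H0 y)

/-- solutions of the penalised equation. -/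
def Sl (ρ : G →* Mat r) (H0 : Y → Mat r) (l t : ℝ) (H : Y → Mat r) : Prop :=
  c.Gd ρ H ∧ ∀ y, c.ten H y = (t : ℂ) • rh l (H0 y) (c.ten H0 y) (H y)

/-- the lower order part of the linearised equation, on vectors. -/
def DS (H0 : Y → Mat r) (l t : ℝ) (H : Y → Mat r) (v : Y → r × r → ℂ) (y : Y) : r × r → ℂ :=
  vec (c.low H (fun x => mt (v x)) y - (t : ℂ) • rd1 l (H0 y) (H y) (mt (v y)))

/-- harmonic metrics. -/
def Har (ρ : G →* Mat r) (H : Y → Mat r) : Prop :=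
  RealR ρ ∧ c.Gd ρ H ∧ ∀ y, c.ten H y = 0

end Sx

/-- the bundle of real symmetric forms. -/
def IsBS {G r : Type} [Group G] [Fintype r] [DecidableEq r] (ρ : G →* Mat r) (b : Bu G (r × r)) :
    Prop := (∀ γ u, b.α γ u = vec ((ρ γ⁻¹)ᵀ * mt u * ρ γ⁻¹)) ∧ ∀ u, u ∈ b.W ↔ RS (mt u)

/-- the bundle of complex vectors. -/
def IsBV {G r : Type} [Group G] [Fintype r] [DecidableEq r] (ρ : G →* Mat r) (b : Bu G r) :
    Prop := (∀ γ u, b.α γ u = ρ γ *ᵥ u) ∧ b.W = ⊤

end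

end Pool.Agent.Lib.MP_813db1_ag.VH.Co
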