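import Pool.Agent.Lib.MP_813db1_ag.VH.CoBas

/-! The dictionary to the main line, the twisted Poisson equation, harmonic representatives. -/

namespace Pool.Agent.Lib.MP_813db1_ag.VH.Co

open Pool.Agent.Lib.MP_813db1_ag.HS Pool.Agent.Lib.MP_813db1_ag.AS
open MeasureTheory Complex Matrix Filter Topology Set Metric
open scoped ContDiff ComplexOrder

set_option linter.unusedSectionVars false

namespace CoHod

section loc

variable {ι r : Type} [Fintype ι] [DecidableEq ι] [Fintype r] [DecidableEq r]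

theorem lM_tg (A : V ι → Mat ι) (H : V ι → Mat r) (z : V ι) :
    lM A H z = ∑ i, ∑ j, (A z)⁻¹ j i • dR (dRb H j) i z := by
  ext a b
  simp only [lM, of_apply, CoBas.lapL_tg, tg, Matrix.sum_apply, Matrix.smul_apply]
  rfl

theorem tg_ph (A : V ι → Mat ι) (H : V ι → Mat r) (z : V ι) :
    tg (A z) (fun i j => ph H i j z) = (2 : ℂ) • ((H z)⁻¹ * ten A H z) := by
  rw [ten, lM_tg, qM, Matrix.mul_sub, smul_sub, Matrix.mul_smul, smul_smul]
  simp only [tg, ph, ca, cb, smul_sub, Finset.sum_sub_distrib, Finset.mul_sum, Finset.smul_sum,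
    Matrix.mul_smul, Matrix.mul_add, Matrix.mul_assoc, smul_smul]
  norm_num [mul_comm]

theorem tg_px (A : V ι → Mat ι) (H : V ι → Mat r) (x : V ι → V r) (z : V ι) :
    tg (A z) (fun i j => px H x i j z) =
      (2 : ℂ) • ((fun k => lapL A (fun w => x w k) z) + hd A H x z) := by
  have e1 : (fun k => lapL A (fun w => x w k) z) = ∑ i, ∑ j, (A z)⁻¹ j i • dV (dVb x j) i z := by
    ext k
    simp only [CoBas.lapL_tg, tg, Finset.sum_apply, Pi.smul_apply]
    rfl
  have e2 : (fun a => ∑ l, gr2 A (fun w => H w a l) (fun w => x w l) z) = (1 / 2 : ℂ) •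
      ∑ i, ∑ j, (A z)⁻¹ j i • (dRb H j z *ᵥ dV x i z + dR H i z *ᵥ dVb x j z) := by
    ext a
    simp only [gr2, Finset.sum_apply, Pi.smul_apply, Pi.add_apply, mulVec, dotProduct, smul_eq_mul,
      ← Finset.sum_div, ← Finset.sum_add_distrib, Finset.mul_sum, dR, dRb, dV, dVb, of_apply]
    rw [Finset.sum_comm, Finset.sum_div]
    refine Finset.sum_congr rfl fun i _ => ?_
    rw [Finset.sum_comm, Finset.sum_div]
    refine Finset.sum_congr rfl fun j _ => ?_
    rw [Finset.sum_div]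
    exact Finset.sum_congr rfl fun l _ => by ring
  rw [e1, hd, e2, smul_add, mulVec_smul, smul_smul]
  simp only [tg, px, ca, cb, smul_add, Finset.sum_add_distrib, Finset.smul_sum, mulVec_sum,
    mulVec_smul, mulVec_add, mulVec_mulVec, smul_smul, add_assoc]
  norm_num [mul_comm]

theorem gr2_left {κ : Type} [Fintype κ] (A : V ι → Mat ι) (a : κ → ℂ) {F : κ → V ι → ℂ}
    (h : V ι → ℂ) {z : V ι} (hF : ∀ j, DifferentiableAt ℝ (F j) z) :
    gr2 A (fun w => ∑ j, a j * F j w) h z = ∑ j, a j * gr2 A (F j) h z := by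
  have d : ∀ j ∈ Finset.univ, DifferentiableAt ℝ (fun w => a j * F j w) z :=
    fun j _ => (hF j).const_mul _
  simp only [gr2, dz_sum _ d, dzb_sum _ d, dz_cmul _ (hF _), dzb_cmul _ (hF _), ← mul_div_assoc,
    ← Finset.sum_div, Finset.mul_sum, Finset.sum_mul, ← Finset.sum_add_distrib]
  congr 1
  rw [Finset.sum_comm (s := (Finset.univ : Finset κ))]
  refine Finset.sum_congr rfl fun i _ => ?_
  rw [Finset.sum_comm (s := (Finset.univ : Finset κ))]
  exact Finset.sum_congr rfl fun j _ => Finset.sum_congr rfl fun l _ => by ring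

theorem gr2_right (A : V ι → Mat ι) (a b : ℂ) (f : V ι → ℂ) {h h' : V ι → ℂ} {z : V ι}
    (d : DifferentiableAt ℝ h z) (d' : DifferentiableAt ℝ h' z) :
    gr2 A f (fun w => a * h w + b * h' w) z = a * gr2 A f h z + b * gr2 A f h' z := by
  simp only [gr2, dz_add (d.const_mul a) (d'.const_mul b), dzb_add (d.const_mul a) (d'.const_mul b),
    dz_cmul _ d, dz_cmul _ d', dzb_cmul _ d, dzb_cmul _ d', ← mul_div_assoc, ← add_div,
    Finset.mul_sum, ← Finset.sum_add_distrib]
  congr 1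
  exact Finset.sum_congr rfl fun i _ => Finset.sum_congr rfl fun j _ => by ring

theorem lapL_lin (A : V ι → Mat ι) (a b : ℂ) {h h' : V ι → ℂ} {z : V ι}
    (d : ContDiffAt ℝ 2 h z) (d' : ContDiffAt ℝ 2 h' z) :
    lapL A (fun w => a * h w + b * h' w) z = a * lapL A h z + b * lapL A h' z := by
  rw [lapL, levi_add (contDiffAt_const.mul d) (contDiffAt_const.mul d'), levi_cmul _ d,
    levi_cmul _ d', Matrix.add_mul, trace_add, Matrix.smul_mul, Matrix.smul_mul, trace_smul,
    trace_smul]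
  rfl

theorem ip_ipV {H : Mat r} (h : H.map star = H) (u v : r → ℂ) : ip H u v = (ipV H u v).re := by
  have e : ∀ i j, star (H i j) = H i j := fun i j => congrFun (congrFun h i) j
  rw [ip, ← conj_re (ipV H u v)]
  congr 1
  simp only [ipV, map_sum, map_mul, dotProduct, mulVec, Finset.mul_sum, Pi.star_apply,
    starRingEnd_apply, star_star, e]
  exact Finset.sum_congr rfl fun i _ => Finset.sum_congr rfl fun j _ => by ring

theorem ipV_dot (H : Mat r) (u v : r → ℂ) : ipV H u v = u ⬝ᵥ H *ᵥ star v := by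
  simp only [ipV, dotProduct, mulVec, Finset.mul_sum, Pi.star_apply]
  exact Finset.sum_congr rfl fun i _ => Finset.sum_congr rfl fun j _ => by ring

theorem ip_dot {H : Mat r} (h : H.IsHermitian) (u v : r → ℂ) :
    ip H u v = (star v ᵥ* H ⬝ᵥ u).re := by
  rw [ip, ← conj_re, starRingEnd_apply, ← star_dotProduct_star, star_star, star_mulVec, h.eq]

theorem star_mv {A : Mat r} (h : A.map star = A) (v : r → ℂ) : star (A *ᵥ v) = A *ᵥ star v := by
  have e : ∀ i j, star (A i j) = A i j := fun i j => congrFun (congrFun h i) j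
  ext i
  simp only [Pi.star_apply, mulVec, dotProduct, star_sum, star_mul', e]

end loc

variable {ι X Y G : Type} [Fintype ι] [DecidableEq ι] [TopologicalSpace X] [TopologicalSpace Y]
  [Group G] [MulAction G Y] {c : Sx ι X Y G} {r : Type} [Fintype r] [DecidableEq r]

theorem gd (D : Dt c.M c.p G r) : c.Gd D.ρ D.H := by
  refine ⟨fun i j e he z hz s hs => D.sm e he z hz s hs i j, D.eqv, fun y => ⟨?_, D.reH y⟩, D.pos⟩
  ext i j
  exact (congrFun (congrFun (D.reH y) j) i).symm.trans ((D.pos y).isHermitian.apply i j)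

theorem two {k : WithTop ℕ∞} {f : Y → ℂ} (h : c.Ck ∞ f) (hk : k ≤ 2) : c.Ck k f :=
  CoBas.of_le h (hk.trans (by norm_cast))

theorem all_of (P : Y → Prop) (h : Loc c.M c.p fun _ z s => P (s z)) (y : Y) : P y := by
  have k := CoBas.self c y
  exact k.2.2 ▸ h _ (c.M.ch_mem _) _ k.1 _ k.2.1

theorem tl_lin (H : Y → Mat r) (a b : ℂ) {x x' : Y → r → ℂ} (h : c.CkV ∞ x) (h' : c.CkV ∞ x')
    (y : Y) : c.tl H (fun w => a • x w + b • x' w) y = a • c.tl H x y + b • c.tl H x' y := by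
  have e1 : c.lapV (fun w => a • x w + b • x' w) y = a • c.lapV x y + b • c.lapV x' y := by
    ext k
    exact lapL_lin _ a b (CoBas.at_ y (two (h k) le_rfl)) (CoBas.at_ y (two (h' k) le_rfl))
  have e2 : ∀ j l, c.gr (fun w => H w j l) (fun w => (a • x w + b • x' w) l) y =
      a * c.gr (fun w => H w j l) (fun w => x w l) y +
        b * c.gr (fun w => H w j l) (fun w => x' w l) y := fun j l =>
    gr2_right _ a b _ (sm_df (CoBas.at_ y (h l))) (sm_df (CoBas.at_ y (h' l)))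
  have e3 : c.hd H (fun w => a • x w + b • x' w) y = a • c.hd H x y + b • c.hd H x' y := by
    simp only [Sx.hd, e2, ← mulVec_smul, ← mulVec_add]
    congr 1
    ext j
    simp only [Finset.sum_add_distrib, Pi.add_apply, Pi.smul_apply, smul_eq_mul, Finset.mul_sum]
  rw [Sx.tl, e1, e3, Sx.tl, Sx.tl]
  module

theorem ck_lin (a b : ℂ) {x x' : Y → r → ℂ} (h : c.CkV ∞ x) (h' : c.CkV ∞ x') :
    c.CkV ∞ fun w => a • x w + b • x' w := fun k e he z hz s hs =>
  (contDiffAt_const.mul (h k e he z hz s hs)).add (contDiffAt_const.mul (h' k e he z hz s hs))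

theorem inv_vm {ρ : G →* Mat r} {H : Y → Mat r} (h : EqH ρ H) {v : r → ℂ}
    (hv : ∀ γ, ρ γ *ᵥ v = v) (γ : G) (y : Y) : v ᵥ* H (γ • y) ᵥ* ρ γ = v ᵥ* H y := by
  rw [h, vecMul_vecMul, Matrix.mul_assoc, ← map_mul, inv_mul_cancel, map_one, Matrix.mul_one,
    ← vecMul_vecMul, vecMul_transpose, hv]

end CoHod

open CoHod

variable {ι X Y G : Type} [Fintype ι] [DecidableEq ι] [TopologicalSpace X] [T2Space X]
  [CompactSpace X] [MeasurableSpace X] [BorelSpace X] [TopologicalSpace Y] [ConnectedSpace Y]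
  [Group G] [MulAction G Y] {c : Sx ι X Y G} {μ : Measure X}

theorem dcS (_h : Al) (hb : c.Bs) : c.DcS where
  har r _ _ D := by
    have key : Loc c.M c.p fun e z s => tg (c.M.repF c.g e z) (fun i j => ph (D.H ∘ s) i j z) =
        (2 : ℂ) • ((D.H (s z))⁻¹ * c.ten D.H (s z)) := fun e he z hz s hs => by
      beta_reduce
      rw [tg_ph (c.M.repF c.g e), ← (hb.m.rd2 r D.H D.H 0 e he z hz s hs
        fun i j => two ((gd D).sm i j) le_rfl e he z hz s hs).1]
      rfl
    refine ⟨gd D, fun h => ⟨D.reR, gd D, all_of (c := c) _ fun e he z hz s hs => ?_⟩,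
      fun h e he z hz s hs => (key e he z hz s hs).trans
        (by rw [h.2.2, Matrix.mul_zero, smul_zero])⟩
    have e1 := (key e he z hz s hs).symm.trans (h e he z hz s hs)
    rw [smul_eq_zero, or_iff_right two_ne_zero] at e1
    beta_reduce
    rw [← Matrix.mul_nonsing_inv_cancel_left (D.H (s z)) (c.ten D.H (s z))
      ((Matrix.isUnit_iff_isUnit_det _).1 (D.pos _).isUnit), e1, Matrix.mul_zero]
  mk' r _ _ ρ H h := ⟨⟨ρ, H, h.1, fun y => (h.2.1.rs y).2, h.2.1.pd, h.2.1.eqv,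
    fun e he z hz s hs i j => h.2.1.sm i j e he z hz s hs⟩, rfl, rfl⟩
  aff r _ _ D k x := ⟨fun h => ⟨h.2, fun j e he z hz s hs =>
    contDiffAt_pi.1 (h.1 e he z hz s hs) j⟩,
    fun h => ⟨fun e he z hz s hs => contDiffAt_pi.2 fun j => h.2 j e he z hz s hs, h.1⟩⟩
  lap r _ _ D x f hx := by
    have key : Loc c.M c.p fun e z s => tg (c.M.repF c.g e z)
        (fun i j => px (D.H ∘ s) (x ∘ s) i j z) = (2 : ℂ) • c.tl D.H x (s z) :=
      fun e he z hz s hs => by
        beta_reduce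
        rw [tg_px (c.M.repF c.g e), Sx.tl, ← (hb.m.rd2 r D.H D.H x e he z hz s hs
          fun i j => two ((gd D).sm i j) le_rfl e he z hz s hs).2.2.2
          fun k => two (hx k) (by norm_num) e he z hz s hs]
        congr 2
        ext k
        exact hb.a.lap (fun y => x y k) e he z hz s hs (two (hx k) le_rfl e he z hz s hs)
    exact ⟨fun h => all_of (c := c) _ fun e he z hz s hs =>
      (key e he z hz s hs).symm.trans (h e he z hz s hs),
      fun h e he z hz s hs => (key e he z hz s hs).trans (h _)⟩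

theorem poiS' (hμ : c.M.IsVol c.g μ) (h1 : c.TlS μ) (h2 : c.DcS) (r : Type) [Fintype r]
    [DecidableEq r] (D : Dt c.M c.p G r) (hD : D.Harm c.g) :
    (∀ f, D.Aff 0 f → (∀ v, (∀ γ, D.ρ γ *ᵥ v = v) → ∀ φ : X → ℂ,
      (∀ y, φ (c.p y) = ipV (D.H y) (f y) v) → ∫ a, φ a ∂μ = 0) →
      ∃ x, D.Aff 0 x ∧ D.Lap c.g x f) ∧
    ∀ x, D.Aff 0 x → D.Lap c.g x 0 → ∀ y y', x y = x y' := by
  have hH := (h2.har r D).2.1 hD
  have := ((AY.volS' ι X c.M c.g c.hg).2 μ hμ).fin
  refine ⟨fun f hf ho => ?_, fun x hx hl => ?_⟩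
  · obtain ⟨f1, f2⟩ := (h2.aff r D 0 f).1 hf
    obtain ⟨x, x1, x2, x3⟩ := h1.sol r D.ρ D.H hH (fun y => (1 / 2 : ℂ) • f y)
      (fun γ y => by beta_reduce; rw [f1 γ y, mulVec_smul]; simp)
      (fun k e he z hz s hs => contDiffAt_const.mul (f2 k e he z hz s hs)) fun v hv => by
        have hi : ∀ (γ : G) y, ipV (D.H (γ • y)) (f (γ • y)) v = ipV (D.H y) (f y) v := fun γ y => by
          have hs : ∀ γ, D.ρ γ *ᵥ star v = star v := fun γ => by rw [← star_mv (D.reR γ), hv]
          have ht : ∀ y u, u ⬝ᵥ D.H y *ᵥ star v = star v ᵥ* D.H y ⬝ᵥ u := fun y u => by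
            rw [dotProduct_comm, ← mulVec_transpose, (hH.2.1.rs y).1]
          rw [ipV_dot, ipV_dot, ht, ht, f1 γ y, Pi.zero_apply, add_zero, dotProduct_mulVec,
            inv_vm D.eqv hs]
        have hc : Continuous fun y => ipV (D.H y) (f y) v := by
          unfold ipV
          exact continuous_finsetSum _ fun i _ => continuous_finsetSum _ fun j _ =>
            ((CoBas.cont (two (hH.2.1.sm i j) zero_le)).mul (CoBas.cont (two (f2 i) zero_le))).mul continuous_const
        have i1 := (CoBas.lf_cont (c := c) hi hc).integrable_of_hasCompactSupport (μ := μ)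
          (HasCompactSupport.of_compactSpace _)
        have e := ho v hv (fun a => ipV (D.H (c.lf a)) (f (c.lf a)) v)
          (CoBas.lf_inv (f := fun y => ipV (D.H y) (f y) v) hi)
        have e2 : ∀ y, ip (D.H y) ((1 / 2 : ℂ) • f y) v = (ipV (D.H y) (f y) v).re / 2 := fun y => by
          rw [ip_ipV (D.reH y), ipV_dot, ipV_dot, smul_dotProduct]
          simp [div_eq_inv_mul]
        have e3 := integral_re i1
        rw [e] at e3
        simp only [e2]
        rw [integral_div, show ∫ a, (ipV (D.H (c.lf a)) (f (c.lf a)) v).re ∂μ = 0 from e3, zero_div]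
    refine ⟨x, (h2.aff r D 0 x).2 ⟨x1, x2⟩, (h2.lap r D x f x2).2 fun y => ?_⟩
    rw [x3, smul_smul]
    norm_num
  · obtain ⟨x1, x2⟩ := (h2.aff r D 0 x).1 hx
    exact h1.ker r D.ρ D.H D.reR hH.2.1 x x1 (fun k => two (x2 k) le_rfl) fun y =>
      (smul_eq_zero.1 ((h2.lap r D x 0 x2).1 hl y)).resolve_left two_ne_zero

theorem hodS' (_h : Al) (hb : c.Bs) (hμ : c.M.IsVol c.g μ) (h1 : c.TlS μ) (h2 : c.DcS)
    (h3 : c.AvS) (h4 : c.GrS μ) (r : Type) [Fintype r] [DecidableEq r] (D : Dt c.M c.p G r)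
    (hD : D.Harm c.g) (k : G → V r) (hk : Coc D.ρ k) :
    ∃ x, D.Aff k x ∧ D.Lap c.g x 0 ∧ ((∀ γ, star (k γ) = k γ) → ∀ y, star (x y) = x y) := by
  have hH := (h2.har r D).2.1 hD
  have := ((AY.volS' ι X c.M c.g c.hg).2 μ hμ).fin
  have hd : ∀ y, (D.H y).det ≠ 0 := fun y => (D.pos y).det_pos.ne'
  have h2H : c.CkM 2 D.H := fun i j => two (hH.2.1.sm i j) le_rfl
  obtain ⟨n, χ, δ, -, c2, c3, c4⟩ := h3
  obtain ⟨u, u1, u2⟩ : ∃ u, EqV D.ρ k u ∧ c.CkV ∞ u := by
    refine ⟨fun y => ∑ a, (χ a y : ℂ) • k (δ a y), fun γ y => ?_, fun j e he z hz s hs => ?_⟩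
    · have e : k γ = ∑ a, (χ a y : ℂ) • k γ := by
        rw [← Finset.sum_smul, ← ofReal_sum, c2, ofReal_one, one_smul]
      rw [mulVec_sum, e, ← Finset.sum_add_distrib]
      refine Finset.sum_congr rfl fun a _ => ?_
      rw [(c3 a γ y).1]
      by_cases h0 : χ a y = 0
      · simp [h0]
      · rw [(c3 a γ y).2 h0, hk, mulVec_smul, smul_add, add_comm]
    · simp only [Finset.sum_apply, Pi.smul_apply, smul_eq_mul]
      exact ContDiffAt.sum fun a _ => c4 a (fun γ => k γ j) e he z hz s hs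
  have u3 := (hb.m.eqv r D.ρ D.H D.H D.eqv h2H hd).2.2.2 k u u1 fun j => two (u2 j) le_rfl
  obtain ⟨w, w1, w2, w3⟩ := h1.sol r D.ρ D.H hH (fun y => -c.tl D.H u y)
    (fun γ y => by
      beta_reduce
      rw [Sx.tl, Sx.tl, u3.1 γ y, u3.2 γ y, mulVec_neg, mulVec_add]; simp)
    (fun j e he z hz s hs => ((hb.m.sm r D.H hH.2.1.sm hd).2.2.1 u u2 j e he z hz s hs).neg)
    fun v hv => by
      have hs : ∀ γ, D.ρ γ *ᵥ star v = star v := fun γ => by rw [← star_mv (D.reR γ), hv]
      obtain ⟨g1, g2⟩ := h4.vec r u (fun y => star v ᵥ* D.H y) D.ρ k (fun j => two (u2 j) le_rfl)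
        (fun j e he z hz s hs => ContDiffAt.sum fun i _ =>
          contDiffAt_const.mul (two (hH.2.1.sm i j) (by norm_num) e he z hz s hs))
        fun γ y => ⟨u1 γ y, inv_vm D.eqv hs γ y⟩
      have e : ∀ y, ip (D.H y) (-c.tl D.H u y) v = -(∑ j, ((star v ᵥ* D.H y) j * c.lapV u y j +
          c.gr (fun y => (star v ᵥ* D.H y) j) (fun y => u y j) y)).re := fun y => by
        have e1 : ∀ j, c.gr (fun y => (star v ᵥ* D.H y) j) (fun y => u y j) y =
            ∑ i, star v i * c.gr (fun y => D.H y i j) (fun y => u y j) y := fun j =>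
          gr2_left _ (star v) _ fun i => sm_df (CoBas.at_ y (hH.2.1.sm i j))
        rw [ip_dot (D.pos y).isHermitian, dotProduct_neg, neg_re, Sx.tl, dotProduct_add, Sx.hd,
          dotProduct_mulVec, vecMul_vecMul, Matrix.mul_nonsing_inv _ (hd y).isUnit, vecMul_one,
          Finset.sum_add_distrib]
        simp only [e1, dotProduct, Finset.mul_sum]
        rw [Finset.sum_comm]
      have e3 := integral_re (g1.integrable_of_hasCompactSupport (μ := μ)
        (HasCompactSupport.of_compactSpace _))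
      rw [g2] at e3
      simp only [e]
      rw [integral_neg, neg_eq_zero]
      exact e3
  obtain ⟨x, x1, x2, x3⟩ : ∃ x, EqV D.ρ k x ∧ c.CkV ∞ x ∧ ∀ y, c.tl D.H x y = 0 :=
    ⟨fun y => (1 : ℂ) • u y + (1 : ℂ) • w y, fun γ y => by
      beta_reduce; rw [u1 γ y, w1 γ y]; simp [mulVec_add, add_right_comm], ck_lin 1 1 u2 w2,
      fun y => by rw [tl_lin _ _ _ u2 w2, w3]; simp⟩
  have fin : ∀ x, EqV D.ρ k x → c.CkV ∞ x → (∀ y, c.tl D.H x y = 0) → D.Aff k x ∧ D.Lap c.g x 0 :=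
    fun x a b d => ⟨(h2.aff r D k x).2 ⟨a, b⟩, (h2.lap r D x 0 b).2 fun y => by simp [d]⟩
  by_cases hr : ∀ γ, star (k γ) = k γ
  · have x4 : c.CkV ∞ fun y => star (x y) := fun j e he z hz s hs =>
      (conjCLE.contDiff.contDiffAt).comp z (x2 j e he z hz s hs)
    obtain ⟨a, b⟩ := fin (fun y => (1 / 2 : ℂ) • x y + (1 / 2 : ℂ) • star (x y)) (fun γ y => by
      beta_reduce
      rw [x1 γ y, star_add, star_mv (D.reR γ), hr, mulVec_add, mulVec_smul, mulVec_smul]
      module) (ck_lin _ _ x2 x4) fun y => by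
        rw [tl_lin _ _ _ x2 x4, (hb.m.rs r D.H D.H h2H hH.2.1.rs).2.2 x (fun j => two (x2 j) le_rfl), x3]
        simp
    exact ⟨_, a, b, fun _ y => by simp [add_comm]⟩
  · exact ⟨x, (fin x x1 x2 x3).1, (fin x x1 x2 x3).2, fun h => (hr h).elim⟩

end Pool.Agent.Lib.MP_813db1_ag.VH.Co
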