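import Pool.Agent.Lib.MP_813db1_ag.VH.CoStmt

/-! The limit of the solutions of the penalised equation, and the irreducible case. -/

namespace Pool.Agent.Lib.MP_813db1_ag.VH.Co

open Pool.Agent.Lib.MP_813db1_ag.HS Pool.Agent.Lib.MP_813db1_ag.AS
open Complex Matrix Filter Topology Set Metric
open scoped ContDiff ComplexOrder

namespace Lm

variable {ι r : Type} [Fintype ι] [DecidableEq ι] [Fintype r] [DecidableEq r]

theorem jet (h : ItS) {R B : ℝ} {F : ℕ → V ι → ℂ} {f : V ι → ℂ} {l : Filter ℕ}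
    (hF : ∀ j, Hol2 B (F j) (ball 0 R)) (hf : Hol2 B f (ball 0 R))
    (hu : ∀ δ > (0 : ℝ), ∀ᶠ j in l, ∀ z ∈ ball (0 : V ι) R, ‖F j z - f z‖ ≤ δ) {z : V ι}
    (hz : z ∈ ball (0 : V ι) R) : Tendsto (fun j => fderiv ℝ (F j) z) l (𝓝 (fderiv ℝ f z)) ∧
      ∀ i k, Tendsto (fun j => leviL i k (fderiv ℝ (fderiv ℝ (F j)) z)) l
        (𝓝 (leviL i k (fderiv ℝ (fderiv ℝ f) z))) := by
  have hR : 0 < R := pos_of_mem_ball hz
  have hB := hf.nonneg hz
  have key : ∀ ε > (0 : ℝ), ∀ᶠ j in l, ‖fderiv ℝ (F j) z - fderiv ℝ f z‖ < ε ∧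
      ‖fderiv ℝ (fderiv ℝ (F j)) z - fderiv ℝ (fderiv ℝ f) z‖ < ε := fun ε hε => by
    obtain ⟨C, hC, k⟩ := h.itp ι R (ε / (4 * (B + B + 1))) hR (by positivity)
    filter_upwards [hu (ε / (4 * (C + 1))) (by positivity)] with j hj
    obtain ⟨k1, k2⟩ := k _ _ _ ((hF j).sub hf) hj
    obtain ⟨e1, e2⟩ := Cau.fd_sub isOpen_ball (hF j).1 hf.1
    have a1 : ε / (4 * (B + B + 1)) * (B + B) ≤ ε / 4 := by
      rw [div_mul_eq_mul_div, div_le_div_iff₀ (by positivity) (by positivity)]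
      nlinarith
    have a2 : C * (ε / (4 * (C + 1))) ≤ ε / 4 := by
      rw [← mul_div_assoc, div_le_div_iff₀ (by positivity) (by positivity)]
      nlinarith
    rw [← e1 z hz, ← e2 z hz]
    exact ⟨by linarith [k1.2.2.1 z hz], by linarith [k2 z hz]⟩
  refine ⟨Metric.tendsto_nhds.2 fun ε hε => (key ε hε).mono fun j hj => ?_,
    fun i k => Metric.tendsto_nhds.2 fun ε hε => (key ε hε).mono fun j hj => ?_⟩
  · rw [dist_eq_norm]; exact hj.1
  · rw [dist_eq_norm, ← map_sub]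
    exact (norm_leviL i k _).trans_lt (by rw [one_mul]; exact hj.2)

theorem inv {H : ℕ → Mat r} {K : Mat r} {l : Filter ℕ} (h : Tendsto H l (𝓝 K)) (hK : K.det ≠ 0) :
    Tendsto (fun j => (H j)⁻¹) l (𝓝 K⁻¹) := by
  refine (continuousAt_matrix_inv K ?_).tendsto.comp h
  rw [Ring.inverse_eq_inv']
  exact continuousAt_inv₀ hK

theorem ten_lim (h : DvS) (G : V ι → Mat ι) {H : ℕ → V ι → Mat r} {K : V ι → Mat r}
    {l : Filter ℕ} {z : V ι} (c1 : ∀ j, CM 2 (H j) z) (c2 : CM 2 K z) (hK : (K z).det ≠ 0)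
    (h0 : Tendsto (fun j => H j z) l (𝓝 (K z)))
    (h1 : ∀ a b, Tendsto (fun j => fderiv ℝ (fun w => H j w a b) z) l
      (𝓝 (fderiv ℝ (fun w => K w a b) z)))
    (h2 : ∀ a b i k, Tendsto (fun j => leviL i k (fderiv ℝ (fderiv ℝ fun w => H j w a b) z)) l
      (𝓝 (leviL i k (fderiv ℝ (fderiv ℝ fun w => K w a b) z)))) (a b : r) :
    Tendsto (fun j => ten G (H j) z a b) l (𝓝 (ten G K z a b)) := by
  have hi := inv h0 hK
  have d1 : ∀ a b i, Tendsto (fun j => dz (fun w => H j w a b) i z) l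
      (𝓝 (dz (fun w => K w a b) i z)) := fun a b i => by
    simp only [dz_eq]
    exact ((dzL i).continuous.tendsto _).comp (h1 a b)
  have d2 : ∀ a b i, Tendsto (fun j => dzb (fun w => H j w a b) i z) l
      (𝓝 (dzb (fun w => K w a b) i z)) := fun a b i => by
    simp only [dzb_eq]
    exact ((dzbL i).continuous.tendsto _).comp (h1 a b)
  simp only [ten, Matrix.sub_apply, h.ent]
  refine Tendsto.sub ?_ (tendsto_finsetSum _ fun p _ => tendsto_finsetSum _ fun q _ =>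
    ((tendsto_pi_nhds.1 (tendsto_pi_nhds.1 hi p) q).mul ?_))
  · simp only [lM, of_apply, lapL, trace, diag, Matrix.mul_apply, levi_eq (c1 _ a b),
      levi_eq (c2 a b)]
    exact tendsto_finsetSum _ fun i _ => tendsto_finsetSum _ fun k _ => (h2 a b i k).mul_const _
  · simp only [gr2]
    exact (tendsto_finsetSum _ fun i _ => tendsto_finsetSum _ fun k _ =>
      (((d1 a p i).mul (d2 q b k)).add ((d2 a p k).mul (d1 q b i))).const_mul _).div_const _

omit [Fintype r] [DecidableEq r] in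
theorem herm {P : Mat r} (h : RS P) : P.IsHermitian := by
  rw [IsHermitian, conjTranspose, h.1, h.2]

theorem pd {G : Type} [Group G] {ρ : G →* Mat r} (hρ : RealR ρ) (γ : G) {P : Mat r}
    (h : P.PosDef) : ((ρ γ)ᵀ * P * ρ γ).PosDef := by
  have e : (ρ γ)ᵀ = (ρ γ)ᴴ := by
    rw [conjTranspose, transpose_map, hρ γ]
  rw [e]
  refine h.conjTranspose_mul_mul_same (mulVec_injective_iff_isUnit.2 ?_)
  exact (Group.isUnit γ).map ρ

end Lm

variable {ι X Y G : Type} [Fintype ι] [DecidableEq ι] [TopologicalSpace X] [TopologicalSpace Y]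
  [Group G] [MulAction G Y] {c : Sx ι X Y G}

theorem lmS (h : Al) (hb : c.Bs) (h1 : c.RgS) : c.LmS := by
  intro r _ _ ρ H0 l L t H hR ht hH
  obtain ⟨-, k1, k2⟩ := hb.m.bs r ρ
  obtain ⟨b, hb1⟩ := k1 hR.rl
  obtain ⟨u, u1, u2, u3, u4⟩ := hb.b.ult (r × r) b (fun j y => vec (H j y)) L (hyperfilter ℕ)
    fun j => ⟨(k2 b hb1 _).2 ⟨(hH j).1.1.eqv, (hH j).1.1.rs⟩, fun a q => (hH j).2.1 a q.1 q.2⟩
  obtain ⟨e1, e2⟩ := (k2 b hb1 u).1 u1
  have hl : (hyperfilter ℕ : Filter ℕ) ≤ atTop := Nat.cofinite_eq_atTop ▸ hyperfilter_le_cofinite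
  have lim : ∀ y, Tendsto (fun j => H j y) (hyperfilter ℕ) (𝓝 (mt (u y))) := fun y =>
    tendsto_pi_nhds.2 fun i => tendsto_pi_nhds.2 fun k => tendsto_pi_nhds.1 (u3 y) (i, k)
  have un : ∀ a i k, ∀ δ > (0 : ℝ), ∀ᶠ j in hyperfilter ℕ, ∀ z ∈ c.B a,
      ‖H j (c.s a z) i k - mt (u (c.s a z)) i k‖ ≤ δ := fun a i k δ hδ =>
    (u4 δ hδ).mono fun j hj z hz => (norm_le_pi_norm _ (i, k)).trans (hj a z hz)
  have p1 : ∀ a, ∀ z ∈ c.B a, (mt (u (c.s a z))).PosDef := fun a z hz => by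
    obtain ⟨ε, hε, C, k⟩ := h.tp.pos r L
    obtain ⟨j, hj⟩ := (u4 ε hε).exists
    have := (k (H j (c.s a z)) (mt (u (c.s a z)) - H j (c.s a z)) ((hH j).1.1.pd _)
      ((Lm.herm (e2 _)).sub (Lm.herm ((hH j).1.1.rs _))) ((hH j).2.2 a z hz) fun i k => by
        rw [Matrix.sub_apply, norm_sub_rev]
        exact (norm_le_pi_norm _ (i, k)).trans (hj a z hz)).1
    rwa [add_sub_cancel] at this
  have p2 : ∀ y, (mt (u y)).PosDef := fun y => by
    obtain ⟨γ, a, z, -, hz, rfl⟩ := hb.a.cov y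
    rw [show mt (u (γ • c.s a z)) = _ from e1 γ (c.s a z)]
    exact Lm.pd hR.rl _ (p1 a z hz)
  have m2 : c.M2 L fun y => mt (u y) := fun a i k => u2 a (i, k)
  have s := h1.met r ρ H0 l 0 L (fun y => mt (u y)) hR.gd e1 (fun y => ⟨e2 y, p2 y⟩) m2
    fun a z hz => by
      obtain ⟨z1, z2, -⟩ := hb.a.sec a z hz
      have rd := fun (F : Y → Mat r) (hF : c.M2 L F) =>
        (hb.m.rd2 r F F (fun _ _ => 0) _ (c.C.mem a) z z1 _ z2 fun i k => (hF a i k).1 z hz).1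
      have jt := fun i k => Lm.jet h.it (fun j => (hH j).2.1 a i k) (m2 a i k) (un a i k) hz
      have a1 := Lm.ten_lim h.dv (c.M.repF c.g (c.C.e a)) (H := fun j w => H j (c.s a w))
        (K := fun w => mt (u (c.s a w))) (fun j i k => ((hH j).2.1 a i k).1 z hz)
        (fun i k => (m2 a i k).1 z hz) (p1 a z hz).det_pos.ne' (lim _) (fun i k => (jt i k).1)
        fun i k => (jt i k).2
      have a2 : Tendsto (fun j => ((t j : ℝ) : ℂ) • rh l (H0 (c.s a z)) (c.ten H0 (c.s a z))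
          (H j (c.s a z))) (hyperfilter ℕ) (𝓝 (((0 : ℝ) : ℂ) • rh l (H0 (c.s a z))
            (c.ten H0 (c.s a z)) (mt (u (c.s a z))))) :=
        ((continuous_ofReal.tendsto _).comp (ht.mono_left hl)).smul
          ((((((lim _).mul_const _).mul (lim _)).sub_const _).const_smul _).add_const _)
      ext i k
      refine tendsto_nhds_unique ?_ (tendsto_pi_nhds.1 (tendsto_pi_nhds.1 a2 i) k)
      rw [← rd _ m2]
      refine (a1 i k).congr fun j => ?_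
      rw [rd _ (hH j).2.1, (hH j).1.2]
  exact ⟨_, hR.rl, s.1, fun y => by rw [s.2 y]; simp⟩

theorem ciS (h1 : c.RefS) (h2 : c.ScS) (h3 : c.GdS) (h4 : c.PrS) (h5 : c.ApS) (h6 : c.OpS)
    (h7 : c.LmS) : c.CiS := by
  intro r _ _ ρ hρ hi
  obtain ⟨H0, l, hR⟩ := h1 r ρ hρ
  obtain ⟨E, hE⟩ := h3 r ρ H0 l hR
  obtain ⟨L, hL⟩ := h4 r ρ H0 E (2 * l) hρ hi hR.gd
  obtain ⟨K, hK⟩ := h5 r ρ H0 l L hR
  have bd : ∀ t ∈ Ioc (0 : ℝ) 1, ∀ H, c.Sl ρ H0 l t H → c.M2 (max L K) H ∧ c.BI (max L K) H :=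
    fun t ht H hH => by
      obtain ⟨s1, s2⟩ := h2 r ρ H0 l hR t ht H hH
      obtain ⟨b1, b2⟩ := hL H hH.1 (hE t ht H hH) s1 s2
      exact ⟨fun a i j => (hK t ht H hH b1 b2 a i j).mono (le_max_right _ _),
        fun a z hz i j => (b1 a z hz i j).trans (le_max_left _ _)⟩
  have ex : ∀ t0 ∈ Ioc (0 : ℝ) 1, ∃ H, c.Sl ρ H0 l t0 H := fun t0 ht0 => by
    obtain ⟨δ, hδ, k⟩ := h6 r ρ H0 l (max L K) t0 hR ht0.1
    have all : ∀ n : ℕ, ∀ t ∈ Icc t0 1, 1 - t ≤ n * δ → ∃ H, c.Sl ρ H0 l t H := fun n => by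
      induction n with
      | zero =>
        intro t ht h
        obtain rfl : t = 1 := le_antisymm ht.2 (by simpa using h)
        refine ⟨H0, hR.gd, fun y => ?_⟩
        rw [rh, mul_nonsing_inv _ ((isUnit_iff_isUnit_det _).1 (hR.gd.pd y).isUnit)]
        simp
      | succ n ih =>
        intro t ht h
        have s1 : t ≤ min 1 (t + δ) := le_min ht.2 (by linarith)
        have s2 : min 1 (t + δ) ∈ Icc t0 1 := ⟨ht.1.trans s1, min_le_left _ _⟩
        obtain ⟨H, hH⟩ := ih _ s2 (by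
          have : (0 : ℝ) ≤ n * δ := by positivity
          push_cast at h
          rcases min_choice 1 (t + δ) with e | e <;> rw [e] <;> linarith)
        obtain ⟨b1, b2⟩ := bd _ ⟨ht0.1.trans_le s2.1, s2.2⟩ H hH
        refine k _ s2 H hH b1 b2 t ?_
        rw [abs_sub_comm, abs_of_nonneg (sub_nonneg.2 s1)]
        linarith [min_le_right 1 (t + δ)]
    obtain ⟨n, hn⟩ := exists_nat_ge ((1 - t0) / δ)
    exact all n t0 ⟨le_rfl, ht0.2⟩ ((div_le_iff₀ hδ).1 hn)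
  have hm : ∀ j : ℕ, 1 / ((j : ℝ) + 1) ∈ Ioc (0 : ℝ) 1 := fun j =>
    ⟨by positivity, (div_le_one (by positivity)).2 (by linarith [Nat.cast_nonneg (α := ℝ) j])⟩
  choose H hH using fun j => ex _ (hm j)
  exact h7 r ρ H0 l (max L K) _ H hR tendsto_one_div_add_atTop_nhds_zero_nat
    fun j => ⟨hH j, bd _ (hm j) _ (hH j)⟩

end Pool.Agent.Lib.MP_813db1_ag.VH.Co
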