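import Pool.Agent.Lib.MP_813db1_ag.VH.CoLm

/-! The set of parameters for which the penalised equation is solvable is open. -/

namespace Pool.Agent.Lib.MP_813db1_ag.VH.Co

open Pool.Agent.Lib.MP_813db1_ag.HS Pool.Agent.Lib.MP_813db1_ag.AS
open Complex Matrix Filter Topology Set Metric
open scoped ContDiff ComplexOrder

noncomputable section

namespace Op

set_option linter.unusedSectionVars false

variable {ι r : Type} [Fintype ι] [DecidableEq ι] [Fintype r] [DecidableEq r]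
  {U : Set (V ι)} {a b : ℝ} {F K : V ι → Mat r}

theorem hadd (h : HM a F U) (h' : HM b K U) : HM (a + b) (fun z => F z + K z) U :=
  fun i j => (h i j).add (h' i j)

theorem hsub (h : HM a F U) (h' : HM b K U) : HM (a + b) (fun z => F z - K z) U :=
  fun i j => (h i j).sub (h' i j)

theorem hneg (h : HM a F U) : HM a (fun z => -F z) U := fun i j => (h i j).neg

theorem hsm (h : HM a F U) (t : ℝ) (ht : |t| ≤ b) (ha : 0 ≤ a) :
    HM (b * a) (fun z => (t : ℂ) • F z) U := fun i j =>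
  ((h i j).const_mul t).mono (mul_le_mul_of_nonneg_right (by rwa [norm_real]) ha)

theorem hmo (h : HM a F U) (e : a ≤ b) : HM b F U := fun i j => (h i j).mono e

theorem hco (h : HM a F U) (e : ∀ z ∈ U, K z = F z) : HM a K U :=
  fun i j => (h i j).congr fun z hz => by rw [e z hz]

theorem lM_add (G : V ι → Mat ι) {z : V ι} (h : CM 2 F z) (h' : CM 2 K z) :
    lM G (fun x => F x + K x) z = lM G F z + lM G K z := by
  ext i j
  simp only [lM, of_apply, Matrix.add_apply, lapL, levi_add' (h i j) (h' i j), Matrix.add_mul,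
    trace_add]

/-- the defect of the equation in a chart. -/
def df (G : V ι → Mat ι) (l t : ℝ) (A T K : V ι → Mat r) (z : V ι) : Mat r :=
  ten G K z - (t : ℂ) • rh l (A z) (T z) (K z)

theorem est (h : HmS) (h1 : NlL) (ι r : Type) [Fintype ι] [DecidableEq ι] [Fintype r]
    [DecidableEq r] (L : ℝ) {l : ℝ} (hl : 0 ≤ l) : ∃ C ≥ (0 : ℝ), ∀ (U : Set (V ι))
    (G : V ι → Mat ι) (A T H P w : V ι → Mat r) (ε d t t' : ℝ), IsOpen U → 0 ≤ ε → ε ≤ 1 → 0 ≤ d →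
    |t'| ≤ 2 → |t' - t| ≤ ε → HolM L (fun z => (G z)⁻¹) U → HM L (fun z => (A z)⁻¹) U →
    HM2 L H U → HM2 ε P U → HM2 d w U → HM2 ε w U →
    (∀ z ∈ U, (H z).det ≠ 0 ∧ Bd L (H z)⁻¹ ∧ (H z + P z).det ≠ 0 ∧
      Bd L (H z + P z)⁻¹ ∧ (H z + P z + w z).det ≠ 0 ∧ Bd L (H z + P z + w z)⁻¹) →
    HM (C * ε * d) (fun z => df G l t' A T (fun x => H x + P x + w x) z -
      df G l t' A T (fun x => H x + P x) z -
        (lM G w z + (low G H w z - (t : ℂ) • rd1 l (A z) (H z) (w z)))) U ∧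
    HM (C * d) (fun z => df G l t' A T (fun x => H x + P x + w x) z -
      df G l t' A T (fun x => H x + P x) z) U := by
  obtain ⟨C, hC, k⟩ := h1 ι r L
  obtain ⟨D, hD, k'⟩ := h.lap ι L
  obtain ⟨E, hE, e⟩ : ∃ E ≥ (0 : ℝ), E = 8 * (Fintype.card r : ℝ) ^ 2 * L ^ 2 :=
    ⟨_, by positivity, rfl⟩
  refine ⟨D + C + 2 * (l * C) + 2 * (l * E), by positivity,
    fun U G A T H P w ε d t t' hU e0 e1 d0 t1 t2 hG hA hH hP hw hw' hi => ?_⟩
  obtain ⟨k1, k2, k3⟩ := k U G (fun z => (A z)⁻¹) H P w ε d hU e0 e1 d0 hG hA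
    (fun i j => (hH i j).hol1) (fun i j => (hP i j).hol1) (fun i j => (hw i j).hol1)
    (fun i j => (hw' i j).hol1) hi
  have H0 : HM L H U := fun i j => (hH i j).2.1
  have w0 : HM d w U := fun i j => (hw i j).2.1
  have k4 : HM (E * d) (fun z => w z * (A z)⁻¹ * H z + H z * (A z)⁻¹ * w z) U :=
    hmo (hadd ((h.mul ι r U _ _ _ _).1 ((h.mul ι r U _ _ _ _).1 w0 hA) H0)
      ((h.mul ι r U _ _ _ _).1 ((h.mul ι r U _ _ _ _).1 H0 hA) w0)) (by rw [e]; exact le_of_eq (by ring))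
  have k5 : HM (D * d) (lM G w) U := fun i j => k' U G _ d hG (hw i j)
  have ea : ∀ z ∈ U, lM G (fun x => H x + P x + w x) z = lM G (fun x => H x + P x) z + lM G w z :=
    fun z hz => lM_add G (fun i j => ((hH i j).1 z hz).add ((hP i j).1 z hz))
      fun i j => (hw i j).1 z hz
  have l1 : |l| ≤ l := (abs_of_nonneg hl).le
  have a2 := hsm (hsm k2 l l1 (by positivity)) t' t1 (by positivity)
  have a4 := hsm k4 l l1 (by positivity)
  have p1 : 0 ≤ ε * d := by positivity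
  have p2 : ε * d ≤ d := mul_le_of_le_one_left d0 e1
  refine ⟨hco (hmo (hsub (hsub (hneg k1) a2) (hsm a4 _ t2 (by positivity))) ?_) fun z hz => ?_,
    hco (hmo (hsub (hsub (hsub k5 k3) a2) (hsm a4 _ t1 (by positivity))) ?_) fun z hz => ?_⟩
  · nlinarith [mul_nonneg hD p1, mul_nonneg (mul_nonneg hl hE) p1]
  · simp only [df, ten, ea z hz, rh, rd1, ofReal_sub]
    module
  · nlinarith [mul_le_mul_of_nonneg_left p2 (mul_nonneg hl hC)]
  · simp only [df, ten, ea z hz, rh]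
    module

theorem rs {P : Mat r} (h1 : Pᵀ = P) (h2 : P.IsHermitian) : RS P :=
  ⟨h1, by rwa [IsHermitian, conjTranspose, h1] at h2⟩

theorem rs_df {S A T H : Mat r} (l t : ℝ) (hS : RS S) (hA : RS A) (hT : RS T) (hH : RS H) :
    RS (S - (t : ℂ) • rh l A T H) := by
  refine rs ?_ ?_
  · simp only [rh, transpose_sub, transpose_add, transpose_smul, transpose_mul,
      transpose_nonsing_inv, hS.1, hA.1, hT.1, hH.1, Matrix.mul_assoc]
  · simp only [IsHermitian, rh, conjTranspose_sub, conjTranspose_add, conjTranspose_smul,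
      conjTranspose_mul, conjTranspose_nonsing_inv, (Lm.herm hS).eq, (Lm.herm hA).eq,
      (Lm.herm hT).eq, (Lm.herm hH).eq, Matrix.mul_assoc, star_def, conj_ofReal]

theorem eq_df (S A T H : Mat r) (l t : ℝ) {Q : Mat r} (hQ : IsUnit Q.det) :
    Qᵀ * S * Q - (t : ℂ) • rh l (Qᵀ * A * Q) (Qᵀ * T * Q) (Qᵀ * H * Q) =
      Qᵀ * (S - (t : ℂ) • rh l A T H) * Q := by
  have hQ' : IsUnit Qᵀ.det := by rwa [det_transpose]
  simp only [rh, Matrix.mul_inv_rev, Matrix.mul_assoc, mul_nonsing_inv_cancel_left _ _ hQ,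
    nonsing_inv_mul_cancel_left _ _ hQ', Matrix.mul_add, Matrix.add_mul, Matrix.mul_sub,
    Matrix.sub_mul, Matrix.mul_smul, Matrix.smul_mul, smul_sub, smul_add]

variable {X Y G : Type} [TopologicalSpace X] [TopologicalSpace Y] [Group G] [MulAction G Y]
  {c : Sx ι X Y G} {ρ : G →* Mat r} {H0 H : Y → Mat r} {l t N : ℝ} {β : Bu G (r × r)}

/-- the defect of the equation. -/
def ph (c : Sx ι X Y G) (H0 : Y → Mat r) (l t : ℝ) (H : Y → Mat r) (y : Y) : r × r → ℂ :=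
  vec (c.ten H y - (t : ℂ) • rh l (H0 y) (c.ten H0 y) (H y))

theorem pd (hb : c.Bs) (hρ : RealR ρ) (e : EqH ρ H)
    (p : ∀ a, ∀ z ∈ c.B a, (H (c.s a z)).PosDef) (y : Y) : (H y).PosDef := by
  obtain ⟨γ, a, z, -, hz, rfl⟩ := hb.a.cov y
  rw [e γ]
  exact Lm.pd hρ _ (p a z hz)

theorem sec (hb : c.Bs) (hβ : IsBS ρ β) (h0 : c.Gd ρ H0) (e : EqH ρ H) (s : ∀ y, RS (H y))
    (m : c.M2 N H) (p : ∀ y, (H y).PosDef) : β.Sec (ph c H0 l t H) := by
  have k := (hb.m.bs r ρ).2.2 β hβ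
  have c2 : c.CkM 2 H := fun i j => hb.b.ck (r × r) β 2 (fun y => vec (H y)) ((k _).2 ⟨e, s⟩)
    (fun a q z hz => (m a q.1 q.2).1 z hz) (i, j)
  have c0 : c.CkM 2 H0 := fun i j e he z hz σ hσ =>
    (h0.sm i j e he z hz σ hσ).of_le (by norm_cast)
  have e1 := (hb.m.eqv r ρ H H e c2 fun y => (p y).det_pos.ne').1
  have e2 := (hb.m.eqv r ρ H0 H0 h0.eqv c0 fun y => (h0.pd y).det_pos.ne').1
  refine (k _).2 ⟨fun γ y => ?_, fun y => rs_df l t ((hb.m.rs r H H c2 s).1 y) (h0.rs y)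
    ((hb.m.rs r H0 H0 c0 h0.rs).1 y) (s y)⟩
  change c.ten H _ - _ • rh l _ _ _ = _ * (c.ten H y - _ • rh l _ _ _) * _
  rw [e1, e2, e, h0.eqv]
  exact eq_df _ _ _ _ l t ((isUnit_iff_isUnit_det _).1 ((Group.isUnit γ⁻¹).map ρ))

theorem ph_eq (hb : c.Bs) {a : Fin c.C.n} {z : V ι} (hz : z ∈ c.B a)
    (m : CM 2 (fun x => H (c.s a x)) z) : ph c H0 l t H (c.s a z) =
      vec (df (c.Gc a) l t (fun x => H0 (c.s a x)) (fun x => c.ten H0 (c.s a x))
        (fun x => H (c.s a x)) z) := by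
  obtain ⟨z1, z2, -⟩ := hb.a.sec a z hz
  rw [ph, ← (hb.m.rd2 r H H (fun _ _ => 0) _ (c.C.mem a) z z1 _ z2 m).1]
  rfl

theorem lin_eq (hb : c.Bs) {a : Fin c.C.n} {z : V ι} (hz : z ∈ c.B a)
    (m : CM 2 (fun x => H (c.s a x)) z) {w : Y → r × r → ℂ}
    (m' : CM 2 (fun x => mt (w (c.s a x))) z) :
    c.lapV w (c.s a z) + c.DS H0 l t H w (c.s a z) =
      vec (lM (c.Gc a) (fun x => mt (w (c.s a x))) z +
        (low (c.Gc a) (fun x => H (c.s a x)) (fun x => mt (w (c.s a x))) z -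
          (t : ℂ) • rd1 l (H0 (c.s a z)) (H (c.s a z)) (mt (w (c.s a z))))) := by
  obtain ⟨z1, z2, -⟩ := hb.a.sec a z hz
  have e1 := (hb.m.rd2 r H (fun y => mt (w y)) (fun _ _ => 0) _ (c.C.mem a) z z1 _ z2 m).2.2.1
    fun i j => (m' i j).of_le one_le_two
  have e2 := (hb.m.rd r (fun y => mt (w y)) H 1 _ (c.C.mem a) z z1 _ z2).1 m'
  rw [Sx.DS, ← e1, Sx.Gc, e2]
  rfl

theorem sadd {v w : Y → r × r → ℂ} (h : β.Sec v) (h' : β.Sec w) : β.Sec (v + w) :=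
  ⟨fun γ y => by rw [Pi.add_apply, Pi.add_apply, h.1, h'.1, map_add],
    fun y => β.W.add_mem (h.2 y) (h'.2 y)⟩

theorem sneg {v : Y → r × r → ℂ} (h : β.Sec v) : β.Sec (-v) :=
  ⟨fun γ y => by rw [Pi.neg_apply, Pi.neg_apply, h.1, map_neg], fun y => β.W.neg_mem (h.2 y)⟩

theorem hmo2 {v : Y → r × r → ℂ} (h : c.H2 a v) (e : a ≤ b) : c.H2 b v :=
  fun s q => (h s q).mono e

end Op

variable {ι X Y G : Type} [Fintype ι] [DecidableEq ι] [TopologicalSpace X] [TopologicalSpace Y]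
  [Group G] [MulAction G Y] {c : Sx ι X Y G}

theorem opS (h : Al) (hb : c.Bs) (h1 : NlL) (h2 : c.ItE) (h3 : c.LsS) (h4 : c.LnS) (h5 : c.RgS) :
    c.OpS := by
  intro r _ _ ρ H0 l L t0 hR ht0
  rcases isEmpty_or_nonempty r with hr | ⟨⟨i0⟩⟩
  · exact ⟨1, one_pos, fun t _ H hH _ _ t' _ => ⟨H, hH.1, fun y => Subsingleton.elim _ _⟩⟩
  obtain ⟨-, k1, k2⟩ := hb.m.bs r ρ
  obtain ⟨β, hβ⟩ := k1 hR.rl
  replace k2 := k2 β hβ
  have hl : 0 ≤ l := zero_le_one.trans hR.one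
  obtain ⟨L', hL'⟩ := h4 r ρ H0 l L β hR hβ
  obtain ⟨K, hK, sol⟩ := h3.sol (r × r) β L' (2 * t0) (by positivity)
  obtain ⟨ε0, hε0, C0, pos⟩ := h.tp.pos r L
  obtain ⟨Lg, hLg, hg⟩ := hb.a.ell
  obtain ⟨s1, -, -, ⟨L0, hL0, m0⟩, L1, b0⟩ :=
    hb.m.sm r H0 hR.gd.sm fun y => (hR.gd.pd y).det_pos.ne'
  obtain ⟨Ln, hLn, inv⟩ := h.hm.inv ι r (max L0 L1)
  choose LT hLT hT using fun i j => hb.a.hol _ (s1 i j)
  obtain ⟨M1, hM1⟩ := Finite.exists_le fun q : r × r => LT q.1 q.2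
  obtain ⟨M, u1, u2, u3, u4, u5, u6⟩ : ∃ M, M1 ≤ M ∧ Lg ≤ M ∧ Ln ≤ M ∧ L ≤ M ∧ C0 ≤ M ∧ L0 ≤ M :=
    ⟨max M1 (max Lg (max Ln (max L (max C0 L0)))), by simp, by simp, by simp, by simp, by simp,
      by simp⟩
  have hM : 0 ≤ M := hL0.trans u6
  have n0 : ∀ a, HM M (fun z => (H0 (c.s a z))⁻¹) (c.B a) := fun a =>
    Op.hmo ((inv (c.B a) _ isOpen_ball fun z hz => ⟨(hR.gd.pd _).det_pos.ne',
      fun i j => (b0 a z hz i j).trans (le_max_right _ _)⟩).1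
        fun i j => (m0 a i j).2.1.mono (le_max_left _ _)) u3
  obtain ⟨C, hC, est⟩ := Op.est h.hm h1 ι r M hl
  obtain ⟨R, hR0, eR⟩ : ∃ R ≥ (0 : ℝ), R = l * (2 * Fintype.card r *
    (2 * Fintype.card r * M * M) * M + M) + M := ⟨_, by positivity, rfl⟩
  obtain ⟨ε, e0, e1, e2, e3⟩ : ∃ ε > (0 : ℝ), ε ≤ 1 ∧ ε + ε ≤ ε0 ∧ C * ε * K ≤ 1 / 2 := by
    have p : 0 < 2 * (C * K + 1) := by positivity
    refine ⟨min 1 (min (ε0 / 2) (1 / (2 * (C * K + 1)))), by positivity, min_le_left _ _, ?_, ?_⟩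
    · linarith [min_le_right 1 (min (ε0 / 2) (1 / (2 * (C * K + 1)))),
        min_le_left (ε0 / 2) (1 / (2 * (C * K + 1)))]
    · have q := (le_div_iff₀ p).1
        ((min_le_right 1 _).trans (min_le_right (ε0 / 2) (1 / (2 * (C * K + 1)))))
      have q' : 0 < min 1 (min (ε0 / 2) (1 / (2 * (C * K + 1)))) := by positivity
      nlinarith
  obtain ⟨δ, d0, d1, d2⟩ : ∃ δ > (0 : ℝ), δ ≤ ε ∧ 2 * K * (δ * R) + 2 * K * (δ * R) ≤ ε := by
    have p : 0 < 4 * (K * R) + 1 := by positivity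
    have q := div_mul_cancel₀ ε p.ne'
    have q' : 0 < ε / (4 * (K * R) + 1) := by positivity
    exact ⟨ε / (4 * (K * R) + 1), q', by nlinarith [mul_nonneg hK hR0], by nlinarith⟩
  have d3 : 0 ≤ K * (δ * R) := by positivity
  refine ⟨δ, d0, fun t ht H hH m bi t' ht' => ?_⟩
  obtain ⟨mt1, lo⟩ := hL' H hH.1 m bi
  obtain ⟨lo1, lo2⟩ := lo t ⟨ht0.le.trans ht.1, ht.2⟩
  have S := sol _ _ mt1 lo1 fun v N hv hN y =>
    (lo2 hH v N hv hN y).trans (by nlinarith [mt1.nn y (v y), ht.1])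
  have sH : β.Sec fun y => vec (H y) := (k2 _).2 ⟨hH.1.eqv, hH.1.rs⟩
  have gd : ∀ v, β.Sec v → c.H2 ε0 v → ∀ a, ∀ z ∈ c.B a, (H (c.s a z) + mt (v (c.s a z))).PosDef ∧
      Bd M (H (c.s a z) + mt (v (c.s a z)))⁻¹ := fun v hv hv' a z hz =>
    (pos _ _ (hH.1.pd _) (Lm.herm (((k2 v).1 hv).2 _)) (bi a z hz)
      fun i j => (hv' a (i, j)).2.1.1 z hz).imp_right fun k i j => (k i j).trans u5
  have gl : ∀ v, β.Sec v → c.H2 ε0 v → EqH ρ (fun y => H y + mt (v y)) ∧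
      (∀ y, RS (H y + mt (v y))) ∧ c.M2 (L + ε0) (fun y => H y + mt (v y)) ∧
      ∀ y, (H y + mt (v y)).PosDef := fun v hv hv' => by
    obtain ⟨p1, p2⟩ := (k2 _).1 (Op.sadd sH hv)
    exact ⟨p1, p2, fun a i j => (m a i j).add (hv' a (i, j)),
      Op.pd hb hR.rl p1 fun a z hz => (gd v hv hv' a z hz).1⟩
  obtain ⟨Φ, hΦ⟩ : ∃ Φ : (Y → r × r → ℂ) → Y → r × r → ℂ,
    Φ = fun v => Op.ph c H0 l t' fun y => H y + mt (v y) := ⟨_, rfl⟩
  have ke : ∀ v w d, β.Sec v → β.Sec w → c.H2 ε v → c.H2 d w → c.H2 ε w → 0 ≤ d →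
      c.H0 (C * ε * d) (fun y => Φ (v + w) y - Φ v y - (c.lapV w y + c.DS H0 l t H w y)) ∧
      c.H0 (C * d) fun y => Φ (v + w) y - Φ v y := fun v w d hv hw v2 w2 w3 hd => by
    have v3 : c.H2 ε0 v := Op.hmo2 v2 (by linarith)
    have v4 : c.H2 ε0 (v + w) := fun a q => ((v2 a q).add (w3 a q)).mono e2
    have ea : ∀ y, H y + mt ((v + w) y) = H y + mt (v y) + mt (w y) := fun y =>
      (add_assoc _ _ _).symm
    have k := fun a => est (c.B a) (c.Gc a) (fun x => H0 (c.s a x)) (fun x => c.ten H0 (c.s a x))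
      (fun x => H (c.s a x)) (fun x => mt (v (c.s a x))) (fun x => mt (w (c.s a x))) ε d t t'
      isOpen_ball e0.le e1 hd (abs_le.2 ⟨by linarith [(abs_le.1 ht').1, ht.1],
        by linarith [(abs_le.1 ht').2, ht.2]⟩) (ht'.trans d1)
      (fun i j => ((hg a).2.1 i j).mono u2) (n0 a) (fun i j => (m a i j).mono u4)
      (fun i j => v2 a (i, j)) (fun i j => w2 a (i, j)) (fun i j => w3 a (i, j)) fun z hz => by
        obtain ⟨q1, q2⟩ := gd v hv v3 a z hz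
        obtain ⟨q3, q4⟩ := gd _ (Op.sadd hv hw) v4 a z hz
        rw [ea] at q3 q4
        exact ⟨(hH.1.pd _).det_pos.ne', fun i j => (bi a z hz i j).trans u4, q1.det_pos.ne', q2,
          q3.det_pos.ne', q4⟩
    have f1 := fun a z hz => Op.ph_eq (H0 := H0) (l := l) (t := t')
      (H := fun y => H y + mt (v y)) hb (a := a) (z := z) hz fun i j =>
        ((gl v hv v3).2.2.1 a i j).1 z hz
    have f2 := fun a z hz => Op.ph_eq (H0 := H0) (l := l) (t := t')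
      (H := fun y => H y + mt ((v + w) y)) hb (a := a) (z := z) hz fun i j =>
        ((gl _ (Op.sadd hv hw) v4).2.2.1 a i j).1 z hz
    have f3 := fun a z hz => Op.lin_eq (H0 := H0) (l := l) (t := t) hb (a := a) (z := z) hz
      (fun i j => (m a i j).1 z hz) (w := w) fun i j => (w2 a (i, j)).1 z hz
    simp only [ea] at f2
    subst hΦ
    refine ⟨fun a q => ((k a).1 q.1 q.2).congr fun z hz => ?_,
      fun a q => ((k a).2 q.1 q.2).congr fun z hz => ?_⟩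
    · simp only [ea, f1 a z hz, f2 a z hz, f3 a z hz]
      rfl
    · simp only [ea, f1 a z hz, f2 a z hz]
      rfl
  have se : ∀ v, β.Sec v → c.H2 ε0 v → β.Sec (Φ v) := fun v hv hv' => by
    obtain ⟨p1, p2, p3, p4⟩ := gl v hv hv'
    exact hΦ ▸ Op.sec hb hβ hR.gd p1 p2 p3 p4
  obtain ⟨v, hv, v2, v0⟩ := h2 (r × r) β Φ 1 K (δ * R) C le_rfl hK (by positivity)
    (fun a q => by
      have mH : HM M (fun z => H (c.s a z)) (c.B a) := fun i j => (m a i j).2.1.mono u4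
      have k := Op.hsm (Op.hadd (Op.hsm (Op.hsub ((h.hm.mul ι r _ _ _ _ _).1
        ((h.hm.mul ι r _ _ _ _ _).1 mH (n0 a)) mH) fun i j => (m0 a i j).2.1.mono u6) l
        (abs_of_nonneg hl).le (by positivity))
        (K := fun z => c.ten H0 (c.s a z)) fun i j => (hT i j a).2.1.mono ((hM1 (i, j)).trans u1))
        (t - t') (abs_sub_comm t t' ▸ ht') (by positivity)
      rw [← eR] at k
      refine hol_iff.1 ((k q.1 q.2).congr fun z _ => ?_)
      have e : (fun y => H y + mt ((0 : Y → r × r → ℂ) y)) = H := funext fun y => add_zero _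
      simp only [hΦ]
      rw [e, Op.ph, hH.2, ← sub_smul, ← ofReal_sub]
      rfl)
    (fun v B B0 B1 hv v2 hB => by
      have v3 : c.H2 ε v := Op.hmo2 v2 (by linarith)
      obtain ⟨w, hw, w2, w3⟩ := S (-Φ v) B B0 (Op.sneg (se v hv (Op.hmo2 v3 (by linarith))))
        fun a q => (hol_iff.2 (hB a q)).neg
      refine ⟨w, hw, w2, fun a q => hol_iff.1 ((((ke v w _ hv hw v3 w2 (Op.hmo2 w2 ?_)
        (by positivity)).1 a q).mono ?_).congr fun z _ => ?_)⟩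
      · nlinarith
      · nlinarith
      · simp only [w3, Pi.neg_apply, sub_neg_eq_add, sub_add_cancel])
    fun v v' d hv hv' v2 v3 v4 a z hz => by
      have hd : 0 ≤ d := (v4 a (i0, i0)).nonneg hz
      have k := (ke v' (v - v') d hv' (sub_eq_add_neg v v' ▸ Op.sadd hv (Op.sneg hv'))
        (Op.hmo2 v3 (by linarith)) v4 (fun a q => ((v2 a q).sub (v3 a q)).mono d2) hd).2
      rw [add_sub_cancel] at k
      exact (pi_norm_le_iff_of_nonneg (by positivity)).2 fun q => (k a q).1 z hz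
  obtain ⟨p1, p2, p3, p4⟩ := gl v hv (Op.hmo2 v2 (by linarith))
  refine ⟨_, h5.met r ρ H0 l t' _ _ hR.gd p1 (fun y => ⟨p2 y, p4 y⟩) p3 fun a z hz => ?_⟩
  have k := v0 a z hz
  rw [hΦ] at k
  exact sub_eq_zero.1 (Matrix.ext fun i j => congrFun k (i, j))

end

end Pool.Agent.Lib.MP_813db1_ag.VH.Co
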