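import Pool.Agent.Lib.MP_813db1_ag.VH.CoDefs

/-! Linear systems and harmonic metrics: statements. -/

namespace Pool.Agent.Lib.MP_813db1_ag.VH.Co

open Pool.Agent.Lib.MP_813db1_ag.HS Pool.Agent.Lib.MP_813db1_ag.AS
open MeasureTheory Complex Matrix Filter Topology Set Metric
open scoped ContDiff ComplexOrder

/-! ### algebra -/

/-- inequalities for forms. -/
structure TpS : Prop where
  nn : ∀ (r : Type) [Fintype r] [DecidableEq r] (H P : Mat r), H.PosDef → P.IsHermitian →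
    0 ≤ tp H P P
  cs : ∀ (r : Type) [Fintype r] [DecidableEq r] (H P Q : Mat r), H.PosDef → P.IsHermitian →
    Q.IsHermitian → tp H P Q ^ 2 ≤ tp H P P * tp H Q Q
  dom : ∀ (r : Type) [Fintype r] [DecidableEq r] (H P : Mat r) (a : ℝ), H.PosDef → P.IsHermitian →
    0 ≤ a → tp H P P ≤ a ^ 2 → Dom a H P
  sq : ∀ (r : Type) [Fintype r] [DecidableEq r] (H P : Mat r) (a : ℝ), H.PosDef → Dom a H P →
    ((a ^ 2 : ℝ) • H - P * H⁻¹ * P).PosSemidef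
  tr : ∀ (r : Type) [Fintype r] [DecidableEq r] (H P Q : Mat r) (a : ℝ), Dom a H P →
    Q.PosSemidef → |(trace (P * Q)).re| ≤ a * (trace (H * Q)).re
  ent : ∀ (r : Type) [Fintype r] [DecidableEq r] (L : ℝ), ∃ C ≥ (0 : ℝ), ∀ H P : Mat r, H.PosDef →
    P.IsHermitian → (Bd L H → ∀ i j, ‖P i j‖ ^ 2 ≤ C * tp H P P) ∧
      (Bd L H⁻¹ → ∀ a, Bd a P → tp H P P ≤ C * a ^ 2)
  kr : ∀ (r : Type) [Fintype r] [DecidableEq r] (H : Mat r), H.PosDef → (kr H).IsHermitian ∧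
    (∀ u, 0 ≤ ip (kr H) u u) ∧ ∀ P Q : Mat r, P.IsHermitian → ip (kr H) (vec P) (vec Q) = tp H P Q
  krp : ∀ (r : Type) [Fintype r] [DecidableEq r] (L : ℝ), ∃ C ≥ (0 : ℝ), ∀ H : Mat r, H.PosDef →
    Bd L H → ∀ u, ‖u‖ ^ 2 ≤ C * ip (Co.kr H) u u
  pos : ∀ (r : Type) [Fintype r] [DecidableEq r] (L : ℝ), ∃ ε > (0 : ℝ), ∃ C, ∀ H P : Mat r,
    H.PosDef → P.IsHermitian → Bd L H⁻¹ → Bd ε P → (H + P).PosDef ∧ Bd C (H + P)⁻¹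
  bdd : ∀ (r : Type) [Fintype r] [DecidableEq r] (L : ℝ), ∃ C, ∀ H0 H : Mat r, H0.PosDef →
    H.PosDef → Bd L H0 → Bd L H0⁻¹ → trm H0 H ≤ L → trm H H0 ≤ L → Bd C H ∧ Bd C H⁻¹

/-- the algebra of the uniform estimate. -/
def C0A : Prop := ∀ (r : Type) [Fintype r] [DecidableEq r] (l : ℝ), 1 ≤ l → ∃ C, ∀ (t : ℝ)
  (H0 T0 H : Mat r), t ∈ Ioc (0 : ℝ) 1 → H0.PosDef → H.PosDef → T0.IsHermitian →
  Dom (l - 1) H0 T0 → (trace (H0⁻¹ * ((t : ℂ) • rh l H0 T0 H)) - trace (H0⁻¹ * T0 * H0⁻¹ * H) +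
    (trace (H⁻¹ * T0) - trace (H⁻¹ * ((t : ℂ) • rh l H0 T0 H) * H⁻¹ * H0))).re ≤ 0 →
  t * (trm H0 H + trm H H0) ≤ C

/-- the algebra of the energy estimate. -/
def EnA : Prop := ∀ (r : Type) [Fintype r] [DecidableEq r] (l : ℝ), 1 ≤ l → ∃ C,
  ∀ (J : ℕ) (H0 H : Mat r), H0.PosDef → H.PosDef → (((2 ^ J : ℝ) : ℂ) • H - H0).PosSemidef →
  (((2 ^ J : ℝ) : ℂ) • H0 - H).PosSemidef →
  (∀ T0 : Mat r, T0.IsHermitian → Dom (l - 1) H0 T0 → (trace (tw J H0 H * rh l H0 T0 H)).re ≤ C) ∧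
  ∀ P0 P : Mat r, P0.IsHermitian → P.IsHermitian → tp H P P / 32 - 2 * tp H0 P0 P0 ≤
    ∑ j ∈ Finset.range (2 * J + 1), (2 ^ j / 2 ^ J : ℝ) *
      (trace ((H0 + ((2 ^ j / 2 ^ J : ℝ) : ℂ) • H)⁻¹ * P * H⁻¹ * P -
        (H0 + ((2 ^ j / 2 ^ J : ℝ) : ℂ) • H)⁻¹ * (P0 + ((2 ^ j / 2 ^ J : ℝ) : ℂ) • P) *
          (H0 + ((2 ^ j / 2 ^ J : ℝ) : ℂ) • H)⁻¹ * P)).re

/-- the algebra of the gradient estimate; `P0`, `T1`, `P` are the derivatives of `H0`, `T0`, `H`. -/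
def BoA : Prop := ∀ (r : Type) [Fintype r] [DecidableEq r] (l a : ℝ), 1 ≤ l → 0 ≤ a → ∃ C ≥ (0 : ℝ),
  ∀ H0 T0 H P0 T1 P : Mat r, H0.PosDef → H.PosDef → T0.IsHermitian → P0.IsHermitian →
  T1.IsHermitian → P.IsHermitian → Dom (l - 1) H0 T0 → Dom a H0 P0 → Dom a H0 T1 →
  -(C * (trm H0 H + trm H H0)) ≤
    tp H (rd1 l H0 H P - (l : ℂ) • (H * (H0⁻¹ * P0 * H0⁻¹) * H + P0) + T1) P -
      (trace (H⁻¹ * rh l H0 T0 H * (H⁻¹ * P) * (H⁻¹ * P))).re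

/-- the algebra of the maximum principle for the linearised equation. -/
def MpA : Prop := ∀ (r : Type) [Fintype r] [DecidableEq r] (l : ℝ) (H0 T0 H P : Mat r), 1 ≤ l →
  H0.PosDef → H.PosDef → T0.IsHermitian → P.IsHermitian → Dom (l - 1) H0 T0 →
  2 * tp H P P ≤ tp H (rd1 l H0 H P) P - (trace (H⁻¹ * rh l H0 T0 H * (H⁻¹ * P) * (H⁻¹ * P))).re

/-- irreducible representations are stable. -/
def IrrS : Prop := ∀ (G r : Type) [Group G] [Fintype r] [DecidableEq r] (ρ : G →* Mat r)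
  (C : G → ℝ), Irr ρ → RealR ρ → ∃ K, ∀ H : Mat r, H.PosDef → H.map star = H →
  (∀ γ, ((C γ : ℂ) • H - (ρ γ)ᵀ * H * ρ γ).PosSemidef) → (trace H).re * (trace H⁻¹).re ≤ K

/-! ### local calculus -/

/-- frames exist. -/
def FrS : Prop := ∀ (ι : Type) [Fintype ι] [DecidableEq ι] (L : ℝ), ∃ C ≥ (0 : ℝ), ∀ g : Mat ι,
  g.PosDef → Bd L g → Bd L g⁻¹ → ∃ e, Fr g⁻¹ C e

/-- calculus of matrix functions. -/
structure DvS : Prop where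
  congr : ∀ (ι r : Type) [Fintype ι] (F K : V ι → Mat r) (v z : V ι), F =ᶠ[𝓝 z] K →
    dv F v =ᶠ[𝓝 z] dv K v
  const : ∀ (ι r : Type) [Fintype ι] (A : Mat r) (v z : V ι), dv (fun _ => A) v z = 0
  add : ∀ (ι r : Type) [Fintype ι] (F K : V ι → Mat r) (v z : V ι), CM 1 F z → CM 1 K z →
    dv (fun w => F w + K w) v z = dv F v z + dv K v z ∧
    dv (fun w => F w - K w) v z = dv F v z - dv K v z
  smul : ∀ (ι r : Type) [Fintype ι] (a : ℂ) (F : V ι → Mat r) (v z : V ι), CM 1 F z →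
    dv (fun w => a • F w) v z = a • dv F v z
  mul : ∀ (ι r : Type) [Fintype ι] [Fintype r] (F K : V ι → Mat r) (v z : V ι), CM 1 F z →
    CM 1 K z → dv (fun w => F w * K w) v z = dv F v z * K z + F z * dv K v z
  inv : ∀ (ι r : Type) [Fintype ι] [Fintype r] [DecidableEq r] (F : V ι → Mat r) (v z : V ι),
    CM 1 F z → (F z).det ≠ 0 → dv (fun w => (F w)⁻¹) v z = -((F z)⁻¹ * dv F v z * (F z)⁻¹)
  tr : ∀ (ι r : Type) [Fintype ι] [Fintype r] (F : V ι → Mat r) (v z : V ι), CM 1 F z →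
    fderiv ℝ (fun w => trace (F w)) z v = trace (dv F v z)
  ct : ∀ (ι r : Type) [Fintype ι] (F : V ι → Mat r) (v z : V ι),
    dv (fun w => (F w)ᴴ) v z = (dv F v z)ᴴ ∧ dv (fun w => (F w)ᵀ) v z = (dv F v z)ᵀ ∧
    dv (fun w => (F w).map star) v z = (dv F v z).map star
  dir : ∀ (ι r κ : Type) [Fintype ι] [Fintype κ] (F : V ι → Mat r) (β : κ → ℝ) (e : κ → V ι)
    (z : V ι), dv F (∑ b, β b • e b) z = ∑ b, (β b : ℂ) • dv F (e b) z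
  comm : ∀ (ι r : Type) [Fintype ι] (F : V ι → Mat r) (u v z : V ι), CM 2 F z →
    dv (dv F u) v z = dv (dv F v) u z
  ev : ∀ (ι r : Type) [Fintype ι] [Fintype r] (k : ℕ) (F : V ι → Mat r) (z : V ι), CM k F z →
    ∀ᶠ w in 𝓝 z, CM k F w
  cm : ∀ (ι r : Type) [Fintype ι] [Fintype r] [DecidableEq r] (k : WithTop ℕ∞) (F K : V ι → Mat r)
    (z : V ι), CM k F z → CM k K z → CM k (fun w => F w + K w) z ∧ CM k (fun w => F w - K w) z ∧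
    CM k (fun w => F w * K w) z ∧ (∀ a : ℂ, CM k (fun w => a • F w) z) ∧
    ((F z).det ≠ 0 → CM k (fun w => (F w)⁻¹) z) ∧ ContDiffAt ℝ k (fun w => trace (F w)) z
  cd : ∀ (ι r : Type) [Fintype ι] (k n : WithTop ℕ∞) (F : V ι → Mat r) (v z : V ι), k + 1 ≤ n →
    CM n F z → CM k (dv F v) z
  dR : ∀ (ι r : Type) [Fintype ι] [DecidableEq ι] (F : V ι → Mat r) (k : ι) (z : V ι),
    dR F k z = (1 / 2 : ℂ) • (dv F (Pi.single k 1) z - I • dv F (Pi.single k I) z) ∧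
    dRb F k z = (1 / 2 : ℂ) • (dv F (Pi.single k 1) z + I • dv F (Pi.single k I) z)
  fr : ∀ (ι r : Type) [Fintype ι] [DecidableEq ι] [Fintype r] (G : V ι → Mat ι) (z : V ι) (L : ℝ)
    (e : ι × Fin 2 → V ι), Fr (G z)⁻¹ L e →
    (∀ f h, gr2 G f h z = ∑ b, fderiv ℝ f z (e b) * fderiv ℝ h z (e b)) ∧
    (∀ F : V ι → Mat r, CM 2 F z → lM G F z = ∑ b, dv (dv F (e b)) (e b) z) ∧
    ∀ (F K : V ι → Mat r) (N : Mat r), qM G F N K z = ∑ b, dv F (e b) z * N * dv K (e b) z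
  ent : ∀ (ι r : Type) [Fintype ι] [DecidableEq ι] [Fintype r] (G : V ι → Mat ι)
    (F K : V ι → Mat r) (N : Mat r) (z : V ι) (i l : r), qM G F N K z i l =
      ∑ j, ∑ k, N j k * gr2 G (fun w => F w i j) (fun w => K w k l) z

/-- the Laplacian of `tr (H⁻¹ K)`. -/
def PwA : Prop := ∀ (ι r : Type) [Fintype ι] [DecidableEq ι] [Fintype r] [DecidableEq r]
  (G : V ι → Mat ι) (H K : V ι → Mat r) (z : V ι), (G z).PosDef → CM 2 H z → CM 2 K z →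
  (∀ᶠ w in 𝓝 z, (H w).IsHermitian ∧ (K w).IsHermitian) → (H z).PosDef → (K z).PosDef →
  (trace ((H z)⁻¹ * ten G K z) - trace ((H z)⁻¹ * ten G H z * (H z)⁻¹ * K z)).re ≤
    (lapL G (fun w => (trm (H w) (K w) : ℂ)) z).re

/-- the Laplacian of `tp H P P`. -/
def PwB : Prop := ∀ (ι r : Type) [Fintype ι] [DecidableEq ι] [Fintype r] [DecidableEq r]
  (G : V ι → Mat ι) (H P : V ι → Mat r) (z : V ι) (L : ℝ) (e : ι × Fin 2 → V ι), Fr (G z)⁻¹ L e →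
  CM 2 H z → CM 2 P z → (∀ᶠ w in 𝓝 z, (H w).IsHermitian ∧ (P w).IsHermitian) → (H z).PosDef →
  tp (H z) (lM G P z + low G H P z) (P z) -
    (trace ((H z)⁻¹ * ten G H z * ((H z)⁻¹ * P z) * ((H z)⁻¹ * P z))).re +
    ∑ b, tp (H z) (dv P (e b) z - (1 / 2 : ℂ) • (dv H (e b) z * (H z)⁻¹ * P z +
        P z * (H z)⁻¹ * dv H (e b) z)) (dv P (e b) z - (1 / 2 : ℂ) •
          (dv H (e b) z * (H z)⁻¹ * P z + P z * (H z)⁻¹ * dv H (e b) z)) ≤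
    (lapL G (fun w => (tp (H w) (P w) (P w) : ℂ)) z).re / 2

/-- the Laplacian of the norm of a vector: harmonic metrics, and bounded metrics. -/
structure PwV : Prop where
  har : ∀ (ι r : Type) [Fintype ι] [DecidableEq ι] [Fintype r] [DecidableEq r]
    (G : V ι → Mat ι) (H : V ι → Mat r) (x : V ι → r → ℂ) (z : V ι), (G z).PosDef → CM 2 H z →
    (∀ k, ContDiffAt ℝ 2 (fun w => x w k) z) → (∀ᶠ w in 𝓝 z, (H w).IsHermitian) → (H z).PosDef →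
    ten G H z = 0 → ip (H z) (x z) ((fun k => lapL G (fun w => x w k) z) + hd G H x z) ≤
      (lapL G (fun w => (ip (H w) (x w) (x w) : ℂ)) z).re / 2
  bd : ∀ (ι r : Type) [Fintype ι] [DecidableEq ι] [Fintype r] [DecidableEq r] (L : ℝ),
    ∃ C ≥ (0 : ℝ), ∀ (G : V ι → Mat ι) (m : V ι → Mat r) (x : V ι → r → ℂ) (z : V ι), (G z).PosDef →
    Bd L (G z) → Bd L (G z)⁻¹ → CM 2 m z → (∀ k, ContDiffAt ℝ 2 (fun w => x w k) z) →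
    (∀ᶠ w in 𝓝 z, (m w).IsHermitian) → (∀ u, ‖u‖ ^ 2 ≤ L * ip (m z) u u) →
    (∀ i j, ‖fderiv ℝ (fun w => m w i j) z‖ ≤ L ∧
      ‖fderiv ℝ (fderiv ℝ fun w => m w i j) z‖ ≤ L) →
    ip (m z) (x z) (fun k => lapL G (fun w => x w k) z) ≤
      (lapL G (fun w => (ip (m w) (x w) (x w) : ℂ)) z).re / 2 + C * ip (m z) (x z) (x z)

/-- the Bochner inequality in a chart. -/
def BoL : Prop := ∀ (ι r : Type) [Fintype ι] [DecidableEq ι] [Fintype r] [DecidableEq r] (L : ℝ),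
  ∃ C ≥ (1 : ℝ), ∀ (G : V ι → Mat ι) (H : V ι → Mat r) (z : V ι), (G z).PosDef → Bd L (G z) →
  Bd L (G z)⁻¹ → CM ∞ G z → (∀ᶠ w in 𝓝 z, (G w).IsHermitian) →
  (∀ i j, ‖fderiv ℝ (fun w => G w i j) z‖ ≤ L) → CM ∞ H z →
  (∀ᶠ w in 𝓝 z, (H w).IsHermitian) → (H z).PosDef →
  ContDiffAt ℝ 2 (fl H) z ∧ 0 ≤ en G H z ∧ en G H z ≤ C * fl H z ∧ fl H z ≤ C * en G H z ∧
    ∑ q : ι × Fin 2, (tp (H z) (dv (ten G H) (Pi.single q.1 (I ^ (q.2 : ℕ))) z)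
        (dv H (Pi.single q.1 (I ^ (q.2 : ℕ))) z) -
      (trace ((H z)⁻¹ * ten G H z * ((H z)⁻¹ * dv H (Pi.single q.1 (I ^ (q.2 : ℕ))) z) *
        ((H z)⁻¹ * dv H (Pi.single q.1 (I ^ (q.2 : ℕ))) z))).re) - C * fl H z ≤
      (lapL G (fun w => (fl H w : ℂ)) z).re / 2

/-- a bound for the gradient compares the values. -/
def LipL : Prop := ∀ (ι r : Type) [Fintype ι] [Fintype r] [DecidableEq r] (R Λ : ℝ)
  (H : V ι → Mat r), 0 ≤ Λ → (∀ z ∈ ball (0 : V ι) R, CM 1 H z ∧ (H z).PosDef ∧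
    ∀ v, Dom (Λ * ‖v‖) (H z) (dv H v z)) → ∀ z ∈ ball (0 : V ι) R, ∀ w ∈ ball (0 : V ι) R,
  ((Real.exp (2 * R * Λ) : ℂ) • H w - H z).PosSemidef

/-- interpolation and compactness. -/
structure ItS : Prop where
  itp : ∀ (ι : Type) [Fintype ι] (R δ : ℝ), 0 < R → 0 < δ → ∃ C ≥ (0 : ℝ),
    ∀ (f : V ι → ℂ) (M P : ℝ), Hol2 M f (ball 0 R) → (∀ z ∈ ball (0 : V ι) R, ‖f z‖ ≤ P) →
    Hol1 (δ * M + C * P) f (ball 0 R) ∧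
      ∀ z ∈ ball (0 : V ι) R, ‖fderiv ℝ (fderiv ℝ f) z‖ ≤ δ * M + C * P
  ult : ∀ (ι : Type) [Fintype ι] (R B : ℝ) (F : ℕ → V ι → ℂ) (f : V ι → ℂ) (𝒰 : Ultrafilter ℕ),
    (∀ j, Hol2 B (F j) (ball 0 R)) → (∀ z ∈ ball (0 : V ι) R, Tendsto (fun j => F j z) 𝒰 (𝓝 (f z))) →
    Hol2 B f (ball 0 R) ∧ ∀ δ > (0 : ℝ), ∀ᶠ j in 𝒰, ∀ z ∈ ball (0 : V ι) R, ‖F j z - f z‖ ≤ δ

/-- Hoelder calculus of matrix functions. -/
structure HmS : Prop where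
  mul : ∀ (ι r : Type) [Fintype ι] [Fintype r] (U : Set (V ι)) (a b : ℝ) (F K : V ι → Mat r),
    (HM a F U → HM b K U → HM (2 * Fintype.card r * a * b) (fun z => F z * K z) U) ∧
    (HM1 a F U → HM1 b K U → HM1 (4 * Fintype.card r * a * b) (fun z => F z * K z) U) ∧
    (HM2 a F U → HM2 b K U → HM2 (8 * Fintype.card r * a * b) (fun z => F z * K z) U)
  tame : ∀ (ι r : Type) [Fintype ι] [Fintype r] (U : Set (V ι)) (a a' b b' : ℝ)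
    (F K : V ι → Mat r), HM a F U → HM b K U → (∀ z ∈ U, Bd a' (F z)) → (∀ z ∈ U, Bd b' (K z)) →
    HM (Fintype.card r * (a * b' + a' * b)) (fun z => F z * K z) U
  inv : ∀ (ι r : Type) [Fintype ι] [Fintype r] [DecidableEq r] (L : ℝ), ∃ C ≥ (0 : ℝ),
    ∀ (U : Set (V ι)) (F : V ι → Mat r), IsOpen U → (∀ z ∈ U, (F z).det ≠ 0 ∧ Bd L (F z)⁻¹) →
    (HM L F U → HM C (fun z => (F z)⁻¹) U) ∧ (HM1 L F U → HM1 C (fun z => (F z)⁻¹) U) ∧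
    (HM2 L F U → HM2 C (fun z => (F z)⁻¹) U)
  q : ∀ (ι r : Type) [Fintype ι] [DecidableEq ι] [Fintype r] (L : ℝ), ∃ C ≥ (0 : ℝ),
    ∀ (U : Set (V ι)) (G : V ι → Mat ι) (F K N : V ι → Mat r) (a b n : ℝ),
    HolM L (fun z => (G z)⁻¹) U → HM1 a F U → HM1 b K U → HM n N U →
    HM (C * (a * n * b)) (fun z => qM G F (N z) K z) U
  qt : ∀ (ι r : Type) [Fintype ι] [DecidableEq ι] [Fintype r] (L : ℝ), ∃ C ≥ (0 : ℝ),
    ∀ (U : Set (V ι)) (G : V ι → Mat ι) (F N : V ι → Mat r) (a : ℝ),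
    HolM L (fun z => (G z)⁻¹) U → HM1 a F U → HM L N U →
    (∀ z ∈ U, ∀ i j, ‖fderiv ℝ (fun w => F w i j) z‖ ≤ L) →
    HM (C * a) (fun z => qM G F (N z) F z) U
  gr : ∀ (ι : Type) [Fintype ι] [DecidableEq ι] (L : ℝ), ∃ C ≥ (0 : ℝ), ∀ (U : Set (V ι))
    (G : V ι → Mat ι) (f h : V ι → ℂ) (a b : ℝ), HolM L (fun z => (G z)⁻¹) U → Hol1 a f U →
    Hol1 b h U → Hol (C * (a * b)) (gr2 G f h) U
  lap : ∀ (ι : Type) [Fintype ι] [DecidableEq ι] (L : ℝ), ∃ C ≥ (0 : ℝ), ∀ (U : Set (V ι))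
    (G : V ι → Mat ι) (f : V ι → ℂ) (a : ℝ), HolM L (fun z => (G z)⁻¹) U → Hol2 a f U →
    Hol (C * a) (lapL G f) U

/-- the nonlinear remainder. -/
def NlL : Prop := ∀ (ι r : Type) [Fintype ι] [DecidableEq ι] [Fintype r] [DecidableEq r] (L : ℝ),
  ∃ C ≥ (0 : ℝ), ∀ (U : Set (V ι)) (G : V ι → Mat ι) (N H P w : V ι → Mat r) (ε d : ℝ), IsOpen U →
  0 ≤ ε → ε ≤ 1 → 0 ≤ d → HolM L (fun z => (G z)⁻¹) U → HM L N U → HM1 L H U → HM1 ε P U →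
  HM1 d w U → HM1 ε w U → (∀ z ∈ U, (H z).det ≠ 0 ∧ Bd L (H z)⁻¹ ∧ (H z + P z).det ≠ 0 ∧
    Bd L (H z + P z)⁻¹ ∧ (H z + P z + w z).det ≠ 0 ∧ Bd L (H z + P z + w z)⁻¹) →
  HM (C * ε * d) (fun z => qM G (fun x => H x + P x + w x) (H z + P z + w z)⁻¹
      (fun x => H x + P x + w x) z - qM G (fun x => H x + P x) (H z + P z)⁻¹ (fun x => H x + P x) z +
      low G H w z) U ∧
    HM (C * ε * d) (fun z => (H z + P z + w z) * N z * (H z + P z + w z) -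
      (H z + P z) * N z * (H z + P z) - (w z * N z * H z + H z * N z * w z)) U ∧
    HM (C * d) (fun z => qM G (fun x => H x + P x + w x) (H z + P z + w z)⁻¹
      (fun x => H x + P x + w x) z -
        qM G (fun x => H x + P x) (H z + P z)⁻¹ (fun x => H x + P x) z) U

/-- regularity of systems. -/
def RgL : Prop := ∀ (ι κ : Type) [Fintype ι] [DecidableEq ι] (U : Set (V ι)) (G : V ι → Mat ι)
  (v f : κ → V ι → ℂ), IsOpen U → KOn G U → (∀ k, Hk 2 (v k) U) →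
  (∀ n, (∀ k, Hk (n + 2) (v k) U) → ∀ k, Hk (n + 1) (f k) U) →
  (∀ k, ∀ z ∈ U, lapL G (v k) z = f k z) → ∀ k, ∀ z ∈ U, ContDiffAt ℝ ∞ (v k) z

/-- the mean value inequality. -/
def MvS : Prop := ∀ (ι X : Type) [Fintype ι] [DecidableEq ι] [TopologicalSpace X] [T2Space X]
  [CompactSpace X] [ConnectedSpace X] [MeasurableSpace X] [BorelSpace X] (M : Atl ι X)
  (g : X → Mat ι) (μ : Measure X) (C : Cov M) (L : ℝ), M.IsK g → M.IsVol g μ → 1 ≤ L → ∃ K,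
  ∀ (e : X → ℝ) (S : Fin C.n → V ι → ℝ), Continuous e → (∀ x, 0 ≤ e x) →
  (∀ a, ∀ z ∈ ball (0 : V ι) (2 * C.r a), ContDiffAt ℝ 2 (S a) z ∧
    e ((C.e a).symm z) ≤ L * S a z ∧ S a z ≤ L * e ((C.e a).symm z) ∧
    -(L * (S a z + 1)) ≤ (lapL (M.repF g (C.e a)) (fun w => (S a w : ℂ)) z).re) →
  ∀ x, e x ≤ K * (1 + ∫ y, e y ∂μ)

/-- the local tools. -/
structure Al : Prop where
  tp : TpS
  fr : FrS
  dv : DvS
  hm : HmS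
  it : ItS

/-! ### statements about one covering -/

namespace Sx

variable {ι X Y G : Type} [Fintype ι] [DecidableEq ι] [TopologicalSpace X] [TopologicalSpace Y]
  [Group G] [MulAction G Y] (c : Sx ι X Y G)

/-- reading on sheets, invariance, descent. -/
structure Bas : Prop where
  cov : ∀ y, ∃ (γ : G) (a : Fin c.C.n) (z : V ι), ‖z‖ < c.C.r a ∧ z ∈ c.B a ∧ y = γ • c.s a z
  sec : ∀ a, ∀ z ∈ c.B a, z ∈ (c.C.e a).target ∧ F12.Sec c.p (c.C.e a) z (c.s a) ∧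
    c.p (c.s a z) = (c.C.e a).symm z
  self : ∀ y, c.pt y ∈ (c.M.ch (c.p y)).target ∧
    F12.Sec c.p (c.M.ch (c.p y)) (c.pt y) (c.rd id y) ∧ c.rd id y (c.pt y) = y
  lf : ∀ x, c.p (c.lf x) = x
  orb : ∀ y, ∃ γ : G, c.lf (c.p y) = γ • y
  kon : ∀ a, KOn (c.Gc a) (c.B a)
  ell : ∃ L ≥ (1 : ℝ), ∀ a, HolM L (c.Gc a) (c.B a) ∧ HolM L (fun z => (c.Gc a z)⁻¹) (c.B a) ∧
    ∀ z ∈ c.B a, ∀ i j, ‖fderiv ℝ (fun w => c.Gc a w i j) z‖ ≤ L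
  gp : ∀ y, (c.Gp y (c.pt y)).PosDef
  lap : ∀ f : Y → ℂ, Loc c.M c.p fun e z σ => ContDiffAt ℝ 2 (fun w => f (σ w)) z →
    lapL (c.M.repF c.g e) (fun w => f (σ w)) z = c.lap f (σ z)
  gr : ∀ f h : Y → ℂ, Loc c.M c.p fun e z σ => DifferentiableAt ℝ (fun w => f (σ w)) z →
    DifferentiableAt ℝ (fun w => h (σ w)) z →
    gr2 (c.M.repF c.g e) (fun w => f (σ w)) (fun w => h (σ w)) z = c.gr f h (σ z)
  smul : ∀ (f h : Y → ℂ) (γ : G) y, c.lap (fun x => f (γ • x)) y = c.lap f (γ • y) ∧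
    c.gr (fun x => f (γ • x)) (fun x => h (γ • x)) y = c.gr f h (γ • y)
  loc : ∀ (k : ℕ∞) (f : Y → ℂ), (∀ y, ∃ e ∈ c.M.A, ∃ z ∈ e.target, ∃ σ, F12.Sec c.p e z σ ∧ σ z = y ∧
    ContDiffAt ℝ k (fun w => f (σ w)) z) → c.Ck k f
  at_ : ∀ (k : WithTop ℕ∞) (f : Y → ℂ) y, c.Ck k f → ContDiffAt ℝ k (c.rd f y) (c.pt y)
  cont : ∀ f : Y → ℂ, c.Ck 0 f → Continuous f
  dsc : ∀ (k : ℕ∞) (f : Y → ℂ), (∀ (γ : G) y, f (γ • y) = f y) → c.Ck k f →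
    c.M.CkS k 0 (fun x => f (c.lf x)) ∧ Continuous fun x => f (c.lf x)
  max : ∀ f : Y → ℝ, (∀ (γ : G) y, f (γ • y) = f y) → c.Ck 2 (fun y => (f y : ℂ)) → Nonempty Y →
    ∃ y0, (∀ y, f y ≤ f y0) ∧ c.lapR f y0 ≤ 0
  ck : ∀ f h : Y → ℂ, c.Ck ∞ f → c.Ck ∞ h → c.Ck ∞ (c.lap f) ∧ c.Ck ∞ (c.gr f h)
  hol : ∀ f : Y → ℂ, c.Ck ∞ f → ∃ L ≥ (0 : ℝ), ∀ a, Hol2 L (fun z => f (c.s a z)) (c.B a)
  cst : ∀ f : Y → ℂ, c.Ck 1 f → (∀ y, fderiv ℝ (c.rd f y) (c.pt y) = 0) → ∀ y y', f y = f y'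

/-- sections of a bundle. -/
structure BasB : Prop where
  ck : ∀ (κ : Type) [Fintype κ] (b : Bu G κ) (k : ℕ∞) v, b.Sec v →
    (∀ a j, ∀ z ∈ c.B a, ContDiffAt ℝ k (fun w => v (c.s a w) j) z) → c.CkV k v
  zero : ∀ (κ : Type) [Fintype κ] (b : Bu G κ) v, b.Sec v →
    (∀ a, ∀ z ∈ c.B a, v (c.s a z) = 0) → ∀ y, v y = 0
  bd : ∀ (κ : Type) [Fintype κ] (b : Bu G κ) y, ∃ K ≥ (0 : ℝ), ∀ v P, b.Sec v → c.Sup P v →
    ‖v y‖ ≤ K * P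
  lap : ∀ (κ : Type) [Fintype κ] (b : Bu G κ) v, b.Sec v → c.CkV 2 v → b.Sec (c.lapV v)
  clm : ∀ (κ : Type) [Fintype κ] (T : (κ → ℂ) →L[ℝ] (κ → ℂ)) (A : V ι → Mat ι) (w : V ι → κ → ℂ)
    (z : V ι), (A z).PosDef → (∀ k, ContDiffAt ℝ 2 (fun x => w x k) z) →
    (fun k => lapL A (fun x => T (w x) k) z) = T fun k => lapL A (fun x => w x k) z
  hcl : ∀ (κ : Type) [Fintype κ] (T : (κ → ℂ) →L[ℝ] (κ → ℂ)), ∃ K ≥ (0 : ℝ),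
    ∀ (U : Set (V ι)) (w : V ι → κ → ℂ) (t B : ℝ), 0 ≤ t →
    ((∀ k, HolT t B (fun x => w x k) U) → ∀ k, HolT t (K * B) (fun x => T (w x) k) U) ∧
    ((∀ k, Hol2 B (fun x => w x k) U) → ∀ k, Hol2 (K * B) (fun x => T (w x) k) U)
  lin : ∀ (κ : Type) [Fintype κ] (v w : Y → κ → ℂ) (t : ℝ), c.CkV 2 v → c.CkV 2 w →
    c.lapV (v + w) = c.lapV v + c.lapV w ∧ c.lapV (t • v) = t • c.lapV v ∧
    c.lapV (v - w) = c.lapV v - c.lapV w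
  hol : ∀ (κ : Type) [Fintype κ], ∃ K ≥ (0 : ℝ), ∀ (v : Y → κ → ℂ) N, c.H2 N v →
    c.H0 (K * N) (c.lapV v)
  itp : ∀ (κ : Type) [Fintype κ] (δ : ℝ), 0 < δ → ∃ K ≥ (0 : ℝ), ∀ (v : Y → κ → ℂ) N P, 0 ≤ N →
    c.H2 N v → c.Sup P v → c.H1 (δ * N + K * P) v ∧ c.Sup (δ * N + K * P) (c.lapV v)
  ult : ∀ (κ : Type) [Fintype κ] (b : Bu G κ) (v : ℕ → Y → κ → ℂ) (N : ℝ) (𝒰 : Ultrafilter ℕ),
    (∀ j, b.Sec (v j) ∧ c.H2 N (v j)) → ∃ u, b.Sec u ∧ c.H2 N u ∧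
      (∀ y, Tendsto (fun j => v j y) 𝒰 (𝓝 (u y))) ∧ ∀ δ > (0 : ℝ), ∀ᶠ j in 𝒰, c.Sup δ (v j - u)

/-- the matrix operators. -/
structure BasM : Prop where
  rd : ∀ (r : Type) [Fintype r] [DecidableEq r] (F K : Y → Mat r) (N : Mat r),
    Loc c.M c.p fun e z σ => (CM 2 (fun w => F (σ w)) z →
      Co.lM (c.M.repF c.g e) (fun w => F (σ w)) z = c.lM F (σ z)) ∧
      (CM 1 (fun w => F (σ w)) z → CM 1 (fun w => K (σ w)) z →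
        Co.qM (c.M.repF c.g e) (fun w => F (σ w)) N (fun w => K (σ w)) z = c.qM F N K (σ z))
  rd2 : ∀ (r : Type) [Fintype r] [DecidableEq r] (H P : Y → Mat r) (x : Y → r → ℂ),
    Loc c.M c.p fun e z σ => CM 2 (fun w => H (σ w)) z →
      Co.ten (c.M.repF c.g e) (fun w => H (σ w)) z = c.ten H (σ z) ∧
      Co.en (c.M.repF c.g e) (fun w => H (σ w)) z = c.en H (σ z) ∧
      (CM 1 (fun w => P (σ w)) z →
        Co.low (c.M.repF c.g e) (fun w => H (σ w)) (fun w => P (σ w)) z = c.low H P (σ z)) ∧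
      ((∀ k, ContDiffAt ℝ 1 (fun w => x (σ w) k) z) →
        Co.hd (c.M.repF c.g e) (fun w => H (σ w)) (fun w => x (σ w)) z = c.hd H x (σ z))
  eqv : ∀ (r : Type) [Fintype r] [DecidableEq r] (ρ : G →* Mat r) (H P : Y → Mat r), EqH ρ H →
    c.CkM 2 H → (∀ y, (H y).det ≠ 0) → EqH ρ (c.ten H) ∧ (∀ (γ : G) y, c.en H (γ • y) = c.en H y) ∧
    (EqH ρ P → c.CkM 1 P → EqH ρ (c.low H P)) ∧
    ∀ k x, EqV ρ k x → c.CkV 2 x → EqV ρ 0 (c.hd H x) ∧ EqV ρ 0 (c.lapV x)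
  rs : ∀ (r : Type) [Fintype r] [DecidableEq r] (H P : Y → Mat r), c.CkM 2 H → (∀ y, RS (H y)) →
    (∀ y, RS (c.ten H y)) ∧ ((∀ y, RS (P y)) → ∀ y, RS (c.low H P y)) ∧
    ∀ x : Y → r → ℂ, c.CkV 2 x → ∀ y, c.tl H (fun w => star (x w)) y = star (c.tl H x y)
  sm : ∀ (r : Type) [Fintype r] [DecidableEq r] (H : Y → Mat r), c.CkM ∞ H →
    (∀ y, (H y).det ≠ 0) → c.CkM ∞ (c.ten H) ∧ c.Ck ∞ (fun y => (c.en H y : ℂ)) ∧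
    (∀ x, c.CkV ∞ x → c.CkV ∞ (c.tl H x)) ∧ (∃ L ≥ (0 : ℝ), c.M2 L H) ∧ ∃ L, c.BI L H
  bs : ∀ (r : Type) [Fintype r] [DecidableEq r] (ρ : G →* Mat r), (∃ b, IsBV ρ b) ∧
    (RealR ρ → ∃ b, IsBS ρ b) ∧ ∀ b, IsBS ρ b → ∀ v : Y → r × r → ℂ,
      b.Sec v ↔ EqH ρ (fun y => mt (v y)) ∧ ∀ y, RS (mt (v y))

/-- the basic facts. -/
structure Bs : Prop where
  a : c.Bas
  b : c.BasB
  m : c.BasM

/-- averages. -/
def AvS : Prop := ∃ (n : ℕ) (χ : Fin n → Y → ℝ) (δ : Fin n → Y → G), (∀ a y, 0 ≤ χ a y) ∧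
  (∀ y, ∑ a, χ a y = 1) ∧ (∀ a (γ : G) y, χ a (γ • y) = χ a y ∧ (χ a y ≠ 0 → δ a (γ • y) = γ * δ a y)) ∧
  ∀ a (F : G → ℂ), c.Ck ∞ fun y => χ a y * F (δ a y)

/-- the equivariant extension by zero. -/
def ExS : Prop := ∀ (κ : Type) [Fintype κ] (b : Bu G κ) (a : Fin c.C.n) (K : Set (V ι)),
  IsCompact K → K ⊆ c.B a → ∃ K0 ≥ (0 : ℝ), ∃ E : (V ι → κ → ℂ) → Y → κ → ℂ,
    (∀ (w w' w'' : V ι → κ → ℂ) (t : ℝ) y, (∀ z ∈ (c.C.e a).target, w'' z = t • w z - w' z) →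
      E w'' y = t • E w y - E w' y) ∧
    (∀ (ψ : V ι → ℂ) (v : Y → κ → ℂ) y, b.Sec v → (∀ z, (ψ z).im = 0) →
      E (fun z => ψ z • v (c.s a z)) y = c.M.ext 0 (c.C.e a) ψ (c.p y) • v y) ∧
    ∀ w : V ι → κ → ℂ, (∀ z ∉ K, w z = 0) → (∀ z, w z ∈ b.W) → b.Sec (E w) ∧
      (∀ t ≥ (1 : ℝ), ∀ B, (∀ k, HolT t B (fun z => w z k) univ) → c.HT t (K0 * B) (E w)) ∧
      ∀ B, (∀ k, Hol2 B (fun z => w z k) univ) → c.H2 (K0 * B) (E w) ∧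
        ∀ y, c.lapV (E w) y = E (fun z k => lapL (c.Gc a) (fun x => w x k) z) y

/-- successive approximation. -/
def ItE : Prop := ∀ (κ : Type) [Fintype κ] (b : Bu G κ) (Φ : (Y → κ → ℂ) → Y → κ → ℂ)
  (t K B0 Λ : ℝ), 1 ≤ t → 0 ≤ K → 0 ≤ B0 → c.HT t B0 (Φ 0) →
  (∀ v B, 0 ≤ B → B ≤ B0 → b.Sec v → c.H2 (2 * K * B0) v → c.HT t B (Φ v) →
    ∃ w, b.Sec w ∧ c.H2 (K * B) w ∧ c.HT t (B / 2) (Φ (v + w))) →
  (∀ v v' δ, b.Sec v → b.Sec v' → c.H2 (2 * K * B0) v → c.H2 (2 * K * B0) v' → c.H2 δ (v - v') →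
    c.Sup (Λ * δ) (Φ v - Φ v')) →
  ∃ v, b.Sec v ∧ c.H2 (2 * K * B0) v ∧ ∀ a, ∀ z ∈ c.B a, Φ v (c.s a z) = 0

/-- solvability for large parameters. -/
def BsS : Prop := ∀ (κ : Type) [Fintype κ] (b : Bu G κ), ∃ l0 : ℝ, ∀ l ≥ l0, ∃ K ≥ (0 : ℝ),
  c.Solv b (fun v => (-l) • v) K

/-- the maximum principle. -/
structure MpS : Prop where
  c0 : ∀ (κ : Type) [Fintype κ] [DecidableEq κ] (b : Bu G κ) (L μ : ℝ), 0 < μ → ∃ K ≥ (0 : ℝ),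
    ∀ m D, c.Met b m L → (∀ v N, b.Sec v → c.H2 N v → b.Sec (D v)) → c.MP b m D μ → c.C0 b D K
  big : ∀ (κ : Type) [Fintype κ] [DecidableEq κ] (b : Bu G κ) (L : ℝ), ∃ l0 : ℝ, ∀ l ≥ l0, ∀ m,
    c.Met b m L → c.MP b m (fun v => (-l) • v) 1

/-- the a priori estimate and the method of continuity. -/
structure LsS : Prop where
  apr : ∀ (κ : Type) [Fintype κ] [DecidableEq κ] (b : Bu G κ) (L : ℝ), ∃ K ≥ (0 : ℝ), ∀ m D,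
    c.Met b m L → c.Low b D L → ∀ v N B P, 0 ≤ B → 0 ≤ P → b.Sec v → c.H2 N v →
    c.H0 B (fun y => c.lapV v y + D v y) → c.Sup P v → c.H2 (K * (B + P)) v
  sol : ∀ (κ : Type) [Fintype κ] [DecidableEq κ] (b : Bu G κ) (L μ : ℝ), 0 < μ → ∃ K ≥ (0 : ℝ),
    ∀ m D, c.Met b m L → c.Low b D L → c.MP b m D μ → c.Solv b D K

/-- the Fredholm alternative. -/
def LzS [MeasurableSpace X] (μ : Measure X) : Prop := ∀ (κ : Type) [Fintype κ] [DecidableEq κ]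
  (b : Bu G κ) (L : ℝ) (m : Y → Mat κ) (D : (Y → κ → ℂ) → Y → κ → ℂ), c.Met b m L → c.Low b D L →
  c.MP b m D 0 → (∀ v w N N', b.Sec v → b.Sec w → c.H2 N v → c.H2 N' w →
    ∫ x, ip (m (c.lf x)) (c.lapV v (c.lf x) + D v (c.lf x)) (w (c.lf x)) ∂μ =
      ∫ x, ip (m (c.lf x)) (v (c.lf x)) (c.lapV w (c.lf x) + D w (c.lf x)) ∂μ) →
  ∀ f B, b.Sec f → c.H0 B f → (∀ w N, b.Sec w → c.H2 N w → (∀ y, c.lapV w y + D w y = 0) →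
    ∫ x, ip (m (c.lf x)) (f (c.lf x)) (w (c.lf x)) ∂μ = 0) →
  ∃ v N, b.Sec v ∧ c.H2 N v ∧ ∀ y, c.lapV v y + D v y = f y

/-- Green's formula. -/
structure GrS [MeasurableSpace X] (μ : Measure X) : Prop where
  vec : ∀ (κ : Type) [Fintype κ] (u w : Y → κ → ℂ) (R : G → Mat κ) (k : G → κ → ℂ), c.CkV 2 u →
    c.CkV 1 w → (∀ (γ : G) y, u (γ • y) = R γ *ᵥ u y + k γ ∧ w (γ • y) ᵥ* R γ = w y) →
    Continuous (fun x => ∑ j, (w (c.lf x) j * c.lapV u (c.lf x) j +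
      c.gr (fun y => w y j) (fun y => u y j) (c.lf x))) ∧
    ∫ x, ∑ j, (w (c.lf x) j * c.lapV u (c.lf x) j +
      c.gr (fun y => w y j) (fun y => u y j) (c.lf x)) ∂μ = 0
  mat : ∀ (r : Type) [Fintype r] [DecidableEq r] (u w : Y → Mat r) (R R' : G → Mat r), c.CkM 2 u →
    c.CkM 1 w → (∀ (γ : G) y, u (γ • y) = R γ * u y * R' γ ∧ R' γ * w (γ • y) * R γ = w y) →
    Continuous (fun x => trace (w (c.lf x) * c.lM u (c.lf x) + c.qM w 1 u (c.lf x))) ∧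
    ∫ x, trace (w (c.lf x) * c.lM u (c.lf x) + c.qM w 1 u (c.lf x)) ∂μ = 0
  ten : ∀ (r : Type) [Fintype r] [DecidableEq r] (u : Y → Mat r) (R R' : G → Mat r), c.CkM 2 u →
    (∀ y, (u y).det ≠ 0) → (∀ (γ : G) y, u (γ • y) = R γ * u y * R' γ) →
    Continuous (fun x => trace ((u (c.lf x))⁻¹ * c.ten u (c.lf x))) ∧
    ∫ x, trace ((u (c.lf x))⁻¹ * c.ten u (c.lf x)) ∂μ = 0

/-- reference metrics exist. -/
def RefS : Prop := ∀ (r : Type) [Fintype r] [DecidableEq r] (ρ : G →* Mat r), RealR ρ →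
  ∃ H0 l, c.Ref ρ H0 l

/-- the uniform estimate. -/
def C0S : Prop := ∀ (r : Type) [Fintype r] [DecidableEq r] (ρ : G →* Mat r) H0 l, c.Ref ρ H0 l →
  ∃ C, ∀ t ∈ Ioc (0 : ℝ) 1, ∀ H, c.Sl ρ H0 l t H → ∀ y, t * (trm (H0 y) (H y) + trm (H y) (H0 y)) ≤ C

/-- the energy estimate and the scale. -/
def EnS [MeasurableSpace X] (μ : Measure X) : Prop := ∀ (r : Type) [Fintype r] [DecidableEq r]
  (ρ : G →* Mat r) H0 l, c.Ref ρ H0 l → ∃ E, ∀ t ∈ Ioc (0 : ℝ) 1, ∀ H, c.Sl ρ H0 l t H →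
  ∫ x, c.en H (c.lf x) ∂μ ≤ E

/-- the scale. -/
def ScS : Prop := ∀ (r : Type) [Fintype r] [DecidableEq r] (ρ : G →* Mat r) H0 l, c.Ref ρ H0 l →
  ∀ t ∈ Ioc (0 : ℝ) 1, ∀ H, c.Sl ρ H0 l t H →
    (∃ y, trm (H0 y) (H y) ≤ 2 * l * trm (H y) (H0 y)) ∧
      ∃ y, trm (H y) (H0 y) ≤ 2 * l * trm (H0 y) (H y)

/-- the gradient estimate. -/
def GdS : Prop := ∀ (r : Type) [Fintype r] [DecidableEq r] (ρ : G →* Mat r) H0 l, c.Ref ρ H0 l →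
  ∃ E, ∀ t ∈ Ioc (0 : ℝ) 1, ∀ H, c.Sl ρ H0 l t H → ∀ y, c.en H y ≤ E

/-- properness. -/
def PrS : Prop := ∀ (r : Type) [Fintype r] [DecidableEq r] (ρ : G →* Mat r) (H0 : Y → Mat r)
  (E Λ : ℝ), RealR ρ → Irr ρ → c.Gd ρ H0 → ∃ L, ∀ H, c.Gd ρ H → (∀ y, c.en H y ≤ E) →
  (∃ y, trm (H0 y) (H y) ≤ Λ * trm (H y) (H0 y)) → (∃ y, trm (H y) (H0 y) ≤ Λ * trm (H0 y) (H y)) →
  c.BI L H ∧ ∀ a, ∀ z ∈ c.B a, Bd L (H (c.s a z)) ∧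
    ∀ i j, ‖fderiv ℝ (fun w => H (c.s a w) i j) z‖ ≤ L

/-- the second order estimate. -/
def ApS : Prop := ∀ (r : Type) [Fintype r] [DecidableEq r] (ρ : G →* Mat r) H0 l (L : ℝ),
  c.Ref ρ H0 l → ∃ K, ∀ t ∈ Ioc (0 : ℝ) 1, ∀ H, c.Sl ρ H0 l t H → c.BI L H →
  (∀ a, ∀ z ∈ c.B a, Bd L (H (c.s a z)) ∧ ∀ i j, ‖fderiv ℝ (fun w => H (c.s a w) i j) z‖ ≤ L) →
  c.M2 K H

/-- the linearised equation. -/
def LnS : Prop := ∀ (r : Type) [Fintype r] [DecidableEq r] (ρ : G →* Mat r) H0 l (L : ℝ) b,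
  c.Ref ρ H0 l → IsBS ρ b → ∃ L', ∀ H, c.Gd ρ H → c.M2 L H → c.BI L H →
  c.Met b (fun y => kr (H y)) L' ∧ ∀ t ∈ Icc (0 : ℝ) 1, c.Low b (c.DS H0 l t H) L' ∧
    (c.Sl ρ H0 l t H → c.MP b (fun y => kr (H y)) (c.DS H0 l t H) (2 * t))

/-- regularity. -/
structure RgS : Prop where
  met : ∀ (r : Type) [Fintype r] [DecidableEq r] (ρ : G →* Mat r) H0 l (t N : ℝ) (H : Y → Mat r),
    c.Gd ρ H0 → EqH ρ H → (∀ y, RS (H y) ∧ (H y).PosDef) → c.M2 N H →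
    (∀ a, ∀ z ∈ c.B a, c.ten H (c.s a z) =
      (t : ℂ) • rh l (H0 (c.s a z)) (c.ten H0 (c.s a z)) (H (c.s a z))) → c.Sl ρ H0 l t H
  vec : ∀ (r : Type) [Fintype r] [DecidableEq r] (ρ : G →* Mat r) (H : Y → Mat r)
    (x f : Y → r → ℂ) (N : ℝ), c.Gd ρ H → EqV ρ 0 x → c.H2 N x → c.CkV ∞ f →
    (∀ y, c.tl H x y = f y) → c.CkV ∞ x

/-- openness. -/
def OpS : Prop := ∀ (r : Type) [Fintype r] [DecidableEq r] (ρ : G →* Mat r) H0 l (L t0 : ℝ),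
  c.Ref ρ H0 l → 0 < t0 → ∃ δ > (0 : ℝ), ∀ t ∈ Icc t0 1, ∀ H, c.Sl ρ H0 l t H → c.M2 L H →
  c.BI L H → ∀ t', |t' - t| ≤ δ → ∃ H', c.Sl ρ H0 l t' H'

/-- the limit. -/
def LmS : Prop := ∀ (r : Type) [Fintype r] [DecidableEq r] (ρ : G →* Mat r) H0 l (L : ℝ)
  (t : ℕ → ℝ) (H : ℕ → Y → Mat r), c.Ref ρ H0 l → Tendsto t atTop (𝓝 0) →
  (∀ j, c.Sl ρ H0 l (t j) (H j) ∧ c.M2 L (H j) ∧ c.BI L (H j)) → ∃ K, c.Har ρ K

/-- the irreducible case. -/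
def CiS : Prop := ∀ (r : Type) [Fintype r] [DecidableEq r] (ρ : G →* Mat r), RealR ρ → Irr ρ →
  ∃ H, c.Har ρ H

/-- the twisted Laplacian. -/
structure TlS [MeasurableSpace X] (μ : Measure X) : Prop where
  sol : ∀ (r : Type) [Fintype r] [DecidableEq r] (ρ : G →* Mat r) (H : Y → Mat r), c.Har ρ H →
    ∀ f, EqV ρ 0 f → c.CkV ∞ f → (∀ v, (∀ γ, ρ γ *ᵥ v = v) →
      ∫ x, ip (H (c.lf x)) (f (c.lf x)) v ∂μ = 0) →
    ∃ x, EqV ρ 0 x ∧ c.CkV ∞ x ∧ ∀ y, c.tl H x y = f y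
  ker : ∀ (r : Type) [Fintype r] [DecidableEq r] (ρ : G →* Mat r) (H : Y → Mat r), RealR ρ →
    c.Gd ρ H → ∀ x, EqV ρ 0 x → c.CkV 2 x → (∀ y, c.tl H x y = 0) → ∀ y y', x y = x y'

/-- the dictionary to the data of the main line. -/
structure DcS : Prop where
  har : ∀ (r : Type) [Fintype r] [DecidableEq r] (D : Dt c.M c.p G r), c.Gd D.ρ D.H ∧
    (D.Harm c.g ↔ c.Har D.ρ D.H)
  mk' : ∀ (r : Type) [Fintype r] [DecidableEq r] (ρ : G →* Mat r) H, c.Har ρ H →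
    ∃ D : Dt c.M c.p G r, D.ρ = ρ ∧ D.H = H
  aff : ∀ (r : Type) [Fintype r] [DecidableEq r] (D : Dt c.M c.p G r) k x,
    D.Aff k x ↔ EqV D.ρ k x ∧ c.CkV ∞ x
  lap : ∀ (r : Type) [Fintype r] [DecidableEq r] (D : Dt c.M c.p G r) x f, c.CkV ∞ x →
    (D.Lap c.g x f ↔ ∀ y, (2 : ℂ) • c.tl D.H x y = f y)

end Sx

/-- the sheets exist. -/
def SxS : Prop := ∀ (ι X Y G : Type) [Fintype ι] [DecidableEq ι] [TopologicalSpace X]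
  [CompactSpace X] [TopologicalSpace Y] [Group G] [MulAction G Y] (M : Atl ι X) (g : X → Mat ι)
  (p : Y → X), IsQuotientCoveringMap p G → M.IsK g →
  ∃ c : Sx ι X Y G, c.M = M ∧ c.g = g ∧ c.p = p

end Pool.Agent.Lib.MP_813db1_ag.VH.Co
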