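import Pool.Agent.Lib.MP_813db1_ag.VH.Stmt

/-! The polarised double of a pluriharmonic datum with a real pluriharmonic map. -/

namespace Pool.Agent.Lib.MP_813db1_ag.VH

open Pool.Agent.Lib.MP_813db1_ag.HS Pool.Agent.Lib.MP_813db1_ag.AS
open Complex Matrix Filter Topology Set
open scoped ContDiff ComplexOrder

namespace Dbl

section loc

variable {ι r : Type} [Fintype ι] [DecidableEq ι] {F : V ι → Mat r} {u v : V ι → V r} {z : V ι}

theorem cg (h : u =ᶠ[𝓝 z] v) (k : ι) : dV u k z = dV v k z :=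
  funext fun i => dz_congr (h.mono fun _ e => congrFun e i) k

theorem cgb (h : u =ᶠ[𝓝 z] v) (k : ι) : dVb u k z = dVb v k z :=
  funext fun i => dzb_congr (h.mono fun _ e => congrFun e i) k

theorem st (hu : ∀ w, star (u w) = u w) (k : ι) (z : V ι) : star (dV u k z) = dVb u k z :=
  funext fun i => (dzb_real (Eventually.of_forall fun w => congrFun (hu w) i) k).symm

variable [Fintype r]

omit [DecidableEq ι] in
theorem co (hu : ContDiffAt ℝ ∞ u z) (i : r) : ContDiffAt ℝ ∞ (fun w => u w i) z :=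
  contDiffAt_pi.1 hu i

omit [DecidableEq ι] in
theorem co2 (hu : ContDiffAt ℝ ∞ u z) (i : r) : ContDiffAt ℝ 2 (fun w => u w i) z :=
  (co hu i).of_le (WithTop.coe_le_coe.2 (le_top : (2 : ℕ∞) ≤ ⊤))

theorem sm (hu : ContDiffAt ℝ ∞ u z) (k : ι) : ContDiffAt ℝ ∞ (dV u k) z :=
  contDiffAt_pi.2 fun i => contDiffAt_dz_top (co hu i) k

theorem smb (hu : ContDiffAt ℝ ∞ u z) (k : ι) : ContDiffAt ℝ ∞ (dVb u k) z :=
  contDiffAt_pi.2 fun i => contDiffAt_dzb_top (co hu i) k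

omit [DecidableEq ι] in
theorem smv (hF : SmR F z) (hu : ContDiffAt ℝ ∞ u z) (c : ℂ) (i : r) :
    ContDiffAt ℝ ∞ (fun w => (c • F w *ᵥ u w) i) z :=
  contDiffAt_const.mul (ContDiffAt.sum fun j _ => (hF i j).mul (co hu j))

theorem mv (hF : SmR F z) (hu : ContDiffAt ℝ ∞ u z) (c : ℂ) (k : ι) :
    dV (fun w => c • F w *ᵥ u w) k z = c • (dR F k z *ᵥ u z + F z *ᵥ dV u k z) := by
  ext i
  have h1 := fun j => (hF i j).differentiableAt (by simp)
  have h2 := fun j => (co hu j).differentiableAt (by simp)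
  show dz (fun w => c * ∑ j, F w i j * u w j) k z =
    c * (∑ j, dR F k z i j * u z j + ∑ j, F z i j * dV u k z j)
  rw [dz_cmul c (DifferentiableAt.fun_sum fun j _ => (h1 j).fun_mul (h2 j)),
    dz_sum _ fun j _ => (h1 j).fun_mul (h2 j), ← Finset.sum_add_distrib]
  exact congrArg _ (Finset.sum_congr rfl fun j _ => dz_mul (h1 j) (h2 j) k)

theorem mvb (hF : SmR F z) (hu : ContDiffAt ℝ ∞ u z) (c : ℂ) (k : ι) :
    dVb (fun w => c • F w *ᵥ u w) k z = c • (dRb F k z *ᵥ u z + F z *ᵥ dVb u k z) := by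
  ext i
  have h1 := fun j => (hF i j).differentiableAt (by simp)
  have h2 := fun j => (co hu j).differentiableAt (by simp)
  show dzb (fun w => c * ∑ j, F w i j * u w j) k z =
    c * (∑ j, dRb F k z i j * u z j + ∑ j, F z i j * dVb u k z j)
  rw [dzb_cmul c (DifferentiableAt.fun_sum fun j _ => (h1 j).fun_mul (h2 j)),
    dzb_sum _ fun j _ => (h1 j).fun_mul (h2 j), ← Finset.sum_add_distrib]
  exact congrArg _ (Finset.sum_congr rfl fun j _ => dzb_mul (h1 j) (h2 j) k)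

theorem aff (hu : ContDiffAt ℝ ∞ u z) (R : Mat r) (c : V r) (k : ι) :
    dV (fun w => R *ᵥ u w + c) k z = R *ᵥ dV u k z := by
  ext i
  have h2 := fun j => ((co hu j).differentiableAt (by simp)).const_mul (R i j)
  show dz (fun w => ∑ j, R i j * u w j + c i) k z = ∑ j, R i j * dV u k z j
  rw [dz_add (DifferentiableAt.fun_sum fun j _ => h2 j) (differentiableAt_const _), dz_const,
    add_zero, dz_sum _ fun j _ => h2 j]
  exact Finset.sum_congr rfl fun j _ => dz_cmul _ ((co hu j).differentiableAt (by simp)) k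

theorem cmp {τ : V ι → V ι} (hu : ContDiffAt ℝ ∞ u (τ z)) (h : DifferentiableAt ℂ τ z) (k : ι) :
    dV (u ∘ τ) k z = ∑ l, jac τ z l k • dV u l (τ z) := by
  ext i
  rw [Finset.sum_apply]
  exact dz_comp ((co hu i).differentiableAt (by simp)) h k

theorem smul_star {R : Mat r} (hr : R.map star = R) (b : V r) : star (R *ᵥ b) = R *ᵥ star b := by
  conv_rhs => rw [← hr]
  ext i
  simp [mulVec, dotProduct]

variable [DecidableEq r]

omit [Fintype ι] in
theorem ca1 (h : IsUnit (F z).det) (k : ι) : dR F k z = F z * ca F k z :=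
  (mul_nonsing_inv_cancel_left _ _ h).symm

omit [Fintype ι] in
theorem cb1 (h : IsUnit (F z).det) (k : ι) : dRb F k z = F z * cb F k z :=
  (mul_nonsing_inv_cancel_left _ _ h).symm

omit [Fintype ι] in
theorem ca2 (hs : ∀ w, (F w)ᵀ = F w) (h : IsUnit (F z).det) (k : ι) :
    (ca F k z)ᵀ * F z = F z * ca F k z := by
  have h1 : (dR F k z)ᵀ = dR F k z := by
    ext i j
    exact congrArg (dz · k z) (funext fun w => congrFun (congrFun (hs w) i) j)
  rw [← ca1 h, ca, transpose_mul, transpose_nonsing_inv, hs, h1, nonsing_inv_mul_cancel_right _ _ h]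

omit [Fintype ι] in
theorem cb2 (hs : ∀ w, (F w)ᵀ = F w) (h : IsUnit (F z).det) (k : ι) :
    (cb F k z)ᵀ * F z = F z * cb F k z := by
  have h1 : (dRb F k z)ᵀ = dRb F k z := by
    ext i j
    exact congrArg (dzb · k z) (funext fun w => congrFun (congrFun (hs w) i) j)
  rw [← cb1 h, cb, transpose_mul, transpose_nonsing_inv, hs, h1, nonsing_inv_mul_cancel_right _ _ h]

theorem ip {H : Mat r} (hs : Hᵀ = H) (hr : H.map star = H) (h : IsUnit H.det) (a b : V r) :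
    ipV H⁻¹ (I • H *ᵥ a) (I • H *ᵥ b) = ipV H a b := by
  have e : ∀ (K : Mat r) (c d : V r), ipV K c d = c ⬝ᵥ K *ᵥ star d := fun K c d => by
    simp only [ipV, dotProduct, mulVec, Finset.mul_sum, Pi.star_apply]
    exact Finset.sum_congr rfl fun i _ => Finset.sum_congr rfl fun j _ => by ring
  rw [e, e, star_smul, smul_star hr, mulVec_smul, mulVec_mulVec, nonsing_inv_mul _ h, one_mulVec,
    smul_dotProduct, dotProduct_smul, smul_smul, star_I, mul_neg, I_mul_I, neg_neg, one_smul,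
    dotProduct_mulVec, ← mulVec_transpose, hs]

end loc

variable {ι X Y G r : Type} [Fintype ι] [DecidableEq ι] [TopologicalSpace X] [TopologicalSpace Y]
  [Group G] [MulAction G Y] {M : Atl ι X} {p : Y → X} [Fintype r] [DecidableEq r]
  {e : Ch ι X} {z : V ι} {s : V ι → Y}

omit [DecidableEq ι] in
theorem sy (D : Dt M p G r) (y : Y) : (D.H y)ᵀ = D.H y := by
  conv_rhs => rw [← (D.pos y).isHermitian.eq]
  conv_lhs => rw [← D.reH y]
  rfl

omit [DecidableEq ι] in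
theorem un (D : Dt M p G r) (y : Y) : IsUnit (D.H y).det :=
  (isUnit_iff_isUnit_det _).1 (D.pos y).isUnit

open Classical in
/-- the conjugate form. -/
noncomputable def fa (hp : IsLocalHomeomorph p) (D : Dt M p G r) (x : Y → V r) (e : Ch ι X) (y : Y)
    (k : ι) : V r :=
  if e ∈ M.A then I • D.H y *ᵥ dV (x ∘ F12.sh hp y e) k (e (p y)) else 0

variable (hp : IsLocalHomeomorph p) (D : Dt M p G r) {x : Y → V r}

theorem fa_at (he : e ∈ M.A) (hz : z ∈ e.target) (hs : F12.Sec p e z s) (k : ι) :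
    fa hp D x e (s z) k = I • D.H (s z) *ᵥ dV (x ∘ s) k z := by
  rw [fa, if_pos he, hs.2.self_of_nhds, e.right_inv hz, cg ((hs.eq hp hz).fun_comp x) k]

theorem fb_at (hx : ∀ y, star (x y) = x y) (he : e ∈ M.A) (hz : z ∈ e.target)
    (hs : F12.Sec p e z s) (k : ι) :
    star (fa hp D x e (s z) k) = (-I) • D.H (s z) *ᵥ dVb (x ∘ s) k z := by
  rw [fa_at hp D he hz hs, star_smul, star_I, smul_star (D.reH _), st (u := x ∘ s) fun w => hx _]

theorem fa_ev (he : e ∈ M.A) (hz : z ∈ e.target) (hs : F12.Sec p e z s) (k : ι) :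
    (fun w => fa hp D x e (s w) k) =ᶠ[𝓝 z] fun w => I • (D.H ∘ s) w *ᵥ dV (x ∘ s) k w := by
  filter_upwards [hs.ev hp hz, e.open_target.mem_nhds hz] with w h1 h2 using fa_at hp D he h2 h1 k

theorem fb_ev (hx : ∀ y, star (x y) = x y) (he : e ∈ M.A) (hz : z ∈ e.target)
    (hs : F12.Sec p e z s) (k : ι) : (fun w => star (fa hp D x e (s w) k)) =ᶠ[𝓝 z]
      fun w => (-I) • (D.H ∘ s) w *ᵥ dVb (x ∘ s) k w := by
  filter_upwards [hs.ev hp hz, e.open_target.mem_nhds hz] with w h1 h2 using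
    fb_at hp D hx he h2 h1 k

theorem tra (hx : Sm M p x) {e' : Ch ι X} (he : e ∈ M.A) (he' : e' ∈ M.A) {y : Y}
    (h : p y ∈ e.source) (h' : p y ∈ e'.source) (k : ι) :
    fa hp D x e y k = ∑ l, tj e e' (p y) l k • fa hp D x e' y l := by
  have a1 := F12.sh_self hp h
  have a2 := F12.sh_self hp h'
  have a3 := M.hol e he e' he' _ h h'
  have a4 : (e' ∘ e.symm) (e (p y)) = e' (p y) := by simp [e.left_inv h]
  have a5 : F12.sh hp y e =ᶠ[𝓝 (e (p y))] F12.sh hp y e' ∘ (e' ∘ e.symm) := by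
    refine F12.uniq hp a1.1.1 (ContinuousAt.comp (a4 ▸ a2.1.1) a3.continuousAt)
      (by rw [a1.2, Function.comp_apply, a4, a2.2]) ?_
    filter_upwards [a1.1.2, a3.continuousAt.eventually (a4 ▸ a2.1.2),
      F1.ev (e.map_source h) e'.open_source (by rwa [e.left_inv h])] with w b1 b2 b3
    rw [b1, Function.comp_apply, b2, Function.comp_apply, e'.left_inv b3.2]
  have a6 := cmp (u := x ∘ F12.sh hp y e') (a4 ▸ hx e' he' _ (e'.map_source h') _ a2.1)
    a3.differentiableAt k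
  rw [fa, if_pos he, cg (a5.fun_comp x) k, ← Function.comp_assoc, a6, a4, mulVec_sum,
    Finset.smul_sum]
  exact Finset.sum_congr rfl fun l _ => by rw [fa, if_pos he', mulVec_smul, smul_comm]; rfl

theorem fm1 (hx : Sm M p x) (hr : ∀ y, star (x y) = x y) :
    Fm1 M p (fa hp D x) fun e y k => star (fa hp D x e y k) where
  sma := fun e he z hz s hs k i => (smv (D.sm e he z hz s hs) (sm (hx e he z hz s hs) k) I
    i).congr_of_eventuallyEq ((fa_ev hp D he hz hs k).mono fun _ h => congrFun h i)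
  smb := fun e he z hz s hs k i => (smv (D.sm e he z hz s hs) (smb (hx e he z hz s hs) k) (-I)
    i).congr_of_eventuallyEq ((fb_ev hp D hr he hz hs k).mono fun _ h => congrFun h i)
  tra := fun _ he _ he' _ h h' k => tra hp D hx he he' h h' k
  trb := fun _ he _ he' _ h h' k => by
    rw [tra hp D hx he he' h h' k, star_sum]
    exact Finset.sum_congr rfl fun l _ => star_smul _ _

theorem cl1 (hx : Sm M p x) (hr : ∀ y, star (x y) = x y) (hP : D.PX x) :
    Cl1 M p (fa hp D x) fun e y k => star (fa hp D x e y k) := by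
  intro e he z hz s hs i k
  have h1 := D.sm e he z hz s hs
  have h2 := hx e he z hz s hs
  obtain ⟨h3, h4, h5⟩ := hP e he z hz s hs
  have h6 : IsUnit ((D.H ∘ s) z).det := un D _
  have c1 : dV (dV (x ∘ s) i) k z = dV (dV (x ∘ s) k) i z :=
    funext fun j => dz_dz_comm (co2 h2 j) k i
  have c2 : dVb (dVb (x ∘ s) i) k z = dVb (dVb (x ∘ s) k) i z :=
    funext fun j => dzb_dzb_comm (co2 h2 j) k i
  have c3 : dVb (dV (x ∘ s) i) k z = dV (dVb (x ∘ s) k) i z :=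
    funext fun j => (dz_dzb_comm (co2 h2 j) i k).symm
  refine ⟨?_, ?_, ?_⟩
  · rw [cg (fa_ev hp D he hz hs i), cg (fa_ev hp D he hz hs k), mv h1 (sm h2 i), mv h1 (sm h2 k),
      ca1 h6, ca1 h6, ← mulVec_mulVec, ← mulVec_mulVec, h4, c1]
  · rw [cgb (fb_ev hp D hr he hz hs i), cgb (fb_ev hp D hr he hz hs k), mvb h1 (smb h2 i),
      mvb h1 (smb h2 k), cb1 h6, cb1 h6, ← mulVec_mulVec, ← mulVec_mulVec, h5, c2]
  · have h7 := congrArg (fun t => I • (D.H ∘ s) z *ᵥ t) (h3 i k)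
    simp only [px, mulVec_add, mulVec_smul, mulVec_zero, smul_zero] at h7
    rw [cgb (fa_ev hp D he hz hs i), cg (fb_ev hp D hr he hz hs k), mvb h1 (sm h2 i),
      mv h1 (smb h2 k), ca1 h6, cb1 h6, ← mulVec_mulVec, ← mulVec_mulVec, c3, ← sub_eq_zero, ← h7]
    module

theorem eq1 (hq : IsQuotientCoveringMap p G) {c : G → V r} (hx : D.Aff c x) {ρ : G →* Mat r}
    (hρ : ∀ g, ρ g = (D.ρ g⁻¹)ᵀ) : Eq1 p ρ (fa hp D x) := by
  intro e g y h k
  by_cases he : e ∈ M.A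
  · have a1 := F12.sh_self hp h
    have a2 := fa_at (x := x) hp D he (e.map_source h) (a1.1.smul hq g) k
    rw [a1.2] at a2
    have a3 : (x ∘ fun w => g • F12.sh hp y e w) = fun w =>
        D.ρ g *ᵥ (x ∘ F12.sh hp y e) w + c g := funext fun w => hx.2 g _
    rw [a2, a3, aff (hx.1 e he _ (e.map_source h) _ a1.1), fa, if_pos he, D.eqv, hρ, mulVec_smul,
      mulVec_mulVec, mulVec_mulVec, mul_assoc, ← map_mul, inv_mul_cancel, map_one, mul_one]
  · rw [fa, fa, if_neg he, if_neg he, mulVec_zero]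

/-- the conjugate map. -/
theorem conj (hq : IsQuotientCoveringMap p G) (hPr : PrimS M p G) {c : G → V r} (hx : D.Aff c x)
    (hr : ∀ y, star (x y) = x y) (hP : D.PX x) (E : Dt M p G r) (hρ : ∀ g, E.ρ g = (D.ρ g⁻¹)ᵀ) :
    ∃ c' x', E.Aff c' x' ∧ (∀ y, star (x' y) = x' y) ∧ Loc M p fun _ z s => ∀ k,
      dV (x' ∘ s) k z = I • (D.H ∘ s) z *ᵥ dV (x ∘ s) k z ∧
      dVb (x' ∘ s) k z = (-I) • (D.H ∘ s) z *ᵥ dVb (x ∘ s) k z := by
  have hp := hq.isCoveringMap.isLocalHomeomorph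
  obtain ⟨x', h1, h2, h3, h4⟩ := hPr r _ _ (fm1 hp D hx.1 hr) (cl1 hp D hx.1 hr hP)
  have h5 := eq1 hp D hq hx hρ
  obtain ⟨c', -, h6⟩ := h4 E.ρ h5 fun e g y h k =>
    (congrArg star (h5 e g y h k)).trans (smul_star (E.reR g) _)
  exact ⟨c', x', ⟨h1, h6⟩, h3 fun _ _ _ => rfl, fun e he z hz s hs k =>
    ⟨(h2 e he z hz s hs k).1.trans (fa_at hp D he hz hs k),
      (h2 e he z hz s hs k).2.trans (fb_at hp D hr he hz hs k)⟩⟩

include hp in
theorem cpx {x' : Y → V r} (hx : Sm M p x) (hP : D.PX x) (E : Dt M p G r)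
    (hE : Loc M p fun _ z s => ∀ k,
      ca (E.H ∘ s) k z = -(ca (D.H ∘ s) k z)ᵀ ∧ cb (E.H ∘ s) k z = -(cb (D.H ∘ s) k z)ᵀ)
    (h : Loc M p fun _ z s => ∀ k, dV (x' ∘ s) k z = I • (D.H ∘ s) z *ᵥ dV (x ∘ s) k z ∧
      dVb (x' ∘ s) k z = (-I) • (D.H ∘ s) z *ᵥ dVb (x ∘ s) k z) : E.PX x' := by
  intro e he z hz s hs
  have h1 := D.sm e he z hz s hs
  have h2 := hx e he z hz s hs
  obtain ⟨h3, h4, h5⟩ := hP e he z hz s hs
  have h6 : IsUnit ((D.H ∘ s) z).det := un D _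
  have h7 := h e he z hz s hs
  have h8 := hE e he z hz s hs
  have h9 : ∀ w, ((D.H ∘ s) w)ᵀ = (D.H ∘ s) w := fun w => sy D _
  have a1 : ∀ i v, ca (E.H ∘ s) i z *ᵥ ((D.H ∘ s) z *ᵥ v) =
      -((D.H ∘ s) z *ᵥ (ca (D.H ∘ s) i z *ᵥ v)) := fun i v => by
    rw [(h8 i).1, neg_mulVec, mulVec_mulVec, ca2 h9 h6, mulVec_mulVec]
  have a2 : ∀ i v, cb (E.H ∘ s) i z *ᵥ ((D.H ∘ s) z *ᵥ v) =
      -((D.H ∘ s) z *ᵥ (cb (D.H ∘ s) i z *ᵥ v)) := fun i v => by
    rw [(h8 i).2, neg_mulVec, mulVec_mulVec, cb2 h9 h6, mulVec_mulVec]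
  refine ⟨fun i j => ?_, fun i k => ?_, fun i k => ?_⟩
  · have b1 : dVb (x' ∘ s) j =ᶠ[𝓝 z] fun w => (-I) • (D.H ∘ s) w *ᵥ dVb (x ∘ s) j w := by
      filter_upwards [hs.ev hp hz, e.open_target.mem_nhds hz] with w c1 c2 using
        (h e he w c2 s c1 j).2
    have b2 := congrArg (fun t => (-I) • (D.H ∘ s) z *ᵥ t) (h3 i j)
    simp only [px, mulVec_add, mulVec_smul, mulVec_zero, smul_zero] at b2
    rw [px, cg b1, mv h1 (smb h2 j), (h7 i).1, (h7 j).2, mulVec_smul, mulVec_smul, a1, a2, ca1 h6,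
      ← mulVec_mulVec, ← b2]
    module
  · rw [(h7 i).1, (h7 k).1, mulVec_smul, mulVec_smul, a1, a1, h4]
  · rw [(h7 i).2, (h7 k).2, mulVec_smul, mulVec_smul, a2, a2, h5]

end Dbl

variable {ι X Y G : Type} [Fintype ι] [DecidableEq ι] [TopologicalSpace X] [TopologicalSpace Y]
  [Group G] [MulAction G Y] {M : Atl ι X} {p : Y → X}

theorem dblS (hq : IsQuotientCoveringMap p G) (hS : SumS M p G) (hD : DualS M p G)
    (hP : PrimS M p G) : DblS M p G := by
  intro r _ _ D c x τ ξ h1 h2 h3 h4 h5 h6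
  have hp := hq.isCoveringMap.isLocalHomeomorph
  obtain ⟨D', a1, a2, a3, a4, a5⟩ := hD r D
  obtain ⟨c', x', b1, b2, b3⟩ := Dbl.conj D hq hP h2 h3 h4 D' a1
  obtain ⟨E, d1, d2, d3, -, d4, d5⟩ := hS r r D D'
  obtain ⟨d6, d7⟩ := d5 x x' h2.1 b1.1
  have hJ : ∀ y, E.J (fromBlocks 0 1 (-1) 0) y = fromBlocks 0 (D.H y)⁻¹ (-D.H y) 0 := fun y => by
    have : (E.H y)⁻¹ = fromBlocks (D.H y)⁻¹ 0 0 (D.H y) := inv_eq_right_inv (by
      rw [d2, a2, fromBlocks_multiply, mul_nonsing_inv _ (Dbl.un D y),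
        nonsing_inv_mul _ (Dbl.un D y)]
      simp)
    rw [Dt.J, this, fromBlocks_multiply]
    simp
  refine ⟨E, fromBlocks 0 1 (-1) 0, fun g => Sum.elim (c g) (c' g),
    fun y => Sum.elim (x y) (x' y), d3 h1 (a3 h1), ⟨fun e he z hz s hs => ?_, fun g y => ?_⟩,
    d6 h4 (Dbl.cpx hp D h2.1 h4 D' a5 b3), ⟨?_, ?_, fun y => ?_, fun g => ?_, fun y => ?_,
      fun e he z hz s hs k => ?_⟩, d4 τ τ h5 (a4 τ h5), d7 ξ ξ h6 fun e he z hz s hs => ?_⟩
  · refine contDiffAt_pi.2 fun i => ?_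
    rcases i with i | i
    · exact Dbl.co (h2.1 e he z hz s hs) i
    · exact Dbl.co (b1.1 e he z hz s hs) i
  · beta_reduce
    rw [d1, fromBlocks_mulVec, h2.2, b1.2]
    ext (i | i) <;> simp
  · ext (i | i) (j | j) <;> simp [one_apply]
  · rw [fromBlocks_transpose, fromBlocks_neg]
    simp
  · rw [hJ, fromBlocks_multiply, ← fromBlocks_one, fromBlocks_neg]
    simp [mul_nonsing_inv _ (Dbl.un D y), nonsing_inv_mul _ (Dbl.un D y)]
  · rw [d1, a1, fromBlocks_transpose, fromBlocks_multiply, fromBlocks_multiply]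
    simp [← transpose_mul, ← map_mul]
  · ext (i | i)
    · exact congrFun (h3 y) i
    · exact congrFun (b2 y) i
  · have e1 : dV ((fun y => Sum.elim (x y) (x' y)) ∘ s) k z =
        Sum.elim (dV (x ∘ s) k z) (dV (x' ∘ s) k z) := by
      ext (i | i) <;> rfl
    rw [hJ, e1, (b3 e he z hz s hs k).1, fromBlocks_mulVec]
    ext (i | i)
    · simp [mulVec_smul, nonsing_inv_mul _ (Dbl.un D _)]
    · simp [neg_mulVec, ← mul_assoc]
  · refine (h6 e he z hz s hs).trans ?_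
    ext i j
    show ipV (D.H (s z)) _ _ = ipV (D'.H (s z)) _ _
    rw [(b3 e he z hz s hs i).1, (b3 e he z hz s hs j).1, a2]
    exact (Dbl.ip (Dbl.sy D _) (D.reH _) (Dbl.un D _) _ _).symm

end Pool.Agent.Lib.MP_813db1_ag.VH
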