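import Pool.Agent.Lib.MP_813db1_ag.SV.PolS
import Pool.Agent.Lib.MP_bbd4b9_ag.BR.KStmt
import Pool.Agent.Lib.MP_813db1_ag.AN.Pot
import Pool.Agent.Lib.MP_813db1_ag.AS.F1
import Pool.Agent.Lib.MP_813db1_ag.HS.AYAll

/-! Lifts of forms to the sheets of a covering space, their primitives and frames. -/

namespace Pool.Agent.Lib.MP_813db1_ag.VH

open Pool.Agent.Lib.MP_813db1_ag.HS Pool.Agent.Lib.MP_813db1_ag.AS Pool.Agent.Lib.MP_813db1_ag.AN
open Pool.Agent.Lib.MP_bbd4b9_ag.BR Pool.Agent.Lib.MP_813db1_ag.SV.PolP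
open MeasureTheory Complex Matrix Filter Topology Set Metric
open scoped ContDiff ComplexOrder

variable {ι X Y : Type} [Fintype ι] [DecidableEq ι] [TopologicalSpace X] [TopologicalSpace Y]

/-- the form `B` is a Kaehler form that becomes exact on the covering space. -/
def ExF [ChartedSpace (ι → ℂ) X] (M : Atl ι X) (B : X → Mat ι) (p : Y → X) : Prop :=
  ∃ K : Kahler ι X, (∀ e ∈ atlas (ι → ℂ) X, ∀ z ∈ e.target, M.repF B e z = K.g e z) ∧ Exact K p

/-- a Kaehler form read in the charts of the manifold. -/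
noncomputable def kah [ChartedSpace (ι → ℂ) X] {M : Atl ι X} (hat : atlas (ι → ℂ) X ⊆ M.A)
    {B : X → Mat ι} (hB : M.IsK B) : Kahler ι X where
  g := M.repF B
  smooth e he i j z hz := ((hB e (hat he)).1.1 z hz i j).contDiffWithinAt
  pos e he := (hB e (hat he)).2
  closed e he := (hB e (hat he)).1.2.2
  trans e he e' he' x hx hx' := (AY.repA' ι X M).repF_tr B e (hat he) e' (hat he') x hx hx'

theorem exF_all [ChartedSpace (ι → ℂ) X] {M : Atl ι X} (hat : atlas (ι → ℂ) X ⊆ M.A) {p : Y → X}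
    (hE : ∀ K : Kahler ι X, Exact K p) {B : X → Mat ι} (hB : M.IsK B) : ExF M B p :=
  ⟨kah hat hB, fun _ _ _ _ => rfl, hE _⟩

namespace Kb

variable {MX : Atl ι X} {gX : X → Mat ι} {p : Y → X} {M : Atl ι Y} {g : Y → Mat ι} {S : St M g}
  (L : Lk MX gX p S)

/-- the lift of a form. -/
noncomputable def upF (B : X → Mat ι) (y : Y) : Mat ι :=
  MX.repF B (L.e (S.ty (S.ch y))) (S.c (S.ch y) y)

theorem up_upF (B : X → Mat ι) : Up L B (upF L B) := fun k z hz => by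
  have hz' : z ∈ (S.c k).target := S.tgt k ▸ hz
  obtain ⟨y, hy, rfl⟩ : ∃ y ∈ (S.c k).source, S.c k y = z :=
    ⟨_, (S.c k).map_target hz', (S.c k).right_inv hz'⟩
  have hc : y ∈ (S.c (S.ch y)).source := S.ch_eq y ▸ M.mem y
  have := (AY.repA' ι X MX).repF_tr B _ (L.mem _) _ (L.mem _) _ (src L hy) (src L hc)
  rw [co L hy, co L hc] at this
  rw [RepA.repF_apply M _ hy, S.ch_eq, tj_eq L hy hc, this, upF]

theorem up_cl {B : X → Mat ι} {B' : Y → Mat ι} (hB : MX.ClF B) (hU : Up L B B') : M.ClF B' :=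
  (AY.repA' ι Y M).clF_loc _ fun y => by
    have hc : y ∈ (S.c (S.ch y)).source := S.ch_eq y ▸ M.mem y
    have hz := ball4 hc
    have h := hB _ (L.mem (S.ty (S.ch y)))
    have ev : ∀ i j, (fun w => M.repF B' (S.c (S.ch y)) w i j) =ᶠ[𝓝 (S.c (S.ch y) y)]
        fun w => MX.repF B (L.e (S.ty (S.ch y))) w i j := fun i j =>
      (ev4 hz).mono fun w hw => by simp only [hU _ w hw]
    refine ⟨_, S.mem _, hc, fun z e i j => ?_, fun z e => ?_, fun z e i j k => ?_⟩ <;>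
      obtain rfl : z = _ := e
    · exact (h.1 _ (tg L hz) i j).congr_of_eventuallyEq (ev i j)
    · rw [hU _ _ hz]
      exact h.2.1 _ (tg L hz)
    · rw [dz_congr (ev i j), dz_congr (ev k j)]
      exact h.2.2 _ (tg L hz) i j k

theorem primU [ChartedSpace (ι → ℂ) X] (hA : atlas (ι → ℂ) X ⊆ MX.A) {B : X → Mat ι}
    {B' : Y → Mat ι} (hU : Up L B B') (hE : ExF MX B p) : ∃ a, Prim M B' a univ := by
  obtain ⟨K, hK, α, h1, h2⟩ := hE
  have ha := repA mat
  have tg : ∀ k, (S.c k).target = (L.e (S.ty k)).target := fun k => (S.tgt k).trans (L.tgt _).symm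
  have pr : ∀ k, ∀ w ∈ (S.c k).target, p ((S.c k).symm w) = (L.e (S.ty k)).symm w := fun k w hw =>
    L.pr k w (S.tgt k ▸ hw)
  have pE : ∀ k, ∀ y ∈ (S.c k).source, (L.e (S.ty k)).symm (S.c k y) = p y := fun k y hy => by
    rw [← pr k _ ((S.c k).map_source hy), (S.c k).left_inv hy]
  have src : ∀ y, y ∈ (S.c (S.ch y)).source := fun y => S.ch_eq y ▸ M.mem y
  have df : ∀ {e e' : Ch ι X} {z}, e ∈ MX.A → e' ∈ MX.A → z ∈ e.target → e.symm z ∈ e'.source →
      DifferentiableAt ℝ (e' ∘ e.symm) z := fun he he' hz hz' =>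
    (F1.sm he he' hz hz').differentiableAt (by simp)
  refine ⟨fun y => (α (chartAt (ι → ℂ) (p y)) y).comp (fderiv ℝ (chartAt (ι → ℂ) (p y) ∘
    (L.e (S.ty (S.ch y))).symm) (S.c (S.ch y) y)), F1.prim_loc ha mat fun y _ => ?_⟩
  rw [S.ch_eq y]
  set k := S.ch y
  set c := S.c k
  set E := L.e (S.ty k)
  set e := chartAt (ι → ℂ) (p y)
  have he : e ∈ atlas (ι → ℂ) X := chart_mem_atlas _ _
  have hE : E ∈ MX.A := L.mem _
  have hz : c y ∈ c.target := c.map_source (src y)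
  have hz' : c y ∈ E.target := tg k ▸ hz
  have q : E.symm (c y) = p y := pE k y (src y)
  have hs : E.symm (c y) ∈ e.source := q ▸ mem_chart_source _ _
  have hp : p y ∈ E.source := q ▸ E.map_target hz'
  have q' : E (p y) = c y := by rw [← q, E.right_inv hz']
  have ev : rep1 M (fun y => (α (chartAt (ι → ℂ) (p y)) y).comp (fderiv ℝ (chartAt (ι → ℂ) (p y) ∘
      (L.e (S.ty (S.ch y))).symm) (S.c (S.ch y) y))) c =ᶠ[𝓝 (c y)] fun w =>
      (α e (c.symm (E (e.symm ((e ∘ E.symm) w))))).comp (fderiv ℝ (e ∘ E.symm) w) := by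
    filter_upwards [F1.ev hz' e.open_source hs] with w ⟨w1, w2⟩
    have w3 : w ∈ c.target := tg k ▸ w1
    have w4 : p (c.symm w) = E.symm w := pr k w w3
    have w5 := src (c.symm w)
    have w6 := mem_chart_source (ι → ℂ) (p (c.symm w))
    have w7 := hA (chart_mem_atlas (ι → ℂ) (p (c.symm w)))
    have e1 : chartAt (ι → ℂ) (p (c.symm w)) ∘ E.symm =ᶠ[𝓝 w]
        (chartAt (ι → ℂ) (p (c.symm w)) ∘ (L.e (S.ty (S.ch (c.symm w)))).symm) ∘
          (S.c (S.ch (c.symm w)) ∘ c.symm) := by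
      filter_upwards [F1.ev w3 (S.c (S.ch (c.symm w))).open_source w5] with v ⟨v1, v2⟩
      simp only [Function.comp]
      rw [pE _ _ v2, pr k v v1]
    rw [rep1, Function.comp_apply, e.left_inv w2, E.right_inv w1, S.ch_eq,
      h1 e he _ (chart_mem_atlas _ (p (c.symm w))) _ (w4 ▸ w2) w6,
      ContinuousLinearMap.comp_assoc, ContinuousLinearMap.comp_assoc]
    congr 1
    refine (fderiv_comp w (df (L.mem _) w7 (tg _ ▸ (S.c _).map_source w5) ?_)
      ((F1.sm (S.mem k) (S.mem _) w3 w5).differentiableAt (by simp))).symm.trans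
      (e1.fderiv_eq.symm.trans ((F1.comp_ev _ w1 w2).fderiv_eq.trans ?_))
    · exact (pE _ _ w5).symm ▸ w6
    · rw [w4] at w6 w7 ⊢
      exact fderiv_comp w (df (hA he) w7 (e.map_source w2) ((e.left_inv w2).symm ▸ w6))
        (df hE (hA he) w1 w2)
  have t1 := e.map_source hs
  have t2 : e.symm (e (E.symm (c y))) ∈ E.source := by rwa [e.left_inv hs, q]
  obtain ⟨a1, a2⟩ := h2 e he _ t1 (fun v => c.symm (E (e.symm v)))
    (ContinuousAt.comp (f := E ∘ e.symm) (c.continuousAt_symm (by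
      rwa [Function.comp_apply, e.left_inv hs, E.right_inv hz']))
      (F1.sm (hA he) hE t1 t2).continuousAt) (by
      filter_upwards [F1.ev t1 E.open_source t2] with v ⟨v1, v2⟩
      rw [pr k _ (tg k ▸ E.map_source v2), E.left_inv v2])
  obtain ⟨b1, b2⟩ := F1.d_pull (A := fun v => α e (c.symm (E (e.symm v)))) (φ := e ∘ E.symm) a1
    (F1.sm hE (hA he) hz' hs)
  refine ⟨b1.congr_of_eventuallyEq ev, fun u v => ?_⟩
  have h5 := (ha ι X MX).repF_tr B E hE e (hA he) _ hp (q ▸ hs)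
  have hd := (ha ι X MX).tj_det E hE e (hA he) _ hp (q ▸ hs)
  have h6 : ∀ u, fderiv ℝ (e ∘ E.symm) (c y) u = tj E e (p y) *ᵥ u := fun u => by
    rw [tj, q', jac_mulVec, (F1.an hE (hA he) hz' hs).differentiableAt.fderiv_restrictScalars ℝ]
    rfl
  rw [q', hK e he _ (q ▸ t1)] at h5
  rw [ev.fderiv_eq, b2, hU k _ (S.tgt k ▸ hz), h5, (mat.pull_pd ι _ _ hd).2.2.2.2.2.2, h6, h6, ← q]
  exact a2 _ _

/-- potentials and holomorphic frames of an exact form. -/
theorem frames {B : Y → Mat ι} {a : Y → Cv ι} (hP : Prim M B a univ) {G : Fin S.n → V ι → Mat ι}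
    (hG : ∀ k, ∀ z ∈ ball (0 : V ι) 4, M.repF B (S.c k) z = G (S.ty k) z) :
    ∃ (ρ : Fin S.n → V ι → ℝ) (f : S.κ → V ι → ℂ), (∀ b, ∀ z ∈ ball (0 : V ι) 4,
      ContDiffAt ℝ ∞ (ρ b) z ∧ levi (fun w => (ρ b w : ℂ)) z = G b z) ∧
      (∀ k, ∀ z ∈ ball (0 : V ι) 4, ContDiffAt ℝ ∞ (f k) z ∧ 2 * (f k z).re = ρ (S.ty k) z) ∧
      ∀ k l y, y ∈ (S.c k).source → y ∈ (S.c l).source →
        AnalyticAt ℂ (fun z => f k z - f l (S.c l ((S.c k).symm z))) (S.c k y) := by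
  have hb : ball (0 : V ι) 4 ⊆ ball 0 5 := ball_subset_ball (by norm_num)
  have hD : ∀ e ∈ M.A, ∀ (U : Set (V ι)) (G : V ι → Mat ι), U ⊆ e.target →
      (∀ z ∈ U, M.repF B e z = G z) → DIm (rep1 M a e) G U := fun e he U G hU h z hz => by
    rw [← h z hz]
    exact hP e he z (hU hz) trivial
  have h0 : ∀ b, ∃ (α : V ι → Cv ι) (f : V ι → ℂ), DIm α (G b) (ball 0 4) ∧ ContDiff ℝ ∞ f ∧
      ∀ z ∈ ball (0 : V ι) 4, (∀ j, dzb f j z = a01 (α z) j) ∧
        levi f z + (levi f z)ᴴ = G b z := fun b => by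
    obtain ⟨k, rfl⟩ := S.onto b
    obtain ⟨e, he, ht, hs, -⟩ := S.big k
    have hr : ∀ z ∈ ball (0 : V ι) 4, M.repF B e z = G (S.ty k) z := fun z hz => by
      rw [← hG k z hz, Atl.repF, Atl.repF, tj, tj, e.right_inv (ht ▸ hb hz),
        (S.c k).right_inv (S.tgt k ▸ hz), hs z hz]
      congr 1
      exact jac_congr ((ev4 hz).mono fun w hw => by simp only [Function.comp, hs w hw])
    obtain ⟨f, hf, hf'⟩ := potA (r := 4) (by norm_num) (by norm_num)
      (hD e he _ _ ht.ge fun _ _ => rfl)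
    exact ⟨_, f, hD e he _ _ (ht ▸ hb) hr, hf, fun z hz => hr z hz ▸ hf' z hz⟩
  choose α f0 hα hf0 e0 using h0
  choose f hre hf using fun k => gaugeA isOpen_ball (convex_ball 0 4) (hα (S.ty k))
    (hD _ (S.mem k) _ _ (S.tgt k).ge (hG k)) (fun z _ => (hf0 _).contDiffAt)
    fun z hz => (e0 _ z hz).1
  refine ⟨fun b z => 2 * (f0 b z).re, f, fun b z hz => ⟨contDiffAt_const.mul
    (reCLM.contDiff.comp (hf0 b)).contDiffAt, ?_⟩, fun k z hz => ⟨(hf k z hz).1, by rw [hre]⟩,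
    fun k l y hk hl => ?_⟩
  · rw [levi_two_re ((hf0 b).contDiffAt.of_le (by norm_cast)), (e0 b z hz).2]
  · refine MP_caab05_ag.GB.osg _ _ _ _ ((S.c k).isOpen_inter_preimage_symm (S.c l).open_source)
      (fun z hz => ?_) _ ⟨(S.c k).map_source hk, by simpa only [mem_preimage, (S.c k).left_inv hk]⟩
    have h1 := hf k z (S.tgt k ▸ hz.1)
    have h2 := hf l _ (S.tgt l ▸ (S.c l).map_source hz.2)
    exact (hol_sub (τ := S.c l ∘ (S.c k).symm)
      (F1.an (S.mem k) (S.mem l) hz.1 hz.2).differentiableAt (h1.1.differentiableAt (by simp))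
      (h2.1.differentiableAt (by simp))
      (fun j => by rw [h1.2, F1.rep1_tr a (S.mem k) (S.mem l) hz.1 hz.2]) h2.2).differentiableWithinAt

end Kb

end Pool.Agent.Lib.MP_813db1_ag.VH
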