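import Pool.Agent.Lib.MP_813db1_ag.VH.St7
import Pool.Agent.Lib.MP_813db1_ag.VH.Kb

/-! Families of twisted Einstein metrics. -/

namespace Pool.Agent.Lib.MP_813db1_ag.VH

open Pool.Agent.Lib.MP_813db1_ag.HS Pool.Agent.Lib.MP_813db1_ag.AS
open MeasureTheory Complex Matrix Filter Topology Set
open scoped ContDiff ComplexOrder

variable {ι X : Type} [Fintype ι] [DecidableEq ι] [TopologicalSpace X] [CompactSpace X]
  {M : Atl ι X} {g σ0 σ : X → Mat ι}

/-- two Kaehler forms are comparable. -/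
theorem FamV.cmp {h : X → Mat ι} (hg : M.IsK g) (hh : M.IsK h) :
    ∃ c : ℝ, 0 < c ∧ ∀ x, (h x - (c : ℂ) • g x).PosSemidef := by
  have A := AY.repA' ι X M
  obtain ⟨T, hT⟩ := isCompact_univ.exists_bound_of_continuousOn
    (A.cont _ (Schw.ck_le (A.ck_trm h g hh fun e he => (hg e he).1.1) 0)).continuousOn
  have T0 : 0 < |T| + 1 := by positivity
  refine ⟨(|T| + 1)⁻¹, inv_pos.2 T0, fun x => ?_⟩
  have ph := ((A.isK_iff h).1 hh).2 x
  have h1 : 0 ≤ |T| + 1 - trm (h x) (g x) := by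
    linarith [le_abs_self T, (le_abs_self _).trans (hT x (mem_univ x))]
  have := ((mat.le_trm ι _ _ ph (((A.isK_iff g).1 hg).2 x).posSemidef).add
    (ph.posSemidef.smul (zero_le_real.2 h1))).smul (zero_le_real.2 (inv_pos.2 T0).le)
  convert this using 1
  rw [ofReal_sub, sub_smul, sub_add_sub_cancel', smul_sub, smul_smul, ← ofReal_mul,
    inv_mul_cancel₀ T0.ne', ofReal_one, one_smul]

/-- Kaehler classes on the segment to the nef canonical class. -/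
theorem KCl.mono (hg : M.IsK g) (hN : NefA M g) (c0 : M.ClF σ0) (hK : KCl M g σ0) {ε : ℝ}
    (hε : ε ∈ Ioc (0 : ℝ) 1) (h : ∀ x, (σ x - (ε : ℂ) • σ0 x).PosSemidef) : KCl M g σ := by
  have A := AY.repA' ι X M
  have B := AY.repB' ι X M
  obtain ⟨u, u1, u2⟩ := hK
  obtain ⟨c, hc, h1⟩ := FamV.cmp hg ((A.isK_iff _).2 ⟨A.clF_add _ _ (A.clF_add _ _ (by
    simpa using A.clF_smul (-1) _ (B.ric_cl g hg)) c0) (B.ddc_cl u u1), u2⟩)
  obtain ⟨w, w1, w2⟩ := hN (ε * c / 2) (by have := hε.1; positivity)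
  have cs : ∀ (a : ℝ) (v : X → ℝ), M.Ck ∞ v → M.Ck ∞ fun x => a * v x := fun a v hv =>
    B.ck_comp ⊤ v (fun t => a * t) hv fun x => by fun_prop
  have z0 : M.Ck 2 fun _ => (0 : ℝ) := fun e _ z _ => contDiffAt_const
  refine ⟨fun x => ε * u x + (1 - ε) * w x, (B.ck_add ⊤ _ _ (cs _ u u1) (cs _ w w1)).1, fun x => ?_⟩
  have e := B.ddc_add _ u z0 (Schw.ck_le u1 2) ε x
  simp only [zero_add, B.ddc_const] at e
  rw [B.ddc_add _ w (Schw.ck_le (cs ε u u1) 2) (Schw.ck_le w1 2), e]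
  have p0 : (0 : ℝ) < ε * c * (1 + ε) / 2 := by have := hε.1; positivity
  have := ((((A.isK_iff g).1 hg).2 x).smul (zero_lt_real.2 p0)).add_posSemidef
    ((((h1 x).smul (zero_le_real.2 hε.1.le)).add
      ((w2 x).smul (zero_le_real.2 (sub_nonneg.2 hε.2)))).add (h x))
  convert this using 1
  push_cast
  module

variable [Nonempty ι] [T2Space X] [MeasurableSpace X] [BorelSpace X]

theorem famV : FamV M := by
  intro g μ hg hμ hN σ0 σ ζ c0 hK cσ pσ cζ pζ H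
  have A := AY.repA' ι X M
  have key : ∀ s : ℝ, ∃ v : X → ℝ, s ∈ Ioc (0 : ℝ) 1 → M.Ck ∞ v ∧
      M.IsK (fun x => -M.ricF g x + (σ x + (s : ℂ) • ζ x) + M.ddc v x) ∧
      (∀ x, rat (fun x => -M.ricF g x + (σ x + (s : ℂ) • ζ x) + M.ddc v x) g x = Real.exp (v x)) ∧
      ∀ x, M.ricF (fun x => -M.ricF g x + (σ x + (s : ℂ) • ζ x) + M.ddc v x) x =
        M.ricF g x - M.ddc v x := fun s => by
    by_cases hs : s ∈ Ioc (0 : ℝ) 1
    · obtain ⟨ε, hε, h⟩ := H s hs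
      obtain ⟨w, w1, w2⟩ := hK.mono hg hN c0 hε h
      obtain ⟨v, hv⟩ := mge hg (A.clF_add _ _ (by
        simpa using A.clF_smul (-1) _ ((AY.repB' ι X M).ric_cl g hg))
        (A.clF_add _ _ cσ (A.clF_smul s _ cζ))) w1 w2
      exact ⟨v, fun _ => hv⟩
    · exact ⟨0, fun h => (hs h).elim⟩
  choose u hu using key
  exact ⟨u, _, hg, hμ, cσ, pσ, cζ, pζ, fun _ _ => rfl, fun s hs => (hu s hs).1,
    fun s hs => (hu s hs).2.1, fun s hs => (hu s hs).2.2.1, fun s hs x => by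
      rw [(hu s hs).2.2.2]
      abel⟩

end Pool.Agent.Lib.MP_813db1_ag.VH
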