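import Pool.Agent.Lib.MP_813db1_ag.VH.Stmt
import Pool.Agent.Lib.MP_813db1_ag.VH.KbA
import Pool.Agent.Lib.MP_813db1_ag.NS.Top
import Pool.Agent.Lib.MP_bbd4b9_ag.AR.All

/-! The normal Margulis subgroup of the twisted Einstein metrics. -/

namespace Pool.Agent.Lib.MP_813db1_ag.VH

open Pool.Agent.Lib.MP_813db1_ag.HS Pool.Agent.Lib.MP_813db1_ag.AS Pool.Agent.Lib.MP_bbd4b9_ag.AR
open MeasureTheory Complex Matrix Filter Topology Set Metric
open scoped ContDiff ComplexOrder Manifold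

variable {ι X Y G : Type} [Fintype ι] [DecidableEq ι] [Nonempty ι] [TopologicalSpace X] [T2Space X]
  [CompactSpace X] [ConnectedSpace X] [MeasurableSpace X] [BorelSpace X] [ChartedSpace (ι → ℂ) X]
  [IsManifold 𝓘(ℂ, ι → ℂ) ω X] [TopologicalSpace Y] [SimplyConnectedSpace Y] [Group G]
  [MulAction G Y] {M : Atl ι X} {p : Y → X}

open AY in
theorem mgOf (h : NS.NsS) (hC : Cx M p G) : MgN M p G := by
  intro g hg
  have hp := hC.cov
  obtain ⟨⟨μ, hμ⟩, -⟩ := volS' ι X M g hg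
  obtain ⟨hric, -⟩ := solB ι X M g μ hg hμ
  obtain ⟨C, L, A, r, hL, hA0, -, hM⟩ := h ι
  obtain ⟨φ, hφ, hgap⟩ := gapAll ι X M g hg A (1 / 4) hA0 (by norm_num)
  obtain ⟨D, hD⟩ := diam φ r hφ
  obtain ⟨w, hw, N₀, hsc⟩ := hM D
  refine ⟨L, hL, w, hw, N₀, fun ε hε u hu => ?_⟩
  obtain ⟨⟨ν, hν⟩, hV⟩ := volS' ι X M _ hu.2.1
  have := (hV ν hν).fin
  have := (hV ν hν).pos
  obtain ⟨a, γ, a1, a2, a0, a3, a4⟩ := trS X Y G p hp
  obtain ⟨K, -, hE⟩ := exF_all hC.sub hC.ex hg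
  obtain ⟨d, m, hN⟩ := hsc X Y G K M _ p a γ hC.sub hC.ch hp hE hu.2.1 (hric ε hε.1 u hu) a1 a2 a0
    a3 a4
  have hdi := hD G (Tot X G) X (fun z => z.1) ν m.iso m.geo
    (fun z z' h => ⟨z'.2 * z.2⁻¹, Prod.ext h.symm (by rw [Tot.smul_snd]; group)⟩)
    (ENNReal.toReal_pos (isOpen_univ.measure_ne_zero ν univ_nonempty) (measure_ne_top _ _))
    fun z => by
      obtain ⟨Ψ, p1, p2, p3, p4⟩ := m.bar z.1
      refine ⟨{y | 1 / 4 ≤ Ψ y}, (p1.isClosed_preimage _).measurableSet, ?_, fun x hx => ?_⟩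
      · by_contra hc
        have h0 := hgap ε hε u ν hu hν Ψ (1 / 4) p1 ⟨0, by rintro _ ⟨y, rfl⟩; exact (p2 y).1⟩
          (fun y hy => (p4 y (lt_of_lt_of_le (by norm_num) hy)).1) (not_le.1 hc).le
        refine (Measure.measure_pos_of_mem_nhds ν (s := {y | 1 / 4 + 1 / 4 ≤ Ψ y}) (x := z.1)
          ?_).ne' h0
        filter_upwards [p3] with y hy
        show 1 / 4 + 1 / 4 ≤ Ψ y
        linarith
      · obtain ⟨c, hc⟩ := (p4 x (lt_of_lt_of_le (by norm_num) hx)).2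
        refine ⟨z.2 • Tot.mk x c, rfl, ?_⟩
        rw [← m.iso z.2, Tot.smul_mk, mul_one] at hc
        exact hc.le
  obtain ⟨-, ⟨z, hz⟩, N, n1, n2, n3, n4⟩ := hN hdi
  exact ⟨Tot X G, _, d, fun y => Tot.mk (p y) (γ y), z, N, m.iso,
    fun c y => by simp only [Tot.smul_mk, a3, hp.map_smul],
    fun y0 => tr_near hp.continuous a1 a4
      (P := fun x c x' c' => dist (Tot.mk x c) (Tot.mk x' c') ≤
        L * √(nV (M.hm g ε u (p y0)) (M.ch (p y0) x' - M.ch (p y0) x))) y0 (m.lip (p y0)),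
    fun y => hz _, n3, n1, n2, fun i => n4 _⟩

end Pool.Agent.Lib.MP_813db1_ag.VH
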