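import Pool.Agent.Lib.MP_813db1_ag.VH.NulV

/-! The conjugates of the metric and of a pluriharmonic map. -/

namespace Pool.Agent.Lib.MP_813db1_ag.VH

open Pool.Agent.Lib.MP_813db1_ag.HS Pool.Agent.Lib.MP_813db1_ag.AS F12
open Complex Matrix Filter Topology Set
open scoped ContDiff ComplexOrder Kronecker

set_option linter.unusedSectionVars false

namespace FaCnj

section loc

variable {ι r r' : Type} [Fintype ι] [DecidableEq ι] [Fintype r] [Fintype r'] {z : V ι}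

theorem fd {x : V ι → V r} (h : SmV x z) (v : V ι) :
    fderiv ℝ x z v = ∑ k, (v k • dV x k z + star (v k) • dVb x k z) := by
  funext i
  have e : fderiv ℝ x z v i = fderiv ℝ (fun w => x w i) z v := by
    have := fderiv_pi (𝕜 := ℝ) (φ := fun i w => x w i) (x := z) h.df
    exact congrFun (congrArg (fun A => A v) this) i
  rw [e, fderiv_eq_dz, Finset.sum_apply]
  exact Finset.sum_congr rfl fun k _ => by
    simp only [Pi.add_apply, Pi.smul_apply, smul_eq_mul, dV, dVb]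
    ring

theorem fd_cj {S : V ι → V r} {f : V ι → V r'} {B : Matrix r r' ℂ} (hS : SmV S z) (hf : SmV f z)
    (h : ∀ k, dV S k z = B *ᵥ dV f k z ∧ dVb S k z = -(B *ᵥ dVb f k z)) (v : V ι) :
    fderiv ℝ S z v = (-I) • B *ᵥ fderiv ℝ f z (I • v) := by
  rw [fd hS, fd hf, mulVec_sum, Finset.smul_sum]
  refine Finset.sum_congr rfl fun k _ => ?_
  rw [(h k).1, (h k).2, mulVec_add, mulVec_smul, mulVec_smul, Pi.smul_apply, smul_eq_mul, star_mul',
    star_I, smul_add, smul_smul, smul_smul, ← mul_assoc, ← mul_assoc, neg_mul, I_mul_I, neg_mul_neg,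
    I_mul_I]
  module

theorem nm (B : Matrix r r' ℂ) (u : V r') : ‖B *ᵥ u‖ ≤ (∑ i, ∑ j, ‖B i j‖) * ‖u‖ := by
  refine (pi_norm_le_iff_of_nonneg (by positivity)).2 fun i => ?_
  refine (norm_sum_le _ _).trans (le_trans ?_ (mul_le_mul_of_nonneg_right
    (Finset.single_le_sum (f := fun i => ∑ j, ‖B i j‖) (fun _ _ => by positivity)
      (Finset.mem_univ i)) (norm_nonneg _)))
  rw [Finset.sum_mul]
  exact Finset.sum_le_sum fun j _ => (norm_mul_le _ _).trans
    (mul_le_mul_of_nonneg_left (norm_le_pi_norm u j) (norm_nonneg _))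

theorem kr (A B Φ : Mat r) : (A ⊗ₖ B) *ᵥ mvc Φ = mvc (A * Φ * Bᵀ) := by
  funext q
  simp only [mulVec, dotProduct, mvc, Fintype.sum_prod_type, kroneckerMap_apply, mul_apply,
    transpose_apply, Finset.sum_mul]
  rw [Finset.sum_comm]
  exact Finset.sum_congr rfl fun _ _ => Finset.sum_congr rfl fun _ _ => by ring

end loc

variable {ι X Y G : Type} [Fintype ι] [DecidableEq ι] [TopologicalSpace X] [TopologicalSpace Y]
  [Group G] [MulAction G Y] {M : Atl ι X} {p : Y → X}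

theorem key (hp : IsLocalHomeomorph p) {r r' : Type} [Fintype r] [DecidableEq r] [Fintype r']
    [DecidableEq r'] (E : Dt M p G r) (h1 : IntR E.ρ) (h2 : E.PH) {B : Y → Matrix r r' ℂ}
    {B' : Y → Matrix r' r ℂ} {f : Y → V r'} (hB : SmH M p B) (hf : Sm M p f)
    (hi : ∀ y, B' y * B y = 1) {S : Y → V r} {c : G → V r} (a1 : Sm M p S) (a2 : Coc E.ρ c)
    (a3 : ∀ (g : G) y, S (g • y) = E.ρ g *ᵥ S y + c g)
    (a4 : Loc M p fun _ z s => ∀ k, dV (S ∘ s) k z = B (s z) *ᵥ dV (f ∘ s) k z ∧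
      dVb (S ∘ s) k z = -(B (s z) *ᵥ dVb (f ∘ s) k z)) : Cj M p G f := by
  have b : Loc M p fun _ z s => ∀ v,
      fderiv ℝ (S ∘ s) z v = (-I) • B (s z) *ᵥ fderiv ℝ (f ∘ s) z (I • v) :=
    fun e he z hz s hs => fd_cj (a1.smV he hz hs) (hf.smV he hz hs) (a4 e he z hz s hs)
  refine ⟨r, _, _, E, c, S, h1, h2, a2, ⟨a1, a3⟩, fun ζ h y0 => ?_, fun e he z hz s hs v hv => ?_⟩
  · obtain ⟨C, hC⟩ := h y0
    have c0 := (sm_mvc.2 hB).cont hp
    have c1 : Continuous fun y => ∑ i, ∑ j, ‖B y i j‖ := continuous_finsetSum _ fun i _ =>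
      continuous_finsetSum _ fun j _ => ((continuous_apply (i, j)).comp c0).norm
    refine ⟨(∑ i, ∑ j, ‖B y0 i j‖ + 1) ^ 2 * C, (hC.and (c1.continuousAt.eventually_lt
      continuousAt_const (lt_add_one _))).mono fun y hy e he z hz s hs h0 v => ?_⟩
    have d := hy.1 e he z hz s hs h0 (I • v)
    rw [Nul.smul_I] at d
    rw [b e he z hz s hs, norm_smul, norm_neg, norm_I, one_mul, mul_assoc, h0]
    refine le_trans ?_ (mul_le_mul_of_nonneg_left d (sq_nonneg _))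
    rw [← mul_pow]
    exact pow_le_pow_left₀ (norm_nonneg _) ((nm _ _).trans
      (mul_le_mul_of_nonneg_right hy.2.le (norm_nonneg _))) 2
  · rw [b e he z hz s hs, smul_eq_zero, or_iff_right (neg_ne_zero.2 I_ne_zero)] at hv
    rw [← one_mulVec (fderiv ℝ (f ∘ s) z (I • v)), ← hi (s z), ← mulVec_mulVec, hv, mulVec_zero]

variable {r : Type} [Fintype r] [DecidableEq r] {D : Dt M p G r}

theorem met (hp : IsLocalHomeomorph p) (hC : CjS M p G) (hD : DualS M p G) (hT : TenS M p G)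
    (h1 : IntR D.ρ) (h2 : D.PH) : Cj M p G fun y => mvc (D.H y) := by
  obtain ⟨D', a1, -, a3, -⟩ := hD r D
  obtain ⟨E, b1, -, b3, -⟩ := hT r r D D'
  obtain ⟨E', c1, -⟩ := hT r r D' D'
  have hB : SmH M p fun y => (D.H y)⁻¹ ⊗ₖ (1 : Mat r) := fun e he z hz s hs i j =>
    ((D.sm e he z hz s hs).inv (D.det_ne _) i.1 j.1).mul contDiffAt_const
  have k1 : ∀ (s : V ι → Y) i, (fun w => ((D.H (s w))⁻¹ ⊗ₖ (1 : Mat r)) *ᵥ
      dV ((fun y => mvc (D.H y)) ∘ s) i w) = fun w => mvc (ca (D.H ∘ s) i w) := fun s i =>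
    funext fun w => (kr _ _ (dR (D.H ∘ s) i w)).trans (by rw [transpose_one, mul_one]; rfl)
  have k2 : ∀ (s : V ι → Y) i, (fun w => ((D.H (s w))⁻¹ ⊗ₖ (1 : Mat r)) *ᵥ
      dVb ((fun y => mvc (D.H y)) ∘ s) i w) = fun w => mvc (cb (D.H ∘ s) i w) := fun s i =>
    funext fun w => (kr _ _ (dRb (D.H ∘ s) i w)).trans (by rw [transpose_one, mul_one]; rfl)
  obtain ⟨S, c, d1, d2, d3, d4, -⟩ := hC (r × r) (r × r) E'.ρ E.ρ _ (fun y => mvc (D.H y)) 0 hB
    (sm_mvc.2 D.sm) (fun g y => by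
      rw [c1, kr, a1, transpose_transpose, D.eqv, Pi.zero_apply, add_zero])
    (fun g y => by
      rw [c1, b1, a1, ← mul_kronecker_mul, ← mul_kronecker_mul, D.inv_eqv, mul_assoc,
        ← transpose_mul, D.inv_mul, transpose_one, mul_one, mul_one, one_mul])
    fun e he z hz s hs i k => by
      have h := D.sm e he z hz s hs
      have h0 : ((D.H ∘ s) z).det ≠ 0 := D.det_ne _
      obtain ⟨h3, h4⟩ := h2 e he z hz s hs
      rw [k1, k1, k2, k2]
      refine ⟨congrArg mvc (?_ : dR _ k z = dR _ i z), congrArg mvc (?_ : dRb _ k z = dRb _ i z),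
        congrArg mvc (?_ : dRb _ k z = -dR _ i z)⟩
      · rw [dR_ca h h0, dR_ca h h0, dR_dR_comm h, h4]
      · rw [dRb_cb h h0, dRb_cb h h0, dRb_dRb_comm h, ← Dt.ca_conj, ← Dt.ca_conj,
          ← RepA.map_star_mul, ← RepA.map_star_mul, h4]
      · have e1 := (ph_eq h h0 i k).symm.trans (h3 i k)
        have e2 := (ph_eq' h h0 i k).symm.trans (h3 i k)
        linear_combination (norm := module) (1 / 2 : ℂ) • e1 + (1 / 2 : ℂ) • e2
  refine key hp E (fun g i j => ?_) (b3 h2 (a3 h2)) (B' := fun y => D.H y ⊗ₖ (1 : Mat r)) hB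
    (sm_mvc.2 D.sm) (fun y => ?_) d1 d2 d3 d4
  · obtain ⟨m, hm⟩ := h1 g i.1 j.1
    obtain ⟨m', hm'⟩ := h1 g⁻¹ j.2 i.2
    exact ⟨m * m', by rw [b1, a1, kroneckerMap_apply, transpose_apply, hm, hm', Int.cast_mul]⟩
  · rw [← mul_kronecker_mul, mul_nonsing_inv _ (D.det_ne y).isUnit, mul_one, one_kronecker_one]

theorem map (hp : IsLocalHomeomorph p) (hC : CjS M p G) (hD : DualS M p G) (h1 : IntR D.ρ)
    (h2 : D.PH) {c : G → V r} {x : Y → V r} (hx : D.Aff c x) (hP : D.PX x) : Cj M p G x := by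
  obtain ⟨D', a1, -, a3, -⟩ := hD r D
  obtain ⟨S, c', d1, d2, d3, d4, -⟩ := hC r r D.ρ D'.ρ D.H x c D.sm hx.1 hx.2
    (fun g y => by rw [D.eqv, a1, mul_assoc, D.inv_mul, mul_one])
    fun e he z hz s hs i k => by
      have h := D.sm e he z hz s hs
      have h0 : ((D.H ∘ s) z).det ≠ 0 := D.det_ne _
      have u := hx.1.smV he hz hs
      obtain ⟨h3, h4, h5⟩ := hP e he z hz s hs
      have m1 := fun i k => dV_mulVec h.df (u.dV i).df k
      have m2 := fun i k => dVb_mulVec h.df (u.dVb i).df k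
      have m3 := dVb_mulVec h.df (u.dV i).df k
      have m4 := dV_mulVec h.df (u.dVb k).df i
      refine ⟨(m1 i k).trans (Eq.trans ?_ (m1 k i).symm), (m2 i k).trans
        (Eq.trans ?_ (m2 k i).symm), m3.trans (Eq.trans ?_ (congrArg Neg.neg m4).symm)⟩
      · rw [← mul_ca h0, ← mul_ca h0, ← mulVec_mulVec, ← mulVec_mulVec, h4, dV_dV_comm u]
      · rw [← mul_cb h0, ← mul_cb h0, ← mulVec_mulVec, ← mulVec_mulVec, h5, dVb_dVb_comm u]
      · have h7 := congrArg (fun t => (D.H ∘ s) z *ᵥ t) (h3 i k)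
        simp only [px, mulVec_add, mulVec_smul, mulVec_zero] at h7
        rw [← mul_ca h0, ← mul_cb h0, ← mulVec_mulVec, ← mulVec_mulVec, ← dV_dVb_comm u]
        linear_combination (norm := module) h7
  exact key hp D' (fun g i j => by rw [a1]; exact h1 g⁻¹ j i) (a3 h2) (B' := fun y => (D.H y)⁻¹)
    D.sm hx.1 (fun y => nonsing_inv_mul _ (D.det_ne y).isUnit) d1 d2 d3 d4

end FaCnj

variable {ι X Y G : Type} [Fintype ι] [DecidableEq ι] [TopologicalSpace X] [TopologicalSpace Y]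
  [Group G] [MulAction G Y] {M : Atl ι X} {p : Y → X}

theorem cnjS (hq : IsQuotientCoveringMap p G) (hC : CjS M p G) (hD : DualS M p G)
    (hT : TenS M p G) : CnjS M p G := fun _ _ _ _ h1 h2 =>
  ⟨FaCnj.met (lh hq) hC hD hT h1 h2, fun _ _ hx _ hP => FaCnj.map (lh hq) hC hD h1 h2 hx hP⟩

end Pool.Agent.Lib.MP_813db1_ag.VH
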