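import Pool.Agent.Lib.MP_813db1_ag.VH.StV
import Pool.Agent.Lib.MP_813db1_ag.VH.Cov

/-! Pluriharmonic maps are combinations of integral ones. -/

namespace Pool.Agent.Lib.MP_813db1_ag.VH

open Pool.Agent.Lib.MP_813db1_ag.HS Pool.Agent.Lib.MP_813db1_ag.AS
open MeasureTheory Complex Matrix Filter Topology Set
open scoped ContDiff ComplexOrder

namespace FaDec

variable {ι r κ : Type} [Fintype ι] [DecidableEq ι] [Fintype r] [DecidableEq r] [Fintype κ]
  {z : V ι} {x : V ι → V r} {u : κ → V ι → V r} (t : κ → ℂ)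

omit [Fintype r] [DecidableEq r] [DecidableEq ι] in
theorem df_sum (hu : ∀ j, DfV (u j) z) : DfV (fun w => ∑ j, t j • u j w) z := fun i => by
  simp only [Finset.sum_apply]
  exact DifferentiableAt.fun_sum fun j _ => (differentiableAt_const _).fun_mul (hu j i)

omit [Fintype r] [DecidableEq r] in
theorem dV_lin (hx : DfV x z) (hu : ∀ j, DfV (u j) z) (k : ι) :
    dV (fun w => x w - ∑ j, t j • u j w) k z = dV x k z - ∑ j, t j • dV (u j) k z := by
  rw [dV_sub hx (df_sum t hu), dV_sum _ fun j _ => (hu j).smul (differentiableAt_const _)]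
  simp only [dV_csmul _ (hu _)]

omit [Fintype r] [DecidableEq r] in
theorem dVb_lin (hx : DfV x z) (hu : ∀ j, DfV (u j) z) (k : ι) :
    dVb (fun w => x w - ∑ j, t j • u j w) k z = dVb x k z - ∑ j, t j • dVb (u j) k z := by
  rw [dVb_sub hx (df_sum t hu), dVb_sum _ fun j _ => (hu j).smul (differentiableAt_const _)]
  simp only [dVb_csmul _ (hu _)]

theorem px_lin (H : V ι → Mat r) (hx : SmV x z) (hu : ∀ j, SmV (u j) z) (i k : ι) :
    px H (fun w => x w - ∑ j, t j • u j w) i k z = px H x i k z - ∑ j, t j • px H (u j) i k z := by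
  have e : dVb (fun w => x w - ∑ j, t j • u j w) k =ᶠ[𝓝 z]
      fun w => dVb x k w - ∑ j, t j • dVb (u j) k w :=
    (hx.ev.and (eventually_all.2 fun j => (hu j).ev)).mono fun w hw => dVb_lin t hw.1 hw.2 k
  rw [px, dV_congr e, dV_lin t (hx.dVb k).df fun j => ((hu j).dVb k).df,
    dV_lin t hx.df fun j => (hu j).df, dVb_lin t hx.df fun j => (hu j).df]
  simp only [px, mulVec_sub, mulVec_sum, mulVec_smul, smul_add, smul_sub, Finset.sum_add_distrib,
    Finset.smul_sum, smul_comm (2 : ℂ)]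
  abel

end FaDec

variable {ι X Y G : Type} [Fintype ι] [DecidableEq ι] [TopologicalSpace X] [T2Space X]
  [CompactSpace X] [MeasurableSpace X] [BorelSpace X] [TopologicalSpace Y] [Group G]
  [MulAction G Y] {M : Atl ι X} {p : Y → X}

theorem decS (hG : Group.FG G) (hI : IntC) (hH : HodS M p G) (hP : PxS M p G) (hPo : PoiS M p G)
    (hF : FrmS M p G) : DecS M p G := by
  intro g0 hg r _ _ D hint hph
  have harm : D.Harm g0 := fun e he z hz s hs => by
    simp only [tg, (hph e he z hz s hs).1, smul_zero, Finset.sum_const_zero]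
  have h1 : ∀ b : G → V r, Coc D.ρ b → (∀ g i, ∃ m : ℤ, b g i = m) →
      ∃ x τ ξ, IFam D b x τ ξ := by
    intro b hb hm
    obtain ⟨x, ha, hl, hr⟩ := hH g0 hg r D harm b hb
    have hre := hr fun γ => funext fun i => by
      obtain ⟨m, h⟩ := hm γ i
      rw [Pi.star_apply, h, star_intCast]
    have hpx := hP g0 hg r D hph b x ha hl
    obtain ⟨⟨τ, t1, -, t3, t4⟩, hξ⟩ := hF r D
    obtain ⟨ξ, x1, -, x3, x4⟩ := hξ b x ha
    exact ⟨x, τ, ξ, hint, hph, hm, ha, hre, hpx, t1, x1, t4 hph, x4 hre hpx, t3, x3⟩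
  refine ⟨h1, fun c x ha hpx => ?_⟩
  rcases isEmpty_or_nonempty Y with hY | hY
  · exact ⟨0, Fin.elim0, Fin.elim0, Fin.elim0, 0, fun j => j.elim0, fun y => isEmptyElim y⟩
  obtain ⟨n, t, b, hb, hc⟩ := hI G r D.ρ c hG hint ha.coc
  choose u τ ξ hu using fun j => h1 (b j) (hb j).1 (hb j).2
  obtain ⟨μ, hμ⟩ := (AY.volS' ι X M g0 hg).1
  have hw : D.Aff 0 fun y => x y - ∑ j, t j • u j y := by
    refine ⟨fun e he z hz s hs => smV_iff.1 ((ha.1.smV he hz hs).sub
      (SmV.sum _ fun j _ => ((hu j).aff.1.smV he hz hs).csmul (t j))), fun g y => ?_⟩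
    simp only [ha.2, (hu _).aff.2, hc, mulVec_sub, mulVec_sum, mulVec_smul, smul_add,
      Finset.sum_add_distrib, Pi.zero_apply]
    abel
  have hl : D.Lap g0 (fun y => x y - ∑ j, t j • u j y) 0 := fun e he z hz s hs => by
    have k : ∀ i j, px (D.H ∘ s) ((fun y => x y - ∑ j, t j • u j y) ∘ s) i j z = 0 := fun i j => by
      refine (FaDec.px_lin t (D.H ∘ s) (ha.1.smV he hz hs)
        (fun l => (hu l).aff.1.smV he hz hs) i j).trans ?_
      simp only [(hpx e he z hz s hs).1, ((hu _).px e he z hz s hs).1, smul_zero,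
        Finset.sum_const_zero, sub_zero]
    simp only [tg, k, smul_zero, Finset.sum_const_zero, Pi.zero_apply]
  obtain ⟨y0⟩ := hY
  refine ⟨n, t, b, u, x y0 - ∑ j, t j • u j y0, fun j => ⟨_, _, hu j⟩, fun y => ?_⟩
  rw [← (hPo g0 μ hg hμ r D harm).2 _ hw hl y y0]
  abel

end Pool.Agent.Lib.MP_813db1_ag.VH
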