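import Pool.Agent.Lib.MP_813db1_ag.VH.StV
import Pool.Agent.Lib.MP_813db1_ag.VH.Cov
import Pool.Agent.Lib.MP_813db1_ag.HS.FGauge

/-! The forms of the Higgs field and of an equivariant map bound the differentials. -/

namespace Pool.Agent.Lib.MP_813db1_ag.VH

open Pool.Agent.Lib.MP_813db1_ag.HS Pool.Agent.Lib.MP_813db1_ag.AS
open Complex Matrix Filter Topology Set
open scoped ContDiff ComplexOrder Kronecker

set_option linter.unusedSectionVars false

namespace FaDom

theorem coer {Y σ : Type} [TopologicalSpace Y] [Fintype σ] [DecidableEq σ] {Q : Y → Mat σ}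
    (hc : ∀ i j, Continuous fun y => Q y i j) (hp : ∀ y, (Q y).PosDef) (y0 : Y) :
    ∃ C : ℝ, ∀ᶠ y in 𝓝 y0, ∀ u : V σ, ‖u‖ ^ 2 ≤ C * nV (Q y) u := by
  have c : Continuous fun q : Y × V σ => nV (Q q.1) q.2 :=
    continuous_re.comp (continuous_finsetSum _ fun i _ => continuous_finsetSum _ fun j _ =>
      (((hc i j).comp continuous_fst).mul ((continuous_apply i).comp continuous_snd)).mul
        ((continuous_apply j).comp continuous_snd).star)
  have k := isCompact_sphere (0 : V σ) 1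
  obtain ⟨a, a0, ha⟩ := k.exists_forall_le' (f := fun u => nV (Q y0) u) (a := 0)
    (c.comp (Continuous.prodMk_right y0)).continuousOn fun u hu => FG.nV_pos (hp y0) (by
      rintro rfl
      simp at hu)
  refine ⟨2 / a, (k.eventually_forall_of_forall_eventually (P := fun y u => a / 2 < nV (Q y) u)
    fun u hu => c.continuousAt.eventually (lt_mem_nhds ((half_lt_self a0).trans_le
      (ha u hu)))).mono fun y hy u => ?_⟩
  by_cases h : u = 0
  · simp [h, nV, ipV]
  · have n : 0 < ‖u‖ := norm_pos_iff.2 h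
    have := hy (((‖u‖⁻¹ : ℝ) : ℂ) • u) (by
      rw [mem_sphere_zero_iff_norm, norm_smul, norm_real, norm_inv, norm_norm, inv_mul_cancel₀ n.ne'])
    rw [FG.nV_smul, norm_real, norm_inv, norm_norm, inv_pow, lt_inv_mul_iff₀ (by positivity)] at this
    rw [div_mul_eq_mul_div, le_div_iff₀ a0]
    linarith

section loc

variable {ι σ : Type} [Fintype ι] [DecidableEq ι] [Fintype σ] [DecidableEq σ] {z : V ι}
  {x : V ι → V σ}

theorem nV_xi (H : V ι → Mat σ) (x : V ι → V σ) (z v : V ι) :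
    nV (xiL H x z) v = nV (H z) (∑ k, v k • dV x k z) := by
  unfold nV
  congr 1
  simp only [ipV, xiL, of_apply, Finset.sum_apply, Pi.smul_apply, smul_eq_mul, star_sum, star_mul',
    Finset.sum_mul, Finset.mul_sum]
  rw [Finset.sum_comm]
  simp only [← Fintype.sum_prod_type']
  exact Fintype.sum_equiv ((Equiv.prodAssoc ι ι (σ × σ)).symm.trans ((Equiv.prodComm _ _).trans
    (Equiv.prodAssoc σ σ (ι × ι)))) _ _ fun q => by simp; ring

theorem fd (h : DifferentiableAt ℝ x z) (hr : ∀ w, star (x w) = x w) (v : V ι) :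
    fderiv ℝ x z v = ∑ k, v k • dV x k z + star (∑ k, v k • dV x k z) := by
  funext a
  have e : fderiv ℝ x z v a = fderiv ℝ (fun w => x w a) z v := by
    rw [fderiv_apply h a]
    rfl
  rw [e, fderiv_eq_dz, Finset.sum_add_distrib]
  simp only [Pi.add_apply, Pi.star_apply, Finset.sum_apply, Pi.smul_apply, smul_eq_mul, star_sum,
    star_mul']
  congr 1 <;> refine Finset.sum_congr rfl fun k _ => ?_
  · exact mul_comm _ _
  · rw [mul_comm]
    exact congrArg _ (congrFun (dVb_real (Eventually.of_forall hr) k) a)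

theorem bound (h : DifferentiableAt ℝ x z) (hr : ∀ w, star (x w) = x w) (v : V ι) :
    ‖fderiv ℝ x z v‖ ^ 2 ≤ 4 * ‖∑ k, v k • dV x k z‖ ^ 2 := by
  have := norm_add_le (∑ k, v k • dV x k z) (star (∑ k, v k • dV x k z))
  rw [norm_star, ← fd h hr] at this
  nlinarith [norm_nonneg (fderiv ℝ x z v)]

theorem zero (h : DifferentiableAt ℝ x z) (hr : ∀ w, star (x w) = x w) {v : V ι}
    (h1 : fderiv ℝ x z v = 0) (h2 : fderiv ℝ x z (I • v) = 0) : ∑ k, v k • dV x k z = 0 := by
  rw [fd h hr] at h1 h2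
  simp only [Pi.smul_apply, smul_assoc, ← Finset.smul_sum, star_smul] at h2
  funext a
  have e1 := congrFun h1 a
  have e2 := congrFun h2 a
  simp only [Pi.add_apply, Pi.smul_apply, smul_eq_mul, Pi.zero_apply, RCLike.star_def,
    conj_I] at e1 e2 ⊢
  linear_combination (1 / 2 : ℂ) * e1 - (I / 2) * e2 + (1 / 2 : ℂ) *
    ((∑ k, v k • dV x k z) a - star (∑ k, v k • dV x k z) a) * I_mul_I

theorem tau_eq {H : V ι → Mat σ} (hp : ∀ w, (H w).PosDef) (z : V ι) : tauL H z =
    xiL (fun w => (1 / 4 : ℂ) • ((H w)⁻¹ᵀ ⊗ₖ (H w)⁻¹)) (fun w => mvc (H w)) z := by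
  have h1 : ∀ j, dRb H j z = (dR H j z)ᴴ := fun j =>
    (dRb_congr (Eventually.of_forall fun w => (hp w).1.symm) j).trans (dRb_conjT H j z)
  ext i j
  have e : ∀ k q, dV (fun w => mvc (H w)) k z q = dR H k z q.1 q.2 := fun _ _ => rfl
  simp only [tauL, xiL, ipV, of_apply, ca, cb, h1, e, trace, diag_apply, mul_apply,
    conjTranspose_apply, Matrix.smul_apply, kroneckerMap_apply, transpose_apply, smul_eq_mul,
    Finset.sum_mul, Finset.mul_sum, Finset.sum_div, ← Fintype.sum_prod_type']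
  exact Fintype.sum_equiv ⟨fun q => ((q.2.2.2, q.2.1), (q.1, q.2.2.1)),
    fun q => (q.2.1, q.1.2, q.2.2, q.1.1), fun _ => rfl, fun _ => rfl⟩ _ _ fun q => by
      simp only [Equiv.coe_fn_mk]
      ring

end loc

variable {ι X Y σ : Type} [Fintype ι] [DecidableEq ι] [TopologicalSpace X] [TopologicalSpace Y]
  [Fintype σ] [DecidableEq σ] {M : Atl ι X} {p : Y → X}

theorem main {Q : Y → Mat σ} (hc : ∀ i j, Continuous fun y => Q y i j) (hp : ∀ y, (Q y).PosDef)
    {x : Y → V σ} (hx : Sm M p x) (hr : ∀ y, star (x y) = x y) {ξ : X → Mat ι}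
    (h : Loc M p fun e z s => M.repF ξ e z = xiL (Q ∘ s) (x ∘ s) z) :
    Dmn M p ξ x ∧ Loc M p fun e z s => ∀ v, fderiv ℝ (x ∘ s) z v = 0 →
      fderiv ℝ (x ∘ s) z (I • v) = 0 → nV (M.repF ξ e z) v = 0 := by
  have d : Loc M p fun _ z s => DifferentiableAt ℝ (x ∘ s) z :=
    fun e he z hz s hs => (hx e he z hz s hs).differentiableAt (by simp)
  refine ⟨fun y0 => ?_, fun e he z hz s hs v h1 h2 => ?_⟩
  · obtain ⟨C, hC⟩ := coer hc hp y0
    refine ⟨4 * C, hC.mono fun y hy e he z hz s hs e0 v => ?_⟩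
    subst e0
    rw [h e he z hz s hs, nV_xi, mul_assoc]
    exact (bound (d e he z hz s hs) (fun _ => hr _) v).trans
      (mul_le_mul_of_nonneg_left (hy _) (by norm_num))
  · rw [h e he z hz s hs, nV_xi, zero (d e he z hz s hs) (fun _ => hr _) h1 h2]
    simp [nV, ipV]

end FaDom

variable {ι X Y G : Type} [Fintype ι] [DecidableEq ι] [TopologicalSpace X] [TopologicalSpace Y]
  [Group G] [MulAction G Y] {M : Atl ι X} {p : Y → X}

theorem domS (hq : IsQuotientCoveringMap p G) : DomS M p G := by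
  intro r _ _ D
  have hp := hq.isCoveringMap.isLocalHomeomorph
  have c : ∀ {F : Y → Mat r}, SmH M p F → ∀ i j, Continuous fun y => F y i j :=
    fun h i j => Sm.cont (M := M) hp fun e he z hz s hs => h e he z hz s hs i j
  refine ⟨fun τ hτ => FaDom.main (Q := fun y => (1 / 4 : ℂ) • ((D.H y)⁻¹ᵀ ⊗ₖ (D.H y)⁻¹))
    (fun i j => ?_) (fun y => ?_) (fun e he z hz s hs => ?_) (fun y => ?_)
    fun e he z hz s hs => (hτ e he z hz s hs).trans (FaDom.tau_eq (fun _ => D.pos _) z),
    fun x ξ hx hr h => FaDom.main (c D.sm) D.pos hx hr h⟩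
  · have ci := c (F := fun y => (D.H y)⁻¹) fun e he z hz s hs =>
      (D.sm e he z hz s hs).inv (D.pos _).det_pos.ne'
    exact continuous_const.mul ((ci _ _).mul (ci _ _))
  · exact ((D.pos y).inv.transpose.kronecker (D.pos y).inv).smul (by positivity)
  · exact contDiffAt_pi.2 fun q => D.sm e he z hz s hs q.1 q.2
  · exact funext fun q => congrFun₂ (D.reH y) q.1 q.2

end Pool.Agent.Lib.MP_813db1_ag.VH
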