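import Pool.Agent.Lib.MP_813db1_ag.VH.StV

/-! Flags of integral representations and their proper maps. -/

namespace Pool.Agent.Lib.MP_813db1_ag.VH

open Pool.Agent.Lib.MP_813db1_ag.HS Pool.Agent.Lib.MP_813db1_ag.AS
open Complex Matrix Filter Topology Set
open scoped ContDiff ComplexOrder

variable {ι X Y G : Type} [Fintype ι] [DecidableEq ι] [TopologicalSpace X] [TopologicalSpace Y]
  [Group G] [MulAction G Y] {M : Atl ι X} {p : Y → X}

namespace FaFlag

variable {r r' : Type} [Fintype r] [DecidableEq r] [Fintype r'] [DecidableEq r']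

/-- the conjugate representation. -/
def cjR (ρ : G →* Mat r) {P : Matrix r r' ℂ} {P' : Matrix r' r ℂ} (a : P * P' = 1)
    (b : P' * P = 1) : G →* Mat r' where
  toFun g := P' * ρ g * P
  map_one' := by rw [map_one, Matrix.mul_one, b]
  map_mul' g h := by
    simp only [map_mul, Matrix.mul_assoc]
    rw [← Matrix.mul_assoc P, a, Matrix.one_mul]

theorem real {ρ : G →* Mat r} (h : IntR ρ) : RealR ρ := fun g => Matrix.ext fun i j => by
  obtain ⟨m, e⟩ := h g i j
  rw [map_apply, e, star_intCast]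

/-- the map `A ↦ P A P^*`. -/
noncomputable def lm (P : Matrix r r' ℂ) : V (r' × r') →L[ℝ] V (r × r) :=
  LinearMap.toContinuousLinearMap
    { toFun := fun b => mvc (P * (Matrix.of fun i j => b (i, j)) * Pᴴ)
      map_add' := fun b c => by
        change mvc (P * ((Matrix.of fun i j => b (i, j)) + Matrix.of fun i j => c (i, j)) * Pᴴ) = _
        rw [Matrix.mul_add, Matrix.add_mul]
        rfl
      map_smul' := fun t b => by
        change mvc (P * (t • Matrix.of fun i j => b (i, j)) * Pᴴ) = _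
        rw [Matrix.mul_smul, Matrix.smul_mul]
        rfl }

omit [DecidableEq ι] [DecidableEq r] [DecidableEq r'] in
theorem sm_cj (P : Matrix r r' ℂ) {F : V ι → Mat r'} {z : V ι} (h : SmR F z) :
    SmR (fun w => P * F w * Pᴴ) z := fun i j =>
  contDiffAt_pi.1 ((lm P).contDiff.contDiffAt.comp z
    (contDiffAt_pi.2 fun q : r' × r' => h q.1 q.2)) (i, j)

omit [DecidableEq ι] [DecidableEq r] [DecidableEq r'] in
theorem fd_cj (P : Matrix r r' ℂ) {F : V ι → Mat r'} {z v : V ι} (h : SmR F z)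
    (k : ∀ i j, fderiv ℝ (fun w => F w i j) z v = 0) :
    fderiv ℝ (fun w => mvc (P * F w * Pᴴ)) z v = 0 := by
  have d : ∀ q : r' × r', DifferentiableAt ℝ (fun w => F w q.1 q.2) z := fun q =>
    (h q.1 q.2).differentiableAt (by simp)
  have e := ((lm P).hasFDerivAt.comp z (hasFDerivAt_pi.2 fun q => (d q).hasFDerivAt)).fderiv
  refine (DFunLike.congr_fun e v).trans ?_
  rw [ContinuousLinearMap.comp_apply, ← map_zero (lm P)]
  exact congrArg _ (funext fun q => k q.1 q.2)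

end FaFlag

open FaFlag

theorem flagS (h1 : TriC) (h2 : CorS M p G) (h3 : SiuS M p G) (h4 : SumS M p G) : FlagS M p G := by
  intro g0 hg r _ _
  induction hn : Fintype.card r using Nat.strong_induction_on generalizing r with
  | _ n ih =>
  intro ρ hρ
  rcases h1 G r ρ hρ with h | ⟨a, b, Q, Q', σ, τ, ha, hb, q1, q2, hσ, hτ, hB⟩
  · obtain ⟨D, rfl, hD⟩ := h2 g0 hg r ρ (real hρ) h
    exact ⟨r, _, _, D, fun _ => 0, D.ρ, 1, 1, mul_one _, mul_one _, fun g => by simp, hρ,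
      h3 g0 hg r D hD, fun _ _ _ e => absurd rfl e, fun _ _ _ =>
        ⟨fun e => absurd rfl e, fun _ => rfl, fun e => absurd e (lt_irrefl _)⟩⟩
  obtain ⟨s, _, _, D, d, α, R, R', a1, a2, a3, a4, a5, a6, a7⟩ :=
    ih a (hn ▸ ha) (Fin a) (Fintype.card_fin a) σ hσ
  obtain ⟨t, _, _, D', d', β, S, S', b1, b2, b3, b4, b5, b6, b7⟩ :=
    ih b (hn ▸ hb) (Fin b) (Fintype.card_fin b) τ hτ
  obtain ⟨E, e1, e2, e3, -⟩ := h4 s t D D'
  have c1 : fromBlocks R 0 0 S * fromBlocks R' 0 0 S' = 1 := by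
    simp [fromBlocks_multiply, a1, b1]
  have c2 : fromBlocks R' 0 0 S' * fromBlocks R 0 0 S = 1 := by
    simp [fromBlocks_multiply, a2, b2]
  have c3 : Q * fromBlocks R 0 0 S * (fromBlocks R' 0 0 S' * Q') = 1 := by
    rw [Matrix.mul_assoc, ← Matrix.mul_assoc (fromBlocks R 0 0 S), c1, Matrix.one_mul, q1]
  have c4 : fromBlocks R' 0 0 S' * Q' * (Q * fromBlocks R 0 0 S) = 1 := by
    rw [Matrix.mul_assoc, ← Matrix.mul_assoc Q', q2, Matrix.one_mul, c2]
  have c5 : ∀ g, ∃ B, cjR ρ c3 c4 g = fromBlocks (α g) B 0 (β g) := fun g => by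
    obtain ⟨B, e⟩ := hB g
    refine ⟨R' * B * S, ?_⟩
    change fromBlocks R' 0 0 S' * Q' * ρ g * (Q * fromBlocks R 0 0 S) = _
    rw [Matrix.mul_assoc (fromBlocks R' 0 0 S'), Matrix.mul_assoc, ← Matrix.mul_assoc (Q' * ρ g), e,
      a3, b3]
    simp [fromBlocks_multiply, Matrix.mul_assoc]
  have c6 : ∀ i j, d i < d' j + (Finset.univ.sup d + 1) := fun i j => by
    have := Finset.le_sup (f := d) (Finset.mem_univ i)
    omega
  refine ⟨s ⊕ t, _, _, E, Sum.elim d fun j => d' j + (Finset.univ.sup d + 1), cjR ρ c3 c4, _, _,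
    c3, c4, fun _ => rfl, fun g i j => ?_, e3 a5 b5, fun y i j e => ?_, fun g i j => ?_⟩
  · rw [e1]
    rcases i with i | i <;> rcases j with j | j
    exacts [a4 g i j, ⟨0, by simp⟩, ⟨0, by simp⟩, b4 g i j]
  · rw [e2]
    rcases i with i | i <;> rcases j with j | j
    exacts [a6 y i j e, rfl, rfl, b6 y i j fun k => e (congrArg (· + _) k)]
  · obtain ⟨B, e⟩ := c5 g
    rw [e, e1]
    rcases i with i | i <;> rcases j with j | j
    · exact a7 g i j
    · exact ⟨fun _ => rfl, fun k => absurd k (c6 i j).ne, fun k => absurd k (c6 i j).not_gt⟩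
    · exact ⟨fun _ => rfl, fun _ => rfl, fun _ => rfl⟩
    · exact ⟨fun k => (b7 g i j).1 fun l => k (congrArg (· + _) l),
        fun k => (b7 g i j).2.1 (Nat.add_right_cancel k),
        fun k => (b7 g i j).2.2 (Nat.lt_of_add_lt_add_right k)⟩

theorem eqvS (h1 : FlagS M p G) (h2 : FormS M p G) (h3 : PmS M p G) : EqvS M p G := by
  intro g0 hg ζ U k z1 z2 z3 z4 z5 z6 K ⟨r, _, _, ρ, hρ, hK⟩
  obtain ⟨r', _, _, D, d, ρ', P, P', a1, a2, a3, a4, a5, a6, a7⟩ := h1 g0 hg r ρ hρ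
  obtain ⟨Φ, b1, b2, b3, b4⟩ := h2 g0 hg ζ U k z1 z2 z3 z4 z5 z6 r' D d ρ' a4 a5 a6 a7
  have c : ∀ g, P * ρ' g = ρ g * P := fun g => by
    rw [a3, ← Matrix.mul_assoc, ← Matrix.mul_assoc, a1, Matrix.one_mul]
  obtain ⟨a, ha⟩ := h3.pos r ρ (fun y => P * Φ y * Pᴴ) hρ
    (fun e he z hz s hs => sm_cj P (b1 e he z hz s hs))
    (fun y => (b2 y).mul_mul_conjTranspose_same fun v w e => by
      have := congrArg (· ᵥ* P') e
      simpa only [vecMul_vecMul, a1, vecMul_one] using this)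
    fun g y => by
      rw [b3, ← Matrix.mul_assoc, ← Matrix.mul_assoc, c, Matrix.mul_assoc _ (ρ' g)ᴴ,
        ← conjTranspose_mul, c, conjTranspose_mul]
      simp only [Matrix.mul_assoc]
  exact ⟨r × r, _, a, fun y => mvc (P * Φ y * Pᴴ), hK ▸ ha, fun e he z hz s hs u v hv =>
    fd_cj P (b1 e he z hz s hs) fun i j => b4 i j e he z hz s hs u v hv⟩

end Pool.Agent.Lib.MP_813db1_ag.VH
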