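import Pool.Agent.Lib.MP_813db1_ag.VH.NulV

/-! The maximal family. -/

namespace Pool.Agent.Lib.MP_813db1_ag.VH

open Pool.Agent.Lib.MP_813db1_ag.HS Pool.Agent.Lib.MP_813db1_ag.AS F12
open Complex Matrix Filter Topology Set
open scoped ContDiff ComplexOrder

set_option linter.unusedSectionVars false

variable {ι X Y G : Type} [Fintype ι] [DecidableEq ι] [TopologicalSpace X] [TopologicalSpace Y]
  [Group G] [MulAction G Y] {M : Atl ι X} {p : Y → X}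

namespace FaMax

/-- the forms of the integral families. -/
def FZ (M : Atl ι X) (p : Y → X) (G : Type) [Group G] [MulAction G Y] (ζ : X → Mat ι) : Prop :=
  ∃ (r : Type) (_ : Fintype r) (_ : DecidableEq r) (D : Dt M p G r) (c : G → V r) (x : Y → V r)
    (τ ξ : X → Mat ι), IFam D c x τ ξ ∧ ζ = fun q => τ q + ξ q

variable {ζ ζ' τ ξ : X → Mat ι} {K K' : Subgroup G} {r : Type} [Fintype r] [DecidableEq r]
  {D : Dt M p G r} {c : G → V r} {x : Y → V r}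

theorem FZ.psd (h : FZ M p G ζ) (q : X) : (ζ q).PosSemidef := by
  obtain ⟨r, _, _, D, c, x, τ, ξ, h, rfl⟩ := h
  exact (h.pt q).add (h.pξ q)

theorem FZ.add (hS : SumS M p G) (h : FZ M p G ζ) (h' : FZ M p G ζ') :
    FZ M p G fun q => ζ q + ζ' q := by
  obtain ⟨r, _, _, D, c, x, τ, ξ, h, rfl⟩ := h
  obtain ⟨r', _, _, D', c', x', τ', ξ', h', rfl⟩ := h'
  obtain ⟨E, d1, -, d3, -, d4, d5⟩ := hS r r' D D'
  obtain ⟨d6, d7⟩ := d5 x x' h.aff.1 h'.aff.1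
  have A := AY.repA' ι X M
  refine ⟨_, _, _, E, fun g => Sum.elim (c g) (c' g), fun y => Sum.elim (x y) (x' y), _, _,
    ⟨fun g i j => ?_, d3 h.ph h'.ph, fun g i => ?_, ⟨fun e he z hz s hs => ?_, fun g y => ?_⟩,
      fun y => ?_, d6 h.px h'.px, d4 _ _ h.tau h'.tau, d7 _ _ h.xi h'.xi, A.clF_add _ _ h.ct h'.ct,
      A.clF_add _ _ h.cx h'.cx, fun q => (h.pt q).add (h'.pt q),
      fun q => (h.pξ q).add (h'.pξ q)⟩, funext fun q => add_add_add_comm _ _ _ _⟩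
  · rw [d1]
    rcases i with i | i <;> rcases j with j | j
    exacts [h.int g i j, ⟨0, by simp⟩, ⟨0, by simp⟩, h'.int g i j]
  · rcases i with i | i
    exacts [h.ic g i, h'.ic g i]
  · refine contDiffAt_pi.2 ?_
    rintro (i | i)
    exacts [contDiffAt_pi.1 (h.aff.1 e he z hz s hs) i, contDiffAt_pi.1 (h'.aff.1 e he z hz s hs) i]
  · beta_reduce
    rw [d1, fromBlocks_mulVec, h.aff.2, h'.aff.2]
    ext (i | i) <;> simp
  · ext (i | i)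
    exacts [congrFun (h.re y) i, congrFun (h'.re y) i]

theorem add' {E : Type} [NormedAddCommGroup E] [NormedSpace ℝ E] {f : Y → E} (h : Dmn M p ζ' f)
    (hp : ∀ x, (ζ x).PosSemidef) (hp' : ∀ x, (ζ' x).PosSemidef) :
    Dmn M p (fun x => ζ x + ζ' x) f := by
  simpa only [add_comm] using h.add hp' hp

theorem dm (hD : DomS M p G) (h : IFam D c x τ ξ) :
    Dmn M p (fun q => τ q + ξ q) (fun y => mvc (D.H y)) ∧ Dmn M p (fun q => τ q + ξ q) x :=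
  ⟨((hD r D).1 τ h.tau).1.add h.pt h.pξ, add' ((hD r D).2 x ξ h.aff.1 h.re h.xi).1 h.pt h.pξ⟩

/-- families with a proper map. -/
def Pk (M : Atl ι X) (p : Y → X) (ζ : X → Mat ι) (K : Subgroup G) : Prop :=
  FZ M p G ζ ∧ ∃ (E : Type) (_ : NormedAddCommGroup E) (_ : NormedSpace ℝ E)
    (_ : FiniteDimensional ℝ E) (a : G → E → E) (Φ : Y → E), PM M p K a Φ ∧ Dmn M p ζ Φ

theorem Pk.add (hS : SumS M p G) (hP : PmS M p G) (h : Pk M p ζ K) (h' : Pk M p ζ' K') :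
    Pk M p (fun q => ζ q + ζ' q) (K ⊓ K') := by
  obtain ⟨a1, E, _, _, _, a, Φ, a2, a3⟩ := h
  obtain ⟨b1, E', _, _, _, a', Φ', b2, b3⟩ := h'
  obtain ⟨a'', k⟩ := hP.prd E E' K K' a a' Φ Φ' a2 b2
  exact ⟨a1.add hS b1, _, _, _, inferInstance, a'', _, k,
    (a3.add a1.psd b1.psd).prod (add' b3 a1.psd b1.psd) a2.sm b2.sm⟩

variable [Nonempty Y]

theorem pk_one (hD : DomS M p G) (hP : PmS M p G) (h : IFam D c x τ ξ) :
    ∃ K, Pk M p (fun q => τ q + ξ q) K ∧ ∀ g ∈ K, D.ρ g = 1 ∧ c g = 0 := by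
  obtain ⟨K, a, k1, k2⟩ := hP.fam r D c x h.int h.aff.coc h.ic h.aff
  exact ⟨K, ⟨⟨r, _, _, D, c, x, τ, ξ, h, rfl⟩, _, _, _, inferInstance, a, _, k1,
    (dm hD h).1.prod (dm hD h).2 (sm_mvc.2 D.sm) h.aff.1⟩, k2⟩

theorem coc0 (ρ : G →* Mat r) : Coc ρ 0 := fun _ _ => by simp

theorem pk_coc (hG : Group.FG G) (hI : IntC) (hS : SumS M p G) (hD : DomS M p G) (hP : PmS M p G)
    (hE : ∀ b : G → V r, Coc D.ρ b → (∀ g i, ∃ m : ℤ, b g i = m) → ∃ x τ ξ, IFam D b x τ ξ)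
    (h1 : IntR D.ρ) (h2 : Coc D.ρ c) : ∃ ζ K, Pk M p ζ K ∧ ∀ g ∈ K, D.ρ g = 1 ∧ c g = 0 := by
  obtain ⟨n, t, b, b1, b2⟩ := hI G r D.ρ c hG h1 h2
  have key : ∀ s : Finset (Fin n), ∃ ζ K, Pk M p ζ K ∧
      ∀ g ∈ K, D.ρ g = 1 ∧ ∀ j ∈ s, b j g = 0 := fun s => by
    induction s using Finset.induction_on with
    | empty =>
      obtain ⟨x, τ, ξ, h⟩ := hE 0 (coc0 _) fun _ _ => ⟨0, by simp⟩
      obtain ⟨K, k1, k2⟩ := pk_one hD hP h
      exact ⟨_, K, k1, fun g hg => ⟨(k2 g hg).1, by simp⟩⟩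
    | insert j s _ ih =>
      obtain ⟨ζ, K, k1, k2⟩ := ih
      obtain ⟨x, τ, ξ, h⟩ := hE (b j) (b1 j).1 (b1 j).2
      obtain ⟨K', l1, l2⟩ := pk_one hD hP h
      exact ⟨_, _, k1.add hS hP l1, fun g hg => ⟨(k2 g hg.1).1,
        Finset.forall_mem_insert _ _ _ |>.2 ⟨(l2 g hg.2).2, (k2 g hg.1).2⟩⟩⟩
  obtain ⟨ζ, K, k1, k2⟩ := key Finset.univ
  refine ⟨ζ, K, k1, fun g hg => ⟨(k2 g hg).1, ?_⟩⟩
  rw [b2]
  exact Finset.sum_eq_zero fun j hj => by rw [(k2 g hg).2 j hj, smul_zero]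

/-- a conjugate function as a component of a proper map. -/
theorem pk_cj {g0 : X → Mat ι} (h0 : M.IsK g0) (hG : Group.FG G) (hI : IntC) (hS : SumS M p G)
    (hD : DomS M p G) (hP : PmS M p G) (hE : DecS M p G) {E0 : Type} [NormedAddCommGroup E0]
    [NormedSpace ℝ E0] {f : Y → E0} (h : Cj M p G f) : ∃ ζ, FZ M p G ζ ∧ ∃ (K : Subgroup G)
      (E : Type) (_ : NormedAddCommGroup E) (_ : NormedSpace ℝ E) (_ : FiniteDimensional ℝ E)
      (a : G → E → E) (Φ : Y → E), PM M p K a Φ ∧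
      (∀ ζ', Dmn M p ζ' f → (∀ E [NormedAddCommGroup E] [NormedSpace ℝ E] (u : Y → E),
        Dmn M p ζ u → Dmn M p ζ' u) → Dmn M p ζ' Φ) ∧
      Loc M p fun _ z s => ∀ v, fderiv ℝ (Φ ∘ s) z v = 0 → fderiv ℝ (f ∘ s) z (I • v) = 0 := by
  obtain ⟨r, _, _, D, c, S, a1, a2, a3, a4, a5, a6⟩ := h
  obtain ⟨ζ, K, ⟨k0, E, _, _, _, a, Φ, k1, k2⟩, k3⟩ :=
    pk_coc hG hI hS hD hP (hE g0 h0 r D a1 a2).1 a1 a3
  obtain ⟨a', k4⟩ := hP.aux E r K a Φ D.ρ c S k1 a4.1 a3 a4.2 k3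
  refine ⟨ζ, k0, K, _, _, _, inferInstance, a', _, k4, fun ζ' b1 b2 =>
    (b2 E Φ k2).prod (a5 ζ' b1) k1.sm a4.1, fun e he z hz s hs v hv => a6 e he z hz s hs v ?_⟩
  rw [fd_prod k1.sm a4.1 he hz hs] at hv
  exact congrArg Prod.snd hv

/-- the trivial datum. -/
def triv (M : Atl ι X) (p : Y → X) (G : Type) [Group G] [MulAction G Y] : Dt M p G Empty :=
  ⟨1, fun _ => 1, fun _ => Subsingleton.elim _ _, fun _ => Subsingleton.elim _ _,
    fun _ => PosDef.one, fun _ _ => Subsingleton.elim _ _, fun _ _ _ _ _ _ i => i.elim⟩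

theorem nul {m : ℕ} (hS : SumS M p G) (hm : ∀ ζ, FZ M p G ζ → ∀ q, (ζ q).rank ≤ m)
    (h : FZ M p G ζ) (h' : FZ M p G ζ') {e : Ch ι X} (he : e ∈ M.A) {z : V ι} (hz : z ∈ e.target)
    (k : (ζ (e.symm z)).rank = m) {v : V ι} (hv : nV (M.repF ζ e z) v = 0) :
    nV (M.repF ζ' e z) v = 0 :=
  Nul.mono (Nul.psd_rep h.psd he hz) (Nul.psd_rep h'.psd he hz) (by
    rw [← Nul.rep_add, Nul.rank_rep _ he hz, Nul.rank_rep _ he hz, k]
    exact hm _ (h.add hS h') _) hv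

theorem maxF {g0 : X → Mat ι} (h0 : M.IsK g0) {m : ℕ} (hS : SumS M p G) (hD : DomS M p G)
    (hE : DecS M p G) (hm : ∀ ζ, FZ M p G ζ → ∀ q, (ζ q).rank ≤ m) (h : FZ M p G ζ) :
    MaxF M p G ζ {q | (ζ q).rank = m} := by
  intro r _ _ D a1 a2
  obtain ⟨b1, b2⟩ := hE g0 h0 r D a1 a2
  have key : ∀ {c x τ ξ}, IFam D c x τ ξ → Kil M p ζ {q | (ζ q).rank = m} (fun y => mvc (D.H y)) ∧
      Kil M p ζ {q | (ζ q).rank = m} x := fun k =>
    ⟨fun e he z hz s hs u v hv => (dm hD k).1.kil univ e he z hz s hs trivial v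
      (nul hS hm h ⟨r, _, _, D, _, _, _, _, k, rfl⟩ he hz u hv),
    fun e he z hz s hs u v hv => (dm hD k).2.kil univ e he z hz s hs trivial v
      (nul hS hm h ⟨r, _, _, D, _, _, _, _, k, rfl⟩ he hz u hv)⟩
  refine ⟨fun i j e he z hz s hs u v hv => ?_, fun c x c1 c2 e he z hz s hs u v hv => ?_⟩
  · obtain ⟨x, τ, ξ, k⟩ := b1 0 (coc0 _) fun _ _ => ⟨0, by simp⟩
    have := congrFun ((key k).1 e he z hz s hs u v hv) (i, j)
    exact (congrArg (fun A => A v (i, j)) (fderiv_pi (φ := fun q w => mvc (D.H (s w)) q) fun q =>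
      (D.sm e he z hz s hs q.1 q.2).differentiableAt (by simp))).symm.trans this
  · obtain ⟨n, t, b, w, v0, d1, d2⟩ := b2 c x c1 c2
    choose τ ξ d1 using d1
    have d := fun j => ((d1 j).aff.1 e he z hz s hs).differentiableAt (by simp)
    have e1 : x ∘ s = fun q => ∑ j, t j • (w j ∘ s) q + v0 := funext fun q => d2 _
    rw [e1, fderiv_add_const, fderiv_fun_sum fun j _ => (d j).fun_const_smul (t j),
      ContinuousLinearMap.sum_apply]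
    refine Finset.sum_eq_zero fun j _ => ?_
    rw [fderiv_fun_const_smul (d j), ContinuousLinearMap.smul_apply,
      (key (d1 j)).2 e he z hz s hs u v hv, smul_zero]

end FaMax

open FaMax in
theorem famS [Nonempty Y] (hG : Group.FG G) (hI : IntC) (hS : SumS M p G) (hD : DomS M p G)
    (hC : CnjS M p G) (hP : PmS M p G) (hE : DecS M p G) : FamS M p G := by
  intro g0 h0
  obtain ⟨x0, τ0, ξ0, t0⟩ := (hE g0 h0 Empty (triv M p G) (fun _ i => i.elim)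
    fun _ _ _ _ _ _ => ⟨fun _ _ => Subsingleton.elim _ _, fun _ _ => Subsingleton.elim _ _⟩).1 0
    (coc0 _) fun _ i => i.elim
  let A : Set ℕ := {n | ∃ ζ q, FZ M p G ζ ∧ (ζ q).rank = n}
  have bd : BddAbove A := ⟨Fintype.card ι, by
    rintro _ ⟨ζ, q, -, rfl⟩
    exact rank_le_card_width _⟩
  obtain ⟨_, q0, ⟨r, _, _, D, c, x, τ, ξ, h, rfl⟩, hq⟩ := Nat.sSup_mem (s := A)
    ⟨_, _, p (Classical.arbitrary Y), ⟨_, _, _, _, _, _, _, _, t0, rfl⟩, rfl⟩ bd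
  have hm : ∀ ζ, FZ M p G ζ → ∀ q, (ζ q).rank ≤ sSup A := fun ζ k q => le_csSup bd ⟨ζ, q, k, rfl⟩
  have f0 : FZ M p G fun q => τ q + ξ q := ⟨r, _, _, D, c, x, τ, ξ, h, rfl⟩
  obtain ⟨K, a, k1, -⟩ := hP.fam r D c x h.int h.aff.coc h.ic h.aff
  obtain ⟨ζ1, f1, K1, E1, _, _, _, a1, Φ1, l1, l2, l3⟩ :=
    pk_cj h0 hG hI hS hD hP hE (hC r D h.int h.ph).1
  obtain ⟨ζ2, f2, K2, E2, _, _, _, a2, Φ2, m1, m2, m3⟩ :=
    pk_cj h0 hG hI hS hD hP hE ((hC r D h.int h.ph).2 c x h.aff h.re h.px)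
  obtain ⟨a3, n1⟩ := hP.prd _ _ _ _ _ _ _ _ l1 m1
  obtain ⟨a4, n2⟩ := hP.prd _ _ _ _ _ _ _ _ k1 n1
  have f3 := f1.add hS f2
  have f4 := f0.add hS f3
  have d1 := (dm hD h).1.add f0.psd f3.psd
  have d2 := (dm hD h).2.add f0.psd f3.psd
  have d3 := ((d1.prod d2 (sm_mvc.2 D.sm) h.aff.1).prod
    ((l2 _ d1 fun _ _ _ _ k => add' (k.add f1.psd f2.psd) f0.psd f3.psd).prod
      (m2 _ d2 fun _ _ _ _ k => add' (add' k f1.psd f2.psd) f0.psd f3.psd) l1.sm m1.sm) k1.sm n1.sm)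
  have d4 := maxF h0 hS hD hE hm f4
  have d5 := hm _ f4
  obtain ⟨r', _, _, D', c', x', τ', ξ', h', e'⟩ := f4
  have e2 : ∀ q, τ' q + ξ' q = τ q + ξ q + (ζ1 q + ζ2 q) := fun q => (congrFun e' q).symm
  refine ⟨r', _, _, D', c', x', τ', ξ', h', sSup A, {q | (τ q + ξ q).rank = sSup A}, _, _, _,
    inferInstance, _, a4, _, ?_, ?_, n2, ?_, Nul.op_eq ((AY.repA' ι X M).clF_add _ _ h.ct h.cx)
      (hm _ f0), ⟨q0, hq⟩, fun q k => ?_, fun e he z hz s hs k v hv => ?_⟩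
  · simpa only [e2] using d5
  · simpa only [e2] using d4
  · simpa only [e2] using d3
  · rw [e2]
    exact (d5 q).antisymm (k.ge.trans (Nul.rank_le (f0.psd q) (f3.psd q)))
  · rw [fd_prod k1.sm n1.sm he hz hs, fd_prod (sm_mvc.2 D.sm) h.aff.1 he hz hs,
      fd_prod l1.sm m1.sm he hz hs] at hv
    have u : nV (M.repF (fun q => τ q + ξ q) e z) v = 0 := by
      rw [Nul.rep_add, Nul.add, ((hD r D).1 τ h.tau).2 e he z hz s hs v (congrArg (·.1.1) hv)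
        (l3 e he z hz s hs v (congrArg (·.2.1) hv)), ((hD r D).2 x ξ h.aff.1 h.re h.xi).2 e he z hz
        s hs v (congrArg (·.1.2) hv) (m3 e he z hz s hs v (congrArg (·.2.2) hv)), add_zero]
    simp only [e2]
    rw [Nul.rep_add (fun q => τ q + ξ q), Nul.add, u, nul hS hm f0 f3 he hz k u, add_zero]

end Pool.Agent.Lib.MP_813db1_ag.VH
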