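import Pool.Agent.Lib.MP_813db1_ag.VH.StV

/-! Proper actions through integral representations. -/

set_option linter.unusedSectionVars false

namespace Pool.Agent.Lib.MP_813db1_ag.VH

open Pool.Agent.Lib.MP_813db1_ag.HS
open Matrix Filter Topology Set
open scoped ComplexOrder

namespace FaPm

variable {r : Type} [Fintype r]

/-- a vector as a matrix. -/
def mt (b : V (r × r)) : Mat r := Matrix.of fun i j => b (i, j)

/-- the real part of the form. -/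
noncomputable def qf (z : V (r × r) × V r) : ℝ := (star z.2 ⬝ᵥ mt z.1 *ᵥ z.2).re

theorem qf_ct : Continuous (qf (r := r)) := by
  unfold qf mt dotProduct mulVec dotProduct
  simp only [of_apply, Pi.star_apply]
  fun_prop

theorem qf_smul (b : V (r × r)) (t : ℝ) (v : V r) : qf (b, t • v) = t ^ 2 * qf (b, v) := by
  simp [qf, mulVec_smul, sq, mul_assoc]

theorem low {P : Mat r} (hP : P.PosDef) :
    ∃ c, 0 < c ∧ ∀ᶠ b in 𝓝 (mvc P), ∀ v, c * ‖v‖ ^ 2 ≤ qf (b, v) := by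
  have hK := isCompact_sphere (0 : V r) 1
  obtain ⟨c, c0, hc⟩ := hK.exists_forall_le' (f := fun v => qf (mvc P, v)) (a := 0)
    (qf_ct.comp (Continuous.prodMk_right _)).continuousOn fun v hv =>
      hP.re_dotProduct_pos (x := v) (by rintro rfl; simp at hv)
  refine ⟨c / 2, half_pos c0, ?_⟩
  filter_upwards [hK.eventually_forall_of_forall_eventually (x₀ := mvc P)
    (P := fun b v => c / 2 < qf (b, v)) fun v hv =>
      qf_ct.continuousAt.eventually (lt_mem_nhds ((half_lt_self c0).trans_le (hc v hv)))] with b h v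
  rcases eq_or_ne v 0 with rfl | h0
  · simp [qf]
  have n0 := norm_ne_zero_iff.2 h0
  have k := h (‖v‖⁻¹ • v) (by simp [norm_smul, n0])
  rw [qf_smul, inv_pow, ← div_eq_inv_mul, lt_div_iff₀ (by positivity)] at k
  exact k.le

theorem key {P : Mat r} (hP : P.PosDef) (R : ℝ) : ∃ C, ∀ᶠ b in 𝓝 (mvc P), ∀ A : Mat r,
    ‖mvc (A * mt b * Aᴴ)‖ ≤ R → ∀ i j, ‖A i j‖ ≤ C := by
  obtain ⟨c, c0, hc⟩ := low hP
  refine ⟨R / c + 1, hc.mono fun b h A hA i j => ?_⟩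
  have k : qf (b, star (A i)) ≤ R := by
    refine le_trans (le_trans (le_of_eq ?_) (Complex.re_le_norm _))
      ((norm_le_pi_norm _ (i, i)).trans hA)
    simp only [qf, mvc, star_star, Matrix.mul_assoc]
    rfl
  have k1 := (h _).trans k
  rw [norm_star, mul_comm, ← le_div_iff₀ c0] at k1
  have k2 := norm_le_pi_norm (A i) j
  nlinarith [sq_nonneg (‖A i‖ - 1), norm_nonneg (A i)]

theorem fin1 (C : ℝ) : {z : ℂ | (∃ m : ℤ, z = m) ∧ ‖z‖ ≤ C}.Finite := by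
  refine ((Set.finite_Icc (-⌈C⌉) ⌈C⌉).image (Int.cast : ℤ → ℂ)).subset ?_
  rintro _ ⟨⟨m, rfl⟩, h⟩
  rw [Complex.norm_intCast] at h
  exact ⟨m, abs_le.1 (by exact_mod_cast h.trans (Int.le_ceil C)), rfl⟩

theorem pick {G T : Type} [Group G] (φ : G → T) {S : Set T} (hS : S.Finite) :
    ∃ F : Finset G, ∀ g, φ g ∈ S → ∃ f ∈ F, φ f = φ g := by
  classical
  exact ⟨hS.toFinset.image (Function.invFun φ), fun g hg =>
    ⟨_, Finset.mem_image_of_mem _ (hS.mem_toFinset.2 hg), Function.invFun_eq ⟨g, rfl⟩⟩⟩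

variable {G : Type} [Group G] [DecidableEq r] {ρ : G →* Mat r} {c : G → V r}

theorem c_one (h : Coc ρ c) : c 1 = 0 := by simpa using h 1 1

/-- the kernel of the affine action. -/
def kr (h : Coc ρ c) : Subgroup G where
  carrier := {g | ρ g = 1 ∧ c g = 0}
  one_mem' := ⟨map_one ρ, c_one h⟩
  mul_mem' := fun {a b} ha hb => ⟨by rw [map_mul, ha.1, hb.1, mul_one], by
    rw [h, ha.2, hb.2, mulVec_zero, add_zero]⟩
  inv_mem' := fun {a} ha => ⟨ρ.ker.inv_mem ha.1, by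
    simpa [ha.2, c_one h] using (h a⁻¹ a).symm⟩

theorem kr_nor (h : Coc ρ c) : (kr h).Normal := ⟨fun g hg a =>
  ⟨(MonoidHom.normal_ker ρ).1 g hg.1 a, by
    rw [h, h, hg.2, map_mul, hg.1, mulVec_zero, add_zero, mul_one, ← h, mul_inv_cancel, c_one h]⟩⟩

/-- the dual representation. -/
def du (ρ : G →* Mat r) : G →* Mat r where
  toFun g := (ρ g⁻¹)ᵀ
  map_one' := by simp
  map_mul' a b := by rw [_root_.mul_inv_rev, map_mul, transpose_mul]

theorem du_ker {g : G} : g ∈ (du ρ).ker ↔ ρ g = 1 :=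
  ⟨fun h => ρ.ker.inv_mem_iff.1 (transpose_eq_one.1 h),
    fun h => transpose_eq_one.2 (ρ.ker.inv_mem h)⟩

theorem eq_of {f g : G} (h : ρ (f⁻¹ * g) = 1) : ρ g = ρ f := by
  rw [← mul_inv_cancel_left f g, map_mul, h, mul_one]

variable {ι X Y : Type} [Fintype ι] [DecidableEq ι] [TopologicalSpace X] [TopologicalSpace Y]
  {M : Atl ι X} {p : Y → X} [MulAction G Y]

theorem pos (ρ : G →* Mat r) (Φ : Y → Mat r) (hi : IntR ρ) (hs : SmH M p Φ)
    (hp : ∀ y, (Φ y).PosDef) (he : ∀ (g : G) y, Φ (g • y) = ρ g * Φ y * (ρ g)ᴴ) :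
    PM M p ρ.ker (fun g b => mvc (ρ g * mt b * (ρ g)ᴴ)) fun y => mvc (Φ y) where
  nor := inferInstance
  sm e he z hz s h := contDiffAt_pi.2 fun q => hs e he z hz s h q.1 q.2
  ct g := continuous_pi fun q => by
    simp only [mvc, mul_apply, mt, of_apply]
    fun_prop
  mul g g' b := by
    rw [map_mul, conjTranspose_mul]
    change _ = mvc (ρ g * (ρ g' * mt b * (ρ g')ᴴ) * (ρ g)ᴴ)
    simp only [Matrix.mul_assoc]
  ker g hg b := by
    rw [show ρ g = 1 from hg, conjTranspose_one, Matrix.mul_one, Matrix.one_mul]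
    rfl
  eqv g y := congrArg mvc (he g y)
  fin y R := by
    obtain ⟨C, hC⟩ := key (hp y) R
    obtain ⟨F, hF⟩ := pick (T := r → r → ℂ) ρ
      (Set.Finite.pi' fun _ => Set.Finite.pi' fun _ => fin1 C)
    refine ⟨F, hC.mono fun b h g hg => ?_⟩
    obtain ⟨f, h1, h2⟩ := hF g fun i j => ⟨hi g i j, h _ hg i j⟩
    refine ⟨f, h1, ?_⟩
    rw [MonoidHom.mem_ker, map_mul, ← show ρ f = ρ g from h2, ← map_mul, inv_mul_cancel, map_one]

variable {E E' : Type} [NormedAddCommGroup E] [NormedSpace ℝ E] [NormedAddCommGroup E']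
  [NormedSpace ℝ E'] {K K' : Subgroup G} {a : G → E → E} {a' : G → E' → E'} {Φ : Y → E}
  {Φ' : Y → E'}

theorem ext (h : PM M p K a Φ) {x : Y → V r} (hx : Sm M p x) (hc : Coc ρ c)
    (he : ∀ (g : G) y, x (g • y) = ρ g *ᵥ x y + c g) (hn : K'.Normal) (hle : K' ≤ K)
    (hk : ∀ g ∈ K', ρ g = 1 ∧ c g = 0)
    (hf : ∀ y (R : ℝ), ∃ F : Finset G, ∀ᶠ b in 𝓝 (Φ y, x y), ∀ g, ‖a g b.1‖ ≤ R →
      ‖ρ g *ᵥ b.2 + c g‖ ≤ R → ∃ f ∈ F, f⁻¹ * g ∈ K') :
    PM M p K' (fun g (b : E × V r) => (a g b.1, ρ g *ᵥ b.2 + c g)) fun y => (Φ y, x y) where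
  nor := hn
  sm e he z hz s k := (h.sm e he z hz s k).prodMk (hx e he z hz s k)
  ct g := ((h.ct g).comp continuous_fst).prodMk
    ((continuous_const.matrix_mulVec continuous_snd).add continuous_const)
  mul g g' b := Prod.ext (h.mul g g' b.1) (by
    simp only [hc g g', map_mul, mulVec_add, mulVec_mulVec]
    abel)
  ker g hg b := Prod.ext (h.ker g (hle hg) b.1) (by simp [hk g hg])
  eqv g y := Prod.ext (h.eqv g y) (he g y)
  fin y R := (hf y R).imp fun _ k => k.mono fun _ k g hg =>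
    k g ((norm_fst_le _).trans hg) ((norm_snd_le _).trans hg)

theorem fam (D : Dt M p G r) (c : G → V r) (x : Y → V r) (hi : IntR D.ρ) (hc : Coc D.ρ c)
    (ci : ∀ g i, ∃ m : ℤ, c g i = m) (hx : D.Aff c x) :
    ∃ a, PM M p (kr hc) a fun y => (mvc (D.H y), x y) := by
  have h := pos (du D.ρ) D.H (fun g i j => hi _ j i) D.sm D.pos fun g y => by
    rw [D.eqv]
    congr 1
    exact (D.reR g⁻¹).symm
  refine ⟨_, ext h hx.1 hc hx.2 (kr_nor hc) (fun g hg => du_ker.2 hg.1) (fun _ hg => hg)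
    fun y R => ?_⟩
  obtain ⟨F, hF⟩ := h.fin y R
  obtain ⟨F', hF'⟩ := pick (fun g => (D.ρ g, c g)) ((F.finite_toSet.image D.ρ).prod
    (Set.Finite.pi' fun _ : r => fin1 (R + (∑ f ∈ F, ‖D.ρ f *ᵥ x y‖ + 1))))
  have k : ∀ᶠ v in 𝓝 (x y), ∀ f ∈ F, ‖D.ρ f *ᵥ v‖ < ‖D.ρ f *ᵥ x y‖ + 1 :=
    (eventually_all_finset F).2 fun f _ =>
      (continuous_const.matrix_mulVec continuous_id).norm.continuousAt.eventually
        (gt_mem_nhds (lt_add_one _))
  refine ⟨F', (hF.prod_nhds k).mono fun b hb g h1 h2 => ?_⟩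
  obtain ⟨f, hf, e⟩ := hb.1 g h1
  have e' := eq_of (du_ker.1 e)
  obtain ⟨f', hf', e''⟩ := hF' g ⟨⟨f, hf, e'.symm⟩, fun i => ⟨ci g i, by
    refine (norm_le_pi_norm _ i).trans ?_
    have k1 := hb.2 f hf
    have k2 := Finset.single_le_sum (f := fun f => ‖D.ρ f *ᵥ x y‖) (fun _ _ => norm_nonneg _) hf
    have k3 := norm_sub_le (D.ρ g *ᵥ b.2 + c g) (D.ρ g *ᵥ b.2)
    rw [add_sub_cancel_left] at k3
    rw [← e'] at k1 k2
    linarith⟩⟩
  obtain ⟨e1, e2⟩ := Prod.mk.inj e''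
  exact ⟨f', hf', by rw [map_mul, ← e1, ← map_mul, inv_mul_cancel, map_one],
    by rw [hc, ← e2, ← hc, inv_mul_cancel, c_one hc]⟩

theorem prd (h : PM M p K a Φ) (h' : PM M p K' a' Φ') :
    PM M p (K ⊓ K') (fun g (b : E × E') => (a g b.1, a' g b.2)) fun y => (Φ y, Φ' y) where
  nor := have := h.nor; have := h'.nor; inferInstance
  sm e he z hz s k := (h.sm e he z hz s k).prodMk (h'.sm e he z hz s k)
  ct g := (h.ct g).prodMap (h'.ct g)
  mul g g' b := Prod.ext (h.mul g g' b.1) (h'.mul g g' b.2)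
  ker g hg b := Prod.ext (h.ker g hg.1 b.1) (h'.ker g hg.2 b.2)
  eqv g y := Prod.ext (h.eqv g y) (h'.eqv g y)
  fin y R := by
    obtain ⟨F, hF⟩ := h.fin y R
    obtain ⟨F', hF'⟩ := h'.fin y R
    obtain ⟨S, hS⟩ := pick (fun g : G => ((g : G ⧸ K), (g : G ⧸ K')))
      ((F.finite_toSet.image QuotientGroup.mk).prod (F'.finite_toSet.image QuotientGroup.mk))
    refine ⟨S, (hF.prod_nhds hF').mono fun b hb g hg => ?_⟩
    obtain ⟨f, h1, h2⟩ := hb.1 g ((norm_fst_le _).trans hg)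
    obtain ⟨f', h1', h2'⟩ := hb.2 g ((norm_snd_le _).trans hg)
    obtain ⟨s, k1, k2⟩ := hS g ⟨⟨f, h1, QuotientGroup.eq.2 h2⟩, f', h1', QuotientGroup.eq.2 h2'⟩
    exact ⟨s, k1, QuotientGroup.eq.1 (Prod.mk.inj k2).1, QuotientGroup.eq.1 (Prod.mk.inj k2).2⟩

end FaPm

variable {ι X Y G : Type} [Fintype ι] [DecidableEq ι] [TopologicalSpace X] [TopologicalSpace Y]
  [Group G] [MulAction G Y] {M : Atl ι X} {p : Y → X}

theorem pmS : PmS M p G where
  pos _ _ _ ρ Φ hi hs hp he := ⟨_, FaPm.pos ρ Φ hi hs hp he⟩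
  fam _ _ _ D c x hi hc ci hx := ⟨_, (FaPm.fam D c x hi hc ci hx).imp fun _ h => ⟨h, fun _ k => k⟩⟩
  aux _ _ _ _ _ _ _ _ _ _ _ _ h hx hc he hk := ⟨_, FaPm.ext h hx hc he h.nor le_rfl hk fun y R =>
    (h.fin y R).imp fun _ k => (k.prod_nhds (Eventually.of_forall fun _ => trivial)).mono
      fun _ k g hg _ => k.1 g hg⟩
  prd _ _ _ _ _ _ _ _ _ _ _ _ h h' := ⟨_, FaPm.prd h h'⟩

end Pool.Agent.Lib.MP_813db1_ag.VH
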