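import Pool.Agent.Lib.MP_813db1_ag.VH.FoSt

/-! Functions that are subharmonic along the kernel of a semipositive form of maximal rank. -/

namespace Pool.Agent.Lib.MP_813db1_ag.VH.Hr

open Pool.Agent.Lib.MP_813db1_ag.HS
open MeasureTheory Matrix Filter Topology Set Complex Polynomial
open scoped ContDiff ComplexOrder

namespace FoK

variable {ι : Type} [Fintype ι] [DecidableEq ι]

omit [Fintype ι] [DecidableEq ι] in
theorem deg1 (c : ℂ) : (1 + C c * X : ℂ[X]).natDegree ≤ 1 := by
  rw [add_comm, ← C_1]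
  exact natDegree_linear_le

omit [Fintype ι] [DecidableEq ι] in
theorem degp (c : ι → ℂ) (s : Finset ι) : (∏ q ∈ s, (1 + C (c q) * X : ℂ[X])).natDegree ≤ s.card :=
  (natDegree_prod_le _ _).trans ((Finset.sum_le_sum fun q _ => deg1 (c q)).trans (by simp))

theorem coef (c : ι → ℂ) (S : Finset ι) (hS : ∀ q, q ∈ S ↔ c q ≠ 0) {k : ℕ} (hk : S.card ≤ k)
    (p : ι) : (∏ q ∈ Finset.univ.erase p, (1 + C (c q) * X : ℂ[X])).coeff k =
      if c p = 0 ∧ S.card = k then ∏ q ∈ S, c q else 0 := by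
  rw [← Finset.prod_subset (Finset.erase_subset_erase p (Finset.subset_univ S)) fun q h1 h2 => by
    have : c q = 0 := by_contra fun e =>
      h2 (Finset.mem_erase.2 ⟨Finset.ne_of_mem_erase h1, (hS q).2 e⟩)
    rw [this, C_0, zero_mul, add_zero]]
  split_ifs with h
  · rw [Finset.erase_eq_of_notMem fun e => (hS p).1 e h.1, ← h.2, ← mul_one S.card,
      coeff_prod_of_natDegree_le _ _ _ fun q _ => deg1 (c q)]
    exact Finset.prod_congr rfl fun q _ => by simp [coeff_one]
  · refine coeff_eq_zero_of_natDegree_lt ((degp c _).trans_lt ?_)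
    by_cases e : c p = 0
    · exact Finset.card_erase_le.trans_lt (lt_of_le_of_ne hk fun e' => h ⟨e, e'⟩)
    · exact (Finset.card_erase_lt_of_mem ((hS p).2 e)).trans_le hk

omit [DecidableEq ι] in
theorem nonneg {L : Mat ι} (hL : L.IsHermitian) {u : V ι} (h : 0 ≤ nV L (star u)) :
    0 ≤ star u ⬝ᵥ L *ᵥ u :=
  Complex.nonneg_iff.2 ⟨Mat.nv_eq L u ▸ h, (hL.im_star_dotProduct_mulVec_self u).symm⟩

omit [DecidableEq ι] in
theorem quad (A L : Mat ι) (x : V ι) :
    star x ⬝ᵥ (Aᴴ * L * A) *ᵥ x = star (A *ᵥ x) ⬝ᵥ L *ᵥ A *ᵥ x := by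
  rw [← mulVec_mulVec, ← mulVec_mulVec, dotProduct_mulVec, star_mulVec]

theorem pt {G Z L : Mat ι} (hG : G.PosDef) (hZ : Z.PosSemidef) (hL : L.IsHermitian) {k : ℕ}
    (hk : Z.rank ≤ k) (h : ∀ v, Z.rank = k → nV Z v = 0 → 0 ≤ nV L v) :
    ∃ p : ℂ[X], p.natDegree ≤ Fintype.card ι ∧
      (∀ s : ℂ, p.eval s = trace ((G + s • Z).adjugate * L)) ∧ 0 ≤ p.coeff k ∧
      (p.coeff k = 0 → ∀ v, Z.rank = k → nV Z v = 0 → nV L v = 0) := by
  classical
  obtain ⟨T, d, hT, hd, rfl, e⟩ := Mat.sim hG hZ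
  have hT' : IsUnit Tᴴ.det := by rw [det_conjTranspose]; exact hT.star
  let c : ι → ℂ := fun i => d i
  let S := Finset.univ.filter fun q => c q ≠ 0
  have hS : ∀ q, q ∈ S ↔ c q ≠ 0 := fun q => by simp [S]
  have hr : Z.rank = S.card := by
    rw [e, rank_mul_eq_left_of_isUnit_det _ _ hT, rank_mul_eq_right_of_isUnit_det _ _ hT',
      rank_diagonal, Fintype.card_subtype]
  let N := T.adjugateᴴ * L * T.adjugate
  let E : Mat ι := diagonal fun i => if c i = 0 then 1 else 0
  let A := T.adjugate * E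
  have hc : (∑ p, C (N p p) * ∏ q ∈ Finset.univ.erase p, (1 + C (c q) * X)).coeff k =
      if S.card = k then (∏ q ∈ S, c q) * trace (Aᴴ * L * A) else 0 := by
    have e1 : Aᴴ * L * A = Eᴴ * N * E := by simp only [A, N, conjTranspose_mul, Matrix.mul_assoc]
    simp only [finsetSum_coeff, coeff_C_mul, coef c S hS (hr ▸ hk), e1, E, diagonal_conjTranspose,
      trace, diag, mul_diagonal, diagonal_mul, Finset.mul_sum]
    split_ifs with h1
    · refine Finset.sum_congr rfl fun p _ => ?_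
      by_cases h2 : c p = 0 <;> simp [h1, h2, mul_comm]
    · simp [h1]
  have hp : 0 < ∏ q ∈ S, c q := Finset.prod_pos fun q hq =>
    lt_of_le_of_ne (zero_le_real.2 (hd q)) ((hS q).1 hq).symm
  have hA : Z * A = 0 := by
    have : diagonal c * E = 0 := by
      rw [diagonal_mul_diagonal, ← diagonal_zero]
      congr 1
      funext i
      by_cases h2 : c i = 0 <;> simp [h2]
    rw [e, Matrix.mul_assoc, ← Matrix.mul_assoc T, mul_adjugate, Matrix.smul_mul, Matrix.one_mul,
      Matrix.mul_smul, Matrix.mul_assoc, this, Matrix.mul_zero, smul_zero]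
  have psd : S.card = k → (Aᴴ * L * A).PosSemidef := fun h1 =>
    .of_dotProduct_mulVec_nonneg (isHermitian_conjTranspose_mul_mul A hL) fun x => by
      rw [quad]
      refine nonneg hL (h _ (hr.trans h1) ?_)
      rw [Mat.nv_eq, mulVec_mulVec, hA, zero_mulVec, dotProduct_zero, zero_re]
  refine ⟨∑ p, C (N p p) * ∏ q ∈ Finset.univ.erase p, (1 + C (c q) * X), ?_, fun s => ?_, ?_,
    fun h0 v h1 h2 => ?_⟩
  · exact natDegree_sum_le_of_forall_le _ _ fun p _ => (natDegree_C_mul_le _ _).trans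
      ((degp c _).trans (Finset.card_le_univ _))
  · have e1 : Tᴴ * T + s • Z = Tᴴ * diagonal (fun i => 1 + c i * s) * T := by
      have : diagonal (fun i => 1 + c i * s) = 1 + s • diagonal c := by
        rw [← diagonal_one, ← diagonal_smul, diagonal_add]
        congr 1
        funext i
        simp [mul_comm]
      rw [this, e, Matrix.mul_add, Matrix.add_mul, Matrix.mul_one, Matrix.mul_smul, Matrix.smul_mul]
    rw [e1, adjugate_mul_distrib, adjugate_mul_distrib, adjugate_diagonal, ← adjugate_conjTranspose,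
      Matrix.mul_assoc, trace_mul_comm, Matrix.mul_assoc, Matrix.mul_assoc,
      ← Matrix.mul_assoc _ L]
    simp only [eval_finsetSum, eval_mul, eval_C, eval_prod, eval_add, eval_one, eval_X, trace, diag,
      diagonal_mul]
    exact Finset.sum_congr rfl fun p _ => mul_comm _ _
  · rw [hc]
    split_ifs with h1
    exacts [mul_nonneg hp.le (psd h1).trace_nonneg, le_rfl]
  · rw [hc, if_pos (hr.symm.trans h1)] at h0
    have h3 := (psd (hr.symm.trans h1)).trace_eq_zero_iff.1 ((mul_eq_zero.1 h0).resolve_left hp.ne')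
    obtain ⟨u, rfl⟩ : ∃ u, v = star u := ⟨star v, (star_star v).symm⟩
    have h4 : Z *ᵥ u = 0 := (hZ.dotProduct_mulVec_zero_iff u).1 (Complex.ext
      ((Mat.nv_eq Z u).symm.trans h2) (hZ.1.im_star_dotProduct_mulVec_self u))
    have h5 : diagonal c *ᵥ T *ᵥ u = 0 := by
      rw [e, ← mulVec_mulVec, ← mulVec_mulVec] at h4
      exact mulVec_injective_iff_isUnit.2 ((isUnit_iff_isUnit_det _).2 hT')
        (h4.trans (mulVec_zero _).symm)
    have h6 : E *ᵥ T *ᵥ u = T *ᵥ u := funext fun i => by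
      have := congrFun h5 i
      rw [mulVec_diagonal] at this ⊢
      split_ifs with h7
      exacts [one_mul _, (zero_mul _).trans ((mul_eq_zero.1 this).resolve_left h7).symm]
    have h7 := quad A L (T *ᵥ u)
    rw [h3, zero_mulVec, dotProduct_zero, ← mulVec_mulVec, h6, mulVec_mulVec, adjugate_mul,
      smul_mulVec, one_mulVec, star_smul, mulVec_smul, smul_dotProduct, dotProduct_smul, smul_eq_mul,
      smul_eq_mul] at h7
    rw [Mat.nv_eq, ((mul_eq_zero.1 ((mul_eq_zero.1 h7.symm).resolve_left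
      hT.star.ne_zero)).resolve_left hT.ne_zero), zero_re]

variable {X : Type} [TopologicalSpace X] [T2Space X] [CompactSpace X] [MeasurableSpace X]
  [BorelSpace X] {M : Atl ι X} {g : X → Mat ι} {μ : Measure X}

open Green in
theorem dv (hg : M.IsK g) (hμ : M.IsVol g μ) {B : X → Mat ι} (hB : M.ClF B) {u : X → ℝ}
    (hu : M.Ck ∞ u) : ∃ f : X → ℂ, Continuous f ∧ ∫ x, f x ∂μ = 0 ∧
      ∀ x, trace ((B x).adjugate * M.ddc u x) = ((g x).det.re : ℂ) * f x := by
  have ha := AY.repA' ι X M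
  have hb := AY.repB' ι X M
  have h2 : ∀ e ∈ M.A, ∀ x ∈ e.source, tj e (M.ch x) x *ᵥ
      ((M.repF B e (e x)).adjugateᵀ *ᵥ fun j => dzb (fn u e) j (e x)) =
      ((‖(tj e (M.ch x) x).det‖ ^ 2 : ℝ) : ℂ) • ((B x).adjugateᵀ *ᵥ star (M.dfn u x)) := by
    intro e he x hx
    have e1 := hb.dfn_rep u e he x hx ((hu e he _ (e.map_source hx)).differentiableAt (by simp))
    have e2 : (fun j => dzb (fn u e) j (e x)) =
        star (M.dfn u x) ᵥ* (tj e (M.ch x) x).map star := by
      funext j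
      rw [show dzb (fn u e) j (e x) = star (dz (fn u e) j (e x)) from
        dzb_ofReal (fun z => u (e.symm z)) j _, congrFun e1 j]
      simp [vecMul, dotProduct]
    rw [repF_eq _ hx, e2, adj_pull]
  obtain ⟨d, h0, h1, hd⟩ := AY.divS' ι X M g μ M.A (fun e => e.target)
    (fun e z => (M.repF B e z).adjugateᵀ *ᵥ fun j => dzb (fn u e) j z) hg hμ subset_rfl
    (fun e _ => ⟨e.open_target, subset_rfl⟩)
    (fun x => ⟨_, M.ch_mem x, M.mem x, (M.ch x).map_source (M.mem x)⟩)
    (fun e he z hz => contDiffAt_pi.2 fun i => ContDiffAt.sum fun j _ =>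
      ((((hB e he).1.cd hz).adjugate j i).mul
        (contDiffAt_dzb_top (hu e he z hz) j)).of_le (by norm_cast))
    (fun e he e' he' x hx hx' _ _ => by
      have e1 := h2 e he x hx
      have e2 := h2 e' he' x hx'
      rw [ha.tj_mul e he e' he' _ (M.ch_mem x) x hx hx' (M.mem x), ← mulVec_mulVec, det_mul,
        norm_mul, mul_pow, ofReal_mul, mul_comm, mul_smul, ← e2, ← mulVec_smul] at e1
      exact mulVec_injective_iff_isUnit.2
        ((isUnit_iff_isUnit_det _).2 (tj_ne ha he' hx').isUnit) e1)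
  refine ⟨d, h0, h1, fun x => ?_⟩
  have he := M.ch_mem x
  have hz := (M.ch x).map_source (M.mem x)
  have e1 := hd _ he x (M.mem x) hz
  rwa [div_adj AY.curvS' (M.ch x).open_target (hB _ he) hz ((hu _ he _ hz).of_le (by norm_cast)),
    ha.repF_self, ha.repF_self] at e1

end FoK

open FoK in
theorem khS {ι X : Type} [Fintype ι] [DecidableEq ι] [TopologicalSpace X] [T2Space X]
    [CompactSpace X] [MeasurableSpace X] [BorelSpace X] (M : Atl ι X) : KhS M := by
  intro g hg ζ k w hζ hp hk hw h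
  have ha := AY.repA' ι X M
  have hb := AY.repB' ι X M
  obtain ⟨⟨μ, hμ⟩, hv⟩ := AY.volS' ι X M g hg
  have := (hv μ hμ).fin
  have := (hv μ hμ).pos
  have hG := (ha.isK_iff g).1 hg
  choose p p1 p2 p3 p4 using fun a =>
    pt (hG.2 a) (hp a) (ha.herm _ (hb.ddc_cl w hw) a) (hk a) (h a)
  choose f f1 f2 f3 using fun j : ℕ =>
    dv hg hμ (ha.clF_add _ _ hG.1 (ha.clF_smul (j : ℝ) _ hζ)) hw
  let s := Finset.range (Fintype.card ι + 1)
  let b := Lagrange.basis s fun j : ℕ => (j : ℂ)
  let c : X → ℂ := fun a => ∑ j ∈ s, f j a * (b j).coeff k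
  have c1 : Continuous c := continuous_finsetSum _ fun j _ => (f1 j).mul continuous_const
  have c2 : ∫ a, c a ∂μ = 0 := by
    rw [integral_finsetSum _ fun j _ => (Green.intg (f1 j)).mul_const _]
    simp only [integral_mul_const, f2, zero_mul, Finset.sum_const_zero]
  have c3 : ∀ a, (p a).coeff k = ((g a).det.re : ℂ) * c a := fun a => by
    have e : p a = ∑ j ∈ s, C ((p a).eval (j : ℂ)) * b j :=
      Lagrange.eq_interpolate (fun _ _ _ _ h => Nat.cast_injective h) (by
        rw [Finset.card_range]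
        exact degree_le_natDegree.trans_lt (by exact_mod_cast Nat.lt_succ_of_le (p1 a)))
    rw [e, finsetSum_coeff, Finset.mul_sum]
    refine Finset.sum_congr rfl fun j _ => ?_
    rw [coeff_C_mul, p2, ← mul_assoc, ← f3, ofReal_natCast]
  have c4 : ∀ a, 0 ≤ c a := fun a => by
    have d0 := Green.det_pos (hG.2 a)
    have := mul_nonneg (zero_le_real.2 (inv_pos.2 d0).le) (p3 a)
    rwa [c3, ofReal_inv, inv_mul_cancel_left₀ (ofReal_ne_zero.2 d0.ne')] at this
  have c5 : (fun a => (c a).re) = 0 := by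
    have hc : Continuous fun a => (c a).re := continuous_re.comp c1
    refine (hc.ae_eq_iff_eq μ continuous_zero).1 ((integral_eq_zero_iff_of_nonneg
      (fun a => (Complex.nonneg_iff.1 (c4 a)).1) (hc.integrable_of_hasCompactSupport
        (HasCompactSupport.of_compactSpace _))).1 ?_)
    exact (reCLM.integral_comp_comm (Green.intg c1)).trans (congrArg _ c2)
  refine fun a => p4 a ?_
  rw [c3, show c a = 0 from Complex.ext (congrFun c5 a) (Complex.nonneg_iff.1 (c4 a)).2.symm,
    mul_zero]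

end Pool.Agent.Lib.MP_813db1_ag.VH.Hr
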