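import Pool.Agent.Lib.MP_813db1_ag.VH.HrSt

/-! Formality: definitions and statements. -/

namespace Pool.Agent.Lib.MP_813db1_ag.VH.Hr

open Pool.Agent.Lib.MP_813db1_ag.HS Pool.Agent.Lib.MP_813db1_ag.AS.F12
open MeasureTheory Matrix Filter Topology Set Sum
open scoped ContDiff ComplexOrder Kronecker

set_option linter.unusedSectionVars false

noncomputable section

section alg

variable {ι R r : Type} [Fintype ι] [DecidableEq ι] [CommRing R] [Fintype r] [DecidableEq r]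

/-- matrices that raise the degree by at least `k`. -/
def Up (d : r → ℕ) (k : ℕ) (A : Matrix r r R) : Prop := ∀ i j, d j < d i + k → A i j = 0

/-- block diagonal matrices. -/
def Bd0 (d : r → ℕ) (A : Matrix r r R) : Prop := ∀ i j, d i ≠ d j → A i j = 0

/-- the part of degree `k`. -/
def msk (d : r → ℕ) (k : ℕ) (A : Matrix r r R) : Matrix r r R :=
  Matrix.of fun i j => if d j = d i + k then A i j else 0

variable [Algebra ℂ R] [StarRing R] [StarModule ℂ R]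

/-- the derivative of matrices. -/
def DR.dE (δ : DR ι R) (r : Type) (a : ι ⊕ ι) : Module.End ℂ (Matrix r r R) :=
  (δ.d a : R →ₗ[ℂ] R).mapMatrix

/-- the operator `u D' + v D''` on endomorphisms. -/
def Mt.PM (m : Mt r R) (δ : DR ι R) (u v : ℂ) (a : ι ⊕ ι) : Module.End ℂ (Matrix r r R) :=
  ty u v a • δ.dE r a + ty (v - u) (u - v) a •
    (LinearMap.mulLeft ℂ (m.am δ a) - LinearMap.mulRight ℂ (m.am δ a))

theorem DR.dE_apply (δ : DR ι R) (a : ι ⊕ ι) (A : Matrix r r R) : δ.dE r a A = δ.dm a A := rfl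

theorem Mt.PM_apply (m : Mt r R) (δ : DR ι R) (u v : ℂ) (a : ι ⊕ ι) (A : Matrix r r R) :
    m.PM δ u v a A = ty u v a • δ.dm a A + ty (v - u) (u - v) a • (m.am δ a * A - A * m.am δ a) :=
  rfl

end alg

/-- the filtration by the degree. -/
structure FoU (R r : Type) [CommRing R] [Fintype r] [DecidableEq r] (d : r → ℕ) : Prop where
  mul : ∀ k l (A B : Matrix r r R), Up d k A → Up d l B → Up d (k + l) (A * B)
  add : ∀ k (A B : Matrix r r R), Up d k A → Up d k B → Up d k (A + B) ∧ Up d k (A - B)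
  mono : ∀ k l (A : Matrix r r R), k ≤ l → Up d l A → Up d k A
  one : Up d 0 (1 : Matrix r r R)
  bd : ∀ A : Matrix r r R, Bd0 d A → Up d 0 A
  up_msk : ∀ k (A : Matrix r r R), Up d k (msk d k A)
  msk_up : ∀ k (A : Matrix r r R), Up d (k + 1) A → msk d k A = 0
  sub_msk : ∀ k (A : Matrix r r R), Up d k A → Up d (k + 1) (A - msk d k A)
  msk_msk : ∀ k (A : Matrix r r R), msk d k (msk d k A) = msk d k A
  msk_add : ∀ k (A B : Matrix r r R), msk d k (A + B) = msk d k A + msk d k B ∧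
    msk d k (A - B) = msk d k A - msk d k B
  msk_mul : ∀ k (A B : Matrix r r R), Bd0 d A → msk d k (A * B) = A * msk d k B ∧
    msk d k (B * A) = msk d k B * A
  unit : ∀ A : Matrix r r R, Up d 1 A → ∃ B, (1 + A) * B = 1 ∧ Up d 0 B
  top : ∃ k, ∀ A : Matrix r r R, Up d k A → A = 0

/-- the operators on endomorphisms. -/
structure FoM (ι R : Type) [Fintype ι] [DecidableEq ι] [CommRing R] [Algebra ℂ R] [StarRing R]
    [StarModule ℂ R] : Prop where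
  vc_P : ∀ (δ : DR ι R) (r : Type) [Fintype r] [DecidableEq r] (m : Mt r R) (mE : Mt (r × r) R),
    mE.H = m.H ⊗ₖ m.Hi → ∀ u v a A, mE.P δ u v a (vc A) = vc (m.PM δ u v a A)
  add : ∀ (δ : DR ι R) (r : Type) [Fintype r] [DecidableEq r] (m : Mt r R),
    m.PM δ 1 0 + m.PM δ 0 1 = δ.dE r
  msk : ∀ (δ : DR ι R) (r : Type) [Fintype r] [DecidableEq r] (m : Mt r R) (d : r → ℕ),
    Bd0 d m.H → ∀ u v a k A, m.PM δ u v a (msk d k A) = msk d k (m.PM δ u v a A) ∧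
      (Up d k A → Up d k (m.PM δ u v a A)) ∧ δ.dm a (msk d k A) = msk d k (δ.dm a A) ∧
      (Up d k A → Up d k (δ.dm a A))
  mc : ∀ (δ : DR ι R) (r : Type) [Fintype r] [DecidableEq r] (A B : Matrix r r R), A * B = 1 →
    ∀ a b, X1 (δ.dE r) (fun c => B * δ.dm c A) a b =
      -(B * δ.dm a A * (B * δ.dm b A) - B * δ.dm b A * (B * δ.dm a A))
  br : ∀ (δ : DR ι R) (r : Type) [Fintype r] [DecidableEq r] (m : Mt r R) (d : r → ℕ) u v k
    (β : ι ⊕ ι → Matrix r r R), (∀ a, Up d 1 (β a)) → (∀ a b, Up d k (X1 (m.PM δ u v) β a b)) →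
    ∀ a b c, Up d (k + 1) (X2 (m.PM δ u v) (fun a b => β a * β b - β b * β a) a b c)

/-- functions that are subharmonic along the kernel of a form of maximal rank. -/
def KhS {ι X : Type} [Fintype ι] [DecidableEq ι] [TopologicalSpace X] (M : Atl ι X) : Prop :=
  ∀ g, M.IsK g → ∀ (ζ : X → Mat ι) (k : ℕ) (w : X → ℝ), M.ClF ζ → (∀ a, (ζ a).PosSemidef) →
    (∀ a, (ζ a).rank ≤ k) → M.Ck ∞ w →
    (∀ a v, (ζ a).rank = k → nV (ζ a) v = 0 → 0 ≤ nV (M.ddc w a) v) →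
    ∀ a v, (ζ a).rank = k → nV (ζ a) v = 0 → nV (M.ddc w a) v = 0

variable {ι X Y : Type} [Fintype ι] [DecidableEq ι] [TopologicalSpace X] [TopologicalSpace Y]
  (M : Atl ι X) {p : Y → X} (hp : IsLocalHomeomorph p) (G : Type) [Group G] [MulAction G Y]

/-- averages of a function on the group. -/
def AvgS (p : Y → X) : Prop := ∀ (r : Type) [Fintype r] [DecidableEq r] (φ : G → Mat r),
  ∃ u : Y → Mat r, SmH M p u ∧ (∀ i j c, (∀ γ, φ γ i j = c) → ∀ y, u y i j = c) ∧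
    ∀ (g : G) (A B : Mat r), (∀ γ, φ (g * γ) = A * φ γ * B) → ∀ y, u (g • y) = A * u y * B

/-- the Poisson equation for divergences. -/
def FoSol : Prop := ∀ g (hg : M.IsK g) (r : Type) [Fintype r] [DecidableEq r] (D : Dt M p G r)
  (u v : ℂ) (κ : ι ⊕ ι → r → RR M hp), D.PH → T1 D.ρ κ → ∃ f, T0 D.ρ f ∧
    lam (kh hp g hg).π (X1 ((mt hp D).P (dr M hp) 0 1) fun a => (dr M hp).dv r a f) =
      lam (kh hp g hg).π (X1 ((mt hp D).P (dr M hp) u v) κ)

/-- the gauge in which `D'` vanishes. -/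
def FoA : Prop := ∀ g, M.IsK g → ∀ (r : Type) [Fintype r] [DecidableEq r] (D : Dt M p G r)
  (κ : ι ⊕ ι → r → RR M hp), D.PH → T1 D.ρ κ →
  X2 ((mt hp D).P (dr M hp) 1 0) (X1 ((dr M hp).dv r) κ) = 0 → ∃ f, T0 D.ρ f ∧
    X1 ((mt hp D).P (dr M hp) 1 0) (κ + fun a => (dr M hp).dv r a f) = 0

variable {G} in
/-- the kernel of a semipositive form of maximal rank. -/
structure Ker (g ζ : X → Mat ι) (U : Set X) (k : ℕ) : Prop where
  k0 : M.IsK g
  cl : M.ClF ζ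
  psd : ∀ a, (ζ a).PosSemidef
  le : ∀ a, (ζ a).rank ≤ k
  eq : ∀ a, a ∈ U ↔ (ζ a).rank = k

/-- sections that are pluriharmonic along the kernel are parallel along the kernel. -/
def FoC : Prop := ∀ g ζ U k, Ker M g ζ U k → ∀ (r : Type) [Fintype r] [DecidableEq r]
  (D : Dt M p G r) (f : r → RR M hp), T0 D.ρ f → KM ζ U ((mt hp D).am (dr M hp)) →
  K2 ζ U (X1 ((mt hp D).P (dr M hp) 0 1) fun a => (mt hp D).P (dr M hp) 1 0 a f) →
  K1 ζ U fun a => (mt hp D).P (dr M hp) 1 0 a f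

/-- forms that are closed for `D'` and closed along the kernel vanish on the kernel. -/
def FoB : Prop := ∀ g ζ U k, Ker M g ζ U k → MaxF M p G ζ U → ∀ (r : Type) [Fintype r]
  [DecidableEq r] (D : Dt M p G r) (κ : ι ⊕ ι → r → RR M hp), IntR D.ρ → D.PH → T1 D.ρ κ →
  X1 ((mt hp D).P (dr M hp) 1 0) κ = 0 → K2 ζ U (X1 ((mt hp D).P (dr M hp) 0 1) κ) → K1 ζ U κ

variable {M G} in
/-- the state of the induction. -/
structure Sta {r : Type} [Fintype r] [DecidableEq r] (D : Dt M p G r) (ρ : G →* Mat r) (d : r → ℕ)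
    (ζ : X → Mat ι) (U : Set X) (k : ℕ) (A B : Matrix r r (RR M hp)) : Prop where
  inv : A * B = 1
  up : Up d 1 (A - 1)
  upi : Up d 0 B
  law : ∀ (q q' : Pt M p) (γ : G), q.y = γ • q'.y → evM q A = ρ γ * evM q' A * D.ρ γ⁻¹
  cl : ∀ a b, Up d (k + 1) (X1 ((mt hp D).PM (dr M hp) 1 0) (fun c => B * (dr M hp).dm c A) a b)
  ker : ∀ q w, KC ζ U q w → Up d (k + 1) (∑ a, w a • evM q (B * (dr M hp).dm a A))

/-- the start of the induction. -/
def Fo0 : Prop := ∀ ζ U (r : Type) [Fintype r] [DecidableEq r] (D : Dt M p G r) (d : r → ℕ)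
  (ρ : G →* Mat r), (∀ y, Bd0 d (D.H y)) →
  (∀ g i j, (d i ≠ d j → D.ρ g i j = 0) ∧ (d i = d j → ρ g i j = D.ρ g i j) ∧
    (d j < d i → ρ g i j = 0)) → ∃ A B, Sta hp D ρ d ζ U 0 A B

/-- the step of the induction. -/
def Fo1 : Prop := ∀ g ζ U n, Ker M g ζ U n → MaxF M p G ζ U → ∀ (r : Type) [Fintype r]
  [DecidableEq r] (D : Dt M p G r) (d : r → ℕ) (ρ : G →* Mat r), IntR D.ρ → D.PH →
  (∀ y, Bd0 d (D.H y)) → (∀ γ, Bd0 d (D.ρ γ)) → ∀ k A B, Sta hp D ρ d ζ U k A B →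
  ∃ A' B', Sta hp D ρ d ζ U (k + 1) A' B'

/-- the end of the induction. -/
def Fo2 : Prop := ∀ ζ U (r : Type) [Fintype r] [DecidableEq r] (D : Dt M p G r) (ρ : G →* Mat r)
  (A B : Matrix r r (RR M hp)), A * B = 1 →
  (∀ (q q' : Pt M p) (γ : G), q.y = γ • q'.y → evM q A = ρ γ * evM q' A * D.ρ γ⁻¹) →
  KM ζ U (fun a => B * (dr M hp).dm a A) → (∀ i j, Kil M p ζ U fun y => D.H y i j) →
  ∃ Φ : Y → Mat r, SmH M p Φ ∧ (∀ y, (Φ y).PosDef) ∧
    (∀ (g : G) y, Φ (g • y) = ρ g * Φ y * (ρ g)ᴴ) ∧ ∀ i j, Kil M p ζ U fun y => Φ y i j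

/-- formality: `ρ` is block triangular for the degree `d` with graded part `D.ρ`. -/
def FormS2 (p : Y → X) : Prop := ∀ g0, M.IsK g0 → ∀ (ζ : X → Mat ι) (U : Set X) (k : ℕ), M.ClF ζ →
  (∀ a, (ζ a).PosSemidef) → (∀ a, (ζ a).rank ≤ k) → (∀ a, a ∈ U ↔ (ζ a).rank = k) →
  MaxF M p G ζ U →
  ∀ (r : Type) [Fintype r] [DecidableEq r] (D : Dt M p G r) (d : r → ℕ) (ρ : G →* Mat r),
    IntR D.ρ → D.PH → (∀ y i j, d i ≠ d j → D.H y i j = 0) →
    (∀ g i j, (d i ≠ d j → D.ρ g i j = 0) ∧ (d i = d j → ρ g i j = D.ρ g i j) ∧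
      (d j < d i → ρ g i j = 0)) →
    ∃ Φ : Y → Mat r, SmH M p Φ ∧ (∀ y, (Φ y).PosDef) ∧
      (∀ (g : G) y, Φ (g • y) = ρ g * Φ y * (ρ g)ᴴ) ∧ ∀ i j, Kil M p ζ U fun y => Φ y i j

end

end Pool.Agent.Lib.MP_813db1_ag.VH.Hr
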