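import Pool.Agent.Lib.MP_813db1_ag.VH.FoSt

/-! The filtration by the degree and the operators on endomorphisms. -/

namespace Pool.Agent.Lib.MP_813db1_ag.VH.Hr

open Matrix Finset Sum
open scoped Kronecker

set_option linter.unusedSectionVars false

namespace FoUa

variable {ι R r : Type} [CommRing R] [Fintype r] [DecidableEq r] {d : r → ℕ} {k l : ℕ}
  {A B : Matrix r r R}

theorem mul (hA : Up d k A) (hB : Up d l B) : Up d (k + l) (A * B) := fun i j h => by
  rw [mul_apply]
  refine sum_eq_zero fun m _ => ?_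
  by_cases c : d m < d i + k
  · rw [hA i m c, zero_mul]
  · rw [hB m j (by omega), mul_zero]

theorem add (hA : Up d k A) (hB : Up d k B) : Up d k (A + B) := fun i j h => by
  rw [Matrix.add_apply, hA i j h, hB i j h, add_zero]

theorem sub (hA : Up d k A) (hB : Up d k B) : Up d k (A - B) := fun i j h => by
  rw [Matrix.sub_apply, hA i j h, hB i j h, sub_zero]

theorem neg (hA : Up d k A) : Up d k (-A) := fun i j h => by
  rw [Matrix.neg_apply, hA i j h, neg_zero]

theorem mono (h : k ≤ l) (hA : Up d l A) : Up d k A := fun i j c => hA i j (by omega)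

theorem bd (h : Bd0 d A) : Up d 0 A := fun i j c => h i j (by omega)

theorem one : Up d 0 (1 : Matrix r r R) := fun i j c => one_apply_ne fun e => by
  subst e
  omega

theorem pow (hA : Up d 1 A) (n : ℕ) : Up d n (A ^ n) := by
  induction n with
  | zero => exact pow_zero A ▸ one
  | succ n ih => exact pow_succ A n ▸ mul ih hA

theorem msk_apply (A : Matrix r r R) (i j : r) :
    msk d k A i j = if d j = d i + k then A i j else 0 := rfl

theorem msk_add (A B : Matrix r r R) : msk d k (A + B) = msk d k A + msk d k B := by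
  ext i j
  simp only [msk_apply, Matrix.add_apply]
  split_ifs <;> simp

theorem msk_sub (A B : Matrix r r R) : msk d k (A - B) = msk d k A - msk d k B := by
  ext i j
  simp only [msk_apply, Matrix.sub_apply]
  split_ifs <;> simp

theorem msk_l (h : Bd0 d A) (B : Matrix r r R) : msk d k (A * B) = A * msk d k B := by
  ext i j
  simp only [msk_apply, mul_apply]
  rw [← sum_const_zero (s := (univ : Finset r)), ← sum_ite_irrel]
  refine sum_congr rfl fun m _ => ?_
  by_cases c : d i = d m
  · rw [c, sum_const_zero, mul_ite, mul_zero]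
  · simp [h i m c]

theorem msk_r (h : Bd0 d A) (B : Matrix r r R) : msk d k (B * A) = msk d k B * A := by
  ext i j
  simp only [msk_apply, mul_apply]
  rw [← sum_const_zero (s := (univ : Finset r)), ← sum_ite_irrel]
  refine sum_congr rfl fun m _ => ?_
  by_cases c : d m = d j
  · rw [c, sum_const_zero, ite_mul, zero_mul]
  · simp [h m j c]

theorem top (d : r → ℕ) : ∃ k, ∀ A : Matrix r r R, Up d k A → A = 0 :=
  ⟨univ.sup d + 1, fun A h => Matrix.ext fun i j => h i j (by
    have := le_sup (f := d) (mem_univ j)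
    omega)⟩

theorem unit (hA : Up d 1 A) : ∃ B, (1 + A) * B = 1 ∧ Up d 0 B := by
  obtain ⟨N, hN⟩ := top (R := R) d
  refine ⟨∑ m ∈ range N, (-A) ^ m, ?_, fun i j c => ?_⟩
  · rw [← sub_neg_eq_add, mul_neg_geom_sum, hN _ (pow (neg hA) N), sub_zero]
  · rw [Matrix.sum_apply]
    exact sum_eq_zero fun m _ => mono (Nat.zero_le m) (pow (neg hA) m) i j c

theorem bd_mul (hA : Bd0 d A) (hB : Bd0 d B) : Bd0 d (A * B) := fun i j h => by
  rw [mul_apply]
  refine sum_eq_zero fun m _ => ?_
  by_cases c : d i = d m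
  · rw [hB m j (c ▸ h), mul_zero]
  · rw [hA i m c, zero_mul]

theorem bd_inv (hA : Bd0 d A) (h : A * B = 1) : Bd0 d B := fun i j c => by
  have e : msk d 0 (1 : Matrix r r R) = 1 := Matrix.ext fun i j => by
    rw [msk_apply]
    split_ifs with c
    · rfl
    · exact (one_apply_ne fun e => c (by rw [e, add_zero])).symm
  have e2 : msk d 0 B = B := by
    rw [← Matrix.one_mul (msk d 0 B), ← mul_eq_one_comm.1 h, Matrix.mul_assoc, ← msk_l hA, h, e,
      Matrix.mul_one]
  rw [← e2, msk_apply, if_neg (by omega)]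

variable [Fintype ι] [DecidableEq ι] [Algebra ℂ R] [StarRing R] [StarModule ℂ R] (δ : DR ι R)

theorem smul (c : ℂ) (hA : Up d k A) : Up d k (c • A) := fun i j h => by
  rw [Matrix.smul_apply, hA i j h, smul_zero]

theorem msk_smul (c : ℂ) (A : Matrix r r R) : msk d k (c • A) = c • msk d k A := by
  ext i j
  simp only [msk_apply, Matrix.smul_apply]
  split_ifs <;> simp

theorem dm_up (a : ι ⊕ ι) (hA : Up d k A) : Up d k (δ.dm a A) := fun i j h => by
  rw [δ.dm_apply, hA i j h, map_zero]

theorem dm_msk (a : ι ⊕ ι) (A : Matrix r r R) : δ.dm a (msk d k A) = msk d k (δ.dm a A) := by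
  ext i j
  simp only [msk_apply, δ.dm_apply]
  split_ifs <;> simp

theorem bd_am {m : Mt r R} (h : Bd0 d m.H) (a : ι ⊕ ι) : Bd0 d (m.am δ a) := fun i j c => by
  rw [Mt.am, Matrix.smul_apply, bd_mul (bd_inv h m.hi)
    (fun i j c => by rw [δ.dm_apply, h i j c, map_zero]) i j c, smul_zero]

theorem pm_mul (m : Mt r R) (u v : ℂ) (a : ι ⊕ ι) (A B : Matrix r r R) :
    m.PM δ u v a (A * B) = m.PM δ u v a A * B + A * m.PM δ u v a B := by
  simp only [Mt.PM_apply, δ.dm_mul, Matrix.add_mul, Matrix.mul_add, Matrix.sub_mul, Matrix.mul_sub,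
    smul_mul_assoc, Matrix.mul_smul, Matrix.mul_assoc]
  module

theorem dm_inv (h : A * B = 1) (a : ι ⊕ ι) : δ.dm a B = -(B * δ.dm a A * B) := by
  have e := congrArg (B * ·) (δ.dm_mul a A B)
  simp only [h, δ.dm_one, Matrix.mul_zero, Matrix.mul_add, ← Matrix.mul_assoc,
    mul_eq_one_comm.1 h, Matrix.one_mul] at e
  exact eq_neg_of_add_eq_zero_right e.symm

end FoUa

open FoUa

theorem foU (R r : Type) [CommRing R] [Fintype r] [DecidableEq r] (d : r → ℕ) : FoU R r d where
  mul _ _ _ _ := mul
  add _ _ _ a b := ⟨add a b, sub a b⟩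
  mono _ _ _ := mono
  one := one
  bd _ := bd
  up_msk k A i j c := by rw [msk_apply, if_neg (by omega)]
  msk_up k A h := Matrix.ext fun i j => by
    rw [msk_apply]
    split_ifs with c
    · exact h i j (by omega)
    · rfl
  sub_msk k A h i j c := by
    rw [Matrix.sub_apply, msk_apply]
    split_ifs with e
    · exact sub_self _
    · rw [h i j (by omega), sub_zero]
  msk_msk k A := Matrix.ext fun i j => by
    simp only [msk_apply]
    split_ifs <;> rfl
  msk_add _ A B := ⟨msk_add A B, msk_sub A B⟩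
  msk_mul _ _ B h := ⟨msk_l h B, msk_r h B⟩
  unit _ := unit
  top := top d

variable {ι R : Type} [Fintype ι] [DecidableEq ι] [CommRing R] [Algebra ℂ R] [StarRing R]
  [StarModule ℂ R]

theorem foM (hE : EndL ι R) : FoM ι R where
  vc_P δ r _ _ m mE h u v a A := by
    rw [Mt.P, Mt.Pg_apply, (hE δ r m mE h).1]
    rfl
  add δ r _ _ m := funext fun a => LinearMap.ext fun x => by
    rw [Pi.add_apply, LinearMap.add_apply, Mt.PM_apply, Mt.PM_apply, DR.dE_apply]
    cases a <;> simp only [ty_inl, ty_inr] <;> module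
  msk δ r _ _ m d h u v a k A := by
    have b := bd_am δ h a
    refine ⟨?_, fun c => ?_, dm_msk δ a A, dm_up δ a⟩
    · rw [Mt.PM_apply, Mt.PM_apply, msk_add, msk_smul, msk_smul, msk_sub, msk_l b, msk_r b, dm_msk]
    · exact add (smul _ (dm_up δ a c)) (smul _ (sub (mono (by omega) (mul (bd b) c)) (mul c (bd b))))
  mc δ r _ _ A B h a b := by
    rw [X1, DR.dE_apply, DR.dE_apply, δ.dm_mul, δ.dm_mul, dm_inv δ h, dm_inv δ h, δ.dm_comm a b]
    simp only [Matrix.neg_mul, Matrix.mul_assoc]
    abel
  br δ r _ _ m d u v k β h1 h2 a b c := by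
    have e : ∀ a b c, Up d (k + 1) (X1 (m.PM δ u v) β a b * β c - β c * X1 (m.PM δ u v) β a b) :=
      fun a b c => sub (mul (h2 a b) (h1 c)) (mono (by omega) (mul (h1 c) (h2 a b)))
    convert add (add (e a b c) (e b c a)) (e c a b) using 1
    simp only [X2, X1, map_sub, pm_mul, Matrix.sub_mul, Matrix.mul_sub]
    abel

end Pool.Agent.Lib.MP_813db1_ag.VH.Hr
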