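import Pool.Agent.Lib.MP_813db1_ag.VH.Kb
import Pool.Agent.Lib.MP_813db1_ag.VH.Stmt

/-! Section six in the form of the interface. -/

namespace Pool.Agent.Lib.MP_813db1_ag.VH

open Pool.Agent.Lib.MP_813db1_ag.HS
open scoped ComplexOrder

theorem kbV {ι X Y G : Type} [Fintype ι] [DecidableEq ι] [Nonempty ι] [TopologicalSpace X]
    [T2Space X] [CompactSpace X] [ConnectedSpace X] [MeasurableSpace X] [BorelSpace X]
    [ChartedSpace (ι → ℂ) X] [TopologicalSpace Y] [ConnectedSpace Y] [Group G] [MulAction G Y]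
    {M : Atl ι X} {p : Y → X} (hC : Cx M p G) : KBV M := fun g _ hg hμ hN σ hσ pσ hv =>
  have A := AY.repA' ι X M
  kb hC.sub hC.cov hg hμ hN hσ pσ (exF_all hC.sub hC.ex hg) (exF_all hC.sub hC.ex
    ((A.isK_iff _).2 ⟨A.clF_add _ _ ((A.isK_iff g).1 hg).1 hσ,
      fun x => (((A.isK_iff g).1 hg).2 x).add_posSemidef (pσ x)⟩)) hv

end Pool.Agent.Lib.MP_813db1_ag.VH
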