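import Pool.Agent.Lib.MP_813db1_ag.VH.St7

/-! Rigidity from the two stages. -/

namespace Pool.Agent.Lib.MP_813db1_ag.VH

open Pool.Agent.Lib.MP_813db1_ag.HS Pool.Agent.Lib.MP_813db1_ag.AS
open MeasureTheory Complex Matrix Filter Topology Set
open scoped ContDiff ComplexOrder

variable {ι X Y G : Type} [Fintype ι] [DecidableEq ι] [TopologicalSpace X] [TopologicalSpace Y]
  [Group G] [MulAction G Y] {M : Atl ι X} {p : Y → X}

theorem form_ext (hq : IsQuotientCoveringMap p G) {τ τ' : X → Mat ι}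
    {B : Ch ι X → V ι → (V ι → Y) → Mat ι} (h : Loc M p fun e z s => M.repF τ e z = B e z s)
    (h' : Loc M p fun e z s => M.repF τ' e z = B e z s) : τ = τ' := funext fun a => by
  obtain ⟨s, -, k, k'⟩ := (h.and h').base hq a
  rw [(AY.repA' ι X M).repF_self] at k k'
  exact k.trans k'.symm

theorem tau_ok (hq : IsQuotientCoveringMap p G) (hF : FrmS M p G) {r : Type} [Fintype r]
    [DecidableEq r] {D : Dt M p G r} {τ : X → Mat ι} (h : D.PH) (hτ : D.Tau τ) :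
    M.ClF τ ∧ ∀ a, (τ a).PosSemidef := by
  obtain ⟨τ', k1, -, k2, k3⟩ := (hF r D).1
  obtain rfl := form_ext hq hτ k1
  exact ⟨k3 h, k2⟩

theorem xi_ok (hq : IsQuotientCoveringMap p G) (hF : FrmS M p G) {r : Type} [Fintype r]
    [DecidableEq r] {D : Dt M p G r} {c : G → V r} {x : Y → V r} {ξ : X → Mat ι} (hA : D.Aff c x)
    (rx : ∀ y, star (x y) = x y) (h : D.PX x) (hξ : D.Xi x ξ) :
    M.ClF ξ ∧ ∀ a, (ξ a).PosSemidef := by
  obtain ⟨ξ', k1, -, k2, k3⟩ := (hF r D).2 c x hA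
  obtain rfl := form_ext hq hξ k1
  exact ⟨k3 rx h, k2⟩

omit [Fintype ι] [DecidableEq ι] in
theorem psd_smul {B : Mat ι} (h : B.PosSemidef) {c : ℝ} (hc : 0 ≤ c) : ((c : ℂ) • B).PosSemidef :=
  h.smul (zero_le_real.2 hc)

theorem rigS [MeasurableSpace X] (hq : IsQuotientCoveringMap p G) (hF : FrmS M p G)
    (h1 : St1 M p G) (h2 : St2 M p G) (hT : TwoV M) (hS : SumP M p G) (hR : RkS M p G)
    (hE : FinS M p G) : RigS M p G := by
  intro g μ hg hμ hN hK r _ _ D Q c x τ ξ hP hA hX hQ hτ hξ hC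
  have A := AY.repA' ι X M
  obtain ⟨cτ, pτ⟩ := tau_ok hq hF hP hτ
  obtain ⟨m, E, Q1, c1, x1, ξ1, v, hv, k1, w1⟩ :=
    h1 g μ hg hμ hN r D Q c x τ ξ hP hA hX hQ hτ hξ hC
  have n0 : (0 : ℝ) ≤ Fintype.card ι := Nat.cast_nonneg _
  have cC := A.clF_smul (Fintype.card ι + 1 : ℝ) τ cτ
  have kc : KCl M g fun y => ((Fintype.card ι + 1 : ℝ) : ℂ) • τ y + ξ1 y := by
    refine hK _ (A.clF_add _ _ cC k1.cl)
      (fun y => (psd_smul (pτ y) (by linarith)).add (k1.psd y)) ?_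
    have := w1 1
    simp only [ofReal_one, one_smul, one_pow, mul_one] at this
    exact hv.trans_eq this.symm
  obtain ⟨m', E', Q2, c2, x2, ξ2, v', hv', k2, le, w2⟩ :=
    h2 g μ hg hμ hN r D τ ξ1 _ hP hτ k1.cl k1.psd (by linarith) kc
  have w3 := hT g μ hg hμ hN _ ξ1 ξ2 m m' v v' cC k1.cl k2.cl (fun y => ⟨k1.psd y, k2.psd y, by
    have := (psd_smul (pτ y) n0).add (le y)
    rwa [ofReal_add, add_smul, ofReal_one, one_smul, add_sub_assoc],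
    (hR m E Q1 x1 ξ1 k1.pol k1.xi).1 y⟩) w1 w2
  obtain ⟨E3, Q3, c3, x3, k3⟩ := hS m m' E E' Q1 c1 x1 ξ1 Q2 c2 x2 ξ2 k1 k2
  obtain ⟨h, k⟩ := hE g μ hg hμ hK _ E3 Q3 c3 x3 _ v' hv' k3 w3
  exact ⟨_, E3, Q3, c3, x3, h, _, k⟩

end Pool.Agent.Lib.MP_813db1_ag.VH
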