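import Pool.Agent.Lib.MP_813db1_ag.VH.VoAll
import Pool.Agent.Lib.MP_813db1_ag.VH.MgOf
import Pool.Agent.Lib.MP_813db1_ag.VH.KbV
import Pool.Agent.Lib.MP_813db1_ag.VH.Dbl
import Pool.Agent.Lib.MP_813db1_ag.VH.Rig
import Pool.Agent.Lib.MP_813db1_ag.AN.All

/-! The sections put together. -/

namespace Pool.Agent.Lib.MP_813db1_ag.VH

open Pool.Agent.Lib.MP_813db1_ag.HS Pool.Agent.Lib.MP_813db1_ag.AS
open MeasureTheory Filter Topology Set
open scoped ContDiff ComplexOrder Manifold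

variable {ι X Y G : Type} [Fintype ι] [DecidableEq ι] [Nonempty ι] [TopologicalSpace X] [T2Space X]
  [CompactSpace X] [ConnectedSpace X] [MeasurableSpace X] [BorelSpace X] [ChartedSpace (ι → ℂ) X]
  [IsManifold 𝓘(ℂ, ι → ℂ) ω X] [TopologicalSpace Y] [SimplyConnectedSpace Y] [Group G]
  [MulAction G Y] {M : Atl ι X} {p : Y → X}

/-- the analytic inputs. -/
structure Inp (M : Atl ι X) (p : Y → X) (G : Type) [Group G] [MulAction G Y] : Prop where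
  fo : Hr.FormS2 M G p
  co : CorS M p G
  si : SiuS M p G
  ho : HodS M p G
  po : PoiS M p G
  px : PxS M p G
  ri : RigS M p G

/-- the rigid situation occurs. -/
theorem spl (hN : NS.NsS) (hI : ∀ M : Atl ι X, Cx M p G → Inp M p G) (K : Kahler ι X)
    (hp : IsQuotientCoveringMap p G) (hE : ∀ K : Kahler ι X, Exact K p) :
    ∃ (M : Atl ι X) (g : X → Mat ι), Cx M p G ∧ M.IsK g ∧
      (∀ e ∈ atlas (ι → ℂ) X, ∀ z ∈ e.target, M.repF g e z = K.g e z) ∧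
      ∃ (m : ℕ) (E : Dt M p G (Fin (2 * m))) (Q : Mat (Fin (2 * m))) (c : G → V (Fin (2 * m)))
        (x : Y → V (Fin (2 * m))) (h ξ : X → Mat ι), E.Spl Q c x h ξ := by
  have ha := AY.repA'
  obtain ⟨M, g, hA, hch, hg, hrep⟩ := maxAtl ha ι X K
  obtain ⟨μ, hμ⟩ := (AY.volS' ι X M g hg).1
  have hC : Cx M p G := ⟨hA, hch, hp, hE⟩
  have hK := AN.nefS ι X Y G K p hp (hE K)
  have eg : ∀ x, g x = K.g (chartAt (ι → ℂ) x) (chartAt (ι → ℂ) x x) := fun x => by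
    rw [← hrep _ (chart_mem_atlas _ x) _ (mem_chart_target _ x), ← hch, (ha ι X M).repF_self]
  have er : ∀ x, M.ricF g x = ric (K.g (chartAt (ι → ℂ) x)) (chartAt (ι → ℂ) x x) := fun x => by
    rw [Atl.ricF, hch]
    refine Main.ric_cg ?_
    filter_upwards [(chartAt (ι → ℂ) x).open_target.mem_nhds (mem_chart_target _ x)] with w hw
    rw [hrep _ (chart_mem_atlas _ x) w hw]
  have hnef : NefA M g := fun ε hε => by
    obtain ⟨w, h⟩ := hK ε hε
    refine ⟨w, (ha ι X M).ck_loc ⊤ w fun x => ⟨_, hA (chart_mem_atlas _ x), mem_chart_source _ x,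
      ?_⟩, fun x => ?_⟩
    · exact Complex.ofRealCLM.contDiff.contDiffAt.comp _
        (((h _ (chart_mem_atlas _ x)).1).contDiffAt
          ((chartAt (ι → ℂ) x).open_target.mem_nhds (mem_chart_target _ x)))
    · rw [er, eg, Atl.ddc, hch]
      exact (h _ (chart_mem_atlas _ x)).2 _ (mem_chart_target _ x)
  have I := hI M hC
  have hB := kbV hC g μ hg hμ hnef
  obtain ⟨r, _, _, D, c, x, τ, ξ, v1, v2, v3, v4, v5, v6, v7⟩ :=
    volW hC (mgOf hN hC) I.fo I.co I.si I.ho I.po I.px g μ hg hμ hnef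
  obtain ⟨c1, p1⟩ := tau_ok hp (frmS hp) v1 v5
  obtain ⟨c2, p2⟩ := xi_ok hp (frmS hp) v2 v3 v4 v6
  obtain ⟨u, u1, u2⟩ := hB _ ((ha ι X M).clF_add _ _ c1 c2) (fun a => (p1 a).add (p2 a)) v7
  obtain ⟨E, Q, c', x', d1, d2, d3, d4, d5, d6⟩ :=
    dblS hp sumS dualS (primS hp) r D c x τ ξ v1 v2 v3 v4 v5 v6
  refine ⟨M, g, hC, hg, hrep, I.ri g μ hg hμ hnef hB _ E Q c' x' _ _ d1 d2 d3 d4 d5 d6
    ⟨u, u1, fun a => ?_⟩⟩
  convert (u2 a).add_posSemidef ((p1 a).add (p2 a)) using 1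
  ext i j
  simp only [Matrix.add_apply, Matrix.neg_apply]
  ring

/-- abundance. -/
theorem abund (hN : NS.NsS) (hI : ∀ M : Atl ι X, Cx M p G → Inp M p G)
    (hS : ∀ M : Atl ι X, Cx M p G → SecV M p G ∧ NumV M p G) (K : Kahler ι X)
    (hp : IsQuotientCoveringMap p G) (hE : ∀ K : Kahler ι X, Exact K p) :
    ∃ N : ℕ, 0 < N ∧ ∃ c : ℝ, 0 < c ∧ ∀ᶠ a : ℕ in atTop, ∃ (Q : ℕ)
      (s : Fin Q → OpenPartialHomeomorph X (ι → ℂ) → (ι → ℂ) → ℂ),
      c * (a : ℝ) ^ K.numDim ≤ Q ∧ (∀ j, IsPluri (N * a) (s j)) ∧ Indep s := by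
  obtain ⟨M, g, hC, hg, hr, m, E, Q, c, x, h, ξ, k⟩ := spl hN hI K hp hE
  have A := AY.repA' ι X M
  obtain ⟨N, N0, c0, hc, hev⟩ := (hS M hC).1 m E Q c x h ξ k
  refine ⟨N, N0, c0, hc, ?_⟩
  filter_upwards [hev, eventually_ge_atTop 1] with a ⟨q, s, hQ, hs, hli⟩ ha
  refine ⟨q, fun j e z => M.rep (N * a) (s j) e z, le_trans (mul_le_mul_of_nonneg_left
    (pow_le_pow_right₀ (by exact_mod_cast ha) ((hS M hC).2 K g hg hr m E Q c x h ξ k)) hc.le) hQ,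
    fun j => ⟨fun e he => hs j e (hC.sub he), fun e he e' he' x hx hx' =>
      A.rep_tr _ _ e (hC.sub he) e' (hC.sub he') x hx hx'⟩, fun d hd => ?_⟩
  funext j
  refine Fintype.linearIndependent_iff.1 hli d ?_ j
  funext x
  have h := hd _ (chart_mem_atlas (ι → ℂ) x) _ (mem_chart_target _ x)
  simp only [← hC.ch x, A.rep_self] at h
  simpa using h

end Pool.Agent.Lib.MP_813db1_ag.VH
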