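import Mathlib

/-! Exterior calculus for families of operators, and the second order divergence identity. -/

namespace Pool.Agent.Lib.MP_813db1_ag.VH.Hr

open Matrix Finset

set_option linter.unusedSectionVars false

noncomputable section

section ext

variable {τ N : Type} [AddCommGroup N] [Module ℂ N]

/-- the derivative of a one-form. -/
def X1 (P : τ → Module.End ℂ N) (κ : τ → N) (a b : τ) : N := P a (κ b) - P b (κ a)

/-- the derivative of a two-form. -/
def X2 (P : τ → Module.End ℂ N) (S : τ → τ → N) (a b c : τ) : N :=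
  P a (S b c) + P b (S c a) + P c (S a b)

/-- commuting families. -/
def Cm (P : τ → Module.End ℂ N) : Prop := ∀ a b x, P a (P b x) = P b (P a x)

theorem X1_alt (P : τ → Module.End ℂ N) (κ : τ → N) (a b : τ) : X1 P κ b a = -X1 P κ a b := by
  simp [X1]

theorem X1_add (P : τ → Module.End ℂ N) (κ κ' : τ → N) : X1 P (κ + κ') = X1 P κ + X1 P κ' := by
  funext a b
  simp only [X1, Pi.add_apply, map_add]
  abel

theorem X1_sub (P : τ → Module.End ℂ N) (κ κ' : τ → N) : X1 P (κ - κ') = X1 P κ - X1 P κ' := by
  funext a b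
  simp only [X1, Pi.sub_apply, map_sub]
  abel

theorem X1_op (P Q : τ → Module.End ℂ N) (κ : τ → N) : X1 (P + Q) κ = X1 P κ + X1 Q κ := by
  funext a b
  simp only [X1, Pi.add_apply, LinearMap.add_apply]
  abel

theorem X2_add (P : τ → Module.End ℂ N) (S S' : τ → τ → N) :
    X2 P (S + S') = X2 P S + X2 P S' := by
  funext a b c
  simp only [X2, Pi.add_apply, map_add]
  abel

theorem X2_sub (P : τ → Module.End ℂ N) (S S' : τ → τ → N) :
    X2 P (S - S') = X2 P S - X2 P S' := by
  funext a b c
  simp only [X2, Pi.sub_apply, map_sub]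
  abel

theorem X2_neg (P : τ → Module.End ℂ N) (S : τ → τ → N) : X2 P (-S) = -X2 P S := by
  funext a b c
  simp only [X2, Pi.neg_apply, map_neg]
  abel

theorem X2_zero (P : τ → Module.End ℂ N) : X2 P 0 = 0 := by
  funext a b c
  simp [X2]

theorem X2_op (P Q : τ → Module.End ℂ N) (S : τ → τ → N) : X2 (P + Q) S = X2 P S + X2 Q S := by
  funext a b c
  simp only [X2, Pi.add_apply, LinearMap.add_apply]
  abel

variable {P Q : τ → Module.End ℂ N}

theorem Cm.x1 (h : Cm P) (f : N) : X1 P (fun a => P a f) = 0 :=
  funext fun a => funext fun b => sub_eq_zero.2 (h a b f)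

theorem Cm.x2 (h : Cm P) (κ : τ → N) : X2 P (X1 P κ) = 0 := by
  funext a b c
  simp only [X2, X1, map_sub, h a b, h a c, h b c, Pi.zero_apply]
  abel

theorem Cm.y1 (h : Cm P) (h' : Cm Q) (h'' : Cm (P + Q)) (f : N) :
    X1 P (fun a => Q a f) = -X1 Q fun a => P a f := by
  have e := h''.x1 f
  rw [X1_op, show (fun a => (P + Q) a f) = (fun a => P a f) + fun a => Q a f from rfl, X1_add,
    X1_add, h.x1, h'.x1, zero_add, add_zero] at e
  exact eq_neg_of_add_eq_zero_left e

theorem Cm.y2 (h : Cm P) (h' : Cm Q) (h'' : Cm (P + Q)) (κ : τ → N) :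
    X2 P (X1 Q κ) = -X2 Q (X1 P κ) := by
  have e := h''.x2 κ
  rw [X2_op, X1_op, X2_add, X2_add, h.x2, h'.x2, zero_add, add_zero] at e
  exact eq_neg_of_add_eq_zero_left e

end ext

section hr

variable {τ R N : Type} [Fintype τ] [CommRing R] [Algebra ℂ R] [AddCommGroup N] [Module R N]

/-- the contraction of a two-form. -/
def lam (π : Matrix τ τ R) (S : τ → τ → N) : N := ∑ a, ∑ b, π a b • S a b

/-- the square of a bivector. -/
def ee (π : Matrix τ τ R) (a b c d : τ) : R := π a b * π c d - π a c * π b d + π a d * π b c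

/-- the contraction of a tensor with three slots. -/
def ctr (π : Matrix τ τ R) (B : τ → τ → τ → R) (b : τ) : R :=
  ∑ c, ∑ d, π c d * (B b c d - B c b d + B c d b)

/-- the divergence of a one-form. -/
def dvg (π : Matrix τ τ R) (D : τ → Derivation ℂ R R) (c : τ → R) : R :=
  ∑ a, ∑ b, π a b * D a (c b)

/-- the Jacobi identity. -/
def Jac (π : Matrix τ τ R) (D : τ → Derivation ℂ R R) : Prop := ∀ b c d,
  ∑ a, (π a b * D a (π c d) - π a c * D a (π b d) + π a d * D a (π b c)) = 0

/-- sums over four indices. -/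
def S4 {A : Type} [AddCommMonoid A] (F : τ → τ → τ → τ → A) : A := ∑ a, ∑ b, ∑ c, ∑ d, F a b c d

section s4

variable {A : Type} [AddCommGroup A] (F F' : τ → τ → τ → τ → A)

theorem S4_12 : S4 F = S4 fun a b c d => F b a c d := sum_comm

theorem S4_23 : S4 F = S4 fun a b c d => F a c b d := sum_congr rfl fun _ _ => sum_comm

theorem S4_34 : S4 F = S4 fun a b c d => F a b d c :=
  sum_congr rfl fun _ _ => sum_congr rfl fun _ _ => sum_comm

theorem S4_add : S4 F + S4 F' = S4 fun a b c d => F a b c d + F' a b c d := by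
  simp only [S4, sum_add_distrib]

theorem S4_sub : S4 F - S4 F' = S4 fun a b c d => F a b c d - F' a b c d := by
  simp only [S4, sum_sub_distrib]

theorem S4_neg : -S4 F = S4 fun a b c d => -F a b c d := by
  simp only [S4, sum_neg_distrib]

variable {F F'} in
theorem S4_congr (h : ∀ a b c d, F a b c d = F' a b c d) : S4 F = S4 F' := by
  rw [show F = F' from funext fun a => funext fun b => funext fun c => funext fun d => h a b c d]

end s4

variable {π : Matrix τ τ R} {D : τ → Derivation ℂ R R}

theorem ee_sum (F : τ → τ → τ → τ → R) : (S4 fun a b c d => ee π a b c d * F a b c d) =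
    S4 fun a b c d => π a b * π c d * (F a b c d - F a c b d + F a c d b) := by
  have e1 : (S4 fun a b c d => π a c * π b d * F a b c d) =
    S4 fun a b c d => π a b * π c d * F a c b d := S4_23 _
  have e2 : (S4 fun a b c d => π a d * π b c * F a b c d) =
    S4 fun a b c d => π a b * π c d * F a c d b := (S4_34 _).trans (S4_23 _)
  simp only [ee, add_mul, sub_mul, mul_add, mul_sub, ← S4_add, ← S4_sub, e1, e2]

/-- the second order divergence identity. -/
theorem hr (hJ : Jac π D) (B : τ → τ → τ → R) :
    dvg π D (ctr π B) = S4 fun a b c d => ee π a b c d * D a (B b c d) := by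
  have e0 : (S4 fun a b c d =>
      (π a b * D a (π c d) - π a c * D a (π b d) + π a d * D a (π b c)) * B b c d) = 0 := by
    rw [S4_12, S4_23, S4_34]
    simp only [S4, ← sum_mul, hJ _ _ _, zero_mul, sum_const_zero]
  have e1 : (S4 fun a b c d => π a c * D a (π b d) * B b c d) =
    S4 fun a b c d => π a b * D a (π c d) * B c b d := S4_23 _
  have e2 : (S4 fun a b c d => π a d * D a (π b c) * B b c d) =
    S4 fun a b c d => π a b * D a (π c d) * B c d b := (S4_34 _).trans (S4_23 _)
  simp only [add_mul, sub_mul, ← S4_add, ← S4_sub, e1, e2] at e0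
  rw [ee_sum, ← add_zero (S4 _), ← e0, S4_sub, S4_add, S4_add]
  simp only [dvg, ctr, map_sum, mul_sum]
  refine S4_congr (F := fun a b c d => π a b * D a (π c d * (B b c d - B c b d + B c d b)))
    fun a b c d => ?_
  simp only [Derivation.leibniz, map_add, map_sub, smul_eq_mul]
  ring

variable (hπ : ∀ a b, π b a = -π a b)
include hπ

theorem ee_12 (a b c d : τ) : ee π b a c d = -ee π a b c d := by
  simp only [ee, hπ a b]
  ring

theorem ee_23 (a b c d : τ) : ee π a c b d = -ee π a b c d := by
  simp only [ee, hπ b c]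
  ring

theorem ee_34 (a b c d : τ) : ee π a b d c = -ee π a b c d := by
  simp only [ee, hπ c d]
  ring

theorem ee_alt (F : τ → τ → τ → τ → R) :
    (S4 fun a b c d => ee π a b c d * (F a b c d - F b a c d)) =
      2 * S4 fun a b c d => ee π a b c d * F a b c d := by
  have e : (S4 fun a b c d => ee π a b c d * F b a c d) =
      -S4 fun a b c d => ee π a b c d * F a b c d := by
    rw [S4_12, S4_neg]
    exact S4_congr fun a b c d => by rw [ee_12 hπ, neg_mul]
  simp only [mul_sub, ← S4_sub, e]
  ring

theorem ee_cyc (F : τ → τ → τ → τ → R) :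
    (S4 fun a b c d => ee π a b c d * (F a b c d + F c b d a + F d b a c)) =
      3 * S4 fun a b c d => ee π a b c d * F a b c d := by
  have c1 : ∀ a b c d, ee π c b d a = ee π a b c d := fun a b c d => by
    simp only [ee, hπ a d, hπ b c, hπ a c, hπ a b]
    ring
  have e : ∀ F : τ → τ → τ → τ → R, (S4 fun a b c d => ee π a b c d * F d b a c) =
      S4 fun a b c d => ee π a b c d * F a b c d := fun F => by
    rw [S4_12, S4_34, S4_23, S4_12]
    exact S4_congr fun a b c d => by rw [c1 a b c d]
  have e2 := (e fun a b c d => F d b a c).trans (e F)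
  simp only [mul_add, ← S4_add, e F, e2]
  ring

variable [Module ℂ N] (h : N →ₗ[R] N →ₗ[R] R) {P Q : τ → Module.End ℂ N}

/-- integration by parts for a one-form and a two-form. -/
theorem hrk (hJ : Jac π D) (hP : ∀ a x y, D a (h x y) = h (P a x) y + h x (Q a y)) (κ : τ → N)
    (S : τ → τ → N) : 6 * dvg π D (ctr π fun b c d => h (κ b) (S c d)) =
      3 * (S4 fun a b c d => ee π a b c d * h (X1 P κ a b) (S c d)) +
        2 * S4 fun a b c d => ee π a b c d * h (κ b) (X2 Q S a c d) := by
  have e1 := ee_alt hπ fun a b c d => h (P a (κ b)) (S c d)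
  have e2 := ee_cyc hπ fun a b c d => h (κ b) (Q a (S c d))
  simp only [hr hJ, hP, X1, X2, map_sub, map_add, LinearMap.sub_apply, e1, e2]
  simp only [mul_add, ← S4_add]
  ring

omit hπ [Algebra ℂ R] [Module ℂ N] in
theorem ee_pair (A S : τ → τ → N) (hS : ∀ a b, S b a = -S a b) :
    (S4 fun a b c d => ee π a b c d * h (A a b) (S c d)) = h (lam π A) (lam π S) -
      2 * S4 fun a b c d => π a c * π b d * h (A a b) (S c d) := by
  have e : (S4 fun a b c d => π a d * π b c * h (A a b) (S c d)) =
      -S4 fun a b c d => π a c * π b d * h (A a b) (S c d) := by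
    rw [S4_34, S4_neg]
    exact S4_congr fun a b c d => by rw [hS, map_neg, mul_neg]
  have e2 : h (lam π A) (lam π S) = S4 fun a b c d => π a b * π c d * h (A a b) (S c d) := by
    rw [lam, map_sum, LinearMap.sum_apply]
    refine sum_congr rfl fun a _ => ?_
    rw [map_sum, LinearMap.sum_apply]
    refine sum_congr rfl fun b _ => ?_
    simp only [lam, map_sum, map_smul, LinearMap.smul_apply, smul_eq_mul]
    exact sum_congr rfl fun c _ => sum_congr rfl fun d _ => by ring
  simp only [ee, add_mul, sub_mul, ← S4_add, ← S4_sub, e, e2]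
  ring

end hr

end

end Pool.Agent.Lib.MP_813db1_ag.VH.Hr
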