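import Pool.Agent.Lib.MP_813db1_ag.AS.F12
import Pool.Agent.Lib.MP_813db1_ag.HS.Calc2

/-! The ring of smooth functions on all sheets of a covering, with its Wirtinger derivations. -/

namespace Pool.Agent.Lib.MP_813db1_ag.VH.Hr

open Pool.Agent.Lib.MP_813db1_ag.HS Pool.Agent.Lib.MP_813db1_ag.AS.F12
open Matrix Filter Topology Set
open scoped ContDiff ComplexOrder

set_option linter.unusedSectionVars false

noncomputable section

variable {ι : Type} [Fintype ι] [DecidableEq ι]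

/-- the holomorphic and antiholomorphic derivatives. -/
def dT (f : V ι → ℂ) : ι ⊕ ι → V ι → ℂ := Sum.elim (dz f) (dzb f)

/-- the doubled Jacobian. -/
def dbl (J : Mat ι) : Matrix (ι ⊕ ι) (ι ⊕ ι) ℂ := fromBlocks J 0 0 (J.map star)

theorem dT_congr {f g : V ι → ℂ} {z : V ι} (h : f =ᶠ[𝓝 z] g) (a : ι ⊕ ι) :
    dT f a z = dT g a z := by
  cases a
  exacts [dz_congr h _, dzb_congr h _]

theorem dT_ev {f g : V ι → ℂ} {z : V ι} (h : f =ᶠ[𝓝 z] g) (a : ι ⊕ ι) :
    dT f a =ᶠ[𝓝 z] dT g a := h.eventuallyEq_nhds.mono fun _ hw => dT_congr hw a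

theorem cd_dT {f : V ι → ℂ} {z : V ι} (h : ContDiffAt ℝ ∞ f z) (a : ι ⊕ ι) :
    ContDiffAt ℝ ∞ (dT f a) z := by
  cases a
  exacts [contDiffAt_dz_top h _, contDiffAt_dzb_top h _]

/-- a set with local coordinates. -/
structure Et (ι Z : Type) [Fintype ι] where
  pt : Z → V ι
  nb : Z → V ι → Z
  self : ∀ q, nb q (pt q) = q
  ev : ∀ q, ∀ᶠ w in 𝓝 (pt q), pt (nb q w) = w ∧ nb (nb q w) =ᶠ[𝓝 w] nb q

namespace Et

variable {Z : Type} (E : Et ι Z)

/-- the smooth functions. -/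
def S : StarSubalgebra ℂ (Z → ℂ) where
  carrier := {F | ∀ q, ContDiffAt ℝ ∞ (fun w => F (E.nb q w)) (E.pt q)}
  mul_mem' a b q := (a q).mul (b q)
  add_mem' a b q := (a q).add (b q)
  algebraMap_mem' _ _ := contDiffAt_const
  star_mem' a q := (starL' ℝ (A := ℂ)).contDiff.contDiffAt.comp _ (a q)

/-- the derivatives of a function. -/
def d0 (a : ι ⊕ ι) (F : Z → ℂ) (q : Z) : ℂ := dT (fun w => F (E.nb q w)) a (E.pt q)

theorem d0_ev (a : ι ⊕ ι) (F : Z → ℂ) (q : Z) :
    (fun w => E.d0 a F (E.nb q w)) =ᶠ[𝓝 (E.pt q)] dT (fun w => F (E.nb q w)) a :=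
  (E.ev q).mono fun w hw => by
    change dT _ a (E.pt _) = _
    rw [hw.1]
    exact dT_congr (hw.2.mono fun v hv => congrArg F hv) a

theorem df (F : E.S) (q : Z) : DifferentiableAt ℝ (fun w => F.1 (E.nb q w)) (E.pt q) :=
  (F.2 q).differentiableAt (by simp)

/-- the derivations. -/
def d (a : ι ⊕ ι) : Derivation ℂ E.S E.S where
  toFun F := ⟨E.d0 a F.1, fun q => (cd_dT (F.2 q) a).congr_of_eventuallyEq (E.d0_ev a F.1 q)⟩
  map_add' F G := Subtype.ext (funext fun q => by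
    cases a
    exacts [dz_add (E.df F q) (E.df G q) _, dzb_add (E.df F q) (E.df G q) _])
  map_smul' c F := Subtype.ext (funext fun q => by
    cases a
    exacts [dz_cmul c (E.df F q) _, dzb_cmul c (E.df F q) _])
  map_one_eq_zero' := Subtype.ext (funext fun q => by
    cases a
    exacts [dz_const 1 _ _, dzb_const 1 _ _])
  leibniz' F G := Subtype.ext (funext fun q => by
    have e : ∀ a, E.d0 a (F.1 * G.1) q = E.d0 a F.1 q * G.1 (E.nb q (E.pt q)) +
        F.1 (E.nb q (E.pt q)) * E.d0 a G.1 q := fun a => by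
      cases a
      exacts [dz_mul (E.df F q) (E.df G q) _, dzb_mul (E.df F q) (E.df G q) _]
    change E.d0 a (F.1 * G.1) q = F.1 q * E.d0 a G.1 q + G.1 q * E.d0 a F.1 q
    rw [e, E.self]
    ring)

theorem d_val (a : ι ⊕ ι) (F : E.S) (q : Z) :
    (E.d a F).1 q = dT (fun w => F.1 (E.nb q w)) a (E.pt q) := rfl

theorem d_comm (a b : ι ⊕ ι) (F : E.S) : E.d a (E.d b F) = E.d b (E.d a F) :=
  Subtype.ext (funext fun q => by
    have h : ContDiffAt ℝ 2 (fun w => F.1 (E.nb q w)) (E.pt q) := (F.2 q).of_le (by norm_cast)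
    refine (dT_congr (E.d0_ev b F.1 q) a).trans (Eq.trans ?_ (dT_congr (E.d0_ev a F.1 q) b).symm)
    rcases a with a | a <;> rcases b with b | b
    exacts [dz_dz_comm h a b, dz_dzb_comm h a b, (dz_dzb_comm h b a).symm, dzb_dzb_comm h a b])

theorem d_star (a : ι ⊕ ι) (F : E.S) : star (E.d a F) = E.d a.swap (star F) :=
  Subtype.ext (funext fun q => by
    cases a
    exacts [(dzb_star (fun w => F.1 (E.nb q w)) _ _).symm,
      (dz_star (fun w => F.1 (E.nb q w)) _ _).symm])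

/-- the value at a point. -/
def at' (q : Z) : E.S →⋆ₐ[ℂ] ℂ where
  toFun F := F.1 q
  map_one' := rfl
  map_mul' _ _ := rfl
  map_zero' := rfl
  map_add' _ _ := rfl
  commutes' _ := rfl
  map_star' _ := rfl

theorem at_eq (q : Z) (F : E.S) : E.at' q F = F.1 q := rfl

theorem ext' {F G : E.S} (h : ∀ q, E.at' q F = E.at' q G) : F = G := Subtype.ext (funext h)

/-- `F` has the germ `φ` at `q`. -/
def Gm (F : E.S) (q : Z) (φ : V ι → ℂ) : Prop := (fun w => F.1 (E.nb q w)) =ᶠ[𝓝 (E.pt q)] φ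

variable {E} {F : E.S} {q : Z} {φ : V ι → ℂ}

theorem Gm.val (h : E.Gm F q φ) : E.at' q F = φ (E.pt q) := by
  rw [← h.self_of_nhds]
  exact congrArg F.1 (E.self q).symm

theorem Gm.d (h : E.Gm F q φ) (a : ι ⊕ ι) : E.Gm (E.d a F) q (dT φ a) :=
  (E.d0_ev a F.1 q).trans (dT_ev h a)

theorem Gm.cd (h : E.Gm F q φ) : ContDiffAt ℝ ∞ φ (E.pt q) :=
  (F.2 q).congr_of_eventuallyEq h.symm

end Et

variable {X Y : Type} [TopologicalSpace X] [TopologicalSpace Y] (M : Atl ι X) (p : Y → X)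

/-- a chart and a point above its source. -/
@[ext] structure Pt where
  e : Ch ι X
  y : Y
  he : e ∈ M.A
  hy : p y ∈ e.source

variable {p} (hp : IsLocalHomeomorph p)

open Classical in
/-- the neighbours of a point on its sheet. -/
def nbP (q : Pt M p) (w : V ι) : Pt M p :=
  if h : p (sh hp q.y q.e w) ∈ q.e.source then ⟨q.e, sh hp q.y q.e w, q.he, h⟩ else q

theorem nbP_e (q : Pt M p) (w : V ι) : (nbP M hp q w).e = q.e := by
  unfold nbP
  split_ifs <;> rfl

theorem nbP_ev (q : Pt M p) : ∀ᶠ w in 𝓝 (q.e (p q.y)), w ∈ q.e.target ∧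
    Sec p q.e w (sh hp q.y q.e) ∧ (nbP M hp q w).y = sh hp q.y q.e w ∧
      p (sh hp q.y q.e w) = q.e.symm w := by
  have hz := q.e.map_source q.hy
  filter_upwards [q.e.open_target.mem_nhds hz, (sh_self hp q.hy).1.ev hp hz] with w h1 h2
  have h3 := h2.2.self_of_nhds
  exact ⟨h1, h2, by rw [nbP, dif_pos (h3 ▸ q.e.map_target h1)], h3⟩

/-- the sheets of the covering. -/
def et : Et ι (Pt M p) where
  pt q := q.e (p q.y)
  nb := nbP M hp
  self q := Pt.ext (nbP_e M hp q _) (by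
    rw [(nbP_ev M hp q).self_of_nhds.2.2.1, (sh_self hp q.hy).2])
  ev q := by
    filter_upwards [nbP_ev M hp q, (nbP_ev M hp q).eventually_nhds] with w h1 h2
    have e1 : (nbP M hp q w).e (p (nbP M hp q w).y) = w := by
      rw [nbP_e, h1.2.2.1, h1.2.2.2, q.e.right_inv h1.1]
    refine ⟨e1, ?_⟩
    have h3 := nbP_ev M hp (nbP M hp q w)
    rw [e1] at h3
    filter_upwards [h2, h3, h1.2.1.eq hp h1.1] with v a b c
    refine Pt.ext (by simp only [nbP_e]) ?_
    rw [b.2.2.1, a.2.2.1, c, nbP_e, h1.2.2.1]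

/-- the ring of smooth functions on the sheets. -/
abbrev RR : Type := (et M hp).S

variable {M hp}

theorem nb_ev {W : Type} (F : Ch ι X → Y → W) (q : Pt M p) :
    (fun w => F (nbP M hp q w).e (nbP M hp q w).y) =ᶠ[𝓝 (q.e (p q.y))]
      fun w => F q.e (sh hp q.y q.e w) :=
  (nbP_ev M hp q).mono fun w hw => by
    change F _ _ = F _ _
    rw [nbP_e, hw.2.2.1]

/-- a family of functions on the covering, one for each chart. -/
def upF (F : Ch ι X → Y → ℂ)
    (h : ∀ q : Pt M p, ContDiffAt ℝ ∞ (fun w => F q.e (sh hp q.y q.e w)) (q.e (p q.y))) :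
    RR M hp := ⟨fun q => F q.e q.y, fun q => (h q).congr_of_eventuallyEq (nb_ev F q)⟩

theorem gm_upF (F : Ch ι X → Y → ℂ) (h) (q : Pt M p) :
    (et M hp).Gm (upF F h) q fun w => F q.e (sh hp q.y q.e w) := nb_ev F q

/-- a family of functions in the charts. -/
def upC (F : Ch ι X → V ι → ℂ) (h : ∀ e ∈ M.A, ∀ z ∈ e.target, ContDiffAt ℝ ∞ (F e) z) :
    RR M hp := ⟨fun q => F q.e (q.e (p q.y)), fun q =>
  (h _ q.he _ (q.e.map_source q.hy)).congr_of_eventuallyEq (((et M hp).ev q).mono fun w hw => by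
    have h1 : (nbP M hp q w).e (p (nbP M hp q w).y) = w := hw.1
    change F (nbP M hp q w).e ((nbP M hp q w).e (p (nbP M hp q w).y)) = _
    rw [h1, nbP_e])⟩

theorem gm_upC (F : Ch ι X → V ι → ℂ) (h) (q : Pt M p) :
    (et M hp).Gm (upC F h) q (F q.e) := ((et M hp).ev q).mono fun w hw => by
  have h1 : (nbP M hp q w).e (p (nbP M hp q w).y) = w := hw.1
  change F (nbP M hp q w).e ((nbP M hp q w).e (p (nbP M hp q w).y)) = _
  rw [h1, nbP_e]

/-- a smooth form, read in the charts. -/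
def upB (B : X → Mat ι) (h : M.SmF B) : Matrix ι ι (RR M hp) :=
  Matrix.of fun i j => upC (fun e z => M.repF B e z i j) fun e he z hz => h e he z hz i j

/-- the inverse of a Kaehler form, read in the charts. -/
def upI (g : X → Mat ι) (h : M.IsK g) : Matrix ι ι (RR M hp) :=
  Matrix.of fun i j => upC (fun e z => (M.repF g e z)⁻¹ i j) fun e he z hz =>
    ((h e he).1.1.cd hz).inv ((h e he).2 z hz).det_pos.ne' i j

/-- the doubled Jacobian of the change of charts. -/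
def jb (q q' : Pt M p) : Matrix (ι ⊕ ι) (ι ⊕ ι) ℂ := dbl (tj q.e q'.e (p q.y))

variable {G : Type} [Group G] [MulAction G Y]

/-- related points have related neighbours. -/
theorem rel_ev (hq : IsQuotientCoveringMap p G) {q q' : Pt M p} {γ : G} (h : q.y = γ • q'.y) :
    AnalyticAt ℂ (q'.e ∘ q.e.symm) (q.e (p q.y)) ∧
    (q'.e ∘ q.e.symm) (q.e (p q.y)) = q'.e (p q'.y) ∧ ∀ᶠ w in 𝓝 (q.e (p q.y)),
      (nbP M hp q w).y = γ • (nbP M hp q' ((q'.e ∘ q.e.symm) w)).y ∧
      jb (nbP M hp q w) (nbP M hp q' ((q'.e ∘ q.e.symm) w)) = dbl (jac (q'.e ∘ q.e.symm) w) := by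
  have e0 : p q.y = p q'.y := by rw [h, hq.map_smul]
  have an := M.hol _ q.he _ q'.he _ q.hy (e0 ▸ q'.hy)
  have e1 : (q'.e ∘ q.e.symm) (q.e (p q.y)) = q'.e (p q'.y) := by
    rw [Function.comp, q.e.left_inv q.hy, e0]
  refine ⟨an, e1, ?_⟩
  have t : Tendsto (q'.e ∘ q.e.symm) (𝓝 (q.e (p q.y))) (𝓝 (q'.e (p q'.y))) := e1 ▸ an.continuousAt
  have n1 : ∀ᶠ w in 𝓝 (q.e (p q.y)), q.e.symm w ∈ q'.e.source :=
    (q.e.continuousAt_symm (q.e.map_source q.hy)).eventually_mem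
      (q'.e.open_source.mem_nhds (by rw [q.e.left_inv q.hy, e0]; exact q'.hy))
  have s1 := sh_self hp q.hy
  have s2 := sh_self hp q'.hy
  have c2 : ContinuousAt (fun w => γ • sh hp q'.y q'.e ((q'.e ∘ q.e.symm) w)) (q.e (p q.y)) :=
    (hq.continuous_const_smul γ).continuousAt.comp
      (ContinuousAt.comp (g := sh hp q'.y q'.e) (by rw [e1]; exact s2.1.1) an.continuousAt)
  have u := uniq hp s1.1.1 c2 (by rw [s1.2, e1, s2.2, h]) (by
    filter_upwards [s1.1.2, t.eventually s2.1.2, n1] with w a b c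
    rw [a, hq.map_smul, b, Function.comp, q'.e.left_inv c])
  filter_upwards [nbP_ev M hp q, t.eventually (nbP_ev M hp q'), u] with w a b c
  refine ⟨by rw [a.2.2.1, b.2.2.1, c], ?_⟩
  rw [jb, nbP_e, nbP_e, a.2.2.1, a.2.2.2, tj, q.e.right_inv a.1]

end

end Pool.Agent.Lib.MP_813db1_ag.VH.Hr
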