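import Pool.Agent.Lib.MP_813db1_ag.VH.HrA

/-! Metrics on flat bundles over a differential ring. -/

namespace Pool.Agent.Lib.MP_813db1_ag.VH.Hr

open Matrix Finset Sum
open scoped Kronecker

set_option linter.unusedSectionVars false

noncomputable section

/-- a ring with commuting holomorphic and antiholomorphic derivations. -/
structure DR (ι R : Type) [CommRing R] [Algebra ℂ R] [StarRing R] where
  d : ι ⊕ ι → Derivation ℂ R R
  comm : ∀ a b f, d a (d b f) = d b (d a f)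
  st : ∀ a f, star (d a f) = d a.swap (star f)

/-- a symmetric real metric with its inverse. -/
structure Mt (r R : Type) [Fintype r] [DecidableEq r] [CommRing R] [StarRing R] where
  H : Matrix r r R
  Hi : Matrix r r R
  hi : H * Hi = 1
  sy : Hᵀ = H
  re : H.map star = H

variable {ι R r s t w : Type} [Fintype ι] [DecidableEq ι] [CommRing R] [Algebra ℂ R] [StarRing R]
  [StarModule ℂ R] [Fintype r] [DecidableEq r]

/-- weights that depend on the type. -/
def ty (u v : ℂ) : ι ⊕ ι → ℂ := Sum.elim (fun _ => u) fun _ => v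

@[simp] theorem ty_inl (u v : ℂ) (i : ι) : ty u v (inl i) = u := rfl

@[simp] theorem ty_inr (u v : ℂ) (i : ι) : ty u v (inr i) = v := rfl

theorem ty_swap (u v : ℂ) (a : ι ⊕ ι) : ty u v a.swap = ty v u a := by cases a <;> rfl

/-- matrices as vectors. -/
def vc (A : Matrix s t R) : s × t → R := fun x => A x.1 x.2

/-- vectors as matrices. -/
def uv (x : s × t → R) : Matrix s t R := Matrix.of fun i j => x (i, j)

/-- constant matrices. -/
def cst (A : Matrix s t ℂ) : Matrix s t R := A.map (algebraMap ℂ R)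

/-- the conjugate two-form with the signs of the Weil operator. -/
def sS (S : ι ⊕ ι → ι ⊕ ι → s → R) (c d : ι ⊕ ι) : s → R :=
  (ty 1 (-1) c * ty 1 (-1) d) • star (S c.swap d.swap)

/-- a Kaehler metric with its inverse. -/
structure Kh (δ : DR ι R) where
  G : Matrix ι ι R
  Gi : Matrix ι ι R
  gi : G * Gi = 1
  cl : ∀ i j k, δ.d (inl k) (G i j) = δ.d (inl i) (G k j)
  he : ∀ i j, star (G i j) = G j i

/-- the Poisson tensor. -/
def Kh.π {δ : DR ι R} (K : Kh δ) : Matrix (ι ⊕ ι) (ι ⊕ ι) R := fromBlocks 0 K.Giᵀ (-K.Gi) 0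

theorem Kh.alt {δ : DR ι R} (K : Kh δ) (a b : ι ⊕ ι) : K.π b a = -K.π a b := by
  cases a <;> cases b <;> simp [Kh.π]

theorem Kh.lam_eq {δ : DR ι R} (K : Kh δ) {N : Type} [AddCommGroup N] [Module R N]
    (S : ι ⊕ ι → ι ⊕ ι → N) :
    lam K.π S = ∑ i, ∑ j, K.Gi j i • (S (inl i) (inr j) - S (inr j) (inl i)) := by
  simp only [lam, Fintype.sum_sum_type, Kh.π, fromBlocks_apply₁₁, fromBlocks_apply₁₂,
    fromBlocks_apply₂₁, fromBlocks_apply₂₂, Matrix.zero_apply, zero_smul, sum_const_zero, zero_add,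
    add_zero, transpose_apply, Matrix.neg_apply, neg_smul, sum_neg_distrib, smul_sub,
    sum_sub_distrib]
  rw [sub_eq_add_neg, sum_comm (f := fun i j => K.Gi j i • S (inr j) (inl i))]

namespace DR

variable (δ : DR ι R)

/-- the derivative of a vector. -/
def dv (s : Type) (a : ι ⊕ ι) : Module.End ℂ (s → R) := (δ.d a : R →ₗ[ℂ] R).compLeft s

/-- the derivative of a matrix. -/
def dm (a : ι ⊕ ι) (A : Matrix s t R) : Matrix s t R := A.map (δ.d a)

/-- the weighted derivations. -/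
def wd (u v : ℂ) (a : ι ⊕ ι) : Derivation ℂ R R := ty u v a • δ.d a

theorem dv_apply (a : ι ⊕ ι) (x : s → R) (i : s) : δ.dv s a x i = δ.d a (x i) := rfl

theorem dm_apply (a : ι ⊕ ι) (A : Matrix s t R) (i : s) (j : t) : δ.dm a A i j = δ.d a (A i j) :=
  rfl

theorem cm (s : Type) : Cm (δ.dv s) := fun a b x => funext fun i => δ.comm a b (x i)

theorem dm_comm (a b : ι ⊕ ι) (A : Matrix s t R) : δ.dm a (δ.dm b A) = δ.dm b (δ.dm a A) :=
  Matrix.ext fun i j => δ.comm a b (A i j)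

theorem dm_add (a : ι ⊕ ι) (A B : Matrix s t R) : δ.dm a (A + B) = δ.dm a A + δ.dm a B :=
  Matrix.ext fun _ _ => map_add (δ.d a) _ _

theorem dm_sub (a : ι ⊕ ι) (A B : Matrix s t R) : δ.dm a (A - B) = δ.dm a A - δ.dm a B :=
  Matrix.ext fun _ _ => map_sub (δ.d a) _ _

theorem dm_smul (a : ι ⊕ ι) (c : ℂ) (A : Matrix s t R) : δ.dm a (c • A) = c • δ.dm a A :=
  Matrix.ext fun _ _ => (δ.d a).map_smul _ _

theorem dm_cst (a : ι ⊕ ι) (A : Matrix s t ℂ) : δ.dm a (cst A) = 0 :=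
  Matrix.ext fun _ _ => (δ.d a).map_algebraMap _

theorem dm_one [DecidableEq s] (a : ι ⊕ ι) : δ.dm a (1 : Matrix s s R) = 0 :=
  Matrix.ext fun i j => by
    rw [dm_apply, one_apply]
    split_ifs <;> simp

theorem dm_mul [Fintype t] (a : ι ⊕ ι) (A : Matrix s t R) (B : Matrix t w R) :
    δ.dm a (A * B) = δ.dm a A * B + A * δ.dm a B := Matrix.ext fun i j => by
  simp only [dm_apply, mul_apply, map_sum, Derivation.leibniz, Matrix.add_apply, smul_eq_mul,
    ← sum_add_distrib]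
  exact sum_congr rfl fun _ _ => by ring

theorem dv_mulVec [Fintype t] (a : ι ⊕ ι) (A : Matrix s t R) (x : t → R) :
    δ.dv s a (A *ᵥ x) = δ.dm a A *ᵥ x + A *ᵥ δ.dv t a x := funext fun i => by
  simp only [dv_apply, dm_apply, mulVec, dotProduct, map_sum, Derivation.leibniz, Pi.add_apply,
    smul_eq_mul, ← sum_add_distrib]
  exact sum_congr rfl fun _ _ => by ring

theorem d_dot [Fintype s] (a : ι ⊕ ι) (x y : s → R) :
    δ.d a (x ⬝ᵥ y) = δ.dv s a x ⬝ᵥ y + x ⬝ᵥ δ.dv s a y := by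
  simp only [dv_apply, dotProduct, map_sum, Derivation.leibniz, smul_eq_mul, ← sum_add_distrib]
  exact sum_congr rfl fun _ _ => by ring

theorem dv_star (a : ι ⊕ ι) (x : s → R) : star (δ.dv s a x) = δ.dv s a.swap (star x) :=
  funext fun i => δ.st a (x i)

theorem dm_star (a : ι ⊕ ι) (A : Matrix s t R) :
    (δ.dm a A).map star = δ.dm a.swap (A.map star) := Matrix.ext fun i j => δ.st a (A i j)

theorem dv_vc (a : ι ⊕ ι) (A : Matrix s t R) : δ.dv (s × t) a (vc A) = vc (δ.dm a A) := rfl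

end DR

namespace Mt

variable (m : Mt r R) (δ : DR ι R)

/-- the Higgs field and its adjoint. -/
def am (a : ι ⊕ ι) : Matrix r r R := (-1 / 2 : ℂ) • (m.Hi * δ.dm a m.H)

/-- its covariant derivative. -/
def nm (a b : ι ⊕ ι) : Matrix r r R :=
  δ.dm a (m.am δ b) - (m.am δ a * m.am δ b - m.am δ b * m.am δ a)

/-- pluriharmonic metrics. -/
def PH : Prop := (∀ i j, m.nm δ (inl i) (inr j) = 0) ∧
  ∀ i k, m.am δ (inl i) * m.am δ (inl k) = m.am δ (inl k) * m.am δ (inl i)

/-- the operator of the Higgs field. -/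
def mv (a : ι ⊕ ι) : Module.End ℂ (r → R) := (mulVecLin (m.am δ a)).restrictScalars ℂ

/-- first order operators. -/
def Pg (u v u' v' : ℂ) (a : ι ⊕ ι) : Module.End ℂ (r → R) :=
  ty u v a • δ.dv r a + ty u' v' a • m.mv δ a

/-- the operator `u D' + v D''`. -/
def P (u v : ℂ) : ι ⊕ ι → Module.End ℂ (r → R) := m.Pg δ u v (v - u) (u - v)

/-- the bilinear product. -/
def h : (r → R) →ₗ[R] (r → R) →ₗ[R] R := Matrix.toLinearMap₂' R m.H

/-- the squared norm of a one-form. -/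
def nrm1 (π : Matrix (ι ⊕ ι) (ι ⊕ ι) R) (κ : ι ⊕ ι → r → R) : R :=
  ∑ a, ∑ c, π a c * m.h (κ a) (ty (-1) 1 c • star (κ c.swap))

/-- the squared norm of a two-form. -/
def nrm (π : Matrix (ι ⊕ ι) (ι ⊕ ι) R) (S : ι ⊕ ι → ι ⊕ ι → r → R) : R :=
  S4 fun a b c d => π a c * π b d * m.h (S a b) (sS S c d)

theorem h_apply (x y : r → R) : m.h x y = x ⬝ᵥ m.H *ᵥ y := Matrix.toLinearMap₂'_apply' _ _ _

theorem mv_apply (a : ι ⊕ ι) (x : r → R) : m.mv δ a x = m.am δ a *ᵥ x := rfl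

theorem Pg_apply (u v u' v' : ℂ) (a : ι ⊕ ι) (x : r → R) :
    m.Pg δ u v u' v' a x = ty u v a • δ.dv r a x + ty u' v' a • (m.am δ a *ᵥ x) := rfl

theorem ih : m.Hi * m.H = 1 := mul_eq_one_comm.1 m.hi

theorem sy_i : m.Hiᵀ = m.Hi := by
  have e : m.Hiᵀ * m.H = 1 := by rw [← m.sy, ← transpose_mul, m.hi, transpose_one]
  rw [← Matrix.mul_one m.Hiᵀ, ← m.hi, ← Matrix.mul_assoc, e, Matrix.one_mul]

theorem map_star_mul [Fintype t] (A : Matrix s t R) (B : Matrix t w R) :
    (A * B).map star = A.map star * B.map star := Matrix.map_mul (f := starRingEnd R)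

theorem re_i : m.Hi.map star = m.Hi := by
  have e : m.H * m.Hi.map star = 1 := by
    rw [← m.re, ← map_star_mul, m.hi]
    exact Matrix.map_one _ (star_zero R) (star_one R)
  rw [← Matrix.one_mul (m.Hi.map star), ← m.ih, Matrix.mul_assoc, e, Matrix.mul_one]

theorem dH (a : ι ⊕ ι) : δ.dm a m.H = (-2 : ℂ) • (m.H * m.am δ a) := by
  rw [am, Matrix.mul_smul, smul_smul, ← Matrix.mul_assoc, m.hi, Matrix.one_mul]
  norm_num

theorem dHi (a : ι ⊕ ι) : δ.dm a m.Hi = (2 : ℂ) • (m.am δ a * m.Hi) := by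
  have e := δ.dm_mul a m.H m.Hi
  rw [m.hi, δ.dm_one, dH] at e
  have e2 := congrArg (m.Hi * ·) e
  simp only [Matrix.mul_zero, Matrix.mul_add, smul_mul_assoc, Matrix.mul_smul, ← Matrix.mul_assoc,
    m.ih, Matrix.one_mul] at e2
  rw [neg_smul] at e2
  exact (neg_add_eq_zero.1 e2.symm).symm

theorem am_sy (a : ι ⊕ ι) : (m.am δ a)ᵀ * m.H = m.H * m.am δ a := by
  have e : (δ.dm a m.H)ᵀ = δ.dm a m.H := by rw [DR.dm, ← transpose_map, m.sy]
  rw [dH, transpose_smul, transpose_mul, m.sy] at e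
  simpa [smul_smul] using congrArg ((-1 / 2 : ℂ) • ·) e

theorem am_star (a : ι ⊕ ι) : (m.am δ a).map star = m.am δ a.swap := by
  rw [am, am, Matrix.map_smulₛₗ (f := (star : R → R)) (σ := starRingEnd ℂ) _ fun _ => star_smul _ _,
    map_star_mul, δ.dm_star, m.re, m.re_i]
  simp [map_ofNat]

theorem dam (a b : ι ⊕ ι) : δ.dm a (m.am δ b) =
    (2 : ℂ) • (m.am δ a * m.am δ b) - (1 / 2 : ℂ) • (m.Hi * δ.dm a (δ.dm b m.H)) := by
  conv_lhs => rw [am, δ.dm_smul, δ.dm_mul, dHi]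
  rw [smul_mul_assoc, Matrix.mul_assoc, dH m δ b, Matrix.mul_smul, ← Matrix.mul_assoc m.Hi, m.ih,
    Matrix.one_mul, Matrix.mul_smul]
  module

theorem nm_eq (a b : ι ⊕ ι) : m.nm δ a b = m.am δ a * m.am δ b + m.am δ b * m.am δ a -
    (1 / 2 : ℂ) • (m.Hi * δ.dm a (δ.dm b m.H)) := by
  rw [nm, dam]
  module

theorem nm_sy (a b : ι ⊕ ι) : m.nm δ a b = m.nm δ b a := by
  rw [nm_eq, nm_eq, δ.dm_comm, add_comm]

theorem nm_star (a b : ι ⊕ ι) : (m.nm δ a b).map star = m.nm δ a.swap b.swap := by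
  rw [nm, nm, ← am_star, ← am_star, ← map_star_mul, ← map_star_mul, ← δ.dm_star]
  exact Matrix.ext fun _ _ => by simp

theorem h_am (a : ι ⊕ ι) (x y : r → R) : m.h (m.am δ a *ᵥ x) y = m.h x (m.am δ a *ᵥ y) := by
  rw [h_apply, h_apply, mulVec_mulVec, ← am_sy, ← mulVec_mulVec, dotProduct_mulVec x,
    vecMul_transpose]

theorem h_symm (x y : r → R) : m.h x y = m.h y x := by
  rw [h_apply, h_apply, dotProduct_mulVec, ← mulVec_transpose, m.sy, dotProduct_comm]

theorem h_csmul (c : ℂ) (x y : r → R) : m.h (c • x) y = c • m.h x y ∧ m.h x (c • y) = c • m.h x y :=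
  ⟨by rw [h_apply, h_apply, smul_dotProduct], by
    rw [h_apply, h_apply, mulVec_smul, dotProduct_smul]⟩

theorem d_h (a : ι ⊕ ι) (x y : r → R) : δ.d a (m.h x y) =
    m.h (δ.dv r a x) y + m.h x (δ.dv r a y) - (2 : ℂ) • m.h x (m.am δ a *ᵥ y) := by
  simp only [h_apply, δ.d_dot, δ.dv_mulVec, dH, smul_mulVec, dotProduct_add, dotProduct_smul,
    mulVec_mulVec]
  module

/-- the product rule. -/
theorem wd_h (u v u' v' : ℂ) (a : ι ⊕ ι) (x y : r → R) : δ.wd u v a (m.h x y) =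
    m.h (m.Pg δ u v u' v' a x) y + m.h x (m.Pg δ u v (-2 * u - u') (-2 * v - v') a y) := by
  simp only [DR.wd, Derivation.smul_apply, d_h, Pg_apply, map_add, LinearMap.add_apply,
    (m.h_csmul _ _ _).1, (m.h_csmul _ _ _).2, h_am]
  cases a <;> simp only [ty_inl, ty_inr] <;> module

theorem star_am (a : ι ⊕ ι) (x : r → R) : star (m.am δ a *ᵥ x) = m.am δ a.swap *ᵥ star x := by
  rw [← am_star]
  funext i
  simp [mulVec, dotProduct]

theorem star_Pg (u v u' v' : ℂ) (a : ι ⊕ ι) (x : r → R) : star (m.Pg δ u v u' v' a x) =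
    m.Pg δ (star v) (star u) (star v') (star u') a.swap (star x) := by
  rw [Pg_apply, Pg_apply, star_add, star_smul, star_smul, δ.dv_star, star_am]
  cases a <;> rfl

/-- the commutator of two operators. -/
theorem Pg_comm (u v u' v' : ℂ) (a b : ι ⊕ ι) (x : r → R) :
    m.Pg δ u v u' v' a (m.Pg δ u v u' v' b x) - m.Pg δ u v u' v' b (m.Pg δ u v u' v' a x) =
      ((ty u v a * ty u' v' b - ty u v b * ty u' v' a) • m.nm δ a b +
        (ty u v a * ty u' v' b + ty u v b * ty u' v' a + ty u' v' a * ty u' v' b) •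
          (m.am δ a * m.am δ b - m.am δ b * m.am δ a)) *ᵥ x := by
  have e1 : δ.dm a (m.am δ b) = m.nm δ a b + (m.am δ a * m.am δ b - m.am δ b * m.am δ a) := by
    rw [nm, sub_add_cancel]
  have e2 : δ.dm b (m.am δ a) = m.nm δ a b - (m.am δ a * m.am δ b - m.am δ b * m.am δ a) := by
    rw [nm_sy, nm]
    abel
  simp only [Pg_apply, map_add, map_smul, δ.dv_mulVec, e1, e2,
    mulVec_mulVec, add_mulVec, sub_mulVec, smul_mulVec, δ.cm r a b]
  module

theorem P_add : m.P δ 1 0 + m.P δ 0 1 = δ.dv r := funext fun a => LinearMap.ext fun x => by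
  rw [Pi.add_apply, LinearMap.add_apply, P, P, Pg_apply, Pg_apply]
  cases a <;> simp only [ty_inl, ty_inr] <;> module

variable {m δ}

theorem PH.cm (hm : m.PH δ) (u v : ℂ) : Cm (m.P δ u v) := fun a b x => by
  refine sub_eq_zero.1 ((m.Pg_comm δ _ _ _ _ a b x).trans ?_)
  have e : ∀ j l, m.am δ (inr j) * m.am δ (inr l) = m.am δ (inr l) * m.am δ (inr j) := fun j l => by
    have := congrArg (·.map star) (hm.2 j l)
    simpa only [map_star_mul, am_star, swap_inl] using this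
  have z : u * (u - v) + v * (v - u) + (v - u) * (u - v) = 0 := by ring
  have z' : v * (v - u) + u * (u - v) + (u - v) * (v - u) = 0 := by ring
  rcases a with i | i <;> rcases b with j | j <;> simp only [ty_inl, ty_inr]
  · rw [hm.2, sub_self, sub_self, zero_smul, smul_zero, add_zero, zero_mulVec]
  · rw [hm.1, z, zero_smul, smul_zero, add_zero, zero_mulVec]
  · rw [nm_sy, hm.1, z', zero_smul, smul_zero, add_zero, zero_mulVec]
  · rw [e, sub_self, sub_self, zero_smul, smul_zero, add_zero, zero_mulVec]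

end Mt

end

end Pool.Agent.Lib.MP_813db1_ag.VH.Hr
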