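import Pool.Agent.Lib.MP_813db1_ag.VH.Cov
import Pool.Agent.Lib.MP_813db1_ag.VH.Stmt
import Pool.Agent.Lib.MP_813db1_ag.VH.HrE
import Pool.Agent.Lib.MP_813db1_ag.VH.HrV

/-! Tensors on the sheets: definitions and statements for the pluriharmonicity theorems. -/

namespace Pool.Agent.Lib.MP_813db1_ag.VH.Hr

open Pool.Agent.Lib.MP_813db1_ag.HS Pool.Agent.Lib.MP_813db1_ag.AS.F12
open MeasureTheory Matrix Filter Topology Set Sum
open scoped ContDiff ComplexOrder Kronecker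

set_option linter.unusedSectionVars false

noncomputable section

/-! ### algebraic statements -/

section alg

variable (ι R : Type) [Fintype ι] [DecidableEq ι] [CommRing R] [Algebra ℂ R] [StarRing R]
  [StarModule ℂ R]

/-- the Jacobi identity for the Poisson tensor. -/
def JacS : Prop := ∀ (δ : DR ι R) (K : Kh δ) (u v : ℂ), Jac K.π (δ.wd u v)

/-- the integrand for primitive exact forms. -/
def PeL : Prop := ∀ (δ : DR ι R) (K : Kh δ) (r : Type) [Fintype r] [DecidableEq r] (m : Mt r R)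
  (u v : ℂ) (κ : ι ⊕ ι → r → R), lam K.π (X1 (m.P δ u v) κ) = 0 →
  X2 (m.P δ 1 0) (X1 (m.P δ u v) κ) = 0 → X2 (m.P δ 0 1) (X1 (m.P δ u v) κ) = 0 →
  dvg K.π (δ.wd u v) (ctr K.π fun b c d => m.h (κ b) (sS (X1 (m.P δ u v) κ) c d)) =
    -m.nrm K.π (X1 (m.P δ u v) κ)

/-- the metric on endomorphisms. -/
def EndL : Prop := ∀ (δ : DR ι R) (r : Type) [Fintype r] [DecidableEq r] (m : Mt r R)
  (mE : Mt (r × r) R), mE.H = m.H ⊗ₖ m.Hi →
  (∀ a x, mE.am δ a *ᵥ vc x = vc (m.am δ a * x - x * m.am δ a)) ∧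
    ∀ x y, mE.h (vc x) (vc y) = trace (xᵀ * m.H * y * m.Hi)

/-- the integrand of Siu and Sampson. -/
def SsL : Prop := ∀ (δ : DR ι R) (K : Kh δ) (r : Type) [Fintype r] [DecidableEq r] (m : Mt r R)
  (mE : Mt (r × r) R) (κ : ι ⊕ ι → r × r → R) (S T : ι ⊕ ι → ι ⊕ ι → r × r → R),
  mE.H = m.H ⊗ₖ m.Hi → ∑ i, ∑ j, K.Gi j i • m.nm δ (inl i) (inr j) = 0 →
  (∀ b, κ b = ty 0 1 b • vc (m.am δ b)) → S = X1 (mE.Pg δ 1 0 (-1) 0) κ →
  (∀ a c, T a c = (ty 1 0 a * ty 1 0 c) • vc (m.am δ a * m.am δ c - m.am δ c * m.am δ a)) →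
  (∀ i j, S (inl i) (inr j) = vc (m.nm δ (inl i) (inr j))) ∧
  dvg K.π (δ.wd 1 0) (ctr K.π fun b c d => mE.h (κ b) (S c d)) =
    -(mE.nrm K.π S + 2 * mE.nrm K.π T)

/-- the Laplacian of the norm of a flat section. -/
def InvL : Prop := ∀ (δ : DR ι R) (K : Kh δ) (r : Type) [Fintype r] [DecidableEq r] (m : Mt r R)
  (v : r → R), m.PH δ → (∀ a, δ.dv r a v = 0) →
  dvg K.π (δ.wd 1 0) (fun b => m.h v (m.am δ b *ᵥ star v)) =
    -m.nrm1 K.π fun a => m.am δ a *ᵥ v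

end alg

variable {ι X Y G s t r : Type} [Fintype ι] [DecidableEq ι] [TopologicalSpace X]
  [TopologicalSpace Y] (M : Atl ι X) {p : Y → X} (hp : IsLocalHomeomorph p)

/-- the differential ring of the sheets. -/
def dr : DR ι (RR M hp) := ⟨(et M hp).d, (et M hp).d_comm, (et M hp).d_star⟩

variable {M hp}

/-- the coordinate of a point. -/
abbrev Pt.z (q : Pt M p) : V ι := q.e (p q.y)

/-- values. -/
abbrev av (q : Pt M p) : RR M hp →⋆ₐ[ℂ] ℂ := (et M hp).at' q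

/-- values of vectors. -/
def ev (q : Pt M p) (v : s → RR M hp) : V s := fun i => av q (v i)

/-- values of matrices. -/
def evM (q : Pt M p) (A : Matrix s t (RR M hp)) : Matrix s t ℂ := A.map (av q)

theorem ev_ext {v w : s → RR M hp} (h : ∀ q, ev q v = ev q w) : v = w :=
  funext fun i => Et.ext' _ fun q => congrFun (h q) i

theorem evM_ext {A B : Matrix s t (RR M hp)} (h : ∀ q, evM q A = evM q B) : A = B :=
  Matrix.ext fun i j => Et.ext' _ fun q => congrFun₂ (h q) i j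

/-- sheets through a point. -/
def Sh (q : Pt M p) (σ : V ι → Y) : Prop := Sec p q.e q.z σ ∧ σ q.z = q.y

theorem sh_q (hp : IsLocalHomeomorph p) (q : Pt M p) : Sh q (sh hp q.y q.e) := sh_self hp q.hy

theorem Pt.hz (q : Pt M p) : q.z ∈ q.e.target := q.e.map_source q.hy

theorem loc_iff {P : Ch ι X → V ι → (V ι → Y) → Prop} :
    Loc M p P ↔ ∀ (q : Pt M p) σ, Sh q σ → P q.e q.z σ := by
  refine ⟨fun h q σ hσ => h _ q.he _ q.hz σ hσ.1, fun h e he z hz σ hσ => ?_⟩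
  have e1 : e (p (σ z)) = z := by rw [sec_pt hσ, e.right_inv hz]
  have := h ⟨e, σ z, he, sec_pt hσ ▸ e.map_target hz⟩ σ
  simp only [Sh, Pt.z, e1] at this
  exact this ⟨hσ, trivial⟩

theorem gm_sh {q : Pt M p} {σ : V ι → Y} (hσ : Sh q σ) (F : Ch ι X → Y → ℂ) (h) :
    (et M hp).Gm (upF F h) q fun w => F q.e (σ w) :=
  (gm_upF F h q).trans ((hσ.1.eq hp q.hz).mono fun w hw => by
    change F _ _ = F _ _
    rw [hw, hσ.2])

variable (hp) in
/-- smooth vector functions on the covering. -/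
def upV [Fintype s] (x : Y → V s) (h : Sm M p x) : s → RR M hp := fun i =>
  upF (fun _ y => x y i) fun q => h.smV q.he q.hz (sh_q hp q).1 i

variable (hp) in
/-- smooth matrix functions on the covering. -/
def upM (F : Y → Matrix s t ℂ) (h : SmH M p F) : Matrix s t (RR M hp) := Matrix.of fun i j =>
  upF (fun _ y => F y i j) fun q => h _ q.he _ q.hz _ (sh_q hp q).1 i j

theorem ev_upV [Fintype s] (x : Y → V s) (h : Sm M p x) (q : Pt M p) :
    ev q (upV hp x h) = x q.y := rfl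

theorem evM_upM (F : Y → Matrix s t ℂ) (h : SmH M p F) (q : Pt M p) :
    evM q (upM hp F h) = F q.y := rfl

theorem evM_mul [Fintype t] {w : Type} (q : Pt M p) (A : Matrix s t (RR M hp))
    (B : Matrix t w (RR M hp)) : evM q (A * B) = evM q A * evM q B := Matrix.map_mul

theorem evM_one [DecidableEq s] (q : Pt M p) : evM q (1 : Matrix s s (RR M hp)) = 1 :=
  Matrix.map_one _ (map_zero _) (map_one _)

theorem ev_mulVec [Fintype t] (q : Pt M p) (A : Matrix s t (RR M hp)) (x : t → RR M hp) :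
    ev q (A *ᵥ x) = evM q A *ᵥ ev q x := funext fun i => by
  simp [ev, evM, mulVec, dotProduct]

theorem gm_upB (B : X → Mat ι) (h : M.SmF B) (q : Pt M p) (i j : ι) :
    (et M hp).Gm (upB B h i j) q fun z => M.repF B q.e z i j :=
  gm_upC (fun e z => M.repF B e z i j) (fun e he z hz => h e he z hz i j) q

theorem gm_upI (g : X → Mat ι) (h : M.IsK g) (q : Pt M p) (i j : ι) :
    (et M hp).Gm (upI g h i j) q fun z => (M.repF g q.e z)⁻¹ i j :=
  gm_upC (fun e z => (M.repF g e z)⁻¹ i j) (fun e he z hz =>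
    ((h e he).1.1.cd hz).inv ((h e he).2 z hz).det_pos.ne' i j) q

variable (hp) in
/-- a Kaehler metric on the sheets. -/
def kh (g : X → Mat ι) (hg : M.IsK g) : Kh (dr M hp) where
  G := upB g fun e he => (hg e he).1.1
  Gi := upI g hg
  gi := evM_ext fun q => by
    rw [evM_mul, evM_one]
    exact mul_nonsing_inv _ ((hg _ q.he).2 _ q.hz).det_pos.ne'.isUnit
  cl i j k := Et.ext' _ fun q => by
    have e1 := ((gm_upB (hp := hp) g (fun e he => (hg e he).1.1) q i j).d (inl k)).val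
    have e2 := ((gm_upB (hp := hp) g (fun e he => (hg e he).1.1) q k j).d (inl i)).val
    exact e1.trans (Eq.trans ((hg _ q.he).1.2.2 _ q.hz i j k) e2.symm)
  he i j := Et.ext' _ fun q => ((hg _ q.he).1.2.1 _ q.hz).apply j i

theorem evM_G (g : X → Mat ι) (hg : M.IsK g) (q : Pt M p) :
    evM q (kh hp g hg).G = M.repF g q.e q.z ∧ evM q (kh hp g hg).Gi = (M.repF g q.e q.z)⁻¹ :=
  ⟨rfl, rfl⟩

/-- scalar one-forms. -/
def Sc1 (c : ι ⊕ ι → RR M hp) : Prop :=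
  ∀ q q' : Pt M p, p q.y = p q'.y → ∀ a, av q (c a) = ∑ b, jb q q' b a * av q' (c b)

/-- scalar tensors with three slots. -/
def Sc3 (B : ι ⊕ ι → ι ⊕ ι → ι ⊕ ι → RR M hp) : Prop :=
  ∀ q q' : Pt M p, p q.y = p q'.y → ∀ a b c, av q (B a b c) =
    ∑ a', ∑ b', ∑ c', jb q q' a' a * jb q q' b' b * jb q q' c' c * av q' (B a' b' c')

/-- complexified vectors in the kernel of `ζ` over `U`. -/
def KC (ζ : X → Mat ι) (U : Set X) (q : Pt M p) (w : ι ⊕ ι → ℂ) : Prop :=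
  p q.y ∈ U ∧ nV (M.repF ζ q.e q.z) (fun i => w (inl i)) = 0 ∧
    nV (M.repF ζ q.e q.z) (fun i => star (w (inr i))) = 0

/-- one-forms that vanish on the kernel. -/
def K1 (ζ : X → Mat ι) (U : Set X) (κ : ι ⊕ ι → s → RR M hp) : Prop :=
  ∀ q w, KC ζ U q w → ∑ a, w a • ev q (κ a) = 0

/-- two-forms that vanish on the kernel. -/
def K2 (ζ : X → Mat ι) (U : Set X) (S : ι ⊕ ι → ι ⊕ ι → s → RR M hp) : Prop :=
  ∀ q w w', KC ζ U q w → KC ζ U q w' → ∑ a, ∑ b, (w a * w' b) • ev q (S a b) = 0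

/-- matrix valued one-forms that vanish on the kernel. -/
def KM (ζ : X → Mat ι) (U : Set X) (κ : ι ⊕ ι → Matrix s t (RR M hp)) : Prop :=
  ∀ q w, KC ζ U q w → ∑ a, w a • evM q (κ a) = 0

variable [Group G] [MulAction G Y] [Fintype s] [Fintype r] [DecidableEq r]

variable (hp) in
/-- the metric of a datum on the sheets. -/
def mt (D : Dt M p G r) : Mt r (RR M hp) where
  H := upM hp D.H D.sm
  Hi := upM hp (fun y => (D.H y)⁻¹) fun e he z hz σ hσ =>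
    (D.sm e he z hz σ hσ).inv (D.det_ne _)
  hi := evM_ext fun q => by
    rw [evM_mul, evM_one]
    exact mul_nonsing_inv _ (D.det_ne _).isUnit
  sy := evM_ext fun q => D.sym q.y
  re := evM_ext fun q => D.reH q.y

theorem evM_H (D : Dt M p G r) (q : Pt M p) :
    evM q (mt hp D).H = D.H q.y ∧ evM q (mt hp D).Hi = (D.H q.y)⁻¹ := ⟨rfl, rfl⟩

/-- equivariant sections. -/
def T0 (L : G → Mat s) (f : s → RR M hp) : Prop :=
  ∀ (q q' : Pt M p) (γ : G), q.y = γ • q'.y → ev q f = L γ *ᵥ ev q' f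

/-- equivariant one-forms. -/
def T1 (L : G → Mat s) (κ : ι ⊕ ι → s → RR M hp) : Prop :=
  ∀ (q q' : Pt M p) (γ : G), q.y = γ • q'.y → ∀ a,
    ev q (κ a) = ∑ b, jb q q' b a • L γ *ᵥ ev q' (κ b)

/-- equivariant tensors with two slots. -/
def T2 (L : G → Mat s) (S : ι ⊕ ι → ι ⊕ ι → s → RR M hp) : Prop :=
  ∀ (q q' : Pt M p) (γ : G), q.y = γ • q'.y → ∀ a b,
    ev q (S a b) = ∑ c, ∑ d, (jb q q' c a * jb q q' d b) • L γ *ᵥ ev q' (S c d)

variable (M hp G)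

/-! ### global statements -/

/-- derivatives of tensors. -/
structure Law1 : Prop where
  d0 : ∀ (s : Type) [Fintype s] (L : G → Mat s) (f : s → RR M hp), T0 L f →
    T1 L fun a => (dr M hp).dv s a f
  d0' : ∀ (s : Type) [Fintype s] (L : G → Mat s) (c : G → V s) (x : Y → V s) (hx : Sm M p x),
    (∀ (γ : G) y, x (γ • y) = L γ *ᵥ x y + c γ) → T1 L fun a => (dr M hp).dv s a (upV hp x hx)
  am : ∀ (r : Type) [Fintype r] [DecidableEq r] (D : Dt M p G r) (q q' : Pt M p) (γ : G),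
    q.y = γ • q'.y → ∀ a, evM q ((mt hp D).am (dr M hp) a) =
      ∑ b, jb q q' b a • (D.ρ γ * evM q' ((mt hp D).am (dr M hp) b) * D.ρ γ⁻¹)
  p0 : ∀ (r : Type) [Fintype r] [DecidableEq r] (D : Dt M p G r) (u v u' v' : ℂ)
    (f : r → RR M hp), T0 D.ρ f → T1 D.ρ fun a => (mt hp D).Pg (dr M hp) u v u' v' a f
  p1 : ∀ (r : Type) [Fintype r] [DecidableEq r] (D : Dt M p G r) (u v u' v' : ℂ)
    (κ : ι ⊕ ι → r → RR M hp), T1 D.ρ κ → T2 D.ρ (X1 ((mt hp D).Pg (dr M hp) u v u' v') κ)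

/-- algebra of tensors. -/
structure Law2 : Prop where
  st0 : ∀ (r : Type) [Fintype r] [DecidableEq r] (D : Dt M p G r) (f : r → RR M hp), T0 D.ρ f →
    T0 D.ρ (star f)
  sS : ∀ (r : Type) [Fintype r] [DecidableEq r] (D : Dt M p G r)
    (S : ι ⊕ ι → ι ⊕ ι → r → RR M hp), T2 D.ρ S → T2 D.ρ (sS S)
  ty1 : ∀ (s : Type) [Fintype s] (L : G → Mat s) (u v : ℂ) (κ : ι ⊕ ι → s → RR M hp), T1 L κ →
    T1 L fun a => ty u v a • κ a
  add : ∀ (s : Type) [Fintype s] (L : G → Mat s) (κ κ' : ι ⊕ ι → s → RR M hp), T1 L κ → T1 L κ' →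
    T1 L (κ + κ') ∧ T1 L (κ - κ')
  lam : ∀ g (hg : M.IsK g) (s : Type) [Fintype s] (L : G → Mat s)
    (S : ι ⊕ ι → ι ⊕ ι → s → RR M hp), T2 L S → T0 L (lam (kh hp g hg).π S)
  h00 : ∀ (r : Type) [Fintype r] [DecidableEq r] (D : Dt M p G r) (f f' : r → RR M hp), T0 D.ρ f →
    T0 D.ρ f' → ∃ φ : X → ℂ, ∀ q, av q ((mt hp D).h f f') = φ (p q.y)
  h01 : ∀ (r : Type) [Fintype r] [DecidableEq r] (D : Dt M p G r) (f : r → RR M hp)
    (κ : ι ⊕ ι → r → RR M hp), T0 D.ρ f → T1 D.ρ κ → Sc1 fun a => (mt hp D).h f (κ a)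
  h12 : ∀ (r : Type) [Fintype r] [DecidableEq r] (D : Dt M p G r) (κ : ι ⊕ ι → r → RR M hp)
    (S : ι ⊕ ι → ι ⊕ ι → r → RR M hp), T1 D.ρ κ → T2 D.ρ S →
    Sc3 fun b c d => (mt hp D).h (κ b) (S c d)
  ctr : ∀ g (hg : M.IsK g) (B : ι ⊕ ι → ι ⊕ ι → ι ⊕ ι → RR M hp), Sc3 B →
    Sc1 (ctr (kh hp g hg).π B)

/-- sections and primitives on the covering. -/
structure Law3 : Prop where
  desc : ∀ (s : Type) [Fintype s] [DecidableEq s] (L : G → Mat s) (f : s → RR M hp), L 1 = 1 →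
    T0 L f → ∃ x hx, f = upV hp x hx ∧ ∀ (γ : G) y, x (γ • y) = L γ *ᵥ x y
  prim : ∀ (s : Type) [Fintype s] [DecidableEq s] (ρ : G →* Mat s) (κ : ι ⊕ ι → s → RR M hp),
    T1 ρ κ → X1 ((dr M hp).dv s) κ = 0 → ∃ x hx, ∃ c : G → V s,
      (fun a => (dr M hp).dv s a (upV hp x hx)) = κ ∧ ∀ (γ : G) y, x (γ • y) = ρ γ *ᵥ x y + c γ

/-- the dictionary. -/
structure BrS : Prop where
  ph : ∀ (r : Type) [Fintype r] [DecidableEq r] (D : Dt M p G r), D.PH ↔ (mt hp D).PH (dr M hp)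
  harm : ∀ g (hg : M.IsK g) (r : Type) [Fintype r] [DecidableEq r] (D : Dt M p G r), D.Harm g →
    ∑ i, ∑ j, (kh hp g hg).Gi j i • (mt hp D).nm (dr M hp) (inl i) (inr j) = 0
  px : ∀ (r : Type) [Fintype r] [DecidableEq r] (D : Dt M p G r) x hx,
    D.PX x ↔ X1 ((mt hp D).P (dr M hp) 0 1) (fun a => (dr M hp).dv r a (upV hp x hx)) = 0
  lap : ∀ g (hg : M.IsK g) (r : Type) [Fintype r] [DecidableEq r] (D : Dt M p G r) x hx f hf,
    D.Lap g x f ↔ lam (kh hp g hg).π (X1 ((mt hp D).P (dr M hp) 0 1)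
      fun a => (dr M hp).dv r a (upV hp x hx)) = -upV hp f hf
  kil : ∀ ζ U (s : Type) [Fintype s] (x : Y → V s) hx,
    Kil M p ζ U x ↔ K1 ζ U fun a => (dr M hp).dv s a (upV hp x hx)
  kilM : ∀ ζ U (s t : Type) (F : Y → Matrix s t ℂ) hF,
    (∀ i j, Kil M p ζ U fun y => F y i j) ↔ KM ζ U fun a => (dr M hp).dm a (upM hp F hF)

/-- positivity of the norms. -/
def PosS : Prop := ∀ g (hg : M.IsK g) (r : Type) [Fintype r] [DecidableEq r] (D : Dt M p G r)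
  (q : Pt M p),
  (∀ κ, 0 ≤ av q ((mt hp D).nrm1 (kh hp g hg).π κ) ∧
    (av q ((mt hp D).nrm1 (kh hp g hg).π κ) = 0 → ∀ a, ev q (κ a) = 0)) ∧
  ∀ S, 0 ≤ av q ((mt hp D).nrm (kh hp g hg).π S) ∧
    (av q ((mt hp D).nrm (kh hp g hg).π S) = 0 → ∀ a b, ev q (S a b) = 0)

/-- the divergence theorem. -/
def StS [MeasurableSpace X] : Prop := ∀ g (hg : M.IsK g) (μ : Measure X), M.IsVol g μ →
  ∀ (c : ι ⊕ ι → RR M hp) (u v : ℂ), Sc1 c → ∃ d : X → ℂ, Continuous d ∧ ∫ x, d x ∂μ = 0 ∧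
    ∀ q, av q (dvg (kh hp g hg).π ((dr M hp).wd u v) c) = d (p q.y)

/-- divergences of constant sign vanish. -/
def St0 : Prop := ∀ g (hg : M.IsK g) (c : ι ⊕ ι → RR M hp) (u v : ℂ) (F : RR M hp), Sc1 c →
  dvg (kh hp g hg).π ((dr M hp).wd u v) c = -F → (∀ q, 0 ≤ av q F) → ∀ q, av q F = 0

/-- primitive exact forms vanish. -/
def PeS : Prop := ∀ g (hg : M.IsK g) (r : Type) [Fintype r] [DecidableEq r] (D : Dt M p G r)
  (u v : ℂ) (κ : ι ⊕ ι → r → RR M hp), T1 D.ρ κ →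
  lam (kh hp g hg).π (X1 ((mt hp D).P (dr M hp) u v) κ) = 0 →
  X2 ((mt hp D).P (dr M hp) 1 0) (X1 ((mt hp D).P (dr M hp) u v) κ) = 0 →
  X2 ((mt hp D).P (dr M hp) 0 1) (X1 ((mt hp D).P (dr M hp) u v) κ) = 0 →
  X1 ((mt hp D).P (dr M hp) u v) κ = 0

/-- the datum of endomorphisms. -/
def EndS : Prop := ∀ (r : Type) [Fintype r] [DecidableEq r] (D : Dt M p G r),
  ∃ E : Dt M p G (r × r), (∀ γ, E.ρ γ = D.ρ γ ⊗ₖ (D.ρ γ⁻¹)ᵀ) ∧
    (mt hp E).H = (mt hp D).H ⊗ₖ (mt hp D).Hi ∧ (D.PH → E.PH) ∧ (IntR D.ρ → IntR E.ρ)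

end

end Pool.Agent.Lib.MP_813db1_ag.VH.Hr
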