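import Pool.Agent.Lib.MP_813db1_ag.VH.StV
import Pool.Agent.Lib.MP_813db1_ag.VH.Cov

/-! Null spaces of semipositive forms, and formal properties of dominated maps. -/

namespace Pool.Agent.Lib.MP_813db1_ag.VH

open Pool.Agent.Lib.MP_813db1_ag.HS Pool.Agent.Lib.MP_813db1_ag.AS F12
open Complex Matrix Filter Topology Set Module
open scoped ContDiff ComplexOrder

set_option linter.unusedSectionVars false

namespace Nul

variable {ι : Type} [Fintype ι] [DecidableEq ι] {Z Z' : Mat ι}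

theorem ip (Z : Mat ι) (v u : V ι) : ipV Z v u = star u ⬝ᵥ Zᵀ *ᵥ v := by
  rw [Mat.ip_eq, dotProduct_mulVec, ← mulVec_transpose, dotProduct_comm]

theorem add (Z Z' : Mat ι) (v : V ι) : nV (Z + Z') v = nV Z v + nV Z' v := by
  simp only [nV, ipV, Matrix.add_apply, add_mul, Finset.sum_add_distrib, add_re]

theorem smul_I (Z : Mat ι) (v : V ι) : nV Z (I • v) = nV Z v := by
  rw [nV, nV, ip, ip, star_smul, mulVec_smul, smul_dotProduct, dotProduct_smul, smul_smul, star_I,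
    neg_mul, I_mul_I, neg_neg, one_smul]

theorem iff (h : Z.PosSemidef) (v : V ι) : nV Z v = 0 ↔ Zᵀ *ᵥ v = 0 := by
  rw [← h.transpose.dotProduct_mulVec_zero_iff, nV, ip]
  have := Complex.nonneg_iff.1 (h.transpose.dotProduct_mulVec_nonneg v)
  exact ⟨fun e => Complex.ext e this.2.symm, fun e => by rw [e, zero_re]⟩

/-- the null space. -/
theorem ex (h : Z.PosSemidef) : ∃ W : Submodule ℂ (V ι), (∀ v, v ∈ W ↔ nV Z v = 0) ∧
    finrank ℂ W + Z.rank = Fintype.card ι ∧ ∀ v ∈ W, ∀ u, ipV Z v u = 0 ∧ ipV Z u v = 0 := by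
  refine ⟨LinearMap.ker Zᵀ.mulVecLin, fun v => (iff h v).symm, ?_, fun v hv u => ?_⟩
  · rw [← rank_transpose, Matrix.rank, add_comm, LinearMap.finrank_range_add_finrank_ker,
      finrank_fintype_fun_eq_card]
  · have e : Zᵀ *ᵥ v = 0 := hv
    refine ⟨by rw [ip, e, dotProduct_zero], ?_⟩
    rw [Mat.ip_eq, ← h.1.eq, conjTranspose, ← Dt.star_mulVec', e, star_zero, dotProduct_zero]

theorem both (h : Z.PosSemidef) (h' : Z'.PosSemidef) {v : V ι} (e : nV (Z + Z') v = 0) :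
    nV Z v = 0 ∧ nV Z' v = 0 := by
  have a := Mat.nv_mono h v
  have b := Mat.nv_mono h' v
  rw [add] at e
  constructor <;> linarith

theorem rank_le (h : Z.PosSemidef) (h' : Z'.PosSemidef) : Z.rank ≤ (Z + Z').rank := by
  obtain ⟨W, a, b, -⟩ := ex h
  obtain ⟨W', a', b', -⟩ := ex (h.add h')
  have := Submodule.finrank_mono (show W' ≤ W from fun v hv => (a v).2 (both h h' ((a' v).1 hv)).1)
  omega

theorem mono (h : Z.PosSemidef) (h' : Z'.PosSemidef) (hr : (Z + Z').rank ≤ Z.rank) {v : V ι}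
    (hv : nV Z v = 0) : nV Z' v = 0 := by
  obtain ⟨W, a, b, -⟩ := ex h
  obtain ⟨W', a', b', -⟩ := ex (h.add h')
  have e : W' = W := Submodule.eq_of_le_of_finrank_le
    (fun v hv => (a v).2 (both h h' ((a' v).1 hv)).1) (by omega)
  exact (both h h' ((a' v).1 (e ▸ (a v).2 hv))).2

theorem rank_pull {J : Mat ι} (hJ : J.det ≠ 0) (Z : Mat ι) : (pull J Z).rank = Z.rank := by
  rw [pull, rank_mul_eq_left_of_isUnit_det _ _ (by rw [Mat.det_star]; simpa using hJ),
    rank_mul_eq_right_of_isUnit_det _ _ (by rw [det_transpose]; exact hJ.isUnit)]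

theorem op_mat (m : ℕ) : IsOpen {A : Mat ι | m ≤ A.rank} := by
  let L : Mat ι →ₗ[ℂ] (V ι →L[ℂ] V ι) :=
    LinearMap.toContinuousLinearMap.toLinearMap ∘ₗ (toLin' : Mat ι ≃ₗ[ℂ] _).toLinearMap
  convert (isOpen_setOfPred_nat_le_rank (𝕜 := ℂ) (E := V ι) (F := V ι) m).preimage
    L.continuous_of_finiteDimensional using 1
  ext A
  change _ ↔ (m : Cardinal) ≤ LinearMap.rank A.mulVecLin
  rw [LinearMap.rank, ← finrank_eq_rank, Nat.cast_le]
  rfl

variable {X : Type} [TopologicalSpace X] {M : Atl ι X} {ζ ζ' : X → Mat ι} {e : Ch ι X} {z : V ι}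

theorem rank_rep (ζ : X → Mat ι) (he : e ∈ M.A) (hz : z ∈ e.target) :
    (M.repF ζ e z).rank = (ζ (e.symm z)).rank :=
  rank_pull ((AY.repA' ι X M).tj_det e he _ (M.ch_mem _) _ (e.map_target hz) (M.mem _)) _

theorem psd_rep (h : ∀ x, (ζ x).PosSemidef) (he : e ∈ M.A) (hz : z ∈ e.target) :
    (M.repF ζ e z).PosSemidef :=
  (mat.pull_pd ι _ _ ((AY.repA' ι X M).tj_det e he _ (M.ch_mem _) _ (e.map_target hz)
    (M.mem _))).2.1 (h _)

theorem rep_add (ζ ζ' : X → Mat ι) (e : Ch ι X) (z : V ι) :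
    M.repF (fun x => ζ x + ζ' x) e z = M.repF ζ e z + M.repF ζ' e z := by
  simp only [Atl.repF, pull, Matrix.mul_add, Matrix.add_mul]

theorem op (h : M.SmF ζ) (m : ℕ) : IsOpen {x | m ≤ (ζ x).rank} := by
  refine isOpen_iff_mem_nhds.2 fun x hx => ?_
  have c : ContinuousAt (M.repF ζ (M.ch x)) (M.ch x x) := continuousAt_pi.2 fun i =>
    continuousAt_pi.2 fun j => (h _ (M.ch_mem x) _ ((M.ch x).map_source (M.mem x)) i j).continuousAt
  filter_upwards [(c.comp ((M.ch x).continuousAt (M.mem x))).eventually_mem ((op_mat m).mem_nhds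
    (by rw [Function.comp_apply, (AY.repA' ι X M).repF_self]; exact hx)),
    (M.ch x).open_source.mem_nhds (M.mem x)] with y a b
  have : m ≤ (M.repF ζ (M.ch x) (M.ch x y)).rank := a
  rwa [rank_rep ζ (M.ch_mem x) ((M.ch x).map_source b), (M.ch x).left_inv b] at this

theorem op_eq (h : M.ClF ζ) {m : ℕ} (hm : ∀ x, (ζ x).rank ≤ m) : IsOpen {x | (ζ x).rank = m} := by
  rw [show {x | (ζ x).rank = m} = {x | m ≤ (ζ x).rank} from
    Set.ext fun x => ⟨fun e => e.ge, fun e => (hm x).antisymm e⟩]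
  exact op (M := M) (fun e he => (h e he).1) m

end Nul

variable {ι X Y G E E' : Type} [Fintype ι] [DecidableEq ι] [TopologicalSpace X]
  [TopologicalSpace Y] [Group G] [MulAction G Y] {M : Atl ι X} {p : Y → X} [NormedAddCommGroup E]
  [NormedSpace ℝ E] [NormedAddCommGroup E'] [NormedSpace ℝ E'] {ζ ζ' : X → Mat ι} {f : Y → E}
  {f' : Y → E'} {U : Set X}

theorem Dmn.kil (h : Dmn M p ζ f) (U : Set X) : Kil M p ζ U f := fun e he z hz s hs _ v hv => by
  obtain ⟨C, hC⟩ := h (s z)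
  have := hC.self_of_nhds e he z hz s hs rfl v
  rw [hv, mul_zero] at this
  exact norm_eq_zero.1 (pow_eq_zero_iff two_ne_zero |>.1 (this.antisymm (sq_nonneg _)))

theorem Dmn.add (h : Dmn M p ζ f) (hp : ∀ x, (ζ x).PosSemidef) (hp' : ∀ x, (ζ' x).PosSemidef) :
    Dmn M p (fun x => ζ x + ζ' x) f := fun y0 => by
  obtain ⟨C, hC⟩ := h y0
  refine ⟨|C|, hC.mono fun y hy e he z hz s hs h0 v => (hy e he z hz s hs h0 v).trans ?_⟩
  have a := Mat.nv_mono (Nul.psd_rep hp he hz) v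
  have b := Mat.nv_mono (Nul.psd_rep hp' he hz) v
  rw [Nul.rep_add, Nul.add]
  nlinarith [le_abs_self C, abs_nonneg C]

theorem Sm.prod (h : Sm M p f) (h' : Sm M p f') : Sm M p fun y => (f y, f' y) :=
  fun e he z hz s hs => (h e he z hz s hs).prodMk (h' e he z hz s hs)

theorem fd_prod (h : Sm M p f) (h' : Sm M p f') {e : Ch ι X} (he : e ∈ M.A) {z : V ι}
    (hz : z ∈ e.target) {s : V ι → Y} (hs : Sec p e z s) (v : V ι) :
    fderiv ℝ ((fun y => (f y, f' y)) ∘ s) z v = (fderiv ℝ (f ∘ s) z v, fderiv ℝ (f' ∘ s) z v) :=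
  congrArg (fun A => A v) (((h e he z hz s hs).differentiableAt (by simp)).fderiv_prodMk
    ((h' e he z hz s hs).differentiableAt (by simp)))

theorem Dmn.prod (h : Dmn M p ζ f) (h' : Dmn M p ζ f') (a : Sm M p f) (a' : Sm M p f') :
    Dmn M p ζ fun y => (f y, f' y) := fun y0 => by
  obtain ⟨C, hC⟩ := h y0
  obtain ⟨C', hC'⟩ := h' y0
  refine ⟨C + C', (hC.and hC').mono fun y hy e he z hz s hs h0 v => ?_⟩
  have b := hy.1 e he z hz s hs h0 v
  have b' := hy.2 e he z hz s hs h0 v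
  rw [fd_prod a a' he hz hs, Prod.norm_mk, add_mul]
  rcases max_choice ‖fderiv ℝ (f ∘ s) z v‖ ‖fderiv ℝ (f' ∘ s) z v‖ with k | k <;> rw [k] <;>
    nlinarith [sq_nonneg ‖fderiv ℝ (f ∘ s) z v‖, sq_nonneg ‖fderiv ℝ (f' ∘ s) z v‖]

theorem Kil.prod (h : Kil M p ζ U f) (h' : Kil M p ζ U f') (a : Sm M p f) (a' : Sm M p f') :
    Kil M p ζ U fun y => (f y, f' y) := fun e he z hz s hs k v hv => by
  rw [fd_prod a a' he hz hs, h e he z hz s hs k v hv, h' e he z hz s hs k v hv]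
  rfl

theorem IntR.re {r : Type} [Fintype r] [DecidableEq r] {ρ : G →* Mat r} (h : IntR ρ) : RealR ρ :=
  fun g => Matrix.ext fun i j => by
    obtain ⟨m, hm⟩ := h g i j
    simp [hm]

theorem sm_mvc {σ τ : Type} [Fintype σ] [Fintype τ] {F : Y → Matrix σ τ ℂ} :
    Sm M p (fun y => mvc (F y)) ↔ SmH M p F :=
  ⟨fun h e he z hz s hs i j => contDiffAt_pi.1 (h e he z hz s hs) (i, j),
    fun h e he z hz s hs => contDiffAt_pi.2 fun q => h e he z hz s hs q.1 q.2⟩

end Pool.Agent.Lib.MP_813db1_ag.VH
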