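import Pool.Agent.Lib.MP_813db1_ag.VH.St7

/-! The first stage: pointwise algebra and local calculus. -/

namespace Pool.Agent.Lib.MP_813db1_ag.VH.St1a

open Pool.Agent.Lib.MP_813db1_ag.HS Complex Matrix Filter Topology Set
open scoped ContDiff ComplexOrder

set_option linter.unusedSectionVars false

variable {ι r : Type} [Fintype ι] [DecidableEq ι] [Fintype r] [DecidableEq r] {h g : Mat ι}
  {H P F J : Mat r} {θ : ι → Mat r} {a : ι → V r} {s B : ℝ}

theorem trm_of (h : Mat ι) (b : ι → ι → ℂ) : trm h (Matrix.of b) = (tg h b).re := by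
  simp only [trm, tg, trace, diag, mul_apply, of_apply, smul_eq_mul, mul_comm]

theorem trm_smul (h A : Mat ι) (c : ℝ) : trm h ((c : ℂ) • A) = c * trm h A := by
  simp only [trm, Matrix.smul_mul, trace_smul, smul_eq_mul, re_ofReal_mul]

theorem t2_ric (ph : h.PosDef) (ξ τ : Mat ι) (c s : ℝ) :
    t2 h ξ (-h + ((c : ℂ) • τ + (s : ℂ) • ξ)) = -trm h ξ + c * t2 h ξ τ + s * t2 h ξ ξ := by
  simp only [t2, trm, Matrix.mul_add, Matrix.add_mul, Matrix.mul_neg, Matrix.neg_mul,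
    Matrix.mul_smul, Matrix.smul_mul, trace_add, trace_neg, trace_smul, smul_eq_mul, add_re, neg_re,
    re_ofReal_mul, nonsing_inv_mul_cancel_right _ _ ph.det_pos.ne'.isUnit]
  ring

theorem ipE_smul (c : ℝ) (H A A' : Mat r) :
    ipE H ((c : ℂ) • A) ((c : ℂ) • A') = ((c ^ 2 : ℝ) : ℂ) * ipE H A A' := by
  simp only [ipE, conjTranspose_smul, Matrix.mul_smul, Matrix.smul_mul, trace_smul, smul_eq_mul,
    star_def, conj_ofReal, ofReal_pow]
  ring

theorem nE_smul (c : ℝ) (H A : Mat r) : nE H ((c : ℂ) • A) = c ^ 2 * nE H A := by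
  rw [nE, ipE_smul, re_ofReal_mul, nE]

theorem nE_neg (H A : Mat r) : nE H (-A) = nE H A := by simp [nE, ipE]

theorem grE_smul (h : Mat ι) (c : ℝ) (H : Mat r) (A : ι → Mat r) :
    trm h (grE H fun k => (c : ℂ) • A k) = c ^ 2 * trm h (grE H A) := by
  rw [← trm_smul]
  exact congrArg _ (Matrix.ext fun i j => ipE_smul c H _ _)

theorem grE_pull (T : Mat ι) (H : Mat r) (A : ι → Mat r) :
    grE H (fun k => ∑ l, T l k • A l) = pull T (grE H A) := by
  ext i j
  simp only [pull_apply, grE, of_apply, ipE, conjTranspose_sum, conjTranspose_smul,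
    Matrix.sum_mul, Matrix.mul_smul, Matrix.smul_mul, trace_sum, trace_smul, smul_eq_mul,
    Finset.mul_sum]
  rw [Finset.sum_comm]
  exact Finset.sum_congr rfl fun l _ => Finset.sum_congr rfl fun m _ => by ring

theorem gr_pull (T : Mat ι) (H : Mat r) (a : ι → V r) :
    gr H (fun k => ∑ l, T l k • a l) = pull T (gr H a) := by
  ext i j
  simp only [pull_apply, gr, of_apply, ipV_eq, star_sum, star_smul, mulVec_sum, mulVec_smul,
    sum_dotProduct, dotProduct_sum, smul_dotProduct, dotProduct_smul, smul_eq_mul, Finset.mul_sum]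
  rw [Finset.sum_comm]
  exact Finset.sum_congr rfl fun l _ => Finset.sum_congr rfl fun m _ => by ring

theorem tg_mulVec (h : Mat ι) (P : Mat r) (v : ι → ι → V r) :
    (tg h fun i k => P *ᵥ v i k) = P *ᵥ tg h v := by
  simp only [tg, mulVec_sum, mulVec_smul]

/-- orthogonal projectors. -/
structure Prj (H P : Mat r) : Prop where
  sa : H * P = Pᴴ * H
  sq : P * P = P

theorem Prj.cpl (q : Prj H P) : Prj H (1 - P) :=
  ⟨by rw [conjTranspose_sub, conjTranspose_one, Matrix.mul_sub, Matrix.sub_mul, q.sa,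
      Matrix.mul_one, Matrix.one_mul],
    by rw [Matrix.mul_sub, Matrix.mul_one, Matrix.sub_mul, q.sq, Matrix.one_mul, sub_self,
      sub_zero]⟩

theorem Prj.nE_eq (q : Prj H P) (pH : H.PosDef) : nE H P = (trace P).re := by
  rw [nE, ipE, Matrix.mul_assoc, Matrix.mul_assoc, ← q.sa,
    nonsing_inv_mul_cancel_left _ _ pH.det_pos.ne'.isUnit, q.sq]

theorem Prj.nE_le (hN : AlgN) (q : Prj H P) (pH : H.PosDef) : nE H P ≤ Fintype.card r := by
  have := ((hN r r H H pH pH).2.1 (1 - P)).1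
  rw [q.cpl.nE_eq pH, trace_sub, trace_one, sub_re, natCast_re, ← q.nE_eq pH] at this
  linarith

theorem Prj.ip (q : Prj H P) (re : H.map star = H) (u v : V r) :
    ipV H (P *ᵥ u) (P *ᵥ v) = ipV H (P *ᵥ u) v := by
  have e : H * P.map star = Pᵀ * H := by
    have := congrArg (·.map star) q.sa
    simp only [RepA.map_star_mul, re] at this
    rw [this]
    congr 1
    ext i j
    simp
  rw [ipV_eq, ipV_eq, Dt.star_mulVec', mulVec_mulVec, e, ← mulVec_mulVec, dotProduct_mulVec,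
    vecMul_transpose, mulVec_mulVec, q.sq]

theorem Prj.gr_sub (q : Prj H P) (re : H.map star = H) (a : ι → V r) :
    gr H a - gr H (fun k => P *ᵥ a k) = gr H fun k => (1 - P) *ᵥ a k := by
  ext i j
  simp only [gr, Matrix.sub_apply, of_apply, q.ip re, q.cpl.ip re]
  simp only [ipV_eq, sub_mulVec, one_mulVec, sub_dotProduct]

/-- the energy bound. -/
theorem energy (hN : AlgN) (hO : AlgO) (hT : AlgT) (pt : Pt h H θ) (N : ι → ι → V r) (s0 : 0 ≤ s)
    (hB : s * trm h (gr H a) ≤ B) :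
    s ^ 2 * trm h (grE H fun k => ou h H (N k) a + ou h H a fun j => θ j *ᵥ star (a k)) ≤
      (2 * Fintype.card ι + 3) * B * (s * q1 h H N + s * t2 h (gr H a) (grE H θ)) := by
  obtain ⟨n1, -, n3, n4, -, n6⟩ := hN ι r h H pt.ph pt.pH
  have e1 := (n4 fun k => ou h H (N k) a).2.2.1 fun k => ou h H a fun j => θ j *ᵥ star (a k)
  have e2 := (hO ι r h H a pt.ph pt.pH pt.re).2.2.2.2.2.2.1 N
  have e3 := (hT ι r h H θ a pt).2.2.2.1
  have q0 := mul_nonneg s0 (n1 N).1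
  have t0 := mul_nonneg s0 (n6 _ _ (n3 a) (n4 θ).1).1
  have x0 := mul_nonneg s0 (Mat.trm_nonneg pt.ph (n3 a))
  have c0 : (0 : ℝ) ≤ Fintype.card ι := Nat.cast_nonneg _
  have B0 := x0.trans hB
  calc _ ≤ s ^ 2 * (2 * (q1 h H N * trm h (gr H a)) +
        2 * (Fintype.card ι * trm h (gr H a) * t2 h (gr H a) (grE H θ))) :=
        mul_le_mul_of_nonneg_left (by linarith) (sq_nonneg s)
    _ = 2 * (s * trm h (gr H a)) * (s * q1 h H N) +
        2 * Fintype.card ι * (s * trm h (gr H a)) * (s * t2 h (gr H a) (grE H θ)) := by ring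
    _ ≤ (2 * Fintype.card ι + 3) * B * (s * q1 h H N) +
        (2 * Fintype.card ι + 3) * B * (s * t2 h (gr H a) (grE H θ)) := by
        have := mul_nonneg c0 B0
        have := mul_le_mul_of_nonneg_left hB c0
        gcongr ?_ * _ + ?_ * _ <;> nlinarith
    _ = _ := by ring

theorem rho_le (hN : AlgN) (hO : AlgO) (pt : Pt h H θ) (q : Prj H F) (s0 : 0 ≤ s)
    (hB : s * trm h (gr H a) ≤ B) : nE H ((s : ℂ) • ou h H a a - F) ≤
      √(2 * B ^ 2 + 2 * Fintype.card r) * √(nE H ((s : ℂ) • ou h H a a - F)) := by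
  obtain ⟨-, n2, n3, -, n5, n6⟩ := hN ι r h H pt.ph pt.pH
  have e1 := (n5 ((s : ℂ) • ou h H a a) (-F)).2.1
  rw [nE_neg, nE_smul, (hO ι r h H a pt.ph pt.pH pt.re).2.2.2.1, ← sub_eq_add_neg] at e1
  have e2 := mul_le_mul_of_nonneg_left (n6 _ _ (n3 a) (n3 a)).2.2.1 (sq_nonneg s)
  have x0 := mul_nonneg s0 (Mat.trm_nonneg pt.ph (n3 a))
  have e3 := pow_le_pow_left₀ x0 hB 2
  have e4 := q.nE_le hN pt.pH
  conv_lhs => rw [← Real.mul_self_sqrt (n2 _).1]
  refine mul_le_mul_of_nonneg_right (Real.sqrt_le_sqrt ?_) (Real.sqrt_nonneg _)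
  nlinarith

theorem pol_le (hN : AlgN) (hO : AlgO) (pt : Pt h H θ) (hJ : ∀ k, P *ᵥ a k = 0) (s : ℝ) :
    nE H (P * F) ≤ nE H P * nE H ((s : ℂ) • ou h H a a - F) := by
  have e := ((hO ι r h H a pt.ph pt.pH pt.re).2.2.2.2.2.1 P).2.1 a
  have e' : P * ou h H a a = 0 := by
    rw [e]
    simp [hJ, ou, tg]
  have := ((hN ι r h H pt.ph pt.pH).2.2.2.2.1 P ((s : ℂ) • ou h H a a - F)).1
  rwa [Matrix.mul_sub, Matrix.mul_smul, e', smul_zero, zero_sub, nE_neg] at this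

theorem split (hN : AlgN) (ph : h.PosDef) (pg : g.PosDef) (pH : H.PosDef) (A : ι → Mat r)
    (N F : Mat r) (s : ℝ) : trm g (grE H fun k => A k * F) ≤
      trm g h * (2 * s ^ 2 * trm h (grE H fun k => A k * N)) +
        2 * trm g (grE H A) * nE H ((s : ℂ) • N - F) := by
  obtain ⟨-, -, -, n4, -, -⟩ := hN ι r g H pg pH
  have e1 := (n4 fun k => (s : ℂ) • (A k * N)).2.2.1 fun k => A k * -((s : ℂ) • N - F)
  have e2 := ((n4 A).2.2.2 (-((s : ℂ) • N - F))).1
  have e3 := mul_le_mul_of_nonneg_left (((hN ι r h H ph pH).2.2.2.2.2 _ _ (n4 fun k => A k * N).1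
    (n4 A).1).2.2.2 g pg) (sq_nonneg s)
  rw [nE_neg] at e2
  rw [grE_smul, show (fun k => (s : ℂ) • (A k * N) + A k * -((s : ℂ) • N - F)) = fun k => A k * F
    from funext fun k => by simp [Matrix.mul_sub]] at e1
  nlinarith

theorem higgs_le (hN : AlgN) (hO : AlgO) (hT : AlgT) (pt : Pt h H θ) (pg : g.PosDef)
    (sy : ∀ k i, θ k *ᵥ a i = θ i *ᵥ a k) (s0 : 0 ≤ s) (hB : s * trm h (gr H a) ≤ B) :
    trm g (grE H fun k => 1 * θ k * F) ≤
      trm g h * (2 * Fintype.card ι * B * (s * t2 h (gr H a) (grE H θ))) +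
        2 * trm g (grE H θ) * nE H ((s : ℂ) • ou h H a a - F) := by
  simp only [Matrix.one_mul]
  refine (split hN pt.ph pg pt.pH θ (ou h H a a) F s).trans (add_le_add_left
    (mul_le_mul_of_nonneg_left ?_ (Mat.trm_nonneg pg pt.ph.posSemidef)) _)
  obtain ⟨-, -, n3, n4, -, n6⟩ := hN ι r h H pt.ph pt.pH
  obtain ⟨-, -, -, -, -, o6, o7, -⟩ := hO ι r h H a pt.ph pt.pH pt.re
  simp only [fun k => (o6 (θ k)).2.1 a]
  have x0 := Mat.trm_nonneg pt.ph (n3 a)
  have e1 := (o7 fun k i => θ k *ᵥ a i).trans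
    (mul_le_mul_of_nonneg_right ((hT ι r h H θ a pt).2.1 sy) x0)
  have t0 := mul_nonneg (Nat.cast_nonneg (Fintype.card ι))
    (mul_nonneg s0 (n6 _ _ (n3 a) (n4 θ).1).1)
  have e2 := mul_le_mul_of_nonneg_left e1 (sq_nonneg s)
  have e3 := mul_le_mul_of_nonneg_left hB t0
  nlinarith

theorem kappa_le (hN : AlgN) (hO : AlgO) (pt : Pt h H θ) (pg : g.PosDef) (q : Prj H P)
    (s0 : 0 ≤ s) (hB : s * trm h (gr H a) ≤ B) :
    trm g (grE H fun k => P * θ k * F.map star) ≤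
      trm g h * (2 * B * (s * q2 h H fun k i => P *ᵥ θ i *ᵥ star (a k))) +
        2 * (trm g (grE H θ) * Fintype.card r) * nE H ((s : ℂ) • ou h H a a - F) := by
  obtain ⟨n1, n2, n3, -⟩ := hN ι r h H pt.ph pt.pH
  obtain ⟨-, -, -, -, -, o6, -, -, o9⟩ := hO ι r h H a pt.ph pt.pH pt.re
  have e0 : (s : ℂ) • (ou h H a a).map star - F.map star = ((s : ℂ) • ou h H a a - F).map star := by
    ext i j
    simp
  have e := split hN pt.ph pg pt.pH (fun k => P * θ k) ((ou h H a a).map star) (F.map star) s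
  rw [e0, (o6 _).2.2.1] at e
  have n4 := (hN ι r g H pg pt.pH).2.2.2.1 θ
  refine e.trans (add_le_add (mul_le_mul_of_nonneg_left ?_ (Mat.trm_nonneg pg pt.ph.posSemidef))
    (mul_le_mul_of_nonneg_right (mul_le_mul_of_nonneg_left ((n4.2.2.2 P).2.trans
      (mul_le_mul_of_nonneg_left (q.nE_le hN pt.pH) (Mat.trm_nonneg pg n4.1))) zero_le_two)
      (n2 _).1))
  have e1 := mul_le_mul_of_nonneg_left (o9 fun k => P * θ k) (sq_nonneg s)
  simp only [← mulVec_mulVec] at e1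
  have e2 := mul_le_mul_of_nonneg_left hB
    (mul_nonneg s0 (n1 fun k i => P *ᵥ θ i *ᵥ star (a k)).2.1)
  nlinarith

theorem perp_le (hN : AlgN) (hO : AlgO) (pt : Pt h H θ) (q : Prj H F) (s : ℝ) :
    s * trm h (gr H fun k => (1 - F) *ᵥ a k) ≤
      √(Fintype.card r) * √(nE H ((s : ℂ) • ou h H a a - F)) := by
  obtain ⟨-, n2, -, -, n5, -⟩ := hN ι r h H pt.ph pt.pH
  have e1 := (n5 (1 - F) ((s : ℂ) • ou h H a a - F)).2.2.trans
    (mul_le_mul_of_nonneg_right (q.cpl.nE_le hN pt.pH) (n2 _).1)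
  rw [Matrix.mul_sub, Matrix.mul_smul, Matrix.sub_mul 1 F F, q.sq, Matrix.one_mul, sub_self,
    sub_zero, trace_smul, ((hO ι r h H a pt.ph pt.pH pt.re).2.2.2.2.2.1 _).1] at e1
  rw [gr, trm_of, ← re_ofReal_mul, ← Real.sqrt_mul (Nat.cast_nonneg _)]
  simp only [q.cpl.ip pt.re]
  exact (re_le_norm _).trans (Real.le_sqrt_of_sq_le e1)

theorem div_le (hN : AlgN) (hO : AlgO) (hT : AlgT) (pt : Pt h H θ) (q : Prj H P) :
    nV H (tg h fun i k => P *ᵥ θ i *ᵥ star (a k)) ≤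
      Fintype.card r * Fintype.card ι * t2 h (gr H a) (grE H θ) := by
  rw [tg_mulVec, mul_assoc]
  exact (((hO ι r h H a pt.ph pt.pH pt.re).2.2.2.2.2.1 P).2.2.2.1 _).trans
    (mul_le_mul (q.nE_le hN pt.pH) (hT ι r h H θ a pt).2.2.1 (Mat.nv_mono pt.pH.posSemidef _)
      (Nat.cast_nonneg _))

/-! ### local calculus -/

variable {K A : V ι → Mat r} {u : V ι → V r} {z : V ι} {k : ι}

theorem dV_par (hA : DfR A z) (hu : DfV u z) {C : Mat r}
    (e : dR A k z + (1 / 2 : ℂ) • (C * A z - A z * C) = 0) :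
    dV (fun w => (1 - A w) *ᵥ u w) k z + (1 / 2 : ℂ) • C *ᵥ (1 - A z) *ᵥ u z =
      (1 - A z) *ᵥ (dV u k z + (1 / 2 : ℂ) • C *ᵥ u z) := by
  rw [dV_mulVec ((DfR.const 1).sub hA) hu, dR_sub (DfR.const 1) hA, dR_const,
    eq_neg_of_add_eq_zero_left e]
  simp only [mulVec_add, mulVec_smul, ← mulVec_mulVec, zero_sub, neg_neg, smul_mulVec, sub_mulVec,
    mulVec_sub, one_mulVec]
  module

theorem dVb_par (hA : DfR A z) (hu : DfV u z) {C : Mat r}
    (e : dRb A k z + (1 / 2 : ℂ) • (C * A z - A z * C) = 0) :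
    dVb (fun w => (1 - A w) *ᵥ u w) k z + (1 / 2 : ℂ) • C *ᵥ (1 - A z) *ᵥ u z =
      (1 - A z) *ᵥ (dVb u k z + (1 / 2 : ℂ) • C *ᵥ u z) := by
  rw [dVb_mulVec ((DfR.const 1).sub hA) hu, dRb_sub (DfR.const 1) hA, dRb_const,
    eq_neg_of_add_eq_zero_left e]
  simp only [mulVec_add, mulVec_smul, ← mulVec_mulVec, zero_sub, neg_neg, smul_mulVec, sub_mulVec,
    mulVec_sub, one_mulVec]
  module

end Pool.Agent.Lib.MP_813db1_ag.VH.St1a
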