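import Pool.Agent.Lib.MP_813db1_ag.VH.St7
import Pool.Agent.Lib.MP_813db1_ag.HS.Par
import Pool.Agent.Lib.MP_813db1_ag.HS.Par1

/-! Norms of endomorphisms. -/

namespace Pool.Agent.Lib.MP_813db1_ag.VH

open Pool.Agent.Lib.MP_813db1_ag.HS
open Complex Matrix Filter Topology Set
open scoped ContDiff ComplexOrder Kronecker

namespace Rg

variable {ι r : Type} [Fintype ι] [DecidableEq ι] [Fintype r] [DecidableEq r] {H A A' : Mat r}

theorem nE_vec (H A : Mat r) : nE H A = nV (Hᵀ ⊗ₖ H⁻¹) (vec A) := by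
  rw [nE, nV]
  congr 1
  simp only [ipE, ipV, trace, diag, mul_apply, Fintype.sum_prod_type, vec, kroneckerMap_apply,
    transpose_apply, conjTranspose_apply, Finset.sum_mul]
  refine Finset.sum_congr rfl fun i _ => ?_
  rw [Finset.sum_comm (s := Finset.univ) (t := Finset.univ) (f := fun j k => ∑ l,
    H k i * H⁻¹ j l * A i j * star (A k l))]
  refine Finset.sum_congr rfl fun k _ => ?_
  rw [Finset.sum_comm]
  exact Finset.sum_congr rfl fun j _ => Finset.sum_congr rfl fun l _ => by ring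

theorem nE_nn (hH : H.PosDef) (A : Mat r) : 0 ≤ nE H A :=
  nE_vec H A ▸ Mat.nv_mono (hH.transpose.kronecker hH.inv).posSemidef _

omit [Fintype r] [DecidableEq r] in
theorem bd_kr {L : ℝ} {B C : Mat r} (h : Bd L B) (h' : Bd L C) : Bd (L * L) (Bᵀ ⊗ₖ C) :=
  fun i j => by
    rw [kroneckerMap_apply, norm_mul]
    exact mul_le_mul (h _ _) (h' _ _) (norm_nonneg _) ((norm_nonneg _).trans (h i.1 i.1))

theorem nE_low (r : Type) [Fintype r] [DecidableEq r] (L : ℝ) : ∃ c > 0, ∀ H : Mat r, H.PosDef →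
    Bd L H → Bd L H⁻¹ → ∀ A, ‖vec A‖ ^ 2 ≤ c * nE H A := by
  obtain ⟨c, hc, h⟩ := Mat.nv (r × r) (L * L)
  refine ⟨c⁻¹, inv_pos.2 hc, fun H hH h1 h2 A => ?_⟩
  rw [le_inv_mul_iff₀ hc, nE_vec]
  refine (h _ (hH.transpose.kronecker hH.inv) (bd_kr h1 h2) ?_ _).1
  rw [inv_kronecker, ← transpose_nonsing_inv,
    nonsing_inv_nonsing_inv _ ((isUnit_iff_isUnit_det _).1 hH.isUnit)]
  exact bd_kr h2 h1

theorem nE_up (H A : Mat r) :
    √(nE H A) ≤ Fintype.card (r × r) * √(Par1.tot (Hᵀ ⊗ₖ H⁻¹)) * ‖vec A‖ := by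
  refine Real.sqrt_le_iff.2 ⟨by positivity, ?_⟩
  rw [nE_vec, mul_pow, mul_pow, Real.sq_sqrt (Par1.tot_nonneg _)]
  have := (le_abs_self _).trans (Mat.nv_le (Par1.bd_tot (Hᵀ ⊗ₖ H⁻¹)) (vec A))
  rwa [abs_of_nonneg (Par1.tot_nonneg _)] at this

theorem nE_conj {S : Mat r} (hS : IsUnit S.det) (H A : Mat r) :
    nE (Sᴴ * H * S) A = nE H (S * A * S⁻¹) := by
  have hT : IsUnit Sᴴ.det := by rw [det_conjTranspose]; exact hS.star
  rw [nE, nE, ipE, ipE, Matrix.mul_inv_rev, Matrix.mul_inv_rev, conjTranspose_mul,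
    conjTranspose_mul, conjTranspose_nonsing_inv, ← Matrix.mul_assoc _ _ S, trace_mul_comm _ S]
  simp only [Matrix.mul_assoc]

theorem nE_adj (hH : H.PosDef) (A : Mat r) : nE H (H⁻¹ * Aᴴ * H) = nE H A := by
  have u := (isUnit_iff_isUnit_det _).1 hH.isUnit
  rw [nE, nE, ipE, ipE, conjTranspose_mul, conjTranspose_mul, conjTranspose_conjTranspose,
    hH.1.eq, hH.inv.1.eq, mul_nonsing_inv_cancel_right _ _ u, Matrix.mul_assoc,
    Matrix.mul_assoc H, nonsing_inv_mul_cancel_right _ _ u, ← Matrix.mul_assoc, trace_mul_comm]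
  simp only [Matrix.mul_assoc]

theorem nE_smul (c : ℝ) (H A : Mat r) : nE H ((c : ℂ) • A) = c ^ 2 * nE H A := by
  simp only [nE, ipE, conjTranspose_smul, Matrix.smul_mul, Matrix.mul_smul, trace_smul, smul_eq_mul,
    star_def, conj_ofReal, re_ofReal_mul]
  ring

theorem nE_cont {T : Type} [TopologicalSpace T] {K F : T → Mat r} (h1 : Continuous K)
    (h2 : Continuous fun y => (K y)⁻¹) (h3 : Continuous F) : Continuous fun y => nE (K y) (F y) :=
  continuous_re.comp (((h3.matrix_mul h2).matrix_mul h3.matrix_conjTranspose).matrix_mul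
    h1).matrix_trace

omit [Fintype r] [DecidableEq r] in
theorem vec_inj (h : vec A = vec A') : A = A' := Matrix.ext fun i j => congrFun h (i, j)

omit [DecidableEq r] in
theorem bd_vec {L : ℝ} (h : ‖vec A‖ ≤ L) : Bd L A := fun i j =>
  (norm_le_pi_norm (vec A) (i, j)).trans h

omit [DecidableEq r] in
theorem kr_vec (a b A : Mat r) : (a ⊗ₖ bᵀ) *ᵥ vec A = vec (a * A * b) := by
  funext q
  simp only [mulVec, dotProduct, vec, Fintype.sum_prod_type, mul_apply, kroneckerMap_apply,
    transpose_apply, Finset.sum_mul]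
  rw [Finset.sum_comm]
  exact Finset.sum_congr rfl fun i _ => Finset.sum_congr rfl fun j _ => by ring

/-- the commutator as a matrix. -/
noncomputable def adM (a : Mat r) : Mat (r × r) := (1 / 2 : ℂ) • (a ⊗ₖ 1 - 1 ⊗ₖ aᵀ)

theorem adM_vec (a A : Mat r) : adM a *ᵥ vec A = vec ((1 / 2 : ℂ) • (a * A - A * a)) := by
  rw [adM, smul_mulVec, sub_mulVec]
  funext q
  simp [mulVec, dotProduct, vec, Fintype.sum_prod_type, mul_apply, one_apply, mul_comm]

omit [Fintype r] in
theorem adM_sm {a : V ι → Mat r} {z : V ι} (h : SmR a z) : SmR (fun w => adM (a w)) z :=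
  SmR.csmul _ fun i j => ((h i.1 j.1).mul contDiffAt_const).sub
    (contDiffAt_const.mul (h j.2 i.2))

theorem det_unif (r : Type) [Fintype r] [DecidableEq r] (t B : ℝ) {δ : ℝ} (hδ : 0 < δ) :
    ∃ C, ∀ H A A' : Mat r, H.PosDef → nE H A ≤ B → nE H A' ≤ B →
      |(1 + (t : ℂ) • A).det.re - (1 + (t : ℂ) • A').det.re| ≤ δ + |C| * √(nE H (A - A')) := by
  have c1 : Continuous fun q : ℝ × V (r × r) => (Matrix.of fun i j => q.2 (i, j) : Mat r) :=
    continuous_matrix fun i j => (continuous_apply (i, j)).comp continuous_snd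
  have c2 : Continuous fun q : ℝ × V (r × r) =>
      (1 + (t : ℂ) • (Matrix.of fun i j => q.2 (i, j) : Mat r)).det :=
    (continuous_const.add (c1.const_smul (t : ℂ))).matrix_det
  obtain ⟨C, hC⟩ := Par.unif (isCompact_singleton (x := (0 : ℝ)))
    (fun q : ℝ × V (r × r) => (1 + (t : ℂ) • (Matrix.of fun i j => q.2 (i, j) : Mat r)).det.re)
    (continuous_re.comp c2).continuousOn (√B) hδ
  refine ⟨C, fun H A A' hH h1 h2 => ?_⟩
  obtain ⟨S, -, hS, -, rfl, -⟩ := Mat.sim hH PosSemidef.zero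
  have k : ∀ A, ‖vec (S * A * S⁻¹)‖ ≤ √(nE (Sᴴ * S) A) := fun A => Real.le_sqrt_of_sq_le (by
    have := nE_conj hS 1 A
    rw [Matrix.mul_one] at this
    rw [this, nE_vec, inv_one, transpose_one, one_kronecker_one]
    exact Mat.nv_one _)
  have d : ∀ A : Mat r, (1 + (t : ℂ) • Matrix.of fun i j => vec (S * A * S⁻¹) (i, j)).det =
      (1 + (t : ℂ) • A).det := fun A => by
    rw [← det_conj ((isUnit_iff_isUnit_det _).2 hS) (1 + (t : ℂ) • A), Matrix.mul_add,
      Matrix.add_mul, Matrix.mul_one, mul_nonsing_inv _ hS, Matrix.mul_smul, Matrix.smul_mul]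
    rfl
  have := hC 0 rfl _ _ ((k A).trans (Real.sqrt_le_sqrt h1)) ((k A').trans (Real.sqrt_le_sqrt h2))
  simp only [d] at this
  refine this.trans (add_le_add le_rfl (mul_le_mul_of_nonneg_left (le_of_eq_of_le ?_ (k _))
    (abs_nonneg C)))
  rw [Matrix.mul_sub, Matrix.sub_mul]
  rfl

theorem fd_det {G : V ι → Mat r} {z : V ι} (hG : DfR G z) {a b : ι → Mat r}
    (h : ∀ k, dR G k z = G z * a k - a k * G z ∧ dRb G k z = G z * b k - b k * G z) :
    HasFDerivAt (fun w => (G w).det) (0 : V ι →L[ℝ] ℂ) z := by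
  have e := HasFDerivAt.fun_sum (u := Finset.univ) fun (σ : Equiv.Perm r) _ =>
    (HasFDerivAt.finsetProd (u := Finset.univ) fun i _ => (hG (σ i) i).hasFDerivAt).const_mul
      ((Equiv.Perm.sign σ : ℤ) : ℂ)
  simp only [det_apply']
  refine e.congr_fderiv (ContinuousLinearMap.ext fun v => ?_)
  have e2 : ∀ i, (adjugate (G z) * Matrix.of fun i j => fderiv ℝ (fun w => G w i j) z v) i i =
      ∑ σ : Equiv.Perm r, ((Equiv.Perm.sign σ : ℤ) : ℂ) *
        ((∏ j ∈ Finset.univ.erase i, G z (σ j) j) * fderiv ℝ (fun w => G w (σ i) i) z v) := by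
    intro i
    have := congrFun (cramer_eq_adjugate_mulVec (G z) fun r => fderiv ℝ (fun w => G w r i) z v) i
    rw [cramer_apply, det_apply'] at this
    refine this.symm.trans (Finset.sum_congr rfl fun σ _ => ?_)
    rw [← Finset.prod_erase_mul _ _ (Finset.mem_univ i), updateCol_self,
      Finset.prod_congr rfl fun j hj => updateCol_ne (Finset.ne_of_mem_erase hj)]
  have e3 : (Matrix.of fun i j => fderiv ℝ (fun w => G w i j) z v) =
      ∑ k, (v k • dR G k z + star (v k) • dRb G k z) := by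
    ext i j
    rw [of_apply, fderiv_eq_dz, Matrix.sum_apply]
    exact Finset.sum_congr rfl fun k _ => by simp [dR, dRb, mul_comm]
  have e4 : ∀ c : Mat r, trace (adjugate (G z) * (G z * c - c * G z)) = 0 := fun c => by
    rw [Matrix.mul_sub, trace_sub, ← Matrix.mul_assoc, adjugate_mul, ← Matrix.mul_assoc,
      trace_mul_cycle, mul_adjugate, sub_self]
  have e5 : trace (adjugate (G z) * Matrix.of fun i j => fderiv ℝ (fun w => G w i j) z v) = 0 := by
    rw [e3, Matrix.mul_sum, trace_sum]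
    exact Finset.sum_eq_zero fun k _ => by
      rw [Matrix.mul_add, trace_add, Matrix.mul_smul, Matrix.mul_smul, trace_smul, trace_smul,
        (h k).1, (h k).2, e4, e4, smul_zero, smul_zero, add_zero]
  simp only [trace, diag, e2] at e5
  rw [Finset.sum_comm] at e5
  simpa only [_root_.sum_apply, _root_.smul_apply, smul_eq_mul, Finset.mul_sum,
    _root_.zero_apply] using e5

theorem diag_le {g h ζ : Mat ι} (hg : g.PosDef) (hh : h.PosDef) (hζ : ζ.PosSemidef) (k : ι) :
    (ζ k k).re ≤ trm h ζ * (trm g h * (g k k).re) := by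
  have a := (Complex.nonneg_iff.1 ((Mat.le_trm hh hζ).diag_nonneg (i := k))).1
  have b := (Complex.nonneg_iff.1 ((Mat.le_trm hg hh.posSemidef).diag_nonneg (i := k))).1
  simp only [Matrix.sub_apply, Matrix.smul_apply, smul_eq_mul, sub_re, re_ofReal_mul] at a b
  nlinarith [Mat.trm_nonneg hh hζ]

omit [DecidableEq r] in
theorem ou_psd {h : Mat ι} (hh : h.PosDef) (hH : H.PosDef) (a : ι → V r) :
    (H * ou h H a a).PosSemidef := by
  have := hh.inv.transpose.posSemidef.mul_mul_conjTranspose_same (H * Matrix.of fun q i => a i q)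
  refine (show _ = H * ou h H a a from ?_) ▸ this
  symm
  rw [conjTranspose_mul, hH.1.eq, Matrix.mul_assoc, Matrix.mul_assoc, ← Matrix.mul_assoc _ _ H,
    ← Matrix.mul_assoc _ _ H, ou, tg]
  simp only [← Matrix.smul_mul, ← Matrix.sum_mul]
  congr 2
  ext p q
  simp only [Matrix.sum_apply, Matrix.smul_apply, vecMulVec_apply, mul_apply, of_apply,
    transpose_apply, conjTranspose_apply, Finset.mul_sum, smul_eq_mul, Pi.star_apply]
  exact Finset.sum_congr rfl fun i _ => Finset.sum_congr rfl fun j _ => by ring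

omit [DecidableEq r] in
theorem psd_closed : IsClosed {A : Mat r | A.PosSemidef} := by
  simp only [posSemidef_iff_dotProduct_mulVec, ofPred_and, ofPred_forall]
  exact (isClosed_eq continuous_id.matrix_conjTranspose continuous_id).inter
    (isClosed_iInter fun v => isClosed_le continuous_const
      (continuous_const.dotProduct (continuous_id.matrix_mulVec continuous_const)))

end Rg

end Pool.Agent.Lib.MP_813db1_ag.VH
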