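import Pool.Agent.Lib.MP_813db1_ag.VH.Cov
import Pool.Agent.Lib.MP_813db1_ag.HS.Par1
import Pool.Agent.Lib.MP_813db1_ag.HS.ParLim
import Pool.Agent.Lib.MP_813db1_ag.HS.Den

/-! Limits of almost parallel sections: local limits and their gluing. -/

namespace Pool.Agent.Lib.MP_813db1_ag.VH

open Pool.Agent.Lib.MP_813db1_ag.HS Pool.Agent.Lib.MP_813db1_ag.AS Pool.Agent.Lib.MP_813db1_ag.AS.F12
open MeasureTheory Complex Matrix Filter Topology Set
open scoped ContDiff ComplexOrder

namespace Rg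

variable {ι κ : Type} [Fintype ι] [DecidableEq ι] [Fintype κ]

omit [DecidableEq ι] in
theorem ex_gam (a b : ι → Mat κ) : ∃ Γ : V ι →L[ℝ] V κ →L[ℝ] V κ,
    ∀ v q, Γ v q = -∑ k, (v k • a k *ᵥ q + star (v k) • b k *ᵥ q) := by
  refine ⟨(LinearMap.mk₂ ℝ (fun (v : V ι) (q : V κ) =>
    -∑ k, (v k • a k *ᵥ q + star (v k) • b k *ᵥ q)) ?_ ?_ ?_ ?_).toContinuousBilinearMap,
    fun _ _ => rfl⟩
  · intro v w q
    simp only [Pi.add_apply, star_add, add_smul, Finset.sum_add_distrib]
    abel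
  · intro c v q
    simp only [Pi.smul_apply, star_smul, star_trivial, smul_assoc, smul_neg, Finset.smul_sum,
      smul_add]
  · intro v q q'
    simp only [mulVec_add, smul_add, Finset.sum_add_distrib]
    abel
  · intro c v q
    simp only [mulVec_smul, smul_neg, Finset.smul_sum, smul_add, smul_comm c]

omit [Fintype κ] in
theorem fd_vec {x : V ι → V κ} {z : V ι} (h : DfV x z) (v : V ι) :
    fderiv ℝ x z v = ∑ k, (v k • dV x k z + star (v k) • dVb x k z) := by
  funext i
  have e : fderiv ℝ x z v i = fderiv ℝ (fun w => x w i) z v :=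
    (congrArg (· v) (fderiv_apply (differentiableAt_pi.2 h) i)).symm
  rw [e, fderiv_eq_dz, Finset.sum_apply]
  exact Finset.sum_congr rfl fun k _ => by simp [dV, dVb, mul_comm]

/-- the local limit. -/
theorem locV {U : Set (V ι)} (hU : IsOpen U) {a b : ι → V ι → Mat κ} {m : ℕ → V ι → V κ}
    {c : ℕ → V ι → ℝ} (𝒰 : Ultrafilter ℕ) (ha : ∀ z ∈ U, ∀ k, SmR (a k) z ∧ SmR (b k) z)
    (hm : ∀ j, ∀ z ∈ U, SmV (m j) z ∧ ContDiffAt ℝ ∞ (fun w => (c j w : ℂ)) z ∧ 0 ≤ c j z ∧
      c j z ≤ 1)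
    (hK : ∀ K, IsCompact K → K ⊆ U → (∃ L, ∀ j, ∀ z ∈ K, ‖m j z‖ ≤ L) ∧
      Tendsto (fun j => ∫ z in K, (1 - c j z)) 𝒰 (𝓝 0) ∧ ∀ k,
      Tendsto (fun j => ∫ z in K, ‖dz (fun w => (c j w : ℂ)) k z‖) 𝒰 (𝓝 0) ∧
      Tendsto (fun j => ∫ z in K, c j z * ‖dV (m j) k z + a k z *ᵥ m j z‖) 𝒰 (𝓝 0) ∧
      Tendsto (fun j => ∫ z in K, c j z * ‖dVb (m j) k z + b k z *ᵥ m j z‖) 𝒰 (𝓝 0)) :
    ∃ f : V ι → V κ, (∀ z ∈ U, SmV f z ∧ ∀ k, dV f k z + a k z *ᵥ f z = 0 ∧
      dVb f k z + b k z *ᵥ f z = 0) ∧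
      ∀ K, IsCompact K → K ⊆ U → Tendsto (fun j => ∫ z in K, ‖m j z - f z‖) 𝒰 (𝓝 0) := by
  choose Γ hΓ using fun z => ex_gam (fun k => a k z) fun k => b k z
  have cs : ∀ j, ∀ z ∈ U, SmV (fun w => (c j w : ℂ) • m j w) z := fun j z hz =>
    (hm j z hz).1.smul (hm j z hz).2.1
  have cc : ∀ j, ContinuousOn (c j) U := fun j z hz =>
    (contDiffAt_ofReal.1 (hm j z hz).2.1).continuousAt.continuousWithinAt
  have cv : ∀ {x : V ι → V κ}, (∀ z ∈ U, SmV x z) → ContinuousOn (fun z => ‖x z‖) U :=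
    fun h z hz => (smV_iff.1 (h z hz)).continuousAt.norm.continuousWithinAt
  obtain ⟨f, p1, p2, p3⟩ := parLim ι κ U Γ (fun j w => (c j w : ℂ) • m j w) 𝒰 hU
    (contDiffOn_clm_apply.2 fun v => contDiffOn_clm_apply.2 fun q z hz => by
      simp only [hΓ]
      exact (smV_iff.1 (SmV.sum _ fun k _ => (((ha z hz k).1.mulVec (SmV.const q)).csmul _).add
        (((ha z hz k).2.mulVec (SmV.const q)).csmul _)).neg).contDiffWithinAt)
    (fun j z hz => ((smV_iff.1 (cs j z hz)).of_le (by simp)).contDiffWithinAt)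
    (fun K h1 h2 => (hK K h1 h2).1.imp fun L hL j z hz => by
      rw [norm_smul, norm_real, Real.norm_of_nonneg (hm j z (h2 hz)).2.2.1]
      exact (mul_le_of_le_one_left (norm_nonneg _) (hm j z (h2 hz)).2.2.2).trans (hL j z hz))
    fun K h1 h2 v => by
      obtain ⟨⟨L, hL⟩, -, t⟩ := hK K h1 h2
      have i1 : ∀ j k, IntegrableOn (fun z => ‖dz (fun w => (c j w : ℂ)) k z‖) K := fun j k =>
        ContinuousOn.integrableOn_compact h1 fun z hz =>
          (contDiffAt_dz_top (hm j z (h2 hz)).2.1 k).continuousAt.norm.continuousWithinAt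
      have i2 : ∀ j k, IntegrableOn (fun z => c j z * ‖dV (m j) k z + a k z *ᵥ m j z‖) K :=
        fun j k => (((cc j).mul (cv fun z hz => ((hm j z hz).1.dV k).add
          ((ha z hz k).1.mulVec (hm j z hz).1))).mono h2).integrableOn_compact h1
      have i3 : ∀ j k, IntegrableOn (fun z => c j z * ‖dVb (m j) k z + b k z *ᵥ m j z‖) K :=
        fun j k => (((cc j).mul (cv fun z hz => ((hm j z hz).1.dVb k).add
          ((ha z hz k).2.mulVec (hm j z hz).1))).mono h2).integrableOn_compact h1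
      have t' := (tendsto_finsetSum Finset.univ fun k _ =>
        (((t k).1.const_mul (2 * L)).add (t k).2.1).add (t k).2.2).const_mul ‖v‖
      simp only [mul_zero, add_zero, Finset.sum_const_zero] at t'
      refine squeeze_zero (fun j => integral_nonneg fun z => norm_nonneg _) (fun j => ?_) t'
      have i4 := fun k => (((i1 j k).const_mul (2 * L)).add (i2 j k)).add (i3 j k)
      refine (integral_mono_of_nonneg (ae_of_all _ fun z => norm_nonneg _)
        ((integrable_finsetSum Finset.univ fun k _ => i4 k).const_mul ‖v‖)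
        ((ae_restrict_iff' h1.measurableSet).2 (ae_of_all _ fun z hz => ?_))).trans_eq ?_
      · obtain ⟨d1, d2, d3, -⟩ := hm j z (h2 hz)
        have re : dzb (fun w => (c j w : ℂ)) = fun k z => star (dz (fun w => (c j w : ℂ)) k z) :=
          funext fun k => funext fun z => dzb_real (Eventually.of_forall fun w => conj_ofReal _) k
        beta_reduce
        rw [fd_vec (cs j z (h2 hz)).df, hΓ, sub_neg_eq_add, ← Finset.sum_add_distrib, Finset.mul_sum]
        refine (norm_sum_le _ _).trans (Finset.sum_le_sum fun k _ => ?_)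
        rw [dV_smul (sm_df d2) d1.df, dVb_smul (sm_df d2) d1.df, re, mulVec_smul, mulVec_smul]
        have e : ∀ (x y : ℂ) (u d e A B : V κ), v k • (x • u + y • d) + star (v k) • (star x • u + y • e) +
            (v k • y • A + star (v k) • y • B) =
            v k • (x • u + y • (d + A)) + star (v k) • (star x • u + y • (e + B)) := by
          intros
          module
        rw [e]
        have n1 := norm_le_pi_norm v k
        have n2 := mul_le_mul_of_nonneg_left (hL j z hz) (norm_nonneg (dz (fun w => (c j w : ℂ)) k z))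
        have n3 : ∀ (x y : ℂ) (W : V κ), ‖x‖ ≤ ‖v‖ → ‖y‖ = ‖dz (fun w => (c j w : ℂ)) k z‖ →
            ‖x • (y • m j z + (c j z : ℂ) • W)‖ ≤
              ‖v‖ * (‖dz (fun w => (c j w : ℂ)) k z‖ * L + c j z * ‖W‖) := fun x y W hx hy => by
          rw [norm_smul]
          refine mul_le_mul hx ((norm_add_le _ _).trans ?_) (norm_nonneg _) (norm_nonneg _)
          rw [norm_smul, norm_smul, hy, norm_real, Real.norm_of_nonneg d3]
          linarith
        refine (norm_add_le _ _).trans ((add_le_add (n3 _ _ _ n1 rfl)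
          (n3 _ _ _ ((norm_star _).trans_le n1) (norm_star _))).trans_eq ?_)
        simp only [Pi.add_apply]
        ring
      · rw [integral_const_mul, integral_finsetSum _ fun k _ => i4 k]
        congr 1
        refine Finset.sum_congr rfl fun k _ => ?_
        rw [← integral_const_mul, ← integral_add ((i1 j k).const_mul _) (i2 j k)]
        exact integral_add (((i1 j k).const_mul _).add (i2 j k)) (i3 j k)
  have sf : ∀ z ∈ U, SmV f z := fun z hz => smV_iff.2 (p1.contDiffAt (hU.mem_nhds hz))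
  refine ⟨f, fun z hz => ⟨sf z hz, fun k => ?_⟩, fun K h1 h2 => ?_⟩
  · have e : ∀ x : ℂ, x • (dV f k z + a k z *ᵥ f z) + star x • (dVb f k z + b k z *ᵥ f z) = 0 := by
      intro x
      have := p2 z hz (Pi.single k x)
      rw [fd_vec (sf z hz).df, hΓ, eq_neg_iff_add_eq_zero, ← Finset.sum_add_distrib,
        Finset.sum_eq_single k (fun l _ h => by simp [Pi.single_eq_of_ne h]) (by simp),
        Pi.single_eq_same] at this
      rw [← this]
      module
    have e1 := e 1
    have e2 := e I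
    rw [star_one, one_smul, one_smul, ← eq_neg_iff_add_eq_zero] at e1
    rw [e1, star_I, smul_neg, neg_smul, ← neg_add, ← add_smul, neg_eq_zero,
      smul_eq_zero_iff_right (by simp [← two_mul])] at e2
    exact ⟨by rw [e1, e2, neg_zero], e2⟩
  · obtain ⟨⟨L, hL⟩, t, -⟩ := hK K h1 h2
    have i1 : ∀ j, IntegrableOn (fun z => ‖(c j z : ℂ) • m j z - f z‖) K := fun j =>
      ((cv fun z hz => (cs j z hz).sub (sf z hz)).mono h2).integrableOn_compact h1
    have i2 : ∀ j, IntegrableOn (fun z => 1 - c j z) K := fun j =>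
      ((continuousOn_const.sub (cc j)).mono h2).integrableOn_compact h1
    have t' := (p3 K h1 h2).add (t.const_mul L)
    rw [mul_zero, add_zero] at t'
    refine squeeze_zero (fun j => integral_nonneg fun z => norm_nonneg _) (fun j => ?_) t'
    rw [← integral_const_mul, ← integral_add (i1 j) ((i2 j).const_mul _)]
    refine integral_mono_of_nonneg (ae_of_all _ fun z => norm_nonneg _)
      ((i1 j).add ((i2 j).const_mul _))
      ((ae_restrict_iff' h1.measurableSet).2 (ae_of_all _ fun z hz => ?_))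
    have c1 := sub_nonneg.2 (hm j z (h2 hz)).2.2.2
    have e : m j z - f z = ((c j z : ℂ) • m j z - f z) + ((1 - c j z : ℝ) : ℂ) • m j z := by
      push_cast
      module
    change ‖m j z - f z‖ ≤ _
    rw [e]
    refine (norm_add_le _ _).trans (add_le_add le_rfl ?_)
    rw [norm_smul, norm_real, Real.norm_of_nonneg c1, mul_comm]
    exact mul_le_mul_of_nonneg_right (hL j z hz) c1

variable {X Y : Type} [TopologicalSpace X] [TopologicalSpace Y] [MeasurableSpace X] {M : Atl ι X}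
  {p : Y → X} {g : X → Mat ι} {μ : Measure X} {e e' : Ch ι X} {U U' : Set (V ι)}
  {𝒰 : Filter ℕ}

theorem tr3 (hv : VolA' M g μ) (hg : M.IsK g) (he : e ∈ M.A) {ψ : ℕ → V ι → ℝ}
    (hU : U ⊆ e.target) (hc : ∀ n, ContinuousOn (ψ n) U) (h0 : ∀ n z, 0 ≤ ψ n z)
    (t : ∀ S, IsCompact S → S ⊆ U → Tendsto (fun n => ∫ z in S, ψ n z) 𝒰 (𝓝 0))
    {K : Set X} (hK : IsCompact K) (hKU : K ⊆ e.source ∩ e ⁻¹' U) :
    Tendsto (fun n => ∫ x in K, ψ n (e x) ∂μ) 𝒰 (𝓝 0) := by
  have hS : IsCompact (e '' K) :=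
    hK.image_of_continuousOn (e.continuousOn.mono fun x hx => (hKU hx).1)
  have hSU : e '' K ⊆ U := by
    rintro _ ⟨x, hx, rfl⟩
    exact (hKU hx).2
  have eK : e.source ∩ e ⁻¹' (e '' K) = K := Subset.antisymm
    (fun x ⟨h1, y, h2, h3⟩ => e.injOn (hKU h2).1 h1 h3 ▸ h2) fun x hx => ⟨(hKU hx).1, x, hx, rfl⟩
  obtain ⟨C, hC⟩ := hS.exists_bound_of_continuousOn ((Par1.cdet hg he).mono (hSU.trans hU))
  have t' := (t _ hS hSU).const_mul C
  rw [mul_zero] at t'
  refine squeeze_zero (fun n => integral_nonneg fun x => h0 n _) (fun n => ?_) t'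
  have := hv.intR e he _ hS.measurableSet (hSU.trans hU) fun x => ψ n (e x)
  rw [eK] at this
  rw [this, ← integral_const_mul]
  refine integral_mono_of_nonneg ((ae_restrict_iff' hS.measurableSet).2 (ae_of_all _ fun z hz =>
    mul_nonneg (Mat.det' ((hg e he).2 z (hU (hSU hz)))).1.le (h0 n _)))
    ((((hc n).mono hSU).integrableOn_compact hS).const_mul C)
    ((ae_restrict_iff' hS.measurableSet).2 (ae_of_all _ fun z hz => ?_))
  change _ * ψ n (e (e.symm z)) ≤ _
  rw [e.right_inv (hU (hSU hz))]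
  exact mul_le_mul_of_nonneg_right ((le_abs_self _).trans (hC z hz)) (h0 n _)

/-- `f` is the limit of the functions `m j` on the sheet `s` over `U`. -/
structure LimAt (M : Atl ι X) (p : Y → X) (𝒰 : Filter ℕ) (m : ℕ → Y → V κ) (e : Ch ι X)
    (U : Set (V ι)) (s : V ι → Y) (f : V ι → V κ) : Prop where
  he : e ∈ M.A
  opn : IsOpen U
  sub : U ⊆ e.target
  sec : ∀ w ∈ U, Sec p e w s
  cont : ContinuousOn f U
  lim : ∀ K, IsCompact K → K ⊆ U → Tendsto (fun j => ∫ z in K, ‖m j (s z) - f z‖) 𝒰 (𝓝 0)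

variable {m : ℕ → Y → V κ} {s s' : V ι → Y} {f f' : V ι → V κ}

omit [DecidableEq ι] [MeasurableSpace X] in
theorem LimAt.cn (h : LimAt M p 𝒰 m e U s f) (hm : ∀ j, Continuous (m j)) (j : ℕ) :
    ContinuousOn (fun z => ‖m j (s z) - f z‖) U :=
  (((hm j).comp_continuousOn fun z hz => (h.sec z hz).1.continuousWithinAt).sub h.cont).norm

omit [MeasurableSpace X] in
theorem LimAt.smul {G : Type} [Group G] [MulAction G Y] (hq : IsQuotientCoveringMap p G)
    (h : LimAt M p 𝒰 m e U s f) (hm : ∀ j, Continuous (m j)) (γ : G) (R : V κ →L[ℂ] V κ)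
    (hR : ∀ j y, m j (γ • y) = R (m j y)) :
    LimAt M p 𝒰 m e U (fun w => γ • s w) fun w => R (f w) :=
  ⟨h.he, h.opn, h.sub, fun w hw => (h.sec w hw).smul hq γ, R.continuous.comp_continuousOn h.cont,
    fun K h1 h2 => by
      have t := (h.lim K h1 h2).const_mul ‖R‖
      rw [mul_zero] at t
      refine squeeze_zero (fun j => integral_nonneg fun z => norm_nonneg _) (fun j => ?_) t
      rw [← integral_const_mul]
      refine integral_mono_of_nonneg (ae_of_all _ fun z => norm_nonneg _)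
        ((((h.cn hm j).mono h2).integrableOn_compact h1).const_mul _) (ae_of_all _ fun z => ?_)
      beta_reduce
      rw [hR, ← map_sub]
      exact R.le_opNorm _⟩

variable [T2Space X] [CompactSpace X] [BorelSpace X]

theorem LimAt.uniq [𝒰.NeBot] (hp : IsLocalHomeomorph p) (hg : M.IsK g) (hμ : M.IsVol g μ)
    (hm : ∀ j, Continuous (m j)) (h : LimAt M p 𝒰 m e U s f) (h' : LimAt M p 𝒰 m e' U' s' f')
    {z z' : V ι} (hz : z ∈ U) (hz' : z' ∈ U') (q : s z = s' z') : f z = f' z' := by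
  have W := (AY.volS' ι X M g hg).2 μ hμ
  have := W.fin
  have := W.pos
  have T : Two M p e z s e' z' s' := ⟨h.he, h.sub hz, h.sec z hz, h'.he, h'.sub hz', h'.sec _ hz', q⟩
  have c := e.continuousAt (e.map_target T.hz)
  rw [ContinuousAt, e.right_inv T.hz] at c
  have c' := e'.continuousAt T.src
  rw [ContinuousAt, show e' (e.symm z) = z' from T.pt] at c'
  obtain ⟨O, h1, h2, h3⟩ := _root_.mem_nhds_iff.1 ((((c.eventually (T.ev hp)).and
    (c.eventually (h.opn.mem_nhds hz))).and (c'.eventually (h'.opn.mem_nhds hz'))).and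
    ((e.open_source.inter e'.open_source).mem_nhds ⟨e.map_target T.hz, T.src⟩))
  have u1 : ContinuousOn e O := e.continuousOn.mono fun x hx => (h1 hx).2.1
  have u2 : ContinuousOn e' O := e'.continuousOn.mono fun x hx => (h1 hx).2.2
  have m1 : MapsTo e O U := fun x hx => (h1 hx).1.1.2
  have m2 : MapsTo e' O U' := fun x hx => (h1 hx).1.2
  have := Par1.lim0 (ν := μ) (𝒰 := 𝒰) h2 (F := fun x => ‖f (e x) - f' (e' x)‖)
    ((h.cont.comp u1 m1).sub (h'.cont.comp u2 m2)).norm (fun K k1 k2 => by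
      have i1 := fun j => (((h.cn hm j).comp u1 m1).mono k2).integrableOn_compact (μ := μ) k1
      have i2 := fun j => (((h'.cn hm j).comp u2 m2).mono k2).integrableOn_compact (μ := μ) k1
      refine ⟨fun j x => ‖m j (s (e x)) - f (e x)‖ + ‖m j (s' (e' x)) - f' (e' x)‖,
        fun j => ⟨(i1 j).add (i2 j), fun x hx => ?_⟩, ?_⟩
      · have a := (h1 (k2 hx)).1.1.1
        simp only [Function.comp_apply, e.left_inv (h1 (k2 hx)).2.1] at a
        beta_reduce
        rw [a, norm_sub_rev _ (f (e x))]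
        exact norm_sub_le_norm_sub_add_norm_sub _ _ _
      · have := (tr3 W hg h.he h.sub (h.cn hm) (fun _ _ => norm_nonneg _) h.lim k1
          fun x hx => ⟨(h1 (k2 hx)).2.1, m1 (k2 hx)⟩).add (tr3 W hg h'.he h'.sub (h'.cn hm)
            (fun _ _ => norm_nonneg _) h'.lim k1 fun x hx => ⟨(h1 (k2 hx)).2.2, m2 (k2 hx)⟩)
        rw [add_zero] at this
        exact this.congr fun j => (integral_add (i1 j) (i2 j)).symm) _ h3
  rwa [e.right_inv T.hz, show e' (e.symm z) = z' from T.pt, norm_le_zero_iff, sub_eq_zero] at this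

/-- the global limit. -/
theorem glueV [𝒰.NeBot] {G : Type} [Group G] [MulAction G Y] (hq : IsQuotientCoveringMap p G)
    (hg : M.IsK g) (hμ : M.IsVol g μ) (hm : ∀ j, Continuous (m j)) (R : G → V κ →L[ℂ] V κ)
    (hR : ∀ γ j y, m j (γ • y) = R γ (m j y))
    {P : Ch ι X → V ι → (V ι → Y) → (V ι → V κ) → Prop}
    (hP : ∀ e z s f f', f =ᶠ[𝓝 z] f' → P e z s f → P e z s f')
    (h : ∀ e ∈ M.A, ∀ U s, IsOpen U → U ⊆ e.target → (∀ w ∈ U, Sec p e w s) →
      ∃ f, LimAt M p 𝒰 m e U s f ∧ ∀ z ∈ U, P e z s f) :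
    ∃ m0 : Y → V κ, (Loc M p fun e z s => P e z s (m0 ∘ s)) ∧
      (∀ γ y, m0 (γ • y) = R γ (m0 y)) ∧ ∀ (C : Y → ℝ) (N : ℕ → X → ℝ), Continuous C →
        (∀ j y, 0 ≤ N j (p y) ∧ N j (p y) ≤ C y * ‖m j y - m0 y‖) → (∀ j, Continuous (N j)) →
        Tendsto (fun j => ∫ x, N j x ∂μ) 𝒰 (𝓝 0) := by
  have hp := lh hq
  have W := (AY.volS' ι X M g hg).2 μ hμ
  have := W.fin
  have k : ∀ e ∈ M.A, ∀ z ∈ e.target, ∀ s, Sec p e z s → ∃ U f, z ∈ U ∧
      LimAt M p 𝒰 m e U s f ∧ ∀ w ∈ U, P e w s f := fun e he z hz s hs => by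
    obtain ⟨U, h1, h2, h3⟩ := _root_.mem_nhds_iff.1 ((hs.ev hp hz).and (e.open_target.mem_nhds hz))
    obtain ⟨f, hf⟩ := h e he U s h2 (fun w hw => (h1 hw).2) fun w hw => (h1 hw).1
    exact ⟨U, f, h3, hf⟩
  choose U f h1 h2 h3 using fun y => k _ (M.ch_mem (p y)) _ ((M.ch _).map_source (M.mem _)) _
    (sh_self hp (M.mem (p y))).1
  have k2 : ∀ {e U' s f'}, LimAt M p 𝒰 m e U' s f' → ∀ w ∈ U',
      f (s w) (M.ch (p (s w)) (p (s w))) = f' w := fun a w hw =>
    (h2 _).uniq hp hg hμ hm a (h1 _) hw (sh_self hp (M.mem _)).2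
  refine ⟨fun y => f y (M.ch (p y) (p y)), fun e he z hz s hs => ?_, fun γ y => ?_,
    fun C N hC hN cN => ?_⟩
  · obtain ⟨U', f', a1, a2, a3⟩ := k e he z hz s hs
    exact hP _ _ _ _ _ (mem_of_superset (a2.opn.mem_nhds a1) fun w hw => (k2 a2 w hw).symm)
      (a3 z a1)
  · have := k2 ((h2 y).smul hq hm γ (R γ) (hR γ)) _ (h1 y)
    rwa [(sh_self hp (M.mem (p y))).2] at this
  · choose σ hσ using hq.surjective
    have k3 : ∀ x, ∃ K, IsCompact K ∧ x ∈ interior K ∧
        Tendsto (fun j => ∫ x in K, N j x ∂μ) 𝒰 (𝓝 0) := fun x => by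
      have a := h2 (σ x)
      obtain ⟨K, b1, b2, b3⟩ := exists_compact_subset
        ((M.ch (p (σ x))).isOpen_inter_preimage a.opn) (x := x)
          ⟨by simpa only [hσ] using M.mem x, by simpa only [hσ, mem_preimage] using h1 (σ x)⟩
      refine ⟨K, b1, b2, ?_⟩
      set e := M.ch (p (σ x))
      set s := sh hp (σ x) e
      have u1 : ContinuousOn e K := e.continuousOn.mono fun x hx => (b3 hx).1
      have m1 : MapsTo e K (U (σ x)) := fun x hx => (b3 hx).2
      obtain ⟨L, hL⟩ := b1.exists_bound_of_continuousOn (hC.comp_continuousOn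
        (ContinuousOn.comp (fun z hz => (a.sec z hz).1.continuousWithinAt) u1 m1))
      have t := (tr3 W hg a.he a.sub (a.cn hm) (fun _ _ => norm_nonneg _) a.lim b1 b3).const_mul L
      rw [mul_zero] at t
      refine squeeze_zero (fun j => integral_nonneg fun x => hσ x ▸ (hN j _).1) (fun j => ?_) t
      rw [← integral_const_mul]
      refine setIntegral_mono_on (Den.intg (cN j)).integrableOn
        ((((a.cn hm j).comp u1 m1).integrableOn_compact b1).const_mul _) b1.measurableSet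
        fun x' hx' => ?_
      have := (hN j (s (e x'))).2
      beta_reduce at this
      rw [k2 a _ (m1 hx'), sec_pt (a.sec _ (m1 hx')), e.left_inv (b3 hx').1] at this
      exact this.trans (mul_le_mul_of_nonneg_right ((le_abs_self _).trans (hL x' hx'))
        (norm_nonneg _))
    choose K b1 b2 b3 using k3
    obtain ⟨T, hT⟩ := isCompact_univ.elim_finite_subcover (fun x => interior (K x))
      (fun _ => isOpen_interior) fun x _ => mem_iUnion.2 ⟨x, b2 x⟩
    have t := tendsto_finsetSum T fun x _ => b3 x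
    rw [Finset.sum_const_zero] at t
    have n0 : ∀ j x, 0 ≤ N j x := fun j x => hσ x ▸ (hN j _).1
    refine squeeze_zero (fun j => integral_nonneg (n0 j)) (fun j => ?_) t
    simp only [← integral_indicator (b1 _).measurableSet]
    rw [← integral_finsetSum _ fun x _ => (Den.intg (cN j)).indicator (b1 x).measurableSet]
    refine integral_mono (Den.intg (cN j)) (integrable_finsetSum _ fun x _ =>
      (Den.intg (cN j)).indicator (b1 x).measurableSet) fun x => ?_
    obtain ⟨a, ha, hx⟩ := mem_iUnion₂.1 (hT (mem_univ x))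
    refine le_trans ?_ (Finset.single_le_sum (f := fun a => (K a).indicator (N j) x)
      (fun a _ => indicator_nonneg (fun x _ => n0 j x) x) ha)
    rw [indicator_of_mem (interior_subset hx)]

end Rg

end Pool.Agent.Lib.MP_813db1_ag.VH
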