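import Pool.Agent.Lib.MP_813db1_ag.VH.RgA
import Pool.Agent.Lib.MP_813db1_ag.VH.RgL

/-! Limits of almost parallel endomorphisms. -/

namespace Pool.Agent.Lib.MP_813db1_ag.VH

open Pool.Agent.Lib.MP_813db1_ag.HS Pool.Agent.Lib.MP_813db1_ag.AS Pool.Agent.Lib.MP_813db1_ag.AS.F12
open MeasureTheory Complex Matrix Filter Topology Set
open scoped ContDiff ComplexOrder Kronecker

namespace Rg

variable {ι X Y G r : Type} [Fintype ι] [DecidableEq ι] [TopologicalSpace X] [TopologicalSpace Y]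
  [Group G] [MulAction G Y] [Fintype r] [DecidableEq r] {M : Atl ι X} {p : Y → X}
  {D : Dt M p G r} {F : Y → Mat r} {e : Ch ι X} {z : V ι} {s : V ι → Y}

theorem bar (hF : D.Se F) (he : e ∈ M.A) (hz : z ∈ e.target) (hs : Sec p e z s) (k : ι) :
    dRb (F ∘ s) k z + (1 / 2 : ℂ) • (cb (D.H ∘ s) k z * F (s z) - F (s z) * cb (D.H ∘ s) k z) =
      (D.H (s z))⁻¹ * (nF (D.H ∘ s) (F ∘ s) z k)ᴴ * D.H (s z) := by
  have h1 := (D.sm e he z hz s hs).df
  have h2 := (hF.sm e he z hz s hs).df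
  have u := (D.det_ne (s z)).isUnit
  have e1 : dRb (fun w => (D.H ∘ s) w * (F ∘ s) w) k z =
      dRb (fun w => ((F ∘ s) w)ᴴ * (D.H ∘ s) w) k z :=
    dRb_congr (Eventually.of_forall fun w => hF.sa _) k
  rw [dRb_mul h1 h2, dRb_mul h2.conjT h1, dRb_conjT, ← mul_cb (H := D.H ∘ s) (D.det_ne _)] at e1
  have e2 : (ca (D.H ∘ s) k z)ᴴ * D.H (s z) = D.H (s z) * cb (D.H ∘ s) k z := by
    rw [conjTranspose, transpose_map, D.ca_conj, D.cb_sym]
  have e3 := hF.sa (s z)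
  simp only [Function.comp_apply] at e1
  rw [← Matrix.mul_assoc, ← e3] at e1
  have e4 : (nF (D.H ∘ s) (F ∘ s) z k)ᴴ * D.H (s z) = D.H (s z) * (dRb (F ∘ s) k z +
      (1 / 2 : ℂ) • (cb (D.H ∘ s) k z * F (s z) - F (s z) * cb (D.H ∘ s) k z)) := by
    rw [nF, conjTranspose_add, conjTranspose_smul, conjTranspose_sub, conjTranspose_mul,
      conjTranspose_mul, Matrix.add_mul, Matrix.smul_mul, Matrix.sub_mul, Matrix.mul_assoc,
      Matrix.mul_assoc, e2, Function.comp_apply, ← e3, ← Matrix.mul_assoc, ← e3,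
      ← Matrix.mul_assoc, e2, eq_sub_of_add_eq e1.symm]
    simp only [Matrix.mul_add, Matrix.mul_smul, Matrix.mul_sub, Matrix.mul_assoc, star_div₀,
      star_one, star_ofNat]
    module
  rw [Matrix.mul_assoc, e4, nonsing_inv_mul_cancel_left _ _ u]

omit [Group G] [MulAction G Y] [Fintype r] [DecidableEq r] in
theorem smH_cont (hp : IsLocalHomeomorph p) (h : SmH M p F) : Continuous F :=
  continuous_matrix fun i j => Sm.cont (M := M) hp fun e he z hz s hs => h e he z hz s hs i j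

theorem inv_cont (hp : IsLocalHomeomorph p) (D : Dt M p G r) : Continuous fun y => (D.H y)⁻¹ :=
  smH_cont hp fun e he z hz s hs => (D.sm e he z hz s hs).inv (D.det_ne _)

theorem nE_eqv (D : Dt M p G r) (γ : G) (y : Y) (A : Mat r) :
    nE (D.H (γ • y)) (D.ρ γ * A * D.ρ γ⁻¹) = nE (D.H y) A := by
  have u : IsUnit (D.ρ γ⁻¹).det := isUnit_det_of_left_inverse (D.mul_inv γ)
  have e : (D.ρ γ⁻¹)ᵀ = (D.ρ γ⁻¹)ᴴ := by rw [conjTranspose, transpose_map, D.reR]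
  rw [D.eqv, e, nE_conj u, ← Matrix.mul_assoc, mul_nonsing_inv_cancel_right _ _ u,
    ← Matrix.mul_assoc, D.inv_mul, Matrix.one_mul]

variable [T2Space X] [CompactSpace X] [MeasurableSpace X] [BorelSpace X] {g : X → Mat ι}
  {μ : Measure X}

/-- a sequence of almost parallel endomorphisms. -/
structure Sq (D : Dt M p G r) (g : X → Mat ι) (μ : Measure X) (h : ℕ → X → Mat ι)
    (m : ℕ → Y → Mat r) (χ q : ℕ → X → ℝ) (B : ℝ) (𝒰 : Filter ℕ) : Prop where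
  kg : M.IsK g
  vol : M.IsVol g μ
  kh : ∀ j, M.IsK (h j)
  se : ∀ j, D.Se (m j)
  bd : ∀ j y, nE (D.H y) (m j y) ≤ B
  tr : ∀ j, ∫ x, trm (g x) (h j x) ∂μ ≤ B
  ck : ∀ j, M.Ck ∞ (χ j)
  cq : ∀ j, Continuous (q j)
  nn : ∀ j x, 0 ≤ χ j x ∧ χ j x ≤ 1 ∧ 0 ≤ q j x
  le : ∀ j, Loc M p fun e z s =>
    trm (M.repF (h j) e z) (grE (D.H (s z)) (nF (D.H ∘ s) (m j ∘ s) z)) ≤ q j (e.symm z)
  t1 : Tendsto (fun j => ∫ x, (1 - χ j x) ∂μ) 𝒰 (𝓝 0)
  t2 : Tendsto (fun j => ∫ x, M.grad g (χ j) (χ j) x ∂μ) 𝒰 (𝓝 0)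
  t3 : Tendsto (fun j => ∫ x, χ j x * q j x ∂μ) 𝒰 (𝓝 0)

variable {h : ℕ → X → Mat ι} {m : ℕ → Y → Mat r} {χ q : ℕ → X → ℝ} {B : ℝ}

omit [Group G] [MulAction G Y] [Fintype r] [DecidableEq r] [TopologicalSpace X] [T2Space X]
  [CompactSpace X] [MeasurableSpace X] [BorelSpace X] in
theorem vec_cont {f : Y → Mat r} (hf : Continuous f) : Continuous fun y => vec (f y) :=
  continuous_pi fun u => hf.matrix_elem u.1 u.2

omit [T2Space X] [CompactSpace X] [BorelSpace X] in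
theorem Sq.pt {𝒰 : Filter ℕ} (S : Sq D g μ h m χ q B 𝒰) (hN : AlgN) (he : e ∈ M.A)
    (hz : z ∈ e.target) (hs : Sec p e z s) {L : ℝ} (hL : Bd L (M.repF g e z)) (j : ℕ) (k : ι) :
    nE (D.H (s z)) (nF (D.H ∘ s) (m j ∘ s) z k) ≤
      q j (e.symm z) * (trm (g (e.symm z)) (h j (e.symm z)) * |L|) := by
  have A := AY.repA' ι X M
  have a4 := Mat.trm_nonneg (((A.isK_iff g).1 S.kg).2 (e.symm z))
    (((A.isK_iff _).1 (S.kh j)).2 (e.symm z)).posSemidef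
  have a6 := diag_le ((S.kg e he).2 z hz) ((S.kh j e he).2 z hz)
    ((hN ι r _ _ ((S.kh j e he).2 z hz) (D.pos (s z))).2.2.2.1 (nF (D.H ∘ s) (m j ∘ s) z)).1 k
  have a7 := A.trm_rep g (h j) e he _ (e.map_target hz)
  rw [e.right_inv hz] at a7
  rw [a7] at a6
  exact a6.trans (mul_le_mul (S.le j e he z hz s hs) (mul_le_mul_of_nonneg_left
    ((re_le_norm _).trans ((hL k k).trans (le_abs_self L))) a4) (mul_nonneg a4 (Complex.nonneg_iff.1
      ((S.kg e he).2 z hz).posSemidef.diag_nonneg).1) (S.nn j _).2.2)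

theorem Sq.cpt {𝒰 : Filter ℕ} (S : Sq D g μ h m χ q B 𝒰) (hp : IsLocalHomeomorph p) (hN : AlgN)
    (he : e ∈ M.A) {K : Set (V ι)} (k1 : IsCompact K) (k3 : K ⊆ e.target)
    (hs : ∀ z ∈ K, Sec p e z s) : (∃ L, ∀ j, ∀ z ∈ K, ‖vec (m j (s z))‖ ≤ L) ∧
      Tendsto (fun j => ∫ z in K, (1 - χ j (e.symm z))) 𝒰 (𝓝 0) ∧ ∀ k,
      Tendsto (fun j => ∫ z in K, ‖dz (fn (χ j) e) k z‖) 𝒰 (𝓝 0) ∧
      ∀ y : ℕ → V ι → Mat r, (∀ j, ∀ z ∈ K,
        nE (D.H (s z)) (y j z) = nE (D.H (s z)) (nF (D.H ∘ s) (m j ∘ s) z k)) →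
        Tendsto (fun j => ∫ z in K, χ j (e.symm z) * ‖vec (y j z)‖) 𝒰 (𝓝 0) := by
  have A := AY.repA' ι X M
  have Bb := AY.repB' ι X M
  have hg := S.kg
  have pg := ((A.isK_iff g).1 hg).2
  have ph := fun j => ((A.isK_iff _).1 (S.kh j)).2
  have ca' : ∀ j, Continuous fun x => trm (g x) (h j x) := fun j =>
    Den.cont A (A.ck_trm g (h j) hg fun e he => (S.kh j e he).1.1)
  have cχ : ∀ j, Continuous (χ j) := fun j => Den.cont A (S.ck j)
  have c2 : ∀ j, Continuous (M.grad g (χ j) (χ j)) := fun j =>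
    Den.cont A (Bb.ck_lap g _ _ hg (S.ck j) (S.ck j)).2
  have c3 : ∀ j, Continuous fun x => χ j x * q j x := fun j => (cχ j).mul (S.cq j)
  have cs : ContinuousOn s K := fun z hz => (hs z hz).1.continuousWithinAt
  obtain ⟨c, c0, hc⟩ := Par1.tr1 ((AY.volS' ι X M g hg).2 μ S.vol) hg he k1 k3
  obtain ⟨L1, l1⟩ := k1.exists_bound_of_continuousOn
    (((vec_cont (smH_cont hp D.sm)).prodMk (vec_cont (inv_cont hp D))).comp_continuousOn cs)
  obtain ⟨L2, -, l2⟩ := Par1.ex_bd k1 fun i j => (Par1.cont (hg e he).1.1 i j).mono k3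
  obtain ⟨L3, -, l3⟩ := Par1.ex_bd k1 fun i j => (Par1.cont ((hg e he).1.1.inv fun w hw =>
    ((hg e he).2 w hw).det_pos.ne') i j).mono k3
  obtain ⟨d, d0, hd⟩ := nE_low r L1
  replace hd := fun z hz => hd _ (D.pos (s z)) (bd_vec (norm_prod_le_iff.1 (l1 z hz)).1)
    (bd_vec (norm_prod_le_iff.1 (l1 z hz)).2)
  obtain ⟨C, C0, hC⟩ := Par1.grd (ι := ι) (max L2 L3)
  have lim : ∀ {f : ℕ → X → ℝ}, (∀ j, Continuous (f j)) → (∀ j x, 0 ≤ f j x) →
      Tendsto (fun j => ∫ x, f j x ∂μ) 𝒰 (𝓝 0) → ∀ N,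
      Tendsto (fun j => ∫ z in K, N * f j (e.symm z)) 𝒰 (𝓝 0) := fun {f} a1 a2 a3 N => by
    have := (squeeze_zero (fun j => integral_nonneg fun z => a2 j _)
      (fun j => hc _ (a1 j) (a2 j)) (by simpa only [mul_zero] using a3.const_mul c)).const_mul N
    simpa only [mul_zero, integral_const_mul] using this
  have it : ∀ {f : X → ℝ}, Continuous f → IntegrableOn (fun z => f (e.symm z)) K := fun hf =>
    (hf.comp_continuousOn (e.continuousOn_symm.mono k3)).integrableOn_compact k1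
  refine ⟨⟨√(d * B), fun j z hz => Real.le_sqrt_of_sq_le ((hd z hz _).trans
    (mul_le_mul_of_nonneg_left (S.bd j _) d0.le))⟩, ?_, fun k => ⟨?_, fun y hy => ?_⟩⟩
  · simpa only [one_mul] using lim (f := fun j x => 1 - χ j x)
      (fun j => continuous_const.sub (cχ j)) (fun j x => sub_nonneg.2 (S.nn j x).2.1) S.t1 1
  · refine Par1.sq0 (a := fun _ _ => 1) (A := ∫ _ in K, 1) k1.measurableSet (fun j =>
      ⟨integrableOn_const k1.measure_lt_top.ne, (it (c2 j)).const_mul _, le_rfl, fun z hz => ?_⟩)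
      (lim c2 (fun j x => Bb.grad_nonneg g _ x (pg x)) S.t2 C)
    have d := (S.ck j e he z (k3 hz)).differentiableAt (by simp)
    have e4 := Bb.grad_rep g (χ j) (χ j) e he _ (e.map_target (k3 hz))
    rw [e.right_inv (k3 hz)] at e4
    refine ⟨norm_nonneg _, zero_le_one, mul_nonneg C0 (Bb.grad_nonneg g _ _ (pg _)), ?_⟩
    rw [one_mul, Atl.grad, ← e4 d d]
    exact hC _ ((hg e he).2 z (k3 hz)) (fun i j => (l2 z hz i j).trans (le_max_left _ _))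
      (fun i j => (l3 z hz i j).trans (le_max_right _ _)) (fun i => dz (fn (χ j) e) i z) k
  · refine Par1.sq0 (a := fun j z => trm (g (e.symm z)) (h j (e.symm z))) (A := c * B)
      k1.measurableSet (fun j => ⟨it (ca' j), (it (c3 j)).const_mul _,
        (hc _ (ca' j) fun x => Mat.trm_nonneg (pg x) (ph j x).posSemidef).trans
          (mul_le_mul_of_nonneg_left (S.tr j) c0), fun z hz => ?_⟩)
      (lim c3 (fun j x => mul_nonneg (S.nn j x).1 (S.nn j x).2.2) S.t3 (d * |L2|))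
    obtain ⟨a1, a2, a3⟩ := S.nn j (e.symm z)
    have a4 := Mat.trm_nonneg (pg (e.symm z)) (ph j (e.symm z)).posSemidef
    refine ⟨by positivity, a4, by positivity, ?_⟩
    rw [mul_pow]
    refine (mul_le_mul (show χ j (e.symm z) ^ 2 ≤ χ j (e.symm z) by nlinarith)
      ((hd z hz _).trans (mul_le_mul_of_nonneg_left ((hy j z hz).trans_le
        (S.pt hN he (k3 hz) (hs z hz) (l2 z hz) j k)) d0.le)) (by positivity) a1).trans_eq ?_
    ring

theorem Sq.loc {𝒰 : Ultrafilter ℕ} (S : Sq D g μ h m χ q B 𝒰) (hp : IsLocalHomeomorph p)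
    (hN : AlgN) (he : e ∈ M.A) {U : Set (V ι)} (hU : IsOpen U) (hUe : U ⊆ e.target)
    (hs : ∀ z ∈ U, Sec p e z s) : ∃ f, LimAt M p 𝒰 (fun j y => vec (m j y)) e U s f ∧
      ∀ z ∈ U, SmV f z ∧ ∀ k, dV f k z + adM (ca (D.H ∘ s) k z) *ᵥ f z = 0 ∧
        dVb f k z + adM (cb (D.H ∘ s) k z) *ᵥ f z = 0 := by
  have sH := fun z hz => D.sm e he z (hUe hz) s (hs z hz)
  obtain ⟨f, f1, f2⟩ := locV hU (a := fun k z => adM (ca (D.H ∘ s) k z))
    (b := fun k z => adM (cb (D.H ∘ s) k z)) (m := fun j z => vec (m j (s z)))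
    (c := fun j z => χ j (e.symm z)) 𝒰
    (fun z hz k => ⟨adM_sm ((sH z hz).ca (D.det_ne _) k), adM_sm ((sH z hz).cb (D.det_ne _) k)⟩)
    (fun j z hz => ⟨fun u => (S.se j).sm e he z (hUe hz) s (hs z hz) u.1 u.2,
      S.ck j e he z (hUe hz), (S.nn j _).1, (S.nn j _).2.1⟩) fun K k1 k2 => by
    obtain ⟨a1, a2, a3⟩ := S.cpt hp hN he k1 (k2.trans hUe) fun z hz => hs z (k2 hz)
    refine ⟨a1, a2, fun k => ⟨(a3 k).1, ?_, ?_⟩⟩ <;> simp only [adM_vec]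
    · exact (a3 k).2 (fun j z => nF (D.H ∘ s) (m j ∘ s) z k) fun _ _ _ => rfl
    · exact (a3 k).2 (fun j z => dRb (m j ∘ s) k z + (1 / 2 : ℂ) •
        (cb (D.H ∘ s) k z * m j (s z) - m j (s z) * cb (D.H ∘ s) k z)) fun j z hz => by
          rw [bar (S.se j) he (hUe (k2 hz)) (hs z (k2 hz)), nE_adj (D.pos _)]
  exact ⟨f, ⟨he, hU, hUe, hs, fun z hz => (smV_iff.1 (f1 z hz).1).continuousAt.continuousWithinAt,
    f2⟩, f1⟩

theorem Sq.lim {𝒰 : Ultrafilter ℕ} (S : Sq D g μ h m χ q B 𝒰) (hq : IsQuotientCoveringMap p G)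
    (hN : AlgN) :
    ∃ (F : Y → Mat r) (ρ : ℕ → X → ℝ), SmH M p F ∧ (∀ γ y, F (γ • y) = D.ρ γ * F y * D.ρ γ⁻¹) ∧
      (Loc M p fun _ z s => ∀ k, nF (D.H ∘ s) (F ∘ s) z k = 0 ∧ dRb (F ∘ s) k z +
        (1 / 2 : ℂ) • (cb (D.H ∘ s) k z * F (s z) - F (s z) * cb (D.H ∘ s) k z) = 0) ∧
      (∀ j, Continuous (ρ j)) ∧ (∀ j y, ρ j (p y) = nE (D.H y) (m j y - F y)) ∧
      Tendsto (fun j => ∫ x, √(ρ j x) ∂μ) 𝒰 (𝓝 0) := by
  have hp := lh hq
  have cm := fun j => smH_cont hp (S.se j).sm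
  obtain ⟨m0, h1, h2, h3⟩ := glueV (𝒰 := 𝒰) (m := fun j y => vec (m j y)) hq S.kg S.vol
    (fun j => vec_cont (cm j))
    (fun γ => LinearMap.toContinuousLinearMap (Matrix.toLin' (D.ρ γ ⊗ₖ (D.ρ γ⁻¹)ᵀ)))
    (fun γ j y => by rw [(S.se j).eqv]; exact (kr_vec _ _ _).symm)
    (P := fun _ z s f => SmV f z ∧ ∀ k, dV f k z + adM (ca (D.H ∘ s) k z) *ᵥ f z = 0 ∧
      dVb f k z + adM (cb (D.H ∘ s) k z) *ᵥ f z = 0)
    (fun e z s f f' e1 e2 => ⟨e2.1.congr e1.symm, fun k => by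
      rw [← dV_congr e1, ← dVb_congr e1, ← e1.self_of_nhds]
      exact e2.2 k⟩) fun e he U s hU hUe hs => S.loc hp hN he hU hUe hs
  obtain ⟨F, rfl⟩ : ∃ F : Y → Mat r, m0 = fun y => vec (F y) :=
    ⟨fun y => Matrix.of fun i j => m0 y (i, j), rfl⟩
  have sF : SmH M p F := fun e he z hz s hs i j => (h1 e he z hz s hs).1 (i, j)
  have eF : ∀ γ y, F (γ • y) = D.ρ γ * F y * D.ρ γ⁻¹ := fun γ y =>
    vec_inj ((h2 γ y).trans (kr_vec _ _ _))
  choose ρ hρ using fun j => desc0 hq (fun y => nE (D.H y) (m j y - F y)) fun γ y => by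
    rw [(S.se j).eqv, eF, ← Matrix.sub_mul, ← Matrix.mul_sub, nE_eqv]
  have cρ : ∀ j, Continuous (ρ j) := fun j => hq.toIsQuotientMap.continuous_iff.2 (by
    rw [show ρ j ∘ p = _ from funext (hρ j)]
    exact nE_cont (smH_cont hp D.sm) (inv_cont hp D) ((cm j).sub (smH_cont hp sF)))
  refine ⟨F, ρ, sF, eF, fun e he z hz s hs k => ?_, cρ, hρ, h3
    (fun y => Fintype.card (r × r) * √(Par1.tot ((D.H y)ᵀ ⊗ₖ (D.H y)⁻¹))) _ ?_
    (fun j y => ⟨Real.sqrt_nonneg _, ?_⟩) fun j => (cρ j).sqrt⟩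
  · have := (h1 e he z hz s hs).2 k
    simp only [Function.comp_apply, adM_vec] at this
    exact ⟨vec_inj this.1, vec_inj this.2⟩
  · refine continuous_const.mul (continuousOn_univ.1 (Par1.cont_tot fun i j => ?_)).sqrt
    exact (((smH_cont hp D.sm).matrix_elem _ _).mul ((inv_cont hp D).matrix_elem _ _)).continuousOn
  · rw [hρ]
    exact nE_up _ _

end Rg

end Pool.Agent.Lib.MP_813db1_ag.VH
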