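import Pool.Agent.Lib.MP_813db1_ag.VH.RgI
import Pool.Agent.Lib.MP_813db1_ag.VH.RgM
import Pool.Agent.Lib.MP_813db1_ag.VH.Prim

/-! Passing pointwise conditions to the limit. -/

namespace Pool.Agent.Lib.MP_813db1_ag.VH

open Pool.Agent.Lib.MP_813db1_ag.HS Pool.Agent.Lib.MP_813db1_ag.AS
open MeasureTheory Complex Matrix Filter Topology Set
open scoped ContDiff ComplexOrder

namespace Rg

section meas

variable {X : Type} [TopologicalSpace X] [T2Space X] [CompactSpace X] [MeasurableSpace X]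
  [BorelSpace X] {μ : Measure X} [IsFiniteMeasure μ] [μ.IsOpenPosMeasure]

theorem zero0 {φ : X → ℝ} {T f u ρ : ℕ → X → ℝ} {C K : ℝ} (hφ : Continuous φ)
    (h : ∀ j, Continuous (T j) ∧ Continuous (f j) ∧ Continuous (u j) ∧ Continuous (ρ j) ∧
      ∫ x, T j x ∂μ ≤ K ∧ ∫ x, |u j x| ∂μ ≤ K ∧
      ∀ x, 0 ≤ T j x ∧ 0 ≤ f j x ∧ φ x ≤ T j x * f j x + C * √(ρ j x))
    (h1 : Tendsto (fun j => ∫ x, f j x * Real.exp (u j x) ∂μ) atTop (𝓝 0))
    (h2 : Tendsto (fun j => ∫ x, √(ρ j x) ∂μ) atTop (𝓝 0)) (x : X) : φ x ≤ 0 := by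
  obtain ⟨S, hS⟩ := isCompact_univ.exists_bound_of_continuousOn hφ.sqrt.continuousOn
  have key : ∀ t > (0 : ℝ), ∫ x, √(φ x) ∂μ ≤ t * (K + μ.real univ + |S| * K) := fun t ht => by
    have lim := ((h1.const_mul (t⁻¹ * Real.exp t⁻¹)).add (h2.const_mul (t⁻¹ * |C|))).const_add
      (t * (K + μ.real univ + |S| * K))
    simp only [mul_zero, add_zero] at lim
    refine ge_of_tendsto' lim fun j => ?_
    obtain ⟨c1, c2, c3, c4, b1, b2, b3⟩ := h j
    have i : ∫ x, √(φ x) ∂μ ≤ ∫ x, (t * (T j x + 1 + |S| * |u j x|) +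
        (t⁻¹ * Real.exp t⁻¹ * (f j x * Real.exp (u j x)) + t⁻¹ * |C| * √(ρ j x))) ∂μ := by
      refine integral_mono (Den.intg hφ.sqrt) (Den.intg (by fun_prop)) fun x => ?_
      obtain ⟨a1, a2, a3⟩ := b3 x
      have a4 := (le_abs_self _).trans ((hS x (mem_univ x)).trans (le_abs_self S))
      have a5 : 0 ≤ |C| * √(ρ j x) := by positivity
      have a6 : t * t⁻¹ = 1 := mul_inv_cancel₀ ht.ne'
      rcases lt_or_ge (u j x) (-t⁻¹) with a | a
      · have a7 : 1 ≤ t * |u j x| := by nlinarith [neg_le_abs (u j x)]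
        have a8 : 0 ≤ t * (T j x + 1) + (t⁻¹ * Real.exp t⁻¹ * (f j x * Real.exp (u j x)) +
          t⁻¹ * |C| * √(ρ j x)) := by positivity
        nlinarith [abs_nonneg S]
      · have a7 : 1 ≤ Real.exp t⁻¹ * Real.exp (u j x) := by
          rw [← Real.exp_add]
          exact Real.one_le_exp (by linarith)
        have a8 : √(φ x) ≤ t * (T j x + 1) + t⁻¹ * (f j x + |C| * √(ρ j x)) := by
          refine Real.sqrt_le_iff.2 ⟨by positivity, ?_⟩
          have e : t * (T j x + 1) * (t⁻¹ * (f j x + |C| * √(ρ j x))) =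
              (T j x + 1) * (f j x + |C| * √(ρ j x)) := by field_simp
          have := mul_le_mul_of_nonneg_right (le_abs_self C) (Real.sqrt_nonneg (ρ j x))
          nlinarith [sq_nonneg (t * (T j x + 1)), sq_nonneg (t⁻¹ * (f j x + |C| * √(ρ j x))),
            mul_nonneg a1 a5, mul_nonneg a1 a2]
        have a9 : 0 ≤ t * (|S| * |u j x|) := by positivity
        have := mul_le_mul_of_nonneg_left a7 (show 0 ≤ t⁻¹ * f j x by positivity)
        nlinarith
    rw [integral_add (Den.intg (by fun_prop)) (Den.intg (by fun_prop)),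
      integral_add (Den.intg (by fun_prop)) (Den.intg (by fun_prop)), integral_const_mul,
      integral_const_mul, integral_const_mul,
      integral_add (Den.intg (by fun_prop)) (Den.intg (by fun_prop)),
      integral_add (Den.intg c1) (integrable_const _), integral_const_mul, integral_const,
      smul_eq_mul, mul_one] at i
    refine i.trans (add_le_add (mul_le_mul_of_nonneg_left (add_le_add (add_le_add b1 le_rfl)
      (mul_le_mul_of_nonneg_left b2 (abs_nonneg S))) ht.le) le_rfl)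
  have z : ∫ x, √(φ x) ∂μ ≤ 0 * (K + μ.real univ + |S| * K) := ge_of_tendsto
    ((continuous_id.mul continuous_const).continuousWithinAt (s := Ioi 0) (x := 0))
    (eventually_mem_nhdsWithin.mono key)
  rw [zero_mul] at z
  exact Real.sqrt_eq_zero'.1 (congrFun ((hφ.sqrt.ae_eq_iff_eq μ continuous_const).1
    ((integral_eq_zero_iff_of_nonneg (fun x => Real.sqrt_nonneg _) (Den.intg hφ.sqrt)).1
      (z.antisymm (integral_nonneg fun x => Real.sqrt_nonneg _)))) x)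

theorem dense0 {ρ : ℕ → X → ℝ} (hρ : ∀ j, Continuous (ρ j)) (h0 : ∀ j x, 0 ≤ ρ j x)
    (h : Tendsto (fun j => ∫ x, ρ j x ∂μ) atTop (𝓝 0)) :
    Dense {x | ∀ ε > 0, ∃ j, ρ j x < ε} := by
  have b : ∀ j x, ⨅ i, ρ i x ≤ ρ j x := fun j x =>
    ciInf_le ⟨0, by rintro _ ⟨i, rfl⟩; exact h0 i x⟩ j
  have n : ∀ x, 0 ≤ ⨅ i, ρ i x := fun x => le_ciInf fun i => h0 i x
  have i : Integrable (fun x => ⨅ i, ρ i x) μ := (Den.intg (hρ 0)).mono'
    (Measurable.iInf fun i => (hρ i).measurable).aestronglyMeasurable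
    (.of_forall fun x => (abs_of_nonneg (n x)).trans_le (b 0 x))
  have z := (integral_eq_zero_iff_of_nonneg n i).1 ((ge_of_tendsto' h fun j =>
    integral_mono i (Den.intg (hρ j)) (b j)).antisymm (integral_nonneg n))
  exact Measure.dense_of_ae (μ := μ) (z.mono fun x hx ε hε =>
    exists_lt_of_ciInf_lt (hx.trans_lt hε))

end meas

variable {ι X Y G r : Type} [Fintype ι] [DecidableEq ι] [TopologicalSpace X] [TopologicalSpace Y]
  [Group G] [MulAction G Y] [Fintype r] [DecidableEq r] {M : Atl ι X} {p : Y → X}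
  {D : Dt M p G r} {F : Y → Mat r}

theorem det_cst [PreconnectedSpace Y] (hp : IsLocalHomeomorph p) (sF : SmH M p F)
    (h : Loc M p fun _ z s => ∀ k, nF (D.H ∘ s) (F ∘ s) z k = 0 ∧ dRb (F ∘ s) k z +
      (1 / 2 : ℂ) • (cb (D.H ∘ s) k z * F (s z) - F (s z) * cb (D.H ∘ s) k z) = 0) (t : ℂ)
    (y y' : Y) : (1 + t • F y).det = (1 + t • F y').det :=
  PrimA.cstC (M := M) hp (f := fun y => (1 + t • F y).det) (fun e he s z hs => by
    have d := (sF e he z hs.mem s ⟨hs.cont, hs.ev⟩).df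
    have d' : DfR (fun w => t • (F ∘ s) w) z := ((sF e he z hs.mem s ⟨hs.cont, hs.ev⟩).csmul t).df
    refine fd_det (G := fun w => 1 + t • (F ∘ s) w) ((DfR.const 1).add d')
      (a := fun k => (1 / 2 : ℂ) • ca (D.H ∘ s) k z) (b := fun k => (1 / 2 : ℂ) • cb (D.H ∘ s) k z)
      fun k => ?_
    obtain ⟨h1, h2⟩ := h e he z hs.mem s ⟨hs.cont, hs.ev⟩ k
    rw [dR_add (DfR.const 1) d', dRb_add (DfR.const 1) d', dR_const, dRb_const, dR_csmul t d,
      dRb_csmul t d, eq_neg_of_add_eq_zero_left h1, eq_neg_of_add_eq_zero_left h2]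
    simp only [Function.comp_apply, Matrix.add_mul, Matrix.mul_add, Matrix.smul_mul,
      Matrix.mul_smul, Matrix.one_mul, Matrix.mul_one]
    exact ⟨by module, by module⟩) y y'

theorem proj_of {H A : Mat r} (hH : H.PosDef) (hA : (H * A).PosSemidef) {m : ℕ}
    (h : ∀ t : ℝ, 0 ≤ t → (1 + (t : ℂ) • A).det.re = (1 + t) ^ m) :
    H * A = Aᴴ * H ∧ A * A = A ∧ trace A = m := by
  have u := (isUnit_iff_isUnit_det _).1 hH.isUnit
  obtain ⟨h1, h2⟩ := Par.spec mat hH hA (m := m) fun t ht => by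
    rw [← h t ht, ← Matrix.mul_smul, ← mul_one_add, det_mul,
      mul_div_cancel_left₀ _ u.ne_zero]
  refine ⟨?_, ?_, ?_⟩
  · rw [← hA.1.eq, conjTranspose_mul, hH.1.eq]
  · rw [Matrix.mul_assoc, nonsing_inv_mul_cancel_left _ _ u, Matrix.mul_assoc] at h1
    exact hH.isUnit.mul_left_cancel h1
  · rwa [trace_mul_cycle, nonsing_inv_mul _ u, Matrix.one_mul] at h2

variable [T2Space X] [CompactSpace X] [MeasurableSpace X] [BorelSpace X] {g : X → Mat ι}
  {μ : Measure X} {h : ℕ → X → Mat ι} {m : ℕ → Y → Mat r} {χ q : ℕ → X → ℝ} {B : ℝ}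

theorem Sq.sub (S : Sq D g μ h m χ q B atTop) (hq : IsQuotientCoveringMap p G) (hN : AlgN) :
    ∃ (θ : ℕ → ℕ) (F : Y → Mat r) (ρ : ℕ → X → ℝ), StrictMono θ ∧ SmH M p F ∧
      (∀ γ y, F (γ • y) = D.ρ γ * F y * D.ρ γ⁻¹) ∧
      (Loc M p fun _ z s => ∀ k, nF (D.H ∘ s) (F ∘ s) z k = 0 ∧ dRb (F ∘ s) k z +
        (1 / 2 : ℂ) • (cb (D.H ∘ s) k z * F (s z) - F (s z) * cb (D.H ∘ s) k z) = 0) ∧
      (∀ j, Continuous (ρ j)) ∧ (∀ j y, ρ j (p y) = nE (D.H y) (m (θ j) y - F y)) ∧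
      Tendsto (fun j => ∫ x, √(ρ j x) ∂μ) atTop (𝓝 0) ∧
      ∀ K : Set (Y × Mat r), IsClosed K → (∀ j y, (y, m j y) ∈ K) → ∀ y, (y, F y) ∈ K := by
  have le : (hyperfilter ℕ : Filter ℕ) ≤ atTop := Nat.hyperfilter_le_atTop
  have hv := (AY.volS' ι X M g S.kg).2 μ S.vol
  have := hv.fin
  have := hv.pos
  obtain ⟨F, ρ, h1, h2, h3, h4, h5, h6⟩ := Sq.lim (𝒰 := hyperfilter ℕ) ⟨S.kg, S.vol, S.kh, S.se,
    S.bd, S.tr, S.ck, S.cq, S.nn, S.le, S.t1.mono_left le, S.t2.mono_left le, S.t3.mono_left le⟩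
    hq hN
  obtain ⟨θ, t1, t2⟩ := subseq_tendsto_of_neBot (f := 𝓝 (0 : ℝ))
    (u := fun j => ∫ x, √(ρ j x) ∂μ) (NeBot.mono inferInstance (le_inf h6 (map_mono le)))
  refine ⟨θ, F, fun j => ρ (θ j), t1, h1, h2, h3, fun j => h4 _, fun j => h5 _, t2,
    fun K hK hm y => ?_⟩
  refine (hK.preimage (continuous_id.prodMk (smH_cont (lh hq) h1))).closure_subset_iff.2
    (fun y hy => ?_) (((dense0 (fun j => (h4 (θ j)).sqrt) (fun _ _ => Real.sqrt_nonneg _)
      t2).preimage (lh hq).isOpenMap) y)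
  obtain ⟨c, c0, hc⟩ := nE_low r (max ‖vec (D.H y)‖ ‖vec (D.H y)⁻¹‖)
  have cl : IsClosed {v : V (r × r) | (y, Matrix.of fun i j => v (i, j)) ∈ K} :=
    hK.preimage (continuous_const.prodMk (continuous_matrix fun i j => continuous_apply (i, j)))
  refine (cl.closure_subset (a := vec (F y)) (Metric.mem_closure_iff.2 fun ε hε => ?_) :)
  obtain ⟨j, hj⟩ := hy (ε / √c) (by positivity)
  refine ⟨vec (m (θ j) y), hm _ y, ?_⟩
  rw [lt_div_iff₀' (by positivity), ← Real.sqrt_mul c0.le, h5] at hj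
  rw [dist_comm, dist_eq_norm]
  exact (Real.le_sqrt_of_sq_le (hc _ (D.pos y) (bd_vec (le_max_left _ _))
    (bd_vec (le_max_right _ _)) (m (θ j) y - F y))).trans_lt hj

end Rg

end Pool.Agent.Lib.MP_813db1_ag.VH
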