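import Pool.Agent.Lib.MP_813db1_ag.VH.Stmt
import Pool.Agent.Lib.MP_813db1_ag.VH.Cov

/-! Rigidity: definitions and statements. -/

namespace Pool.Agent.Lib.MP_813db1_ag.VH

open Pool.Agent.Lib.MP_813db1_ag.HS Pool.Agent.Lib.MP_813db1_ag.AS
open MeasureTheory Complex Matrix Filter Topology Set
open scoped ContDiff ComplexOrder

noncomputable section

/-! ### pointwise algebra -/

section alg

variable {ι r : Type} [Fintype ι] [DecidableEq ι] [Fintype r] [DecidableEq r]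

/-- the Gram form of a family of vectors. -/
def gr (H : Mat r) (a : ι → V r) : Mat ι := Matrix.of fun i j => ipV H (a i) (a j)

/-- the product of two endomorphisms. -/
def ipE (H A B : Mat r) : ℂ := trace (A * H⁻¹ * Bᴴ * H)

/-- the squared norm of an endomorphism. -/
def nE (H A : Mat r) : ℝ := (ipE H A A).re

/-- the Gram form of a family of endomorphisms. -/
def grE (H : Mat r) (A : ι → Mat r) : Mat ι := Matrix.of fun i j => ipE H (A i) (A j)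

/-- the squared norm of a tensor `T k i` with two holomorphic indices. -/
def q1 (h : Mat ι) (H : Mat r) (T : ι → ι → V r) : ℝ :=
  (tg h fun k l => tg h fun i j => ipV H (T k i) (T l j)).re

/-- the squared norm of a tensor `T k i` whose first index is antiholomorphic. -/
def q2 (h : Mat ι) (H : Mat r) (T : ι → ι → V r) : ℝ :=
  (tg h fun l k => tg h fun i j => ipV H (T k i) (T l j)).re

/-- the endomorphism `a h⁻¹ b^*`. -/
def ou (h : Mat ι) (H : Mat r) (a b : ι → V r) : Mat r :=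
  tg h fun i j => vecMulVec (a i) (star (b j)) * H

/-- the trace of the product of two forms. -/
def t2 (h B C : Mat ι) : ℝ := trm h (B * h⁻¹ * C)

/-- a matrix as a vector. -/
def vec (A : Mat r) : V (r × r) := fun q => A q.1 q.2

/-- the curvature term of the second order Stokes formula. -/
def fT (h : Mat ι) (H : Mat r) (θ : ι → Mat r) (a : ι → V r) : ℂ :=
  tg h fun l k => tg h fun i j => ipV H
    ((θ l * (θ k).map star - (θ k).map star * θ l) *ᵥ a i -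
      (θ i * (θ k).map star - (θ k).map star * θ i) *ᵥ a l) (a j)

/-- a real metric and a family whose adjoints are the conjugates. -/
structure Pt (h : Mat ι) (H : Mat r) (θ : ι → Mat r) : Prop where
  ph : h.PosDef
  pH : H.PosDef
  re : H.map star = H
  sym : ∀ k, (θ k)ᵀ * H = H * θ k

/-! ### local covariant derivatives -/

/-- the Higgs field. -/
def th (H : V ι → Mat r) (z : V ι) (k : ι) : Mat r := (-(1 / 2) : ℂ) • ca H k z

/-- `∇_k ψ_i`. -/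
def n1 (h : V ι → Mat ι) (H : V ι → Mat r) (ψ : V ι → ι → V r) (z : V ι) (k i : ι) : V r :=
  dV (fun w => ψ w i) k z + (1 / 2 : ℂ) • ca H k z *ᵥ ψ z i - ∑ m, gam h k z i m • ψ z m

/-- `∇_kbar ψ_i`. -/
def n2 (H : V ι → Mat r) (ψ : V ι → ι → V r) (z : V ι) (k i : ι) : V r :=
  dVb (fun w => ψ w i) k z + (1 / 2 : ℂ) • cb H k z *ᵥ ψ z i

/-- the second order term of the Bochner formula. -/
def cr (h : V ι → Mat ι) (H : V ι → Mat r) (ψ : V ι → ι → V r) (z : V ι) : ℂ :=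
  tg (h z) fun k l => tg (h z) fun i j =>
    ipV (H z) (n1 h H (fun w => n2 H ψ w l) z k i) (ψ z j)

/-- `∇_k F` for an endomorphism. -/
def nF (H F : V ι → Mat r) (z : V ι) (k : ι) : Mat r :=
  dR F k z + (1 / 2 : ℂ) • (ca H k z * F z - F z * ca H k z)

/-- a germ of a real pluriharmonic metric. -/
def PHL (H : V ι → Mat r) (z : V ι) : Prop :=
  SmR H z ∧ ∀ᶠ w in 𝓝 z, (H w).PosDef ∧ (H w).map star = H w ∧ (∀ i j, ph H i j w = 0) ∧
    ∀ i k, ca H i w * ca H k w = ca H k w * ca H i w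

end alg

/-- pointwise inequalities: norms. -/
def AlgN : Prop := ∀ (ι r : Type) [Fintype ι] [DecidableEq ι] [Fintype r] [DecidableEq r]
  (h : Mat ι) (H : Mat r), h.PosDef → H.PosDef →
    (∀ T, 0 ≤ q1 h H T ∧ 0 ≤ q2 h H T ∧
      (q1 h H T = 0 → ∀ k i, T k i = 0) ∧ (q2 h H T = 0 → ∀ k i, T k i = 0)) ∧
    (∀ A, 0 ≤ nE H A ∧ (nE H A = 0 → A = 0)) ∧ (∀ a : ι → V r, (gr H a).PosSemidef) ∧
    (∀ A : ι → Mat r, (grE H A).PosSemidef ∧ (trm h (grE H A) = 0 → ∀ k, A k = 0) ∧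
      (∀ B : ι → Mat r,
        trm h (grE H fun k => A k + B k) ≤ 2 * trm h (grE H A) + 2 * trm h (grE H B)) ∧
      ∀ F, trm h (grE H fun k => A k * F) ≤ trm h (grE H A) * nE H F ∧
        trm h (grE H fun k => F * A k) ≤ trm h (grE H A) * nE H F) ∧
    (∀ A B, nE H (A * B) ≤ nE H A * nE H B ∧ nE H (A + B) ≤ 2 * nE H A + 2 * nE H B ∧
      ‖trace (A * B)‖ ^ 2 ≤ nE H A * nE H B) ∧
    ∀ B C : Mat ι, B.PosSemidef → C.PosSemidef → 0 ≤ t2 h B C ∧ t2 h B C = t2 h C B ∧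
      t2 h B C ≤ trm h B * trm h C ∧ ∀ g : Mat ι, g.PosDef → trm g B ≤ trm g h * trm h B

/-- pointwise inequalities: the endomorphism `a h⁻¹ a^*`. -/
def AlgO : Prop := ∀ (ι r : Type) [Fintype ι] [DecidableEq ι] [Fintype r] [DecidableEq r]
  (h : Mat ι) (H : Mat r) (a : ι → V r), h.PosDef → H.PosDef → H.map star = H →
    H * ou h H a a = (ou h H a a)ᴴ * H ∧ trace (ou h H a a) = trm h (gr H a) ∧
    trace (ou h H a a * ou h H a a) = t2 h (gr H a) (gr H a) ∧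
    nE H (ou h H a a) = t2 h (gr H a) (gr H a) ∧
    (∀ t : ℂ, (1 + t • ou h H a a).det = (1 + t • (gr H a * h⁻¹)).det) ∧
    (∀ P : Mat r, trace (P * ou h H a a) = (tg h fun i j => ipV H (P *ᵥ a i) (a j)) ∧
      (∀ b, P * ou h H a b = ou h H (fun i => P *ᵥ a i) b) ∧ nE H (P.map star) = nE H P ∧
      (∀ v, nV H (P *ᵥ v) ≤ nE H P * nV H v) ∧
      (Pᵀ * H = H * P → ou h H a a * P = ou h H a fun j => P.map star *ᵥ a j)) ∧
    (∀ T, trm h (grE H fun k => ou h H (T k) a) ≤ q1 h H T * trm h (gr H a)) ∧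
    (∀ T, trm h (grE H fun k => ou h H a (T k)) ≤ q2 h H T * trm h (gr H a)) ∧
    ∀ B : ι → Mat r, trm h (grE H fun i => B i * (ou h H a a).map star) ≤
      q2 h H (fun k i => B i *ᵥ star (a k)) * trm h (gr H a)

/-- pointwise inequalities: `θ` plays the role of the Higgs field and `a` of the form. -/
def AlgT : Prop := ∀ (ι r : Type) [Fintype ι] [DecidableEq ι] [Fintype r] [DecidableEq r]
  (h : Mat ι) (H : Mat r) (θ : ι → Mat r) (a : ι → V r), Pt h H θ →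
    grE H θ = (Matrix.of fun i j => trace (θ i * (θ j).map star)) ∧
    ((∀ k i, θ k *ᵥ a i = θ i *ᵥ a k) →
      q1 h H (fun k i => θ k *ᵥ a i) ≤ Fintype.card ι * t2 h (gr H a) (grE H θ)) ∧
    nV H (tg h fun i k => θ i *ᵥ star (a k)) ≤ Fintype.card ι * t2 h (gr H a) (grE H θ) ∧
    trm h (grE H fun k => ou h H a fun j => θ j *ᵥ star (a k)) ≤
      Fintype.card ι * trm h (gr H a) * t2 h (gr H a) (grE H θ) ∧
    q2 h H (fun k i => θ i *ᵥ star (a k)) = q2 h H (fun k i => (θ k).map star *ᵥ a i) ∧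
    0 ≤ (tg h fun k l => tg h fun i j => ipV H (θ i *ᵥ ((θ l).map star *ᵥ a k)) (a j)).re ∧
    ‖fT h H θ a‖ ≤ 4 * Fintype.card ι * trm h (grE H θ) * trm h (gr H a) ∧
    ∀ S : ι → ι → Mat r, ‖tg h fun k l => tg h fun i j => ipV H (S k i *ᵥ star (a l)) (a j)‖ ^ 2 ≤
      (tg h fun k l => tg h fun i j => ipE H (S k i) (S l j)).re * trm h (gr H a) ^ 2

/-- the local Bochner formula and the divergence identity. -/
def BoL : Prop := ∀ (ι r : Type) [Fintype ι] [DecidableEq ι] [Fintype r] [DecidableEq r]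
  (h : V ι → Mat ι) (U : Set (V ι)) (H : V ι → Mat r) (ψ : V ι → ι → V r) (z : V ι), IsOpen U →
  KOn h U → z ∈ U → PHL H z → (∀ i, SmV (fun w => ψ w i) z) →
  (lapL h (fun w => (trm (h w) (gr (H w) (ψ w)) : ℂ)) z).re =
    q1 (h z) (H z) (n1 h H ψ z) + q2 (h z) (H z) (n2 H ψ z) + 2 * (cr h H ψ z).re +
      t2 (h z) (gr (H z) (ψ z)) (ric h z) +
      q2 (h z) (H z) (fun k i => (th H z k).map star *ᵥ ψ z i) -
      q1 (h z) (H z) (fun k i => th H z k *ᵥ ψ z i) ∧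
  ∑ k, dz (fun w => ((h w).det.re : ℂ) * ∑ l, (h w)⁻¹ l k *
      tg (h w) fun i j => ipV (H w) (n2 H ψ w l i) (ψ w j)) k z =
    ((h z).det.re : ℂ) * (cr h H ψ z + q2 (h z) (H z) (n2 H ψ z))

/-! ### forms on the covering space -/

variable {ι X Y G r : Type} [Fintype ι] [DecidableEq ι] [TopologicalSpace X] [TopologicalSpace Y]
  [Group G] [MulAction G Y] [Fintype r] [DecidableEq r] {M : Atl ι X} {p : Y → X}

/-- `φ` is the function on the base with the local expression `B`. -/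
def Fn (M : Atl ι X) (p : Y → X) {E : Type} (φ : X → E) (B : Ch ι X → V ι → (V ι → Y) → E) : Prop :=
  Loc M p fun e z s => φ (e.symm z) = B e z s

namespace Dt

variable (D : Dt M p G r)

/-- smooth equivariant forms of type `(1,0)` with Gram form `ζ`. -/
structure F10 (a : Ch ι X → Y → ι → V r) (ζ : X → Mat ι) : Prop where
  sm : Loc M p fun e z s => ∀ k, SmV (fun w => a e (s w) k) z
  tr : ∀ e z s e' z' s', Two M p e z s e' z' s' → ∀ k,
    a e (s z) k = ∑ l, tj e e' (e.symm z) l k • a e' (s' z') l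
  eqv : Eq1 p D.ρ a
  gr : Loc M p fun e z s => M.repF ζ e z = gr (D.H (s z)) (a e (s z))

/-- the endomorphism `a h⁻¹ a^*` on the covering space. -/
def mM (h : X → Mat ι) (a : Ch ι X → Y → ι → V r) (y : Y) : Mat r :=
  ou (h (p y)) (D.H y) (a (M.ch (p y)) y) (a (M.ch (p y)) y)

/-- smooth equivariant self-adjoint endomorphisms. -/
structure Se (F : Y → Mat r) : Prop where
  sm : SmH M p F
  eqv : ∀ (g : G) y, F (g • y) = D.ρ g * F y * D.ρ g⁻¹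
  sa : ∀ y, D.H y * F y = (F y)ᴴ * D.H y

/-- parallel projectors. -/
structure Pj (F : Y → Mat r) (a : ℕ) : Prop extends D.Se F where
  sq : ∀ y, F y * F y = F y
  tr : ∀ y, trace (F y) = a
  par : Loc M p fun _ z s => ∀ k, nF (D.H ∘ s) (F ∘ s) z k = 0
  parb : Loc M p fun _ z s => ∀ k, dRb (F ∘ s) k z +
    (1 / 2 : ℂ) • (cb (D.H ∘ s) k z * F (s z) - F (s z) * cb (D.H ∘ s) k z) = 0

/-- polarised data with holomorphic period map. -/
structure Vh (Q : Mat r) (c : G → V r) (x : Y → V r) (ξ : X → Mat ι) : Prop where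
  aff : D.Aff c x
  pol : D.Pol Q x
  ph : D.PH
  px : D.PX x
  hol : Loc M p fun _ z s => ∀ k, ca (D.H ∘ s) k z * (1 - I • D.J Q (s z)) = 0
  xi : D.Xi x ξ
  cl : M.ClF ξ
  psd : ∀ a, (ξ a).PosSemidef

/-- the datum of endomorphisms and the Higgs field as a form. -/
structure En (E : Dt M p G (r × r)) (a : Ch ι X → Y → ι → V (r × r)) (τ : X → Mat ι) : Prop where
  ph : E.PH
  f : E.F10 a τ
  rho : ∀ g A, E.ρ g *ᵥ vec A = vec (D.ρ g * A * D.ρ g⁻¹)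
  ip : ∀ y A B, ipV (E.H y) (vec A) (vec B) = ipE (D.H y) A B
  ad : Loc M p fun _ z s => ∀ k A,
    ca (E.H ∘ s) k z *ᵥ vec A = vec (ca (D.H ∘ s) k z * A - A * ca (D.H ∘ s) k z) ∧
    cb (E.H ∘ s) k z *ᵥ vec A = vec (cb (D.H ∘ s) k z * A - A * cb (D.H ∘ s) k z)
  val : Loc M p fun e z s => ∀ k, a e (s z) k = vec (th (D.H ∘ s) z k)
  hol : Loc M p fun e z s => ∀ k i, n2 (E.H ∘ s) (fun w => a e (s w)) z k i = 0
  com : Loc M p fun e z s => ∀ k i, ca (E.H ∘ s) k z *ᵥ a e (s z) i = 0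
  cls : Loc M p fun e z s => ∀ k i,
    dV (fun w => a e (s w) i) k z = dV (fun w => a e (s w) k) i z

end Dt

variable [MeasurableSpace X]

/-- the volume of a class. -/
def vl (g : X → Mat ι) (μ : Measure X) (B : X → Mat ι) : ℝ := ∫ x, rat B g x ∂μ

/-- the average with respect to the volume of `h`. -/
def av (g : X → Mat ι) (μ : Measure X) (h : X → Mat ι) (f : X → ℝ) : ℝ :=
  (∫ x, f x * rat h g x ∂μ) / vl g μ h

/-- a family of twisted Einstein metrics in the classes `K + σ + s ζ`. -/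
structure Fm (M : Atl ι X) (g : X → Mat ι) (μ : Measure X) (σ ζ : X → Mat ι) (u : ℝ → X → ℝ)
    (h : ℝ → X → Mat ι) : Prop where
  kg : M.IsK g
  vol : M.IsVol g μ
  cσ : M.ClF σ
  pσ : ∀ x, (σ x).PosSemidef
  cζ : M.ClF ζ
  pζ : ∀ x, (ζ x).PosSemidef
  eq : ∀ s x, h s x = -M.ricF g x + (σ x + (s : ℂ) • ζ x) + M.ddc (u s) x
  ck : ∀ s ∈ Ioc (0 : ℝ) 1, M.Ck ∞ (u s)
  k : ∀ s ∈ Ioc (0 : ℝ) 1, M.IsK (h s)
  rt : ∀ s ∈ Ioc (0 : ℝ) 1, ∀ x, rat (h s) g x = Real.exp (u s x)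
  ric : ∀ s ∈ Ioc (0 : ℝ) 1, ∀ x, M.ricF (h s) x = -h s x + (σ x + (s : ℂ) • ζ x)

/-- the output of a stage. -/
structure Stg (D : Dt M p G r) (g : X → Mat ι) (μ : Measure X) (σ ζ : X → Mat ι)
    (h : ℝ → X → Mat ι) (a : Ch ι X → Y → ι → V r) (en : ℝ → X → ℝ) (m : ℕ) (v : ℝ)
    (F : Y → Mat r) (s : ℕ → ℝ) (ρ : ℕ → X → ℝ) : Prop where
  pj : D.Pj F m
  pos : 0 < v
  mem : ∀ j, s j ∈ Ioc (0 : ℝ) 1
  lim : Tendsto s atTop (𝓝 0)
  ord : Tendsto (fun j => vl g μ (fun x => -M.ricF g x + (σ x + (s j : ℂ) • ζ x)) / s j ^ m) atTop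
    (𝓝 v)
  cont : ∀ j, Continuous (ρ j)
  dist : ∀ j y, ρ j (p y) = nE (D.H y) ((s j : ℂ) • D.mM (h (s j)) a y - F y)
  conv : Tendsto (fun j => ∫ x, √(ρ j x) ∂μ) atTop (𝓝 0)
  conv' : Tendsto (fun j => av g μ (h (s j)) fun x => √(ρ j x)) atTop (𝓝 0)
  en0 : Tendsto (fun j => av g μ (h (s j)) (en (s j))) atTop (𝓝 0)
  zero : ∀ (φ : X → ℝ) (f : ℕ → X → ℝ) (C : ℝ), Continuous φ → (∀ j, Continuous (f j)) →
    (∀ j x, 0 ≤ f j x) → Tendsto (fun j => av g μ (h (s j)) (f j)) atTop (𝓝 0) →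
    (∀ j x, φ x ≤ trm (g x) (h (s j) x) * f j x + C * √(ρ j x)) → ∀ x, φ x ≤ 0

end

section par

variable {ι X Y : Type} [Fintype ι] [DecidableEq ι] [TopologicalSpace X] [TopologicalSpace Y]
  (M : Atl ι X) (p : Y → X) (G : Type) [Group G] [MulAction G Y]

/-- the form `∂ x`. -/
def EtaS : Prop := ∀ (r : Type) [Fintype r] [DecidableEq r] (D : Dt M p G r) (c : G → V r)
  (x : Y → V r) (ξ : X → Mat ι), D.Aff c x → D.Xi x ξ → ∃ a, D.F10 a ξ ∧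
    (Loc M p fun e z s => ∀ k, a e (s z) k = dV (x ∘ s) k z) ∧
    ((∀ y, star (x y) = x y) → D.PX x → Loc M p fun e z s => ∀ k i,
      n2 (D.H ∘ s) (fun w => a e (s w)) z k i = th (D.H ∘ s) z i *ᵥ star (a e (s z) k) ∧
      th (D.H ∘ s) z k *ᵥ a e (s z) i = th (D.H ∘ s) z i *ᵥ a e (s z) k ∧
      dV (fun w => a e (s w) i) k z = dV (fun w => a e (s w) k) i z)

/-- the Higgs field as a form. -/
def EnS : Prop := ∀ (r : Type) [Fintype r] [DecidableEq r] (D : Dt M p G r) (τ : X → Mat ι),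
  D.PH → D.Tau τ → ∃ E a, D.En E a τ

/-- the endomorphism `a h⁻¹ a^*` and its derivative. -/
def MmS : Prop := ∀ (r : Type) [Fintype r] [DecidableEq r] (D : Dt M p G r)
  (a : Ch ι X → Y → ι → V r) (ζ h : X → Mat ι), D.F10 a ζ → M.IsK h → M.SmF ζ ∧ D.Se (D.mM h a) ∧
    Loc M p fun e z s => D.mM h a (s z) = ou (M.repF h e z) (D.H (s z)) (a e (s z)) (a e (s z)) ∧
      ∀ k, nF (D.H ∘ s) (D.mM h a ∘ s) z k =
        ou (M.repF h e z) (D.H (s z)) (n1 (M.repF h e) (D.H ∘ s) (fun w => a e (s w)) z k)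
          (a e (s z)) +
        ou (M.repF h e z) (D.H (s z)) (a e (s z)) (n2 (D.H ∘ s) (fun w => a e (s w)) z k)

/-- the rank of the form of polarised data. -/
def RkS : Prop := ∀ (m : ℕ) (D : Dt M p G (Fin (2 * m))) (Q : Mat (Fin (2 * m)))
  (x : Y → V (Fin (2 * m))) (ξ : X → Mat ι), D.Pol Q x → D.Xi x ξ →
    (∀ a, (ξ a).rank ≤ m) ∧ ∀ y, trace (D.J Q y) = 0

/-- direct sums of polarised data. -/
def SumP : Prop := ∀ (a b : ℕ) (D : Dt M p G (Fin (2 * a))) (D' : Dt M p G (Fin (2 * b))) Q c x ξ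
  Q' c' x' ξ', D.Vh Q c x ξ → D'.Vh Q' c' x' ξ' →
    ∃ (E : Dt M p G (Fin (2 * (a + b)))) (Q'' : Mat (Fin (2 * (a + b))))
      (c'' : G → V (Fin (2 * (a + b)))) (x'' : Y → V (Fin (2 * (a + b)))),
      E.Vh Q'' c'' x'' fun y => ξ y + ξ' y

/-- the flat summand of a parallel projector. -/
def Sub1 : Prop := ∀ (r : Type) [Fintype r] [DecidableEq r] (D : Dt M p G r) (Q : Mat r)
  (c : G → V r) (x : Y → V r) (F : Y → Mat r) (m : ℕ), D.PH → D.Aff c x → D.PX x → D.Pol Q x →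
  D.Pj F m → (∀ y, D.J Q y * F y = I • F y) →
  (Loc M p fun _ z s => ∀ k, ca (D.H ∘ s) k z * F (s z) = 0 ∧
    (1 - F (s z)) * ca (D.H ∘ s) k z * (F (s z)).map star = 0) →
  ∃ (E : Dt M p G (Fin (2 * m))) (Q' : Mat (Fin (2 * m))) (c' : G → V (Fin (2 * m)))
    (x' : Y → V (Fin (2 * m))) (ξ' : X → Mat ι), E.Vh Q' c' x' ξ' ∧
    Loc M p fun e z s => M.repF ξ' e z = gr (D.H (s z)) fun k => F (s z) *ᵥ dV (x ∘ s) k z

/-- the unitary summand of a parallel projector that is killed by the Higgs field. -/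
def Sub2 : Prop := ∀ (r : Type) [Fintype r] [DecidableEq r] (D : Dt M p G r)
  (a : Ch ι X → Y → ι → V r) (ζ : X → Mat ι) (F : Y → Mat r) (m : ℕ), D.F10 a ζ → D.Pj F m →
  (Loc M p fun e z s => ∀ k, ca (D.H ∘ s) k z * F (s z) = 0 ∧ cb (D.H ∘ s) k z * F (s z) = 0 ∧
    ∀ i, n2 (D.H ∘ s) (fun w => a e (s w)) z k i = 0 ∧
      dV (fun w => a e (s w) i) k z = dV (fun w => a e (s w) k) i z) →
  ∃ (E : Dt M p G (Fin (2 * m))) (Q' : Mat (Fin (2 * m))) (c' : G → V (Fin (2 * m)))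
    (x' : Y → V (Fin (2 * m))) (ξ' : X → Mat ι), E.Vh Q' c' x' ξ' ∧
    Loc M p fun e z s => M.repF ξ' e z = gr (D.H (s z)) fun k => F (s z) *ᵥ a e (s z) k

variable [MeasurableSpace X]

/-- the global Bochner formula. -/
def BoG : Prop := ∀ g μ h, M.IsK g → M.IsVol g μ → M.IsK h →
  ∀ (r : Type) [Fintype r] [DecidableEq r] (D : Dt M p G r) (a : Ch ι X → Y → ι → V r)
    (ζ : X → Mat ι), D.PH → D.F10 a ζ → ∃ N1 N2 T1 T2 : X → ℝ,
      Continuous N1 ∧ Continuous N2 ∧ Continuous T1 ∧ Continuous T2 ∧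
      Continuous (fun x => t2 (h x) (ζ x) (M.ricF h x)) ∧
      Fn M p N1 (fun e z s =>
        q1 (M.repF h e z) (D.H (s z)) (n1 (M.repF h e) (D.H ∘ s) (fun w => a e (s w)) z)) ∧
      Fn M p N2 (fun e z s =>
        q2 (M.repF h e z) (D.H (s z)) (n2 (D.H ∘ s) (fun w => a e (s w)) z)) ∧
      Fn M p T1 (fun e z s =>
        q1 (M.repF h e z) (D.H (s z)) fun k i => th (D.H ∘ s) z k *ᵥ a e (s z) i) ∧
      Fn M p T2 (fun e z s =>
        q2 (M.repF h e z) (D.H (s z)) fun k i => (th (D.H ∘ s) z k).map star *ᵥ a e (s z) i) ∧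
      ∫ x, (N1 x - N2 x + T2 x - T1 x + t2 (h x) (ζ x) (M.ricF h x)) * rat h g x ∂μ = 0

/-- the second order Stokes formula for a closed form of type `(1,0)`. -/
def Hr1 : Prop := ∀ g μ h, M.IsK g → M.IsVol g μ → M.IsK h →
  ∀ (r : Type) [Fintype r] [DecidableEq r] (D : Dt M p G r) (a : Ch ι X → Y → ι → V r)
    (ζ : X → Mat ι), D.PH → D.F10 a ζ →
    (Loc M p fun e z s => ∀ k i,
      dV (fun w => a e (s w) i) k z + (1 / 2 : ℂ) • ca (D.H ∘ s) k z *ᵥ a e (s z) i =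
      dV (fun w => a e (s w) k) i z + (1 / 2 : ℂ) • ca (D.H ∘ s) i z *ᵥ a e (s z) k) →
    ∃ N2 L T : X → ℝ, Continuous N2 ∧ Continuous L ∧ Continuous T ∧
      Fn M p N2 (fun e z s =>
        q2 (M.repF h e z) (D.H (s z)) (n2 (D.H ∘ s) (fun w => a e (s w)) z)) ∧
      Fn M p L (fun e z s => nV (D.H (s z))
        (tg (M.repF h e z) fun i k => n2 (D.H ∘ s) (fun w => a e (s w)) z k i)) ∧
      Fn M p T (fun e z s => ‖fT (M.repF h e z) (D.H (s z)) (th (D.H ∘ s) z) (a e (s z))‖) ∧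
      ∫ x, N2 x * rat h g x ∂μ ≤ ∫ x, (L x + T x) * rat h g x ∂μ

/-- the families exist. -/
def FamV : Prop := ∀ g μ, M.IsK g → M.IsVol g μ → NefA M g → ∀ σ0 σ ζ, M.ClF σ0 → KCl M g σ0 →
  M.ClF σ → (∀ x, (σ x).PosSemidef) → M.ClF ζ → (∀ x, (ζ x).PosSemidef) →
  (∀ s ∈ Ioc (0 : ℝ) 1, ∃ ε ∈ Ioc (0 : ℝ) 1, ∀ x,
    (σ x + (s : ℂ) • ζ x - (ε : ℂ) • σ0 x).PosSemidef) → ∃ u h, Fm M g μ σ ζ u h

/-- a stage. -/
def StageS : Prop := ∀ g μ σ ζ u h, Fm M g μ σ ζ u h →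
  ∀ (r : Type) [Fintype r] [DecidableEq r] (D : Dt M p G r) (a : Ch ι X → Y → ι → V r)
    (en : ℝ → X → ℝ) (B : ℝ), D.F10 a ζ →
    (∀ s ∈ Ioc (0 : ℝ) 1, Continuous (en s) ∧ (∀ x, 0 ≤ en s x ∧ s * trm (h s x) (ζ x) ≤ B) ∧
      ∫ x, (en s x + s ^ 2 * t2 (h s x) (ζ x) (ζ x) - s * trm (h s x) (ζ x)) * rat (h s) g x ∂μ ≤ 0 ∧
      Loc M p fun e z t => s ^ 2 * trm (M.repF (h s) e z)
        (grE (D.H (t z)) (nF (D.H ∘ t) (D.mM (h s) a ∘ t) z)) ≤ B * en s (e.symm z)) →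
    ∃ m v F s ρ, Stg D g μ σ ζ h a en m v F s ρ

/-- the volume polynomial of the parallel part. -/
def PowV : Prop := ∀ g μ σ ζ u h, Fm M g μ σ ζ u h → ∀ (ζ0 : X → Mat ι) (m : ℕ) (v B : ℝ)
  (s : ℕ → ℝ), M.ClF ζ0 → (∀ x, (ζ x - ζ0 x).PosSemidef ∧ (ζ0 x).PosSemidef ∧ (ζ0 x).rank ≤ m) →
  (∀ j, s j ∈ Ioc (0 : ℝ) 1 ∧ ∀ x, s j * trm (h (s j) x) (ζ x) ≤ B) → Tendsto s atTop (𝓝 0) →
  Tendsto (fun j => vl g μ (fun x => -M.ricF g x + (σ x + (s j : ℂ) • ζ x)) / s j ^ m) atTop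
    (𝓝 v) →
  Tendsto (fun j => av g μ (h (s j)) fun x => s j * trm (h (s j) x) (ζ x - ζ0 x)) atTop (𝓝 0) →
  ∀ t : ℝ, vl g μ (fun x => -M.ricF g x + (σ x + (t : ℂ) • ζ0 x)) = v * t ^ m

/-- the volume polynomial in two variables. -/
def TwoV : Prop := ∀ g μ, M.IsK g → M.IsVol g μ → NefA M g → ∀ (σ ξ ξ' : X → Mat ι) (a b : ℕ)
  (v v' : ℝ), M.ClF σ → M.ClF ξ → M.ClF ξ' →
  (∀ x, (ξ x).PosSemidef ∧ (ξ' x).PosSemidef ∧ (σ x - ξ' x).PosSemidef ∧ (ξ x).rank ≤ a) →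
  (∀ t : ℝ, vl g μ (fun x => -M.ricF g x + (σ x + (t : ℂ) • ξ x)) = v * t ^ a) →
  (∀ t : ℝ, vl g μ (fun x => -M.ricF g x + (ξ x + (t : ℂ) • ξ' x)) = v' * t ^ b) →
  ∀ t : ℝ, vl g μ (fun x => -M.ricF g x + (t : ℂ) • (ξ x + ξ' x)) = v' * t ^ (a + b)

/-- the pointwise bounds of the first stage. -/
def Q0S : Prop := ∀ g μ u h (r : Type) [Fintype r] [DecidableEq r] (D : Dt M p G r) (c : G → V r)
  (x : Y → V r) (τ ξ : X → Mat ι), D.PH → D.Aff c x → (∀ y, star (x y) = x y) → D.PX x →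
  D.Tau τ → D.Xi x ξ → Fm M g μ (fun y => ((Fintype.card ι + 1 : ℝ) : ℂ) • τ y) ξ u h →
  ∃ B, ∀ s ∈ Ioc (0 : ℝ) 1, ∀ y, s * trm (h s y) (ξ y) ≤ B ∧ trm (h s y) (τ y) ≤ B

/-- the first stage. -/
def St1 : Prop := ∀ g μ, M.IsK g → M.IsVol g μ → NefA M g →
  ∀ (r : Type) [Fintype r] [DecidableEq r] (D : Dt M p G r) (Q : Mat r) (c : G → V r)
    (x : Y → V r) (τ ξ : X → Mat ι), D.PH → D.Aff c x → D.PX x → D.Pol Q x → D.Tau τ → D.Xi x ξ →
    KCl M g (fun a => τ a + ξ a) → ∃ (m : ℕ) (E : Dt M p G (Fin (2 * m))) (Q' : Mat (Fin (2 * m)))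
      (c' : G → V (Fin (2 * m))) (x' : Y → V (Fin (2 * m))) (ξ' : X → Mat ι) (v : ℝ), 0 < v ∧
      E.Vh Q' c' x' ξ' ∧ ∀ t : ℝ, vl g μ (fun y => -M.ricF g y +
        (((Fintype.card ι + 1 : ℝ) : ℂ) • τ y + (t : ℂ) • ξ' y)) = v * t ^ m

/-- the second stage. -/
def St2 : Prop := ∀ g μ, M.IsK g → M.IsVol g μ → NefA M g →
  ∀ (r : Type) [Fintype r] [DecidableEq r] (D : Dt M p G r) (τ σ : X → Mat ι) (C : ℝ), D.PH →
    D.Tau τ → M.ClF σ → (∀ y, (σ y).PosSemidef) → 1 ≤ C → KCl M g (fun y => (C : ℂ) • τ y + σ y) →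
    ∃ (m : ℕ) (E : Dt M p G (Fin (2 * m))) (Q' : Mat (Fin (2 * m)))
      (c' : G → V (Fin (2 * m))) (x' : Y → V (Fin (2 * m))) (ξ' : X → Mat ι) (v : ℝ), 0 < v ∧
      E.Vh Q' c' x' ξ' ∧ (∀ y, (τ y - ξ' y).PosSemidef) ∧
      ∀ t : ℝ, vl g μ (fun y => -M.ricF g y + (σ y + (t : ℂ) • ξ' y)) = v * t ^ m

/-- the last step. -/
def FinS : Prop := ∀ g μ, M.IsK g → M.IsVol g μ → KB M g μ → ∀ (m : ℕ)
  (E : Dt M p G (Fin (2 * m))) (Q : Mat (Fin (2 * m))) (c : G → V (Fin (2 * m)))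
  (x : Y → V (Fin (2 * m))) (ξ : X → Mat ι) (v : ℝ), 0 < v → E.Vh Q c x ξ →
  (∀ t : ℝ, vl g μ (fun y => -M.ricF g y + (t : ℂ) • ξ y) = v * t ^ m) → ∃ h, E.Spl Q c x h ξ

end par

end Pool.Agent.Lib.MP_813db1_ag.VH
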