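import Pool.Agent.Lib.MP_813db1_ag.VH.StV
import Pool.Agent.Lib.MP_813db1_ag.VH.Cov

/-! Sums over the orbits, labels near a fibre. -/

namespace Pool.Agent.Lib.MP_813db1_ag.VH

open Pool.Agent.Lib.MP_813db1_ag.HS Pool.Agent.Lib.MP_813db1_ag.AS F12
open Filter Topology Set Metric
open scoped ContDiff

set_option linter.unusedSectionVars false

variable {ι X Y G : Type} [Fintype ι] [DecidableEq ι] [TopologicalSpace X] [TopologicalSpace Y]
  [Group G] [MulAction G Y] {M : Atl ι X} {p : Y → X}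

namespace VoAvg

variable {E E' : Type} [NormedAddCommGroup E] [NormedSpace ℝ E] [NormedAddCommGroup E']
  [NormedSpace ℝ E'] {K : Subgroup G} {a : G → E → E} {Φ Ψ : Y → E} {ζ : X → Mat ι} {y0 : Y}

theorem one (h : PM M p K a Φ) (b : E) : a 1 b = b := h.ker 1 K.one_mem b

theorem cos (h : PM M p K a Φ) {f g : G} (e : f⁻¹ * g ∈ K) (b : E) : a g b = a f b := by
  have := h.mul f (f⁻¹ * g) b
  rwa [mul_inv_cancel_left, h.ker _ e] at this

theorem out (h : PM M p K a Φ) (g : G) (b : E) : a (g : G ⧸ K).out b = a g b :=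
  cos h (QuotientGroup.eq.1 (QuotientGroup.out_eq' (g : G ⧸ K)).symm) b

theorem fin (h : PM M p K a Φ) (y : Y) (R : ℝ) : ∃ F : Finset (G ⧸ K), ∀ᶠ b in 𝓝 (Φ y),
    ∀ g : G, ‖a g b‖ ≤ R → (g : G ⧸ K) ∈ F := by
  classical
  obtain ⟨F, hF⟩ := h.fin y R
  refine ⟨F.image (↑), hF.mono fun b hb g hg => ?_⟩
  obtain ⟨f, h1, h2⟩ := hb g hg
  exact Finset.mem_image.2 ⟨f, h1, QuotientGroup.eq.2 h2⟩

theorem closed (hq : IsQuotientCoveringMap p G) (h : PM M p K a Φ) {C : Set E} (hC : IsClosed C)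
    (hb : Bornology.IsBounded C) : IsClosed (p '' (Φ ⁻¹' C)) := by
  obtain ⟨R, hR⟩ := hb.exists_norm_le
  rw [← hq.toIsQuotientMap.isClosed_preimage, ← isOpen_compl_iff, isOpen_iff_mem_nhds]
  intro y hy
  obtain ⟨F, hF⟩ := h.fin y R
  have h1 : ∀ᶠ b in 𝓝 (Φ y), ∀ f ∈ F, a f b ∉ C := (eventually_all_finset F).2 fun f _ =>
    (h.ct f).continuousAt.eventually_mem (hC.isOpen_compl.mem_nhds fun k =>
      hy ⟨f • y, by rwa [mem_preimage, h.eqv], hq.map_smul f⟩)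
  filter_upwards [(h.sm.cont (lh hq)).continuousAt.eventually (hF.and h1)] with u hu
  rintro ⟨u', k1, k2⟩
  obtain ⟨g, rfl⟩ := hq.apply_eq_iff_mem_orbit.1 k2
  have k3 : a g (Φ u) ∈ C := by rwa [mem_preimage, h.eqv] at k1
  obtain ⟨f, k4, k5⟩ := hu.1 g (hR _ k3)
  exact hu.2 f k4 (cos h k5 _ ▸ k3)

/-- domination near one point. -/
def DA (M : Atl ι X) (p : Y → X) (ζ : X → Mat ι) (f : Y → E) (y0 : Y) : Prop :=
  ∃ C : ℝ, ∀ᶠ y in 𝓝 y0, ∀ e ∈ M.A, ∀ z ∈ e.target, ∀ s, Sec p e z s → s z = y →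
    ∀ v, ‖fderiv ℝ (f ∘ s) z v‖ ^ 2 ≤ C * nV (M.repF ζ e z) v

theorem DA.congr (h : DA M p ζ Φ y0) (k : Ψ =ᶠ[𝓝 y0] Φ) : DA M p ζ Ψ y0 := by
  obtain ⟨C, hC⟩ := h
  refine ⟨C, (hC.and k.eventually_nhds).mono fun y hy e he z hz s hs h0 v => ?_⟩
  have : Ψ ∘ s =ᶠ[𝓝 z] Φ ∘ s := EventuallyEq.comp_tendsto hy.2 (h0 ▸ hs.1.tendsto)
  rw [this.fderiv_eq]
  exact hy.1 e he z hz s hs h0 v

theorem DA.smul (hq : IsQuotientCoveringMap p G) (g : G) (h : DA M p ζ Φ (g • y0)) :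
    DA M p ζ (fun y => Φ (g • y)) y0 := by
  obtain ⟨C, hC⟩ := h
  exact ⟨C, ((hq.continuous_const_smul g).continuousAt.eventually hC).mono
    fun y hy e he z hz s hs h0 v => hy e he z hz _ (hs.smul hq g) (congrArg (g • ·) h0) v⟩

theorem df (h : Sm M p Φ) {e : Ch ι X} (he : e ∈ M.A) {z : V ι} (hz : z ∈ e.target) {s : V ι → Y}
    (hs : Sec p e z s) : DifferentiableAt ℝ (Φ ∘ s) z :=
  (h e he z hz s hs).differentiableAt (by simp)

theorem DA.comp (hp : IsLocalHomeomorph p) (h : DA M p ζ Φ y0) (k : Sm M p Φ) {f : E → E'}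
    (hf : ContDiff ℝ ∞ f) : DA M p ζ (fun y => f (Φ y)) y0 := by
  obtain ⟨C, hC⟩ := h
  have c : Continuous fun y => ‖fderiv ℝ f (Φ y)‖ :=
    ((hf.continuous_fderiv (by simp)).comp (k.cont hp)).norm
  refine ⟨(‖fderiv ℝ f (Φ y0)‖ + 1) ^ 2 * C, (hC.and (c.continuousAt.eventually_lt
    continuousAt_const (lt_add_one ‖fderiv ℝ f (Φ y0)‖))).mono fun y hy e he z hz s hs h0 v => ?_⟩
  have e1 : fderiv ℝ ((fun y => f (Φ y)) ∘ s) z v = fderiv ℝ f (Φ y) (fderiv ℝ (Φ ∘ s) z v) := by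
    rw [← h0]
    exact congrArg (fun A => A v)
      (fderiv_comp z (hf.differentiable (by simp) ((Φ ∘ s) z)) (df k he hz hs))
  rw [e1, mul_assoc]
  refine le_trans ?_ (mul_le_mul_of_nonneg_left (hy.1 e he z hz s hs h0 v) (sq_nonneg _))
  rw [← mul_pow]
  exact pow_le_pow_left₀ (norm_nonneg _) ((ContinuousLinearMap.le_opNorm _ _).trans
    (mul_le_mul_of_nonneg_right hy.2.le (norm_nonneg _))) 2

theorem sm_sum {κ : Type} (F : Finset κ) {f : κ → Y → E} (h : ∀ q, Sm M p (f q)) :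
    Sm M p fun y => ∑ q ∈ F, f q y :=
  fun e he z hz s hs => ContDiffAt.sum fun q _ => h q e he z hz s hs

theorem DA.sum {κ : Type} (F : Finset κ) {f : κ → Y → E} (k : ∀ q, Sm M p (f q))
    (h : ∀ q, DA M p ζ (f q) y0) : DA M p ζ (fun y => ∑ q ∈ F, f q y) y0 := by
  choose C hC using h
  refine ⟨F.card * ∑ q ∈ F, C q, ((eventually_all_finset F).2 fun q _ => hC q).mono
    fun y hy e he z hz s hs h0 v => ?_⟩
  have e1 : fderiv ℝ ((fun y => ∑ q ∈ F, f q y) ∘ s) z v = ∑ q ∈ F, fderiv ℝ (f q ∘ s) z v := by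
    rw [← sum_apply, ← fderiv_fun_sum fun q _ => df (k q) he hz hs]
    rfl
  rw [e1, mul_assoc, Finset.sum_mul]
  refine (pow_le_pow_left₀ (norm_nonneg _) (norm_sum_le _ _) 2).trans
    (sq_sum_le_card_mul_sum_sq.trans (mul_le_mul_of_nonneg_left
      (Finset.sum_le_sum fun q hq => hy q hq e he z hz s hs h0 v) (Nat.cast_nonneg _)))

theorem sm_term (hq : IsQuotientCoveringMap p G) (h : Sm M p Φ) {f : E → E'} (hf : ContDiff ℝ ∞ f)
    (g : G) : Sm M p fun y => f (Φ (g • y)) :=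
  fun e he z hz _ hs => hf.contDiffAt.comp z (h e he z hz _ (hs.smul hq g))

end VoAvg

open VoAvg

theorem avgS (hq : IsQuotientCoveringMap p G) : AvgS M p G := by
  intro E _ _ K a Φ h
  refine ⟨fun C => closed hq h, fun f hf hb => ?_⟩
  obtain ⟨R, hR⟩ := hb.exists_norm_le
  have := h.nor
  have cΦ := h.sm.cont (lh hq)
  let F : E → ℝ := fun b => ∑ᶠ q : G ⧸ K, f (a q.out b)
  have k1 : ∀ y, ∃ S : Finset (G ⧸ K), ∀ᶠ b in 𝓝 (Φ y),
      (Function.support fun q : G ⧸ K => f (a q.out b)) ⊆ S := fun y => by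
    obtain ⟨S, hS⟩ := fin h y R
    refine ⟨S, hS.mono fun b hb q k => ?_⟩
    have := hb _ (hR _ k)
    rwa [QuotientGroup.out_eq'] at this
  have k2 : ∀ y, ∃ S : Finset (G ⧸ K), F =ᶠ[𝓝 (Φ y)] fun b => ∑ q ∈ S, f (a q.out b) := fun y =>
    (k1 y).imp fun S hS => hS.mono fun b hb => finsum_eq_sum_of_support_subset _ hb
  have k3 : ∀ g b, F (a g b) = F b := fun g b => by
    refine Eq.trans (finsum_congr fun q => ?_) (finsum_comp_equiv (Equiv.mulRight (g : G ⧸ K)))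
    rw [← h.mul, ← out h (q.out * g), QuotientGroup.mk_mul, QuotientGroup.out_eq']
    rfl
  obtain ⟨T, hT⟩ := desc0 hq (fun y => F (Φ y)) fun g y => by rw [h.eqv, k3]
  have k4 : ∀ y, ∃ S : Finset (G ⧸ K),
      T ∘ p =ᶠ[𝓝 y] fun u => ∑ q ∈ S, f (Φ (q.out • u)) := fun y =>
    (k2 y).imp fun S hS => (cΦ.continuousAt.eventually hS).mono fun u hu => by
      rw [Function.comp_apply, hT, hu]
      simp only [h.eqv]
  have k5 : ∀ (e : Ch ι X) z s, Sec p e z s → ∃ S : Finset (G ⧸ K),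
      (T ∘ p) ∘ s =ᶠ[𝓝 z] (fun u => ∑ q ∈ S, f (Φ (q.out • u))) ∘ s := fun e z s hs =>
    (k4 (s z)).imp fun S hS => hS.comp_tendsto hs.1
  refine ⟨F, T, hT, fun y => ?_, fun e he z hz => ?_, fun ζ U k e he z hz s hs hU v hv => ?_,
    fun ζ k y0 => ?_, fun y => ?_⟩
  · obtain ⟨S, hS⟩ := k2 y
    exact (continuous_finsetSum S fun q _ => hf.continuous.comp (h.ct _)).continuousAt.congr
      hS.symm
  · obtain ⟨s, hs⟩ := sec_ex' hq hz
    obtain ⟨S, hS⟩ := k5 e z s hs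
    refine (Complex.ofRealCLM.contDiff.contDiffAt.comp z ((sm_sum S (fun q =>
      sm_term hq h.sm hf q.out) e he z hz s hs).congr_of_eventuallyEq hS)).congr_of_eventuallyEq ?_
    exact hs.2.mono fun w hw => by simp only [fn, Function.comp_apply, hw, Complex.ofRealCLM_apply]
  · obtain ⟨S, hS⟩ := k5 e z s hs
    have e1 : fderiv ℝ ((fun u => ∑ q ∈ S, f (Φ (q.out • u))) ∘ s) z =
        ∑ q ∈ S, fderiv ℝ ((fun u => f (Φ (q.out • u))) ∘ s) z :=
      fderiv_fun_sum fun q _ => df (sm_term hq h.sm hf q.out) he hz hs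
    rw [hS.fderiv_eq, e1, sum_apply]
    refine Finset.sum_eq_zero fun q _ => ?_
    have e2 := fderiv_comp z (hf.differentiable (by simp) _) (df h.sm he hz (hs.smul hq q.out))
    refine (congrArg (fun A => A v) e2).trans ?_
    simp only [ContinuousLinearMap.comp_apply]
    rw [k e he z hz _ (hs.smul hq q.out) hU v hv, map_zero]
  · obtain ⟨S, hS⟩ := k4 y0
    refine DA.congr (DA.sum S (fun q => sm_term hq h.sm hf q.out) fun q => ?_) hS
    exact DA.smul hq (Φ := fun y => f (Φ y)) q.out (DA.comp (lh hq) (k _) h.sm hf)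
  · obtain ⟨S, hS⟩ := k1 y
    simp only [h.eqv]
    exact ⟨S.finite_toSet.subset hS.self_of_nhds, hT y⟩

theorem labS (hq : IsQuotientCoveringMap p G) (hA : AvgS M p G) : LabS M p G := by
  classical
  intro E _ _ _ K a Φ h y0 W hW
  have := h.nor
  have cΦ := h.sm.cont (lh hq)
  obtain ⟨b, hb⟩ : ∃ b, b = Φ y0 := ⟨_, rfl⟩
  let Γ : Subgroup G :=
    { carrier := {g | a g b = b}
      one_mem' := one h b
      mul_mem' := fun {g g'} k k' => by
        rw [mem_ofPred_eq] at k k' ⊢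
        rw [h.mul, k', k]
      inv_mem' := fun {g} k => by
        rw [mem_ofPred_eq] at k ⊢
        have := h.mul g⁻¹ g b
        rw [inv_mul_cancel, one h, k] at this
        exact this.symm }
  obtain ⟨F, hF⟩ := h.fin y0 (‖b‖ + 1)
  rw [← hb] at hF hW
  have h1 : ∀ᶠ q : E × E in 𝓝 (b, b), ∀ f ∈ F, a f b ≠ b → a f q.1 ≠ q.2 :=
    (eventually_all_finset F).2 fun f _ => by
      by_cases k : a f b = b
      · exact Eventually.of_forall fun _ k' => absurd k k'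
      · exact ((isOpen_ne_fun ((h.ct f).comp continuous_fst) continuous_snd).eventually_mem
          (x := (b, b)) k).mono fun _ k' _ => k'
  obtain ⟨A, hA1, hA2⟩ : ∃ A ∈ 𝓝 b, ∀ u ∈ A, ∀ v ∈ A, ∀ f ∈ F, a f b ≠ b → a f u ≠ v := by
    rw [nhds_prod_eq] at h1
    exact (eventually_prod_self_iff (r := fun u v => ∀ f ∈ F, a f b ≠ b → a f u ≠ v)).1 h1
  obtain ⟨ε, hε, hB⟩ := Metric.mem_nhds_iff.1
    (inter_mem (inter_mem hA1 hW) (inter_mem hF (ball_mem_nhds b one_pos)))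
  have key : ∀ g u, u ∈ ball b ε → a g u ∈ ball b ε → g ∈ Γ := fun g u k k' => by
    obtain ⟨f, k1, k2⟩ := (hB k).2.1 g (by
      have := mem_ball_iff_norm.1 (hB k').2.2
      have := norm_le_norm_add_norm_sub' (a g u) b
      linarith)
    show a g b = b
    rw [cos h k2]
    by_contra k3
    exact hA2 u (hB k).1.1 _ (hB k').1.1 f k1 k3 (cos h k2 u).symm
  let l : Y → G ⧸ Γ := fun y =>
    if k : ∃ g : G, Φ (g⁻¹ • y) ∈ ball b ε then (k.choose : G ⧸ Γ) else ((1 : G) : G ⧸ Γ)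
  have hl : ∀ (g : G) y, Φ (g⁻¹ • y) ∈ ball b ε → l y = (g : G ⧸ Γ) := fun g y k => by
    have k1 : ∃ g : G, Φ (g⁻¹ • y) ∈ ball b ε := ⟨g, k⟩
    show dite _ _ _ = _
    rw [dif_pos k1]
    refine (QuotientGroup.eq.2 (key _ _ k1.choose_spec ?_)).symm
    rwa [← h.eqv, smul_smul, mul_inv_cancel_right]
  have hO : ∀ y, p y ∈ p '' (Φ ⁻¹' ball b ε) → ∃ g : G, Φ (g⁻¹ • y) ∈ ball b ε := by
    rintro y ⟨u, k1, k2⟩
    obtain ⟨g, rfl⟩ := hq.apply_eq_iff_mem_orbit.1 k2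
    exact ⟨g⁻¹, by rwa [inv_inv]⟩
  let β : ContDiffBump b := ⟨ε / 4, ε / 2, by positivity, by linarith⟩
  obtain ⟨c1, c2⟩ := hA E K a Φ h
  obtain ⟨-, T, -, -, t1, t2, -, t3⟩ := c2 β β.contDiff (by
    rw [β.support_eq]; exact isBounded_ball)
  refine ⟨Γ, p '' (Φ ⁻¹' ball b ε), l, T, ?_, (lh hq).isOpenMap _ (isOpen_ball.preimage cΦ),
    ?_, fun g y k => ?_, fun y k => ?_, t1, fun x => ?_, ?_, ?_, t2⟩
  · obtain ⟨S, hS⟩ := fin h y0 ‖b‖
    rw [← QuotientGroup.ker_mk' K, Subgroup.relIndex_ker]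
    have : Finite (Γ.map (QuotientGroup.mk' K)) := (S.finite_toSet.subset (by
      rintro _ ⟨g, k, rfl⟩
      refine hS.self_of_nhds g ?_
      rw [← hb, show a g b = b from k])).to_subtype
    exact Nat.card_pos.ne'
  · rintro _ ⟨y, k, rfl⟩
    exact ⟨y, rfl, (hB k).1.2⟩
  · obtain ⟨g', k'⟩ := hO y k
    rw [hl g' y k', hl (g * g') (g • y) (by rwa [mul_inv_rev, mul_smul, inv_smul_smul])]
    rfl
  · obtain ⟨g, k'⟩ := hO y k
    filter_upwards [(cΦ.comp (hq.continuous_const_smul g⁻¹)).continuousAt.eventually_mem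
      (isOpen_ball.mem_nhds k')] with u hu
    rw [hl g y k', hl g u hu]
  · obtain ⟨y, rfl⟩ := hq.surjective x
    rw [(t3 y).2]
    exact finsum_nonneg fun q => β.nonneg
  · refine (closure_minimal (fun x k => ?_) (c1 (closedBall b (ε / 2)) isClosed_closedBall
      isBounded_closedBall)).trans (image_mono (preimage_mono (closedBall_subset_ball (by linarith))))
    obtain ⟨y, rfl⟩ := hq.surjective x
    rw [Function.mem_support, (t3 y).2] at k
    obtain ⟨q, k1⟩ := not_forall.1 (mt finsum_eq_zero_of_forall_eq_zero k)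
    refine ⟨q.out • y, ball_subset_closedBall ?_, hq.map_smul _⟩
    have k2 : Φ (q.out • y) ∈ Function.support β := k1
    rwa [β.support_eq] at k2
  · rw [(t3 y0).2]
    refine lt_of_lt_of_le ?_ (single_le_finsum ((1 : G) : G ⧸ K) (t3 y0).1 fun q => β.nonneg)
    rw [h.eqv, out h, one h, ← hb, β.one_of_mem_closedBall (mem_closedBall_self β.rIn_pos.le)]
    exact one_pos

end Pool.Agent.Lib.MP_813db1_ag.VH
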