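import Pool.Agent.Lib.MP_813db1_ag.VH.NulV

/-! The Kaehler form along the kernel of a semipositive form. -/

namespace Pool.Agent.Lib.MP_813db1_ag.VH

open Pool.Agent.Lib.MP_813db1_ag.HS Pool.Agent.Lib.MP_813db1_ag.HS.RepA
open Pool.Agent.Lib.MP_813db1_ag.AS Pool.Agent.Lib.MP_813db1_ag.AS.Pf
open Pool.Agent.Lib.MP_813db1_ag.AS.F3
open MeasureTheory Filter Topology Set Function Module
open scoped ContDiff ComplexOrder

namespace VoF3

variable {ι X : Type} [Fintype ι] [DecidableEq ι] [TopologicalSpace X] {M : Atl ι X}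

theorem comb (B : ι → Bil (V ι)) (k : ι) (A C : Bil (V ι)) (r : ℝ) (v : ι × Fin 2 → V ι) :
    P (update B k (A + r • C)) v = P (update B k A) v + r * P (update B k C) v := by
  simp only [P_upd, Finset.mul_sum, ← Finset.sum_add_distrib]
  refine Finset.sum_congr rfl fun σ _ => ?_
  simp only [_root_.add_apply, _root_.smul_apply, smul_eq_mul]
  ring

/-- a large subspace of the null space on which a functional vanishes. -/
theorem sub {Z : Mat ι} (h : Z.PosSemidef) {m : ℕ} (hm : Z.rank ≤ m) (l : V ι →L[ℝ] ℝ)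
    (hl : Z.rank = m → ∀ v, nV Z v = 0 → l v = 0) : ∃ W : Submodule ℝ (V ι),
    2 * Fintype.card ι ≤ finrank ℝ W + 2 * m ∧ ∀ w ∈ W, l w = 0 ∧ ∀ u, ipV Z w u = 0 := by
  obtain ⟨N, a, b, c⟩ := Nul.ex h
  have e : finrank ℝ (N.restrictScalars ℝ) = 2 * finrank ℂ N := finrank_real_of_complex N
  rcases hm.eq_or_lt with k | k
  · exact ⟨N.restrictScalars ℝ, by omega, fun w hw => ⟨hl k w ((a w).1 hw), fun u => (c w hw u).1⟩⟩
  · refine ⟨N.restrictScalars ℝ ⊓ LinearMap.ker (l : V ι →ₗ[ℝ] ℝ), ?_, fun w hw =>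
      ⟨hw.2, fun u => (c w hw.1 u).1⟩⟩
    have h1 := Submodule.finrank_sup_add_finrank_inf_eq (N.restrictScalars ℝ)
      (LinearMap.ker (l : V ι →ₗ[ℝ] ℝ))
    have h2 := (N.restrictScalars ℝ ⊔ LinearMap.ker (l : V ι →ₗ[ℝ] ℝ)).finrank_le
    have h3 := (l : V ι →ₗ[ℝ] ℝ).finrank_range_add_finrank_ker
    have h4 := (LinearMap.range (l : V ι →ₗ[ℝ] ℝ)).finrank_le
    rw [finrank_self] at h4
    omega

theorem nab_smul {φ : X → ℝ} {γ : X → Cv ι} {U : Set X} (hφ : M.Ck ∞ φ) (hγ : F3.Sm M γ U) {x : X}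
    (hx : x ∈ U) : ∃ c : Cv ι, nab M (fun y => φ y • γ y) x =
      (dd M φ x).smulRight c + φ x • nab M γ x := by
  refine ⟨rep1 M γ (M.ch x) (M.ch x x), ContinuousLinearMap.ext fun u => ?_⟩
  have h := (fd_smul (contDiffAt_ofReal.1 (hφ _ (M.ch_mem x) _ ((M.ch x).map_source (M.mem x))))
    (Or.inl (hγ.at (M.ch_mem x) (M.mem x) hx))).2 u
  have e : rep1 M (fun y => φ y • γ y) (M.ch x) =
      fun z => φ ((M.ch x).symm z) • rep1 M γ (M.ch x) z := rfl
  rw [nab, e, h, (M.ch x).left_inv (M.mem x)]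
  rfl

end VoF3

variable {ι X : Type} [Fintype ι] [DecidableEq ι] [TopologicalSpace X] [T2Space X] [CompactSpace X]
  {M : Atl ι X}

open VoF3 in
theorem f3V (hl : PosV) (hn : VanV) (hL : LocP M) : F3V M := by
  intro κ _ g ζ m U a f φ hg hζ hz hr hU hm ha hf hφ φ0 hc hd x0 x0r
  classical
  borelize X
  by_contra x0n
  have hp := pou AY.repA' AY.repB'
  obtain ⟨⟨μ, hμ⟩, hv⟩ := volS (repA mat) mat ι X M g hg
  have hv := hv μ hμ
  obtain ⟨K, hKd⟩ : ∃ K, K = tsupport φ := ⟨_, rfl⟩
  have hK : IsClosed K := hKd ▸ isClosed_tsupport φ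
  have φK : ∀ x ∉ K, φ x = 0 := fun x hx => image_eq_zero_of_notMem_tsupport (hKd ▸ hx)
  rw [← hKd] at hc
  have x0K : x0 ∈ K := by_contra fun c => x0n (φK _ c)
  obtain ⟨i0, hi0⟩ := hc x0 x0K
  obtain ⟨S0, -, hS0⟩ := Finset.exists_subset_card_eq (s := (Finset.univ : Finset ι)) (n := m)
    (by have := hm i0 x0 hi0; rw [Finset.card_univ]; omega)
  choose L oL mL b hb using hL ζ hζ
  have : ∀ x, ∃ i, ∀ j, x ∈ U j → x ∈ U i := fun x => by
    by_cases h : ∃ j, x ∈ U j
    · obtain ⟨j, hj⟩ := h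
      exact ⟨j, fun _ _ => hj⟩
    · exact ⟨i0, fun j k => absurd ⟨j, k⟩ h⟩
  choose i hi' using this
  have hi : ∀ x ∈ K, x ∈ U (i x) := fun x hx => by
    obtain ⟨j, hj⟩ := hc x hx
    exact hi' x j hj
  have mt : ∀ x, M.ch x x ∈ (M.ch x).target := fun x => (M.ch x).map_source (M.mem x)
  have li : ∀ x, (M.ch x).symm (M.ch x x) = x := fun x => (M.ch x).left_inv (M.mem x)
  obtain ⟨χ, x1, x2⟩ := hp ι X M (Option κ) (fun o => o.elim Kᶜ U)
    (fun o => by cases o; exacts [hK.isOpen_compl, hU _]) fun x => by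
      by_cases h : x ∈ K
      exacts [⟨some (i x), hi x h⟩, ⟨none, h⟩]
  let O' : Set X := (tsupport (χ none))ᶜ
  have oO : IsOpen O' := (isClosed_tsupport _).isOpen_compl
  have KO : ∀ x ∈ K, x ∈ O' := fun x hx h => (x1 none).2.2 h hx
  let T : Option κ → Set X := fun o => o.elim ∅ U
  let γ : X → Cv ι := fun x => ∑ j, χ j x • a (j.getD i0) x +
    ∑ j, ∑ k, (χ k x * f (j.getD i0) (k.getD i0) x) • dd M (χ j) x
  have rg : ∀ e ∈ M.A, ∀ z ∈ e.target, rep1 M γ e =ᶠ[𝓝 z] fun y =>
      ∑ j, (χ j ∘ e.symm) y • rep1 M (a (j.getD i0)) e y +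
        ∑ j, ∑ k, ((χ k ∘ e.symm) y * (f (j.getD i0) (k.getD i0) ∘ e.symm) y) •
          fderiv ℝ (χ j ∘ e.symm) y := by
    intro e he z hz
    filter_upwards [e.open_target.mem_nhds hz] with y hy
    simp only [← fun j => rep1_dd (x1 j).1 he hy]
    simp only [rep1, γ, ContinuousLinearMap.add_comp, ContinuousLinearMap.finsetSum_comp,
      ContinuousLinearMap.smul_comp, Function.comp_apply]
  have evz : ∀ e : Ch ι X, ∀ z ∈ e.target, e.symm z ∈ O' → ∀ j, e.symm z ∉ T j →
      χ j ∘ e.symm =ᶠ[𝓝 z] fun _ => 0 := fun e z hz h j k => by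
    cases j
    exacts [ev_zero subset_rfl hz h, ev_zero (x1 _).2.2 hz k]
  have loc := fun e (he : e ∈ M.A) z (hz : z ∈ e.target) (h : e.symm z ∈ O') =>
    loc_alt (χ := fun j => χ j ∘ e.symm) (a := fun j => rep1 M (a (j.getD i0)) e)
    (f := fun j k => f (j.getD i0) (k.getD i0) ∘ e.symm) (z := z)
    (S := fun j => e.symm z ∈ T j) (w := fun u v => (ipV (M.repF g e z) u v).im)
    (fun j => contDiffAt_ofReal.1 ((x1 j).1 e he z hz)) (fun y => x2 _) (evz e z hz h)
    (fun j h => by cases j; exacts [h.elim, ha _ e he z hz h]) fun j k h h' => by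
      cases j
      · exact h.elim
      · cases k
        exacts [h'.elim, hf _ _ e he z hz ⟨h, h'⟩]
  have sγ : F3.Sm M γ O' := fun e he z hz h =>
    (loc e he z hz h).1.congr_of_eventuallyEq (rg e he z hz)
  have aW : ∀ {g a U}, Prim M g a U → ∀ x ∈ U, ∀ u v, nab M a x u v - nab M a x v u =
      (ipV (g x) u v).im := fun {g a U} ha x hx u v => by
    rw [← repF_self M g x]
    exact (ha _ (M.ch_mem x) _ (mt x) (by rwa [li])).2 u v
  let B0 : X → ι → Bil (V ι) := fun x =>
    S0.piecewise (fun _ => nab M (b x) x) fun _ => nab M (a (i x)) x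
  let B : Finset ι → X → ι → Bil (V ι) := fun S x =>
    S.piecewise (fun _ => nab M (a (i x)) x - nab M γ x) (B0 x)
  have Bs : ∀ S : Finset ι, (∀ k ∈ S, k ∉ S0) → ∀ x, ∀ k ∈ S0, B S x k = nab M (b x) x :=
    fun S hS x k hk => by
      simp only [B, B0]
      rw [Finset.piecewise_eq_of_notMem _ _ _ fun c => hS _ c hk,
        Finset.piecewise_eq_of_mem _ _ _ hk]
  have Bn : ∀ S : Finset ι, ∀ k ∉ S, k ∉ S0 → ∀ x, B S x k = nab M (a (i x)) x :=
    fun S k hk hk' x => by
      simp only [B, B0]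
      rw [Finset.piecewise_eq_of_notMem _ _ _ hk, Finset.piecewise_eq_of_notMem _ _ _ hk']
  have bz : ∀ x w, (∀ u, ipV (ζ x) w u = 0) → ∀ u, nab M (b x) x w u = nab M (b x) x u w :=
    fun x w h u => by rw [← sub_eq_zero, aW (hb x) x (mL x), h, Complex.zero_im]
  have hS1 : ∀ k ∈ S0ᶜ, k ∉ S0 := fun k hk => Finset.mem_compl.1 hk
  have van : ∀ x ∈ K, P (B S0ᶜ x) (bs ι) = 0 := fun x hx => by
    have hx' : (M.ch x).symm (M.ch x x) ∈ O' := by rw [li]; exact KO x hx
    obtain ⟨-, l2, l3⟩ := loc _ (M.ch_mem x) _ (mt x) hx'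
    obtain ⟨W, w1, w2⟩ := sub (hz x) (hr x) 0 fun _ _ _ => rfl
    obtain ⟨w, h1, h2⟩ := ker (fun j => (fderiv ℝ (χ j ∘ (M.ch x).symm) (M.ch x x)).comp
      W.subtypeL) (S := some '' {j | x ∈ U j}) ⟨_, hi x hx, rfl⟩ (by
      rw [ncard_image_of_injective _ (Option.some_injective _)]
      have := hm _ x (hi x hx)
      omega) (fun j h => by
        rw [(evz _ _ (mt x) hx' j (by
          rw [li]
          cases j
          exacts [id, fun k => h ⟨_, k, rfl⟩])).fderiv_eq]
        simp) (by rw [← ContinuousLinearMap.finsetSum_comp, l2]; simp)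
    refine P_zero _ _ (w := w) (fun c => h1 (Subtype.ext c)) fun k u => ?_
    by_cases c : k ∈ S0
    · rw [Bs _ hS1 x k c]
      exact bz x w (w2 w w.2).2 u
    · have h3 := l3 w u h2
      rw [← (rg _ (M.ch_mem x) _ (mt x)).fderiv_eq, repF_self, ← aW (ha _) x (hi x hx)] at h3
      simp only [B]
      rw [S0ᶜ.piecewise_eq_of_mem _ _ (Finset.mem_compl.2 c)]
      simp only [_root_.sub_apply, nab] at h3 ⊢
      linarith
  have op' : ∀ y, IsOpen (U (i y) ∩ O' ∩ L y) := fun y => ((hU _).inter oO).inter (oL y)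
  have op : ∀ y, IsOpen ((M.ch y).source ∩ (U (i y) ∩ O' ∩ L y)) := fun y =>
    (M.ch y).open_source.inter (op' y)
  obtain ⟨t, ht⟩ := hK.isCompact.elim_finite_subcover _ op fun x hx =>
    mem_iUnion.2 ⟨x, M.mem x, ⟨hi x hx, KO x hx⟩, mL x⟩
  obtain ⟨ψ, y1, y2⟩ := hp ι X M (Option t)
    (fun o => o.elim Kᶜ fun s => (M.ch s).source ∩ (U (i s) ∩ O' ∩ L s))
    (fun o => by cases o; exacts [hK.isOpen_compl, op _]) fun x => by
      by_cases h : x ∈ K
      · obtain ⟨s, s1, s2⟩ := mem_iUnion₂.1 (ht h)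
        exact ⟨some ⟨s, s1⟩, s2⟩
      · exact ⟨none, h⟩
  let γ' : X → Cv ι := fun x => φ x • γ x
  have sη : ∀ s, F3.Sm M (fun x => ψ s x • γ' x) O' := fun s e he z hz h =>
    (contDiffAt_ofReal.1 ((y1 s).1 e he z hz)).smul
      ((contDiffAt_ofReal.1 (hφ e he z hz)).smul (sγ e he z hz h))
  have z0 : ∀ s, ∀ y ∉ tsupport (ψ s), ψ s y • γ' y = 0 := fun s y hy => by
    simp [image_eq_zero_of_notMem_tsupport hy]
  have sn : ∀ x ∈ K, nab M γ' x = ∑ s : t, nab M (fun x => ψ (some s) x • γ' x) x := fun x hx => by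
    have h : nab M γ' x = ∑ s, nab M (fun x => ψ s x • γ' x) x := by
      simp only [nab]
      rw [← fderiv_fun_sum fun s _ => df ((sη s).at (M.ch_mem x) (M.mem x) (KO x hx))]
      congr 1
      funext z
      simp only [rep1, ← ContinuousLinearMap.finsetSum_comp, ← Finset.sum_smul, y2, one_smul]
    rw [h, Fintype.sum_option, nab_zero (isClosed_tsupport _) (z0 none)
      fun c => (y1 none).2.2 c hx]
    ext u v
    simp
  have := hv.fin
  have := hv.pos
  have ig : ∀ {F : X → ℝ}, Continuous F → Integrable F μ := fun h =>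
    h.integrable_of_hasCompactSupport (HasCompactSupport.of_compactSpace _)
  let N : Finset ι → X → ℝ := fun S x => φ x * F3.den g (B S) x
  have key : ∀ S : Finset ι, (∀ k ∈ S, k ∉ S0) → (Continuous fun x => N ∅ x - N S x) ∧
      ∫ x, N ∅ x - N S x ∂μ = 0 := by
    intro S
    induction S using Finset.induction_on with
    | empty => simp [continuous_const]
    | insert k S hk ih =>
      intro hS
      have hk' := hS k (Finset.mem_insert_self _ _)
      have hS' : ∀ k ∈ S, k ∉ S0 := fun l c => hS l (Finset.mem_insert_of_mem c)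
      have ih := ih hS'
      have Z := fun s : t => zero_int hv hg (M.ch_mem s) (op' s)
        (isClosed_tsupport (ψ (some s))) (y1 (some s)).2.2 (B := B S)
        (c := S.piecewise (fun _ x => a (i s) x - γ x) (S0.piecewise (fun _ => b s)
          fun _ => a (i s))) (fun l => by
          by_cases c : l ∈ S
          · rw [Finset.piecewise_eq_of_mem _ _ _ c]
            exact fun e he z hz h => (ha _ e he z hz h.1.1).1.sub (sγ e he z hz h.1.2)
          · rw [Finset.piecewise_eq_of_notMem _ _ _ c]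
            by_cases c' : l ∈ S0
            · rw [Finset.piecewise_eq_of_mem _ _ _ c']
              exact fun e he z hz h => (hb _ e he z hz h.2).1
            · rw [Finset.piecewise_eq_of_notMem _ _ _ c']
              exact fun e he z hz h => (ha _ e he z hz h.1.1).1) (fun x hx l u v => by
          have h1 := aW (ha _) x hx.1.1 u v
          have h2 := aW (ha _) x (hi' x _ hx.1.1) u v
          by_cases c : l ∈ S
          · have h3 : nab M (fun x => a (i s) x - γ x) x = nab M (a (i s)) x - nab M γ x :=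
              fderiv_fun_sub (df (ha _ _ (M.ch_mem x) _ (mt x) (by rw [li]; exact hx.1.1)).1)
                (df (sγ.at (M.ch_mem x) (M.mem x) hx.1.2))
            simp only [B, Finset.piecewise_eq_of_mem _ _ _ c, h3, _root_.sub_apply]
            linarith
          · rw [Finset.piecewise_eq_of_notMem _ _ _ c]
            by_cases c' : l ∈ S0
            · rw [Finset.piecewise_eq_of_mem _ _ _ c', Bs _ hS' x l c', aW (hb x) x (mL x),
                aW (hb s) x hx.2]
            · rw [Finset.piecewise_eq_of_notMem _ _ _ c', Bn _ _ c c']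
              linarith) (fun e he z hz h => sη (some s) e he z hz h.1.2) (z0 (some s)) k
      have e : (fun x => N ∅ x - N (insert k S) x) = fun x => (N ∅ x - N S x) + ∑ s : t,
          F3.den g (fun x => update (B S x) k (nab M (fun x => ψ (some s) x • γ' x) x)) x :=
        funext fun x => by
        by_cases hx : x ∈ K
        · have h1 : B S x = update (B S x) k (nab M (a (i x)) x) := by
            rw [← Bn S k hk hk', update_eq_self]
          have h2 : B (insert k S) x = update (B S x) k (nab M (a (i x)) x - nab M γ x) :=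
            Finset.piecewise_insert _ _ _ _
          have h3 := P_sub (B S x) k (nab M (a (i x)) x) (nab M (a (i x)) x - nab M γ x) (bs ι)
          rw [← h1, ← h2, _root_.sub_sub_cancel (nab M (a (i x)) x)] at h3
          obtain ⟨c, h4⟩ := nab_smul hφ sγ (KO x hx)
          obtain ⟨W, w1, w2⟩ := sub (hz x) (hr x) (dd M φ x) (hd x)
          have h5 := hn ι S0 (update (B S x) k ((dd M φ x).smulRight c)) W k hk' (by omega)
            (fun l hl w hw u => by
              rw [update_of_ne (fun q : l = k => hk' (q ▸ hl)), Bs _ hS' x l hl]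
              exact bz x w (w2 w hw).2 u) fun u hu w hw => by
              simp [(w2 u hu).1, (w2 w hw).1]
          have h6 := P_sum Finset.univ (B S x) k
            (fun s : t => nab M (fun x => ψ (some s) x • γ' x) x) (bs ι)
          rw [← sn x hx, h4, comb, h5, ← h3] at h6
          simp only [N, F3.den, ← Finset.sum_div, ← h6]
          ring
        · simp only [N, φK x hx, zero_mul]
          rw [Finset.sum_eq_zero fun s _ => ?_, add_zero]
          rw [F3.den, nab_zero hK (fun y hy => by simp [γ', φK y hy]) hx,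
            P_symm _ _ (fun _ _ => rfl), zero_div]
      have c2 := continuous_finsetSum Finset.univ fun s _ => (Z s).1
      rw [e, integral_add (ig ih.1) (ig c2), ih.2, integral_finsetSum _ fun s _ => ig (Z s).1]
      exact ⟨ih.1.add c2, by simp only [fun s => (Z s).2, Finset.sum_const_zero, add_zero]⟩
  have h := key S0ᶜ hS1
  have e : ∀ x, N S0ᶜ x = 0 := fun x => by
    by_cases hx : x ∈ K
    · simp only [N, F3.den, van x hx, zero_div, mul_zero]
    · simp only [N, φK x hx, zero_mul]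
  simp only [e, sub_zero] at h
  have gp : ∀ x, (g x).PosDef := fun x => by
    rw [← repF_self M g x]
    exact (hg _ (M.ch_mem x)).2 _ (mt x)
  have pos := fun x (hx : x ∈ K) => hl ι S0 (g x) (ζ x) (B ∅ x) (gp x) (hz x)
    (fun k hk u v => by rw [Bs _ (by simp) x k hk, aW (hb x) x (mL x)])
    fun k hk u v => by rw [Bn _ _ (by simp) hk, aW (ha _) x (hi x hx)]
  have q : ∀ x, (-1) ^ Fintype.card ι * N ∅ x =
      φ x * ((-1) ^ Fintype.card ι * P (B ∅ x) (bs ι) / (g x).det.re) := fun x => by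
    simp only [N, F3.den]
    ring
  refine (Continuous.integral_pos_of_hasCompactSupport_nonneg_nonzero (μ := μ) (x := x0)
    (f := fun x => (-1) ^ Fintype.card ι * N ∅ x) (continuous_const.mul h.1)
    (HasCompactSupport.of_compactSpace _) (fun x => ?_) (ne_of_gt ?_)).ne' (by
      rw [integral_const_mul, h.2, mul_zero])
  · by_cases hx : x ∈ K
    · simp only [q]
      exact mul_nonneg (φ0 x) (div_nonneg (pos x hx).1 (Mat.det' (gp x)).1.le)
    · simp [N, φK x hx]
  · rw [q]
    exact mul_pos ((φ0 x0).lt_of_ne' x0n)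
      (div_pos ((pos x0 x0K).2 (by omega)) (Mat.det' (gp x0)).1)

end Pool.Agent.Lib.MP_813db1_ag.VH
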