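import Pool.Agent.Lib.MP_813db1_ag.VH.StV
import Pool.Agent.Lib.MP_813db1_ag.AN.PotL
import Pool.Agent.Lib.MP_813db1_ag.AS.F1
import Pool.Agent.Lib.MP_bbd4b9_ag.AR.Lin

/-! Mixed Pfaffians of semipositive forms, and local primitives. -/

namespace Pool.Agent.Lib.MP_813db1_ag.VH

open Pool.Agent.Lib.MP_813db1_ag.HS Pool.Agent.Lib.MP_813db1_ag.AS Pool.Agent.Lib.MP_bbd4b9_ag.AR
open Pf Complex Matrix Filter Topology Set Metric
open scoped ContDiff ComplexOrder

namespace VoLin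

variable {ι : Type} [Fintype ι] [DecidableEq ι]

omit [DecidableEq ι] in
theorem ip_fac (T : Mat ι) (u v : V ι) : (ipV (Tᴴ * T) u v).im =
    -1 * (∑ i, (Tᴴ.col i ⬝ᵥ u).re * (Tᴴ.col i ⬝ᵥ v).im) -
      -1 * ∑ i, (Tᴴ.col i ⬝ᵥ v).re * (Tᴴ.col i ⬝ᵥ u).im := by
  rw [Mat.ip_eq, ← mulVec_mulVec, dotProduct_mulVec, dotProduct, im_sum, ← mul_sub,
    ← Finset.sum_sub_distrib, Finset.mul_sum]
  refine Finset.sum_congr rfl fun i _ => ?_
  have e1 : (u ᵥ* Tᴴ) i = Tᴴ.col i ⬝ᵥ u := dotProduct_comm _ _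
  have e2 : (T *ᵥ star v) i = star (Tᴴ.col i ⬝ᵥ v) := by
    simp [mulVec, dotProduct, col]
  rw [e1, e2]
  simp only [mul_im, star_def, conj_re, conj_im]
  ring

theorem cols {T : Mat ι} {S : Finset ι} (h : S.card ≤ T.rank) :
    ∃ φ : ι → ι, LinearIndepOn ℂ (fun k => T.col (φ k)) (S : Set ι) := by
  obtain ⟨κ, a, ha, h1, h2⟩ := exists_linearIndependent' ℂ T.col
  have : Finite κ := Finite.of_injective a ha
  have := Fintype.ofFinite κ
  rw [rank_eq_finrank_span_cols, ← h1, finrank_span_eq_card h2, ← Fintype.card_coe] at h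
  obtain ⟨f⟩ := Function.Embedding.nonempty_of_card_le h
  refine ⟨fun k => if hk : k ∈ S then a (f ⟨k, hk⟩) else k, ?_⟩
  have := h2.comp f f.injective
  have e : (fun k : S => T.col (if hk : k.1 ∈ S then a (f ⟨k, hk⟩) else k)) = (T.col ∘ a) ∘ f :=
    funext fun k => congrArg T.col (dif_pos k.2)
  exact (congrArg (fun v => LinearIndependent ℂ v) e).mpr this

omit [DecidableEq ι] in
theorem form : ∃ L : ι → ℂ →L[ℝ] Cv ι, ∀ j a v, L j a v = (a * star (v j)).im :=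
  ⟨fun j => (ContinuousLinearMap.compL ℝ (V ι) ℂ ℝ imCLM).comp
    ((ContinuousLinearMap.mul ℝ ℂ).bilinearComp (ContinuousLinearMap.id ℝ ℂ)
      ((conjCLE : ℂ →L[ℝ] ℂ).comp (ContinuousLinearMap.proj j : V ι →L[ℝ] ℂ))),
    fun _ _ _ => rfl⟩

theorem unit {G : V ι → Mat ι} (h : ClOn G (ball 0 5)) : ∃ A : V ι → Cv ι,
    ∀ z ∈ ball (0 : V ι) 4, ContDiffAt ℝ ∞ A z ∧
      ∀ u v, fderiv ℝ A z u v - fderiv ℝ A z v u = (ipV (G z) u v).im := by
  obtain ⟨ρ, hρ⟩ := AN.potL G h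
  obtain ⟨L, hL⟩ := form (ι := ι)
  refine ⟨fun z => (1 / 2 : ℝ) • ∑ j, L j (dzb (fun w => (ρ w : ℂ)) j z), fun z hz => ?_⟩
  obtain ⟨h1, h2⟩ := hρ z hz
  have h3 : ContDiffAt ℝ ∞ (fun w => (ρ w : ℂ)) z := ofRealCLM.contDiff.contDiffAt.comp z h1
  have h4 := fun j => contDiffAt_dzb_top h3 j
  refine ⟨(ContDiffAt.sum fun j _ => (L j).contDiff.contDiffAt.comp z (h4 j)).const_smul _,
    fun u v => ?_⟩
  have h5 := ((HasFDerivAt.fun_sum (u := Finset.univ) fun j _ => (L j).hasFDerivAt.comp z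
    ((h4 j).differentiableAt (by simp)).hasFDerivAt).const_smul (1 / 2 : ℝ)).fderiv
  have h6 : ∀ u v, fderiv ℝ (fun z => (1 / 2 : ℝ) • ∑ j, L j (dzb (fun w => (ρ w : ℂ)) j z)) z u v =
      1 / 2 * (ipV (G z) u v + ∑ j, ∑ k, dzb (dzb (fun w => (ρ w : ℂ)) j) k z * star (u k) *
        star (v j)).im := fun u v => by
    rw [show fderiv ℝ (fun z => (1 / 2 : ℝ) • ∑ j, L j (dzb (fun w => (ρ w : ℂ)) j z)) z = _
      from h5]
    simp only [_root_.smul_apply, _root_.sum_apply, ContinuousLinearMap.comp_apply, hL,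
      fderiv_eq_dz, smul_eq_mul, ← im_sum, Finset.sum_mul, add_mul, Finset.sum_add_distrib]
    rw [ipV, Finset.sum_comm, ← h2]
    rfl
  have h7 : ipV (G z) v u = star (ipV (G z) u v) := by
    have := h.2.1 z (ball_subset_ball (by norm_num) hz)
    rw [ipV, ipV, Finset.sum_comm]
    simp only [star_sum, star_mul', star_star, this.apply]
    exact Finset.sum_congr rfl fun _ _ => Finset.sum_congr rfl fun _ _ => by ring
  have h8 : ∑ j, ∑ k, dzb (dzb (fun w => (ρ w : ℂ)) j) k z * star (v k) * star (u j) =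
      ∑ j, ∑ k, dzb (dzb (fun w => (ρ w : ℂ)) j) k z * star (u k) * star (v j) := by
    rw [Finset.sum_comm]
    refine Finset.sum_congr rfl fun j _ => Finset.sum_congr rfl fun k _ => ?_
    rw [dzb_dzb_comm (h3.of_le (by norm_cast)), mul_right_comm]
  rw [h6, h6, h7, h8]
  simp only [add_im, star_def, conj_im]
  ring

theorem loc {G : V ι → Mat ι} {T : Set (V ι)} (hT : IsOpen T) (h : ClOn G T) {z0 : V ι}
    (h0 : z0 ∈ T) : ∃ r > 0, ∃ A : V ι → Cv ι, ∀ z ∈ ball z0 r, ContDiffAt ℝ ∞ A z ∧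
      ∀ u v, fderiv ℝ A z u v - fderiv ℝ A z v u = (ipV (G z) u v).im := by
  obtain ⟨ε, hε, hb⟩ := Metric.isOpen_iff.1 hT z0 h0
  have c0 : 0 < ε / 5 := by positivity
  set c := ε / 5 with hc
  have hm : ∀ w ∈ ball (0 : V ι) 5, z0 + c • w ∈ T := fun w hw => hb (by
    rw [mem_ball_zero_iff] at hw
    rw [add_mem_ball_iff_norm, norm_smul, Real.norm_of_nonneg c0.le]
    nlinarith)
  have hφ : ∀ w : V ι, HasFDerivAt (fun w : V ι => z0 + c • w)
      (c • ContinuousLinearMap.id ℝ (V ι)) w := fun w =>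
    ((hasFDerivAt_id w).const_smul c).const_add z0
  have hd : ∀ w ∈ ball (0 : V ι) 5, ∀ i j k, dz (fun w => G (z0 + c • w) i j) k w =
      c * dz (fun w => G w i j) k (z0 + c • w) := fun w hw i j k => by
    have := (((h.1 _ (hm w hw) i j).differentiableAt (by simp)).hasFDerivAt.comp w (hφ w)).fderiv
    rw [dz, dz, show fderiv ℝ (fun w => G (z0 + c • w) i j) w = _ from this]
    simp only [ContinuousLinearMap.comp_apply, _root_.smul_apply, ContinuousLinearMap.id_apply,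
      map_smul, real_smul]
    ring
  obtain ⟨A, hA⟩ := unit (G := fun w => G (z0 + c • w)) ⟨fun w hw i j =>
    (h.1 _ (hm w hw) i j).comp w (contDiffAt_const.add (contDiffAt_id.const_smul c)),
    fun w hw => h.2.1 _ (hm w hw), fun w hw i j k => by
      rw [hd w hw, hd w hw, h.2.2 _ (hm w hw)]⟩
  refine ⟨4 * c, by positivity, fun z => c • A (c⁻¹ • (z - z0)), fun z hz => ?_⟩
  obtain ⟨h1, h2⟩ := hA (c⁻¹ • (z - z0)) (by
    rw [mem_ball_iff_norm] at hz
    rw [mem_ball_zero_iff, norm_smul, Real.norm_of_nonneg (inv_nonneg.2 c0.le),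
      inv_mul_lt_iff₀ c0]
    linarith)
  refine ⟨(h1.comp z ((contDiffAt_id.sub contDiffAt_const).const_smul c⁻¹)).const_smul c,
    fun u v => ?_⟩
  have h3 := (((h1.differentiableAt (by simp)).hasFDerivAt.comp z
    (((hasFDerivAt_id z).sub_const z0).const_smul c⁻¹)).const_smul c).fderiv
  rw [smul_inv_smul₀ c0.ne', add_sub_cancel] at h2
  rw [show fderiv ℝ (fun z => c • A (c⁻¹ • (z - z0))) z = _ from h3, ← h2]
  simp only [ContinuousLinearMap.comp_apply, _root_.smul_apply, ContinuousLinearMap.id_apply,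
    map_smul, smul_inv_smul₀ c0.ne']

end VoLin

open VoLin

theorem posV : PosV := by
  intro ι _ _ S H Z B hH hZ h1 h2
  obtain ⟨R, hR⟩ := Lin.rk (ι := ι)
  obtain ⟨T, hT⟩ := Mat.fac hH.posSemidef
  obtain ⟨T', hT'⟩ := Mat.fac hZ
  have hd : Tᴴ.det ≠ 0 := fun c => hH.det_pos.ne' (by rw [hT, det_mul, c, zero_mul])
  let ρ : ι → ι → V ι := fun k => if k ∈ S then T'ᴴ.col else Tᴴ.col
  have e2 : P B (F3.bs ι) = (∏ _ : ι, (-1 : ℝ)) * ∑ φ : ι → ι,
      normSq (Matrix.of fun k => ρ k (φ k)).det := by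
    simp only [← fun A => Lin.P_rk hR A]
    refine (P_congr (fun k u v => ?_) _).trans (Lin.P_exp (fun _ => -1) (fun k i => R (ρ k i)) _)
    simp only [_root_.smul_apply, _root_.sum_apply, smul_eq_mul, hR]
    by_cases hk : k ∈ S
    · rw [h1 k hk, hT', ip_fac]
      simp only [ρ, if_pos hk]
    · rw [h2 k hk, hT, ip_fac]
      simp only [ρ, if_neg hk]
  rw [e2, Finset.prod_const, Finset.card_univ, ← mul_assoc, ← mul_pow, neg_one_mul, neg_neg,
    one_pow, one_mul]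
  refine ⟨Finset.sum_nonneg fun _ _ => normSq_nonneg _, fun hs => ?_⟩
  obtain ⟨φ0, h0⟩ := cols (T := T'ᴴ) (hs.trans (hT' ▸ rank_mul_le_left _ _))
  obtain ⟨φ, hφ⟩ := Lin.ext (fun k i => ρ k (Equiv.swap k (φ0 k) i)) (S : Set ι)
    (h0.congr fun k hk => by simp only [ρ, if_pos (Finset.mem_coe.1 hk), Equiv.swap_apply_left])
    fun k hk => by
      rw [show (fun i => ρ k (Equiv.swap k (φ0 k) i)) = Tᴴ.col ∘ Equiv.swap k (φ0 k) from by
        simp only [ρ, if_neg (mt Finset.mem_coe.2 hk)]; rfl, (Equiv.surjective _).range_comp]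
      exact (linearIndependent_cols_iff_isUnit.2 ((isUnit_iff_isUnit_det _).2
        hd.isUnit)).span_eq_top_of_card_eq_finrank' (Module.finrank_fintype_fun_eq_card ℂ).symm
  refine Finset.sum_pos' (fun _ _ => normSq_nonneg _) ⟨fun k => Equiv.swap k (φ0 k) (φ k),
    Finset.mem_univ _, normSq_pos.2 ?_⟩
  exact ((isUnit_iff_isUnit_det _).1 (linearIndependent_rows_iff_isUnit.1 hφ)).ne_zero

theorem vanV : VanV := by
  intro ι _ _ S B W k hk hW h1 h2
  have hc : Fintype.card {p : ι × Fin 2 // p.1 ∉ S} ≤ Module.finrank ℝ W := by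
    rw [Fintype.card_congr (Equiv.prodSubtypeFstEquivSubtypeProd (p := fun a : ι => a ∉ S)),
      Fintype.card_prod, Fintype.card_subtype_compl, Fintype.card_coe, Fintype.card_fin]
    omega
  obtain ⟨w, hw⟩ := exists_linearIndependent_of_le_finrank hc
  have hw' := (hw.comp _ (Fintype.equivFin _).injective).map' W.subtype W.ker_subtype
  have hu := (F3.bs ι).linearIndependent.comp
    (Subtype.val : {p : ι × Fin 2 // p.1 ∉ S} → _) Subtype.val_injective
  obtain ⟨g, hg⟩ := Submodule.exists_linearEquiv_restrict_eq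
    ((Module.Basis.span hu).equiv (Module.Basis.span hw') (Equiv.refl _))
  have hm : ∀ p : ι × Fin 2, p.1 ∉ S → g (F3.bs ι p) ∈ W := fun p hp => by
    have := hg (Module.Basis.span hu ⟨p, hp⟩)
    rw [Module.Basis.equiv_apply, Module.Basis.coe_span_apply, Module.Basis.coe_span_apply] at this
    exact this ▸ (w _).2
  refine (mul_eq_zero.1 ((P_lin B (F3.bs ι) g).symm.trans ?_)).resolve_left g.isUnit_det'.ne_zero
  rw [P_alt]
  refine Finset.sum_eq_zero fun σ _ => mul_eq_zero_of_right _ ?_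
  by_cases h : ∀ p : ι × Fin 2, p.1 ∈ S → (σ p).1 ∈ S
  · have h3 : ∀ s, (σ (k, s)).1 ∉ S := fun s a => hk (by
      simpa using Equiv.Perm.perm_symm_on_of_perm_on_finite (p := fun p : ι × Fin 2 => p.1 ∈ S) h a)
    refine Finset.prod_eq_zero (Finset.mem_univ k) ?_
    exact (alt_apply _ _ _).trans (mul_eq_zero_of_right _
      (sub_eq_zero.2 (h2 _ (hm _ (h3 0)) _ (hm _ (h3 1)))))
  · push Not at h
    obtain ⟨⟨l, s⟩, a, b⟩ := h
    refine Finset.prod_eq_zero (Finset.mem_univ l) ?_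
    refine (alt_apply _ _ _).trans (mul_eq_zero_of_right _ (sub_eq_zero.2 ?_))
    fin_cases s
    exacts [h1 l a _ (hm _ b) _, (h1 l a _ (hm _ b) _).symm]

theorem locP {ι X : Type} [Fintype ι] [DecidableEq ι] [TopologicalSpace X] {M : Atl ι X} :
    LocP M := by
  intro ζ hζ x
  have he := M.ch_mem x
  have hx := M.mem x
  generalize M.ch x = e at he hx
  obtain ⟨r, hr, A, hA⟩ := loc e.open_target (hζ e he) (e.map_source hx)
  refine ⟨e.source ∩ e ⁻¹' ball (e x) r, e.isOpen_inter_preimage isOpen_ball,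
    ⟨hx, mem_ball_self hr⟩,
    fun y => (A (e y)).comp (fderiv ℝ (e ∘ (M.ch y).symm) (M.ch y y)), fun e' he' z hz hU => ?_⟩
  have hev : rep1 M (fun y => (A (e y)).comp (fderiv ℝ (e ∘ (M.ch y).symm) (M.ch y y))) e' =ᶠ[𝓝 z]
      fun w => (A ((e ∘ e'.symm) w)).comp (fderiv ℝ (e ∘ e'.symm) w) := by
    filter_upwards [F1.ev hz e.open_source hU.1] with w ⟨w1, w2⟩
    have := F3.chain (h := e) he' (M.ch_mem _) (e'.map_target w1) (M.mem _)
      ((F3.tr_cd (M.ch_mem _) he (M.mem _) w2).differentiableAt (by simp))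
    rw [e'.right_inv w1] at this
    rw [rep1, this, ContinuousLinearMap.comp_assoc]
    rfl
  obtain ⟨h1, h2⟩ := hA _ hU.2
  obtain ⟨h3, h4⟩ := F1.d_pull (A := A) (φ := e ∘ e'.symm) h1 (F1.sm he' he hz hU.1)
  refine ⟨h3.congr_of_eventuallyEq hev, fun u v => ?_⟩
  have h5 := (repA mat ι X M).repF_tr ζ e' he' e he _ (e'.map_target hz) hU.1
  have hd := (repA mat ι X M).tj_det e' he' e he _ (e'.map_target hz) hU.1
  have h6 : ∀ u, fderiv ℝ (e ∘ e'.symm) z u = tj e' e (e'.symm z) *ᵥ u := fun u => by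
    rw [tj, e'.right_inv hz, jac_mulVec,
      (F1.an he' he hz hU.1).differentiableAt.fderiv_restrictScalars ℝ]
    rfl
  rw [e'.right_inv hz] at h5
  rw [hev.fderiv_eq, h4, h5, (mat.pull_pd ι _ _ hd).2.2.2.2.2.2, h6, h6]
  exact h2 _ _

end Pool.Agent.Lib.MP_813db1_ag.VH
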