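import Pool.Agent.Lib.MP_813db1_ag.VH.NulV
import Pool.Agent.Lib.MP_813db1_ag.VH.KbA
import Pool.Agent.Lib.MP_813db1_ag.VH.FaFlag
import Pool.Agent.Lib.MP_bbd4b9_ag.NH.Main
import Pool.Agent.Lib.MP_bbd4b9_ag.NH.Fg

/-! The maximal family has positive volume. -/

namespace Pool.Agent.Lib.MP_813db1_ag.VH

open Pool.Agent.Lib.MP_813db1_ag.HS Pool.Agent.Lib.MP_813db1_ag.AS Pool.Agent.Lib.MP_bbd4b9_ag.AR
  Pool.Agent.Lib.MP_bbd4b9_ag.NH
open MeasureTheory Complex Matrix Filter Topology Set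
open scoped ContDiff ComplexOrder Manifold Pointwise

section par

variable {ι X Y : Type} [Fintype ι] [DecidableEq ι] [TopologicalSpace X] [TopologicalSpace Y]
  (M : Atl ι X) (p : Y → X) (G : Type) [Group G] [MulAction G Y]

/-- formality over the whole set of maximal rank. -/
def FormT : Prop := ∀ g0, M.IsK g0 → ∀ (ζ : X → Mat ι) (k : ℕ), M.ClF ζ →
  (∀ a, (ζ a).PosSemidef) → (∀ a, (ζ a).rank ≤ k) → MaxF M p G ζ {a | (ζ a).rank = k} →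
  ∀ (r : Type) [Fintype r] [DecidableEq r] (D : Dt M p G r) (d : r → ℕ) (ρ : G →* Mat r),
    IntR D.ρ → D.PH → (∀ y i j, d i ≠ d j → D.H y i j = 0) →
    (∀ g i j, (d i ≠ d j → D.ρ g i j = 0) ∧ (d i = d j → ρ g i j = D.ρ g i j) ∧
      (d j < d i → ρ g i j = 0)) →
    ∃ Φ : Y → Mat r, SmH M p Φ ∧ (∀ y, (Φ y).PosDef) ∧
      (∀ (g : G) y, Φ (g • y) = ρ g * Φ y * (ρ g)ᴴ) ∧
      ∀ i j, Kil M p ζ {a | (ζ a).rank = k} fun y => Φ y i j

/-- proper maps that are constant along the kernel over the whole set of maximal rank. -/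
def EqvT : Prop := ∀ g0, M.IsK g0 → ∀ (ζ : X → Mat ι) (k : ℕ), M.ClF ζ →
  (∀ a, (ζ a).PosSemidef) → (∀ a, (ζ a).rank ≤ k) → MaxF M p G ζ {a | (ζ a).rank = k} →
  ∀ K : Subgroup G, IK K → ∃ (r : Type) (_ : Fintype r) (a : G → V r → V r)
    (Φ : Y → V r), PM M p K a Φ ∧ Kil M p ζ {a | (ζ a).rank = k} Φ

end par

variable {ι X Y G : Type} [Fintype ι] [DecidableEq ι] [TopologicalSpace X] [TopologicalSpace Y]
  [Group G] [MulAction G Y] {M : Atl ι X} {p : Y → X}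

open FaFlag in
theorem eqvT (h1 : FlagS M p G) (h2 : FormT M p G) (h3 : PmS M p G) : EqvT M p G := by
  intro g0 hg ζ k z1 z2 z3 z6 K ⟨r, _, _, ρ, hρ, hK⟩
  obtain ⟨r', _, _, D, d, ρ', P, P', a1, a2, a3, a4, a5, a6, a7⟩ := h1 g0 hg r ρ hρ
  obtain ⟨Φ, b1, b2, b3, b4⟩ := h2 g0 hg ζ k z1 z2 z3 z6 r' D d ρ' a4 a5 a6 a7
  have c : ∀ g, P * ρ' g = ρ g * P := fun g => by
    rw [a3, ← Matrix.mul_assoc, ← Matrix.mul_assoc, a1, Matrix.one_mul]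
  obtain ⟨a, ha⟩ := h3.pos r ρ (fun y => P * Φ y * Pᴴ) hρ
    (fun e he z hz s hs => sm_cj P (b1 e he z hz s hs))
    (fun y => (b2 y).mul_mul_conjTranspose_same fun v w e => by
      have := congrArg (· ᵥ* P') e
      simpa only [vecMul_vecMul, a1, vecMul_one] using this)
    fun g y => by
      rw [b3, ← Matrix.mul_assoc, ← Matrix.mul_assoc, c, Matrix.mul_assoc _ (ρ' g)ᴴ,
        ← conjTranspose_mul, c, conjTranspose_mul]
      simp only [Matrix.mul_assoc]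
  exact ⟨r × r, _, a, fun y => mvc (P * Φ y * Pᴴ), hK ▸ ha, fun e he z hz s hs u v hv =>
    fd_cj P (b1 e he z hz s hs) fun i j => b4 i j e he z hz s hs u v hv⟩

theorem cmn_nor {N : Subgroup G} (h : N.Normal) : Cmn N := fun g => by
  rw [Subgroup.Normal.conj_smul_eq_self g N]

theorem Kil.dd (hq : IsQuotientCoveringMap p G) {ζ : X → Mat ι} {U : Set X} {φ : X → ℝ}
    (h : Kil M p ζ U (φ ∘ p)) {x : X} (hx : x ∈ U) {v : V ι} (hv : nV (ζ x) v = 0) :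
    F3.dd M φ x v = 0 := by
  obtain ⟨y, rfl⟩ := hq.surjective x
  have hs := (F12.sh_self hq.isCoveringMap.isLocalHomeomorph (e := M.ch (p y)) (y := y)
    (M.mem _)).1
  have e := h _ (M.ch_mem _) _ ((M.ch (p y)).map_source (M.mem _)) _ hs
    (by rwa [(M.ch (p y)).left_inv (M.mem _)]) v (by rwa [(AY.repA' ι X M).repF_self])
  rw [F3.dd, ← e]
  refine DFunLike.congr_fun (Filter.EventuallyEq.fderiv_eq ?_) v
  filter_upwards [hs.2] with w hw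
  simp only [Function.comp_apply, hw]

open AY in
theorem volW0 [Nonempty ι] [T2Space X] [CompactSpace X] [MeasurableSpace X] [BorelSpace X]
    [ChartedSpace (ι → ℂ) X] [SimplyConnectedSpace Y] (hC : Cx M p G) (hM : MgN M p G)
    (hF : FamS M p G) (hE : EqvT M p G) (hA : AlgV) (hT : TrV M p G) (hL : LabS M p G)
    (hP : PmS M p G) (h3 : F3V M) : VolW M p G := by
  intro g μ hg hμ hnef
  have hq := hC.cov
  obtain ⟨r, _, _, D, c, x, τ, ξ, hI, m, U0, E0, _, _, _, K0, a0, Φ0, z1, z2, z3, z4, z5, z6, z7,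
    z8⟩ := hF g hg
  refine ⟨r, _, _, D, c, x, τ, ξ, hI.ph, hI.aff, hI.re, hI.px, hI.tau, hI.xi, ?_⟩
  set ζ : X → Mat ι := fun q => τ q + ξ q
  have cζ : M.ClF ζ := (repA' ι X M).clF_add _ _ hI.ct hI.cx
  have pζ : ∀ q, (ζ q).PosSemidef := fun q => (hI.pt q).add (hI.pξ q)
  by_contra hle
  obtain ⟨L, hL0, w, hw, N₀, hMg⟩ := hM g hg
  obtain ⟨L', T, F, hL', t1, t2, t3, t4⟩ := hT E0 K0 a0 Φ0 ζ U0 m w z3 z4 pζ z5 z6 z7 z8 hw
  obtain ⟨v, hv0, hEA⟩ := eAllR ι (Fin (2 * m)) (L + L') w N₀ hw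
  obtain ⟨ε, hε, hsm⟩ := solR ι X M g ζ μ hg hμ cζ pζ (not_lt.1 hle) v hv0
  obtain ⟨u, hu⟩ := solA ι X M g hg hnef ε hε
  obtain ⟨hK', hsm'⟩ := hsm u hu
  obtain ⟨⟨ν', hν'⟩, -⟩ := volS' ι X M _ hK'
  obtain ⟨Z, _, _, Ψ, z, N, m1, m2, m3, m4, n1, n2, n3, n4⟩ := hMg ε hε u hu
  have pd : ∀ x, (M.hm g ε u x).PosDef := (((repA' ι X M).isK_iff _).1 hu.2.1).2
  obtain ⟨U, k, t, δ, d1, d2, u1, u2, u3, k1, k2⟩ := hEA X Y G Z M _ ν' p Ψ z T hq hK' hν'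
    (hsm' ν' hν') m1 m2
    (fun y0 => (m3 y0).mono fun q h => h.trans (mul_le_mul (le_add_of_nonneg_right hL')
      (Real.sqrt_le_sqrt (nv_mono (pζ _) _)) (Real.sqrt_nonneg _) (by positivity)))
    (fun c x0 => (t1 c x0 _ (pd x0)).mono fun q h => h.trans
      (mul_le_mul_of_nonneg_right (le_add_of_nonneg_left hL0) (Real.sqrt_nonneg _))) m4
  obtain ⟨y', y1, y2⟩ := t4 t d2
  obtain ⟨K, hr, α, a1, a2⟩ := exF_all hC.sub hC.ex hg
  obtain ⟨E, _, ce, ue, e1, e2, e3⟩ := extS ι X Y G M _ p α _ hC.sub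
    (fun x => ⟨_, chart_mem_atlas _ x, mem_chart_source _ x⟩) hq a1 a2
  obtain ⟨K1, hK1, hc⟩ := hA G E ce N (fg_deck hq) n1 n2 n3
  obtain ⟨r1, _, b1, Φ1, p1, p2⟩ := hE g hg ζ m cζ pζ z1 z2 K1 hK1
  obtain ⟨b2, p3⟩ := hP.prd _ _ K1 K0 b1 a0 Φ1 Φ0 p1 z3
  obtain ⟨Γ, O, l, φ, l1, l2, l3, l4, l5, l6, l7, l8, l9, l10⟩ := hL _ _ b2 _ p3 y'
    {b | ∀ c, |F c b.2 - t c| < δ} (eventually_all.2 fun c =>
      ContinuousAt.eventually_lt (f := fun b : V r1 × E0 => |F c b.2 - t c|)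
        ((((t3 c y').comp (f := Prod.snd) (x := (Φ1 y', Φ0 y')) continuousAt_snd).sub
          continuousAt_const).abs) continuousAt_const (by
            show |F c (Φ0 y') - t c| < δ
            rwa [← t2, y2, sub_self, abs_zero]))
  obtain ⟨S, hS⟩ := hc Γ (Com.ri_mono inf_le_left l1)
  obtain ⟨Lf, lam, f1, f2, f3⟩ := liftQ ce Γ N S (fun i => Hs G (z i) (10 * w)) hS (cmn_nor n1) n4
  obtain ⟨a, f, c1, c2⟩ := f12R repA' mat pouAll ι X Y G E _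
    (fun i => (G ⧸ Hs G (z i) (10 * w)) × (G ⧸ Γ)) M g _ p α ce ue Lf
    (fun i j q q' => lam i j q.1 q'.1 q.2) (fun i => U i ∩ O) (fun i y => (k i y, l y)) hC.sub
    (fun x => hC.ch x ▸ chart_mem_atlas _ x) hq a1 (fun e he z hz s s1 s2 => by
      rw [hr e he z hz]
      exact a2 e he z hz s s1 s2) e1 e2 e3 f1 f2 (fun i j γ y _ _ => f3 i j γ _ _ _)
    (fun i => (u1 i).inter l2) (fun i γ y hy => Prod.ext (k1 i γ y hy.1) (l4 γ y hy.2))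
    fun i y hy => ((k2 i y hy.1).and (l5 y hy.2)).mono fun y' h => Prod.ext h.1 h.2
  refine l9.ne' (h3 _ g ζ m _ a f φ hg cζ pζ z1 (fun i => (u1 i).inter l2) (fun i x hx => ?_) c1 c2
    l6 l7 (fun x hx => ?_) (fun x hx v hv => Kil.dd hq
      (l10 ζ _ (p2.prod (z4.kil _) p1.sm z3.sm)) hx hv) _ (z7 _ y1))
  · obtain ⟨y, rfl, hy⟩ := l3 x hx.2
    have := u3 (p y) fun c => by
      rw [t2]
      exact hy c
    rw [Fintype.card_fin] at this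
    exact le_trans (Nat.add_le_add_right (ncard_le_ncard (fun j hj => hj.1) (toFinite _)) _) this
  · obtain ⟨i, hi⟩ := u2 x
    exact ⟨i, hi, l8 hx⟩

end Pool.Agent.Lib.MP_813db1_ag.VH
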