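import Pool.Agent.Lib.MP_813db1_ag.VH.StV
import Pool.Agent.Lib.MP_813db1_ag.VH.Cov
import Pool.Agent.Lib.MP_813db1_ag.AS.EVol

/-! Coordinates transverse to the kernel. -/

namespace Pool.Agent.Lib.MP_813db1_ag.VH

open Pool.Agent.Lib.MP_813db1_ag.HS Pool.Agent.Lib.MP_813db1_ag.AS F12
open MeasureTheory Complex Matrix Filter Topology Set
open scoped ContDiff ComplexOrder

namespace VoTr

variable {ι X Y G E : Type} [Fintype ι] [DecidableEq ι] [TopologicalSpace X] [TopologicalSpace Y]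
  [Group G] [MulAction G Y] {M : Atl ι X} {p : Y → X} [NormedAddCommGroup E] [NormedSpace ℝ E]
  {K : Subgroup G} {a : G → E → E} {Φ : Y → E}

theorem nV_eq (H : Mat ι) (v : V ι) : nV H v = (star (star v) ⬝ᵥ H *ᵥ star v).re := by
  simp only [nV, ipV, star_star, dotProduct, mulVec, Finset.mul_sum, Pi.star_apply]
  exact congrArg _ (Finset.sum_congr rfl fun i _ => Finset.sum_congr rfl fun j _ => by ring)

theorem nV_nonneg {H : Mat ι} (h : H.PosSemidef) (v : V ι) : 0 ≤ nV H v := by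
  rw [nV_eq]; exact h.re_dotProduct_nonneg _

theorem lam [FiniteDimensional ℝ E] {Z : Mat ι} (hZ : Z.PosSemidef) (A : V ι →L[ℝ] E)
    (h : ∀ v, A v = 0 → nV Z v = 0) :
    ∃ l : E →L[ℝ] (Fin (2 * Z.rank) → ℝ), (l.comp A).range = ⊤ := by
  let W := (LinearMap.range Z.mulVecLin).restrictScalars ℝ
  have h1 : Module.finrank ℝ W = Module.finrank ℝ (Fin (2 * Z.rank) → ℝ) := by
    rw [Module.finrank_fin_fun]
    exact finrank_real_of_complex (LinearMap.range Z.mulVecLin)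
  let B : V ι →ₗ[ℝ] W :=
    { toFun v := ⟨Z *ᵥ star v, _, rfl⟩
      map_add' u v := Subtype.ext (by simp [mulVec_add])
      map_smul' c v := Subtype.ext (by simp [mulVec_smul]) }
  have h2 : Function.Surjective B := by
    rintro ⟨_, v, rfl⟩
    exact ⟨star v, Subtype.ext (by simp [B])⟩
  have h3 : LinearMap.ker A.toLinearMap ≤ LinearMap.ker B := fun v hv => Subtype.ext <| by
    refine (hZ.dotProduct_mulVec_zero_iff _).1 (Complex.ext ?_ ?_)
    · exact (nV_eq Z v).symm.trans (h v hv)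
    · exact (Complex.nonneg_iff.1 (hZ.dotProduct_mulVec_nonneg _)).2.symm
  obtain ⟨g, hg⟩ := LinearMap.exists_extend (((LinearMap.ker A.toLinearMap).liftQ B h3).comp
    A.toLinearMap.quotKerEquivRange.symm.toLinearMap)
  refine ⟨LinearMap.toContinuousLinearMap ((LinearEquiv.ofFinrankEq _ _ h1).toLinearMap.comp g),
    LinearMap.range_eq_top.2 fun t => ?_⟩
  obtain ⟨u, rfl⟩ := (LinearEquiv.ofFinrankEq _ _ h1).surjective t
  obtain ⟨v, rfl⟩ := h2 u
  refine ⟨v, congrArg (LinearEquiv.ofFinrankEq _ _ h1) ?_⟩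
  have := LinearMap.congr_fun hg ⟨A v, v, rfl⟩
  refine this.trans ?_
  change (LinearMap.ker A.toLinearMap).liftQ B h3 (A.toLinearMap.quotKerEquivRange.symm
    ⟨A.toLinearMap v, _⟩) = _
  rw [LinearMap.quotKerEquivRange_symm_apply_image]
  rfl

theorem unif [CompactSpace X] (P : ℝ → X → Prop) (h1 : ∀ x C C', C ≤ C' → P C x → P C' x)
    (h2 : ∀ x0, ∃ C, ∀ᶠ x in 𝓝 x0, P C x) : ∃ C, 0 ≤ C ∧ ∀ x, P C x := by
  choose C hC using h2
  obtain ⟨t, -, ht⟩ := isCompact_univ.elim_nhds_subcover (fun x => {y | P (C x) y})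
    fun x _ => hC x
  refine ⟨∑ x ∈ t, |C x|, Finset.sum_nonneg fun _ _ => abs_nonneg _, fun x => ?_⟩
  obtain ⟨x0, h3, h4⟩ := mem_iUnion₂.1 (ht (mem_univ x))
  exact h1 x _ _ ((le_abs_self _).trans
    (Finset.single_le_sum (f := fun x => |C x|) (fun _ _ => abs_nonneg _) h3)) h4

theorem lip [CompactSpace X] (hq : IsQuotientCoveringMap p G) {ζ : X → Mat ι} {T : X → ℝ}
    (hζ : ∀ x, (ζ x).PosSemidef) (hT : M.Ck ∞ T) (hD : Dmn M p ζ (T ∘ p)) :
    ∃ L, 0 ≤ L ∧ ∀ x0 (H : Mat ι), H.PosDef → ∀ᶠ q : X × X in 𝓝 (x0, x0),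
      |T q.1 - T q.2| ≤ L * √(nV (H + ζ x0) (M.ch x0 q.2 - M.ch x0 q.1)) := by
  have hp := lh hq
  obtain ⟨C, hC, h1⟩ := unif (fun C x => ∀ v,
    ‖fderiv ℝ (T ∘ (M.ch x).symm) (M.ch x x) v‖ ^ 2 ≤ C * nV (ζ x) v)
    (fun x _ _ h h' v => (h' v).trans (mul_le_mul_of_nonneg_right h (nV_nonneg (hζ x) v)))
    fun x0 => by
      obtain ⟨y0, rfl⟩ := hq.surjective x0
      obtain ⟨C, hC⟩ := hD y0
      refine ⟨C, hp.map_nhds_eq y0 ▸ eventually_map.2 (hC.mono fun y hy v => ?_)⟩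
      have k := sh_self hp (M.mem (p y))
      have := hy _ (M.ch_mem _) _ ((M.ch _).map_source (M.mem _)) _ k.1 k.2 v
      have e : (T ∘ p) ∘ sh hp y (M.ch (p y)) =ᶠ[𝓝 (M.ch (p y) (p y))] T ∘ (M.ch (p y)).symm :=
        k.1.2.mono fun w hw => congrArg T hw
      rwa [(AY.repA' ι X M).repF_self, e.fderiv_eq] at this
  refine ⟨√C + 1, by positivity, fun x0 H hH => ?_⟩
  obtain ⟨c, hc, h2, -⟩ := EVol.near (G := fun _ => H) (z := 0) continuousAt_const hH
  have h3 : ContDiffAt ℝ ∞ (T ∘ (M.ch x0).symm) (M.ch x0 x0) := Complex.reCLM.contDiff.contDiffAt.comp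
    _ (hT _ (M.ch_mem x0) _ ((M.ch x0).map_source (M.mem x0)))
  have h4 := (h3.hasStrictFDerivAt (by simp)).isLittleO.def (Real.sqrt_pos.2 hc)
  have h5 := (M.ch x0).continuousAt (M.mem x0)
  have t1 : Tendsto (Prod.fst : X × X → X) (𝓝 (x0, x0)) (𝓝 x0) := continuousAt_fst
  have t2 : Tendsto (Prod.snd : X × X → X) (𝓝 (x0, x0)) (𝓝 x0) := continuousAt_snd
  have hO := (M.ch x0).open_source.eventually_mem (M.mem x0)
  filter_upwards [((h5.tendsto.comp t2).prodMk_nhds (h5.tendsto.comp t1)).eventually h4,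
    t1.eventually hO, t2.eventually hO] with q a1 a2 a3
  simp only [Function.comp_apply, (M.ch x0).left_inv a2, (M.ch x0).left_inv a3] at a1
  generalize M.ch x0 q.2 - M.ch x0 q.1 = v at a1 ⊢
  have e : nV (H + ζ x0) v = nV H v + nV (ζ x0) v := by
    simp [nV, ipV, add_mul, Finset.sum_add_distrib]
  have n1 := nV_nonneg hH.posSemidef v
  have n2 := nV_nonneg (hζ x0) v
  have b1 : ‖fderiv ℝ (T ∘ (M.ch x0).symm) (M.ch x0 x0) v‖ ≤ √C * √(nV (H + ζ x0) v) := by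
    rw [← Real.sqrt_mul hC]
    exact Real.le_sqrt_of_sq_le ((h1 x0 v).trans (mul_le_mul_of_nonneg_left (by linarith) hC))
  have b2 : √c * ‖v‖ ≤ √(nV (H + ζ x0) v) := Real.le_sqrt_of_sq_le (by
    rw [mul_pow, Real.sq_sqrt hc.le]
    linarith [h2 v])
  rw [abs_sub_comm, ← Real.norm_eq_abs]
  linarith [norm_le_norm_sub_add (T q.2 - T q.1) (fderiv ℝ (T ∘ (M.ch x0).symm) (M.ch x0 x0) v)]

theorem act (h : PM M p K a Φ) {f g : G} (e : f⁻¹ * g ∈ K) (b : E) : a g b = a f b := by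
  rw [← mul_inv_cancel_left f g, h.mul, h.ker _ e]

theorem gap (h : PM M p K a Φ) (y : Y) :
    ∃ ε > 0, ∀ᶠ b in 𝓝 (Φ y), ∀ g, ‖a g b - Φ y‖ < ε → a g (Φ y) = Φ y := by
  obtain ⟨F, hF⟩ := h.fin y (‖Φ y‖ + 1)
  have h1 : ∀ᶠ q : ℝ × E in 𝓝 (0, Φ y), ∀ f ∈ F, a f (Φ y) ≠ Φ y → q.1 < ‖a f q.2 - Φ y‖ := by
    refine (eventually_all_finset F).2 fun f _ => ?_
    by_cases e : a f (Φ y) = Φ y
    · exact Eventually.of_forall fun _ e' => absurd e e'
    · exact (continuousAt_fst.eventually_lt ((((h.ct f).comp continuous_snd).sub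
        continuous_const).norm.continuousAt) (norm_pos_iff.2 (sub_ne_zero.2 e))).mono fun _ k _ => k
  rw [nhds_prod_eq] at h1
  obtain ⟨u, hu, u', hu', h2⟩ := eventually_prod_iff.1 h1
  obtain ⟨ε, h3, h4, h5⟩ := ((hu.and (eventually_lt_nhds zero_lt_one)).filter_mono
    (nhdsWithin_le_nhds (s := Ioi 0))).and self_mem_nhdsWithin |>.exists.imp
    fun _ k => (⟨k.1.1, k.1.2, k.2⟩ : _ ∧ _ ∧ _)
  refine ⟨ε, h5, (hF.and hu').mono fun b hb g hg => ?_⟩
  obtain ⟨f, hf, e⟩ := hb.1 g (by linarith [norm_le_norm_sub_add (a g b) (Φ y)])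
  rw [act h e] at hg ⊢
  by_contra h6
  exact hg.not_gt (h2 h3 hb.2 f hf h6)

theorem fin (h : PM M p K a Φ) (y : Y) : {q : G ⧸ K | Φ (q.out • y) = Φ y}.Finite := by
  obtain ⟨F, hF⟩ := h.fin y ‖Φ y‖
  refine (F.finite_toSet.image (QuotientGroup.mk : G → G ⧸ K)).subset fun q hq => ?_
  obtain ⟨f, hf, e⟩ := hF.self_of_nhds q.out (by rw [← h.eqv, hq])
  exact ⟨f, hf, (QuotientGroup.eq.2 e).trans q.out_eq'⟩

end VoTr

variable {ι X Y G : Type} [Fintype ι] [DecidableEq ι] [TopologicalSpace X] [CompactSpace X]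
  [TopologicalSpace Y] [Group G] [MulAction G Y] {M : Atl ι X} {p : Y → X}

open VoTr in
theorem trV (hq : IsQuotientCoveringMap p G) (hA : AvgS M p G) : TrV M p G := by
  intro E _ _ _ K a Φ ζ U m w hP hD hζ hU hne hr hk hw
  have hp := lh hq
  obtain ⟨S, hS⟩ : ∃ S : Y → Set (G ⧸ K), S = fun y => {q : G ⧸ K | Φ (q.out • y) = Φ y} := ⟨_, rfl⟩
  have S1 : ∀ y, (S y).Finite := fun y => hS ▸ fin hP y
  have S2 : ∀ y q, q ∈ S y ↔ a q.out (Φ y) = Φ y := fun y q => by rw [hS, ← hP.eqv]; rfl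
  have hne' : (p ⁻¹' U).Nonempty := hne.preimage hq.surjective
  obtain ⟨y0, h0, hmin⟩ : ∃ y0, p y0 ∈ U ∧ ∀ y, p y ∈ U → (S y0).ncard ≤ (S y).ncard :=
    ⟨_, Function.argminOn_mem (fun y => (S y).ncard) _ hne',
      fun y hy => Function.argminOn_le (fun y => (S y).ncard) _ hy⟩
  obtain ⟨ε, hε, h1⟩ := gap hP y0
  have cΦ := (hP.sm.cont hp).continuousAt (x := y0)
  have k := sh_self hp (M.mem (p y0))
  have kz := (M.ch (p y0)).map_source (M.mem _)
  have d1 := (hP.sm _ (M.ch_mem _) _ kz _ k.1).hasStrictFDerivAt (by simp)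
  obtain ⟨l, hl⟩ := lam (hζ (p y0)) _ fun v hv => by
    have := hk _ (M.ch_mem _) _ kz _ k.1 (by rwa [(M.ch _).left_inv (M.mem _)]) v hv
    rwa [(AY.repA' ι X M).repF_self] at this
  obtain rfl := hr _ h0
  let χ : ContDiffBump (Φ y0) := ⟨ε / 2, ε, half_pos hε, half_lt_self hε⟩
  choose F T a1 a2 a3 a4 a5 a6 using fun c => (hA E K a Φ hP).2 (fun b => χ b * l (b - Φ y0) c)
    (χ.contDiff.mul (contDiff_pi.1 (l.contDiff.comp (contDiff_id.sub contDiff_const)) c))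
    (Metric.isBounded_ball.subset (χ.support_eq ▸ Function.support_mul_subset_left _ _))
  choose L b1 b2 using fun c => lip hq hζ (a3 c) (a5 c ζ hD)
  obtain ⟨N, hN⟩ : ∃ N : ℝ, N = (S1 y0).toFinset.card := ⟨_, rfl⟩
  have N0 : 0 < N := by
    rw [hN, Nat.cast_pos, Finset.card_pos, Finite.toFinset_nonempty]
    refine ⟨QuotientGroup.mk 1, (S2 _ _).2 (hP.ker _ ?_ _)⟩
    simpa using QuotientGroup.eq.1 (QuotientGroup.out_eq' (QuotientGroup.mk (1 : G) : G ⧸ K)).symm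
  have h2 : ∀ᶠ y in 𝓝 y0, p y ∈ U ∧ ∀ c, T c (p y) = N * l (Φ y - Φ y0) c := by
    filter_upwards [cΦ.eventually h1, cΦ.eventually (Metric.ball_mem_nhds _ (half_pos hε)),
      hp.continuous.continuousAt.eventually (hU.mem_nhds h0)] with y c1 c2 c3
    have c4 : S y = S y0 := eq_of_subset_of_ncard_le (fun q hq' => (S2 _ _).2 (c1 _ (by
      rw [(S2 _ _).1 hq', ← mem_ball_iff_norm]
      exact Metric.ball_subset_ball (half_le_self hε.le) c2))) (hmin y c3) (S1 y0)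
    refine ⟨c3, fun c => ?_⟩
    rw [(a6 c y).2, finsum_eq_sum_of_support_subset_of_finite _ (fun q hq' => (S2 _ _).2 (c1 _ (by
      rw [← hP.eqv, ← mem_ball_iff_norm]
      exact χ.support_eq ▸ left_ne_zero_of_mul hq'))) (S1 y0), hN, ← nsmul_eq_mul,
      ← Finset.sum_const]
    refine Finset.sum_congr rfl fun q hq' => ?_
    rw [Finite.mem_toFinset, ← c4, S2, ← hP.eqv] at hq'
    rw [hq', χ.one_of_mem_closedBall (Metric.ball_subset_closedBall c2), one_mul]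
  have d2 := (l.hasStrictFDerivAt.comp _ (d1.sub_const (Φ y0))).map_nhds_eq_of_surj hl
  have h3 : ∀ᶠ u in 𝓝 (0 : Fin (2 * (ζ (p y0)).rank) → ℝ),
      ∃ y, p y ∈ U ∧ ∀ c, T c (p y) = N * u c := by
    simp only [Function.comp_apply, k.2, sub_self, map_zero] at d2
    rw [← d2, eventually_map]
    have c := k.1.1.tendsto
    rw [k.2] at c
    exact (c.eventually h2).mono fun z hz => ⟨_, hz⟩
  obtain ⟨δ, hδ, h4⟩ := Metric.eventually_nhds_iff.1 h3
  have κ0 : 0 < w / (δ * N) := by positivity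
  refine ⟨w / (δ * N) * ∑ c, L c, fun c x => 3 * w / 2 + w / (δ * N) * T c x,
    fun c b => 3 * w / 2 + w / (δ * N) * F c b,
    mul_nonneg κ0.le (Finset.sum_nonneg fun c _ => b1 c), fun c x0 H hH => ?_,
    fun c y => by simp only [a1], fun c y => continuousAt_const.add ((a2 c y).const_mul _),
    fun t ht => ?_⟩
  · refine (b2 c x0 H hH).mono fun q hq' => ?_
    rw [add_sub_add_left_eq_sub, ← mul_sub, abs_mul, abs_of_pos κ0, mul_assoc]
    exact mul_le_mul_of_nonneg_left (hq'.trans (mul_le_mul_of_nonneg_right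
      (Finset.single_le_sum (fun c _ => b1 c) (Finset.mem_univ c)) (Real.sqrt_nonneg _))) κ0.le
  · obtain ⟨y, c1, c2⟩ := h4 (y := fun c => δ / w * (t c - 3 * w / 2)) (by
      rw [dist_zero_right, pi_norm_lt_iff hδ]
      intro c
      rw [norm_mul, Real.norm_of_nonneg (by positivity), Real.norm_eq_abs, div_mul_eq_mul_div,
        div_lt_iff₀ hw]
      exact mul_lt_mul_of_pos_left (abs_lt.2 ⟨by linarith [(ht c).1], by linarith [(ht c).2]⟩) hδ)
    refine ⟨y, c1, fun c => ?_⟩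
    simp only [c2]
    field_simp
    ring

end Pool.Agent.Lib.MP_813db1_ag.VH
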