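import Pool.Agent.Lib.MP_813db1_ag.VH.AlFix
import Pool.Agent.Lib.MP_813db1_ag.VH.AlSs
import Pool.Agent.Lib.MP_813db1_ag.VH.AlTri
import Pool.Agent.Lib.MP_813db1_ag.VH.AlV
import Pool.Agent.Lib.MP_813db1_ag.VH.CjS
import Pool.Agent.Lib.MP_813db1_ag.VH.Dual
import Pool.Agent.Lib.MP_813db1_ag.VH.FaCnj
import Pool.Agent.Lib.MP_813db1_ag.VH.FaDec
import Pool.Agent.Lib.MP_813db1_ag.VH.FaDom
import Pool.Agent.Lib.MP_813db1_ag.VH.FaMax
import Pool.Agent.Lib.MP_813db1_ag.VH.FaPm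
import Pool.Agent.Lib.MP_813db1_ag.VH.FoSt
import Pool.Agent.Lib.MP_813db1_ag.VH.Frm
import Pool.Agent.Lib.MP_813db1_ag.VH.Prim
import Pool.Agent.Lib.MP_813db1_ag.VH.Sum
import Pool.Agent.Lib.MP_813db1_ag.VH.VoAvg
import Pool.Agent.Lib.MP_813db1_ag.VH.VoF3
import Pool.Agent.Lib.MP_813db1_ag.VH.VoLin
import Pool.Agent.Lib.MP_813db1_ag.VH.VoMain
import Pool.Agent.Lib.MP_813db1_ag.VH.VoTr

/-! The volume theorem from the analytic sections. -/

namespace Pool.Agent.Lib.MP_813db1_ag.VH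

open Pool.Agent.Lib.MP_813db1_ag.HS Pool.Agent.Lib.MP_bbd4b9_ag.NH

variable {ι X Y G : Type} [Fintype ι] [DecidableEq ι] [Nonempty ι] [TopologicalSpace X] [T2Space X]
  [CompactSpace X] [MeasurableSpace X] [BorelSpace X] [ChartedSpace (ι → ℂ) X] [TopologicalSpace Y]
  [SimplyConnectedSpace Y] [Group G] [MulAction G Y] {M : Atl ι X} {p : Y → X}

theorem volW (hC : Cx M p G) (hM : MgN M p G) (hF : Hr.FormS2 M G p) (hCo : CorS M p G)
    (hS : SiuS M p G) (hH : HodS M p G) (hPo : PoiS M p G) (hPx : PxS M p G) : VolW M p G :=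
  have hq := hC.cov
  volW0 hC hM (famS (fg_deck hq) intC sumS (domS hq) (cnjS hq (cjS hq (primS hq)) dualS tenS) pmS
      (decS (fg_deck hq) intC hH hPx hPo (frmS hq)))
    (eqvT (flagS (triC ssS) hCo hS sumS)
      (fun g hg ζ k a b c => hF g hg ζ _ k a b c fun _ => Iff.rfl) pmS)
    (algV fixS) (trV hq (avgS hq)) (labS hq (avgS hq)) pmS (f3V posV vanV locP)

end Pool.Agent.Lib.MP_813db1_ag.VH
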